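import Pool.Agent.Lib.MP_9c49f6_co.Defs

/-! Definitions used in the statement on Jack polynomials: `J_λ^(α)` (Stanley's definition) and
the coefficients `c^π_{μ,ν}(α)` of Goulden and Jackson.  As in `Defs`, a homogeneous symmetric
function of degree `n` is its vector of coefficients on the power sums. -/

namespace MJ
open Finset MvPolynomial

variable {n : ℕ} {F : Type} [Field F]

/-- `ℓ(λ)`, the number of parts. -/
def len (l : n.Partition) : ℕ := Multiset.card l.parts

/-- The partition `1^n`. -/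
def ones (n : ℕ) : n.Partition :=
  ⟨Multiset.replicate n 1, fun h => by rw [Multiset.eq_of_mem_replicate h]; exact one_pos, by simp⟩

/-- `z_λ α^ℓ(λ)`. -/
def zal (α : F) (l : n.Partition) : F := zz l * α ^ len l

/-- `⟨∑ a_μ p_μ, ∑ b_μ p_μ⟩_α`. -/
def scalJ (α : F) (a b : n.Partition → F) : F := ∑ μ, a μ * b μ * zal α μ

/-- `J λ` is the power-sum coefficient vector of the Jack polynomial `J_λ^(α)`: only monomials
`m_κ` with `κ ≤ λ` (lexicographic order) occur in `J_λ`, the family is orthogonal for `⟨ , ⟩_α`,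
and the coefficient of `p_1^n` in `J_λ` is `1` (that is, the coefficient of `m_(1^n)` is `n!`). -/
structure IsJack (α : F) (J : n.Partition → n.Partition → F) : Prop where
  tri : ∀ l k, coeff (expo k) (sym (J l)) ≠ 0 → lst k ≤ lst l
  orth : ∀ l k, l ≠ k → scalJ α (J l) (J k) = 0
  norm : ∀ l, J l (ones n) = 1

/-- The coefficient `c^π_(μ,ν)(α)`: `z_π α^ℓ(π)` times the coefficient of
`p_π[X] p_μ[Y] p_ν[Z]` in `∑_λ J_λ[X] J_λ[Y] J_λ[Z] / ⟨J_λ, J_λ⟩_α`. -/
def cJ (α : F) (J : n.Partition → n.Partition → F) (π μ ν : n.Partition) : F :=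
  zal α π * ∑ l, (scalJ α (J l) (J l))⁻¹ * (J l π * J l μ * J l ν)

end MJ
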