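import Pool.Agent.Lib.MP_9c49f6_co.Part
import Pool.Agent.Lib.MP_9c49f6_co.JDefs

/-! Blueprint for the second coefficient of the Jack connection coefficients.
`X k` is the power sum `p_(k+1)`; `Vw R = Λ[w]`; `Lx ε ħ` is the Nazarov-Sklyanin Lax operator
(cut `1`, twist `ε`, join `ħ`; Jack frame `ε = α - 1`, `ħ = α`).  Matrices act on ROW vectors:
`T p_π = ∑ μ, mat T n π μ • p_μ`. -/

namespace MJB
open MJ Finset MvPolynomial

abbrev La (R : Type) [CommRing R] := MvPolynomial ℕ R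
abbrev Vw (R : Type) [CommRing R] := Polynomial (La R)
abbrev Mat (n : ℕ) (R : Type) := Matrix n.Partition n.Partition R
abbrev R0 := MvPolynomial (Fin 2) ℚ

section ops
variable (R : Type) [CommRing R]

/-- the derivation `p_k ↦ k w^k` -/
noncomputable def jn : La R →ₗ[R] Vw R :=
  (mkDerivation R fun k : ℕ => Polynomial.monomial (k+1) ((k+1 : ℕ) : La R)).toLinearMap

/-- `a w^k ↦ w^k jn a` -/
noncomputable def JV : Module.End R (Vw R) :=
  Polynomial.lsum fun k => LinearMap.mulLeft R (Polynomial.X ^ k : Vw R) ∘ₗ jn R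

/-- `∑_(j=1..k) p_j w^(k-j)` -/
noncomputable def cutw (k : ℕ) : Vw R :=
  ∑ j ∈ range k, Polynomial.monomial (k - 1 - j) (X j : La R)

/-- coefficient of `w^0` -/
noncomputable def pi0 : Vw R →ₗ[R] La R := (Polynomial.lcoeff (La R) 0).restrictScalars R

variable {R}

/-- `a w^k ↦ a (ε k w^k + cutw k)` -/
noncomputable def L0 (ε : R) : Module.End R (Vw R) :=
  Polynomial.lsum fun k => (LinearMap.toSpanSingleton (La R) (Vw R)
    (Polynomial.monomial k (C (ε * k)) + cutw R k)).restrictScalars R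

noncomputable def Lx (ε ħ : R) : Module.End R (Vw R) := L0 ε + ħ • JV R

/-- `π_0 L^m jn`, so that `π_0 L^(m+1) ι = ħ • It ε ħ m` -/
noncomputable def It (ε ħ : R) (m : ℕ) : Module.End R (La R) := pi0 R ∘ₗ (Lx ε ħ ^ m) ∘ₗ jn R

variable (R) in
/-- `p_π` -/
noncomputable def pm {n : ℕ} (π : n.Partition) : La R := monomial (dOf π) 1

noncomputable def mat (T : Module.End R (La R)) (n : ℕ) : Mat n R :=
  fun π μ => coeff (dOf μ) (T (pm R π))

noncomputable def Im (ε ħ : R) (n m : ℕ) : Mat n R := mat (It ε ħ m) n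

/-- `c ν` is the matrix of the operator `K_ν` -/
structure IsK (ε ħ : R) (n : ℕ) (c : n.Partition → Mat n R) : Prop where
  comm : ∀ ν m, c ν * Im ε ħ n m = Im ε ħ n m * c ν
  ev : ∀ ν π, c ν π (ones n) = if π = ν then 1 else 0

end ops

/-- `A` preserves the lexicographic flag of monomial symmetric functions -/
def Tri {F : Type} [Field F] {n : ℕ} (A : Mat n F) : Prop :=
  ∀ (a : n.Partition → F) (l : n.Partition),
    (∀ k, lst l < lst k → coeff (expo k) (sym a) = 0) →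
    ∀ k, lst l < lst k → coeff (expo k) (sym (Matrix.vecMul a A)) = 0

/-- `A` is self-adjoint for the diagonal form with weights `ζ` -/
def SA {R : Type} [CommRing R] {n : ℕ} (ζ : n.Partition → R) (A : Mat n R) : Prop :=
  ∀ π μ, A π μ * ζ μ = A μ π * ζ π

/-! ### Lax operator: basic blocks -/

def st_HOM : Prop := ∀ (R : Type) [CommRing R] (ε ħ : R) (m n : ℕ) (π : n.Partition),
  It ε ħ m (pm R π) = ∑ μ, monomial (dOf μ) (Im ε ħ n m π μ)

def st_SC : Prop := ∀ (R : Type) [CommRing R] (ε ħ x : R) (n m : ℕ) (π μ : n.Partition),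
  Im (x * ε) (x ^ 2 * ħ) n m π μ * x ^ (len μ + 1) = x ^ (m + len π) * Im ε ħ n m π μ

def st_MAP : Prop := ∀ (R S : Type) [CommRing R] [CommRing S] (φ : R →+* S) (ε ħ : R) (n m : ℕ),
  (Im ε ħ n m).map φ = Im (φ ε) (φ ħ) n m

def st_SPAN : Prop := ∀ (R : Type) [CommRing R] [Algebra ℚ R] (ε ħ : R) (n : ℕ)
  (ν : n.Partition), ∃ A ∈ Algebra.adjoin R (Set.range (Im ε ħ n)),
    ∀ π, A π (ones n) = if π = ν then 1 else 0

def st_SA : Prop := ∀ (F : Type) [Field F] (ε ħ : F), ħ ≠ 0 → ∀ n m : ℕ,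
  SA (zal ħ) (Im ε ħ n m)

def st_TRI : Prop := ∀ (F : Type) [Field F] [CharZero F] (α : F), α ≠ 0 → ∀ n m : ℕ,
  Tri (Im (α - 1) α n m)

def st_SKEW : Prop := ∀ (K : Type) [Field K] [LinearOrder K] [IsStrictOrderedRing K] (n : ℕ)
  (ζ : n.Partition → K), (∀ μ, 0 < ζ μ) → ∀ A B : Mat n K,
  Tri A → Tri B → SA ζ A → SA ζ B → A * B = B * A

def st_UNQ : Prop := ∀ (R : Type) [CommRing R] [Algebra ℚ R] (ε ħ : R) (n : ℕ),
  (∀ c c', IsK ε ħ n c → IsK ε ħ n c' → c = c') ∧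
  ∀ (S : Type) [CommRing S] (φ : R →+* S) c, IsK ε ħ n c →
    IsK (φ ε) (φ ħ) n fun ν => (c ν).map φ

/-- the universal coefficients over `ℚ[ε,ħ]` -/
structure Univ (n : ℕ) (c : n.Partition → Mat n R0) : Prop where
  isK : IsK (X 0 : R0) (X 1) n c
  symm : ∀ π μ ν, c ν π μ = c μ π ν
  hom : ∀ ν π μ d, coeff d (c ν π μ) ≠ 0 → d 0 + 2 * d 1 + len μ + len ν = n + len π

def st_UNIV : Prop := ∀ n : ℕ, ∃ c, Univ n c

/-! ### Jack polynomials -/

def st_JK : Prop := ∀ (F : Type) [Field F] [CharZero F] (α : F), α ≠ 0 → ∀ (n : ℕ)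
  (J : n.Partition → n.Partition → F), IsJack α J → (∀ l, scalJ α (J l) (J l) ≠ 0) →
  IsK (α - 1) α n fun ν π μ => cJ α J π μ ν

/-- what the first-order half (rows `C_*`) proves -/
def st_CORE : Prop := ∀ (F : Type) [Field F] [CharZero F] (b : F), Transcendental ℚ b → ∀ n : ℕ,
  (∃! J : n.Partition → n.Partition → F, IsJack (1 + b) J) ∧
  ∀ J : n.Partition → n.Partition → F, IsJack (1 + b) J →
    (∀ l, scalJ (1 + b) (J l) (J l) ≠ 0) ∧
    ∀ π μ ν : n.Partition, ∃ (c0 c1 : ℚ) (A B : Polynomial ℚ), 0 ≤ c0 ∧ 0 ≤ c1 ∧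
      B.coeff 0 ≠ 0 ∧ cJ (1 + b) J π μ ν =
        b ^ ((n : ℤ) + len π - len μ - len ν) *
          (c0 + c1 * b⁻¹ + b⁻¹ ^ 2 * (Polynomial.aeval b⁻¹ A / Polynomial.aeval b⁻¹ B))

/-! ### The class algebra (`ε = 0`, `ħ = 1`) -/

/-- number of pairs `(g, k)` with `g, k, g k` of cycle types `π, ν, μ` -/
noncomputable def N3 {n : ℕ} (π ν μ : n.Partition) : ℕ :=
  Nat.card {x : Equiv.Perm (Fin n) × Equiv.Perm (Fin n) //
    x.1.partition.parts = π.parts ∧ x.2.partition.parts = ν.parts ∧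
      (x.1 * x.2).partition.parts = μ.parts}

/-- multiplication by the class sum of type `ν` -/
noncomputable def Cl {n : ℕ} (ν : n.Partition) : Mat n ℚ :=
  fun π μ => (N3 π ν μ : ℚ) * zz π / n.factorial

def st_CLS : Prop := ∀ (n : ℕ) (ν : n.Partition), SA (zal (1 : ℚ)) (Cl ν) ∧
  (∀ π, Cl ν π (ones n) = if π = ν then 1 else 0) ∧
  ∀ π : n.Partition, Nat.card {g : Equiv.Perm (Fin n) // g.partition.parts = π.parts} * zz π =
    n.factorial

def st_CLT : Prop := ∀ (n : ℕ) (ν : n.Partition), Tri (Cl ν)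

def st_S1 : Prop := ∀ (n : ℕ) (c : n.Partition → Mat n ℚ), IsK (0 : ℚ) 1 n c →
  ∀ ν π μ, 0 ≤ c ν π μ

/-! ### Assembly -/

/-- the coefficient of `ħ^j` at `ε = 1` -/
noncomputable def hc (j : ℕ) (p : R0) : ℚ :=
  (aeval ![(1 : Polynomial ℚ), Polynomial.X] p).coeff j

/-- the two lowest `ħ`-coefficients are nonnegative -/
def st_A01 : Prop := ∀ (n : ℕ) (c : n.Partition → Mat n R0), Univ n c →
  ∀ ν π μ, 0 ≤ hc 0 (c ν π μ) ∧ 0 ≤ hc 1 (c ν π μ)

/-- final statement -/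
def st_MAIN : Prop := ∀ (F : Type) [Field F] [CharZero F] (b : F), Transcendental ℚ b → ∀ n : ℕ,
  (∃! J : n.Partition → n.Partition → F, IsJack (1 + b) J) ∧
  ∀ J : n.Partition → n.Partition → F, IsJack (1 + b) J →
  ∀ π μ ν : n.Partition, ∃ Q : Polynomial ℚ, cJ (1 + b) J π μ ν = Polynomial.aeval b Q ∧
    (∀ k, n + min (len π) (min (len μ) (len ν)) < k + len μ + len ν → Q.coeff k = 0) ∧
    (∀ k, n + min (len π) (min (len μ) (len ν)) ≤ k + 1 + len μ + len ν → 0 ≤ Q.coeff k) ∧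
    (n + 2 * min (len π) (min (len μ) (len ν)) ≤ len π + len μ + len ν + 4 →
      ∀ k, 0 ≤ Q.coeff k)

end MJB
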