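import Pool.Agent.Lib.MP_9c49f6_co.CTwo
import Pool.Agent.Lib.MP_9c49f6_co.JB0

/-! Blueprint of the first-order half (`st_CORE`).  `X k` is the power sum `p_(k+1)`. -/

namespace MJC
open MJ Finset MvPolynomial

abbrev La := Lam ℚ

/-- `p_k`, with `p_0 = 0` -/
noncomputable def pv : ℕ → La
  | 0 => 0
  | k+1 => X k

/-- the complete homogeneous function `h_m` -/
noncomputable def hh (m : ℕ) : La := ex ℚ (fun k => (X k : La)) m
noncomputable def hl (l : List ℕ) : La := (l.map hh).prod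
def fl (l : List ℕ) : ℚ := (l.map fun m => (m.factorial : ℚ)).prod
noncomputable def eta (N l : ℕ) : La := hh l * hh (N - l)
def cN (N l : ℕ) : ℚ := l.factorial * (N - l).factorial
/-- `p_1 ↦ 1`, other `p_k ↦ 0` -/
noncomputable def eps : La →ₐ[ℚ] ℚ := aeval fun k => if k = 0 then 1 else 0
/-- `p_i ↦ i p_(i+1)` -/
noncomputable def Li : Derivation ℚ La La := mkDerivation ℚ fun k => ((k : ℚ) + 1) • X (k+1)
def wl (m m' l : ℕ) : ℚ := ((m : ℚ) - l)⁻¹ + ((m' : ℚ) - l)⁻¹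
noncomputable def et (m m' l : ℕ) : La :=
  eta (m + m') l - ((m.factorial * m'.factorial : ℚ) / cN (m + m') l) • (hh m * hh m')
noncomputable def uu (m m' : ℕ) : La := ∑ l ∈ range (min m m'), wl m m' l • et m m' l
noncomputable def Ul (l : List ℕ) : La := pair uu hh l

section SO
variable {R : Type} [CommRing R] [Algebra ℚ R]

noncomputable def Ga (n : ℕ) (φ : La →ₐ[ℚ] R) (γ : ℕ → ℕ → R) (f g : La) : R :=
  ∑ k ∈ range n, ∑ l ∈ range n, γ (k+1) (l+1) * (φ (pderiv k f) * φ (pderiv l g))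

noncomputable def P1 (n : ℕ) (φ : La →ₐ[ℚ] R) (δ : ℕ → R) (γ : ℕ → ℕ → R) : La →ₗ[ℚ] R where
  toFun f := ∑ k ∈ range n, δ (k+1) * φ (pderiv k f) +
    (1/2 : ℚ) • ∑ k ∈ range n, ∑ l ∈ range n, γ (k+1) (l+1) * φ (pderiv k (pderiv l f))
  map_add' f g := by simp only [map_add, mul_add, sum_add_distrib, smul_add]; abel
  map_smul' c f := by
    simp only [Derivation.map_smul, map_smul, mul_smul_comm, ← smul_sum, RingHom.id_apply, smul_add,
      smul_comm c]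

lemma P1_apply (n : ℕ) (φ : La →ₐ[ℚ] R) (δ : ℕ → R) (γ : ℕ → ℕ → R) (f : La) :
    P1 n φ δ γ f = ∑ k ∈ range n, δ (k+1) * φ (pderiv k f) +
      (1/2 : ℚ) • ∑ k ∈ range n, ∑ l ∈ range n, γ (k+1) (l+1) * φ (pderiv k (pderiv l f)) := rfl
end SO

/-- `S* = 1/2 ∑ p_(i+j) ∂_i ∂_j` -/
noncomputable def Sst (n : ℕ) : La →ₗ[ℚ] La :=
  P1 n (AlgHom.id ℚ La) (fun _ => 0) fun i j => pv (i + j)

/-- `[p_μ] h_κ` -/
noncomputable def co {n : ℕ} (κ μ : n.Partition) : ℚ := coeff (dOf μ) (hl (lst κ))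
/-- `[p_μ] U_λ` -/
noncomputable def cu {n : ℕ} (l μ : n.Partition) : ℚ := coeff (dOf μ) (Ul (lst l))

section Loc
variable {F : Type} [Field F] [CharZero F]

/-- rational functions of `β` regular at `β = 0` -/
def OO (β : F) : Subring F where
  carrier := {x | ∃ A B : Polynomial ℚ, B.coeff 0 ≠ 0 ∧ Polynomial.aeval β B ≠ 0 ∧
    x = Polynomial.aeval β A / Polynomial.aeval β B}
  mul_mem' := by
    rintro _ _ ⟨A, B, h1, h2, rfl⟩ ⟨A', B', h1', h2', rfl⟩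
    exact ⟨A * A', B * B', by simp [h1, h1'], by simp [h2, h2'], by
      simp only [map_mul]; field_simp⟩
  one_mem' := ⟨1, 1, by simp, by simp, by simp⟩
  add_mem' := by
    rintro _ _ ⟨A, B, h1, h2, rfl⟩ ⟨A', B', h1', h2', rfl⟩
    exact ⟨A * B' + A' * B, B * B', by simp [h1, h1'], by simp [h2, h2'], by
      simp only [map_mul, map_add]; field_simp⟩
  zero_mem' := ⟨0, 1, by simp, by simp, by simp⟩
  neg_mem' := by
    rintro _ ⟨A, B, h1, h2, rfl⟩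
    exact ⟨-A, B, h1, h2, by simp [neg_div]⟩

/-- `x ∈ β^k O` -/
def Cg (β : F) (k : ℕ) (x : F) : Prop := ∃ o ∈ OO β, x = β ^ k * o

/-- `α^(ℓ(μ) - n) J_λ[μ]` -/
def jt {n : ℕ} (b : F) (J : n.Partition → n.Partition → F) (l μ : n.Partition) : F :=
  J l μ * (1 + b) ^ len μ / (1 + b) ^ n
end Loc

/-! ### Two alphabets -/

abbrev R2 := Two ℕ

noncomputable def MM : PowerSeries R2 :=
  PowerSeries.mk fun m => (m.factorial : ℚ) • tn (hh m) (hh m)
noncomputable def Mi : PowerSeries R2 := PowerSeries.invOfUnit MM 1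
/-- `log M` -/
noncomputable def KK : PowerSeries R2 :=
  PowerSeries.mk fun k => (k : ℚ)⁻¹ • PowerSeries.coeff (k - 1) (ds MM * Mi)
noncomputable def BB (m m' : ℕ) : R2 :=
  ∑ l ∈ range (min m m'), (wl m m' l * cN (m + m') l) • tn (et m m' l) (et m m' l)
noncomputable def CC : ℕ → ℕ → R2 := conv2 Mi Mi BB
noncomputable def ka (k : ℕ) : R2 := (k : ℚ) • PowerSeries.coeff k KK
noncomputable def ga (k l : ℕ) : R2 := ((k : ℚ) * l) • CC k l
noncomputable def de (k : ℕ) : R2 := (-(k : ℚ) / 2) • PowerSeries.coeff k (diag CC)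
noncomputable def K1 : PowerSeries R2 :=
  PowerSeries.X * ds KK + KK - dm Nu KK - (1/2 : ℚ) • diag CC
noncomputable def phi : La →ₐ[ℚ] R2 := aeval fun k => ka (k+1)
/-- `L_Y` for `true`, `L_Z` for `false`, on series -/
noncomputable def LS (b : Bool) : Derivation ℚ (PowerSeries R2) (PowerSeries R2) := dm (lf b Li)
/-- `E_Y`, `E_Z` on series -/
noncomputable def ES (b : Bool) (f : PowerSeries R2) : PowerSeries R2 :=
  Eop (PowerSeries.C (em b (X 0))) (LS b) f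
/-- `U = p_1(Y) + L_Y K`, `V = p_1(Z) + L_Z K` -/
noncomputable def UV (b : Bool) : PowerSeries R2 := PowerSeries.C (em b (X 0)) + LS b KK

/-! ### Refined variables `p_(i,j)` -/

abbrev La2 := MvPolynomial (ℕ × ℕ) ℚ
abbrev A2 := Two (ℕ × ℕ)

noncomputable def l1 : Derivation ℚ La2 La2 :=
  mkDerivation ℚ fun v => (v.1 : ℚ) • X (v.1 + 1, v.2)
noncomputable def l2 : Derivation ℚ La2 La2 :=
  mkDerivation ℚ fun v => (v.2 : ℚ) • X (v.1, v.2 + 1)
noncomputable def i1 : La →ₐ[ℚ] La2 := rename fun k => (k+1, 0)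
noncomputable def i2 : La →ₐ[ℚ] La2 := rename fun k => (0, k+1)
noncomputable def i3 : La →ₐ[ℚ] La2 := rename fun k => (k+1, k+1)
noncomputable def sp : La2 →ₐ[ℚ] La := aeval fun v => pv (v.1 + v.2)
noncomputable def ff (a b r : ℕ) : La2 :=
  ((a.factorial * b.factorial : ℚ))⁻¹ •
    (Eop (X (1, 0)) l1)^[a] ((Eop (X (0, 1)) l2)^[b] (i3 (hh r)))
noncomputable def GG (m m' r : ℕ) : La :=
  if r ≤ min m m' then sp (ff (m - r) (m' - r) r) else 0

noncomputable def Zs (δ a b : ℕ) : Polynomial ℚ :=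
  ∑ c ∈ range (min a b + 1), Polynomial.monomial c
    (((a - c).factorial * (b - c).factorial * c.factorial * (c + δ).factorial : ℚ))⁻¹
noncomputable def Zd (δ i a b c : ℕ) : ℚ := ((1 - Polynomial.X) ^ i * Zs δ a b).coeff c
noncomputable def ss (N i : ℕ) : La := eta N i - if i = 0 then 0 else eta N (i - 1)

noncomputable def Bref (k l : ℕ) : A2 := ∑ r ∈ range (min k l),
  ((r+1).factorial * r.factorial * (k - (r+1)).factorial * (l - (r+1)).factorial : ℚ) •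
    tn (ff (k - (r+1)) (l - (r+1)) (r+1)) (ff (k - (r+1)) (l - (r+1)) (r+1))
noncomputable def Wref (k l : ℕ) : A2 := ∑ r ∈ range (min k l),
  ((r+1).factorial * (r+1).factorial * (k - (r+1)).factorial * (l - (r+1)).factorial : ℚ) •
    tn (ff (k - (r+1)) (l - (r+1)) (r+1)) (ff (k - (r+1)) (l - (r+1)) (r+1))
/-- apply an algebra map of the alphabets to a series -/
noncomputable def ms {σ τ : Type} (φ : MvPolynomial σ ℚ →ₐ[ℚ] MvPolynomial τ ℚ) :
    PowerSeries (Two σ) →+* PowerSeries (Two τ) :=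
  PowerSeries.map (two φ : Two σ →+* Two τ)
noncomputable def Cref : ℕ → ℕ → A2 := conv2 (ms i1 Mi) (ms i2 Mi) Bref

/-! ### Statements -/

def St_SO : Prop := ∀ (R : Type) [CommRing R] [Algebra ℚ R] (n : ℕ) (φ : La →ₐ[ℚ] R)
  (δ : ℕ → R) (γ : ℕ → ℕ → R), (∀ k l, γ k l = γ l k) →
    (∀ (x : ℕ → La) (l : List ℕ), P1 n φ δ γ (l.map x).prod =
      one (fun m => P1 n φ δ γ (x m)) (fun m => φ (x m)) l +
        pair (fun m m' => Ga n φ γ (x m) (x m')) (fun m => φ (x m)) l) ∧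
    (∀ m, 1 ≤ m → m ≤ n → P1 n φ δ γ (pv m) = δ m) ∧
    ∀ m m', 1 ≤ m → m ≤ n → 1 ≤ m' → m' ≤ n → Ga n φ γ (pv m) (pv m') = γ m m'

def St_CAU : Prop := ∀ (F : Type) [Field F] [CharZero F] (n : ℕ) (a : n.Partition → F)
  (κ : n.Partition), coeff (expo κ) (sym a) = ∑ μ, a μ * ((zz μ : F) * (co κ μ : F))

def St_A1 : Prop := ∀ (n : ℕ) (κ ρ : n.Partition),
  (co κ ρ ≠ 0 → lst ρ ≤ lst κ ∧ len κ ≤ len ρ ∧ (len ρ = len κ → ρ = κ)) ∧ co κ κ ≠ 0

def St_A2 : Prop := ∀ (n : ℕ) (ρ : n.Partition) (f : La), f ∈ Hm ℚ n →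
  ∑ μ : n.Partition, (if len μ = len ρ + 1 then (zz μ : ℚ) * co ρ μ * coeff (dOf μ) f else 0) =
    (zz ρ : ℚ) * co ρ ρ * coeff (dOf ρ) (Sst n f)

def St_A3a : Prop := ∀ (n : ℕ) (l ρ : n.Partition), lst l < lst ρ →
  coeff (dOf ρ) (Sst n (hl (lst l))) = cu l ρ

def St_A3b : Prop := ∀ (n : ℕ) (l : n.Partition), eps (Ul (lst l)) = 0 ∧
  ∃ u : n.Partition → ℚ, (∀ κ, u κ ≠ 0 → lst l ≤ lst κ) ∧ Ul (lst l) = ∑ κ, u κ • hl (lst κ)

def St_A4 : Prop := ∀ (F : Type) [Field F] [CharZero F] (b : F), Transcendental ℚ b → ∀ n : ℕ,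
  ∃ J : n.Partition → n.Partition → F, IsJack (1 + b) J ∧ ∀ l μ,
    Cg b⁻¹ 2 (jt b J l μ - (fl (lst l) : F) * ((co l μ : F) - b⁻¹ * (cu l μ : F)))

def St_A5 : Prop := ∀ (F : Type) [Field F] [CharZero F] (α : F), α ≠ 0 → ∀ (n : ℕ)
  (J : n.Partition → n.Partition → F), IsJack α J → (Matrix.of J).det ≠ 0 →
    (∀ l, scalJ α (J l) (J l) ≠ 0) ∧ ∀ J', IsJack α J' → J' = J

def St_K : Prop := MM * Mi = 1 ∧ ds MM = ds KK * MM ∧ PowerSeries.coeff 0 KK = 0 ∧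
  ds MM = ES true (ES false MM) ∧ (∀ b, ES b MM = UV b * MM) ∧
  ds KK = UV true * UV false + LS true (LS false KK) ∧ KK ∈ PS (Pos _) ∧ ∀ b, UV b ∈ PS (Pos _)

def St_B0 : Prop := (∀ m, phi (hh m) = PowerSeries.coeff m MM) ∧ ∀ n m, m ≤ n →
  P1 n phi de ga (hh m) = 0 ∧ ∀ m', m' ≤ n → Ga n phi ga (hh m) (hh m') = BB m m'

def St_B1 : Prop := ∀ (n : ℕ) (l : List ℕ), (∀ m ∈ l, m ≤ n) →
  phi (hl l) = fl l • tn (hl l) (hl l) ∧
  P1 n phi de ga (hl l) - phi (Ul l) = -(fl l • (tn (Ul l) (hl l) + tn (hl l) (Ul l)))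

def St_B3 : Prop := ∀ (n : ℕ) (π μ ν : n.Partition),
  0 ≤ coeff (ex2 (dOf μ) (dOf ν)) (phi (monomial (dOf π) 1)) ∧
  0 ≤ coeff (ex2 (dOf μ) (dOf ν)) (P1 n phi de ga (monomial (dOf π) 1)) +
    ((n : ℚ) + len π - len μ - len ν) * coeff (ex2 (dOf μ) (dOf ν)) (phi (monomial (dOf π) 1))

def St_C1 : Prop := ∀ m m' r : ℕ,
  ((m : ℚ) + 1 - r) • GG (m+1) m' r + ((r : ℚ) + 1) • GG (m+1) m' (r+1) =
    ((m' : ℚ) + 1 - r) • GG m (m'+1) r + ((r : ℚ) + 1) • GG m (m'+1) (r+1)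

def St_C2a : Prop := ∀ m m' r : ℕ, GG m m' r = ∑ i ∈ range (min m m' + 1),
  ((m - i).factorial * (m' - i).factorial * Zd 0 i (m - i) (m' - i) r) • ss (m + m') i

def St_C2b : Prop := ∀ m m' r : ℕ, GG m m' (r+1) = ∑ l ∈ range (min m m'),
  (((m : ℚ) + m' - 2 * l) * (m - (l+1)).factorial * (m' - (l+1)).factorial *
    Zd 1 l (m - (l+1)) (m' - (l+1)) r) • et m m' l

def St_C3 : Prop := ∀ δ m m' i i' : ℕ, i ≤ min m m' → i' ≤ min m m' →
  ∑ c ∈ range (min m m' + 1),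
    ((m - c).factorial * (m' - c).factorial * c.factorial * (c + δ).factorial : ℚ) *
      (Zd δ i (m - i) (m' - i) c * Zd δ i' (m - i') (m' - i') c) =
    if i = i' then (i.factorial * (m + m' + δ + 1 - i).factorial : ℚ) /
      (((m : ℚ) + m' + δ + 1 - 2 * i) * (m - i).factorial * (m' - i).factorial *
        (m - i + δ).factorial * (m' - i + δ).factorial) else 0

def St_C4 : Prop := ∀ m m', two sp (Bref m m') = BB m m'

def St_C5 : Prop := ∀ N, ∑ p ∈ antidiagonal (N+1), two sp (Wref p.1 p.2) =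
  PowerSeries.coeff N (MM * ES true (ES false MM) - ES true MM * ES false MM)

def St_D : Prop := ∀ k l, Cref k l ∈ Pos _ ∧ two sp (Cref k l) = CC k l ∧ CC k l ∈ Pos _

def St_E : Prop := K1 ∈ PS (Pos _)

theorem pv.rlz : True := by have := @pv.eq_def; trivial

end MJC
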