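import Pool.Agent.Lib.MP_9c49f6_co.CH

/-! Refined variables: recursions for `ff` and intertwining relations. -/

namespace MJC
open MJ Finset MvPolynomial

lemma l1_X (v : ℕ × ℕ) : l1 (X v) = (v.1 : ℚ) • X (v.1 + 1, v.2) := mkDerivation_X _ _ _
lemma l2_X (v : ℕ × ℕ) : l2 (X v) = (v.2 : ℚ) • X (v.1, v.2 + 1) := mkDerivation_X _ _ _
lemma i1_X (k : ℕ) : i1 (X k) = X (k+1, 0) := rename_X _ _
lemma i2_X (k : ℕ) : i2 (X k) = X (0, k+1) := rename_X _ _
lemma i3_X (k : ℕ) : i3 (X k) = X (k+1, k+1) := rename_X _ _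
lemma sp_X (v : ℕ × ℕ) : sp (X v) = pv (v.1 + v.2) := aeval_X _ _

lemma l1_l2 (f : La2) : l1 (l2 f) = l2 (l1 f) :=
  der_comm _ _ (fun v => by simp [l1_X, l2_X, smul_comm (v.1 : ℚ)]) f

lemma E1_E2 (f : La2) : Eop (X (1, 0)) l1 (Eop (X (0, 1)) l2 f) =
    Eop (X (0, 1)) l2 (Eop (X (1, 0)) l1 f) := by
  simp only [Eop, map_add, Derivation.leibniz, l1_X, l2_X, l1_l2, smul_eq_mul]
  simp; ring

lemma Eop_smul {A : Type} [CommRing A] [Algebra ℚ A] (p : A) (Y : Derivation ℚ A A) (q : ℚ)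
    (f : A) : Eop p Y (q • f) = q • Eop p Y f := by simp [Eop]

lemma ff_zero (r : ℕ) : ff 0 0 r = i3 (hh r) := by simp [ff]

lemma ff_succ1 (a b r : ℕ) :
    ((a : ℚ) + 1) • ff (a+1) b r = Eop (X (1, 0)) l1 (ff a b r) := by
  have h1 : (a.factorial : ℚ) ≠ 0 := by exact_mod_cast a.factorial_ne_zero
  have h2 : (b.factorial : ℚ) ≠ 0 := by exact_mod_cast b.factorial_ne_zero
  rw [ff, ff, Eop_smul, Function.iterate_succ_apply', smul_smul, Nat.factorial_succ]
  congr 1; push_cast; field_simp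

lemma ff_succ2 (a b r : ℕ) :
    ((b : ℚ) + 1) • ff a (b+1) r = Eop (X (0, 1)) l2 (ff a b r) := by
  have h1 : (a.factorial : ℚ) ≠ 0 := by exact_mod_cast a.factorial_ne_zero
  have h2 : (b.factorial : ℚ) ≠ 0 := by exact_mod_cast b.factorial_ne_zero
  have hc : Function.Commute (Eop (X (1, 0)) l1) (Eop (X (0, 1)) l2) := E1_E2
  rw [ff, ff, Eop_smul, Function.iterate_succ_apply', (hc.iterate_left a).eq, smul_smul,
    Nat.factorial_succ]
  congr 1; push_cast; field_simp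

lemma i1_Li (f : La) : i1 (Li f) = l1 (i1 f) :=
  hom_der i1 Li l1 (fun k => by simp [Li_X, i1_X, l1_X]) f
lemma i2_Li (f : La) : i2 (Li f) = l2 (i2 f) :=
  hom_der i2 Li l2 (fun k => by simp [Li_X, i2_X, l2_X]) f
lemma l2_i1 (f : La) : l2 (i1 f) = 0 := by
  simpa using (hom_der i1 0 l2 (fun k => by simp [i1_X, l2_X]) f).symm
lemma l1_i2 (f : La) : l1 (i2 f) = 0 := by
  simpa using (hom_der i2 0 l1 (fun k => by simp [i2_X, l1_X]) f).symm

lemma sp_comp_i1 : sp.comp i1 = AlgHom.id ℚ La := by ext k : 1; simp [i1_X, sp_X]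
lemma sp_comp_i2 : sp.comp i2 = AlgHom.id ℚ La := by ext k : 1; simp [i2_X, sp_X]
lemma sp_i1 (f : La) : sp (i1 f) = f := DFunLike.congr_fun sp_comp_i1 f
lemma sp_i2 (f : La) : sp (i2 f) = f := DFunLike.congr_fun sp_comp_i2 f

lemma sp_l (f : La2) : sp ((l1 + l2) f) = Li (sp f) :=
  hom_der sp (l1 + l2) Li (fun v => by
    simp only [Derivation.add_apply, l1_X, l2_X, map_add, map_smul, sp_X, Li_pv]
    rw [Nat.add_right_comm, ← add_assoc, ← add_smul]; simp) f

lemma pv_Pos (i : ℕ) : pv i ∈ Pos ℕ := by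
  cases i with
  | zero => exact zero_mem _
  | succ i => exact X_Pos _

lemma l1_X_Pos (v : ℕ × ℕ) : l1 (X v) ∈ Pos _ := by
  rw [l1_X]; exact Pos_cone _ (by positivity) _ (X_Pos _)
lemma l2_X_Pos (v : ℕ × ℕ) : l2 (X v) ∈ Pos _ := by
  rw [l2_X]; exact Pos_cone _ (by positivity) _ (X_Pos _)
lemma i1_X_Pos (k : ℕ) : i1 (X k) ∈ Pos _ := by rw [i1_X]; exact X_Pos _
lemma i2_X_Pos (k : ℕ) : i2 (X k) ∈ Pos _ := by rw [i2_X]; exact X_Pos _
lemma i3_X_Pos (k : ℕ) : i3 (X k) ∈ Pos _ := by rw [i3_X]; exact X_Pos _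
lemma sp_X_Pos (v : ℕ × ℕ) : sp (X v) ∈ Pos _ := by rw [sp_X]; exact pv_Pos _
lemma ff_zero_Pos (r : ℕ) : ff 0 0 r ∈ Pos _ := by
  rw [ff_zero]; exact hom_Pos i3_X_Pos _ (hh_Pos r)

lemma ff_r0 (a b : ℕ) : ff a b 0 = i1 (hh a) * i2 (hh b) := by
  induction a with
  | zero =>
    induction b with
    | zero => simp [ff_zero]
    | succ b ih =>
      have h : ((b : ℚ) + 1) ≠ 0 := by positivity
      apply smul_right_injective _ h
      simp only [ff_succ2, ih, hh_zero, map_one, one_mul]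
      rw [← map_smul, ← Eop_hh, Eop, Eop, map_add, map_mul, i2_X, i2_Li]
  | succ a ih =>
    have h : ((a : ℚ) + 1) ≠ 0 := by positivity
    apply smul_right_injective _ h
    simp only [ff_succ1, ih]
    rw [← smul_mul_assoc, ← map_smul, ← Eop_hh, Eop, Eop, map_add, map_mul i1, i1_X, i1_Li,
      Derivation.leibniz, l1_i2]
    simp only [smul_eq_mul]; ring

lemma GG_zero (m m' : ℕ) : GG m m' 0 = hh m * hh m' := by
  simp [GG, ff_r0, sp_i1, sp_i2]

lemma GG_of_lt {m m' r : ℕ} (h : min m m' < r) : GG m m' r = 0 := if_neg (by omega)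

lemma GG_of_le {m m' r : ℕ} (h : r ≤ min m m') : GG m m' r = sp (ff (m - r) (m' - r) r) :=
  if_pos h

lemma eps_pv (i : ℕ) : eps (pv i) = if i = 1 then 1 else 0 := by
  cases i with
  | zero => simp
  | succ i => simp [eps_X]

lemma eps_sp_der (δ : Derivation ℚ La2 La2) (h : ∀ v, eps (sp (δ (X v))) = 0) (f : La2) :
    eps (sp (δ f)) = 0 := by
  simpa using hom_der (eps.comp sp) δ 0 (by simpa using h) f

lemma eps_ff (a b r : ℕ) : eps (sp (ff a b (r+1))) = 0 := by
  induction a with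
  | zero =>
    induction b with
    | zero =>
      have h : ((r : ℚ) + 1) ≠ 0 := by positivity
      apply smul_right_injective _ h
      simp only [ff_zero, smul_zero]
      rw [← map_smul, ← map_smul, ← map_smul, hh_succ]
      simp only [map_sum, map_mul, i3_X, sp_X, eps_pv]
      exact sum_eq_zero fun k _ => by rw [if_neg (by omega), zero_mul]
    | succ b ih =>
      have h : ((b : ℚ) + 1) ≠ 0 := by positivity
      apply smul_right_injective _ h
      simp only [smul_zero]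
      rw [← map_smul, ← map_smul, ff_succ2, Eop, map_add, map_add, map_mul, map_mul, ih,
        eps_sp_der l2 fun v => by
          simp only [l2_X, map_smul, sp_X, eps_pv, smul_eq_mul]
          split_ifs with h1
          · have : v.2 = 0 := by omega
            simp [this]
          · simp]
      simp
  | succ a ih =>
    have h : ((a : ℚ) + 1) ≠ 0 := by positivity
    apply smul_right_injective _ h
    simp only [smul_zero]
    rw [← map_smul, ← map_smul, ff_succ1, Eop, map_add, map_add, map_mul, map_mul, ih,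
      eps_sp_der l1 fun v => by
        simp only [l1_X, map_smul, sp_X, eps_pv, smul_eq_mul]
        split_ifs with h1
        · have : v.1 = 0 := by omega
          simp [this]
        · simp]
    simp

lemma eps_GG (m m' r : ℕ) : eps (GG m m' (r+1)) = 0 := by
  unfold GG; split_ifs
  exacts [eps_ff _ _ _, map_zero _]

section ms
variable {σ τ ρ : Type} (φ : MvPolynomial σ ℚ →ₐ[ℚ] MvPolynomial τ ℚ)

@[simp] lemma coeff_ms (f : PowerSeries (Two σ)) (n : ℕ) :
    PowerSeries.coeff n (ms φ f) = two φ (PowerSeries.coeff n f) := by simp [ms]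

lemma ms_C (a : Two σ) : ms φ (PowerSeries.C a) = PowerSeries.C (two φ a) := by simp [ms]

lemma ms_ds (f : PowerSeries (Two σ)) : ms φ (ds f) = ds (ms φ f) := map_ds (two φ) f

lemma ms_smul (q : ℚ) (f : PowerSeries (Two σ)) : ms φ (q • f) = q • ms φ f := by
  ext1 n; simp

lemma ms_dm (δ : Derivation ℚ (MvPolynomial σ ℚ) (MvPolynomial σ ℚ))
    (ε : Derivation ℚ (MvPolynomial τ ℚ) (MvPolynomial τ ℚ)) (h : ∀ f, φ (δ f) = ε (φ f))
    (b : Bool) (f : PowerSeries (Two σ)) : ms φ (dm (lf b δ) f) = dm (lf b ε) (ms φ f) := by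
  ext1 n; simp [two_lf δ φ ε h]

lemma ms_PS (h : ∀ v, φ (X v) ∈ Pos τ) {f : PowerSeries (Two σ)} (hf : f ∈ PS (Pos _)) :
    ms φ f ∈ PS (Pos _) := fun n => by rw [coeff_ms]; exact two_Pos φ h _ (hf n)

lemma ms_diag (B : ℕ → ℕ → Two σ) : ms φ (diag B) = diag fun k l => two φ (B k l) := by
  ext1 n; simp [diag]

lemma two_conv2 (M M' : PowerSeries (Two σ)) (B : ℕ → ℕ → Two σ) (k l : ℕ) :
    two φ (conv2 M M' B k l) = conv2 (ms φ M) (ms φ M') (fun k l => two φ (B k l)) k l := by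
  simp [conv2]
end ms

lemma ms_sp_i1 (f : PowerSeries R2) : ms sp (ms i1 f) = f := by
  ext1 n; simp [two_two, sp_comp_i1, two_id]
lemma ms_sp_i2 (f : PowerSeries R2) : ms sp (ms i2 f) = f := by
  ext1 n; simp [two_two, sp_comp_i2, two_id]

lemma l2_ms_i1 (b : Bool) (f : PowerSeries R2) : dm (lf b l2) (ms i1 f) = 0 := by
  rw [← ms_dm i1 0 l2 (fun f => by simp [l2_i1])]; ext1 n; simp [lf_zero]
lemma l1_ms_i2 (b : Bool) (f : PowerSeries R2) : dm (lf b l1) (ms i2 f) = 0 := by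
  rw [← ms_dm i2 0 l1 (fun f => by simp [l1_i2])]; ext1 n; simp [lf_zero]
lemma l1_ms_i1 (b : Bool) (f : PowerSeries R2) : dm (lf b l1) (ms i1 f) = ms i1 (LS b f) :=
  (ms_dm i1 Li l1 i1_Li b f).symm
lemma l2_ms_i2 (b : Bool) (f : PowerSeries R2) : dm (lf b l2) (ms i2 f) = ms i2 (LS b f) :=
  (ms_dm i2 Li l2 i2_Li b f).symm
lemma ms_sp_l (b : Bool) (f : PowerSeries A2) :
    ms sp (dm (lf b l1) f) + ms sp (dm (lf b l2) f) = LS b (ms sp f) := by
  rw [LS, ← ms_dm sp (l1 + l2) Li sp_l, ← map_add]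
  congr 1; ext1 n; simp [lf_add]

end MJC
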