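import Pool.Agent.Lib.MP_9c49f6_co.CBlue

/-! Basic facts on the complete homogeneous functions. -/

namespace MJC
open MJ Finset MvPolynomial

@[simp] lemma hh_zero : hh 0 = 1 := ex_zero _
@[simp] lemma pv_zero : pv 0 = 0 := rfl
@[simp] lemma pv_succ (k : ℕ) : pv (k+1) = X k := rfl

lemma hh_succ (m : ℕ) : ((m : ℚ) + 1) • hh (m+1) = ∑ k ∈ range (m+1), X k * hh (m - k) :=
  ex_succ _ m

/-- `H(s) = ∑ h_m s^m` -/
noncomputable def Hs : PowerSeries La := PowerSeries.mk hh

@[simp] lemma coeff_Hs (m : ℕ) : PowerSeries.coeff m Hs = hh m := by simp [Hs]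

lemma ds_Hs : ds Hs = PowerSeries.mk (fun k => (X k : La)) * Hs := Ex_deriv (F := ℚ) _

/-- a derivation acts on `H = exp T` by `δ H = δ T · H` -/
lemma dm_Hs (δ : Derivation ℚ La La) :
    dm δ Hs = PowerSeries.mk (fun k => (k : ℚ)⁻¹ • δ (pv k)) * Hs := by
  set T : PowerSeries La := PowerSeries.mk fun k => (k : ℚ)⁻¹ • δ (pv k) with hT
  have h1 : ds T = dm δ (PowerSeries.mk fun k => (X k : La)) := by
    ext1 k
    have h2 : ((k : ℚ) + 1) ≠ 0 := by positivity
    simp [hT, coeff_ds, smul_smul, mul_inv_cancel₀ h2]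
  rw [← sub_eq_zero]
  refine ode_mul (PowerSeries.mk fun k => (X k : La)) (by
    rw [map_sub, coeff_dm, coeff_Hs]; simp [hT]) ?_
  rw [map_sub, ds_dm, Derivation.leibniz, h1, ds_Hs, Derivation.leibniz]
  simp only [smul_eq_mul]; ring

lemma der_hh (δ : Derivation ℚ La La) (m : ℕ) :
    δ (hh m) = ∑ p ∈ antidiagonal m, ((p.1 : ℚ)⁻¹ • δ (pv p.1)) * hh p.2 := by
  have := congrArg (PowerSeries.coeff m) (dm_Hs δ)
  simpa [PowerSeries.coeff_mul] using this

lemma pderiv_hh (k m : ℕ) :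
    pderiv k (hh m) = if k + 1 ≤ m then ((k : ℚ) + 1)⁻¹ • hh (m - (k+1)) else 0 := by
  rw [der_hh]
  split_ifs with h
  · rw [sum_eq_single (k+1, m - (k+1))]
    · simp
    · rintro ⟨i, j⟩ hp hne
      have := mem_antidiagonal.mp hp
      cases i with
      | zero => simp
      | succ i =>
        have : i ≠ k := fun h1 => hne (by subst h1; simp at this ⊢; omega)
        simp [pderiv_X, Pi.single_eq_of_ne this]
    · intro h1; exact absurd (by simp; omega) h1
  · refine sum_eq_zero ?_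
    rintro ⟨i, j⟩ hp
    have := mem_antidiagonal.mp hp
    cases i with
    | zero => simp
    | succ i =>
      have : i ≠ k := fun h1 => h (by subst h1; simp at this; omega)
      simp [pderiv_X, Pi.single_eq_of_ne this]

lemma Li_X (k : ℕ) : Li (X k) = ((k : ℚ) + 1) • X (k+1) := mkDerivation_X _ _ _

lemma Li_pv (i : ℕ) : Li (pv i) = (i : ℚ) • pv (i+1) := by
  cases i with
  | zero => simp
  | succ i => simp [Li_X]

lemma Eop_hh (m : ℕ) : Eop (X 0) Li (hh m) = ((m : ℚ) + 1) • hh (m+1) := by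
  rw [hh_succ, Eop, der_hh, Finset.Nat.sum_antidiagonal_eq_sum_range_succ_mk, sum_range_succ',
    sum_range_succ']
  simp only [pv_zero, map_zero, smul_zero, zero_mul, add_zero, Nat.sub_zero]
  rw [add_comm]
  congr 1
  refine sum_congr rfl fun k _ => ?_
  have h2 : ((k : ℚ) + 1) ≠ 0 := by positivity
  simp [Li_X, smul_smul, inv_mul_cancel₀ h2]

lemma eps_X (k : ℕ) : eps (X k) = if k = 0 then 1 else 0 := aeval_X _ _

lemma eps_hh (m : ℕ) : eps (hh m) = (m.factorial : ℚ)⁻¹ := by
  induction m with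
  | zero => simp
  | succ m ih =>
    have h := congrArg eps (hh_succ m)
    have h2 : ((m : ℚ) + 1) ≠ 0 := by positivity
    rw [map_smul, map_sum, sum_range_succ'] at h
    simp only [map_mul, eps_X, Nat.succ_ne_zero, if_false, zero_mul, sum_const_zero, if_true,
      Nat.sub_zero, ih, smul_eq_mul] at h
    apply mul_left_cancel₀ h2
    rw [h, Nat.factorial_succ]; push_cast; field_simp; simp

lemma eps_hl (l : List ℕ) : eps (hl l) = (fl l)⁻¹ := by
  induction l with
  | nil => simp [hl, fl]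
  | cons m l ih =>
    simp only [hl, fl, List.map_cons, List.prod_cons, map_mul, eps_hh, mul_inv] at ih ⊢
    rw [ih]

lemma fl_pos (l : List ℕ) : 0 < fl l :=
  List.prod_pos fun x hx => by
    obtain ⟨y, _, rfl⟩ := List.mem_map.mp hx
    exact_mod_cast y.factorial_pos

lemma cN_pos (N l : ℕ) : 0 < cN N l := by
  have := l.factorial_pos; have := (N - l).factorial_pos
  unfold cN; positivity

lemma eps_eta (N l : ℕ) : eps (eta N l) = (cN N l)⁻¹ := by
  rw [eta, map_mul, eps_hh, eps_hh, cN, mul_inv]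

lemma eps_et (m m' l : ℕ) : eps (et m m' l) = 0 := by
  have h1 : (m.factorial : ℚ) ≠ 0 := by exact_mod_cast m.factorial_ne_zero
  have h2 : (m'.factorial : ℚ) ≠ 0 := by exact_mod_cast m'.factorial_ne_zero
  have h3 := (cN_pos (m + m') l).ne'
  rw [et, map_sub, map_smul, eps_eta, map_mul, eps_hh, eps_hh, smul_eq_mul]
  field_simp; ring

lemma hh_Hm (m : ℕ) : hh m ∈ Hm ℚ m := by
  have := gen_Hm (F := ℚ) (fun _ => 1) m
  rw [gen_nat] at this
  simpa [hh] using this

lemma hl_Hm (l : List ℕ) : hl l ∈ Hm ℚ l.sum := by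
  induction l with
  | nil => simpa [hl] using one_mem_Hm (F := ℚ)
  | cons m l ih => simpa [hl] using Hm_mul (hh_Hm m) ih

lemma hl_lst_Hm {n : ℕ} (l : n.Partition) : hl (lst l) ∈ Hm ℚ n := by
  simpa [lst_sum] using hl_Hm (lst l)

lemma eta_Hm {N l : ℕ} (h : l ≤ N) : eta N l ∈ Hm ℚ N := by
  have := Hm_mul (hh_Hm l) (hh_Hm (N - l))
  rwa [← Nat.cast_add, Nat.add_sub_cancel' h] at this

lemma et_Hm {m m' l : ℕ} (h : l ≤ m + m') : et m m' l ∈ Hm ℚ (m + m' : ℕ) :=
  sub_mem (eta_Hm h) (Submodule.smul_mem _ _ (by simpa using Hm_mul (hh_Hm m) (hh_Hm m')))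

lemma uu_Hm (m m' : ℕ) : uu m m' ∈ Hm ℚ (m + m' : ℕ) :=
  Submodule.sum_mem _ fun l hl => Submodule.smul_mem _ _ (et_Hm (by simp at hl; omega))

lemma one_Hm {g : ℕ → La} {c : ℕ} (hg : ∀ m, g m ∈ Hm ℚ (c + m : ℕ)) (l : List ℕ) :
    one g hh l ∈ Hm ℚ (c + l.sum : ℕ) := by
  induction l with
  | nil => exact zero_mem _
  | cons m l ih =>
    refine add_mem ?_ ?_
    · convert Hm_mul (hg m) (hl_Hm l) using 2
      · simp [add_assoc]
      · rfl
    · convert Hm_mul (hh_Hm m) ih using 2; simp; ring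

lemma Ul_Hm (l : List ℕ) : Ul l ∈ Hm ℚ l.sum := by
  induction l with
  | nil => exact zero_mem _
  | cons m l ih =>
    refine add_mem ?_ ?_
    · simpa using one_Hm (uu_Hm m) l
    · simpa [Ul] using Hm_mul (hh_Hm m) ih

lemma Ul_lst_Hm {n : ℕ} (l : n.Partition) : Ul (lst l) ∈ Hm ℚ n := by
  simpa [lst_sum] using Ul_Hm (lst l)

lemma hh_Pos (m : ℕ) : hh m ∈ Pos ℕ := by
  induction m using Nat.strong_induction_on with
  | _ m ih =>
    cases m with
    | zero => simp
    | succ m =>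
      rw [hh, ex_succ']
      exact Pos_cone _ (by positivity) _
        (sum_mem fun k _ => mul_mem (X_Pos k) (ih _ (by omega)))

lemma Li_X_Pos (k : ℕ) : Li (X k) ∈ Pos ℕ := by
  rw [Li_X]; exact Pos_cone _ (by positivity) _ (X_Pos _)

/-- `p_π` as a product -/
lemma pm_eq {n : ℕ} (π : n.Partition) :
    (monomial (dOf π) 1 : La) = ((lst π).map pv).prod := by
  rw [monomial_eq, C_1, one_mul, ← Multiset.prod_coe, ← Multiset.map_coe, lst_coe,
    ← prod_dOf π pv]
  rfl

lemma degree_dOf {n : ℕ} (π : n.Partition) : (dOf π).degree = len π := by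
  have := prod_dOf (M := Multiplicative ℕ) π fun _ => Multiplicative.ofAdd 1
  have h2 := congrArg Multiplicative.toAdd this
  simpa [Finsupp.prod, Finsupp.degree_apply, len, toAdd_prod] using h2

lemma length_lst {n : ℕ} (π : n.Partition) : (lst π).length = len π := by
  rw [len, ← lst_coe, Multiset.coe_card]

lemma len_le {n : ℕ} (π : n.Partition) : len π ≤ n := length_lst π ▸ lst_length π

lemma len_ones (n : ℕ) : len (ones n) = n := by simp [len, ones]

lemma eq_sum_pm {n : ℕ} {f : La} (hf : f ∈ Hm ℚ n) :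
    f = ∑ π : n.Partition, coeff (dOf π) f • (monomial (dOf π) 1 : La) := by
  conv_lhs => rw [eq_Th hf, Th_apply]
  simp [smul_monomial]

lemma eps_pm {n : ℕ} (π : n.Partition) :
    eps (monomial (dOf π) 1) = if π = ones n then 1 else 0 := by
  rw [pm_eq, map_list_prod, List.map_map]
  split_ifs with h
  · refine List.prod_eq_one fun x hx => ?_
    obtain ⟨y, hy, rfl⟩ := List.mem_map.mp hx
    have : y ∈ π.parts := by rw [← lst_coe]; exact hy
    rw [h] at this
    obtain rfl := Multiset.eq_of_mem_replicate this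
    simp [eps_X]
  · by_contra hc
    have h1 : ∀ y ∈ π.parts, y = 1 := fun y hy => by
      by_contra h2
      refine hc (List.prod_eq_zero (List.mem_map.mpr ⟨y, by rw [← lst_coe] at hy; exact hy, ?_⟩))
      obtain ⟨k, rfl⟩ : ∃ k, y = k + 1 := ⟨y - 1, by have := π.parts_pos hy; omega⟩
      simp [eps_X]; omega
    have h2 := Multiset.eq_replicate_of_mem h1
    have h3 := π.parts_sum
    rw [h2] at h3
    refine h (Nat.Partition.ext ?_)
    rw [h2]; simp at h3; simp [ones, h3]

/-- on homogeneous functions `eps` is the coefficient of `p_1^n` -/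
lemma eps_Hm {n : ℕ} {f : La} (hf : f ∈ Hm ℚ n) : eps f = coeff (dOf (ones n)) f := by
  classical
  conv_lhs => rw [eq_sum_pm hf]
  simp [eps_pm]

end MJC
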