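import Pool.Agent.Lib.MP_9c49f6_co.CH

/-! The local ring of rational functions regular at `β = 0`. -/

namespace MJC
open MJ Finset

variable {F : Type} [Field F] [CharZero F] {β : F}

lemma rat_OO (q : ℚ) : (q : F) ∈ OO β :=
  ⟨Polynomial.C q, 1, by simp, by simp, by simp⟩

lemma self_OO : β ∈ OO β := ⟨Polynomial.X, 1, by simp, by simp, by simp⟩

lemma Cg_zero_iff {x : F} : Cg β 0 x ↔ x ∈ OO β :=
  ⟨fun ⟨o, h, e⟩ => by simpa [e] using h, fun h => ⟨x, h, by simp⟩⟩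

lemma Cg.zero (k : ℕ) : Cg β k 0 := ⟨0, zero_mem _, by simp⟩

lemma Cg.of_eq {k : ℕ} {x y : F} (h : Cg β k x) (e : x = y) : Cg β k y := e ▸ h

lemma Cg.add {k : ℕ} {x y : F} (hx : Cg β k x) (hy : Cg β k y) : Cg β k (x + y) := by
  obtain ⟨a, ha, rfl⟩ := hx; obtain ⟨b, hb, rfl⟩ := hy
  exact ⟨a + b, add_mem ha hb, by ring⟩

lemma Cg.neg {k : ℕ} {x : F} (hx : Cg β k x) : Cg β k (-x) := by
  obtain ⟨a, ha, rfl⟩ := hx
  exact ⟨-a, neg_mem ha, by ring⟩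

lemma Cg.sub {k : ℕ} {x y : F} (hx : Cg β k x) (hy : Cg β k y) : Cg β k (x - y) :=
  (hx.add hy.neg).of_eq (by ring)

lemma Cg.mul {k j : ℕ} {x y : F} (hx : Cg β k x) (hy : Cg β j y) : Cg β (k + j) (x * y) := by
  obtain ⟨a, ha, rfl⟩ := hx; obtain ⟨b, hb, rfl⟩ := hy
  exact ⟨a * b, mul_mem ha hb, by ring⟩

lemma Cg.mul_right {k : ℕ} {x y : F} (hx : Cg β k x) (hy : y ∈ OO β) : Cg β k (x * y) :=
  hx.mul (Cg_zero_iff.mpr hy)

lemma Cg.mul_left {k : ℕ} {x y : F} (hx : Cg β k x) (hy : y ∈ OO β) : Cg β k (y * x) :=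
  (hx.mul_right hy).of_eq (mul_comm _ _)

lemma Cg.mono {k j : ℕ} {x : F} (hx : Cg β k x) (h : j ≤ k) : Cg β j x := by
  obtain ⟨a, ha, rfl⟩ := hx
  obtain ⟨i, rfl⟩ := Nat.exists_eq_add_of_le h
  exact ⟨β ^ i * a, mul_mem (pow_mem self_OO _) ha, by ring⟩

lemma Cg.mem {k : ℕ} {x : F} (hx : Cg β k x) : x ∈ OO β :=
  Cg_zero_iff.mp (hx.mono (Nat.zero_le _))

lemma Cg.pow_mul (k : ℕ) {y : F} (hy : y ∈ OO β) : Cg β k (β ^ k * y) := ⟨y, hy, rfl⟩

lemma Cg.self : Cg β 1 β := ⟨1, one_mem _, by simp⟩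

lemma Cg.pow {x : F} (hx : Cg β 1 x) (k : ℕ) : Cg β k (x ^ k) := by
  induction k with
  | zero => exact ⟨1, one_mem _, by simp⟩
  | succ k ih => exact (ih.mul hx).of_eq (pow_succ _ _).symm

lemma Cg.sum {ι : Type} {k : ℕ} {s : Finset ι} {f : ι → F} (h : ∀ i ∈ s, Cg β k (f i)) :
    Cg β k (∑ i ∈ s, f i) :=
  sum_induction _ (Cg β k) (fun _ _ => Cg.add) (Cg.zero k) h

/-- an element congruent to something in `O` is in `O` -/
lemma Cg.mem_of_sub {k : ℕ} {x y : F} (h : Cg β k (x - y)) (hy : y ∈ OO β) : x ∈ OO β := by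
  simpa using add_mem h.mem hy

lemma inv_OO (hβ : Transcendental ℚ β) {x : F} {q : ℚ} (hq : q ≠ 0) (h : Cg β 1 (x - q)) :
    x ≠ 0 ∧ x⁻¹ ∈ OO β := by
  obtain ⟨_, ⟨A, B, h1, h2, rfl⟩, e⟩ := h
  have h3 : (Polynomial.C q * B + Polynomial.X * A).coeff 0 ≠ 0 := by simp [hq, h1]
  have h4 : Polynomial.aeval β (Polynomial.C q * B + Polynomial.X * A) ≠ 0 := fun h5 =>
    hβ ⟨_, fun h6 => h3 (by rw [h6]; simp), h5⟩
  have h5 : x = Polynomial.aeval β (Polynomial.C q * B + Polynomial.X * A) /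
      Polynomial.aeval β B := by
    rw [eq_div_iff h2, eq_add_of_sub_eq e]; simp; field_simp; ring
  exact ⟨h5 ▸ div_ne_zero h4 h2, B, _, h3, h4, by rw [h5, inv_div]⟩

lemma det_Cg {ι : Type} [Fintype ι] [DecidableEq ι] (M : Matrix ι ι F) (M0 : Matrix ι ι ℚ)
    (h : ∀ i j, Cg β 1 (M i j - M0 i j)) : Cg β 1 (M.det - (M0.det : ℚ)) := by
  have key : ∀ (s : Finset ι) (f : ι → F) (g : ι → ℚ), (∀ i, Cg β 1 (f i - g i)) →
      Cg β 1 (∏ i ∈ s, f i - (∏ i ∈ s, g i : ℚ)) := by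
    intro s f g hf
    induction s using Finset.induction_on with
    | empty => simpa using Cg.zero 1
    | insert a s ha ih =>
      rw [prod_insert ha, prod_insert ha]
      refine (((hf a).mul_right (rat_OO (∏ i ∈ s, g i))).add
        (ih.mul_left ((hf a).mem_of_sub (rat_OO _)))).of_eq ?_
      push_cast; ring
  rw [Matrix.det_apply', Matrix.det_apply', Rat.cast_sum, ← sum_sub_distrib]
  refine Cg.sum fun σ _ => ?_
  refine ((key univ (fun i => M (σ i) i) (fun i => M0 (σ i) i) fun i => h _ _).mul_left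
    (intCast_mem _ (Equiv.Perm.sign σ : ℤ))).of_eq ?_
  push_cast; ring

/-- LOC -/
theorem loc (hβ : Transcendental ℚ β) {ι : Type} [Fintype ι] [DecidableEq ι] (M : Matrix ι ι F)
    (M0 : Matrix ι ι ℚ) (h : ∀ i j, Cg β 1 (M i j - M0 i j)) (h0 : M0.det ≠ 0) :
    M.det ≠ 0 ∧ (∀ y : ι → F, ∃ x : ι → F, ∀ j, ∑ i, x i * M i j = y j) ∧
      ∀ (k : ℕ) (x : ι → F), (∀ j, Cg β k (∑ i, x i * M i j)) → ∀ i, Cg β k (x i) := by
  obtain ⟨h1, h2⟩ := inv_OO hβ h0 (det_Cg M M0 h)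
  have hu : IsUnit M.det := Ne.isUnit h1
  refine ⟨h1, fun y => ⟨Matrix.vecMul y M⁻¹, fun j => ?_⟩, fun k x hx i => ?_⟩
  · have : Matrix.vecMul (Matrix.vecMul y M⁻¹) M = y := by
      rw [Matrix.vecMul_vecMul, Matrix.nonsing_inv_mul _ hu, Matrix.vecMul_one]
    exact congrFun this j
  · let N : Matrix ι ι (OO β) := fun i j => ⟨M i j, (h i j).mem_of_sub (rat_OO _)⟩
    have hN : M = (OO β).subtype.mapMatrix N := rfl
    have h3 : ∀ i j, M.adjugate i j ∈ OO β := fun i j => by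
      rw [hN, ← RingHom.map_adjugate]; exact (N.adjugate i j).2
    have h4 : Matrix.vecMul (Matrix.vecMul x M) M.adjugate = M.det • x := by
      rw [Matrix.vecMul_vecMul, Matrix.mul_adjugate, Matrix.vecMul_smul, Matrix.vecMul_one]
    have h5 : Cg β k (∑ j, (∑ i, x i * M i j) * M.adjugate j i) :=
      Cg.sum fun j _ => (hx j).mul_right (h3 j i)
    refine (h5.mul_left h2).of_eq ?_
    have h6 : ∑ j, (∑ i, x i * M i j) * M.adjugate j i = M.det * x i := congrFun h4 i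
    rw [h6, inv_mul_cancel_left₀ h1]

omit [CharZero F] in
/-- a matrix triangular for the lexicographic order -/
lemma det_tri {n : ℕ} [DecidableEq n.Partition] (M : Matrix n.Partition n.Partition F)
    (h : ∀ κ ρ, M κ ρ ≠ 0 → lst ρ ≤ lst κ) (hd : ∀ κ, M κ κ ≠ 0) : M.det ≠ 0 := by
  let : LinearOrder n.Partition := LinearOrder.lift' lst lst_inj
  have h1 : M.BlockTriangular OrderDual.toDual := fun i j hij => by
    by_contra hc
    exact absurd (h i j hc) (not_le.mpr hij)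
  have := Matrix.det_of_lowerTriangular M h1
  convert (this ▸ prod_ne_zero_iff.mpr fun i _ => hd i : _ ≠ (0:F))

section theta
variable {b : F} (hb : Transcendental ℚ b)
include hb

lemma b_ne : b ≠ 0 := fun h => hb (h ▸ isAlgebraic_zero)

lemma trans_inv : Transcendental ℚ b⁻¹ := fun h => hb (IsAlgebraic.inv_iff.mp h)

lemma one_add_beta : (1 + b⁻¹ ≠ 0) ∧ (1 + b⁻¹)⁻¹ ∈ OO b⁻¹ :=
  inv_OO (trans_inv hb) one_ne_zero (by simpa using Cg.self)

lemma alpha_eq : 1 + b = b * (1 + b⁻¹) := by have := b_ne hb; field_simp; ring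

lemma alpha_ne : 1 + b ≠ 0 := by
  rw [alpha_eq hb]; exact mul_ne_zero (b_ne hb) (one_add_beta hb).1

/-- `θ = β mod β²` -/
lemma theta_sub : Cg b⁻¹ 2 ((1 + b)⁻¹ - b⁻¹) :=
  ⟨-(1 + b⁻¹)⁻¹, neg_mem (one_add_beta hb).2, by
    have h1 := b_ne hb
    have h2 := alpha_ne hb
    have h3 : b + 1 ≠ 0 := by rwa [add_comm]
    field_simp; ring⟩

lemma theta_Cg : Cg b⁻¹ 1 (1 + b)⁻¹ :=
  (((theta_sub hb).mono one_le_two).add Cg.self).of_eq (by ring)

/-- `(1+β)^d = 1 + d β mod β²` -/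
lemma one_add_zpow (d : ℤ) : Cg b⁻¹ 2 ((1 + b⁻¹) ^ d - (1 + d * b⁻¹)) := by
  obtain ⟨h1, h2⟩ := one_add_beta hb
  have h3 : 1 + b⁻¹ ∈ OO b⁻¹ := add_mem (one_mem _) self_OO
  induction d using Int.induction_on with
  | zero => simpa using Cg.zero 2
  | succ i ih =>
    refine ((ih.mul_right h3).add (Cg.pow_mul 2 (natCast_mem _ i))).of_eq ?_
    rw [zpow_add_one₀ h1]; push_cast; ring
  | pred i ih =>
    refine ((ih.add (Cg.pow_mul 2 (add_mem (natCast_mem _ i) (one_mem _)))).mul_right h2).of_eq ?_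
    rw [zpow_sub_one₀ h1]
    generalize (1 + b⁻¹) ^ (-(i:ℤ)) = w
    generalize b⁻¹ = x at h1
    push_cast; field_simp; ring

lemma alpha_zpow (d : ℤ) : (1 + b) ^ d = b ^ d * (1 + b⁻¹) ^ d := by
  rw [alpha_eq hb, mul_zpow]
end theta

end MJC
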