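import Pool.Agent.Lib.MP_9c49f6_co.Part

/-! Generic tools for the second coefficient of the Jack connection coefficients:
sums over one or two marked entries of a list, power series with derivations, positive cones,
two-alphabet polynomial rings. -/

namespace MJC
open Finset

section OnePair
variable {R : Type} [CommRing R]

/-- `∑_i g(l_i) ∏_(j ≠ i) a(l_j)` -/
def one (g a : ℕ → R) : List ℕ → R
  | [] => 0
  | m :: l => g m * (l.map a).prod + a m * one g a l

/-- `∑_(i<j) β(l_i,l_j) ∏_(k ≠ i,j) a(l_k)` -/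
def pair (β : ℕ → ℕ → R) (a : ℕ → R) : List ℕ → R
  | [] => 0
  | m :: l => one (β m) a l + a m * pair β a l

@[simp] lemma one_nil (g a : ℕ → R) : one g a [] = 0 := rfl
@[simp] lemma one_cons (g a : ℕ → R) (m : ℕ) (l : List ℕ) :
    one g a (m :: l) = g m * (l.map a).prod + a m * one g a l := rfl
@[simp] lemma pair_nil (β : ℕ → ℕ → R) (a : ℕ → R) : pair β a [] = 0 := rfl
@[simp] lemma pair_cons (β : ℕ → ℕ → R) (a : ℕ → R) (m : ℕ) (l : List ℕ) :
    pair β a (m :: l) = one (β m) a l + a m * pair β a l := rfl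

lemma one_congr {g g' a a' : ℕ → R} {l : List ℕ} (hg : ∀ m ∈ l, g m = g' m)
    (ha : ∀ m ∈ l, a m = a' m) : one g a l = one g' a' l := by
  induction l with
  | nil => rfl
  | cons m l ih =>
    rw [one_cons, one_cons, hg m (by simp), ha m (by simp),
      ih (fun x hx => hg x (by simp [hx])) (fun x hx => ha x (by simp [hx])),
      List.map_congr_left (fun x hx => ha x (by simp [hx]))]

lemma pair_congr {β β' : ℕ → ℕ → R} {a a' : ℕ → R} {l : List ℕ}
    (hb : ∀ m ∈ l, ∀ m' ∈ l, β m m' = β' m m') (ha : ∀ m ∈ l, a m = a' m) :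
    pair β a l = pair β' a' l := by
  induction l with
  | nil => rfl
  | cons m l ih =>
    rw [pair_cons, pair_cons, ha m (by simp),
      ih (fun x hx y hy => hb x (by simp [hx]) y (by simp [hy])) (fun x hx => ha x (by simp [hx])),
      one_congr (fun x hx => hb m (by simp) x (by simp [hx])) (fun x hx => ha x (by simp [hx]))]

lemma one_add (g g' a : ℕ → R) (l : List ℕ) :
    one (fun m => g m + g' m) a l = one g a l + one g' a l := by
  induction l with
  | nil => simp
  | cons m l ih => simp only [one_cons, ih]; ring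

lemma one_mul_left (c : R) (g a : ℕ → R) (l : List ℕ) :
    one (fun m => c * g m) a l = c * one g a l := by
  induction l with
  | nil => simp
  | cons m l ih => simp only [one_cons, ih]; ring

lemma one_zero (a : ℕ → R) (l : List ℕ) : one (fun _ => 0) a l = 0 := by
  simpa using one_mul_left 0 a a l

lemma one_sub (g g' a : ℕ → R) (l : List ℕ) :
    one (fun m => g m - g' m) a l = one g a l - one g' a l := by
  induction l with
  | nil => simp
  | cons m l ih => simp only [one_cons, ih]; ring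

/-- `one (c·a) a = (∑ c) ∏ a` -/
lemma one_self (c a : ℕ → R) (l : List ℕ) :
    one (fun m => c m * a m) a l = (l.map c).sum * (l.map a).prod := by
  induction l with
  | nil => simp
  | cons m l ih => simp only [one_cons, ih, List.map_cons, List.sum_cons, List.prod_cons]; ring

lemma one_scale (g a e : ℕ → R) (l : List ℕ) :
    one (fun m => g m * e m) (fun m => a m * e m) l = one g a l * (l.map e).prod := by
  induction l with
  | nil => simp
  | cons m l ih =>
    simp only [one_cons, ih, List.map_cons, List.prod_cons, List.prod_map_mul]; ring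

lemma pair_add (β β' : ℕ → ℕ → R) (a : ℕ → R) (l : List ℕ) :
    pair (fun m m' => β m m' + β' m m') a l = pair β a l + pair β' a l := by
  induction l with
  | nil => simp
  | cons m l ih => simp only [pair_cons, ih, one_add]; ring

lemma pair_sub (β β' : ℕ → ℕ → R) (a : ℕ → R) (l : List ℕ) :
    pair (fun m m' => β m m' - β' m m') a l = pair β a l - pair β' a l := by
  induction l with
  | nil => simp
  | cons m l ih => simp only [pair_cons, ih, one_sub]; ring

lemma pair_zero (a : ℕ → R) (l : List ℕ) : pair (fun _ _ => 0) a l = 0 := by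
  induction l with
  | nil => rfl
  | cons m l ih => simp only [pair_cons, ih, one_zero]; ring

lemma pair_scale (β : ℕ → ℕ → R) (a e : ℕ → R) (l : List ℕ) :
    pair (fun m m' => β m m' * (e m * e m')) (fun m => a m * e m) l =
      pair β a l * (l.map e).prod := by
  induction l with
  | nil => simp
  | cons m l ih =>
    have : (fun m' => β m m' * (e m * e m')) = fun m' => e m * β m m' * e m' := by
      funext m'; ring
    simp only [pair_cons, ih, this, one_scale, one_mul_left, List.map_cons, List.prod_cons]; ring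

lemma map_one' {S G : Type} [CommRing S] [FunLike G R S] [RingHomClass G R S] (φ : G)
    (g a : ℕ → R) (l : List ℕ) :
    φ (one g a l) = one (fun m => φ (g m)) (fun m => φ (a m)) l := by
  induction l with
  | nil => simp
  | cons m l ih => simp [ih, map_list_prod, Function.comp_def]

lemma map_pair {S G : Type} [CommRing S] [FunLike G R S] [RingHomClass G R S] (φ : G)
    (β : ℕ → ℕ → R) (a : ℕ → R) (l : List ℕ) :
    φ (pair β a l) = pair (fun m m' => φ (β m m')) (fun m => φ (a m)) l := by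
  induction l with
  | nil => simp
  | cons m l ih => simp [ih, map_one']

lemma one_in (P : Subsemiring R) {g a : ℕ → R} {l : List ℕ} (hg : ∀ m ∈ l, g m ∈ P)
    (ha : ∀ m ∈ l, a m ∈ P) : one g a l ∈ P := by
  induction l with
  | nil => exact zero_mem _
  | cons m l ih =>
    refine add_mem (mul_mem (hg m (by simp)) (list_prod_mem fun x hx => ?_))
      (mul_mem (ha m (by simp))
        (ih (fun x hx => hg x (by simp [hx])) (fun x hx => ha x (by simp [hx]))))
    obtain ⟨y, hy, rfl⟩ := List.mem_map.mp hx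
    exact ha y (by simp [hy])

lemma pair_in (P : Subsemiring R) {β : ℕ → ℕ → R} {a : ℕ → R} {l : List ℕ}
    (hb : ∀ m ∈ l, ∀ m' ∈ l, β m m' ∈ P) (ha : ∀ m ∈ l, a m ∈ P) : pair β a l ∈ P := by
  induction l with
  | nil => exact zero_mem _
  | cons m l ih =>
    exact add_mem (one_in P (fun x hx => hb m (by simp) x (by simp [hx]))
        (fun x hx => ha x (by simp [hx])))
      (mul_mem (ha m (by simp)) (ih (fun x hx y hy => hb x (by simp [hx]) y (by simp [hy]))
        (fun x hx => ha x (by simp [hx]))))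

lemma der_prod [Algebra ℚ R] (δ : Derivation ℚ R R) (a : ℕ → R) (l : List ℕ) :
    δ (l.map a).prod = one (fun m => δ (a m)) a l := by
  induction l with
  | nil => simp
  | cons m l ih => simp only [List.map_cons, List.prod_cons, Derivation.leibniz, ih, one_cons,
      smul_eq_mul]; ring

theorem one.rlz : True := by have := @one.eq_def; trivial
theorem pair.rlz : True := by have := @pair.eq_def; trivial
end OnePair

section Series
open PowerSeries
variable {A : Type} [CommRing A] [Algebra ℚ A]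

/-- a derivation acting on the coefficients of a power series -/
noncomputable def dm (δ : Derivation ℚ A A) : Derivation ℚ A⟦X⟧ A⟦X⟧ :=
  Derivation.mk'
    { toFun := fun f => mk fun n => δ (coeff n f)
      map_add' := fun f g => by ext n; simp
      map_smul' := fun c f => by ext n; simp }
    (fun f g => by
      ext n
      simp only [LinearMap.coe_mk, AddHom.coe_mk, coeff_mk, coeff_mul, map_sum, smul_eq_mul,
        map_add, Derivation.leibniz, sum_add_distrib]
      congr 1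
      rw [← Finset.Nat.sum_antidiagonal_swap]
      simp)

@[simp] lemma coeff_dm (δ : Derivation ℚ A A) (f : A⟦X⟧) (n : ℕ) :
    coeff n (dm δ f) = δ (coeff n f) := by
  simp [dm, Derivation.mk']

/-- `d/ds` -/
noncomputable def ds : Derivation ℚ A⟦X⟧ A⟦X⟧ := (derivative A).restrictScalars ℚ

lemma coeff_ds (f : A⟦X⟧) (n : ℕ) : coeff n (ds f) = ((n : ℚ) + 1) • coeff (n+1) f := by
  change coeff n (derivative A f) = _
  rw [coeff_derivative, Algebra.smul_def, mul_comm]; simp

@[simp] lemma ds_C (a : A) : ds (C a : A⟦X⟧) = 0 := derivative_C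
@[simp] lemma ds_X : ds (X : A⟦X⟧) = 1 := derivative_X
@[simp] lemma dm_C (δ : Derivation ℚ A A) (a : A) : dm δ (C a) = C (δ a) := by
  ext n; simp only [coeff_dm, coeff_C]; split_ifs <;> simp
@[simp] lemma dm_X (δ : Derivation ℚ A A) : dm δ (X : A⟦X⟧) = 0 := by
  ext n; simp only [coeff_dm, coeff_X]; split_ifs <;> simp

lemma ds_dm (δ : Derivation ℚ A A) (f : A⟦X⟧) : ds (dm δ f) = dm δ (ds f) := by
  ext n; simp [coeff_ds]

lemma dm_comm {δ δ' : Derivation ℚ A A} (h : ∀ a, δ (δ' a) = δ' (δ a)) (f : A⟦X⟧) :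
    dm δ (dm δ' f) = dm δ' (dm δ f) := by
  ext n; simp [h]

lemma map_ds {B : Type} [CommRing B] [Algebra ℚ B] (φ : A →ₐ[ℚ] B) (f : A⟦X⟧) :
    PowerSeries.map (φ : A →+* B) (ds f) = ds (PowerSeries.map (φ : A →+* B) f) := by
  ext n; simp [coeff_ds]

/-- T2: uniqueness for `Z' = Φ Z` with `Φ` causal and `Φ 0 = 0` up to each order -/
lemma ode_zero {Z : A⟦X⟧} (Φ : A⟦X⟧ → A⟦X⟧)
    (hΦ : ∀ n, (∀ i ≤ n, coeff i Z = 0) → coeff n (Φ Z) = 0)
    (h0 : coeff 0 Z = 0) (h : ds Z = Φ Z) : Z = 0 := by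
  ext n
  induction n using Nat.strong_induction_on with
  | _ n ih =>
    cases n with
    | zero => simpa using h0
    | succ n =>
      have h1 := hΦ n fun i hi => by simpa using ih i (by omega)
      rw [← h, coeff_ds] at h1
      have h2 : ((n : ℚ) + 1) ≠ 0 := by positivity
      have := congrArg (((n : ℚ) + 1)⁻¹ • ·) h1
      simpa [smul_smul, inv_mul_cancel₀ h2] using this

/-- T2 in the usual form: `Z' = a Z + l Z`, `Z(0) = 0` -/
lemma ode_lin {Z : A⟦X⟧} (a : A⟦X⟧) (l : Derivation ℚ A A) (h0 : coeff 0 Z = 0)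
    (h : ds Z = a * Z + dm l Z) : Z = 0 :=
  ode_zero (fun Z => a * Z + dm l Z) (fun n hn => by
    rw [map_add, coeff_mul, coeff_dm, hn n le_rfl, map_zero, add_zero]
    exact sum_eq_zero fun p hp => by
      rw [hn p.2 (by have := mem_antidiagonal.mp hp; omega), mul_zero]) h0 h

lemma ode_mul {Z : A⟦X⟧} (a : A⟦X⟧) (h0 : coeff 0 Z = 0) (h : ds Z = a * Z) : Z = 0 :=
  ode_lin a 0 h0 (by rw [h]; ext n; simp)

/-- a positive cone: a subsemiring stable under non-negative rationals -/
def IsCone (P : Subsemiring A) : Prop := ∀ q : ℚ, 0 ≤ q → ∀ a ∈ P, q • a ∈ P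

/-- series with coefficients in the cone -/
def PS (P : Subsemiring A) : Subsemiring A⟦X⟧ where
  carrier := {f | ∀ n, coeff n f ∈ P}
  mul_mem' := fun {f g} hf hg n => by
    rw [coeff_mul]; exact sum_mem fun p _ => mul_mem (hf _) (hg _)
  one_mem' := fun n => by rw [coeff_one]; split_ifs; exacts [one_mem _, zero_mem _]
  add_mem' := fun {f g} hf hg n => by rw [map_add]; exact add_mem (hf n) (hg n)
  zero_mem' := fun n => by simp

omit [Algebra ℚ A] in
lemma mem_PS {P : Subsemiring A} {f : A⟦X⟧} : f ∈ PS P ↔ ∀ n, coeff n f ∈ P := Iff.rfl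

lemma IsCone.series {P : Subsemiring A} (h : IsCone P) : IsCone (PS P) := fun q hq f hf n => by
  rw [(coeff n).map_smul_of_tower]; exact h q hq _ (hf n)

omit [Algebra ℚ A] in
lemma C_mem_PS {P : Subsemiring A} {a : A} (h : a ∈ P) : C a ∈ PS P := fun n => by
  rw [coeff_C]; split_ifs; exacts [h, zero_mem _]

lemma dm_mem_PS {P : Subsemiring A} {δ : Derivation ℚ A A} (h : ∀ a ∈ P, δ a ∈ P) {f : A⟦X⟧}
    (hf : f ∈ PS P) : dm δ f ∈ PS P := fun n => by rw [coeff_dm]; exact h _ (hf n)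

/-- T3, general form -/
lemma ode_pos {P : Subsemiring A} (hP : IsCone P) {Q : A⟦X⟧}
    (h : ∀ n, (∀ i ≤ n, coeff i Q ∈ P) → coeff n (ds Q) ∈ P) (h0 : coeff 0 Q ∈ P) :
    Q ∈ PS P := by
  intro n
  induction n using Nat.strong_induction_on with
  | _ n ih =>
    cases n with
    | zero => exact h0
    | succ n =>
      have h1 := h n fun i hi => ih i (by omega)
      rw [coeff_ds] at h1
      have h2 : ((n : ℚ) + 1) ≠ 0 := by positivity
      have := hP ((n : ℚ) + 1)⁻¹ (by positivity) _ h1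
      simpa [smul_smul, inv_mul_cancel₀ h2] using this

omit [Algebra ℚ A] in
lemma coeff_mul_mem {P : Subsemiring A} {f g : A⟦X⟧} {n : ℕ} (hf : ∀ i ≤ n, coeff i f ∈ P)
    (hg : ∀ i ≤ n, coeff i g ∈ P) : coeff n (f * g) ∈ P := by
  rw [coeff_mul]
  exact sum_mem fun p hp => by
    have := mem_antidiagonal.mp hp
    exact mul_mem (hf _ (by omega)) (hg _ (by omega))

/-- T3: the linearised insertion equation preserves positivity -/
lemma ode_ins {P : Subsemiring A} (hP : IsCone P) {Y Z : Derivation ℚ A A}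
    (hY : ∀ a ∈ P, Y a ∈ P) (hZ : ∀ a ∈ P, Z a ∈ P) {U V S Q : A⟦X⟧} (hU : U ∈ PS P)
    (hV : V ∈ PS P) (hS : S ∈ PS P) (h0 : coeff 0 Q ∈ P)
    (h : ds Q = U * dm Z Q + V * dm Y Q + dm Y (dm Z Q) + S) : Q ∈ PS P :=
  ode_pos hP (fun n hn => by
    rw [h, map_add, map_add, map_add]
    refine add_mem (add_mem (add_mem (coeff_mul_mem (fun i _ => hU i) fun i hi => ?_)
      (coeff_mul_mem (fun i _ => hV i) fun i hi => ?_)) ?_) (hS n)
    · rw [coeff_dm]; exact hZ _ (hn i hi)
    · rw [coeff_dm]; exact hY _ (hn i hi)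
    · rw [coeff_dm, coeff_dm]; exact hY _ (hZ _ (hn n le_rfl))) h0

/-- `E = p + Y` -/
def Eop (p : A) (Y : Derivation ℚ A A) (f : A) : A := p * f + Y f

/-- QUOT -/
lemma Eop_mul (p q : A) (Y Z : Derivation ℚ A A) (M Q : A) :
    Eop p Y (Eop q Z (M * Q)) = Q * Eop p Y (Eop q Z M) + Eop q Z M * Y Q + Eop p Y M * Z Q
      + M * Y (Z Q) := by
  simp only [Eop, Derivation.leibniz, map_add, smul_eq_mul]; ring

lemma coeff_Eop (p : A) (Y : Derivation ℚ A A) (f : A⟦X⟧) (n : ℕ) :
    coeff n (Eop (C p) (dm Y) f) = Eop p Y (coeff n f) := by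
  simp [Eop]

/-- restriction of a double sequence to the diagonal `s = s'` -/
noncomputable def diag (B : ℕ → ℕ → A) : A⟦X⟧ := mk fun n => ∑ p ∈ antidiagonal n, B p.1 p.2

/-- `M(s) M'(s') B(s,s')` -/
noncomputable def conv2 (M M' : A⟦X⟧) (B : ℕ → ℕ → A) (k l : ℕ) : A :=
  ∑ p ∈ antidiagonal k, ∑ q ∈ antidiagonal l, coeff p.1 M * coeff q.1 M' * B p.2 q.2

/-- a double sequence as a series in `s` (outer, first index) over series in `s'` -/
noncomputable def nest (B : ℕ → ℕ → A) : A⟦X⟧⟦X⟧ := mk fun k => mk fun l => B k l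

omit [Algebra ℚ A] in
@[simp] lemma coeff_nest (B : ℕ → ℕ → A) (k l : ℕ) : coeff l (coeff k (nest B)) = B k l := by
  simp [nest]

omit [Algebra ℚ A] in
lemma nest_conv2 (M M' : A⟦X⟧) (B : ℕ → ℕ → A) :
    nest (conv2 M M' B) = PowerSeries.map (C (R := A)) M * C M' * nest B := by
  ext k l
  rw [coeff_nest, mul_assoc, coeff_mul, map_sum, conv2]
  refine sum_congr rfl fun p _ => ?_
  rw [coeff_map, coeff_C_mul, coeff_C_mul, coeff_mul, mul_sum]
  exact sum_congr rfl fun q _ => by rw [coeff_nest, mul_assoc]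

omit [Algebra ℚ A] in
lemma nest_inj {B B' : ℕ → ℕ → A} (h : nest B = nest B') : B = B' := by
  funext k l; rw [← coeff_nest B, h, coeff_nest]

omit [Algebra ℚ A] in
lemma conv2_conv2 (M M' N N' : A⟦X⟧) (B : ℕ → ℕ → A) :
    conv2 M M' (conv2 N N' B) = conv2 (M * N) (M' * N') B :=
  nest_inj (by simp only [nest_conv2, map_mul]; ring)

omit [Algebra ℚ A] in
lemma conv2_one (B : ℕ → ℕ → A) : conv2 1 1 B = B :=
  nest_inj (by simp [nest_conv2])

omit [Algebra ℚ A] in
lemma diag_conv2 (M M' : A⟦X⟧) (B : ℕ → ℕ → A) : diag (conv2 M M' B) = M * M' * diag B := by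
  ext n
  simp only [diag, conv2, coeff_mk, coeff_mul, sum_mul, mul_sum, sum_sigma']
  refine sum_nbij' (fun x => ⟨(x.2.1.1 + x.2.2.1, x.2.1.2 + x.2.2.2),
      ⟨(x.2.1.2, x.2.2.2), (x.2.1.1, x.2.2.1)⟩⟩)
    (fun y => ⟨(y.2.2.1 + y.2.1.1, y.2.2.2 + y.2.1.2), ⟨(y.2.2.1, y.2.1.1), (y.2.2.2, y.2.1.2)⟩⟩)
    ?_ ?_ ?_ ?_ ?_
  · rintro ⟨⟨a, b⟩, ⟨c, d⟩, ⟨e, f⟩⟩ h; simp at h ⊢; omega
  · rintro ⟨⟨a, b⟩, ⟨c, d⟩, ⟨e, f⟩⟩ h; simp at h ⊢; omega
  · rintro ⟨⟨a, b⟩, ⟨c, d⟩, ⟨e, f⟩⟩ h; simp at h ⊢; obtain ⟨_, rfl, rfl⟩ := h; simp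
  · rintro ⟨⟨a, b⟩, ⟨c, d⟩, ⟨e, f⟩⟩ h; simp at h ⊢; obtain ⟨_, rfl, rfl⟩ := h; simp
  · rintro ⟨⟨a, b⟩, ⟨c, d⟩, ⟨e, f⟩⟩ _; rfl

lemma ds_diag (B : ℕ → ℕ → A) :
    ds (diag B) = diag (fun k l => ((k : ℚ) + 1) • B (k+1) l) +
      diag (fun k l => ((l : ℚ) + 1) • B k (l+1)) := by
  ext n
  have e : ((n : ℚ) + 1) • ∑ p ∈ antidiagonal (n+1), B p.1 p.2 =
      ∑ p ∈ antidiagonal (n+1), (p.1 : ℚ) • B p.1 p.2 +
        ∑ p ∈ antidiagonal (n+1), (p.2 : ℚ) • B p.1 p.2 := by
    rw [smul_sum, ← sum_add_distrib]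
    refine sum_congr rfl fun p hp => ?_
    rw [← add_smul]; congr 1; exact_mod_cast (mem_antidiagonal.mp hp).symm
  rw [coeff_ds, map_add]
  simp only [diag, coeff_mk]
  rw [e, Finset.Nat.sum_antidiagonal_succ (f := fun p => (p.1 : ℚ) • B p.1 p.2),
    Finset.Nat.sum_antidiagonal_succ' (f := fun p => (p.2 : ℚ) • B p.1 p.2)]
  simp

end Series
end MJC
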