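import Pool.Agent.Lib.MP_9c49f6_co.CTool

/-! Polynomials with non-negative coefficients; polynomial rings in two alphabets
(`true` is the alphabet `Y`, `false` is `Z`). -/

namespace MJC
open Finset MvPolynomial

variable {σ τ : Type}

/-- polynomials with non-negative coefficients -/
def Pos (σ : Type) : Subsemiring (MvPolynomial σ ℚ) where
  carrier := {f | ∀ d, 0 ≤ coeff d f}
  mul_mem' := fun {f g} hf hg d => by
    classical
    rw [coeff_mul]; exact sum_nonneg fun p _ => mul_nonneg (hf _) (hg _)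
  one_mem' := fun d => by classical rw [coeff_one]; split_ifs <;> norm_num
  add_mem' := fun {f g} hf hg d => by rw [coeff_add]; exact add_nonneg (hf d) (hg d)
  zero_mem' := fun d => by simp

lemma mem_Pos {f : MvPolynomial σ ℚ} : f ∈ Pos σ ↔ ∀ d, 0 ≤ coeff d f := Iff.rfl

lemma Pos_cone : IsCone (Pos σ) := fun q hq f hf d => by
  rw [coeff_smul]; exact mul_nonneg hq (hf d)

lemma X_Pos (v : σ) : (X v : MvPolynomial σ ℚ) ∈ Pos σ := fun d => by
  classical rw [coeff_X]; split_ifs <;> norm_num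

lemma Pos_ind {P : MvPolynomial σ ℚ → Prop} (h1 : P 1) (hadd : ∀ f g, P f → P g → P (f + g))
    (hs : ∀ (q : ℚ) f, 0 ≤ q → P f → P (q • f)) (hX : ∀ f v, f ∈ Pos σ → P f → P (X v * f))
    {f : MvPolynomial σ ℚ} (hf : f ∈ Pos σ) : P f := by
  classical
  have h0 : P 0 := by simpa using hs 0 1 le_rfl h1
  have hm : ∀ d : σ →₀ ℕ, (monomial d (1:ℚ)) ∈ Pos σ := fun d e => by
    rw [coeff_monomial]; split_ifs <;> norm_num
  have hk : ∀ (v : σ) (k : ℕ) (d : σ →₀ ℕ), P (monomial d 1) →
      P (monomial (Finsupp.single v k + d) 1) := by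
    intro v k d hd
    induction k with
    | zero => simpa using hd
    | succ k ih =>
      have := hX _ v (hm _) ih
      rwa [X, monomial_mul, one_mul, ← add_assoc, ← Finsupp.single_add, add_comm 1 k] at this
  have h2 : ∀ d : σ →₀ ℕ, P (monomial d 1) := fun d => by
    induction d using Finsupp.induction with
    | zero => exact h1
    | single_add v k d _ _ ih => exact hk v k d ih
  rw [f.as_sum]
  refine sum_induction _ P hadd h0 fun d _ => ?_
  simpa [smul_monomial] using hs _ _ (hf d) (h2 d)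

lemma der_Pos {δ : Derivation ℚ (MvPolynomial σ ℚ) (MvPolynomial σ ℚ)}
    (h : ∀ v, δ (X v) ∈ Pos σ) : ∀ f ∈ Pos σ, δ f ∈ Pos σ := fun f hf => by
  refine Pos_ind (P := fun f => δ f ∈ Pos σ) (by simp) (fun f g h1 h2 => ?_)
    (fun q f hq h1 => ?_) (fun f v h1 h2 => ?_) hf
  · rw [map_add]; exact add_mem h1 h2
  · rw [Derivation.map_smul]; exact Pos_cone q hq _ h1
  · rw [Derivation.leibniz]; exact add_mem (mul_mem (X_Pos v) h2) (mul_mem h1 (h v))

lemma hom_Pos {φ : MvPolynomial σ ℚ →ₐ[ℚ] MvPolynomial τ ℚ}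
    (h : ∀ v, φ (X v) ∈ Pos τ) : ∀ f ∈ Pos σ, φ f ∈ Pos τ := fun f hf => by
  refine Pos_ind (P := fun f => φ f ∈ Pos τ) (by simp) (fun f g h1 h2 => ?_)
    (fun q f hq h1 => ?_) (fun f v _ h2 => ?_) hf
  · rw [map_add]; exact add_mem h1 h2
  · rw [map_smul]; exact Pos_cone q hq _ h1
  · rw [map_mul]; exact mul_mem (h v) h2

/-- intertwining of derivations along an algebra map is checked on the variables -/
lemma hom_der {B : Type} [CommRing B] [Algebra ℚ B] (φ : MvPolynomial σ ℚ →ₐ[ℚ] B)
    (δ : Derivation ℚ (MvPolynomial σ ℚ) (MvPolynomial σ ℚ)) (δ' : Derivation ℚ B B)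
    (h : ∀ v, φ (δ (X v)) = δ' (φ (X v))) (f : MvPolynomial σ ℚ) : φ (δ f) = δ' (φ f) := by
  induction f using MvPolynomial.induction_on with
  | C a => rw [← algebraMap_eq, Derivation.map_algebraMap, AlgHom.commutes,
      Derivation.map_algebraMap, map_zero]
  | add p q hp hq => simp [hp, hq]
  | mul_X p v hp => simp [Derivation.leibniz, hp, h]

/-- two derivations commute if they commute on the variables -/
lemma der_comm (δ δ' : Derivation ℚ (MvPolynomial σ ℚ) (MvPolynomial σ ℚ))
    (h : ∀ v, δ (δ' (X v)) = δ' (δ (X v))) (f : MvPolynomial σ ℚ) : δ (δ' f) = δ' (δ f) := by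
  induction f using MvPolynomial.induction_on with
  | C a => rw [← algebraMap_eq]; simp only [Derivation.map_algebraMap, map_zero]
  | add p q hp hq => simp [hp, hq]
  | mul_X p v hp => simp only [Derivation.leibniz, map_add, smul_eq_mul, hp, h]; ring

abbrev Two (σ : Type) := MvPolynomial (Bool × σ) ℚ

/-- `f(Y)` for `b = true`, `f(Z)` for `b = false` -/
noncomputable def em (b : Bool) : MvPolynomial σ ℚ →ₐ[ℚ] Two σ := rename (Prod.mk b)

/-- `f(Y) g(Z)` -/
noncomputable def tn (f g : MvPolynomial σ ℚ) : Two σ := em true f * em false g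

/-- a derivation acting on one alphabet -/
noncomputable def lf (b : Bool) (δ : Derivation ℚ (MvPolynomial σ ℚ) (MvPolynomial σ ℚ)) :
    Derivation ℚ (Two σ) (Two σ) :=
  mkDerivation ℚ fun v => if v.1 = b then em b (δ (X v.2)) else 0

/-- an algebra map acting on both alphabets -/
noncomputable def two (φ : MvPolynomial σ ℚ →ₐ[ℚ] MvPolynomial τ ℚ) : Two σ →ₐ[ℚ] Two τ :=
  aeval fun v => em v.1 (φ (X v.2))

lemma em_X (b : Bool) (v : σ) : em b (X v) = X (b, v) := rename_X _ _

variable (δ δ' : Derivation ℚ (MvPolynomial σ ℚ) (MvPolynomial σ ℚ))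
  (φ : MvPolynomial σ ℚ →ₐ[ℚ] MvPolynomial τ ℚ)

lemma lf_em (b : Bool) (f : MvPolynomial σ ℚ) : lf b δ (em b f) = em b (δ f) :=
  (hom_der (em b) δ (lf b δ) (fun v => by simp [em_X, lf]) f).symm

lemma lf_em_ne {b b' : Bool} (h : b' ≠ b) (f : MvPolynomial σ ℚ) : lf b δ (em b' f) = 0 := by
  have := hom_der (em b') 0 (lf b δ) (fun v => by simp [em_X, lf, h]) f
  simpa using this.symm

lemma lf_tn_true (f g : MvPolynomial σ ℚ) : lf true δ (tn f g) = tn (δ f) g := by
  simp [tn, Derivation.leibniz, lf_em, lf_em_ne, mul_comm]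

lemma lf_tn_false (f g : MvPolynomial σ ℚ) : lf false δ (tn f g) = tn f (δ g) := by
  simp [tn, Derivation.leibniz, lf_em, lf_em_ne]

lemma lf_comm (f : Two σ) : lf true δ (lf false δ' f) = lf false δ' (lf true δ f) :=
  der_comm _ _ (fun ⟨b, v⟩ => by cases b <;> simp [← em_X, lf_em, lf_em_ne]) f

lemma two_em (b : Bool) (f : MvPolynomial σ ℚ) : two φ (em b f) = em b (φ f) := by
  have : (two φ).comp (em b) = (em b).comp φ := by ext v : 1; simp [em_X, two]
  exact DFunLike.congr_fun this f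

lemma two_tn (f g : MvPolynomial σ ℚ) : two φ (tn f g) = tn (φ f) (φ g) := by
  simp [tn, two_em]

lemma two_two {ρ : Type} (ψ : MvPolynomial τ ℚ →ₐ[ℚ] MvPolynomial ρ ℚ) (f : Two σ) :
    two ψ (two φ f) = two (ψ.comp φ) f := by
  have : (two ψ).comp (two φ) = two (ψ.comp φ) := by
    ext ⟨b, v⟩ : 1; simp [← em_X, two_em]
  exact DFunLike.congr_fun this f

lemma two_id (f : Two σ) : two (AlgHom.id ℚ _) f = f := by
  have : two (AlgHom.id ℚ (MvPolynomial σ ℚ)) = AlgHom.id ℚ _ := by
    ext ⟨b, v⟩ : 1; simp [← em_X, two_em]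
  rw [this]; rfl

lemma two_lf (ε : Derivation ℚ (MvPolynomial τ ℚ) (MvPolynomial τ ℚ))
    (h : ∀ f, φ (δ f) = ε (φ f)) (b : Bool) (f : Two σ) :
    two φ (lf b δ f) = lf b ε (two φ f) :=
  hom_der (two φ) _ _ (fun ⟨b', v⟩ => by
    by_cases hb : b' = b
    · subst hb; simp only [← em_X, lf_em, two_em, h]
    · simp only [← em_X, lf_em_ne _ hb, two_em, map_zero]) f

lemma lf_add (b : Bool) (f : Two σ) : lf b (δ + δ') f = lf b δ f + lf b δ' f := by
  have : lf b (δ + δ') = lf b δ + lf b δ' := by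
    refine MvPolynomial.derivation_ext fun v => ?_
    simp only [lf, mkDerivation_X, Derivation.add_apply]; split_ifs <;> simp
  rw [this]; rfl

lemma lf_zero (b : Bool) (f : Two σ) : lf b 0 f = 0 := by
  have : lf (σ := σ) b 0 = 0 := by
    refine MvPolynomial.derivation_ext fun v => ?_
    simp [lf]
  rw [this]; rfl

lemma em_Pos (b : Bool) : ∀ f ∈ Pos σ, em b f ∈ Pos (Bool × σ) :=
  hom_Pos fun v => by rw [em_X]; exact X_Pos _

lemma tn_Pos {f g : MvPolynomial σ ℚ} (hf : f ∈ Pos σ) (hg : g ∈ Pos σ) :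
    tn f g ∈ Pos (Bool × σ) := mul_mem (em_Pos _ _ hf) (em_Pos _ _ hg)

lemma lf_Pos (h : ∀ v, δ (X v) ∈ Pos σ) (b : Bool) :
    ∀ f ∈ Pos (Bool × σ), lf b δ f ∈ Pos (Bool × σ) :=
  der_Pos fun v => by
    rw [lf, mkDerivation_X]; split_ifs
    exacts [em_Pos _ _ (h _), zero_mem _]

lemma two_Pos (h : ∀ v, φ (X v) ∈ Pos τ) : ∀ f ∈ Pos (Bool × σ), two φ f ∈ Pos (Bool × τ) :=
  hom_Pos fun v => by rw [two, aeval_X]; exact em_Pos _ _ (h _)

lemma tn_add_left (f f' g : MvPolynomial σ ℚ) : tn (f + f') g = tn f g + tn f' g := by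
  simp [tn, add_mul]
lemma tn_add_right (f g g' : MvPolynomial σ ℚ) : tn f (g + g') = tn f g + tn f g' := by
  simp [tn, mul_add]
lemma tn_smul_left (q : ℚ) (f g : MvPolynomial σ ℚ) : tn (q • f) g = q • tn f g := by
  simp [tn]
lemma tn_smul_right (q : ℚ) (f g : MvPolynomial σ ℚ) : tn f (q • g) = q • tn f g := by
  simp [tn]
lemma tn_mul (f f' g g' : MvPolynomial σ ℚ) : tn (f * f') (g * g') = tn f g * tn f' g' := by
  simp only [tn, map_mul]; ring

lemma Eop_tn_true (p f g : MvPolynomial σ ℚ) :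
    Eop (em true p) (lf true δ) (tn f g) = tn (Eop p δ f) g := by
  simp only [Eop, lf_tn_true, tn_add_left]; simp only [tn, map_mul, mul_assoc]

lemma Eop_tn_false (p f g : MvPolynomial σ ℚ) :
    Eop (em false p) (lf false δ) (tn f g) = tn f (Eop p δ g) := by
  simp only [Eop, lf_tn_false, tn_add_right]; simp only [tn, map_mul]; ring

/-- the exponent of `p_d(Y) p_e(Z)` -/
noncomputable def ex2 (d e : σ →₀ ℕ) : Bool × σ →₀ ℕ :=
  d.mapDomain (Prod.mk true) + e.mapDomain (Prod.mk false)

lemma ex2_inj {d e d' e' : σ →₀ ℕ} (h : ex2 d e = ex2 d' e') : d = d' ∧ e = e' := by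
  have hi : ∀ b : Bool, Function.Injective (Prod.mk b : σ → Bool × σ) := fun b x y h => by
    simpa using h
  have h1 : ∀ (d e : σ →₀ ℕ) v, ex2 d e (true, v) = d v ∧ ex2 d e (false, v) = e v := by
    intro d e v
    simp only [ex2, Finsupp.add_apply, Finsupp.mapDomain_apply (hi _)]
    rw [Finsupp.mapDomain_of_notMem_range _ _ (by simp), Finsupp.mapDomain_of_notMem_range _ _ (by simp)]
    simp
  constructor <;> ext v
  · rw [← (h1 d e v).1, h, (h1 d' e' v).1]
  · rw [← (h1 d e v).2, h, (h1 d' e' v).2]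

lemma coeff_tn (d e : σ →₀ ℕ) (f g : MvPolynomial σ ℚ) :
    coeff (ex2 d e) (tn f g) = coeff d f * coeff e g := by
  classical
  induction f using MvPolynomial.induction_on' with
  | add p q hp hq => rw [tn_add_left, coeff_add, hp, hq, coeff_add, add_mul]
  | monomial d' a =>
    induction g using MvPolynomial.induction_on' with
    | add p q hp hq => rw [tn_add_right, coeff_add, hp, hq, coeff_add, mul_add]
    | monomial e' b =>
      simp only [tn, em, rename_monomial, monomial_mul, coeff_monomial]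
      by_cases h : d' = d ∧ e' = e
      · obtain ⟨rfl, rfl⟩ := h; simp [ex2]
      · change (if ex2 d' e' = ex2 d e then _ else _) = _
        rw [if_neg fun h1 => h (ex2_inj h1)]
        by_cases h1 : d' = d <;> simp_all

/-- the Euler derivation counting the variables -/
noncomputable def Nu : Derivation ℚ (MvPolynomial σ ℚ) (MvPolynomial σ ℚ) := mkDerivation ℚ X

lemma Nu_X (v : σ) : Nu (X v : MvPolynomial σ ℚ) = X v := mkDerivation_X _ _ _

lemma coeff_Nu (d : σ →₀ ℕ) (f : MvPolynomial σ ℚ) :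
    coeff d (Nu f) = (d.degree : ℚ) * coeff d f := by
  classical
  have h : ∀ e : σ →₀ ℕ, Nu (monomial e (1:ℚ)) = (e.degree : ℚ) • monomial e 1 := fun e => by
    induction e using Finsupp.induction with
    | zero => simp
    | single_add v k e _ _ ih =>
      have : (monomial (Finsupp.single v k + e) (1:ℚ)) = X v ^ k * monomial e 1 := by
        rw [X_pow_eq_monomial, monomial_mul, one_mul]
      have h2 : Nu (X v ^ k : MvPolynomial σ ℚ) = (k : ℚ) • X v ^ k := by
        rw [Derivation.leibniz_pow, Nu_X]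
        cases k with
        | zero => simp
        | succ k => simp [pow_succ, Algebra.smul_def]
      rw [this, Derivation.leibniz, ih, h2]
      simp only [map_add, Finsupp.degree_single, Nat.cast_add, smul_eq_mul, mul_smul_comm, add_smul,
        mul_comm (monomial e (1:ℚ)), smul_mul_assoc]
      rw [add_comm]
  induction f using MvPolynomial.induction_on' with
  | add p q hp hq => rw [map_add, coeff_add, hp, hq, coeff_add, mul_add]
  | monomial e a =>
    have : (monomial e a : MvPolynomial σ ℚ) = a • monomial e 1 := by simp [smul_monomial]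
    rw [this, Derivation.map_smul, h]
    simp only [coeff_smul, coeff_monomial, smul_eq_mul]
    split_ifs with h1
    · subst h1; ring
    · simp

lemma degree_ex2 (d e : σ →₀ ℕ) : (ex2 d e).degree = d.degree + e.degree := by
  simp [ex2, Finsupp.degree_mapDomain]

end MJC
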