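import Pool.Agent.Lib.MP_9c49f6_co.CH

/-! Row `A2`: the part of `h_ρ` of length `ℓ(ρ) + 1` is adjoint to the cut operator. -/

namespace MJC
open MJ Finset MvPolynomial

namespace O7

noncomputable abbrev II : Ideal La := idealOfVars ℕ ℚ

/-- `p_m / m` -/
noncomputable def aa (m : ℕ) : La := (m : ℚ)⁻¹ • pv m
/-- the quadratic part of `h_m` -/
noncomputable def SS (m : ℕ) : La := (m : ℚ)⁻¹ • ∑ k ∈ range (m - 1), X k * aa (m - 1 - k)
noncomputable def D2 (m : ℕ) (f : La) : La :=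
  (1/2 : ℚ) • ∑ k ∈ range m, pderiv k (pderiv (m - 1 - k) f)

lemma aa_hom (m : ℕ) : (aa m).IsHomogeneous 1 := by
  refine (homogeneousSubmodule ℕ ℚ 1).smul_mem _ ?_
  cases m with
  | zero => exact zero_mem _
  | succ m => exact isHomogeneous_X ℚ m

lemma SS_hom (m : ℕ) : (SS m).IsHomogeneous 2 :=
  (homogeneousSubmodule ℕ ℚ 2).smul_mem _
    (sum_mem fun k _ => (isHomogeneous_X ℚ k).mul (aa_hom _))

lemma hom_mem {f : La} {k : ℕ} (h : f.IsHomogeneous k) : f ∈ II ^ k :=
  (mem_pow_idealOfVars_iff' k f).mpr fun _ hx => h.coeff_eq_zero hx.ne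

lemma mul_mem' {f g : La} {i j k : ℕ} (hf : f ∈ II ^ i) (hg : g ∈ II ^ j) (h : k ≤ i + j) :
    f * g ∈ II ^ k :=
  Ideal.pow_le_pow_right h (pow_add II i j ▸ Ideal.mul_mem_mul hf hg)

lemma smul_mem' {f : La} {k : ℕ} (c : ℚ) (hf : f ∈ II ^ k) : c • f ∈ II ^ k := by
  rw [smul_eq_C_mul]; exact Ideal.mul_mem_left _ _ hf

lemma X_mem (k : ℕ) : (X k : La) ∈ II ^ 1 := hom_mem (isHomogeneous_X ℚ k)

lemma hh_eq (m : ℕ) : hh (m+1) = ((m : ℚ) + 1)⁻¹ • ∑ k ∈ range (m+1), X k * hh (m - k) :=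
  ex_succ' _ m

lemma hh_mem1 {m : ℕ} (hm : 0 < m) : hh m ∈ II ^ 1 := by
  obtain ⟨m, rfl⟩ : ∃ k, m = k + 1 := ⟨m - 1, by omega⟩
  rw [hh_eq]
  exact smul_mem' _ (sum_mem fun k _ => Ideal.mul_mem_right _ _ (X_mem k))

lemma hh_sub (m : ℕ) :
    hh (m+1) - aa (m+1) = ((m : ℚ) + 1)⁻¹ • ∑ k ∈ range m, X k * hh (m - k) := by
  rw [hh_eq, sum_range_succ, aa]; simp

lemma hh_mem2 {m : ℕ} (hm : 0 < m) : hh m - aa m ∈ II ^ 2 := by
  obtain ⟨m, rfl⟩ : ∃ k, m = k + 1 := ⟨m - 1, by omega⟩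
  rw [hh_sub]
  exact smul_mem' _ (sum_mem fun k hk =>
    mul_mem' (X_mem k) (hh_mem1 (by have := mem_range.mp hk; omega)) le_rfl)

lemma hh_mem3 {m : ℕ} (hm : 0 < m) : hh m - aa m - SS m ∈ II ^ 3 := by
  obtain ⟨m, rfl⟩ : ∃ k, m = k + 1 := ⟨m - 1, by omega⟩
  rw [hh_sub, SS, Nat.add_sub_cancel, Nat.cast_succ, ← smul_sub, ← sum_sub_distrib]
  refine smul_mem' _ (sum_mem fun k hk => ?_)
  rw [← mul_sub]
  exact mul_mem' (X_mem k) (hh_mem2 (by have := mem_range.mp hk; omega)) le_rfl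

lemma A0_hom (l : List ℕ) : (l.map aa).prod.IsHomogeneous l.length := by
  induction l with
  | nil => exact isHomogeneous_one ℕ ℚ
  | cons m l ih => simpa [add_comm] using (aa_hom m).mul ih

lemma A1_hom (l : List ℕ) : (one SS aa l).IsHomogeneous (l.length + 1) := by
  induction l with
  | nil => exact isHomogeneous_zero ℕ ℚ _
  | cons m l ih =>
    refine IsHomogeneous.add ?_ ?_
    · convert (SS_hom m).mul (A0_hom l) using 1; simp; ring
    · convert (aa_hom m).mul ih using 1; simp; ring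

lemma hl_mem (l : List ℕ) (h : ∀ m ∈ l, 0 < m) :
    hl l - (l.map aa).prod - one SS aa l ∈ II ^ (l.length + 2) := by
  induction l with
  | nil => simp [hl]
  | cons m l ih =>
    have h2 := ih fun x hx => h x (by simp [hx])
    have h1 : hl l - (l.map aa).prod ∈ II ^ (l.length + 1) := by
      simpa using add_mem (Ideal.pow_le_pow_right (by omega) h2) (hom_mem (A1_hom l))
    have h0 : hl l ∈ II ^ l.length := by
      simpa using add_mem (Ideal.pow_le_pow_right (by omega) h1) (hom_mem (A0_hom l))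
    have e : hl (m :: l) - ((m :: l).map aa).prod - one SS aa (m :: l) =
        (hh m - aa m - SS m) * hl l + aa m * (hl l - (l.map aa).prod - one SS aa l) +
          SS m * (hl l - (l.map aa).prod) := by
      simp only [hl, List.map_cons, List.prod_cons, one_cons]; ring
    rw [e, List.length_cons]
    exact add_mem (add_mem (mul_mem' (hh_mem3 (h m (by simp))) h0 (by omega))
      (mul_mem' (hom_mem (aa_hom m)) h2 (by omega))) (mul_mem' (hom_mem (SS_hom m)) h1 (by omega))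

lemma coeff_hl (l : List ℕ) (h : ∀ m ∈ l, 0 < m) {d : ℕ →₀ ℕ} (hd : d.degree < l.length + 2) :
    coeff d (hl l) = coeff d (l.map aa).prod + coeff d (one SS aa l) := by
  have := (mem_pow_idealOfVars_iff' _ _).mp (hl_mem l h) d hd
  rw [coeff_sub, coeff_sub] at this
  linear_combination this

lemma zd0 (d : ℕ →₀ ℕ) : zd (0 : ℚ) 0 d = zn d := by simp [zd, pw, Finsupp.prod]

lemma ipX (k : ℕ) (f g : La) :
    ip 0 0 (X k * f) g = ((k : ℚ) + 1) * ip 0 0 f (pderiv k g) := by
  rw [ip_X]; simp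

lemma ipa (k : ℕ) (f g : La) : ip 0 0 (aa (k+1) * f) g = ip 0 0 f (pderiv k g) := by
  have h2 : ((k : ℚ) + 1) ≠ 0 := by positivity
  rw [aa, smul_mul_assoc, map_smul, LinearMap.smul_apply, pv_succ, ipX, smul_eq_mul, Nat.cast_succ,
    inv_mul_cancel_left₀ h2]

lemma pd_comm (i j : ℕ) (f : La) : pderiv i (pderiv j f) = pderiv j (pderiv i f) :=
  der_comm _ _ (fun v => by
    simp only [pderiv_X, Pi.single_apply]; split_ifs <;> simp) f

lemma ipS (m : ℕ) (f g : La) : ip 0 0 (SS (m+1) * f) g = ip 0 0 f (D2 m g) := by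
  have h2 : ((m : ℚ) + 1) ≠ 0 := by positivity
  set T : ℕ → ℚ := fun k => ip 0 0 f (pderiv k (pderiv (m - 1 - k) g)) with hT
  have e1 : ∑ k ∈ range m, ip 0 0 (X k * aa (m - k) * f) g =
      ∑ k ∈ range m, ((k : ℚ) + 1) * T k := sum_congr rfl fun k hk => by
    have := mem_range.mp hk
    rw [mul_assoc, ipX, show m - k = m - 1 - k + 1 by omega, ipa, pd_comm]
  have e2 : ∑ k ∈ range m, ((k : ℚ) + 1) * T k = ∑ k ∈ range m, ((m : ℚ) - k) * T k := by
    rw [← sum_range_reflect]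
    refine sum_congr rfl fun k hk => ?_
    have := mem_range.mp hk
    have e : ((m - 1 - k : ℕ) : ℚ) + 1 = m - k := by
      rw [← Nat.cast_succ, ← Nat.cast_sub this.le]; congr 1; omega
    rw [e, hT]
    simp only
    rw [show m - 1 - (m - 1 - k) = k by omega, pd_comm]
  have e3 : 2 * ∑ k ∈ range m, ((k : ℚ) + 1) * T k = ((m : ℚ) + 1) * ∑ k ∈ range m, T k := by
    rw [two_mul]
    nth_rw 2 [e2]
    rw [← sum_add_distrib, mul_sum]
    exact sum_congr rfl fun k _ => by ring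
  rw [SS, D2, Nat.add_sub_cancel, smul_mul_assoc, map_smul, LinearMap.smul_apply, sum_mul, map_sum,
    LinearMap.sum_apply, e1, map_smul, map_sum, Nat.cast_succ, smul_eq_mul, smul_eq_mul]
  change _ = 1 / 2 * ∑ k ∈ range m, T k
  field_simp
  linear_combination e3

lemma Sst_eq (n : ℕ) (f : La) : Sst n f =
    (1/2 : ℚ) • ∑ k ∈ range n, ∑ l ∈ range n, X (k + l + 1) * pderiv k (pderiv l f) := by
  rw [Sst, P1_apply]
  simp only [zero_mul, sum_const_zero, zero_add, AlgHom.id_apply]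
  refine congrArg _ (sum_congr rfl fun k _ => sum_congr rfl fun l _ => ?_)
  rw [show k + 1 + (l + 1) = (k + l + 1) + 1 by ring, pv_succ]

lemma pd_Sst {n m : ℕ} (h : m < n) (f : La) :
    pderiv m (Sst n f) = Sst n (pderiv m f) + D2 m f := by
  rw [Sst_eq, Sst_eq, D2, ← smul_add, Derivation.map_smul]
  refine congrArg _ ?_
  have e : ∑ k ∈ range m, pderiv k (pderiv (m - 1 - k) f) =
      ∑ k ∈ range n, ∑ l ∈ range n, if k + l + 1 = m then pderiv k (pderiv l f) else 0 := by
    refine (sum_subset_zero_on_sdiff (range_subset_range.mpr h.le) (fun k hk => ?_)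
      fun k hk => ?_)
    · have : ¬ k < m := by simpa using (mem_sdiff.mp hk).2
      exact sum_eq_zero fun l _ => if_neg (by omega)
    · have := mem_range.mp hk
      rw [sum_eq_single (m - 1 - k), if_pos (by omega)]
      · exact fun l _ hl => if_neg (by omega)
      · exact fun hl => absurd (mem_range.mpr (by omega)) hl
  rw [e, map_sum, ← sum_add_distrib]
  refine sum_congr rfl fun k _ => ?_
  rw [map_sum, ← sum_add_distrib]
  refine sum_congr rfl fun l _ => ?_
  rw [Derivation.leibniz, pd_comm m, pd_comm m, pderiv_X, Pi.single_apply]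
  split_ifs <;> simp

lemma key (n : ℕ) (l : List ℕ) (h : ∀ m ∈ l, 0 < m ∧ m ≤ n) :
    ∀ f : La, ip 0 0 (one SS aa l) f = ip 0 0 (l.map aa).prod (Sst n f) := by
  induction l with
  | nil =>
    intro f
    rw [one_nil, map_zero, LinearMap.zero_apply, List.map_nil, List.prod_nil, ip_symm, Sst_eq,
      map_smul, LinearMap.smul_apply, map_sum, LinearMap.sum_apply, sum_eq_zero, smul_zero]
    intro k _
    rw [map_sum, LinearMap.sum_apply]
    exact sum_eq_zero fun j _ => by rw [ipX]; simp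
  | cons m l ih =>
    intro f
    obtain ⟨h1, h2⟩ := h m (by simp)
    obtain ⟨m, rfl⟩ : ∃ k, m = k + 1 := ⟨m - 1, by omega⟩
    rw [one_cons, map_add, LinearMap.add_apply, ipS, ipa, ih fun x hx => h x (by simp [hx]),
      List.map_cons, List.prod_cons, ipa, pd_Sst h2, map_add, add_comm]

lemma A0_eq (l : List ℕ) :
    (l.map aa).prod = (l.map fun m : ℕ => (m : ℚ)⁻¹).prod • (l.map pv).prod := by
  induction l with
  | nil => simp
  | cons m l ih => simp only [List.map_cons, List.prod_cons, ih, aa, smul_mul_smul_comm]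

end O7
open O7

theorem C_A2 : St_A2 := by
  intro n ρ f hf
  have hp := lst_pos ρ
  have hk := key n (lst ρ) (fun m hm => ⟨hp m hm,
    (List.single_le_sum (fun _ _ => Nat.zero_le _) m hm).trans (lst_sum ρ).le⟩) f
  have h0 : co ρ ρ = ((lst ρ).map fun m : ℕ => (m : ℚ)⁻¹).prod := by
    rw [co, coeff_hl _ hp (by rw [degree_dOf, length_lst]; omega),
      (A1_hom _).coeff_eq_zero (by rw [degree_dOf, length_lst]; omega), A0_eq, ← pm_eq]
    simp
  rw [A0_eq, ← pm_eq, ← h0, smul_monomial, ip_monomial, zd0, zn_dOf, ip_symm, eq_Th hf, Th_apply,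
    map_sum, LinearMap.sum_apply, ← Th_apply, ← eq_Th hf] at hk
  refine (sum_congr rfl fun μ _ => ?_).trans (hk.trans (by simp only [smul_eq_mul]; ring))
  rw [ip_monomial, zd0, zn_dOf]
  split_ifs with h
  · rw [co, coeff_hl _ hp (by rw [degree_dOf, length_lst]; omega),
      (A0_hom _).coeff_eq_zero (by rw [degree_dOf, length_lst]; omega)]
    ring
  · rw [(A1_hom _).coeff_eq_zero (by rw [degree_dOf, length_lst]; exact h)]; ring

end MJC
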