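import Pool.Agent.Lib.MP_9c49f6_co.C_A3a
import Pool.Agent.Lib.MP_9c49f6_co.C_A2

/-! Row `A1`: the power-sum expansion of `h_κ` is triangular. -/

namespace MJC
open MJ Finset MvPolynomial

namespace A82
open O7

lemma co_len {n : ℕ} (κ ρ : n.Partition) (h : len ρ ≤ len κ) :
    co κ ρ = if ρ = κ then ((lst κ).map fun m : ℕ => (m : ℚ)⁻¹).prod else 0 := by
  rw [co, coeff_hl _ (lst_pos κ) (by rw [degree_dOf, length_lst]; omega),
    (A1_hom _).coeff_eq_zero (by rw [degree_dOf, length_lst]; omega), A0_eq, ← pm_eq, add_zero,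
    coeff_smul, coeff_monomial]
  by_cases e : ρ = κ
  · subst e; simp
  · rw [if_neg e, if_neg (fun e' => e (dOf_inj e').symm), smul_zero]

end A82
open A82 A3a

theorem C_A1 : St_A1 := by
  intro n κ ρ
  refine ⟨fun h => ⟨?_, ?_, fun e => ?_⟩, ?_⟩
  · have h4 := Bd_prod (B := 2 * n + 2) (by omega) (lst κ) _ h
    rw [val_dOf] at h4
    by_contra hlt
    exact absurd (lex_lt (not_le.mp hlt) (lst_sorted κ) (by have := lst_length κ; omega))
      (not_lt.mpr h4)
  · by_contra hlt
    have hlt' := not_le.mp hlt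
    rw [co_len κ ρ hlt'.le, if_neg (fun e => by subst e; exact lt_irrefl _ hlt')] at h
    exact h rfl
  · by_contra hne
    rw [co_len κ ρ e.le, if_neg hne] at h
    exact h rfl
  · rw [co_len κ κ le_rfl, if_pos rfl]
    refine List.prod_ne_zero fun h => ?_
    obtain ⟨m, hm, e⟩ := List.mem_map.mp h
    have := lst_pos κ m hm
    exact inv_ne_zero (Nat.cast_ne_zero.mpr this.ne') e

end MJC
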