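import Pool.Agent.Lib.MP_9c49f6_co.CBlue

/-! Row A3a: `S* h_l - U_l` has no power-sum monomial above `l`. -/

namespace MJC
open MJ Finset MvPolynomial

namespace A3a

lemma hh_succ (r : ℕ) : ((r : ℚ) + 1) • hh (r+1) = ∑ k ∈ range (r+1), X k * hh (r - k) :=
  ex_succ (F := ℚ) (fun k => (X k : La)) r

lemma hh_newton (s : ℕ) : (s : ℚ) • hh s = ∑ j ∈ range s, X j * hh (s - 1 - j) := by
  cases s with
  | zero => simp
  | succ r => simpa using hh_succ r

lemma pd_hh (k m : ℕ) :
    pderiv k (hh m) = if k < m then ((k : ℚ) + 1)⁻¹ • hh (m - (k+1)) else 0 := by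
  induction m using Nat.strong_induction_on with
  | _ m ih =>
    cases m with
    | zero => simp [hh]
    | succ r =>
      have h2 : ((r : ℚ) + 1) ≠ 0 := by positivity
      have h3 : ((k : ℚ) + 1) ≠ 0 := by positivity
      have h := congrArg (pderiv k) (hh_succ r)
      rw [Derivation.map_smul, map_sum] at h
      have e : ∀ j ∈ range (r+1), pderiv k (X j * hh (r - j)) =
          (if j = k then hh (r - k) else 0) +
            (if j < r - k then ((k : ℚ) + 1)⁻¹ • (X j * hh (r - k - 1 - j)) else 0) := by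
        intro j _
        rw [Derivation.leibniz, ih _ (by omega), pderiv_X, add_comm]
        congr 1
        · by_cases hj : j = k
          · subst hj; simp
          · simp [hj]
        · by_cases hj : j < r - k
          · rw [if_pos (by omega), if_pos hj, smul_eq_mul, mul_smul_comm]
            congr 3; omega
          · rw [if_neg (by omega), if_neg hj, smul_zero]
      rw [sum_congr rfl e, sum_add_distrib, sum_ite_eq', ← sum_filter] at h
      have e2 : (range (r+1)).filter (fun j => j < r - k) = range (r - k) := by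
        ext j; simp; omega
      rw [e2, ← smul_sum, ← hh_newton] at h
      apply smul_right_injective _ h2
      simp only
      rw [h]
      by_cases hk : k < r + 1
      · rw [if_pos (mem_range.mpr hk), if_pos hk, Nat.add_sub_add_right, smul_smul, smul_smul,
          Nat.cast_sub (by omega)]
        nth_rewrite 1 [← one_smul ℚ (hh (r - k))]
        rw [← add_smul]; congr 1; field_simp; ring
      · rw [if_neg (by simpa using hk), if_neg hk, show r - k = 0 by omega]; simp

lemma pd_hh_zero {k m : ℕ} (h : m ≤ k) : pderiv k (hh m) = 0 := by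
  rw [pd_hh, if_neg (by omega)]

lemma pd_pd {k i m : ℕ} (h : m ≤ k) : pderiv k (pderiv i (hh m)) = 0 := by
  rw [pd_hh]; split_ifs
  · rw [Derivation.map_smul, pd_hh_zero (by omega), smul_zero]
  · simp

/-- the grading -/
def w0 (k : ℕ) : ℤ := k + 1

abbrev Hg (m : ℤ) : Submodule ℚ La := weightedHomogeneousSubmodule ℚ w0 m

lemma Hg_mul {a b c : ℤ} {f g : La} (hf : f ∈ Hg a) (hg : g ∈ Hg b) (h : a + b = c) :
    f * g ∈ Hg c := h ▸ IsWeightedHomogeneous.mul hf hg

lemma Hg_X (k : ℕ) : (X k : La) ∈ Hg (k + 1) := isWeightedHomogeneous_X ℚ w0 k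

lemma Hg_pd {a : ℤ} {f : La} (hf : f ∈ Hg a) (i : ℕ) : pderiv i f ∈ Hg (a - (i + 1)) :=
  IsWeightedHomogeneous.pderiv hf (by simp [w0])

lemma Hg_hh (m : ℕ) : hh m ∈ Hg m := by
  induction m using Nat.strong_induction_on with
  | _ m ih =>
    cases m with
    | zero => simpa [hh] using isWeightedHomogeneous_one ℚ w0
    | succ r =>
      rw [hh, ex_succ']
      refine Submodule.smul_mem _ _ (Submodule.sum_mem _ fun k hk => ?_)
      have hk' : k ≤ r := by simpa [Nat.lt_succ_iff] using hk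
      exact Hg_mul (Hg_X k) (ih (r - k) (by omega)) (by push_cast [hk']; ring)

lemma pv_add (i j : ℕ) : pv (i + 1 + (j + 1)) = X (i + j + 1) := by
  rw [show i + 1 + (j + 1) = (i + j + 1) + 1 by ring]; rfl

/-- `W_(m,m')` -/
noncomputable def WW (n m m' : ℕ) : La :=
  Ga n (AlgHom.id ℚ La) (fun i j => pv (i + j)) (hh m) (hh m')

lemma WW_eq (n m m' : ℕ) : WW n m m' = ∑ i ∈ range n, ∑ j ∈ range n,
    X (i + j + 1) * (pderiv i (hh m) * pderiv j (hh m')) := by
  simp only [WW, Ga, pv_add, AlgHom.id_apply]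

lemma Hg_WW (n m m' : ℕ) : WW n m m' ∈ Hg (m + m') := by
  rw [WW_eq]
  refine Submodule.sum_mem _ fun i _ => Submodule.sum_mem _ fun j _ => ?_
  exact Hg_mul (Hg_X _) (Hg_mul (Hg_pd (Hg_hh m) i) (Hg_pd (Hg_hh m') j) rfl)
    (by push_cast; ring)

lemma Hg_S (n m : ℕ) : Sst n (hh m) ∈ Hg m := by
  rw [Sst, P1_apply]
  simp only [pv_add, AlgHom.id_apply, zero_mul, sum_const_zero, zero_add]
  refine Submodule.smul_mem _ _
    (Submodule.sum_mem _ fun i _ => Submodule.sum_mem _ fun j _ => ?_)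
  exact Hg_mul (Hg_X _) (Hg_pd (Hg_pd (Hg_hh m) j) i) (by push_cast; ring)

lemma Hg_uu (m m' : ℕ) : uu m m' ∈ Hg (m + m') := by
  refine Submodule.sum_mem _ fun l hl => Submodule.smul_mem _ _ (Submodule.sub_mem _ ?_
    (Submodule.smul_mem _ _ (Hg_mul (Hg_hh m) (Hg_hh m') rfl)))
  have : l ≤ m + m' := by have := mem_range.mp hl; omega
  exact Hg_mul (Hg_hh l) (Hg_hh _) (by push_cast [this]; ring)

lemma pd_WW {n m m' k : ℕ} (hm : m ≤ k) (hm' : m' ≤ k) :
    pderiv k (WW n m m') = ∑ p ∈ range n ×ˢ range n,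
      if p.1 + p.2 + 1 = k then pderiv p.1 (hh m) * pderiv p.2 (hh m') else 0 := by
  rw [WW_eq, sum_product, map_sum]
  refine sum_congr rfl fun i _ => ?_
  rw [map_sum]
  refine sum_congr rfl fun j _ => ?_
  rw [Derivation.leibniz, Derivation.leibniz, pd_pd hm, pd_pd hm', pderiv_X]
  by_cases h : i + j + 1 = k
  · simp [h]
  · simp [h]

lemma pd_uu {m m' k : ℕ} (hm : m ≤ k) (hm' : m' ≤ k) :
    pderiv k (uu m m') = ∑ l ∈ range (m + m' - k),
      (wl m m' l * ((k : ℚ) + 1)⁻¹) • (hh l * hh (m + m' - k - 1 - l)) := by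
  rw [uu, map_sum]
  symm
  refine sum_subset_zero_on_sdiff (range_subset_range.mpr (by omega)) (fun l hl => ?_)
    (fun l hl => ?_)
  · have h1 := mem_range.mp (mem_sdiff.mp hl).1
    have h2 := (mem_sdiff.mp hl).2
    rw [mem_range] at h2
    rw [Derivation.map_smul, et, map_sub, Derivation.map_smul, eta, Derivation.leibniz,
      Derivation.leibniz, pd_hh_zero hm, pd_hh_zero hm', pd_hh_zero (by omega),
      pd_hh_zero (by omega)]
    simp
  · have h1 := mem_range.mp hl
    rw [Derivation.map_smul, et, map_sub, Derivation.map_smul, eta, Derivation.leibniz,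
      Derivation.leibniz, pd_hh_zero hm, pd_hh_zero hm', pd_hh_zero (show l ≤ k by omega),
      pd_hh, if_pos (by omega), show m + m' - l - (k + 1) = m + m' - k - 1 - l by omega]
    simp [smul_smul]

lemma pd_diff {n m m' k : ℕ} (hn : m ≤ n) (hn' : m' ≤ n) (hm : m ≤ k) (hm' : m' ≤ k) :
    pderiv k (WW n m m' - uu m m') = 0 := by
  rw [map_sub, pd_WW hm hm', pd_uu hm hm', sub_eq_zero]
  set T := m + m' - k with hT
  have e1 : ∑ l ∈ range T, (wl m m' l * ((k : ℚ) + 1)⁻¹) • (hh l * hh (T - 1 - l)) =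
      ∑ l ∈ range T, ((((m : ℚ) - l)⁻¹ + ((m' : ℚ) - (T - 1 - l : ℕ))⁻¹) * ((k : ℚ) + 1)⁻¹) •
        (hh l * hh (T - 1 - l)) := by
    simp only [wl, add_mul, add_smul, sum_add_distrib]
    congr 1
    rw [← sum_range_reflect]
    refine sum_congr rfl fun l hl => ?_
    have := mem_range.mp hl
    rw [show T - 1 - (T - 1 - l) = l by omega, mul_comm (hh l)]
  rw [e1]
  symm
  refine sum_of_injOn (fun l => (m - 1 - l, m' - 1 - (T - 1 - l))) ?_ ?_ ?_ ?_
  · intro a ha b hb h
    have h1 := mem_range.mp (mem_coe.mp ha)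
    have h2 := mem_range.mp (mem_coe.mp hb)
    have := congrArg Prod.fst h
    simp only at this
    omega
  · intro a ha
    have h1 := mem_range.mp (mem_coe.mp ha)
    simp only [coe_product, Set.mem_prod, mem_coe, mem_range]
    omega
  · rintro ⟨i, j⟩ _ h
    split_ifs with hk
    · by_cases hi : i < m
      · by_cases hj : j < m'
        · exfalso
          apply h
          simp only at hk
          refine ⟨m - 1 - i, mem_coe.mpr (mem_range.mpr (by omega)), ?_⟩
          simp only [Prod.mk.injEq]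
          omega
        · rw [pd_hh_zero (not_lt.mp hj), mul_zero]
      · rw [pd_hh_zero (not_lt.mp hi), zero_mul]
    · rfl
  · intro l hl
    have h1 := mem_range.mp hl
    obtain ⟨i, hi⟩ : ∃ i, m = i + 1 + l := ⟨m - 1 - l, by omega⟩
    obtain ⟨b, hb⟩ : ∃ b, T = b + 1 + l := ⟨T - 1 - l, by omega⟩
    obtain ⟨j, hj⟩ : ∃ j, m' = j + 1 + b := ⟨m' - 1 - b, by omega⟩
    have hk : k = i + j + 1 := by omega
    simp only
    rw [show T - 1 - l = b by omega, show m - 1 - l = i by omega, show m' - 1 - b = j by omega,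
      if_pos hk.symm, pd_hh, pd_hh, if_pos (by omega), if_pos (by omega),
      show m - (i + 1) = l by omega, show m' - (j + 1) = b by omega, smul_mul_smul_comm]
    congr 1
    have a1 : (m : ℚ) - l = i + 1 := by rw [hi]; push_cast; ring
    have a2 : (m' : ℚ) - b = j + 1 := by rw [hj]; push_cast; ring
    rw [a1, a2, hk]
    push_cast
    field_simp
    ring

/-- the value of a monomial: `p_a` has value `B^a` -/
noncomputable def val (B : ℕ) : (ℕ →₀ ℕ) →+ ℕ := Finsupp.weight fun k => B ^ (k+1)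

lemma weight_ms {M : Type} [AddCommMonoid M] (w : ℕ → M) (s : Multiset ℕ) :
    Finsupp.weight w (Multiset.toFinsupp s) = (s.map w).sum := by
  induction s using Multiset.induction_on with
  | empty => simp
  | cons a s ih =>
    rw [← Multiset.singleton_add, map_add, map_add, ih, Multiset.toFinsupp_singleton,
      Finsupp.weight_single]
    simp

lemma cast_ms (s : Multiset ℕ) : (s.map w0).sum = ((s.map (· + 1)).sum : ℕ) := by
  induction s using Multiset.induction_on with
  | empty => simp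
  | cons a s _ => simp [w0]

lemma ms_le {B : ℕ} (hB : 2 ≤ B) (s : Multiset ℕ) :
    (s.map fun k => B ^ (k+1)).sum ≤ B ^ (s.map (· + 1)).sum := by
  induction s using Multiset.induction_on with
  | empty => simp
  | cons a s ih =>
    rcases s.empty_or_exists_mem with rfl | ⟨b, hb⟩
    · simp
    · obtain ⟨t, rfl⟩ := Multiset.exists_cons_of_mem hb
      rw [Multiset.map_cons, Multiset.sum_cons, Multiset.map_cons (· + 1) a, Multiset.sum_cons,
        pow_add B (a + 1)]
      refine (Nat.add_le_add_left ih _).trans (Nat.add_le_mul ?_ ?_)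
      · exact hB.trans (Nat.le_self_pow (by omega) B)
      · exact hB.trans (Nat.le_self_pow (by simp) B)

lemma card_le_ms (s : Multiset ℕ) : Multiset.card s ≤ (s.map (· + 1)).sum := by
  induction s using Multiset.induction_on with
  | empty => simp
  | cons a s ih => simp only [Multiset.card_cons, Multiset.map_cons, Multiset.sum_cons]; omega

lemma ms_le2 {B m m' : ℕ} (hB : 2 ≤ B) (hN : m + m' ≤ B) (s : Multiset ℕ)
    (h : (s.map (· + 1)).sum = m + m') (hs : ∀ k ∈ s, k < m) :
    (s.map fun k => B ^ (k+1)).sum ≤ B ^ m + B ^ m' := by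
  by_cases h1 : ∃ a ∈ s, a + 1 = m
  · obtain ⟨a, ha, rfl⟩ := h1
    obtain ⟨t, rfl⟩ := Multiset.exists_cons_of_mem ha
    rw [Multiset.map_cons, Multiset.sum_cons] at h ⊢
    have := ms_le hB t
    rw [show (t.map (· + 1)).sum = m' by omega] at this
    omega
  · rcases s.empty_or_exists_mem with rfl | ⟨b, hb⟩
    · simp
    obtain ⟨r, rfl⟩ : ∃ r, m = r + 1 := ⟨m - 1, by have := hs b hb; omega⟩
    have h2 : (s.map fun k => B ^ (k+1)).sum ≤ Multiset.card (s.map fun k => B ^ (k+1)) • B ^ r :=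
      Multiset.sum_le_card_nsmul _ _ fun x hx => by
        obtain ⟨a, ha, rfl⟩ := Multiset.mem_map.mp hx
        refine Nat.pow_le_pow_right (by omega) ?_
        have := hs a ha
        have : a + 1 ≠ r + 1 := fun e => h1 ⟨a, ha, e⟩
        omega
    rw [Multiset.card_map, smul_eq_mul] at h2
    have h3 : Multiset.card s ≤ B := (card_le_ms s).trans (h ▸ hN)
    calc _ ≤ B * B ^ r := h2.trans (Nat.mul_le_mul_right _ h3)
      _ = B ^ (r+1) := by ring
      _ ≤ _ := Nat.le_add_right _ _

/-- all monomials have value at most `v` -/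
def Bd (B v : ℕ) (f : La) : Prop := ∀ d, coeff d f ≠ 0 → val B d ≤ v

lemma Bd.add {B v : ℕ} {f g : La} (hf : Bd B v f) (hg : Bd B v g) : Bd B v (f + g) := by
  intro d hd
  by_cases h : coeff d f = 0
  · exact hg d (by simpa [h] using hd)
  · exact hf d h

lemma Bd.mul {B v v' : ℕ} {f g : La} (hf : Bd B v f) (hg : Bd B v' g) :
    Bd B (v + v') (f * g) := by
  intro d hd
  rw [coeff_mul] at hd
  obtain ⟨p, hp, h⟩ := exists_ne_zero_of_sum_ne_zero hd
  rw [← mem_antidiagonal.mp hp, map_add]
  exact add_le_add (hf _ (left_ne_zero_of_mul h)) (hg _ (right_ne_zero_of_mul h))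

lemma Bd_zero (B v : ℕ) : Bd B v 0 := fun d hd => absurd (by simp) hd

lemma Bd_one (B : ℕ) : Bd B 0 1 := fun d hd => by
  rw [coeff_one] at hd
  split_ifs at hd with h
  · rw [← h]; simp
  · exact absurd rfl hd

lemma wt_of {m : ℕ} {f : La} (hf : f ∈ Hg m) {s : Multiset ℕ}
    (hd : coeff (Multiset.toFinsupp s) f ≠ 0) : (s.map (· + 1)).sum = m := by
  have := hf hd
  rw [weight_ms, cast_ms] at this
  exact_mod_cast this

lemma Bd_Hg {B m : ℕ} (hB : 2 ≤ B) {f : La} (hf : f ∈ Hg m) : Bd B (B ^ m) f := by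
  intro d hd
  obtain ⟨s, rfl⟩ := Multiset.toFinsupp.surjective d
  rw [val, weight_ms, ← wt_of hf hd]
  exact ms_le hB s

lemma lt_of_pd {m : ℕ} {f : La} (h : ∀ k, m ≤ k → pderiv k f = 0) {s : Multiset ℕ}
    (hd : coeff (Multiset.toFinsupp s) f ≠ 0) : ∀ k ∈ s, k < m := by
  intro k hk
  by_contra hm
  obtain ⟨t, rfl⟩ := Multiset.exists_cons_of_mem hk
  have := coeff_pderiv (i := k) f (Multiset.toFinsupp t)
  rw [h k (not_lt.mp hm), coeff_zero] at this
  rw [← Multiset.singleton_add, map_add, Multiset.toFinsupp_singleton, add_comm] at hd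
  exact mul_ne_zero hd (by positivity) this.symm

lemma Bd_diff {n m m' : ℕ} (hn : m ≤ n) (hn' : m' ≤ n) :
    Bd (2 * n + 2) ((2 * n + 2) ^ m + (2 * n + 2) ^ m') (WW n m m' - uu m m') := by
  intro d hd
  obtain ⟨s, rfl⟩ := Multiset.toFinsupp.surjective d
  have h1 : WW n m m' - uu m m' ∈ Hg ((m + m' : ℕ) : ℤ) := by
    push_cast; exact Submodule.sub_mem _ (Hg_WW n m m') (Hg_uu m m')
  have h2 := wt_of h1 hd
  have h3 := lt_of_pd (m := max m m')
    (fun k hk => pd_diff hn hn' ((le_max_left _ _).trans hk) ((le_max_right _ _).trans hk)) hd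
  rw [val, weight_ms]
  rcases le_total m m' with h | h
  · rw [max_eq_right h] at h3
    rw [add_comm (_ ^ m)]
    exact ms_le2 (by omega) (by omega) s (by omega) h3
  · rw [max_eq_left h] at h3
    exact ms_le2 (by omega) (by omega) s h2 h3

lemma Bd_prod {B : ℕ} (hB : 2 ≤ B) (L : List ℕ) :
    Bd B (L.map (B ^ ·)).sum (L.map hh).prod := by
  induction L with
  | nil => exact Bd_one B
  | cons m L ih => exact (Bd_Hg hB (Hg_hh m)).mul ih

lemma Bd_one' {B : ℕ} (hB : 2 ≤ B) {g : ℕ → La} (v : ℕ) (L : List ℕ)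
    (hg : ∀ m ∈ L, Bd B (v + B ^ m) (g m)) : Bd B (v + (L.map (B ^ ·)).sum) (one g hh L) := by
  induction L with
  | nil => exact Bd_zero _ _
  | cons m L ih =>
    rw [one_cons, List.map_cons, List.sum_cons]
    refine Bd.add ?_ ?_
    · rw [← add_assoc]; exact (hg m (by simp)).mul (Bd_prod hB L)
    · rw [add_left_comm]
      exact (Bd_Hg hB (Hg_hh m)).mul (ih fun x hx => hg x (by simp [hx]))

lemma Bd_pair {B : ℕ} (hB : 2 ≤ B) {β : ℕ → ℕ → La} (L : List ℕ)
    (hg : ∀ m ∈ L, ∀ m' ∈ L, Bd B (B ^ m + B ^ m') (β m m')) :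
    Bd B (L.map (B ^ ·)).sum (pair β hh L) := by
  induction L with
  | nil => exact Bd_zero _ _
  | cons m L ih =>
    rw [pair_cons, List.map_cons, List.sum_cons]
    exact Bd.add (Bd_one' hB _ L fun x hx => hg m (by simp) x (by simp [hx]))
      ((Bd_Hg hB (Hg_hh m)).mul (ih fun x hx y hy => hg x (by simp [hx]) y (by simp [hy])))

lemma val_dOf (B : ℕ) {n : ℕ} (μ : n.Partition) : val B (dOf μ) = ((lst μ).map (B ^ ·)).sum := by
  rw [val, dOf, weight_ms, ← Multiset.sum_coe, ← Multiset.map_coe, lst_coe]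
  conv_rhs => rw [← parts_eq μ, Multiset.map_map]
  rfl

lemma lex_lt {B : ℕ} {L R : List ℕ} (h : L < R) (hL : L.Pairwise (· ≥ ·))
    (hB : L.length < B) : (L.map (B ^ ·)).sum < (R.map (B ^ ·)).sum := by
  induction h with
  | nil =>
    simp only [List.map_nil, List.sum_nil, List.map_cons, List.sum_cons]
    have : 0 < B := hB
    positivity
  | @rel a L b R hab =>
    have h1 : ((a :: L).map (B ^ ·)).sum ≤ ((a :: L).map (B ^ ·)).length • B ^ a :=
      List.sum_le_card_nsmul _ _ fun x hx => by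
        obtain ⟨y, hy, rfl⟩ := List.mem_map.mp hx
        refine Nat.pow_le_pow_right (by omega) ?_
        rcases List.mem_cons.mp hy with rfl | hy
        · exact le_rfl
        · exact (List.pairwise_cons.mp hL).1 y hy
    rw [List.length_map, smul_eq_mul] at h1
    have h2 : 0 < B ^ a := pow_pos (by omega) _
    calc _ ≤ _ := h1
      _ < B * B ^ a := Nat.mul_lt_mul_of_pos_right hB h2
      _ = B ^ (a + 1) := by ring
      _ ≤ B ^ b := Nat.pow_le_pow_right (by omega) hab
      _ ≤ _ := by rw [List.map_cons, List.sum_cons]; exact Nat.le_add_right _ _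
  | @cons a L R _ ih =>
    simp only [List.map_cons, List.sum_cons]
    exact Nat.add_lt_add_left (ih (List.pairwise_cons.mp hL).2
      (by simp only [List.length_cons] at hB; omega)) _

end A3a

open A3a in
theorem C_A3a (hSO : St_SO) : St_A3a := by
  intro n l ρ hlt
  have hB : 2 ≤ 2 * n + 2 := by omega
  have hle : ∀ m ∈ lst l, m ≤ n := fun m hm => by
    have := List.le_sum_of_mem hm
    rwa [lst_sum] at this
  have h1 := (hSO La n (AlgHom.id ℚ La) (fun _ => 0) (fun i j => pv (i + j))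
    (fun k l => by rw [add_comm])).1 hh (lst l)
  have h2 : Sst n (hl (lst l)) - Ul (lst l) = one (fun m => Sst n (hh m)) hh (lst l) +
      pair (fun m m' => WW n m m' - uu m m') hh (lst l) := by
    rw [pair_sub, ← add_sub_assoc]
    exact congrArg (· - Ul (lst l)) h1
  have h3 : Bd (2 * n + 2) ((lst l).map ((2 * n + 2) ^ ·)).sum
      (Sst n (hl (lst l)) - Ul (lst l)) := by
    rw [h2]
    refine Bd.add ?_ (Bd_pair hB _ fun m hm m' hm' => Bd_diff (hle m hm) (hle m' hm'))
    simpa using Bd_one' hB 0 (lst l) fun m _ => by simpa using Bd_Hg hB (Hg_S n m)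
  rw [cu, ← sub_eq_zero, ← coeff_sub]
  by_contra h
  have h4 := h3 _ h
  rw [val_dOf] at h4
  exact absurd (lex_lt hlt (lst_sorted l) (by have := lst_length l; omega)) (not_lt.mpr h4)

end MJC
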