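import Pool.Agent.Lib.MP_9c49f6_co.CBlue

/-! Row `A3b`: `U_λ` is killed by `ε` and is a combination of `h_κ` with `κ ≥ λ`. -/

namespace MJC
open MJ Finset MvPolynomial

namespace A3b

lemma ex_delta (m : ℕ) :
    ex ℚ (fun k => if k = 0 then (1 : ℚ) else 0) m = (m.factorial : ℚ)⁻¹ := by
  induction m with
  | zero => simp
  | succ m ih =>
    rw [ex_succ', sum_eq_single 0 (fun k _ hk => by simp [hk]) (by simp)]
    simp only [if_true, Nat.sub_zero, one_mul, ih, smul_eq_mul, Nat.factorial_succ]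
    push_cast
    rw [mul_inv]

lemma eps_hh (m : ℕ) : eps (hh m) = (m.factorial : ℚ)⁻¹ := by
  rw [hh, map_ex, ← ex_delta]
  simp [eps]

lemma eps_et (m m' l : ℕ) : eps (et m m' l) = 0 := by
  have h1 : (m.factorial : ℚ) ≠ 0 := by positivity
  have h2 : (m'.factorial : ℚ) ≠ 0 := by positivity
  have h3 : (l.factorial : ℚ) ≠ 0 := by positivity
  have h4 : ((m + m' - l).factorial : ℚ) ≠ 0 := by positivity
  simp only [et, eta, cN, map_sub, map_mul, map_smul, eps_hh, smul_eq_mul]
  field_simp
  ring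

lemma eps_uu (m m' : ℕ) : eps (uu m m') = 0 := by
  simp [uu, map_sum, eps_et]

lemma eps_Ul (L : List ℕ) : eps (Ul L) = 0 := by
  rw [Ul, map_pair]
  simp only [eps_uu, pair_zero]

lemma hl_cons (m : ℕ) (L : List ℕ) : hl (m :: L) = hh m * hl L := by simp [hl]

lemma hh_zero : hh 0 = 1 := by simp [hh]

lemma hl_perm {L K : List ℕ} (h : L.Perm K) : hl L = hl K := (h.map hh).prod_eq

lemma mul_span {s : Set La} {P : Submodule ℚ La} (g : La) (h : ∀ f ∈ s, g * f ∈ P) {x : La}
    (hx : x ∈ Submodule.span ℚ s) : g * x ∈ P := by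
  induction hx using Submodule.span_induction with
  | mem f hf => exact h f hf
  | zero => simp
  | add x y _ _ hx hy => rw [mul_add]; exact add_mem hx hy
  | smul c x _ hx => rw [mul_smul_comm]; exact P.smul_mem c hx

/-- generators: `h_(m :: L)` itself and the `h_(a :: T)` of the same weight with `a > m` -/
def VS (m : ℕ) (L : List ℕ) : Set La :=
  {f | f = hl (m :: L) ∨ ∃ a T, m < a ∧ (∀ x ∈ T, 0 < x) ∧ a + T.sum = m + L.sum ∧ f = hl (a :: T)}

/-- generators: the `h_K` of the same weight with `K ≥ L` -/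
def WS (L : List ℕ) : Set La :=
  {f | ∃ K : List ℕ, (∀ x ∈ K, 0 < x) ∧ L ≤ K ∧ K.sum = L.sum ∧ f = hl K}

lemma one_uu (m : ℕ) (L : List ℕ) (hL : ∀ x ∈ L, 0 < x) :
    one (uu m) hh L ∈ Submodule.span ℚ (VS m L) := by
  induction L with
  | nil => simp
  | cons b L ih =>
    have hb : 0 < b := hL b (by simp)
    have hL' : ∀ x ∈ L, 0 < x := fun x hx => hL x (by simp [hx])
    rw [one_cons]
    refine add_mem ?_ (mul_span _ ?_ (ih hL'))
    · change uu m b * hl L ∈ _
      rw [uu, sum_mul]
      refine Submodule.sum_mem _ fun l hl' => ?_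
      have hlb : l < b := lt_of_lt_of_le (mem_range.mp hl') (min_le_right _ _)
      rw [smul_mul_assoc, et, sub_mul, smul_mul_assoc]
      refine Submodule.smul_mem _ _ (sub_mem (Submodule.subset_span (Or.inr ?_))
        (Submodule.smul_mem _ _ (Submodule.subset_span (Or.inl ?_))))
      · rcases Nat.eq_zero_or_pos l with rfl | h0
        · exact ⟨m + b, L, by omega, hL', by simp; omega, by simp [eta, hh_zero, hl_cons]⟩
        · refine ⟨m + b - l, l :: L, by omega, ?_, by simp; omega, ?_⟩
          · intro x hx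
            rcases List.mem_cons.mp hx with rfl | hx
            exacts [h0, hL' x hx]
          · simp only [eta, hl_cons]; ring
      · simp only [hl_cons]; ring
    · rintro f (rfl | ⟨a, T, h1, h2, h3, rfl⟩)
      · exact Submodule.subset_span (Or.inl (by simp only [hl_cons]; ring))
      · refine Submodule.subset_span (Or.inr ⟨a, b :: T, h1, ?_, by simp; omega, ?_⟩)
        · intro x hx
          rcases List.mem_cons.mp hx with rfl | hx
          exacts [hb, h2 x hx]
        · simp only [hl_cons]; ring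

lemma Ul_mem (L : List ℕ) (hL : ∀ x ∈ L, 0 < x) : Ul L ∈ Submodule.span ℚ (WS L) := by
  induction L with
  | nil => simp [Ul]
  | cons m L ih =>
    have hm : 0 < m := hL m (by simp)
    have hL' : ∀ x ∈ L, 0 < x := fun x hx => hL x (by simp [hx])
    rw [Ul, pair_cons]
    refine add_mem (Submodule.span_mono ?_ (one_uu m L hL')) (mul_span _ ?_ (ih hL'))
    · rintro f (rfl | ⟨a, T, h1, h2, h3, rfl⟩)
      · exact ⟨m :: L, hL, le_rfl, rfl, rfl⟩
      · refine ⟨a :: T, ?_, le_of_lt (List.cons_lt_cons_iff.mpr (Or.inl h1)), by simpa using h3, rfl⟩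
        intro x hx
        rcases List.mem_cons.mp hx with rfl | hx
        exacts [by omega, h2 x hx]
    · rintro f ⟨K, h1, h2, h3, rfl⟩
      refine Submodule.subset_span ⟨m :: K, ?_, ?_, by simp [h3], (hl_cons m K).symm⟩
      · intro x hx
        rcases List.mem_cons.mp hx with rfl | hx
        exacts [hm, h1 x hx]
      · rcases h2.lt_or_eq with h | rfl
        · exact le_of_lt (List.cons_lt_cons_iff.mpr (Or.inr ⟨rfl, h⟩))
        · exact le_rfl

lemma of_span {n : ℕ} (l : n.Partition) {f : La} (hf : f ∈ Submodule.span ℚ (WS (lst l))) :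
    ∃ u : n.Partition → ℚ, (∀ κ, u κ ≠ 0 → lst l ≤ lst κ) ∧ f = ∑ κ, u κ • hl (lst κ) := by
  classical
  induction hf using Submodule.span_induction with
  | mem f hf =>
    obtain ⟨K, h1, h2, h3, rfl⟩ := hf
    let k : n.Partition := ⟨K, fun hx => h1 _ hx, by simpa [lst_sum] using h3⟩
    have hp : K.Perm (lst k) := by rw [← Multiset.coe_eq_coe, lst_coe]
    refine ⟨fun κ => if κ = k then 1 else 0, fun κ hκ => ?_, ?_⟩
    · have : κ = k := by by_contra hc; simp [hc] at hκ
      rw [this]; exact h2.trans (perm_le_sorted (lst_sorted k) hp)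
    · simp [hl_perm hp]
  | zero => exact ⟨0, by simp, by simp⟩
  | add x y _ _ hx hy =>
    obtain ⟨u, hu, rfl⟩ := hx
    obtain ⟨v, hv, rfl⟩ := hy
    refine ⟨u + v, fun κ hκ => ?_, by simp [add_smul, sum_add_distrib]⟩
    by_cases h : u κ = 0
    · exact hv κ (by simpa [h] using hκ)
    · exact hu κ h
  | smul c x _ hx =>
    obtain ⟨u, hu, rfl⟩ := hx
    refine ⟨c • u, fun κ hκ => hu κ fun h => by simp [h] at hκ, by simp [smul_sum, smul_smul]⟩

end A3b

theorem C_A3b : St_A3b := fun _ l =>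
  ⟨A3b.eps_Ul _, A3b.of_span l (A3b.Ul_mem _ (lst_pos l))⟩

end MJC
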