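import Pool.Agent.Lib.MP_9c49f6_co.CBlue

/-! Row `A4`: existence of the Jack family and its expansion to first order in `1/b`. -/

namespace MJC
open MJ Finset MvPolynomial

namespace A4

variable {n : ℕ}

lemma hh_Hm (m : ℕ) : hh m ∈ Hm ℚ m := by
  induction m using Nat.strong_induction_on with
  | _ m ih =>
    cases m with
    | zero => simpa [hh] using (one_mem_Hm : (1 : Lam ℚ) ∈ Hm ℚ 0)
    | succ r =>
      rw [hh, ex_succ']
      refine Submodule.smul_mem _ _ (Submodule.sum_mem _ fun k hk => ?_)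
      have hk' := mem_range.mp hk
      have h1 := Hm_mul (X_mem_Hm (F := ℚ) k) (ih (r - k) (by omega))
      have e : ((k : ℤ) + 1 + ((r - k : ℕ) : ℤ)) = ((r + 1 : ℕ) : ℤ) := by omega
      rwa [e] at h1

lemma hl_Hm (L : List ℕ) : hl L ∈ Hm ℚ (L.sum : ℕ) := by
  induction L with
  | nil => simpa [hl] using (one_mem_Hm : (1 : Lam ℚ) ∈ Hm ℚ 0)
  | cons a L ih => simpa [hl] using Hm_mul (hh_Hm a) ih

lemma hl_lst (l : n.Partition) : hl (lst l) ∈ Hm ℚ n := by
  have := hl_Hm (lst l); rwa [lst_sum] at this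

lemma eps_hh (m : ℕ) : (m.factorial : ℚ) * eps (hh m) = 1 := by
  rw [hh, map_ex]
  induction m with
  | zero => simp
  | succ r ih =>
    rw [ex_succ', sum_eq_single 0 (fun k _ hk => by simp [eps, hk]) (by simp), Nat.sub_zero,
      Nat.factorial_succ]
    have h1 : eps (X 0) = 1 := by simp [eps]
    have h2 : ((r : ℚ) + 1) ≠ 0 := by positivity
    rw [h1, one_mul, smul_eq_mul]; push_cast
    calc ((r : ℚ) + 1) * r.factorial * (((r : ℚ) + 1)⁻¹ * ex ℚ (fun k => eps (X k)) r)
        = (((r : ℚ) + 1) * ((r : ℚ) + 1)⁻¹) * (r.factorial * ex ℚ (fun k => eps (X k)) r) := by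
          ring
      _ = 1 := by rw [ih, mul_inv_cancel₀ h2, one_mul]

lemma eps_hl (L : List ℕ) : fl L * eps (hl L) = 1 := by
  induction L with
  | nil => simp [fl, hl]
  | cons a L ih =>
    have h := eps_hh a
    simp only [fl, hl, List.map_cons, List.prod_cons, map_mul] at ih ⊢
    calc _ = ((a.factorial : ℚ) * eps (hh a)) *
        ((L.map fun m => (m.factorial : ℚ)).prod * eps (L.map hh).prod) := by ring
      _ = 1 := by rw [h, ih, one_mul]

lemma eps_mono (μ : n.Partition) (a : ℚ) :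
    eps (monomial (dOf μ) a) = if μ = ones n then a else 0 := by
  have h := prod_dOf μ fun i => if i = 1 then (1 : ℚ) else 0
  simp only [Nat.add_eq_right] at h
  rw [eps, aeval_monomial, h]
  split_ifs with hμ
  · subst hμ; simp [ones]
  · have : (0 : ℚ) ∈ μ.parts.map fun i => if i = 1 then (1 : ℚ) else 0 := by
      by_contra hc
      apply hμ
      have h1 : ∀ i ∈ μ.parts, i = 1 := fun i hi => by
        by_contra h2
        exact hc (Multiset.mem_map.mpr ⟨i, hi, by simp [h2]⟩)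
      have h3 : μ.parts = Multiset.replicate (Multiset.card μ.parts) 1 :=
        Multiset.eq_replicate_card.mpr h1
      have h4 : Multiset.card μ.parts = n := by
        have := μ.parts_sum; rw [h3] at this; simpa using this
      exact Nat.Partition.ext (by rw [h3, h4]; rfl)
    rw [Multiset.prod_eq_zero this, mul_zero]

lemma eps_Hm {f : La} (hf : f ∈ Hm ℚ n) : eps f = coeff (dOf (ones n)) f := by
  conv_lhs => rw [eq_Th hf, Th_apply, map_sum]
  simp [eps_mono]

lemma fl_co (l : n.Partition) : fl (lst l) * co l (ones n) = 1 := by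
  rw [co, ← eps_Hm (hl_lst l), eps_hl]

lemma len_le (μ : n.Partition) : len μ ≤ n := by
  have := lst_length μ
  rwa [← Multiset.coe_card, lst_coe] at this

lemma len_ones : len (ones n) = n := by simp [len, ones]

lemma zz_ne (μ : n.Partition) : (zz μ : ℚ) ≠ 0 := by
  rw [Nat.cast_ne_zero, zz]
  refine prod_ne_zero_iff.mpr fun i hi => ?_
  have := μ.parts_pos (Multiset.mem_toFinset.mp hi)
  positivity

/-- the matrix of the linear system defining the `h`-expansion of the `l`-th polynomial -/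
noncomputable def Mx {R : Type} [CommRing R] [Algebra ℚ R] (l : n.Partition) (θ : R) :
    Matrix n.Partition n.Partition R := fun k ρ =>
  if lst ρ < lst l then (if k = ρ then 1 else 0)
  else if ρ = l then (if lst l ≤ lst k then algebraMap ℚ R (co k (ones n)) else 0)
  else ∑ μ, algebraMap ℚ R (zz μ * co k μ * co ρ μ) * θ ^ (len μ - len ρ)

lemma Mx_map {R : Type} [CommRing R] [Algebra ℚ R] (l : n.Partition) (θ : R) :
    (Mx l (Polynomial.X : Polynomial ℚ)).map (Polynomial.aeval θ) = Mx l θ := by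
  ext k ρ
  simp only [Matrix.map_apply, Mx]
  split_ifs <;>
    simp only [map_one, map_zero, map_sum, map_mul (Polynomial.aeval θ), AlgHom.commutes,
      map_pow, Polynomial.aeval_X]

lemma sum_zero (hA1 : St_A1) (k ρ : n.Partition) :
    ∑ μ : n.Partition, (if len μ - len ρ = 0 then (zz μ : ℚ) * co k μ * co ρ μ else 0) =
      zz ρ * co k ρ * co ρ ρ := by
  rw [sum_eq_single ρ (fun μ _ hμ => ?_) (by simp)]
  · simp
  · split_ifs with h
    · by_contra hc
      have h1 := (hA1 n ρ μ).1 (right_ne_zero_of_mul hc)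
      exact hμ (h1.2.2 (by omega))
    · rfl

lemma det_Mx (hA1 : St_A1) (l : n.Partition) : (Mx l (0 : ℚ)).det ≠ 0 := by
  let _ : LinearOrder n.Partition := LinearOrder.lift' lst lst_inj
  have hs : ∀ k ρ : n.Partition, ∑ μ : n.Partition,
      algebraMap ℚ ℚ (zz μ * co k μ * co ρ μ) * (0 : ℚ) ^ (len μ - len ρ) =
        zz ρ * co k ρ * co ρ ρ := fun k ρ => by
    rw [← sum_zero hA1]
    refine sum_congr rfl fun μ _ => ?_
    split_ifs with h
    · simp [h]
    · simp [h]
  have ht : (Mx l (0 : ℚ)).BlockTriangular OrderDual.toDual := by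
    intro k ρ h
    have h' : lst k < lst ρ := h
    simp only [Mx, hs]
    split_ifs with h1 h2 h3 h4
    · subst h2; exact absurd h' (lt_irrefl _)
    · rfl
    · subst h3; exact absurd h' (not_lt.mpr h4)
    · rfl
    · by_contra hc
      have := ((hA1 n k ρ).1 (right_ne_zero_of_mul (left_ne_zero_of_mul hc))).1
      exact absurd h' (not_lt.mpr this)
  rw [Matrix.det_of_isLowerTriangular _ ht]
  refine prod_ne_zero_iff.mpr fun k _ => ?_
  simp only [Mx, hs]
  split_ifs with h1 h2 h3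
  · exact one_ne_zero
  · have := fl_co k
    intro h0
    rw [show co k (ones n) = 0 from h0] at this
    simp at this
  · subst h2; exact absurd le_rfl h3
  · exact mul_ne_zero (mul_ne_zero (zz_ne k) (hA1 n k k).2) (hA1 n k k).2

section Loc
variable {F : Type} [Field F] [CharZero F] {β : F}

lemma rat_mem (q : ℚ) : algebraMap ℚ F q ∈ OO β :=
  ⟨Polynomial.C q, 1, by simp, by simp, by simp⟩

lemma self_mem : β ∈ OO β := ⟨Polynomial.X, 1, by simp, by simp, by simp⟩

lemma aeval_mem {θ : F} (h : θ ∈ OO β) (p : Polynomial ℚ) : Polynomial.aeval θ p ∈ OO β := by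
  induction p using Polynomial.induction_on' with
  | add p q hp hq => rw [map_add]; exact add_mem hp hq
  | monomial k a =>
    rw [Polynomial.aeval_monomial]; exact mul_mem (rat_mem a) (pow_mem h k)

lemma inv_mem (hβ : Transcendental ℚ β) {c : ℚ} (hc : c ≠ 0) {o : F} (ho : o ∈ OO β) :
    algebraMap ℚ F c + β * o ≠ 0 ∧ (algebraMap ℚ F c + β * o)⁻¹ ∈ OO β := by
  obtain ⟨A, B, h1, h2, rfl⟩ := ho
  have h3 : (Polynomial.C c * B + Polynomial.X * A).coeff 0 ≠ 0 := by simp [hc, h1]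
  have h4 : Polynomial.aeval β (Polynomial.C c * B + Polynomial.X * A) ≠ 0 := fun h =>
    hβ ⟨_, fun h0 => h3 (by rw [h0]; simp), h⟩
  have e : algebraMap ℚ F c + β * (Polynomial.aeval β A / Polynomial.aeval β B) =
      Polynomial.aeval β (Polynomial.C c * B + Polynomial.X * A) / Polynomial.aeval β B := by
    simp only [map_add, map_mul, Polynomial.aeval_C, Polynomial.aeval_X]; field_simp
  rw [e]
  exact ⟨div_ne_zero h4 h2, B, _, h3, h4, by rw [inv_div]⟩

lemma Cg_zero (k : ℕ) : Cg β k 0 := ⟨0, zero_mem _, by simp⟩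

lemma Cg_add {k : ℕ} {x y : F} (hx : Cg β k x) (hy : Cg β k y) : Cg β k (x + y) := by
  obtain ⟨a, ha, rfl⟩ := hx
  obtain ⟨c, hc, rfl⟩ := hy
  exact ⟨a + c, add_mem ha hc, by ring⟩

lemma Cg_mul {k : ℕ} {x o : F} (hx : Cg β k x) (ho : o ∈ OO β) : Cg β k (x * o) := by
  obtain ⟨a, ha, rfl⟩ := hx
  exact ⟨a * o, mul_mem ha ho, by ring⟩

lemma Cg_sum {ι : Type} {k : ℕ} (s : Finset ι) {f : ι → F} (h : ∀ i ∈ s, Cg β k (f i)) :
    Cg β k (∑ i ∈ s, f i) :=
  sum_induction f (Cg β k) (fun _ _ => Cg_add) (Cg_zero k) h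

/-- the system is solvable with an inverse matrix over the local ring -/
lemma exists_inv (hA1 : St_A1) (hβ : Transcendental ℚ β) {t : F} (ht : t ∈ OO β)
    (l : n.Partition) : ∃ N : Matrix n.Partition n.Partition F, (∀ i j, N i j ∈ OO β) ∧
      Mx l (β * t) * N = 1 ∧ N * Mx l (β * t) = 1 := by
  have hθ : β * t ∈ OO β := mul_mem self_mem ht
  set D := (Mx l (Polynomial.X : Polynomial ℚ)).det with hD
  have hd : ∀ {R : Type} [CommRing R] [Algebra ℚ R] (θ : R),
      (Mx l θ).det = Polynomial.aeval θ D := fun θ => by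
    rw [← Mx_map, hD, AlgHom.map_det]; rfl
  have h0 : D.coeff 0 ≠ 0 := by
    have := det_Mx hA1 l
    rwa [hd, Polynomial.coe_aeval_eq_eval, ← Polynomial.coeff_zero_eq_eval_zero] at this
  have h1 : (Mx l (β * t)).det =
      algebraMap ℚ F (D.coeff 0) + β * (t * Polynomial.aeval (β * t) D.divX) := by
    rw [hd]
    conv_lhs => rw [← Polynomial.divX_mul_X_add D]
    simp only [map_add, map_mul, Polynomial.aeval_C, Polynomial.aeval_X]; ring
  obtain ⟨h2, h3⟩ := inv_mem hβ h0 (mul_mem ht (aeval_mem hθ D.divX))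
  rw [← h1] at h2 h3
  refine ⟨(Mx l (β * t))⁻¹, fun i j => ?_, Matrix.mul_nonsing_inv _ h2.isUnit,
    Matrix.nonsing_inv_mul _ h2.isUnit⟩
  rw [Matrix.inv_def, Ring.inverse_eq_inv', Matrix.smul_apply, smul_eq_mul]
  refine mul_mem h3 ?_
  have e : (Mx l (β * t)).adjugate =
      (Mx l (Polynomial.X : Polynomial ℚ)).adjugate.map (Polynomial.aeval (β * t)) := by
    rw [← Mx_map l (β * t), ← AlgHom.mapMatrix_apply, ← AlgHom.mapMatrix_apply,
      AlgHom.map_adjugate]
  rw [e]
  exact aeval_mem hθ _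

/-- expansion of the Gram sum to second order -/
lemma gram (hA1 : St_A1) (hA2 : St_A2) (hA3a : St_A3a) {t : F} (ht : t ∈ OO β)
    (h1 : t * (1 + β) = 1) {l ρ : n.Partition} (h : lst l < lst ρ) :
    Cg β 2 (∑ μ, ((co l μ : F) - β * cu l μ) * ((zz μ : F) * co ρ μ) *
      (β * t) ^ (len μ - len ρ)) := by
  have hθ : β * t ∈ OO β := mul_mem self_mem ht
  have hq : ∀ q : ℚ, (q : F) ∈ OO β := fun q => rat_mem q
  have hz : ∀ μ : n.Partition, (zz μ : F) ∈ OO β := fun μ => natCast_mem _ _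
  have hl0 : co l ρ = 0 := by
    by_contra hc
    exact absurd h (not_lt.mpr ((hA1 n l ρ).1 hc).1)
  have e2 := hA2 n ρ _ (hl_lst l)
  rw [hA3a n l ρ h] at e2
  -- the three kinds of terms
  let a : n.Partition → F := fun μ => if μ = ρ then -(β * ((zz ρ : F) * co ρ ρ * cu l ρ)) else 0
  let c : n.Partition → F := fun μ =>
    ((if len μ = len ρ + 1 then (zz μ : ℚ) * co ρ μ * coeff (dOf μ) (hl (lst l)) else 0 : ℚ) : F)
  have hc : ∑ μ, c μ = (zz ρ : F) * co ρ ρ * cu l ρ := by
    simp only [c]; rw [← Rat.cast_sum, e2]; push_cast; rfl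
  have ha : ∑ μ, a μ = -(β * ((zz ρ : F) * co ρ ρ * cu l ρ)) := by simp [a]
  have key : ∀ μ, Cg β 2 (((co l μ : F) - β * cu l μ) * ((zz μ : F) * co ρ μ) *
      (β * t) ^ (len μ - len ρ) - a μ - β * t * c μ) := by
    intro μ
    by_cases h0 : co ρ μ = 0
    · have hne : μ ≠ ρ := by rintro rfl; exact (hA1 n μ μ).2 h0
      simp only [a, c, h0, hne]
      simpa using Cg_zero (β := β) 2
    obtain ⟨-, h3, h4⟩ := (hA1 n ρ μ).1 h0
    by_cases hμ : μ = ρ
    · subst hμ
      have : ¬ len μ = len μ + 1 := by omega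
      simp only [a, c, hl0, this, if_true, if_false, Nat.sub_self, pow_zero]
      refine ⟨0, zero_mem _, ?_⟩
      push_cast; ring
    have h5 : len μ ≠ len ρ := fun h => hμ (h4 h)
    by_cases h6 : len μ = len ρ + 1
    · have h7 : len μ - len ρ = 1 := by omega
      simp only [a, c, hμ, if_false, h7, if_pos h6]
      refine ⟨-((cu l μ : F) * ((zz μ : F) * co ρ μ) * t),
        neg_mem (mul_mem (mul_mem (hq _) (mul_mem (hz _) (hq _))) ht), ?_⟩
      rw [show coeff (dOf μ) (hl (lst l)) = co l μ from rfl]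
      push_cast; ring
    · obtain ⟨j, hj⟩ : ∃ j, len μ - len ρ = j + 2 := ⟨len μ - len ρ - 2, by omega⟩
      simp only [a, c, hμ, if_false, hj, if_neg h6]
      refine ⟨((co l μ : F) - β * cu l μ) * ((zz μ : F) * co ρ μ) * ((β * t) ^ j * t ^ 2),
        mul_mem (mul_mem (sub_mem (hq _) (mul_mem self_mem (hq _))) (mul_mem (hz _) (hq _)))
          (mul_mem (pow_mem hθ j) (pow_mem ht 2)), ?_⟩
      push_cast; ring
  have h8 := Cg_sum univ fun μ _ => key μ
  rw [sum_sub_distrib, sum_sub_distrib, ← mul_sum, ha, hc] at h8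
  have h9 : Cg β 2 (-(β * ((zz ρ : F) * co ρ ρ * cu l ρ)) +
      β * t * ((zz ρ : F) * co ρ ρ * cu l ρ)) :=
    ⟨-(t * ((zz ρ : F) * co ρ ρ * cu l ρ)),
      neg_mem (mul_mem ht (mul_mem (mul_mem (hz _) (hq _)) (hq _))), by
        linear_combination (β * ((zz ρ : F) * co ρ ρ * cu l ρ)) * h1⟩
  have := Cg_add h8 h9
  rwa [sub_sub, sub_add_cancel] at this

lemma solve (hA1 : St_A1) (hA2 : St_A2) (hA3a : St_A3a) (hA3b : St_A3b)
    (hβ : Transcendental ℚ β) {t : F} (ht : t ∈ OO β) (h1 : t * (1 + β) = 1) (l : n.Partition) :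
    ∃ x : n.Partition → F, (∀ ρ, lst ρ < lst l → x ρ = 0) ∧ ∑ k, x k * co k (ones n) = 1 ∧
      (∀ ρ, lst l < lst ρ → ∑ μ, (∑ k, x k * co k μ) * ((zz μ : F) * co ρ μ) *
        (β * t) ^ (len μ - len ρ) = 0) ∧
      ∀ μ, Cg β 2 (∑ k, x k * co k μ - (fl (lst l) : F) * ((co l μ : F) - β * cu l μ)) := by
  obtain ⟨N, hN, hMN, hNM⟩ := exists_inv hA1 hβ ht l
  obtain ⟨hU, u, hu, hUl⟩ := hA3b n l
  have hlow : ∀ (x : n.Partition → F) ρ, lst ρ < lst l →
      Matrix.vecMul x (Mx l (β * t)) ρ = x ρ := by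
    intro x ρ h
    simp [Matrix.vecMul, dotProduct, Mx, h]
  have hmid : ∀ x : n.Partition → F, (∀ ρ, lst ρ < lst l → x ρ = 0) →
      Matrix.vecMul x (Mx l (β * t)) l = ∑ k, x k * co k (ones n) := by
    intro x hx
    simp only [Matrix.vecMul, dotProduct, Mx, lt_irrefl, if_false, if_true]
    refine sum_congr rfl fun k _ => ?_
    split_ifs with h
    · rfl
    · rw [hx k (not_le.mp h), zero_mul, zero_mul]
  have hup : ∀ (x : n.Partition → F) ρ, lst l < lst ρ → Matrix.vecMul x (Mx l (β * t)) ρ =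
      ∑ μ, (∑ k, x k * co k μ) * ((zz μ : F) * co ρ μ) * (β * t) ^ (len μ - len ρ) := by
    intro x ρ h
    have h2 : ρ ≠ l := by rintro rfl; exact lt_irrefl _ h
    simp only [Matrix.vecMul, dotProduct, Mx, not_lt.mpr h.le, h2, if_false, mul_sum, sum_mul]
    rw [sum_comm]
    refine sum_congr rfl fun μ _ => sum_congr rfl fun k _ => ?_
    rw [eq_ratCast]; push_cast; ring
  have hx : Matrix.vecMul (N l) (Mx l (β * t)) = fun ρ => if l = ρ then 1 else 0 := by
    funext ρ
    rw [← Matrix.mul_apply_eq_vecMul, hNM, Matrix.one_apply]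
  have hx0 : ∀ ρ, lst ρ < lst l → N l ρ = 0 := fun ρ h => by
    rw [← hlow (N l) ρ h, hx]
    exact if_neg (by rintro rfl; exact lt_irrefl _ h)
  let y : n.Partition → F := fun k => (fl (lst l) : F) * ((if k = l then 1 else 0) - β * u k)
  have hcu : ∀ μ, (cu l μ : F) = ∑ k, (u k : F) * co k μ := fun μ => by
    rw [cu, hUl, coeff_sum]
    simp only [coeff_smul, smul_eq_mul]; push_cast; rfl
  have hy : ∀ μ, ∑ k, y k * co k μ = (fl (lst l) : F) * ((co l μ : F) - β * cu l μ) := fun μ => by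
    simp only [y, mul_assoc, ← mul_sum, sub_mul, sum_sub_distrib, hcu, ite_mul, one_mul, zero_mul,
      sum_ite_eq', mem_univ, if_true]
  have hy0 : ∀ ρ, lst ρ < lst l → y ρ = 0 := fun ρ h => by
    have h2 : ρ ≠ l := by rintro rfl; exact lt_irrefl _ h
    have h3 : u ρ = 0 := by by_contra hc; exact absurd h (not_lt.mpr (hu ρ hc))
    simp [y, h2, h3]
  have hcu1 : cu l (ones n) = 0 := by
    rw [cu, ← eps_Hm, hU]
    rw [hUl]
    exact Submodule.sum_mem _ fun k _ => Submodule.smul_mem _ _ (hl_lst k)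
  have hres : ∀ ρ, Cg β 2 (Matrix.vecMul (N l - y) (Mx l (β * t)) ρ) := fun ρ => by
    rw [Matrix.sub_vecMul, Pi.sub_apply, hx]
    rcases lt_trichotomy (lst ρ) (lst l) with h | h | h
    · have h2 : l ≠ ρ := by rintro rfl; exact lt_irrefl _ h
      rw [hlow _ ρ h, hy0 ρ h]
      simpa [h2] using Cg_zero (β := β) 2
    · obtain rfl := lst_inj h
      have h3 : (fl (lst ρ) : F) * co ρ (ones n) = 1 := by
        exact_mod_cast congrArg (Rat.cast (K := F)) (fl_co ρ)
      rw [hmid _ hy0, hy, hcu1]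
      simpa [h3] using Cg_zero (β := β) 2
    · have h2 : l ≠ ρ := by rintro rfl; exact lt_irrefl _ h
      have h3 := Cg_mul (gram hA1 hA2 hA3a ht h1 h) (neg_mem (rat_mem (β := β) (fl (lst l))))
      rw [hup _ ρ h]
      simp only [hy, h2, if_false, mul_assoc (fl (lst l) : F), ← mul_sum]
      rw [eq_ratCast] at h3
      rwa [zero_sub, mul_comm, ← mul_neg]
  refine ⟨N l, hx0, ?_, fun ρ h => ?_, fun μ => ?_⟩
  · rw [← hmid _ hx0, hx]; simp
  · rw [← hup _ ρ h, hx]
    exact if_neg (by rintro rfl; exact lt_irrefl _ h)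
  · rw [← hy, ← sum_sub_distrib]
    refine Cg_sum _ fun k _ => ?_
    rw [← sub_mul]
    refine Cg_mul ?_ (rat_mem _)
    have e : N l - y = Matrix.vecMul (Matrix.vecMul (N l - y) (Mx l (β * t))) N := by
      rw [Matrix.vecMul_vecMul, hMN, Matrix.vecMul_one]
    have e2 : N l k - y k = ∑ ρ, Matrix.vecMul (N l - y) (Mx l (β * t)) ρ * N ρ k :=
      congrFun e k
    rw [e2]
    exact Cg_sum _ fun ρ _ => Cg_mul (hres ρ) (hN ρ k)

end Loc
end A4

open A4 in
theorem C_A4 (hC : St_CAU) (hA1 : St_A1) (hA2 : St_A2) (hA3a : St_A3a) (hA3b : St_A3b) :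
    St_A4 := by
  intro F _ _ b hb n
  have hb0 : b ≠ 0 := by rintro rfl; exact hb isAlgebraic_zero
  have hα : 1 + b ≠ 0 := fun h => hb (by
    rw [show b = -1 by linear_combination h]; exact isAlgebraic_one.neg)
  have hβ : Transcendental ℚ b⁻¹ := fun h => hb (IsAlgebraic.inv_iff.mp h)
  obtain ⟨h2, ht⟩ := inv_mem hβ one_ne_zero (one_mem (OO b⁻¹))
  rw [map_one, mul_one] at h2 ht
  have hθ : b⁻¹ * (1 + b⁻¹)⁻¹ = (1 + b)⁻¹ := by
    rw [← mul_inv, mul_add, mul_one, mul_inv_cancel₀ hb0, add_comm]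
  choose x hx0 hx1 hx2 hx3 using fun l : n.Partition =>
    solve hA1 hA2 hA3a hA3b hβ ht (inv_mul_cancel₀ h2) l
  simp only [hθ] at hx2
  let J : n.Partition → n.Partition → F := fun l μ =>
    (1 + b) ^ (n - len μ) * ∑ k, x l k * co k μ
  have hJ : ∀ l μ, J l μ * (1 + b) ^ len μ = (1 + b) ^ n * ∑ k, x l k * co k μ := fun l μ => by
    simp only [J]
    rw [mul_right_comm, ← pow_add, Nat.sub_add_cancel (len_le μ)]
  have hperp : ∀ l ρ, lst l < lst ρ → ∑ μ, J l μ * ((zz μ : F) * co ρ μ) = 0 := fun l ρ h => by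
    have h3 := congrArg ((1 + b) ^ (n - len ρ) * ·) (hx2 l ρ h)
    simp only [mul_zero, mul_sum univ] at h3
    rw [← h3]
    refine sum_congr rfl fun μ _ => ?_
    by_cases h0 : co ρ μ = 0
    · simp [h0]
    · have h4 := ((hA1 n ρ μ).1 h0).2.1
      have h5 := len_le μ
      have e : (1 + b) ^ (n - len ρ) = (1 + b) ^ (n - len μ) * (1 + b) ^ (len μ - len ρ) := by
        rw [← pow_add]; congr 1; omega
      have e2 : (1 + b) ^ (len μ - len ρ) * (1 + b)⁻¹ ^ (len μ - len ρ) = 1 := by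
        rw [← mul_pow, mul_inv_cancel₀ hα, one_pow]
      simp only [J]
      rw [e]
      linear_combination (-((1 + b) ^ (n - len μ) * (∑ k, x l k * co k μ) *
        ((zz μ : F) * co ρ μ))) * e2
  have horth : ∀ l k, lst l < lst k → scalJ (1 + b) (J l) (J k) = 0 := fun l k h => by
    have e : scalJ (1 + b) (J l) (J k) =
        (1 + b) ^ n * ∑ ρ, x k ρ * ∑ μ, J l μ * ((zz μ : F) * co ρ μ) := by
      simp only [scalJ, zal, mul_sum]
      rw [sum_comm]
      refine sum_congr rfl fun μ _ => ?_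
      have h3 := hJ k μ
      rw [mul_sum] at h3
      have h4 : ∑ ρ, (1 + b) ^ n * (x k ρ * (J l μ * ((zz μ : F) * co ρ μ))) =
          (J l μ * zz μ) * ∑ ρ, (1 + b) ^ n * (x k ρ * co ρ μ) := by
        rw [mul_sum]; exact sum_congr rfl fun ρ _ => by ring
      rw [h4, ← h3]; ring
    rw [e, sum_eq_zero, mul_zero]
    intro ρ _
    rcases lt_or_ge (lst ρ) (lst k) with h3 | h3
    · rw [hx0 k ρ h3, zero_mul]
    · rw [hperp l ρ (lt_of_lt_of_le h h3), mul_zero]
  refine ⟨J, ⟨fun l k h => ?_, fun l k h => ?_, fun l => ?_⟩, fun l μ => ?_⟩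
  · by_contra hc
    exact h (by rw [hC, hperp l k (not_le.mp hc)])
  · rcases lt_trichotomy (lst l) (lst k) with h3 | h3 | h3
    · exact horth l k h3
    · exact absurd (lst_inj h3) h
    · rw [← horth k l h3]
      exact sum_congr rfl fun μ _ => by ring
  · simp only [J]
    rw [len_ones, Nat.sub_self, pow_zero, one_mul, hx1]
  · rw [jt, hJ, mul_div_cancel_left₀ _ (pow_ne_zero _ hα)]
    exact hx3 l μ

end MJC
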