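import Pool.Agent.Lib.MP_9c49f6_co.CLoc

/-! Uniqueness of an orthogonal triangular normalised family. -/

namespace MJC
open MJ Finset MvPolynomial

namespace A5
variable {ι F : Type} [Fintype ι] [Field F]

lemma diag_ne [DecidableEq ι] (J : Matrix ι ι F) (w : ι → F) (hw : ∀ i, w i ≠ 0) (hJ : J.det ≠ 0)
    (ho : ∀ l k, l ≠ k → ∑ μ, J l μ * J k μ * w μ = 0) (l : ι) :
    ∑ μ, J l μ * J l μ * w μ ≠ 0 := by
  have h1 : J * Matrix.diagonal w * J.transpose =
      Matrix.diagonal fun l => ∑ μ, J l μ * J l μ * w μ := by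
    ext a b
    have h2 : (J * Matrix.diagonal w * J.transpose) a b = ∑ μ, J a μ * J b μ * w μ := by
      rw [Matrix.mul_apply]
      refine sum_congr rfl fun μ _ => ?_
      rw [Matrix.mul_diagonal, Matrix.transpose_apply]; ring
    rw [h2, Matrix.diagonal_apply]
    split_ifs with h
    · rw [h]
    · exact ho a b h
  have h3 := congrArg Matrix.det h1
  rw [Matrix.det_mul, Matrix.det_mul, Matrix.det_transpose, Matrix.det_diagonal,
    Matrix.det_diagonal] at h3
  have h4 : ∏ i, ∑ μ, J i μ * J i μ * w μ ≠ 0 := by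
    rw [← h3]
    exact mul_ne_zero (mul_ne_zero hJ (prod_ne_zero_iff.mpr fun i _ => hw i)) hJ
  exact prod_ne_zero_iff.mp h4 l (mem_univ l)

lemma uniq [DecidableEq ι] {κ : Type} [LinearOrder κ] (r : ι → κ) (hr : Function.Injective r)
    (J J' L : Matrix ι ι F) (w : ι → F) (o : ι) (hJ : J.det ≠ 0) (hL : L.det ≠ 0)
    (hT : ∀ l k, (J * L) l k ≠ 0 → r k ≤ r l) (hT' : ∀ l k, (J' * L) l k ≠ 0 → r k ≤ r l)
    (ho : ∀ l k, l ≠ k → ∑ μ, J l μ * J k μ * w μ = 0)
    (ho' : ∀ l k, l ≠ k → ∑ μ, J' l μ * J' k μ * w μ = 0)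
    (hd : ∀ l, ∑ μ, J l μ * J l μ * w μ ≠ 0) (hn : ∀ l, J l o = 1) (hn' : ∀ l, J' l o = 1) :
    J' = J := by
  have hu : IsUnit (J * L).det := by
    rw [Matrix.det_mul]; exact (mul_ne_zero hJ hL).isUnit
  have tri : ∀ M : Matrix ι ι F, (∀ l k, M l k ≠ 0 → r k ≤ r l) →
      M.BlockTriangular fun i => OrderDual.toDual (r i) := fun M h i j hij => by
    by_contra hc
    exact absurd (h i j hc) (not_le.mpr hij)
  let := Matrix.invertibleOfIsUnitDet _ hu
  have hx : ((J' * L) * (J * L)⁻¹).BlockTriangular fun i => OrderDual.toDual (r i) :=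
    (tri _ hT').mul (Matrix.blockTriangular_inv_of_blockTriangular (tri _ hT))
  have hxJ : ((J' * L) * (J * L)⁻¹) * J = J' := by
    rw [Matrix.mul_inv_rev, Matrix.mul_assoc, Matrix.mul_assoc, Matrix.mul_assoc,
      Matrix.nonsing_inv_mul _ hJ.isUnit, Matrix.mul_one, Matrix.mul_nonsing_inv _ hL.isUnit,
      Matrix.mul_one]
  generalize (J' * L) * (J * L)⁻¹ = x at hx hxJ
  have hrow : ∀ l μ, J' l μ = ∑ m, x l m * J m μ := fun l μ => by
    rw [← hxJ, Matrix.mul_apply]
  have key : ∀ l, ∀ μ, J' l μ = J l μ := by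
    intro l
    induction l using (Finite.to_wellFoundedLT (α := Set.range r)).wf.onFun
      (f := fun i => (⟨r i, i, rfl⟩ : Set.range r)) |>.induction with
    | _ l ih =>
    have h0 : ∀ k, k ≠ l → x l k = 0 := fun k hk => by
      rcases lt_or_gt_of_ne (hr.ne hk) with h | h
      · have h1 := ho' l k hk.symm
        have h2 : ∑ μ, J' l μ * J' k μ * w μ = ∑ m, x l m * ∑ μ, J m μ * J k μ * w μ := by
          simp only [hrow l, ih k h, sum_mul, mul_sum]
          rw [sum_comm]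
          exact sum_congr rfl fun _ _ => sum_congr rfl fun _ _ => by ring
        rw [h2, sum_eq_single k (fun m _ hm => by rw [ho m k hm, mul_zero]) (by simp)] at h1
        exact (mul_eq_zero.mp h1).resolve_right (hd k)
      · exact hx h
    have h3 : ∀ μ, J' l μ = x l l * J l μ := fun μ => by
      rw [hrow, sum_eq_single l (fun m _ hm => by rw [h0 m hm, zero_mul]) (by simp)]
    have h4 := h3 o
    rw [hn, hn', mul_one] at h4
    intro μ
    rw [h3, ← h4, one_mul]
  ext l μ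
  exact key l μ

lemma zz_ne0 {n : ℕ} [CharZero F] (μ : n.Partition) : (zz μ : F) ≠ 0 := by
  refine Nat.cast_ne_zero.mpr (prod_ne_zero_iff.mpr fun i hi => ?_)
  exact mul_ne_zero (pow_ne_zero _ (μ.parts_pos (Multiset.mem_toFinset.mp hi)).ne')
    (Nat.factorial_ne_zero _)

end A5

theorem C_A5 (hCAU : St_CAU) (hA1 : St_A1) : St_A5 := by
  intro F _ _ α hα n J hJ hdet
  have hw : ∀ μ : n.Partition, zal α μ ≠ 0 := fun μ =>
    mul_ne_zero (A5.zz_ne0 μ) (pow_ne_zero _ hα)
  have hd := A5.diag_ne (Matrix.of J) (zal α) hw hdet hJ.orth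
  refine ⟨hd, fun J' hJ' => ?_⟩
  let L : Matrix n.Partition n.Partition F := Matrix.of fun μ κ => (zz μ : F) * (co κ μ : F)
  have hL : L.det ≠ 0 := by
    rw [← Matrix.det_transpose]
    refine det_tri _ (fun κ ρ h => ((hA1 n κ ρ).1 fun h0 => h ?_).1) fun κ => ?_
    · simp [L, h0]
    · exact mul_ne_zero (A5.zz_ne0 κ) (Rat.cast_ne_zero.mpr (hA1 n κ κ).2)
  have hT : ∀ K : n.Partition → n.Partition → F, IsJack α K →
      ∀ l k, (Matrix.of K * L) l k ≠ 0 → lst k ≤ lst l :=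
    fun K hK l k h => hK.tri l k (by rw [hCAU]; exact h)
  exact A5.uniq lst lst_inj (Matrix.of J) (Matrix.of J') L (zal α) (ones n) hdet hL (hT J hJ)
    (hT J' hJ') hJ.orth hJ'.orth hd hJ.norm hJ'.norm

end MJC
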