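import Pool.Agent.Lib.MP_9c49f6_co.CBlue

/-! The second-order operator on the complete homogeneous functions. -/

namespace MJC
open MJ Finset

namespace T88
open PowerSeries

lemma shift {A : Type} [CommRing A] (F : ℕ → A⟦X⟧) (h0 : F 0 = 0) {m n : ℕ} (h : m ≤ n) :
    ∑ k ∈ range n, coeff m (X ^ (k+1) * F (k+1)) = ∑ p ∈ antidiagonal m, coeff p.2 (F p.1) := by
  have e := sum_range_succ' (fun k => coeff m (X ^ k * F k)) n
  simp only [h0, mul_zero, map_zero, add_zero] at e
  rw [← e, Nat.sum_antidiagonal_eq_sum_range_succ_mk,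
    ← sum_subset (range_subset_range.2 (Nat.succ_le_succ h)) fun k _ hk => by
      rw [coeff_X_pow_mul', if_neg (by simpa using hk)]]
  exact sum_congr rfl fun k hk => by
    rw [coeff_X_pow_mul', if_pos (by simpa [Nat.lt_succ_iff] using hk)]

lemma shift' {A : Type} [CommRing A] (g : ℕ → A) (h0 : g 0 = 0) (M : A⟦X⟧) {m n : ℕ}
    (h : m ≤ n) : ∑ k ∈ range n, g (k+1) * coeff m (X ^ (k+1) * M) = coeff m (mk g * M) := by
  have e := shift (fun k => C (g k) * M) (by simp [h0]) h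
  simp only [mul_left_comm _ (C _), coeff_C_mul] at e
  rw [e, coeff_mul]
  simp only [coeff_mk]

lemma conv2_left {A : Type} [CommRing A] (M : A⟦X⟧) (B : ℕ → ℕ → A) (k l : ℕ) :
    conv2 1 M B k l = coeff l (mk (B k) * M) := by
  rw [← coeff_nest (conv2 1 M B), nest_conv2, map_one, one_mul, coeff_C_mul, mul_comm]
  simp [nest]

noncomputable def HH : La⟦X⟧ := Ex ℚ fun k => (MvPolynomial.X k : La)

lemma coeff_HH (m : ℕ) : coeff m HH = hh m := Ex_coeff _ _

lemma dm_HH (k : ℕ) :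
    dm (MvPolynomial.pderiv k) HH = ((k : ℚ) + 1)⁻¹ • (X ^ (k+1) * HH) := by
  have h1 : ds HH = mk (fun k => (MvPolynomial.X k : La)) * HH := Ex_deriv _
  have h2 : dm (MvPolynomial.pderiv k) (mk fun k => (MvPolynomial.X k : La)) = X ^ k := by
    ext1 n
    simp [coeff_X_pow, MvPolynomial.pderiv_X, Pi.single_apply]
  have h3 : ((k : ℚ) + 1) ≠ 0 := by positivity
  have h4 : ds (X ^ (k+1) : La⟦X⟧) = ((k : ℚ) + 1) • X ^ k := by
    rw [Derivation.leibniz_pow, ds_X, ← Nat.cast_smul_eq_nsmul ℚ]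
    simp
  refine sub_eq_zero.1 (ode_mul (mk fun k => (MvPolynomial.X k : La)) ?_ ?_)
  · rw [map_sub, coeff_dm, coeff_HH, (coeff 0).map_smul_of_tower, coeff_X_pow_mul']
    simp [hh]
  · rw [map_sub, ds_dm, h1, Derivation.map_smul, Derivation.leibniz, Derivation.leibniz, h1, h2, h4]
    simp only [smul_eq_mul, smul_add, mul_smul_comm, smul_smul, inv_mul_cancel₀ h3, one_smul,
      mul_sub]
    rw [mul_left_comm]
    abel

lemma dm_pow (k j : ℕ) : dm (MvPolynomial.pderiv k) (X ^ j * HH) =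
    ((k : ℚ) + 1)⁻¹ • (X ^ (k+1) * (X ^ j * HH)) := by
  rw [Derivation.leibniz, Derivation.leibniz_pow, dm_X, dm_HH]
  simp only [smul_zero, add_zero, smul_eq_mul, mul_smul_comm, mul_zero]
  rw [mul_left_comm]

lemma CC_left (l : ℕ) : CC 0 l = 0 := by simp [CC, conv2, BB]

lemma CC_right (k : ℕ) : CC k 0 = 0 := by simp [CC, conv2, BB]

lemma map_HH (hK : St_K) : PowerSeries.map (phi : La →+* R2) HH = MM := by
  have h : MM = Ex ℚ fun k => ka (k+1) := by
    refine Ex_unique _ _ (by simp [MM, hh, tn]) ?_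
    have e : ds KK = mk fun k => ka (k+1) := by
      ext1 k
      rw [coeff_ds, coeff_mk, ka, Nat.cast_succ]
    rw [← e]
    exact hK.2.1
  ext1 m
  rw [coeff_map, coeff_HH, h, Ex_coeff, hh]
  refine (map_ex phi _ m).trans ?_
  simp [phi]

lemma phi_co (hK : St_K) (m : ℕ) : phi (hh m) = coeff m MM := by
  rw [← map_HH hK, coeff_map, coeff_HH]
  rfl

lemma phi_d (hK : St_K) (k m : ℕ) : phi (MvPolynomial.pderiv k (hh m)) =
    ((k : ℚ) + 1)⁻¹ • coeff m (X ^ (k+1) * MM) := by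
  rw [← coeff_HH, ← coeff_dm, dm_HH, (coeff m).map_smul_of_tower, map_smul, ← map_HH hK]
  congr 1
  have := coeff_map (phi : La →+* R2) m (X ^ (k+1) * HH)
  rw [map_mul, map_pow, map_X] at this
  exact this.symm

lemma phi_dd (hK : St_K) (k l m : ℕ) :
    phi (MvPolynomial.pderiv k (MvPolynomial.pderiv l (hh m))) =
    (((k : ℚ) + 1)⁻¹ * ((l : ℚ) + 1)⁻¹) • coeff m (X ^ (l+1) * (X ^ (k+1) * MM)) := by
  rw [← coeff_HH, ← coeff_dm, ← coeff_dm, dm_HH, Derivation.map_smul, dm_pow, smul_smul,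
    (coeff m).map_smul_of_tower, map_smul, ← map_HH hK, mul_comm, mul_left_comm]
  congr 1
  have := coeff_map (phi : La →+* R2) m (X ^ (l+1) * (X ^ (k+1) * HH))
  simp only [map_mul, map_pow, map_X] at this
  exact this.symm

lemma ga_mul (k l : ℕ) (x : R2) :
    ga (k+1) (l+1) * ((((k : ℚ) + 1)⁻¹ * ((l : ℚ) + 1)⁻¹) • x) = CC (k+1) (l+1) * x := by
  have h1 : ((k : ℚ) + 1) ≠ 0 := by positivity
  have h2 : ((l : ℚ) + 1) ≠ 0 := by positivity
  rw [ga, smul_mul_smul_comm, show (((k+1 : ℕ) : ℚ) * ((l+1 : ℕ) : ℚ)) *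
    (((k : ℚ) + 1)⁻¹ * ((l : ℚ) + 1)⁻¹) = 1 by push_cast; field_simp, one_smul]

end T88

open T88 PowerSeries in
theorem C_B0 (hK : St_K) : St_B0 := by
  refine ⟨phi_co hK, fun n m hm => ⟨?_, fun m' hm' => ?_⟩⟩
  · have e1 : ∀ k, de (k+1) * phi (MvPolynomial.pderiv k (hh m)) =
        -((1/2 : ℚ) • (coeff (k+1) (diag CC) * coeff m (X ^ (k+1) * MM))) := fun k => by
      have h1 : ((k : ℚ) + 1) ≠ 0 := by positivity
      rw [phi_d hK, de, smul_mul_smul_comm, ← neg_smul]
      congr 1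
      push_cast
      field_simp
    have e2 : ∀ k, ∑ l ∈ range n, ga (k+1) (l+1) *
        phi (MvPolynomial.pderiv k (MvPolynomial.pderiv l (hh m))) =
        coeff m (X ^ (k+1) * (PowerSeries.mk (CC (k+1)) * MM)) := fun k => by
      simp only [phi_dd hK, ga_mul]
      rw [shift' (CC (k+1)) (CC_right _) _ hm, mul_left_comm]
    have e3 := shift' (fun k => coeff k (diag CC)) (by simp [diag, CC_left]) MM hm
    have e4 := shift (fun k => PowerSeries.mk (CC k) * MM) (by
      rw [show PowerSeries.mk (CC 0) = 0 by ext1 l; simp [CC_left], zero_mul]) hm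
    have e5 := congrArg (coeff m) (diag_conv2 1 MM CC)
    rw [diag, coeff_mk] at e5
    simp only [conv2_left] at e5
    rw [P1_apply]
    simp only [e1, e2]
    rw [sum_neg_distrib, ← smul_sum, e3, e4, e5, one_mul, mul_comm MM,
      show PowerSeries.mk (fun k => coeff k (diag CC)) = diag CC by ext1; rw [coeff_mk], neg_add_cancel]
  · have e1 : conv2 MM MM CC = BB := by rw [CC, conv2_conv2, hK.1, conv2_one]
    have e2 : ∀ k, ∑ l ∈ range n, ga (k+1) (l+1) *
        (phi (MvPolynomial.pderiv k (hh m)) * phi (MvPolynomial.pderiv l (hh m'))) =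
        conv2 1 MM CC (k+1) m' * coeff m (X ^ (k+1) * MM) := fun k => by
      simp only [phi_d hK, smul_mul_smul_comm, ga_mul]
      rw [conv2_left, ← shift' (CC (k+1)) (CC_right _) _ hm', sum_mul]
      exact sum_congr rfl fun l _ => by ring
    rw [Ga]
    simp only [e2]
    rw [shift' (fun k => conv2 1 MM CC k m') (by simp [conv2, CC_left]) MM hm, ← e1, mul_comm,
      coeff_mul, conv2]
    refine sum_congr rfl fun p _ => ?_
    rw [coeff_mk, conv2_left, mul_comm (PowerSeries.mk _), coeff_mul, mul_sum]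
    exact sum_congr rfl fun q _ => by rw [coeff_mk, mul_assoc]

end MJC
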