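import Pool.Agent.Lib.MP_9c49f6_co.CLoc

/-! Row B2: assembly of `st_CORE` from the first-order expansion of the Jack polynomials. -/

namespace MJC
open MJ Finset MvPolynomial

namespace B2

variable {F : Type} [Field F] {n : ℕ}

lemma sum_cJ {α : F} {J : n.Partition → n.Partition → F} (hJ : IsJack α J)
    (hj : ∀ l, scalJ α (J l) (J l) ≠ 0) (l μ ν : n.Partition) :
    ∑ π, cJ α J π μ ν * J l π = J l μ * J l ν := by
  have h1 : ∑ π, cJ α J π μ ν * J l π =
      ∑ k, (scalJ α (J k) (J k))⁻¹ * (J k μ * J k ν) * scalJ α (J k) (J l) := by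
    simp only [cJ, mul_sum, sum_mul]
    rw [sum_comm]
    refine sum_congr rfl fun k _ => ?_
    generalize (scalJ α (J k) (J k))⁻¹ = w
    rw [scalJ, mul_sum]
    exact sum_congr rfl fun π _ => by ring
  rw [h1, sum_eq_single l (fun k _ hk => by rw [hJ.orth k l hk, mul_zero]) (by simp)]
  have := hj l
  field_simp

lemma lin_sum (T : La →ₗ[ℚ] R2) (e : Bool × ℕ →₀ ℕ) {f : La} (hf : f ∈ Hm ℚ n) :
    coeff e (T f) = ∑ π : n.Partition, coeff e (T (monomial (dOf π) 1)) * coeff (dOf π) f := by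
  conv_lhs => rw [eq_sum_pm hf]
  rw [map_sum, coeff_sum]
  exact sum_congr rfl fun π _ => by rw [map_smul, coeff_smul, smul_eq_mul, mul_comm]

lemma approx (hB1 : St_B1) (l μ ν : n.Partition) :
    (∑ π : n.Partition, coeff (ex2 (dOf μ) (dOf ν)) (phi (monomial (dOf π) 1)) * co l π =
      fl (lst l) * (co l μ * co l ν)) ∧
    ∑ π : n.Partition, coeff (ex2 (dOf μ) (dOf ν)) (P1 n phi de ga (monomial (dOf π) 1)) * co l π -
      ∑ π : n.Partition, coeff (ex2 (dOf μ) (dOf ν)) (phi (monomial (dOf π) 1)) * cu l π =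
      -(fl (lst l) * (cu l μ * co l ν + co l μ * cu l ν)) := by
  obtain ⟨h1, h2⟩ := hB1 n (lst l) fun m hm =>
    (List.single_le_sum (fun _ _ => Nat.zero_le _) m hm).trans (lst_sum l).le
  have e1 := lin_sum phi.toLinearMap (ex2 (dOf μ) (dOf ν)) (hl_lst_Hm l)
  have e2 := lin_sum phi.toLinearMap (ex2 (dOf μ) (dOf ν)) (Ul_lst_Hm l)
  have e3 := lin_sum (P1 n phi de ga) (ex2 (dOf μ) (dOf ν)) (hl_lst_Hm l)
  simp only [AlgHom.toLinearMap_apply] at e1 e2
  refine ⟨e1.symm.trans ?_, ?_⟩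
  · rw [h1, coeff_smul, coeff_tn, smul_eq_mul]; rfl
  · refine (congrArg₂ (· - ·) e3.symm e2.symm).trans ?_
    rw [← coeff_sub, h2, coeff_neg, coeff_smul, coeff_add, coeff_tn, coeff_tn, smul_eq_mul]; rfl

end B2

open B2 in
theorem C_B2 (hA1 : St_A1) (hA4 : St_A4) (hA5 : St_A5) (hB1 : St_B1) (hB3 : St_B3) :
    MJB.st_CORE := by
  intro F _ _ b hb n
  classical
  obtain ⟨J, hJ, hE⟩ := hA4 F b hb n
  have ha := alpha_ne hb
  have hO : ∀ l π : n.Partition,
      (fl (lst l) : F) * ((co l π : F) - b⁻¹ * (cu l π : F)) ∈ OO b⁻¹ := fun l π =>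
    mul_mem (rat_OO _) (sub_mem (rat_OO _) (mul_mem self_OO (rat_OO _)))
  have hM : ∀ π l : n.Partition,
      Cg b⁻¹ 1 (jt b J l π - ((fl (lst l) * co l π : ℚ) : F)) := fun π l => by
    refine (((hE l π).mono one_le_two).sub
      (Cg.self.mul_right (rat_OO (fl (lst l) * cu l π)))).of_eq ?_
    push_cast; ring
  have h0 : (Matrix.of fun π l : n.Partition => fl (lst l) * co l π).det ≠ 0 := by
    rw [← Matrix.det_transpose]
    exact det_tri _ (fun κ ρ h => ((hA1 n κ ρ).1 (right_ne_zero_of_mul h)).1)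
      fun κ => mul_ne_zero (fl_pos _).ne' (hA1 n κ κ).2
  obtain ⟨hd, -, hloc⟩ := loc (trans_inv hb) (Matrix.of fun π l => jt b J l π) _ hM h0
  have hdJ : (Matrix.of J).det ≠ 0 := fun h => hd <| by
    have e : (Matrix.of fun π l => jt b J l π) =
        Matrix.diagonal (fun π => (1 + b) ^ len π / (1 + b) ^ n) * (Matrix.of J).transpose := by
      ext π l
      simp only [Matrix.diagonal_mul, Matrix.of_apply, Matrix.transpose_apply, jt]; ring
    rw [e, Matrix.det_mul, Matrix.det_transpose, h, mul_zero]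
  obtain ⟨hj, hU⟩ := hA5 F (1 + b) ha n J hJ hdJ
  refine ⟨⟨J, hJ, hU⟩, fun J' hJ' => ?_⟩
  obtain rfl := hU J' hJ'
  refine ⟨hj, fun π μ ν => ?_⟩
  let c0 : n.Partition → ℚ := fun π => coeff (ex2 (dOf μ) (dOf ν)) (phi (monomial (dOf π) 1))
  let c1 : n.Partition → ℚ := fun π =>
    coeff (ex2 (dOf μ) (dOf ν)) (P1 n phi de ga (monomial (dOf π) 1))
  let ct : n.Partition → F := fun π =>
    cJ (1 + b) J' π μ ν * (1 + b) ^ (len μ + len ν) / (1 + b) ^ (n + len π)
  have hy : ∀ π, (c0 π : F) + b⁻¹ * c1 π ∈ OO b⁻¹ := fun π =>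
    add_mem (rat_OO _) (mul_mem self_OO (rat_OO _))
  have key := hloc 2 (fun π => ct π - (c0 π + b⁻¹ * c1 π)) (fun l => by
    have e1 : ∑ π, ct π * jt b J' l π = jt b J' l μ * jt b J' l ν := by
      have : ∀ π, ct π * jt b J' l π = cJ (1 + b) J' π μ ν * J' l π *
          ((1 + b) ^ (len μ + len ν) / (1 + b) ^ (n + n)) := fun π => by
        simp only [ct, jt, pow_add]; field_simp
      simp only [this]
      rw [← sum_mul, sum_cJ hJ hj]
      simp only [jt, pow_add]; field_simp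
    obtain ⟨a1, a2⟩ := approx hB1 l μ ν
    have a1 := congrArg (Rat.cast : ℚ → F) a1
    have a2 := congrArg (Rat.cast : ℚ → F) a2
    push_cast at a1 a2
    have e2 : ∑ π, ((c0 π : F) + b⁻¹ * c1 π) *
        ((fl (lst l) : F) * ((co l π : F) - b⁻¹ * (cu l π : F))) =
        fl (lst l) * (∑ π, (c0 π : F) * co l π + b⁻¹ * (∑ π, (c1 π : F) * co l π -
          ∑ π, (c0 π : F) * cu l π) - b⁻¹ ^ 2 * ∑ π, (c1 π : F) * cu l π) := by
      simp only [mul_sum, ← sum_sub_distrib, ← sum_add_distrib]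
      exact sum_congr rfl fun π _ => by ring
    rw [a1, a2] at e2
    have g1 := Cg.sum (s := univ) fun π _ => (hE l π).mul_left (hy π)
    have g2 := ((hE l μ).mul_right ((hE l ν).mem_of_sub (hO l ν))).add ((hE l ν).mul_left (hO l μ))
    have g3 : Cg b⁻¹ 2 (b⁻¹ ^ 2 * (fl (lst l) * (fl (lst l) * (cu l μ * cu l ν) +
        ∑ π, (c1 π : F) * cu l π))) := Cg.pow_mul 2 (mul_mem (rat_OO _) (add_mem
      (mul_mem (rat_OO _) (mul_mem (rat_OO _) (rat_OO _)))
      (sum_mem fun π _ => mul_mem (rat_OO _) (rat_OO _))))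
    refine ((g2.sub g1).add g3).of_eq ?_
    simp only [Matrix.of_apply, sub_mul (ct _), mul_sub (_ + _), sum_sub_distrib, e1, e2]
    ring) π
  have hz := one_add_zpow hb ((n : ℤ) + len π - len μ - len ν)
  have hd0 : ((((n : ℤ) + len π - len μ - len ν : ℤ)) : F) ∈ OO b⁻¹ := intCast_mem _ _
  obtain ⟨_, ⟨A, B, hB, -, rfl⟩, e⟩ := ((hz.mul_right (key.mem_of_sub (hy π))).add
    (key.mul_left (add_mem (one_mem _) (mul_mem hd0 self_OO)))).add
      (Cg.pow_mul 2 (mul_mem hd0 (rat_OO (c1 π))))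
  refine ⟨c0 π, c1 π + ((n : ℚ) + len π - len μ - len ν) * c0 π, A, B, (hB3 n π μ ν).1,
    (hB3 n π μ ν).2, hB, ?_⟩
  have e3 : cJ (1 + b) J' π μ ν = (1 + b) ^ ((n : ℤ) + len π - len μ - len ν) * ct π := by
    simp only [ct, zpow_sub₀ ha, zpow_add₀ ha, zpow_natCast, pow_add]; field_simp
  rw [e3, alpha_zpow hb, mul_assoc, ← e]
  push_cast; ring

end MJC
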