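import Pool.Agent.Lib.MP_9c49f6_co.C_B1

/-! Row B3: positivity of the first two coefficients on the power-sum basis. -/

namespace MJC
open MJ Finset MvPolynomial

namespace B38

lemma phi_pv {m : ℕ} (hm : 0 < m) : phi (pv m) = ka m := by
  obtain ⟨k, rfl⟩ : ∃ k, m = k + 1 := ⟨m - 1, by omega⟩
  rw [pv_succ, phi, aeval_X]

/-- `k [s^k] K1` -/
noncomputable def k1 (k : ℕ) : R2 := (k : ℚ) • PowerSeries.coeff k K1

lemma coeff_Xds (k : ℕ) :
    PowerSeries.coeff k (PowerSeries.X * ds KK) = (k : ℚ) • PowerSeries.coeff k KK := by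
  cases k with
  | zero => simp
  | succ k => rw [PowerSeries.coeff_succ_X_mul, coeff_ds]; push_cast; rfl

lemma de_eq (k : ℕ) :
    de k = (k1 k - algebraMap ℚ R2 ((k : ℚ) + 1) * ka k) + Nu (ka k) := by
  rw [k1, K1, map_sub, map_sub, map_add, coeff_Xds, coeff_dm,
    (PowerSeries.coeff k).map_smul_of_tower, ← Algebra.smul_def, de, ka, Derivation.map_smul]
  module

lemma sum_succ (l : List ℕ) :
    (l.map fun k : ℕ => algebraMap ℚ R2 ((k : ℚ) + 1)).sum =
      algebraMap ℚ R2 ((l.sum : ℚ) + l.length) := by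
  induction l with
  | nil => simp
  | cons m l ih =>
    rw [List.map_cons, List.sum_cons, ih, ← map_add, List.sum_cons, List.length_cons]
    congr 1; push_cast; ring

lemma one_de (l : List ℕ) : one de ka l =
    one k1 ka l - ((l.sum : ℚ) + l.length) • (l.map ka).prod + Nu (l.map ka).prod := by
  rw [show de = fun k : ℕ => (k1 k - algebraMap ℚ R2 ((k : ℚ) + 1) * ka k) + Nu (ka k) from
    funext de_eq, one_add, one_sub, one_self, sum_succ, der_prod, Algebra.smul_def]

lemma mem_lst {n : ℕ} (π : n.Partition) {m : ℕ} (hm : m ∈ lst π) : 1 ≤ m ∧ m ≤ n :=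
  ⟨lst_pos π m hm, by
    have := List.le_sum_of_mem hm
    rwa [lst_sum] at this⟩

lemma phi_pm {n : ℕ} (π : n.Partition) :
    phi (monomial (dOf π) 1) = ((lst π).map ka).prod := by
  rw [pm_eq, map_list_prod, List.map_map]
  exact congrArg _ (List.map_congr_left fun m hm => phi_pv (lst_pos π m hm))

lemma P1_pm (hSO : St_SO) {n : ℕ} (π : n.Partition) :
    P1 n phi de ga (monomial (dOf π) 1) = one de ka (lst π) + pair ga ka (lst π) := by
  obtain ⟨h1, h2, h3⟩ := hSO R2 n phi de ga B1.ga_symm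
  rw [pm_eq, h1 pv (lst π)]
  have ha : ∀ m ∈ lst π, phi (pv m) = ka m := fun m hm => phi_pv (lst_pos π m hm)
  rw [one_congr (g' := de) (fun m hm => h2 m (mem_lst π hm).1 (mem_lst π hm).2) ha,
    pair_congr (β' := ga) (fun m hm m' hm' =>
      h3 m m' (mem_lst π hm).1 (mem_lst π hm).2 (mem_lst π hm').1 (mem_lst π hm').2) ha]

end B38

theorem C_B3 (hSO : St_SO) (hK : St_K) (hD : St_D) (hE : St_E) : St_B3 := by
  intro n π μ ν
  have hka : ∀ m, ka m ∈ Pos _ := fun m =>
    Pos_cone _ (by positivity) _ (hK.2.2.2.2.2.2.1 m)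
  have hga : ∀ k l, ga k l ∈ Pos _ := fun k l => Pos_cone _ (by positivity) _ (hD k l).2.2
  have hk1 : ∀ m, B38.k1 m ∈ Pos _ := fun m => Pos_cone _ (by positivity) _ (hE m)
  have h0 : ((lst π).map ka).prod ∈ Pos _ := list_prod_mem fun x hx => by
    obtain ⟨y, _, rfl⟩ := List.mem_map.mp hx
    exact hka y
  have h1 : one B38.k1 ka (lst π) + pair ga ka (lst π) ∈ Pos _ :=
    add_mem (one_in _ (fun m _ => hk1 m) fun m _ => hka m)
      (pair_in _ (fun m _ m' _ => hga m m') fun m _ => hka m)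
  rw [B38.P1_pm hSO, B38.phi_pm, B38.one_de]
  refine ⟨h0 _, (h1 (ex2 (dOf μ) (dOf ν))).trans_eq ?_⟩
  simp only [coeff_add, coeff_sub, coeff_smul, coeff_Nu, degree_ex2, degree_dOf, lst_sum,
    length_lst, smul_eq_mul, Nat.cast_add]
  ring

end MJC
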