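import Pool.Agent.Lib.MP_9c49f6_co.CF

/-! Step C1: the level relation of the two-row functions.  The generating series is
`∏ 1/((1-xα)(1-yβ)-uαβ)`; its logarithmic derivatives are computed by uniqueness for linear
differential equations. -/

namespace MJC.O1
open MJ Finset PowerSeries

section gen
variable {B : Type} [CommRing B] [Algebra ℚ B]

lemma uniq2 {Z : B⟦X⟧⟦X⟧} (p q : B) (l l' : Derivation ℚ B B)
    (h1 : ds Z = C (C p) * Z + dm (dm l) Z) (h2 : dm ds Z = C (C q) * Z + dm (dm l') Z)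
    (h0 : coeff 0 (coeff 0 Z) = 0) : Z = 0 := by
  refine ode_lin _ (dm l) (ode_lin (C q) l' h0 ?_) h1
  have := congrArg (coeff 0) h2
  rwa [coeff_dm, map_add, coeff_C_mul, coeff_dm] at this

omit [Algebra ℚ B] in
lemma c0_mul (f g : B⟦X⟧) : coeff 0 (f * g) = coeff 0 f * coeff 0 g := by simp

lemma sol_der (D L δ : Derivation ℚ B B) (p F : B) (hD : ∀ f, D (δ f) = δ (D f))
    (hL : ∀ f, L (δ f) = δ (L f)) (hp : δ p = 0) (h : D F = p * F + L F) :
    D (δ F) = p * δ F + L (δ F) := by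
  rw [hD, hL, h, map_add, Derivation.leibniz, hp, smul_zero, add_zero, smul_eq_mul]

lemma sol_mul (D L : Derivation ℚ B B) (p F G Φ : B) (hG : D G = p * G + L G)
    (hF : D F = p * F + L F) (hΦ : D Φ = L Φ) :
    D (G - Φ * F) = p * (G - Φ * F) + L (G - Φ * F) := by
  simp only [map_sub, Derivation.leibniz, smul_eq_mul, hG, hF, hΦ]; ring

lemma origin (l : Derivation ℚ B B) (p : B) (H P Ψ : B⟦X⟧) (h0 : coeff 0 H = 1)
    (hH : ds H = P * H) (hΨ : ds Ψ = dm l P) (hp : coeff 0 Ψ = p) :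
    C p * H + dm l H = Ψ * H := by
  refine sub_eq_zero.mp (ode_mul P ?_ ?_)
  · rw [map_sub, map_add, coeff_C_mul, coeff_dm, c0_mul, h0, hp]
    simp
  · simp only [map_sub, map_add, Derivation.leibniz, ds_dm, hH, hΨ, ds_C, smul_eq_mul]; ring

/-- a triple sequence as a series in `x` (outer), `y`, `u` (inner) -/
noncomputable def n3 (f : ℕ → ℕ → ℕ → B) : B⟦X⟧⟦X⟧⟦X⟧ := nest fun a b => mk (f a b)

omit [Algebra ℚ B] in
@[simp] lemma coeff_n3 (f : ℕ → ℕ → ℕ → B) (a b r : ℕ) :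
    coeff r (coeff b (coeff a (n3 f))) = f a b r := by
  rw [n3, coeff_nest, coeff_mk]

omit [Algebra ℚ B] in
lemma ext3 {F G : B⟦X⟧⟦X⟧⟦X⟧}
    (h : ∀ a b r, coeff r (coeff b (coeff a F)) = coeff r (coeff b (coeff a G))) : F = G :=
  PowerSeries.ext fun a => PowerSeries.ext fun b => PowerSeries.ext fun r => h a b r

lemma co_dx (F : B⟦X⟧⟦X⟧⟦X⟧) (a b r : ℕ) : coeff r (coeff b (coeff a (ds F))) =
    ((a : ℚ) + 1) • coeff r (coeff b (coeff (a+1) F)) := by
  rw [coeff_ds, (coeff b).map_smul_of_tower, (coeff r).map_smul_of_tower]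

lemma co_dy (F : B⟦X⟧⟦X⟧⟦X⟧) (a b r : ℕ) : coeff r (coeff b (coeff a (dm ds F))) =
    ((b : ℚ) + 1) • coeff r (coeff (b+1) (coeff a F)) := by
  rw [coeff_dm, coeff_ds, (coeff r).map_smul_of_tower]

lemma co_du (F : B⟦X⟧⟦X⟧⟦X⟧) (a b r : ℕ) : coeff r (coeff b (coeff a (dm (dm ds) F))) =
    ((r : ℚ) + 1) • coeff (r+1) (coeff b (coeff a F)) := by
  rw [coeff_dm, coeff_dm, coeff_ds]

lemma co_sm (q : ℚ) (F : B⟦X⟧⟦X⟧⟦X⟧) (a b r : ℕ) : coeff r (coeff b (coeff a (q • F))) =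
    q • coeff r (coeff b (coeff a F)) := by
  rw [(coeff a).map_smul_of_tower, (coeff b).map_smul_of_tower, (coeff r).map_smul_of_tower]
end gen

abbrev S3 := La2⟦X⟧⟦X⟧⟦X⟧

noncomputable def FF : S3 := n3 ff
/-- `∑ α^i β^j / ((1-xα)(1-yβ)-uαβ)` -/
noncomputable def Ph (i j : ℕ) : S3 := n3 fun a b c =>
  (((a + c).choose c * (b + c).choose c : ℕ) : ℚ) • MvPolynomial.X (a + c + i, b + c + j)

lemma ch (a c : ℕ) :
    ((a : ℚ) + 1) * ((a + 1 + c).choose c : ℕ) = ((a : ℚ) + c + 1) * ((a + c).choose c : ℕ) := by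
  have h := Nat.choose_mul_succ_eq (a + c) c
  rw [show a + c + 1 - c = a + 1 by omega] at h
  rw [Nat.add_right_comm a 1 c]
  have h' := congrArg (Nat.cast : ℕ → ℚ) h
  push_cast at h'
  linear_combination -h'

lemma dx_Ph (i j : ℕ) :
    ds (Ph i j) = dm (dm (dm l1)) (Ph i j) + (1 - i : ℚ) • Ph (i+1) j := ext3 fun a b c => by
  rw [co_dx, map_add, map_add, map_add, co_sm]
  simp only [Ph, coeff_dm, coeff_n3, Derivation.map_smul, l1_X, smul_smul]
  rw [show a + 1 + c + i = a + c + i + 1 by ring, ← add_assoc, ← add_smul]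
  refine congrArg₂ (· • ·) ?_ rfl
  push_cast
  linear_combination ((b + c).choose c : ℚ) * ch a c

lemma dy_Ph (i j : ℕ) :
    dm ds (Ph i j) = dm (dm (dm l2)) (Ph i j) + (1 - j : ℚ) • Ph i (j+1) := ext3 fun a b c => by
  rw [co_dy, map_add, map_add, map_add, co_sm]
  simp only [Ph, coeff_dm, coeff_n3, Derivation.map_smul, l2_X, smul_smul]
  rw [show b + 1 + c + j = b + c + j + 1 by ring, ← add_assoc, ← add_smul]
  refine congrArg₂ (· • ·) ?_ rfl
  push_cast
  linear_combination ((a + c).choose c : ℚ) * ch b c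

lemma dx_FF : ds FF = C (C (C (MvPolynomial.X (1, 0)))) * FF + dm (dm (dm l1)) FF :=
  ext3 fun a b r => by
    rw [co_dx]
    simp only [FF, map_add, coeff_C_mul, coeff_dm, coeff_n3, ff_succ1, Eop]

lemma dy_FF : dm ds FF = C (C (C (MvPolynomial.X (0, 1)))) * FF + dm (dm (dm l2)) FF :=
  ext3 fun a b r => by
    rw [co_dy]
    simp only [FF, map_add, coeff_C_mul, coeff_dm, coeff_n3, ff_succ2, Eop]

noncomputable def H0 : La2⟦X⟧ := coeff 0 (coeff 0 FF)
noncomputable def P0 (i j : ℕ) : La2⟦X⟧ := mk fun c => MvPolynomial.X (c + i, c + j)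

lemma Ph_0 (i j : ℕ) : coeff 0 (coeff 0 (Ph i j)) = P0 i j := PowerSeries.ext fun c => by
  rw [Ph, coeff_n3]; simp [P0]

lemma H0_eq : H0 = PowerSeries.map (i3 : La →+* La2) Hs := PowerSeries.ext fun c => by
  rw [H0, FF, coeff_n3]; simp [ff_zero]

lemma ds_H0 : ds H0 = P0 1 1 * H0 := by
  rw [H0_eq, ← map_ds, ds_Hs, map_mul]
  refine congrArg₂ (· * ·) (PowerSeries.ext fun c => ?_) rfl
  simp [P0, i3_X]

lemma H0_0 : coeff 0 H0 = 1 := by simp [H0_eq, Hs, hh]

lemma du_FF : dm (dm ds) FF = Ph 1 1 * FF := by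
  refine sub_eq_zero.mp (uniq2 (C (MvPolynomial.X (1, 0))) (C (MvPolynomial.X (0, 1))) (dm l1)
    (dm l2) (sol_mul _ _ _ _ _ _ (sol_der _ _ _ _ _ (fun f => ds_dm _ f)
      (dm_comm (dm_comm fun f => (ds_dm _ f).symm)) (by simp) dx_FF) dx_FF (by simp [dx_Ph]))
    (sol_mul _ _ _ _ _ _ (sol_der _ _ _ _ _ (dm_comm fun f => ds_dm _ f)
      (dm_comm (dm_comm fun f => (ds_dm _ f).symm)) (by simp) dy_FF) dy_FF (by simp [dy_Ph])) ?_)
  rw [map_sub, map_sub, coeff_dm, coeff_dm, c0_mul, c0_mul, Ph_0]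
  exact sub_eq_zero.mpr ds_H0

lemma dxy_FF : ds FF - dm ds FF = (Ph 1 0 - Ph 0 1 + (X - C X) * Ph 1 1) * FF := by
  have a1 := sol_der ds (dm (dm (dm l1))) ds _ FF (fun _ => rfl) (fun f => (ds_dm _ f).symm)
    (by simp) dx_FF
  have a2 := sol_der ds (dm (dm (dm l1))) (dm ds) _ FF (fun f => ds_dm _ f)
    (dm_comm fun f => (ds_dm _ f).symm) (by simp) dx_FF
  have b1 := sol_der (dm ds) (dm (dm (dm l2))) ds _ FF (fun f => (ds_dm _ f).symm)
    (fun f => (ds_dm _ f).symm) (by simp) dy_FF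
  have b2 := sol_der (dm ds) (dm (dm (dm l2))) (dm ds) _ FF (fun _ => rfl)
    (dm_comm fun f => (ds_dm _ f).symm) (by simp) dy_FF
  refine sub_eq_zero.mp (uniq2 (C (MvPolynomial.X (1, 0))) (C (MvPolynomial.X (0, 1))) (dm l1)
    (dm l2) (sol_mul _ _ _ _ _ _ ?_ dx_FF ?_) (sol_mul _ _ _ _ _ _ ?_ dy_FF ?_) ?_)
  · rw [map_sub, map_sub, a1, a2]; ring
  · simp only [map_add, map_sub, Derivation.leibniz, dx_Ph, ds_X, ds_C, dm_X, dm_C, map_zero,
      smul_eq_mul, Nat.cast_one, Nat.cast_zero, sub_self, zero_smul, sub_zero, one_smul]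
    ring
  · rw [map_sub, map_sub, b1, b2]; ring
  · simp only [map_add, map_sub, Derivation.leibniz, dy_Ph, ds_X, ds_C, dm_X, dm_C, map_zero,
      map_one, smul_eq_mul, Nat.cast_one, Nat.cast_zero, sub_self, zero_smul, sub_zero, one_smul]
    ring
  · have o1 := origin l1 (MvPolynomial.X (1, 0)) H0 (P0 1 1) (P0 1 0) H0_0 ds_H0
      (PowerSeries.ext fun c => by
        simp [coeff_ds, P0, l1_X]) (by simp [P0])
    have o2 := origin l2 (MvPolynomial.X (0, 1)) H0 (P0 1 1) (P0 0 1) H0_0 ds_H0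
      (PowerSeries.ext fun c => by
        simp [coeff_ds, P0, l2_X]) (by simp [P0])
    rw [dx_FF, dy_FF]
    simp only [map_sub, map_add, coeff_dm, c0_mul, Ph_0, coeff_zero_C, coeff_zero_X, map_zero]
    rw [← H0, o1, o2]; ring

lemma rel (a b r : ℕ) :
    ((a : ℚ) + 1) • sp (ff (a+1) b r) +
        ((r : ℚ) + 1) • (if b = 0 then 0 else sp (ff a (b - 1) (r+1))) =
      ((b : ℚ) + 1) • sp (ff a (b+1) r) +
        ((r : ℚ) + 1) • (if a = 0 then 0 else sp (ff (a - 1) b (r+1))) := by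
  have h : ds FF + C X * dm (dm ds) FF =
      dm ds FF + X * dm (dm ds) FF + (Ph 1 0 - Ph 0 1) * FF := by
    rw [du_FF]; linear_combination dxy_FF
  have hz : sp (coeff r (coeff b (coeff a ((Ph 1 0 - Ph 0 1) * FF)))) = 0 := by
    simp only [coeff_mul, map_sum, map_mul, map_sub, Ph, coeff_n3, map_smul, sp_X]
    refine sum_eq_zero fun p _ => sum_eq_zero fun q _ => sum_eq_zero fun s _ => ?_
    rw [show p.1 + s.1 + 1 + (q.1 + s.1 + 0) = p.1 + s.1 + 0 + (q.1 + s.1 + 1) by ring, sub_self,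
      zero_mul]
  have h2 := congrArg (fun F : S3 => sp (coeff r (coeff b (coeff a F)))) h
  simp only [map_add, hz, add_zero, co_dx, co_dy, coeff_C_mul, map_smul] at h2
  have e1 : sp (coeff r (coeff b (X * coeff a (dm (dm ds) FF)))) =
      ((r : ℚ) + 1) • (if b = 0 then 0 else sp (ff a (b - 1) (r+1))) := by
    rcases b with _ | b
    · simp
    · rw [coeff_succ_X_mul, co_du]; simp [FF]
  have e2 : sp (coeff r (coeff b (coeff a (X * dm (dm ds) FF)))) =
      ((r : ℚ) + 1) • (if a = 0 then 0 else sp (ff (a - 1) b (r+1))) := by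
    rcases a with _ | a
    · simp
    · rw [coeff_succ_X_mul, co_du]; simp [FF]
  rw [e1, e2] at h2
  simpa only [FF, coeff_n3] using h2

end MJC.O1

namespace MJC

theorem C_C1 : St_C1 := by
  intro m m' r
  by_cases h : r ≤ min m m'
  · obtain ⟨a, rfl⟩ : ∃ a, m = a + r := ⟨m - r, by omega⟩
    obtain ⟨b, rfl⟩ : ∃ b, m' = b + r := ⟨m' - r, by omega⟩
    have e1 : GG (a + r + 1) (b + r) (r+1) = if b = 0 then 0 else sp (ff a (b - 1) (r+1)) := by
      split_ifs with hb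
      · exact GG_of_lt (by omega)
      · rw [GG_of_le (by omega), show a + r + 1 - (r+1) = a by omega,
          show b + r - (r+1) = b - 1 by omega]
    have e2 : GG (a + r) (b + r + 1) (r+1) = if a = 0 then 0 else sp (ff (a - 1) b (r+1)) := by
      split_ifs with hb
      · exact GG_of_lt (by omega)
      · rw [GG_of_le (by omega), show b + r + 1 - (r+1) = b by omega,
          show a + r - (r+1) = a - 1 by omega]
    rw [e1, e2, GG_of_le (by omega), GG_of_le (by omega), show a + r + 1 - r = a + 1 by omega,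
      show b + r + 1 - r = b + 1 by omega, Nat.add_sub_cancel, Nat.add_sub_cancel,
      show ((a + r : ℕ) : ℚ) + 1 - r = a + 1 by push_cast; ring,
      show ((b + r : ℕ) : ℚ) + 1 - r = b + 1 by push_cast; ring]
    exact O1.rel a b r
  · rw [GG_of_lt (m := m+1) (r := r+1) (by omega), GG_of_lt (m' := m'+1) (r := r+1) (by omega)]
    have e1 : ((m : ℚ) + 1 - r) • GG (m+1) m' r = 0 := by
      by_cases h1 : r = m + 1
      · rw [h1]; simp
      · rw [GG_of_lt (by omega), smul_zero]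
    have e2 : ((m' : ℚ) + 1 - r) • GG m (m'+1) r = 0 := by
      by_cases h1 : r = m' + 1
      · rw [h1]; simp
      · rw [GG_of_lt (by omega), smul_zero]
    rw [e1, e2]

end MJC
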