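import Pool.Agent.Lib.MP_9c49f6_co.CBlue

/-! Row C2a: the level polynomials `G_(m,m')` in the basis `(1-z)^i ∑ C(a,c) C(b,c) z^c`. -/

namespace MJC.C2a
open Finset Polynomial

/-- `∑_c C(a,c) C(b,c) z^c` -/
noncomputable def Bp (a b : ℕ) : ℚ[X] := C (a.factorial * b.factorial : ℚ) * Zs 0 a b

lemma coeff_Bp (a b c : ℕ) : (Bp a b).coeff c = (a.choose c : ℚ) * (b.choose c : ℚ) := by
  rw [Bp, coeff_C_mul, Zs, finsetSum_coeff]
  simp only [coeff_monomial, sum_ite_eq', mem_range, Nat.add_zero]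
  split_ifs with h
  · have ha : c ≤ a := by omega
    have hb : c ≤ b := by omega
    rw [Nat.cast_choose ℚ ha, Nat.cast_choose ℚ hb]
    have h1 : ((a - c).factorial : ℚ) ≠ 0 := by positivity
    have h2 : ((b - c).factorial : ℚ) ≠ 0 := by positivity
    have h3 : (c.factorial : ℚ) ≠ 0 := by positivity
    field_simp
  · rcases le_total a b with hab | hab
    · rw [Nat.choose_eq_zero_of_lt (show a < c by omega)]; simp
    · rw [Nat.choose_eq_zero_of_lt (show b < c by omega)]; simp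

lemma Bp_zero_left (b : ℕ) : Bp 0 b = 1 := by
  ext c
  rw [coeff_Bp, coeff_one]
  cases c with
  | zero => simp
  | succ c => simp

lemma Bp_zero_right (a : ℕ) : Bp a 0 = 1 := by
  ext c
  rw [coeff_Bp, coeff_one]
  cases c with
  | zero => simp
  | succ c => simp

/-- `k f + (1 - z) f'` -/
noncomputable def Op (k : ℚ) (f : ℚ[X]) : ℚ[X] := C k * f + (1 - X) * derivative f

lemma coeff_Op (k : ℚ) (f : ℚ[X]) (r : ℕ) :
    (Op k f).coeff r = (k - r) * f.coeff r + ((r : ℚ) + 1) * f.coeff (r+1) := by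
  rw [Op, coeff_add, coeff_C_mul, sub_mul, one_mul, coeff_sub, coeff_derivative]
  cases r with
  | zero => simp
  | succ r => rw [coeff_X_mul, coeff_derivative]; push_cast; ring

lemma Op_pow (k : ℚ) (i : ℕ) (f : ℚ[X]) :
    Op (k + i) ((1 - X) ^ i * f) = (1 - X) ^ i * Op k f := by
  have h : (1 - X : ℚ[X]) * derivative ((1 - X) ^ i) = -(C (i : ℚ) * (1 - X) ^ i) := by
    cases i with
    | zero => simp
    | succ i =>
      rw [derivative_pow]
      simp only [derivative_sub, derivative_one, derivative_X, Nat.add_sub_cancel]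
      ring
  simp only [Op, derivative_mul, map_add]
  linear_combination f * h

lemma ch1 (a c : ℕ) : ((a : ℚ) + 1 - c) * ((a+1).choose c : ℚ) =
    ((c : ℚ) + 1) * ((a+1).choose (c+1) : ℚ) := by
  rcases le_or_gt c (a+1) with h | h
  · have := Nat.choose_succ_right_eq (a+1) c
    have h2 : (((a+1).choose (c+1) * (c+1) : ℕ) : ℚ) = (((a+1).choose c * (a+1-c) : ℕ) : ℚ) := by
      rw [this]
    push_cast [Nat.cast_sub h] at h2
    linear_combination -h2
  · rw [Nat.choose_eq_zero_of_lt h, Nat.choose_eq_zero_of_lt (show a + 1 < c + 1 by omega)]; simp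

lemma Op_Bp (a b : ℕ) : Op ((a : ℚ) + 1) (Bp (a+1) b) = Op ((b : ℚ) + 1) (Bp a (b+1)) := by
  ext c
  simp only [coeff_Op, coeff_Bp]
  have h1 := ch1 a c
  have h2 := ch1 b c
  have h3 : ((a+1).choose (c+1) : ℚ) = a.choose c + a.choose (c+1) := by
    rw [Nat.choose_succ_succ]; push_cast; rfl
  have h4 : ((b+1).choose (c+1) : ℚ) = b.choose c + b.choose (c+1) := by
    rw [Nat.choose_succ_succ]; push_cast; rfl
  linear_combination (b.choose c : ℚ) * h1 - (a.choose c : ℚ) * h2 -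
    ((c : ℚ) + 1) * ((a+1).choose (c+1) : ℚ) * h4 + ((c : ℚ) + 1) * ((b+1).choose (c+1) : ℚ) * h3

/-- `(1-z)^i ∑_c C(a,c) C(b,c) z^c` -/
noncomputable def psi (i a b : ℕ) : ℚ[X] := (1 - X) ^ i * Bp a b

lemma psi_eq (i a b r : ℕ) :
    (a.factorial * b.factorial * Zd 0 i a b r : ℚ) = (psi i a b).coeff r := by
  rw [psi, Bp, mul_left_comm, coeff_C_mul, Zd]

lemma psi_zero (i a b : ℕ) : (psi i a b).coeff 0 = 1 := by
  rw [psi, mul_coeff_zero, coeff_Bp, coeff_zero_eq_eval_zero]; simp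

lemma psi_rel {m m' i : ℕ} (h : i ≤ m) (h' : i ≤ m') :
    Op ((m : ℚ) + 1) (psi i (m + 1 - i) (m' - i)) = Op ((m' : ℚ) + 1) (psi i (m - i) (m' + 1 - i)) := by
  obtain ⟨a, rfl⟩ := Nat.exists_eq_add_of_le h
  obtain ⟨b, rfl⟩ := Nat.exists_eq_add_of_le h'
  have e1 : i + a + 1 - i = a + 1 := by omega
  have e2 : i + b + 1 - i = b + 1 := by omega
  have e3 : ((i + a : ℕ) : ℚ) + 1 = ((a : ℚ) + 1) + i := by push_cast; ring
  have e4 : ((i + b : ℕ) : ℚ) + 1 = ((b : ℚ) + 1) + i := by push_cast; ring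
  rw [e1, e2, e3, e4, Nat.add_sub_cancel_left, Nat.add_sub_cancel_left, psi, psi, Op_pow, Op_pow,
    Op_Bp]

lemma Op_top (i : ℕ) : Op (i : ℚ) ((1 - X) ^ i * 1) = 0 := by
  have := Op_pow 0 i 1
  rw [zero_add] at this
  rw [this]; simp [Op]

/-- the right-hand side -/
noncomputable def RH (s : ℕ → La) (m m' r : ℕ) : La :=
  ∑ i ∈ range (min m m' + 1), (psi i (m - i) (m' - i)).coeff r • s i

lemma RH_op (s : ℕ → La) (k : ℚ) (m m' r : ℕ) :
    (k - r) • RH s m m' r + ((r : ℚ) + 1) • RH s m m' (r+1) =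
      ∑ i ∈ range (min m m' + 1), (Op k (psi i (m - i) (m' - i))).coeff r • s i := by
  simp only [RH, smul_sum, ← sum_add_distrib, smul_smul, ← add_smul, coeff_Op]

lemma RH_rel (s : ℕ → La) (m m' r : ℕ) :
    ((m : ℚ) + 1 - r) • RH s (m+1) m' r + ((r : ℚ) + 1) • RH s (m+1) m' (r+1) =
      ((m' : ℚ) + 1 - r) • RH s m (m'+1) r + ((r : ℚ) + 1) • RH s m (m'+1) (r+1) := by
  rw [RH_op, RH_op]
  have hL : ∑ i ∈ range (min (m+1) m' + 1),
      (Op ((m : ℚ) + 1) (psi i (m + 1 - i) (m' - i))).coeff r • s i =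
      ∑ i ∈ range (min m m' + 1),
        (Op ((m : ℚ) + 1) (psi i (m + 1 - i) (m' - i))).coeff r • s i := by
    rcases le_or_gt m' m with h | h
    · rw [min_eq_right (by omega), min_eq_right h]
    · rw [min_eq_left (by omega), min_eq_left h.le, sum_range_succ _ (m+1), Nat.sub_self, psi,
        Bp_zero_left]
      have := Op_top (m+1)
      push_cast at this
      rw [this]; simp
  have hR : ∑ i ∈ range (min m (m'+1) + 1),
      (Op ((m' : ℚ) + 1) (psi i (m - i) (m' + 1 - i))).coeff r • s i =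
      ∑ i ∈ range (min m m' + 1),
        (Op ((m' : ℚ) + 1) (psi i (m - i) (m' + 1 - i))).coeff r • s i := by
    rcases le_or_gt m m' with h | h
    · rw [min_eq_left (by omega), min_eq_left h]
    · rw [min_eq_right (by omega), min_eq_right h.le, sum_range_succ _ (m'+1), Nat.sub_self, psi,
        Bp_zero_right]
      have := Op_top (m'+1)
      push_cast at this
      rw [this]; simp
  rw [hL, hR]
  refine sum_congr rfl fun i hi => ?_
  have := mem_range.mp hi
  rw [psi_rel (by omega) (by omega)]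

lemma sum_ss (N k : ℕ) : ∑ i ∈ range (k + 1), ss N i = eta N k := by
  induction k with
  | zero => simp [ss]
  | succ k ih => rw [sum_range_succ, ih]; simp [ss]

lemma RH_zero (m m' : ℕ) : RH (ss (m + m')) m m' 0 = hh m * hh m' := by
  simp only [RH, psi_zero, one_smul, sum_ss, eta]
  rcases le_total m m' with h | h
  · rw [min_eq_left h, Nat.add_sub_cancel_left]
  · rw [min_eq_right h, Nat.add_sub_cancel, mul_comm]

theorem main (h0 : ∀ m m', GG m m' 0 = hh m * hh m') (hC : St_C1) (m' : ℕ) :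
    ∀ m r, GG m m' r = RH (ss (m + m')) m m' r := by
  induction m' with
  | zero =>
    intro m r
    cases r with
    | zero => rw [h0, RH_zero]
    | succ r => simp [GG, RH, psi, Bp_zero_right, coeff_one]
  | succ m' ih =>
    intro m r
    induction r with
    | zero => rw [h0, RH_zero]
    | succ r ihr =>
      have h1 := hC m m' r
      have h2 := RH_rel (ss (m + (m'+1))) m m' r
      rw [ih, ih, show m + 1 + m' = m + (m'+1) by omega, h2, ihr] at h1
      have h3 : ((r : ℚ) + 1) ≠ 0 := by positivity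
      exact (smul_right_injective _ h3 (add_left_cancel h1)).symm

theorem of_zero (h0 : ∀ m m', GG m m' 0 = hh m * hh m') (hC : St_C1) : St_C2a := fun m m' r => by
  rw [main h0 hC m' m r, RH]
  exact sum_congr rfl fun i _ => by rw [psi_eq]

section Base
variable {A : Type} [CommRing A] [Algebra ℚ A]

lemma E_ex (a : ℕ → A) (δ : Derivation ℚ A A) (h : ∀ k, δ (a k) = ((k : ℚ) + 1) • a (k+1))
    (m : ℕ) : Eop (a 0) δ (MJ.ex ℚ a m) = ((m : ℚ) + 1) • MJ.ex ℚ a (m+1) := by
  have h1 : ds (MJ.Ex ℚ a) = PowerSeries.mk a * MJ.Ex ℚ a := MJ.Ex_deriv a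
  have h2 : dm δ (PowerSeries.mk a) = ds (PowerSeries.mk a) := by
    ext n; simp [coeff_ds, h]
  have h3 : dm δ (MJ.Ex ℚ a) - (PowerSeries.mk a - PowerSeries.C (a 0)) * MJ.Ex ℚ a = 0 := by
    refine ode_mul (PowerSeries.mk a) (by rw [map_sub, coeff_dm]; simp) ?_
    rw [map_sub, ds_dm, h1, Derivation.leibniz, Derivation.leibniz, h1, h2, map_sub, ds_C]
    simp only [smul_eq_mul]; ring
  have h4 : ds (MJ.Ex ℚ a) = PowerSeries.C (a 0) * MJ.Ex ℚ a + dm δ (MJ.Ex ℚ a) := by
    rw [h1]; linear_combination -h3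
  have h5 := congrArg (PowerSeries.coeff m) h4
  rw [coeff_ds, map_add, PowerSeries.coeff_C_mul, coeff_dm, MJ.Ex_coeff, MJ.Ex_coeff] at h5
  exact h5.symm

lemma iter_E (a : ℕ → A) (δ : Derivation ℚ A A) (h : ∀ k, δ (a k) = ((k : ℚ) + 1) • a (k+1))
    {g : A} (hg : δ g = 0) (m : ℕ) :
    (Eop (a 0) δ)^[m] g = (m.factorial : ℚ) • (MJ.ex ℚ a m * g) := by
  induction m with
  | zero => simp
  | succ m ih =>
    have h1 := E_ex a δ h m
    rw [Function.iterate_succ_apply', ih, Nat.factorial_succ]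
    simp only [Eop] at h1 ⊢
    rw [Derivation.map_smul, Derivation.leibniz, hg, smul_zero, zero_add, mul_smul_comm,
      ← smul_add, smul_eq_mul, ← mul_assoc, mul_comm g, ← add_mul, h1, smul_mul_assoc, smul_smul]
    push_cast
    rw [mul_comm (m.factorial : ℚ)]
end Base

lemma GG_zero (m m' : ℕ) : GG m m' 0 = hh m * hh m' := by
  have e2 := iter_E (A := La2) (fun k => MvPolynomial.X (0, k+1)) l2
    (fun k => by simp [l2]) (g := 1) (by simp) m'
  have hk : l1 (MJ.ex ℚ (fun k => (MvPolynomial.X (0, k+1) : La2)) m') = 0 := by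
    have h1 := hom_der i2 0 l1 (fun v => by simp [i2, l1]) (hh m')
    rw [hh, MJ.map_ex] at h1
    simpa [i2] using h1.symm
  have e1 := iter_E (A := La2) (fun k => MvPolynomial.X (k+1, 0)) l1
    (fun k => by simp [l1])
    (g := (m'.factorial : ℚ) • (MJ.ex ℚ (fun k => (MvPolynomial.X (0, k+1) : La2)) m' * 1))
    (by rw [mul_one, Derivation.map_smul, hk, smul_zero]) m
  have h0 : i3 (hh 0) = 1 := by simp [hh]
  simp only [Nat.zero_add] at e1 e2
  have h1 : (m.factorial : ℚ) ≠ 0 := by positivity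
  have h2 : (m'.factorial : ℚ) ≠ 0 := by positivity
  rw [GG, if_pos (Nat.zero_le _), Nat.sub_zero, Nat.sub_zero, ff, h0, e2, e1, mul_one,
    mul_smul_comm, smul_smul, smul_smul, mul_assoc, inv_mul_cancel₀ (mul_ne_zero h1 h2), one_smul,
    map_mul, MJ.map_ex, MJ.map_ex]
  simp [sp, pv, hh]

end MJC.C2a

namespace MJC

theorem C_C2a (hC : St_C1) : St_C2a := C2a.of_zero C2a.GG_zero hC

end MJC
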