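import Pool.Agent.Lib.MP_9c49f6_co.CH

/-! Row C2b: Abel summation of the two-row expansion. -/

namespace MJC
open MJ Finset MvPolynomial

namespace H49

lemma Zc (δ a b c : ℕ) : (a.factorial * b.factorial : ℚ) * (Zs δ a b).coeff c =
    (a.choose c * b.choose c : ℚ) * c.factorial / (c + δ).factorial := by
  have h1 : ∀ k : ℕ, (k.factorial : ℚ) ≠ 0 := fun k => by exact_mod_cast k.factorial_ne_zero
  simp only [Zs, Polynomial.finsetSum_coeff, Polynomial.coeff_monomial, sum_ite_eq', mem_range]
  split_ifs with h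
  · rw [Nat.cast_choose ℚ (show c ≤ a by omega), Nat.cast_choose ℚ (show c ≤ b by omega)]
    have := h1 c
    have := h1 (a - c)
    have := h1 (b - c)
    have := h1 (c + δ)
    field_simp
  · rcases (show a < c ∨ b < c by omega) with h2 | h2 <;> simp [Nat.choose_eq_zero_of_lt h2]

lemma choose_step (a c : ℕ) :
    (a.choose (c + 1) : ℚ) * (c + 1) = a.choose c * ((a : ℚ) - c) := by
  rcases le_or_gt c a with h | h
  · have := congrArg (Nat.cast : ℕ → ℚ) (Nat.choose_succ_right_eq a c)
    rw [Nat.cast_mul, Nat.cast_mul, Nat.cast_sub h] at this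
    exact_mod_cast this
  · simp [Nat.choose_eq_zero_of_lt h, Nat.choose_eq_zero_of_lt (Nat.lt_succ_of_lt h)]

lemma Zstep (a b : ℕ) :
    Polynomial.C ((a + 1).factorial * (b + 1).factorial : ℚ) * Zs 0 (a + 1) (b + 1)
      - (1 - Polynomial.X) * (Polynomial.C (a.factorial * b.factorial : ℚ) * Zs 0 a b)
      = Polynomial.C ((a : ℚ) + b + 2) *
        (Polynomial.C (a.factorial * b.factorial : ℚ) * Zs 1 a b) * Polynomial.X := by
  ext c
  rw [sub_mul, one_mul, Polynomial.coeff_sub, Polynomial.coeff_sub]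
  have h1 : ∀ k : ℕ, (k.factorial : ℚ) ≠ 0 := fun k => by exact_mod_cast k.factorial_ne_zero
  cases c with
  | zero =>
    rw [Polynomial.coeff_X_mul_zero, Polynomial.coeff_mul_X_zero, Polynomial.coeff_C_mul,
      Polynomial.coeff_C_mul, Zc, Zc]
    simp
  | succ c =>
    rw [Polynomial.coeff_X_mul, Polynomial.coeff_mul_X]
    simp only [Polynomial.coeff_C_mul, Zc, add_zero]
    rw [mul_div_cancel_right₀ _ (h1 _), mul_div_cancel_right₀ _ (h1 _),
      mul_div_cancel_right₀ _ (h1 _), Nat.choose_succ_succ' a c, Nat.choose_succ_succ' b c,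
      Nat.factorial_succ c]
    have e1 := choose_step a c
    have e2 := choose_step b c
    have := h1 c
    have h2 : (c : ℚ) + 1 ≠ 0 := by positivity
    push_cast
    field_simp
    linear_combination (b.choose c : ℚ) * e1 + (a.choose c : ℚ) * e2

lemma Zd_step (l a b r : ℕ) :
    ((a + 1).factorial * (b + 1).factorial : ℚ) * Zd 0 l (a + 1) (b + 1) (r + 1)
      - (a.factorial * b.factorial : ℚ) * Zd 0 (l + 1) a b (r + 1)
      = ((a : ℚ) + b + 2) * a.factorial * b.factorial * Zd 1 l a b r := by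
  have h := congrArg (fun p => ((1 - Polynomial.X) ^ l * p).coeff (r + 1)) (Zstep a b)
  have e1 : ∀ (u v : ℚ) (p q : Polynomial ℚ), (1 - Polynomial.X) ^ l * (Polynomial.C u * p
      - (1 - Polynomial.X) * (Polynomial.C v * q)) = Polynomial.C u * ((1 - Polynomial.X) ^ l * p)
      - Polynomial.C v * ((1 - Polynomial.X) ^ (l + 1) * q) := fun u v p q => by ring
  have e2 : ∀ (u v : ℚ) (p : Polynomial ℚ), (1 - Polynomial.X) ^ l * (Polynomial.C u *
      (Polynomial.C v * p) * Polynomial.X) =
      Polynomial.C u * (Polynomial.C v * ((1 - Polynomial.X) ^ l * p)) * Polynomial.X :=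
    fun u v p => by ring
  simp only [e1, e2, Polynomial.coeff_sub, Polynomial.coeff_C_mul, Polynomial.coeff_mul_X] at h
  simp only [Zd]
  rw [h]; ring

lemma abel_sum (c : ℕ → ℚ) (e : ℕ → La) (n : ℕ) :
    ∑ i ∈ range (n + 1), c i • (e i - if i = 0 then 0 else e (i - 1)) =
      ∑ l ∈ range n, (c l - c (l + 1)) • e l + c n • e n := by
  induction n with
  | zero => simp
  | succ n ih =>
    rw [sum_range_succ, ih, sum_range_succ, if_neg (Nat.succ_ne_zero n), Nat.add_sub_cancel]
    module

lemma main (h : St_C2a) (he : ∀ m, eps (hh m) = (m.factorial : ℚ)⁻¹)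
    (hG : ∀ m m' r, eps (GG m m' (r + 1)) = 0) : St_C2b := by
  intro m m' r
  have h1 : ∀ k : ℕ, (k.factorial : ℚ) ≠ 0 := fun k => by exact_mod_cast k.factorial_ne_zero
  set κ : ℕ → ℚ := fun l => ((m : ℚ) + m' - 2 * l) * (m - (l+1)).factorial *
    (m' - (l+1)).factorial * Zd 1 l (m - (l+1)) (m' - (l+1)) r with hκ
  have hA := h m m' (r + 1)
  simp only [ss] at hA
  rw [abel_sum (fun i => (m - i).factorial * (m' - i).factorial *
    Zd 0 i (m - i) (m' - i) (r + 1)) (eta (m + m'))] at hA
  have hk : ∀ l ∈ range (min m m'),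
      (((m - l).factorial * (m' - l).factorial * Zd 0 l (m - l) (m' - l) (r + 1) : ℚ) -
        (m - (l+1)).factorial * (m' - (l+1)).factorial *
          Zd 0 (l+1) (m - (l+1)) (m' - (l+1)) (r + 1)) • eta (m + m') l = κ l • eta (m + m') l := by
    intro l hl
    have hl' := mem_range.1 hl
    obtain ⟨a, rfl⟩ : ∃ a, m = l + 1 + a := ⟨m - (l + 1), by omega⟩
    obtain ⟨b, rfl⟩ : ∃ b, m' = l + 1 + b := ⟨m' - (l + 1), by omega⟩
    simp only [hκ, Nat.add_sub_cancel_left, show l + 1 + a - l = a + 1 by omega,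
      show l + 1 + b - l = b + 1 by omega]
    rw [Zd_step]
    congr 1
    push_cast
    ring
  rw [sum_congr rfl hk] at hA
  have hn : eta (m + m') (min m m') = hh m * hh m' := by
    rcases le_total m m' with h2 | h2
    · rw [min_eq_left h2, eta, Nat.add_sub_cancel_left]
    · rw [min_eq_right h2, eta, Nat.add_sub_cancel, mul_comm]
  rw [hn] at hA
  set c : ℚ := ((m - min m m').factorial * (m' - min m m').factorial *
    Zd 0 (min m m') (m - min m m') (m' - min m m') (r + 1) : ℚ) with hc
  have hE := congrArg eps hA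
  rw [hG, map_add, map_sum] at hE
  simp only [map_smul, eta, map_mul, he, smul_eq_mul] at hE
  have hc2 : c = -∑ l ∈ range (min m m'),
      κ l * ((m.factorial * m'.factorial : ℚ) / cN (m + m') l) := by
    have e : ∑ l ∈ range (min m m'), κ l * ((m.factorial * m'.factorial : ℚ) / cN (m + m') l)
        = (m.factorial * m'.factorial : ℚ) * ∑ l ∈ range (min m m'),
          κ l * ((l.factorial : ℚ)⁻¹ * ((m + m' - l).factorial : ℚ)⁻¹) := by
      rw [mul_sum]
      refine sum_congr rfl fun l _ => ?_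
      rw [cN, div_eq_mul_inv, mul_inv]; ring
    rw [e, eq_neg_of_add_eq_zero_left hE.symm]
    have := h1 m
    have := h1 m'
    field_simp
  rw [hA, hc2]
  change _ = ∑ l ∈ range (min m m'), κ l • et m m' l
  simp only [et, smul_sub, sum_sub_distrib, smul_smul, ← sum_smul]
  rw [neg_smul, sub_eq_add_neg]

/-- kill the variables with both indices positive -/
noncomputable def kill : La2 →ₐ[ℚ] La2 := aeval fun v => if v.1 = 0 ∨ v.2 = 0 then X v else 0

lemma kill_X (v : ℕ × ℕ) : kill (X v) = if v.1 = 0 ∨ v.2 = 0 then X v else 0 := aeval_X _ _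

lemma kill_iter (p : La2) (δ : Derivation ℚ La2 La2) (h : ∀ f, kill (δ f) = δ (kill f))
    (a : ℕ) {f : La2} (hf : kill f = 0) : kill ((Eop p δ)^[a] f) = 0 := by
  induction a with
  | zero => exact hf
  | succ a ih => rw [Function.iterate_succ_apply', Eop, map_add, map_mul, h, ih]; simp

lemma eps_GG (m m' r : ℕ) : eps (GG m m' (r + 1)) = 0 := by
  have h1 : ∀ f, kill (l1 f) = l1 (kill f) := hom_der kill l1 l1 fun ⟨i, j⟩ => by
    rcases i with _ | i <;> rcases j with _ | j <;> simp [l1, kill_X]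
  have h2 : ∀ f, kill (l2 f) = l2 (kill f) := hom_der kill l2 l2 fun ⟨i, j⟩ => by
    rcases i with _ | i <;> rcases j with _ | j <;> simp [l2, kill_X]
  have h3 : kill (i3 (hh (r + 1))) = 0 := by
    have := congrArg (fun f => kill (i3 f)) (hh_succ r)
    simp only [map_smul, map_sum, map_mul, i3, rename_X, kill_X] at this
    have h4 : (r : ℚ) + 1 ≠ 0 := by positivity
    simpa [h4, i3] using this
  have h5 : (eps.comp sp).comp kill = eps.comp sp := by
    ext ⟨i, j⟩ : 1
    rcases i with _ | i <;> rcases j with _ | j <;> simp [kill_X, sp, eps_X, ← add_assoc]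
  unfold GG
  split_ifs
  · have := DFunLike.congr_fun h5 (ff (m - (r + 1)) (m' - (r + 1)) (r + 1))
    simp only [AlgHom.comp_apply] at this
    rw [← this, ff, map_smul, kill_iter _ _ h1 _ (kill_iter _ _ h2 _ h3)]
    simp
  · simp

end H49

theorem C_C2b (h : St_C2a) : St_C2b := H49.main h eps_hh H49.eps_GG

end MJC
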