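import Pool.Agent.Lib.MP_9c49f6_co.CBlue

/-! Orthogonality of the vectors `(1-z)^i Z(a-i,b-i)` (step C3 of the first-order proof). -/

namespace MJC.O63
open Finset Polynomial Nat

/-- `Z_de(a,b) = ∑_c z^c / ((a-c)! (b-c)! c! (c+de)!)`. -/
noncomputable def Zp (de a b : ℕ) : ℚ[X] :=
  ∑ c ∈ range (min a b + 1), monomial c (1 / (((a - c)! * (b - c)! * c ! * (c + de)! : ℕ) : ℚ))

/-- the weight -/
def wt (de a b c : ℕ) : ℚ := (((a - c)! * (b - c)! * c ! * (c + de)! : ℕ) : ℚ)

/-- the form `⟨v,w⟩_(a,b)` -/
noncomputable def ip (de a b : ℕ) (v w : ℕ → ℚ) : ℚ :=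
  ∑ c ∈ range (min a b + 1), wt de a b c * v c * w c

/-- the lowering operator -/
def lap (de : ℕ) (a b : ℚ) (v : ℕ → ℚ) (c : ℕ) : ℚ :=
  (a + 1 - c) * (b + 1 - c) * v c - (c + 1) * (c + 1 + de) * v (c + 1)

/-- coefficients of `(1-z)^i Z(a,b)` -/
noncomputable def V (de i a b : ℕ) (c : ℕ) : ℚ := ((1 - X) ^ i * Zp de a b).coeff c

lemma coeff_Zp (de a b c : ℕ) :
    (Zp de a b).coeff c = if c ≤ min a b then 1 / wt de a b c else 0 := by
  simp only [Zp, finsetSum_coeff, coeff_monomial, sum_ite_eq', mem_range, Nat.lt_succ_iff, wt]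

lemma V_zero (de a b c : ℕ) : V de 0 a b c = if c ≤ min a b then 1 / wt de a b c else 0 := by
  rw [V, pow_zero, one_mul, coeff_Zp]

lemma V_succ_zero (de i a b : ℕ) : V de (i + 1) a b 0 = V de i a b 0 := by
  simp only [V, _root_.pow_succ', mul_assoc, sub_mul, one_mul, coeff_sub, coeff_X_mul_zero, sub_zero]

lemma V_succ_succ (de i a b c : ℕ) :
    V de (i + 1) a b (c + 1) = V de i a b (c + 1) - V de i a b c := by
  simp only [V, _root_.pow_succ', mul_assoc, sub_mul, one_mul, coeff_sub, coeff_X_mul]

lemma V_big (de i a b c : ℕ) (h : min a b + i < c) : V de i a b c = 0 := by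
  induction i generalizing c with
  | zero => rw [V_zero, if_neg (by omega)]
  | succ i ih =>
    obtain ⟨c, rfl⟩ : ∃ d, c = d + 1 := ⟨c - 1, by omega⟩
    rw [V_succ_succ, ih _ (by omega), ih _ (by omega), sub_zero]

lemma wt_pos (de a b c : ℕ) : 0 < wt de a b c := by
  unfold wt; positivity

lemma wt_up (de a b c : ℕ) (ha : c ≤ a) (hb : c ≤ b) :
    wt de (a + 1) (b + 1) c = ((a : ℚ) + 1 - c) * ((b : ℚ) + 1 - c) * wt de a b c := by
  unfold wt
  rw [Nat.sub_add_comm ha, Nat.sub_add_comm hb, factorial_succ, factorial_succ]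
  push_cast [Nat.cast_sub ha, Nat.cast_sub hb]; ring

lemma wt_diag (de a b c : ℕ) :
    wt de (a + 1) (b + 1) (c + 1) = ((c : ℚ) + 1) * ((c : ℚ) + 1 + de) * wt de a b c := by
  unfold wt
  rw [Nat.add_sub_add_right, Nat.add_sub_add_right, factorial_succ,
    show c + 1 + de = (c + de) + 1 by ring, factorial_succ]
  push_cast; ring

lemma wt_step (de a b c : ℕ) (ha : c < a) (hb : c < b) :
    ((a : ℚ) - c) * ((b : ℚ) - c) * wt de a b (c + 1) =
      ((c : ℚ) + 1) * ((c : ℚ) + 1 + de) * wt de a b c := by
  obtain ⟨a, rfl⟩ : ∃ d, a = d + 1 := ⟨a - 1, by omega⟩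
  obtain ⟨b, rfl⟩ : ∃ d, b = d + 1 := ⟨b - 1, by omega⟩
  rw [wt_diag, wt_up de a b c (by omega) (by omega)]; push_cast; ring

lemma lap_zero (de a b c : ℕ) : lap de ((a : ℚ) - 1) ((b : ℚ) - 1) (V de 0 a b) c = 0 := by
  unfold lap
  rw [V_zero, V_zero]
  by_cases h : c + 1 ≤ min a b
  · rw [if_pos h, if_pos (by omega)]
    have h1 := wt_step de a b c (by omega) (by omega)
    have h2 := (wt_pos de a b c).ne'
    have h3 := (wt_pos de a b (c + 1)).ne'
    field_simp
    linear_combination h1
  · rw [if_neg h]
    by_cases h' : c ≤ min a b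
    · have : c = a ∨ c = b := by omega
      rcases this with rfl | rfl <;> ring
    · rw [if_neg h']; ring

lemma lap_V (de i a b c : ℕ) :
    lap de ((a : ℚ) + i) ((b : ℚ) + i) (V de (i + 1) a b) c =
      ((i : ℚ) + 1) * ((a : ℚ) + b + de + i + 2) * V de i a b c := by
  induction i generalizing c with
  | zero =>
    rcases c with _ | c
    · have h := lap_zero de a b 0
      unfold lap at *
      rw [V_succ_succ, V_succ_zero]
      push_cast at *
      linear_combination h
    · have h := lap_zero de a b c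
      have h' := lap_zero de a b (c + 1)
      unfold lap at *
      rw [V_succ_succ, V_succ_succ]
      push_cast at *
      linear_combination h' - h
  | succ i ih =>
    rcases c with _ | c
    · have h := ih 0
      unfold lap at *
      rw [V_succ_succ de (i + 1), V_succ_zero de (i + 1)]
      have e := V_succ_zero de i a b
      push_cast at *
      linear_combination h - ((i : ℚ) + 1) * ((a : ℚ) + b + de + i + 2) * e
    · have h := ih c
      have h' := ih (c + 1)
      unfold lap at *
      rw [V_succ_succ de (i + 1), V_succ_succ de (i + 1)]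
      have e := V_succ_succ de i a b c
      push_cast at *
      linear_combination h' - h - ((i : ℚ) + 1) * ((a : ℚ) + b + de + i + 2) * e

lemma ip_symm (de a b : ℕ) (v w : ℕ → ℚ) : ip de a b v w = ip de a b w v :=
  sum_congr rfl fun c _ => by ring

lemma ip_adj (de A B i a b : ℕ) (h : min a b + i ≤ min A B) (w : ℕ → ℚ) :
    ip de (A + 1) (B + 1) (V de (i + 1) a b) w = ip de A B (V de i a b) (lap de A B w) := by
  unfold ip
  have hm : min (A + 1) (B + 1) = min A B + 1 := by omega
  have e1 : ∑ c ∈ range (min A B + 1 + 1), wt de (A + 1) (B + 1) c * V de (i + 1) a b c * w c =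
      ∑ c ∈ range (min A B + 1 + 1), wt de (A + 1) (B + 1) c * V de i a b c * w c -
      ∑ c ∈ range (min A B + 1), wt de (A + 1) (B + 1) (c + 1) * V de i a b c * w (c + 1) := by
    rw [sum_range_succ', sum_range_succ' (fun c => wt de (A + 1) (B + 1) c * V de i a b c * w c),
      V_succ_zero, add_sub_right_comm, ← sum_sub_distrib]
    refine congrArg₂ (· + ·) (sum_congr rfl fun c _ => ?_) rfl
    rw [V_succ_succ]; ring
  rw [hm, e1, sum_range_succ, V_big de i a b _ (by omega), mul_zero, zero_mul, add_zero,
    ← sum_sub_distrib]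
  refine sum_congr rfl fun c hc => ?_
  have hc' := mem_range.1 hc
  rw [wt_diag, wt_up de A B c (by omega) (by omega), lap]; ring

lemma ip_zero_zero (de a b : ℕ) : ip de a b (V de 0 a b) (V de 0 a b) =
    ((a + b + de).choose a : ℚ) / (((a + de)! * b ! : ℕ) : ℚ) := by
  have h1 : (a + b + de).choose a = ∑ c ∈ range (a + 1), b.choose c * (a + de).choose (a - c) := by
    rw [show a + b + de = b + (a + de) by ring, Nat.add_choose_eq,
      Finset.Nat.sum_antidiagonal_eq_sum_range_succ_mk]
  have h2 : ∑ c ∈ range (a + 1), b.choose c * (a + de).choose (a - c) =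
      ∑ c ∈ range (min a b + 1), b.choose c * (a + de).choose (a - c) := by
    symm
    refine sum_subset (range_subset_range.2 (by omega)) fun c hc hc' => ?_
    rw [mem_range] at hc hc'
    rw [Nat.choose_eq_zero_of_lt (by omega), zero_mul]
  rw [h1, h2, ip, Nat.cast_sum, sum_div]
  refine sum_congr rfl fun c hc => ?_
  have hc' := mem_range.1 hc
  rw [V_zero, if_pos (by omega)]
  have h3 := (wt_pos de a b c).ne'
  have e1 : ((b.choose c * c ! * (b - c)! : ℕ) : ℚ) = b ! := by
    rw [Nat.choose_mul_factorial_mul_factorial (by omega)]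
  have e2 : (((a + de).choose (a - c) * (a - c)! * (c + de)! : ℕ) : ℚ) = (a + de)! := by
    rw [show c + de = a + de - (a - c) by omega, Nat.choose_mul_factorial_mul_factorial (by omega)]
  have h4 : (((a + de)! * b ! : ℕ) : ℚ) ≠ 0 := by positivity
  rw [mul_one_div_cancel h3, one_mul, div_eq_div_iff h3 h4, wt]
  push_cast at *
  rw [← e1, ← e2]; ring

/-- squared norm of `(1-z)^i Z(a,b)` at level `(a+i,b+i)` -/
noncomputable def nrm (de i a b : ℕ) : ℚ :=
  ((i ! * (a + b + de + i + 1)! : ℕ) : ℚ) / ((a + b + de + 1)! : ℕ) *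
    (((a + b + de).choose a : ℚ) / (((a + de)! * b ! : ℕ) : ℚ))

theorem orth (de i j a b a' b' : ℕ) (ha : a + i = a' + j) (hb : b + i = b' + j) :
    ip de (a + i) (b + i) (V de i a b) (V de j a' b') = if i = j then nrm de i a b else 0 := by
  have hz : ∀ i a b : ℕ, ip de (a + (i + 1)) (b + (i + 1)) (V de (i + 1) a b)
      (V de 0 (a + (i + 1)) (b + (i + 1))) = 0 := by
    intro i a b
    rw [← add_assoc, ← add_assoc, ip_adj de _ _ i a b (by omega)]
    refine sum_eq_zero fun c _ => ?_
    have h := lap_zero de (a + i + 1) (b + i + 1) c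
    push_cast at h ⊢
    rw [add_sub_cancel_right, add_sub_cancel_right] at h
    rw [h, mul_zero]
  induction i generalizing j with
  | zero =>
    rcases j with _ | j
    · obtain rfl : a = a' := by omega
      obtain rfl : b = b' := by omega
      rw [if_pos rfl, add_zero, add_zero, ip_zero_zero, nrm, add_zero, factorial_zero, one_mul,
        div_self (by positivity), one_mul]
    · rw [if_neg (by omega), ip_symm, add_zero, add_zero]
      rw [add_zero] at ha hb
      subst ha hb
      exact hz j a' b'
  | succ i ih =>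
    rcases j with _ | j
    · rw [if_neg (by omega)]
      rw [add_zero] at ha hb
      subst ha hb
      exact hz i a b
    · rw [← add_assoc, ← add_assoc, ip_adj de _ _ i a b (by omega)]
      have e : ip de (a + i) (b + i) (V de i a b)
          (lap de ((a + i : ℕ) : ℚ) ((b + i : ℕ) : ℚ) (V de (j + 1) a' b')) =
          ((j : ℚ) + 1) * ((a' : ℚ) + b' + de + j + 2) *
            ip de (a + i) (b + i) (V de i a b) (V de j a' b') := by
        unfold ip
        rw [mul_sum]
        refine sum_congr rfl fun c _ => ?_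
        have h := lap_V de j a' b' c
        rw [show a + i = a' + j by omega, show b + i = b' + j by omega]
        push_cast
        rw [h]; ring
      rw [e, ih j (by omega) (by omega)]
      by_cases hij : i = j
      · subst hij
        obtain rfl : a = a' := by omega
        obtain rfl : b = b' := by omega
        rw [if_pos rfl, if_pos rfl, nrm, nrm, factorial_succ i,
          show a + b + de + (i + 1) + 1 = (a + b + de + i + 1) + 1 by ring,
          factorial_succ (a + b + de + i + 1)]
        push_cast; ring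
      · rw [if_neg hij, if_neg (by omega), mul_zero]

lemma V_eq (de i a b c : ℕ) : Zd de i a b c = V de i a b c := by
  unfold Zd V Zs Zp
  simp only [one_div, Nat.cast_mul]

end MJC.O63

namespace MJC
open Finset O63

theorem C_C3 : St_C3 := by
  intro δ m m' i i' hi hi'
  obtain ⟨a, ha⟩ : ∃ a, m = a + i := ⟨m - i, by omega⟩
  obtain ⟨b, hb⟩ : ∃ b, m' = b + i := ⟨m' - i, by omega⟩
  have h := orth δ i i' a b (m - i') (m' - i') (by omega) (by omega)
  rw [← ha, ← hb] at h
  have e1 : m - i = a := by omega
  have e2 : m' - i = b := by omega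
  rw [e1, e2]
  refine Eq.trans (sum_congr rfl fun c _ => ?_) (h.trans ?_)
  · rw [V_eq, V_eq, O63.wt]; push_cast; ring
  · split_ifs with hii
    · have e3 : m + m' + δ + 1 - i = a + b + δ + i + 1 := by omega
      have e4 : (m : ℚ) + m' + δ + 1 - 2 * i = (a + b + δ : ℕ) + 1 := by
        rw [ha, hb]; push_cast; ring
      have e5 : (((a + b + δ).choose a * a.factorial * (b + δ).factorial : ℕ) : ℚ) =
          (a + b + δ).factorial := by
        rw [show b + δ = a + b + δ - a by omega,
          Nat.choose_mul_factorial_mul_factorial (by omega)]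
      rw [e3, e4, nrm, Nat.factorial_succ (a + b + δ)]
      push_cast at e5 ⊢
      rw [← e5]
      have h1 : ((a + b + δ).choose a : ℚ) ≠ 0 := by
        exact_mod_cast (Nat.choose_pos (by omega)).ne'
      field_simp
    · rfl

end MJC
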