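import Pool.Agent.Lib.MP_9c49f6_co.CBlue

/-! Row C4: the refined kernel specialises to `BB`. -/

namespace MJC
open MJ Finset MvPolynomial

lemma C4.tn_sum {σ : Type} (s : Finset ℕ) (a : ℕ → ℚ) (f : ℕ → MvPolynomial σ ℚ) :
    tn (∑ l ∈ s, a l • f l) (∑ l ∈ s, a l • f l) =
      ∑ l ∈ s, ∑ l' ∈ s, (a l * a l') • tn (f l) (f l') := by
  simp only [tn, map_sum, map_smul, sum_mul_sum, smul_mul_smul_comm]

lemma C4.num (l p q : ℕ) :
    ((((l + p + 1 : ℕ) : ℚ) + (l + q + 1 : ℕ) - 2 * l) * p.factorial * q.factorial) *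
      ((((l + p + 1 : ℕ) : ℚ) + (l + q + 1 : ℕ) - 2 * l) * p.factorial * q.factorial) *
      ((l.factorial * (l + p + q + 2).factorial : ℚ) /
        ((((l + p : ℕ) : ℚ) + (l + q : ℕ) + (1 : ℕ) + 1 - 2 * l) * p.factorial * q.factorial *
          (p + 1).factorial * (q + 1).factorial)) =
      ((((l + p + 1 : ℕ) : ℚ) - l)⁻¹ + (((l + q + 1 : ℕ) : ℚ) - l)⁻¹) *
        (l.factorial * (l + p + q + 2).factorial) := by
  have e1 : ((l + p + 1 : ℕ) : ℚ) + (l + q + 1 : ℕ) - 2 * l = p + q + 2 := by push_cast; ring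
  have e2 : ((l + p : ℕ) : ℚ) + (l + q : ℕ) + (1 : ℕ) + 1 - 2 * l = p + q + 2 := by
    push_cast; ring
  have e3 : ((l + p + 1 : ℕ) : ℚ) - l = p + 1 := by push_cast; ring
  have e4 : ((l + q + 1 : ℕ) : ℚ) - l = q + 1 := by push_cast; ring
  rw [e1, e2, e3, e4, Nat.factorial_succ p, Nat.factorial_succ q]
  have h1 : (p.factorial : ℚ) ≠ 0 := by positivity
  have h2 : (q.factorial : ℚ) ≠ 0 := by positivity
  have h3 : (p : ℚ) + 1 ≠ 0 := by positivity
  have h4 : (q : ℚ) + 1 ≠ 0 := by positivity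
  have h5 : (p : ℚ) + q + 2 ≠ 0 := by positivity
  push_cast
  field_simp
  ring

theorem C_C4 (h2 : St_C2b) (h3 : St_C3) : St_C4 := by
  intro m m'
  rcases m with _ | a
  · simp [Bref, BB]
  rcases m' with _ | b
  · simp [Bref, BB]
  have hmin : min (a + 1) (b + 1) = min a b + 1 := by omega
  have e1 : ∀ r ∈ range (min (a + 1) (b + 1)),
      sp (ff (a + 1 - (r + 1)) (b + 1 - (r + 1)) (r + 1)) = GG (a + 1) (b + 1) (r + 1) := by
    intro r hr
    rw [GG, if_pos (Nat.succ_le_of_lt (mem_range.1 hr))]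
  unfold Bref BB
  rw [map_sum]
  simp only [map_smul, two_tn]
  rw [sum_congr rfl fun r hr => by rw [e1 r hr, h2, C4.tn_sum, smul_sum]]
  rw [sum_comm]
  refine sum_congr rfl fun l hl => ?_
  simp only [smul_sum, smul_smul]
  rw [sum_comm]
  simp only [← sum_smul]
  have hl' : l ≤ min a b := by rw [hmin] at hl; exact Nat.le_of_lt_succ (mem_range.1 hl)
  have key : ∀ l' ∈ range (min (a + 1) (b + 1)), ∀ A A' : ℚ,
      ∑ r ∈ range (min (a + 1) (b + 1)),
        ((r + 1).factorial * r.factorial * (a + 1 - (r + 1)).factorial *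
          (b + 1 - (r + 1)).factorial : ℚ) *
        (A * Zd 1 l (a + 1 - (l + 1)) (b + 1 - (l + 1)) r *
          (A' * Zd 1 l' (a + 1 - (l' + 1)) (b + 1 - (l' + 1)) r)) =
      A * A' * (if l = l' then (l.factorial * (a + b + 1 + 1 - l).factorial : ℚ) /
      (((a : ℚ) + b + (1 : ℕ) + 1 - 2 * l) * (a - l).factorial * (b - l).factorial *
        (a - l + 1).factorial * (b - l + 1).factorial) else 0) := by
    intro l' hl2 A A'
    have hl3 : l' ≤ min a b := by rw [hmin] at hl2; exact Nat.le_of_lt_succ (mem_range.1 hl2)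
    rw [← h3 1 a b l l' hl' hl3, hmin, mul_sum]
    refine sum_congr rfl fun r _ => ?_
    simp only [Nat.add_sub_add_right]
    ring
  rw [sum_congr rfl fun l' hl2 => by rw [key l' hl2]]
  rw [sum_eq_single l]
  · rw [if_pos rfl]
    congr 1
    obtain ⟨p, rfl⟩ := Nat.exists_eq_add_of_le (hl'.trans (min_le_left _ _))
    obtain ⟨q, hq⟩ := Nat.exists_eq_add_of_le (hl'.trans (min_le_right _ _))
    subst hq
    have f1 : l + p + 1 - (l + 1) = p := by omega
    have f2 : l + q + 1 - (l + 1) = q := by omega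
    have f3 : l + p - l = p := by omega
    have f4 : l + q - l = q := by omega
    have f5 : l + p + (l + q) + 1 + 1 - l = l + p + q + 2 := by omega
    have f6 : l + p + 1 + (l + q + 1) - l = l + p + q + 2 := by omega
    rw [wl, cN, f1, f2, f3, f4, f5, f6]
    exact C4.num l p q
  · intro l' _ hne
    rw [if_neg (Ne.symm hne), mul_zero, zero_smul]
  · intro h; exact absurd hl h

end MJC
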