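import Pool.Agent.Lib.MP_9c49f6_co.CBlue

/-! Row C5: the sum of the two-row squares over `m + m' = N + 1`. -/

namespace MJC
open MJ Finset MvPolynomial

namespace C5

lemma tn_sum_left {ι : Type} (s : Finset ι) (f : ι → La) (g : La) :
    tn (∑ i ∈ s, f i) g = ∑ i ∈ s, tn (f i) g := by
  simp only [tn, map_sum, sum_mul]

lemma tn_sum_right {ι : Type} (s : Finset ι) (f : La) (g : ι → La) :
    tn f (∑ i ∈ s, g i) = ∑ i ∈ s, tn f (g i) := by
  simp only [tn, map_sum, mul_sum]

lemma tn_sub_sub (a b : La) : tn (a - b) (a - b) = tn a a + tn b b - tn a b - tn b a := by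
  simp only [tn, map_sub]; ring

lemma E_hh (m : ℕ) : Eop (X 0) Li (hh m) = ((m : ℚ) + 1) • hh (m+1) := by
  have hH : ∀ n, PowerSeries.coeff n (Ex ℚ fun k => (X k : La)) = hh n := fun n => Ex_coeff _ _
  have h1 : ds (Ex ℚ fun k => (X k : La)) =
      (PowerSeries.mk fun k => (X k : La)) * Ex ℚ fun k => (X k : La) := Ex_deriv _
  have h2 : ds (PowerSeries.mk fun k => (X k : La)) = dm Li (PowerSeries.mk fun k => (X k : La)) := by
    ext n : 1
    rw [coeff_ds, coeff_dm, PowerSeries.coeff_mk, PowerSeries.coeff_mk, Li, mkDerivation_X]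
  generalize (Ex ℚ fun k => (X k : La)) = H at hH h1
  have h0 : PowerSeries.coeff 0 (PowerSeries.mk fun k => (X k : La)) = X 0 := PowerSeries.coeff_mk _ _
  generalize (PowerSeries.mk fun k => (X k : La)) = P at h0 h1 h2
  have hz : P * H - Eop (PowerSeries.C (X 0)) (dm Li) H = 0 := by
    refine ode_mul P ?_ ?_
    · rw [map_sub, coeff_Eop, PowerSeries.coeff_mul, hH]
      simp [h0, hH, Eop, hh]
    · simp only [Eop, map_sub, map_add, Derivation.leibniz, ds_dm, h1, h2, ds_C, smul_eq_mul]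
      ring
  have := congrArg (PowerSeries.coeff m) hz
  rw [map_sub, ← h1, coeff_ds, coeff_Eop, hH, hH, map_zero, sub_eq_zero] at this
  exact this.symm

lemma Zd_zero (i a b : ℕ) : Zd 0 i a b 0 = ((a.factorial * b.factorial : ℚ))⁻¹ := by
  rw [Zd, Polynomial.mul_coeff_zero, Zs, Polynomial.finsetSum_coeff, sum_range_succ']
  simp [Polynomial.coeff_zero_eq_eval_zero]

lemma sum_ss (n k : ℕ) : ∑ i ∈ range (k + 1), ss n i = eta n k := by
  induction k with
  | zero => simp [ss]
  | succ k ih => rw [sum_range_succ, ih]; simp [ss]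

lemma GG_zero (h : St_C2a) (m m' : ℕ) : GG m m' 0 = hh m * hh m' := by
  rw [h, sum_congr rfl (g := fun i => ss (m + m') i), sum_ss, eta]
  · rcases le_total m m' with h1 | h1
    · rw [min_eq_left h1, Nat.add_sub_cancel_left]
    · rw [min_eq_right h1, Nat.add_sub_cancel, mul_comm]
  · intro i _
    rw [Zd_zero, mul_inv_cancel₀ (by positivity), one_smul]

/-- orthogonality turns the full sum of squares into a sum over the `s_i` -/
lemma full (h2 : St_C2a) (h3 : St_C3) (m m' : ℕ) :
    ∑ c ∈ range (min m m' + 1),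
      ((m - c).factorial * (m' - c).factorial * c.factorial * c.factorial : ℚ) •
        tn (GG m m' c) (GG m m' c) =
    ∑ i ∈ range (min m m' + 1), ((i.factorial * (m + m' + 1 - i).factorial : ℚ) /
      ((m : ℚ) + m' + 1 - 2 * i)) • tn (ss (m + m') i) (ss (m + m') i) := by
  simp only [h2 m m', tn_sum_left, tn_sum_right, tn_smul_left, tn_smul_right, smul_sum, smul_smul]
  rw [sum_comm]
  refine sum_congr rfl fun i hi => ?_
  rw [sum_comm, sum_eq_single i]
  · rw [← sum_smul]
    congr 1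
    have := h3 0 m m' i i (by simpa [Nat.lt_succ_iff] using hi) (by simpa [Nat.lt_succ_iff] using hi)
    simp only [add_zero, if_true, Nat.cast_zero] at this
    have e : ∀ c, ((m - c).factorial * (m' - c).factorial * c.factorial * c.factorial : ℚ) *
        (((m - i).factorial * (m' - i).factorial * Zd 0 i (m - i) (m' - i) c) *
          ((m - i).factorial * (m' - i).factorial * Zd 0 i (m - i) (m' - i) c)) =
        (((m - i).factorial * (m' - i).factorial : ℚ) ^ 2) *
          (((m - c).factorial * (m' - c).factorial * c.factorial * c.factorial : ℚ) *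
            (Zd 0 i (m - i) (m' - i) c * Zd 0 i (m - i) (m' - i) c)) := fun c => by ring
    simp only [e]
    rw [← mul_sum, this]
    have a1 : ((m - i).factorial : ℚ) ≠ 0 := by positivity
    have a2 : ((m' - i).factorial : ℚ) ≠ 0 := by positivity
    by_cases a3 : (m : ℚ) + m' + 1 - 2 * i = 0
    · simp [a3]
    · field_simp
  · intro j hj hne
    rw [← sum_smul]
    have := h3 0 m m' i j (by simpa [Nat.lt_succ_iff] using hi) (by simpa [Nat.lt_succ_iff] using hj)
    simp only [add_zero, if_neg hne.symm] at this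
    have e : ∀ c, ((m - c).factorial * (m' - c).factorial * c.factorial * c.factorial : ℚ) *
        (((m - i).factorial * (m' - i).factorial * Zd 0 i (m - i) (m' - i) c) *
          ((m - j).factorial * (m' - j).factorial * Zd 0 j (m - j) (m' - j) c)) =
        (((m - i).factorial * (m' - i).factorial * ((m - j).factorial * (m' - j).factorial) : ℚ)) *
          (((m - c).factorial * (m' - c).factorial * c.factorial * c.factorial : ℚ) *
            (Zd 0 i (m - i) (m' - i) c * Zd 0 j (m - j) (m' - j) c)) := fun c => by ring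
    simp only [e]
    rw [← mul_sum, this, mul_zero, zero_smul]
  · intro h; exact absurd hi h

lemma two_W (h2 : St_C2a) (h3 : St_C3) (m m' : ℕ) : two sp (Wref m m') =
    ∑ i ∈ range (min m m' + 1), ((i.factorial * (m + m' + 1 - i).factorial : ℚ) /
      ((m : ℚ) + m' + 1 - 2 * i)) • tn (ss (m + m') i) (ss (m + m') i) -
      (m.factorial * m'.factorial : ℚ) • tn (hh m * hh m') (hh m * hh m') := by
  rw [← full h2 h3, sum_range_succ', GG_zero h2, Wref, map_sum]
  simp only [Nat.sub_zero, Nat.factorial_zero, Nat.cast_one, mul_one, add_sub_cancel_right]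
  refine sum_congr rfl fun r hr => ?_
  rw [map_smul, two_tn, GG, if_pos (by simpa using hr)]
  congr 1; ring

lemma count {M : Type} [AddCommMonoid M] (T : ℕ → M) (n : ℕ) :
    ∑ p ∈ antidiagonal n, ∑ i ∈ range (min p.1 p.2 + 1), T i =
      ∑ q ∈ antidiagonal (n+1), (q.2 - q.1) • T q.1 := by
  have e : ∀ p ∈ antidiagonal n, ∑ i ∈ range (min p.1 p.2 + 1), T i =
      ∑ i ∈ range (n + 2), if i ≤ min p.1 p.2 then T i else 0 := fun p hp => by
    have := mem_antidiagonal.mp hp
    rw [← sum_filter]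
    congr 1; ext i; simp only [mem_range, mem_filter]; omega
  rw [sum_congr rfl e, sum_comm, Finset.Nat.sum_antidiagonal_eq_sum_range_succ_mk]
  refine sum_congr rfl fun i hi => ?_
  rw [Finset.Nat.sum_antidiagonal_eq_sum_range_succ_mk, ← sum_filter, sum_const]
  congr 1
  have : filter (fun k => i ≤ min k (n - k)) (range n.succ) = Ico i (n + 1 - i) := by
    ext k; simp only [mem_range, mem_filter, mem_Ico]; omega
  rw [this, Nat.card_Ico]

/-- `η_i` on the antidiagonal of `n + 1` -/
noncomputable def uq (i j : ℕ) : La := if j = 0 then 0 else hh i * hh (j - 1)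

noncomputable def Fq (q : ℕ × ℕ) : R2 := (q.1.factorial * q.2.factorial : ℚ) •
  tn (uq q.1 q.2 - uq q.2 q.1) (uq q.1 q.2 - uq q.2 q.1)

lemma Fq_swap (q : ℕ × ℕ) : Fq q.swap = Fq q := by
  simp only [Fq, tn_sub_sub, Prod.fst_swap, Prod.snd_swap, mul_comm (q.2.factorial : ℚ)]
  congr 1; ring

lemma half (n : ℕ) : (2 : ℚ) • ∑ q ∈ antidiagonal n, (if q.1 < q.2 then Fq q else 0) =
    ∑ q ∈ antidiagonal n, Fq q := by
  rw [two_smul]
  nth_rewrite 2 [← Finset.Nat.sum_antidiagonal_swap]
  rw [← sum_add_distrib]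
  refine sum_congr rfl fun q _ => ?_
  simp only [Prod.fst_swap, Prod.snd_swap, Fq_swap]
  rcases lt_trichotomy q.1 q.2 with h | h | h
  · rw [if_pos h, if_neg h.not_gt, add_zero]
  · simp [h, Fq, tn]
  · rw [if_pos h, if_neg h.not_gt, zero_add]

lemma term (n : ℕ) (q : ℕ × ℕ) (hq : q ∈ antidiagonal (n+1)) :
    (q.2 - q.1) • ((q.1.factorial * (n + 1 - q.1).factorial : ℚ) / ((n : ℚ) + 1 - 2 * q.1)) •
      tn (ss n q.1) (ss n q.1) = if q.1 < q.2 then Fq q else 0 := by
  obtain ⟨i, j⟩ := q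
  have h : i + j = n + 1 := mem_antidiagonal.mp hq
  simp only
  split_ifs with h1
  · have e1 : n + 1 - i = j := by omega
    have e2 : ss n i = uq i j - uq j i := by
      rw [ss, uq, uq, if_neg (by omega : ¬ j = 0), eta, show n - i = j - 1 by omega]
      split_ifs with h2
      · rfl
      · rw [eta, show n - (i - 1) = j by omega, mul_comm (hh j)]
    have e3 : ((n : ℚ) + 1 - 2 * i) = ((j - i : ℕ) : ℚ) := by
      rw [Nat.cast_sub h1.le]
      have : (i : ℚ) + j = n + 1 := by exact_mod_cast h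
      linarith
    have e4 : ((j - i : ℕ) : ℚ) ≠ 0 := by
      have : j - i ≠ 0 := by omega
      exact_mod_cast this
    rw [e1, e2, e3, ← Nat.cast_smul_eq_nsmul ℚ, smul_smul, mul_div_cancel₀ _ e4, Fq]
  · rw [show j - i = 0 by omega, zero_smul]

lemma sum_Fq (N : ℕ) : ∑ q ∈ antidiagonal (N+1+1), Fq q = (2 : ℚ) •
    (∑ p ∈ antidiagonal (N+1), (p.1.factorial * p.2.factorial : ℚ) •
        tn (hh p.1 * hh p.2) (hh p.1 * hh p.2) +
      ∑ p ∈ antidiagonal N, (p.1.factorial * (p.2+1).factorial * ((p.2 : ℚ) + 1)) •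
        tn (hh p.1 * hh (p.2+1)) (hh p.1 * hh (p.2+1)) -
      ∑ p ∈ antidiagonal N, ((p.1+1).factorial * (p.2+1).factorial : ℚ) •
        tn (hh (p.1+1) * hh p.2) (hh p.1 * hh (p.2+1))) := by
  have a : ∑ q ∈ antidiagonal (N+1+1), (q.1.factorial * q.2.factorial : ℚ) •
      tn (uq q.1 q.2) (uq q.1 q.2) =
      ∑ p ∈ antidiagonal (N+1), (p.1.factorial * p.2.factorial : ℚ) •
        tn (hh p.1 * hh p.2) (hh p.1 * hh p.2) +
      ∑ p ∈ antidiagonal N, (p.1.factorial * (p.2+1).factorial * ((p.2 : ℚ) + 1)) •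
        tn (hh p.1 * hh (p.2+1)) (hh p.1 * hh (p.2+1)) := by
    have a1 : ∑ p ∈ antidiagonal N, (p.1.factorial * (p.2+1).factorial * ((p.2 : ℚ) + 1)) •
        tn (hh p.1 * hh (p.2+1)) (hh p.1 * hh (p.2+1)) =
        ∑ p ∈ antidiagonal (N+1), (p.1.factorial * p.2.factorial * (p.2 : ℚ)) •
          tn (hh p.1 * hh p.2) (hh p.1 * hh p.2) := by
      rw [Finset.Nat.sum_antidiagonal_succ']; simp
    rw [a1, ← sum_add_distrib, Finset.Nat.sum_antidiagonal_succ']
    simp only [uq, if_true, tn, map_zero, mul_zero, smul_zero, zero_add, Nat.add_one_ne_zero,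
      if_false, Nat.add_sub_cancel]
    refine sum_congr rfl fun p _ => ?_
    rw [← add_smul]; congr 1
    rw [Nat.factorial_succ]; push_cast; ring
  have b : ∑ q ∈ antidiagonal (N+1+1), (q.1.factorial * q.2.factorial : ℚ) •
      tn (uq q.1 q.2) (uq q.2 q.1) =
      ∑ p ∈ antidiagonal N, ((p.1+1).factorial * (p.2+1).factorial : ℚ) •
        tn (hh (p.1+1) * hh p.2) (hh p.1 * hh (p.2+1)) := by
    rw [Finset.Nat.sum_antidiagonal_succ', Finset.Nat.sum_antidiagonal_succ]
    simp only [uq, if_true, tn, map_zero, mul_zero, zero_mul, smul_zero, zero_add,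
      Nat.add_one_ne_zero, if_false, Nat.add_sub_cancel, mul_comm (hh (_ + 1)) (hh _)]
  have a' := a
  have b' := b
  rw [← Finset.Nat.sum_antidiagonal_swap] at a' b'
  simp only [Prod.fst_swap, Prod.snd_swap, mul_comm (Nat.factorial (Prod.snd _) : ℚ)] at a' b'
  simp only [Fq, tn_sub_sub, smul_sub, smul_add, sum_sub_distrib, sum_add_distrib, a, a', b, b',
    two_smul]
  abel

lemma Eop_smul {A : Type} [CommRing A] [Algebra ℚ A] (p : A) (Y : Derivation ℚ A A) (c : ℚ) (f : A) :
    Eop p Y (c • f) = c • Eop p Y f := by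
  simp [Eop]

lemma co_MM (m : ℕ) : PowerSeries.coeff m MM = (m.factorial : ℚ) • tn (hh m) (hh m) :=
  PowerSeries.coeff_mk _ _

lemma co_t (m : ℕ) : PowerSeries.coeff m (ES true MM) =
    ((m+1).factorial : ℚ) • tn (hh (m+1)) (hh m) := by
  rw [ES, LS, coeff_Eop, co_MM, Eop_smul, Eop_tn_true, E_hh, tn_smul_left, smul_smul,
    Nat.factorial_succ]
  congr 1; push_cast; ring

lemma co_f (m : ℕ) : PowerSeries.coeff m (ES false MM) =
    ((m+1).factorial : ℚ) • tn (hh m) (hh (m+1)) := by
  rw [ES, LS, coeff_Eop, co_MM, Eop_smul, Eop_tn_false, E_hh, tn_smul_right, smul_smul,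
    Nat.factorial_succ]
  congr 1; push_cast; ring

lemma co_tf (m : ℕ) : PowerSeries.coeff m (ES true (ES false MM)) =
    ((m+1).factorial * ((m : ℚ) + 1)) • tn (hh (m+1)) (hh (m+1)) := by
  rw [ES, LS, coeff_Eop, co_f, Eop_smul, Eop_tn_true, E_hh, tn_smul_left, smul_smul]

end C5

open C5 in
theorem C_C5 (h2 : St_C2a) (h3 : St_C3) : St_C5 := by
  intro N
  have e : ∀ p ∈ antidiagonal (N+1), two sp (Wref p.1 p.2) =
      ∑ i ∈ range (min p.1 p.2 + 1), ((i.factorial * (N + 1 + 1 - i).factorial : ℚ) /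
        (((N + 1 : ℕ) : ℚ) + 1 - 2 * i)) • tn (ss (N + 1) i) (ss (N + 1) i) -
      (p.1.factorial * p.2.factorial : ℚ) • tn (hh p.1 * hh p.2) (hh p.1 * hh p.2) := by
    intro p hp
    rw [two_W h2 h3, ← Nat.cast_add, mem_antidiagonal.mp hp]
  have h := (half (N+1+1)).trans (sum_Fq N)
  have h' := smul_right_injective R2 (two_ne_zero (α := ℚ)) h
  rw [sum_congr rfl e, sum_sub_distrib, count, sum_congr rfl (term (N+1)), h', map_sub,
    PowerSeries.coeff_mul, PowerSeries.coeff_mul]
  simp only [co_MM, co_t, co_f, co_tf, smul_mul_smul_comm, ← tn_mul, mul_assoc]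
  abel

end MJC
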