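import Pool.Agent.Lib.MP_9c49f6_co.CBlue

/-! Row `C_CAU`: the monomial coefficient of `m_κ` is the Hall product with `h_κ`. -/

namespace MJC
open MJ Finset MvPolynomial

namespace M50
variable {F : Type} [Field F] [CharZero F]

/-- the complete homogeneous function over `F` -/
noncomputable def HF (F : Type) [Field F] (r : ℕ) : Lam F := ex F (fun k => (X k : Lam F)) r

lemma ip_HF (r : ℕ) : ∀ f h : Lam F,
    ip (0 : F) 0 (HF F r * f) h = ip (0 : F) 0 f (Sh (c1 F) r h) := by
  induction r using Nat.strong_induction_on with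
  | _ r ih =>
    intro f h
    cases r with
    | zero => simp [HF]
    | succ r =>
      have hr : ((r : F) + 1) ≠ 0 := by exact_mod_cast Nat.succ_ne_zero r
      apply mul_left_cancel₀ hr
      have h1 := ex_succ (F := F) (fun k => (X k : Lam F)) r
      have h2 := Sh_chain (c1 F) (r+1) h (r+1 : ℕ) le_rfl
      push_cast at h2
      have a1 : ∀ (a : F) f g, a * ip (0 : F) 0 f g = ip (0 : F) 0 (a • f) g := by simp
      have a2 : ∀ (a : F) f g, a * ip (0 : F) 0 f g = ip (0 : F) 0 f (a • g) := by simp
      rw [a1, a2, ← smul_mul_assoc, HF, h1]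
      push_cast
      rw [h2, sum_mul, map_sum, map_sum, LinearMap.sum_apply]
      refine sum_congr rfl fun k hk => ?_
      have hk' : k ≤ r := by simpa [Nat.lt_succ_iff] using hk
      have e : (r : ℤ) + 1 - (k + 1) = (r - k : ℕ) := by omega
      have h3 := ih (r - k) (by omega) f (pderiv k h)
      rw [HF] at h3
      rw [mul_assoc, ip_X, h3, e, map_smul]
      simp [c1]

lemma cf_eq (L : List ℕ) : ∀ g : Lam F, cf L g = ip (0 : F) 0 (L.map (HF F)).prod g := by
  induction L with
  | nil =>
    intro g
    have h : (1 : Lam F) = monomial 0 1 := rfl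
    rw [List.map_nil, List.prod_nil, h, ip_monomial, cf_nil]
    simp [zd, zn, pw, constantCoeff_eq]
  | cons k L ih => intro g; rw [cf_cons, ih, List.map_cons, List.prod_cons, ip_HF]

lemma map_hh (m : ℕ) : MvPolynomial.map (algebraMap ℚ F) (hh m) = HF F m := by
  induction m using Nat.strong_induction_on with
  | _ m ih =>
    cases m with
    | zero => simp [hh, HF]
    | succ m =>
      rw [hh, HF, ex_succ', ex_succ', smul_eq_C_mul, smul_eq_C_mul, map_mul, map_C, map_sum]
      congr 1
      · simp
      · refine sum_congr rfl fun k _ => ?_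
        have h3 := ih (m - k) (by omega)
        rw [hh, HF] at h3
        rw [map_mul, map_X, h3]

lemma map_hl (L : List ℕ) : MvPolynomial.map (algebraMap ℚ F) (hl L) = (L.map (HF F)).prod := by
  rw [hl, map_list_prod, List.map_map]
  congr 1
  exact List.map_congr_left fun m _ => map_hh m

lemma zd_zero {n : ℕ} (μ : n.Partition) : zd (0 : F) 0 (dOf μ) = zz μ := by
  rw [zd, zn_dOf]
  simp [pw, Finsupp.prod]

end M50

open M50 in
theorem C_CAU : St_CAU := by
  intro F _ _ n a κ
  rw [coeff_sym, cf_eq, ip_symm, Th_apply, map_sum, LinearMap.sum_apply]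
  refine sum_congr rfl fun μ _ => ?_
  rw [ip_monomial, zd_zero, ← map_hl, coeff_map, co]
  simp

end MJC
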