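import Pool.Agent.Lib.MP_9c49f6_co.CF

/-! Block D: the refined quotient `Cref` has non-negative coefficients and specialises to `CC`. -/

namespace MJC
open MJ Finset

namespace D36

section gen
variable {B : Type} [CommRing B] [Algebra ℚ B]

lemma map_dm (φ : R2 →+* B) (δ : Derivation ℚ R2 R2) (ε : Derivation ℚ B B)
    (h : ∀ f, φ (δ f) = ε (φ f)) (f : PowerSeries R2) :
    PowerSeries.map φ (dm δ f) = dm ε (PowerSeries.map φ f) := by
  ext1 n; simp [h]

lemma map_ES (φ : R2 →+* B) (b : Bool) (ε : Derivation ℚ B B)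
    (h : ∀ f, φ (lf b Li f) = ε (φ f)) (f : PowerSeries R2) :
    PowerSeries.map φ (ES b f) =
      Eop (PowerSeries.C (φ (em b (MvPolynomial.X 0)))) (dm ε) (PowerSeries.map φ f) := by
  rw [ES, Eop, Eop, map_add, map_mul, PowerSeries.map_C, LS, map_dm φ _ ε h]

lemma coeff_zero_Mi (hK : St_K) : PowerSeries.coeff 0 Mi = 1 := by
  have h := congrArg (PowerSeries.coeff 0) hK.1
  rw [PowerSeries.coeff_mul] at h
  simpa [MM, tn] using h

/-- the quotient by `M` of a solution of the insertion equation is positive -/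
lemma quot_pos (hK : St_K) {P : Subsemiring B} (hP : IsCone P) (φ : R2 →+* B)
    (hφ : ∀ f ∈ Pos (Bool × ℕ), φ f ∈ P) (Y : Bool → Derivation ℚ B B)
    (hY : ∀ b f, φ (lf b Li f) = Y b (φ f)) (hYP : ∀ b, ∀ a ∈ P, Y b a ∈ P)
    {E : PowerSeries B}
    (hE : ds E = Eop (PowerSeries.C (φ (em true (MvPolynomial.X 0)))) (dm (Y true))
      (Eop (PowerSeries.C (φ (em false (MvPolynomial.X 0)))) (dm (Y false)) E))
    (h0 : PowerSeries.coeff 0 E ∈ P) : PowerSeries.map φ Mi * E ∈ PS P := by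
  obtain ⟨h1, -, -, h4, h5, -, -, h8⟩ := id hK
  have e1 : PowerSeries.map φ MM * PowerSeries.map φ Mi = 1 := by rw [← map_mul, h1, map_one]
  have e4 := congrArg (PowerSeries.map φ) h4
  rw [map_ES φ _ _ (hY true), map_ES φ _ _ (hY false)] at e4
  have e4' : PowerSeries.map φ (ds MM) = ds (PowerSeries.map φ MM) := map_ds φ.toRatAlgHom MM
  rw [e4'] at e4
  have e5 : ∀ b, Eop (PowerSeries.C (φ (em b (MvPolynomial.X 0)))) (dm (Y b))
      (PowerSeries.map φ MM) = PowerSeries.map φ (UV b) * PowerSeries.map φ MM := fun b => by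
    rw [← map_ES φ _ _ (hY b), h5, map_mul]
  have e8 : ∀ b, PowerSeries.map φ (UV b) ∈ PS P := fun b n => by
    rw [PowerSeries.coeff_map]; exact hφ _ (h8 b n)
  have e0 : PowerSeries.coeff 0 (PowerSeries.map φ Mi * E) ∈ P := by
    rw [PowerSeries.coeff_mul]
    simpa [coeff_zero_Mi hK] using h0
  set M := PowerSeries.map φ MM
  set N := PowerSeries.map φ Mi
  set Q := N * E with hQ
  have eE : E = M * Q := by rw [hQ, ← mul_assoc, e1, one_mul]
  refine ode_ins hP (hYP true) (hYP false) (e8 true) (e8 false) (zero_mem _) e0 ?_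
  rw [eE, Eop_mul, ← e4, e5, e5, Derivation.leibniz, smul_eq_mul, smul_eq_mul] at hE
  linear_combination N * hE - (ds Q - PowerSeries.map φ (UV true) * dm (Y false) Q -
    PowerSeries.map φ (UV false) * dm (Y true) Q - dm (Y true) (dm (Y false) Q)) * e1

lemma Eop_mul_const (p c f : B) (Y : Derivation ℚ B B) (h : Y c = 0) :
    Eop p Y (c * f) = c * Eop p Y f := by
  simp only [Eop, Derivation.leibniz, h, smul_eq_mul]; ring

/-- shift of a double sequence along the diagonal -/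
def sh (r : ℕ) (F : ℕ → ℕ → B) (k l : ℕ) : B :=
  if r ≤ k ∧ r ≤ l then F (k - r) (l - r) else 0

omit [Algebra ℚ B] in
lemma nest_sh (r : ℕ) (F : ℕ → ℕ → B) :
    nest (sh r F) = PowerSeries.X ^ r * (PowerSeries.C (PowerSeries.X ^ r) * nest F) := by
  ext k l
  rw [coeff_nest, PowerSeries.coeff_X_pow_mul', sh]
  by_cases h1 : r ≤ k
  · rw [if_pos h1, PowerSeries.coeff_C_mul, PowerSeries.coeff_X_pow_mul']
    by_cases h2 : r ≤ l
    · rw [if_pos h2, if_pos ⟨h1, h2⟩, coeff_nest]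
    · rw [if_neg h2, if_neg fun h => h2 h.2]
  · rw [if_neg h1, if_neg fun h => h1 h.1, map_zero]

omit [Algebra ℚ B] in
lemma conv2_sh (M M' : PowerSeries B) (r : ℕ) (F : ℕ → ℕ → B) :
    conv2 M M' (sh r F) = sh r (conv2 M M' F) :=
  nest_inj (by simp only [nest_conv2, nest_sh]; ring)
end gen

/-- `a! b! f(a,b,r)(Y) f(a,b,r)(Z)` -/
noncomputable def EE (r a b : ℕ) : A2 :=
  (a.factorial * b.factorial : ℚ) • tn (ff a b r) (ff a b r)

lemma EE_succ1 (r a b : ℕ) : ((a : ℚ) + 1) • EE r (a+1) b =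
    Eop (em true (MvPolynomial.X (1, 0))) (lf true l1)
      (Eop (em false (MvPolynomial.X (1, 0))) (lf false l1) (EE r a b)) := by
  rw [EE, EE, Eop_smul, Eop_smul, Eop_tn_false, Eop_tn_true, ← ff_succ1, tn_smul_left,
    tn_smul_right, smul_smul, smul_smul, smul_smul, Nat.factorial_succ]
  congr 1; push_cast; ring

lemma EE_succ2 (r a b : ℕ) : ((b : ℚ) + 1) • EE r a (b+1) =
    Eop (em true (MvPolynomial.X (0, 1))) (lf true l2)
      (Eop (em false (MvPolynomial.X (0, 1))) (lf false l2) (EE r a b)) := by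
  rw [EE, EE, Eop_smul, Eop_smul, Eop_tn_false, Eop_tn_true, ← ff_succ2, tn_smul_left,
    tn_smul_right, smul_smul, smul_smul, smul_smul, Nat.factorial_succ]
  congr 1; push_cast; ring

lemma inner_pos (hK : St_K) (r : ℕ) :
    ms i2 Mi * PowerSeries.mk (EE r 0) ∈ PS (Pos (Bool × ℕ × ℕ)) := by
  refine quot_pos hK Pos_cone (two i2 : R2 →+* A2) (two_Pos i2 i2_X_Pos) (fun b => lf b l2)
    (fun b f => two_lf Li i2 l2 i2_Li b f) (fun b => lf_Pos l2 l2_X_Pos b) ?_ ?_
  · ext1 n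
    rw [coeff_ds, coeff_Eop, coeff_Eop, PowerSeries.coeff_mk, PowerSeries.coeff_mk, EE_succ2]
    simp only [RingHom.coe_coe, two_em, i2_X, zero_add]
  · rw [PowerSeries.coeff_mk, EE]
    exact Pos_cone _ (by positivity) _ (tn_Pos (ff_zero_Pos r) (ff_zero_Pos r))

lemma Q_pos (hK : St_K) (r a b : ℕ) :
    conv2 (ms i1 Mi) (ms i2 Mi) (EE r) a b ∈ Pos (Bool × ℕ × ℕ) := by
  have h : PowerSeries.map ((PowerSeries.C (R := A2)).comp (two i1 : R2 →+* A2)) Mi *
      (PowerSeries.C (ms i2 Mi) * nest (EE r)) ∈ PS (PS (Pos (Bool × ℕ × ℕ))) := by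
    refine quot_pos (B := PowerSeries A2) hK Pos_cone.series
      ((PowerSeries.C (R := A2)).comp (two i1 : R2 →+* A2)) (fun f hf => C_mem_PS (two_Pos i1 i1_X_Pos f hf))
      (fun b => dm (lf b l1)) (fun b f => ?_) (fun b f hf => dm_mem_PS (lf_Pos l1 l1_X_Pos b) hf)
      ?_ ?_
    · simp only [RingHom.comp_apply, RingHom.coe_coe, dm_C, two_lf Li i1 l1 i1_Li b f]
    · rw [Eop_mul_const _ _ _ _ (by rw [dm_C, l1_ms_i2, map_zero]),
        Eop_mul_const _ _ _ _ (by rw [dm_C, l1_ms_i2, map_zero]), Derivation.leibniz, ds_C,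
        smul_zero, add_zero, smul_eq_mul]
      congr 1
      ext1 k
      rw [coeff_ds, coeff_Eop, coeff_Eop]
      simp only [RingHom.comp_apply, RingHom.coe_coe, two_em, i1_X, zero_add]
      ext1 l
      rw [coeff_Eop, coeff_Eop, coeff_nest, ← EE_succ1, (PowerSeries.coeff l).map_smul_of_tower,
        coeff_nest]
    · rw [PowerSeries.coeff_C_mul]
      have := inner_pos hK r
      rwa [show PowerSeries.mk (EE r 0) = PowerSeries.coeff 0 (nest (EE r)) by simp [nest]] at this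
  rw [← coeff_nest (conv2 (ms i1 Mi) (ms i2 Mi) (EE r)), nest_conv2, mul_assoc]
  rw [PowerSeries.map_comp] at h
  exact h a b

lemma Bref_eq {K p : ℕ} (hp : p ≤ K) (q : ℕ) : Bref p q = ∑ r ∈ range K,
    ((r+1).factorial * r.factorial : ℚ) • sh (r+1) (EE (r+1)) p q := by
  rw [Bref]
  refine Eq.trans (sum_congr rfl fun r hr => ?_)
    (sum_subset (range_subset_range.mpr (show min p q ≤ K by omega)) fun r _ hr => ?_)
  · rw [sh, if_pos (by simp at hr; omega), EE, smul_smul]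
    congr 1; ring
  · rw [sh, if_neg (by simp at hr; omega), smul_zero]

lemma Cref_eq (k l : ℕ) : Cref k l = ∑ r ∈ range k, ((r+1).factorial * r.factorial : ℚ) •
    sh (r+1) (conv2 (ms i1 Mi) (ms i2 Mi) (EE (r+1))) k l := by
  simp only [← conv2_sh]
  simp only [Cref, conv2, smul_sum]
  rw [sum_comm (s := range k)]
  refine sum_congr rfl fun p hp => ?_
  rw [sum_comm (s := range k)]
  refine sum_congr rfl fun q _ => ?_
  rw [Bref_eq (K := k) (by have := mem_antidiagonal.mp hp; omega), mul_sum]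
  simp only [mul_smul_comm]

lemma Cref_pos (hK : St_K) (k l : ℕ) : Cref k l ∈ Pos (Bool × ℕ × ℕ) := by
  rw [Cref_eq]
  refine sum_mem fun r _ => Pos_cone _ (by positivity) _ ?_
  rw [sh]; split_ifs
  exacts [Q_pos hK _ _ _, zero_mem _]

end D36

theorem C_D (hK : St_K) (h4 : St_C4) : St_D := fun k l => by
  have e : two sp (Cref k l) = CC k l := by
    rw [Cref, two_conv2, ms_sp_i1, ms_sp_i2, CC]
    congr 1
    funext a b; exact h4 a b
  exact ⟨D36.Cref_pos hK k l, e, e ▸ two_Pos sp sp_X_Pos _ (D36.Cref_pos hK k l)⟩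

end MJC
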