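import Pool.Agent.Lib.MP_9c49f6_co.CBlue

/-! Row E: the series `K1` has non-negative coefficients. -/

namespace MJC
open MJ Finset MvPolynomial

namespace E93

lemma l12 (f : La2) : l1 (l2 f) = l2 (l1 f) :=
  der_comm _ _ (fun v => by
    simp only [l1, l2, mkDerivation_X, Derivation.map_smul, smul_smul, mul_comm]) f

lemma E12 (f : La2) :
    Eop (X (0, 1)) l2 (Eop (X (1, 0)) l1 f) = Eop (X (1, 0)) l1 (Eop (X (0, 1)) l2 f) := by
  have h1 : l1 (X (0, 1) : La2) = 0 := by simp [l1]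
  have h2 : l2 (X (1, 0) : La2) = 0 := by simp [l2]
  simp only [Eop, map_add, Derivation.leibniz, h1, h2, l12, smul_eq_mul]; ring

lemma Eop_smul {A : Type} [CommRing A] [Algebra ℚ A] (p : A) (Y : Derivation ℚ A A) (q : ℚ)
    (f : A) : Eop p Y (q • f) = q • Eop p Y f := by
  simp [Eop]

lemma Eop_sum {A : Type} [CommRing A] [Algebra ℚ A] (p : A) (Y : Derivation ℚ A A) {ι : Type}
    (s : Finset ι) (f : ι → A) : Eop p Y (∑ i ∈ s, f i) = ∑ i ∈ s, Eop p Y (f i) := by
  simp [Eop, mul_sum, sum_add_distrib]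

lemma ff1 (a b r : ℕ) : Eop (X (1, 0)) l1 (ff a b r) = ((a : ℚ) + 1) • ff (a+1) b r := by
  have h1 : (a.factorial : ℚ) ≠ 0 := by positivity
  have h2 : (b.factorial : ℚ) ≠ 0 := by positivity
  rw [ff, ff, Eop_smul, Function.iterate_succ_apply', smul_smul, Nat.factorial_succ]
  congr 1; push_cast; field_simp

lemma ff2 (a b r : ℕ) : Eop (X (0, 1)) l2 (ff a b r) = ((b : ℚ) + 1) • ff a (b+1) r := by
  have h1 : (a.factorial : ℚ) ≠ 0 := by positivity
  have h2 : (b.factorial : ℚ) ≠ 0 := by positivity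
  have hc : Function.Commute (Eop (X (0, 1) : La2) l2) (Eop (X (1, 0)) l1) := E12
  rw [ff, ff, Eop_smul, hc.iterate_right a, Function.iterate_succ_apply', smul_smul,
    Nat.factorial_succ]
  congr 1; push_cast; field_simp

/-- the two-alphabet operator `E_Y E_Z` attached to a variable and a derivation -/
noncomputable def EE (v : ℕ × ℕ) (δ : Derivation ℚ La2 La2) (f : A2) : A2 :=
  Eop (em true (X v)) (lf true δ) (Eop (em false (X v)) (lf false δ) f)

lemma EE_tn (v : ℕ × ℕ) (δ : Derivation ℚ La2 La2) (f : La2) :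
    EE v δ (tn f f) = tn (Eop (X v) δ f) (Eop (X v) δ f) := by
  rw [EE, Eop_tn_false, Eop_tn_true]

lemma B1 (k l : ℕ) :
    ((k : ℚ) + 1) • Bref (k+1) l = EE (1, 0) l1 (Bref k l) + Wref (k+1) l := by
  have hs : range (min k l) ⊆ range (min (k+1) l) := range_mono (by omega)
  have e : EE (1, 0) l1 (Bref k l) = ∑ r ∈ range (min (k+1) l),
      (((k : ℚ) - r) * ((r+1).factorial * r.factorial * (k + 1 - (r+1)).factorial *
        (l - (r+1)).factorial)) • tn (ff (k + 1 - (r+1)) (l - (r+1)) (r+1))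
          (ff (k + 1 - (r+1)) (l - (r+1)) (r+1)) := by
    rw [← sum_subset hs fun r h1 h2 => by
      have : r = k := by simp at h1 h2; omega
      simp [this]]
    rw [Bref, EE, Eop_sum, Eop_sum]
    refine sum_congr rfl fun r hr => ?_
    obtain ⟨a, rfl⟩ : ∃ a, k = r + 1 + a := ⟨k - (r+1), by simp at hr; omega⟩
    rw [Eop_smul, Eop_smul, ← EE, EE_tn, ff1, tn_smul_left, tn_smul_right, smul_smul, smul_smul,
      show r + 1 + a + 1 - (r+1) = a + 1 by omega, show r + 1 + a - (r+1) = a by omega,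
      Nat.factorial_succ a]
    congr 1; push_cast; ring
  rw [e, Bref, Wref, smul_sum, ← sum_add_distrib]
  refine sum_congr rfl fun r _ => ?_
  rw [smul_smul, ← add_smul, Nat.factorial_succ r]
  congr 1; push_cast; ring

lemma B2 (k l : ℕ) :
    ((l : ℚ) + 1) • Bref k (l+1) = EE (0, 1) l2 (Bref k l) + Wref k (l+1) := by
  have hs : range (min k l) ⊆ range (min k (l+1)) := range_mono (by omega)
  have e : EE (0, 1) l2 (Bref k l) = ∑ r ∈ range (min k (l+1)),
      (((l : ℚ) - r) * ((r+1).factorial * r.factorial * (k - (r+1)).factorial *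
        (l + 1 - (r+1)).factorial)) • tn (ff (k - (r+1)) (l + 1 - (r+1)) (r+1))
          (ff (k - (r+1)) (l + 1 - (r+1)) (r+1)) := by
    rw [← sum_subset hs fun r h1 h2 => by
      have : r = l := by simp at h1 h2; omega
      simp [this]]
    rw [Bref, EE, Eop_sum, Eop_sum]
    refine sum_congr rfl fun r hr => ?_
    obtain ⟨a, rfl⟩ : ∃ a, l = r + 1 + a := ⟨l - (r+1), by simp at hr; omega⟩
    rw [Eop_smul, Eop_smul, ← EE, EE_tn, ff2, tn_smul_left, tn_smul_right, smul_smul, smul_smul,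
      show r + 1 + a + 1 - (r+1) = a + 1 by omega, show r + 1 + a - (r+1) = a by omega,
      Nat.factorial_succ a]
    congr 1; push_cast; ring
  rw [e, Bref, Wref, smul_sum, ← sum_add_distrib]
  refine sum_congr rfl fun r _ => ?_
  rw [smul_smul, ← add_smul, Nat.factorial_succ r]
  congr 1; push_cast; ring

noncomputable def Wd : PowerSeries A2 :=
  PowerSeries.mk fun N => ∑ p ∈ antidiagonal (N+1), Wref p.1 p.2

noncomputable def DS (b : Bool) (δ : Derivation ℚ La2 La2) :
    Derivation ℚ (PowerSeries A2) (PowerSeries A2) := dm (lf b δ)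

noncomputable def E1 (b : Bool) (v : ℕ × ℕ) (δ : Derivation ℚ La2 La2) (f : PowerSeries A2) :
    PowerSeries A2 := Eop (PowerSeries.C (em b (X v))) (DS b δ) f

lemma ds_Bd : ds (diag Bref) = E1 true (1, 0) l1 (E1 false (1, 0) l1 (diag Bref)) +
    E1 true (0, 1) l2 (E1 false (0, 1) l2 (diag Bref)) + 2 * Wd := by
  rw [ds_diag, two_mul]
  ext1 n
  have w1 : ∑ p ∈ antidiagonal (n+1), Wref p.1 p.2 = ∑ p ∈ antidiagonal n, Wref (p.1+1) p.2 := by
    rw [Finset.Nat.sum_antidiagonal_succ (f := fun p => Wref p.1 p.2)]; simp [Wref]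
  have w2 : ∑ p ∈ antidiagonal (n+1), Wref p.1 p.2 = ∑ p ∈ antidiagonal n, Wref p.1 (p.2+1) := by
    rw [Finset.Nat.sum_antidiagonal_succ' (f := fun p => Wref p.1 p.2)]; simp [Wref]
  simp only [map_add, E1, DS, coeff_Eop, diag, Wd, PowerSeries.coeff_mk, B1, B2, sum_add_distrib,
    Eop_sum, ← w1, ← w2, EE]
  abel

section Maps
variable {σ τ : Type} (φ : MvPolynomial σ ℚ →ₐ[ℚ] MvPolynomial τ ℚ)

lemma coeff_ms (f : PowerSeries (Two σ)) (n : ℕ) :
    PowerSeries.coeff n (ms φ f) = two φ (PowerSeries.coeff n f) := by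
  simp [ms]

lemma ms_dm {δ : Derivation ℚ (MvPolynomial σ ℚ) (MvPolynomial σ ℚ)}
    {ε : Derivation ℚ (MvPolynomial τ ℚ) (MvPolynomial τ ℚ)} (h : ∀ f, φ (δ f) = ε (φ f))
    (b : Bool) (f : PowerSeries (Two σ)) : ms φ (dm (lf b δ) f) = dm (lf b ε) (ms φ f) := by
  ext1 n; rw [coeff_ms, coeff_dm, coeff_dm, coeff_ms, two_lf _ _ _ h]

lemma dm_ms_zero {ε : Derivation ℚ (MvPolynomial τ ℚ) (MvPolynomial τ ℚ)}
    (h : ∀ f, ε (φ f) = 0) (b : Bool) (f : PowerSeries (Two σ)) : dm (lf b ε) (ms φ f) = 0 := by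
  rw [← ms_dm φ (δ := 0) (fun f => by simp [h])]
  ext1 n; simp [coeff_ms, lf_zero]

lemma ms_ds (f : PowerSeries (Two σ)) : ms φ (ds f) = ds (ms φ f) := map_ds (two φ) f

lemma ms_C (b : Bool) (f : MvPolynomial σ ℚ) :
    ms φ (PowerSeries.C (em b f)) = PowerSeries.C (em b (φ f)) := by
  simp [ms, two_em]

lemma ms_ms {ρ : Type} (ψ : MvPolynomial τ ℚ →ₐ[ℚ] MvPolynomial ρ ℚ) (f : PowerSeries (Two σ)) :
    ms ψ (ms φ f) = ms (ψ.comp φ) f := by
  ext1 n; simp only [coeff_ms, two_two]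

lemma ms_id (f : PowerSeries (Two σ)) : ms (AlgHom.id ℚ _) f = f := by
  ext1 n; rw [coeff_ms, two_id]
end Maps

lemma i1_L (f : La) : i1 (Li f) = l1 (i1 f) :=
  hom_der _ _ _ (fun v => by simp [i1, Li, l1]) f
lemma i2_L (f : La) : i2 (Li f) = l2 (i2 f) :=
  hom_der _ _ _ (fun v => by simp [i2, Li, l2]) f
lemma l2_i1 (f : La) : l2 (i1 f) = 0 := by
  simpa using (hom_der i1 0 l2 (fun v => by simp [i1, l2]) f).symm
lemma l1_i2 (f : La) : l1 (i2 f) = 0 := by
  simpa using (hom_der i2 0 l1 (fun v => by simp [i2, l1]) f).symm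
lemma sp_i1 : sp.comp i1 = AlgHom.id ℚ La := by
  ext v : 1; simp [sp, i1, pv]
lemma sp_i2 : sp.comp i2 = AlgHom.id ℚ La := by
  ext v : 1; simp [sp, i2, pv]
lemma sp_l (f : La2) : sp ((l1 + l2) f) = Li (sp f) :=
  hom_der _ _ _ (fun ⟨i, j⟩ => by
    simp only [Derivation.add_apply, l1, l2, mkDerivation_X, map_add, map_smul, sp, aeval_X]
    rw [show i + 1 + j = i + j + 1 by omega, show i + (j + 1) = i + j + 1 by omega, ← add_smul,
      ← Nat.cast_add]
    cases i + j with
    | zero => simp [pv]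
    | succ m => simp [pv, Li]) f

lemma sp_DS (b : Bool) (f : PowerSeries A2) :
    ms sp (DS b l1 f) + ms sp (DS b l2 f) = LS b (ms sp f) := by
  rw [LS, ← ms_dm sp sp_l, ← map_add]
  congr 1; ext1 n; simp only [DS, map_add, coeff_dm, lf_add]

/-- one quotient step -/
lemma quot (hK : St_K) (i j : La →ₐ[ℚ] La2) (v : ℕ × ℕ) (δ : Derivation ℚ La2 La2)
    (hi : ∀ f, i (Li f) = δ (i f)) (hj : ∀ f, δ (j f) = 0) (hv : i (X 0) = X v)
    (Q : PowerSeries A2) :
    E1 true v δ (E1 false v δ (ms i MM * (ms j MM * Q))) =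
      ms j MM * (Q * ds (ms i MM) + ms i MM * (ms i (UV true) * DS false δ Q +
        ms i (UV false) * DS true δ Q + DS true δ (DS false δ Q))) := by
  obtain ⟨-, -, -, h4, h5, -⟩ := hK
  have e : ∀ b f, E1 b v δ (ms i f) = ms i (ES b f) := fun b f => by
    simp only [E1, ES, Eop, DS, LS, map_add, map_mul, ms_C, hv, ms_dm i hi]
  have z : ∀ b, DS b δ (ms j MM) = 0 := fun b => dm_ms_zero j hj b MM
  have := Eop_mul (PowerSeries.C (em true (X v))) (PowerSeries.C (em false (X v))) (DS true δ)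
    (DS false δ) (ms i MM) (ms j MM * Q)
  simp only [← E1.eq_1] at this
  rw [this, e, e, e, ← h4, h5, h5, ms_ds]
  have zz : ∀ b f, DS b δ (ms j MM * f) = ms j MM * DS b δ f := fun b f => by
    rw [Derivation.leibniz, z, smul_zero, add_zero, smul_eq_mul]
  simp only [zz, map_mul]
  ring

noncomputable def Xx : PowerSeries R2 :=
  ms sp (DS true l1 (DS false l2 (diag Cref)) + DS true l2 (DS false l1 (diag Cref)))

lemma ds_cd (hK : St_K) (h5 : St_C5) (hD : St_D) :
    ds (diag CC) = UV true * LS false (diag CC) + UV false * LS true (diag CC) +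
      LS true (LS false (diag CC)) - Xx + 2 * LS true (LS false KK) := by
  have hB : diag Bref = ms i1 MM * (ms i2 MM * diag Cref) := by
    rw [show Cref = conv2 (ms i1 Mi) (ms i2 Mi) Bref from rfl, diag_conv2]
    have a1 : ms i1 MM * ms i1 Mi = 1 := by rw [← map_mul, hK.1, map_one]
    have a2 : ms i2 MM * ms i2 Mi = 1 := by rw [← map_mul, hK.1, map_one]
    linear_combination (-(diag Bref)) * a1 - (ms i1 MM * ms i1 Mi * diag Bref) * a2
  have hC : ms sp (diag Cref) = diag CC := by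
    ext1 n; simp only [coeff_ms, diag, PowerSeries.coeff_mk, map_sum, (hD _ _).2.1]
  have hW : ms sp Wd = MM * MM * LS true (LS false KK) := by
    have : ms sp Wd = MM * ES true (ES false MM) - ES true MM * ES false MM := by
      ext1 n; rw [← h5 n, coeff_ms, Wd, PowerSeries.coeff_mk, map_sum]
    obtain ⟨-, h2, -, h4, h5, h6, -⟩ := hK
    rw [this, ← h4, h2, h6, h5, h5]; ring
  have h := ds_Bd
  rw [hB, quot hK i1 i2 _ _ i1_L l1_i2 (by simp [i1]), mul_left_comm,
    quot hK i2 i1 _ _ i2_L l2_i1 (by simp [i2])] at h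
  have h' := congrArg (ms sp) h
  simp only [Derivation.leibniz, smul_eq_mul, map_add, map_mul, ms_ds, ms_ms, sp_i1, sp_i2, ms_id,
    hC, hW, map_ofNat] at h'
  have s1 := sp_DS true (diag Cref)
  have s2 := sp_DS false (diag Cref)
  have s3 := sp_DS true (DS false l1 (diag Cref))
  have s4 := sp_DS true (DS false l2 (diag Cref))
  have s5 := congrArg (LS true) s2
  rw [hC] at s1 s2 s5
  rw [map_add] at s5
  have h1 := hK.1
  have key : MM * MM * ds (diag CC) = MM * MM * (UV true * LS false (diag CC) +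
      UV false * LS true (diag CC) + LS true (LS false (diag CC)) - Xx +
      2 * LS true (LS false KK)) := by
    rw [Xx, map_add]
    linear_combination h' + MM * MM * (UV false * s1 + UV true * s2 + s3 + s4 + s5)
  calc _ = (Mi * Mi) * (MM * MM * ds (diag CC)) := by
        linear_combination (-(1 + MM * Mi) * ds (diag CC)) * h1
    _ = _ := by
        rw [key, ← mul_assoc, show Mi * Mi * (MM * MM) = (MM * Mi) * (MM * Mi) by ring, h1]; ring

lemma Nu_LS (b : Bool) (f : PowerSeries R2) : dm Nu (LS b f) = LS b (dm Nu f) :=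
  dm_comm (der_comm _ _ fun v => by
    rw [Nu_X, lf, mkDerivation_X]
    split_ifs
    · simp [Li, em_X, Nu_X]
    · simp) f

end E93
open E93

theorem C_E (hK : St_K) (h5 : St_C5) (hD : St_D) : St_E := by
  have hL : ∀ b, ∀ a ∈ Pos _, lf b Li a ∈ Pos _ := fun b => lf_Pos _ (fun v => by
    rw [Li, mkDerivation_X]; exact Pos_cone _ (by positivity) _ (X_Pos _)) b
  have p1 : ∀ b, ∀ a ∈ Pos _, lf b l1 a ∈ Pos _ := fun b => lf_Pos _ (fun v => by
    rw [l1, mkDerivation_X]; exact Pos_cone _ (by positivity) _ (X_Pos _)) b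
  have p2 : ∀ b, ∀ a ∈ Pos _, lf b l2 a ∈ Pos _ := fun b => lf_Pos _ (fun v => by
    rw [l2, mkDerivation_X]; exact Pos_cone _ (by positivity) _ (X_Pos _)) b
  have hC : diag Cref ∈ PS (Pos _) := fun n => by
    rw [diag, PowerSeries.coeff_mk]; exact sum_mem fun p _ => (hD _ _).1
  have hX : Xx ∈ PS (Pos _) := fun n => by
    rw [Xx, coeff_ms]
    refine two_Pos _ (fun v => ?_) _ (add_mem (dm_mem_PS (p1 _) (dm_mem_PS (p2 _) hC))
      (dm_mem_PS (p2 _) (dm_mem_PS (p1 _) hC)) n)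
    rw [sp, aeval_X]
    cases v.1 + v.2 with
    | zero => exact zero_mem _
    | succ m => exact X_Pos _
  have hcd := ds_cd hK h5 hD
  obtain ⟨-, -, h3, -, -, h6, -, h8⟩ := hK
  refine ode_ins Pos_cone (hL true) (hL false) (h8 true) (h8 false)
    (Pos_cone.series (1/2) (by norm_num) _ hX) ?_ ?_
  · have : PowerSeries.coeff 0 K1 = 0 := by
      simp [K1, h3, diag, CC, conv2, BB, -PowerSeries.coeff_zero_eq_constantCoeff,
        PowerSeries.coeff_zero_X_mul]
    rw [this]; exact zero_mem _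
  · have dL : ∀ b f, LS b (ds f) = ds (LS b f) := fun b f => (ds_dm _ _).symm
    have xL : ∀ b, LS b PowerSeries.X = 0 := fun b => dm_X _
    have dU : ∀ b, ds (UV b) = ds (LS b KK) := fun b => by simp [UV]
    have nU : ∀ b, dm Nu (UV b) = UV b - LS b KK + LS b (dm Nu KK) := fun b => by
      simp [UV, em_X, Nu_X, Nu_LS]
    have a1 := congrArg ds h6
    have a2 := congrArg (dm Nu) h6
    simp only [map_add, Derivation.leibniz, smul_eq_mul, dU, nU, Nu_LS, ← ds_dm] at a1 a2
    have u1 : UV true = PowerSeries.C (em true (X 0)) + LS true KK := rfl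
    obtain ⟨c, hc, hc2⟩ : ∃ c : PowerSeries R2, (∀ f : PowerSeries R2, (1/2 : ℚ) • f = c * f) ∧
        2 * c = 1 := ⟨algebraMap ℚ _ (1/2), fun f => Algebra.smul_def _ _, by
          rw [← map_ofNat (algebraMap ℚ (PowerSeries R2)) 2, ← map_mul]; norm_num⟩
    change ds K1 = UV true * LS false K1 + UV false * LS true K1 + LS true (LS false K1) + _
    simp only [K1, map_add, map_sub, Derivation.map_smul, Derivation.leibniz, smul_eq_mul, xL,
      ds_X, dL, mul_zero, add_zero, mul_one]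
    simp only [hc]
    linear_combination PowerSeries.X * a1 - a2 + 2 * h6 - c * hcd -
      LS true (LS false KK) * hc2

end MJC
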