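import Pool.Agent.Lib.MP_9c49f6_co.CBlue

/-! Block `K`: the logarithm `K` of `M` and its positivity. -/

namespace MJC
open MJ Finset MvPolynomial

lemma ck_Eop_smul {A : Type} [CommRing A] [Algebra ℚ A] (p : A) (Y : Derivation ℚ A A) (q : ℚ)
    (f : A) : Eop p Y (q • f) = q • Eop p Y f := by
  simp only [Eop, Derivation.map_smul, mul_smul_comm, smul_add]

lemma ck_Li_X (k : ℕ) : Li (X k : La) = ((k : ℚ) + 1) • X (k+1) := mkDerivation_X _ _ _

lemma ck_Eop_hh (m : ℕ) : Eop (X 0 : La) Li (hh m) = ((m : ℚ) + 1) • hh (m+1) := by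
  set H : PowerSeries La := Ex ℚ (fun k => (X k : La)) with hH
  set P : PowerSeries La := PowerSeries.mk (fun k => (X k : La)) with hP
  have h1 : ds H = P * H := Ex_deriv (F := ℚ) _
  have h2 : dm Li P = ds P := by
    ext1 n
    rw [coeff_dm, coeff_ds, hP, PowerSeries.coeff_mk, PowerSeries.coeff_mk, ck_Li_X]
  have hc : ∀ n, PowerSeries.coeff n H = hh n := fun n => Ex_coeff _ _
  have h3 : Eop (PowerSeries.C (X 0 : La)) (dm Li) H - ds H = 0 := by
    refine ode_mul P ?_ ?_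
    · rw [map_sub, coeff_Eop, h1, hc, PowerSeries.coeff_zero_eq_constantCoeff_apply, map_mul,
        ← PowerSeries.coeff_zero_eq_constantCoeff_apply, ← PowerSeries.coeff_zero_eq_constantCoeff_apply,
        hc, hP, PowerSeries.coeff_mk]
      simp [Eop, hh]
    · simp only [Eop, map_sub, map_add, Derivation.leibniz, ds_C, ds_dm, smul_eq_mul]
      rw [h1]
      simp only [Derivation.leibniz, smul_eq_mul, h1, h2]
      ring
  have h4 := congrArg (PowerSeries.coeff m) (sub_eq_zero.mp h3)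
  rw [coeff_Eop, coeff_ds, hc, hc] at h4
  exact h4

lemma ck_MM0 : PowerSeries.coeff 0 MM = 1 := by
  simp [MM, tn, hh]

lemma ck_inv : MM * Mi = 1 :=
  PowerSeries.mul_invOfUnit _ _ (by
    rw [← PowerSeries.coeff_zero_eq_constantCoeff_apply, ck_MM0]; rfl)

lemma ck_dsK : ds KK = ds MM * Mi := by
  ext1 n
  rw [coeff_ds, KK, PowerSeries.coeff_mk, smul_smul, Nat.add_sub_cancel]
  push_cast
  rw [mul_inv_cancel₀ (by positivity), one_smul]

lemma ck_dsM : ds MM = ds KK * MM := by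
  rw [ck_dsK, mul_assoc, mul_comm Mi, ck_inv, mul_one]

lemma ck_K0 : PowerSeries.coeff 0 KK = 0 := by
  simp [KK]

lemma ck_EE : ds MM = ES true (ES false MM) := by
  ext1 n
  rw [coeff_ds, ES, ES, LS, LS, coeff_Eop, coeff_Eop, MM, PowerSeries.coeff_mk,
    PowerSeries.coeff_mk, ck_Eop_smul, ck_Eop_smul, Eop_tn_false, Eop_tn_true, ck_Eop_hh,
    tn_smul_left, tn_smul_right, smul_smul, smul_smul, smul_smul, Nat.factorial_succ]
  push_cast
  ring_nf

lemma ck_ES (b : Bool) : ES b MM = UV b * MM := by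
  refine sub_eq_zero.mp (ode_mul (ds KK) ?_ ?_)
  · rw [map_sub, ES, LS, coeff_Eop, PowerSeries.coeff_zero_eq_constantCoeff_apply (UV b * MM),
      map_mul, ← PowerSeries.coeff_zero_eq_constantCoeff_apply,
      ← PowerSeries.coeff_zero_eq_constantCoeff_apply, ck_MM0, UV, LS, map_add, coeff_dm, ck_K0]
    simp [Eop]
  · simp only [ES, UV, LS, Eop, map_sub, map_add, Derivation.leibniz, ds_C, ds_dm, smul_eq_mul]
    rw [ck_dsM]
    simp only [Derivation.leibniz, smul_eq_mul]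
    ring

lemma ck_K : ds KK = UV true * UV false + LS true (LS false KK) := by
  have h1 : LS true (UV false) = LS true (LS false KK) := by
    rw [UV, map_add, LS, dm_C, lf_em_ne _ (by decide), map_zero, zero_add]
  have h2 : ds KK * MM = (UV true * UV false + LS true (LS false KK)) * MM := by
    have h3 := ck_ES true
    rw [← ck_dsM, ck_EE, ck_ES false, ← h1]
    simp only [ES, Eop, Derivation.leibniz, smul_eq_mul] at h3 ⊢
    linear_combination UV false * h3
  calc ds KK = ds KK * MM * Mi := by rw [mul_assoc, ck_inv, mul_one]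
    _ = _ := by rw [h2, mul_assoc, ck_inv, mul_one]

lemma ck_lf (b : Bool) : ∀ f ∈ Pos (Bool × ℕ), lf b Li f ∈ Pos (Bool × ℕ) :=
  lf_Pos _ (fun v => by
    rw [ck_Li_X]; exact Pos_cone _ (by positivity) _ (X_Pos _)) b

lemma ck_UV (b : Bool) (i : ℕ) (h : PowerSeries.coeff i KK ∈ Pos (Bool × ℕ)) :
    PowerSeries.coeff i (UV b) ∈ Pos (Bool × ℕ) := by
  rw [UV, map_add, LS, coeff_dm]
  exact add_mem (C_mem_PS (em_Pos b _ (X_Pos 0)) i) (ck_lf b _ h)

lemma ck_pos : KK ∈ PS (Pos (Bool × ℕ)) := by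
  refine ode_pos Pos_cone (fun n h => ?_) (by rw [ck_K0]; exact zero_mem _)
  rw [ck_K, map_add]
  refine add_mem (coeff_mul_mem (fun i hi => ck_UV _ _ (h i hi)) fun i hi => ck_UV _ _ (h i hi)) ?_
  rw [LS, LS, coeff_dm, coeff_dm]
  exact ck_lf _ _ (ck_lf _ _ (h n le_rfl))

theorem C_K : St_K :=
  ⟨ck_inv, ck_dsM, ck_K0, ck_EE, ck_ES, ck_K, ck_pos, fun b i => ck_UV b i (ck_pos i)⟩

end MJC
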