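import Pool.Agent.Lib.MP_9c49f6_co.CH

/-! Row B1: the first-order equation for the structure constants on the basis `h_λ`. -/

namespace MJC
open MJ Finset MvPolynomial

namespace B1

/-- `m! h_m` in the alphabet `b` -/
noncomputable def ef (b : Bool) (m : ℕ) : R2 := (m.factorial : ℚ) • em b (hh m)

lemma prod_ef (b : Bool) (l : List ℕ) : (l.map (ef b)).prod = fl l • em b (hl l) := by
  induction l with
  | nil => simp [fl, hl]
  | cons m l ih =>
    rw [List.map_cons, List.prod_cons, ih]
    simp only [ef, fl, hl, List.map_cons, List.prod_cons, map_mul, smul_mul_smul_comm]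

lemma pair_ef (b b' : Bool) (l : List ℕ) :
    pair (fun m m' => em b (uu m m') * (ef b' m * ef b' m')) (fun m => em b (hh m) * ef b' m) l =
      fl l • (em b (Ul l) * em b' (hl l)) := by
  rw [pair_scale (fun m m' => em b (uu m m')) (fun m => em b (hh m)) (ef b') l, prod_ef, Ul,
    map_pair, mul_smul_comm]

lemma BB_symm (m m' : ℕ) : BB m m' = BB m' m := by
  have e : ∀ l, et m m' l = et m' m l := fun l => by
    rw [et, et, add_comm m m', mul_comm (hh m), mul_comm (m.factorial : ℚ)]
  simp only [BB, e, wl, min_comm m m', add_comm m m', add_comm ((m : ℚ) - _)⁻¹]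

lemma ga_symm (k l : ℕ) : ga k l = ga l k := by
  rw [ga, ga, mul_comm, CC, conv2, conv2, sum_comm]
  congr 1
  exact sum_congr rfl fun p _ => sum_congr rfl fun q _ => by
    rw [BB_symm, mul_comm (PowerSeries.coeff q.1 Mi)]

section
variable (h0 : ∀ m, phi (hh m) = PowerSeries.coeff m MM)
include h0

lemma phi_hh (m : ℕ) : phi (hh m) = (m.factorial : ℚ) • tn (hh m) (hh m) := by
  rw [h0, MM, PowerSeries.coeff_mk]

lemma phi_hh_true (m : ℕ) : phi (hh m) = em true (hh m) * ef false m := by
  rw [phi_hh h0, ef, tn, mul_smul_comm]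

lemma phi_hh_false (m : ℕ) : phi (hh m) = em false (hh m) * ef true m := by
  rw [phi_hh h0, ef, tn, mul_smul_comm, mul_comm]

lemma phi_hl (l : List ℕ) : phi (hl l) = fl l • tn (hl l) (hl l) := by
  induction l with
  | nil => simp [fl, hl, tn]
  | cons m l ih =>
    have e1 : hl (m :: l) = hh m * hl l := by simp [hl]
    have e2 : fl (m :: l) = (m.factorial : ℚ) * fl l := by simp [fl]
    rw [e1, e2, map_mul, ih, phi_hh h0, tn_mul, smul_mul_smul_comm]

lemma phi_mul (i j : ℕ) : phi (hh i * hh j) =
    ((i.factorial : ℚ) * j.factorial) • tn (hh i * hh j) (hh i * hh j) := by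
  rw [map_mul, phi_hh h0, phi_hh h0, tn_mul, smul_mul_smul_comm]

lemma et_step (m m' l : ℕ) :
    cN (m + m') l • tn (et m m' l) (et m m' l) = phi (et m m' l) -
      (em true (et m m' l) * (ef false m * ef false m') +
        em false (et m m' l) * (ef true m * ef true m')) := by
  have hc := (cN_pos (m + m') l).ne'
  have e1 : phi (eta (m + m') l) =
      cN (m + m') l • tn (eta (m + m') l) (eta (m + m') l) := phi_mul h0 _ _
  have e2 := phi_mul h0 m m'
  have e3 : ∀ b, ef b m * ef b m' =
      ((m.factorial : ℚ) * m'.factorial) • em b (hh m * hh m') := fun b => by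
    simp only [ef, map_mul, smul_mul_smul_comm]
  rw [et, map_sub phi, map_smul phi, e1, e2, e3, e3]
  generalize hh m * hh m' = H
  generalize eta (m + m') l = E
  generalize (m.factorial : ℚ) * m'.factorial = a
  generalize cN (m + m') l = c at hc
  obtain ⟨t, rfl⟩ : ∃ t, a = t * c := ⟨a / c, by field_simp⟩
  rw [mul_div_cancel_right₀ _ hc]
  simp only [tn, map_sub, Algebra.smul_def, map_mul, AlgHom.commutes]
  ring

lemma BB_eq (m m' : ℕ) : BB m m' = phi (uu m m') -
    (em true (uu m m') * (ef false m * ef false m') +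
      em false (uu m m') * (ef true m * ef true m')) := by
  simp only [BB, uu, map_sum, map_smul, sum_mul, ← sum_add_distrib, ← sum_sub_distrib]
  refine sum_congr rfl fun l _ => ?_
  rw [mul_smul, et_step h0, smul_mul_assoc, smul_mul_assoc, smul_sub, smul_add]

end
end B1

open B1 in
theorem C_B1 (hSO : St_SO) (hB0 : St_B0) : St_B1 := by
  intro n l hl'
  obtain ⟨h0, h1⟩ := hB0
  refine ⟨phi_hl h0 l, ?_⟩
  have h2 := (hSO R2 n phi de ga ga_symm).1 hh l
  have h3 : one (fun m => P1 n phi de ga (hh m)) (fun m => phi (hh m)) l = 0 := by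
    rw [one_congr (g' := fun _ => 0) (a' := fun m => phi (hh m))
      (fun m hm => (h1 n m (hl' m hm)).1) (fun _ _ => rfl), one_zero]
  have h4 : pair (fun m m' => Ga n phi ga (hh m) (hh m')) (fun m => phi (hh m)) l =
      pair (fun m m' => phi (uu m m') - (em true (uu m m') * (ef false m * ef false m') +
        em false (uu m m') * (ef true m * ef true m'))) (fun m => phi (hh m)) l :=
    pair_congr (fun m hm m' hm' => by
      rw [(h1 n m (hl' m hm)).2 m' (hl' m' hm'), BB_eq h0]) (fun _ _ => rfl)
  have h5 : pair (fun m m' => em true (uu m m') * (ef false m * ef false m'))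
      (fun m => phi (hh m)) l = fl l • tn (Ul l) (hl l) := by
    simp only [phi_hh_true h0]; exact pair_ef true false l
  have h6 : pair (fun m m' => em false (uu m m') * (ef true m * ef true m'))
      (fun m => phi (hh m)) l = fl l • tn (hl l) (Ul l) := by
    simp only [phi_hh_false h0]; rw [pair_ef false true l, tn, mul_comm]
  have h7 : phi (Ul l) = pair (fun m m' => phi (uu m m')) (fun m => phi (hh m)) l := by
    rw [Ul, map_pair]
  rw [hl, h2, h3, h4, pair_sub, pair_add, h5, h6, h7, ← hl, smul_add]
  ring

end MJC
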