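import Pool.Agent.Lib.MP_9c49f6_co.Ip

/-! Monomial coefficients and triangularity of `D_0`. -/

namespace MJ
open Finset MvPolynomial

variable {F : Type} [Field F]

noncomputable def cf : List ℕ → Lam F →ₗ[F] F
  | [] => lcoeff F 0
  | k :: L => cf L ∘ₗ Sh (c1 F) k

lemma cf_nil (f : Lam F) : cf [] f = constantCoeff f := rfl
lemma cf_cons (k : ℕ) (L : List ℕ) (f : Lam F) : cf (k :: L) f = cf L (Sh (c1 F) k f) := rfl

lemma cf_perm {L L' : List ℕ} (h : L.Perm L') (f : Lam F) : cf L f = cf L' f := by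
  induction h generalizing f with
  | nil => rfl
  | cons x _ ih => rw [cf_cons, cf_cons, ih]
  | swap x y l => simp only [cf_cons]; rw [Sh_comm]
  | trans _ _ h1 h2 => rw [h1, h2]

lemma cf_zeros (L : List ℕ) (j : ℕ) (f : Lam F) : cf (L ++ List.replicate j 0) f = cf L f := by
  rw [cf_perm List.perm_append_comm]
  induction j with
  | zero => rfl
  | succ j ih => rw [List.replicate_succ, List.cons_append, cf_cons]; simpa using ih

noncomputable def res (F : Type) [Field F] (N : ℕ) : Lam F →ₐ[F] MvPolynomial (Fin N) F :=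
  aeval fun k => psum (Fin N) F (k+1)

lemma res_succ (N : ℕ) (f : Lam F) :
    finSuccEquiv F N (res F (N+1) f) = (Phi (c1 F) f).map (res F N).toRingHom := by
  induction f using lam_ind with
  | hC r => simp [res, Phi, finSuccEquiv_apply]
  | hadd f g hf hg => simp only [map_add, hf, hg, Polynomial.map_add]
  | hX f k hf =>
    have e : finSuccEquiv F N (res F (N+1) (X k)) =
        (Phi (c1 F) (X k)).map (res F N).toRingHom := by
      rw [Phi_X]
      simp [res, psum, Fin.sum_univ_succ, finSuccEquiv_X_zero, finSuccEquiv_X_succ, c1, add_comm]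
    rw [map_mul (res F (N+1)), map_mul (finSuccEquiv F N), map_mul (Phi (c1 F)),
      Polynomial.map_mul, hf, e]

lemma coeff_res (N : ℕ) : ∀ (d : Fin N →₀ ℕ) (f : Lam F),
    coeff d (res F N f) = cf (List.ofFn d) f := by
  induction N with
  | zero =>
    intro d f
    have : d = 0 := Subsingleton.elim _ _
    subst this
    rw [List.ofFn_zero, cf_nil, ← constantCoeff_eq]
    induction f using lam_ind with
    | hC r => simp [res]
    | hadd f g hf hg => simp only [map_add, hf, hg]
    | hX f k _ => simp [res, psum]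
  | succ N ih =>
    intro d f
    rw [← Finsupp.cons_tail d, ← finSuccEquiv_coeff_coeff, res_succ, Polynomial.coeff_map,
      List.ofFn_succ, cf_cons, Sh_nat]
    simp only [Finsupp.cons_zero, Finsupp.cons_succ]
    exact ih _ _

noncomputable def dl (q t : F) : List ℕ → F
  | [] => 1
  | k :: L => t⁻¹ * dl q t L + (1 - t⁻¹) * q ^ k

lemma perm_le_sorted {S : List ℕ} (hS : S.Pairwise (· ≥ ·)) : ∀ {L : List ℕ}, L.Perm S → L ≤ S := by
  induction S with
  | nil => intro L h; rw [h.eq_nil]
  | cons a S ih =>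
    intro L h
    cases L with
    | nil => exact absurd h.symm.eq_nil (by simp)
    | cons b L =>
      rw [List.pairwise_cons] at hS
      have hb : b ≤ a := by
        rcases List.mem_cons.mp (h.subset List.mem_cons_self) with h1 | h1
        · omega
        · exact hS.1 b h1
      rcases hb.lt_or_eq with h1 | rfl
      · exact le_of_lt (List.cons_lt_cons_iff.mpr (Or.inl h1))
      · rcases (ih hS.2 h.cons_inv).lt_or_eq with h2 | rfl
        · exact le_of_lt (List.cons_lt_cons_iff.mpr (Or.inr ⟨rfl, h2⟩))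
        · exact le_rfl

variable [CharZero F]

lemma cf_Hm {L : List ℕ} : ∀ {m : ℤ} {f : Lam F}, f ∈ Hm F m → cf L f ≠ 0 → (L.sum : ℤ) = m := by
  induction L with
  | nil => intro m f hf h; simpa [wt] using Hm_coeff hf h
  | cons k L ih =>
    intro m f hf h
    have := ih (Sh_Hm (c1 F) k hf) h
    rw [List.sum_cons, Nat.cast_add]; omega

lemma cf_inj (n : ℕ) : ∀ {m : ℤ} {f : Lam F}, m < n → f ∈ Hm F m →
    (∀ L : List ℕ, (∀ x ∈ L, 0 < x) → cf L f = 0) → f = 0 := by
  induction n with
  | zero => intro m f hm hf _; exact Hm_neg hf hm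
  | succ n ih =>
    intro m f hm hf h
    have := eq_C_of_Sh f fun j hj => by
      obtain ⟨k, rfl⟩ := Int.eq_ofNat_of_zero_le hj.le
      refine ih (by omega) (Sh_Hm (c1 F) k hf) fun L hL => h (k :: L) ?_
      simp only [List.mem_cons, forall_eq_or_imp]; exact ⟨by omega, hL⟩
    rw [this, ← cf_nil, h [] (by simp), map_zero]

lemma cf_DD {q t : F} (ht : t ≠ 0) (L : List ℕ) (hL : ∀ x ∈ L, 0 < x) : ∀ {m : ℤ} {f : Lam F},
    f ∈ Hm F m → (∀ L' : List ℕ, (∀ x ∈ L', 0 < x) → L < L' → cf L' f = 0) →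
    cf L (DD q t 0 f) = dl q t L * cf L f := by
  have key : ∀ {m : ℤ} {f : Lam F} (j : ℕ), f ∈ Hm F m →
      (∀ L' : List ℕ, (∀ x ∈ L', 0 < x) → cf (j :: L') f = 0) → Sh (c1 F) j f = 0 :=
    fun {m f} j hf h => cf_inj ((m - j).toNat + 1) (by omega) (Sh_Hm (c1 F) j hf) h
  induction L with
  | nil =>
    intro m f hf h
    have := eq_C_of_Sh f fun j hj => by
      obtain ⟨k, rfl⟩ := Int.eq_ofNat_of_zero_le hj.le
      refine key k hf fun L' hL' => h _ ?_ (by simp)
      simp only [List.mem_cons, forall_eq_or_imp]; exact ⟨by omega, hL'⟩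
    rw [this, DD_C]; simp [dl]
  | cons k L ih =>
    intro m f hf h
    simp only [List.mem_cons, forall_eq_or_imp] at hL
    have h1 : ∀ j : ℤ, (k:ℤ) < j → Sh (c1 F) j f = 0 := by
      intro j hj
      obtain ⟨i, rfl⟩ := Int.eq_ofNat_of_zero_le (show 0 ≤ j by omega)
      refine key i hf fun L' hL' => h _ ?_ (List.cons_lt_cons_iff.mpr (Or.inl (by omega)))
      simp only [List.mem_cons, forall_eq_or_imp]; exact ⟨by omega, hL'⟩
    rw [cf_cons, H_D0 q t ht k f h1 k le_rfl, map_add, map_smul, map_smul,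
      ih hL.2 (Sh_Hm (c1 F) k hf), cf_cons, dl]
    · simp only [smul_eq_mul]; ring
    · intro L' hL' h2
      refine h (k :: L') ?_ (List.cons_lt_cons_iff.mpr (Or.inr ⟨rfl, h2⟩))
      simp only [List.mem_cons, forall_eq_or_imp]; exact ⟨hL.1, hL'⟩

end MJ
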