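import Pool.Agent.Lib.MP_9c49f6_co.Yop

/-! The specialization `p_k ↦ (1 - v^k)/(1 - t^k)`. -/

namespace MJ
open Finset MvPolynomial

variable {F : Type} [Field F] (q t : F)

noncomputable def phi (v : F) : Lam F →ₐ[F] F := aeval fun k => (1 - v ^ (k+1)) / (1 - t ^ (k+1))

noncomputable def eta : St F →ₗ[F] F :=
  Finsupp.lsum F fun j : ℕ => ((q * t⁻¹) ^ j)⁻¹ • (phi t 0).toLinearMap

lemma eta_single (s : ℕ) (f : Lam F) :
    eta q t (Finsupp.single s f) = ((q * t⁻¹) ^ s)⁻¹ * phi t 0 f := by simp [eta]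

lemma eta_inc (f : Lam F) : eta q t (inc f) = phi t 0 f := by
  rw [inc_apply, eta_single]; simp

lemma eta_UU (v : St F) : eta q t (UU v) = (q * t⁻¹)⁻¹ * eta q t v := by
  induction v using st_ind with
  | h0 => simp
  | hadd v w hv hw => simp only [map_add, hv, hw, mul_add]
  | hs s f => rw [UU_single, eta_single, eta_single, pow_succ, mul_inv]; ring

lemma ind_sum (a : ℤ → F) (n : ℕ) (j : ℤ) (h1 : ∀ s < 0, a s = 0) (h2 : ∀ s : ℤ, (n:ℤ) ≤ s → a s = 0) :
    ∑ s ∈ range n, (if (s:ℤ) = j then 1 else 0) * a s = a j := by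
  rcases lt_or_ge j 0 with h | h
  · rw [h1 j h]; exact sum_eq_zero fun s _ => by rw [if_neg (by omega), zero_mul]
  · obtain ⟨i, rfl⟩ := Int.eq_ofNat_of_zero_le h
    simp only [Nat.cast_inj, ite_mul, one_mul, zero_mul, sum_ite_eq', mem_range]
    split_ifs with h3
    · rfl
    · exact (h2 i (by omega)).symm

variable [CharZero F] {q t}

lemma phi_gg (hi : Indep q t) (m : ℤ) :
    phi t 0 (gg t m) = (if m = 0 then 1 else 0) - (if m = 1 then 1 else 0) := by
  rw [gg, gen, map_cz_Ex]
  have : (fun k => phi t 0 (C (t ^ (k+1) - 1) * X k)) = fun k => - (1:F) ^ (k+1) := by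
    funext k
    have := sub_ne_zero.mpr (hi.t_pow_ne k).symm
    simp [phi]; field_simp; ring
  rw [this, Ex_neg_geom, ← one_mul (1 - _), cz_mul_one_sub]
  have c1 : ∀ m : ℤ, cz (1 : PowerSeries F) m = if m = 0 then 1 else 0 := by
    intro m
    rcases lt_or_ge m 0 with h | h
    · rw [cz_neg _ h, if_neg (by omega)]
    · obtain ⟨i, rfl⟩ := Int.eq_ofNat_of_zero_le h
      simp [PowerSeries.coeff_one]
  rw [c1, c1, one_mul]; simp only [sub_eq_zero]

lemma phi_DD (hi : Indep q t) (m : ℤ) (f : Lam F) :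
    phi t 0 (DD q t m f) = phi t 0 (Sh (cS q t) (-m) f) - phi t 0 (Sh (cS q t) (1-m) f) := by
  obtain ⟨n, hn⟩ := Sh_bound (cS q t) f
  have key := fun j => ind_sum (fun s => phi t 0 (Sh (cS q t) s f)) n j
    (fun s hs => by rw [Sh_neg _ hs, map_zero]) (fun s hs => by rw [hn s hs, map_zero])
  rw [DD_eq_sum q t m f n hn, map_sum, ← key, ← key, ← sum_sub_distrib]
  refine sum_congr rfl fun s _ => ?_
  rw [map_mul, phi_gg hi, sub_mul]
  congr 3 <;> (apply propext; omega)

lemma eta_ee (hi : Indep q t) (b : ℤ) (f : Lam F) :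
    eta q t (ee q t b f) = phi t 0 (Sh (cS q t) (-b) f) := by
  obtain ⟨n1, h1⟩ := Sh_bound (cS q t) f
  obtain ⟨n2, h2⟩ := ee_bound q t f
  have hq : q * t⁻¹ ≠ 0 := mul_ne_zero hi.q_ne (inv_ne_zero hi.t_ne)
  have := down_ind (fun i : ℕ => eta q t (ee q t (b - i) f) - phi t 0 (Sh (cS q t) (-(b - i)) f))
    (1:F) (fun i => by
      have e1 : b - ((i+1 : ℕ) : ℤ) = b - i - 1 := by push_cast; ring
      have e2 : -(b - (i:ℤ) - 1) = 1 - (b - i) := by ring
      rw [ee_rec, map_add, map_smul, eta_inc, eta_UU, phi_DD hi, e1, e2, smul_eq_mul, ← mul_assoc,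
        mul_inv_cancel₀ hq, one_smul]
      ring) (n1 + n2 + b.toNat) (by rw [h2 _ (by omega), h1 _ (by omega)]; simp)
  simpa [sub_eq_zero] using this

lemma eta_EE (hi : Indep q t) (v : St F) : eta q t (EE q t v) = phi t 0 (v 0) := by
  induction v using st_ind with
  | h0 => simp
  | hadd v w hv hw => simp [hv, hw]
  | hs s f =>
    rw [EE_single, eta_ee hi]
    cases s with
    | zero => simp
    | succ s => rw [Sh_neg _ (by omega)]; simp

lemma phi_psi_one (hi : Indep q t) (v : St F) : phi t 0 (psi q t 1 v) = - phi t 0 (v 0) := by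
  induction v using st_ind with
  | h0 => simp
  | hadd v w hv hw => simp only [map_add, hv, hw, Finsupp.add_apply]; ring
  | hs s f =>
    rw [psi_single, phi_DD hi, Sh_neg _ (by omega)]
    cases s with
    | zero => simp
    | succ s => rw [Sh_neg _ (by omega)]; simp

noncomputable def Gv (v : F) : Polynomial F := 1 - Polynomial.C v * Polynomial.X

omit [CharZero F] in
lemma aeval_Gv (v : F) (w : St F) :
    Polynomial.aeval (EE q t) (Gv v) w = w - v • EE q t w := by
  simp [Gv]

lemma phi_tail (hi : Indep q t) (v : F) (j : ℕ) (w : St F) :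
    phi t 0 (psi q t 0 (run q t (List.replicate j (Gv v)) (UU w))) = - v ^ j * phi t 0 (w 0) := by
  induction j generalizing w with
  | zero => simp [psi_UU, phi_psi_one hi]
  | succ j ih =>
    rw [List.replicate_succ, run_cons, ih, aeval_Gv, EE_UU]
    simp [phi_psi_one hi]; ring

lemma eta_head (hi : Indep q t) (v : F) (i : ℕ) (u : St F) :
    (q * t⁻¹) ^ i * (eta q t (run q t (List.replicate i (Gv v)) u) -
      v * phi t 0 (run q t (List.replicate i (Gv v)) u 0)) = eta q t u - v * phi t 0 (u 0) := by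
  have hq : q * t⁻¹ ≠ 0 := mul_ne_zero hi.q_ne (inv_ne_zero hi.t_ne)
  induction i generalizing u with
  | zero => simp
  | succ i ih =>
    rw [List.replicate_succ, run_cons, pow_succ', mul_assoc, ih, eta_UU, aeval_Gv, map_sub,
      map_smul, eta_EE hi, UU_zero, map_zero (phi t 0), mul_zero, sub_zero, ← mul_assoc,
      mul_inv_cancel₀ hq, one_mul, smul_eq_mul]

lemma phi_YY (hi : Indep q t) (v : F) (K : ℕ) {m : ℤ} {f : Lam F} (hf : f ∈ Hm F m) :
    phi t 0 (YY hi (Gv v) K m f) = (v ^ (K+1) - 1) * phi t 0 f := by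
  rw [YY_apply, map_sum, ← geom_sum_mul, ← sum_range_reflect (fun i => v ^ i), sum_mul, sum_mul]
  refine sum_congr rfl fun i _ => ?_
  have h := run_HS (q := q) (t := t) (List.replicate i (Gv v)) (inc_HS hf)
  rw [List.length_replicate] at h
  have h2 := eta_head hi v i (inc f)
  rw [wd, run_append, run_cons, map_smul, phi_tail hi]
  generalize run q t (List.replicate i (Gv v)) (inc f) = u at h h2 ⊢
  have h3 := eta_EE hi (Polynomial.aeval (EE q t) (rr hi (m + i)) u)
  rw [rr_spec' hi h] at h3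
  rw [map_mul (Polynomial.aeval (EE q t)), Module.End.mul_apply, aeval_Gv, map_sub, map_smul,
    rr_spec hi h, Finsupp.sub_apply, Finsupp.smul_apply, map_sub, map_smul, ← h3]
  rw [eta_inc, inc_zero] at h2
  simp only [smul_eq_mul, Nat.add_sub_cancel]
  linear_combination (-v ^ (K - i)) * h2

variable {ι : Type} (S : Sys q t ι)

theorem Sys.phi_b (hi : Indep q t) (v : F) (i : ι) :
    phi t v (S.b i) = (∏ c ∈ S.cells i, (1 - v * mono q t c)) * phi t 0 (S.b i) := by
  let Γ : ι → F := fun i => ∏ c ∈ S.cells i, (1 - v * mono q t c)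
  have hΓ : ∀ i k c, 0 ≤ (S.cells i).card → (S.cells k).val = c ::ₘ (S.cells i).val →
      Γ k = Γ i * (Gv v).eval (mono q t c) := by
    intro i k c _ h
    simp only [Γ, Finset.prod_eq_multiset_prod, h, Gv, Multiset.map_cons, Multiset.prod_cons,
      Polynomial.eval_sub, Polynomial.eval_one, Polynomial.eval_mul, Polynomial.eval_C,
      Polynomial.eval_X]
    ring
  have h1 : ∀ K f, phi t 0 (S.Del Γ (pk t K * f)) = (v ^ (K+1) - 1) * phi t 0 (S.Del Γ f) := by
    intro K f
    have : (phi t 0).toLinearMap ∘ₗ S.Del Γ ∘ₗ LinearMap.mulLeft F (pk t K) =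
        (v ^ (K+1) - 1) • ((phi t 0).toLinearMap ∘ₗ S.Del Γ) := by
      refine S.b.ext fun j => ?_
      simp only [LinearMap.comp_apply, LinearMap.mulLeft_apply, AlgHom.toLinearMap_apply,
        LinearMap.smul_apply, smul_eq_mul]
      rw [S.Del_pk hi Γ _ 0 hΓ K (by omega) (S.hom j), phi_YY hi v K (S.Del_Hm Γ (S.hom j))]
    exact congrArg (fun φ => φ f) this
  have h2 : ∀ f, phi t 0 (S.Del Γ f) = phi t v f := by
    intro f
    induction f using lam_ind with
    | hC r =>
      have e : DD q t 0 (1 : Lam F) = del q t 0 • 1 := by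
        have := DD_C q t 0 1
        simpa [del] using this
      obtain ⟨k, hk⟩ : ∃ k, (S.cells k).val = 0 := by
        by_contra hc
        exact one_ne_zero (S.eig_zero e fun i h => hc ⟨i, hi.del_inj h⟩)
      rw [← hk] at e
      have : Γ k = 1 := by
        simp only [Γ, Finset.prod_eq_multiset_prod, hk, Multiset.map_zero, Multiset.prod_zero]
      rw [C_eq_smul_one, map_smul, S.Del_eig hi Γ e, this]; simp
    | hadd f g hf hg => simp [hf, hg]
    | hX f k hf =>
      have hne := sub_ne_zero.mpr (hi.t_pow_ne k)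
      have hne' := sub_ne_zero.mpr (hi.t_pow_ne k).symm
      have e : X k * f = (t ^ (k+1) - 1)⁻¹ • (pk t k * f) := by
        rw [pk, smul_eq_C_mul, ← mul_assoc, ← mul_assoc, ← map_mul, inv_mul_cancel₀ hne]; simp
      rw [map_mul (phi t v), e, map_smul, map_smul, h1, hf]
      simp only [phi, aeval_X, smul_eq_mul]
      field_simp; ring
  rw [← h2, S.Del_b, map_smul, smul_eq_mul]

end MJ
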