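import Pool.Agent.Lib.MP_9c49f6_co.Mac
import Pool.Agent.Lib.MP_9c49f6_co.Eval

/-! `D_0` in finitely many variables. -/

namespace MJ
open Finset MvPolynomial

variable {F : Type} [Field F]

section pf
variable {K : Type} [Field K]

noncomputable def ge (y : K) : PowerSeries K := PowerSeries.mk fun r => y ^ r

lemma ge_mul (y : K) : ge y * (1 - PowerSeries.C y * PowerSeries.X) = 1 := by
  ext r
  rw [mul_sub, mul_one, ← mul_assoc]
  cases r with
  | zero => simp [ge]
  | succ r => simp [ge, PowerSeries.coeff_succ_mul_X, PowerSeries.coeff_one, pow_succ]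

lemma ge_ne (y : K) : (1 - PowerSeries.C y * PowerSeries.X) ≠ 0 := fun h => by
  have := ge_mul y
  rw [h, mul_zero] at this; exact zero_ne_one this

lemma ge_ge {y z : K} (h : y ≠ z) :
    ge y * ge z = (y / (y - z)) • ge y - (z / (y - z)) • ge z := by
  have h1 : y / (y - z) - z / (y - z) = 1 := by
    rw [← sub_div, div_self (sub_ne_zero.mpr h)]
  have h2 : y / (y - z) * z - z / (y - z) * y = 0 := by ring
  have h1' := congrArg (PowerSeries.C (R := K)) h1
  have h2' := congrArg (PowerSeries.C (R := K)) h2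
  simp only [map_sub, map_mul, map_one, map_zero] at h1' h2'
  apply mul_right_cancel₀ (mul_ne_zero (ge_ne y) (ge_ne z))
  have a := ge_mul y
  have b := ge_mul z
  simp only [PowerSeries.smul_eq_C_mul]
  linear_combination (ge z * (1 - PowerSeries.C z * PowerSeries.X) -
    PowerSeries.C (y / (y - z)) * (1 - PowerSeries.C z * PowerSeries.X)) * a +
    (1 + PowerSeries.C (z / (y - z)) * (1 - PowerSeries.C y * PowerSeries.X)) * b - h1' +
    PowerSeries.X * h2'

lemma pfrac {ι : Type} (x : ι → K) (hx : Function.Injective x) {τ : K} (hτ : τ ≠ 0)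
    (s : Finset ι) :
    ∏ i ∈ s, ((1 - PowerSeries.C (x i) * PowerSeries.X) * ge (τ * x i)) - τ⁻¹ ^ s.card • 1 ∈
      Submodule.span K ((fun i => ge (τ * x i)) '' s) := by
  classical
  induction s using Finset.induction_on with
  | empty => simp
  | insert j s hj ih =>
    have e : (1 - PowerSeries.C (x j) * PowerSeries.X) * ge (τ * x j) =
        τ⁻¹ • 1 + (1 - τ⁻¹) • ge (τ * x j) := by
      have a := ge_mul (τ * x j)
      have b := congrArg (PowerSeries.C (R := K)) (inv_mul_cancel₀ hτ)
      simp only [PowerSeries.smul_eq_C_mul, map_mul, map_sub, map_one] at a b ⊢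
      linear_combination PowerSeries.C τ⁻¹ * a +
        (PowerSeries.C (x j) * PowerSeries.X * ge (τ * x j)) * b
    rw [prod_insert hj, card_insert_of_notMem hj, e]
    have hm : ∀ i ∈ insert j s, ge (τ * x i) ∈
        Submodule.span K ((fun i => ge (τ * x i)) '' (insert j s : Finset ι)) :=
      fun i hi => Submodule.subset_span ⟨i, hi, rfl⟩
    have key : ∀ w ∈ Submodule.span K ((fun i => ge (τ * x i)) '' s),
        w ∈ Submodule.span K ((fun i => ge (τ * x i)) '' (insert j s : Finset ι)) ∧
        ge (τ * x j) * w ∈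
          Submodule.span K ((fun i => ge (τ * x i)) '' (insert j s : Finset ι)) := by
      intro w hw
      induction hw using Submodule.span_induction with
      | mem w hw =>
        obtain ⟨i, hi, rfl⟩ := hw
        have hi' := hm i (mem_insert_of_mem hi)
        refine ⟨hi', ?_⟩
        rw [ge_ge fun h => hj (by rw [hx (mul_left_cancel₀ hτ h)]; exact hi)]
        exact sub_mem (Submodule.smul_mem _ _ (hm j (by simp))) (Submodule.smul_mem _ _ hi')
      | zero => simp
      | add a b _ _ ha hb => rw [mul_add]; exact ⟨add_mem ha.1 hb.1, add_mem ha.2 hb.2⟩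
      | smul c a _ ha =>
        rw [mul_smul_comm]; exact ⟨Submodule.smul_mem _ _ ha.1, Submodule.smul_mem _ _ ha.2⟩
    obtain ⟨k1, k2⟩ := key _ ih
    have := add_mem (add_mem (Submodule.smul_mem _ τ⁻¹ k1) (Submodule.smul_mem _ (1 - τ⁻¹) k2))
      (Submodule.smul_mem _ ((1 - τ⁻¹) * τ⁻¹ ^ s.card) (hm j (by simp)))
    convert this using 1
    simp only [PowerSeries.smul_eq_C_mul, map_mul, map_sub, map_one, map_pow]
    ring

lemma Ex_eq_ge [CharZero F] [Algebra F K] (y : K) : Ex F (fun k => y ^ (k+1)) = ge y :=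
  mul_right_cancel₀ (ge_ne y) (by rw [Ex_geom, ge_mul])

end pf

noncomputable def tau (q : F) {N : ℕ} (i : Fin N) :
    MvPolynomial (Fin N) F →ₐ[F] MvPolynomial (Fin N) F :=
  aeval fun j => if j = i then C q * X j else X j

lemma tau_prod (q : F) {N : ℕ} (i : Fin N) : tau q i (∏ j, X j) = C q * ∏ j, X j := by
  have : ∀ j, tau q i (X j) = (if j = i then C q else 1) * X j := by
    intro j; simp only [tau, aeval_X]; split_ifs <;> simp
  simp only [map_prod, this, prod_mul_distrib]; simp

lemma tau_res {q t : F} (ht : t ≠ 0) {N : ℕ} (i : Fin N) (f : Lam F) (n : ℕ)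
    (h : ∀ s : ℤ, (n:ℤ) ≤ s → Sh (cS q t) s f = 0) :
    tau q i (res F N f) = ∑ s ∈ range n, (C t * X i) ^ s * res F N (Sh (cS q t) s f) := by
  let Ξ : Polynomial (Lam F) →ₐ[F] MvPolynomial (Fin N) F :=
    Polynomial.eval₂AlgHom (res F N) (C t * X i) (fun _ => Commute.all _ _)
  have h1 : (tau q i).comp (res F N) = Ξ.comp (Phi (cS q t)) := by
    ext k : 1
    have e : ∀ j, tau q i (X j) ^ (k+1) =
        X j ^ (k+1) + if j = i then C (q ^ (k+1) - 1) * X i ^ (k+1) else 0 := by
      intro j; simp only [tau, aeval_X]; split_ifs with h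
      · subst h; simp only [mul_pow, map_sub, map_pow, map_one]; ring
      · simp
    have e2 : (C (cS q t k) * C t ^ (k+1) : MvPolynomial (Fin N) F) = C (q ^ (k+1) - 1) := by
      rw [← map_pow, ← map_mul, cS, mul_assoc, ← mul_pow, inv_mul_cancel₀ ht, one_pow, mul_one]
    have e3 : res F N (X k) = ∑ j, X j ^ (k+1) := by simp [res, psum]
    have e4 : res F N (C (cS q t k)) = C (cS q t k) := by simp [res]
    simp only [AlgHom.comp_apply, Phi_X, Ξ, Polynomial.eval₂AlgHom_apply, Polynomial.eval₂_add,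
      Polynomial.eval₂_mul, Polynomial.eval₂_C, Polynomial.eval₂_X_pow, RingHom.coe_coe, e3, e4,
      map_sum, map_pow, e, sum_add_distrib, sum_ite_eq', mem_univ, if_true, mul_pow, ← e2]
    ring
  rw [← AlgHom.comp_apply, h1, AlgHom.comp_apply, Phi_eq_sum _ f n h, map_sum]
  refine sum_congr rfl fun s _ => ?_
  rw [mul_comm _ (res F N _)]
  simp [Ξ]

variable [CharZero F]

theorem res_DD {q t : F} (ht : t ≠ 0) {N : ℕ} {K : Type} [Field K] [Algebra F K]
    (ρ : MvPolynomial (Fin N) F →ₐ[F] K) (hinj : Function.Injective ρ) :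
    ∃ A : Fin N → K, ∀ f : Lam F,
      ρ (res F N (DD q t 0 f - t⁻¹ ^ N • f)) = ∑ i, A i * ρ (tau q i (res F N f)) := by
  let x : Fin N → K := fun i => ρ (X i)
  let τ : K := ρ (C t)
  have hτ : τ ≠ 0 := by
    simp only [τ]; rw [Ne, map_eq_zero_iff _ hinj, C_eq_zero]; exact ht
  have hτ' : τ⁻¹ = ρ (C t⁻¹) := by
    apply inv_eq_of_mul_eq_one_right
    simp only [τ]; rw [← map_mul, ← map_mul, mul_inv_cancel₀ ht]; simp
  have h := pfrac x (fun a b h => X_injective (hinj h)) hτ univ
  rw [coe_univ, Set.image_univ, Submodule.mem_span_range_iff_exists_fun] at h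
  obtain ⟨A, hA⟩ := h
  have hg : ∀ s : ℕ, ρ (res F N (gg t s)) =
      (if s = 0 then τ⁻¹ ^ N else 0) + ∑ i, A i * (τ * x i) ^ s := by
    intro s
    have h1 := map_ex (ρ.comp (res F N)) (fun k => C (t ^ (k+1) - 1) * X k) s
    have h2 : (fun k => (ρ.comp (res F N))
        (C (t ^ (k+1) - 1) * X k)) = fun k => ∑ i, (-x i ^ (k+1) + (τ * x i) ^ (k+1)) := by
      funext k
      simp only [AlgHom.comp_apply, res, map_mul, aeval_X, aeval_C,
        psum, map_sum, map_pow, algebraMap_eq, map_sub, map_one, x, τ, mul_pow]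
      rw [mul_sum]
      exact sum_congr rfl fun i _ => by ring
    rw [h2, ← gen_nat, ← Ex_coeff, Ex_sum] at h1
    simp only [Ex_add, Ex_neg_geom, Ex_eq_ge] at h1
    rw [eq_add_of_sub_eq hA.symm] at h1
    rw [gg]
    refine Eq.trans h1 ?_
    simp [ge, PowerSeries.coeff_one, add_comm]
  refine ⟨A, fun f => ?_⟩
  obtain ⟨n, hn⟩ := Sh_bound (cS q t) f
  have hn' : ∀ s : ℤ, ((n+1 : ℕ):ℤ) ≤ s → Sh (cS q t) s f = 0 := fun s hs => hn s (by omega)
  simp only [tau_res ht _ f _ hn', map_sum, map_mul, map_pow, mul_sum]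
  rw [map_sub, map_sub, DD_eq_sum q t 0 f _ hn', map_sum, map_sum, sum_comm, map_smul,
    smul_eq_C_mul, map_mul, map_pow, map_pow, ← hτ']
  simp only [map_mul, zero_add, hg, add_mul, sum_add_distrib, sum_mul]
  rw [sum_range_succ' _ n]
  simp only [Nat.succ_ne_zero, if_false, zero_mul, sum_const_zero, if_true, Nat.cast_zero, Sh_zero,
    mul_assoc, x, τ]
  ring

omit [CharZero F] in
lemma exists_rho (N : ℕ) : ∃ ρ : MvPolynomial (Fin N) F →ₐ[F] FractionRing (MvPolynomial (Fin N) F),
    Function.Injective ρ :=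
  ⟨IsScalarTower.toAlgHom F _ _, IsFractionRing.injective _ _⟩

lemma res_DD_zero {q t : F} (ht : t ≠ 0) {N : ℕ} {f : Lam F} (h : res F N f = 0) :
    res F N (DD q t 0 f) = 0 := by
  obtain ⟨ρ, hρ⟩ := exists_rho (F := F) N
  obtain ⟨A, hA⟩ := res_DD (q := q) ht ρ hρ
  have := hA f
  simp only [h, map_zero, mul_zero, sum_const_zero] at this
  rw [map_eq_zero_iff _ hρ, map_sub, map_smul, h] at this
  simpa using this

lemma res_DD_e {q t : F} (ht : t ≠ 0) {N : ℕ} {e : Lam F} (h : res F N e = ∏ j, X j) (f : Lam F) :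
    res F N (DD q t 0 (e * f) - t⁻¹ ^ N • (e * f)) =
      q • res F N (e * (DD q t 0 f - t⁻¹ ^ N • f)) := by
  obtain ⟨ρ, hρ⟩ := exists_rho (F := F) N
  obtain ⟨A, hA⟩ := res_DD (q := q) ht ρ hρ
  apply hρ
  rw [hA, smul_eq_C_mul, map_mul ρ, map_mul (res F N) e (_ - _), map_mul ρ, hA, mul_sum, mul_sum]
  refine sum_congr rfl fun i _ => ?_
  rw [map_mul (res F N), map_mul (tau q i), h, tau_prod, map_mul, map_mul]; ring

omit [CharZero F] in
lemma coeff_prod_lin {A ι : Type} [CommRing A] (x : ι → A) (s : Finset ι) :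
    PowerSeries.coeff s.card (∏ i ∈ s, (1 - PowerSeries.C (-x i) * PowerSeries.X)) = ∏ i ∈ s, x i ∧
    ∀ r, s.card < r →
      PowerSeries.coeff r (∏ i ∈ s, (1 - PowerSeries.C (-x i) * PowerSeries.X)) = 0 := by
  classical
  induction s using Finset.induction_on with
  | empty => exact ⟨by simp, fun r hr => by simp [PowerSeries.coeff_one]; simp at hr; omega⟩
  | insert j s hj ih =>
    have key : ∀ r, PowerSeries.coeff (r+1)
        (∏ i ∈ insert j s, (1 - PowerSeries.C (-x i) * PowerSeries.X)) =
        PowerSeries.coeff (r+1) (∏ i ∈ s, (1 - PowerSeries.C (-x i) * PowerSeries.X)) +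
        x j * PowerSeries.coeff r (∏ i ∈ s, (1 - PowerSeries.C (-x i) * PowerSeries.X)) := by
      intro r
      rw [prod_insert hj, mul_comm, mul_sub, mul_one, map_sub, ← mul_assoc,
        PowerSeries.coeff_succ_mul_X, PowerSeries.coeff_mul_C]; ring
    rw [card_insert_of_notMem hj]
    refine ⟨by rw [key, ih.1, ih.2 _ (by omega), prod_insert hj, zero_add], fun r hr => ?_⟩
    obtain ⟨r, rfl⟩ : ∃ r', r = r' + 1 := ⟨r - 1, by omega⟩
    rw [key, ih.2 _ (by omega), ih.2 _ (by omega)]; simp

lemma exists_e (F : Type) [Field F] [CharZero F] (N : ℕ) : ∃ e : Lam F, res F N e = ∏ j, X j := by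
  refine ⟨ex F (fun k => C ((-1) ^ k) * X k) N, ?_⟩
  rw [map_ex]
  have : (fun k => res F N (C ((-1) ^ k) * X k)) = fun k => ∑ i : Fin N, - (- X i) ^ (k+1) := by
    funext k
    simp only [res, map_mul, aeval_X, psum, mul_sum, map_pow, map_neg, map_one]
    exact sum_congr rfl fun i _ => by rw [neg_pow (X i : MvPolynomial (Fin N) F)]; ring
  rw [this, ← Ex_coeff, Ex_sum]
  simp only [Ex_neg_geom]
  simpa using (coeff_prod_lin (fun i : Fin N => (X i : MvPolynomial (Fin N) F)) univ).1

omit [CharZero F] in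
lemma Sys.mod_eig {q t : F} {ι : Type} (S : Sys q t ι) (hi : Indep q t) (I : Submodule F (Lam F))
    (hI : ∀ f ∈ I, DD q t 0 f ∈ I) (k : ι) (f : Lam F)
    (h : DD q t 0 f - del q t (S.cells k).val • f ∈ I) : f - S.b.repr f k • S.b k ∈ I := by
  classical
  have key : ∀ s : Finset ι, k ∉ s → ∀ g, (S.b.repr g).support ⊆ s →
      DD q t 0 g - del q t (S.cells k).val • g ∈ I → g ∈ I := by
    intro s
    induction s using Finset.induction_on with
    | empty =>
      intro _ g hg _
      have : S.b.repr g = 0 := by simpa using hg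
      rw [(map_eq_zero_iff _ S.b.repr.injective).mp this]; exact zero_mem _
    | insert j s hj ih =>
      intro hk g hg h
      have h1 := ih (fun h => hk (mem_insert_of_mem h)) (DD q t 0 g - del q t (S.cells j).val • g)
        (by
          intro i hi
          rw [Finsupp.mem_support_iff, map_sub, map_smul, Finsupp.sub_apply, S.repr_DD,
            Finsupp.smul_apply, smul_eq_mul, ← sub_mul] at hi
          rcases mem_insert.mp (hg (Finsupp.mem_support_iff.mpr (right_ne_zero_of_mul hi)))
            with rfl | h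
          · simp at hi
          · exact h)
        (by
          have := sub_mem (hI _ h) (I.smul_mem (del q t (S.cells j).val) h)
          convert this using 1
          simp only [map_sub, map_smul]; module)
      have h2 : (del q t (S.cells k).val - del q t (S.cells j).val) • g ∈ I := by
        have := sub_mem h1 h
        convert this using 1; module
      refine (I.smul_mem_iff (sub_ne_zero.mpr fun e => hk ?_)).mp h2
      rw [S.cells_inj (Finset.val_injective (hi.del_inj e))]; simp
  refine key (S.b.repr (f - S.b.repr f k • S.b k)).support (by simp) _ subset_rfl ?_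
  convert h using 1
  rw [map_sub, map_smul, S.eig]; module

end MJ
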