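import Mathlib

/-! Definitions used in the statements: Macdonald polynomials and the coefficients
`c^π_{μ,ν}`.  A homogeneous symmetric function of degree `n` is recorded by its vector of
coefficients on the power sums `p_μ`, `μ ⊢ n`. -/

namespace MJ
open Finset MvPolynomial

variable {n : ℕ}

/-- The parts of `λ` in weakly decreasing order. -/
def lst (l : n.Partition) : List ℕ := l.parts.sort (· ≥ ·)

/-- `row λ i = λ_(i+1)`. -/
def row (l : n.Partition) (i : ℕ) : ℕ := (lst l).getD i 0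

/-- `col λ j = λ'_(j+1)`, the number of parts larger than `j`. -/
def col (l : n.Partition) (j : ℕ) : ℕ := (l.parts.filter (j < ·)).card

/-- `n(λ) = ∑ (i-1) λ_i`. -/
def nRow (l : n.Partition) : ℕ := ∑ i ∈ range n, i * row l i

/-- `n(λ') = ∑ (j-1) λ'_j`. -/
def nCol (l : n.Partition) : ℕ := ∑ j ∈ range n, j * col l j

/-- `z_λ = ∏ i^(m_i) m_i!`. -/
def zz (l : n.Partition) : ℕ :=
  ∏ i ∈ l.parts.toFinset, i ^ l.parts.count i * (l.parts.count i).factorial

/-- The exponent vector of the monomial `x^λ` in `n` variables. -/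
noncomputable def expo (l : n.Partition) : Fin n →₀ ℕ :=
  Finsupp.equivFunOnFinite.symm fun i => row l i

variable {F : Type} [Field F]

/-- `z_λ(q,t) = z_λ ∏ (1 - q^(λ_i)) / (1 - t^(λ_i))`. -/
def zqt (q t : F) (l : n.Partition) : F :=
  zz l * (l.parts.map fun i => (1 - q ^ i) / (1 - t ^ i)).prod

/-- `⟨∑ a_μ p_μ, ∑ b_μ p_μ⟩_(q,t)`. -/
def scal (q t : F) (a b : n.Partition → F) : F := ∑ μ, a μ * b μ * zqt q t μ

/-- The symmetric polynomial `∑ a_μ p_μ(x_1, …, x_n)`. -/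
noncomputable def sym (a : n.Partition → F) : MvPolynomial (Fin n) F :=
  ∑ μ, a μ • psumPart (Fin n) F μ

/-- `P λ` is the power-sum coefficient vector of the Macdonald polynomial `P_λ`: the family is
`P_λ = m_λ + (terms m_κ with κ < λ in lexicographic order)` and orthogonal for
`⟨ , ⟩_(q,t)`.  (The coefficient of `m_κ` is the coefficient of the monomial `x^κ`.) -/
structure IsMac (q t : F) (P : n.Partition → n.Partition → F) : Prop where
  lead : ∀ l, coeff (expo l) (sym (P l)) = 1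
  tri : ∀ l k, coeff (expo k) (sym (P l)) ≠ 0 → lst k ≤ lst l
  orth : ∀ l k, l ≠ k → scal q t (P l) (P k) = 0

/-- `∏_(s ∈ λ) (1 - q^(a(s)) t^(l(s)+1))`; the cell `s` is in row `i+1` and column `j+1`. -/
def cArm (q t : F) (l : n.Partition) : F :=
  ∏ i ∈ range n, ∏ j ∈ range (row l i), (1 - q ^ (row l i - (j+1)) * t ^ (col l j - (i+1) + 1))

/-- Power-sum coefficients of `𝔍_λ = J_λ / (1-t)^|λ|`. -/
def Jc (q t : F) (P : n.Partition → n.Partition → F) (l μ : n.Partition) : F :=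
  cArm q t l / (1 - t) ^ n * P l μ

/-- The coefficient `c^π_(μ,ν)`: `z_π(q,t)` times the coefficient of `p_π[X] p_μ[Y] p_ν[Z]` in
`∑_λ q^(n(λ')) t^(-2 n(λ)) 𝔍_λ[X] 𝔍_λ[Y] 𝔍_λ[Z] / ⟨𝔍_λ, 𝔍_λ⟩`. -/
def cco (q t : F) (P : n.Partition → n.Partition → F) (π μ ν : n.Partition) : F :=
  zqt q t π * ∑ l, q ^ nCol l * t⁻¹ ^ (2 * nRow l) / scal q t (Jc q t P l) (Jc q t P l) *
    (Jc q t P l π * Jc q t P l μ * Jc q t P l ν)

end MJ
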