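import Pool.Agent.Lib.MP_9c49f6_co.Seven

/-! Integrality, and the coefficients indexed by `(n-2,1,1)` and `(n-2,2)`. -/

namespace MJ
namespace Two22
open Finset MvPolynomial One22

variable {F : Type} [Field F] {q t : F} [CharZero F]

section int
variable {S : Subring F} {g : F}

variable (S t) in
noncomputable def IM (_ : ℤ) : AddSubmonoid (Lam F) := (IL S t).toSubsemiring.toAddSubmonoid

omit [CharZero F] in
lemma IV_smul {a : F} (ha : a ∈ S) {v : V2 F} (hv : v ∈ CO (IM t S) 0) : a • v ∈ CO (IM t S) 0 :=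
  fun i j => by rw [map_smul]; exact IL_smul ha (hv i j)

omit [CharZero F] in
lemma IV_map {M : Type} [AddCommGroup M] [Module F M] (A : ℕ → ℕ → Lam F →ₗ[F] M)
    (N : AddSubmonoid M) (h : ∀ (a b : ℕ), ∀ f ∈ IL S t, A a b f ∈ N) {v : V2 F}
    (hv : v ∈ CO (IM t S) 0) : ls A v ∈ N :=
  co_ind (P := fun v => ls A v ∈ N) v (by simp)
    (fun _ _ h1 h2 => by rw [map_add]; exact add_mem h1 h2)
    fun a b => by rw [ls_mon]; exact h a b _ (hv a b)

variable (hi : Indep q t) (hq : q ∈ S) (hT : t⁻¹ ∈ S)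
include hi hq hT

lemma IL_ee (c : ℤ) {f : Lam F} (hf : f ∈ IL S t) (j : ℕ) : ee q t c f j ∈ IM t S (0 + j) := by
  rw [ee_apply]; exact IL_smul (pow_mem (mul_mem hq hT) _) (IL_DD hi.t_ne hq hT _ hf)

variable (R : Rt q t) (h1 : R.s ∈ S) (h2 : R.s' ∈ S)
include h1 h2

lemma IV_Y1 {v : V2 F} (hv : v ∈ CO (IM t S) 0) : R.Y1 v ∈ CO (IM t S) 0 := by
  have hσ : R.σ ∈ S := sub_mem h2 (one_mem _)
  rw [Y1_eq]
  refine add_mem (add_mem (IV_map _ _ (fun a b f hf => ?_) hv) (IV_smul hσ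
    (IV_map _ _ (fun a b f hf => ?_) hv))) (IV_smul (mul_mem (mul_mem hσ hσ) h1)
    (IV_map _ _ (fun a b f hf => ?_) hv))
  · exact fun i j => CO_y2_pow b (CO_i1 (IL_ee hi hq hT a hf)) i j
  · simp only [LinearMap.comp_apply, LinearMap.mulLeft_apply, mul_assoc]
    exact fun i j => CO_y2 (CO_hh b (CO_i2 (IL_ee hi hq hT a hf))) i j
  · simp only [LinearMap.comp_apply, LinearMap.mulLeft_apply, mul_assoc, KK]
    exact fun i j => CO_y2 (CO_hh b (CO_y1 (CO_ih (IL_ee hi hq hT _ hf)))) i j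

variable (hg : g⁻¹ ∈ S)
include hg

lemma IV_Ps (m i j : ℕ) {f : Lam F} (hf : f ∈ IL S t) : R.Ps hi g m i j f ∈ CO (IM t S) 0 := by
  have ht := hi.t_ne
  have h0 : (0 : F) ∈ S := zero_mem _
  have hG : ∀ (k a j : ℕ), GT hi g k (Finsupp.single a f) j ∈ IM t S (0 + j) := by
    intro k a
    by_cases h : a = k
    · subst h
      rw [GT_top]
      exact IL_run ht hq hT hg h0 _ (fun p hp => Or.inl (List.eq_of_mem_replicate hp))
        (IL_UU (IL_inc hf))
    · rw [GT_low hi g h]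
      exact IL_run ht hq hT hg h0 _ (fun p hp => Or.inl (List.eq_of_mem_replicate hp))
        (IL_inc (IL_GG hi hq hT hg hf))
  have hZ : ∀ (i : ℕ), ∀ v ∈ CO (IM t S) 0,
      (R.ZZ g ^ i : Module.End F (V2 F)) v ∈ CO (IM t S) 0 := by
    intro i v hv
    induction i with
    | zero => simpa using hv
    | succ i ih =>
      rw [pow_succ', Module.End.mul_apply]
      generalize (R.ZZ g ^ i : Module.End F (V2 F)) v = w at ih
      have e : R.ZZ g w = y1 * R.Y1 (g⁻¹ • R.Y1 w + (-g⁻¹) • w) := by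
        simp [Rt.ZZ, Gt, sub_eq_add_neg]
      rw [e]
      exact fun a b => CO_y1 (IV_Y1 hi hq hT R h1 h2 (add_mem (IV_smul hg
        (IV_Y1 hi hq hT R h1 h2 ih)) (IV_smul (neg_mem hg) ih))) a b
  unfold Rt.Ps
  split_ifs
  · exact IV_smul h2 (CO_i1 (hG m i))
  · simp only [LinearMap.comp_apply, R.Tb_i1]
    exact hZ i _ (add_mem (CO_i2 (hG _ j)) (IV_smul (sub_mem h2 (one_mem _)) (CO_ih (hG _ j))))

lemma IL_OUT (m : ℕ) {f : Lam F} (hf : f ∈ IL S t) : R.OUT hi g m f ∈ IL S t := by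
  have ht := hi.t_ne
  have hP : ∀ c d, ∀ f ∈ IL S t, PP q t c d f ∈ IL S t := fun c d f hf =>
    IL_psi ht hq hT c (IL_ee hi hq hT d hf)
  simp only [Rt.OUT, LinearMap.sum_apply, LinearMap.smul_apply, LinearMap.comp_apply, psi_Q_eq]
  refine sum_mem fun i _ => sum_mem fun j _ => IL_smul (pow_mem (mul_mem hq hT) _) ?_
  have h3 := IV_Ps hi hq hT R h1 h2 hg m i j (f := R.Lh (-1 - i) (-1 - j) f)
    (sub_mem (hP _ _ f hf) (IL_smul h1 (hP _ _ f hf)))
  generalize R.Ps hi g m i j (R.Lh (-1 - i) (-1 - j) f) = v at h3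
  have h4 : CA q t v ∈ IM t S 0 := IV_map _ _ (fun a b f hf => by
    rw [LinearMap.comp_apply]; exact IL_DD ht hq hT _ (IL_DD ht hq hT _ hf)) h3
  have h5 : CB q t v ∈ IM t S 0 := IV_map _ _ (fun a b f hf => hP _ _ f hf) h3
  exact add_mem h4 (IL_smul (mul_mem (sub_mem h2 (one_mem _)) h1) h5)

lemma OUT_int (ht : t = 1 + g) (ht' : t ∈ S) (m : ℕ) (d e : ℕ →₀ ℕ) :
    pw (br t) d * (zn e * coeff e (R.OUT hi g m (monomial d 1))) ∈ S := by
  have hg0 : g ≠ 0 := fun h => hi.t_ne_one (by rw [ht, h, add_zero])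
  have h3 : ∀ d : ℕ →₀ ℕ, (monomial d (pw (fun k => t ^ (k+1) - 1) d) : Lam F) ∈ IL S t := by
    intro d
    induction d using fs_ind with
    | h0 => rw [pw_zero]; exact one_mem _
    | hs d j ih =>
      rw [mono_succ', ← smul_mul_assoc, smul_eq_C_mul]
      exact mul_mem (IL_pk j) ih
  obtain ⟨a, ha, h4⟩ := IL_coeff (IL_OUT hi hq hT R h1 h2 hg m (h3 d)) e
  have e0 : (monomial d (pw (fun k => t ^ (k+1) - 1) d) : Lam F) =
      pw (fun k => t ^ (k+1) - 1) d • monomial d 1 := by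
    rw [smul_monomial, smul_eq_mul, mul_one]
  rw [e0, map_smul, coeff_smul, smul_eq_mul, pw_tau ht] at h4
  have h5 : pw (fun _ => g⁻¹) d * pw (fun _ => g) d = 1 := by
    rw [← pw_mul]; simp [pw, inv_mul_cancel₀ hg0]
  refine (congrArg (· ∈ S) ?_).mp (mul_mem (pw_sub (fun _ => hg) d) (mul_mem ha
    (pw_sub (s := fun k => t ^ (k+1) - 1) (fun k => sub_mem (pow_mem ht' _) (one_mem _)) e)))
  rw [← h4]
  linear_combination (pw (br t) d * (zn e * coeff e (R.OUT hi g m (monomial d 1)))) * h5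

end int

omit [CharZero F] in
lemma zn_pd (d : ℕ →₀ ℕ) (i : ℕ) (f : Lam F) : (zn d : F) * ((i + 1) * coeff d (pderiv i f)) =
    zn (d + Finsupp.single i 1) * coeff (d + Finsupp.single i 1) f := by
  rw [coeff_pderiv, zn_succ]; push_cast; ring

lemma cco_eq (hi : Indep q t) {n : ℕ} (π μ ν : n.Partition) : cco q t (mac hi) π μ ν =
    zqt q t π * ∑ l, TT q t ⟨n, l⟩ * mac hi l ν / (phi t 0 (Th (mac hi l)) * (1 - t) ^ n) /
      scal q t (mac hi l) (mac hi l) * (mac hi l π * mac hi l μ) := by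
  rw [cco]
  congr 1
  refine sum_congr rfl fun l _ => ?_
  have h0 := phi_mac hi _ l
  have h5 : cArm q t l ≠ 0 := left_ne_zero_of_mul (h0.symm ▸ pow_ne_zero _ hi.t_ne)
  have h1t : (1 - t) ≠ 0 := sub_ne_zero.mpr hi.t_ne_one.symm
  have h2 : scal q t (Jc q t (mac hi) l) (Jc q t (mac hi) l) =
      (cArm q t l / (1 - t) ^ n) ^ 2 * scal q t (mac hi l) (mac hi l) := by
    simp only [scal, Jc, mul_sum]; exact sum_congr rfl fun _ _ => by ring
  have h3 := mac_norm hi l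
  rw [ip_Th] at h3
  have hφ : phi t 0 (Th (mac hi l)) ≠ 0 := right_ne_zero_of_mul (h0.symm ▸ pow_ne_zero _ hi.t_ne)
  have e1 : t⁻¹ ^ (2 * nRow l) = t⁻¹ ^ nRow l * (cArm q t l * phi t 0 (Th (mac hi l)))⁻¹ := by
    rw [h0, two_mul, pow_add, inv_pow]
  rw [h2, Jc, Jc, Jc, e1, TT, prod_mono]
  field_simp

theorem OUT_cco (hi : Indep q t) {g : F} (ht : t = 1 + g) {k : ℕ} (π μ ν ν' : (k+1+2).Partition)
    (hν : dOf ν = Finsupp.single k 1 + Finsupp.single 0 1 + Finsupp.single 0 1)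
    (hν' : dOf ν' = Finsupp.single k 1 + Finsupp.single 1 1) (R : Rt q t) :
    2 * coeff (dOf μ) (R.OUT hi g (k+1) (monomial (dOf π) 1)) =
      2 * (cS q t 0 ^ 2 * g ^ 2 / br t k * (cco q t (mac hi) π μ ν * zz ν)) + R.σ *
        (cS q t 0 ^ 2 * g ^ 2 / br t k * (cco q t (mac hi) π μ ν * zz ν) +
          cS q t 1 * g ^ 2 / br t k * (cco q t (mac hi) π μ ν' * zz ν')) := by
  classical
  have hg : g ≠ 0 := fun h => hi.t_ne_one (by rw [ht, h, add_zero])
  choose a ha1 ha2 using R.out_eig hi hg (m := k+1) (by omega)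
  let Γ : (Σ n : ℕ, n.Partition) → F := fun i =>
    if h : i.1 = k+1+2 then a (h ▸ i.2) else 0
  have hH : ∀ f ∈ Hm F (k+1+2 : ℕ), R.OUT hi g (k+1) f = (macSys hi).Del Γ f := by
    intro f hf
    refine (macSys hi).Hm_ind (P := fun f => R.OUT hi g (k+1) f = (macSys hi).Del Γ f) (by simp)
      (fun f g hf hg => by simp only [map_add, hf, hg]) (fun c i hc => ?_) hf
    obtain ⟨n, l⟩ := i
    change (((cells l).card : ℕ) : ℤ) = _ at hc
    rw [card_cells] at hc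
    obtain rfl : n = k + 1 + 2 := by omega
    rw [map_smul, map_smul, Sys.Del_b, macSys_b, ha1]
    simp [Γ]
  rw [hH _ (by simpa [wt_dOf] using monomial_mem_Hm (dOf π) (1:F)), Del_coeff, cco_eq, cco_eq]
  simp only [mul_sum, sum_mul, ← sum_add_distrib]
  refine sum_congr rfl fun l _ => ?_
  have hΓ : Γ ⟨k+1+2, l⟩ = a l := by simp [Γ]
  have h0 := phi_mac hi _ l
  have hφ : phi t 0 (Th (mac hi l)) ≠ 0 := right_ne_zero_of_mul (h0.symm ▸ pow_ne_zero _ hi.t_ne)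
  have h1t : (1 - t) ≠ 0 := sub_ne_zero.mpr hi.t_ne_one.symm
  have hD := R.Lh_Hm (-1) (-1) (Th_Hm (mac hi l))
  rw [show ((k + 1 + 2 : ℕ) : ℤ) + -1 + -1 = (k+1 : ℕ) by push_cast; ring] at hD
  have h6 := theta_nabla hi ht hD
  have h7 := congrArg (coeff (Finsupp.single k 1)) (R.nabla_Lh hi (Th (mac hi l)))
  have s1 : ∀ f : Lam F, Sh (cS q t) 1 f = cS q t 0 • pderiv 0 f := fun f => by
    simpa using Sh_chain (cS q t) 1 f 1 le_rfl
  have s2 := congrArg (coeff (Finsupp.single k 1)) (Sh_chain (cS q t) 2 (Th (mac hi l)) 2 le_rfl)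
  rw [← macSys_b hi l, Sys.Del_b, macSys_b] at h7
  have z0 : zn (Finsupp.single k 1) = k + 1 := by
    rw [zn, Finsupp.prod_single_index (by simp)]; simp
  have z1 := zn_pd (Finsupp.single k 1) 0 (pderiv 0 (Th (mac hi l)))
  have z2 := zn_pd (Finsupp.single k 1 + Finsupp.single 0 1) 0 (Th (mac hi l))
  have z3 := zn_pd (Finsupp.single k 1) 1 (Th (mac hi l))
  rw [← hν, zn_dOf, coeff_Th] at z2
  rw [← hν', zn_dOf, coeff_Th] at z3
  rw [z0] at z1 z3
  norm_num [sum_range_succ, s1] at s2 h7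
  have h9 := ha2 l
  have hb := br_ne hi k
  have h10 : g = -(1 - t) := by rw [ht]; ring
  have e3 : qi t (k+1) = br t k := rfl
  have key : 2 * ((1 - t) ^ (k+1) * br t k * (a l * phi t 0 (Th (mac hi l)))) = TT q t ⟨_, l⟩ *
      ((2 + R.σ) * cS q t 0 ^ 2 * (zz ν * mac hi l ν) + R.σ * cS q t 1 * (zz ν' * mac hi l ν')) := by
    rw [h9, ← e3]
    push_cast at z1 z2 z3 h6
    linear_combination (-2 * R.s') * h6 + (2 * (k + 1)) * h7 + (R.σ * TT q t ⟨_, l⟩ * (k + 1)) * s2 +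
      (TT q t ⟨_, l⟩ * (2 + R.σ) * cS q t 0 ^ 2) * (z1 + z2) + (TT q t ⟨_, l⟩ * R.σ * cS q t 1) * z3
  rw [hΓ, h10]
  have e4 : a l = TT q t ⟨_, l⟩ * ((2 + R.σ) * cS q t 0 ^ 2 * (zz ν * mac hi l ν) +
      R.σ * cS q t 1 * (zz ν' * mac hi l ν')) /
      (2 * ((1 - t) ^ (k+1) * br t k * phi t 0 (Th (mac hi l)))) := by
    rw [← key]; field_simp
  rw [e4]
  field_simp
  ring

omit [CharZero F] in
lemma br_two (y : F) (r : ℕ) : br y (2 * r + 1) = br y 1 * br (y ^ 2) r := by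
  induction r with
  | zero => simp [br]
  | succ r ih =>
    simp only [br, show 2 * (r + 1) + 1 + 1 = 2 * r + 1 + 1 + 1 + 1 by ring,
      sum_range_succ _ (2 * r + 1 + 1 + 1), sum_range_succ _ (2 * r + 1 + 1),
      sum_range_succ _ (r + 1)] at ih ⊢
    rw [ih]; simp only [sum_range_succ, sum_range_zero]; ring

lemma cco_rot' (hi : Indep q t) {g : F} (ht : t = 1 + g) {n : ℕ} (π μ ν : n.Partition) :
    zz μ * cco q t (mac hi) π μ ν * pw (br t) (dOf π) = pw (fun j => br t j / aq g q j) (dOf μ) *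
      pw (aq g q) (dOf π) * (cco q t (mac hi) μ ν π * zz π) := by
  have hg : g ≠ 0 := fun h => hi.t_ne_one (by rw [ht, h, add_zero])
  have haq : ∀ j, aq g q j ≠ 0 := fun j =>
    mul_ne_zero (inv_ne_zero hg) (sub_ne_zero.mpr (hi.q_pow_ne j))
  have h2 := cco_rot (q := q) (t := t) (mac hi) π μ ν
  have h3 := zd_br hi ht (dOf μ)
  have h4 := zd_br hi ht (dOf π)
  have h5 : pw (fun j => br t j / aq g q j) (dOf μ) * pw (aq g q) (dOf μ) = pw (br t) (dOf μ) := by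
    rw [← pw_mul]; congr 1; funext j; exact div_mul_cancel₀ _ (haq j)
  rw [zd_dOf, zn_dOf] at h3 h4
  apply mul_left_cancel₀ (pw_ne haq (dOf μ))
  generalize cco q t (mac hi) π μ ν = A at h2 ⊢
  generalize cco q t (mac hi) μ ν π = B at h2 ⊢
  linear_combination (-(A * pw (br t) (dOf π))) * h3 +
    (pw (br t) (dOf μ) * pw (br t) (dOf π)) * h2 + (pw (br t) (dOf μ) * B) * h4 -
    (pw (aq g q) (dOf π) * B * zz π) * h5

section final
variable {σ : Type} {x : σ → F} (hx : AlgebraicIndependent ℚ x) {ib ig : σ} (h : ib ≠ ig)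

lemma fin2 (M : ℕ) (d e : ℕ →₀ ℕ) {c A : F} {s : ℕ → F} (W V : MvPolynomial σ ℤ) {x0 : σ → ℤ}
    (h0 : x0 ig = -1) (hW : eval x0 W = 1) (hV : eval x0 V = 1) (hc : aeval x W * c ∈ RR x ig)
    (hs : aeval x V * pw s d = pw (br (1 + x ig)) d)
    (hp : (1 + x ig) ^ M * (c * pw s d) * A ∈ (posD hx h).P)
    (hz : pw (br (1 + x ig)) d * (zn e * ((1 + x ig * (1 + x ib) - (1 + x ig)⁻¹) * A)) ∈ RR x ig) :
    ∃ P : MvPolynomial σ ℕ, zn e * ((1 + x ig) ^ M * (c * pw s d) * A) = aeval x P := by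
  obtain ⟨r1, _, _, r4⟩ := RR_facts hx h
  have rt := add_mem (one_mem _) r1
  refine fin_nat' hx h (mul_mem (natCast_mem _ _) hp) (W * V * ((1 + X ib) * (1 + X ig) + 1)) x0
    (by simp [hW, hV, h0]) ?_
  refine (congrArg (· ∈ RR x ig) ?_).mp (mul_mem (mul_mem (pow_mem rt M) hc)
    (mul_mem (mul_mem rt r4) hz))
  have h1 := mul_inv_cancel₀ (posD hx h).g0
  have h2 := mul_inv_cancel₀ (posD hx h).t0
  change x ig * (x ig)⁻¹ = 1 at h1
  simp only [map_mul, map_add, map_one, aeval_X, ← hs]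
  linear_combination ((1 + x ig) ^ M * aeval x W * c * aeval x V * pw s d * zn e * A) *
    (((1 + x ib) * (1 + x ig) + 1) * h1 - (x ig)⁻¹ * h2)

lemma int12 {m : ℕ} {d e : ℕ →₀ ℕ} {A1 A2 : F}
    (hA : ∀ R : Rt (1 + x ig * (1 + x ib)) (1 + x ig), 2 * coeff e
      (R.OUT (indep hx h) (x ig) m (monomial d 1)) = 2 * A1 + R.σ * (A1 + A2)) :
    pw (br (1 + x ig)) d * (zn e * ((1 + x ig * (1 + x ib) - (1 + x ig)⁻¹) * A1)) ∈ RR x ig ∧
    pw (br (1 + x ig)) d * (zn e * ((1 + x ig * (1 + x ib) - (1 + x ig)⁻¹) * A2)) ∈ RR x ig := by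
  obtain ⟨r1, r2, r3, r4⟩ := RR_facts hx h
  have rt := add_mem (one_mem _) r1
  have rq := add_mem (one_mem _) (mul_mem r1 (add_mem (one_mem _) r2))
  have h1 := OUT_int (indep hx h) rq r3 ⟨_, _, rfl, rfl⟩ rq r3 r4 rfl rt m d e
  have h2 := OUT_int (indep hx h) rq r3 ⟨_, _, mul_comm _ _, add_comm _ _⟩ r3 rq r4 rfl rt m d e
  have h3 := hA ⟨_, _, rfl, rfl⟩
  have h4 := hA ⟨_, _, mul_comm _ _, add_comm _ _⟩
  have h5 := sub_mem (mul_mem (sub_mem rq (one_mem _)) h1) (mul_mem (sub_mem r3 (one_mem _)) h2)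
  simp only [Rt.σ] at h3 h4
  constructor
  · refine (congrArg (· ∈ RR x ig) ?_).mp h5
    linear_combination (pw (br (1 + x ig)) d * zn e * 2⁻¹) *
      ((x ig * (1 + x ib)) * h3 - ((1 + x ig)⁻¹ - 1) * h4)
  · refine (congrArg (· ∈ RR x ig) ?_).mp (sub_mem (sub_mem (add_mem h2 h2) (add_mem h1 h1)) h5)
    linear_combination (pw (br (1 + x ig)) d * zn e) * (h4 - h3 -
      2⁻¹ * ((x ig * (1 + x ib)) * h3 - ((1 + x ig)⁻¹ - 1) * h4))

theorem nat_t3 {k : ℕ} (π μ ν ν' : (k+1+2).Partition)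
    (hν : dOf ν = Finsupp.single k 1 + Finsupp.single 0 1 + Finsupp.single 0 1)
    (hν' : dOf ν' = Finsupp.single k 1 + Finsupp.single 1 1) :
    (∃ P : MvPolynomial σ ℕ, zz μ * zz ν * (1 + x ig) ^ ((k+1+2) * (k+1+2-1)) *
      cco (1 + x ig * (1 + x ib)) (1 + x ig) (mac (indep hx h)) π μ ν = aeval x P) ∧
    ∃ P : MvPolynomial σ ℕ, zz μ * zz ν' * (1 + x ig) ^ ((k+1+2) * (k+1+2-1)) *
      cco (1 + x ig * (1 + x ib)) (1 + x ig) (mac (indep hx h)) π μ ν' = aeval x P := by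
  classical
  have hi := indep hx h
  let D := posD hx h
  have hg : x ig ≠ 0 := D.g0
  have ht : 1 + x ig ≠ 0 := D.t0
  have hα : 1 + x ib ≠ 0 := fun h0 => hi.q_pow_ne 0 (by rw [h0]; simp)
  have hb := br_ne hi k
  have hq : ∀ j, (1 + x ig * (1 + x ib)) ^ (j+1) - 1 =
      x ig * (1 + x ib) * br (1 + x ig * (1 + x ib)) j := fun j => by
    rw [br, ← mul_geom_sum, add_sub_cancel_left]
  have hβ : br (1 + x ig * (1 + x ib)) 1 ≠ 0 :=
    right_ne_zero_of_mul (hq 1 ▸ sub_ne_zero.mpr (hi.q_pow_ne 1))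
  have hA := OUT_cco hi rfl π μ ν ν' hν hν'
  obtain ⟨p1, p2⟩ := OUT_pos (D := D) ⟨1, 1 + x ib, one_mem _, add_mem (one_mem _) D.hb, one_mul _⟩
    hi (s := fun _ => 1) (fun j => ⟨_, D.br_mem D.q_mem j, by rw [mul_one, hq]; rfl⟩)
    (fun j => ⟨_, D.br_mem D.t_mem j, (mul_one _).symm⟩) (β := br (1 + x ig * (1 + x ib)) 1)
    (fun r => ⟨_, D.br_mem (pow_mem D.q_mem 2) r, by rw [mul_one, hq, br_two]; rfl⟩)
    (m := k+1) (by omega) (D.br_mem D.t_mem k) (fun j => by rw [mul_one]; exact D.qdiv j)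
    (fun y d hd hy => by
      have := sum_t D y d hy
      rw [hd] at this
      simp only [mul_one]
      exact this) (D.br_mem D.q_mem 1) hβ
    (PF_add D (PF_of D (one_mem _) zero_le_one) (PF_div D (one_mem _)))
    (by simp [br, sum_range_succ]) _ _ (wt_dOf π) hA
  obtain ⟨i1, i2⟩ := int12 hx h hA
  obtain ⟨r1, r2, r3, r4⟩ := RR_facts hx h
  have rb : br (1 + x ig) k ∈ RR x ig := sum_mem fun i _ => pow_mem (add_mem (one_mem _) r1) i
  have h1 : pw (fun _ => (1:F)) (dOf π) = 1 := by simp [pw]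
  have hV : eval (fun i => if i = ig then -1 else 0)
      (π.parts.map fun i => ∑ j ∈ range i, (1 + X ig : MvPolynomial σ ℤ) ^ j).prod = 1 := by
    rw [map_multiset_prod, Multiset.map_map]
    refine Multiset.prod_eq_one fun y hy => ?_
    obtain ⟨i, hi', rfl⟩ := Multiset.mem_map.mp hy
    exact eval_geom _ (by simp) (π.parts_pos hi')
  have hs : aeval x (π.parts.map fun i => ∑ j ∈ range i, (1 + X ig : MvPolynomial σ ℤ) ^ j).prod *
      pw (fun _ => (1:F)) (dOf π) = pw (br (1 + x ig)) (dOf π) := by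
    simp only [map_multiset_prod, Multiset.map_map, Function.comp_def, aeval_qi, map_add, map_one,
      aeval_X, h1, mul_one]
    exact (prod_dOf π (qi (1 + x ig))).symm
  have e : (k+1+2) * (k+1+2-1) = (k+1+2) * (k+1+1) := rfl
  change _ * (_ * (x ig)⁻¹ * (x ig)⁻¹ * (x ig * (1 + x ib))⁻¹ * (x ig * (1 + x ib))⁻¹ * _) * _ ∈ _
    at p1
  change _ * (_ * (x ig)⁻¹ * (x ig)⁻¹ * (x ig * (1 + x ib))⁻¹ * _ * _) * _ ∈ _ at p2
  constructor
  · obtain ⟨P, hP⟩ := fin2 hx h _ _ _ ((1 + X ib) * (1 + X ib)) _ (by simp) (by simp [h]) hV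
      ((congrArg (· ∈ RR x ig) (by simp only [map_mul, map_add, map_one, aeval_X]; field_simp)).mp
        (mul_mem rb (pow_mem r4 4))) hs p1 i1
    refine ⟨P, ?_⟩
    rw [← hP, e, zn_dOf, h1, cS, hq]
    simp only [br, zero_add, range_one, sum_singleton, pow_zero] at hb ⊢
    field_simp
    ring
  · obtain ⟨P, hP⟩ := fin2 hx h _ _ _ ((1 + X ib) * ∑ j ∈ range 2, (1 + X ig * (1 + X ib)) ^ j) _
      (by simp) (by simp [h, sum_range_succ]) hV
      ((congrArg (· ∈ RR x ig) (by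
        simp only [map_mul, map_add, map_one, aeval_X, aeval_qi]
        change _ = _ * br _ 1 * _
        field_simp)).mp (mul_mem rb (pow_mem r4 3))) hs p2 i2
    refine ⟨P, ?_⟩
    rw [← hP, e, zn_dOf, h1, cS, hq, pow_add _ _ 2, inv_pow]
    generalize cco _ _ (mac (indep hx h)) π μ ν' = c
    generalize br (1 + x ig * (1 + x ib)) 1 = B at hβ
    field_simp
    ring

theorem nat_q3 {k : ℕ} (μ ν π π' : (k+1+2).Partition)
    (hπ : dOf π = Finsupp.single k 1 + Finsupp.single 0 1 + Finsupp.single 0 1)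
    (hπ' : dOf π' = Finsupp.single k 1 + Finsupp.single 1 1) :
    (∃ P : MvPolynomial σ ℕ, zz μ * zz ν * (1 + x ig) ^ ((k+1+2) * (k+1+2-1)) *
      cco (1 + x ig * (1 + x ib)) (1 + x ig) (mac (indep hx h)) π μ ν = aeval x P) ∧
    ∃ P : MvPolynomial σ ℕ, zz μ * zz ν * (1 + x ig) ^ ((k+1+2) * (k+1+2-1)) *
      cco (1 + x ig * (1 + x ib)) (1 + x ig) (mac (indep hx h)) π' μ ν = aeval x P := by
  classical
  have hi := indep hx h
  let D := posD hx h
  have hg : x ig ≠ 0 := D.g0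
  have ht : 1 + x ig ≠ 0 := D.t0
  have hb := br_ne hi k
  have hβ := br_ne hi 1
  have haq : ∀ j, aq (x ig) (1 + x ig * (1 + x ib)) j ≠ 0 := fun j =>
    mul_ne_zero (inv_ne_zero hg) (sub_ne_zero.mpr (hi.q_pow_ne j))
  have hs : (fun j => aq (x ig) (1 + x ig * (1 + x ib)) j *
      (br (1 + x ig) j / aq (x ig) (1 + x ig * (1 + x ib)) j)) = br (1 + x ig) :=
    funext fun j => mul_div_cancel₀ _ (haq j)
  have hq : ∀ j, ((1 + x ig * (1 + x ib)) ^ (j+1) - 1) *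
      (br (1 + x ig) j / aq (x ig) (1 + x ig * (1 + x ib)) j) = x ig * 1 * br (1 + x ig) j := by
    intro j
    rw [← mul_inv_cancel_left₀ hg (_ - 1), ← aq, mul_assoc, congrFun hs j, mul_one]
  have hA := OUT_cco hi rfl μ ν π π' hπ hπ'
  obtain ⟨p1, p2⟩ := OUT_pos (D := D) ⟨1 + x ib, 1, add_mem (one_mem _) D.hb, one_mem _, mul_one _⟩
    hi (s := fun j => br (1 + x ig) j / aq (x ig) (1 + x ig * (1 + x ib)) j)
    (fun j => ⟨_, D.br_mem D.t_mem j, hq j⟩) (fun j => ⟨_, D.qdiv j, (congrFun hs j).symm⟩)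
    (β := br (1 + x ig) 1)
    (fun r => ⟨_, D.br_mem (pow_mem D.t_mem 2) r, by rw [hq, br_two]; rfl⟩)
    (m := k+1) (by omega) (D.qdiv k) (fun j => (congrFun hs j).symm ▸ D.br_mem D.t_mem j)
    (fun y d hd hy => by
      have := sum_q D y d hy
      rw [hd, ← hs] at this
      exact this) (D.br_mem D.t_mem 1) hβ (PF_div D (add_mem (one_mem _) D.q_mem))
    (by simp only [br, sum_range_succ, sum_range_zero]; field_simp; ring) _ _ (wt_dOf μ) hA
  obtain ⟨i1, i2⟩ := int12 hx h hA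
  obtain ⟨r1, r2, r3, r4⟩ := RR_facts hx h
  have rb : (1 + x ig * (1 + x ib)) ^ (k+1) - 1 ∈ RR x ig := sub_mem
    (pow_mem (add_mem (one_mem _) (mul_mem r1 (add_mem (one_mem _) r2))) _) (one_mem _)
  have hV : eval (fun i => if i = ig then -1 else 0) (μ.parts.map fun i =>
      (1 + X ib) * ∑ j ∈ range i, (1 + X ig * (1 + X ib) : MvPolynomial σ ℤ) ^ j).prod = 1 := by
    rw [map_multiset_prod, Multiset.map_map]
    refine Multiset.prod_eq_one fun y hy => ?_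
    obtain ⟨i, hi', rfl⟩ := Multiset.mem_map.mp hy
    rw [Function.comp_apply, map_mul, eval_geom _ (by simp [h]) (μ.parts_pos hi')]
    simp [h]
  have hs' : aeval x (μ.parts.map fun i =>
      (1 + X ib) * ∑ j ∈ range i, (1 + X ig * (1 + X ib) : MvPolynomial σ ℤ) ^ j).prod *
      pw (fun j => br (1 + x ig) j / aq (x ig) (1 + x ig * (1 + x ib)) j) (dOf μ) =
      pw (br (1 + x ig)) (dOf μ) := by
    have haq' : ∀ k, (x ig)⁻¹ * ((1 + x ig * (1 + x ib)) ^ k - 1) =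
        (1 + x ib) * qi (1 + x ig * (1 + x ib)) k := fun k => by
      rw [qi, ← mul_geom_sum]; field_simp; ring
    have e3 : pw (aq (x ig) (1 + x ig * (1 + x ib))) (dOf μ) =
        (μ.parts.map fun i => (1 + x ib) * qi (1 + x ig * (1 + x ib)) i).prod := by
      rw [← funext haq']
      exact prod_dOf μ fun k => (x ig)⁻¹ * ((1 + x ig * (1 + x ib)) ^ k - 1)
    simp only [map_multiset_prod, Multiset.map_map, Function.comp_def, aeval_qi, map_add, map_one,
      map_mul, aeval_X]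
    rw [← e3, ← pw_mul, hs]
  have e : (k+1+2) * (k+1+2-1) = (k+1+2) * (k+1+1) := rfl
  have c1 := cco_rot' hi rfl π μ ν
  have c2 := cco_rot' hi rfl π' μ ν
  have b0 : br (1 + x ig) 0 = 1 := by simp [br]
  simp only [hπ, hπ', pw_add, pw_single, b0, mul_one] at c1 c2
  change _ * ((x ig)⁻¹ * _ * (x ig)⁻¹ * (x ig)⁻¹ * (x ig * 1)⁻¹ * (x ig * 1)⁻¹ * _) * _ ∈ _ at p1
  change _ * ((x ig)⁻¹ * _ * (x ig)⁻¹ * (x ig)⁻¹ * (x ig * 1)⁻¹ * _ * _) * _ ∈ _ at p2
  constructor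
  · obtain ⟨P, hP⟩ := fin2 hx h _ _ _ 1 _ (by simp) (by simp) hV
      ((congrArg (· ∈ RR x ig) (by rw [map_one]; field_simp)).mp
        (mul_mem rb (pow_mem r4 5))) hs' p1 i1
    refine ⟨P, ?_⟩
    rw [← hP, e, zn_dOf, mul_comm (zz μ : F), mul_assoc, mul_assoc, mul_left_comm (zz μ : F),
      eq_div_of_mul_eq hb c1, pow_add _ _ 2]
    generalize pw (fun j => br (1 + x ig) j / aq (x ig) (1 + x ig * (1 + x ib)) j) (dOf μ) = S
    generalize cco _ _ (mac hi) μ ν π = c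
    simp only [cS, aq, inv_pow]
    generalize 1 + x ig * (1 + x ib) = q
    field_simp
    ring
  · obtain ⟨P, hP⟩ := fin2 hx h _ _ _ (∑ j ∈ range 2, (1 + X ig) ^ j) _
      (by simp) (by simp [sum_range_succ]) hV
      ((congrArg (· ∈ RR x ig) (by
        simp only [map_add, map_one, aeval_X, aeval_qi]
        change _ = br _ 1 * _
        field_simp)).mp (mul_mem rb (pow_mem r4 4))) hs' p2 i2
    refine ⟨P, ?_⟩
    rw [← hP, e, zn_dOf, mul_comm (zz μ : F), mul_assoc, mul_assoc, mul_left_comm (zz μ : F),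
      eq_div_of_mul_eq (mul_ne_zero hb hβ) c2, pow_add _ _ 2]
    generalize pw (fun j => br (1 + x ig) j / aq (x ig) (1 + x ig * (1 + x ib)) j) (dOf μ) = S
    generalize cco _ _ (mac hi) μ ν π' = c
    simp only [cS, aq, inv_pow]
    generalize 1 + x ig * (1 + x ib) = q
    field_simp
    ring

end final

lemma big_part2 {n : ℕ} (l : n.Partition) {k : ℕ} (hk : k ∈ l.parts) (h : n = k + 2) :
    ∃ j, n = j + 1 + 2 ∧
      (dOf l = Finsupp.single j 1 + Finsupp.single 0 1 + Finsupp.single 0 1 ∨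
        dOf l = Finsupp.single j 1 + Finsupp.single 1 1) := by
  obtain ⟨r, hr⟩ := Multiset.exists_cons_of_mem hk
  have h1 := l.parts_sum
  have h2 : ∀ i ∈ r, 0 < i := fun i hi => l.parts_pos (by rw [hr]; exact Multiset.mem_cons_of_mem hi)
  have h3 := l.parts_pos hk
  rw [hr, Multiset.sum_cons] at h1
  have h4 : r.sum = 2 := by omega
  refine ⟨k - 1, by omega, ?_⟩
  obtain ⟨L, rfl⟩ := Quotient.exists_rep r
  rw [dOf, hr]
  simp only [← Multiset.toFinsupp_singleton, ← map_add]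
  match L, h2, h4 with
  | [], _, h4 => simp at h4
  | [a], _, h4 =>
    obtain rfl : a = 2 := by simpa using h4
    right; rfl
  | [a, b], h2, h4 =>
    have := h2 a (by simp)
    have := h2 b (by simp)
    simp at h4
    obtain rfl : a = 1 := by omega
    obtain rfl : b = 1 := by omega
    left; rfl
  | a :: b :: c :: L, h2, h4 =>
    have := h2 a (by simp)
    have := h2 b (by simp)
    have := h2 c (by simp)
    simp at h4; omega

lemma exists_shapes (j : ℕ) : ∃ ν ν' : (j+1+2).Partition,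
    dOf ν = Finsupp.single j 1 + Finsupp.single 0 1 + Finsupp.single 0 1 ∧
      dOf ν' = Finsupp.single j 1 + Finsupp.single 1 1 := by
  obtain ⟨ν, h⟩ := exists_dOf (n := j+1+2)
    (d := Finsupp.single j 1 + Finsupp.single 0 1 + Finsupp.single 0 1)
    (by simp only [wt_add, wt_single])
  obtain ⟨ν', h'⟩ := exists_dOf (n := j+1+2) (d := Finsupp.single j 1 + Finsupp.single 1 1)
    (by simp only [wt_add, wt_single])
  exact ⟨ν, ν', h, h'⟩

end Two22
end MJ
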