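import Mathlib

/-! Exponential sequences: `ex a r` is the coefficient of `u^r` in `exp (∑ a_k u^(k+1)/(k+1))`. -/

namespace MJ
open Finset

section
variable (F : Type) [Field F] {A : Type} [CommRing A] [Algebra F A]

noncomputable def ex (a : ℕ → A) : ℕ → A
  | 0 => 1
  | r+1 => ((r+1 : F)⁻¹) • ∑ k : Fin (r+1), a k * ex a (r - k)
decreasing_by omega

noncomputable def Ex (a : ℕ → A) : PowerSeries A := PowerSeries.mk (ex F a)

/-- integer indexed coefficient -/
noncomputable def cz (P : PowerSeries A) (m : ℤ) : A :=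
  if 0 ≤ m then PowerSeries.coeff m.toNat P else 0

variable {F}

@[simp] lemma ex_zero (a : ℕ → A) : ex F a 0 = 1 := by rw [ex]

lemma ex_succ' (a : ℕ → A) (r : ℕ) :
    ex F a (r+1) = ((r+1 : F)⁻¹) • ∑ k ∈ range (r+1), a k * ex F a (r - k) := by
  rw [ex, Fin.sum_univ_eq_sum_range (fun k => a k * ex F a (r - k))]

lemma ex_succ [CharZero F] (a : ℕ → A) (r : ℕ) :
    ((r+1 : F)) • ex F a (r+1) = ∑ k ∈ range (r+1), a k * ex F a (r - k) := by
  rw [ex_succ', smul_smul, mul_inv_cancel₀ (by exact_mod_cast Nat.succ_ne_zero r), one_smul]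

lemma map_ex {B : Type} [CommRing B] [Algebra F B] (φ : A →ₐ[F] B) (a : ℕ → A) (r : ℕ) :
    φ (ex F a r) = ex F (fun k => φ (a k)) r := by
  induction r using Nat.strong_induction_on with
  | _ r ih =>
    cases r with
    | zero => simp
    | succ r =>
      rw [ex_succ', ex_succ', map_smul, map_sum]
      congr 1
      refine sum_congr rfl fun k _ => ?_
      rw [map_mul, ih _ (by omega)]

lemma Ex_deriv [CharZero F] (a : ℕ → A) :
    PowerSeries.derivative A (Ex F a) = PowerSeries.mk a * Ex F a := by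
  ext r
  rw [PowerSeries.coeff_derivative, PowerSeries.coeff_mul, Nat.sum_antidiagonal_eq_sum_range_succ_mk]
  simp only [Ex, PowerSeries.coeff_mk]
  rw [← ex_succ (F := F), Algebra.smul_def, mul_comm]
  simp

lemma Ex_unique [CharZero F] (a : ℕ → A) (P : PowerSeries A)
    (h0 : PowerSeries.coeff 0 P = 1)
    (h : PowerSeries.derivative A P = PowerSeries.mk a * P) : P = Ex F a := by
  ext r
  induction r using Nat.strong_induction_on with
  | _ r ih =>
    cases r with
    | zero => rw [h0]; simp [Ex]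
    | succ r =>
      have h1 := congrArg (PowerSeries.coeff r) h
      rw [PowerSeries.coeff_derivative, PowerSeries.coeff_mul,
        Nat.sum_antidiagonal_eq_sum_range_succ_mk] at h1
      simp only [PowerSeries.coeff_mk] at h1
      have h2 : ∑ k ∈ range (r+1), a k * PowerSeries.coeff (r - k) P
          = ∑ k ∈ range (r+1), a k * ex F a (r - k) := by
        refine sum_congr rfl fun k _ => ?_
        rw [ih _ (by omega)]; simp [Ex]
      simp only [Nat.succ_eq_add_one] at h1
      rw [h2] at h1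
      simp only [Ex, PowerSeries.coeff_mk]
      rw [ex_succ', ← h1]
      have : ((r:A) + 1) = algebraMap F A ((r:F)+1) := by simp
      rw [this, mul_comm, ← Algebra.smul_def, smul_smul,
        inv_mul_cancel₀ (by exact_mod_cast Nat.succ_ne_zero r), one_smul]

@[simp] lemma Ex_coeff (a : ℕ → A) (r : ℕ) : PowerSeries.coeff r (Ex F a) = ex F a r := by
  simp [Ex]

lemma Ex_add [CharZero F] (a b : ℕ → A) :
    Ex F (fun k => a k + b k) = Ex F a * Ex F b := by
  symm
  apply Ex_unique
  · simp [PowerSeries.coeff_mul]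
  · rw [Derivation.leibniz, Ex_deriv, Ex_deriv]
    have : PowerSeries.mk (fun k => a k + b k) = PowerSeries.mk a + PowerSeries.mk b := by
      ext; simp
    rw [this]; simp only [smul_eq_mul]; ring

lemma Ex_zero [CharZero F] : Ex F (fun _ => (0 : A)) = 1 := by
  symm
  apply Ex_unique
  · simp
  · have : PowerSeries.mk (fun _ => (0 : A)) = 0 := by ext; simp
    rw [this]; simp

lemma Ex_neg_geom [CharZero F] (u : A) :
    Ex F (fun k => - u ^ (k+1)) = 1 - PowerSeries.C u * PowerSeries.X := by
  symm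
  apply Ex_unique
  · simp
  · ext r
    rw [mul_sub, mul_one, ← mul_assoc, PowerSeries.coeff_derivative]
    cases r with
    | zero => simp [PowerSeries.coeff_one]
    | succ r =>
      simp [PowerSeries.coeff_one, PowerSeries.coeff_succ_mul_X]
      ring

lemma Ex_geom [CharZero F] (u : A) :
    Ex F (fun k => u ^ (k+1)) * (1 - PowerSeries.C u * PowerSeries.X) = 1 := by
  rw [← Ex_neg_geom (F := F), ← Ex_add]
  simpa using Ex_zero (F := F) (A := A)

lemma Ex_sum [CharZero F] {ι : Type} (s : Finset ι) (a : ι → ℕ → A) :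
    Ex F (fun k => ∑ i ∈ s, a i k) = ∏ i ∈ s, Ex F (a i) := by
  classical
  induction s using Finset.induction_on with
  | empty => simpa using Ex_zero (F := F) (A := A)
  | insert i s hi ih =>
    rw [prod_insert hi, ← ih, ← Ex_add]; simp [sum_insert hi]

end

section cz
variable {A : Type} [CommRing A]

@[simp] lemma cz_nat (P : PowerSeries A) (n : ℕ) : cz P n = PowerSeries.coeff n P := by
  simp [cz]

lemma cz_neg (P : PowerSeries A) {m : ℤ} (h : m < 0) : cz P m = 0 := by
  simp [cz, not_le.mpr h]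

lemma cz_add (P Q : PowerSeries A) (m : ℤ) : cz (P + Q) m = cz P m + cz Q m := by
  unfold cz; split_ifs <;> simp

lemma cz_sub (P Q : PowerSeries A) (m : ℤ) : cz (P - Q) m = cz P m - cz Q m := by
  unfold cz; split_ifs <;> simp

lemma cz_mul_CX (P : PowerSeries A) (u : A) (m : ℤ) :
    cz (P * (PowerSeries.C u * PowerSeries.X)) m = u * cz P (m - 1) := by
  rcases lt_trichotomy m 0 with h | h | h
  · rw [cz_neg _ h, cz_neg _ (by omega), mul_zero]
  · subst h
    rw [cz_neg P (by omega)]
    simp [cz]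
  · obtain ⟨n, rfl⟩ : ∃ n : ℕ, m = (n + 1 : ℕ) := ⟨(m - 1).toNat, by omega⟩
    have : ((n + 1 : ℕ) : ℤ) - 1 = n := by omega
    rw [this, cz_nat, cz_nat, ← mul_assoc, PowerSeries.coeff_succ_mul_X, mul_comm]
    simp

lemma cz_mul_one_sub (P : PowerSeries A) (u : A) (m : ℤ) :
    cz (P * (1 - PowerSeries.C u * PowerSeries.X)) m = cz P m - u * cz P (m - 1) := by
  rw [mul_sub, mul_one, cz_sub, cz_mul_CX]

lemma map_cz_Ex {F : Type} [Field F] [Algebra F A] {B : Type} [CommRing B] [Algebra F B]
    (φ : A →ₐ[F] B) (a : ℕ → A) (m : ℤ) :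
    φ (cz (Ex F a) m) = cz (Ex F (fun k => φ (a k))) m := by
  unfold cz; split_ifs
  · simp [map_ex]
  · simp

end cz
end MJ
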