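import Pool.Agent.Lib.MP_9c49f6_co.Main

/-! Specialization to algebraically independent parameters. -/

namespace MJ
open Finset MvPolynomial

section poly
variable {σ : Type}

noncomputable def NN (σ : Type) : Subsemiring (MvPolynomial σ ℚ) where
  carrier := {p | ∀ d, 0 ≤ coeff d p}
  mul_mem' := by
    classical
    intro a b ha hb d; rw [coeff_mul]; exact sum_nonneg fun p _ => mul_nonneg (ha _) (hb _)
  one_mem' := by classical intro d; rw [coeff_one]; split_ifs <;> simp
  add_mem' := by intro a b ha hb d; rw [coeff_add]; exact add_nonneg (ha _) (hb _)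
  zero_mem' := by intro d; simp

noncomputable def ZZ (σ : Type) : Subring (MvPolynomial σ ℚ) where
  carrier := {p | ∀ d, coeff d p ∈ (Int.castRingHom ℚ).range}
  mul_mem' := by
    classical
    intro a b ha hb d; rw [coeff_mul]; exact sum_mem fun p _ => mul_mem (ha _) (hb _)
  one_mem' := by
    classical
    intro d; rw [coeff_one]; split_ifs
    · exact one_mem _
    · exact zero_mem _
  add_mem' := by intro a b ha hb d; rw [coeff_add]; exact add_mem (ha _) (hb _)
  zero_mem' := by intro d; exact zero_mem _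
  neg_mem' := by intro a ha d; rw [coeff_neg]; exact neg_mem (ha _)

lemma X_NN (i : σ) : X i ∈ NN σ := by
  classical
  intro d; rw [coeff_X]; split_ifs <;> simp

lemma C_NN {a : ℚ} (h : 0 ≤ a) : C a ∈ NN σ := by
  classical
  intro d; rw [coeff_C]; split_ifs <;> simp [h]

lemma X_ZZ (i : σ) : X i ∈ ZZ σ := by
  classical
  intro d; rw [coeff_X]; split_ifs
  · exact one_mem _
  · exact zero_mem _

lemma gauss (i : σ) {p : MvPolynomial σ ℚ} (h : X i * (1 + X i) * p ∈ ZZ σ) : p ∈ ZZ σ := by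
  classical
  have h1 : ∀ d, coeff d ((1 + X i) * p) ∈ (Int.castRingHom ℚ).range := fun d => by
    have := h (Finsupp.single i 1 + d)
    rwa [mul_assoc, coeff_X_mul] at this
  have : ∀ k, ∀ d : σ →₀ ℕ, d i = k → coeff d p ∈ (Int.castRingHom ℚ).range := by
    intro k
    induction k with
    | zero =>
      intro d hd
      have := h1 d
      rwa [add_mul, one_mul, coeff_add, coeff_X_mul', if_neg (by simp [hd]), add_zero] at this
    | succ k ih =>
      intro d hd
      have := h1 d
      rw [add_mul, one_mul, coeff_add, coeff_X_mul', if_pos (by simp [hd])] at this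
      have h2 := sub_mem this (ih (d - Finsupp.single i 1) (by simp [hd]))
      rwa [add_sub_cancel_right] at h2
  exact fun d => this _ d rfl

lemma gauss_pow (i : σ) (e : ℕ) {p : MvPolynomial σ ℚ} (h : (X i * (1 + X i)) ^ e * p ∈ ZZ σ) :
    p ∈ ZZ σ := by
  induction e with
  | zero => simpa using h
  | succ e ih => exact ih (gauss i (by rwa [pow_succ', mul_assoc] at h))

lemma coeff_sum_mono (u : Multiset (Fin 2 →₀ ℕ)) (d : Fin 2 →₀ ℕ) :
    coeff d (u.map fun e => (monomial e 1 : MvPolynomial (Fin 2) ℚ)).sum = u.count d := by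
  induction u using Multiset.induction_on with
  | empty => simp
  | cons a u ih =>
    rw [Multiset.map_cons, Multiset.sum_cons, coeff_add, ih, coeff_monomial, Multiset.count_cons]
    by_cases h : a = d
    · subst h; simp [add_comm]
    · simp [h, Ne.symm h]

end poly

variable {σ F : Type} [Field F] [CharZero F] {x : σ → F}

lemma to_nat (x : σ → F) {p : MvPolynomial σ ℚ} (h1 : p ∈ NN σ) (h2 : p ∈ ZZ σ) :
    ∃ P : MvPolynomial σ ℕ, aeval x p = aeval x P := by
  choose z hz using h2
  refine ⟨∑ d ∈ p.support, monomial d (z d).toNat, ?_⟩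
  conv_lhs => rw [p.as_sum]
  rw [map_sum, map_sum]
  refine sum_congr rfl fun d _ => ?_
  have h3 : 0 ≤ z d := by
    have := h1 d
    rw [← hz d] at this; simpa using this
  rw [aeval_monomial, aeval_monomial, ← hz d]
  congr 1
  obtain ⟨m, hm⟩ := Int.eq_ofNat_of_zero_le h3
  simp [hm]

lemma indep (hx : AlgebraicIndependent ℚ x) {ib ig : σ} (h : ib ≠ ig) :
    Indep (1 + x ig * (1 + x ib)) (1 + x ig) := by
  classical
  have hinj := algebraicIndependent_iff_injective_aeval.mp hx
  have ht : 1 + x ig ≠ 0 := fun h0 => by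
    have := congrArg constantCoeff (hinj (a₁ := 1 + X ig) (a₂ := 0) (by simpa using h0))
    simp at this
  intro s s' hs
  set M := ((s + s').map Prod.fst).sum
  have hM : ∀ c ∈ s + s', c.1 ≤ M := fun c hc =>
    Multiset.le_sum_of_mem (Multiset.mem_map_of_mem _ hc)
  have k1 : ∀ u : Multiset (ℕ × ℕ), (∀ c ∈ u, c.1 ≤ M) →
      (1 + x ig) ^ M * (u.map (mono (1 + x ig * (1 + x ib)) (1 + x ig))).sum =
      aeval x (u.map fun c => ((1 + X ig * (1 + X ib)) ^ c.2 * (1 + X ig) ^ (M - c.1) :
        MvPolynomial σ ℚ)).sum := by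
    intro u hu
    rw [map_multiset_sum, Multiset.map_map, ← Multiset.sum_map_mul_left]
    congr 1
    refine Multiset.map_congr rfl fun c hc => ?_
    obtain ⟨r, hr⟩ := Nat.exists_eq_add_of_le (hu c hc)
    simp only [mono, Function.comp, map_mul, map_pow, map_add, map_one, aeval_X, hr, inv_pow,
      Nat.add_sub_cancel_left]
    field_simp; ring
  have h1 := k1 s fun c hc => hM c (by simp [hc])
  have h2 := k1 s' fun c hc => hM c (by simp [hc])
  simp only at hs
  rw [hs, h2] at h1
  let B := MvPolynomial (Fin 2) ℚ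
  let ρ := algebraMap B (FractionRing B)
  have hρ : Function.Injective ρ := IsFractionRing.injective _ _
  have hT : ρ (X 1) - 1 ≠ 0 := fun h0 => by
    have := congrArg constantCoeff (hρ (a₁ := X 1) (a₂ := 1) (by simpa [sub_eq_zero] using h0))
    simp at this
  let φ : MvPolynomial σ ℚ →ₐ[ℚ] FractionRing B :=
    aeval fun i => if i = ig then ρ (X 1) - 1 else (ρ (X 0) - ρ (X 1)) / (ρ (X 1) - 1)
  have e1 : φ (1 + X ig) = ρ (X 1) := by simp [φ]
  have e2 : φ (1 + X ig * (1 + X ib)) = ρ (X 0) := by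
    simp only [φ, map_add, map_mul, map_one, aeval_X, if_true, if_neg h]
    rw [mul_add, mul_one, mul_div_cancel₀ _ hT]; ring
  let f : ℕ × ℕ → (Fin 2 →₀ ℕ) := fun c => Finsupp.single 0 c.2 + Finsupp.single 1 (M - c.1)
  have k2 : ∀ u : Multiset (ℕ × ℕ),
      φ (u.map fun c => ((1 + X ig * (1 + X ib)) ^ c.2 * (1 + X ig) ^ (M - c.1) :
        MvPolynomial σ ℚ)).sum = ρ ((u.map f).map fun e => monomial e 1).sum := by
    intro u
    rw [map_multiset_sum, map_multiset_sum, Multiset.map_map, Multiset.map_map, Multiset.map_map]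
    congr 1
    refine Multiset.map_congr rfl fun c _ => ?_
    simp only [Function.comp, map_mul φ, map_pow φ, e1, e2, f]
    rw [← map_pow, ← map_pow, ← map_mul, X_pow_eq_monomial, X_pow_eq_monomial, monomial_mul,
      one_mul]
  have h3 := congrArg φ (hinj h1)
  rw [k2, k2] at h3
  have h4 : s'.map f = s.map f := by
    ext d
    have := congrArg (coeff d) (hρ h3)
    rw [coeff_sum_mono, coeff_sum_mono] at this
    exact_mod_cast this
  have k3 : ∀ u : Multiset (ℕ × ℕ), (∀ c ∈ u, c.1 ≤ M) →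
      (u.map f).map (fun d => (M - d 1, d 0)) = u := by
    intro u hu
    rw [Multiset.map_map]
    conv_rhs => rw [← Multiset.map_id u]
    refine Multiset.map_congr rfl fun c hc => ?_
    have := hu c hc
    ext <;> simp [f]; omega
  rw [← k3 s fun c hc => hM c (by simp [hc]), ← h4, k3 s' fun c hc => hM c (by simp [hc])]

noncomputable def RR (x : σ → F) (ig : σ) : Subring F where
  carrier := {y | ∃ e : ℕ, ∃ B ∈ ZZ σ, (x ig * (1 + x ig)) ^ e * y = aeval x B}
  mul_mem' := by
    rintro a b ⟨e, A, hA, h1⟩ ⟨e', B, hB, h2⟩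
    exact ⟨e + e', A * B, mul_mem hA hB, by rw [map_mul, ← h1, ← h2]; ring⟩
  one_mem' := ⟨0, 1, one_mem _, by simp⟩
  add_mem' := by
    rintro a b ⟨e, A, hA, h1⟩ ⟨e', B, hB, h2⟩
    have := mul_mem (X_ZZ ig) (add_mem (one_mem _) (X_ZZ ig))
    refine ⟨e + e', _, add_mem (mul_mem (pow_mem this e') hA) (mul_mem (pow_mem this e) hB), ?_⟩
    simp only [map_add, map_mul, map_pow, map_one, aeval_X, ← h1, ← h2]; ring
  zero_mem' := ⟨0, 0, zero_mem _, by simp⟩
  neg_mem' := by
    rintro a ⟨e, A, hA, h1⟩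
    exact ⟨e, -A, neg_mem hA, by rw [map_neg, ← h1]; ring⟩

lemma RR_mem (ig : σ) {p : MvPolynomial σ ℚ} (h : p ∈ ZZ σ) : aeval x p ∈ RR x ig :=
  ⟨0, p, h, by simp⟩

theorem main_nat (hx : AlgebraicIndependent ℚ x) {ib ig : σ} (h : ib ≠ ig)
    {W : MvPolynomial σ ℚ} (hW1 : W ∈ NN σ) (hW2 : W ∈ ZZ σ) {n : ℕ} (hn : 0 < n)
    (π μ : n.Partition) : ∃ P : MvPolynomial σ ℕ,
      (π.parts.map (qi (1 + x ig))).prod * (zz μ * (1 + x ig) ^ (n * (n - 1)) *
        coeff (dOf μ) ((macSys (indep hx h)).Del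
          (Gam (1 + x ig * (1 + x ib)) (1 + x ig) (Gt (x ig) (aeval x W))) (monomial (dOf π) 1))) =
      (μ.parts.map (qi (1 + x ig))).prod * aeval x P := by
  have hi := indep hx h
  have hinj := algebraicIndependent_iff_injective_aeval.mp hx
  have hg : x ig ≠ 0 := fun h0 => hi.t_ne_one (by rw [h0, add_zero])
  have mem : ∀ p ∈ NN σ, aeval x p ∈ (NN σ).map (aeval x : MvPolynomial σ ℚ →ₐ[ℚ] F).toRingHom :=
    fun p hp => ⟨p, hp, rfl⟩
  let D : PosData (1 + x ig * (1 + x ib)) (1 + x ig) (aeval x W) :=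
    { P := (NN σ).map (aeval x : MvPolynomial σ ℚ →ₐ[ℚ] F).toRingHom
      b := x ib
      g := x ig
      hb := by simpa using mem _ (X_NN ib)
      hg := by simpa using mem _ (X_NN ig)
      hw := mem _ hW1
      inv := fun m => by simpa using mem _ (C_NN (a := (m:ℚ)⁻¹) (by positivity))
      g0 := hg
      ht := rfl
      hq := rfl
      t0 := hi.t_ne }
  have r1 : x ig ∈ RR x ig := by simpa using RR_mem (x := x) ig (X_ZZ ig)
  have r2 : x ib ∈ RR x ig := by simpa using RR_mem (x := x) ig (X_ZZ ib)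
  have ht := hi.t_ne
  obtain ⟨a, ⟨p, hp, rfl⟩, ⟨e, B, hB, h2⟩, h3⟩ := main_coeff hi hn D (RR x ig)
    (add_mem (one_mem _) (mul_mem r1 (add_mem (one_mem _) r2))) (add_mem (one_mem _) r1)
    ⟨1, X ig, X_ZZ ig, by simp only [aeval_X]; field_simp⟩ r1
    ⟨1, 1 + X ig, add_mem (one_mem _) (X_ZZ ig), by
      simp only [aeval_X, map_add, map_one, D]; field_simp⟩ (RR_mem ig hW2) π μ
  have h4 : (X ig * (1 + X ig)) ^ e * ((zz μ : MvPolynomial σ ℚ) * p) = B := hinj (by simpa using h2)
  obtain ⟨P, hP⟩ := to_nat x (mul_mem (natCast_mem _ (zz μ)) hp) (gauss_pow ig e (h4 ▸ hB))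
  refine ⟨P, ?_⟩
  rw [← hP, map_mul, map_natCast]
  change _ = _ * aeval x p at h3
  linear_combination (zz μ : F) * h3

end MJ
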