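import Pool.Agent.Lib.MP_9c49f6_co.FiveA

/-! The operator whose eigenvalues see the parts `(m,1,1)` and `(m,2)`. -/

namespace MJ
namespace Two22
open Finset MvPolynomial One22

variable {F : Type} [Field F] {q t : F}

lemma prod_sym {A : Type} [Ring A] {a b c d : A} (h1 : a * b = b * a) (h2 : c * d = d * c)
    (h3 : a + b = c + d) (h4 : a * b = c * d) :
    a * (a - 1) * (b * (b - 1)) = c * (c - 1) * (d * (d - 1)) := by
  have key : ∀ a b : A, a * b = b * a →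
      a * (a - 1) * (b * (b - 1)) = a * b * (a * b - (a + b) + 1) := by
    intro a b h
    have e1 : a * (a - 1) * (b * (b - 1)) = a * ((a * b - b) * (b - 1)) := by noncomm_ring
    have e2 : a * b * (a * b - (a + b) + 1) = a * ((b * a - b) * (b - 1)) := by noncomm_ring
    rw [e1, e2, h]
  rw [key a b h1, key c d h2, h3, h4]

lemma aeval_Gam {M : Type} [AddCommGroup M] [Module F M] (Y : Module.End F M) (g : F) :
    Polynomial.aeval Y (Polynomial.X * Gt g 0) = g⁻¹ • (Y * (Y - 1)) := by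
  simp [Gt, Algebra.algebraMap_eq_smul_one]

/-- the vacuum coefficient -/
noncomputable def e2 : V2 F →ₗ[F] F := lcoeff F 0 ∘ₗ co 0 0

lemma e2_apply (v : V2 F) : e2 v = coeff 0 (co 0 0 v) := rfl
lemma e2_y1 (v : V2 F) : e2 (y1 * v) = 0 := by rw [e2_apply, co_y1_zero, coeff_zero]
lemma e2_y2 (v : V2 F) : e2 (y2 * v) = 0 := by rw [e2_apply, co_y2_zero, coeff_zero]
lemma e2_i1 (u : St F) : e2 (i1 u) = e1 u := by rw [e2_apply, co_i1, if_pos rfl, e1_apply]
lemma i1_one : i1 (inc (1 : Lam F)) = 1 := by rw [i1_inc, map_one]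

/-- the box rule, corrected on the vacuum -/
noncomputable def gV (Y : Module.End F (V2 F)) (G : Polynomial F) : Module.End F (V2 F) :=
  Polynomial.aeval Y G + (1 - G.eval 1) • e2.smulRight 1

lemma gV_apply (Y : Module.End F (V2 F)) (G : Polynomial F) (v : V2 F) :
    gV Y G v = Polynomial.aeval Y G v + ((1 - G.eval 1) * e2 v) • 1 := by
  simp [gV, smul_smul]

lemma gV_tw (A Y Y' : Module.End F (V2 F)) (h : ∀ v, A (Y v) = Y' (A v)) {x : F}
    (h1 : A 1 = x • 1) (h2 : ∀ v, e2 (A v) = x * e2 v) (G : Polynomial F) (v : V2 F) :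
    A (gV Y G v) = gV Y' G (A v) := by
  rw [gV_apply, gV_apply, map_add, map_smul, aeval_tw A Y Y' h, h1, h2, smul_smul]
  congr 2; ring

lemma i1_sum (v : St F) (n : ℕ) (h : ∀ j, n ≤ j → v j = 0) :
    i1 v = ∑ j ∈ range n, mon j 0 (v j) := by
  rw [i1, emb, lsum_eq_sum _ v n fun s hs => by rw [h s hs, map_zero]]
  exact sum_congr rfl fun j _ => by simp [mon_apply]

lemma cancel_y2 {a b : St F} {v w : V2 F} (h : i1 a + y2 * v = i1 b + y2 * w) : v = w := by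
  have h1 := congrArg p0 h
  rw [map_add, map_add, p0_i1, p0_i1, p0_y2, p0_y2, add_zero, add_zero] at h1
  rw [h1, add_right_inj] at h
  exact mul_left_cancel₀ y2_ne h

namespace Rt
variable (R : Rt q t)

noncomputable def Y3 : Module.End F (V2 F) := R.Xi * R.T
noncomputable def Y4 : Module.End F (V2 F) := R.Tb * R.Xi

lemma Y1_apply (v : V2 F) : R.Y1 v = R.T (R.Xi v) := rfl
lemma Y2_apply (v : V2 F) : R.Y2 v = R.Xi (R.Tb v) := rfl
lemma Y3_apply (v : V2 F) : R.Y3 v = R.Xi (R.T v) := rfl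
lemma Y4_apply (v : V2 F) : R.Y4 v = R.Tb (R.Xi v) := rfl

lemma Y1_y2 (v : V2 F) : R.Y1 (y2 * v) = y2 * R.Y4 v := by
  rw [Y1_apply, Xi_y2, T_y1, Y4_apply]
lemma Y3_y1 (v : V2 F) : R.Y3 (y1 * v) = y1 * R.Y2 v := by
  rw [Y3_apply, T_y1, Xi_y2, Y2_apply]
lemma Y_sum (v : V2 F) : R.Y1 v + R.Y2 v = R.Y3 v + R.Y4 v := by
  simp only [Y1_apply, Y2_apply, Y3_apply, Y4_apply, Tb_apply, map_add, map_smul]; abel
lemma Tb_Y1 (v : V2 F) : R.Tb (R.Y1 v) = R.Y3 (R.Tb v) := by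
  rw [Y1_apply, Y3_apply, Tb_T, T_Tb, map_smul]
lemma T_Y3 (v : V2 F) : R.T (R.Y3 v) = R.Y1 (R.T v) := rfl

lemma T_one : R.T 1 = 1 := by simpa using R.T_cc 1
lemma Tb_one : R.Tb 1 = R.s' • 1 := by simpa using R.Tb_cc 1
lemma e2_T (v : V2 F) : e2 (R.T v) = e2 v := by
  induction v using v_ind with
  | hadd v w hv hw => simp only [map_add, hv, hw]
  | hc f => rw [T_cc]
  | h1 v _ => rw [T_y1, e2_y1, e2_y2]
  | h2 v _ => rw [T_y2, map_sub, map_smul, e2_y1, e2_y2]; simp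
lemma e2_Tb (v : V2 F) : e2 (R.Tb v) = R.s' * e2 v := by
  rw [Tb_apply, map_add, map_smul, e2_T, σ, smul_eq_mul]; ring

noncomputable def Dab (a : ℕ) : ℕ → Lam F →ₗ[F] V2 F
  | 0 => i1 ∘ₗ Dts q t a
  | b+1 => LinearMap.mulLeft F y2 ∘ₗ (Dab a b + MM q t • (R.Y3 ∘ₗ mon a b))

noncomputable def D : Module.End F (V2 F) := ls R.Dab

lemma D_i1 (v : St F) : R.D (i1 v) = i1 (Dt q t v) := by
  induction v using st_ind with
  | h0 => simp
  | hadd v w hv hw => simp only [map_add, hv, hw]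
  | hs a f => rw [i1_single, D, ls_mon, Dt_single]; rfl
lemma D_cc (f : Lam F) : R.D (cc f) = cc (DD q t 0 f) := by
  rw [← i1_inc, D_i1, Dt_inc, i1_inc]
lemma D_y2 (v : V2 F) : R.D (y2 * v) = y2 * (R.D v + MM q t • R.Y3 v) := by
  induction v using mon_ind with
  | hadd v w hv hw => simp only [mul_add, map_add, smul_add, hv, hw]; abel
  | hm a b f => rw [y2_mon, D, ls_mon, ls_mon]; rfl
lemma D_y1 (v : V2 F) : R.D (y1 * v) = y1 * (R.D v + MM q t • R.Y1 v) := by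
  induction v using v_ind' with
  | hadd v w hv hw => simp only [mul_add, map_add, smul_add, hv, hw]; abel
  | hc u => rw [← i1_UU, D_i1, D_i1, Dt_UU, i1_UU, map_add, map_smul, Y1_i1]
  | h2 v hv =>
    have h := R.Y_sum v
    rw [mul_left_comm, D_y2, hv, Y3_y1, D_y2, Y1_y2]
    simp only [Algebra.smul_def]
    linear_combination y1 * y2 * algebraMap F (V2 F) (MM q t) * h
lemma D_T (v : V2 F) : R.D (R.T v) = R.T (R.D v) := by
  induction v using v_ind with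
  | hadd v w hv hw => simp only [map_add, hv, hw]
  | hc f => rw [T_cc, D_cc, T_cc]
  | h1 v hv =>
    rw [T_y1, D_y2, D_y1, T_y1, map_add, map_smul, Tb_Y1, Tb_apply R v, Tb_apply R (R.D v),
      map_add R.D, map_smul, hv]
  | h2 v hv =>
    rw [T_y2, map_sub, map_smul, D_y1, D_y2, T_y2, map_add, map_smul, T_Y3, hv]
lemma D_Tb (v : V2 F) : R.D (R.Tb v) = R.Tb (R.D v) := by
  rw [Tb_apply, Tb_apply, map_add, map_smul, D_T]

noncomputable def ZZ (g : F) : Module.End F (V2 F) :=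
  LinearMap.mulLeft F y1 * Polynomial.aeval R.Y1 (Polynomial.X * Gt g 0)

lemma ww_sum (n : ℕ) (γ : ℤ) (f : Lam F) : ∀ β : ℤ, R.ww n β γ f =
    ∑ i ∈ range n, (q * t⁻¹) ^ i • (y1 ^ i * R.Tb (i1 (R.LS (β - i) γ f))) := by
  induction n with
  | zero => intro β; simp [ww]
  | succ n ih =>
    intro β
    have e : R.ww (n+1) β γ f = R.Tb (i1 (R.LS β γ f)) + (q * t⁻¹) • (y1 * R.ww n (β - 1) γ f) :=
      rfl
    rw [e, ih, sum_range_succ', mul_sum, smul_sum, add_comm, pow_zero, pow_zero, one_smul, one_mul,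
      Nat.cast_zero, sub_zero, add_left_inj]
    refine sum_congr rfl fun i _ => ?_
    have e1 : β - ((i+1 : ℕ) : ℤ) = β - 1 - i := by push_cast; ring
    rw [e1, mul_smul_comm, smul_smul, ← mul_assoc, ← pow_succ', ← pow_succ']

lemma LS_apply (β γ : ℤ) (f : Lam F) (j : ℕ) :
    R.LS β γ f j = (q * t⁻¹) ^ j • R.Lh β (γ - j) f := rfl

lemma LS_rec (β γ : ℤ) (f : Lam F) :
    R.LS β γ f = inc (R.Lh β γ f) + (q * t⁻¹) • UU (R.LS β (γ - 1) f) := by
  ext j : 1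
  cases j with
  | zero => simp [LS_apply]
  | succ j =>
    have : γ - ((j+1 : ℕ) : ℤ) = γ - 1 - j := by push_cast; ring
    rw [LS_apply, this]; simp [LS_apply, smul_smul, pow_succ, mul_comm]

lemma EE_LS (β : ℤ) (f : Lam F) :
    EE q t (ee q t β f - R.s • UU (ee q t (β - 1) f)) = R.LS β 0 f := by
  ext j : 1
  rw [EE_apply, LS_apply, map_sub, map_smul, psi_UU, zero_sub]; rfl

lemma ww_split (n : ℕ) (γ : ℤ) (f : Lam F) : ∀ β : ℤ, ∃ V : St F,
    R.ww n β γ f = i1 V + y2 * ((q * t⁻¹) • R.ww n β (γ - 1) f) := by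
  induction n with
  | zero => intro β; exact ⟨0, by simp [ww]⟩
  | succ n ih =>
    intro β
    obtain ⟨V, hV⟩ := ih (β - 1)
    have e : ∀ γ, R.ww (n+1) β γ f =
        R.Tb (i1 (R.LS β γ f)) + (q * t⁻¹) • (y1 * R.ww n (β - 1) γ f) := fun _ => rfl
    refine ⟨R.s' • inc (R.Lh β γ f) + (q * t⁻¹) • R.σ • UU (R.LS β (γ - 1) f) +
      (q * t⁻¹) • UU V, ?_⟩
    rw [e, e, hV, LS_rec]
    simp only [map_add, map_smul, i1_inc, i1_UU, Tb_cc, Tb_y1]
    simp only [Algebra.smul_def]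
    ring

lemma Xi_K (f : Lam F) (n : ℕ) : ∀ β : ℤ, (∀ a ≤ β - n, ee q t a f = 0) →
    R.s' • R.Xi (KK q t β f - R.s • (y1 * KK q t (β - 1) f)) = R.ww n β 0 f := by
  induction n with
  | zero =>
    intro β h
    have h1 : ∀ a ≤ β, KK q t a f = 0 := fun a ha => by
      rw [KK, LinearMap.comp_apply, h a (by simpa using ha), map_zero]
    rw [h1 β le_rfl, h1 _ (by omega)]; simp [ww]
  | succ n ih =>
    intro β h
    have e : R.ww (n+1) β 0 f = R.Tb (i1 (R.LS β 0 f)) + (q * t⁻¹) • (y1 * R.ww n (β - 1) 0 f) :=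
      rfl
    have e1 : KK q t β f - R.s • (y1 * KK q t (β - 1) f) =
        i1 (ee q t β f - R.s • UU (ee q t (β - 1) f)) + (q * t⁻¹) •
          (y2 * (KK q t (β - 1) f - R.s • (y1 * KK q t (β - 1 - 1) f))) := by
      have h1 := KK_rec (q := q) (t := t) β f
      have h2 := KK_rec (q := q) (t := t) (β - 1) f
      rw [map_sub, map_smul, i1_UU]
      simp only [Algebra.smul_def] at h1 h2 ⊢
      linear_combination h1 - algebraMap F (V2 F) R.s * y1 * h2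
    rw [e, ← ih (β - 1) (fun a ha => h a (by push_cast; omega)), e1, map_add, map_smul, smul_add,
      Xi_i1, EE_LS, Xi_y2, smul_comm, mul_smul_comm]

lemma co_ww (n : ℕ) (β γ : ℤ) (f : Lam F) :
    co 0 0 (R.ww (n+1) β γ f) = R.s' • R.Lh β γ f := by
  have e : R.ww (n+1) β γ f = R.Tb (i1 (R.LS β γ f)) + (q * t⁻¹) • (y1 * R.ww n (β - 1) γ f) :=
    rfl
  rw [e, map_add, map_smul, co_y1_zero, Tb_i1, map_add, map_smul, ← sw_i1, co_sw, co_i1, co_ih,
    if_pos rfl, LS_apply, σ]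
  simp only [add_zero, pow_zero, Nat.cast_zero, sub_zero, one_smul, smul_zero]
  module

variable [CharZero F]

lemma Lh_Hm (A B : ℤ) {k : ℤ} {f : Lam F} (hf : f ∈ Hm F k) : R.Lh A B f ∈ Hm F (k + A + B) := by
  have h1 := psi_Hm q t B (ee_HS (q := q) (t := t) A hf)
  have h2 := psi_Hm q t (B + 1) (ee_HS (q := q) (t := t) (A - 1) hf)
  have e : k + (A - 1) + (B + 1) = k + A + B := by ring
  rw [e] at h2
  exact sub_mem h1 (Submodule.smul_mem _ _ h2)

lemma phi_Q (hi : Indep q t) (v : V2 F) : phi t 0 (psi q t 1 (R.Q v)) = phi t 0 (co 0 0 v) := by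
  obtain ⟨w, hw⟩ := p0_split v
  have h : R.Q v 0 = psi q t 1 (p0 v) := by
    conv_lhs => rw [hw, map_add, Q_i1, Q_y2]
    simp
  rw [phi_psi_one hi, h, phi_psi_one hi, neg_neg, p0_apply]

variable (hi : Indep q t)

noncomputable def Ps (g : F) (m i j : ℕ) : Lam F →ₗ[F] V2 F :=
  if j = 0 then R.s' • (i1 ∘ₗ GT hi g m ∘ₗ Finsupp.lsingle i)
  else (R.ZZ g ^ i : Module.End F (V2 F)) ∘ₗ R.Tb ∘ₗ i1 ∘ₗ GT hi g (m - i) ∘ₗ Finsupp.lsingle j

/-- The operator for two marked cells. -/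
noncomputable def OUT (g : F) (m : ℕ) : Lam F →ₗ[F] Lam F :=
  ∑ i ∈ range (m+1), ∑ j ∈ range (m+1), (q * t⁻¹) ^ (i + j) •
    (psi q t 1 ∘ₗ R.Q ∘ₗ R.Ps hi g m i j ∘ₗ R.Lh (-1 - i) (-1 - j))

noncomputable def Gab (g : F) (a : ℕ) : ℕ → Lam F →ₗ[F] V2 F
  | 0 => i1 ∘ₗ M1 q t (GG hi g) (Polynomial.X * Gt g 0) ∘ₗ Finsupp.lsingle a
  | b+1 => LinearMap.mulLeft F y2 ∘ₗ gV R.Y3 (Polynomial.X * Gt g 0) ∘ₗ Gab g a b

/-- the lift of `GG` -/
noncomputable def GV (g : F) : Module.End F (V2 F) := ls (R.Gab hi g)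

lemma GV_i1 (g : F) (v : St F) :
    R.GV hi g (i1 v) = i1 (M1 q t (GG hi g) (Polynomial.X * Gt g 0) v) := by
  induction v using st_ind with
  | h0 => simp
  | hadd v w hv hw => simp only [map_add, hv, hw]
  | hs a f => rw [i1_single, GV, ls_mon]; rfl
lemma GV_cc (g : F) (f : Lam F) : R.GV hi g (cc f) = cc (GG hi g f) := by
  rw [← i1_inc, GV_i1, M1_inc, i1_inc]
lemma GV_y2 (g : F) (v : V2 F) :
    R.GV hi g (y2 * v) = y2 * gV R.Y3 (Polynomial.X * Gt g 0) (R.GV hi g v) := by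
  induction v using mon_ind with
  | hadd v w hv hw => simp only [mul_add, map_add, hv, hw]
  | hm a b f => rw [y2_mon, GV, ls_mon, ls_mon]; rfl
lemma co_GV (g : F) (v : V2 F) : co 0 0 (R.GV hi g v) = GG hi g (co 0 0 v) := by
  induction v using v_ind' with
  | hadd v w hv hw => simp only [map_add, hv, hw]
  | hc u => rw [GV_i1, co_i1, co_i1, if_pos rfl, if_pos rfl, M1_zero]
  | h2 v _ => rw [GV_y2, co_y2_zero, co_y2_zero, map_zero]

include hi

omit [CharZero F] in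
lemma Xi_one : R.Xi 1 = 1 := by
  apply smul_right_injective _ (R.s'_ne hi)
  simp only
  rw [← i1_one, Xi_i1, EE_inc_one, i1_one, Tb_one]
lemma e2_Xi (v : V2 F) : e2 (R.Xi v) = e2 v := by
  induction v using v_ind' with
  | hadd v w hv hw => simp only [map_add, hv, hw]
  | hc u =>
    apply mul_left_cancel₀ (R.s'_ne hi)
    rw [← smul_eq_mul, ← map_smul, Xi_i1, e2_Tb, e2_i1, e2_i1, e1_EE]
  | h2 v _ => rw [Xi_y2, e2_y1, e2_y2]
lemma Xi_Y3 (v : V2 F) : R.Xi (R.Y3 v) = R.Y1 (R.Xi v) := by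
  rw [Y3_apply, Y1_apply, R.T_Xi_Xi hi]

lemma D_Xi (v : V2 F) : R.D (R.Xi v) = R.Xi (R.D v) := by
  induction v using v_ind' with
  | hadd v w hv hw => simp only [map_add, hv, hw]
  | hc u =>
    apply smul_right_injective _ (R.s'_ne hi)
    simp only
    rw [← map_smul, Xi_i1, D_Tb, D_i1, D_i1, Xi_i1, Dt_EE q t hi.t_ne]
  | h2 v hv => rw [Xi_y2, D_y1, D_y2, Xi_y2, map_add, map_smul, R.Xi_Y3 hi, hv]

lemma Dt_Q (v : V2 F) : Dt q t (R.Q v) = R.Q (R.D v + MM q t • R.Y1 v) := by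
  induction v using v_ind' with
  | hadd v w hv hw => simp only [map_add, smul_add, hv, hw]; abel
  | hc u =>
    rw [D_i1, Y1_i1, ← map_smul, ← map_add, Q_i1, Q_i1, map_add, map_smul, Dt_inc, Dt_UU,
      psi_one_eig hi.t_ne, Dt_EE q t hi.t_ne]
    simp only [map_add, map_smul]
  | h2 v hv =>
    have h := congrArg R.Q (R.Y_sum v)
    rw [Q_y2, Dt_UU, hv, R.EE_Q hi, D_y2, Y1_y2, ← mul_smul_comm, ← mul_add, Q_y2]
    simp only [map_add, map_smul] at h ⊢
    rw [add_assoc, add_assoc, ← smul_add, ← smul_add, ← map_add UU, ← map_add UU, h]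

lemma DD_CL (v : V2 F) : DD q t 0 (psi q t 1 (R.Q v)) =
    psi q t 1 (R.Q (R.D v + MM q t • (R.Y1 v + R.Y2 v))) := by
  rw [psi_one_eig hi.t_ne, R.Dt_Q hi, R.EE_Q hi]
  simp only [map_add, map_smul, smul_add, add_assoc]

lemma D_ww {f : Lam F} (n : ℕ) (h1 : ∀ a ≤ 0 - ((n+1 : ℕ) : ℤ), ee q t a f = 0)
    (h2 : ∀ a ≤ 0 - ((n+1 : ℕ) : ℤ), ee q t a (DD q t 0 f) = 0) :
    R.D (R.ww n (-1) (-1) f) + MM q t • (R.Y1 (R.ww n (-1) (-1) f) + R.Y2 (R.ww n (-1) (-1) f)) =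
      R.ww n (-1) (-1) (DD q t 0 f) := by
  have hρ : q * t⁻¹ ≠ 0 := mul_ne_zero hi.q_ne (inv_ne_zero hi.t_ne)
  have e0 : ∀ f, R.Xi (cc f) = KK q t 0 f - R.s • (y1 * KK q t (0 - 1) f) := fun f => by
    have := R.Xi_mon 0 0 f
    rwa [mon_zero, pow_zero, one_mul] at this
  have e : ∀ f, R.ww (n+1) 0 0 f =
      R.Tb (i1 (R.LS 0 0 f)) + (q * t⁻¹) • (y1 * R.ww n (-1) 0 f) := fun _ => rfl
  have e1 : ∀ f : Lam F, ee q t 0 f = EE q t (inc f) := fun f => by
    rw [inc_apply, EE_single]; rfl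
  have a1 := congrArg R.D (R.Xi_K f (n+1) 0 h1)
  have a2 := R.Xi_K _ (n+1) 0 h2
  have a3 : Dt q t (R.LS 0 0 f) = R.LS 0 0 (DD q t 0 f) := by
    rw [← EE_LS, ← EE_LS, Dt_EE q t hi.t_ne, map_sub, map_smul, Dt_UU, zero_sub, Dt_ee_neg hi, e1,
      e1, Dt_EE q t hi.t_ne, Dt_inc]
  rw [← e0] at a1 a2
  rw [map_smul, R.D_Xi hi, R.D_Xi hi, D_cc, a2, e, e, map_add, D_Tb, D_i1, a3, add_right_inj,
    map_smul, D_y1] at a1
  have a4 := mul_left_cancel₀ y1_ne (smul_right_injective _ hρ a1)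
  obtain ⟨V, hV⟩ := R.ww_split n 0 f (-1)
  obtain ⟨V', hV'⟩ := R.ww_split n 0 (DD q t 0 f) (-1)
  rw [zero_sub] at hV hV'
  rw [hV, hV', map_add, map_add, D_i1, D_y2, Y1_i1, Y1_y2] at a4
  have a5 : i1 V' + y2 * ((q * t⁻¹) • R.ww n (-1) (-1) (DD q t 0 f)) =
      i1 (Dt q t V + MM q t • EE q t V) + y2 * ((q * t⁻¹) • (R.D (R.ww n (-1) (-1) f) +
        MM q t • (R.Y3 (R.ww n (-1) (-1) f) + R.Y4 (R.ww n (-1) (-1) f)))) := by
    rw [a4]
    simp only [map_add, map_smul, mul_add, smul_add, mul_smul_comm]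
    module
  rw [Y_sum]
  exact (smul_right_injective _ hρ (cancel_y2 a5)).symm

lemma cocycle (g : F) (v : V2 F) :
    Polynomial.aeval R.Y2 (Polynomial.X * Gt g 0) (gV R.Y1 (Polynomial.X * Gt g 0) v) =
      Polynomial.aeval R.Y4 (Polynomial.X * Gt g 0) (gV R.Y3 (Polynomial.X * Gt g 0) v) := by
  have h1 : R.Y2 1 = R.s' • 1 := by rw [Y2_apply, Tb_one, map_smul, R.Xi_one hi]
  have h2 : R.Y4 1 = R.s' • 1 := by rw [Y4_apply, R.Xi_one hi, Tb_one]
  have a1 : ∀ v, R.Y2 (R.Y1 v) = R.s' • R.Xi (R.Xi v) := fun v => by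
    rw [Y2_apply, Y1_apply, Tb_T, map_smul]
  have a2 : ∀ v, R.Y4 (R.Y3 v) = R.s' • R.Xi (R.Xi v) := fun v => by
    rw [Y4_apply, Y3_apply, ← R.T_Xi_Xi hi, Tb_T]
  have a3 : ∀ v, R.Y3 (R.Y4 v) = R.s' • R.Xi (R.Xi v) := fun v => by
    rw [Y4_apply, Y3_apply, T_Tb, map_smul]
  have h3 := prod_sym (a := R.Y2) (b := R.Y1) (c := R.Y4) (d := R.Y3)
    (LinearMap.ext fun v => (R.Y1_Y2 hi v).symm)
    (LinearMap.ext fun v => (a2 v).trans (a3 v).symm)
    (LinearMap.ext fun v => by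
      simp only [LinearMap.add_apply]; rw [add_comm, Y_sum, add_comm])
    (LinearMap.ext fun v => (a1 v).trans (a2 v).symm)
  have h4 := LinearMap.congr_fun h3 v
  rw [Module.End.mul_apply, Module.End.mul_apply (R.Y4 * _)] at h4
  rw [gV_apply, gV_apply, map_add, map_add, map_smul, map_smul, aeval_vec _ h1, aeval_vec _ h2,
    add_left_inj, aeval_Gam, aeval_Gam, aeval_Gam, aeval_Gam, LinearMap.smul_apply,
    LinearMap.smul_apply, LinearMap.smul_apply, LinearMap.smul_apply, map_smul, map_smul, h4]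

lemma GV_y1 (g : F) (v : V2 F) :
    R.GV hi g (y1 * v) = y1 * gV R.Y1 (Polynomial.X * Gt g 0) (R.GV hi g v) := by
  induction v using v_ind' with
  | hadd v w hv hw => simp only [mul_add, map_add, hv, hw]
  | hc u =>
    rw [← i1_UU, GV_i1, GV_i1, M1_UU, i1_UU, gE_apply, gV_apply, map_add, map_smul, i1_one, e2_i1,
      aeval_tw i1 _ R.Y1 fun v => (R.Y1_i1 v).symm]
  | h2 v hv =>
    have a1 := fun p w => aeval_tw (LinearMap.mulLeft F y1) R.Y2 R.Y3
      (fun v => (R.Y3_y1 v).symm) p w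
    have a2 := fun p w => aeval_tw (LinearMap.mulLeft F y2) R.Y4 R.Y1
      (fun v => (R.Y1_y2 v).symm) p w
    simp only [LinearMap.mulLeft_apply] at a1 a2
    rw [mul_left_comm, GV_y2, hv, GV_y2, gV_apply _ _ (y1 * _), gV_apply _ _ (y2 * _), e2_y1,
      e2_y2, ← a1, ← a2, R.cocycle hi]
    simp only [mul_zero, zero_smul, add_zero]
    ring

lemma GV_T (g : F) (v : V2 F) : R.GV hi g (R.T v) = R.T (R.GV hi g v) := by
  induction v using v_ind with
  | hadd v w hv hw => simp only [map_add, hv, hw]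
  | hc f => rw [T_cc, GV_cc, T_cc]
  | h1 v hv =>
    rw [T_y1, GV_y2, GV_y1, T_y1, gV_tw R.Tb R.Y1 R.Y3 R.Tb_Y1 R.Tb_one R.e2_Tb, Tb_apply R v,
      Tb_apply R (R.GV hi g v), map_add (R.GV hi g), map_smul, hv]
  | h2 v hv =>
    rw [T_y2, map_sub, map_smul, GV_y1, GV_y2, T_y2, hv, gV_tw R.T R.Y3 R.Y1 R.T_Y3 (x := 1)
      (by rw [T_one, one_smul]) (fun v => by rw [e2_T, one_mul])]

lemma GV_Tb (g : F) (v : V2 F) : R.GV hi g (R.Tb v) = R.Tb (R.GV hi g v) := by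
  rw [Tb_apply, Tb_apply, map_add, map_smul, GV_T]

lemma GV_Xi {g : F} (hg : g ≠ 0) (v : V2 F) : R.GV hi g (R.Xi v) = R.Xi (R.GV hi g v) := by
  induction v using v_ind' with
  | hadd v w hv hw => simp only [map_add, hv, hw]
  | hc u =>
    apply smul_right_injective _ (R.s'_ne hi)
    simp only
    rw [← map_smul, Xi_i1, GV_Tb, GV_i1, GV_i1, Xi_i1, GG_M1_EE hi hg]
  | h2 v hv =>
    rw [Xi_y2, GV_y1, GV_y2, Xi_y2, hv, gV_tw R.Xi R.Y3 R.Y1 (R.Xi_Y3 hi) (x := 1)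
      (by rw [R.Xi_one hi, one_smul]) (fun v => by rw [R.e2_Xi hi, one_mul])]

lemma GV_D {g : F} (hg : g ≠ 0) (v : V2 F) : R.GV hi g (R.D v) = R.D (R.GV hi g v) := by
  have d1 : R.D 1 = (1:F) • 1 := by
    have : DD q t 0 1 = 1 := by simpa using DD_C q t 0 1
    have h := R.D_cc 1
    rwa [this, map_one, ← one_smul F (1 : V2 F), map_smul, one_smul] at h
  have d2 : ∀ v, e2 (R.D v) = 1 * e2 v := by
    intro v
    induction v using v_ind with
    | hadd v w hv hw => simp only [map_add, mul_add, hv, hw]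
    | hc f =>
      have h := e1_EE (q := q) (t := t) (inc f)
      rw [e1_apply, EE_apply, psi_inc] at h
      rw [D_cc, ← i1_inc, ← i1_inc, e2_i1, e2_i1, e1_inc, ← h]; simp
    | h1 v _ => rw [D_y1, e2_y1, e2_y1, mul_zero]
    | h2 v _ => rw [D_y2, e2_y2, e2_y2, mul_zero]
  induction v using v_ind with
  | hadd v w hv hw => simp only [map_add, hv, hw]
  | hc f =>
    have : GG hi g ∘ₗ DD q t 0 = DD q t 0 ∘ₗ GG hi g := (macSys hi).b.ext fun i => by
      simp only [LinearMap.comp_apply, GG, (macSys hi).eig, map_smul, Sys.Del_b]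
      rw [smul_comm]
    rw [D_cc, GV_cc, GV_cc, D_cc]
    exact congrArg (fun φ => cc (φ f)) this
  | h1 v hv =>
    rw [D_y1, GV_y1, GV_y1, D_y1, gV_tw R.D R.Y1 R.Y1 (fun v => by
        rw [Y1_apply, D_T, R.D_Xi hi, Y1_apply]) d1 d2,
      gV_tw R.Y1 R.Y1 R.Y1 (fun _ => rfl) (x := 1)
        (by rw [Y1_apply, R.Xi_one hi, T_one, one_smul])
        (fun v => by rw [Y1_apply, e2_T, R.e2_Xi hi, one_mul]),
      map_add, map_smul, hv, Y1_apply, GV_T, R.GV_Xi hi hg, map_add, map_smul, Y1_apply]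
  | h2 v hv =>
    rw [D_y2, GV_y2, GV_y2, D_y2, gV_tw R.D R.Y3 R.Y3 (fun v => by
        rw [Y3_apply, R.D_Xi hi, D_T, Y3_apply]) d1 d2,
      gV_tw R.Y3 R.Y3 R.Y3 (fun _ => rfl) (x := 1)
        (by rw [Y3_apply, T_one, R.Xi_one hi, one_smul])
        (fun v => by rw [Y3_apply, R.e2_Xi hi, e2_T, one_mul]),
      map_add, map_smul, hv, Y3_apply, R.GV_Xi hi hg, GV_T, map_add, map_smul, Y3_apply]

omit hi in
lemma aeval_Y1_HW (p : Polynomial F) {m : ℤ} {v : V2 F} (hv : v ∈ HW F m) :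
    Polynomial.aeval R.Y1 p v ∈ HW F m := by
  induction p using Polynomial.induction_on with
  | C a => simpa using Submodule.smul_mem _ a hv
  | add p r hp hr => rw [map_add]; exact add_mem hp hr
  | monomial n a h =>
    have e : Polynomial.C a * Polynomial.X ^ (n+1) =
        Polynomial.X * (Polynomial.C a * Polynomial.X ^ n) := by ring
    rw [e, map_mul (Polynomial.aeval R.Y1), Polynomial.aeval_X, Module.End.mul_apply, Y1_apply]
    exact R.T_HW (R.Xi_HW h)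

lemma GV_pow (g : F) {k : ℤ} (hk : 0 < k) {v : V2 F} (hv : R.GV hi g v ∈ HW F k) (i : ℕ) :
    R.GV hi g (y1 ^ i * v) = (R.ZZ g ^ i : Module.End F (V2 F)) (R.GV hi g v) ∧
      R.GV hi g (y1 ^ i * v) ∈ HW F (k + i) := by
  induction i with
  | zero => rw [pow_zero, pow_zero, one_mul, Nat.cast_zero, add_zero]; exact ⟨rfl, hv⟩
  | succ i ih =>
    have h0 : e2 (R.GV hi g (y1 ^ i * v)) = 0 := by
      rw [e2_apply]; exact co0_Hm (ih.2 0 0) (by omega)
    rw [pow_succ', mul_assoc, GV_y1, gV_apply, h0, mul_zero, zero_smul, add_zero]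
    refine ⟨by rw [pow_succ', Module.End.mul_apply, ← ih.1, ZZ, Module.End.mul_apply,
      LinearMap.mulLeft_apply], ?_⟩
    rw [Nat.cast_succ, ← add_assoc]
    exact HW_y1 (R.aeval_Y1_HW _ ih.2)

lemma GV_e (g : F) {m i j : ℕ} (hm : 1 ≤ m) {f : Lam F} (hf : f ∈ Hm F (m - i - j)) :
    R.GV hi g (y1 ^ i * R.Tb (mon j 0 f)) = R.Ps hi g m i j f := by
  by_cases hj : j = 0
  · subst hj
    have e : y1 ^ i * cc f = i1 (Finsupp.single i f) := by rw [i1_single, mon_apply]; simp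
    rw [mon_zero, Tb_cc, mul_smul_comm, map_smul, e, GV_i1, M1_GT hi g hm (by simpa using hf), Ps,
      if_pos rfl]
    rfl
  · rcases lt_or_ge m (i + j) with h | h
    · rw [Hm_neg hf (by omega)]; simp
    · have e : (m:ℤ) - i - j = (m - i : ℕ) - j := by omega
      rw [e] at hf
      have h1 : Finsupp.single j f ∈ HS F (m - i : ℕ) := by
        have := UU_pow_HS j (inc_HS hf)
        rwa [UU_pow_inc, sub_add_cancel] at this
      have h2 : R.GV hi g (R.Tb (mon j 0 f)) ∈ HW F (m - i : ℕ) := by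
        rw [GV_Tb, ← i1_single, GV_i1]
        exact R.Tb_HW (HW_i1 (M1_HS hi h1))
      rw [(R.GV_pow hi g (by omega) h2 i).1, GV_Tb, ← i1_single, GV_i1,
        M1_GT hi g (k := m - i) (by omega) hf, Ps, if_neg hj]
      rfl

theorem Ps_sym {g : F} (_hg : g ≠ 0) {m i j : ℕ} (hm : 1 ≤ m) {f : Lam F}
    (hf : f ∈ Hm F (m - i - j)) :
    psi q t 1 (R.Q (R.Ps hi g m i j f)) = psi q t 1 (R.Q (R.Ps hi g m j i f)) := by
  rw [← R.GV_e hi g hm hf, ← R.GV_e hi g hm (by rwa [sub_right_comm]), ← sub_eq_zero, ← map_sub,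
    ← map_sub, ← map_sub, e_sub, map_sub, map_sub, map_sub, GV_T, R.psi_Q_T hi.t_ne, sub_self]

lemma OUT_eq (g : F) {m : ℕ} (hm : 1 ≤ m) {f : Lam F} (hf : f ∈ Hm F (m + 2 : ℕ)) :
    R.OUT hi g m f = psi q t 1 (R.Q (R.GV hi g (R.ww (m+2) (-1) (-1) f))) := by
  have hL : ∀ i j : ℕ, R.Lh (-1 - i) (-1 - j) f ∈ Hm F (m - i - j) := fun i j => by
    have := R.Lh_Hm (-1 - i) (-1 - j) hf
    have e : ((m + 2 : ℕ) : ℤ) + (-1 - i) + (-1 - j) = m - i - j := by push_cast; ring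
    rwa [e] at this
  have h0 : R.LS (-1 - (m+1 : ℕ)) (-1) f = 0 := by
    ext j : 1
    rw [LS_apply, Hm_neg (hL (m+1) j) (by omega)]; simp
  rw [ww_sum, sum_range_succ, h0, OUT]
  simp only [map_zero, mul_zero, smul_zero, add_zero, map_sum, LinearMap.sum_apply,
    LinearMap.smul_apply, LinearMap.comp_apply]
  refine sum_congr rfl fun i _ => ?_
  rw [i1_sum _ (m+1) fun j hj => by rw [LS_apply, Hm_neg (hL i j) (by omega), smul_zero]]
  simp only [map_sum, mul_sum, smul_sum, LS_apply, map_smul, mul_smul_comm, smul_smul]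
  exact sum_congr rfl fun j _ => by rw [R.GV_e hi g hm (hL i j), pow_add]

theorem out_eig {g : F} (hg : g ≠ 0) {m : ℕ} (hm : 1 ≤ m) (l : (m+2).Partition) :
    ∃ a : F, R.OUT hi g m (Th (mac hi l)) = a • Th (mac hi l) ∧ a * phi t 0 (Th (mac hi l)) =
      R.s' * phi t 0 (GG hi g (R.Lh (-1) (-1) (Th (mac hi l)))) := by
  have hf := Th_Hm (mac hi l)
  have h0 : ∀ a ≤ 0 - ((m+2+1 : ℕ) : ℤ), ee q t a (Th (mac hi l)) = 0 := fun a ha => by
    ext j : 1
    exact HS_bound (ee_HS a hf) (by omega)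
  have h1 := R.D_ww hi (m+2) h0 fun a ha => by rw [mac_eig, map_smul, h0 a ha, smul_zero]
  have h2 := R.OUT_eq hi g hm hf
  have h3 : DD q t 0 (R.OUT hi g m (Th (mac hi l))) =
      del q t (cells l).val • R.OUT hi g m (Th (mac hi l)) := by
    rw [mac_eig, map_smul] at h1
    rw [h2, R.DD_CL hi, ← R.GV_D hi hg, Y1_apply, Y2_apply, ← R.GV_Xi hi hg, ← GV_T, ← GV_Tb,
      ← R.GV_Xi hi hg, ← map_add, ← map_smul, ← map_add, ← Y1_apply, ← Y2_apply, h1]
    simp only [map_smul]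
  have h4 := eig_mult (macSys hi) hi (k := ⟨m+2, l⟩) h3
  rw [macSys_b] at h4
  refine ⟨_, h4, ?_⟩
  rw [← smul_eq_mul, ← map_smul, ← h4, h2, R.phi_Q hi, co_GV, co_ww, map_smul, map_smul,
    smul_eq_mul]

theorem nabla_Lh (f : Lam F) : R.s' • (macSys hi).Del (TT q t) (R.Lh (-1) (-1) f) =
    Sh (cS q t) 1 (Sh (cS q t) 1 ((macSys hi).Del (TT q t) f)) +
      R.σ • Sh (cS q t) 2 ((macSys hi).Del (TT q t) f) := by
  have h1 := congrArg (psi q t (-1)) (ee_rec q t (-1) f)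
  rw [map_add, map_smul, psi_inc, psi_UU, ← R.hm] at h1
  have h2 : R.s' • R.Lh (-1) (-1) f =
      DD q t (-1) (DD q t (-1) f) + R.σ • psi q t (-1) (ee q t (-1) f) := by
    simp only [Lh, PP, LinearMap.sub_apply, LinearMap.smul_apply, LinearMap.comp_apply, σ]
    linear_combination (norm := module) h1
  rw [← map_smul, h2, map_add, map_smul, (nabla_two hi _).1, (nabla_two hi _).1,
    (nabla_two hi _).2]

end Rt

end Two22
end MJ
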