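import Pool.Agent.Lib.MP_9c49f6_co.Four

/-! One catalytic variable: lifting a diagonal operator with a multiplicative box rule. -/

namespace MJ
namespace Two22
open Finset MvPolynomial One22

variable {F : Type} [Field F] {q t : F}

lemma aeval_tw {M N : Type} [AddCommGroup M] [Module F M] [AddCommGroup N] [Module F N]
    (A : M →ₗ[F] N) (Y : Module.End F M) (Y' : Module.End F N) (h : ∀ v, A (Y v) = Y' (A v))
    (p : Polynomial F) (v : M) :
    A (Polynomial.aeval Y p v) = Polynomial.aeval Y' p (A v) := by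
  induction p using Polynomial.induction_on with
  | C a => simp
  | add p r hp hr => simp [hp, hr]
  | monomial n a ih =>
    have e : Polynomial.C a * Polynomial.X ^ (n+1) =
        Polynomial.X * (Polynomial.C a * Polynomial.X ^ n) := by ring
    rw [e, map_mul (Polynomial.aeval Y), map_mul (Polynomial.aeval Y'), Polynomial.aeval_X,
      Polynomial.aeval_X, Module.End.mul_apply, Module.End.mul_apply, h, ih]

lemma aeval_vec {M : Type} [AddCommGroup M] [Module F M] (Y : Module.End F M) {v : M} {x : F}
    (h : Y v = x • v) (p : Polynomial F) : Polynomial.aeval Y p v = p.eval x • v := by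
  induction p using Polynomial.induction_on with
  | C a => simp
  | add p r hp hr => simp [hp, hr, add_smul]
  | monomial n a ih =>
    have e : Polynomial.C a * Polynomial.X ^ (n+1) =
        Polynomial.X * (Polynomial.C a * Polynomial.X ^ n) := by ring
    rw [e, map_mul (Polynomial.aeval Y), Polynomial.aeval_X, Module.End.mul_apply, ih, map_smul, h,
      smul_smul, Polynomial.eval_mul (p := Polynomial.X), Polynomial.eval_X, mul_comm]

/-- the vacuum coefficient -/
noncomputable def e1 : St F →ₗ[F] F := lcoeff F 0 ∘ₗ Finsupp.lapply 0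

lemma e1_apply (v : St F) : e1 v = coeff 0 (v 0) := rfl
lemma e1_UU (v : St F) : e1 (UU v) = 0 := by simp [e1_apply]
lemma e1_inc (f : Lam F) : e1 (inc f) = coeff 0 f := by simp [e1_apply]

/-- the box rule, corrected on the vacuum -/
noncomputable def gE (q t : F) (G : Polynomial F) : Module.End F (St F) :=
  Polynomial.aeval (EE q t) G + (1 - G.eval 1) • e1.smulRight (inc 1)

lemma gE_apply (G : Polynomial F) (v : St F) :
    gE q t G v = Polynomial.aeval (EE q t) G v + ((1 - G.eval 1) * e1 v) • inc 1 := by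
  simp [gE, smul_smul]

lemma gE_one (G : Polynomial F) : gE q t G (inc 1) = inc 1 := by
  rw [gE_apply, aeval_vec _ (x := 1) (by rw [EE_inc_one, one_smul]), e1_inc, coeff_zero_one,
    ← add_smul]
  simp

noncomputable def M1 (q t : F) (Z : Lam F →ₗ[F] Lam F) (G : Polynomial F) :
    Module.End F (St F) :=
  Finsupp.lsum F fun a : ℕ => ((UU * gE q t G) ^ a : Module.End F (St F)) ∘ₗ inc ∘ₗ Z

lemma M1_single (Z : Lam F →ₗ[F] Lam F) (G : Polynomial F) (a : ℕ) (f : Lam F) :
    M1 q t Z G (Finsupp.single a f) =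
      ((UU * gE q t G) ^ a : Module.End F (St F)) (inc (Z f)) := by simp [M1]

lemma M1_inc (Z : Lam F →ₗ[F] Lam F) (G : Polynomial F) (f : Lam F) :
    M1 q t Z G (inc f) = inc (Z f) := by rw [inc_apply, M1_single]; rfl

lemma M1_UU (Z : Lam F →ₗ[F] Lam F) (G : Polynomial F) (v : St F) :
    M1 q t Z G (UU v) = UU (gE q t G (M1 q t Z G v)) := by
  induction v using st_ind with
  | h0 => simp
  | hadd v w hv hw => simp only [map_add, hv, hw]
  | hs a f => rw [UU_single, M1_single, M1_single, pow_succ']; rfl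

lemma M1_zero (Z : Lam F →ₗ[F] Lam F) (G : Polynomial F) (v : St F) :
    M1 q t Z G v 0 = Z (v 0) := by
  induction v using st_ind with
  | h0 => simp
  | hadd v w hv hw => simp only [map_add, hv, hw, Finsupp.add_apply]
  | hs a f =>
    cases a with
    | zero => rw [← inc_apply, M1_inc]; simp
    | succ a => rw [← UU_single, M1_UU]; simp

lemma EE_inj (hi : Indep q t) {v : St F} (h : EE q t v = 0) : v = 0 := by
  apply Q2.h1_zero q t
  have h1 := congrArg (fun u => u (Q2.h1 q t v).natDegree) h
  simp only [EE_apply, Finsupp.zero_apply] at h1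
  have h2 := (smul_eq_zero.mp h1).resolve_left
    (pow_ne_zero _ (mul_ne_zero hi.q_ne (inv_ne_zero hi.t_ne)))
  have h3 := LL_top t (Q2.h1 q t v) _ _ le_rfl fun e he =>
    Polynomial.coeff_eq_zero_of_natDegree_lt he
  rw [if_pos rfl] at h3
  rw [← Q2.Lc_h1] at h2
  exact Polynomial.leadingCoeff_eq_zero.mp (h3.symm.trans h2)

variable [CharZero F]

lemma co0_Hm {m : ℤ} {f : Lam F} (hf : f ∈ Hm F m) (hm : m ≠ 0) : coeff 0 f = 0 := by
  by_contra h
  have := Hm_coeff hf h
  simp [wt] at this; omega

lemma e1_HS {m : ℤ} {v : St F} (hv : v ∈ HS F m) (hm : m ≠ 0) : e1 v = 0 :=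
  co0_Hm (hv 0) (by simpa using hm)

lemma co0_psi (v : St F) : coeff 0 (psi q t 1 v) = 0 := by
  rw [← Q2.Lc_h1]
  generalize Q2.h1 q t v = u
  induction u using Q2.mind with
  | hadd u v hu hv => rw [map_add, coeff_add, hu, hv, add_zero]
  | hm a f =>
    have h := co0_Hm (gg_Hm t (1 + a)) (by omega)
    rw [Q2.Lc_m, ← constantCoeff_eq, map_mul, constantCoeff_eq, h, zero_mul]

lemma e1_EE (v : St F) : e1 (EE q t v) = e1 v := by
  induction v using Q2.iota_ind q t with
  | hadd v w hv hw => simp only [map_add, hv, hw]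
  | hi f =>
    have : iota q t f 0 = f := Sh_zero _ f
    rw [Q2.EE_iota, e1_inc, e1_apply, this]
  | hU v _ => rw [EE_UU, map_add, map_smul, e1_UU, e1_UU, e1_inc, co0_psi]; simp

lemma gE_EE (G : Polynomial F) (v : St F) : gE q t G (EE q t v) = EE q t (gE q t G v) := by
  rw [gE_apply, gE_apply, map_add, map_smul, EE_inc_one, e1_EE,
    aeval_tw (EE q t) (EE q t) (EE q t) (fun _ => rfl)]

lemma gE_HS (G : Polynomial F) {m : ℤ} {v : St F} (hv : v ∈ HS F m) (hm : m ≠ 0) :
    gE q t G v = Polynomial.aeval (EE q t) G v := by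
  rw [gE_apply, e1_HS hv hm]; simp

lemma pow_run (G : Polynomial F) (a : ℕ) : ∀ {m : ℤ} {v : St F}, v ∈ HS F m → 0 < m →
    ((UU * gE q t G) ^ a : Module.End F (St F)) v = run q t (List.replicate a G) v := by
  induction a with
  | zero => intro m v _ _; rfl
  | succ a ih =>
    intro m v hv hm
    rw [pow_succ, Module.End.mul_apply, Module.End.mul_apply, gE_HS G hv hm.ne',
      List.replicate_succ, run_cons, ih (UU_HS (aeval_HS q t G hv)) (by omega)]

lemma pow_top (G : Polynomial F) (a : ℕ) :
    ((UU * gE q t G) ^ (a+1) : Module.End F (St F)) (inc 1) =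
      run q t (List.replicate a G) (UU (inc 1)) := by
  rw [pow_succ, Module.End.mul_apply, Module.End.mul_apply, gE_one,
    pow_run G a (UU_HS (inc_HS one_mem_Hm)) (by omega)]

lemma obs (hi : Indep q t) {m : ℤ} {z : St F} (hz : z ∈ HS F m)
    (h : ∀ c : ℕ, psi q t (c + 1) z = 0) : z = 0 := by
  have h0 : HV (0:ℤ) z = z := by ext s : 1; simp
  have step : ∀ c0 : ℤ, (∀ c, c0 ≤ c → psi q t c z = 0) → psi q t (c0 - 1) z = 0 := by
    intro c0 hc
    have h1 : ∀ k : ℕ, psi q t c0 (HV 1 z) = psi q t (c0 + k) (HV (1 + k) z) := by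
      intro k
      induction k with
      | zero => simp
      | succ k ih =>
        have h2 := H_psi q t (1 + (k+1 : ℕ)) (c0 + (k+1 : ℕ)) z
        have e1 : c0 + ((k+1 : ℕ) : ℤ) - 1 = c0 + k := by push_cast; ring
        have e2 : 1 + ((k+1 : ℕ) : ℤ) - 1 = 1 + k := by push_cast; ring
        rw [e1, e2, hc _ (by omega), hc _ (by omega), map_zero, map_zero, smul_zero, sub_zero] at h2
        rw [ih]; exact (sub_eq_zero.mp h2.symm).symm
    have h3 : HV (1 + (m.toNat : ℤ)) z = 0 := by
      ext s : 1
      rw [HV_apply]; exact Sh_eq_zero_of_Hm _ (hz s) (by omega)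
    have h4 := H_psi q t 1 c0 z
    rw [h1 m.toNat, h3, hc c0 le_rfl, sub_self, h0, Sh_zero, map_zero, map_zero] at h4
    have h5 : (t - 1) • psi q t (c0 - 1) z = 0 := by
      rw [sub_smul, one_smul]; linear_combination -h4
    exact (smul_eq_zero.mp h5).resolve_left (sub_ne_zero.mpr hi.t_ne_one)
  have all : ∀ k : ℕ, ∀ c : ℤ, 1 - k ≤ c → psi q t c z = 0 := by
    intro k
    induction k with
    | zero =>
      intro c hc
      obtain ⟨i, rfl⟩ : ∃ i : ℕ, c = i + 1 := ⟨(c - 1).toNat, by omega⟩
      exact h i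
    | succ k ih =>
      intro c hc
      rcases eq_or_lt_of_le hc with h1 | h1
      · have e : c = 1 - k - 1 := by omega
        rw [e]; exact step _ ih
      · exact ih c (by omega)
  refine EE_inj hi ?_
  ext j : 1
  rw [EE_apply, all (j+1) _ (by omega)]; simp

section lift
variable (hi : Indep q t) {Γ : (Σ n : ℕ, n.Partition) → F} {G : Polynomial F}
  (hΓ : ∀ i k c, 1 ≤ ((macSys hi).cells i).card →
    ((macSys hi).cells k).val = c ::ₘ ((macSys hi).cells i).val →
      Γ k = Γ i * G.eval (mono q t c))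
  (h1 : ∀ i, ((macSys hi).cells i).val = {(0,0)} → Γ i = 1)
  (h0 : ∀ i, ((macSys hi).cells i).card = 0 → Γ i = 1)
include hΓ h1 h0

lemma star (p : Polynomial F) (L : List (Polynomial F)) (u : St F) :
    (macSys hi).Del Γ (psi q t 0 (run q t (p :: L) u)) = psi q t 0 (run q t (L.map (· * G))
      (UU (Polynomial.aeval (EE q t) p (gE q t G (M1 q t ((macSys hi).Del Γ) G u))))) := by
  induction u using st_ind with
  | h0 => simp
  | hadd v w hv hw => simp only [map_add, hv, hw]
  | hs a f =>
    have : (macSys hi).Del Γ ∘ₗ psi q t 0 ∘ₗ run q t (p :: L) ∘ₗ Finsupp.lsingle a =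
        psi q t 0 ∘ₗ run q t (L.map (· * G)) ∘ₗ UU ∘ₗ Polynomial.aeval (EE q t) p ∘ₗ gE q t G ∘ₗ
          M1 q t ((macSys hi).Del Γ) G ∘ₗ Finsupp.lsingle a := by
      refine (macSys hi).b.ext fun i => ?_
      simp only [LinearMap.comp_apply, Finsupp.lsingle_apply]
      have hh := (macSys hi).hom i
      rw [M1_single, Sys.Del_b]
      rcases Nat.eq_zero_or_pos ((macSys hi).cells i).card with hc | hc
      · rw [hc, Nat.cast_zero] at hh
        rw [h0 i hc, one_smul, Hm_zero hh, C_eq_smul_one, ← Finsupp.smul_single]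
        simp only [map_smul]
        congr 1
        cases a with
        | zero =>
          rw [pow_zero, Module.End.one_apply, gE_one, ← inc_apply, run_cons,
            aeval_vec _ (x := 1) (by rw [EE_inc_one, one_smul])]
          simp only [map_smul]
          rw [(macSys hi).first hi Γ G hΓ h1]
        | succ a =>
          have h2 := (macSys hi).first hi Γ G hΓ h1 (List.replicate a 1 ++ p :: L)
          have h3 := run_HS (q := q) (t := t) (List.replicate a G)
            (UU_HS (inc_HS (one_mem_Hm (F := F))))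
          rw [run_append, run_rep_one, ← Module.End.mul_apply (UU ^ a), ← pow_succ, UU_pow_inc,
            List.map_append, List.map_replicate, one_mul, run_append, List.map_cons] at h2
          rw [h2, pow_top, gE_HS G h3 (by omega), run_cons, map_mul, Module.End.mul_apply]
      · have h2 := (macSys hi).symbol' hi Γ G 1 hΓ (List.replicate a 1 ++ p :: L) (by simp) i
          (inc ((macSys hi).b i)) hc (inc_HS hh) (by rw [Dt_inc, (macSys hi).eig, map_smul])
        have h3 := run_HS (q := q) (t := t) (List.replicate a G) (inc_HS hh)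
        rw [run_append, run_rep_one, UU_pow_inc, List.map_append, List.map_replicate, one_mul,
          run_append, List.map_cons] at h2
        rw [h2]
        simp only [map_smul]
        rw [pow_run G a (inc_HS hh) (by omega), gE_HS G h3 (by omega), run_cons, map_mul,
          Module.End.mul_apply]
    exact congrArg (fun φ => φ f) this

omit hΓ h1 h0 in
lemma M1_HS {m : ℤ} {v : St F} (hv : v ∈ HS F m) : M1 q t ((macSys hi).Del Γ) G v ∈ HS F m := by
  have hg : ∀ {k : ℤ} {w : St F}, w ∈ HS F k → gE q t G w ∈ HS F k := by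
    intro k w hw
    by_cases hk : k = 0
    · subst hk
      rw [gE_apply]
      exact add_mem (aeval_HS q t G hw) (Submodule.smul_mem _ _ (inc_HS one_mem_Hm))
    · rw [gE_HS G hw hk]; exact aeval_HS q t G hw
  have hp : ∀ (a : ℕ) {k : ℤ} {w : St F}, w ∈ HS F k →
      ((UU * gE q t G) ^ a : Module.End F (St F)) w ∈ HS F (k + a) := by
    intro a
    induction a with
    | zero => intro k w hw; simpa using hw
    | succ a ih =>
      intro k w hw
      rw [pow_succ', Module.End.mul_apply, Module.End.mul_apply, Nat.cast_succ, ← add_assoc]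
      exact UU_HS (hg (ih hw))
  obtain ⟨n, hn⟩ := st_bound v
  rw [M1, lsum_eq_sum _ v n fun s hs => by rw [hn s hs, map_zero]]
  refine Submodule.sum_mem _ fun a _ => ?_
  have := hp a (inc_HS ((macSys hi).Del_Hm Γ (hv a)))
  rwa [sub_add_cancel] at this

lemma M1_EE (hinv : ∀ m : ℕ, 1 ≤ m → ∃ r : Polynomial F, ∀ w ∈ HS F m,
      Polynomial.aeval (EE q t) (r * G) w = w) (u : St F) :
    M1 q t ((macSys hi).Del Γ) G (EE q t u) = EE q t (M1 q t ((macSys hi).Del Γ) G u) := by
  have key : ∀ (c m : ℕ), 1 ≤ m → ∀ z ∈ HS F m, (∀ p L, psi q t 0 (run q t (List.map (· * G) L)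
      (UU (Polynomial.aeval (EE q t) (p * G) z))) = 0) → psi q t (c + 1) z = 0 := by
    intro c
    induction c with
    | zero =>
      intro m hm z hz h
      obtain ⟨r, hr⟩ := hinv m hm
      have := h r []
      rwa [hr z hz, List.map_nil, run_nil, psi_UU] at this
    | succ c ih =>
      intro m hm z hz h
      obtain ⟨r, hr⟩ := hinv m hm
      have := ih (m+1) (by omega) (UU z) (by simpa using UU_HS hz) fun p L => by
        have h2 := h r (p :: L)
        rwa [hr z hz, List.map_cons, run_cons] at h2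
      rw [psi_UU] at this
      simpa using this
  induction u using st_ind with
  | h0 => simp
  | hadd v w hv hw => simp only [map_add, hv, hw]
  | hs a f =>
    have : M1 q t ((macSys hi).Del Γ) G ∘ₗ EE q t ∘ₗ Finsupp.lsingle a =
        EE q t ∘ₗ M1 q t ((macSys hi).Del Γ) G ∘ₗ Finsupp.lsingle a := by
      refine (macSys hi).b.ext fun i => ?_
      simp only [LinearMap.comp_apply, Finsupp.lsingle_apply]
      have hh := (macSys hi).hom i
      rcases Nat.eq_zero_or_pos (((macSys hi).cells i).card + a) with hc | hc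
      · obtain rfl : a = 0 := by omega
        have hc' : ((macSys hi).cells i).card = 0 := by omega
        rw [hc', Nat.cast_zero] at hh
        have e : EE q t (inc ((macSys hi).b i)) = inc ((macSys hi).b i) := by
          rw [Hm_zero hh, EE_inc_C]
        rw [← inc_apply, e, M1_inc, Sys.Del_b, map_smul, map_smul, e]
      · have hu := UU_pow_HS a (inc_HS hh)
        rw [UU_pow_inc, ← Nat.cast_add] at hu
        generalize Finsupp.single a ((macSys hi).b i) = u at hu
        have hz := sub_mem (M1_HS hi (Γ := Γ) (G := G) (EE_HS q t hu))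
          (EE_HS q t (M1_HS hi (Γ := Γ) (G := G) hu))
        refine sub_eq_zero.mp (obs hi hz fun c => key c _ hc _ hz fun p L => ?_)
        have a1 := star hi hΓ h1 h0 p L (EE q t u)
        have a2 := star hi hΓ h1 h0 (p * Polynomial.X) L u
        rw [run_cons, map_mul, Polynomial.aeval_X, Module.End.mul_apply, Module.End.mul_apply,
          ← run_cons, a1, ← gE_EE] at a2
        rw [map_mul, Module.End.mul_apply, ← gE_HS G hz (by omega)]
        simp only [map_sub]
        rw [a2, sub_self]
    exact congrArg (fun φ => φ f) this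

end lift

lemma GG_M1_EE (hi : Indep q t) {g : F} (hg : g ≠ 0) (u : St F) :
    M1 q t (GG hi g) (Polynomial.X * Gt g 0) (EE q t u) =
      EE q t (M1 q t (GG hi g) (Polynomial.X * Gt g 0) u) :=
  M1_EE hi (gam_step hi _) (gam_one hi _) (fun i h => by
    have : cells i.2 = ∅ := card_eq_zero.mp h
    rw [Gam, this]; simp) (exists_inv hi hg) u

lemma nabla_M1_EE (hi : Indep q t) (u : St F) :
    M1 q t ((macSys hi).Del (TT q t)) Polynomial.X (EE q t u) =
      EE q t (M1 q t ((macSys hi).Del (TT q t)) Polynomial.X u) := by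
  refine M1_EE hi (fun i k c _ h => ?_) (fun i h => ?_) (fun i h => ?_) (fun m _ => ?_) u
  · change (cells k.2).val = c ::ₘ (cells i.2).val at h
    simp only [TT, Finset.prod_eq_multiset_prod, h, Multiset.map_cons, Multiset.prod_cons,
      Polynomial.eval_X]
    ring
  · have : cells i.2 = {(0, 0)} := Finset.val_injective h
    rw [TT, this]; simp [mono]
  · have : cells i.2 = ∅ := card_eq_zero.mp h
    rw [TT, this]; simp
  · exact ⟨rr hi m, fun w hw => by
      rw [map_mul, Polynomial.aeval_X, Module.End.mul_apply, rr_spec hi hw]⟩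

lemma M1_GT (hi : Indep q t) (g : F) {k j : ℕ} (hk : 1 ≤ k) {f : Lam F}
    (hf : f ∈ Hm F (k - j)) : M1 q t (GG hi g) (Polynomial.X * Gt g 0) (Finsupp.single j f) =
      GT hi g k (Finsupp.single j f) := by
  rcases lt_trichotomy j k with h | rfl | h
  · rw [M1_single, GT_low hi g h.ne]
    exact pow_run _ j (inc_HS ((macSys hi).Del_Hm _ hf)) (by omega)
  · obtain ⟨a, rfl⟩ : ∃ a, j = a + 1 := ⟨j - 1, by omega⟩
    rw [sub_self] at hf
    have h1 : GG hi g 1 = 1 := by
      have e : DD q t 0 (1 : Lam F) = del q t ((macSys hi).cells ⟨0, default⟩).val • 1 := by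
        have h2 : (macSys hi).cells ⟨0, default⟩ = ∅ := card_eq_zero.mp (card_cells _)
        have := DD_C q t 0 1
        rw [h2]; simpa [del] using this
      have h2 : cells (default : Nat.Partition 0) = ∅ := card_eq_zero.mp (card_cells _)
      rw [GG, (macSys hi).Del_eig hi _ e, Gam, h2]; simp
    rw [Hm_zero hf, C_eq_smul_one, ← Finsupp.smul_single, map_smul, map_smul, M1_single, h1,
      pow_top, GT_top, Nat.add_sub_cancel]
  · rw [Hm_neg hf (by omega)]; simp

omit [CharZero F] in
/-- the states whose image under `E` are the tails of `E f` -/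
lemma ee_tail (hi : Indep q t) (h : Lam F) (k : ℕ) : ∃ x : St F,
    EE q t x = ee q t (-k) h ∧ ∀ j : ℕ, (Q2.h1 q t x).coeff j = Sh (cS q t) (k + j : ℕ) h := by
  induction k with
  | zero =>
    exact ⟨inc h, by rw [inc_apply, EE_single]; simp, fun j => by
      rw [Q2.h1_inc, Q2.Ph_coeff, zero_add]⟩
  | succ k ih =>
    obtain ⟨x, hx, hc⟩ := ih
    have h0 := Q2.h1_coeff q t (x - iota q t (x 0)) 0
    have e0 : iota q t (x 0) 0 = x 0 := Sh_zero _ _
    obtain ⟨y, hy⟩ : ∃ y, x - iota q t (x 0) = UU y :=
      ⟨(x - iota q t (x 0)).comapDomain Nat.succ Nat.succ_injective.injOn, by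
        ext j : 1
        cases j with
        | zero => simp [e0]
        | succ j => simp⟩
    refine ⟨y, ?_, fun j => ?_⟩
    · have h1 := congrArg (EE q t) hy
      rw [map_sub, hx, Q2.EE_iota, EE_UU, ee_rec] at h1
      ext j : 1
      have h2 := congrArg (fun u => u (j+1)) h1
      simp only [Finsupp.sub_apply, Finsupp.add_apply, inc_succ, Finsupp.smul_apply, UU_succ,
        zero_add, sub_zero] at h2
      have e : -((k+1 : ℕ) : ℤ) = -k - 1 := by push_cast; ring
      rw [e]
      exact (smul_right_injective _ (mul_ne_zero hi.q_ne (inv_ne_zero hi.t_ne)) h2).symm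
    · have h1 := congrArg (fun u => (Q2.h1 q t u).coeff (j+1)) hy
      simp only [map_sub, Q2.h1_iota, Q2.h1_UU, Polynomial.coeff_sub, Polynomial.coeff_X_mul,
        Polynomial.coeff_C_succ, sub_zero, hc] at h1
      rw [← h1]; congr 3; omega

omit [CharZero F] in
lemma st_split (v : St F) : ∃ z, v = inc (v 0) + UU z ∧ z 0 = v 1 :=
  ⟨v.comapDomain Nat.succ Nat.succ_injective.injOn, by
    ext j : 1
    cases j with
    | zero => simp
    | succ j => simp, rfl⟩

lemma nabla_tail (hi : Indep q t) {v : St F} {h : Lam F} {k : ℕ}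
    (hv : M1 q t ((macSys hi).Del (TT q t)) Polynomial.X v = ee q t (-k) h) :
    (macSys hi).Del (TT q t) (v 1) = (q * t⁻¹) • Sh (cS q t) (k + 1 : ℕ) h := by
  obtain ⟨z, h1, h2⟩ := st_split v
  obtain ⟨x, hx, hc⟩ := ee_tail hi h (k+1)
  have e : -((k+1 : ℕ) : ℤ) = -k - 1 := by push_cast; ring
  have hg : ∀ w, gE q t Polynomial.X w = EE q t w := fun w => by simp [gE_apply]
  rw [h1, map_add, M1_inc, M1_UU, hg, ee_rec, ← e, ← hx] at hv
  have h3 : EE q t (M1 q t ((macSys hi).Del (TT q t)) Polynomial.X z - (q * t⁻¹) • x) = 0 := by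
    ext j : 1
    have h4 := congrArg (fun u => u (j+1)) hv
    simp only [Finsupp.add_apply, inc_succ, Finsupp.smul_apply, UU_succ, zero_add] at h4
    rw [map_sub, map_smul, Finsupp.sub_apply, h4]; simp
  have h5 := congrArg (fun u => u 0) (sub_eq_zero.mp (EE_inj hi h3))
  have h6 := Q2.h1_coeff q t x 0
  rw [hc 0] at h6
  simp only [M1_zero, h2, Finsupp.smul_apply] at h5
  rw [h5, h6]; simp

lemma nabla_two (hi : Indep q t) (f : Lam F) :
    (macSys hi).Del (TT q t) (DD q t (-1) f) = Sh (cS q t) 1 ((macSys hi).Del (TT q t) f) ∧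
    (macSys hi).Del (TT q t) (psi q t (-1) (ee q t (-1) f)) =
      Sh (cS q t) 2 ((macSys hi).Del (TT q t) f) := by
  have hρ : q * t⁻¹ ≠ 0 := mul_ne_zero hi.q_ne (inv_ne_zero hi.t_ne)
  have e0 : ∀ f : Lam F, EE q t (inc f) = ee q t 0 f := fun f => by
    rw [inc_apply, EE_single]; rfl
  have h1 : ∀ f, M1 q t ((macSys hi).Del (TT q t)) Polynomial.X (ee q t 0 f) =
      ee q t 0 ((macSys hi).Del (TT q t) f) := fun f => by
    rw [← e0, nabla_M1_EE, M1_inc, e0]
  have hg : ∀ w, gE q t Polynomial.X w = EE q t w := fun w => by simp [gE_apply]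
  constructor
  · have := nabla_tail hi (k := 0) (h1 f)
    rw [ee_apply, map_smul, pow_one] at this
    simpa using smul_right_injective _ hρ this
  · have h2 := h1 f
    rw [ee_rec, ee_rec q t 0 ((macSys hi).Del (TT q t) f), map_add, map_smul, M1_inc, M1_UU, hg,
      ← nabla_M1_EE] at h2
    have h3 : M1 q t ((macSys hi).Del (TT q t)) Polynomial.X (EE q t (ee q t (0 - 1) f)) =
        ee q t (-(1:ℕ)) ((macSys hi).Del (TT q t) f) := by
      ext j : 1
      have h4 := congrArg (fun u => u (j+1)) h2
      simp only [Finsupp.add_apply, inc_succ, Finsupp.smul_apply, UU_succ, zero_add] at h4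
      exact smul_right_injective _ hρ h4
    have := nabla_tail hi h3
    rw [EE_apply, map_smul, pow_one] at this
    simpa using smul_right_injective _ hρ this

end Two22
end MJ
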