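import Pool.Agent.Lib.MP_9c49f6_co.Q2A

/-! States with two catalytic variables: definitions and relations. -/

namespace MJ
namespace Two22
open Finset MvPolynomial One22

def V2 (F : Type) [Field F] := Polynomial (Polynomial (Lam F))

variable {F : Type} [Field F]

noncomputable instance : CommRing (V2 F) :=
  inferInstanceAs (CommRing (Polynomial (Polynomial (Lam F))))
instance : IsDomain (V2 F) := inferInstanceAs (IsDomain (Polynomial (Polynomial (Lam F))))
noncomputable instance : Algebra F (V2 F) :=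
  inferInstanceAs (Algebra F (Polynomial (Polynomial (Lam F))))

noncomputable def toV : Polynomial (Polynomial (Lam F)) ≃ₐ[F] V2 F := AlgEquiv.refl

noncomputable def y1 : V2 F := toV (Polynomial.C Polynomial.X)
noncomputable def y2 : V2 F := toV Polynomial.X
noncomputable def cc : Lam F →ₐ[F] V2 F :=
  toV.toAlgHom.comp (Polynomial.CAlgHom.comp Polynomial.CAlgHom)

noncomputable def mon (a b : ℕ) : Lam F →ₗ[F] V2 F :=
  LinearMap.mulLeft F (y1 ^ a * y2 ^ b) ∘ₗ cc.toLinearMap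

noncomputable def ls {M : Type} [AddCommGroup M] [Module F M] (A : ℕ → ℕ → Lam F →ₗ[F] M) :
    V2 F →ₗ[F] M :=
  (Polynomial.lsum fun b => Polynomial.lsum fun a => A a b) ∘ₗ toV.symm.toLinearMap

noncomputable def co (a b : ℕ) : V2 F →ₗ[F] Lam F where
  toFun v := ((toV.symm v).coeff b).coeff a
  map_add' := by simp
  map_smul' := by simp

noncomputable def sw : V2 F →ₐ[F] V2 F :=
  toV.toAlgHom.comp (((Polynomial.Bivariate.swap (R := Lam F)).restrictScalars F).toAlgHom.comp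
    toV.symm.toAlgHom)

/-- `hh (a+1) = h_a(y1,y2)` -/
noncomputable def hh : ℕ → V2 F
  | 0 => 0
  | a+1 => y1 ^ a + y2 * hh a

noncomputable def dd : V2 F →ₗ[F] V2 F :=
  ls fun a b => LinearMap.mulLeft F (hh a * y2 ^ b - hh b * y2 ^ a) ∘ₗ cc.toLinearMap

noncomputable def emb (w : ℕ → V2 F) : St F →ₗ[F] V2 F :=
  Finsupp.lsum F fun j : ℕ => LinearMap.mulLeft F (w j) ∘ₗ cc.toLinearMap

noncomputable def i1 : St F →ₗ[F] V2 F := emb fun j => y1 ^ j
noncomputable def i2 : St F →ₗ[F] V2 F := emb fun j => y2 ^ j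
noncomputable def ih : St F →ₗ[F] V2 F := emb fun j => hh (j+1)
noncomputable def ic : St F →ₗ[F] V2 F := emb fun j => y1 * hh j

noncomputable def p0 : V2 F →ₗ[F] St F := ls fun a b => if b = 0 then Finsupp.lsingle a else 0

lemma mon_apply (a b : ℕ) (f : Lam F) : mon a b f = y1 ^ a * y2 ^ b * cc f := rfl

lemma cc_apply (f : Lam F) : cc f = toV (Polynomial.C (Polynomial.C f)) := rfl

lemma mon_eq (a b : ℕ) (f : Lam F) :
    mon a b f = toV (Polynomial.monomial b (Polynomial.monomial a f)) := by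
  rw [mon_apply, cc_apply, y1, y2, ← map_pow toV, ← map_pow toV, ← map_mul toV, ← map_mul toV]
  congr 1
  rw [← Polynomial.C_mul_X_pow_eq_monomial, ← Polynomial.C_mul_X_pow_eq_monomial, map_mul, map_pow]
  ring

lemma ls_mon {M : Type} [AddCommGroup M] [Module F M] (A : ℕ → ℕ → Lam F →ₗ[F] M) (a b : ℕ)
    (f : Lam F) : ls A (mon a b f) = A a b f := by
  rw [mon_eq]
  simp [ls, Polynomial.lsum, Polynomial.sum_monomial_index]

lemma co_toV (a b : ℕ) (p : Polynomial (Polynomial (Lam F))) :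
    co a b (toV p) = (p.coeff b).coeff a := rfl

lemma co_mon (a b c d : ℕ) (f : Lam F) :
    co a b (mon c d f) = if a = c ∧ b = d then f else 0 := by
  rw [mon_eq, co_toV, Polynomial.coeff_monomial]
  by_cases h : d = b
  · subst h
    rw [if_pos rfl, Polynomial.coeff_monomial]
    by_cases h' : c = a
    · subst h'; simp
    · rw [if_neg h', if_neg (fun h => h' h.1.symm)]
  · rw [if_neg h, if_neg (fun h' => h h'.2.symm), Polynomial.coeff_zero]

lemma v_ext {v w : V2 F} (h : ∀ a b, co a b v = co a b w) : v = w := by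
  obtain ⟨p, rfl⟩ := toV.surjective v
  obtain ⟨r, rfl⟩ := toV.surjective w
  exact congrArg toV (Polynomial.ext fun b => Polynomial.ext fun a => h a b)

lemma co_ind {P : V2 F → Prop} (v : V2 F) (h0 : P 0) (hadd : ∀ v w, P v → P w → P (v + w))
    (hm : ∀ a b, P (mon a b (co a b v))) : P v := by
  obtain ⟨p, rfl⟩ := toV.surjective v
  have e : toV p = ∑ b ∈ p.support, ∑ a ∈ (p.coeff b).support, mon a b (co a b (toV p)) := by
    conv_lhs => rw [p.as_sum_support, map_sum]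
    refine sum_congr rfl fun b _ => ?_
    conv_lhs => rw [(p.coeff b).as_sum_support, map_sum, map_sum]
    exact sum_congr rfl fun a _ => (mon_eq _ _ _).symm
  rw [e]
  exact Finset.sum_induction _ P hadd h0 fun b _ =>
    Finset.sum_induction _ P hadd h0 fun a _ => hm a b

lemma mon_ind {P : V2 F → Prop} (v : V2 F) (hadd : ∀ v w, P v → P w → P (v + w))
    (hm : ∀ a b f, P (mon a b f)) : P v :=
  co_ind v (by simpa using hm 0 0 0) hadd fun a b => hm a b _

lemma y1_mon (a b : ℕ) (f : Lam F) : y1 * mon a b f = mon (a+1) b f := by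
  simp only [mon_apply]; ring
lemma y2_mon (a b : ℕ) (f : Lam F) : y2 * mon a b f = mon a (b+1) f := by
  simp only [mon_apply]; ring
lemma mon_zero (f : Lam F) : mon 0 0 f = cc f := by simp [mon_apply]

lemma co_y1 (a b : ℕ) (v : V2 F) : co (a+1) b (y1 * v) = co a b v := by
  induction v using mon_ind with
  | hadd v w hv hw => simp only [mul_add, map_add, hv, hw]
  | hm c d f => simp [y1_mon, co_mon]
lemma co_y1_zero (b : ℕ) (v : V2 F) : co 0 b (y1 * v) = 0 := by
  induction v using mon_ind with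
  | hadd v w hv hw => simp only [mul_add, map_add, hv, hw, add_zero]
  | hm c d f => simp [y1_mon, co_mon]
lemma co_y2 (a b : ℕ) (v : V2 F) : co a (b+1) (y2 * v) = co a b v := by
  induction v using mon_ind with
  | hadd v w hv hw => simp only [mul_add, map_add, hv, hw]
  | hm c d f => simp [y2_mon, co_mon]
lemma co_y2_zero (a : ℕ) (v : V2 F) : co a 0 (y2 * v) = 0 := by
  induction v using mon_ind with
  | hadd v w hv hw => simp only [mul_add, map_add, hv, hw, add_zero]
  | hm c d f => simp [y2_mon, co_mon]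

/-- induction: constants, `y1 * _`, `y2 * _` -/
lemma v_ind {P : V2 F → Prop} (v : V2 F) (hadd : ∀ v w, P v → P w → P (v + w))
    (hc : ∀ f, P (cc f)) (h1 : ∀ v, P v → P (y1 * v)) (h2 : ∀ v, P v → P (y2 * v)) : P v := by
  refine mon_ind v hadd fun a b f => ?_
  induction a with
  | zero =>
    induction b with
    | zero => rw [mon_zero]; exact hc f
    | succ b ih => rw [← y2_mon]; exact h2 _ ih
  | succ a ih => rw [← y1_mon]; exact h1 _ ih

lemma emb_single (w : ℕ → V2 F) (j : ℕ) (f : Lam F) :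
    emb w (Finsupp.single j f) = w j * cc f := by simp [emb]
lemma i1_single (j : ℕ) (f : Lam F) : i1 (Finsupp.single j f) = mon j 0 f := by
  rw [i1, emb_single, mon_apply, pow_zero, mul_one]

/-- induction: `i1 _`, `y2 * _` -/
lemma v_ind' {P : V2 F → Prop} (v : V2 F) (hadd : ∀ v w, P v → P w → P (v + w))
    (hc : ∀ u, P (i1 u)) (h2 : ∀ v, P v → P (y2 * v)) : P v := by
  refine mon_ind v hadd fun a b f => ?_
  induction b with
  | zero => rw [← i1_single]; exact hc _
  | succ b ih => rw [← y2_mon]; exact h2 _ ih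

lemma sw_y1 : sw (y1 : V2 F) = y2 :=
  congrArg toV (Polynomial.Bivariate.swap_X (R := Lam F))
lemma sw_y2 : sw (y2 : V2 F) = y1 :=
  congrArg toV (Polynomial.Bivariate.swap_Y (R := Lam F))
lemma sw_cc (f : Lam F) : sw (cc f) = cc f :=
  congrArg toV (Polynomial.Bivariate.swap_C_C f)
lemma sw_mon (a b : ℕ) (f : Lam F) : sw (mon a b f) = mon b a f := by
  simp only [mon_apply, map_mul, map_pow, sw_y1, sw_y2, sw_cc]; ring
lemma sw_sw (v : V2 F) : sw (sw v) = v := by
  induction v using mon_ind with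
  | hadd v w hv hw => simp only [map_add, hv, hw]
  | hm c d f => rw [sw_mon, sw_mon]
lemma co_sw (a b : ℕ) (v : V2 F) : co a b (sw v) = co b a v := by
  induction v using mon_ind with
  | hadd v w hv hw => simp only [map_add, hv, hw]
  | hm c d f => simp only [sw_mon, co_mon, and_comm]
lemma y1_eq : (y1 : V2 F) = mon 1 0 1 := by simp [mon_apply]
lemma y2_eq : (y2 : V2 F) = mon 0 1 1 := by simp [mon_apply]
lemma y1_ne : (y1 : V2 F) ≠ 0 := fun h => by
  have := congrArg (co 1 0) h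
  simp [y1_eq, co_mon] at this
lemma y2_ne : (y2 : V2 F) ≠ 0 := fun h => by
  have := congrArg (co 0 1) h
  simp [y2_eq, co_mon] at this
lemma y12_ne : (y1 - y2 : V2 F) ≠ 0 := fun h => by
  have := congrArg (co 1 0) h
  rw [map_sub, y1_eq, y2_eq] at this
  simp [co_mon] at this
lemma hh_mul (a : ℕ) : (y1 - y2 : V2 F) * hh a = y1 ^ a - y2 ^ a := by
  induction a with
  | zero => simp [hh]
  | succ a ih => rw [hh]; linear_combination y2 * ih
lemma hh_succ' (a : ℕ) : (hh (a+1) : V2 F) = y2 ^ a + y1 * hh a := by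
  rw [hh]; linear_combination -hh_mul (F := F) a
lemma sw_hh (a : ℕ) : sw (hh a : V2 F) = hh a := by
  induction a with
  | zero => simp [hh]
  | succ a ih => rw [hh, map_add, map_mul, map_pow, sw_y1, sw_y2, ih, ← hh_succ', hh]
lemma dd_mon (a b : ℕ) (f : Lam F) :
    dd (mon a b f) = (hh a * y2 ^ b - hh b * y2 ^ a) * cc f := by rw [dd, ls_mon]; rfl
lemma dd_spec (v : V2 F) : (y1 - y2) * dd v = v - sw v := by
  induction v using mon_ind with
  | hadd v w hv hw => simp only [map_add, mul_add, hv, hw]; abel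
  | hm a b f =>
    rw [dd_mon, sw_mon, mon_apply, mon_apply]
    linear_combination y2 ^ b * cc f * hh_mul (F := F) a - y2 ^ a * cc f * hh_mul (F := F) b
lemma sw_dd (v : V2 F) : sw (dd v) = dd v := by
  apply mul_left_cancel₀ y12_ne
  have h := congrArg sw (dd_spec v)
  rw [map_mul, map_sub, map_sub, sw_y1, sw_y2, sw_sw] at h
  linear_combination -h - dd_spec v

lemma i1_inc (f : Lam F) : i1 (inc f) = cc f := by rw [inc_apply, i1_single, mon_zero]
lemma i1_UU (v : St F) : i1 (UU v) = y1 * i1 v := by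
  induction v using st_ind with
  | h0 => simp
  | hadd v w hv hw => simp only [map_add, mul_add, hv, hw]
  | hs j f => rw [UU_single, i1_single, i1_single, y1_mon]
lemma i2_UU (v : St F) : i2 (UU v) = y2 * i2 v := by
  induction v using st_ind with
  | h0 => simp
  | hadd v w hv hw => simp only [map_add, mul_add, hv, hw]
  | hs j f => rw [UU_single, i2, emb_single, emb_single]; ring
lemma sw_i1 (v : St F) : sw (i1 v) = i2 v := by
  induction v using st_ind with
  | h0 => simp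
  | hadd v w hv hw => simp only [map_add, hv, hw]
  | hs j f => rw [i1, i2, emb_single, emb_single, map_mul, map_pow, sw_y1, sw_cc]
lemma sw_ih (v : St F) : sw (ih v) = ih v := by
  induction v using st_ind with
  | h0 => simp
  | hadd v w hv hw => simp only [map_add, hv, hw]
  | hs j f => rw [ih, emb_single, map_mul, sw_hh, sw_cc]
lemma ih_inc (f : Lam F) : ih (inc f) = cc f := by
  rw [inc_apply, ih, emb_single]; simp [hh]
lemma ih_UU (v : St F) : ih (UU v) = y1 * i1 v + y2 * ih v := by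
  induction v using st_ind with
  | h0 => simp
  | hadd v w hv hw => simp only [map_add, mul_add, hv, hw]; abel
  | hs j f => rw [UU_single, ih, i1, emb_single, emb_single, emb_single, hh]; ring
lemma ih_eq (v : St F) : ih v = i2 v + ic v := by
  induction v using st_ind with
  | h0 => simp
  | hadd v w hv hw => simp only [map_add, hv, hw]; abel
  | hs j f => rw [ih, i2, ic, emb_single, emb_single, emb_single, hh_succ']; ring
lemma ih_eq' (v : St F) : ∃ w, ih v = i1 v + y2 * w ∧ (y1 - y2) * w = i1 v - i2 v := by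
  refine ⟨emb hh v, ?_⟩
  induction v using st_ind with
  | h0 => simp
  | hadd v w hv hw =>
    simp only [map_add, mul_add, hv.1, hw.1, hv.2, hw.2]
    constructor <;> abel
  | hs j f =>
    simp only [ih, i1, i2, emb_single, hh]
    exact ⟨by ring, by linear_combination cc f * hh_mul (F := F) j⟩
lemma co_i1 (a b : ℕ) (v : St F) : co a b (i1 v) = if b = 0 then v a else 0 := by
  induction v using st_ind with
  | h0 => simp
  | hadd v w hv hw => simp only [map_add, hv, hw]; split_ifs <;> simp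
  | hs j f =>
    rw [i1_single, co_mon, Finsupp.single_apply]
    by_cases h : b = 0 <;> simp [h, eq_comm]
lemma co_hh (j : ℕ) (f : Lam F) : ∀ a b : ℕ,
    co a b (hh j * cc f) = if j = a + b + 1 then f else 0 := by
  induction j with
  | zero => intro a b; simp [hh]
  | succ j ih =>
    intro a b
    have e : hh (j+1) * cc f = mon j 0 f + y2 * (hh j * cc f) := by rw [hh, mon_apply]; ring
    rw [e, map_add, co_mon]
    cases b with
    | zero => rw [co_y2_zero]; simp [eq_comm]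
    | succ b =>
      rw [co_y2, ih, if_neg (by omega), zero_add]
      exact if_congr (by omega) rfl rfl
lemma co_ih (a b : ℕ) (v : St F) : co a b (ih v) = v (a + b) := by
  induction v using st_ind with
  | h0 => simp
  | hadd v w hv hw => simp only [map_add, hv, hw, Finsupp.add_apply]
  | hs j f => rw [ih, emb_single, co_hh, Finsupp.single_apply]; simp
lemma p0_apply (v : V2 F) (a : ℕ) : p0 v a = co a 0 v := by
  induction v using mon_ind with
  | hadd v w hv hw => simp only [map_add, hv, hw, Finsupp.add_apply]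
  | hm c d f =>
    rw [p0, ls_mon, co_mon]
    by_cases h : d = 0
    · simp [h, Finsupp.single_apply, eq_comm]
    · simp [h, Ne.symm h]
lemma p0_i1 (v : St F) : p0 (i1 v) = v := by ext a : 1; rw [p0_apply, co_i1, if_pos rfl]
lemma p0_y2 (v : V2 F) : p0 (y2 * v) = 0 := by ext a : 1; rw [p0_apply, co_y2_zero]; rfl
lemma p0_split (v : V2 F) : ∃ w, v = i1 (p0 v) + y2 * w := by
  induction v using v_ind' with
  | hadd v w hv hw =>
    obtain ⟨a, ha⟩ := hv
    obtain ⟨b, hb⟩ := hw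
    exact ⟨a + b, by rw [map_add, map_add]; linear_combination ha + hb⟩
  | hc u => exact ⟨0, by simp [p0_i1]⟩
  | h2 v _ => exact ⟨v, by simp [p0_y2]⟩

/-- coefficientwise membership; `S (A + a + b)` receives the coefficient of `y1^a y2^b` -/
def CO (S : ℤ → AddSubmonoid (Lam F)) (A : ℤ) : AddSubmonoid (V2 F) where
  carrier := {v | ∀ a b : ℕ, co a b v ∈ S (A + a + b)}
  add_mem' := by intro v w hv hw a b; rw [map_add]; exact add_mem (hv a b) (hw a b)
  zero_mem' := by intro a b; rw [map_zero]; exact zero_mem _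

section CO
variable {S : ℤ → AddSubmonoid (Lam F)} {A : ℤ}

lemma CO_y1 {v : V2 F} (h : v ∈ CO S A) : y1 * v ∈ CO S (A - 1) := by
  intro a b
  cases a with
  | zero => rw [co_y1_zero]; exact zero_mem _
  | succ a =>
    have e : A - 1 + ((a+1 : ℕ) : ℤ) + b = A + a + b := by push_cast; ring
    rw [co_y1, e]; exact h a b
lemma CO_y2 {v : V2 F} (h : v ∈ CO S A) : y2 * v ∈ CO S (A - 1) := by
  intro a b
  cases b with
  | zero => rw [co_y2_zero]; exact zero_mem _
  | succ b =>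
    have e : A - 1 + a + ((b+1 : ℕ) : ℤ) = A + a + b := by push_cast; ring
    rw [co_y2, e]; exact h a b
lemma CO_y1_pow (k : ℕ) {v : V2 F} (h : v ∈ CO S A) : y1 ^ k * v ∈ CO S (A - k) := by
  induction k with
  | zero => simpa using h
  | succ k ih =>
    have e : A - ((k+1 : ℕ) : ℤ) = A - k - 1 := by push_cast; ring
    rw [pow_succ', mul_assoc, e]; exact CO_y1 ih
lemma CO_y2_pow (k : ℕ) {v : V2 F} (h : v ∈ CO S A) : y2 ^ k * v ∈ CO S (A - k) := by
  induction k with
  | zero => simpa using h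
  | succ k ih =>
    have e : A - ((k+1 : ℕ) : ℤ) = A - k - 1 := by push_cast; ring
    rw [pow_succ', mul_assoc, e]; exact CO_y2 ih
lemma CO_hh (k : ℕ) {v : V2 F} (h : v ∈ CO S A) : hh k * v ∈ CO S (A - k + 1) := by
  induction k with
  | zero => rw [hh, zero_mul]; exact zero_mem _
  | succ k ih =>
    have e : A - ((k+1 : ℕ) : ℤ) + 1 = A - k := by push_cast; ring
    have e' : A - k + 1 - 1 = A - k := by ring
    have h2 := CO_y2 ih
    rw [e'] at h2
    rw [hh, add_mul, mul_assoc, e]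
    exact add_mem (CO_y1_pow k h) h2
lemma CO_mon (a b : ℕ) {f : Lam F} (h : f ∈ S (A + a + b)) : mon a b f ∈ CO S A := by
  intro c d
  rw [co_mon]
  split_ifs with h1
  · rw [h1.1, h1.2]; exact h
  · exact zero_mem _
lemma CO_cc {f : Lam F} (h : f ∈ S A) : cc f ∈ CO S A := by
  rw [← mon_zero]; exact CO_mon 0 0 (by simpa using h)
lemma CO_emb {w : ℕ → V2 F} (hw : ∀ (j : ℕ) (B : ℤ), ∀ v ∈ CO S B, w j * v ∈ CO S (B - j))
    {v : St F} (h : ∀ j : ℕ, v j ∈ S (A + j)) : emb w v ∈ CO S A := by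
  obtain ⟨n, hn⟩ := st_bound v
  rw [emb, lsum_eq_sum _ v n fun s hs => by rw [hn s hs, map_zero]]
  refine sum_mem fun j _ => ?_
  have := hw j _ _ (CO_cc (h j))
  rwa [add_sub_cancel_right] at this
lemma CO_i1 {v : St F} (h : ∀ j : ℕ, v j ∈ S (A + j)) : i1 v ∈ CO S A :=
  CO_emb (fun j _ _ hv => CO_y1_pow j hv) h
lemma CO_i2 {v : St F} (h : ∀ j : ℕ, v j ∈ S (A + j)) : i2 v ∈ CO S A :=
  CO_emb (fun j _ _ hv => CO_y2_pow j hv) h
lemma CO_ih {v : St F} (h : ∀ j : ℕ, v j ∈ S (A + j)) : ih v ∈ CO S A :=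
  CO_emb (fun j B _ hv => by
    have := CO_hh (j+1) hv
    have e : B - ((j+1 : ℕ) : ℤ) + 1 = B - j := by push_cast; ring
    rwa [e] at this) h
lemma CO_ic {v : St F} (h : ∀ j : ℕ, v j ∈ S (A + j)) : ic v ∈ CO S A :=
  CO_emb (fun j B _ hv => by
    have := CO_y1 (CO_hh j hv)
    rwa [add_sub_cancel_right, ← mul_assoc] at this) h

end CO

/-- homogeneous part of degree `m` -/
noncomputable def HW (F : Type) [Field F] (m : ℤ) : Submodule F (V2 F) where
  carrier := {v | ∀ a b : ℕ, co a b v ∈ Hm F (m - a - b)}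
  add_mem' := by intro v w hv hw a b; rw [map_add]; exact add_mem (hv a b) (hw a b)
  zero_mem' := by intro a b; rw [map_zero]; exact zero_mem _
  smul_mem' := by intro c v hv a b; rw [map_smul]; exact Submodule.smul_mem _ _ (hv a b)

lemma HW_iff {m : ℤ} {v : V2 F} :
    v ∈ HW F m ↔ v ∈ CO (fun k => (Hm F (-k)).toAddSubmonoid) (-m) := by
  have e : ∀ a b : ℕ, -(-m + a + b) = m - a - b := fun a b => by ring
  exact ⟨fun h a b => by have := h a b; rwa [← e] at this,
    fun h a b => by have := h a b; rwa [← e]⟩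

lemma HW_mul {w : V2 F} {k : ℤ}
    (hw : ∀ (S : ℤ → AddSubmonoid (Lam F)) (A : ℤ), ∀ v ∈ CO S A, w * v ∈ CO S (A - k))
    {m : ℤ} {v : V2 F} (h : v ∈ HW F m) : w * v ∈ HW F (m + k) := by
  have := hw _ _ v (HW_iff.mp h)
  rw [HW_iff, neg_add']; exact this

lemma HW_y1 {m : ℤ} {v : V2 F} (h : v ∈ HW F m) : y1 * v ∈ HW F (m + 1) :=
  HW_mul (fun _ _ _ => CO_y1) h
lemma HW_y2 {m : ℤ} {v : V2 F} (h : v ∈ HW F m) : y2 * v ∈ HW F (m + 1) :=
  HW_mul (fun _ _ _ => CO_y2) h
lemma HW_y1_pow (k : ℕ) {m : ℤ} {v : V2 F} (h : v ∈ HW F m) : y1 ^ k * v ∈ HW F (m + k) :=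
  HW_mul (fun _ _ _ => CO_y1_pow k) h
lemma HW_y2_pow (k : ℕ) {m : ℤ} {v : V2 F} (h : v ∈ HW F m) : y2 ^ k * v ∈ HW F (m + k) :=
  HW_mul (fun _ _ _ => CO_y2_pow k) h
lemma HW_hh (k : ℕ) {m : ℤ} {v : V2 F} (h : v ∈ HW F m) : hh k * v ∈ HW F (m + (k - 1)) :=
  HW_mul (fun _ A _ hv => by
    have e : A - (k - 1) = A - k + 1 := by ring
    rw [e]; exact CO_hh k hv) h
lemma HW_mon (a b : ℕ) {m : ℤ} {f : Lam F} (h : f ∈ Hm F (m - a - b)) : mon a b f ∈ HW F m := by
  intro c d
  rw [co_mon]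
  split_ifs with h1
  · rw [h1.1, h1.2]; exact h
  · exact zero_mem _
lemma HW_cc {m : ℤ} {f : Lam F} (h : f ∈ Hm F m) : cc f ∈ HW F m := by
  rw [← mon_zero]; exact HW_mon 0 0 (by simpa using h)
lemma HW_i1 {m : ℤ} {v : St F} (h : v ∈ HS F m) : i1 v ∈ HW F m := by
  intro a b
  rw [co_i1]
  split_ifs with h1
  · subst h1; simpa using h a
  · exact zero_mem _
lemma HW_ih {m : ℤ} {v : St F} (h : v ∈ HS F m) : ih v ∈ HW F m := by
  intro a b
  have := h (a + b)
  rw [co_ih, sub_sub]; exact_mod_cast this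

lemma i1_UU_pow (b : ℕ) (v : St F) :
    i1 ((UU ^ b : Module.End F (St F)) v) = y1 ^ b * i1 v := by
  induction b with
  | zero => simp
  | succ b ih => rw [pow_succ', Module.End.mul_apply, i1_UU, ih]; ring

/-- a root `s` of `(X - q)(X - 1/t)` and the other root `s'` -/
structure Rt (q t : F) where
  s : F
  s' : F
  hm : s * s' = q * t⁻¹
  ha : s + s' = q + t⁻¹

variable {q t : F}

noncomputable def KK (q t : F) (a : ℤ) : Lam F →ₗ[F] V2 F := ih ∘ₗ ee q t a
noncomputable def PP (q t : F) (c d : ℤ) : Lam F →ₗ[F] Lam F := psi q t c ∘ₗ ee q t d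

namespace Rt
variable (R : Rt q t)

def σ : F := R.s' - 1

noncomputable def T : Module.End F (V2 F) :=
  sw.toLinearMap + R.σ • (LinearMap.mulLeft F y2 ∘ₗ dd)
noncomputable def Tb : Module.End F (V2 F) := R.T + R.σ • 1

noncomputable def Xi : Module.End F (V2 F) := ls fun a b => LinearMap.mulLeft F (y1 ^ b) ∘ₗ
  (KK q t a - R.s • (LinearMap.mulLeft F y1 ∘ₗ KK q t (a - 1)))

noncomputable def Q : V2 F →ₗ[F] St F := ls fun a b => (UU ^ b : Module.End F (St F)) ∘ₗ
  (ee q t (a + 1) - R.s • (UU ∘ₗ ee q t a))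

noncomputable def Y1 : Module.End F (V2 F) := R.T * R.Xi
noncomputable def Y2 : Module.End F (V2 F) := R.Xi * R.Tb

noncomputable def Lh (A B : ℤ) : Lam F →ₗ[F] Lam F := PP q t B A - R.s • PP q t (B+1) (A-1)

noncomputable def LS (β γ : ℤ) : Lam F →ₗ[F] St F :=
  stateOf (fun j => (q * t⁻¹) ^ j • R.Lh β (γ - j)) (fun f => by
    obtain ⟨n, hn⟩ := psi_bound q t (ee q t β f)
    obtain ⟨m, hm⟩ := psi_bound q t (ee q t (β - 1) f)
    refine ⟨n + m + γ.toNat + 1, fun j hj => ?_⟩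
    simp [Lh, PP, hn (γ - j) (by omega), hm (γ - j + 1) (by omega)])

noncomputable def ww : ℕ → ℤ → ℤ → Lam F →ₗ[F] V2 F
  | 0, _, _ => 0
  | n+1, β, γ => R.Tb ∘ₗ i1 ∘ₗ R.LS β γ + (q * t⁻¹) • (LinearMap.mulLeft F y1 ∘ₗ ww n (β - 1) γ)

lemma σ_mul : R.σ * (1 - R.s) = MM q t := by
  rw [σ, MM]; linear_combination R.ha - R.hm
lemma ρ_sub : q * t⁻¹ - R.s = R.σ * R.s := by rw [σ]; linear_combination -R.hm
lemma T_apply (v : V2 F) : R.T v = sw v + R.σ • (y2 * dd v) := rfl
lemma Tb_apply (v : V2 F) : R.Tb v = R.T v + R.σ • v := rfl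
lemma T_spec (v : V2 F) : (y1 - y2) * R.T v =
    (y1 - y2) * sw v + algebraMap F (V2 F) R.σ * (y2 * (v - sw v)) := by
  rw [T_apply, Algebra.smul_def]
  linear_combination algebraMap F (V2 F) R.σ * y2 * dd_spec v
lemma T_sym {u : V2 F} (h : sw u = u) (v : V2 F) : R.T (u * v) = u * R.T v := by
  apply mul_left_cancel₀ y12_ne
  rw [T_spec, map_mul, h]
  linear_combination -u * R.T_spec v
lemma T_fix {u : V2 F} (h : sw u = u) : R.T u = u := by
  apply mul_left_cancel₀ y12_ne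
  rw [T_spec, h]; ring
lemma T_cc (f : Lam F) : R.T (cc f) = cc f := R.T_fix (sw_cc f)
lemma T_y1 (v : V2 F) : R.T (y1 * v) = y2 * R.Tb v := by
  apply mul_left_cancel₀ y12_ne
  rw [T_spec, map_mul, sw_y1, Tb_apply, Algebra.smul_def]
  linear_combination -y2 * R.T_spec v
lemma Tb_y2 (v : V2 F) : R.Tb (y2 * v) = y1 * R.T v := by
  apply mul_left_cancel₀ y12_ne
  rw [Tb_apply, mul_add, T_spec, map_mul, sw_y2, Algebra.smul_def]
  linear_combination -y1 * R.T_spec v
lemma T_y2 (v : V2 F) : R.T (y2 * v) = y1 * R.T v - R.σ • (y2 * v) := by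
  rw [← Tb_y2, Tb_apply, add_sub_cancel_right]
lemma Tb_y1 (v : V2 F) : R.Tb (y1 * v) = y2 * R.Tb v + R.σ • (y1 * v) := by
  rw [Tb_apply, T_y1]
lemma Tb_cc (f : Lam F) : R.Tb (cc f) = R.s' • cc f := by
  rw [Tb_apply, T_cc, σ]; module
lemma Tb_T' (v : V2 F) : R.Tb (R.T v) = R.T (R.Tb v) := by
  rw [Tb_apply, Tb_apply, map_add, map_smul]
lemma T_Tb (v : V2 F) : R.T (R.Tb v) = R.s' • v := by
  induction v using v_ind with
  | hadd v w hv hw => simp only [map_add, smul_add, hv, hw]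
  | hc f => rw [Tb_cc, map_smul, T_cc]
  | h1 v hv =>
    rw [Tb_y1, map_add, map_smul, T_y2, T_y1, hv, sub_add_cancel, mul_smul_comm]
  | h2 v hv => rw [Tb_y2, T_y1, Tb_T', hv, mul_smul_comm]
lemma Tb_T (v : V2 F) : R.Tb (R.T v) = R.s' • v := by rw [Tb_T', T_Tb]
lemma Tb_i1 (v : St F) : R.Tb (i1 v) = i2 v + R.σ • ih v := by
  obtain ⟨w, h1, h2⟩ := ih_eq' v
  have h3 : dd (i1 v) = w := mul_left_cancel₀ y12_ne (by rw [dd_spec, h2, sw_i1])
  rw [Tb_apply, T_apply, sw_i1, h3, h1]; module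
/-- `e_ij - e_ji` lies in the image of `T - 1` -/
lemma e_sub (i j : ℕ) (f : Lam F) : y1 ^ i * R.Tb (mon j 0 f) - y1 ^ j * R.Tb (mon i 0 f) =
    mon i j f - R.T (mon i j f) := by
  apply mul_left_cancel₀ y12_ne
  have h1 := R.T_spec (mon j 0 f)
  have h2 := R.T_spec (mon i 0 f)
  have h3 := R.T_spec (mon i j f)
  rw [sw_mon] at h1 h2 h3
  rw [Tb_apply, Tb_apply, Algebra.smul_def, Algebra.smul_def]
  generalize R.T (mon j 0 f) = A at h1 ⊢
  generalize R.T (mon i 0 f) = B at h2 ⊢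
  generalize R.T (mon i j f) = D at h3 ⊢
  simp only [mon_apply] at h1 h2 h3 ⊢
  linear_combination y1 ^ i * h1 - y1 ^ j * h2 + h3

omit R in
lemma sw_KK (a : ℤ) (f : Lam F) : sw (KK q t a f) = KK q t a f := sw_ih _
omit R in
lemma KK_rec (a : ℤ) (f : Lam F) :
    KK q t a f = i1 (ee q t a f) + (q * t⁻¹) • (y2 * KK q t (a-1) f) := by
  change ih _ = _ + _ • (_ * ih _)
  rw [ee_rec q t a f, map_add, map_add, map_smul, map_smul, ih_inc, i1_inc, ih_UU, i1_UU]
  module
omit R in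
lemma KK_rec' (a : ℤ) (f : Lam F) :
    KK q t a f = i2 (ee q t a f) + (q * t⁻¹) • (y1 * KK q t (a-1) f) := by
  have := congrArg sw (KK_rec (q := q) (t := t) a f)
  rwa [map_add, map_smul, map_mul, sw_KK, sw_KK, sw_i1, sw_y2] at this
lemma Xi_mon (a b : ℕ) (f : Lam F) :
    R.Xi (mon a b f) = y1 ^ b * (KK q t a f - R.s • (y1 * KK q t (a - 1) f)) := by
  rw [Xi, ls_mon]; rfl
lemma Q_mon (a b : ℕ) (f : Lam F) : R.Q (mon a b f) =
    (UU ^ b : Module.End F (St F)) (ee q t (a + 1) f - R.s • UU (ee q t a f)) := by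
  rw [Q, ls_mon]; rfl
lemma T_pow (b : ℕ) : R.T (y1 ^ b) = y2 ^ b + R.σ • (y2 * hh b) := by
  have h1 := dd_mon b 0 (1 : Lam F)
  have h2 := sw_mon b 0 (1 : Lam F)
  simp only [mon_apply, hh, map_one, pow_zero, mul_one, one_mul, zero_mul, sub_zero] at h1 h2
  rw [T_apply, h1, h2]
lemma Y1_mon (a b : ℕ) (f : Lam F) : R.Y1 (mon a b f) = y2 ^ b * i1 (ee q t a f) +
    R.σ • (y2 * (hh b * i2 (ee q t a f))) +
    (R.σ * R.σ * R.s) • (y2 * (hh b * (y1 * KK q t (a - 1) f))) := by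
  have h1 := KK_rec (q := q) (t := t) a f
  have h2 := KK_rec' (q := q) (t := t) a f
  have h3 : q * t⁻¹ = R.s + R.σ * R.s := by rw [← ρ_sub]; ring
  rw [Y1, Module.End.mul_apply, Xi_mon, mul_sub, mul_smul_comm, ← mul_assoc, ← pow_succ, map_sub,
    map_smul, mul_comm (y1 ^ b), mul_comm (y1 ^ (b+1)), R.T_sym (sw_KK _ _), R.T_sym (sw_KK _ _),
    T_pow, T_pow, hh_succ']
  rw [h3] at h1 h2
  simp only [Algebra.smul_def, map_add, map_mul] at h1 h2 ⊢
  linear_combination y2 ^ b * h1 + algebraMap F (V2 F) R.σ * y2 * hh b * h2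
lemma Xi_y2 (v : V2 F) : R.Xi (y2 * v) = y1 * R.Xi v := by
  induction v using mon_ind with
  | hadd v w hv hw => simp only [mul_add, map_add, hv, hw]
  | hm a b f => rw [y2_mon, Xi_mon, Xi_mon]; ring
lemma Xi_y1 (v : V2 F) : R.Xi (y1 * v) = i1 (R.Q v) + (q * t⁻¹) • (y2 * R.Xi v) := by
  induction v using mon_ind with
  | hadd v w hv hw => simp only [mul_add, map_add, smul_add, hv, hw]; abel
  | hm a b f =>
    have h1 := KK_rec (q := q) (t := t) (a+1) f
    have h2 := KK_rec (q := q) (t := t) a f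
    rw [add_sub_cancel_right] at h1
    rw [y1_mon, Xi_mon, Xi_mon, Q_mon, i1_UU_pow, map_sub, map_smul, i1_UU, Nat.cast_succ,
      add_sub_cancel_right]
    simp only [Algebra.smul_def] at h1 h2 ⊢
    linear_combination y1 ^ b * h1 - y1 ^ b * algebraMap F (V2 F) R.s * y1 * h2
lemma Q_y2 (v : V2 F) : R.Q (y2 * v) = UU (R.Q v) := by
  induction v using mon_ind with
  | hadd v w hv hw => simp only [mul_add, map_add, hv, hw]
  | hm a b f => rw [y2_mon, Q_mon, Q_mon, pow_succ', Module.End.mul_apply]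
lemma Q_i1 (v : St F) : R.Q (i1 v) = inc (psi q t 1 v) + (R.σ * R.s) • UU (EE q t v) := by
  induction v using st_ind with
  | h0 => simp
  | hadd v w hv hw => simp only [map_add, smul_add, hv, hw]; abel
  | hs a f =>
    rw [i1_single, Q_mon, pow_zero, Module.End.one_apply, ee_rec, add_sub_cancel_right,
      psi_single, EE_single, ← ρ_sub]
    module
lemma Y1_i1 (v : St F) : R.Y1 (i1 v) = i1 (EE q t v) := by
  induction v using st_ind with
  | h0 => simp
  | hadd v w hv hw => simp only [map_add, hv, hw]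
  | hs a f => rw [i1_single, Y1_mon, EE_single]; simp [hh]
lemma Xi_i1 (v : St F) : R.s' • R.Xi (i1 v) = R.Tb (i1 (EE q t v)) := by
  rw [← Y1_i1, Y1, Module.End.mul_apply, Tb_T]
lemma psi_Q_mon (c : ℤ) (a b : ℕ) (f : Lam F) :
    psi q t c (R.Q (mon a b f)) = R.Lh (a+1) (b+c) f := by
  rw [Q_mon, psi_UU_pow, map_sub, map_smul, psi_UU, add_comm c]
  simp [Lh, PP]

/-- passage to the shifted coordinates -/
noncomputable def h2 (q t : F) : V2 F →ₗ[F] Q2.V2 F := ls fun a b =>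
  LinearMap.mulLeft F (Polynomial.X ^ a * Polynomial.C Polynomial.X ^ b : Q2.V2 F) ∘ₗ
    (Q2.i1 q t).toLinearMap ∘ₗ (Q2.Ph q t).toLinearMap

omit R in
lemma h2_mon (a b : ℕ) (f : Lam F) : h2 q t (mon a b f) =
    (Polynomial.X ^ a * Polynomial.C Polynomial.X ^ b : Q2.V2 F) * Q2.i1 q t (Q2.Ph q t f) := by
  rw [h2, ls_mon]; rfl
omit R in
lemma h2_y1 (v : V2 F) : h2 q t (y1 * v) = Polynomial.X * h2 q t v := by
  induction v using mon_ind with
  | hadd v w hv hw => simp only [map_add, hv, hw, mul_add y1]; ring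
  | hm a b f => rw [y1_mon, h2_mon, h2_mon]; ring
omit R in
lemma h2_y2 (v : V2 F) : h2 q t (y2 * v) = Polynomial.C Polynomial.X * h2 q t v := by
  induction v using mon_ind with
  | hadd v w hv hw => simp only [map_add, hv, hw, mul_add y2]; ring
  | hm a b f => rw [y2_mon, h2_mon, h2_mon]; ring
omit R in
lemma h2_i1 (v : St F) : h2 q t (i1 v) = Q2.i1 q t (Q2.h1 q t v) := by
  induction v using st_ind with
  | h0 => simp
  | hadd v w hv hw => simp only [map_add, hv, hw]
  | hs a f => rw [i1_single, h2_mon, Q2.h1_single, map_mul, map_pow, Q2.i1_X]; ring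
omit R in
lemma h2_zero (b : ℕ) : ∀ v : V2 F, h2 q t v = 0 → ∀ a, co a b v = 0 := by
  have key : ∀ v : V2 F, h2 q t v = 0 → ∃ w, v = y2 * w ∧ h2 q t w = 0 := by
    intro v hv
    obtain ⟨w, hw⟩ := p0_split v
    have h1 := congrArg Q2.ev0 hv
    rw [hw, map_add, h2_i1, h2_y2, map_add, Q2.ev0_y1, Q2.ev0_i1, add_zero, map_zero] at h1
    rw [Q2.h1_zero q t h1, map_zero, zero_add] at hw
    rw [hw, h2_y2] at hv
    exact ⟨w, hw, Q2.y1_cancel hv⟩
  induction b with
  | zero =>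
    intro v hv a
    obtain ⟨w, rfl, -⟩ := key v hv
    exact co_y2_zero a w
  | succ b ih =>
    intro v hv a
    obtain ⟨w, rfl, h⟩ := key v hv
    rw [co_y2]; exact ih w h a
omit R in
lemma h2_inj {v w : V2 F} (h : h2 q t v = h2 q t w) : v = w :=
  sub_eq_zero.mp (v_ext fun a b => by
    rw [h2_zero (q := q) (t := t) b _ (by rw [map_sub, h, sub_self]), map_zero])

lemma h2_T (v : V2 F) : h2 q t (R.T v) = Q2.TT R.s' (h2 q t v) := by
  induction v using v_ind with
  | hadd v w hv hw => simp only [map_add, hv, hw]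
  | hc f => rw [T_cc, ← i1_inc, h2_i1, Q2.h1_inc, Q2.TT_Phi]
  | h1 v hv => rw [T_y1, h2_y1, h2_y2, Q2.TT_y2, Tb_apply, map_add, map_smul, hv, σ]
  | h2 v hv => rw [T_y2, map_sub, map_smul, h2_y1, h2_y2, Q2.TT_y1, hv, σ]

lemma h2_Tb (v : V2 F) : h2 q t (R.Tb v) = Q2.TT R.s' (h2 q t v) + (R.s' - 1) • h2 q t v := by
  rw [Tb_apply, map_add, map_smul, h2_T, σ]

lemma ha' : R.s' + R.s = q + t⁻¹ := by rw [add_comm, R.ha]
lemma hm' : R.s' * R.s = q * t⁻¹ := by rw [mul_comm, R.hm]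

variable [CharZero F]

omit [CharZero F] in
lemma T_HW {m : ℤ} {v : V2 F} (h : v ∈ HW F m) : R.T v ∈ HW F m := by
  refine co_ind (P := fun v => R.T v ∈ HW F m) v (by simp)
    (fun v w hv hw => by rw [map_add]; exact add_mem hv hw) fun a b => ?_
  have h1 := h a b
  generalize co a b v = f at h1
  have h2 := HW_y2 (HW_hh a (HW_y2_pow b (HW_cc h1)))
  have h3 := HW_y2 (HW_hh b (HW_y2_pow a (HW_cc h1)))
  have e2 : m - a - b + b + (a - 1) + 1 = m := by ring
  have e3 : m - a - b + a + (b - 1) + 1 = m := by ring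
  rw [e2] at h2
  rw [e3] at h3
  rw [T_apply, sw_mon, dd_mon, sub_mul, mul_sub, mul_assoc, mul_assoc]
  exact add_mem (HW_mon b a (by rwa [sub_right_comm])) (Submodule.smul_mem _ _ (sub_mem h2 h3))
omit [CharZero F] in
lemma Tb_HW {m : ℤ} {v : V2 F} (h : v ∈ HW F m) : R.Tb v ∈ HW F m :=
  add_mem (R.T_HW h) (Submodule.smul_mem _ _ h)
omit R in
lemma KK_HW (a : ℤ) {m : ℤ} {f : Lam F} (h : f ∈ Hm F m) : KK q t a f ∈ HW F (m + a) :=
  HW_ih (ee_HS a h)
lemma Xi_HW {m : ℤ} {v : V2 F} (h : v ∈ HW F m) : R.Xi v ∈ HW F m := by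
  refine co_ind (P := fun v => R.Xi v ∈ HW F m) v (by simp)
    (fun v w hv hw => by rw [map_add]; exact add_mem hv hw) fun a b => ?_
  have h1 := h a b
  generalize co a b v = f at h1
  have h2 := HW_y1 (KK_HW (q := q) (t := t) (a - 1) h1)
  have e2 : m - a - b + (a - 1) + 1 = m - a - b + a := by ring
  rw [e2] at h2
  have h3 := HW_y1_pow b (sub_mem (KK_HW (q := q) (t := t) a h1) (Submodule.smul_mem _ R.s h2))
  have e3 : m - a - b + a + b = m := by ring
  rw [e3] at h3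
  rwa [Xi_mon]
lemma Q_HS {m : ℤ} {v : V2 F} (h : v ∈ HW F m) : R.Q v ∈ HS F (m+1) := by
  refine co_ind (P := fun v => R.Q v ∈ HS F (m+1)) v (by simp)
    (fun v w hv hw => by rw [map_add]; exact add_mem hv hw) fun a b => ?_
  have h1 := h a b
  generalize co a b v = f at h1
  have h2 := UU_HS (ee_HS (q := q) (t := t) a h1)
  rw [add_assoc] at h2
  have h3 := UU_pow_HS b (sub_mem (ee_HS (q := q) (t := t) (a + 1) h1) (Submodule.smul_mem _ R.s h2))
  have e3 : m - a - b + (a + 1) + b = m + 1 := by ring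
  rw [e3] at h3
  rwa [Q_mon]

lemma Lh_step (ht : t ≠ 0) (A B : ℤ) (f : Lam F) :
    R.Lh (A+1) B f - R.s' • R.Lh A (B+1) f = nn q t B (A+1) f - nn q t (B+1) A f := by
  have h1 := XN_step q t ht B (A+1) f
  have h2 := congrArg (psi q t B) (ee_rec q t (A+1) f)
  have h3 := congrArg (psi q t (B+1)) (ee_rec q t A f)
  rw [map_add, map_smul, psi_inc, psi_UU] at h2 h3
  rw [add_sub_cancel_right] at h1 h2
  have h4 : MM q t = R.s + R.s' - 1 - R.s * R.s' := by rw [R.ha, R.hm, MM]; ring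
  rw [← R.hm] at h2 h3
  rw [h4, XN, XN] at h1
  simp only [Lh, PP, LinearMap.sub_apply, LinearMap.smul_apply, LinearMap.comp_apply,
    add_sub_cancel_right]
  linear_combination (norm := module) h1 + h2 - h3

lemma h1_Q (ht : t ≠ 0) (v : V2 F) : Q2.h1 q t (R.Q v) = Q2.QQ t R.s' (h2 q t v) := by
  induction v using v_ind' with
  | hadd v w hv hw => simp only [map_add, hv, hw]
  | hc u =>
    rw [Q_i1, h2_i1, Q2.QQ_i1 ht R.ha' R.hm', map_add, map_smul, Q2.h1_inc, Q2.h1_UU, Q2.h1_EE,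
      Q2.Lc_h1, σ, mul_comm R.s]
  | h2 v hv => rw [Q_y2, Q2.h1_UU, h2_y2, Q2.QQ_C_mul, hv]

lemma psi_Q_T (ht : t ≠ 0) (v : V2 F) : psi q t 1 (R.Q (R.T v)) = psi q t 1 (R.Q v) := by
  rw [← Q2.Lc_h1, ← Q2.Lc_h1, R.h1_Q ht, R.h1_Q ht, h2_T, Q2.CL_TT]

variable (hi : Indep q t)
include hi

omit [CharZero F] in
lemma s'_ne : R.s' ≠ 0 := by
  refine right_ne_zero_of_mul (a := R.s) ?_
  rw [R.hm]; exact mul_ne_zero hi.q_ne (inv_ne_zero hi.t_ne)
omit [CharZero F] in
lemma σ_ne : R.σ ≠ 0 := left_ne_zero_of_mul (R.σ_mul.symm ▸ hi.MM_ne)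

lemma h2_Xi (v : V2 F) : h2 q t (R.Xi v) = Q2.KK q t R.s' (h2 q t v) := by
  induction v using v_ind' with
  | hadd v w hv hw => simp only [map_add, hv, hw]
  | hc u =>
    apply smul_right_injective _ (R.s'_ne hi)
    simp only
    rw [← map_smul, Xi_i1, h2_Tb, h2_i1, h2_i1, Q2.sK_i1 hi.t_ne R.ha' R.hm', Q2.h1_EE]
  | h2 v hv => rw [Xi_y2, h2_y1, h2_y2, Q2.KK_y1, hv]

lemma EE_Q (v : V2 F) : EE q t (R.Q v) = R.Q (R.Y2 v) := by
  apply Q2.h1_inj q t
  rw [Q2.h1_EE, R.h1_Q hi.t_ne, R.h1_Q hi.t_ne, Y2, Module.End.mul_apply, R.h2_Xi hi, h2_Tb,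
    Q2.EQ hi.t_ne R.ha' R.hm' (R.s'_ne hi)]

lemma T_Xi_Xi (v : V2 F) : R.T (R.Xi (R.Xi v)) = R.Xi (R.Xi (R.T v)) := by
  apply h2_inj (q := q) (t := t)
  simp only [h2_T, R.h2_Xi hi]
  exact Q2.core hi.t_ne R.ha' R.hm' (R.s'_ne hi) _

lemma Y1_Y2 (v : V2 F) : R.Y1 (R.Y2 v) = R.Y2 (R.Y1 v) := by
  simp only [Y1, Y2, Module.End.mul_apply, R.T_Xi_Xi hi, T_Tb, Tb_T, map_smul]

end Rt

end Two22
end MJ
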