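import Pool.Agent.Lib.MP_9c49f6_co.State

/-! Homogeneity. -/

namespace MJ
open Finset MvPolynomial

variable {F : Type} [Field F]

noncomputable def sc : Lam F →ₐ[F] Lam F := aeval fun k => C ((2:F) ^ (k+1)) * X k

def wt (d : ℕ →₀ ℕ) : ℕ := d.sum fun k e => (k+1) * e

noncomputable def Hm (F : Type) [Field F] (m : ℤ) : Submodule F (Lam F) where
  carrier := {f | sc f = (2:F) ^ m • f}
  add_mem' := by intro a b ha hb; simp only [Set.mem_ofPred_eq] at *; rw [map_add, ha, hb, smul_add]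
  zero_mem' := by simp
  smul_mem' := by
    intro c a ha; simp only [Set.mem_ofPred_eq] at *; rw [map_smul, ha, smul_comm]

lemma mem_Hm {m : ℤ} {f : Lam F} : f ∈ Hm F m ↔ sc f = (2:F) ^ m • f := Iff.rfl

lemma sc_monomial (d : ℕ →₀ ℕ) (a : F) :
    sc (monomial d a) = (2:F) ^ (wt d) • monomial d a := by
  rw [sc, aeval_monomial, monomial_eq, smul_eq_C_mul, wt, Finsupp.prod, Finsupp.prod, Finsupp.sum,
    ← prod_pow_eq_pow_sum, map_prod]
  simp only [mul_pow, prod_mul_distrib, ← map_pow, ← pow_mul, algebraMap_eq]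
  ring

lemma coeff_sc (d : ℕ →₀ ℕ) (f : Lam F) : coeff d (sc f) = (2:F) ^ (wt d) * coeff d f := by
  induction f using MvPolynomial.induction_on' with
  | monomial e a =>
    rw [sc_monomial, coeff_smul, coeff_monomial]; split_ifs with h
    · subst h; rfl
    · simp
  | add p q hp hq => simp [hp, hq, mul_add]

lemma monomial_mem_Hm (d : ℕ →₀ ℕ) (a : F) : monomial d a ∈ Hm F (wt d) := by
  rw [mem_Hm, sc_monomial]; simp

lemma C_mem_Hm (a : F) : C a ∈ Hm F 0 := by
  rw [mem_Hm]; simp [sc]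

lemma one_mem_Hm : (1 : Lam F) ∈ Hm F 0 := by simpa using C_mem_Hm (1:F)

lemma X_mem_Hm (k : ℕ) : X k ∈ Hm F (k+1) := by
  rw [mem_Hm, sc, aeval_X, smul_eq_C_mul]; norm_cast

variable [CharZero F]

lemma Hm_mul {a b : ℤ} {f g : Lam F} (hf : f ∈ Hm F a) (hg : g ∈ Hm F b) :
    f * g ∈ Hm F (a + b) := by
  rw [mem_Hm] at *
  rw [map_mul, hf, hg, zpow_add₀ two_ne_zero, smul_mul_smul_comm]

lemma Hm_coeff {m : ℤ} {f : Lam F} (hf : f ∈ Hm F m) {d : ℕ →₀ ℕ} (hd : coeff d f ≠ 0) :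
    (wt d : ℤ) = m := by
  have h := congrArg (coeff d) (mem_Hm.mp hf)
  rw [coeff_sc, coeff_smul, smul_eq_mul] at h
  have h2 := mul_right_cancel₀ hd h
  have h3 : ((2:ℚ) ^ ((wt d : ℕ) : ℤ)) = (2:ℚ) ^ m := by
    apply (algebraMap ℚ F).injective
    simpa using h2
  exact zpow_right_injective₀ (by norm_num) (by norm_num) h3

lemma Hm_neg {m : ℤ} {f : Lam F} (hf : f ∈ Hm F m) (hm : m < 0) : f = 0 := by
  ext d; by_contra h
  have := Hm_coeff hf h
  omega

lemma Sh_sc (c : ℕ → F) (f : Lam F) : ∀ j : ℤ,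
    Sh c j (sc f) = (2:F) ^ j • sc (Sh c j f) := by
  induction f using lam_ind with
  | hC r =>
    intro j
    have : sc (C r : Lam F) = C r := by simp [sc]
    rw [this, Sh_C]; split_ifs with h <;> simp [h, this]
  | hadd f g hf hg => intro j; simp [hf, hg]
  | hX f k hf =>
    intro j
    have e : sc (X k : Lam F) = (2:F) ^ (k+1) • X k := by simp [sc, smul_eq_C_mul]
    have e2 : (2:F) ^ (k+1) * (2:F) ^ (j - (k+1)) = 2 ^ j := by
      rw [← zpow_natCast, ← zpow_add₀ two_ne_zero]; congr 1; push_cast; ring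
    rw [map_mul, e, smul_mul_assoc, map_smul, Sh_X_mul, Sh_X_mul, hf, hf, map_add, map_mul, e,
      map_smul, smul_add, smul_add, smul_comm (c k), smul_smul _ ((2:F) ^ (j - (k+1))), e2,
      mul_smul_comm, smul_mul_assoc, smul_comm ((2:F) ^ j) ((2:F) ^ (k+1))]

lemma Sh_Hm (c : ℕ → F) (j : ℤ) {m : ℤ} {f : Lam F} (hf : f ∈ Hm F m) :
    Sh c j f ∈ Hm F (m - j) := by
  rw [mem_Hm] at *
  have h := Sh_sc c f j
  rw [hf, map_smul] at h
  have : sc (Sh c j f) = (2:F) ^ (-j) • ((2:F) ^ j • sc (Sh c j f)) := by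
    rw [smul_smul, ← zpow_add₀ two_ne_zero]; simp
  rw [this, ← h, smul_smul, ← zpow_add₀ two_ne_zero]; congr 2; ring

lemma Sh_eq_zero_of_Hm (c : ℕ → F) {j m : ℤ} {f : Lam F} (hf : f ∈ Hm F m) (h : m < j) :
    Sh c j f = 0 := Hm_neg (Sh_Hm c j hf) (by omega)

lemma gen_Hm (s : ℕ → F) (m : ℤ) : gen s m ∈ Hm F m := by
  rcases lt_or_ge m 0 with h | h
  · rw [gen_neg s h]; exact zero_mem _
  · obtain ⟨r, rfl⟩ := Int.eq_ofNat_of_zero_le h
    induction r using Nat.strong_induction_on with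
    | _ r ih =>
      cases r with
      | zero => simpa using one_mem_Hm
      | succ r =>
        rw [gen_nat, ex_succ']
        refine Submodule.smul_mem _ _ (Submodule.sum_mem _ fun k hk => ?_)
        have hk' : k ≤ r := by simpa [Nat.lt_succ_iff] using hk
        have h1 := ih (r - k) (by omega) (by omega)
        rw [gen_nat] at h1
        have := Hm_mul (Hm_mul (C_mem_Hm (s k)) (X_mem_Hm k)) h1
        convert this using 2
        push_cast [hk']; ring

variable (q t : F)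

lemma gg_Hm (m : ℤ) : gg t m ∈ Hm F m := gen_Hm _ m
lemma gb_Hm (m : ℤ) : gb t m ∈ Hm F m := gen_Hm _ m

lemma DD_Hm (c : ℤ) {m : ℤ} {f : Lam F} (hf : f ∈ Hm F m) : DD q t c f ∈ Hm F (m + c) := by
  obtain ⟨n, hn⟩ := Sh_bound (cS q t) f
  rw [DD_eq_sum q t c f n hn]
  refine Submodule.sum_mem _ fun s _ => ?_
  have := Hm_mul (gg_Hm t (c + s)) (Sh_Hm (cS q t) s hf)
  convert this using 2; ring

noncomputable def HS (F : Type) [Field F] (n : ℤ) : Submodule F (St F) where
  carrier := {v | ∀ s : ℕ, v s ∈ Hm F (n - s)}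
  add_mem' := by intro a b ha hb s; exact add_mem (ha s) (hb s)
  zero_mem' := by intro s; exact zero_mem _
  smul_mem' := by intro c a ha s; exact Submodule.smul_mem _ _ (ha s)

omit [CharZero F] in
lemma mem_HS {n : ℤ} {v : St F} : v ∈ HS F n ↔ ∀ s : ℕ, v s ∈ Hm F (n - s) := Iff.rfl

omit [CharZero F] in
lemma inc_HS {m : ℤ} {f : Lam F} (hf : f ∈ Hm F m) : inc f ∈ HS F m := by
  intro s; cases s with
  | zero => simpa using hf
  | succ s => simp

omit [CharZero F] in
lemma UU_HS {m : ℤ} {v : St F} (hv : v ∈ HS F m) : UU v ∈ HS F (m + 1) := by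
  intro s; cases s with
  | zero => simp
  | succ s =>
    have := hv s
    rw [UU_succ]; convert this using 2; push_cast; ring

lemma HS_bound {m : ℤ} {v : St F} (hv : v ∈ HS F m) {s : ℕ} (hs : m < s) : v s = 0 :=
  Hm_neg (hv s) (by omega)

omit [CharZero F] in
lemma psi_eq_sum (c : ℤ) (v : St F) (n : ℕ) (h : ∀ s, n ≤ s → v s = 0) :
    psi q t c v = ∑ s ∈ range n, DD q t (s + c) (v s) :=
  lsum_eq_sum _ v n fun s hs => by rw [h s hs, map_zero]

lemma psi_Hm (c : ℤ) {m : ℤ} {v : St F} (hv : v ∈ HS F m) : psi q t c v ∈ Hm F (m + c) := by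
  rw [psi_eq_sum q t c v (m.toNat + 1) fun s hs => HS_bound hv (by omega)]
  refine Submodule.sum_mem _ fun s _ => ?_
  have := DD_Hm q t (s + c) (hv s)
  convert this using 2; ring

lemma EE_HS {m : ℤ} {v : St F} (hv : v ∈ HS F m) : EE q t v ∈ HS F m := by
  intro s
  rw [EE_apply]
  exact Submodule.smul_mem _ _ (psi_Hm q t (-s) hv)

lemma aeval_HS (p : Polynomial F) {m : ℤ} {v : St F} (hv : v ∈ HS F m) :
    Polynomial.aeval (EE q t) p v ∈ HS F m := by
  induction p using Polynomial.induction_on with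
  | C a => simpa using Submodule.smul_mem _ a hv
  | add p r hp hr => rw [map_add]; exact add_mem hp hr
  | monomial n a h =>
    have e : Polynomial.C a * Polynomial.X ^ (n+1) =
        Polynomial.X * (Polynomial.C a * Polynomial.X ^ n) := by ring
    rw [e, map_mul (Polynomial.aeval (EE q t)), Polynomial.aeval_X, Module.End.mul_apply]
    exact EE_HS q t h

end MJ
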