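import Mathlib

/-! Quotients of products of `[i]_t` have non-negative coefficients in `t - 1`. -/

namespace MJ
open Finset Polynomial

lemma hurwitz (N : ℕ) : ∀ p : ℝ[X], p.natDegree = N → p.Monic →
    (∀ z : ℂ, aeval z p = 0 → z.re ≤ 0) → ∀ k, 0 ≤ p.coeff k := by
  induction N using Nat.strong_induction_on with
  | _ N ih =>
    intro p hN hm h
    have step : ∀ r : ℝ[X], r ∣ p → r.Monic → r.natDegree ≠ 0 → (∀ k, 0 ≤ r.coeff k) →
        ∀ k, 0 ≤ p.coeff k := by
      rintro r ⟨s, rfl⟩ hr h0 h1 k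
      have hs := hr.of_mul_monic_left hm
      rw [hr.natDegree_mul hs] at hN
      have := ih s.natDegree (by omega) s rfl hs fun z hz => h z (by simp [hz])
      rw [coeff_mul]
      exact sum_nonneg fun c _ => mul_nonneg (h1 _) (this _)
    by_cases h0 : p.natDegree = 0
    · rw [hm.natDegree_eq_zero.mp h0]
      intro k; rw [coeff_one]; split_ifs <;> simp
    obtain ⟨z, hz⟩ := IsAlgClosed.exists_aeval_eq_zero ℂ p
      (fun h1 => h0 (natDegree_eq_zero_iff_degree_le_zero.mpr h1.le))
    have hre := h z hz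
    by_cases him : z.im = 0
    · refine step (X - C z.re) (dvd_iff_isRoot.mpr ?_) (monic_X_sub_C _) (by simp) fun k => ?_
      · have : z = algebraMap ℝ ℂ z.re := by apply Complex.ext <;> simp [him]
        rw [this, aeval_algebraMap_apply, map_eq_zero] at hz
        simpa using hz
      · rw [coeff_sub, coeff_X, coeff_C]; split_ifs <;> simp_all
    · refine step _ (p.quadratic_dvd_of_aeval_eq_zero_im_ne_zero hz him) (by monicity!)
        (by
          have : (X ^ 2 - C (2 * z.re) * X + C (‖z‖ ^ 2) : ℝ[X]).natDegree = 2 := by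
            compute_degree!
          omega) fun k => ?_
      rw [coeff_add, coeff_sub, coeff_X_pow, coeff_C_mul, coeff_X, coeff_C]
      split_ifs <;> first | omega | positivity | linarith | simp

lemma quot_nonneg {n : ℕ} (hn : 0 < n) (π μ : n.Partition) {Q : ℤ[X]}
    (h : (∑ j ∈ range n, (X : ℤ[X]) ^ j) * (μ.parts.map fun i => ∑ j ∈ range i, X ^ j).prod =
      (π.parts.map fun i => ∑ j ∈ range i, X ^ j).prod * Q) (k : ℕ) :
    0 ≤ (Q.comp (X + C 1)).coeff k := by
  have hm : ∀ ν : n.Partition, (ν.parts.map fun i => ∑ j ∈ range i, (X : ℤ[X]) ^ j).prod.Monic :=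
    fun ν => monic_multiset_prod_of_monic _ _ fun i hi => monic_geom_sum_X (ν.parts_pos hi).ne'
  have hQ : Q.Monic := (hm π).of_mul_monic_left (h ▸ (monic_geom_sum_X hn.ne').mul (hm μ))
  have key : ∀ (y : ℂ) (i : ℕ), 0 < i → ∑ j ∈ range i, y ^ j = 0 → y.re ≤ 1 := by
    intro y i hi h0
    have h1 : y ^ i = 1 := by
      have := mul_geom_sum y i
      rw [h0, mul_zero] at this; exact (sub_eq_zero.mp this.symm)
    have h2 : ‖y‖ = 1 := by
      have := congrArg norm h1
      rw [norm_pow, norm_one] at this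
      exact (pow_eq_one_iff_of_nonneg (norm_nonneg _) hi.ne').mp this
    exact h2 ▸ Complex.re_le_norm y
  have := hurwitz _ ((Q.comp (X + C 1)).map (algebraMap ℤ ℝ)) rfl
    ((hQ.comp_X_add_C 1).map _) (fun z hz => by
      rw [aeval_map_algebraMap, aeval_comp] at hz
      have h1 := congrArg (aeval (aeval z (X + C 1 : ℤ[X]))) h
      rw [map_mul, map_mul, hz, mul_zero, map_multiset_prod, Multiset.map_map] at h1
      have h2 : (aeval z (X + C 1 : ℤ[X]) : ℂ).re ≤ 1 := by
        rcases mul_eq_zero.mp h1 with h2 | h2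
        · exact key _ n hn (by simpa using h2)
        · obtain ⟨i, hi, h3⟩ := Multiset.mem_map.mp (Multiset.prod_eq_zero_iff.mp h2)
          exact key _ i (μ.parts_pos hi) (by simpa using h3)
      simpa using h2) k
  rw [coeff_map] at this
  simpa using this

lemma quot_nat {n : ℕ} (hn : 0 < n) (π μ : n.Partition) {Q : ℤ[X]}
    (h : (∑ j ∈ range n, (X : ℤ[X]) ^ j) * (μ.parts.map fun i => ∑ j ∈ range i, X ^ j).prod =
      (π.parts.map fun i => ∑ j ∈ range i, X ^ j).prod * Q)
    {σ F : Type} [Field F] (x : σ → F) (i : σ) :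
    ∃ P : MvPolynomial σ ℕ, aeval (1 + x i) Q = MvPolynomial.aeval x P := by
  have h1 : aeval (1 + x i) Q = aeval (x i) (Q.comp (X + C 1)) := by
    rw [aeval_comp]; simp [add_comm]
  refine ⟨∑ k ∈ range ((Q.comp (X + C 1)).natDegree + 1),
    MvPolynomial.C ((Q.comp (X + C 1)).coeff k).toNat * MvPolynomial.X i ^ k, ?_⟩
  rw [h1, aeval_eq_sum_range, map_sum]
  refine sum_congr rfl fun k _ => ?_
  obtain ⟨m, hm⟩ := Int.eq_ofNat_of_zero_le (quot_nonneg hn π μ h k)
  rw [hm]; simp

end MJ
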