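import Pool.Agent.Lib.MP_9c49f6_co.Pos

/-! Integrality of the operators. -/

namespace MJ
open Finset MvPolynomial

variable {F : Type} [Field F]

/-- `∏ (k+1)^(d k) (d k)!` -/
def zn (d : ℕ →₀ ℕ) : ℕ := d.prod fun k e => (k+1) ^ e * e.factorial

lemma zn_ne (d : ℕ →₀ ℕ) : zn d ≠ 0 :=
  Finset.prod_ne_zero_iff.mpr fun k _ => by positivity

lemma zn_eq (d : ℕ →₀ ℕ) (s : Finset ℕ) (h : d.support ⊆ s) :
    zn d = ∏ k ∈ s, (k+1) ^ d k * (d k).factorial :=
  Finsupp.prod_of_support_subset _ h _ (by simp)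

lemma zn_add (d e : ℕ →₀ ℕ) : ∃ c : ℕ, zn (d + e) = c * (zn d * zn e) := by
  refine ⟨∏ k ∈ d.support ∪ e.support, (d k + e k).choose (d k), ?_⟩
  rw [zn_eq d _ subset_union_left, zn_eq e _ subset_union_right, zn_eq _ _ Finsupp.support_add,
    ← prod_mul_distrib, ← prod_mul_distrib]
  refine prod_congr rfl fun k _ => ?_
  have := Nat.add_choose_mul_factorial_mul_factorial (e k) (d k)
  rw [Finsupp.add_apply, add_comm (d k) (e k), ← this, pow_add]; ring

lemma zn_succ (d : ℕ →₀ ℕ) (k : ℕ) :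
    zn (d + Finsupp.single k 1) = zn d * ((k+1) * (d k + 1)) := by
  have h1 : (d + Finsupp.single k 1).support ⊆ insert k (d.support.erase k) := by
    intro i hi; by_cases h : i = k
    · simp [h]
    · simpa [h, Finsupp.single_eq_of_ne h] using hi
  have h2 : d.support ⊆ insert k (d.support.erase k) := by
    intro i hi; by_cases h : i = k <;> simp_all
  rw [zn_eq _ _ h1, zn_eq _ _ h2, prod_insert (by simp), prod_insert (by simp)]
  have : ∏ i ∈ d.support.erase k, (i+1) ^ (d + Finsupp.single k 1 : ℕ →₀ ℕ) i *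
      ((d + Finsupp.single k 1 : ℕ →₀ ℕ) i).factorial =
      ∏ i ∈ d.support.erase k, (i+1) ^ d i * (d i).factorial := by
    refine prod_congr rfl fun i hi => ?_
    simp [Finsupp.single_eq_of_ne (mem_erase.mp hi).1]
  rw [this]; simp [Nat.factorial_succ]; ring

lemma wt_add (d e : ℕ →₀ ℕ) : wt (d + e) = wt d + wt e :=
  Finsupp.sum_add_index' (by simp) (fun _ _ _ => mul_add _ _ _)

lemma wt_single (k : ℕ) : wt (Finsupp.single k 1) = k + 1 := by simp [wt]

lemma wt_eq (d : ℕ →₀ ℕ) (s : Finset ℕ) (h : d.support ⊆ s) : wt d = ∑ k ∈ s, (k+1) * d k :=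
  Finsupp.sum_of_support_subset _ h _ (by simp)

lemma le_wt (d : ℕ →₀ ℕ) {k : ℕ} (h : d k ≠ 0) : k + 1 ≤ wt d := by
  have := single_le_sum (f := fun k => (k+1) * d k) (fun _ _ => Nat.zero_le _)
    (Finsupp.mem_support_iff.mpr h)
  exact le_trans (Nat.le_mul_of_pos_right _ (by omega)) this

variable [CharZero F]

lemma coeff_gen (s : ℕ → F) (r : ℕ) : ∀ d, wt d = r → (zn d : F) * coeff d (gen s r) = pw s d := by
  induction r using Nat.strong_induction_on with
  | _ r ih =>
    intro d hd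
    cases r with
    | zero =>
      have : d = 0 := by
        ext k; by_contra h
        have := le_wt d h; omega
      subst this; simp [zn, pw]
    | succ r =>
      have hs : d.support ⊆ range (r+1) := fun k hk => by
        have := le_wt d (Finsupp.mem_support_iff.mp hk); simp; omega
      have hr : ((r:F) + 1) ≠ 0 := by exact_mod_cast Nat.succ_ne_zero r
      apply mul_left_cancel₀ hr
      have h1 := congrArg (coeff d) (ex_succ (F := F) (fun k => (C (s k) * X k : Lam F)) r)
      rw [coeff_smul, smul_eq_mul, ← gen_nat] at h1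
      rw [mul_left_comm, h1, coeff_sum, mul_sum]
      have h2 : ((r:F) + 1) = ∑ k ∈ range (r+1), ((k+1) * d k : F) := by
        rw [wt_eq d _ hs] at hd; exact_mod_cast hd.symm
      rw [h2, sum_mul]
      refine sum_congr rfl fun k _ => ?_
      rw [mul_assoc, coeff_C_mul, coeff_X_mul', ← gen_nat]
      split_ifs with h
      · have hk : d k ≠ 0 := Finsupp.mem_support_iff.mp h
        obtain ⟨e, rfl⟩ : ∃ e, d = e + Finsupp.single k 1 :=
          ⟨d - Finsupp.single k 1, by
            ext i; by_cases hi : i = k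
            · subst hi; simp; omega
            · simp [Finsupp.single_eq_of_ne hi]⟩
        rw [wt_add, wt_single] at hd
        have h3 := ih (r - k) (by omega) e (by omega)
        rw [add_tsub_cancel_right, zn_succ, pw_add, pw_single, ← h3]
        simp; ring
      · have : d k = 0 := by simpa using h
        simp [this]

section
variable (R : Subring F) (t : F)

noncomputable def IL : Subring (Lam F) := Subring.closure (C '' (R : Set F) ∪ Set.range (gg t))

variable {R t}

omit [CharZero F] in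
lemma IL_C {a : F} (ha : a ∈ R) : C a ∈ IL R t := Subring.subset_closure (Or.inl ⟨a, ha, rfl⟩)
omit [CharZero F] in
lemma IL_gg (m : ℤ) : gg t m ∈ IL R t := Subring.subset_closure (Or.inr ⟨m, rfl⟩)
omit [CharZero F] in
lemma IL_smul {a : F} (ha : a ∈ R) {f : Lam F} (hf : f ∈ IL R t) : a • f ∈ IL R t := by
  rw [smul_eq_C_mul]; exact mul_mem (IL_C ha) hf

lemma IL_coeff {f : Lam F} (hf : f ∈ IL R t) : ∀ d, ∃ a ∈ R,
    (zn d : F) * coeff d f = a * pw (fun k => t ^ (k+1) - 1) d := by
  induction hf using Subring.closure_induction with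
  | mem x hx =>
    intro d
    rcases hx with ⟨a, ha, rfl⟩ | ⟨m, rfl⟩
    · rw [coeff_C]; split_ifs with h
      · subst h; exact ⟨a, ha, by simp [pw, zn]⟩
      · exact ⟨0, zero_mem _, by simp⟩
    · by_cases h : coeff d (gg t m) = 0
      · exact ⟨0, zero_mem _, by simp [h]⟩
      · have := Hm_coeff (gg_Hm t m) h
        subst this
        exact ⟨1, one_mem _, by rw [gg, coeff_gen _ _ d rfl, one_mul]⟩
  | zero => exact fun d => ⟨0, zero_mem _, by simp⟩
  | one =>
    intro d
    rw [coeff_one]; split_ifs with h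
    · subst h; exact ⟨1, one_mem _, by simp [pw, zn]⟩
    · exact ⟨0, zero_mem _, by simp⟩
  | add x y _ _ hx hy =>
    intro d
    obtain ⟨a, ha, h1⟩ := hx d; obtain ⟨b, hb, h2⟩ := hy d
    exact ⟨a + b, add_mem ha hb, by rw [coeff_add, mul_add, h1, h2, add_mul]⟩
  | neg x _ hx =>
    intro d
    obtain ⟨a, ha, h1⟩ := hx d
    exact ⟨-a, neg_mem ha, by rw [coeff_neg, mul_neg, h1, neg_mul]⟩
  | mul x y _ _ hx hy =>
    intro d
    choose a ha h1 using hx
    choose b hb h2 using hy
    choose c hc using zn_add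
    refine ⟨∑ p ∈ antidiagonal d, c p.1 p.2 * (a p.1 * b p.2),
      sum_mem fun p _ => mul_mem (natCast_mem _ _) (mul_mem (ha _) (hb _)), ?_⟩
    rw [coeff_mul, sum_mul, mul_sum]
    refine sum_congr rfl fun p hp => ?_
    rw [← mem_antidiagonal.mp hp, pw_add, hc]
    push_cast
    linear_combination (c p.1 p.2 * (zn p.2 * coeff p.2 y)) * h1 p.1 +
      (c p.1 p.2 * a p.1 * pw (fun k => t ^ (k+1) - 1) p.1) * h2 p.2

variable (R t) in
noncomputable def IP : Subring (Polynomial (Lam F)) where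
  carrier := {P | ∀ n, P.coeff n ∈ IL R t}
  mul_mem' := by
    intro a b ha hb n; rw [Polynomial.coeff_mul]; exact sum_mem fun p _ => mul_mem (ha _) (hb _)
  one_mem' := by intro n; rw [Polynomial.coeff_one]; split_ifs <;> simp
  add_mem' := by intro a b ha hb n; rw [Polynomial.coeff_add]; exact add_mem (ha _) (hb _)
  zero_mem' := by intro n; simp
  neg_mem' := by intro a ha n; rw [Polynomial.coeff_neg]; exact neg_mem (ha _)

omit [CharZero F] in
lemma IP_C {a : Lam F} (ha : a ∈ IL R t) : Polynomial.C a ∈ IP R t := by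
  intro n; rw [Polynomial.coeff_C]; split_ifs
  · exact ha
  · exact zero_mem _

omit [CharZero F] in
lemma IP_X : Polynomial.X ∈ IP R t := by
  intro n; rw [Polynomial.coeff_X]; split_ifs <;> simp

variable {q : F} (ht : t ≠ 0) (hq : q ∈ R) (hT : t⁻¹ ∈ R)
include ht hq hT

lemma IP_Phi_gg (m : ℤ) : Phi (cS q t) (gg t m) ∈ IP R t := by
  rcases lt_or_ge m 0 with h | h
  · rw [gg_neg t h, map_zero]; exact zero_mem _
  · obtain ⟨r, rfl⟩ := Int.eq_ofNat_of_zero_le h
    induction r using Nat.strong_induction_on with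
    | _ r ih =>
      have aux : ∀ m : ℤ, m < r → Phi (cS q t) (gg t m) ∈ IP R t := by
        intro m hm
        rcases lt_or_ge m 0 with h | h
        · rw [gg_neg t h, map_zero]; exact zero_mem _
        · obtain ⟨s, rfl⟩ := Int.eq_ofNat_of_zero_le h
          exact ih s (by omega) h
      have h1 := Phi_S_gg q t ht r
      rw [eq_sub_of_add_eq h1 |> eq_add_of_sub_eq]
      have c1 := IP_C (IL_C (t := t) (add_mem hq hT))
      have c2 := IP_C (IL_C (t := t) (mul_mem hq hT))
      have c3 := IP_C (IL_C (t := t) (add_mem (one_mem R) (mul_mem hq hT)))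
      have x2 := pow_mem (IP_X (R := R) (t := t)) 2
      exact add_mem (sub_mem (add_mem (sub_mem (IP_C (IL_gg _)) (mul_mem c3 (mul_mem IP_X
        (IP_C (IL_gg _))))) (mul_mem c2 (mul_mem x2 (IP_C (IL_gg _)))))
        (mul_mem c2 (mul_mem x2 (aux _ (by omega))))) (mul_mem c1 (mul_mem IP_X (aux _ (by omega))))

lemma IP_Phi {f : Lam F} (hf : f ∈ IL R t) : Phi (cS q t) f ∈ IP R t := by
  induction hf using Subring.closure_induction with
  | mem x hx =>
    rcases hx with ⟨a, ha, rfl⟩ | ⟨m, rfl⟩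
    · rw [Phi_C]; exact IP_C (IL_C ha)
    · exact IP_Phi_gg ht hq hT m
  | zero => rw [map_zero]; exact zero_mem _
  | one => rw [map_one]; exact one_mem _
  | add x y _ _ hx hy => rw [map_add]; exact add_mem hx hy
  | neg x _ hx => rw [map_neg]; exact neg_mem hx
  | mul x y _ _ hx hy => rw [map_mul]; exact mul_mem hx hy

lemma IL_DD (m : ℤ) {f : Lam F} (hf : f ∈ IL R t) : DD q t m f ∈ IL R t := by
  obtain ⟨n, hn⟩ := Sh_bound (cS q t) f
  rw [DD_eq_sum q t m f n hn]
  exact sum_mem fun s _ => mul_mem (IL_gg _) (by rw [Sh_nat]; exact IP_Phi ht hq hT hf s)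

lemma IL_psi (c : ℤ) {v : St F} (hv : ∀ s, v s ∈ IL R t) : psi q t c v ∈ IL R t := by
  obtain ⟨n, hn⟩ := st_bound v
  rw [psi_eq_sum q t c v n hn]
  exact sum_mem fun s _ => IL_DD ht hq hT _ (hv s)

lemma IL_EE {v : St F} (hv : ∀ s, v s ∈ IL R t) (s : ℕ) : EE q t v s ∈ IL R t := by
  rw [EE_apply]; exact IL_smul (pow_mem (mul_mem hq hT) _) (IL_psi ht hq hT _ hv)

omit [CharZero F] ht hq hT in
lemma IL_UU {v : St F} (hv : ∀ s, v s ∈ IL R t) (s : ℕ) : UU v s ∈ IL R t := by
  cases s with
  | zero => simp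
  | succ s => simpa using hv s

omit [CharZero F] ht hq hT in
lemma IL_inc {f : Lam F} (hv : f ∈ IL R t) (s : ℕ) : inc f s ∈ IL R t := by
  cases s with
  | zero => simpa using hv
  | succ s => simp

variable {g w : F} (hg : g⁻¹ ∈ R) (hw : w ∈ R)
include hg hw

lemma IL_Gt {v : St F} (hv : ∀ s, v s ∈ IL R t) (s : ℕ) :
    Polynomial.aeval (EE q t) (Gt g w) v s ∈ IL R t := by
  have : Polynomial.aeval (EE q t) (Gt g w) v s = g⁻¹ • (EE q t v s - v s) + w • EE q t v s := by
    simp [Gt]
  rw [this]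
  exact add_mem (IL_smul hg (sub_mem (IL_EE ht hq hT hv s) (hv s))) (IL_smul hw (IL_EE ht hq hT hv s))

lemma IL_run (L : List (Polynomial F)) (hL : ∀ p ∈ L, p = Polynomial.X * Gt g w ∨ p = Gt g w)
    {v : St F} (hv : ∀ s, v s ∈ IL R t) : ∀ s, run q t L v s ∈ IL R t := by
  induction L generalizing v with
  | nil => simpa using hv
  | cons p L ih =>
    rw [run_cons]
    refine ih (fun p hp => hL p (by simp [hp])) (IL_UU ?_)
    rcases hL p (by simp) with rfl | rfl
    · rw [map_mul, Polynomial.aeval_X, Module.End.mul_apply]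
      exact IL_EE ht hq hT (IL_Gt ht hq hT hg hw hv)
    · exact IL_Gt ht hq hT hg hw hv

theorem IL_FF (K0 : ℕ) (L : List ℕ) : FF q t (Gt g w) K0 L ∈ IL R t := by
  have hwd : ∀ i j, ∀ p ∈ wd (Polynomial.X * Gt g w) (Gt g w) i j,
      p = Polynomial.X * Gt g w ∨ p = Gt g w := by
    intro i j p hp
    simp only [wd, List.mem_append, List.mem_cons, List.mem_replicate] at hp
    tauto
  induction L with
  | nil =>
    have h1 := IL_UU (IL_inc (one_mem (IL R t)))
    rw [FF, Y0]
    refine add_mem (sum_mem fun i _ => IL_smul (pow_mem (mul_mem hq hT) _)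
      (IL_psi ht hq hT _ (IL_run ht hq hT hg hw _ (hwd _ _) h1)))
      (IL_psi ht hq hT _ (IL_run ht hq hT hg hw _ (fun p hp => ?_) h1))
    exact Or.inl (List.eq_of_mem_replicate hp)
  | cons K L ih =>
    rw [FF, YP]
    exact sum_mem fun i _ => IL_smul (pow_mem (mul_mem hq hT) _)
      (IL_psi ht hq hT _ (IL_run ht hq hT hg hw _ (hwd _ _) (IL_inc ih)))

end
end MJ
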