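import Pool.Agent.Lib.MP_9c49f6_co.Int

/-! The `q,t` scalar product; `D_0` is self-adjoint. -/

namespace MJ
open Finset MvPolynomial

variable {F : Type} [Field F] (q t : F)

noncomputable def zd (d : ℕ →₀ ℕ) : F :=
  zn d * pw (fun k => (1 - q ^ (k+1)) / (1 - t ^ (k+1))) d

noncomputable def ip : Lam F →ₗ[F] Lam F →ₗ[F] F :=
  (basisMonomials ℕ F).constr F fun d => zd q t d • lcoeff F d

lemma ip_monomial (d : ℕ →₀ ℕ) (a : F) (g : Lam F) :
    ip q t (monomial d a) g = a * (zd q t d * coeff d g) := by
  have : (monomial d a : Lam F) = a • basisMonomials ℕ F d := by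
    simp [smul_monomial]
  rw [this, map_smul, ip, Module.Basis.constr_basis]; simp

lemma ip_symm (f g : Lam F) : ip q t f g = ip q t g f := by
  induction f using MvPolynomial.induction_on' with
  | add p r hp hr => simp [hp, hr]
  | monomial d a =>
    induction g using MvPolynomial.induction_on' with
    | add p r hp hr => simp [hp, hr]
    | monomial e b =>
      rw [ip_monomial, ip_monomial, coeff_monomial, coeff_monomial]
      by_cases h : d = e
      · subst h; simp; ring
      · simp [h, Ne.symm h]

lemma ip_X (k : ℕ) (f g : Lam F) :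
    ip q t (X k * f) g =
      ((k+1) * ((1 - q ^ (k+1)) / (1 - t ^ (k+1)))) * ip q t f (pderiv k g) := by
  induction f using MvPolynomial.induction_on' with
  | add p r hp hr => simp only [mul_add, map_add, LinearMap.add_apply, hp, hr]
  | monomial d a =>
    rw [X, monomial_mul, one_mul, ip_monomial, ip_monomial, coeff_pderiv, add_comm _ d, zd, zd,
      zn_succ, pw_add, pw_single]
    push_cast; ring

variable [CharZero F] {q t}

lemma ip_gg (hi : Indep q t) (r : ℕ) : ∀ f h : Lam F,
    ip q t (gg t r * f) h = ip q t f (Sh (fun k => q ^ (k+1) - 1) r h) := by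
  induction r using Nat.strong_induction_on with
  | _ r ih =>
    intro f h
    cases r with
    | zero => simp
    | succ r =>
      have hr : ((r:F) + 1) ≠ 0 := by exact_mod_cast Nat.succ_ne_zero r
      apply mul_left_cancel₀ hr
      have h1 := ex_succ (F := F) (fun k => (C (t ^ (k+1) - 1) * X k : Lam F)) r
      rw [← gen_nat, ← gg] at h1
      have h2 := Sh_chain (fun k => q ^ (k+1) - 1) (r+1) h (r+1 : ℕ) le_rfl
      push_cast at h2
      have a1 : ∀ (a : F) f g, a * ip q t f g = ip q t (a • f) g := by simp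
      have a2 : ∀ (a : F) f g, a * ip q t f g = ip q t f (a • g) := by simp
      rw [a1, a2, ← smul_mul_assoc, h1]
      push_cast
      rw [h2, sum_mul, map_sum, map_sum, LinearMap.sum_apply]
      refine sum_congr rfl fun k hk => ?_
      have hk' : k ≤ r := by simpa [Nat.lt_succ_iff] using hk
      have e : (r:ℤ) + 1 - (k + 1) = (r - k : ℕ) := by omega
      have hne := sub_ne_zero.mpr (hi.t_pow_ne k).symm
      rw [← gen_nat, ← gg, mul_assoc, mul_assoc, ← smul_eq_C_mul, map_smul, LinearMap.smul_apply,
        ip_X, ih _ (by omega), e, map_smul]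
      simp only [smul_eq_mul]
      field_simp; ring

lemma ip_DD (hi : Indep q t) (f h : Lam F) : ip q t (DD q t 0 f) h = ip q t f (DD q t 0 h) := by
  obtain ⟨n, hn⟩ := Sh_bound (cS q t) f
  obtain ⟨m, hm⟩ := Sh_bound (cS q t) h
  have e : cS q t = fun k => t⁻¹ ^ (k+1) * (q ^ (k+1) - 1) := by funext k; rw [cS, mul_comm]
  rw [ip_symm q t f, DD_eq_sum q t 0 f (n+m) (fun s hs => hn s (by omega)),
    DD_eq_sum q t 0 h (n+m) (fun s hs => hm s (by omega)), map_sum, map_sum, LinearMap.sum_apply,
    LinearMap.sum_apply]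
  refine sum_congr rfl fun s _ => ?_
  rw [zero_add, ip_gg hi, ip_gg hi, e, Sh_scale, Sh_scale, map_smul, map_smul,
    LinearMap.smul_apply, LinearMap.smul_apply, ip_symm]

lemma zd_ne (hi : Indep q t) (d : ℕ →₀ ℕ) : zd q t d ≠ 0 := by
  refine mul_ne_zero (by exact_mod_cast zn_ne d) (Finset.prod_ne_zero_iff.mpr fun k _ => ?_)
  exact pow_ne_zero _ (div_ne_zero (sub_ne_zero.mpr (hi.q_pow_ne k).symm)
    (sub_ne_zero.mpr (hi.t_pow_ne k).symm))

variable {ι : Type} (S : Sys q t ι)

lemma Sys.orth (hi : Indep q t) {i j : ι} (h : i ≠ j) : ip q t (S.b i) (S.b j) = 0 := by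
  have := ip_DD hi (S.b i) (S.b j)
  rw [S.eig, S.eig, map_smul, map_smul, LinearMap.smul_apply, smul_eq_mul, smul_eq_mul] at this
  by_contra hc
  exact h (S.cells_inj (Finset.val_injective (hi.del_inj (mul_right_cancel₀ hc this))))

lemma Sys.ip_b (hi : Indep q t) (f : Lam F) (i : ι) :
    ip q t f (S.b i) = S.b.repr f i * ip q t (S.b i) (S.b i) := by
  have : (ip q t).flip (S.b i) = ip q t (S.b i) (S.b i) • S.b.coord i := by
    refine S.b.ext fun j => ?_
    classical
    simp only [LinearMap.flip_apply, LinearMap.smul_apply, Module.Basis.coord_apply,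
      Module.Basis.repr_self, Finsupp.single_apply, smul_eq_mul]
    split_ifs with h
    · subst h; simp
    · rw [S.orth hi h, mul_zero]
  have := congrArg (fun φ => φ f) this
  simpa [mul_comm] using this

lemma Sys.norm_ne (hi : Indep q t) (i : ι) : ip q t (S.b i) (S.b i) ≠ 0 := by
  intro h
  apply S.b.ne_zero i
  ext d
  have := S.ip_b hi (monomial d 1) i
  rw [h, mul_zero, ip_monomial, one_mul] at this
  exact (mul_eq_zero.mp this).resolve_left (zd_ne hi d)

end MJ
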