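import Pool.Agent.Lib.MP_9c49f6_co.JB0

/-! Two more block statements (for `st_CLT`) and the basic rules of the Lax operator. -/

namespace MJB
open MJ Finset MvPolynomial

/-- `f` has fibre sizes `k` (a tabloid of shape `k`) -/
def Tab {n : ℕ} (k : n.Partition) (f : Fin n → Fin n) : Prop :=
  ∀ i : Fin n, (univ.filter fun j => f j = i).card = row k i

def st_FIX : Prop := ∀ (n : ℕ) (g : Equiv.Perm (Fin n)) (μ k : n.Partition),
  g.partition.parts = μ.parts → coeff (expo k) (psumPart (Fin n) ℚ μ) =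
    (Nat.card {f : Fin n → Fin n // Tab k f ∧ f ∘ g = f} : ℚ)

def st_YNG : Prop := ∀ (n : ℕ) (κ : n.Partition), ∃ cl : Fin n → ℕ,
  (∃ f, Tab κ f ∧ Function.Injective fun j => (f j, cl j)) ∧
  ∀ ρ : n.Partition, lst κ < lst ρ → ∀ f, Tab ρ f → ¬ Function.Injective fun j => (f j, cl j)

variable {R : Type} [CommRing R]

lemma jn_X (k : ℕ) : jn R (X k) = Polynomial.monomial (k+1) ((k+1 : ℕ) : La R) := by
  simp [jn]

lemma jn_C (a : R) : jn R (C a) = 0 := by
  simp only [jn, Derivation.coeFn_coe]
  exact derivation_C _ a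

lemma jn_mul (f g : La R) :
    jn R (f * g) = Polynomial.C f * jn R g + Polynomial.C g * jn R f := by
  simp only [jn, Derivation.coeFn_coe, Derivation.leibniz, Polynomial.smul_eq_C_mul]

lemma coeff_jn_zero (f : La R) : (jn R f).coeff 0 = 0 := by
  induction f using MvPolynomial.induction_on with
  | C a => simp [jn_C]
  | add f g hf hg => simp [hf, hg]
  | mul_X f k hf => simp [jn_mul, jn_X, hf, Polynomial.coeff_monomial]

lemma coeff_jn_succ (f : La R) (k : ℕ) :
    (jn R f).coeff (k+1) = ((k+1 : ℕ) : La R) * pderiv k f := by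
  induction f using MvPolynomial.induction_on with
  | C a => simp [jn_C]
  | add f g hf hg => simp only [map_add, Polynomial.coeff_add, hf, hg, mul_add]
  | mul_X f j hf =>
    rw [jn_mul, jn_X, Polynomial.coeff_add, Polynomial.coeff_C_mul, Polynomial.coeff_C_mul, hf,
      Derivation.leibniz, Polynomial.coeff_monomial, pderiv_X]
    by_cases h : j = k
    · subst h; simp; ring
    · simp [h]; ring

lemma pi0_apply (v : Vw R) : pi0 R v = v.coeff 0 := rfl

lemma JV_monomial (k : ℕ) (a : La R) :
    JV R (Polynomial.monomial k a) = Polynomial.X ^ k * jn R a := by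
  simp [JV, Polynomial.lsum_apply, Polynomial.sum_monomial_index]

lemma L0_monomial (ε : R) (k : ℕ) (a : La R) : L0 ε (Polynomial.monomial k a) =
    Polynomial.monomial k (C (ε * k) * a) + Polynomial.C a * cutw R k := by
  simp only [L0, Polynomial.lsum_apply]
  rw [Polynomial.sum_monomial_index _ _ (by simp)]
  simp only [LinearMap.restrictScalars_apply, LinearMap.toSpanSingleton_apply, smul_add,
    Polynomial.smul_eq_C_mul, Polynomial.C_mul_monomial, mul_comm a]

lemma Lx_monomial (ε ħ : R) (k : ℕ) (a : La R) : Lx ε ħ (Polynomial.monomial k a) =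
    Polynomial.monomial k (C (ε * k) * a) + Polynomial.C a * cutw R k +
      ħ • (Polynomial.X ^ k * jn R a) := by
  simp only [Lx, LinearMap.add_apply, LinearMap.smul_apply, L0_monomial, JV_monomial]

lemma Lx_C (ε ħ : R) (a : La R) : Lx ε ħ (Polynomial.C a) = ħ • jn R a := by
  rw [← Polynomial.monomial_zero_left, Lx_monomial]; simp [cutw]

lemma It_apply (ε ħ : R) (m : ℕ) (f : La R) :
    It ε ħ m f = ((Lx ε ħ ^ m) (jn R f)).coeff 0 := rfl

lemma smul_It (ε ħ : R) (m : ℕ) (f : La R) :
    ħ • It ε ħ m f = ((Lx ε ħ ^ (m+1)) (Polynomial.C f)).coeff 0 := by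
  rw [pow_succ, Module.End.mul_apply, Lx_C, map_smul, It_apply, Polynomial.coeff_smul]

lemma Im_apply (ε ħ : R) (n m : ℕ) (π μ : n.Partition) :
    Im ε ħ n m π μ = coeff (dOf μ) (It ε ħ m (monomial (dOf π) 1)) := rfl

end MJB
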