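import Pool.Agent.Lib.MP_9c49f6_co.JB1

/-! Row A01: the two lowest coefficients of the universal polynomials are nonnegative. -/

namespace MJB

open MJ Finset MvPolynomial

namespace A01

lemma homog {F : Type} [Field F] [CharZero F] (b : F) (hb : b ≠ 0) (p : R0) (D : ℕ)
    (hp : ∀ d, coeff d p ≠ 0 → d 0 + 2 * d 1 = D) :
    aeval ![b, 1 + b] p = b ^ D * Polynomial.aeval (b⁻¹ * (1 + b⁻¹))
      (aeval ![(1 : Polynomial ℚ), Polynomial.X] p) := by
  conv_lhs => rw [p.as_sum]
  conv_rhs => rw [p.as_sum]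
  simp only [map_sum, Finset.mul_sum]
  refine Finset.sum_congr rfl fun d hd => ?_
  have h := hp d (mem_support_iff.mp hd)
  rw [aeval_monomial, aeval_monomial, Finsupp.prod_fintype _ _ (by simp),
    Finsupp.prod_fintype _ _ (by simp)]
  simp only [Fin.prod_univ_two, Matrix.cons_val_zero, Matrix.cons_val_one, one_pow, one_mul,
    map_mul, map_pow, Polynomial.aeval_X, AlgHom.commutes]
  have e : 1 + b = b ^ 2 * (b⁻¹ * (1 + b⁻¹)) := by field_simp; ring
  rw [← h, pow_add, pow_mul]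
  conv_lhs => rw [e, mul_pow]
  ring

lemma comp0 (P : Polynomial ℚ) :
    (P.comp (Polynomial.X * (1 + Polynomial.X))).coeff 0 = P.coeff 0 := by
  simp [Polynomial.coeff_zero_eq_eval_zero, Polynomial.eval_comp]

lemma comp1 (P : Polynomial ℚ) :
    (P.comp (Polynomial.X * (1 + Polynomial.X))).coeff 1 = P.coeff 1 := by
  have h : ∀ Q : Polynomial ℚ, Q.coeff 1 = (Polynomial.derivative Q).eval 0 := by
    intro Q
    rw [← Polynomial.coeff_zero_eq_eval_zero, Polynomial.coeff_derivative]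
    simp
  rw [h, h, Polynomial.derivative_comp]
  simp [Polynomial.eval_comp]

lemma cmp {F : Type} [Field F] [CharZero F] (β : F) (hβ : Transcendental ℚ β)
    (R A B : Polynomial ℚ) (c0 c1 : ℚ) (hB : B.coeff 0 ≠ 0)
    (h : Polynomial.aeval β R =
      c0 + c1 * β + β ^ 2 * (Polynomial.aeval β A / Polynomial.aeval β B)) :
    R.coeff 0 = c0 ∧ R.coeff 1 = c1 := by
  have hinj := transcendental_iff_injective.mp hβ
  have hB0 : Polynomial.aeval β B ≠ 0 := by
    intro h0
    have : B = 0 := hinj (by simpa using h0)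
    exact hB (by simp [this])
  have e : (R - Polynomial.C c0 - Polynomial.C c1 * Polynomial.X) * B = Polynomial.X ^ 2 * A := by
    apply hinj
    simp only [map_mul, map_sub, map_pow, Polynomial.aeval_X, Polynomial.aeval_C, h, eq_ratCast]
    field_simp
    ring
  have e0 := congrArg (fun Q => Polynomial.coeff Q 0) e
  have e1 := congrArg (fun Q => Polynomial.coeff Q 1) e
  simp only [Polynomial.mul_coeff_zero, Polynomial.coeff_sub, Polynomial.coeff_C_zero,
    Polynomial.coeff_X_zero, mul_zero, sub_zero, Polynomial.coeff_X_pow] at e0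
  have h0 : R.coeff 0 = c0 := by
    have : (R.coeff 0 - c0) * B.coeff 0 = 0 := by simpa using e0
    exact sub_eq_zero.mp ((mul_eq_zero.mp this).resolve_right hB)
  refine ⟨h0, ?_⟩
  simp only [Polynomial.mul_coeff_one] at e1
  have : (R.coeff 1 - c1) * B.coeff 0 = 0 := by
    simpa [h0, Polynomial.coeff_C, Polynomial.coeff_X] using e1
  exact sub_eq_zero.mp ((mul_eq_zero.mp this).resolve_right hB)

lemma gen (hCORE : st_CORE) (hJK : st_JK) (hUNQ : st_UNQ) (F : Type) [Field F] [CharZero F]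
    (b : F) (hb : Transcendental ℚ b) : st_A01 := by
  intro n c hc' ν π μ
  by_cases hp : c ν π μ = 0
  · simp [hc, hp]
  have hb0 : b ≠ 0 := fun h => hb (h ▸ isAlgebraic_zero)
  have hβ : Transcendental ℚ b⁻¹ := fun h => hb (IsAlgebraic.inv_iff.mp h)
  have hα : 1 + b ≠ 0 := by
    intro h
    have : b = -1 := by linear_combination h
    exact hb (this ▸ isAlgebraic_one.neg)
  obtain ⟨⟨J, hJ, -⟩, hall⟩ := hCORE F b hb n
  obtain ⟨hne, hex⟩ := hall J hJ
  have k1 := hJK F (1 + b) hα n J hJ hne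
  let φ : R0 →+* F := (aeval ![b, 1 + b] : R0 →ₐ[ℚ] F).toRingHom
  have k2 := (hUNQ R0 (X 0) (X 1) n).2 F φ c hc'.isK
  have f0 : φ (X 0) = 1 + b - 1 := by simp [φ]
  have f1 : φ (X 1) = 1 + b := by simp [φ]
  rw [f0, f1] at k2
  have k3 := (hUNQ F (1 + b - 1) (1 + b) n).1 _ _ k1 k2
  have k4 : cJ (1 + b) J π μ ν = aeval ![b, 1 + b] (c ν π μ) :=
    congrFun (congrFun (congrFun k3 ν) π) μ
  obtain ⟨d0, hd0⟩ := ne_zero_iff.mp hp
  have hD := hc'.hom ν π μ d0 hd0
  have k5 := A01.homog b hb0 (c ν π μ) (d0 0 + 2 * d0 1) fun d hd => by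
    have := hc'.hom ν π μ d hd
    omega
  obtain ⟨c0, c1, A, B, h0, h1, hB, hE⟩ := hex π μ ν
  have hz : (n : ℤ) + len π - len μ - len ν = ((d0 0 + 2 * d0 1 : ℕ) : ℤ) := by omega
  rw [hz, zpow_natCast, k4, k5] at hE
  have k6 := mul_left_cancel₀ (pow_ne_zero _ hb0) hE
  have k7 := A01.cmp b⁻¹ hβ ((aeval ![(1 : Polynomial ℚ), Polynomial.X] (c ν π μ)).comp
    (Polynomial.X * (1 + Polynomial.X))) A B c0 c1 hB (by
      rw [← k6, Polynomial.aeval_comp]
      simp)
  rw [A01.comp0, A01.comp1] at k7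
  exact ⟨h0.trans_eq k7.1.symm, h1.trans_eq k7.2.symm⟩

end A01

theorem st_A01_of (hCORE : st_CORE) (hJK : st_JK) (hUNQ : st_UNQ) : st_A01 := by
  refine A01.gen hCORE hJK hUNQ (RatFunc ℚ) RatFunc.X ?_
  have h := RatFunc.transcendental_X (K := ℚ)
  have e : RatFunc.instAlgebraOfPolynomial ℚ ℚ = DivisionRing.toRatAlgebra := Subsingleton.elim _ _
  rw [e] at h
  exact h

end MJB
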