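import Pool.Agent.Lib.MP_9c49f6_co.JB_POLY
import Pool.Agent.Lib.MP_9c49f6_co.C_A1
import Pool.Agent.Lib.MP_9c49f6_co.C_A2
import Pool.Agent.Lib.MP_9c49f6_co.C_A3a
import Pool.Agent.Lib.MP_9c49f6_co.C_A3b
import Pool.Agent.Lib.MP_9c49f6_co.C_A4
import Pool.Agent.Lib.MP_9c49f6_co.C_A5
import Pool.Agent.Lib.MP_9c49f6_co.C_B0
import Pool.Agent.Lib.MP_9c49f6_co.C_B1
import Pool.Agent.Lib.MP_9c49f6_co.C_B2
import Pool.Agent.Lib.MP_9c49f6_co.C_B3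
import Pool.Agent.Lib.MP_9c49f6_co.C_C1
import Pool.Agent.Lib.MP_9c49f6_co.C_C2a
import Pool.Agent.Lib.MP_9c49f6_co.C_C2b
import Pool.Agent.Lib.MP_9c49f6_co.C_C3
import Pool.Agent.Lib.MP_9c49f6_co.C_C4
import Pool.Agent.Lib.MP_9c49f6_co.C_C5
import Pool.Agent.Lib.MP_9c49f6_co.C_CAU
import Pool.Agent.Lib.MP_9c49f6_co.C_D
import Pool.Agent.Lib.MP_9c49f6_co.C_E
import Pool.Agent.Lib.MP_9c49f6_co.C_K
import Pool.Agent.Lib.MP_9c49f6_co.C_SO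

/-! Both halves, assembled. -/

namespace MJB
open MJC

theorem core_all : st_CORE :=
  have c2a := C_C2a C_C1
  have d := C_D C_K (C_C4 (C_C2b c2a) C_C3)
  C_B2 C_A1 (C_A4 C_CAU C_A1 C_A2 (C_A3a C_SO) C_A3b) (C_A5 C_CAU C_A1)
    (C_B1 C_SO (C_B0 C_K)) (C_B3 C_SO C_K d (C_E C_K (C_C5 c2a C_C3) d))

theorem main : st_MAIN := main_of_core core_all

end MJB
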