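import Pool.Agent.Lib.MP_9c49f6_co.JB1

/-! The class algebra of the symmetric group: class sizes, symmetry and the column of `1^n`. -/

namespace MJB
open MJ Finset

namespace CLS

variable {n : ℕ}

/-- The parts larger than one. -/
def big (π : n.Partition) : Multiset ℕ := π.parts.filter fun i => 2 ≤ i

lemma parts_eq (π : n.Partition) :
    π.parts = big π + Multiset.replicate (n - (big π).sum) 1 ∧ (big π).sum ≤ n := by
  have h1 := Multiset.filter_add_not (fun i => 2 ≤ i) π.parts
  have h2 : π.parts.filter (fun i => ¬ 2 ≤ i) =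
      Multiset.replicate (π.parts.filter fun i => ¬ 2 ≤ i).card 1 :=
    Multiset.eq_replicate_card.2 fun b hb => by
      have := Multiset.mem_filter.1 hb
      have := π.parts_pos this.1
      omega
  have h3 := π.parts_sum
  rw [h2] at h1
  generalize (π.parts.filter fun i => ¬ 2 ≤ i).card = c at h1
  rw [← h1, Multiset.sum_add, Multiset.sum_replicate, smul_eq_mul, mul_one] at h3
  have h4 : n - (big π).sum = c := by unfold big; omega
  exact ⟨by rw [h4]; exact h1.symm, by unfold big; omega⟩

lemma part_iff (g : Equiv.Perm (Fin n)) (π : n.Partition) :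
    g.partition.parts = π.parts ↔ g.cycleType = big π := by
  refine ⟨fun h => by rw [← Equiv.Perm.filter_parts_partition_eq_cycleType, h, big], fun h => ?_⟩
  rw [Equiv.Perm.parts_partition, ← Equiv.Perm.sum_cycleType, h, Fintype.card_fin,
    ← (parts_eq π).1]

lemma zz_eq (π : n.Partition) : zz π = (n - (big π).sum).factorial * (big π).prod *
    ∏ i ∈ (big π).toFinset, ((big π).count i).factorial := by
  have h := (parts_eq π).1
  have h1 : 1 ∉ big π := fun t => by simpa using (Multiset.mem_filter.1 t).2
  have h2 : π.parts.prod = (big π).prod := by rw [h]; simp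
  have h3 : π.parts.toFinset ⊆ insert 1 (big π).toFinset := fun i hi => by
    rw [Multiset.mem_toFinset, h, Multiset.mem_add] at hi
    rcases hi with t | t
    · exact mem_insert_of_mem (Multiset.mem_toFinset.2 t)
    · rw [Multiset.eq_of_mem_replicate t]
      exact mem_insert_self _ _
  rw [zz, prod_mul_distrib, ← prod_multiset_count, h2, prod_subset h3 fun i _ hi => by
      rw [Multiset.count_eq_zero_of_notMem (mt Multiset.mem_toFinset.2 hi), Nat.factorial_zero],
    prod_insert (mt Multiset.mem_toFinset.1 h1)]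
  have h4 : π.parts.count 1 = n - (big π).sum := by
    rw [h, Multiset.count_add, Multiset.count_eq_zero_of_notMem h1, Multiset.count_replicate_self,
      zero_add]
  have h5 : ∏ i ∈ (big π).toFinset, (π.parts.count i).factorial =
      ∏ i ∈ (big π).toFinset, ((big π).count i).factorial := prod_congr rfl fun i hi => by
    rw [big, Multiset.count_filter_of_pos (Multiset.mem_filter.1 (Multiset.mem_toFinset.1 hi)).2]
  rw [h4, h5]
  ring

lemma card_cls (π : n.Partition) :
    Nat.card {g : Equiv.Perm (Fin n) // g.partition.parts = π.parts} * zz π = n.factorial := by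
  have h := Equiv.Perm.card_of_cycleType_mul_eq (Fin n) (big π)
  rw [Fintype.card_fin, if_pos ⟨(parts_eq π).2, fun a ha => (Multiset.mem_filter.1 ha).2⟩] at h
  rw [zz_eq, ← h, Nat.card_eq_fintype_card, Fintype.card_subtype]
  simp only [part_iff]

lemma part_inv (g : Equiv.Perm (Fin n)) : g⁻¹.partition.parts = g.partition.parts := by
  rw [Equiv.Perm.parts_partition, Equiv.Perm.parts_partition, Equiv.Perm.cycleType_inv,
    Equiv.Perm.support_inv]

lemma part_ones (g : Equiv.Perm (Fin n)) : g.partition.parts = (ones n).parts ↔ g = 1 := by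
  have : big (ones n) = 0 := Multiset.filter_eq_nil.2 fun a ha => by
    rw [Multiset.eq_of_mem_replicate ha]
    decide
  rw [part_iff, this, Equiv.Perm.cycleType_eq_zero]

lemma N3_symm (π ν μ : n.Partition) : N3 π ν μ = N3 μ ν π :=
  Nat.card_congr
    { toFun := fun x => ⟨(x.1.1 * x.1.2, x.1.2⁻¹), x.2.2.2, (part_inv _).trans x.2.2.1, by
        rw [mul_inv_cancel_right]; exact x.2.1⟩
      invFun := fun x => ⟨(x.1.1 * x.1.2, x.1.2⁻¹), x.2.2.2, (part_inv _).trans x.2.2.1, by
        rw [mul_inv_cancel_right]; exact x.2.1⟩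
      left_inv := fun x => Subtype.ext (by simp)
      right_inv := fun x => Subtype.ext (by simp) }

lemma N3_ones (π : n.Partition) : N3 π π (ones n) =
    Nat.card {g : Equiv.Perm (Fin n) // g.partition.parts = π.parts} :=
  Nat.card_congr
    { toFun := fun x => ⟨x.1.1, x.2.1⟩
      invFun := fun g => ⟨(g.1, g.1⁻¹), g.2, (part_inv _).trans g.2,
        (part_ones _).2 (mul_inv_cancel _)⟩
      left_inv := fun x => Subtype.ext (Prod.ext rfl
        (eq_inv_of_mul_eq_one_right ((part_ones _).1 x.2.2.2)).symm)
      right_inv := fun _ => rfl }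

lemma N3_ne {π ν : n.Partition} (h : π ≠ ν) : N3 π ν (ones n) = 0 :=
  Nat.card_eq_zero.2 (Or.inl ⟨fun ⟨x, h1, h2, h3⟩ => h (Nat.Partition.ext (by
    rw [← h1, ← h2, eq_inv_of_mul_eq_one_right ((part_ones _).1 h3), part_inv]))⟩)

end CLS

theorem st_CLS_of : st_CLS := by
  refine fun n ν => ⟨fun π μ => ?_, fun π => ?_, CLS.card_cls⟩
  · simp only [Cl, zal, one_pow, mul_one, CLS.N3_symm π ν μ]
    ring
  · split_ifs with h
    · subst h
      rw [Cl, CLS.N3_ones, ← Nat.cast_mul, CLS.card_cls,
        div_self (Nat.cast_ne_zero.2 n.factorial_ne_zero)]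
    · rw [Cl, CLS.N3_ne h, Nat.cast_zero, zero_mul, zero_div]

end MJB
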