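import Pool.Agent.Lib.MP_9c49f6_co.JB1

/-! Row `CLT`: multiplication by a class sum preserves the lexicographic flag. -/

namespace MJB
open MJ Finset MvPolynomial Equiv
open scoped Classical

namespace CLT

variable {n : ℕ}

/-- the cycle type -/
def ty (g : Perm (Fin n)) : n.Partition :=
  ⟨g.partition.parts, g.partition.parts_pos, by simpa using g.partition.parts_sum⟩

lemma ty_iff (g : Perm (Fin n)) (μ : n.Partition) : g.partition.parts = μ.parts ↔ ty g = μ :=
  ⟨fun h => Nat.Partition.ext h, fun h => h ▸ rfl⟩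

lemma ty_conj {g g' : Perm (Fin n)} : ty g = ty g' ↔ IsConj g g' := by
  rw [Perm.partition_eq_of_isConj, ← ty_iff]
  exact ⟨fun h => Nat.Partition.ext h, fun h => h ▸ rfl⟩

noncomputable def cm (μ k : n.Partition) : ℚ := coeff (expo k) (psumPart (Fin n) ℚ μ)

lemma coeff_cm (a : n.Partition → ℚ) (k : n.Partition) :
    coeff (expo k) (sym a) = ∑ μ, a μ * cm μ k := by
  simp [sym, coeff_sum, cm]

noncomputable def sm (x : Perm (Fin n) → ℚ) (f f' : Fin n → Fin n) : ℚ :=
  ∑ g : Perm (Fin n), if f ∘ g = f' then x g else 0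

def Kill (ρ : n.Partition) (x : Perm (Fin n) → ℚ) : Prop := ∀ f f', Tab ρ f → sm x f f' = 0

noncomputable def tr (ρ : n.Partition) (x : Perm (Fin n) → ℚ) : ℚ := ∑ g, x g * cm (ty g) ρ

noncomputable def xa (a : n.Partition → ℚ) (g : Perm (Fin n)) : ℚ :=
  a (ty g) * zz (ty g) / n.factorial

lemma card_cast {α : Type} [Fintype α] (p : α → Prop) [DecidablePred p] :
    (Nat.card {x // p x} : ℚ) = ∑ x, if p x then 1 else 0 := by
  rw [Nat.card_eq_fintype_card, Fintype.card_subtype, card_filter]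
  push_cast
  rfl

lemma cm_ty (hF : st_FIX) (g : Perm (Fin n)) (ρ : n.Partition) :
    cm (ty g) ρ = ∑ f : Fin n → Fin n, if Tab ρ f ∧ f ∘ g = f then 1 else 0 := by
  rw [cm, hF n g (ty g) ρ rfl, card_cast]

lemma tr_mul (hF : st_FIX) (ρ : n.Partition) (x : Perm (Fin n) → ℚ) (k : Perm (Fin n)) :
    ∑ g, x g * cm (ty (g * k)) ρ = ∑ f, if Tab ρ f then sm x f (f ∘ ⇑k⁻¹) else 0 := by
  simp only [cm_ty hF, mul_sum]
  rw [sum_comm]
  refine sum_congr rfl fun f _ => ?_
  by_cases h : Tab ρ f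
  · rw [if_pos h, sm]
    refine sum_congr rfl fun g _ => ?_
    have e : f ∘ ⇑(g * k) = f ↔ f ∘ ⇑g = f ∘ ⇑k⁻¹ := by
      constructor
      · intro h1
        funext j
        simpa using congrFun h1 (k⁻¹ j)
      · intro h1
        funext j
        simpa using congrFun h1 (k j)
    simp only [h, true_and, e, mul_ite, mul_one, mul_zero]
  · simp [h]

lemma tr_eq (hF : st_FIX) (ρ : n.Partition) (x : Perm (Fin n) → ℚ) :
    tr ρ x = ∑ f, if Tab ρ f then sm x f f else 0 := by
  simpa [tr] using tr_mul hF ρ x 1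

lemma Kill.tr_mul (hF : st_FIX) {ρ : n.Partition} {x : Perm (Fin n) → ℚ} (h : Kill ρ x)
    (k : Perm (Fin n)) : ∑ g, x g * cm (ty (g * k)) ρ = 0 := by
  rw [CLT.tr_mul hF]
  exact sum_eq_zero fun f _ => by
    split_ifs with h1
    · exact h _ _ h1
    · rfl

lemma Kill.tr (hF : st_FIX) {ρ : n.Partition} {x : Perm (Fin n) → ℚ} (h : Kill ρ x) :
    tr ρ x = 0 := by
  simpa [CLT.tr] using h.tr_mul hF 1

lemma cls (hC : st_CLS) (μ : n.Partition) :
    (∑ g : Perm (Fin n), if ty g = μ then (1 : ℚ) else 0) * zz μ = n.factorial := by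
  have := (hC n μ).2.2 μ
  simp only [ty_iff] at this
  rw [← card_cast]
  exact_mod_cast this

lemma fac_ne : (n.factorial : ℚ) ≠ 0 := Nat.cast_ne_zero.2 n.factorial_ne_zero

lemma zz_ne (hC : st_CLS) (μ : n.Partition) : (zz μ : ℚ) ≠ 0 := fun h =>
  fac_ne (n := n) (by rw [← cls hC μ, h, mul_zero])

lemma tr_xa (hC : st_CLS) (a : n.Partition → ℚ) (k : n.Partition) :
    tr k (xa a) = coeff (expo k) (sym a) := by
  have e : ∀ g : Perm (Fin n), xa a g * cm (ty g) k =
      ∑ μ, (if ty g = μ then (1 : ℚ) else 0) * zz μ * (a μ * cm μ k / n.factorial) := fun g => by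
    simp only [ite_mul, one_mul, zero_mul, sum_ite_eq, mem_univ, if_true, xa]
    ring
  rw [coeff_cm, tr]
  simp only [e]
  rw [sum_comm]
  refine sum_congr rfl fun μ _ => ?_
  rw [← sum_mul, ← sum_mul, cls hC, mul_div_cancel₀ _ fac_ne]

lemma coeff_Cl (a : n.Partition → ℚ) (ν ρ : n.Partition) :
    coeff (expo ρ) (sym (Matrix.vecMul a (Cl ν))) = ∑ k : Perm (Fin n),
      if ty k = ν then ∑ g, xa a g * cm (ty (g * k)) ρ else 0 := by
  have e : ∀ k g : Perm (Fin n), (if ty k = ν then xa a g * cm (ty (g * k)) ρ else 0) =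
      ∑ μ, ∑ π, a π * ((if ty g = π ∧ ty k = ν ∧ ty (g * k) = μ then (1 : ℚ) else 0) * zz π /
        n.factorial) * cm μ ρ := fun k g => by
    rw [sum_eq_single (ty (g * k)) (fun μ _ h => sum_eq_zero fun π _ => by simp [h.symm])
      (by simp), sum_eq_single (ty g) (fun π _ h => by simp [h.symm]) (by simp)]
    by_cases h : ty k = ν
    · simp only [h, and_self, if_true, xa]
      ring
    · simp [h]
  have e' : ∀ k : Perm (Fin n), (if ty k = ν then ∑ g, xa a g * cm (ty (g * k)) ρ else 0) =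
      ∑ g, if ty k = ν then xa a g * cm (ty (g * k)) ρ else 0 := fun k => by
    split_ifs <;> simp
  simp only [e', e]
  rw [coeff_cm, ← Fintype.sum_prod_type_right' , sum_comm]
  refine sum_congr rfl fun μ _ => ?_
  rw [sum_comm, Matrix.vecMul, dotProduct, sum_mul]
  refine sum_congr rfl fun π _ => ?_
  simp only [Cl, N3, ty_iff]
  rw [card_cast, sum_mul, sum_div, mul_sum, sum_mul]

lemma Tab.comp {ρ : n.Partition} {f : Fin n → Fin n} (h : Tab ρ f) (s : Perm (Fin n)) :
    Tab ρ (f ∘ s) := fun i => by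
  rw [← h i]
  exact card_equiv s fun j => by simp

/-- the column antisymmetriser -/
noncomputable def ee (cl : Fin n → ℕ) (c : Perm (Fin n)) : ℚ :=
  if cl ∘ c = cl then ((Perm.sign c : ℤ) : ℚ) else 0

lemma sm_ee {cl : Fin n → ℕ} {f : Fin n → Fin n} (h : ¬ Function.Injective fun j => (f j, cl j))
    (f' : Fin n → Fin n) : sm (ee cl) f f' = 0 := by
  obtain ⟨i, j, h1, h2⟩ := Function.not_injective_iff.1 h
  rw [Prod.mk.injEq] at h1
  have e1 : f ∘ swap i j = f := funext fun x => apply_swap_eq_self h1.1 x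
  have e2 : cl ∘ swap i j = cl := funext fun x => apply_swap_eq_self h1.2 x
  have e : sm (ee cl) f f' = -sm (ee cl) f f' := by
    rw [sm, ← sum_neg_distrib, ← Equiv.sum_comp (Equiv.mulLeft (swap i j))]
    refine sum_congr rfl fun c _ => ?_
    simp only [coe_mulLeft, ee, Perm.coe_mul, ← Function.comp_assoc, e1, e2, Perm.sign_mul,
      Perm.sign_swap h2]
    split_ifs <;> simp
  linarith

lemma sm_ee_inj {cl : Fin n → ℕ} {f : Fin n → Fin n}
    (h : Function.Injective fun j => (f j, cl j)) : sm (ee cl) f f = 1 := by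
  rw [sm, sum_eq_single 1 _ (by simp)]
  · simp [ee]
  · intro c _ hc
    rw [ee]
    split_ifs with h1 h2
    · exact absurd (Equiv.ext fun j =>
        @h (c j) j (Prod.ext (congrFun h1 j) (congrFun h2 j))) hc
    · rfl
    · rfl

/-- the sum of the conjugates -/
noncomputable def av (x : Perm (Fin n) → ℚ) (g : Perm (Fin n)) : ℚ := ∑ s, x (s * g * s⁻¹)

lemma av_conj (x : Perm (Fin n) → ℚ) {g g' : Perm (Fin n)} (h : ty g = ty g') :
    av x g = av x g' := by
  obtain ⟨c, rfl⟩ := isConj_iff.1 (ty_conj.1 h)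
  rw [av, av, ← Equiv.sum_comp (Equiv.mulRight c)]
  refine sum_congr rfl fun s _ => ?_
  simp only [coe_mulRight, mul_inv_rev, mul_assoc]

lemma Kill.av {ρ : n.Partition} {x : Perm (Fin n) → ℚ} (h : Kill ρ x) : Kill ρ (av x) := by
  intro f f' hf
  have e : ∀ g : Perm (Fin n), (if f ∘ g = f' then CLT.av x g else 0) =
      ∑ s : Perm (Fin n), if f ∘ g = f' then x (s * g * s⁻¹) else 0 := fun g => by
    split_ifs <;> simp [CLT.av]
  simp only [sm, e]
  rw [sum_comm]
  refine sum_eq_zero fun s _ => ?_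
  refine Eq.trans ?_ (h (f ∘ ⇑s⁻¹) (f' ∘ ⇑s⁻¹) (Tab.comp hf _))
  rw [sm, ← Equiv.sum_comp (MulAut.conj s).toEquiv
    fun g => if (f ∘ ⇑s⁻¹) ∘ g = f' ∘ ⇑s⁻¹ then x g else 0]
  refine sum_congr rfl fun g _ => if_congr ?_ rfl rfl
  constructor
  · rintro rfl
    funext j
    simp
  · intro h1
    funext j
    simpa using congrFun h1 (s j)

lemma tr_av (ρ : n.Partition) (x : Perm (Fin n) → ℚ) : tr ρ (av x) = n.factorial * tr ρ x := by
  simp only [tr, av, sum_mul]
  rw [sum_comm]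
  have e : ∀ s : Perm (Fin n), ∑ g, x (s * g * s⁻¹) * cm (ty g) ρ = ∑ g, x g * cm (ty g) ρ :=
    fun s => by
      rw [← Equiv.sum_comp (MulAut.conj s).toEquiv fun g => x g * cm (ty g) ρ]
      refine sum_congr rfl fun g _ => ?_
      rw [ty_conj.2 (isConj_iff.2 ⟨s, rfl⟩)]
      rfl
  simp only [e, sum_const, card_univ, Fintype.card_perm, Fintype.card_fin, nsmul_eq_mul]

lemma exists_a (hC : st_CLS) (hF : st_FIX) (hY : st_YNG) (κ : n.Partition) :
    ∃ a : n.Partition → ℚ, coeff (expo κ) (sym a) ≠ 0 ∧ ∀ ρ, lst κ < lst ρ → Kill ρ (xa a) := by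
  obtain ⟨cl, ⟨f₀, h0, h1⟩, h2⟩ := hY n κ
  let a : n.Partition → ℚ := fun μ =>
    if h : ∃ g, ty g = μ then av (ee cl) h.choose * n.factorial / zz μ else 0
  have e : xa a = av (ee cl) := funext fun g => by
    have h : ∃ g', ty g' = ty g := ⟨g, rfl⟩
    simp only [xa, a, dif_pos h]
    rw [div_mul_cancel₀ _ (zz_ne hC _), mul_div_cancel_right₀ _ fac_ne, av_conj _ h.choose_spec]
  refine ⟨a, ?_, fun ρ hρ => ?_⟩
  · rw [← tr_xa hC, e, tr_av, tr_eq hF]
    refine mul_ne_zero fac_ne (sum_pos' (fun f _ => ?_) ⟨f₀, mem_univ _, ?_⟩).ne'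
    · split_ifs
      · by_cases h : Function.Injective fun j => (f j, cl j)
        · rw [sm_ee_inj h]; exact zero_le_one
        · rw [sm_ee h]
      · rfl
    · rw [if_pos h0, sm_ee_inj h1]; exact zero_lt_one
  · rw [e]
    exact Kill.av fun f f' hf => sm_ee (h2 ρ hρ f hf) f'

lemma kill_of (hC : st_CLS) (hF : st_FIX) (hY : st_YNG) (l : n.Partition) :
    ∀ a : n.Partition → ℚ, (∀ k, lst l ≤ lst k → coeff (expo k) (sym a) = 0) →
      ∀ ρ, lst l ≤ lst ρ → Kill ρ (xa a) := by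
  have wf : WellFounded fun k l : n.Partition => lst k < lst l :=
    @Finite.wellFounded_of_trans_of_irrefl _ _ _ ⟨fun _ _ _ => lt_trans⟩ ⟨fun _ => lt_irrefl _⟩
  induction l using wf.induction with
  | _ l ih =>
  intro a ha ρ hρ
  by_cases h : ∀ k, coeff (expo k) (sym a) = 0
  · have h0 : a = 0 := Th_inj ((cf_part_inj (Th_Hm _) fun k => by
      rw [← coeff_sym, h]).trans (map_zero _).symm)
    intro f f' _
    simp [sm, xa, h0]
  · obtain ⟨κ, hκ, hm⟩ := exists_max_image (univ.filter fun k => coeff (expo k) (sym a) ≠ 0) lst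
      (let ⟨k, hk⟩ := not_forall.1 h; ⟨k, mem_filter.2 ⟨mem_univ _, hk⟩⟩)
    have hl : lst κ < lst l := lt_of_not_ge fun h1 => (mem_filter.1 hκ).2 (ha κ h1)
    obtain ⟨b, hb, kb⟩ := exists_a hC hF hY κ
    set c := coeff (expo κ) (sym a) / coeff (expo κ) (sym b) with hc
    have h1 := ih κ hl (fun μ => a μ - c * b μ) (fun k hk => by
      have e : coeff (expo k) (sym fun μ => a μ - c * b μ) =
          coeff (expo k) (sym a) - c * coeff (expo k) (sym b) := by
        simp only [coeff_cm, sub_mul, sum_sub_distrib, mul_sum, mul_assoc]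
      rw [e]
      rcases hk.eq_or_lt with h2 | h2
      · rw [← lst_inj h2, hc, div_mul_cancel₀ _ hb, sub_self]
      · have h3 : coeff (expo k) (sym a) = 0 := by
          by_contra h4
          exact absurd (hm k (mem_filter.2 ⟨mem_univ _, h4⟩)) (not_le.2 h2)
        rw [h3, ← tr_xa hC, (kb k h2).tr hF, mul_zero, sub_zero]) ρ (hl.le.trans hρ)
    intro f f' hf
    have h2 := h1 f f' hf
    have h3 := kb ρ (hl.trans_le hρ) f f' hf
    have e : sm (xa a) f f' = sm (xa fun μ => a μ - c * b μ) f f' + c * sm (xa b) f f' := by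
      simp only [sm, mul_sum, ← sum_add_distrib]
      refine sum_congr rfl fun g _ => ?_
      split_ifs
      · simp only [xa]; ring
      · simp
    rw [e, h2, h3, mul_zero, add_zero]

end CLT

open CLT in
theorem st_CLT_of (hC : st_CLS) (hF : st_FIX) (hY : st_YNG) : st_CLT := by
  intro n ν a l ha ρ hρ
  have h := kill_of hC hF hY ρ a (fun k hk => ha k (hρ.trans_le hk)) ρ le_rfl
  rw [coeff_Cl]
  exact sum_eq_zero fun k _ => by rw [h.tr_mul hF, ite_self]

end MJB
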