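import Pool.Agent.Lib.MP_9c49f6_co.JB1

/-! Row FIX: the coefficient of `x^k` in `p_μ` counts the tabloids fixed by a permutation. -/

namespace MJB.FIX
open MJ Finset MvPolynomial

lemma sum_comp {α ι σ : Type} [Fintype α] [Fintype ι] [Fintype σ] [DecidableEq α] [DecidableEq ι]
    [DecidableEq σ] (q : α → ι) (hq : Function.Surjective q) (p : (α → σ) → Prop)
    [DecidablePred p] (hp : ∀ f, p f ↔ ∀ a b, q a = q b → f a = f b) :
    ∑ f ∈ univ.filter p, ∏ a, (X (f a) : MvPolynomial σ ℚ) =
      ∏ i, psum σ ℚ (univ.filter fun a => q a = i).card := by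
  simp only [psum]
  rw [Finset.prod_univ_sum, Fintype.piFinset_univ]
  symm
  refine Finset.sum_bij (fun h _ => h ∘ q) ?_ ?_ ?_ ?_
  · intro h _
    simp only [mem_filter, mem_univ, true_and]
    exact (hp _).2 fun a b hab => by simp [hab]
  · intro h _ h' _ e
    exact hq.injective_comp_right e
  · intro f hf
    have hf' := (hp f).1 (mem_filter.1 hf).2
    refine ⟨fun i => f (Function.surjInv hq i), mem_univ _, funext fun a => ?_⟩
    exact hf' _ _ (Function.surjInv_eq hq _)
  · intro h _
    rw [← Finset.prod_fiberwise univ q]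
    refine prod_congr rfl fun i _ => ?_
    rw [← prod_const]
    refine prod_congr rfl fun a ha => ?_
    simp [(mem_filter.1 ha).2]

variable {n : ℕ} (g : Equiv.Perm (Fin n))

/-- the orbit of a point: a cycle factor or a fixed point -/
def orb (a : Fin n) : g.cycleFactorsFinset ⊕ {a : Fin n // g a = a} :=
  if h : g a = a then Sum.inr ⟨a, h⟩
  else Sum.inl ⟨g.cycleOf a, Equiv.Perm.cycleOf_mem_cycleFactorsFinset_iff.2
    (Equiv.Perm.mem_support.2 h)⟩

lemma orb_inl (a : Fin n) (c : g.cycleFactorsFinset) : orb g a = Sum.inl c ↔ a ∈ c.1.support := by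
  unfold orb
  split_ifs with h
  · simp only [false_iff]
    intro ha
    exact Equiv.Perm.mem_support.1 (Equiv.Perm.mem_cycleFactorsFinset_support_le c.2 ha) h
  · constructor
    · intro e
      have : g.cycleOf a = c.1 := congrArg Subtype.val (Sum.inl.inj e)
      rw [← this, Equiv.Perm.mem_support_cycleOf_iff]
      exact ⟨Equiv.Perm.SameCycle.refl _ _, Equiv.Perm.mem_support.2 h⟩
    · intro ha
      congr 1
      exact Subtype.ext (Equiv.Perm.cycle_is_cycleOf ha c.2).symm

lemma orb_inr (a : Fin n) (b : {a : Fin n // g a = a}) : orb g a = Sum.inr b ↔ a = b.1 := by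
  unfold orb
  split_ifs with h
  · constructor
    · intro e; exact congrArg Subtype.val (Sum.inr.inj e)
    · intro e; congr 1; exact Subtype.ext e
  · simp only [false_iff]
    intro e
    exact h (by rw [e]; exact b.2)

lemma orb_surj : Function.Surjective (orb g) := by
  rintro (c | b)
  · obtain ⟨a, ha⟩ := (Equiv.Perm.mem_cycleFactorsFinset_iff.1 c.2).1.nonempty_support
    exact ⟨a, (orb_inl g a c).2 ha⟩
  · exact ⟨b.1, (orb_inr g _ b).2 rfl⟩

lemma orb_g (a : Fin n) : orb g a = orb g (g a) := by
  rcases h : orb g a with c | b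
  · symm
    rw [orb_inl] at h ⊢
    rw [← (Equiv.Perm.mem_cycleFactorsFinset_iff.1 c.2).2 a h]
    exact Equiv.Perm.apply_mem_support.2 h
  · symm
    rw [orb_inr] at h ⊢
    rw [h]; exact b.2

lemma fix_iff {σ : Type} (f : Fin n → σ) :
    f ∘ g = f ↔ ∀ a b, orb g a = orb g b → f a = f b := by
  constructor
  · intro hf a b hab
    have hp : ∀ (m : ℕ) (x : Fin n), f ((g ^ m) x) = f x := by
      intro m
      induction m with
      | zero => intro x; rfl
      | succ m ih =>
        intro x
        rw [pow_succ', Equiv.Perm.mul_apply]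
        exact (congrFun hf _).trans (ih x)
    rcases h : orb g a with c | c
    · have hb : b ∈ c.1.support := (orb_inl g b c).1 (hab ▸ h)
      rw [Equiv.Perm.cycle_is_cycleOf ((orb_inl g a c).1 h) c.2,
        Equiv.Perm.mem_support_cycleOf_iff] at hb
      obtain ⟨m, _, hm⟩ := hb.1.exists_pow_eq'
      rw [← hm, hp]
    · rw [(orb_inr g a c).1 h, (orb_inr g b c).1 (hab ▸ h)]
  · intro h
    exact funext fun a => (h _ _ (orb_g g a)).symm

lemma psum_eq : (g.partition.parts.map (psum (Fin n) ℚ)).prod =
    ∑ f ∈ univ.filter (fun f : Fin n → Fin n => f ∘ g = f), ∏ a, X (f a) := by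
  rw [sum_comp (orb g) (orb_surj g) _ (fix_iff g), Fintype.prod_sum_type,
    Equiv.Perm.parts_partition, Multiset.map_add, Multiset.prod_add]
  congr 1
  · rw [Equiv.Perm.cycleType_def, Multiset.map_map, ← Finset.prod_eq_multiset_prod,
      ← Finset.prod_coe_sort]
    refine prod_congr rfl fun c _ => ?_
    simp only [Function.comp, orb_inl]
    congr 2
    ext a; simp
  · rw [Multiset.map_replicate, Multiset.prod_replicate]
    have : ∀ b : {a : Fin n // g a = a}, (univ.filter fun a => orb g a = Sum.inr b).card = 1 := by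
      intro b
      simp only [orb_inr]
      rw [filter_eq']; simp
    simp only [this, prod_const, card_univ]
    congr 1
    rw [Fintype.card_subtype, ← Finset.card_compl]
    congr 1
    ext a; simp

lemma prod_X (f : Fin n → Fin n) : (∏ a, X (f a) : MvPolynomial (Fin n) ℚ) =
    monomial (∑ a, Finsupp.single (f a) 1) 1 := by
  rw [monomial_sum_one]; rfl

lemma expo_iff (k : n.Partition) (f : Fin n → Fin n) :
    (∑ a, Finsupp.single (f a) 1) = expo k ↔ Tab k f := by
  rw [Finsupp.ext_iff]
  refine forall_congr' fun i => ?_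
  rw [Finsupp.finsetSum_apply]
  simp only [Finsupp.single_apply, expo, Finsupp.equivFunOnFinite_symm_apply_apply]
  rw [card_filter]

end MJB.FIX

namespace MJB
open MJ Finset MvPolynomial

theorem st_FIX_of : st_FIX := by
  classical
  intro n g μ k h
  rw [psumPart, ← h, FIX.psum_eq, coeff_sum]
  simp only [FIX.prod_X, coeff_monomial, FIX.expo_iff]
  rw [sum_boole, filter_filter, Nat.card_eq_fintype_card, Fintype.card_subtype]
  congr 2
  ext f; simp [and_comm]

end MJB
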