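import Pool.Agent.Lib.MP_9c49f6_co.JB_SKEW

/-! Row `JK`: the Jack polynomials diagonalise the operators `Im`, so the coefficients `cJ` are
the matrices of the operators `K_ν`. -/

namespace MJB
open MJ Finset MvPolynomial

namespace JK
open SKEW Matrix

variable {n : ℕ} {F : Type} [Field F]

lemma low_inv {T S : Mat n F} (hT : Low T) (h : S * T = 1) : Low S := by
  have hb : T.BlockTriangular fun l => OrderDual.toDual (lst l) := fun i j hij => hT i j hij
  have hi : Invertible T := ⟨S, h, mul_eq_one_comm.mp h⟩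
  have h2 := Matrix.blockTriangular_inv_of_blockTriangular hb
  rw [Matrix.inv_eq_left_inv h] at h2
  exact fun l k hlk => h2 hlk

/-- a flag-preserving self-adjoint matrix is diagonal in the basis `J` -/
lemma diag_of [CharZero F] {ζ j : n.Partition → F} {J P A : Mat n F}
    (hJ : Low (J * Cm n F)) (hP : P * J = 1) (hPD : P * diagonal j = diagonal ζ * Jᵀ)
    (hj : ∀ l, j l ≠ 0) (hA : Tri A) (sA : SA ζ A) :
    J * A * P = diagonal fun l => (J * A * P) l l := by
  obtain ⟨u, hu⟩ := isUnit_Cm (n := n) (K := F)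
  have hQ : (↑u⁻¹ : Mat n F) * Cm n F = 1 := by rw [← hu, Units.inv_mul]
  have hQ' : Cm n F * (↑u⁻¹ : Mat n F) = 1 := by rw [← hu, Units.mul_inv]
  generalize (↑u⁻¹ : Mat n F) = Q at hQ hQ'
  have h1 : Q * P * (J * Cm n F) = 1 := by
    rw [Matrix.mul_assoc, ← Matrix.mul_assoc P, hP, Matrix.one_mul, hQ]
  have h2 : J * A * P = J * Cm n F * (Q * A * Cm n F) * (Q * P) := by
    calc J * A * P = J * (Cm n F * Q) * A * (Cm n F * Q) * P := by
          rw [hQ', Matrix.mul_one, Matrix.mul_one]
      _ = _ := by simp only [Matrix.mul_assoc]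
  have hL : Low (J * A * P) := by
    rw [h2]; exact (hJ.mul (low_conj hQ hA)).mul (low_inv hJ h1)
  have hs : (A * diagonal ζ)ᵀ = A * diagonal ζ := by
    ext π μ
    rw [transpose_apply, mul_diagonal, mul_diagonal, sA π μ]
  have h3 : J * A * P * diagonal j = J * (A * diagonal ζ) * Jᵀ := by
    rw [Matrix.mul_assoc, hPD]; simp only [Matrix.mul_assoc]
  have h4 : (J * A * P * diagonal j)ᵀ = J * A * P * diagonal j := by
    rw [h3, transpose_mul, transpose_mul, hs, transpose_transpose, Matrix.mul_assoc J _ Jᵀ]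
  generalize J * A * P = E at hL h4
  ext l k
  by_cases hlk : l = k
  · subst hlk; rw [diagonal_apply_eq]
  rw [diagonal_apply_ne _ hlk]
  rcases lt_trichotomy (lst l) (lst k) with h | h | h
  · exact hL _ _ h
  · exact absurd (lst_inj h) hlk
  · have h5 := congrFun (congrFun h4 l) k
    rw [transpose_apply, mul_diagonal, mul_diagonal, hL _ _ h, zero_mul] at h5
    exact (mul_eq_zero.mp h5.symm).resolve_right (hj k)

end JK

open SKEW JK Matrix in
theorem st_JK_of (hSA : st_SA) (hTRI : st_TRI) : st_JK := by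
  intro F _ _ α hα n J hJ hj
  let Jm : Mat n F := J
  let j : n.Partition → F := fun l => scalJ α (J l) (J l)
  let P : Mat n F := diagonal (zal α) * Jmᵀ * diagonal fun l => (j l)⁻¹
  have hD : Jm * diagonal (zal α) * Jmᵀ = diagonal j := by
    ext l k
    have h0 : (Jm * diagonal (zal α) * Jmᵀ : Mat n F) l k = scalJ α (J l) (J k) := by
      rw [Matrix.mul_apply, scalJ]
      refine sum_congr rfl fun μ _ => ?_
      rw [mul_diagonal, transpose_apply]
      show J l μ * zal α μ * J k μ = _
      ring
    rw [h0]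
    by_cases h : l = k
    · subst h; rw [diagonal_apply_eq]
    · rw [diagonal_apply_ne _ h, hJ.orth l k h]
  have hi : (diagonal j * diagonal fun l => (j l)⁻¹ : Mat n F) = 1 := by
    rw [diagonal_mul_diagonal, ← diagonal_one]
    exact congrArg diagonal (funext fun l => mul_inv_cancel₀ (hj l))
  have hi' : ((diagonal fun l => (j l)⁻¹) * diagonal j : Mat n F) = 1 := mul_eq_one_comm.mp hi
  have hJP : Jm * P = 1 := by
    rw [← hi, ← hD]; simp only [P, Matrix.mul_assoc]
  have hP : P * Jm = 1 := mul_eq_one_comm.mp hJP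
  have hPD : P * diagonal j = diagonal (zal α) * Jmᵀ := by
    simp only [P]; rw [Matrix.mul_assoc, hi', Matrix.mul_one]
  have hL : Low (Jm * Cm n F) := fun l k h => by
    by_contra h0
    refine absurd (hJ.tri l k ?_) (not_le.mpr h)
    rw [coeff_sym_eq]
    exact h0
  have hPa : ∀ π l, P π l = zal α π * J l π * (j l)⁻¹ := fun π l => by
    simp only [P]; rw [mul_diagonal, diagonal_mul, transpose_apply]
  let c : n.Partition → Mat n F := fun ν π μ => cJ α J π μ ν
  have hc : ∀ ν, c ν = P * diagonal (fun l => J l ν) * Jm := by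
    intro ν
    ext π μ
    show cJ α J π μ ν = _
    rw [Matrix.mul_apply, cJ, mul_sum]
    refine sum_congr rfl fun l _ => ?_
    rw [mul_diagonal, hPa]
    show _ = zal α π * J l π * (scalJ α (J l) (J l))⁻¹ * J l ν * J l μ
    ring
  refine ⟨fun ν m => ?_, fun ν π => ?_⟩
  · have hE := diag_of hL hP hPD hj (hTRI F α hα n m) (hSA F (α - 1) α hα n m)
    have hA : Im (α - 1) α n m = P * (Jm * Im (α - 1) α n m * P) * Jm := by
      calc Im (α - 1) α n m = P * Jm * Im (α - 1) α n m * (P * Jm) := by
            rw [hP, Matrix.one_mul, Matrix.mul_one]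
        _ = _ := by simp only [Matrix.mul_assoc]
    have hm : ∀ X Y : Mat n F, P * X * Jm * (P * Y * Jm) = P * (X * Y) * Jm := fun X Y => by
      calc P * X * Jm * (P * Y * Jm) = P * X * (Jm * P) * Y * Jm := by
            simp only [Matrix.mul_assoc]
        _ = _ := by rw [hJP, Matrix.mul_one, Matrix.mul_assoc P]
    rw [hE] at hA
    show c ν * _ = _ * c ν
    rw [hc, hA, hm, hm, (commute_diagonal _ _).eq]
  · have h1 : c ν π (ones n) = (P * Jm : Mat n F) π ν := by
      rw [hc, Matrix.mul_apply, Matrix.mul_apply]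
      refine sum_congr rfl fun l _ => ?_
      rw [mul_diagonal]
      show P π l * J l ν * J l (ones n) = P π l * J l ν
      rw [hJ.norm, mul_one]
    show c ν π (ones n) = _
    rw [h1, hP, Matrix.one_apply]

end MJB
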