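import Pool.Agent.Lib.MP_9c49f6_co.JB1

/-! Assembly of the theorem on the Jack connection coefficients. -/

namespace MJB
open MJ Finset MvPolynomial

namespace MAIN

lemma aeval_eq {A : Type} [CommRing A] [Algebra ℚ A] (x y : A) (p : R0) :
    aeval ![x, y] p = ∑ d ∈ p.support, coeff d p • (x ^ d 0 * y ^ d 1) := by
  rw [aeval_def, eval₂_eq']
  refine sum_congr rfl fun d _ => ?_
  rw [Fin.prod_univ_two, Algebra.smul_def]; rfl

lemma fin2_ext {d e : Fin 2 →₀ ℕ} (h0 : d 0 = e 0) (h1 : d 1 = e 1) : d = e := by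
  ext i; fin_cases i
  · exact h0
  · exact h1

/-- weighted homogeneity -/
def Hg (p : R0) (A B : ℕ) : Prop := ∀ d, coeff d p ≠ 0 → d 0 + 2 * d 1 + B = A

lemma hc_eq {p : R0} {A B : ℕ} (h : Hg p A B) {d : Fin 2 →₀ ℕ} (hd : coeff d p ≠ 0) :
    hc (d 1) p = coeff d p := by
  rw [hc, aeval_eq, Polynomial.finsetSum_coeff, sum_eq_single d]
  · simp
  · intro e he hne
    have h1 := h e (mem_support_iff.1 he)
    have h2 := h d hd
    have : e 1 ≠ d 1 := fun h3 => hne (fin2_ext (by omega) h3)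
    simp [Polynomial.coeff_X_pow, this.symm]
  · intro h3; exact absurd (mem_support_iff.2 hd) h3

lemma ev01_eq {p : R0} {A B : ℕ} (h : Hg p A B) {d : Fin 2 →₀ ℕ} (hd : coeff d p ≠ 0)
    (h0 : d 0 = 0) : aeval ![(0 : ℚ), 1] p = coeff d p := by
  rw [aeval_eq, sum_eq_single d]
  · simp [h0]
  · intro e he hne
    have h1 := h e (mem_support_iff.1 he)
    have h2 := h d hd
    have : e 0 ≠ 0 := fun h3 => hne (fin2_ext (by omega) (by omega))
    simp [this]
  · intro h3; exact absurd (mem_support_iff.2 hd) h3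

/-- the three properties, with degree bound `A - B` -/
def Good (Q : Polynomial ℚ) (A B : ℕ) (s : Prop) : Prop :=
  (∀ k, A < k + B → Q.coeff k = 0) ∧ (∀ k, A ≤ k + 1 + B → 0 ≤ Q.coeff k) ∧
    (s → ∀ k, 0 ≤ Q.coeff k)

lemma Good.step {Q : Polynomial ℚ} {A B : ℕ} {s : Prop} (h : Good Q A B s) :
    Good ((1 + Polynomial.X) * Q) (A + 1) B s := by
  obtain ⟨h1, h2, h3⟩ := h
  have e0 : ((1 + Polynomial.X) * Q).coeff 0 = Q.coeff 0 := by simp [add_mul]
  have e1 : ∀ k, ((1 + Polynomial.X) * Q).coeff (k+1) = Q.coeff (k+1) + Q.coeff k := by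
    intro k; simp [add_mul, Polynomial.coeff_X_mul]
  refine ⟨fun k hk => ?_, fun k hk => ?_, fun hs k => ?_⟩
  · cases k with
    | zero => rw [e0]; exact h1 _ (by omega)
    | succ k => rw [e1, h1 _ (by omega), h1 _ (by omega), add_zero]
  · cases k with
    | zero => rw [e0]; exact h2 _ (by omega)
    | succ k => rw [e1]; exact add_nonneg (h2 _ (by omega)) (h2 _ (by omega))
  · cases k with
    | zero => rw [e0]; exact h3 hs _
    | succ k => rw [e1]; exact add_nonneg (h3 hs _) (h3 hs _)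

lemma Good.pow {Q : Polynomial ℚ} {A B : ℕ} {s : Prop} (h : Good Q A B s) (e : ℕ) :
    Good ((1 + Polynomial.X) ^ e * Q) (A + e) B s := by
  induction e with
  | zero => simpa using h
  | succ e ih => rw [pow_succ', mul_assoc]; exact ih.step

lemma Good.smul {Q : Polynomial ℚ} {A B : ℕ} {s : Prop} (h : Good Q A B s) {r : ℚ} (hr : 0 ≤ r) :
    Good (r • Q) A B s := by
  obtain ⟨h1, h2, h3⟩ := h
  refine ⟨fun k hk => ?_, fun k hk => ?_, fun hs k => ?_⟩
  · simp [h1 k hk]
  · simpa using mul_nonneg hr (h2 k hk)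
  · simpa using mul_nonneg hr (h3 hs k)

lemma coeff_term (i j k : ℕ) : ((Polynomial.X ^ i * (1 + Polynomial.X) ^ j : Polynomial ℚ).coeff k) =
    if i ≤ k then (j.choose (k - i) : ℚ) else 0 := by
  rw [Polynomial.coeff_X_pow_mul', Polynomial.coeff_one_add_X_pow]

lemma good_base {p : R0} {A B : ℕ} (h : Hg p A B) (h0 : 0 ≤ hc 0 p) (h1 : 0 ≤ hc 1 p)
    (h2 : 0 ≤ aeval ![(0 : ℚ), 1] p) :
    Good (aeval ![Polynomial.X, 1 + Polynomial.X] p) A B (A ≤ B + 4) := by
  have lo : ∀ d, coeff d p ≠ 0 → d 1 ≤ 1 → 0 ≤ coeff d p := by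
    intro d hd hle
    rw [← hc_eq h hd]
    rcases Nat.le_one_iff_eq_zero_or_eq_one.1 hle with e | e <;> rw [e] <;> assumption
  have tz : ∀ i j k : ℕ, i + j < k →
      ((Polynomial.X ^ i * (1 + Polynomial.X) ^ j : Polynomial ℚ).coeff k) = 0 := by
    intro i j k hk
    rw [coeff_term, if_pos (by omega), Nat.choose_eq_zero_of_lt (by omega), Nat.cast_zero]
  have tn : ∀ i j k : ℕ,
      0 ≤ ((Polynomial.X ^ i * (1 + Polynomial.X) ^ j : Polynomial ℚ).coeff k) := by
    intro i j k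
    rw [coeff_term]; split_ifs
    · exact Nat.cast_nonneg _
    · exact le_rfl
  rw [aeval_eq]
  refine ⟨fun k hk => ?_, fun k hk => ?_, fun hs k => ?_⟩
  · rw [Polynomial.finsetSum_coeff]
    refine sum_eq_zero fun d hd => ?_
    have := h d (mem_support_iff.1 hd)
    rw [Polynomial.coeff_smul, tz _ _ _ (by omega), smul_zero]
  · rw [Polynomial.finsetSum_coeff]
    refine sum_nonneg fun d hd => ?_
    have := h d (mem_support_iff.1 hd)
    rw [Polynomial.coeff_smul, smul_eq_mul]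
    by_cases hle : d 1 ≤ 1
    · exact mul_nonneg (lo d (mem_support_iff.1 hd) hle) (tn _ _ _)
    · rw [tz _ _ _ (by omega), mul_zero]
  · rw [Polynomial.finsetSum_coeff]
    refine sum_nonneg fun d hd => ?_
    have := h d (mem_support_iff.1 hd)
    rw [Polynomial.coeff_smul, smul_eq_mul]
    refine mul_nonneg ?_ (tn _ _ _)
    by_cases hle : d 1 ≤ 1
    · exact lo d (mem_support_iff.1 hd) hle
    · rw [← ev01_eq h (mem_support_iff.1 hd) (by omega)]; exact h2

variable {F : Type} [Field F] {n : ℕ}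

lemma cJ_symm (α : F) (J : n.Partition → n.Partition → F) (π μ ν : n.Partition) :
    cJ α J π μ ν = cJ α J π ν μ := by
  unfold cJ; congr 1; exact sum_congr rfl fun l _ => by ring

lemma cJ_swap (α : F) (J : n.Partition → n.Partition → F) (π μ ν : n.Partition) :
    cJ α J π μ ν * zal α μ = cJ α J μ π ν * zal α π := by
  unfold cJ
  have : ∑ l, (scalJ α (J l) (J l))⁻¹ * (J l π * J l μ * J l ν) =
      ∑ l, (scalJ α (J l) (J l))⁻¹ * (J l μ * J l π * J l ν) := sum_congr rfl fun l _ => by ring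
  rw [this]; ring

lemma zz_pos' (l : n.Partition) : 0 < zz l := by
  unfold zz
  refine prod_pos fun i hi => Nat.mul_pos (pow_pos ?_ _) (Nat.factorial_pos _)
  exact l.parts_pos (Multiset.mem_toFinset.1 hi)

lemma swap_good [CharZero F] {b : F} (hα : 1 + b ≠ 0) (J : n.Partition → n.Partition → F)
    (π μ ν : n.Partition) (hle : len μ ≤ len π) {s : Prop}
    (h : ∃ Q, cJ (1 + b) J μ π ν = Polynomial.aeval b Q ∧
      Good Q (n + len μ) (len π + len ν) s) :
    ∃ Q, cJ (1 + b) J π μ ν = Polynomial.aeval b Q ∧ Good Q (n + len π) (len π + len ν) s := by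
  obtain ⟨Q, hQ, hG⟩ := h
  obtain ⟨e, he⟩ := Nat.exists_eq_add_of_le hle
  have hz : (zz μ : F) ≠ 0 := Nat.cast_ne_zero.2 (zz_pos' μ).ne'
  refine ⟨((zz π : ℚ) / zz μ) • ((1 + Polynomial.X) ^ e * Q), ?_, ?_⟩
  · have h1 := cJ_swap (1 + b) J π μ ν
    have h2 : zal (1 + b) μ ≠ 0 := mul_ne_zero hz (pow_ne_zero _ hα)
    apply mul_right_cancel₀ h2
    rw [h1, hQ, map_smul, map_mul, map_pow, map_add, map_one, Polynomial.aeval_X, zal, zal, he,
      Algebra.smul_def, map_div₀, map_natCast, map_natCast, pow_add]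
    field_simp
  · have := (hG.pow e).smul (r := (zz π : ℚ) / zz μ) (by positivity)
    rwa [add_assoc, ← he] at this

end MAIN

open MAIN in
theorem st_MAIN_of (hC : st_CORE) (hU : st_UNIV) (hJ : st_JK) (hQ : st_UNQ) (hA : st_A01)
    (hS : st_S1) : st_MAIN := by
  intro F _ _ b hb n
  refine ⟨(hC F b hb n).1, fun J hJa => ?_⟩
  have hn := ((hC F b hb n).2 J hJa).1
  have hα : 1 + b ≠ 0 := by
    intro h
    apply hb
    have : b = algebraMap ℚ F (-1) := by rw [map_neg, map_one]; linear_combination h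
    rw [this]; exact isAlgebraic_algebraMap _
  obtain ⟨c, hc⟩ := hU n
  have k1 := hJ F (1 + b) hα n J hJa hn
  have k2 := (hQ R0 (X 0) (X 1) n).2 F (aeval ![b, 1 + b] : R0 →ₐ[ℚ] F).toRingHom c hc.isK
  have k3 := (hQ R0 (X 0) (X 1) n).2 ℚ (aeval ![(0 : ℚ), 1] : R0 →ₐ[ℚ] ℚ).toRingHom c hc.isK
  simp only [AlgHom.toRingHom_eq_coe, RingHom.coe_coe, aeval_X, Matrix.cons_val_zero,
    Matrix.cons_val_one] at k2 k3
  rw [add_sub_cancel_left] at k1
  have k4 := (hQ F b (1 + b) n).1 _ _ k1 k2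
  have k5 := hS n _ k3
  have base : ∀ π μ ν : n.Partition, ∃ Q, cJ (1 + b) J π μ ν = Polynomial.aeval b Q ∧
      Good Q (n + len π) (len μ + len ν) (n + len π ≤ len μ + len ν + 4) := by
    intro π μ ν
    refine ⟨aeval ![Polynomial.X, 1 + Polynomial.X] (c ν π μ), ?_, good_base ?_
      (hA n c hc ν π μ).1 (hA n c hc ν π μ).2 (k5 ν π μ)⟩
    · have := congrFun (congrFun (congrFun k4 ν) π) μ
      simp only [Matrix.map_apply] at this
      rw [this, aeval_eq, aeval_eq, map_sum]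
      refine sum_congr rfl fun d _ => ?_
      simp
    · intro d hd; have := hc.hom ν π μ d hd; omega
  intro π μ ν
  by_cases h1 : len π ≤ len μ ∧ len π ≤ len ν
  · obtain ⟨Q, e, g1, g2, g3⟩ := base π μ ν
    exact ⟨Q, e, fun k hk => g1 k (by omega), fun k hk => g2 k (by omega),
      fun hk => g3 (by omega)⟩
  · by_cases h2 : len μ ≤ len ν
    · obtain ⟨Q, e, g1, g2, g3⟩ := swap_good hα J π μ ν (by omega) (base μ π ν)
      exact ⟨Q, e, fun k hk => g1 k (by omega), fun k hk => g2 k (by omega),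
        fun hk => g3 (by omega)⟩
    · obtain ⟨Q, e, g1, g2, g3⟩ := swap_good hα J π ν μ (by omega) (base ν π μ)
      exact ⟨Q, (cJ_symm _ _ _ _ _).trans e, fun k hk => g1 k (by omega),
        fun k hk => g2 k (by omega), fun hk => g3 (by omega)⟩

end MJB
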