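import Pool.Agent.Lib.MP_9c49f6_co.JB1

/-! Base change for the Lax operator. -/

namespace MJB
open MJ Finset MvPolynomial

namespace MAP

variable {R S : Type} [CommRing R] [CommRing S] (φ : R →+* S)

/-- base change on `Λ[w]` -/
noncomputable def Mp : Vw R →+* Vw S := Polynomial.mapRingHom (MvPolynomial.map φ)

lemma Mp_monomial (k : ℕ) (a : La R) :
    Mp φ (Polynomial.monomial k a) = Polynomial.monomial k (MvPolynomial.map φ a) := by
  simp [Mp]

lemma Mp_C (a : La R) : Mp φ (Polynomial.C a) = Polynomial.C (MvPolynomial.map φ a) :=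
  Mp_monomial φ 0 a

lemma Mp_X : Mp φ Polynomial.X = Polynomial.X := by simp [Mp]

lemma coeff_Mp (v : Vw R) (k : ℕ) : (Mp φ v).coeff k = MvPolynomial.map φ (v.coeff k) := by
  simp [Mp]

lemma Mp_smul (x : R) (v : Vw R) : Mp φ (x • v) = φ x • Mp φ v := by
  refine Polynomial.ext fun k => ?_
  simp only [coeff_Mp, Polynomial.coeff_smul, smul_eq_C_mul, map_mul, map_C]

lemma jn_map (f : La R) : jn S (MvPolynomial.map φ f) = Mp φ (jn R f) := by
  induction f using MvPolynomial.induction_on with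
  | C a => simp [jn_C]
  | add f g hf hg => simp only [map_add, hf, hg]
  | mul_X f k hf =>
    simp only [map_mul, map_X, jn_mul, map_add, Mp_C, hf, jn_X, Mp_monomial, map_natCast]

lemma Mp_cutw (k : ℕ) : Mp φ (cutw R k) = cutw S k := by
  simp only [cutw, map_sum, Mp_monomial, map_X]

lemma Mp_Lx (ε ħ : R) (v : Vw R) : Mp φ (Lx ε ħ v) = Lx (φ ε) (φ ħ) (Mp φ v) := by
  induction v using Polynomial.induction_on' with
  | add f g hf hg => simp only [map_add, hf, hg]
  | monomial k a =>
    simp only [Lx_monomial, Mp_monomial, map_add, map_mul, Mp_C, Mp_cutw, Mp_smul, map_pow, Mp_X,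
      jn_map, map_C, map_natCast]

lemma Mp_pow (ε ħ : R) (m : ℕ) (v : Vw R) :
    Mp φ ((Lx ε ħ ^ m) v) = (Lx (φ ε) (φ ħ) ^ m) (Mp φ v) := by
  induction m with
  | zero => simp
  | succ m ih =>
    rw [pow_succ' (Lx _ _), pow_succ' (Lx _ _), Module.End.mul_apply, Module.End.mul_apply, Mp_Lx,
      ih]

end MAP

open MAP in
theorem st_MAP_of : st_MAP := fun R S _ _ φ ε ħ n m => by
  ext π μ
  rw [Matrix.map_apply, Im_apply, Im_apply, It_apply, It_apply, ← coeff_map, ← coeff_Mp, Mp_pow,
    ← jn_map, map_monomial, map_one]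

end MJB
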