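import Pool.Agent.Lib.MP_9c49f6_co.JB1

/-! Row `S1`: at `ε = 0`, `ħ = 1` the operators `K_ν` are the class multiplications, so their
entries are nonnegative. -/

namespace MJB
open MJ Finset MvPolynomial

namespace S1

theorem zz_pos {n : ℕ} (hCLS : st_CLS) (μ : n.Partition) : (0 : ℚ) < zal (1 : ℚ) μ := by
  have h := (hCLS n μ).2.2 μ
  have h0 : zz μ ≠ 0 := by
    intro h1
    rw [h1, mul_zero] at h
    exact (Nat.factorial_ne_zero n) h.symm
  have h2 : (0 : ℚ) < (zz μ : ℚ) := by exact_mod_cast Nat.pos_of_ne_zero h0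
  simpa [zal] using h2

end S1

theorem st_S1_of (hCLS : st_CLS) (hCLT : st_CLT) (hSK : st_SKEW) (hT : st_TRI) (hSA : st_SA)
    (hU : st_UNQ) : st_S1 := by
  intro n c hc ν π μ
  have hK : IsK (0 : ℚ) 1 n (fun ν => Cl ν) := by
    refine ⟨fun ν m => ?_, fun ν π => (hCLS n ν).2.1 π⟩
    have h1 : Tri (Im (0 : ℚ) 1 n m) := by
      have := hT ℚ 1 one_ne_zero n m
      rwa [sub_self] at this
    exact hSK ℚ n (zal 1) (S1.zz_pos hCLS) _ _ (hCLT n ν) h1 (hCLS n ν).1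
      (hSA ℚ 0 1 one_ne_zero n m)
  have he := (hU ℚ 0 1 n).1 c _ hc hK
  rw [he]
  show (0 : ℚ) ≤ (N3 π ν μ : ℚ) * zz π / n.factorial
  positivity

end MJB
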