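import Pool.Agent.Lib.MP_9c49f6_co.JB1

/-! The Lax operator is self-adjoint. -/

namespace MJB
open MJ Finset MvPolynomial

namespace SA

variable {F : Type} [Field F] (ε ħ : F)

noncomputable def zh (d : ℕ →₀ ℕ) : F := zn d * pw (fun _ => ħ) d

noncomputable def ia : La F →ₗ[F] La F →ₗ[F] F :=
  (basisMonomials ℕ F).constr F fun d => zh ħ d • lcoeff F d

lemma ia_monomial (d : ℕ →₀ ℕ) (a : F) (g : La F) :
    ia ħ (monomial d a) g = a * (zh ħ d * coeff d g) := by
  have : (monomial d a : La F) = a • basisMonomials ℕ F d := by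
    simp [smul_monomial]
  rw [this, map_smul, ia, Module.Basis.constr_basis]; simp

lemma ia_symm (f g : La F) : ia ħ f g = ia ħ g f := by
  induction f using MvPolynomial.induction_on' with
  | add p r hp hr => simp [hp, hr]
  | monomial d a =>
    induction g using MvPolynomial.induction_on' with
    | add p r hp hr => simp [hp, hr]
    | monomial e b =>
      rw [ia_monomial, ia_monomial, coeff_monomial, coeff_monomial]
      by_cases h : d = e
      · subst h; simp; ring
      · simp [h, Ne.symm h]

lemma ia_X (k : ℕ) (f g : La F) :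
    ia ħ (X k * f) g = ((k+1) * ħ) * ia ħ f (pderiv k g) := by
  induction f using MvPolynomial.induction_on' with
  | add p r hp hr => simp only [mul_add, map_add, LinearMap.add_apply, hp, hr]
  | monomial d a =>
    rw [X, monomial_mul, one_mul, ia_monomial, ia_monomial, coeff_pderiv, add_comm _ d, zh, zh,
      zn_succ, pw_add, pw_single]
    push_cast; ring

lemma zh_dOf {n : ℕ} (μ : n.Partition) : zh ħ (dOf μ) = zal ħ μ := by
  rw [zh, zn_dOf, zal, pw, prod_dOf μ fun _ => ħ, len]
  simp

/-- the form on `Λ[w]` -/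
noncomputable def iv : Vw F →ₗ[F] Vw F →ₗ[F] F :=
  Polynomial.lsum fun k =>
    (ia ħ).compl₂ ((Polynomial.lcoeff (La F) k).restrictScalars F)

lemma iv_monomial (k : ℕ) (a : La F) (v : Vw F) :
    iv ħ (Polynomial.monomial k a) v = ia ħ a (v.coeff k) := by
  simp [iv, Polynomial.lsum_apply, Polynomial.sum_monomial_index]

lemma iv_symm (u v : Vw F) : iv ħ u v = iv ħ v u := by
  induction u using Polynomial.induction_on' with
  | add p r hp hr => simp [hp, hr]
  | monomial k a =>
    induction v using Polynomial.induction_on' with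
    | add p r hp hr => simp [hp, hr]
    | monomial l b =>
      rw [iv_monomial, iv_monomial, Polynomial.coeff_monomial, Polynomial.coeff_monomial]
      by_cases h : k = l
      · subst h; simp [ia_symm ħ a b]
      · simp [h, Ne.symm h]

lemma coeff_cutw (k l : ℕ) :
    (cutw F k).coeff l = if l < k then (X (k - 1 - l) : La F) else 0 := by
  rw [cutw, Polynomial.finsetSum_coeff]
  simp only [Polynomial.coeff_monomial]
  split_ifs with h
  · rw [sum_eq_single (k - 1 - l)]
    · rw [if_pos (by omega)]
    · intro j hj hne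
      rw [if_neg (by have := mem_range.mp hj; omega)]
    · intro hj
      exact absurd (mem_range.mpr (by omega)) hj
  · exact sum_eq_zero fun j hj => if_neg (by have := mem_range.mp hj; omega)

lemma coeff_down (l j : ℕ) (a : La F) :
    (Lx ε ħ (Polynomial.monomial (l + j + 1) a)).coeff l = X j * a := by
  rw [Lx_monomial, Polynomial.coeff_add, Polynomial.coeff_add, Polynomial.coeff_monomial,
    if_neg (by omega), Polynomial.coeff_C_mul, coeff_cutw, if_pos (by omega),
    Polynomial.coeff_smul, Polynomial.coeff_X_pow_mul', if_neg (by omega),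
    show l + j + 1 - 1 - l = j by omega]
  simp [mul_comm]

lemma coeff_up (l j : ℕ) (a : La F) :
    (Lx ε ħ (Polynomial.monomial l a)).coeff (l + j + 1) = ((j + 1) * ħ) • pderiv j a := by
  rw [Lx_monomial, Polynomial.coeff_add, Polynomial.coeff_add, Polynomial.coeff_monomial,
    if_neg (by omega), Polynomial.coeff_C_mul, coeff_cutw, if_neg (by omega),
    Polynomial.coeff_smul, Polynomial.coeff_X_pow_mul', if_pos (by omega),
    show l + j + 1 - l = j + 1 by omega, coeff_jn_succ]
  rw [mul_comm _ ħ, mul_smul, smul_eq_C_mul _ ((j : F) + 1)]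
  simp

lemma coeff_same (l : ℕ) (a : La F) :
    (Lx ε ħ (Polynomial.monomial l a)).coeff l = (ε * l) • a := by
  rw [Lx_monomial, Polynomial.coeff_add, Polynomial.coeff_add, Polynomial.coeff_monomial,
    if_pos rfl, Polynomial.coeff_C_mul, coeff_cutw, if_neg (by omega),
    Polynomial.coeff_smul, Polynomial.coeff_X_pow_mul', if_pos le_rfl, Nat.sub_self,
    coeff_jn_zero, smul_zero, mul_zero, add_zero, add_zero, smul_eq_C_mul]

lemma key (k l : ℕ) (a b : La F) (h : l < k) :
    ia ħ b ((Lx ε ħ (Polynomial.monomial k a)).coeff l) =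
      ia ħ a ((Lx ε ħ (Polynomial.monomial l b)).coeff k) := by
  obtain ⟨j, rfl⟩ : ∃ j, k = l + j + 1 := ⟨k - l - 1, by omega⟩
  rw [coeff_down, coeff_up, ia_symm, ia_X, map_smul, smul_eq_mul]

lemma iv_Lx (u v : Vw F) : iv ħ u (Lx ε ħ v) = iv ħ v (Lx ε ħ u) := by
  induction u using Polynomial.induction_on' with
  | add p r hp hr => simp [hp, hr]
  | monomial k a =>
    induction v using Polynomial.induction_on' with
    | add p r hp hr => simp [hp, hr]
    | monomial l b =>
      rw [iv_monomial, iv_monomial]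
      rcases lt_trichotomy k l with h | rfl | h
      · exact key ε ħ l k b a h
      · rw [coeff_same, coeff_same, map_smul, map_smul, ia_symm]
      · exact (key ε ħ k l a b h).symm

lemma iv_pow (m : ℕ) : ∀ u v : Vw F, iv ħ u ((Lx ε ħ ^ m) v) = iv ħ v ((Lx ε ħ ^ m) u) := by
  induction m with
  | zero => exact fun u v => iv_symm ħ u v
  | succ m ih =>
    intro u v
    rw [pow_succ, Module.End.mul_apply, ih, iv_symm, iv_symm ħ _ (Lx ε ħ v), ← iv_symm ħ _ (Lx ε ħ v),
      iv_Lx, ← Module.End.mul_apply, ← pow_succ', pow_succ]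

lemma ia_It (m : ℕ) (f g : La F) : ħ * ia ħ g (It ε ħ m f) = ħ * ia ħ f (It ε ħ m g) := by
  have e : ∀ f g : La F, ħ * ia ħ g (It ε ħ m f) =
      iv ħ (Polynomial.C g) ((Lx ε ħ ^ (m+1)) (Polynomial.C f)) := fun f g => by
    rw [← Polynomial.monomial_zero_left (a := g), iv_monomial, ← smul_It, map_smul, smul_eq_mul]
  rw [e, e, iv_pow]

end SA

theorem st_SA_of : st_SA := by
  intro F _ ε ħ h n m π μ
  have := mul_left_cancel₀ h (SA.ia_It ε ħ m (monomial (dOf π) 1) (monomial (dOf μ) 1))
  rw [SA.ia_monomial, SA.ia_monomial, SA.zh_dOf, SA.zh_dOf, one_mul, one_mul] at this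
  rw [Im_apply, Im_apply, mul_comm, this, mul_comm]

end MJB
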