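import Pool.Agent.Lib.MP_9c49f6_co.JB1

/-! Scaling rule for the Lax operator. -/

namespace MJB
open MJ Finset MvPolynomial

namespace SC

variable {R : Type} [CommRing R] (x : R)

/-- the algebra map that multiplies every power sum by `x` -/
noncomputable def sg : La R →ₐ[R] La R := aeval fun k => x • X k

noncomputable def Sg : Vw R →ₐ[R] Vw R := Polynomial.mapAlgHom (sg x)

lemma sg_X (k : ℕ) : sg x (X k) = x • X k := aeval_X _ k

lemma Sg_monomial (k : ℕ) (a : La R) :
    Sg x (Polynomial.monomial k a) = Polynomial.monomial k (sg x a) := by simp [Sg]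

lemma Sg_C (a : La R) : Sg x (Polynomial.C a) = Polynomial.C (sg x a) := Sg_monomial x 0 a

lemma Sg_X : Sg x Polynomial.X = Polynomial.X := by simp [Sg]

lemma coeff_Sg (v : Vw R) (k : ℕ) : (Sg x v).coeff k = sg x (v.coeff k) := by simp [Sg]

lemma mon_smul (k : ℕ) (a : La R) :
    Polynomial.monomial k (x • a) = x • Polynomial.monomial k a := by
  rw [Polynomial.smul_monomial]

lemma C_smul (a : La R) : Polynomial.C (x • a) = x • Polynomial.C a := mon_smul x 0 a

lemma sg_monomial (d : ℕ →₀ ℕ) (a : R) :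
    sg x (monomial d a) = (d.prod fun _ e => x ^ e) • monomial d a := by
  rw [sg, aeval_monomial, monomial_eq, algebraMap_eq, ← mul_smul_comm]
  simp only [Finsupp.prod, smul_pow, prod_smul]

lemma coeff_sg (d : ℕ →₀ ℕ) (f : La R) :
    coeff d (sg x f) = (d.prod fun _ e => x ^ e) * coeff d f := by
  induction f using MvPolynomial.induction_on' with
  | monomial e a =>
    rw [sg_monomial, coeff_smul, coeff_monomial, smul_eq_mul]
    split_ifs with h
    · rw [h]
    · simp
  | add f g hf hg => simp only [map_add, coeff_add, hf, hg, mul_add]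

lemma jn_sg (f : La R) : jn R (sg x f) = x • Sg x (jn R f) := by
  induction f using MvPolynomial.induction_on with
  | C a => simp [sg, jn_C]
  | add f g hf hg => simp only [map_add, hf, hg, smul_add]
  | mul_X f k hf =>
    simp only [map_mul, sg_X, jn_mul, map_add, Sg_C, hf, map_smul, jn_X, Sg_monomial, C_smul,
      map_natCast, smul_add, mul_smul_comm, smul_mul_assoc]

lemma Sg_cutw (k : ℕ) : Sg x (cutw R k) = x • cutw R k := by
  simp only [cutw, map_sum, Sg_monomial, sg_X, mon_smul, smul_sum]

lemma Sg_Lx (ε ħ : R) (v : Vw R) :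
    Sg x (Lx (x * ε) (x ^ 2 * ħ) v) = x • Lx ε ħ (Sg x v) := by
  induction v using Polynomial.induction_on' with
  | add f g hf hg => simp only [map_add, hf, hg, smul_add]
  | monomial k a =>
    simp only [Lx_monomial, Sg_monomial, map_add, map_mul (Sg x), Sg_C, Sg_cutw, map_smul,
      map_pow, Sg_X, jn_sg, C_mul', mon_smul, smul_add, mul_smul_comm, smul_smul]
    rw [mul_assoc, show x ^ 2 * ħ = x * (ħ * x) by ring]

lemma Sg_pow (ε ħ : R) (m : ℕ) (v : Vw R) :
    Sg x ((Lx (x * ε) (x ^ 2 * ħ) ^ m) v) = x ^ m • (Lx ε ħ ^ m) (Sg x v) := by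
  induction m with
  | zero => simp
  | succ m ih =>
    rw [pow_succ' (Lx _ _), pow_succ' (Lx _ _), Module.End.mul_apply, Module.End.mul_apply, Sg_Lx,
      ih, map_smul, smul_smul, pow_succ']

lemma prod_len {n : ℕ} (μ : n.Partition) : ((dOf μ).prod fun _ e => x ^ e) = x ^ len μ := by
  rw [prod_dOf μ fun _ => x, Multiset.map_const', Multiset.prod_replicate, len]

end SC

open SC in
theorem st_SC_of : st_SC := fun R _ ε ħ x n m π μ => by
  have h0 := congrArg (x • ·) (Sg_pow x ε ħ m (jn R (monomial (dOf π) 1)))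
  simp only [smul_comm x (x ^ m)] at h0
  rw [← map_smul (Lx ε ħ ^ m), ← jn_sg, sg_monomial, map_smul, map_smul] at h0
  have h1 := congrArg (fun v => coeff (dOf μ) (v.coeff 0)) h0
  simp only [Polynomial.coeff_smul, coeff_Sg, coeff_smul, coeff_sg, prod_len, smul_eq_mul] at h1
  simp only [Im_apply, It_apply]
  linear_combination h1

end MJB
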