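import Pool.Agent.Lib.MP_9c49f6_co.JB1

/-! Block `st_SPAN`: the words in the operators `Im`, evaluated at `1^n`, span the dual space.
The proof filters by the degree in `p_1`. -/

namespace MJB.SPAN
open MJ Finset MvPolynomial

variable {R : Type} [CommRing R]

variable (R) in
/-- degree in `p_1` below `s` -/
def N (s : ℕ) : Submodule R (La R) where
  carrier := {a | ∀ d : ℕ →₀ ℕ, s ≤ d 0 → coeff d a = 0}
  add_mem' ha hb d h := by rw [coeff_add, ha d h, hb d h, add_zero]
  zero_mem' d _ := coeff_zero d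
  smul_mem' c a ha d h := by rw [coeff_smul, ha d h, smul_zero]

variable (R) in
/-- all coefficients have degree in `p_1` below `s` -/
def M (s : ℕ) : Submodule R (Vw R) where
  carrier := {v | ∀ i, v.coeff i ∈ N R s}
  add_mem' ha hb i := by
    rw [Polynomial.coeff_add]
    exact add_mem (ha i) (hb i)
  zero_mem' i := by simp
  smul_mem' c a ha i := by
    rw [Polynomial.coeff_smul]
    exact Submodule.smul_mem _ _ (ha i)

variable {s : ℕ} {a : La R} {v : Vw R}

lemma N_X (h : a ∈ N R s) (j : ℕ) : a * X (j + 1) ∈ N R s := fun d hd => by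
  rw [coeff_mul_X']
  split_ifs
  · exact h _ (by simpa using hd)
  · rfl

lemma N_X0 (h : a ∈ N R s) : X 0 * a ∈ N R (s + 1) := fun d hd => by
  rw [coeff_X_mul']
  split_ifs
  · refine h _ ?_
    simp only [Finsupp.coe_tsub, Pi.sub_apply, Finsupp.single_eq_same]
    omega
  · rfl

lemma N_pderiv (h : a ∈ N R s) (k : ℕ) : pderiv k a ∈ N R s := fun d hd => by
  rw [coeff_pderiv, h _ (hd.trans (by simp)), zero_mul]

lemma M_mono (h : v ∈ M R s) : v ∈ M R (s + 1) := fun i d hd => h i d (by omega)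

lemma M_monomial (h : a ∈ N R s) (k : ℕ) : Polynomial.monomial k a ∈ M R s := fun i => by
  rw [Polynomial.coeff_monomial]
  split_ifs
  · exact h
  · exact zero_mem _

lemma M_jn (h : a ∈ N R s) : jn R a ∈ M R s := fun i => by
  cases i with
  | zero =>
    rw [coeff_jn_zero]
    exact zero_mem _
  | succ k =>
    rw [coeff_jn_succ, ← nsmul_eq_mul]
    exact nsmul_mem (N_pderiv h k) _

lemma M_pow (h : v ∈ M R s) (k : ℕ) : Polynomial.X ^ k * v ∈ M R s := fun i => by
  rw [Polynomial.coeff_X_pow_mul']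
  split_ifs
  · exact h _
  · exact zero_mem _

lemma M_top (h : v ∈ M R s) : Polynomial.C (X 0) * v.divX ∈ M R (s + 1) := fun i => by
  rw [Polynomial.coeff_C_mul, Polynomial.coeff_divX]
  exact N_X0 (h _)

lemma step_mon (ε ħ : R) (h : a ∈ N R s) (k : ℕ) : Lx ε ħ (Polynomial.monomial k a) -
    Polynomial.C (X 0) * (Polynomial.monomial k a).divX ∈ M R s := by
  have h1 : Polynomial.monomial k (C (ε * k) * a) ∈ M R s :=
    M_monomial (by rw [← smul_eq_C_mul]; exact Submodule.smul_mem _ _ h) k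
  have h2 : ħ • (Polynomial.X ^ k * jn R a) ∈ M R s := Submodule.smul_mem _ _ (M_pow (M_jn h) k)
  have h3 : Polynomial.C a * cutw R k - Polynomial.C (X 0) * (Polynomial.monomial k a).divX ∈
      M R s := by
    cases k with
    | zero => simp [cutw]
    | succ k =>
      have e : (Polynomial.monomial (k + 1) a).divX = Polynomial.monomial k a := by
        ext1 i
        simp [Polynomial.coeff_divX, Polynomial.coeff_monomial]
      rw [e, cutw, sum_range_succ', mul_add, mul_sum]
      simp only [Polynomial.C_mul_monomial, Nat.add_sub_cancel, Nat.sub_zero]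
      rw [mul_comm (X 0) a, add_sub_cancel_right]
      exact Submodule.sum_mem _ fun j _ => M_monomial (N_X h j) _
  rw [Lx_monomial]
  convert add_mem (add_mem h1 h2) h3 using 1
  abel

lemma step (ε ħ : R) (h : v ∈ M R s) : Lx ε ħ v - Polynomial.C (X 0) * v.divX ∈ M R s := by
  have e : v.divX = ∑ i ∈ v.support, (Polynomial.monomial i (v.coeff i)).divX := by
    conv_lhs => rw [v.as_sum_support]
    exact map_sum Polynomial.divX_hom _ _
  rw [e]
  conv => enter [2, 1, 2]; rw [v.as_sum_support]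
  rw [map_sum, mul_sum, ← sum_sub_distrib]
  exact Submodule.sum_mem _ fun i _ => step_mon ε ħ (h i) i

lemma iter (ε ħ : R) (h : v ∈ M R (s + 1)) (m : ℕ) :
    Polynomial.C (X 0 ^ m) * Polynomial.divX^[m] v ∈ M R (s + m + 1) ∧
      (Lx ε ħ ^ m) v - Polynomial.C (X 0 ^ m) * Polynomial.divX^[m] v ∈ M R (s + m) := by
  induction m with
  | zero => exact ⟨by simpa using h, by simp⟩
  | succ m ih =>
    have e : Polynomial.C (X 0 ^ (m + 1)) * Polynomial.divX^[m + 1] v = Polynomial.C (X 0) *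
        (Polynomial.C (X 0 ^ m) * Polynomial.divX^[m] v).divX := by
      rw [Polynomial.divX_C_mul, Function.iterate_succ_apply', pow_succ', map_mul, mul_assoc]
    rw [e]
    refine ⟨M_top ih.1, ?_⟩
    have k := add_mem (step ε ħ ih.1) (add_mem (M_mono (step ε ħ ih.2)) (M_top ih.2))
    rw [sub_add_cancel, map_sub, sub_add_sub_cancel'] at k
    rw [pow_succ', Module.End.mul_apply]
    exact k

lemma coeff_iter (v : Vw R) (m i : ℕ) : (Polynomial.divX^[m] v).coeff i = v.coeff (i + m) := by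
  induction m generalizing i with
  | zero => rfl
  | succ m ih => rw [Function.iterate_succ_apply', Polynomial.coeff_divX, ih, add_assoc, add_comm 1]

lemma entry (ε ħ : R) (j : ℕ) (p e : ℕ →₀ ℕ) (h : p 0 ≤ e 0) :
    coeff (e + Finsupp.single 0 (j + 1)) (It ε ħ (j + 1) (monomial p 1)) =
      if p = e + Finsupp.single j 1 then ((j + 1) * (e j + 1) : ℕ) else 0 := by
  have h0 : (monomial p 1 : La R) ∈ N R (p 0 + 1) := fun d hd => by
    rw [coeff_monomial, if_neg]
    rintro rfl
    omega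
  have h1 := (iter ε ħ (M_jn h0) (j + 1)).2 0 (e + Finsupp.single 0 (j + 1)) (by simpa using h)
  rw [Polynomial.coeff_sub, coeff_sub, sub_eq_zero] at h1
  rw [It_apply, h1, Polynomial.coeff_C_mul, coeff_iter, zero_add, coeff_jn_succ, X_pow_eq_monomial,
    add_comm e, coeff_monomial_mul, one_mul, ← nsmul_eq_mul, coeff_smul, coeff_pderiv,
    coeff_monomial]
  split_ifs
  · simp [mul_add]
  · simp

lemma le_n {n : ℕ} (π : n.Partition) : dOf π 0 ≤ n := by
  have := wt_eq (dOf π) (insert 0 (dOf π).support) (subset_insert _ _)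
  rw [wt_dOf] at this
  have h := single_le_sum (f := fun k => (k + 1) * dOf π k) (fun _ _ => Nat.zero_le _)
    (mem_insert_self 0 (dOf π).support)
  omega

lemma eq_ones {n : ℕ} (ν : n.Partition) (h : ∀ j, dOf ν (j + 1) = 0) : ν = ones n := by
  have key : ∀ π : n.Partition, (∀ j, dOf π (j + 1) = 0) → dOf π 0 = n := fun π hπ => by
    have := wt_eq (dOf π) {0} fun k hk => by
      cases k with
      | zero => simp
      | succ k => simp [hπ k] at hk
    simpa [wt_dOf] using this.symm
  have h1 : ∀ j, dOf (ones n) (j + 1) = 0 := fun j => by simp [dOf, ones, Multiset.count_replicate]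
  apply dOf_inj
  ext k
  cases k with
  | zero => rw [key ν h, key _ h1]
  | succ k => rw [h, h1]

lemma wt_single0 (k : ℕ) : wt (Finsupp.single 0 k) = k := by simp [wt]

end MJB.SPAN

namespace MJB
open MJ Finset MvPolynomial SPAN

theorem st_SPAN_of : st_SPAN := by
  intro R _ _ ε ħ n ν
  let S := Algebra.adjoin R (Set.range (Im ε ħ n))
  suffices ∀ k (ν : n.Partition), n - dOf ν 0 = k →
      ∃ A ∈ S, ∀ π, A π (ones n) = if π = ν then 1 else 0 from this _ ν rfl
  intro k
  induction k using Nat.strong_induction_on with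
  | _ k ih =>
  intro ν hk
  by_cases h : ∀ j, dOf ν (j + 1) = 0
  · exact ⟨1, one_mem _, fun π => by rw [eq_ones ν h, Matrix.one_apply]⟩
  obtain ⟨j, hj⟩ := not_forall.1 h
  have IH : ∀ π : n.Partition, ∃ A ∈ S, dOf ν 0 < dOf π 0 →
      ∀ π', A π' (ones n) = if π' = π then 1 else 0 := fun π => by
    by_cases c : dOf ν 0 < dOf π 0
    · have := le_n π
      obtain ⟨A, h1, h2⟩ := ih _ (by omega) π rfl
      exact ⟨A, h1, fun _ => h2⟩
    · exact ⟨1, one_mem _, fun h => absurd h c⟩
  choose B hB hB' using IH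
  obtain ⟨e, he⟩ : ∃ e, dOf ν = e + Finsupp.single (j + 1) 1 :=
    ⟨_, (Finsupp.sub_add_single_one_cancel hj).symm⟩
  have e0 : dOf ν 0 = e 0 := by simp [he]
  obtain ⟨ρ, hρ⟩ : ∃ ρ : n.Partition, dOf ρ = e + Finsupp.single 0 (j + 1 + 1) := exists_dOf (by
    have := wt_dOf ν
    rw [he, wt_add, wt_single] at this
    rw [wt_add, wt_single0, this])
  have hρ0 : dOf ν 0 < dOf ρ 0 := by
    rw [hρ, e0]
    simp
  set c : ℕ := (j + 1 + 1) * (e (j + 1) + 1) with hc
  have hinv : algebraMap ℚ R (c : ℚ)⁻¹ * (c : R) = 1 := by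
    rw [← map_natCast (algebraMap ℚ R), ← map_mul, inv_mul_cancel₀ (by positivity), map_one]
  refine ⟨algebraMap ℚ R (c : ℚ)⁻¹ • (Im ε ħ n (j + 1 + 1) * B ρ -
    ∑ π ∈ univ.filter fun π => dOf ν 0 < dOf π 0, Im ε ħ n (j + 1 + 1) π ρ • B π),
    S.smul_mem (sub_mem (mul_mem (Algebra.subset_adjoin ⟨_, rfl⟩) (hB ρ))
      (sum_mem fun π _ => S.smul_mem (hB π) _)) _, fun π => ?_⟩
  have a1 : (Im ε ħ n (j + 1 + 1) * B ρ) π (ones n) = Im ε ħ n (j + 1 + 1) π ρ := by
    simp [Matrix.mul_apply, hB' ρ hρ0]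
  have a2 : (∑ π ∈ univ.filter fun π => dOf ν 0 < dOf π 0, Im ε ħ n (j + 1 + 1) π ρ • B π) π
      (ones n) = if dOf ν 0 < dOf π 0 then Im ε ħ n (j + 1 + 1) π ρ else 0 := by
    rw [Matrix.sum_apply, sum_congr rfl fun π' hπ' => by
      rw [Matrix.smul_apply, hB' π' (mem_filter.1 hπ').2]]
    simp
  rw [Matrix.smul_apply, Matrix.sub_apply, a1, a2, smul_eq_mul]
  by_cases c1 : dOf ν 0 < dOf π 0
  · have : π ≠ ν := by
      rintro rfl
      omega
    simp [c1, this]
  · rw [if_neg c1, sub_zero, Im_apply, hρ, entry ε ħ (j + 1) _ e (by omega), ← he]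
    by_cases c2 : π = ν
    · rw [if_pos c2, if_pos (by rw [c2]), hinv]
    · rw [if_neg c2, if_neg fun q => c2 (dOf_inj q)]
      simp

end MJB
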