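import Pool.Agent.Lib.MP_9c49f6_co.JB1

/-! The operators `It` preserve the lexicographic flag of monomial symmetric functions. -/

namespace MJB.TRI
open MJ Finset MvPolynomial

variable {F : Type} [Field F]

/-- `w ↦ x`, `p_j ↦ p_j + x^j` -/
noncomputable def Ps (F : Type) [Field F] : Vw F →ₐ[F] Vw F :=
  Polynomial.eval₂AlgHom (Phi (c1 F)) Polynomial.X (fun _ => Commute.all _ _)

lemma Ps_C (a : La F) : Ps F (Polynomial.C a) = Phi (c1 F) a := by simp [Ps]
lemma Ps_X : Ps F Polynomial.X = Polynomial.X := by simp [Ps]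
lemma Ps_monomial (k : ℕ) (a : La F) :
    Ps F (Polynomial.monomial k a) = Phi (c1 F) a * Polynomial.X ^ k := by
  rw [← Polynomial.C_mul_X_pow_eq_monomial, map_mul, map_pow, Ps_C, Ps_X]

/-- `Ps` after dividing by `w^r` -/
noncomputable def TT (r : ℕ) : Vw F →ₗ[F] Vw F :=
  Polynomial.lsum fun k => if r ≤ k then
    LinearMap.mulRight F (Polynomial.X ^ (k - r) : Vw F) ∘ₗ (Phi (c1 F)).toLinearMap else 0

lemma TT_monomial (r k : ℕ) (a : La F) : TT r (Polynomial.monomial k a) =
    if r ≤ k then Phi (c1 F) a * Polynomial.X ^ (k - r) else 0 := by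
  simp only [TT, Polynomial.lsum_apply]
  rw [Polynomial.sum_monomial_index _ _ (by simp)]
  split_ifs <;> simp

lemma TT_zero (v : Vw F) : TT 0 v = Ps F v := by
  induction v using Polynomial.induction_on' with
  | add p q hp hq => simp only [map_add, hp, hq]
  | monomial k a => simp [TT_monomial, Ps_monomial]

lemma TT_succ (r : ℕ) (v : Vw F) :
    TT r v = Polynomial.X * TT (r+1) v + Phi (c1 F) (v.coeff r) := by
  induction v using Polynomial.induction_on' with
  | add p q hp hq => simp only [map_add, Polynomial.coeff_add]; rw [hp, hq]; ring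
  | monomial k a =>
    rw [TT_monomial, TT_monomial, Polynomial.coeff_monomial]
    rcases lt_trichotomy r k with h | rfl | h
    · obtain ⟨j, rfl⟩ := Nat.exists_eq_add_of_lt h
      rw [if_pos (by omega), if_pos (by omega), if_neg (by omega), map_zero,
        show r + j + 1 - r = j + 1 by omega, show r + j + 1 - (r+1) = j by omega]
      ring
    · simp
    · rw [if_neg (by omega), if_neg (by omega), if_neg (by omega)]; simp

/-- coefficientwise `Sh` -/
noncomputable def SS (j : ℕ) : Vw F →ₗ[F] Vw F :=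
  Polynomial.lsum fun k => (Polynomial.monomial k).restrictScalars F ∘ₗ Sh (c1 F) j

lemma SS_monomial (j k : ℕ) (a : La F) :
    SS j (Polynomial.monomial k a) = Polynomial.monomial k (Sh (c1 F) j a) := by
  simp only [SS, Polynomial.lsum_apply]
  rw [Polynomial.sum_monomial_index _ _ (by simp)]
  simp

lemma coeff_SS (j : ℕ) (v : Vw F) (i : ℕ) : (SS j v).coeff i = Sh (c1 F) j (v.coeff i) := by
  induction v using Polynomial.induction_on' with
  | add p q hp hq => simp only [map_add, Polynomial.coeff_add, hp, hq]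
  | monomial k a =>
    rw [SS_monomial, Polynomial.coeff_monomial, Polynomial.coeff_monomial]
    split_ifs <;> simp

lemma Sh_pderiv (r : ℕ) (a : La F) : ∀ j : ℤ,
    Sh (c1 F) j (pderiv r a) = pderiv r (Sh (c1 F) j a) := by
  induction a using lam_ind with
  | hC c => intro j; rw [Sh_C]; split_ifs <;> simp
  | hadd f g hf hg => intro j; simp only [map_add, hf, hg]
  | hX f k hf =>
    intro j
    rw [pderiv_mul, map_add, Sh_X_mul, Sh_X_mul, map_add, pderiv_mul, hf, hf, Derivation.map_smul,
      pderiv_X]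
    by_cases h : k = r
    · subst h; simp [add_assoc]
    · simp [Pi.single_eq_of_ne h]

lemma Sh_C_mul (j : ℤ) (c : F) (a : La F) : Sh (c1 F) j (C c * a) = C c * Sh (c1 F) j a := by
  rw [← smul_eq_C_mul, map_smul, smul_eq_C_mul]

lemma Sh_jn (j : ℤ) (a : La F) (r : ℕ) :
    Sh (c1 F) j ((jn F a).coeff r) = (jn F (Sh (c1 F) j a)).coeff r := by
  cases r with
  | zero => simp [coeff_jn_zero]
  | succ r =>
    rw [coeff_jn_succ, coeff_jn_succ, ← map_natCast (C : F →+* La F), Sh_C_mul, Sh_pderiv]

lemma coeff_cutw (k i : ℕ) : (cutw F k).coeff i = if i < k then X (k - 1 - i) else 0 := by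
  rw [cutw, Polynomial.finsetSum_coeff]
  simp only [Polynomial.coeff_monomial]
  split_ifs with h
  · rw [sum_eq_single (k - 1 - i), if_pos (by omega)]
    · intro b hb h1; rw [if_neg (by simp at hb; omega)]
    · intro h1; exact absurd (mem_range.mpr (by omega)) h1
  · exact sum_eq_zero fun b hb => if_neg (by simp at hb; omega)

lemma SS_Lx (ε ħ : F) (j i : ℕ) (v : Vw F) : (SS j (Lx ε ħ v)).coeff i =
    (Lx ε ħ (SS j v)).coeff i + (Polynomial.X * TT (i+1) v).coeff j := by
  induction v using Polynomial.induction_on' with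
  | add p q hp hq => simp only [map_add, mul_add, Polynomial.coeff_add, hp, hq]; ring
  | monomial k a =>
    rw [SS_monomial, coeff_SS, Lx_monomial, Lx_monomial, TT_monomial]
    simp only [Polynomial.coeff_add, map_add, Polynomial.coeff_smul, map_smul,
      Polynomial.coeff_C_mul, Polynomial.coeff_monomial, coeff_cutw, Polynomial.coeff_X_pow_mul']
    have h1 : Sh (c1 F) j (if k = i then C (ε * k) * a else 0) =
        if k = i then C (ε * k) * Sh (c1 F) j a else 0 := by
      split_ifs
      · exact Sh_C_mul _ _ _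
      · exact map_zero _
    have h2 : Sh (c1 F) j (if k ≤ i then (jn F a).coeff (i - k) else 0) =
        if k ≤ i then (jn F (Sh (c1 F) j a)).coeff (i - k) else 0 := by
      split_ifs
      · exact Sh_jn _ _ _
      · exact map_zero _
    rw [h1, h2]
    by_cases h : i < k
    · obtain ⟨s, rfl⟩ := Nat.exists_eq_add_of_lt h
      rw [if_pos h, if_pos (show i + 1 ≤ i + s + 1 by omega),
        show i + s + 1 - 1 - i = s by omega, show i + s + 1 - (i+1) = s by omega, mul_comm a,
        Sh_X_mul]
      have h3 : (Polynomial.X * (Phi (c1 F) a * Polynomial.X ^ s)).coeff j =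
          Sh (c1 F) (j - (s+1)) a := by
        rw [← pz_nat, Sh_apply, ← Nat.cast_succ, ← pz_X_pow_mul]; congr 1; rw [pow_succ]; ring
      rw [h3]; simp only [c1, one_smul]; ring
    · rw [if_neg h, if_neg (show ¬ i + 1 ≤ k by omega)]; simp

lemma Ps_jn (a : La F) :
    Ps F (jn F a) = Polynomial.X * Polynomial.derivative (Phi (c1 F) a) := by
  induction a using lam_ind with
  | hC c => simp [jn_C, Phi_C]
  | hadd f g hf hg => simp only [map_add, hf, hg, mul_add]
  | hX f k hf =>
    rw [jn_mul, map_add, map_mul, map_mul, Ps_C, Ps_C, hf, jn_X, Ps_monomial, map_mul,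
      Polynomial.derivative_mul, map_natCast, Phi_X]
    simp [c1, Polynomial.derivative_X_pow]; ring

lemma Ps_cutw (k : ℕ) : Ps F (cutw F k) = cutw F k + (k : Vw F) * Polynomial.X ^ k := by
  rw [cutw, map_sum, ← nsmul_eq_mul]
  conv_rhs => rw [← card_range k, ← sum_const, card_range, ← sum_add_distrib]
  refine sum_congr rfl fun j hj => ?_
  obtain ⟨s, rfl⟩ := Nat.exists_eq_add_of_lt (mem_range.mp hj)
  rw [Ps_monomial, Phi_X, ← Polynomial.C_mul_X_pow_eq_monomial, show j + s + 1 - 1 - j = s by omega]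
  simp [c1]; ring

lemma Ps_Lx (α : F) (v : Vw F) : ∃ N0 : ℕ, ∀ N, N0 ≤ N → Ps F (Lx (α - 1) α v) =
    α • (Polynomial.X * Polynomial.derivative (Ps F v)) +
      ∑ r ∈ range N, Polynomial.C (X r) * TT (r+1) v := by
  induction v using Polynomial.induction_on' with
  | add p q hp hq =>
    obtain ⟨a, ha⟩ := hp
    obtain ⟨b, hb⟩ := hq
    refine ⟨max a b, fun N hN => ?_⟩
    simp only [map_add, mul_add, sum_add_distrib, smul_add, ha N (by omega), hb N (by omega)]
    ring
  | monomial k a =>
    refine ⟨k, fun N hN => ?_⟩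
    have h1 : ∑ r ∈ range N, Polynomial.C (X r) * TT (r+1) (Polynomial.monomial k a) =
        Phi (c1 F) a * cutw F k := by
      rw [cutw, mul_sum, ← sum_subset (range_subset_range.mpr hN)]
      · refine sum_congr rfl fun j hj => ?_
        rw [TT_monomial, if_pos (by simp at hj; omega), ← Polynomial.C_mul_X_pow_eq_monomial,
          show k - (j+1) = k - 1 - j by omega]
        ring
      · intro j _ hj
        rw [TT_monomial, if_neg (by simp at hj; omega), mul_zero]
    have h2 : (Polynomial.X * Polynomial.derivative (Polynomial.X ^ k) : Vw F) =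
        (k : Vw F) * Polynomial.X ^ k := by
      cases k with
      | zero => simp
      | succ k => rw [Polynomial.derivative_X_pow]; simp; ring
    rw [h1, Lx_monomial, map_add, map_add, map_smul, Ps_monomial, Ps_monomial, map_mul (Ps F),
      map_mul (Ps F), map_pow, Ps_X, Ps_jn, Ps_C, Ps_cutw, map_mul, Phi_C,
      Polynomial.derivative_mul]
    simp only [Algebra.smul_def, Polynomial.algebraMap_apply, algebraMap_eq, map_mul, map_sub,
      map_one, map_natCast]
    linear_combination (-(Polynomial.C (C α)) * Phi (c1 F) a) * h2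

/-- the invariant -/
structure Inv (α : F) (k : ℕ) (g : La F) (v : Vw F) : Prop where
  ha : ∀ j, k < j → SS j v = 0
  hb : ∀ s, k < s → (Ps F v).coeff s = 0
  hc : ∃ β : F, (Ps F v).coeff k = β • g
  hd : SS k v ∈ Submodule.span F (Set.range fun i : ℕ => (Lx (α - 1) α ^ i) (Polynomial.C g))

lemma Inv.tt {α : F} {k : ℕ} {g : La F} {v : Vw F} (h : Inv α k g v) (r : ℕ) :
    ∀ s, k ≤ s → (TT (r+1) v).coeff s = 0 := by
  have key : ∀ r s, k ≤ s → (TT (r+1) v).coeff s = (TT r v).coeff (s+1) := by
    intro r s hs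
    rw [TT_succ r v, Polynomial.coeff_add, Polynomial.coeff_X_mul, ← Sh_nat, ← coeff_SS,
      h.ha _ (by omega)]
    simp
  induction r with
  | zero => intro s hs; rw [key _ _ hs, TT_zero, h.hb _ (by omega)]
  | succ r ih => intro s hs; rw [key _ _ hs, ih _ (by omega)]

lemma Inv.step {α : F} {k : ℕ} {g : La F} {v : Vw F} (h : Inv α k g v) :
    Inv α k g (Lx (α - 1) α v) := by
  have h1 : ∀ s, k ≤ s → (Ps F (Lx (α - 1) α v)).coeff s = (α * s) • (Ps F v).coeff s := by
    intro s hs
    obtain ⟨N, hN⟩ := Ps_Lx α v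
    rw [hN N le_rfl, Polynomial.coeff_add, Polynomial.finsetSum_coeff, sum_eq_zero, add_zero,
      Polynomial.coeff_smul, mul_smul]
    · congr 1
      cases s with
      | zero => simp
      | succ s =>
        rw [Polynomial.coeff_X_mul, Polynomial.coeff_derivative, Nat.cast_smul_eq_nsmul,
          nsmul_eq_mul, mul_comm]
        simp
    · intro r _; rw [Polynomial.coeff_C_mul, h.tt r s hs, mul_zero]
  obtain ⟨β, hβ⟩ := h.hc
  refine ⟨fun j hj => ?_, fun s hs => ?_, ⟨α * k * β, ?_⟩, ?_⟩
  · ext i : 1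
    obtain ⟨s, rfl⟩ : ∃ s, j = s + 1 := ⟨j - 1, by omega⟩
    rw [SS_Lx, h.ha _ hj, Polynomial.coeff_X_mul, h.tt i s (by omega)]; simp
  · rw [h1 s hs.le, h.hb s hs, smul_zero]
  · rw [h1 k le_rfl, hβ, smul_smul]
  · have h2 : SS k (Lx (α - 1) α v) =
        Lx (α - 1) α (SS k v) - SS k v + β • Polynomial.C g := by
      ext i : 1
      have h3 := congrArg (fun P => Polynomial.coeff P k) (TT_succ i v)
      simp only [Polynomial.coeff_add] at h3
      rw [← Sh_nat, ← coeff_SS] at h3
      have h4 : (TT i v).coeff k = (β • Polynomial.C g : Vw F).coeff i := by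
        cases i with
        | zero => rw [TT_zero, hβ]; simp
        | succ i => rw [h.tt i k le_rfl]; simp
      rw [SS_Lx, Polynomial.coeff_add, Polynomial.coeff_sub, ← h4, h3]; ring
    rw [h2]
    refine add_mem (sub_mem ?_ h.hd) (Submodule.smul_mem _ _ (Submodule.subset_span ⟨0, rfl⟩))
    refine Submodule.span_induction (fun x ⟨i, hi⟩ => ?_) ?_ (fun x y _ _ hx hy => ?_)
      (fun c x _ hx => ?_) h.hd
    · exact Submodule.subset_span ⟨i + 1, by rw [← hi]; simp only [pow_succ']; rfl⟩
    · rw [map_zero]; exact zero_mem _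
    · rw [map_add]; exact add_mem hx hy
    · rw [map_smul]; exact Submodule.smul_mem _ _ hx

lemma inv_pow (α : F) (k : ℕ) (f : La F) (h : ∀ j : ℕ, k < j → Sh (c1 F) j f = 0) (m : ℕ) :
    Inv α k (Sh (c1 F) k f) ((Lx (α - 1) α ^ m) (Polynomial.C f)) := by
  induction m with
  | zero =>
    have e : ∀ j : ℕ, SS j (Polynomial.C f) = Polynomial.C (Sh (c1 F) j f) := fun j => by
      rw [← Polynomial.monomial_zero_left, SS_monomial, Polynomial.monomial_zero_left]
    rw [pow_zero, Module.End.one_apply]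
    refine ⟨fun j hj => by rw [e, h j hj, map_zero], fun s hs => ?_, ⟨1, ?_⟩, ?_⟩
    · rw [Ps_C, ← Sh_nat, h s hs]
    · rw [Ps_C, ← Sh_nat, one_smul]
    · rw [e]; exact Submodule.subset_span ⟨0, rfl⟩
  | succ m ih => rw [pow_succ', Module.End.mul_apply]; exact ih.step

variable [CharZero F]

lemma flag (α : F) (L : List ℕ) (hL : ∀ x ∈ L, 0 < x) : ∀ {d : ℤ} {f : La F}, f ∈ Hm F d →
    (∀ L' : List ℕ, (∀ x ∈ L', 0 < x) → L < L' → cf L' f = 0) → ∀ (m : ℕ) (L' : List ℕ),
    (∀ x ∈ L', 0 < x) → L < L' →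
      cf L' (((Lx (α - 1) α ^ m) (Polynomial.C f)).coeff 0) = 0 := by
  have key : ∀ {d : ℤ} {f : Lam F} (j : ℕ), f ∈ Hm F d →
      (∀ L' : List ℕ, (∀ x ∈ L', 0 < x) → cf (j :: L') f = 0) → Sh (c1 F) j f = 0 :=
    fun {d f} j hf h => cf_inj ((d - j).toNat + 1) (by omega) (Sh_Hm (c1 F) j hf) h
  induction L with
  | nil =>
    intro d f hf h m L' hL' hlt
    have h1 := inv_pow α 0 f (fun j hj => key j hf fun L' hL' => h _ (by
      simp only [List.mem_cons, forall_eq_or_imp]; exact ⟨hj, hL'⟩) (by simp)) m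
    cases L' with
    | nil => simp at hlt
    | cons j L' => rw [cf_cons, ← coeff_SS, h1.ha j (hL' j (by simp))]; simp
  | cons k L ih =>
    intro d f hf h m L' hL' hlt
    simp only [List.mem_cons, forall_eq_or_imp] at hL
    have h1 := inv_pow α k f (fun j hj => key j hf fun L' hL' => h _ (by
      simp only [List.mem_cons, forall_eq_or_imp]; exact ⟨by omega, hL'⟩)
      (List.cons_lt_cons_iff.mpr (Or.inl hj))) m
    cases L' with
    | nil => simp at hlt
    | cons j L' =>
      simp only [List.mem_cons, forall_eq_or_imp] at hL'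
      rw [cf_cons, ← coeff_SS]
      rcases List.cons_lt_cons_iff.mp hlt with h2 | ⟨rfl, h2⟩
      · rw [h1.ha j h2]; simp
      · refine Submodule.span_induction (p := fun x _ => cf L' (x.coeff 0) = 0)
          (fun x hx => ?_) (by simp) (fun x y _ _ hx hy => ?_) (fun c x _ hx => ?_) h1.hd
        · obtain ⟨i, rfl⟩ := hx
          refine ih hL.2 (Sh_Hm (c1 F) k hf) (fun L'' hL'' h3 => ?_) i L' hL'.2 h2
          refine h (k :: L'') ?_ (List.cons_lt_cons_iff.mpr (Or.inr ⟨rfl, h3⟩))
          simp only [List.mem_cons, forall_eq_or_imp]; exact ⟨hL.1, hL''⟩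
        · rw [Polynomial.coeff_add, map_add, hx, hy, add_zero]
        · rw [Polynomial.coeff_smul, map_smul, hx, smul_zero]

lemma cf_proj {n : ℕ} (k : n.Partition) (g : La F) :
    cf (lst k) (Th fun μ : n.Partition => coeff (dOf μ) g) = cf (lst k) g := by
  induction g using MvPolynomial.induction_on' with
  | monomial d c =>
    by_cases h : wt d = n
    · rw [← eq_Th (h ▸ monomial_mem_Hm d c)]
    · have h1 : (fun μ : n.Partition => coeff (dOf μ) (monomial d c : La F)) = 0 := by
        funext μ; rw [coeff_monomial, if_neg]; · rfl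
        rintro rfl; exact h (wt_dOf μ)
      rw [h1, map_zero, map_zero]
      by_contra hc
      have := cf_Hm (monomial_mem_Hm d c) (Ne.symm hc)
      rw [lst_sum] at this
      exact h (by exact_mod_cast this.symm)
  | add p q hp hq =>
    rw [map_add, ← hp, ← hq, ← map_add, ← map_add]
    congr 2

end MJB.TRI

namespace MJB
open MJ Finset MvPolynomial

theorem st_TRI_of : st_TRI := by
  intro F _ _ α hα n m a l h k hk
  have h1 : Matrix.vecMul a (Im (α - 1) α n m) =
      fun μ => coeff (dOf μ) (It (α - 1) α m (Th a)) := by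
    funext μ
    rw [Th_apply, map_sum, coeff_sum, Matrix.vecMul, dotProduct]
    refine sum_congr rfl fun π _ => ?_
    rw [Im_apply, ← smul_eq_mul, ← coeff_smul, ← map_smul, smul_monomial, smul_eq_mul, mul_one]
  rw [coeff_sym, h1, TRI.cf_proj]
  apply mul_left_cancel₀ hα
  rw [← smul_eq_mul, ← map_smul, smul_It, mul_zero]
  refine TRI.flag α (lst l) (lst_pos l) (Th_Hm a) (fun L hL h2 => ?_) _ _ (lst_pos k) hk
  by_contra hc
  obtain ⟨k', h3, h4⟩ := cf_list (Th_Hm a) hL hc
  exact h4 (by rw [← coeff_sym]; exact h k' (lt_of_lt_of_le h2 h3))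

end MJB
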