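import Pool.Agent.Lib.MP_9c49f6_co.JB1

/-! Row `UNIV`: the universal structure matrices over `ℚ[ε,ħ]`. -/

namespace MJB
open MJ Finset MvPolynomial

namespace UNIV

variable {n : ℕ} {R : Type} [CommRing R]

/-- conjugation by the diagonal matrix `x ^ len`, times `s` -/
def cj (x y s : R) (A : Mat n R) : Mat n R := fun π μ => s * x ^ len π * y ^ len μ * A π μ

lemma cj_mul {x y : R} (h : x * y = 1) (s t : R) (A B : Mat n R) :
    cj x y s A * cj x y t B = cj x y (s * t) (A * B) := by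
  ext π μ
  simp only [cj, Matrix.mul_apply, mul_sum]
  refine sum_congr rfl fun k _ => ?_
  have : x ^ len k * y ^ len k = 1 := by rw [← mul_pow, h, one_pow]
  linear_combination (s * t * x ^ len π * y ^ len μ * A π k * B k μ) * this

lemma Im_cj (hSC : st_SC) {x y : R} (h : x * y = 1) (ε ħ : R) (m : ℕ) :
    Im (x * ε) (x ^ 2 * ħ) n m = cj x y (x ^ m * y) (Im ε ħ n m) := by
  ext π μ
  have h1 := hSC R ε ħ x n m π μ
  have : x ^ (len μ + 1) * y ^ (len μ + 1) = 1 := by rw [← mul_pow, h, one_pow]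
  simp only [cj]
  linear_combination y ^ (len μ + 1) * h1 - Im (x * ε) (x ^ 2 * ħ) n m π μ * this

lemma zz_pos (μ : n.Partition) : 0 < zz μ :=
  prod_pos fun _ hi => mul_pos (pow_pos (μ.parts_pos (Multiset.mem_toFinset.mp hi)) _)
    (Nat.factorial_pos _)

lemma comm_real (hSC : st_SC) (hSA : st_SA) (hTRI : st_TRI) (hSK : st_SKEW) (e : ℝ) {h : ℝ}
    (hh : 0 < h) (n a b : ℕ) : Im e h n a * Im e h n b = Im e h n b * Im e h n a := by
  have hs : 0 ≤ e ^ 2 + 4 * h := by positivity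
  obtain ⟨x, hx, hq⟩ : ∃ x : ℝ, x ≠ 0 ∧ x ^ 2 + e * x = h := by
    have h1 : ((-e + √(e ^ 2 + 4 * h)) / 2) ^ 2 + e * ((-e + √(e ^ 2 + 4 * h)) / 2) = h := by
      linear_combination (1 / 4 : ℝ) * Real.sq_sqrt hs
    refine ⟨_, fun h0 => ?_, h1⟩
    rw [h0] at h1; linarith
  have hα : 0 < h / x ^ 2 := by positivity
  have h1 : e = x * (h / x ^ 2 - 1) := by field_simp; linarith
  have h2 : h = x ^ 2 * (h / x ^ 2) := by field_simp
  have h3 := hSK ℝ n (zal (h / x ^ 2)) (fun μ => mul_pos (by exact_mod_cast zz_pos μ)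
    (pow_pos hα _)) _ _ (hTRI ℝ _ hα.ne' n a) (hTRI ℝ _ hα.ne' n b) (hSA ℝ _ _ hα.ne' n a)
    (hSA ℝ _ _ hα.ne' n b)
  generalize h / x ^ 2 = α at h1 h2 h3
  have hxy := mul_inv_cancel₀ hx
  rw [h1, h2, Im_cj hSC hxy, Im_cj hSC hxy, cj_mul hxy, cj_mul hxy, h3, mul_comm (x ^ a * x⁻¹)]

lemma eq_of_real {p q : R0} (h : ∀ e t : ℝ, 0 < t → aeval ![e, t] p = aeval ![e, t] q) :
    p = q := by
  apply map_injective (algebraMap ℚ ℝ) (algebraMap ℚ ℝ).injective
  refine funext_set (fun _ => Set.Ioi 0) (fun _ => Set.Ioi_infinite 0) fun v hv => ?_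
  have h1 := h (v 0) (v 1) (hv 1 trivial)
  have h2 : ![v 0, v 1] = v := by ext i; fin_cases i <;> rfl
  rwa [h2, aeval_def, aeval_def, ← eval_map, ← eval_map] at h1

lemma comm_univ (hSC : st_SC) (hM : st_MAP) (hSA : st_SA) (hTRI : st_TRI) (hSK : st_SKEW)
    (n a b : ℕ) : Commute (Im (X 0 : R0) (X 1) n a) (Im (X 0 : R0) (X 1) n b) := by
  ext1 π μ
  refine eq_of_real fun e t ht => ?_
  have h1 := comm_real hSC hSA hTRI hSK e ht n a b
  have h2 := fun m => hM R0 ℝ (aeval ![e, t] : R0 →ₐ[ℚ] ℝ).toRingHom (X 0) (X 1) n m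
  simp only [AlgHom.toRingHom_eq_coe, RingHom.coe_coe, aeval_X, Matrix.cons_val_zero,
    Matrix.cons_val_one] at h2
  have h3 := congrFun (congrFun h1 π) μ
  rw [← h2, ← h2] at h3
  simpa only [Matrix.mul_apply, Matrix.map_apply, map_sum, map_mul] using h3

lemma coeff_scale (p : R0) (d : Fin 2 →₀ ℕ) :
    coeff d (aeval ![(C 2 * X 0 : R0), C 2 ^ 2 * X 1] p) = 2 ^ (d 0 + 2 * d 1) * coeff d p := by
  induction p using MvPolynomial.induction_on' with
  | add p q hp hq => simp only [map_add, coeff_add, hp, hq, mul_add]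
  | monomial u a =>
    have h : aeval ![(C 2 * X 0 : R0), C 2 ^ 2 * X 1] (monomial u a : R0) =
        C (2 ^ (u 0 + 2 * u 1)) * monomial u a := by
      rw [aeval_monomial, monomial_eq, Finsupp.prod_fintype _ _ (by simp),
        Finsupp.prod_fintype _ _ (by simp), Fin.prod_univ_two, Fin.prod_univ_two]
      simp only [Matrix.cons_val_zero, Matrix.cons_val_one, algebraMap_eq, map_pow]
      ring
    rw [h, coeff_C_mul, coeff_monomial]
    split_ifs with hu
    · rw [hu]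
    · simp

lemma len_ones (n : ℕ) : len (ones n) = n := by simp [len, ones]

end UNIV

open UNIV in
theorem st_UNIV_of (hSC : st_SC) (hM : st_MAP) (hSP : st_SPAN) (hSA : st_SA) (hTRI : st_TRI)
    (hSK : st_SKEW) (hQ : st_UNQ) : st_UNIV := by
  intro n
  choose c hc hev using hSP R0 (X 0) (X 1) n
  have hI : ∀ ν m, Commute (c ν) (Im (X 0 : R0) (X 1) n m) := fun ν m =>
    (Algebra.commute_of_mem_adjoin_of_forall_mem_commute (hc ν) (by
      rintro _ ⟨k, rfl⟩; exact comm_univ hSC hM hSA hTRI hSK n m k)).symm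
  have hcc : ∀ ν μ, Commute (c ν) (c μ) := fun ν μ =>
    Algebra.commute_of_mem_adjoin_of_forall_mem_commute (hc μ) (by
      rintro _ ⟨k, rfl⟩; exact hI ν k)
  have hK : IsK (X 0 : R0) (X 1) n c := ⟨hI, hev⟩
  have he : ∀ π μ ν, (c ν * c μ) π (ones n) = c ν π μ := fun π μ ν => by
    simp [Matrix.mul_apply, hev]
  refine ⟨c, hK, fun π μ ν => by rw [← he, hcc ν μ, he], fun ν π μ d hd => ?_⟩
  have hxy : (C 2 : R0) * C 2⁻¹ = 1 := by rw [← C_mul]; norm_num
  have h1 := (hQ R0 (X 0) (X 1) n).2 R0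
    (aeval ![(C 2 * X 0 : R0), C 2 ^ 2 * X 1] : R0 →ₐ[ℚ] R0).toRingHom c hK
  simp only [AlgHom.toRingHom_eq_coe, RingHom.coe_coe, aeval_X, Matrix.cons_val_zero,
    Matrix.cons_val_one] at h1
  have h2 : IsK (C 2 * X 0 : R0) (C 2 ^ 2 * X 1) n
      fun ν => cj (C 2) (C 2⁻¹) (C 2 ^ n * C 2⁻¹ ^ len ν) (c ν) := by
    refine ⟨fun ν m => ?_, fun ν π => ?_⟩
    · rw [Im_cj hSC hxy, cj_mul hxy, cj_mul hxy, hI ν m, mul_comm (C 2 ^ m * _ : R0)]
    · simp only [cj, hev, len_ones]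
      split_ifs with h
      · subst h
        have e1 : (C 2 : R0) ^ n * C 2⁻¹ ^ n = 1 := by rw [← mul_pow, hxy, one_pow]
        have e2 : (C 2 : R0) ^ len π * C 2⁻¹ ^ len π = 1 := by rw [← mul_pow, hxy, one_pow]
        linear_combination (C 2 ^ len π * C 2⁻¹ ^ len π) * e1 + e2
      · rw [mul_zero]
  have h3 := congrArg (coeff d)
    (congrFun (congrFun (congrFun ((hQ R0 _ _ n).1 _ _ h1 h2) ν) π) μ)
  rw [Matrix.map_apply, coeff_scale] at h3
  simp only [cj, ← C_pow, ← C_mul, coeff_C_mul] at h3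
  have h4 := mul_right_cancel₀ hd h3
  have h5 : (2 : ℚ) ^ (d 0 + 2 * d 1 + len μ + len ν) = 2 ^ (n + len π) := by
    rw [pow_add _ _ (len ν), pow_add _ _ (len μ), h4, pow_add, inv_pow, inv_pow]
    field_simp
  exact pow_right_injective₀ (by norm_num) (by norm_num) h5

end MJB
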