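import Pool.Agent.Lib.MP_9c49f6_co.JB0

/-! Uniqueness of the operators `K_ν` and their base change. -/

namespace MJB
open MJ Finset MvPolynomial

namespace UNQ

lemma comm_adjoin {R : Type} [CommRing R] {n : ℕ} (s : Set (Mat n R)) (D : Mat n R)
    (hD : ∀ A ∈ s, D * A = A * D) (A : Mat n R) (hA : A ∈ Algebra.adjoin R s) :
    D * A = A * D := by
  induction hA using Algebra.adjoin_induction with
  | mem x hx => exact hD x hx
  | algebraMap r => exact (Algebra.commutes r D).symm
  | add x y _ _ hx hy => rw [mul_add, add_mul, hx, hy]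
  | mul x y _ _ hx hy => rw [← mul_assoc, hx, mul_assoc, hy, mul_assoc]

end UNQ

theorem st_UNQ_of (hS : st_SPAN) (hM : st_MAP) : st_UNQ := by
  intro R _ _ ε ħ n
  refine ⟨fun c c' hc hc' => ?_, fun S _ φ c hc => ⟨fun ν m => ?_, fun ν π => ?_⟩⟩
  · funext ν
    have hD : ∀ A ∈ Set.range (Im ε ħ n), (c ν - c' ν) * A = A * (c ν - c' ν) := by
      rintro _ ⟨m, rfl⟩
      rw [sub_mul, mul_sub, hc.comm, hc'.comm]
    have h0 : ∀ π, (c ν - c' ν) π (ones n) = 0 := fun π => by
      rw [Matrix.sub_apply, hc.ev, hc'.ev, sub_self]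
    rw [← sub_eq_zero]
    ext1 π μ
    obtain ⟨A, hA, hA1⟩ := hS R ε ħ n μ
    have h := congrFun (congrFun (UNQ.comm_adjoin _ _ hD A hA) π) (ones n)
    rw [Matrix.mul_apply, Matrix.mul_apply] at h
    simp only [hA1, h0, mul_ite, mul_one, mul_zero, Finset.sum_ite_eq', Finset.mem_univ, if_true,
      Finset.sum_const_zero] at h
    exact h
  · rw [← hM R S φ ε ħ n m, ← Matrix.map_mul, ← Matrix.map_mul, hc.comm]
  · rw [Matrix.map_apply, hc.ev]
    split_ifs <;> simp

end MJB
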