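import Pool.Agent.Lib.MP_9c49f6_co.Cf
import Pool.Agent.Lib.MP_9c49f6_co.Defs

/-! Partitions, cells and power sums. -/

namespace MJ
open Finset MvPolynomial

variable {n : ℕ}

lemma lst_sorted (l : n.Partition) : (lst l).Pairwise (· ≥ ·) := Multiset.pairwise_sort _ _
lemma lst_coe (l : n.Partition) : (lst l : Multiset ℕ) = l.parts := Multiset.sort_eq _ _
lemma lst_pos (l : n.Partition) : ∀ x ∈ lst l, 0 < x := fun x hx =>
  l.parts_pos (by rw [← lst_coe]; exact hx)
lemma lst_sum (l : n.Partition) : (lst l).sum = n := by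
  rw [← Multiset.sum_coe, lst_coe, l.parts_sum]
lemma lst_inj : Function.Injective (lst (n := n)) := fun a b h =>
  Nat.Partition.ext (by rw [← lst_coe, ← lst_coe, h])
lemma lst_length (l : n.Partition) : (lst l).length ≤ n := by
  have := List.length_le_sum_of_one_le (lst l) (lst_pos l)
  rwa [lst_sum] at this

lemma lt_getD_iff {L : List ℕ} (hL : L.Pairwise (· ≥ ·)) (j : ℕ) :
    ∀ i, j < L.getD i 0 ↔ i < L.countP (j < ·) := by
  induction L with
  | nil => simp
  | cons a L ih =>
    intro i
    rw [List.pairwise_cons] at hL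
    have h0 : ¬ j < a → L.countP (j < ·) = 0 := fun h => by
      rw [List.countP_eq_zero]; intro x hx; have := hL.1 x hx; simp; omega
    cases i with
    | zero =>
      by_cases h : j < a
      · simp [h]
      · simp [h, h0 h]
    | succ i =>
      rw [List.getD_cons_succ, ih hL.2, List.countP_cons]
      by_cases h : j < a
      · simp [h]
      · simp [h, h0 h]

lemma lt_row_iff (l : n.Partition) (i j : ℕ) : j < row l i ↔ i < col l j := by
  rw [row, lt_getD_iff (lst_sorted l), col, ← Multiset.countP_eq_card_filter, ← lst_coe,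
    Multiset.coe_countP]

lemma col_zero (l : n.Partition) : col l 0 = (lst l).length := by
  rw [col, Multiset.filter_eq_self.mpr fun x hx => l.parts_pos hx, ← lst_coe, Multiset.coe_card]

lemma col_anti (l : n.Partition) {j j' : ℕ} (h : j ≤ j') : col l j' ≤ col l j :=
  Multiset.card_le_card (Multiset.monotone_filter_right _ fun x hx => by omega)

lemma col_le (l : n.Partition) (j : ℕ) : col l j ≤ n :=
  (col_anti l (Nat.zero_le j)).trans (col_zero l ▸ lst_length l)

lemma sum_getD (L : List ℕ) (N : ℕ) (h : L.length ≤ N) : ∑ i ∈ range N, L.getD i 0 = L.sum := by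
  induction L generalizing N with
  | nil => simp
  | cons a L ih =>
    cases N with
    | zero => simp at h
    | succ N =>
      rw [sum_range_succ', List.sum_cons]
      simp only [List.getD_cons_succ, List.getD_cons_zero]
      rw [ih N (by simpa using h), add_comm]

lemma sum_row (l : n.Partition) : ∑ i ∈ range n, row l i = n := by
  simp only [row]; rw [sum_getD _ _ (lst_length l), lst_sum]

lemma row_le (l : n.Partition) (i : ℕ) : row l i ≤ n := by
  by_cases h : i < n
  · exact (single_le_sum (f := row l) (fun _ _ => Nat.zero_le _) (mem_range.mpr h)).trans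
      (sum_row l).le
  · by_contra hc
    have := (lt_row_iff l i 0).mp (by omega)
    have := col_le l 0; omega

def cells (l : n.Partition) : Finset (ℕ × ℕ) :=
  (range n ×ˢ range n).filter fun c => c.2 < row l c.1

lemma mem_cells (l : n.Partition) (c : ℕ × ℕ) : c ∈ cells l ↔ c.2 < row l c.1 := by
  simp only [cells, mem_filter, mem_product, mem_range, and_iff_right_iff_imp]
  intro h
  have h1 := row_le l c.1
  have h2 := (lt_row_iff l _ _).mp h
  have h3 := col_le l c.2
  omega

lemma prod_cells {M : Type} [CommMonoid M] (l : n.Partition) (N : ℕ) (hN : col l 0 ≤ N)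
    (f : ℕ × ℕ → M) : ∏ c ∈ cells l, f c = ∏ i ∈ range N, ∏ j ∈ range (row l i), f (i, j) := by
  rw [prod_sigma']
  refine prod_nbij' (fun c => ⟨c.1, c.2⟩) (fun c => (c.1, c.2)) ?_ ?_ ?_ ?_ ?_ <;>
    simp [mem_cells]
  intro a b h
  have := (lt_row_iff l _ _).mp h
  have := col_anti l (Nat.zero_le b)
  omega

lemma prod_cells' {M : Type} [CommMonoid M] (l : n.Partition)
    (f : ℕ × ℕ → M) : ∏ c ∈ cells l, f c = ∏ j ∈ range n, ∏ i ∈ range (col l j), f (i, j) := by
  rw [prod_sigma']
  refine prod_nbij' (fun c => ⟨c.2, c.1⟩) (fun c => (c.2, c.1)) ?_ ?_ ?_ ?_ ?_ <;>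
    simp [mem_cells, lt_row_iff]
  intro a b h
  have := (lt_row_iff l _ _).mpr h
  have := row_le l a
  omega

lemma sum_cells {M : Type} [AddCommMonoid M] (l : n.Partition) (N : ℕ) (hN : col l 0 ≤ N)
    (f : ℕ × ℕ → M) : ∑ c ∈ cells l, f c = ∑ i ∈ range N, ∑ j ∈ range (row l i), f (i, j) :=
  prod_cells (M := Multiplicative M) l N hN f

lemma card_cells (l : n.Partition) : (cells l).card = n := by
  rw [card_eq_sum_ones, sum_cells l n (col_le l 0)]; simp [sum_row]

lemma cells_lower (l : n.Partition) (c d : ℕ × ℕ) (h : c ∈ cells l) (h1 : d.1 ≤ c.1)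
    (h2 : d.2 ≤ c.2) : d ∈ cells l := by
  rw [mem_cells, lt_row_iff] at *
  have := col_anti l h2; omega

lemma row_ext {a b : n.Partition} (h : ∀ i, row a i = row b i) : a = b := by
  apply lst_inj
  have hl : (lst a).length = (lst b).length := by
    rw [← col_zero, ← col_zero]
    exact eq_of_forall_lt_iff fun i => by rw [← lt_row_iff, ← lt_row_iff, h]
  refine List.ext_getElem hl fun i h1 h2 => ?_
  have := h i
  rwa [row, row, List.getD_eq_getElem _ _ h1, List.getD_eq_getElem _ _ h2] at this

lemma cells_inj : Function.Injective fun i : Σ n : ℕ, n.Partition => cells i.2 := by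
  rintro ⟨n, a⟩ ⟨m, b⟩ h
  simp only at h
  have : n = m := by rw [← card_cells a, h, card_cells]
  subst this
  congr 1
  refine row_ext fun i => eq_of_forall_lt_iff fun j => ?_
  rw [← mem_cells a (i, j), h, mem_cells]

lemma ofFn_row (l : n.Partition) (N : ℕ) (hN : col l 0 ≤ N) :
    List.ofFn (fun i : Fin N => row l i) = lst l ++ List.replicate (N - col l 0) 0 := by
  rw [col_zero] at *
  refine List.ext_getElem (by simp; omega) fun i h1 h2 => ?_
  simp only [List.getElem_ofFn, row, List.getElem_append]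
  split_ifs with h
  · exact List.getD_eq_getElem _ _ h
  · rw [List.getD_eq_default _ _ (by omega)]; simp

/-- exponent vector of `p_μ` -/
noncomputable def dOf (μ : n.Partition) : ℕ →₀ ℕ := Multiset.toFinsupp (μ.parts.map (· - 1))

lemma parts_eq (μ : n.Partition) : (μ.parts.map (· - 1)).map (· + 1) = μ.parts := by
  rw [Multiset.map_map]
  conv_rhs => rw [← Multiset.map_id μ.parts]
  exact Multiset.map_congr rfl fun x hx => by have := μ.parts_pos hx; simp; omega

lemma dOf_inj : Function.Injective (dOf (n := n)) := fun a b h => by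
  apply Nat.Partition.ext
  rw [← parts_eq a, ← parts_eq b, Multiset.toFinsupp.injective h]

lemma prod_dOf {M : Type} [CommMonoid M] (μ : n.Partition) (s : ℕ → M) :
    ((dOf μ).prod fun k e => s (k+1) ^ e) = (μ.parts.map s).prod := by
  conv_rhs => rw [← parts_eq μ, Multiset.map_map, prod_multiset_map_count]
  rfl

lemma wt_toFinsupp (M : Multiset ℕ) : wt (Multiset.toFinsupp M) = (M.map (· + 1)).sum := by
  rw [sum_multiset_map_count, wt, Finsupp.sum]
  exact sum_congr rfl fun k _ => by simp [mul_comm]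

lemma wt_dOf (μ : n.Partition) : wt (dOf μ) = n := by
  rw [dOf, wt_toFinsupp, parts_eq, μ.parts_sum]

lemma exists_dOf {d : ℕ →₀ ℕ} (h : wt d = n) : ∃ μ : n.Partition, dOf μ = d := by
  obtain ⟨M, rfl⟩ := Multiset.toFinsupp.surjective d
  refine ⟨⟨M.map (· + 1), by simp, by rw [← wt_toFinsupp, h]⟩, ?_⟩
  simp [dOf]

lemma zn_dOf (μ : n.Partition) : zn (dOf μ) = zz μ := by
  rw [zz, ← parts_eq μ, Multiset.toFinset_map, prod_image (fun a _ b _ h => by simpa using h)]
  refine prod_congr rfl fun k _ => ?_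
  rw [Multiset.count_map_eq_count' _ _ (add_left_injective 1)]; rfl

variable {F : Type} [Field F]

lemma prod_mono (q t : F) (l : n.Partition) :
    ∏ c ∈ cells l, mono q t c = q ^ nCol l * t⁻¹ ^ nRow l := by
  simp only [mono]
  rw [prod_mul_distrib, prod_cells', prod_cells l n (col_le l 0), nCol, nRow, ← prod_pow_eq_pow_sum,
    ← prod_pow_eq_pow_sum]
  simp [pow_mul]

lemma dl_eq (q t : F) (L : List ℕ) (N : ℕ) (h : L.length ≤ N) :
    dl q t L = t⁻¹ ^ N + (1 - t⁻¹) * ∑ i ∈ range N, t⁻¹ ^ i * q ^ L.getD i 0 := by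
  induction L generalizing N with
  | nil =>
    simp only [dl, List.getD_nil, pow_zero, mul_one]
    rw [mul_neg_geom_sum]; ring
  | cons a L ih =>
    cases N with
    | zero => simp at h
    | succ N =>
      rw [sum_range_succ', dl, ih N (by simpa using h)]
      simp only [List.getD_cons_succ, List.getD_cons_zero, pow_succ', mul_assoc, ← mul_sum]
      ring

lemma del_cells (q t : F) (l : n.Partition) : del q t (cells l).val = dl q t (lst l) := by
  rw [dl_eq q t _ n (lst_length l), del, ← Finset.sum_eq_multiset_sum,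
    sum_cells l n (col_le l 0), MM, mul_comm (q - 1), mul_assoc, mul_sum]
  have : ∀ i, (q - 1) * ∑ j ∈ range (row l i), mono q t (i, j) =
      t⁻¹ ^ i * q ^ (lst l).getD i 0 - t⁻¹ ^ i := by
    intro i; simp only [mono, ← sum_mul]; rw [← mul_assoc, mul_geom_sum, row]; ring
  simp only [this]
  rw [sum_sub_distrib, mul_sub, mul_neg_geom_sum]; ring

lemma zd_dOf (q t : F) (μ : n.Partition) : zd q t (dOf μ) = zqt q t μ := by
  rw [zd, zn_dOf, zqt, pw, prod_dOf μ fun i => (1 - q ^ i) / (1 - t ^ i)]

noncomputable def Th : (n.Partition → F) →ₗ[F] Lam F where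
  toFun a := ∑ μ, monomial (dOf μ) (a μ)
  map_add' a b := by simp [sum_add_distrib]
  map_smul' c a := by simp [smul_sum, smul_monomial]

lemma Th_apply (a : n.Partition → F) : Th a = ∑ μ, monomial (dOf μ) (a μ) := rfl

lemma coeff_Th (a : n.Partition → F) (μ : n.Partition) : coeff (dOf μ) (Th a) = a μ := by
  rw [Th_apply, coeff_sum]; simp [coeff_monomial, dOf_inj.eq_iff]

lemma Th_inj : Function.Injective (Th (n := n) (F := F)) := fun a b h => by
  funext μ; rw [← coeff_Th a, h, coeff_Th]

lemma Th_Hm (a : n.Partition → F) : Th a ∈ Hm F n :=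
  Submodule.sum_mem _ fun μ _ => by simpa [wt_dOf] using monomial_mem_Hm (dOf μ) (a μ)

lemma res_Th (a : n.Partition → F) : res F n (Th a) = sym a := by
  rw [Th_apply, map_sum, sym]
  refine sum_congr rfl fun μ _ => ?_
  rw [res, aeval_monomial, prod_dOf, psumPart, Algebra.smul_def]

lemma ip_Th (q t : F) (a b : n.Partition → F) : ip q t (Th a) (Th b) = scal q t a b := by
  rw [Th_apply a, map_sum, LinearMap.sum_apply, scal]
  refine sum_congr rfl fun μ _ => ?_
  rw [ip_monomial, coeff_Th, zd_dOf]; ring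

lemma coeff_res_row (l : n.Partition) (N : ℕ) (hN : col l 0 ≤ N) (f : Lam F) :
    coeff (Finsupp.equivFunOnFinite.symm fun i : Fin N => row l i) (res F N f) = cf (lst l) f := by
  rw [coeff_res, ← cf_zeros (lst l) (N - col l 0), ← ofFn_row l N hN]; rfl

lemma coeff_sym (a : n.Partition → F) (l : n.Partition) :
    coeff (expo l) (sym a) = cf (lst l) (Th a) := by
  rw [← res_Th, expo, coeff_res_row l n (col_le l 0)]

variable [CharZero F]

lemma eq_Th {f : Lam F} (hf : f ∈ Hm F n) : f = Th fun μ : n.Partition => coeff (dOf μ) f := by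
  ext d
  by_cases h : wt d = n
  · obtain ⟨μ, rfl⟩ := exists_dOf h; rw [coeff_Th]
  · have h1 : ∀ g ∈ Hm F n, coeff d g = 0 := fun g hg => by
      by_contra hc; exact h (by exact_mod_cast Hm_coeff hg hc)
    rw [h1 f hf, h1 _ (Th_Hm _)]

lemma cf_list {f : Lam F} (hf : f ∈ Hm F n) {L : List ℕ} (hL : ∀ x ∈ L, 0 < x) (h : cf L f ≠ 0) :
    ∃ k : n.Partition, L ≤ lst k ∧ cf (lst k) f ≠ 0 := by
  have h1 : L.sum = n := by exact_mod_cast cf_Hm hf h
  let k : n.Partition := ⟨L, fun hx => hL _ hx, by simpa using h1⟩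
  have h2 : L.Perm (lst k) := by rw [← Multiset.coe_eq_coe, lst_coe]
  exact ⟨k, perm_le_sorted (lst_sorted k) h2, by rwa [← cf_perm h2]⟩

lemma cf_part_inj {f : Lam F} (hf : f ∈ Hm F n) (h : ∀ k : n.Partition, cf (lst k) f = 0) :
    f = 0 :=
  cf_inj (n+1) (by omega) hf fun L hL => by
    by_contra hc
    obtain ⟨k, _, h2⟩ := cf_list hf hL hc
    exact h2 (h k)

lemma cf_part_DD {q t : F} (ht : t ≠ 0) {f : Lam F} (hf : f ∈ Hm F n) (l : n.Partition)
    (h : ∀ k : n.Partition, lst l < lst k → cf (lst k) f = 0) :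
    cf (lst l) (DD q t 0 f) = del q t (cells l).val * cf (lst l) f := by
  rw [del_cells]
  refine cf_DD ht _ (lst_pos l) hf fun L hL h1 => ?_
  by_contra hc
  obtain ⟨k, h2, h3⟩ := cf_list hf hL hc
  exact h3 (h k (lt_of_lt_of_le h1 h2))

end MJ
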