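import Pool.Agent.Lib.MP_9c49f6_co.JB1
import Pool.Agent.Lib.MP_9c49f6_co.Part

/-! Young's lemma: a filling of shape `ρ` that is injective on the columns of `κ` forces the
row sums of `ρ` below those of `κ`. -/

namespace MJB
open MJ Finset MvPolynomial

namespace YNG

variable {n : ℕ}

lemma lex_first {L M : List ℕ} (hM : ∀ x ∈ M, 0 < x) (h : L < M) :
    ∃ r, (∀ i < r, L.getD i 0 = M.getD i 0) ∧ L.getD r 0 < M.getD r 0 := by
  induction L generalizing M with
  | nil =>
    cases M with
    | nil => simp at h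
    | cons b M => exact ⟨0, by simp, by simpa using hM b (by simp)⟩
  | cons a L ih =>
    cases M with
    | nil => simp at h
    | cons b M =>
      rw [List.cons_lt_cons_iff] at h
      rcases h with h | ⟨h1, h2⟩
      · exact ⟨0, by simp, by simpa using h⟩
      · obtain ⟨r, hr1, hr2⟩ := ih (fun x hx => hM x (by simp [hx])) h2
        refine ⟨r + 1, fun i hi => ?_, by simpa using hr2⟩
        cases i with
        | zero => simpa using h1
        | succ i => simpa using hr1 i (by omega)

lemma card_low {ρ : n.Partition} {f : Fin n → Fin n} (hf : Tab ρ f) (r : ℕ) (hr : r ≤ n) :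
    (univ.filter fun j => (f j : ℕ) < r).card = ∑ i ∈ range r, row ρ i := by
  rw [card_eq_sum_card_fiberwise (f := fun j => (f j : ℕ)) (t := range r)
    (fun j hj => by simpa using hj)]
  refine sum_congr rfl fun i hi => ?_
  have hi' : i < r := mem_range.mp hi
  rw [← hf ⟨i, by omega⟩]
  congr 1
  ext j
  simp only [mem_filter, mem_univ, true_and, Fin.ext_iff]
  omega

noncomputable def en (κ : n.Partition) : Fin n ≃ cells κ :=
  (Finset.equivFinOfCardEq (card_cells κ)).symm

lemma en_lt (κ : n.Partition) (j : Fin n) : (en κ j).1.1 < col κ (en κ j).1.2 :=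
  (lt_row_iff κ _ _).mp ((mem_cells κ _).mp (en κ j).2)

noncomputable def f0 (κ : n.Partition) (j : Fin n) : Fin n :=
  ⟨(en κ j).1.1, (en_lt κ j).trans_le (col_le κ _)⟩

noncomputable def c0 (κ : n.Partition) (j : Fin n) : ℕ := (en κ j).1.2

lemma f0_lt (κ : n.Partition) (j : Fin n) : (f0 κ j : ℕ) < col κ (c0 κ j) := en_lt κ j

lemma c0_lt (κ : n.Partition) (j : Fin n) : c0 κ j < row κ (f0 κ j) :=
  (mem_cells κ _).mp (en κ j).2

lemma exists_cell (κ : n.Partition) {i c : ℕ} (h : c < row κ i) :
    ∃ j, (f0 κ j : ℕ) = i ∧ c0 κ j = c :=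
  ⟨(en κ).symm ⟨(i, c), (mem_cells κ _).mpr h⟩, by simp [f0], by simp [c0]⟩

lemma inj0 (κ : n.Partition) : Function.Injective fun j => (f0 κ j, c0 κ j) := by
  intro a b h
  simp only [Prod.mk.injEq, f0, c0, Fin.mk.injEq] at h
  exact (en κ).injective (Subtype.ext (Prod.ext h.1 h.2))

lemma tab0 (κ : n.Partition) : Tab κ (f0 κ) := by
  intro i
  rw [← card_range (row κ i)]
  refine card_nbij (c0 κ) (fun j hj => ?_) (fun a ha b hb h => ?_) (fun c hc => ?_)
  · have hj' : f0 κ j = i := by simpa using hj
    have := c0_lt κ j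
    rw [hj'] at this
    simpa using this
  · have ha' : f0 κ a = i := by simpa using ha
    have hb' : f0 κ b = i := by simpa using hb
    exact inj0 κ (Prod.ext (ha'.trans hb'.symm) h)
  · obtain ⟨j, h1, h2⟩ := exists_cell κ (i := i) (c := c) (by simpa using hc)
    exact ⟨j, by simpa using Fin.ext h1, h2⟩

lemma fiber_le (κ : n.Partition) {f : Fin n → Fin n}
    (hf : Function.Injective fun j => (f j, c0 κ j)) (r c : ℕ) :
    ((univ.filter fun j => (f j : ℕ) < r).filter fun j => c0 κ j = c).card ≤
      ((univ.filter fun j => (f0 κ j : ℕ) < r).filter fun j => c0 κ j = c).card := by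
  by_cases h : col κ c ≤ r
  · refine card_le_card fun j hj => ?_
    simp only [mem_filter, mem_univ, true_and] at hj ⊢
    have := f0_lt κ j
    rw [hj.2] at this
    exact ⟨by omega, hj.2⟩
  · calc _ ≤ (range r).card := by
          refine card_le_card_of_injOn (fun j => (f j : ℕ)) (fun j hj => ?_)
            (fun a ha b hb hab => ?_)
          · simp only [coe_filter, mem_filter, mem_univ, true_and, Set.mem_ofPred_eq] at hj
            simpa using hj.1
          · simp only [coe_filter, mem_filter, mem_univ, true_and, Set.mem_ofPred_eq] at ha hb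
            exact hf (Prod.ext (Fin.ext hab) (ha.2.trans hb.2.symm))
      _ ≤ _ := by
          refine card_le_card_of_surjOn (fun j => (f0 κ j : ℕ)) (fun i hi => ?_)
          have hi' : i < r := by simpa using hi
          obtain ⟨j, h1, h2⟩ := exists_cell κ (i := i) (c := c)
            ((lt_row_iff κ i c).mpr (by omega))
          refine ⟨j, ?_, h1⟩
          simp only [coe_filter, mem_filter, mem_univ, true_and, Set.mem_ofPred_eq]
          exact ⟨by omega, h2⟩

lemma sum_le (κ ρ : n.Partition) {f : Fin n → Fin n} (ht : Tab ρ f)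
    (hf : Function.Injective fun j => (f j, c0 κ j)) (r : ℕ) (hr : r ≤ n) :
    ∑ i ∈ range r, row ρ i ≤ ∑ i ∈ range r, row κ i := by
  have hc : ∀ j, c0 κ j ∈ range n := fun j =>
    mem_range.mpr ((c0_lt κ j).trans_le (row_le κ _))
  rw [← card_low ht r hr, ← card_low (tab0 κ) r hr,
    card_eq_sum_card_fiberwise (f := c0 κ) (t := range n) (fun j _ => hc j),
    card_eq_sum_card_fiberwise (f := c0 κ) (t := range n) (fun j _ => hc j)]
  exact sum_le_sum fun c _ => fiber_le κ hf r c

end YNG

theorem st_YNG_of : st_YNG := by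
  intro n κ
  refine ⟨YNG.c0 κ, ⟨YNG.f0 κ, YNG.tab0 κ, YNG.inj0 κ⟩, fun ρ hlt f ht hf => ?_⟩
  obtain ⟨r, h1, h2⟩ := YNG.lex_first (lst_pos ρ) hlt
  have h2' : row κ r < row ρ r := h2
  have hr : r < n := ((lt_row_iff ρ r 0).mp (by omega)).trans_le (col_le ρ 0)
  have h3 := YNG.sum_le κ ρ ht hf (r + 1) hr
  rw [sum_range_succ, sum_range_succ] at h3
  have h4 : ∑ i ∈ range r, row κ i = ∑ i ∈ range r, row ρ i :=
    sum_congr rfl fun i hi => h1 i (mem_range.mp hi)
  omega

end MJB
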