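import Pool.Agent.Lib.MP_9c49f6_co.JB_A01
import Pool.Agent.Lib.MP_9c49f6_co.JB_CLS
import Pool.Agent.Lib.MP_9c49f6_co.JB_CLT
import Pool.Agent.Lib.MP_9c49f6_co.JB_FIX
import Pool.Agent.Lib.MP_9c49f6_co.JB_JK
import Pool.Agent.Lib.MP_9c49f6_co.JB_MAIN
import Pool.Agent.Lib.MP_9c49f6_co.JB_MAP
import Pool.Agent.Lib.MP_9c49f6_co.JB_S1
import Pool.Agent.Lib.MP_9c49f6_co.JB_SA
import Pool.Agent.Lib.MP_9c49f6_co.JB_SC
import Pool.Agent.Lib.MP_9c49f6_co.JB_SKEW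
import Pool.Agent.Lib.MP_9c49f6_co.JB_SPAN
import Pool.Agent.Lib.MP_9c49f6_co.JB_TRI
import Pool.Agent.Lib.MP_9c49f6_co.JB_UNIV
import Pool.Agent.Lib.MP_9c49f6_co.JB_UNQ
import Pool.Agent.Lib.MP_9c49f6_co.JB_YNG

/-! The polynomial half, assembled. -/

namespace MJB

theorem unq : st_UNQ := st_UNQ_of st_SPAN_of st_MAP_of

theorem univ_ex : st_UNIV :=
  st_UNIV_of st_SC_of st_MAP_of st_SPAN_of st_SA_of st_TRI_of st_SKEW_of unq

theorem jk : st_JK := st_JK_of st_SA_of st_TRI_of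

theorem s1 : st_S1 :=
  st_S1_of st_CLS_of (st_CLT_of st_CLS_of st_FIX_of st_YNG_of) st_SKEW_of st_TRI_of st_SA_of unq

theorem main_of_core (hC : st_CORE) : st_MAIN :=
  st_MAIN_of hC univ_ex jk unq (st_A01_of hC jk unq) s1

end MJB
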