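import Pool.Agent.Lib.MP_9c49f6_co.JB1

/-! Row `SKEW`: two flag-preserving matrices that are self-adjoint for a positive diagonal form
commute. -/

namespace MJB
open MJ Finset MvPolynomial

namespace SKEW

variable {n : ℕ} {K : Type} [Field K]

/-- transition matrix from power sums to monomials -/
noncomputable def Cm (n : ℕ) (K : Type) [Field K] : Mat n K :=
  fun μ k => coeff (expo k) (psumPart (Fin n) K μ)

lemma coeff_sym_eq (a : n.Partition → K) (k : n.Partition) :
    coeff (expo k) (sym a) = Matrix.vecMul a (Cm n K) k := by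
  simp [sym, coeff_sum, Matrix.vecMul, dotProduct, Cm]

lemma isUnit_Cm [CharZero K] : IsUnit (Cm n K) := by
  rw [← Matrix.vecMul_injective_iff_isUnit]
  intro a b h
  have h0 : Th (a - b) = 0 := cf_part_inj (Th_Hm _) fun k => by
    rw [← coeff_sym, coeff_sym_eq, Matrix.sub_vecMul]
    exact sub_eq_zero.mpr (congrFun h k)
  exact sub_eq_zero.mp (Th_inj (h0.trans (map_zero _).symm))

/-- lower triangular for the lexicographic order -/
def Low (A : Mat n K) : Prop := ∀ l k, lst l < lst k → A l k = 0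

lemma Low.diag_mul {A B : Mat n K} (hA : Low A) (hB : Low B) (l : n.Partition) :
    (A * B) l l = A l l * B l l := by
  rw [Matrix.mul_apply]
  refine sum_eq_single l (fun k _ hk => ?_) (by simp)
  rcases lt_trichotomy (lst l) (lst k) with h | h | h
  · rw [hA _ _ h, zero_mul]
  · exact absurd (lst_inj h).symm hk
  · rw [hB _ _ h, mul_zero]

lemma Low.mul {A B : Mat n K} (hA : Low A) (hB : Low B) : Low (A * B) := fun l k h => by
  rw [Matrix.mul_apply]
  refine sum_eq_zero fun j _ => ?_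
  rcases lt_or_ge (lst l) (lst j) with h1 | h1
  · rw [hA _ _ h1, zero_mul]
  · rw [hB _ _ (lt_of_le_of_lt h1 h), mul_zero]

lemma low_conj {A Q : Mat n K} (hQ : Q * Cm n K = 1) (hA : Tri A) : Low (Q * A * Cm n K) := by
  intro l k h
  have h1 := hA (Q l) l (fun j hj => by
    rw [coeff_sym_eq, ← Matrix.mul_apply_eq_vecMul, hQ, Matrix.one_apply_ne]
    rintro rfl; exact lt_irrefl _ hj) k h
  rw [coeff_sym_eq, Matrix.vecMul_vecMul] at h1
  rw [Matrix.mul_assoc]
  exact h1

lemma trace_sq [CharZero K] {A B : Mat n K} (hA : Tri A) (hB : Tri B) :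
    Matrix.trace ((A * B - B * A) * (A * B - B * A)) = 0 := by
  obtain ⟨u, hu⟩ := isUnit_Cm (n := n) (K := K)
  have hQ : (↑u⁻¹ : Mat n K) * Cm n K = 1 := by rw [← hu, Units.inv_mul]
  have hP : Cm n K * (↑u⁻¹ : Mat n K) = 1 := by rw [← hu, Units.mul_inv]
  generalize (↑u⁻¹ : Mat n K) = Q at hQ hP
  have ha := low_conj hQ hA
  have hb := low_conj hQ hB
  have hm : ∀ X Y : Mat n K, Q * X * Cm n K * (Q * Y * Cm n K) = Q * (X * Y) * Cm n K := by
    intro X Y
    calc Q * X * Cm n K * (Q * Y * Cm n K) = Q * X * (Cm n K * Q) * Y * Cm n K := by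
          simp only [Matrix.mul_assoc]
      _ = Q * (X * Y) * Cm n K := by rw [hP]; simp only [Matrix.mul_one, Matrix.mul_assoc]
  have he : Q * (A * B - B * A) * Cm n K =
      Q * A * Cm n K * (Q * B * Cm n K) - Q * B * Cm n K * (Q * A * Cm n K) := by
    rw [hm, hm, Matrix.mul_sub, Matrix.sub_mul]
  have hc : Low (Q * (A * B - B * A) * Cm n K) := fun l k h => by
    rw [he, Matrix.sub_apply, ha.mul hb l k h, hb.mul ha l k h, sub_zero]
  have hd : ∀ l, (Q * (A * B - B * A) * Cm n K) l l = 0 := fun l => by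
    rw [he, Matrix.sub_apply, ha.diag_mul hb, hb.diag_mul ha, mul_comm, sub_self]
  have h1 : Matrix.trace (Q * ((A * B - B * A) * (A * B - B * A)) * Cm n K) = 0 := by
    rw [← hm]
    exact sum_eq_zero fun l _ => by rw [Matrix.diag_apply, hc.diag_mul hc, hd, zero_mul]
  rwa [Matrix.trace_mul_cycle, hP, Matrix.one_mul] at h1

lemma sa_mul {ζ : n.Partition → K} {A B : Mat n K} (hA : SA ζ A) (hB : SA ζ B)
    (π μ : n.Partition) : (A * B) π μ * ζ μ = (B * A) μ π * ζ π := by
  rw [Matrix.mul_apply, Matrix.mul_apply, sum_mul, sum_mul]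
  refine sum_congr rfl fun k _ => ?_
  rw [mul_assoc, hB k μ, mul_assoc, ← hA π k]; ring

end SKEW

open SKEW in
theorem st_SKEW_of : st_SKEW := by
  intro K _ _ _ n ζ hζ A B hA hB sA sB
  have h0 := trace_sq hA hB
  have hs : ∀ π μ, (A * B - B * A) π μ * ζ μ = -((A * B - B * A) μ π * ζ π) := fun π μ => by
    rw [Matrix.sub_apply, Matrix.sub_apply, sub_mul, sub_mul, sa_mul sA sB π μ, sa_mul sB sA π μ]
    ring
  rw [← sub_eq_zero]
  generalize A * B - B * A = D at h0 hs
  have h1 : ∀ π μ, D π μ * D μ π = -(D π μ ^ 2 * (ζ μ / ζ π)) := fun π μ => by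
    have := (hζ π).ne'
    field_simp
    linear_combination D π μ * hs π μ
  have h2 : ∀ π μ, 0 ≤ D π μ ^ 2 * (ζ μ / ζ π) := fun π μ =>
    mul_nonneg (sq_nonneg _) (div_pos (hζ μ) (hζ π)).le
  simp only [Matrix.trace, Matrix.diag_apply, Matrix.mul_apply, h1, sum_neg_distrib,
    neg_eq_zero] at h0
  ext π μ
  have h3 := (sum_eq_zero_iff_of_nonneg fun π _ => sum_nonneg fun μ _ => h2 π μ).mp h0 π
    (mem_univ _)
  have h4 := (sum_eq_zero_iff_of_nonneg fun μ _ => h2 π μ).mp h3 μ (mem_univ _)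
  have h5 := (mul_eq_zero.mp h4).resolve_right (div_pos (hζ μ) (hζ π)).ne'
  exact pow_eq_zero_iff two_ne_zero |>.mp h5

end MJB
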