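import Pool.Agent.Lib.MP_9c49f6_co.Part

/-! Existence and uniqueness of Macdonald polynomials; they diagonalize `D_0`. -/

namespace MJ
open Finset MvPolynomial

variable {F : Type} [Field F] [CharZero F] {q t : F} {n : ℕ}

omit [CharZero F] in
lemma del_part_inj (hi : Indep q t) :
    Function.Injective fun i : Σ n : ℕ, n.Partition => del q t (cells i.2).val :=
  fun _ _ h => cells_inj (Finset.val_injective (hi.del_inj h))

lemma top_eig (hi : Indep q t) {f : Lam F} (hf : f ∈ Hm F n) (h0 : f ≠ 0) (l : n.Partition)
    (h : DD q t 0 f = del q t (cells l).val • f) :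
    cf (lst l) f ≠ 0 ∧ ∀ k : n.Partition, lst l < lst k → cf (lst k) f = 0 := by
  classical
  obtain ⟨k, hk, hm⟩ := exists_max_image (univ.filter fun k : n.Partition => cf (lst k) f ≠ 0) lst
    (by
      by_contra hc
      refine h0 (cf_part_inj hf fun k => ?_)
      by_contra h1
      exact hc ⟨k, by simpa using h1⟩)
  have hk' : cf (lst k) f ≠ 0 := by simpa using hk
  have h2 : ∀ j : n.Partition, lst k < lst j → cf (lst j) f = 0 := fun j hj => by
    by_contra h1
    exact absurd (hm j (by simpa using h1)) (not_le.mpr hj)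
  have h3 := cf_part_DD (q := q) hi.t_ne hf k h2
  rw [h, map_smul, smul_eq_mul] at h3
  have h4 := @del_part_inj _ _ _ _ hi ⟨n, l⟩ ⟨n, k⟩ (mul_right_cancel₀ hk' h3)
  obtain rfl : l = k := by simpa using h4
  exact ⟨hk', h2⟩

lemma exists_eig (hi : Indep q t) (l : n.Partition) : ∃ a : n.Partition → F,
    cf (lst l) (Th a) = 1 ∧ DD q t 0 (Th a) = del q t (cells l).val • Th a := by
  classical
  let Ψ : (n.Partition → F) →ₗ[F] (n.Partition → F) := LinearMap.pi fun k => cf (lst k) ∘ₗ Th
  have hΨ : Function.Injective Ψ := by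
    rw [injective_iff_map_eq_zero]
    intro a ha
    exact Th_inj ((cf_part_inj (Th_Hm a) fun k => congrFun ha k).trans (map_zero _).symm)
  obtain ⟨m, hm⟩ := LinearMap.injective_iff_surjective.mp hΨ (Pi.single l 1)
  let D : (n.Partition → F) →ₗ[F] (n.Partition → F) :=
    LinearMap.pi (fun μ => lcoeff F (dOf μ) ∘ₗ DD q t 0 ∘ₗ Th) - del q t (cells l).val • 1
  have hD : ∀ a, Th (D a) = DD q t 0 (Th a) - del q t (cells l).val • Th a := by
    intro a
    have := eq_Th (n := n) (f := DD q t 0 (Th a)) (by simpa using DD_Hm q t 0 (Th_Hm a))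
    rw [this]; simp only [D, LinearMap.sub_apply, map_sub, LinearMap.smul_apply, map_smul]; rfl
  let W : Submodule F (n.Partition → F) :=
    { carrier := {a | ∀ k : n.Partition, lst l < lst k → cf (lst k) (Th a) = 0}
      add_mem' := fun ha hb k hk => by rw [map_add, map_add, ha k hk, hb k hk, add_zero]
      zero_mem' := by simp
      smul_mem' := fun c a ha k hk => by rw [map_smul, map_smul, ha k hk, smul_zero] }
  have hW : ∀ a ∈ W, ∀ k : n.Partition, lst l ≤ lst k → cf (lst k) (Th (D a)) = 0 := by
    intro a ha k hk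
    rw [hD, map_sub, map_smul, cf_part_DD hi.t_ne (Th_Hm a) k
      fun j hj => ha j (lt_of_le_of_lt hk hj)]
    rcases hk.lt_or_eq with h | h
    · simp [ha k h]
    · rw [lst_inj h, smul_eq_mul, sub_self]
  have hns : ¬ Function.Injective (D.restrict (p := W) (q := W) fun a ha k hk => hW a ha k hk.le) := by
    intro hc
    obtain ⟨a, ha⟩ := LinearMap.injective_iff_surjective.mp hc ⟨m, fun k hk => by
      have := congrFun hm k
      rwa [Pi.single_eq_of_ne (by rintro rfl; exact lt_irrefl _ hk)] at this⟩
    have h1 := hW a a.2 l le_rfl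
    have h2 : D a = m := congrArg Subtype.val ha
    have h3 : cf (lst l) (Th m) = 1 := (congrFun hm l).trans (Pi.single_eq_same _ _)
    rw [h2, h3] at h1
    exact one_ne_zero h1
  rw [injective_iff_map_eq_zero] at hns
  push Not at hns
  obtain ⟨a, h1, h2⟩ := hns
  have h3 : DD q t 0 (Th a.1) = del q t (cells l).val • Th a.1 := by
    rw [← sub_eq_zero, ← hD, show D a = 0 from congrArg Subtype.val h1, map_zero]
  have h4 := (top_eig hi (Th_Hm a.1)
    (fun h => h2 (Subtype.ext (Th_inj (h.trans (map_zero _).symm)))) l h3).1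
  refine ⟨(cf (lst l) (Th a.1))⁻¹ • a.1, ?_, ?_⟩
  · rw [map_smul, map_smul, smul_eq_mul, inv_mul_cancel₀ h4]
  · rw [map_smul, map_smul, h3, smul_comm]

noncomputable def mac (hi : Indep q t) (l : n.Partition) : n.Partition → F :=
  (exists_eig hi l).choose

lemma mac_lead (hi : Indep q t) (l : n.Partition) : cf (lst l) (Th (mac hi l)) = 1 :=
  (exists_eig hi l).choose_spec.1
lemma mac_eig (hi : Indep q t) (l : n.Partition) :
    DD q t 0 (Th (mac hi l)) = del q t (cells l).val • Th (mac hi l) :=
  (exists_eig hi l).choose_spec.2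
lemma mac_ne (hi : Indep q t) (l : n.Partition) : Th (mac hi l) ≠ 0 := fun h => by
  have := mac_lead hi l
  rw [h, map_zero] at this; exact zero_ne_one this
lemma mac_tri (hi : Indep q t) {l k : n.Partition} (h : lst l < lst k) :
    cf (lst k) (Th (mac hi l)) = 0 := (top_eig hi (Th_Hm _) (mac_ne hi l) l (mac_eig hi l)).2 k h

lemma mac_li (hi : Indep q t) :
    LinearIndependent F fun i : Σ n : ℕ, n.Partition => Th (mac hi i.2) :=
  Module.End.eigenvectors_linearIndependent' (DD q t 0) _ (del_part_inj hi) _ fun i =>
    ⟨Module.End.mem_eigenspace_iff.mpr (mac_eig hi i.2), mac_ne hi i.2⟩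

lemma mac_span (hi : Indep q t) (a : n.Partition → F) :
    ∃ c : n.Partition → F, ∑ k, c k • mac hi k = a := by
  have h1 : LinearIndependent F (mac (n := n) hi) :=
    LinearIndependent.of_comp Th ((mac_li hi).comp (Sigma.mk n) sigma_mk_injective)
  rw [← Submodule.mem_span_range_iff_exists_fun,
    h1.span_eq_top_of_card_eq_finrank' (by simp)]
  trivial

noncomputable def macSys (hi : Indep q t) : Sys q t (Σ n : ℕ, n.Partition) where
  b := Module.Basis.mk (mac_li hi) (by
    intro f _
    induction f using MvPolynomial.induction_on' with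
    | add p r hp hr => exact add_mem (hp trivial) (hr trivial)
    | monomial d a =>
      rw [eq_Th (monomial_mem_Hm d a)]
      obtain ⟨c, hc⟩ := mac_span hi fun μ : (wt d).Partition => coeff (dOf μ) (monomial d a)
      rw [← hc, map_sum]
      refine sum_mem fun k _ => ?_
      rw [map_smul]
      exact Submodule.smul_mem _ _ (Submodule.subset_span ⟨⟨_, k⟩, rfl⟩))
  cells i := cells i.2
  cells_inj := cells_inj
  lower i := cells_lower i.2
  hom i := by rw [Module.Basis.mk_apply, card_cells]; exact Th_Hm _
  eig i := by rw [Module.Basis.mk_apply]; exact mac_eig hi i.2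

lemma macSys_b (hi : Indep q t) (l : n.Partition) : (macSys hi).b ⟨n, l⟩ = Th (mac hi l) := by
  simp only [macSys, Module.Basis.mk_apply]

lemma mac_orth (hi : Indep q t) {l k : n.Partition} (h : l ≠ k) :
    ip q t (Th (mac hi l)) (Th (mac hi k)) = 0 := by
  rw [← macSys_b, ← macSys_b]; exact (macSys hi).orth hi (by simpa using h)

lemma mac_norm (hi : Indep q t) (l : n.Partition) :
    ip q t (Th (mac hi l)) (Th (mac hi l)) ≠ 0 := by
  rw [← macSys_b]; exact (macSys hi).norm_ne hi _

theorem isMac_mac (hi : Indep q t) : IsMac q t (mac (n := n) hi) where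
  lead l := by rw [coeff_sym, mac_lead]
  tri l k h := by
    rw [coeff_sym] at h
    by_contra hc
    exact h (mac_tri hi (not_le.mp hc))
  orth l k h := by rw [← ip_Th, mac_orth hi h]

theorem IsMac.eq_mac (hi : Indep q t) {P : n.Partition → n.Partition → F} (hP : IsMac q t P) :
    P = mac hi := by
  classical
  funext l
  let : LinearOrder n.Partition := LinearOrder.lift' lst lst_inj
  induction l using WellFoundedLT.induction with
  | ind l ih =>
    obtain ⟨c, hc⟩ := mac_span hi (P l - mac hi l)
    have hc' : ∑ k, c k • Th (mac hi k) = Th (P l) - Th (mac hi l) := by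
      rw [← map_sub, ← hc, map_sum]; simp only [map_smul]
    by_contra hne
    obtain ⟨k, hk, hm⟩ := exists_max_image (univ.filter fun k => c k ≠ 0) lst (by
      by_contra h
      refine hne (sub_eq_zero.mp ?_)
      rw [← hc]
      refine sum_eq_zero fun k _ => ?_
      by_contra h1
      exact h ⟨k, by simpa using (smul_ne_zero_iff.mp h1).1⟩)
    have hk' : c k ≠ 0 := by simpa using hk
    rcases lt_or_ge (lst k) (lst l) with h | h
    · have h1 := congrArg (fun f => ip q t f (Th (mac hi k))) hc'
      have hne' : l ≠ k := by rintro rfl; exact lt_irrefl _ h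
      simp only [map_sum, map_smul, map_sub, LinearMap.sum_apply, LinearMap.smul_apply,
        LinearMap.sub_apply] at h1
      rw [mac_orth hi hne', sum_eq_single k (fun j _ hj => by rw [mac_orth hi hj, smul_zero])
        (by simp)] at h1
      have h2 := hP.orth l k hne'
      rw [ih k h, ← ip_Th] at h2
      rw [h2, sub_zero, smul_eq_mul] at h1
      exact mul_ne_zero hk' (mac_norm hi k) h1
    · have h1 := congrArg (cf (lst k)) hc'
      simp only [map_sum, map_smul, map_sub] at h1
      rw [sum_eq_single k _ (by simp), mac_lead, smul_eq_mul, mul_one] at h1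
      · apply hk'
        rw [h1, ← coeff_sym]
        rcases h.lt_or_eq with h2 | h2
        · rw [mac_tri hi h2, sub_zero]
          by_contra h3
          exact absurd (hP.tri l k h3) (not_le.mpr h2)
        · rw [← lst_inj h2, hP.lead, mac_lead, sub_self]
      · intro j _ hj
        by_cases h2 : c j = 0
        · simp [h2]
        · rw [mac_tri hi (lt_of_le_of_ne (hm j (by simpa using h2)) fun e => hj (lst_inj e)),
            smul_zero]

end MJ
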