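import Pool.Agent.Lib.MP_9c49f6_co.Norm

/-! The main identity over an abstract field. -/

namespace MJ
open Finset MvPolynomial

variable {F : Type} [Field F] {q t : F} {n : ℕ}

/-- `[i]_t` -/
def qi (t : F) (i : ℕ) : F := ∑ j ∈ range i, t ^ j

lemma pk_prod (L : List ℕ) : (L.map (pk t)).prod =
    monomial (Multiset.toFinsupp (L : Multiset ℕ)) (L.map fun k => t ^ (k+1) - 1).prod := by
  induction L with
  | nil => simp
  | cons k L ih =>
    rw [List.map_cons, List.prod_cons, ih, pk, ← Multiset.cons_coe, ← Multiset.singleton_add,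
      map_add, Multiset.toFinsupp_singleton, C_mul_X_eq_monomial, monomial_mul]
    simp

lemma exists_list (π : n.Partition) (hn : 0 < n) : ∃ K0 L, dg L + (K0 + 1) = n ∧
    (L.map (pk t)).prod * pk t K0 =
      (π.parts.map fun i => t ^ i - 1).prod • monomial (dOf π) 1 ∧
    L.length + 1 = Multiset.card π.parts := by
  obtain ⟨M, hM⟩ := Quotient.exists_rep (π.parts.map (· - 1))
  have hM' : (M : Multiset ℕ) = π.parts.map (· - 1) := hM
  have h1 := parts_eq π
  rw [← hM'] at h1
  have h2 := π.parts_sum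
  cases M with
  | nil => rw [← h1] at h2; simp at h2; omega
  | cons K0 L =>
    refine ⟨K0, L, ?_, ?_, ?_⟩
    · rw [← h1] at h2; simp at h2; simp [dg]; omega
    · have := pk_prod (t := t) (K0 :: L)
      rw [List.map_cons, List.prod_cons, mul_comm] at this
      rw [this, dOf, hM', smul_monomial, smul_eq_mul, mul_one]
      congr 1
      rw [← h1, Multiset.map_map, Multiset.map_coe, Multiset.prod_coe]
      rfl
    · rw [← h1]; simp

lemma zero_mem_cells (l : n.Partition) (hn : 0 < n) : (0, 0) ∈ cells l := by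
  obtain ⟨c, hc⟩ := card_pos.mp (show 0 < (cells l).card by rwa [card_cells])
  exact cells_lower l c _ hc (Nat.zero_le _) (Nat.zero_le _)

lemma phi_Th (v : F) (a : n.Partition → F) :
    phi t v (Th a) = ∑ ν, a ν * (ν.parts.map fun i => (1 - v ^ i) / (1 - t ^ i)).prod := by
  rw [Th_apply, map_sum]
  refine sum_congr rfl fun ν _ => ?_
  rw [phi, aeval_monomial, prod_dOf ν fun i => (1 - v ^ i) / (1 - t ^ i)]; rfl

variable [CharZero F]

lemma Del_coeff (hi : Indep q t) (Γ : (Σ n : ℕ, n.Partition) → F) (π μ : n.Partition) :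
    coeff (dOf μ) ((macSys hi).Del Γ (monomial (dOf π) 1)) =
      zqt q t π * ∑ l, Γ ⟨n, l⟩ / scal q t (mac hi l) (mac hi l) * (mac hi l π * mac hi l μ) := by
  classical
  obtain ⟨c, hc⟩ := mac_span hi (Pi.single π 1)
  have h1 : (monomial (dOf π) 1 : Lam F) = ∑ l, c l • Th (mac hi l) := by
    have := congrArg Th hc
    rw [map_sum] at this
    simp only [map_smul] at this
    rw [this, Th_apply, sum_eq_single π] <;> simp +contextual
  have h2 : ∀ l, c l * scal q t (mac hi l) (mac hi l) = zqt q t π * mac hi l π := by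
    intro l
    have := congrArg (fun f => ip q t f (Th (mac hi l))) h1
    simp only [map_sum, map_smul, LinearMap.sum_apply, LinearMap.smul_apply] at this
    rw [sum_eq_single l (fun j _ hj => by rw [mac_orth hi hj, smul_zero]) (by simp), ip_monomial,
      coeff_Th, zd_dOf, ip_Th, one_mul, smul_eq_mul] at this
    exact this.symm
  rw [h1, map_sum, coeff_sum, mul_sum]
  refine sum_congr rfl fun l _ => ?_
  have h3 := mac_norm hi l
  rw [ip_Th] at h3
  rw [map_smul, ← macSys_b, Sys.Del_b, macSys_b, coeff_smul, coeff_smul, coeff_Th, smul_eq_mul,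
    smul_eq_mul]
  field_simp
  linear_combination (Γ ⟨n, l⟩ * mac hi l μ) * h2 l

noncomputable def Gam (q t : F) (G : Polynomial F) (i : Σ n : ℕ, n.Partition) : F :=
  ∏ c ∈ (cells i.2).erase (0, 0), (Polynomial.X * G).eval (mono q t c)

lemma cco_sum (hi : Indep q t) (hn : 0 < n) (G : Polynomial F) (ψ : n.Partition → F) (s : F)
    (h : ∀ l, ∑ ν, Jc q t (mac hi) l ν * ψ ν =
      t ^ nRow l * (s * ∏ c ∈ (cells l).erase (0, 0), G.eval (mono q t c))) (π μ : n.Partition) :
    ∑ ν, cco q t (mac hi) π μ ν * ψ ν =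
      s * coeff (dOf μ) ((macSys hi).Del (Gam q t G) (monomial (dOf π) 1)) := by
  rw [Del_coeff, mul_left_comm]
  simp only [cco, mul_assoc (zqt q t π), ← mul_sum]
  congr 1
  simp only [sum_mul]
  rw [sum_comm, mul_sum]
  refine sum_congr rfl fun l _ => ?_
  simp only [mul_assoc, ← mul_sum, h]
  have h1 : cArm q t l / (1 - t) ^ n ≠ 0 :=
    div_ne_zero (left_ne_zero_of_mul ((phi_mac hi n l).symm ▸ pow_ne_zero _ hi.t_ne))
      (pow_ne_zero _ (sub_ne_zero.mpr hi.t_ne_one.symm))
  have h2 : scal q t (Jc q t (mac hi) l) (Jc q t (mac hi) l) =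
      (cArm q t l / (1 - t) ^ n) ^ 2 * scal q t (mac hi l) (mac hi l) := by
    simp only [scal, Jc, mul_sum]; exact sum_congr rfl fun _ _ => by ring
  have h3 := mac_norm hi l
  rw [ip_Th] at h3
  have h4 : Gam q t G ⟨n, l⟩ =
      q ^ nCol l * t⁻¹ ^ nRow l * ∏ c ∈ (cells l).erase (0, 0), G.eval (mono q t c) := by
    rw [← prod_mono, ← mul_prod_erase _ _ (zero_mem_cells l hn), Gam]
    simp [prod_mul_distrib, mono]
  have h5 := hi.t_ne
  rw [h2, h4, Jc, Jc]
  generalize cArm q t l / (1 - t) ^ n = κ at h1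
  simp only [inv_pow]
  field_simp
  ring

lemma Del_p (hi : Indep q t) (G : Polynomial F) (K0 : ℕ) (L : List ℕ) :
    (macSys hi).Del (Gam q t G) ((L.map (pk t)).prod * pk t K0) = FF q t G K0 L := by
  refine (macSys hi).Del_FF hi _ G (fun i k c h1 h2 => ?_) (fun i h => ?_) K0 L
  · change (cells k.2).val = c ::ₘ (cells i.2).val at h2
    have h3 : c ∉ cells i.2 := by
      have := (cells k.2).nodup
      rw [h2] at this; exact (Multiset.nodup_cons.mp this).1
    have h4 : cells k.2 = insert c (cells i.2) := by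
      apply Finset.val_injective; rw [h2, insert_val_of_notMem h3]
    have h5 := zero_mem_cells i.2 (by rw [← card_cells i.2]; exact h1)
    rw [Gam, Gam, h4, erase_insert_of_ne (by rintro rfl; exact h3 h5),
      prod_insert (fun h => h3 (mem_of_mem_erase h)), mul_comm]
  · have : cells i.2 = {(0, 0)} := Finset.val_injective h
    rw [Gam, this]; simp

theorem main_coeff (hi : Indep q t) (hn : 0 < n) {w : F} (D : PosData q t w) (R : Subring F)
    (hq : q ∈ R) (ht : t ∈ R) (hT : t⁻¹ ∈ R) (hg : D.g ∈ R) (hg' : D.g⁻¹ ∈ R) (hw : w ∈ R)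
    (π μ : n.Partition) : ∃ a ∈ D.P, zz μ * a ∈ R ∧
      (π.parts.map (qi t)).prod * t ^ (n * (n - 1)) *
        coeff (dOf μ) ((macSys hi).Del (Gam q t (Gt D.g w)) (monomial (dOf π) 1)) =
      (μ.parts.map (qi t)).prod * a := by
  obtain ⟨K0, L, h1, h2, h3⟩ := exists_list (t := t) π hn
  have hb : ∀ ν : n.Partition, (ν.parts.map fun i => t ^ i - 1).prod =
      D.g ^ Multiset.card ν.parts * (ν.parts.map (qi t)).prod := by
    intro ν
    have h : t - 1 = D.g := by have := D.ht; linear_combination this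
    rw [← Multiset.prod_replicate, ← Multiset.map_const', ← Multiset.prod_map_mul]
    congr 1
    exact Multiset.map_congr rfl fun i _ => by rw [qi, ← h, mul_geom_sum]
  have hz : (μ.parts.map (qi t)).prod ≠ 0 := by
    refine right_ne_zero_of_mul (hb μ ▸ Multiset.prod_ne_zero fun h => ?_)
    obtain ⟨i, h4, h5⟩ := Multiset.mem_map.mp h
    obtain ⟨j, rfl⟩ : ∃ j, i = j + 1 := ⟨i - 1, by have := μ.parts_pos h4; omega⟩
    exact hi.t_pow_ne j (sub_eq_zero.mp h5)
  have e1 := Del_p hi (Gt D.g w) K0 L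
  rw [h2, map_smul, hb] at e1
  obtain ⟨a, ha, e2⟩ := D.coeff_mem (D.PO_FF K0 L) (dOf μ)
  obtain ⟨a', ha', e3⟩ := IL_coeff (IL_FF hi.t_ne hq hT hg' hw K0 L) (dOf μ)
  have e4 : pw (br t) (dOf μ) = (μ.parts.map (qi t)).prod := prod_dOf μ (qi t)
  have e5 : pw (fun k => t ^ (k+1) - 1) (dOf μ) = _ := prod_dOf μ fun i => t ^ i - 1
  have e6 : ((dg L : ℤ) + (K0 + 1)) * (dg L + K0) = (n * (n - 1) : ℕ) := by
    rw [← h1]; push_cast [show dg L + (K0 + 1) - 1 = dg L + K0 by omega]; ring
  rw [e6, zpow_natCast, coeff_smul, coeff_smul, e4, h3, smul_eq_mul, smul_eq_mul] at e2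
  rw [e5, hb, zn_dOf] at e3
  refine ⟨a, ha, ?_, ?_⟩
  · have : zz μ * a = t ^ (n * (n - 1)) * D.g⁻¹ ^ Multiset.card π.parts *
        D.g ^ Multiset.card μ.parts * a' := by
      apply mul_right_cancel₀ hz
      linear_combination (t ^ (n * (n - 1)) * D.g⁻¹ ^ Multiset.card π.parts) * e3 - zz μ * e2
    rw [this]
    exact mul_mem (mul_mem (mul_mem (pow_mem ht _) (pow_mem hg' _)) (pow_mem hg _)) ha'
  · rw [← e1, coeff_smul, smul_eq_mul] at e2
    have : D.g⁻¹ ^ Multiset.card π.parts * D.g ^ Multiset.card π.parts = 1 := by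
      rw [← mul_pow, inv_mul_cancel₀ D.g0, one_pow]
    rw [mul_comm _ a, ← e2]
    linear_combination (-((π.parts.map (qi t)).prod * t ^ (n * (n - 1)) *
        coeff (dOf μ) ((macSys hi).Del (Gam q t (Gt D.g w)) (monomial (dOf π) 1)))) * this

lemma Jc_phi (hi : Indep q t) (v : F) (l : n.Partition) :
    ∑ ν, Jc q t (mac hi) l ν * (ν.parts.map fun i => (1 - v ^ i) / (1 - t ^ i)).prod =
      t ^ nRow l * ∏ c ∈ cells l, ((1 - v * mono q t c) / (1 - t)) := by
  simp only [Jc, mul_assoc, ← mul_sum]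
  rw [← phi_Th, phi_mac_v, ← phi_mac hi, prod_div_distrib, prod_const, card_cells]
  ring

lemma Jc_marg (hi : Indep q t) (hn : 0 < n) {g : F} (ht : t = 1 + g) (w : F) (l : n.Partition) :
    ∑ ν, Jc q t (mac hi) l ν * (ν.parts.map fun i => (1 - (1 + g * w) ^ i) / (1 - t ^ i)).prod =
      t ^ nRow l * (w * ∏ c ∈ (cells l).erase (0, 0), (Gt g w).eval (mono q t c)) := by
  have hg : g ≠ 0 := fun h => hi.t_ne_one (by rw [ht, h, add_zero])
  have : ∀ x, (1 - (1 + g * w) * x) / (1 - t) = (Gt g w).eval x := by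
    intro x
    have : 1 - t = -g := by rw [ht]; ring
    simp only [this, Gt, Polynomial.eval_add, Polynomial.eval_mul, Polynomial.eval_C,
      Polynomial.eval_sub, Polynomial.eval_X, Polynomial.eval_one]
    field_simp; ring
  rw [Jc_phi, ← mul_prod_erase _ _ (zero_mem_cells l hn)]
  simp only [this]
  simp [mono, Gt]

lemma Jc_one (hi : Indep q t) (hn : 0 < n) {g : F} (ht : t = 1 + g) (l : n.Partition) :
    ∑ ν, Jc q t (mac hi) l ν * (if ν = Nat.Partition.indiscrete n then (zz ν : F) else 0) =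
      t ^ nRow l * (qi t n * ∏ c ∈ (cells l).erase (0, 0), (Gt g 0).eval (mono q t c)) := by
  have hg : g ≠ 0 := fun h => hi.t_ne_one (by rw [ht, h, add_zero])
  have h1t : 1 - t = -g := by rw [ht]; ring
  have hc : ∀ ν : n.Partition, Multiset.card ν.parts ≠ 0 := fun ν h => by
    have := ν.parts_sum
    rw [Multiset.card_eq_zero.mp h] at this
    simp at this; omega
  let A : Polynomial F := ∑ ν, Polynomial.C (Jc q t (mac hi) l ν) *
    ((1 - Polynomial.X) ^ (Multiset.card ν.parts - 1) *
      (ν.parts.map fun i => Polynomial.C (1 - t ^ i)⁻¹ * ∑ j ∈ range i, Polynomial.X ^ j).prod)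
  let B : Polynomial F := Polynomial.C (t ^ nRow l / (1 - t)) * ∏ c ∈ (cells l).erase (0, 0),
    (Polynomial.C (1 - t)⁻¹ * (1 - Polynomial.X * Polynomial.C (mono q t c)))
  have hA : ∀ v, A.eval v = ∑ ν, Jc q t (mac hi) l ν * ((1 - v) ^ (Multiset.card ν.parts - 1) *
      (ν.parts.map fun i => (1 - t ^ i)⁻¹ * qi v i).prod) := by
    intro v
    simp [A, Polynomial.eval_finsetSum, Polynomial.eval_multiset_prod, qi, -Multiset.prod_map_mul]
  have hB : ∀ v, B.eval v = t ^ nRow l / (1 - t) * ∏ c ∈ (cells l).erase (0, 0),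
      ((1 - v * mono q t c) / (1 - t)) := by
    intro v
    simp only [B, Polynomial.eval_mul, Polynomial.eval_C, Polynomial.eval_prod, Polynomial.eval_sub,
      Polynomial.eval_one, Polynomial.eval_X, div_eq_inv_mul]
  have hAB : A = B := by
    refine Polynomial.eq_of_infinite_eval_eq _ _
      ((Set.finite_singleton (1:F)).infinite_compl.mono fun v hv => ?_)
    have hv' : 1 - v ≠ 0 := sub_ne_zero.mpr (Ne.symm hv)
    apply mul_left_cancel₀ hv'
    have h := Jc_phi hi v l
    rw [← mul_prod_erase _ _ (zero_mem_cells l hn)] at h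
    rw [hA, hB, mul_sum]
    refine Eq.trans (sum_congr rfl fun ν _ => ?_) (h.trans ?_)
    · rw [mul_left_comm, ← mul_assoc (1 - v), ← pow_succ', Nat.sub_add_cancel (by
        have := hc ν; omega), ← Multiset.prod_replicate, ← Multiset.map_const',
        ← Multiset.prod_map_mul]
      congr 2
      exact Multiset.map_congr rfl fun i _ => by
        rw [qi, mul_left_comm, mul_neg_geom_sum, div_eq_inv_mul]
    · simp only [mono, pow_zero, mul_one]; ring
  have h := hA 1
  have hp : (Nat.Partition.indiscrete n).parts = {n} := Nat.Partition.indiscrete_parts hn.ne'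
  rw [hAB, hB, sum_eq_single (Nat.Partition.indiscrete n) _ (by simp), hp] at h
  · have e : ∀ x, (1 - 1 * x) / (1 - t) = (Gt g 0).eval x := by
      intro x; simp [h1t, Gt]; field_simp; ring
    have e2 : 1 - t ^ n = (1 - t) * qi t n := by rw [qi, mul_neg_geom_sum]
    have e3 : 1 - t ^ n ≠ 0 := by
      obtain ⟨j, rfl⟩ : ∃ j, n = j + 1 := ⟨n - 1, by omega⟩
      exact sub_ne_zero.mpr (hi.t_pow_ne j).symm
    have e4 : qi (1:F) n = n := by simp [qi]
    simp only [e, Multiset.card_singleton, Nat.sub_self, pow_zero, Multiset.map_singleton,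
      Multiset.prod_singleton, e4] at h
    simp only [mul_ite, mul_zero, sum_ite_eq', mem_univ, if_true, zz, hp]
    rw [e2] at h e3
    have e5 := left_ne_zero_of_mul e3
    have e6 := right_ne_zero_of_mul e3
    field_simp at h
    simp
    linear_combination -h
  · intro ν _ hν
    have : Multiset.card ν.parts - 1 ≠ 0 := by
      intro h0
      obtain ⟨a, ha⟩ := Multiset.card_eq_one.mp (show Multiset.card ν.parts = 1 by
        have := hc ν; omega)
      have := ν.parts_sum
      rw [ha, Multiset.sum_singleton] at this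
      exact hν (Nat.Partition.ext (by rw [ha, hp, this]))
    simp [this]

end MJ
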