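import Pool.Agent.Lib.MP_9c49f6_co.Col

/-! The normalization `J_λ[1/(1-t)] = t^(n(λ))`. -/

namespace MJ
open Finset MvPolynomial

variable {n : ℕ}

lemma exists_col_removal (l : n.Partition) (hn : 0 < n) :
    ∃ m < n, ∃ μ : m.Partition, ∀ j, col μ j = col l (j+1) := by
  have h1 : (l.parts.map (· - 1)).sum + Multiset.card l.parts = n := by
    have := congrArg Multiset.sum (parts_eq l)
    rw [Multiset.sum_map_add, l.parts_sum] at this
    simpa using this
  have h2 : Multiset.card l.parts ≠ 0 := by
    intro h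
    have := l.parts_sum
    rw [Multiset.card_eq_zero.mp h] at this
    simp at this; omega
  refine ⟨_, by omega, Nat.Partition.ofSums _ (l.parts.map (· - 1)) rfl, fun j => ?_⟩
  simp only [col, Nat.Partition.ofSums_parts, Multiset.filter_filter, Multiset.filter_map,
    Multiset.card_map]
  congr 1
  exact Multiset.filter_congr fun x _ => by simp; omega

lemma nRow_eq (l : n.Partition) (N : ℕ) (hN : col l 0 ≤ N) :
    nRow l = ∑ i ∈ range N, i * row l i := by
  have h1 := sum_cells l N hN fun c => c.1
  have h2 := sum_cells l n (col_le l 0) fun c => c.1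
  simp only [sum_const, card_range, smul_eq_mul] at h1 h2
  simp only [nRow, mul_comm _ (row l _)]
  rw [← h2, h1]

variable {F : Type} [Field F] {q t : F}

lemma cArm_eq (l : n.Partition) (N : ℕ) (hN : col l 0 ≤ N) :
    cArm q t l = ∏ i ∈ range N, ∏ j ∈ range (row l i),
      (1 - q ^ (row l i - (j+1)) * t ^ (col l j - (i+1) + 1)) := by
  have h := fun N hN => prod_cells l N hN
    fun c => (1 - q ^ (row l c.1 - (c.2+1)) * t ^ (col l c.2 - (c.1+1) + 1))
  rw [cArm, ← h n (col_le l 0), h N hN]

lemma phi_res (hi : Indep q t) (N : ℕ) (f : Lam F) :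
    phi t (t ^ N) f = aeval (fun i : Fin N => t ^ (i : ℕ)) (res F N f) := by
  have : phi t (t ^ N) = (aeval (fun i : Fin N => t ^ (i : ℕ))).comp (res F N) := by
    ext k : 1
    have hne := sub_ne_zero.mpr (hi.t_pow_ne k).symm
    simp only [phi, aeval_X, AlgHom.comp_apply, res, psum, map_sum, map_pow]
    rw [div_eq_iff hne, Fin.sum_univ_eq_sum_range (fun i => (t ^ i) ^ (k+1)),
      ← pow_mul, mul_comm N, pow_mul, ← mul_neg_geom_sum, mul_comm]
    congr 1
    exact sum_congr rfl fun i _ => by rw [← pow_mul, ← pow_mul, mul_comm]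
  rw [this]; rfl

variable [CharZero F]

lemma col_removal (hi : Indep q t) {m : ℕ} (l : n.Partition) (μ : m.Partition)
    (h : ∀ j, col μ j = col l (j+1)) :
    res F (col l 0) (Th (mac hi l)) = (∏ j, X j) * res F (col l 0) (Th (mac hi μ)) := by
  set N := col l 0 with hN
  have hμ : col μ 0 ≤ N := by rw [h]; exact col_anti l (by omega)
  have hr : ∀ i < N, row l i = row μ i + 1 := by
    intro i hi
    have h1 := (lt_row_iff l i 0).mpr hi
    have h2 : row μ i = row l i - 1 :=
      eq_of_forall_lt_iff fun j => by rw [lt_row_iff, h, ← lt_row_iff]; omega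
    omega
  have hd : del q t (cells l).val - t⁻¹ ^ N = q * (del q t (cells μ).val - t⁻¹ ^ N) := by
    rw [del_cells, del_cells, dl_eq q t _ N (col_zero l).ge, dl_eq q t _ N (col_zero μ ▸ hμ),
      add_sub_cancel_left, add_sub_cancel_left, mul_left_comm]
    congr 1
    rw [mul_sum]
    refine sum_congr rfl fun i hi => ?_
    have := hr i (mem_range.mp hi)
    simp only [row] at this
    rw [this]; ring
  obtain ⟨e, he⟩ := exists_e F N
  have h1 := res_DD_e (q := q) hi.t_ne he (Th (mac hi μ))
  have h2 := (macSys hi).mod_eig hi (LinearMap.ker (res F N).toLinearMap)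
    (fun f hf => res_DD_zero hi.t_ne hf) ⟨n, l⟩ (e * Th (mac hi μ)) (by
      change res F N (_ - del q t (cells l).val • _) = 0
      rw [mac_eig, ← sub_smul, mul_smul_comm, map_smul, smul_smul, ← hd, map_sub, map_smul] at h1
      rw [map_sub, map_smul, sub_eq_zero, eq_add_of_sub_eq h1, ← add_smul, sub_add_cancel])
  rw [LinearMap.mem_ker, AlgHom.toLinearMap_apply, map_sub, map_smul, sub_eq_zero, map_mul, he,
    macSys_b] at h2
  have h3 := congrArg (coeff (Finsupp.equivFunOnFinite.symm fun i : Fin N => row l i)) h2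
  have e1 : (Finsupp.equivFunOnFinite.symm fun i : Fin N => row l i) =
      (∑ i : Fin N, Finsupp.single i 1) + Finsupp.equivFunOnFinite.symm fun i : Fin N => row μ i := by
    ext i
    simp [Finsupp.single_apply, hr i i.2, add_comm]
  have e2 : (∏ j, X j : MvPolynomial (Fin N) F) = monomial (∑ i : Fin N, Finsupp.single i 1) 1 := by
    rw [monomial_sum_one]; rfl
  rw [coeff_smul, coeff_res_row l N le_rfl, mac_lead, e1, e2, coeff_monomial_mul,
    coeff_res_row μ N hμ, mac_lead, smul_eq_mul, mul_one, mul_one] at h3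
  rw [h2, ← h3, one_smul]

lemma phi_mac_v (hi : Indep q t) (v : F) (l : n.Partition) :
    phi t v (Th (mac hi l)) = (∏ c ∈ cells l, (1 - v * mono q t c)) * phi t 0 (Th (mac hi l)) := by
  have := (macSys hi).phi_b hi v ⟨n, l⟩
  rwa [macSys_b] at this

theorem phi_mac (hi : Indep q t) (n : ℕ) : ∀ l : n.Partition,
    cArm q t l * phi t 0 (Th (mac hi l)) = t ^ nRow l := by
  induction n using Nat.strong_induction_on with
  | _ n ih =>
    intro l
    rcases Nat.eq_zero_or_pos n with rfl | hn
    · have h1 := eq_C_of_Sh (Th (mac hi l)) fun j hj => Sh_eq_zero_of_Hm _ (Th_Hm _) (by omega)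
      have h2 := mac_lead hi l
      rw [List.length_eq_zero_iff.mp (Nat.le_zero.mp (lst_length l)), cf_nil] at h2
      rw [h1, h2]; simp [cArm, nRow]
    obtain ⟨m, hm, μ, h⟩ := exists_col_removal l hn
    have h1 := congrArg (aeval fun i : Fin (col l 0) => t ^ (i : ℕ)) (col_removal hi l μ h)
    set N := col l 0 with hN
    have hμ : col μ 0 ≤ N := by rw [h]; exact col_anti l (by omega)
    have hr : ∀ i ∈ range N, row l i = row μ i + 1 := by
      intro i hi
      have h1 := (lt_row_iff l i 0).mpr (mem_range.mp hi)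
      have h2 : row μ i = row l i - 1 :=
        eq_of_forall_lt_iff fun j => by rw [lt_row_iff, h, ← lt_row_iff]; omega
      omega
    rw [map_mul, ← phi_res hi, ← phi_res hi, phi_mac_v hi (t ^ N) l, phi_mac_v hi (t ^ N) μ] at h1
    have a1 : ∏ c ∈ cells l, (1 - t ^ N * mono q t c) = (∏ c ∈ cells μ, (1 - t ^ N * mono q t c)) *
        ∏ i ∈ range N, (1 - t ^ N * mono q t (i, row μ i)) := by
      rw [prod_cells l N le_rfl, prod_cells μ N hμ, ← prod_mul_distrib]
      exact prod_congr rfl fun i hi => by rw [hr i hi, prod_range_succ]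
    have a2 : ∏ c ∈ cells μ, (1 - t ^ N * mono q t c) ≠ 0 := by
      refine prod_ne_zero_iff.mpr fun c hc h0 => ?_
      have h2 : mono q t c = mono q t (N, 0) := by
        have := pow_ne_zero N hi.t_ne
        simp only [mono, pow_zero, one_mul, inv_pow] at h0 ⊢
        field_simp at h0 ⊢
        linear_combination -h0
      rw [hi.mono_inj h2, mem_cells, lt_row_iff] at hc
      simp only at hc; omega
    have a3 : cArm q t l = cArm q t μ * ∏ i ∈ range N, (1 - t ^ N * mono q t (i, row μ i)) := by
      rw [cArm_eq l N le_rfl, cArm_eq μ N hμ, ← prod_mul_distrib]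
      refine prod_congr rfl fun i hi' => ?_
      rw [hr i hi', prod_range_succ']
      congr 1
      · exact prod_congr rfl fun j _ => by rw [h, Nat.add_sub_add_right]
      · obtain ⟨r, hr⟩ := Nat.exists_eq_add_of_lt (mem_range.mp hi')
        have := pow_ne_zero i hi.t_ne
        have e : N - (i + 1) + 1 = r + 1 := by omega
        rw [← hN, e, hr]
        simp only [mono, inv_pow, zero_add, Nat.add_sub_cancel]
        field_simp
        ring
    have a4 : t ^ nRow l = (∏ i : Fin N, t ^ (i : ℕ)) * t ^ nRow μ := by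
      rw [nRow_eq l N le_rfl, nRow_eq μ N hμ, Fin.prod_univ_eq_prod_range (fun i => t ^ i),
        prod_pow_eq_pow_sum, ← pow_add, ← sum_add_distrib]
      congr 1
      exact sum_congr rfl fun i hi => by rw [hr i hi]; ring
    rw [a1] at h1
    simp only [map_prod, aeval_X] at h1
    rw [a3, a4, ← ih m hm μ]
    apply mul_left_cancel₀ a2
    linear_combination cArm q t μ * h1

end MJ
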