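import Pool.Agent.Lib.MP_9c49f6_co.Final

/-! Positivity of the one-part coefficients: a single factor `α [k]_q [k]_t` suffices. -/

namespace MJ
namespace One22
open Finset MvPolynomial

lemma fs_ind {P : (ℕ →₀ ℕ) → Prop} (h0 : P 0)
    (hs : ∀ e j, P e → P (e + Finsupp.single j 1)) (e : ℕ →₀ ℕ) : P e := by
  obtain ⟨s, rfl⟩ := Multiset.toFinsupp.surjective e
  induction s using Multiset.induction_on with
  | empty => simpa using h0
  | cons a s ih =>
    rw [← Multiset.singleton_add, add_comm, map_add, Multiset.toFinsupp_singleton]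
    exact hs _ _ ih

lemma split_at {d : ℕ →₀ ℕ} {k : ℕ} (h : d k ≠ 0) : ∃ e, d = e + Finsupp.single k 1 :=
  ⟨d - Finsupp.single k 1, by
    ext i; by_cases hi : i = k
    · subst hi; simp; omega
    · simp [Finsupp.single_eq_of_ne hi]⟩

lemma add_single_ne {e : ℕ →₀ ℕ} {i : ℕ} (j : ℕ) (h : e i ≠ 0) :
    (e + Finsupp.single j 1 : ℕ →₀ ℕ) i ≠ 0 := by
  rw [Finsupp.add_apply]; omega

lemma add_single_self (e : ℕ →₀ ℕ) (j : ℕ) : (e + Finsupp.single j 1 : ℕ →₀ ℕ) j ≠ 0 := by
  simp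

variable {F : Type} [Field F] {q t : F}

/-- `α [k+1]_q` -/
def aq (g q : F) (k : ℕ) : F := g⁻¹ * (q ^ (k+1) - 1)

lemma pw_zero (s : ℕ → F) : pw s 0 = 1 := by simp [pw]

lemma mono_succ (e : ℕ →₀ ℕ) (j : ℕ) :
    (monomial (e + Finsupp.single j 1) (pw (br t) (e + Finsupp.single j 1)) : Lam F) =
      br t j • (X j * monomial e (pw (br t) e)) := by
  rw [X, monomial_mul, smul_monomial, pw_add, pw_single, add_comm e]
  simp [mul_comm]

section pos
variable {w : F} (D : PosData q t w)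

lemma mono_mem (e : ℕ →₀ ℕ) : (monomial e (pw (br t) e) : Lam F) ∈ D.PL := by
  induction e using fs_ind with
  | h0 => rw [pw_zero]; exact one_mem _
  | hs e j ih =>
    rw [mono_succ, ← smul_mul_assoc, smul_eq_C_mul]
    exact mul_mem (D.X_mem j) ih

lemma pw_mem {s : ℕ → F} (hs : ∀ k, s k ∈ D.P) (e : ℕ →₀ ℕ) : pw s e ∈ D.P := by
  induction e using fs_ind with
  | h0 => rw [pw_zero]; exact one_mem _
  | hs e j ih => rw [pw_add, pw_single]; exact mul_mem ih (hs j)

lemma Sh_int_mem {f : Lam F} (hf : f ∈ D.PL) (s : ℤ) :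
    Sh (fun k => q ^ (k+1) - 1) s f ∈ D.PL := by
  rcases lt_or_ge s 0 with h | h
  · rw [Sh_neg _ h]; exact zero_mem _
  · obtain ⟨r, rfl⟩ := Int.eq_ofNat_of_zero_le h
    exact (D.Sh_div hf r).1

lemma Sh_mono (y : F) (s : ℤ) (hs : s ≠ 0) (e : ℕ →₀ ℕ) :
    (∀ j, e j ≠ 0 → y * (aq D.g q j * br t j) ∈ D.P) →
    (y * D.g⁻¹) • Sh (fun k => q ^ (k+1) - 1) s (monomial e (pw (br t) e)) ∈ D.PL := by
  induction e using fs_ind with
  | h0 =>
    intro _
    rw [pw_zero, monomial_zero', Sh_C, if_neg hs, smul_zero]; exact zero_mem _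
  | hs e j ih =>
    intro h
    have h1 := ih fun i hi => h i (add_single_ne j hi)
    have h2 := h j (add_single_self e j)
    rw [mono_succ, map_smul, Sh_X_mul, smul_add, smul_add]
    refine add_mem ?_ ?_
    · rw [smul_comm, ← mul_smul_comm, ← smul_mul_assoc, smul_eq_C_mul]
      exact mul_mem (D.X_mem j) h1
    · rw [smul_smul, smul_smul]
      have e1 : y * D.g⁻¹ * br t j * (q ^ (j+1) - 1) = y * (aq D.g q j * br t j) := by
        rw [aq]; ring
      rw [e1]
      exact D.smul_mem h2 (Sh_int_mem D (mono_mem D e) _)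

lemma Sh_cone (a : ℤ) (f : Lam F) (x : (ℕ →₀ ℕ) → F)
    (hx : ∀ e, coeff e f = x e * pw (br t) e)
    (hp : ∀ e j, e j ≠ 0 → t ^ a * x e * (aq D.g q j * br t j) ∈ D.P) (s : ℤ) (hs : s ≠ 0) :
    D.PO a (D.g⁻¹ • Sh (fun k => q ^ (k+1) - 1) s f) := by
  unfold PosData.PO
  rw [f.as_sum, map_sum, smul_sum, smul_sum]
  refine sum_mem fun e _ => ?_
  have e1 : (monomial e (coeff e f) : Lam F) = x e • monomial e (pw (br t) e) := by
    rw [hx, smul_monomial, smul_eq_mul]
  rw [e1, map_smul, smul_smul, smul_smul]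
  have e2 : t ^ a * D.g⁻¹ * x e = t ^ a * x e * D.g⁻¹ := by ring
  rw [e2]
  exact Sh_mono D _ s hs e (hp e)

lemma sum_t (y : F) (d : ℕ →₀ ℕ) : (∀ j, d j ≠ 0 → y * (aq D.g q j * br t j) ∈ D.P) →
    qi t (wt d) * pw (aq D.g q) d * y ∈ D.P := by
  induction d using fs_ind with
  | h0 => intro _; simp [wt, qi]
  | hs d j ih =>
    intro h
    have h1 := ih fun i hi => h i (add_single_ne j hi)
    have h2 := h j (add_single_self d j)
    have e1 : qi t (wt d + (j+1)) = qi t (wt d) + t ^ wt d * br t j := by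
      rw [qi, qi, br, sum_range_add, mul_sum]; simp only [pow_add]
    rw [wt_add, wt_single, pw_add, pw_single, e1]
    have e2 : (qi t (wt d) + t ^ wt d * br t j) * (pw (aq D.g q) d * aq D.g q j) * y =
        qi t (wt d) * pw (aq D.g q) d * y * aq D.g q j +
          t ^ wt d * pw (aq D.g q) d * (y * (aq D.g q j * br t j)) := by ring
    rw [e2]
    exact add_mem (mul_mem h1 (D.qdiv j))
      (mul_mem (mul_mem (pow_mem D.t_mem _) (pw_mem D D.qdiv d)) h2)

lemma sum_q (y : F) (d : ℕ →₀ ℕ) : (∀ j, d j ≠ 0 → y * (aq D.g q j * br t j) ∈ D.P) →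
    D.g⁻¹ * (q ^ wt d - 1) * pw (br t) d * y ∈ D.P := by
  induction d using fs_ind with
  | h0 => intro _; simp [wt]
  | hs d j ih =>
    intro h
    have h1 := ih fun i hi => h i (add_single_ne j hi)
    have h2 := h j (add_single_self d j)
    rw [wt_add, wt_single, pw_add, pw_single]
    have e2 : D.g⁻¹ * (q ^ (wt d + (j+1)) - 1) * (pw (br t) d * br t j) * y =
        D.g⁻¹ * (q ^ wt d - 1) * pw (br t) d * y * br t j +
          q ^ wt d * pw (br t) d * (y * (aq D.g q j * br t j)) := by rw [aq]; ring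
    rw [e2]
    exact add_mem (mul_mem h1 (D.br_mem D.t_mem j))
      (mul_mem (mul_mem (pow_mem D.q_mem _) (pw_mem D (D.br_mem D.t_mem) d)) h2)

end pos

variable [CharZero F] (D : PosData q t 0)

lemma DD_div' (m : ℤ) (hm : m ≤ 0) {k a : ℤ} {f : Lam F} (hf : f ∈ Hm F k)
    (h : ∀ s : ℤ, s ≠ 0 → D.PO a (D.g⁻¹ • Sh (fun k => q ^ (k+1) - 1) s f)) :
    D.PO (a + k) (D.g⁻¹ • (DD q t m f - if m = 0 then f else 0)) := by
  rcases lt_or_ge k 0 with hk | hk
  · rw [Hm_neg hf hk]; simp [D.PO_zero]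
  obtain ⟨n, rfl⟩ := Int.eq_ofNat_of_zero_le hk
  rw [DD_eq_sum q t m f (n+1) (fun s hs => Sh_eq_zero_of_Hm _ hf (by omega)), sum_range_succ',
    add_sub_assoc, smul_add, smul_sum]
  refine D.PO_add (D.PO_sum fun s hs => ?_) ?_
  · have e : cS q t = fun k => t⁻¹ ^ (k+1) * (q ^ (k+1) - 1) := by funext k; rw [cS, mul_comm]
    rw [e, Sh_scale, mul_smul_comm, smul_comm]
    refine D.PO_mono (by simp at hs; omega) (D.PO_T (a := a) (s+1) ?_)
    have h1 := h ((s+1 : ℕ) : ℤ) (by omega)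
    unfold PosData.PO at *
    rw [← mul_smul_comm, ← mul_smul_comm]
    exact mul_mem (D.gg_div _).1 h1
  · simp only [Nat.cast_zero, add_zero, Sh_zero]
    split_ifs with hm'
    · subst hm'; simp [D.PO_zero]
    · rw [gg_neg t (by omega)]; simp [D.PO_zero]

lemma PS_Gt' {k a : ℤ} {f : Lam F} (hf : f ∈ Hm F k)
    (h : ∀ s : ℤ, s ≠ 0 → D.PO a (D.g⁻¹ • Sh (fun k => q ^ (k+1) - 1) s f)) :
    D.PS (a + k) (Polynomial.aeval (EE q t) (Gt D.g 0) (inc f)) := by
  intro j
  have e : Polynomial.aeval (EE q t) (Gt D.g 0) (inc f) j =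
      (q * t⁻¹) ^ j • (D.g⁻¹ • (DD q t (-j) f - if (-j : ℤ) = 0 then f else 0)) := by
    have e1 : Polynomial.aeval (EE q t) (Gt D.g 0) (inc f) j =
        D.g⁻¹ • (EE q t (inc f) j - inc f j) := by simp [Gt]
    rw [e1, EE_apply, psi_inc]
    cases j with
    | zero => simp
    | succ j =>
      rw [if_neg (by omega), inc_succ, sub_zero, sub_zero, smul_comm]
  rw [e]
  exact D.PO_qT j (DD_div' D _ (by omega) hf h)

lemma PO_wd' (i j : ℕ) {a k : ℤ} {v : St F} (hv : v ∈ HS F k)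
    (h : D.PS (a + k) (Polynomial.aeval (EE q t) (Gt D.g 0) v)) :
    D.PO (a + (2 * k * (i + j + 1) + (i + j) * (i + j) + j))
      (D.g⁻¹ • psi q t 0 (run q t (wd (Polynomial.X * Gt D.g 0) (Gt D.g 0) i j) v)) := by
  have h1 := aeval_HS q t (Gt D.g 0) hv
  cases i with
  | zero =>
    rw [wd, List.replicate_zero, List.nil_append, run_cons]
    have h2 := UU_HS h1
    have h3 := run_HS (q := q) (t := t) (List.replicate j (Polynomial.X * Gt D.g 0)) h2
    have := D.psi_div h3 (D.PS_rep j h2 (D.PS_UU h)) 0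
    rw [run_UU_zero, sub_zero, Nat.cast_zero, neg_zero] at this
    have e : a + k - 1 + (2 * (k + 1) * j + j * j - 2 * j) +
        (k + 1 + (List.replicate j (Polynomial.X * Gt D.g 0)).length) =
        a + (2 * k * ((0:ℕ) + j + 1) + ((0:ℕ) + j) * ((0:ℕ) + j) + j) := by
      rw [List.length_replicate]; push_cast; ring
    rwa [e] at this
  | succ i =>
    have e0 : wd (Polynomial.X * Gt D.g 0) (Gt D.g 0) (i+1) j =
        (Polynomial.X * Gt D.g 0) :: wd (Polynomial.X * Gt D.g 0) (Gt D.g 0) i j := by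
      simp [wd, List.replicate_succ]
    rw [e0, run_cons, map_mul, Polynomial.aeval_X, Module.End.mul_apply]
    have := D.PO_wd i j (UU_HS (EE_HS q t h1)) (D.PS_UU (D.PS_EE h1 h))
    have e : a + k + k - 1 + (2 * (k + 1) * (i + j + 1) + (i + j) * (i + j) + j) =
        a + (2 * k * ((i + 1 : ℕ) + j + 1) + ((i + 1 : ℕ) + j) * ((i + 1 : ℕ) + j) + j) := by
      push_cast; ring
    rwa [e] at this

lemma PO_YP' (K : ℕ) {a m : ℤ} {f : Lam F} (hf : f ∈ Hm F m)
    (h : ∀ s : ℤ, s ≠ 0 → D.PO a (D.g⁻¹ • Sh (fun k => q ^ (k+1) - 1) s f)) :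
    D.PO (a + (2 * m * (K + 1) + K * (K + 1))) (D.g⁻¹ • YP q t (Gt D.g 0) K f) := by
  rw [YP, smul_sum]
  refine D.PO_sum fun i hi => ?_
  obtain ⟨j, rfl⟩ := Nat.exists_eq_add_of_le (show i ≤ K by simpa [Nat.lt_succ_iff] using hi)
  have := D.PO_qT i (PO_wd' D i j (inc_HS hf) (PS_Gt' D hf h))
  rw [smul_comm, Nat.add_sub_cancel_left]
  have e : a + (2 * m * (i + j + 1) + (i + j) * (i + j) + j) + i =
      a + (2 * m * ((i + j : ℕ) + 1) + (i + j : ℕ) * ((i + j : ℕ) + 1)) := by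
    push_cast; ring
  rwa [e] at this

omit D

lemma ip_Del (hi : Indep q t) {ι : Type} (S : Sys q t ι) (Γ : ι → F) (f h : Lam F) :
    ip q t (S.Del Γ f) h = ip q t f (S.Del Γ h) := by
  have : (ip q t) ∘ₗ (S.Del Γ) = ((ip q t).flip ∘ₗ (S.Del Γ)).flip := by
    refine S.b.ext fun i => S.b.ext fun j => ?_
    simp only [LinearMap.comp_apply, LinearMap.flip_apply, S.Del_b, map_smul,
      LinearMap.smul_apply, smul_eq_mul]
    by_cases hij : i = j
    · subst hij; rfl
    · rw [S.orth hi hij, mul_zero, mul_zero]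
  exact congrArg (fun φ => φ f h) this

/-- The diagonal operator whose matrix gives the one-part coefficients. -/
noncomputable def GG (hi : Indep q t) (g : F) : Lam F →ₗ[F] Lam F :=
  (macSys hi).Del (Gam q t (Gt g 0))

/-- The primitive symmetric coefficient. -/
noncomputable def mm (hi : Indep q t) (g : F) (d e : ℕ →₀ ℕ) : F :=
  coeff e (GG hi g (monomial d 1)) / (zd q t d * pw (br t) d * pw (br t) e)

omit [CharZero F] in
lemma pw_ne {s : ℕ → F} (hs : ∀ k, s k ≠ 0) (d : ℕ →₀ ℕ) : pw s d ≠ 0 :=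
  Finset.prod_ne_zero_iff.mpr fun k _ => pow_ne_zero _ (hs k)

omit [CharZero F] in
lemma br_ne (hi : Indep q t) (k : ℕ) : br t k ≠ 0 := by
  intro h
  have := mul_geom_sum t (k+1)
  rw [← br, h, mul_zero] at this
  exact hi.t_pow_ne k (sub_eq_zero.mp this.symm)

lemma mm_symm (hi : Indep q t) (g : F) (d e : ℕ →₀ ℕ) : mm hi g d e = mm hi g e d := by
  have h := ip_Del hi (macSys hi) (Gam q t (Gt g 0)) (monomial d 1) (monomial e 1)
  rw [ip_symm, ip_monomial, ip_monomial, one_mul, one_mul] at h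
  have h1 := zd_ne hi d
  have h2 := zd_ne hi e
  have h3 := pw_ne (br_ne hi) d
  have h4 := pw_ne (br_ne hi) e
  rw [mm, mm, GG]
  field_simp
  linear_combination h

lemma coeff_GG (hi : Indep q t) (g : F) (d e : ℕ →₀ ℕ) :
    coeff e (GG hi g (monomial d 1)) = mm hi g d e * (zd q t d * pw (br t) d) * pw (br t) e := by
  have h1 := zd_ne hi d
  have h3 := pw_ne (br_ne hi) d
  have h4 := pw_ne (br_ne hi) e
  rw [mm]; field_simp

lemma GG_single (hi : Indep q t) (g : F) (k : ℕ) :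
    (t ^ (k+1) - 1) • GG hi g (monomial (Finsupp.single k 1) 1) = Y0 q t (Gt g 0) k := by
  have h := Del_p hi (Gt g 0) k []
  rw [List.map_nil, List.prod_nil, one_mul, pk, ← smul_eq_C_mul, map_smul] at h
  exact h

lemma GG_step (hi : Indep q t) (g : F) {d : ℕ →₀ ℕ} (hd : d ≠ 0) (k : ℕ) :
    (t ^ (k+1) - 1) • GG hi g (monomial (d + Finsupp.single k 1) 1) =
      YP q t (Gt g 0) k (GG hi g (monomial d 1)) := by
  obtain ⟨s, rfl⟩ := Multiset.toFinsupp.surjective d
  obtain ⟨M, rfl⟩ := Quotient.exists_rep s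
  cases M with
  | nil => exact absurd (by simp) hd
  | cons K0 L =>
    have h1 := Del_p hi (Gt g 0) K0 L
    have h2 := Del_p hi (Gt g 0) K0 (k :: L)
    have h3 := pk_prod (t := t) (K0 :: L)
    rw [List.map_cons, List.prod_cons, mul_comm] at h3
    have hc : ((K0 :: L).map fun k => t ^ (k+1) - 1).prod ≠ 0 := by
      refine List.prod_ne_zero fun h => ?_
      obtain ⟨i, _, h5⟩ := List.mem_map.mp h
      exact hi.t_pow_ne i (sub_eq_zero.mp h5)
    generalize ((K0 :: L).map fun k => t ^ (k+1) - 1).prod = c at h3 hc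
    have h4 : (monomial (Multiset.toFinsupp ((K0 :: L : List ℕ) : Multiset ℕ)) c : Lam F) =
        c • monomial (Multiset.toFinsupp ((K0 :: L : List ℕ) : Multiset ℕ)) 1 := by
      rw [smul_monomial, smul_eq_mul, mul_one]
    rw [List.map_cons, List.prod_cons, mul_assoc, FF, ← h1, h3, h4, map_smul, YP_smul, pk, X,
      mul_smul_comm, map_smul, mul_assoc, monomial_mul, ← smul_eq_C_mul, map_smul, one_mul,
      add_comm (Finsupp.single k 1)] at h2
    exact smul_right_injective _ hc h2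

omit [CharZero F] in
lemma zd_br (hi : Indep q t) {g : F} (ht : t = 1 + g) (d : ℕ →₀ ℕ) :
    zd q t d * pw (br t) d = zn d * pw (aq g q) d := by
  have hg : g ≠ 0 := fun h => hi.t_ne_one (by rw [ht, h, add_zero])
  rw [zd, mul_assoc]
  congr 1
  induction d using fs_ind with
  | h0 => simp [pw_zero]
  | hs d j ih =>
    have h1 : 1 - t ^ (j+1) = -(g * br t j) := by
      have := mul_geom_sum t (j+1)
      rw [← br] at this
      have h : t - 1 = g := by rw [ht]; ring
      rw [← h]; linear_combination this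
    have h2 := br_ne hi j
    simp only [pw_add, pw_single]
    rw [← ih, h1, aq]
    field_simp
    ring

theorem claim (hi : Indep q t) (D : PosData q t 0) (n : ℕ) : ∀ d e : ℕ →₀ ℕ, wt d = n →
    ∀ k, d k ≠ 0 → t ^ (n * (n - 1)) * mm hi D.g d e * (aq D.g q k * br t k) ∈ D.P := by
  induction n using Nat.strong_induction_on with
  | _ n ih =>
    intro d e hd k hk
    obtain ⟨d', rfl⟩ := split_at hk
    rw [wt_add, wt_single] at hd
    have hc : (zn d' : F) * pw (aq D.g q) d' ≠ 0 := by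
      rw [← zd_br hi D.ht]; exact mul_ne_zero (zd_ne hi d') (pw_ne (br_ne hi) d')
    have key : D.PO ((n * (n - 1) : ℕ) : ℤ) (D.g⁻¹ • ((zn d' : F) * pw (aq D.g q) d')⁻¹ •
        (t ^ (k+1) - 1) • GG hi D.g (monomial (d' + Finsupp.single k 1) 1)) := by
      by_cases h0 : d' = 0
      · subst h0
        have e1 : ((n * (n - 1) : ℕ) : ℤ) = k * (k + 1) := by
          rw [← hd]; simp [wt]; ring
        rw [zero_add, GG_single, e1]
        simpa [zn, pw_zero] using D.PO_Y0 k
      · rw [GG_step hi _ h0, ← YP_smul]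
        have hf : ((zn d' : F) * pw (aq D.g q) d')⁻¹ • GG hi D.g (monomial d' 1) ∈
            Hm F (wt d') :=
          Submodule.smul_mem _ _ ((macSys hi).Del_Hm _ (monomial_mem_Hm d' 1))
        have := PO_YP' D k hf (Sh_cone D ((wt d' * (wt d' - 1) : ℕ) : ℤ) _ (mm hi D.g d')
          (fun e' => by
            rw [coeff_smul, coeff_GG, zd_br hi D.ht, smul_eq_mul, mul_right_comm,
              mul_comm _ ((zn d' : F) * pw (aq D.g q) d'), inv_mul_cancel_left₀ hc])
          (fun e' j hj => by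
            by_cases hw : wt e' = wt d'
            · rw [zpow_natCast, mm_symm]
              exact ih _ (by omega) e' d' hw j hj
            · have h1 : coeff e' (GG hi D.g (monomial d' 1)) = 0 := by
                by_contra h2
                have := Hm_coeff ((macSys hi).Del_Hm _ (monomial_mem_Hm d' 1)) h2
                exact hw (by exact_mod_cast this)
              rw [mm, h1]; simp))
        have h1 : wt d' ≠ 0 := by
          obtain ⟨i, hi'⟩ : ∃ i, d' i ≠ 0 := by
            by_contra hc; push Not at hc; exact h0 (by ext i; simp [hc])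
          have := le_wt d' hi'; omega
        have e1 : (((wt d' * (wt d' - 1) : ℕ) : ℤ) + (2 * (wt d') * (k + 1) + k * (k + 1))) =
            ((n * (n - 1) : ℕ) : ℤ) := by
          obtain ⟨m, hm⟩ : ∃ m, wt d' = m + 1 := ⟨wt d' - 1, by omega⟩
          have e2 : n - 1 = m + 1 + k := by omega
          rw [e2, ← hd, hm, Nat.add_sub_cancel]; push_cast; ring
        rwa [e1] at this
    obtain ⟨a, ha, h1⟩ := D.coeff_mem key e
    rw [zpow_natCast, coeff_smul, coeff_smul, coeff_smul, coeff_smul, coeff_GG, zd_br hi D.ht,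
      zn_succ, pw_add, pw_single, D.br_t] at h1
    have h2 := pw_ne (br_ne hi) e
    have h3 : (((k + 1) * (d' k + 1) : ℕ) : F) ≠ 0 := Nat.cast_ne_zero.mpr (by positivity)
    have h4 : t ^ (n * (n - 1)) * mm hi D.g (d' + Finsupp.single k 1) e *
        (aq D.g q k * br t k) = a * (((k + 1) * (d' k + 1) : ℕ) : F)⁻¹ := by
      have hg := D.g0
      have h5 := left_ne_zero_of_mul hc
      have h6 := right_ne_zero_of_mul hc
      simp only [smul_eq_mul, Nat.cast_mul (zn d')] at h1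
      field_simp at h1 ⊢
      linear_combination h1
    rw [h4]
    exact mul_mem ha (D.inv _)

section gauss
variable {σ : Type}

lemma ZZ_lift {p : MvPolynomial σ ℚ} (h : p ∈ ZZ σ) :
    ∃ P : MvPolynomial σ ℤ, map (Int.castRingHom ℚ) P = p := by
  choose z hz using h
  refine ⟨∑ d ∈ p.support, monomial d (z d), ?_⟩
  conv_rhs => rw [p.as_sum]
  rw [map_sum]
  exact sum_congr rfl fun d _ => by rw [map_monomial, hz]

lemma map_ZZ (P : MvPolynomial σ ℤ) : map (Int.castRingHom ℚ) P ∈ ZZ σ := fun d =>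
  ⟨coeff d P, by rw [coeff_map]⟩

lemma clear_den (p : MvPolynomial σ ℚ) :
    ∃ N : ℕ, N ≠ 0 ∧ (N : MvPolynomial σ ℚ) * p ∈ ZZ σ := by
  induction p using MvPolynomial.induction_on' with
  | monomial d a =>
    refine ⟨a.den, a.den_nz, ?_⟩
    have : (a.den : MvPolynomial σ ℚ) * monomial d a =
        map (Int.castRingHom ℚ) (monomial d a.num) := by
      rw [map_monomial, ← map_natCast (C : ℚ →+* MvPolynomial σ ℚ), C_mul_monomial,
        Rat.den_mul_eq_num]
      rfl
    rw [this]; exact map_ZZ _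
  | add p r hp hr =>
    obtain ⟨N, hN, h1⟩ := hp
    obtain ⟨M, hM, h2⟩ := hr
    refine ⟨N * M, mul_ne_zero hN hM, ?_⟩
    have : ((N * M : ℕ) : MvPolynomial σ ℚ) * (p + r) = M * (N * p) + N * (M * r) := by
      push_cast; ring
    rw [this]
    exact add_mem (mul_mem (natCast_mem _ M) h1) (mul_mem (natCast_mem _ N) h2)

lemma gauss_int (U : MvPolynomial σ ℤ) (x0 : σ → ℤ) (hU : eval x0 U = 1) (N : ℕ) :
    N ≠ 0 → ∀ P B : MvPolynomial σ ℤ, U * P = N * B → ∃ P' : MvPolynomial σ ℤ, P = N * P' := by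
  induction N using induction_on_primes with
  | zero => intro h; exact absurd rfl h
  | one => intro _ P _ _; exact ⟨P, by simp⟩
  | prime_mul l N hl ih =>
    intro hN P B h
    have hp : Prime (C (l : ℤ) : MvPolynomial σ ℤ) :=
      (MvPolynomial.prime_C_iff σ).mpr (Nat.prime_iff_prime_int.mp hl)
    have hd : (C (l : ℤ) : MvPolynomial σ ℤ) ∣ U * P :=
      ⟨N * B, by rw [h, map_natCast]; push_cast; ring⟩
    rcases hp.dvd_or_dvd hd with ⟨V, hV⟩ | ⟨P1, hP⟩
    · have h1 := congrArg (eval x0) hV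
      rw [hU, map_mul, eval_C] at h1
      have h2 : (l : ℤ) ∣ 1 := ⟨_, h1⟩
      exact absurd (by exact_mod_cast h2) hl.not_dvd_one
    · rw [map_natCast] at hP hp
      obtain ⟨P', h'⟩ := ih (right_ne_zero_of_mul hN) P1 B (mul_left_cancel₀ hp.ne_zero (by
        rw [hP] at h; push_cast at h; linear_combination h))
      exact ⟨P', by rw [hP, h']; push_cast; ring⟩

lemma gauss' (U : MvPolynomial σ ℤ) (x0 : σ → ℤ) (hU : eval x0 U = 1) {p : MvPolynomial σ ℚ}
    (h : map (Int.castRingHom ℚ) U * p ∈ ZZ σ) : p ∈ ZZ σ := by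
  obtain ⟨N, hN, h1⟩ := clear_den p
  obtain ⟨P, hP⟩ := ZZ_lift h1
  obtain ⟨B, hB⟩ := ZZ_lift h
  obtain ⟨P', h'⟩ := gauss_int U x0 hU N hN P B (by
    apply map_injective (Int.castRingHom ℚ) Int.cast_injective
    rw [map_mul, map_mul, hP, hB, map_natCast]; ring)
  rw [h', map_mul, map_natCast] at hP
  rw [← mul_left_cancel₀ (Nat.cast_ne_zero.mpr hN) hP]
  exact map_ZZ _

end gauss

section final
variable {σ : Type} {x : σ → F}

/-- The cone of polynomials with non-negative rational coefficients. -/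
noncomputable def posD (hx : AlgebraicIndependent ℚ x) {ib ig : σ} (h : ib ≠ ig) :
    PosData (1 + x ig * (1 + x ib)) (1 + x ig) 0 :=
  have mem : ∀ p ∈ NN σ,
      aeval x p ∈ (NN σ).map (aeval x : MvPolynomial σ ℚ →ₐ[ℚ] F).toRingHom :=
    fun p hp => ⟨p, hp, rfl⟩
  { P := (NN σ).map (aeval x : MvPolynomial σ ℚ →ₐ[ℚ] F).toRingHom
    b := x ib
    g := x ig
    hb := by simpa using mem _ (X_NN ib)
    hg := by simpa using mem _ (X_NN ig)
    hw := zero_mem _
    inv := fun m => by simpa using mem _ (C_NN (a := (m:ℚ)⁻¹) (by positivity))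
    g0 := fun h0 => (indep hx h).t_ne_one (by rw [h0, add_zero])
    ht := rfl
    hq := rfl
    t0 := (indep hx h).t_ne }

lemma fin_nat (hx : AlgebraicIndependent ℚ x) {ib ig : σ} (h : ib ≠ ig) {y : F}
    (hy : y ∈ (posD hx h).P) (U V : MvPolynomial σ ℤ) (x0 : σ → ℤ) (hU : eval x0 U = 1)
    (e : aeval x U * y = aeval x V) : ∃ P : MvPolynomial σ ℕ, y = aeval x P := by
  obtain ⟨p, hp, rfl⟩ := hy
  have hinj := algebraicIndependent_iff_injective_aeval.mp hx
  have hm : ∀ W : MvPolynomial σ ℤ, aeval x (map (Int.castRingHom ℚ) W) = aeval x W := fun W =>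
    aeval_map_algebraMap ℚ x W
  have h1 : map (Int.castRingHom ℚ) U * p = map (Int.castRingHom ℚ) V :=
    hinj (by rw [map_mul, hm, hm]; exact e)
  exact to_nat x hp (gauss' U x0 hU (h1 ▸ map_ZZ V))

omit [CharZero F] in
lemma aeval_qi (y : MvPolynomial σ ℤ) (i : ℕ) :
    aeval x (∑ j ∈ range i, y ^ j) = qi (aeval x y) i := by simp [qi]

lemma eval_geom (x0 : σ → ℤ) {y : MvPolynomial σ ℤ} (hy : eval x0 y = 0) {i : ℕ} (hi : 0 < i) :
    eval x0 (∑ j ∈ range i, y ^ j) = 1 := by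
  obtain ⟨k, rfl⟩ : ∃ k, i = k + 1 := ⟨i - 1, by omega⟩
  simp [sum_range_succ', hy]

omit [CharZero F] in
lemma aeval_nat (P : MvPolynomial σ ℕ) :
    aeval x (map (Nat.castRingHom ℤ) P) = aeval x P := aeval_map_algebraMap ℤ x P

theorem nat_t (hx : AlgebraicIndependent ℚ x) {ib ig : σ} (h : ib ≠ ig) {n : ℕ} (hn : 0 < n)
    (π μ : n.Partition) : ∃ P : MvPolynomial σ ℕ,
      zz μ * (1 + x ig) ^ (n * (n - 1)) * (qi (1 + x ig) n *
        coeff (dOf μ) (GG (indep hx h) (x ig) (monomial (dOf π) 1))) = aeval x P := by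
  classical
  have hi := indep hx h
  obtain ⟨N1, h1⟩ := main_nat hx h (zero_mem _) (zero_mem _) hn π μ
  rw [map_zero] at h1
  have h2 := sum_t (posD hx h) _ (dOf π) (claim hi (posD hx h) n (dOf π) (dOf μ) (wt_dOf π))
  rw [wt_dOf] at h2
  have h3 := mul_mem (mul_mem (natCast_mem _ (zz μ * zn (dOf π))) h2)
    (pw_mem (posD hx h) ((posD hx h).br_mem (posD hx h).t_mem) (dOf μ))
  refine fin_nat hx h ?_ (π.parts.map fun i => ∑ j ∈ range i, (1 + X ig) ^ j).prod
    ((∑ j ∈ range n, (1 + X ig) ^ j) * ((μ.parts.map fun i => ∑ j ∈ range i, (1 + X ig) ^ j).prod *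
      map (Nat.castRingHom ℤ) N1)) (fun i => if i = ig then -1 else 0) ?_ ?_
  · rw [coeff_GG, zd_br hi rfl]
    refine (congrArg (· ∈ (posD hx h).P) ?_).mp h3
    change _ * (_ * pw (aq (x ig) _) _ * (_ * mm hi (x ig) _ _)) * _ = _
    push_cast; ring
  · rw [map_multiset_prod, Multiset.map_map]
    refine Multiset.prod_eq_one fun y hy => ?_
    obtain ⟨i, hi', rfl⟩ := Multiset.mem_map.mp hy
    exact eval_geom _ (by simp) (π.parts_pos hi')
  · simp only [map_mul, map_multiset_prod, Multiset.map_map, Function.comp_def, aeval_qi,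
      aeval_nat, map_add, map_one, aeval_X]
    change _ * (_ * _ * (_ * coeff _ ((macSys hi).Del _ _))) = _
    linear_combination qi (1 + x ig) n * h1

theorem nat_q (hx : AlgebraicIndependent ℚ x) {ib ig : σ} (h : ib ≠ ig) {n : ℕ} (hn : 0 < n)
    (μ ν : n.Partition) : ∃ P : MvPolynomial σ ℕ,
      zz μ * zz ν * (1 + x ig) ^ (n * (n - 1)) *
        ((x ig)⁻¹ * ((1 + x ig * (1 + x ib)) ^ n - 1) *
        (coeff (dOf ν) (GG (indep hx h) (x ig) (monomial (dOf μ) 1)) /
          zqt (1 + x ig * (1 + x ib)) (1 + x ig) μ)) = aeval x P := by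
  classical
  have hi := indep hx h
  have hg : x ig ≠ 0 := (posD hx h).g0
  obtain ⟨N1, h1⟩ := main_nat hx h (zero_mem _) (zero_mem _) hn μ ν
  rw [map_zero] at h1
  have h2 := sum_q (posD hx h) _ (dOf μ) (claim hi (posD hx h) n (dOf μ) (dOf ν) (wt_dOf μ))
  rw [wt_dOf] at h2
  have h3 := mul_mem (mul_mem (natCast_mem _ (zz μ * zz ν)) h2)
    (pw_mem (posD hx h) ((posD hx h).br_mem (posD hx h).t_mem) (dOf ν))
  have hz := zd_ne hi (dOf μ)
  have haq : ∀ k, (x ig)⁻¹ * ((1 + x ig * (1 + x ib)) ^ k - 1) =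
      (1 + x ib) * qi (1 + x ig * (1 + x ib)) k := fun k => by
    rw [qi, ← mul_geom_sum]; field_simp; ring
  refine fin_nat hx h ?_
    (μ.parts.map fun i => (1 + X ib) * ∑ j ∈ range i, (1 + X ig * (1 + X ib)) ^ j).prod
    ((1 + X ib) * (∑ j ∈ range n, (1 + X ig * (1 + X ib)) ^ j) *
      ((ν.parts.map fun i => ∑ j ∈ range i, (1 + X ig) ^ j).prod *
      map (Nat.castRingHom ℤ) N1)) (fun i => if i = ig then -1 else 0) ?_ ?_
  · rw [coeff_GG, ← zd_dOf]
    refine (congrArg (· ∈ (posD hx h).P) ?_).mp h3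
    change _ * ((x ig)⁻¹ * _ * _ * (_ * mm hi (x ig) _ _)) * _ = _
    push_cast; field_simp
  · rw [map_multiset_prod, Multiset.map_map]
    refine Multiset.prod_eq_one fun y hy => ?_
    obtain ⟨i, hi', rfl⟩ := Multiset.mem_map.mp hy
    rw [Function.comp_apply, map_mul, eval_geom _ (by simp [h]) (μ.parts_pos hi')]
    simp [h]
  · simp only [map_mul, map_multiset_prod, Multiset.map_map, Function.comp_def, aeval_qi,
      aeval_nat, map_add, map_one, aeval_X]
    have e1 := zd_br hi rfl (dOf μ)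
    have e2 : pw (br (1 + x ig)) (dOf μ) = (μ.parts.map (qi (1 + x ig))).prod :=
      prod_dOf μ (qi (1 + x ig))
    have e3 : pw (aq (x ig) (1 + x ig * (1 + x ib))) (dOf μ) =
        (μ.parts.map fun i => (1 + x ib) * qi (1 + x ig * (1 + x ib)) i).prod := by
      rw [← funext haq]
      exact prod_dOf μ fun k => (x ig)⁻¹ * ((1 + x ig * (1 + x ib)) ^ k - 1)
    rw [e2, e3, zn_dOf] at e1
    rw [haq, ← zd_dOf, ← h1]
    change _ * (_ * _ * _ * (_ * (coeff _ ((macSys hi).Del _ _) / _))) = _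
    generalize coeff (dOf ν) ((macSys hi).Del (Gam (1 + x ig * (1 + x ib)) (1 + x ig)
      (Gt (x ig) 0)) (monomial (dOf μ) 1)) = c
    have e4 := div_mul_cancel₀ c hz
    generalize c / zd (1 + x ig * (1 + x ib)) (1 + x ig) (dOf μ) = r at e4 ⊢
    linear_combination (-(zz ν * (1 + x ig) ^ (n * (n - 1)) * (1 + x ib) *
      qi (1 + x ig * (1 + x ib)) n * r)) * e1 + (zz ν * (1 + x ig) ^ (n * (n - 1)) * (1 + x ib) *
      qi (1 + x ig * (1 + x ib)) n * (μ.parts.map (qi (1 + x ig))).prod) * e4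

end final

lemma cco_one (hi : Indep q t) {n : ℕ} (hn : 0 < n) {g : F} (ht : t = 1 + g)
    (π μ : n.Partition) :
    cco q t (mac hi) π μ (Nat.Partition.indiscrete n) * zz (Nat.Partition.indiscrete n) =
      qi t n * coeff (dOf μ) (GG hi g (monomial (dOf π) 1)) := by
  have h3 := cco_sum hi hn _ _ _ (Jc_one hi hn ht) π μ
  simp only [mul_ite, mul_zero, sum_ite_eq', mem_univ, if_true] at h3
  exact h3

omit [CharZero F] in
lemma cco_swap {n : ℕ} (P : n.Partition → n.Partition → F) (π μ ν : n.Partition) :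
    cco q t P π μ ν = cco q t P π ν μ := by
  unfold cco
  congr 1
  exact sum_congr rfl fun l _ => by ring

omit [CharZero F] in
lemma cco_rot {n : ℕ} (P : n.Partition → n.Partition → F) (π μ ν : n.Partition) :
    zqt q t μ * cco q t P π μ ν = zqt q t π * cco q t P μ ν π := by
  unfold cco
  rw [mul_left_comm]
  congr 2
  exact sum_congr rfl fun l _ => by ring

lemma cco_top (hi : Indep q t) {n : ℕ} (hn : 0 < n) {g : F} (ht : t = 1 + g)
    (μ ν : n.Partition) :
    cco q t (mac hi) (Nat.Partition.indiscrete n) μ ν =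
      g⁻¹ * (q ^ n - 1) * (coeff (dOf ν) (GG hi g (monomial (dOf μ) 1)) / zqt q t μ) := by
  have hg : g ≠ 0 := fun h => hi.t_ne_one (by rw [ht, h, add_zero])
  have h1 := cco_one hi hn ht μ ν
  have h2 := cco_rot (q := q) (t := t) (mac hi) (Nat.Partition.indiscrete n) μ ν
  have hz := zd_ne hi (dOf μ)
  rw [zd_dOf] at hz
  have hp : (Nat.Partition.indiscrete n).parts = {n} := Nat.Partition.indiscrete_parts hn.ne'
  have h3 : zqt q t (Nat.Partition.indiscrete n) =
      zz (Nat.Partition.indiscrete n) * ((1 - q ^ n) / (1 - t ^ n)) := by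
    rw [zqt, hp, Multiset.map_singleton, Multiset.prod_singleton]
  have h4 : 1 - t ^ n = -(g * qi t n) := by
    have := mul_geom_sum t n
    have h : t - 1 = g := by rw [ht]; ring
    rw [qi, ← h]; linear_combination this
  have h5 : qi t n ≠ 0 := by
    obtain ⟨k, rfl⟩ : ∃ k, n = k + 1 := ⟨n - 1, by omega⟩
    exact br_ne hi k
  rw [h3, h4] at h2
  field_simp at h2 ⊢
  apply mul_left_cancel₀ h5
  linear_combination h2 + (q ^ n - 1) * h1

end One22
end MJ
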