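import Pool.Agent.Lib.MP_9c49f6_co.TBlue

/-! Closure properties of the relation `Rd`. -/

namespace MJT.Pl
open Finset

variable {F K : Type} [Field F] [Field K] {Rd : F → K → Prop} (h : Pl Rd)
include h

lemma zero' : Rd 0 0 := by simpa using h.add h.one (h.neg h.one)

lemma sub {x y : F} {a b : K} (h1 : Rd x a) (h2 : Rd y b) : Rd (x - y) (a - b) := by
  rw [sub_eq_add_neg, sub_eq_add_neg]; exact h.add h1 (h.neg h2)

lemma nat (m : ℕ) : Rd (m : F) (m : K) := by
  induction m with
  | zero => simpa using h.zero'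
  | succ m ih => push_cast; exact h.add ih h.one

lemma int (m : ℤ) : Rd (m : F) (m : K) := by
  obtain ⟨k, rfl | rfl⟩ := Int.eq_nat_or_neg m
  · simpa using h.nat k
  · simpa using h.neg (h.nat k)

lemma ne {x : F} {a : K} (h1 : Rd x a) (ha : a ≠ 0) : x ≠ 0 := fun e => ha (h.zero (e ▸ h1))

lemma uniq {x : F} {a b : K} (h1 : Rd x a) (h2 : Rd x b) : a = b :=
  sub_eq_zero.mp (h.zero (by simpa using h.sub h1 h2))

lemma div {x y : F} {a b : K} (h1 : Rd x a) (h2 : Rd y b) (hb : b ≠ 0) : Rd (x / y) (a / b) := by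
  rw [div_eq_mul_inv, div_eq_mul_inv]; exact h.mul h1 (h.inv h2 hb)

lemma pow {x : F} {a : K} (h1 : Rd x a) (m : ℕ) : Rd (x ^ m) (a ^ m) := by
  induction m with
  | zero => simpa using h.one
  | succ m ih => rw [pow_succ, pow_succ]; exact h.mul ih h1

lemma zpow {x : F} {a : K} (h1 : Rd x a) (ha : a ≠ 0) (m : ℤ) : Rd (x ^ m) (a ^ m) := by
  obtain ⟨k, rfl | rfl⟩ := Int.eq_nat_or_neg m
  · simpa using h.pow h1 k
  · simpa using h.inv (h.pow h1 k) (pow_ne_zero _ ha)

lemma sum {ι : Type} (s : Finset ι) {x : ι → F} {a : ι → K} (h1 : ∀ i ∈ s, Rd (x i) (a i)) :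
    Rd (∑ i ∈ s, x i) (∑ i ∈ s, a i) := by
  classical
  induction s using Finset.induction_on with
  | empty => simpa using h.zero'
  | insert i s hi ih =>
    rw [sum_insert hi, sum_insert hi]
    exact h.add (h1 i (by simp)) (ih fun j hj => h1 j (by simp [hj]))

lemma prod {ι : Type} (s : Finset ι) {x : ι → F} {a : ι → K} (h1 : ∀ i ∈ s, Rd (x i) (a i)) :
    Rd (∏ i ∈ s, x i) (∏ i ∈ s, a i) := by
  classical
  induction s using Finset.induction_on with
  | empty => simpa using h.one
  | insert i s hi ih =>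
    rw [prod_insert hi, prod_insert hi]
    exact h.mul (h1 i (by simp)) (ih fun j hj => h1 j (by simp [hj]))

lemma mprod {ι : Type} (s : Multiset ι) {x : ι → F} {a : ι → K}
    (h1 : ∀ i ∈ s, Rd (x i) (a i)) : Rd (s.map x).prod (s.map a).prod := by
  induction s using Multiset.induction_on with
  | empty => simpa using h.one
  | cons i s ih =>
    rw [Multiset.map_cons, Multiset.map_cons, Multiset.prod_cons, Multiset.prod_cons]
    exact h.mul (h1 i (by simp)) (ih fun j hj => h1 j (by simp [hj]))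

lemma ite (p : Prop) [Decidable p] : Rd (if p then 1 else 0) (if p then 1 else 0) := by
  split_ifs
  · exact h.one
  · exact h.zero'

lemma qi {x : F} {a : K} (h1 : Rd x a) (m : ℕ) : Rd (MJ.qi x m) (MJ.qi a m) :=
  h.sum _ fun _ _ => h.pow h1 _

end MJT.Pl
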