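import Pool.Agent.Lib.MP_9c49f6_co.Three
import Pool.Agent.Lib.MP_9c49f6_co.T_Pl

/-! Polynomiality and integrality of the coefficients: definitions and statements of the steps. -/

namespace MJP
open MJ MJT Finset MvPolynomial

/-- all partitions -/
abbrev Pt : Type := Σ n : ℕ, n.Partition

section defs
variable {F : Type} [Field F]

/-- moments of the Lax operator -/
noncomputable def JJ (q t : F) (j : ℕ) : Lam F →ₗ[F] Lam F :=
  Finsupp.lapply 0 ∘ₗ (EE q t ^ j) ∘ₗ inc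

/-- creation of one cell, with weight `x^(s-1)` -/
noncomputable def YS (q t : F) (s : ℕ) : Lam F →ₗ[F] Lam F :=
  psi q t 1 ∘ₗ (EE q t ^ s) ∘ₗ iota q t

/-- `h_n[X/(1-q)]` -/
noncomputable def uu (q : F) (n : ℕ) : Lam F := gen (fun k => (1 - q ^ (k + 1))⁻¹) n

/-- `q, t, q-1, t-1` are units of `R` -/
structure Good (q t : F) (R : Subring F) : Prop where
  q1 : q ∈ R
  q2 : q⁻¹ ∈ R
  t1 : t ∈ R
  t2 : t⁻¹ ∈ R
  q3 : (q - 1)⁻¹ ∈ R
  t3 : (t - 1)⁻¹ ∈ R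

/-- the quantity of the question -/
def WW (q t : F) {n : ℕ} (P : n.Partition → n.Partition → F) (π μ ν : n.Partition) : F :=
  zz μ * zz ν * t ^ (n * (n - 1)) * cco q t P π μ ν

/-- the polynomials `P_λ` and the dual family have coefficients in `O` -/
def Reg (q t : F) (O : F → Prop) {n : ℕ} (P : n.Partition → n.Partition → F) : Prop :=
  ∀ l μ, O (P l μ) ∧ O (zqt q t μ * P l μ / scal q t (P l) (P l))

/-- `y` is a quotient of integer polynomials in `x` with value `a` under `ev` -/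
def Rv {K : Type} [Field K] (x : Fin 2 → F) (ev : MvPolynomial (Fin 2) ℤ →+* K) (y : F) (a : K) :
    Prop :=
  ∃ A B : MvPolynomial (Fin 2) ℤ, ev B ≠ 0 ∧ aeval x B * y = aeval x A ∧ a * ev B = ev A

variable [CharZero F] {q t : F}

/-- the diagonal operator with eigenvalue function `a` -/
noncomputable abbrev Dg (hi : Indep q t) (a : Pt → F) : Lam F →ₗ[F] Lam F := (macSys hi).Del a

/-- eigenvalues of `JJ` -/
noncomputable def rj (hi : Indep q t) (j : ℕ) (i : Pt) : F :=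
  (macSys hi).b.repr (JJ q t j ((macSys hi).b i)) i

end defs

def St_GEN : Prop := ∀ (F : Type) [Field F] [CharZero F] (q t : F), Indep q t →
  ∀ R : Subring F, Good q t R → ∀ (n : ℕ) (N : AddSubgroup (Lam F)),
  (∀ g ∈ IL R t, g ∈ Hm F n → YS q t 0 g ∈ N ∧ YS q t 1 g ∈ N) →
  ∀ f ∈ IL R t, f ∈ Hm F (n + 1 : ℕ) → f ∈ N

def St_EIG : Prop := ∀ (F : Type) [Field F] [CharZero F] (q t : F) (hi : Indep q t),
  (∀ j, Dg hi (rj hi j) = JJ q t j) ∧ ∀ (i k : Pt) (c : ℕ × ℕ),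
  (cells k.2).val = c ::ₘ (cells i.2).val →
  PowerSeries.mk (fun j => rj hi j i) * ((1 - PowerSeries.C (mono q t c) * PowerSeries.X) *
      (1 - PowerSeries.C (q * t⁻¹ * mono q t c) * PowerSeries.X)) =
    PowerSeries.mk (fun j => rj hi j k) * ((1 - PowerSeries.C (q * mono q t c) * PowerSeries.X) *
      (1 - PowerSeries.C (t⁻¹ * mono q t c) * PowerSeries.X))

def St_SYM : Prop := ∀ (F : Type) [Field F] [CharZero F] (q t : F) (hi : Indep q t)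
  (a : Pt → F) (e N : ℕ) (A : ℕ → Pt → F),
  (∀ (i k : Pt) (c : ℕ × ℕ), (cells k.2).val = c ::ₘ (cells i.2).val →
    a i * mono q t c ^ e = ∑ s ∈ range N, A s k * mono q t c ^ s) →
  ∀ (r : ℕ) (f : Lam F),
    YS q t (r + e) (Dg hi a f) = ∑ s ∈ range N, Dg hi (A s) (YS q t (r + s) f)

def St_UU : Prop := ∀ (F : Type) [Field F] [CharZero F] (q t : F), Indep q t →
  ∀ R : Subring F, Good q t R → ∀ (n : ℕ) (U : AddSubgroup (Lam F)), uu q (n + 1) ∈ U →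
  (∀ f ∈ U, (∀ r ∈ R, r • f ∈ U) ∧ ∀ j, JJ q t j f ∈ U) → ∀ s, YS q t s (uu q n) ∈ U

def St_CYC : Prop := ∀ (F : Type) [Field F] [CharZero F] (q t : F) (hi : Indep q t)
  (R : Subring F), Good q t R → ∀ (n : ℕ), ∀ f ∈ IL R t, f ∈ Hm F n →
  ∃ a : Pt → F, (∀ g ∈ IL R t, Dg hi a g ∈ IL R t) ∧ f = Dg hi a (uu q n)

def St_COEF : Prop := ∀ (F : Type) [Field F] [CharZero F] (q t : F) (hi : Indep q t)
  (R : Subring F), Good q t R → ∀ (n : ℕ) (π μ ν : n.Partition), ∃ r ∈ R,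
  WW q t (mac hi) π μ ν * ((μ.parts.map fun i => q ^ i - 1).prod *
    (ν.parts.map fun i => q ^ i - 1).prod) = r

def St_LOC : Prop := ∀ (F : Type) [Field F] (O : Subring F) (b g : F), b ∈ O → g ∈ O → g ≠ 0 →
  1 + g ≠ 0 → ∀ (n : ℕ) (P : n.Partition → n.Partition → F),
  Reg (1 + g * (1 + b)) (1 + g) (· ∈ O) P →
  ∀ π μ ν, WW (1 + g * (1 + b)) (1 + g) P π μ ν ∈ O

def St_GS : Prop := ∀ (F : Type) [Field F] [CharZero F] (Rd : F → ℚ → Prop), Pl Rd →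
  ∀ (q t : F) (n : ℕ) (P : n.Partition → n.Partition → F), Orth (zqt q t) P →
  (∀ μ : n.Partition, ∃ v, 0 < v ∧ Rd (zqt q t μ) v) → Reg q t (fun y => ∃ a, Rd y a) P

def St_SEP : Prop := ∀ (F K : Type) [Field F] [Field K] [CharZero F] [CharZero K]
  (Rd : F → K → Prop), Pl Rd → ∀ (q t : F) (hi : Indep q t) (q0 t0 : K) (k : ℕ), Rd q q0 →
  Rd t t0 → q0 ^ (k + 1) = 1 → t0 ≠ 0 → (∀ m, t0 ^ (m + 1) ≠ 1) →
  ∀ n : ℕ, Reg q t (fun y => ∃ a, Rd y a) (mac (n := n) hi)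

def St_UFD : Prop := ∀ (F : Type) [Field F] [CharZero F] (x : Fin 2 → F),
  AlgebraicIndependent ℚ x →
  (∀ (K : Type) [Field K] (ev : MvPolynomial (Fin 2) ℤ →+* K), Pl (Rv x ev)) ∧
  ∀ (y : F) (s A : MvPolynomial (Fin 2) ℤ), s ≠ 0 → aeval x s * y = aeval x A →
  (∀ p, Prime p → p ∣ s → ∃ B A' : MvPolynomial (Fin 2) ℤ,
    ¬ p ∣ B ∧ aeval x B * y = aeval x A') →
  ∃ N : MvPolynomial (Fin 2) ℤ, y = aeval x N

def St_PRI : Prop := ∀ p : MvPolynomial (Fin 2) ℤ, Prime p →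
  (p ∣ X 1 → eval ![0, 0] p = 0) ∧ (p ∣ 1 + X 1 → eval ![0, -1] p = 0) ∧
  (p ∣ 1 + X 1 * (1 + X 0) → eval ![0, -1] p = 0) ∧
  ∀ k : ℕ, p ∣ (1 + X 1 * (1 + X 0)) ^ (k + 1) - 1 → ¬ p ∣ X 1 →
    (∀ m : ℕ, ¬ p ∣ (m + 1 : ℕ)) ∧ ¬ p ∣ 1 + X 1 ∧ ∀ m : ℕ, ¬ p ∣ (1 + X 1) ^ (m + 1) - 1

def St_POLY : Prop := ∀ (F : Type) [Field F] [CharZero F] (b g : F),
  AlgebraicIndependent ℚ ![b, g] → ∀ (hi : Indep (1 + g * (1 + b)) (1 + g)) (n : ℕ)
  (π μ ν : n.Partition), ∃ N : MvPolynomial (Fin 2) ℤ,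
    WW (1 + g * (1 + b)) (1 + g) (mac hi) π μ ν = aeval ![b, g] N

def St_TRANS : Prop := ∀ (F F' : Type) [Field F] [CharZero F] [Field F'] [CharZero F']
  (b g : F) (b' g' : F'), AlgebraicIndependent ℚ ![b, g] → AlgebraicIndependent ℚ ![b', g'] →
  ∀ (hi : Indep (1 + g * (1 + b)) (1 + g)) (hi' : Indep (1 + g' * (1 + b')) (1 + g')) (n : ℕ)
  (π μ ν : n.Partition) (N : MvPolynomial (Fin 2) ℤ),
  WW (1 + g * (1 + b)) (1 + g) (mac hi) π μ ν = aeval ![b, g] N →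
  WW (1 + g' * (1 + b')) (1 + g') (mac hi') π μ ν = aeval ![b', g'] N

end MJP
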