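import Pool.Agent.Lib.MP_9c49f6_co.T_Pl

/-! The limit `t → 1` of the coefficients. -/

namespace MJT
open MJ Finset MvPolynomial

namespace LIM15
variable {F : Type} [Field F] {n : ℕ}

lemma rc_cast (μ κ : n.Partition) : (rc μ κ : F) = coeff (expo κ) (psumPart (Fin n) F μ) := by
  have : psumPart (Fin n) F μ = map (Nat.castRingHom F) (psumPart (Fin n) ℕ μ) := by
    rw [psumPart, psumPart, map_multiset_prod, Multiset.map_map]
    congr 1
    exact Multiset.map_congr rfl fun i _ => by simp [psum]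
  rw [this, coeff_map, rc]; rfl

lemma coeff_sym' (a : n.Partition → F) (κ : n.Partition) :
    coeff (expo κ) (sym a) = ∑ μ, a μ * rc μ κ := by
  simp only [sym, coeff_sum, coeff_smul, rc_cast, smul_eq_mul]

lemma orth_of {q t : F} {P : n.Partition → n.Partition → F} (hP : IsMac q t P) :
    Orth (zqt q t) P where
  lead l := by rw [← coeff_sym', hP.lead]
  tri l k h := hP.tri l k (by rwa [coeff_sym'])
  orth := hP.orth

lemma one_sub_pow (q : F) (i : ℕ) : 1 - q ^ i = (1 - q) * qi q i := by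
  rw [qi, mul_neg_geom_sum]

lemma pow_ne {q : F} (h : ∀ k, q ^ (k + 1) ≠ 1) {i : ℕ} (hi : 0 < i) : 1 - q ^ i ≠ 0 := by
  obtain ⟨j, rfl⟩ : ∃ j, i = j + 1 := ⟨i - 1, by omega⟩
  exact sub_ne_zero.mpr (h j).symm

lemma qi_ne {q : F} (h : ∀ k, q ^ (k + 1) ≠ 1) {i : ℕ} (hi : 0 < i) : qi q i ≠ 0 :=
  right_ne_zero_of_mul (one_sub_pow q i ▸ pow_ne h hi)

lemma mprod_ne (μ : n.Partition) {f : ℕ → F} (h : ∀ i, 0 < i → f i ≠ 0) :
    (μ.parts.map f).prod ≠ 0 := by
  refine Multiset.prod_ne_zero fun h0 => ?_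
  obtain ⟨i, h1, h2⟩ := Multiset.mem_map.mp h0
  exact h i (μ.parts_pos h1) h2

lemma zqt_scale {q t θ : F} (hi : Indep q t) (e : θ * (q - 1) = t - 1) (μ : n.Partition) :
    θ ^ ln μ * zqt q t μ = zz μ * (μ.parts.map fun i => qi q i / qi t i).prod := by
  rw [zqt, mul_left_comm, ln, ← Multiset.prod_replicate, ← Multiset.map_const',
    ← Multiset.prod_map_mul]
  congr 2
  refine Multiset.map_congr rfl fun i h => ?_
  have h1 := qi_ne hi.t_pow_ne (μ.parts_pos h)
  have h2 := sub_ne_zero.mpr hi.t_ne_one.symm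
  rw [one_sub_pow q, one_sub_pow t]
  field_simp
  linear_combination (-qi q i) * e

lemma gl_eq (q : F) (M : Multiset ℕ) :
    (M.map (gl q)).prod * (1 - q) ^ M.sum = q ^ (M.map fun i => i.choose 2).sum *
      (M.map fun i => ∏ j ∈ range i, (1 - q ^ (j + 1))).prod := by
  induction M using Multiset.induction_on with
  | empty => simp
  | cons a M ih =>
    simp only [Multiset.map_cons, Multiset.prod_cons, Multiset.sum_cons, pow_add]
    have : ∏ j ∈ range a, (1 - q ^ j * q ^ 1) = (1 - q) ^ a * ∏ j ∈ range a, qi q (j + 1) := by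
      simp only [← pow_add, one_sub_pow q, prod_mul_distrib, prod_const, card_range]
    simp only [pow_add] at ih
    rw [this, gl]
    linear_combination (q ^ a.choose 2 * (∏ j ∈ range a, qi q (j + 1)) * (1 - q) ^ a) * ih

variable [CharZero F]

lemma zz_ne (μ : n.Partition) : (zz μ : F) ≠ 0 := by
  rw [← zn_dOf]; exact_mod_cast zn_ne _

lemma rc_inj (v : n.Partition → F) (h : ∀ k, ∑ μ, v μ * rc μ k = 0) : v = 0 :=
  Th_inj ((cf_part_inj (Th_Hm v) fun k => by rw [← coeff_sym, coeff_sym', h]).trans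
    (map_zero _).symm)

lemma expand {q t : F} (hi : Indep q t) (μ π : n.Partition) :
    ∑ l, zqt q t μ * mac hi l μ / scal q t (mac hi l) (mac hi l) * mac hi l π =
      if μ = π then 1 else 0 := by
  classical
  obtain ⟨c, hc⟩ := mac_span hi (Pi.single μ 1)
  have h1 : ∀ π, ∑ k, c k * mac hi k π = if μ = π then 1 else 0 := fun π => by
    have := congrFun hc π
    simpa [Pi.single_apply, eq_comm] using this
  rw [← h1]
  refine sum_congr rfl fun l _ => ?_
  have h3 := mac_norm hi l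
  rw [ip_Th] at h3
  have h2 : ∑ k, c k * scal q t (mac hi k) (mac hi l) = zqt q t μ * mac hi l μ := by
    simp only [scal, mul_sum]
    rw [sum_comm]
    simp only [← mul_assoc, ← sum_mul, h1]
    simp [mul_comm]
  rw [sum_eq_single l (fun k _ hk => by rw [(isMac_mac hi).orth k l hk, mul_zero]) (by simp)] at h2
  rw [← h2, mul_div_cancel_right₀ _ h3]

lemma gam {q t : F} (hi : Indep q t) (l : n.Partition) :
    (∑ μ, zqt q t μ * mac hi l μ / scal q t (mac hi l) (mac hi l) *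
      (zz μ * (μ.parts.map fun i => 1 - q ^ i).prod)⁻¹) *
      (cArm q t l * scal q t (mac hi l) (mac hi l)) = t ^ nRow l := by
  have h3 := mac_norm hi l
  rw [ip_Th] at h3
  rw [← phi_mac hi n l, phi_Th, sum_mul, mul_sum]
  refine sum_congr rfl fun μ _ => ?_
  have h1 := zz_ne (F := F) μ
  have h2 := mprod_ne μ fun i h => pow_ne hi.q_pow_ne h
  have h4 : (μ.parts.map fun i => (1 - q ^ i) / (1 - t ^ i)).prod =
      (μ.parts.map fun i => 1 - q ^ i).prod *
        (μ.parts.map fun i => (1 - (0 : F) ^ i) / (1 - t ^ i)).prod := by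
    rw [← Multiset.prod_map_mul]
    congr 1
    refine Multiset.map_congr rfl fun i h => ?_
    rw [zero_pow (μ.parts_pos h).ne', sub_zero, mul_one_div]
  rw [zqt, h4]
  field_simp

end LIM15
open LIM15

theorem st_LIM (hN : St_NAK) (hG : St_REG) (hC : St_CAU) (hQ : St_QB) : St_LIM := by
  intro F K _ _ _ _ Rd h q t θ q0 hi r0 rq rt e hq n
  classical
  have ht1 := sub_ne_zero.mpr hi.t_ne_one
  have hθ : θ ≠ 0 := left_ne_zero_of_mul (e ▸ ht1)
  have hq1 : 1 - q ≠ 0 := by simpa using pow_ne hi.q_pow_ne one_pos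
  have hq0 : 1 - q0 ≠ 0 := by simpa using pow_ne hq one_pos
  have vz : ∀ μ : n.Partition, Rd (θ ^ ln μ * zqt q t μ) (zz μ * vq q0 μ) := fun μ => by
    rw [zqt_scale hi e]
    refine h.mul (h.nat _) (h.mprod _ fun i hm => ?_)
    have := h.qi rt i
    rw [show qi (1 : K) i = i by simp [qi]] at this
    exact h.div (h.qi rq i) this (by exact_mod_cast (μ.parts_pos hm).ne')
  have vq0 : ∀ μ : n.Partition, vq q0 μ ≠ 0 := fun μ =>
    mprod_ne μ fun i hm => div_ne_zero (qi_ne hq hm) (by exact_mod_cast hm.ne')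
  have v0 : ∀ μ : n.Partition, zz μ * vq q0 μ ≠ 0 := fun μ => mul_ne_zero (zz_ne μ) (vq0 μ)
  have hU := hG F K Rd h n θ _ _ hθ r0 vz v0 _ (orth_of (isMac_mac hi))
  choose m0 hm1 hm2 using fun l => hN F K Rd h _ (fun μ k : n.Partition => (rc μ k : F))
    (fun μ k => (rc μ k : K)) (fun _ _ => h.nat _) rc_inj (mac hi l) _ (hU l)
  refine ⟨m0, hm2, fun π μ ν => ?_⟩
  set x : n.Partition → n.Partition → F :=
    fun μ l => zqt q t μ * mac hi l μ / scal q t (mac hi l) (mac hi l) with hx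
  have rx : ∀ μ l, Rd (x μ l) (rc μ l) := fun μ => by
    obtain ⟨y0, h1, h2⟩ := hN F K Rd h _ _ _ hU (fun v hv => funext fun j => by
      simpa using hv j) (x μ) (fun k => rc μ k) fun k => by
        simp only [mul_sum, ← mul_assoc]
        rw [sum_comm]
        simp only [← sum_mul, hx, expand hi]
        simpa using h.nat _
    intro l
    have := h2 l
    simp only [mul_ite, mul_one, mul_zero, sum_ite_eq', mem_univ, if_true] at this
    exact this ▸ h1 l
  set Γ : n.Partition → F :=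
    fun l => ∑ μ, x μ l * (zz μ * (μ.parts.map fun i => 1 - q ^ i).prod)⁻¹ with hΓ
  have g0 : ∀ l : n.Partition, (l.parts.map (ex K fun k => (1 - q0 ^ (k + 1))⁻¹)).prod *
      (l.parts.map fun i => ∏ j ∈ range i, (1 - q0 ^ (j + 1))).prod = 1 := fun l => by
    rw [← Multiset.prod_map_mul]
    simp only [(hQ K q0 hq).1]
    simp
  have rΓ : ∀ l, Rd (Γ l) (l.parts.map (ex K fun k => (1 - q0 ^ (k + 1))⁻¹)).prod := fun l => by
    rw [← hC K K _ n l]
    refine h.sum _ fun μ _ => ?_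
    have h2 := mprod_ne μ fun i h => pow_ne hq h
    have h3 := h.mul (rx μ l) (h.inv (h.mul (h.nat (zz μ))
      (h.mprod μ.parts fun i _ => h.sub h.one (h.pow rq i))) (mul_ne_zero (zz_ne μ) h2))
    have h4 : (μ.parts.map fun i => (1 - q0 ^ (i - 1 + 1))⁻¹).prod =
        (μ.parts.map fun i => 1 - q0 ^ i).prod⁻¹ := by
      rw [← Multiset.prod_map_inv]
      congr 1
      refine Multiset.map_congr rfl fun i hm => ?_
      rw [Nat.sub_add_cancel (μ.parts_pos hm)]
    rwa [h4, smul_eq_mul, div_eq_mul_inv, mul_assoc, ← mul_inv]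
  have rw' : ∀ l : n.Partition, Rd (q ^ nCol l * t⁻¹ ^ nRow l / (Γ l * (1 - q) ^ n))
      (l.parts.map (gl q0)).prod := fun l => by
    have h1 := left_ne_zero_of_mul_eq_one (g0 l)
    have h2 := h.div (h.mul (h.pow rq (nCol l)) (h.pow (h.inv rt one_ne_zero) (nRow l)))
      (h.mul (rΓ l) (h.pow (h.sub h.one rq) n)) (mul_ne_zero h1 (pow_ne_zero _ hq0))
    have h3 := gl_eq q0 l.parts
    rw [l.parts_sum, ← (hQ K q0 hq).2] at h3
    have h4 := g0 l
    generalize (l.parts.map (ex K fun k => (1 - q0 ^ (k + 1))⁻¹)).prod = g at h1 h2 h4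
    have h5 : (l.parts.map (gl q0)).prod = q0 ^ nCol l * 1⁻¹ ^ nRow l / (g * (1 - q0) ^ n) := by
      rw [eq_div_iff (mul_ne_zero h1 (pow_ne_zero _ hq0)), inv_one, one_pow]
      linear_combination g * h3 + q0 ^ nCol l * h4
    rwa [h5]
  have key := h.mul (h.pow rt (n * (n - 1))) (h.mul (h.div (h.mul (h.mul (h.nat (zz μ))
    (h.nat (zz ν))) (vz π)) (h.mul (vz μ) (vz ν)) (mul_ne_zero (v0 μ) (v0 ν)))
    (h.sum univ fun l _ => h.mul (h.mul (h.mul (rw' l) (rx μ l)) (rx ν l)) (hm1 l π)))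
  have e1 : lim q0 m0 π μ ν = 1 ^ (n * (n - 1)) * (zz μ * zz ν * (zz π * vq q0 π) /
      (zz μ * vq q0 μ * (zz ν * vq q0 ν)) *
      ∑ l : n.Partition, (l.parts.map (gl q0)).prod * rc μ l * rc ν l * m0 l π) := by
    have := zz_ne (F := K) μ
    have := zz_ne (F := K) ν
    have := vq0 μ
    have := vq0 ν
    rw [lim, one_pow, one_mul]
    congr 1
    field_simp
  have zne : ∀ μ : n.Partition, zqt q t μ ≠ 0 := fun μ =>
    right_ne_zero_of_mul (h.ne (vz μ) (v0 μ))
  have e2 : θ ^ n * cco q t (mac hi) π μ ν = zqt q t π / (zqt q t μ * zqt q t ν) *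
      ∑ l, q ^ nCol l * t⁻¹ ^ nRow l / (Γ l * (1 - q) ^ n) * x μ l * x ν l * mac hi l π := by
    rw [cco, mul_left_comm, div_mul_eq_mul_div, mul_div_assoc, mul_sum, sum_div]
    congr 1
    refine sum_congr rfl fun l _ => ?_
    have h1 : Γ l * _ = _ := gam hi l
    have h2 : scal q t (Jc q t (mac hi) l) (Jc q t (mac hi) l) =
        (cArm q t l / (1 - t) ^ n) ^ 2 * scal q t (mac hi l) (mac hi l) := by
      simp only [scal, Jc, mul_sum]; exact sum_congr rfl fun _ _ => by ring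
    have h3 := mac_norm hi l
    rw [ip_Th] at h3
    have h4 := hi.t_ne
    have h5 := h1 ▸ pow_ne_zero (nRow l) h4
    have h6 := left_ne_zero_of_mul h5
    have h7 := left_ne_zero_of_mul (right_ne_zero_of_mul h5)
    have h8 : (1 - t) ^ n = θ ^ n * (1 - q) ^ n := by
      rw [← mul_pow]; congr 1; linear_combination e
    have h9 := zne μ
    have h10 := zne ν
    rw [h2, Jc, Jc, Jc, h8, two_mul, pow_add, inv_pow, ← h1]
    simp only [hx]
    field_simp
  have e3 : cco q t (mac hi) π μ ν = _ :=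
    eq_div_of_mul_eq (pow_ne_zero n hθ) ((mul_comm _ _).trans e2)
  rw [e1, e3]
  generalize (∑ l, q ^ nCol l * t⁻¹ ^ nRow l / (Γ l * (1 - q) ^ n) * x μ l * x ν l *
    mac hi l π) = S at key ⊢
  have e4 : θ ^ ((n : ℤ) + ln π - ln μ - ln ν) * (zz μ * zz ν * t ^ (n * (n - 1)) *
      (zqt q t π / (zqt q t μ * zqt q t ν) * S / θ ^ n)) = t ^ (n * (n - 1)) *
      (zz μ * zz ν * (θ ^ ln π * zqt q t π) / (θ ^ ln μ * zqt q t μ * (θ ^ ln ν * zqt q t ν)) *
        S) := by
    have := zne μ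
    have := zne ν
    rw [zpow_sub₀ hθ, zpow_sub₀ hθ, zpow_add₀ hθ, zpow_natCast, zpow_natCast, zpow_natCast,
      zpow_natCast]
    field_simp
  rwa [e4]

end MJT
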