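import Pool.Agent.Lib.MP_9c49f6_co.PBlue
import Pool.Agent.Lib.MP_9c49f6_co.T_LIM

/-! The coefficients have only the expected denominators. -/

namespace MJP
open MJ MJT Finset MvPolynomial One22

namespace COEF15
variable {F : Type} [Field F] [CharZero F] {q t : F} {n : ℕ}

omit [CharZero F] in
lemma EE_iota (f : Lam F) : EE q t (iota q t f) = inc f := by
  ext j : 1
  rw [EE_apply, psi_iota]
  cases j with
  | zero => simp
  | succ j => rw [gg_neg t (by omega)]; simp

lemma nabla_IL (hG : St_GEN) (hS : St_SYM) (hi : Indep q t) {R : Subring F} (hR : Good q t R)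
    (n : ℕ) : ∀ f ∈ IL R t, f ∈ Hm F n → Dg hi (TT q t) f ∈ IL R t := by
  induction n with
  | zero =>
    intro f h1 h2
    have h3 : cells (default : Nat.Partition 0) = ∅ := card_eq_zero.mp (card_cells _)
    have e : DD q t 0 f = del q t ((macSys hi).cells ⟨0, default⟩).val • f := by
      change _ = del q t (cells (default : Nat.Partition 0)).val • f
      rw [h3, Hm_zero h2, DD_C]; simp [del]
    rwa [(macSys hi).Del_eig hi _ e, TT, h3, prod_empty, one_smul]
  | succ n ih =>
    have key : ∀ g ∈ IL R t, g ∈ Hm F n → ∀ r, Dg hi (TT q t) (YS q t r g) ∈ IL R t := by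
      intro g h1 h2 r
      have := hS F q t hi (TT q t) 1 1 (fun _ => TT q t) (fun i k c h => by
        simp only [TT, Finset.prod_eq_multiset_prod, h, Multiset.map_cons, Multiset.prod_cons,
          sum_range_one]
        ring) r g
      rw [sum_range_one, add_zero] at this
      rw [← this, YS, pow_succ]
      simp only [LinearMap.comp_apply, Module.End.mul_apply, EE_iota]
      refine IL_psi hi.t_ne hR.q1 hR.t2 _ ?_
      clear this
      induction r with
      | zero => exact IL_inc (ih g h1 h2)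
      | succ j ih => rw [pow_succ', Module.End.mul_apply]; exact IL_EE hi.t_ne hR.q1 hR.t2 ih
    exact hG F q t hi R hR n ((IL R t).toAddSubgroup.comap (Dg hi (TT q t)).toAddMonoidHom)
      fun g h1 h2 => ⟨key g h1 h2 0, key g h1 h2 1⟩

lemma ip_uu (hi : Indep q t) (a : n.Partition → F) : ip q t (uu q n) (Th a) = phi t 0 (Th a) := by
  rw [ip_symm, phi_Th, Th_apply, map_sum, LinearMap.sum_apply]
  refine sum_congr rfl fun μ _ => ?_
  have h1 := coeff_gen (fun k => (1 - q ^ (k + 1))⁻¹) n _ (wt_dOf μ)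
  rw [pw, prod_dOf μ fun i => (1 - q ^ i)⁻¹, zn_dOf] at h1
  rw [ip_monomial, zd_dOf, zqt, mul_right_comm, uu, h1, ← Multiset.prod_map_mul]
  congr 2
  refine Multiset.map_congr rfl fun i h => ?_
  have := LIM15.pow_ne hi.q_pow_ne (μ.parts_pos h)
  rw [zero_pow (μ.parts_pos h).ne', sub_zero]
  field_simp

lemma pk_IL (R : Subring F) (μ : n.Partition) :
    (μ.parts.map fun i => t ^ i - 1).prod • (monomial (dOf μ) 1 : Lam F) ∈ IL R t := by
  obtain ⟨L, hL⟩ := Quotient.exists_rep (μ.parts.map (· - 1))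
  have hL' : (L : Multiset ℕ) = μ.parts.map (· - 1) := hL
  have h1 := parts_eq μ
  rw [← hL'] at h1
  have h2 : (L.map (pk t)).prod ∈ IL R t := list_prod_mem fun x hx => by
    obtain ⟨k, -, rfl⟩ := List.mem_map.mp hx
    exact IL_pk k
  rwa [smul_monomial, smul_eq_mul, mul_one, dOf, ← hL', ← h1, Multiset.map_map, Multiset.map_coe,
    Multiset.prod_coe, Function.comp_def, ← pk_prod]

omit [CharZero F] in
lemma zqt_mul (hi : Indep q t) (μ : n.Partition) :
    zqt q t μ * (μ.parts.map fun i => t ^ i - 1).prod =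
      zz μ * (μ.parts.map fun i => q ^ i - 1).prod := by
  rw [zqt, mul_assoc, ← Multiset.prod_map_mul]
  congr 2
  refine Multiset.map_congr rfl fun i h => ?_
  have := LIM15.pow_ne hi.t_pow_ne (μ.parts_pos h)
  field_simp
  ring

end COEF15
open COEF15

theorem st_COEF (hG : St_GEN) (hS : St_SYM) (hC : St_CYC) : St_COEF := by
  intro F _ _ q t hi R hR n π μ ν
  have hm : ∀ κ : n.Partition, (κ.parts.map fun i => t ^ i - 1).prod •
      (monomial (dOf κ) 1 : Lam F) ∈ Hm F n := fun κ =>
    Submodule.smul_mem _ _ (by simpa [wt_dOf] using monomial_mem_Hm (dOf κ) (1 : F))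
  obtain ⟨a, ha, e⟩ := hC F q t hi R hR n _ (pk_IL R ν) (hm ν)
  have h1 : ∀ l : n.Partition, zz ν * (ν.parts.map fun i => q ^ i - 1).prod * mac hi l ν *
      cArm q t l = a ⟨n, l⟩ * t ^ nRow l := fun l => by
    have := congrArg (fun f => ip q t f (Th (mac hi l))) e
    simp only [map_smul, LinearMap.smul_apply] at this
    rw [ip_Del hi, ← macSys_b, Sys.Del_b, macSys_b, map_smul, ip_uu hi, ip_monomial, coeff_Th,
      zd_dOf, smul_eq_mul, smul_eq_mul] at this
    rw [← phi_mac hi n l, ← zqt_mul hi]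
    linear_combination cArm q t l * this
  obtain ⟨r, hr, h2⟩ := IL_coeff (ha _ (nabla_IL hG hS hi hR n _ (pk_IL R μ) (hm μ))) (dOf π)
  have h3 : Dg hi a ∘ₗ Dg hi (TT q t) = Dg hi (a * TT q t) := (macSys hi).b.ext fun i => by
    simp [Sys.Del_b, smul_smul, mul_comm]
  rw [← LinearMap.comp_apply, h3, map_smul, coeff_smul, Del_coeff, pw,
    prod_dOf π fun i => t ^ i - 1, zn_dOf, smul_eq_mul] at h2
  have ht := sub_ne_zero.mpr hi.t_ne_one
  have ht' := sub_ne_zero.mpr hi.t_ne_one.symm
  have h4 : (1 - t) ^ n * (zz ν * (ν.parts.map fun i => q ^ i - 1).prod) *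
      cco q t (mac hi) μ ν π = zqt q t μ * ∑ l, (a * TT q t) ⟨n, l⟩ /
        scal q t (mac hi l) (mac hi l) * (mac hi l μ * mac hi l π) := by
    rw [cco, mul_left_comm, mul_sum]
    congr 1
    refine sum_congr rfl fun l _ => ?_
    have g1 : cArm q t l ≠ 0 :=
      left_ne_zero_of_mul ((phi_mac hi n l).symm ▸ pow_ne_zero _ hi.t_ne)
    have g2 : scal q t (Jc q t (mac hi) l) (Jc q t (mac hi) l) =
        (cArm q t l / (1 - t) ^ n) ^ 2 * scal q t (mac hi l) (mac hi l) := by
      simp only [scal, Jc, mul_sum]; exact sum_congr rfl fun _ _ => by ring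
    have g3 := mac_norm hi l
    rw [ip_Th] at g3
    have g4 := hi.t_ne
    have g5 := eq_div_of_mul_eq (pow_ne_zero _ g4) (h1 l).symm
    rw [g2, Jc, Jc, Jc, Pi.mul_apply, TT, prod_mono, g5, two_mul, pow_add, inv_pow]
    field_simp
  have h5 := cco_rot (q := q) (t := t) (mac hi) π μ ν
  have h6 := zqt_mul hi μ
  have h7 := zqt_mul hi π
  have h8 : (π.parts.map fun i => t ^ i - 1).prod ≠ 0 := LIM15.mprod_ne π fun i h =>
    sub_ne_zero.mpr (sub_ne_zero.mp (LIM15.pow_ne hi.t_pow_ne h)).symm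
  refine ⟨t ^ (n * (n - 1)) * (-(t - 1)⁻¹) ^ n * r * (π.parts.map fun i => q ^ i - 1).prod,
    mul_mem (mul_mem (mul_mem (pow_mem hR.t1 _) (pow_mem (neg_mem hR.t3) _)) hr)
      (multiset_prod_mem _ fun y hy => ?_), ?_⟩
  · obtain ⟨i, -, rfl⟩ := Multiset.mem_map.mp hy
    exact sub_mem (pow_mem hR.q1 _) (one_mem _)
  · have h9 : (1 - t) ^ n * (-(t - 1)⁻¹) ^ n = 1 := by
      rw [← mul_pow, show (1 - t) * -(t - 1)⁻¹ = 1 by field_simp; ring, one_pow]
    rw [← h4] at h2
    rw [WW]
    generalize (μ.parts.map fun i => t ^ i - 1).prod = m1 at *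
    generalize (π.parts.map fun i => t ^ i - 1).prod = p1 at *
    generalize (μ.parts.map fun i => q ^ i - 1).prod = m2 at *
    generalize (π.parts.map fun i => q ^ i - 1).prod = p2 at *
    generalize (ν.parts.map fun i => q ^ i - 1).prod = n2 at *
    generalize (-(t - 1)⁻¹) ^ n = v at *
    generalize (1 - t) ^ n = w at *
    generalize t ^ (n * (n - 1)) = T
    apply mul_left_cancel₀ h8
    linear_combination (T * v * p2) * h2 - (T * p1 * zz ν * n2 * cco q t (mac hi) π μ ν) * h6 +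
      (T * p1 * zz ν * n2 * m1) * h5 + (T * zz ν * n2 * m1 * cco q t (mac hi) μ ν π) * h7 -
      (T * zz ν * n2 * m1 * cco q t (mac hi) μ ν π * zz π * p2) * h9

end MJP
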