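import Pool.Agent.Lib.MP_9c49f6_co.PBlue

/-! The kernel vector is cyclic for the algebra of Lax moments. -/

namespace MJP
open MJ MJT Finset MvPolynomial

namespace CYC15
variable {F : Type} [Field F] [CharZero F] {q t : F} (hi : Indep q t) (R : Subring F)

lemma Dg_mul (a b : Pt → F) (f : Lam F) : Dg hi (a * b) f = Dg hi a (Dg hi b f) := by
  have : Dg hi (a * b) = Dg hi a ∘ₗ Dg hi b := (macSys hi).b.ext fun i => by
    simp [Sys.Del_b, smul_smul, mul_comm]
  rw [this]; rfl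

lemma Dg_add (a b : Pt → F) (f : Lam F) : Dg hi (a + b) f = Dg hi a f + Dg hi b f := by
  have : Dg hi (a + b) = Dg hi a + Dg hi b := (macSys hi).b.ext fun i => by
    simp [Sys.Del_b, add_smul]
  rw [this]; rfl

lemma Dg_const (r : F) (f : Lam F) : Dg hi (fun _ => r) f = r • f := by
  have : Dg hi (fun _ => r) = r • LinearMap.id := (macSys hi).b.ext fun i => by simp [Sys.Del_b]
  rw [this]; rfl

lemma Dg_neg (a : Pt → F) (f : Lam F) : Dg hi (-a) f = - Dg hi a f := by
  have : Dg hi (-a) = - Dg hi a := (macSys hi).b.ext fun i => by simp [Sys.Del_b]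
  rw [this]; rfl

/-- the algebra generated by the eigenvalue functions -/
noncomputable def AL : Subring (Pt → F) :=
  Subring.closure ({a | ∃ r ∈ R, a = fun _ => r} ∪ Set.range (rj hi))

variable {R}

lemma AL_const {r : F} (h : r ∈ R) : (fun _ => r) ∈ AL hi R :=
  Subring.subset_closure (Or.inl ⟨r, h, rfl⟩)

lemma AL_rj (j : ℕ) : rj hi j ∈ AL hi R := Subring.subset_closure (Or.inr ⟨j, rfl⟩)

include hi in
lemma IL_JJ (hR : Good q t R) (j : ℕ) {g : Lam F} (hg : g ∈ IL R t) : JJ q t j g ∈ IL R t := by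
  have : ∀ s, (EE q t ^ j) (inc g) s ∈ IL R t := by
    induction j with
    | zero => exact IL_inc hg
    | succ j ih => rw [pow_succ', Module.End.mul_apply]; exact IL_EE hi.t_ne hR.q1 hR.t2 ih
  exact this 0

lemma AL_IL (hE : St_EIG) (hR : Good q t R) {a : Pt → F} (ha : a ∈ AL hi R) :
    ∀ g ∈ IL R t, Dg hi a g ∈ IL R t := by
  induction ha using Subring.closure_induction with
  | mem x hx =>
    intro g hg
    rcases hx with ⟨r, hr, rfl⟩ | ⟨j, rfl⟩
    · rw [Dg_const]; exact IL_smul hr hg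
    · rw [(hE F q t hi).1]; exact IL_JJ hi hR j hg
  | zero => intro g hg; exact (Dg_const hi 0 g).symm ▸ IL_smul (zero_mem _) hg
  | one => intro g hg; exact (Dg_const hi 1 g).symm ▸ IL_smul (one_mem _) hg
  | add x y _ _ hx hy => intro g hg; rw [Dg_add]; exact add_mem (hx g hg) (hy g hg)
  | neg x _ hx => intro g hg; rw [Dg_neg]; exact neg_mem (hx g hg)
  | mul x y _ _ hx hy => intro g hg; rw [Dg_mul]; exact hx _ (hy g hg)

variable (R) in
/-- evaluation at a partition and a content -/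
noncomputable def ev (k : Pt) (x : F) : Polynomial (AL hi R) →+* F :=
  Polynomial.eval₂RingHom ((Pi.evalRingHom _ k).comp (AL hi R).subtype) x

variable (R) in
/-- functions whose value before adding a cell is a polynomial in its content -/
noncomputable def Dn : Subring (Pt → F) where
  carrier := {a | ∃ A : Polynomial (AL hi R), ∀ (i k : Pt) (c : ℕ × ℕ),
    (cells k.2).val = c ::ₘ (cells i.2).val → a i = ev hi R k (mono q t c) A}
  mul_mem' := fun ⟨A, h⟩ ⟨B, h'⟩ => ⟨A * B, fun i k c e => by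
    rw [map_mul, ← h i k c e, ← h' i k c e]; rfl⟩
  one_mem' := ⟨1, fun _ _ _ _ => by simp⟩
  add_mem' := fun ⟨A, h⟩ ⟨B, h'⟩ => ⟨A + B, fun i k c e => by
    rw [map_add, ← h i k c e, ← h' i k c e]; rfl⟩
  zero_mem' := ⟨0, fun _ _ _ _ => by simp⟩
  neg_mem' := fun ⟨A, h⟩ => ⟨-A, fun i k c e => by rw [map_neg, ← h i k c e]; rfl⟩

omit [CharZero F] in
lemma cf_two (f : ℕ → F) (a b : F) (j : ℕ) : PowerSeries.coeff j (PowerSeries.mk f *
    ((1 - PowerSeries.C a * PowerSeries.X) * (1 - PowerSeries.C b * PowerSeries.X))) =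
    f j - (a + b) * (if 1 ≤ j then f (j - 1) else 0) +
      a * b * (if 2 ≤ j then f (j - 2) else 0) := by
  have : PowerSeries.mk f * ((1 - PowerSeries.C a * PowerSeries.X) *
      (1 - PowerSeries.C b * PowerSeries.X)) = PowerSeries.mk f - PowerSeries.C (a + b) *
      (PowerSeries.mk f * PowerSeries.X ^ 1) + PowerSeries.C (a * b) *
      (PowerSeries.mk f * PowerSeries.X ^ 2) := by
    simp only [map_add, map_mul]; ring
  rw [this]
  simp only [map_add (PowerSeries.coeff j), map_sub, PowerSeries.coeff_C_mul,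
    PowerSeries.coeff_mul_X_pow', PowerSeries.coeff_mk]

lemma rj_Dn (hE : St_EIG) (hR : Good q t R) (j : ℕ) : rj hi j ∈ Dn hi R := by
  induction j using Nat.strong_induction_on with
  | _ j ih =>
    have h0 : ∀ d, 1 ≤ d → (fun i => if d ≤ j then rj hi (j - d) i else 0) ∈ Dn hi R := by
      intro d hd
      split_ifs
      · exact ih _ (by omega)
      · exact zero_mem _
    have h1 : ∀ d, (fun i => if d ≤ j then rj hi (j - d) i else 0) ∈ AL hi R := by
      intro d
      split_ifs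
      · exact AL_rj hi _
      · exact zero_mem _
    obtain ⟨A1, e1⟩ := h0 1 le_rfl
    obtain ⟨A2, e2⟩ := h0 2 one_le_two
    let u : AL hi R := ⟨_, AL_const hi (mul_mem hR.q1 hR.t2)⟩
    let w : AL hi R := ⟨_, AL_const hi (add_mem hR.q1 hR.t2)⟩
    refine ⟨Polynomial.C ⟨_, AL_rj hi j⟩ - Polynomial.C (w * ⟨_, h1 1⟩) * Polynomial.X +
      Polynomial.C (u * ⟨_, h1 2⟩) * Polynomial.X ^ 2 +
      Polynomial.C (1 + u) * Polynomial.X * A1 - Polynomial.C u * Polynomial.X ^ 2 * A2,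
      fun i k c e => ?_⟩
    have h := congrArg (PowerSeries.coeff j) ((hE F q t hi).2 i k c e)
    rw [cf_two, cf_two] at h
    simp only [map_add, map_sub, map_mul, map_pow, map_one, ← e1 i k c e, ← e2 i k c e]
    simp only [ev, Polynomial.coe_eval₂RingHom, Polynomial.eval₂_C, Polynomial.eval₂_X,
      RingHom.comp_apply, Subring.coe_subtype, Pi.evalRingHom_apply, u, w]
    linear_combination h

lemma AL_Dn (hE : St_EIG) (hR : Good q t R) : AL hi R ≤ Dn hi R := by
  refine Subring.closure_le.mpr ?_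
  rintro x (⟨r, hr, rfl⟩ | ⟨j, rfl⟩)
  · exact ⟨Polynomial.C ⟨_, AL_const hi hr⟩, fun _ _ _ _ => by simp [ev]⟩
  · exact rj_Dn hi hE hR j

variable (R) in
/-- the orbit of the kernel vector -/
noncomputable def Orb (n : ℕ) : AddSubgroup (Lam F) where
  carrier := {f | ∃ a ∈ AL hi R, f = Dg hi a (uu q n)}
  add_mem' := by
    rintro _ _ ⟨a, ha, rfl⟩ ⟨b, hb, rfl⟩
    exact ⟨a + b, add_mem ha hb, (Dg_add hi _ _ _).symm⟩
  zero_mem' := ⟨0, zero_mem _, ((Dg_const hi 0 (uu q n)).trans (zero_smul _ _)).symm⟩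
  neg_mem' := by
    rintro _ ⟨a, ha, rfl⟩
    exact ⟨-a, neg_mem ha, (Dg_neg hi _ _).symm⟩

lemma Orb_Dg {n : ℕ} {a : Pt → F} (ha : a ∈ AL hi R) {f : Lam F} (hf : f ∈ Orb hi R n) :
    Dg hi a f ∈ Orb hi R n := by
  obtain ⟨b, hb, rfl⟩ := hf
  exact ⟨a * b, mul_mem ha hb, (Dg_mul hi _ _ _).symm⟩

end CYC15
open CYC15

theorem st_CYC (hG : St_GEN) (hE : St_EIG) (hS : St_SYM) (hU : St_UU) : St_CYC := by
  intro F _ _ q t hi R hR
  suffices h : ∀ n : ℕ, ∀ f ∈ IL R t, f ∈ Hm F n → f ∈ Orb hi R n by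
    intro n f h1 h2
    obtain ⟨a, ha, e⟩ := h n f h1 h2
    exact ⟨a, AL_IL hi hE hR ha, e⟩
  intro n
  induction n with
  | zero =>
    intro f h1 h2
    obtain ⟨a, ha, h3⟩ := IL_coeff h1 0
    have h4 : constantCoeff f = a := by
      have h5 : coeff 0 f = a := by simpa [zn, pw] using h3
      exact h5
    refine ⟨_, AL_const hi ha, ?_⟩
    rw [Dg_const, One22.Hm_zero h2, h4, uu, Nat.cast_zero, gen_zero, smul_eq_C_mul, mul_one]
  | succ n ih =>
    have hu : ∀ s, YS q t s (uu q n) ∈ Orb hi R (n + 1) :=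
      hU F q t hi R hR n _ ⟨_, AL_const hi (one_mem _), by rw [Dg_const, one_smul]⟩
        fun f hf => ⟨fun r hr => Dg_const hi r f ▸ Orb_Dg hi (AL_const hi hr) hf,
          fun j => (hE F q t hi).1 j ▸ Orb_Dg hi (AL_rj hi j) hf⟩
    have key : ∀ g ∈ IL R t, g ∈ Hm F n → ∀ r, YS q t r g ∈ Orb hi R (n + 1) := by
      intro g h1 h2 r
      obtain ⟨a, ha, rfl⟩ := ih g h1 h2
      obtain ⟨A, hA⟩ := AL_Dn hi hE hR ha
      have := hS F q t hi a 0 (A.natDegree + 1) (fun s => A.coeff s) (fun i k c e => by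
        rw [pow_zero, mul_one, hA i k c e, ev, Polynomial.coe_eval₂RingHom,
          Polynomial.eval₂_eq_sum_range]
        rfl) r (uu q n)
      rw [add_zero] at this
      rw [this]
      exact sum_mem fun s _ => Orb_Dg hi (A.coeff s).2 (hu _)
    exact hG F q t hi R hR n _ fun g h1 h2 => ⟨key g h1 h2 0, key g h1 h2 1⟩

end MJP
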