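import Pool.Agent.Lib.MP_9c49f6_co.PBlue

/-! The eigenvalues of the Lax moments. -/

namespace MJP
open MJ MJT Finset MvPolynomial

namespace EIG28
variable {F : Type} [Field F] {q t : F}

lemma JJ_apply (j : ℕ) (f : Lam F) : JJ q t j f = (EE q t ^ j) (inc f) 0 := rfl

lemma pow_EE (j : ℕ) (v : St F) : (EE q t ^ (j + 1)) v = EE q t ((EE q t ^ j) v) := by
  rw [pow_succ', Module.End.mul_apply]

lemma JJ_C (j : ℕ) (r : F) : JJ q t j (C r) = C r := by
  have : (EE q t ^ j) (inc (C r)) = inc (C r) := by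
    induction j with
    | zero => rfl
    | succ j ih => rw [pow_EE, ih, EE_inc_C]
  rw [JJ_apply, this, inc_zero]

/-- the factor `1 - x v` -/
noncomputable def ll (x : F) : PowerSeries F := 1 - PowerSeries.C x * PowerSeries.X

lemma ll_ne (x : F) : ll x ≠ 0 := fun h => by
  simpa [ll] using congrArg PowerSeries.constantCoeff h

lemma mk_ll (a : ℕ → F) (x : F) : PowerSeries.mk a * ll x =
    PowerSeries.mk fun j => match j with | 0 => a 0 | j + 1 => a (j + 1) - x * a j := by
  ext j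
  rw [ll, mul_sub, mul_one, ← mul_assoc]
  cases j with
  | zero => simp
  | succ j => simp [mul_comm]

lemma tele (z : F) (k : ℕ) : ll z * ∏ j ∈ range k, ll (q * (z * q ^ j)) =
    ll (z * q ^ k) * ∏ j ∈ range k, ll (z * q ^ j) := by
  rw [mul_comm (ll (z * q ^ k)), ← prod_range_succ (fun j => ll (z * q ^ j)), prod_range_succ',
    mul_comm]
  simp only [pow_zero, mul_one, pow_succ', mul_left_comm z q]

variable [CharZero F]

lemma DD_JJ (ht : t ≠ 0) (j : ℕ) (f : Lam F) :
    DD q t 0 (JJ q t j f) = JJ q t j (DD q t 0 f) := by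
  have h : ∀ j : ℕ, Dt q t ((EE q t ^ j) (inc f)) = (EE q t ^ j) (inc (DD q t 0 f)) := by
    intro j
    induction j with
    | zero => exact Dt_inc q t f
    | succ j ih => rw [pow_EE, pow_EE, Dt_EE q t ht, ih]
  cases j with
  | zero => simp [JJ_apply]
  | succ j =>
    simp only [JJ_apply, pow_EE, EE_apply, pow_zero, one_smul, Nat.cast_zero, neg_zero]
    rw [← psi_Dt q t ht, h]

lemma JJ_b (hi : Indep q t) (j : ℕ) (i : Pt) :
    JJ q t j ((macSys hi).b i) = rj hi j i • (macSys hi).b i :=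
  One22.eig_mult (macSys hi) hi (by rw [DD_JJ hi.t_ne, (macSys hi).eig, map_smul])

lemma row_rec (ht : t ≠ 0) (ht1 : t ≠ 1) (k : ℕ) (f : Lam F)
    (h : ∀ j : ℤ, (k : ℤ) < j → Sh (c1 F) j f = 0) (j : ℕ) :
    Sh (c1 F) k (JJ q t (j + 1) f) - q ^ k • Sh (c1 F) k (JJ q t j f) =
      t⁻¹ ^ (j + 1) • (JJ q t (j + 1) (Sh (c1 F) k f) - q ^ k • JJ q t j (Sh (c1 F) k f)) := by
  have hs : ∀ d : ℕ, (sig q t (inc f)).coeff d = (q * t⁻¹) ^ d • Sh (c1 F) d f := by
    intro d; rw [inc_apply, sig_single, pow_zero, one_mul, ← Sh_nat, Sh_cQ]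
  have hw : inc f ∈ Fs q t k := by
    refine ⟨fun j hj => ?_, fun d hd => ?_⟩
    · rw [inc_apply, HV_single, h j hj]; simp
    · rw [hs, h d (by omega), smul_zero]
  have h0 : HV k (inc f) = inc (Sh (c1 F) k f) := HV_single _ _ _
  have hk := hs k
  have a : ∀ j : ℕ, (EE q t ^ j) (inc f) ∈ Fs q t k ∧
      (sig q t ((EE q t ^ j) (inc f))).coeff k = (q ^ k) ^ j • (sig q t (inc f)).coeff k := by
    intro j
    induction j with
    | zero => exact ⟨hw, by simp⟩
    | succ j ih =>
      rw [pow_EE, sig_EE q t ht ht1 ih.1 k le_rfl, if_pos rfl, ih.2, smul_smul, pow_succ' (q ^ k)]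
      exact ⟨EE_Fs q t ht ht1 ih.1, rfl⟩
  generalize Sh (c1 F) k f = g at *
  have b : ∀ j : ℕ, HV k ((EE q t ^ (j + 1)) (inc f)) =
      t⁻¹ • EE q t (HV k ((EE q t ^ j) (inc f))) + ((q ^ k) ^ (j + 1) * (1 - t⁻¹)) • inc g := by
    intro j
    rw [pow_EE, HV_EE q t ht (a j).1 k le_rfl, if_pos rfl, (a j).2, hk, map_smul, map_smul,
      smul_smul, smul_smul]
    congr 2
    rw [mul_pow, inv_pow, pow_succ]
    field_simp
  have c : HV k ((EE q t ^ (j + 1)) (inc f)) - q ^ k • HV k ((EE q t ^ j) (inc f)) =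
      t⁻¹ ^ (j + 1) • ((EE q t ^ (j + 1)) (inc g) - q ^ k • (EE q t ^ j) (inc g)) := by
    induction j with
    | zero =>
      rw [b, pow_EE]
      simp only [pow_zero, Module.End.one_apply, h0]
      module
    | succ j ih =>
      have h1 := congrArg (EE q t) ih
      have h2 := b j
      rw [map_sub, map_smul, map_smul, map_sub, map_smul, ← pow_EE, ← pow_EE] at h1
      rw [b (j + 1)]
      linear_combination (norm := module) t⁻¹ • h1 - q ^ k • h2
  simpa only [Finsupp.sub_apply, Finsupp.smul_apply, HV_apply, ← JJ_apply] using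
    congrArg (fun v => v 0) c

/-- numerator -/
noncomputable def NN (q t x : F) : PowerSeries F := ll x * ll (q * t⁻¹ * x)

/-- denominator -/
noncomputable def DN (q t x : F) : PowerSeries F := ll (q * x) * ll (t⁻¹ * x)

lemma cf_JJ (ht : t ≠ 0) (ht1 : t ≠ 1) (L : List ℕ) (hL : ∀ x ∈ L, 0 < x) :
    ∀ {m : ℤ} {f : Lam F} (z : F), f ∈ Hm F m →
    (∀ L' : List ℕ, (∀ x ∈ L', 0 < x) → L < L' → cf L' f = 0) →
    PowerSeries.mk (fun j => z ^ j * cf L (JJ q t j f)) * ll z *
      ∏ i ∈ range L.length, ∏ j ∈ range (L.getD i 0), DN q t (z * mono q t (i, j)) =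
    PowerSeries.C (cf L f) *
      ∏ i ∈ range L.length, ∏ j ∈ range (L.getD i 0), NN q t (z * mono q t (i, j)) := by
  have key : ∀ {m : ℤ} {f : Lam F} (j : ℕ), f ∈ Hm F m →
      (∀ L' : List ℕ, (∀ x ∈ L', 0 < x) → cf (j :: L') f = 0) → Sh (c1 F) j f = 0 :=
    fun {m f} j hf h => cf_inj ((m - j).toNat + 1) (by omega) (Sh_Hm (c1 F) j hf) h
  induction L with
  | nil =>
    intro m f z hf h
    have := eq_C_of_Sh f fun j hj => by
      obtain ⟨k, rfl⟩ := Int.eq_ofNat_of_zero_le hj.le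
      refine key k hf fun L' hL' => h _ ?_ (by simp)
      simp only [List.mem_cons, forall_eq_or_imp]; exact ⟨by omega, hL'⟩
    rw [this, mk_ll]
    simp only [JJ_C, List.length_nil, prod_range_zero, mul_one]
    ext j
    cases j with
    | zero => simp
    | succ j => simp [pow_succ', mul_assoc, PowerSeries.coeff_succ_C]
  | cons k L ih =>
    intro m f z hf h
    simp only [List.mem_cons, forall_eq_or_imp] at hL
    have h0 : ∀ j : ℤ, (k:ℤ) < j → Sh (c1 F) j f = 0 := by
      intro j hj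
      obtain ⟨i, rfl⟩ := Int.eq_ofNat_of_zero_le (show 0 ≤ j by omega)
      refine key i hf fun L' hL' => h _ ?_ (List.cons_lt_cons_iff.mpr (Or.inl (by omega)))
      simp only [List.mem_cons, forall_eq_or_imp]; exact ⟨by omega, hL'⟩
    have h2 := ih hL.2 (z * t⁻¹) (Sh_Hm (c1 F) k hf) fun L' hL' h2 => by
      refine h (k :: L') ?_ (List.cons_lt_cons_iff.mpr (Or.inr ⟨rfl, h2⟩))
      simp only [List.mem_cons, forall_eq_or_imp]; exact ⟨hL.1, hL'⟩
    have h1 : PowerSeries.mk (fun j => z ^ j * cf (k :: L) (JJ q t j f)) * ll (z * q ^ k) =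
        PowerSeries.mk (fun j => (z * t⁻¹) ^ j * cf L (JJ q t j (Sh (c1 F) k f))) *
          ll (z * t⁻¹ * q ^ k) := by
      rw [mk_ll, mk_ll]
      congr 1
      funext j
      cases j with
      | zero => simp [JJ_apply, cf_cons]
      | succ j =>
        have := congrArg (cf L) (row_rec (q := q) ht ht1 k f h0 j)
        simp only [map_sub, map_smul, smul_eq_mul] at this
        simp only [cf_cons]
        linear_combination z ^ (j + 1) * this
    have h3 := tele (q := q) z k
    have h4 := tele (q := q) (z * t⁻¹) k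
    have e : ∀ i j, z * mono q t (i + 1, j) = z * t⁻¹ * mono q t (i, j) := fun i j => by
      simp only [mono]; ring
    have e1 : ∏ j ∈ range k, DN q t (z * mono q t (0, j)) =
        (∏ j ∈ range k, ll (q * (z * q ^ j))) * ∏ j ∈ range k, ll (z * t⁻¹ * q ^ j) := by
      rw [← prod_mul_distrib]
      refine prod_congr rfl fun j _ => ?_
      simp only [DN, mono]; congr 2 <;> ring
    have e2 : ∏ j ∈ range k, NN q t (z * mono q t (0, j)) =
        (∏ j ∈ range k, ll (z * q ^ j)) * ∏ j ∈ range k, ll (q * (z * t⁻¹ * q ^ j)) := by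
      rw [← prod_mul_distrib]
      refine prod_congr rfl fun j _ => ?_
      simp only [NN, mono]; congr 2 <;> ring
    simp only [List.length_cons, prod_range_succ', List.getD_cons_succ, List.getD_cons_zero, e, e1,
      e2]
    rw [cf_cons k L f]
    generalize (∏ i ∈ range L.length, ∏ j ∈ range (L.getD i 0),
      DN q t (z * t⁻¹ * mono q t (i, j))) = PD at *
    generalize (∏ j ∈ range k, ll (z * t⁻¹ * q ^ j)) = b' at *
    generalize (∏ j ∈ range k, ll (z * q ^ j)) = a' at *
    generalize (∏ j ∈ range k, ll (q * (z * t⁻¹ * q ^ j))) = b at *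
    generalize PowerSeries.mk (fun j => z ^ j * cf (k :: L) (JJ q t j f)) = G at *
    generalize PowerSeries.mk (fun j => (z * t⁻¹) ^ j * cf L (JJ q t j (Sh (c1 F) k f))) = G' at *
    linear_combination (G * b' * PD) * h3 + (a' * b' * PD) * h1 - (G' * a' * PD) * h4 +
      (a' * b) * h2

lemma rj_val (hi : Indep q t) (i : Pt) : PowerSeries.mk (fun j => rj hi j i) * ll 1 *
    ((cells i.2).val.map fun c => DN q t (mono q t c)).prod =
    ((cells i.2).val.map fun c => NN q t (mono q t c)).prod := by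
  obtain ⟨n, l⟩ := i
  have h := cf_JJ (q := q) hi.t_ne hi.t_ne_one (lst l) (lst_pos l) 1 (Th_Hm (mac hi l))
    fun L hL h1 => by
      by_contra hc
      obtain ⟨k, h2, h3⟩ := cf_list (Th_Hm _) hL hc
      exact h3 (mac_tri hi (lt_of_lt_of_le h1 h2))
  have e : ∀ j, cf (lst l) (JJ q t j (Th (mac hi l))) = rj hi j ⟨n, l⟩ := fun j => by
    rw [← macSys_b, JJ_b, map_smul, macSys_b, mac_lead, smul_eq_mul, mul_one]
  simp only [e, mac_lead, one_pow, one_mul, map_one, ← col_zero] at h
  rw [← prod_eq_multiset_prod, ← prod_eq_multiset_prod, prod_cells l _ le_rfl,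
    prod_cells l _ le_rfl]
  exact h

end EIG28

open EIG28 in
theorem st_EIG : St_EIG := by
  intro F _ _ q t hi
  refine ⟨fun j => (macSys hi).b.ext fun i => by rw [Sys.Del_b, JJ_b], fun i k c h => ?_⟩
  have h1 := rj_val hi i
  have h2 := rj_val hi k
  rw [h, Multiset.map_cons, Multiset.map_cons, Multiset.prod_cons, Multiset.prod_cons] at h2
  have h3 : ll (1 : F) * ((cells i.2).val.map fun c => DN q t (mono q t c)).prod ≠ 0 :=
    mul_ne_zero (ll_ne _) (Multiset.prod_ne_zero fun h0 => by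
      obtain ⟨d, -, hd⟩ := Multiset.mem_map.1 h0
      exact mul_ne_zero (ll_ne _) (ll_ne _) hd)
  refine mul_right_cancel₀ h3 ?_
  show _ * NN q t (mono q t c) * _ = _ * DN q t (mono q t c) * _
  linear_combination NN q t (mono q t c) * h1 - h2

end MJP
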