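import Pool.Agent.Lib.MP_9c49f6_co.PBlue

/-! The two creation operators generate the integral lattice degree by degree. -/

namespace MJP
open MJ MJT Finset MvPolynomial

namespace GEN35
variable {F : Type} [Field F]

lemma YS_zero (q t : F) (g : Lam F) : YS q t 0 g = gg t 1 * g := by
  simp [YS, psi_iota]

lemma YS_one [CharZero F] (q t : F) (g : Lam F) : YS q t 1 g = DD q t 1 g := by
  have h := EE_ww q t 0 g
  simp only [ww, zero_add, range_one, sum_singleton, tsub_self, pow_zero, Module.End.one_apply,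
    Nat.cast_zero, gb, gen_zero, one_mul, one_smul] at h
  simp [YS, h, psi_inc]

lemma DD_X (q t : F) (m : ℤ) (g : Lam F) :
    DD q t m (X 0 * g) = X 0 * DD q t m g + cS q t 0 • DD q t (m + 1) g := by
  obtain ⟨n, hn⟩ := Sh_bound (cS q t) g
  rw [DD_eq_sum q t m _ (n + 1) (fun s hs => by
      rw [Sh_X_mul, hn s (by omega), hn _ (by omega)]; simp),
    DD_eq_sum q t m g (n + 1) (fun s hs => hn s (by omega)), DD_eq_sum q t (m + 1) g n hn]
  simp only [Sh_X_mul, mul_add, sum_add_distrib]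
  congr 1
  · rw [mul_sum]; exact sum_congr rfl fun s _ => by ring
  · rw [sum_range_succ', Sh_neg _ (by simp), smul_sum]
    simp only [smul_zero, mul_zero, add_zero]
    refine sum_congr rfl fun s _ => ?_
    rw [mul_smul_comm]
    congr 3 <;> push_cast <;> ring_nf

/-- the part of weight `m` -/
noncomputable def pr (m : ℕ) : Lam F →ₗ[F] Lam F :=
  weightedHomogeneousComponent (fun k : ℕ => k + 1) m

lemma coeff_pr (m : ℕ) (f : Lam F) (d : ℕ →₀ ℕ) :
    coeff d (pr m f) = if wt d = m then coeff d f else 0 := by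
  have : Finsupp.weight (fun k : ℕ => k + 1) d = wt d := by
    simp [Finsupp.weight_apply, wt, mul_comm]
  rw [pr, coeff_weightedHomogeneousComponent, this]

variable [CharZero F]

lemma pr_Hm (m : ℕ) {k : ℤ} {f : Lam F} (hf : f ∈ Hm F k) :
    pr m f = if k = m then f else 0 := by
  ext d
  rw [coeff_pr]
  by_cases h : coeff d f = 0
  · split_ifs <;> simp [h]
  · have h1 := Hm_coeff hf h
    by_cases h2 : wt d = m
    · rw [if_pos h2, if_pos (by omega)]
    · rw [if_neg h2, if_neg (by omega), coeff_zero]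

variable {q t : F} (hi : Indep q t) {R : Subring F} (hR : Good q t R) {n : ℕ}
  {N : AddSubgroup (Lam F)}
  (hN : ∀ g ∈ IL R t, g ∈ Hm F n → YS q t 0 g ∈ N ∧ YS q t 1 g ∈ N)
include hi hR hN

lemma DD_mem (j : ℕ) : ∀ g ∈ IL R t, g ∈ Hm F (n - j) → DD q t (j + 1) g ∈ N := by
  induction j with
  | zero => intro g h1 h2; simpa [YS_one] using (hN g h1 (by simpa using h2)).2
  | succ j ih =>
    intro g h1 h2
    have hq : q - 1 ≠ 0 := sub_ne_zero.mpr (by simpa using hi.q_pow_ne 0)
    have ht : t - 1 ≠ 0 := sub_ne_zero.mpr hi.t_ne_one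
    have ht0 := hi.t_ne
    set g' := ((t - 1)⁻¹ * (q - 1)⁻¹ * t) • g with hg'
    have h3 : g' ∈ IL R t := IL_smul (mul_mem (mul_mem hR.t3 hR.q3) hR.t1) h1
    have h4 : g' ∈ Hm F (n - (j + 1 : ℕ)) := Submodule.smul_mem _ _ h2
    have h5 := ih _ (mul_mem (IL_gg 1) h3) (by
      convert Hm_mul (gg_Hm t 1) h4 using 2; push_cast; ring)
    have h6 := (hN _ (IL_DD ht0 hR.q1 hR.t2 (j + 1) h3) (by
      convert DD_Hm q t (j + 1) h4 using 2; push_cast; ring)).1
    rw [YS_zero] at h6
    convert sub_mem h5 h6 using 1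
    rw [gg_one, pk, mul_assoc, mul_assoc, ← smul_eq_C_mul, ← smul_eq_C_mul, map_smul, DD_X,
      smul_add, add_sub_cancel_left, hg', map_smul, smul_smul, smul_smul,
      show (t ^ (0 + 1) - 1) * cS q t 0 * ((t - 1)⁻¹ * (q - 1)⁻¹ * t) = 1 by
        simp only [cS, zero_add, pow_one]; field_simp, one_smul]
    push_cast; rfl

lemma gg_mem (m : ℕ) : ∀ j : ℕ, m + j = n → ∀ g ∈ IL R t, g ∈ Hm F m → gg t (j + 1) * g ∈ N := by
  induction m using Nat.strong_induction_on with
  | _ m ih =>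
    intro j hj g h1 h2
    have h3 := DD_mem hi hR hN j g h1 (by convert h2 using 2; omega)
    rw [DD_eq_sum q t _ g (m + 1) (fun s hs => Sh_eq_zero_of_Hm _ h2 (by omega)),
      sum_range_succ'] at h3
    have h4 : ∑ s ∈ range m, gg t (j + 1 + (s + 1 : ℕ)) * Sh (cS q t) (s + 1 : ℕ) g ∈ N :=
      sum_mem fun s hs => by
        have hs' := mem_range.mp hs
        convert ih (m - (s + 1)) (by omega) (j + s + 1) (by omega) (Sh (cS q t) (s + 1 : ℕ) g)
          (by rw [Sh_nat]; exact IP_Phi hi.t_ne hR.q1 hR.t2 h1 _)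
          (by convert Sh_Hm (cS q t) (s + 1 : ℕ) h2 using 2; omega) using 3
        push_cast; ring
    simpa using sub_mem h3 h4

end GEN35

open GEN35 in
theorem st_GEN : St_GEN := by
  intro F _ _ q t hi R hR n N hN f hf hm
  set G : Set (Lam F) := {h | h ∈ IL R t ∧ ∃ m : ℤ, h ∈ Hm F m ∧
    (m = (n + 1 : ℕ) → ∀ r ∈ R, r • h ∈ N)} with hG
  have gen : ∀ x : Lam F, (∀ h ∈ G, x * h ∈ G) → ∀ h ∈ AddSubgroup.closure G,
      x * h ∈ AddSubgroup.closure G := fun x hx h hh =>
    (AddSubgroup.closure_le ((AddSubgroup.closure G).comap (AddMonoidHom.mulLeft x))).mpr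
      (fun h hh => AddSubgroup.subset_closure (hx h hh)) hh
  have key : ∀ f ∈ IL R t, ∀ h ∈ AddSubgroup.closure G, f * h ∈ AddSubgroup.closure G := by
    intro f hf
    induction hf using Subring.closure_induction with
    | mem x hx =>
      refine gen x ?_
      rintro h ⟨h1, m, h2, h3⟩
      rcases hx with ⟨a, ha, rfl⟩ | ⟨a, rfl⟩
      · exact ⟨mul_mem (IL_C ha) h1, m, by simpa using Hm_mul (C_mem_Hm a) h2, fun e r hr => by
          rw [← smul_eq_C_mul, smul_smul]; exact h3 e _ (mul_mem hr ha)⟩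
      · refine ⟨mul_mem (IL_gg a) h1, a + m, Hm_mul (gg_Hm t a) h2, fun e r hr => ?_⟩
        rcases lt_trichotomy a 0 with h4 | rfl | h4
        · simp [gg_neg t h4]
        · simpa using h3 (by simpa using e) r hr
        rcases lt_or_ge m 0 with h5 | h5
        · simp [Hm_neg h2 h5]
        obtain ⟨m, rfl⟩ := Int.eq_ofNat_of_zero_le h5
        obtain ⟨j, rfl⟩ : ∃ j : ℕ, a = j + 1 := ⟨(a - 1).toNat, by omega⟩
        rw [← mul_smul_comm]
        exact gg_mem hi hR hN m j (by omega) _ (IL_smul hr h1) (Submodule.smul_mem _ _ h2)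
    | zero => intro h _; simp
    | one => intro h hh; simpa using hh
    | add x y _ _ hx hy => intro h hh; rw [add_mul]; exact add_mem (hx h hh) (hy h hh)
    | neg x _ hx => intro h hh; rw [neg_mul]; exact neg_mem (hx h hh)
    | mul x y _ _ hx hy => intro h hh; rw [mul_assoc]; exact hx _ (hy h hh)
  have h1 := key f hf 1 (AddSubgroup.subset_closure ⟨one_mem _, 0, one_mem_Hm, by omega⟩)
  have h2 := (AddSubgroup.closure_le (N.comap (pr (n + 1)).toAddMonoidHom)).mpr (by
    rintro h ⟨-, m, h2, h3⟩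
    change pr (n + 1) h ∈ N
    rw [pr_Hm _ h2]
    split_ifs with e
    · simpa using h3 e 1 (one_mem _)
    · exact zero_mem _) h1
  change pr (n + 1) (f * 1) ∈ N at h2
  rwa [mul_one, pr_Hm _ hm, if_pos rfl] at h2

end MJP
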