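import Pool.Agent.Lib.MP_9c49f6_co.TBlue

/-! Row NAK: solving a linear system whose reduction is invertible. -/

namespace MJT
open Finset

namespace NAK61
variable {F K : Type} [Field F] [Field K] {Rd : F → K → Prop}

theorem rd_zero (h : Pl Rd) : Rd 0 0 := by simpa using h.add h.one (h.neg h.one)

theorem rd_sum (h : Pl Rd) {ι : Type} (s : Finset ι) {f : ι → F} {g : ι → K}
    (hf : ∀ i, Rd (f i) (g i)) : Rd (∑ i ∈ s, f i) (∑ i ∈ s, g i) := by
  classical
  induction s using Finset.induction_on with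
  | empty => simpa using rd_zero h
  | insert a s ha ih => rw [sum_insert ha, sum_insert ha]; exact h.add (hf a) ih

theorem rd_prod (h : Pl Rd) {ι : Type} (s : Finset ι) {f : ι → F} {g : ι → K}
    (hf : ∀ i, Rd (f i) (g i)) : Rd (∏ i ∈ s, f i) (∏ i ∈ s, g i) := by
  classical
  induction s using Finset.induction_on with
  | empty => simpa using h.one
  | insert a s ha ih => rw [prod_insert ha, prod_insert ha]; exact h.mul (hf a) ih

theorem rd_det (h : Pl Rd) {ι : Type} [Fintype ι] [DecidableEq ι] {A : Matrix ι ι F}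
    {B : Matrix ι ι K} (hA : ∀ i j, Rd (A i j) (B i j)) : Rd A.det B.det := by
  rw [Matrix.det_apply', Matrix.det_apply']
  refine rd_sum h _ fun σ => h.mul ?_ (rd_prod h _ fun i => hA _ _)
  rcases Int.units_eq_one_or (Equiv.Perm.sign σ) with e | e <;> rw [e]
  · simpa using h.one
  · simpa using h.neg h.one

theorem rd_adj (h : Pl Rd) {ι : Type} [Fintype ι] [DecidableEq ι] {A : Matrix ι ι F}
    {B : Matrix ι ι K} (hA : ∀ i j, Rd (A i j) (B i j)) (i j : ι) :
    Rd (A.adjugate i j) (B.adjugate i j) := by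
  rw [Matrix.adjugate_apply, Matrix.adjugate_apply]
  refine rd_det h fun a b => ?_
  rw [Matrix.updateRow_apply, Matrix.updateRow_apply]
  split_ifs
  · rw [Pi.single_apply, Pi.single_apply]
    split_ifs
    · exact h.one
    · exact rd_zero h
  · exact hA a b

end NAK61
open NAK61

theorem st_NAK : St_NAK := by
  intro F K _ _ Rd h ι _ A A0 hA hinj y c hc
  classical
  have hd : Rd (Matrix.of A).det (Matrix.of A0).det := rd_det h hA
  have h0 : (Matrix.of A0).det ≠ 0 := fun e => by
    obtain ⟨v, hv, hv0⟩ := Matrix.exists_vecMul_eq_zero_iff.mpr e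
    exact hv (hinj v fun j => congrFun hv0 j)
  have h1 : (Matrix.of A).det ≠ 0 := fun e => h0 (h.zero (e ▸ hd))
  refine ⟨fun i => (∑ j, c j * (Matrix.of A0).adjugate j i) * ((Matrix.of A0).det)⁻¹,
    fun i => ?_, fun j => ?_⟩
  · have e : Matrix.vecMul (Matrix.vecMul y (Matrix.of A)) (Matrix.of A).adjugate =
        (Matrix.of A).det • y := by
      rw [Matrix.vecMul_vecMul, Matrix.mul_adjugate, Matrix.vecMul_smul, Matrix.vecMul_one]
    have e2 : y i = (∑ j, (∑ k, y k * A k j) * (Matrix.of A).adjugate j i) *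
        ((Matrix.of A).det)⁻¹ := by
      have e3 : (∑ j, (∑ k, y k * A k j) * (Matrix.of A).adjugate j i) =
          (Matrix.of A).det * y i := congrFun e i
      rw [e3]; field_simp
    rw [e2]
    exact h.mul (rd_sum h _ fun j => h.mul (hc j) (rd_adj h hA j i)) (h.inv hd h0)
  · have e : Matrix.vecMul (Matrix.vecMul c (Matrix.of A0).adjugate) (Matrix.of A0) =
        (Matrix.of A0).det • c := by
      rw [Matrix.vecMul_vecMul, Matrix.adjugate_mul, Matrix.vecMul_smul, Matrix.vecMul_one]
    have e3 : (∑ i, (∑ k, c k * (Matrix.of A0).adjugate k i) * A0 i j) =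
        (Matrix.of A0).det * c j := congrFun e j
    have e4 : ∑ i, (∑ k, c k * (Matrix.of A0).adjugate k i) * ((Matrix.of A0).det)⁻¹ * A0 i j =
        (∑ i, (∑ k, c k * (Matrix.of A0).adjugate k i) * A0 i j) * ((Matrix.of A0).det)⁻¹ := by
      rw [sum_mul]; exact sum_congr rfl fun i _ => by ring
    rw [e4, e3]; field_simp

end MJT
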