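import Pool.Agent.Lib.MP_9c49f6_co.T_Pl

/-! The triangular orthogonal basis tends to the monomial basis. -/

namespace MJT
open MJ Finset

namespace REG4

/-- a triangular system with non-zero diagonal has only the zero solution -/
lemma tri_inj {K : Type} [Field K] {n : ℕ} (M : n.Partition → n.Partition → K)
    (htri : ∀ i j, M i j ≠ 0 → lst i ≤ lst j) (hd : ∀ i, M i i ≠ 0) (p : n.Partition → Prop)
    (hp : ∀ i j, lst i < lst j → p j → p i) (w : n.Partition → K)
    (hw : ∀ j, p j → ∑ i, w i * M i j = 0) : ∀ j, p j → w j = 0 := by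
  have : IsTrans n.Partition (fun i j => lst i < lst j) := ⟨fun _ _ _ h1 h2 => lt_trans h1 h2⟩
  have : Std.Irrefl (fun i j : n.Partition => lst i < lst j) := ⟨fun _ h => lt_irrefl _ h⟩
  have wf : WellFounded (fun i j : n.Partition => lst i < lst j) :=
    Finite.wellFounded_of_trans_of_irrefl _
  intro j
  induction j using wf.induction with
  | _ j ih =>
    intro hj
    have h := hw j hj
    rw [sum_eq_single j] at h
    · exact (mul_eq_zero.mp h).resolve_right (hd j)
    · intro i _ hi
      by_cases hM : M i j = 0
      · rw [hM, mul_zero]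
      · have hlt : lst i < lst j := lt_of_le_of_ne (htri i j hM) fun e => hi (lst_inj e)
        rw [ih i hlt (hp i j hlt hj), zero_mul]
    · intro hj'
      exact absurd (mem_univ j) hj'

lemma solve {K : Type} [Field K] {n : ℕ} (M : n.Partition → n.Partition → K)
    (htri : ∀ i j, M i j ≠ 0 → lst i ≤ lst j) (hd : ∀ i, M i i ≠ 0) (b : n.Partition → K) :
    ∃ y : n.Partition → K, ∀ i, ∑ k, M i k * y k = b i := by
  classical
  have hinj : Function.Injective (Matrix.of M).vecMul := by
    intro u w huw
    have h := tri_inj M htri hd (fun _ => True) (fun _ _ _ _ => trivial) (u - w) fun j _ => by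
      have := congrFun huw j
      simp only [Matrix.vecMul, dotProduct, Matrix.of_apply] at this
      simp only [Pi.sub_apply, sub_mul, sum_sub_distrib, this, sub_self]
    funext j
    exact sub_eq_zero.mp (h j trivial)
  have hu : IsUnit (Matrix.of M) := Matrix.vecMul_injective_iff_isUnit.mp hinj
  obtain ⟨y, hy⟩ := Matrix.mulVec_surjective_iff_isUnit.mpr hu b
  exact ⟨y, fun i => by simpa [Matrix.mulVec, dotProduct] using congrFun hy i⟩

end REG4

open REG4 in
theorem st_REG (NAK : St_NAK) (RM : St_RM) : St_REG := by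
  classical
  intro F K _ _ _ _ Rd h n θ z v hθ hθ0 hz hv P hP l
  have hz0 : ∀ μ, θ ^ ln μ * z μ ≠ 0 := fun μ => h.ne (hz μ) (hv μ)
  have hz1 : ∀ μ, z μ ≠ 0 := fun μ => right_ne_zero_of_mul (hz0 μ)
  obtain ⟨y', hy'⟩ := solve (fun μ k => (rc μ k : F))
    (fun i j hij => ((RM n i).2 j (by simpa using hij)).1)
    (fun i => by simpa using (RM n i).1) (fun μ => P l μ * z μ)
  have hy0 : ∀ k, lst k < lst l → y' k = 0 := by
    refine tri_inj (fun j k => ∑ μ, P k μ * rc μ j) (fun i j hij => hP.tri j i hij)
      (fun i => by rw [hP.lead]; exact one_ne_zero) (fun k => lst k < lst l)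
      (fun i j hij hj => lt_trans hij hj) y' fun k hk => ?_
    have hne : l ≠ k := fun e => lt_irrefl _ (e ▸ hk)
    rw [← hP.orth l k hne]
    simp only [mul_sum]
    rw [sum_comm]
    refine sum_congr rfl fun μ _ => ?_
    rw [show P l μ * P k μ * z μ = P k μ * (P l μ * z μ) by ring, ← hy' μ, mul_sum]
    exact sum_congr rfl fun j _ => by ring
  set y : n.Partition → F := fun k => y' k * θ ^ ln k with hy
  set G : n.Partition → n.Partition → F := fun k j =>
    ∑ μ, (rc μ k : F) * rc μ j * θ ^ (ln μ - ln k) / (θ ^ ln μ * z μ) with hG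
  set G0 : n.Partition → n.Partition → K := fun k j => (rc k k : K) * rc k j / v k with hG0
  have hU : ∀ j, ∑ μ, P l μ * rc μ j = ∑ k, y k * G k j := by
    intro j
    simp only [hG, hy, mul_sum]
    rw [sum_comm]
    refine sum_congr rfl fun μ _ => ?_
    have e : P l μ = ∑ k, (rc μ k : F) * y' k / z μ := by
      rw [← sum_div, hy' μ, mul_div_cancel_right₀ _ (hz1 μ)]
    rw [e, sum_mul]
    refine sum_congr rfl fun k _ => ?_
    by_cases hr : rc μ k = 0
    · simp [hr]
    · obtain ⟨d, hd⟩ := Nat.exists_eq_add_of_le ((RM n μ).2 k hr).2.1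
      have := hz1 μ
      rw [hd, Nat.add_sub_cancel_left, pow_add]
      field_simp
  have hGR : ∀ k j, Rd (G k j) (G0 k j) := by
    intro k j
    have e : G0 k j = ∑ μ, (rc μ k : K) * rc μ j * 0 ^ (ln μ - ln k) / v μ := by
      rw [sum_eq_single k]
      · simp [hG0]
      · intro μ _ hμ
        by_cases hr : rc μ k = 0
        · simp [hr]
        · have h1 := ((RM n μ).2 k hr).2
          have h2 : ln μ - ln k ≠ 0 := by
            have : ln k ≠ ln μ := fun e => hμ (h1.2 e).symm
            omega
          simp [h2]
      · intro hk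
        exact absurd (mem_univ k) hk
    rw [e]
    exact h.sum _ fun μ _ =>
      h.div (h.mul (h.mul (h.nat _) (h.nat _)) (h.pow hθ0 _)) (hz μ) (hv μ)
  have hG0tri : ∀ k j, G0 k j ≠ 0 → lst k ≤ lst j := fun k j hkj =>
    ((RM n k).2 j fun e => hkj (by simp [hG0, e])).1
  have hyz : ∀ k, lst k < lst l → y k = 0 := fun k hk => by simp [hy, hy0 k hk]
  have hUge : ∀ j, lst l ≤ lst j → ∑ μ, P l μ * rc μ j = if l = j then 1 else 0 := by
    intro j hj
    split_ifs with e
    · rw [← e, hP.lead]
    · by_contra hne
      exact e (lst_inj (le_antisymm hj (hP.tri l j hne)))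
  obtain ⟨y0, hy0R, -⟩ := NAK F K Rd h n.Partition
    (fun k j => if lst l ≤ lst k ∧ lst l ≤ lst j then G k j else if k = j then 1 else 0)
    (fun k j => if lst l ≤ lst k ∧ lst l ≤ lst j then G0 k j else if k = j then 1 else 0)
    (fun k j => by
      by_cases c : lst l ≤ lst k ∧ lst l ≤ lst j
      · simpa only [if_pos c] using hGR k j
      · simpa only [if_neg c] using h.ite (k = j))
    (fun w hw => by
      funext j
      refine tri_inj _ (fun i j hij => ?_) (fun i => ?_) (fun _ => True)
        (fun _ _ _ _ => trivial) w (fun j _ => hw j) j trivial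
      · by_cases c : lst l ≤ lst i ∧ lst l ≤ lst j
        · exact hG0tri i j (by simpa only [if_pos c] using hij)
        · have : i = j := by
            by_contra e
            exact hij (by simp only [if_neg c, if_neg e])
          exact this ▸ le_rfl
      · by_cases c : lst l ≤ lst i ∧ lst l ≤ lst i
        · simp only [if_pos c, hG0]
          have : (rc i i : K) ≠ 0 := by simpa using (RM n i).1
          exact div_ne_zero (mul_ne_zero this this) (hv i)
        · simp only [if_neg c, if_true]
          exact one_ne_zero)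
    y (fun j => if l = j then 1 else 0) (fun j => by
      have e : ∑ k, y k * (if lst l ≤ lst k ∧ lst l ≤ lst j then G k j
          else if k = j then 1 else 0) = if l = j then 1 else 0 := by
        by_cases hj : lst l ≤ lst j
        · rw [← hUge j hj, hU j]
          refine sum_congr rfl fun k _ => ?_
          by_cases hk : lst l ≤ lst k
          · rw [if_pos ⟨hk, hj⟩]
          · rw [hyz k (not_le.mp hk), zero_mul, zero_mul]
        · rw [if_neg (fun e : l = j => hj (e ▸ le_rfl))]
          refine sum_eq_zero fun k _ => ?_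
          rw [if_neg (fun c => hj c.2)]
          split_ifs with e
          · rw [hyz k (e ▸ not_le.mp hj), zero_mul]
          · rw [mul_zero]
      rw [e]
      exact h.ite _)
  intro j
  by_cases hj : lst l ≤ lst j
  · rw [hUge j hj]
    exact h.ite _
  · rw [if_neg (fun e : l = j => hj (e ▸ le_rfl)), hU j]
    have e : (0 : K) = ∑ k, y0 k * G0 k j := by
      refine (sum_eq_zero fun k _ => ?_).symm
      by_cases c : G0 k j = 0
      · rw [c, mul_zero]
      · have hk : lst k < lst l := lt_of_le_of_lt (hG0tri k j c) (not_le.mp hj)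
        have h0 : y0 k = 0 := h.zero (by rw [← hyz k hk]; exact hy0R k)
        rw [h0, zero_mul]
    rw [e]
    exact h.sum _ fun k _ => h.mul (hy0R k) (hGR k j)

end MJT
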