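import Pool.Agent.Lib.MP_9c49f6_co.PBlue
import Pool.Agent.Lib.MP_9c49f6_co.T_NAK
import Pool.Agent.Lib.MP_9c49f6_co.T_LIM
import Pool.Agent.Lib.MP_9c49f6_co.T_REG

/-! Row `GS`: Gram-Schmidt at a place where the form stays positive. -/

namespace MJP
open MJ MJT Finset

namespace GS12

lemma exists_inv (n : ℕ) : ∃ m : n.Partition → n.Partition → ℚ,
    ∀ π' π, ∑ l, (rc π' l : ℚ) * m l π = if π' = π then 1 else 0 := by
  classical
  have hinj : Function.Injective (Matrix.of fun μ k : n.Partition => (rc μ k : ℚ)).vecMul := by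
    intro u w huw
    refine sub_eq_zero.mp (LIM15.rc_inj (u - w) fun j => ?_)
    have := congrFun huw j
    simp only [Matrix.vecMul, dotProduct, Matrix.of_apply] at this
    simp only [Pi.sub_apply, sub_mul, sum_sub_distrib, this, sub_self]
  obtain ⟨M, hM⟩ := (Matrix.vecMul_injective_iff_isUnit.mp hinj).exists_right_inv
  exact ⟨M, fun π' π => by
    simpa [Matrix.mul_apply, Matrix.one_apply] using congrFun (congrFun hM π') π⟩

lemma expand {K : Type} [Field K] {n : ℕ} {m : n.Partition → n.Partition → K}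
    (hm : ∀ π' π, ∑ l, (rc π' l : K) * m l π = if π' = π then 1 else 0)
    (v w : n.Partition → K) :
    ∑ π, v π * w π = ∑ k, (∑ π, w π * m k π) * ∑ μ, v μ * rc μ k := by
  have h : ∀ π, v π = ∑ k, (∑ μ, v μ * rc μ k) * m k π := fun π => by
    simp only [sum_mul, mul_assoc]
    rw [sum_comm]
    simp [← mul_sum, hm]
  calc ∑ π, v π * w π = ∑ π, ∑ k, w π * m k π * ∑ μ, v μ * rc μ k :=
        sum_congr rfl fun π _ => by
          rw [h π, sum_mul]
          exact sum_congr rfl fun k _ => by ring
    _ = _ := by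
        rw [sum_comm]
        exact sum_congr rfl fun k _ => (sum_mul _ _ _).symm

lemma rd_rat {F : Type} [Field F] [CharZero F] {Rd : F → ℚ → Prop} (h : Pl Rd) (r : ℚ) :
    Rd (r : F) r := by
  have := h.div (h.int r.num) (h.nat r.den) (by exact_mod_cast r.den_nz)
  rwa [← Rat.cast_def, Rat.num_div_den] at this

end GS12

open GS12 in
theorem st_GS : St_GS := by
  classical
  intro F _ _ Rd h q t n P hP hz l
  choose z0 hz0 hz using hz
  obtain ⟨m, hm⟩ := exists_inv n
  have hmF : ∀ π' π, ∑ k, (rc π' k : F) * (m k π : F) = if π' = π then 1 else 0 := fun π' π => by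
    have := congrArg (Rat.cast (K := F)) (hm π' π)
    push_cast at this
    rw [this]
    split_ifs <;> simp
  have hw : ∀ k, lst k < lst l → ∑ μ, P l μ * zqt q t μ * (m k μ : F) = 0 := by
    refine REG4.tri_inj (fun i j => ∑ μ, P j μ * rc μ i) (fun i j hij => hP.tri j i hij)
      (fun i => by rw [hP.lead]; exact one_ne_zero) (fun k => lst k < lst l)
      (fun i j hij hj => lt_trans hij hj) _ fun k hk => ?_
    rw [← expand hmF, ← hP.orth l k fun e => lt_irrefl _ (e ▸ hk)]
    exact sum_congr rfl fun μ _ => by ring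
  have pos : ∀ v : n.Partition → ℚ, ∑ μ, v μ * v μ * z0 μ = 0 → v = 0 := fun v hv => by
    funext μ
    have := (sum_eq_zero_iff_of_nonneg fun μ _ =>
      mul_nonneg (mul_self_nonneg (v μ)) (hz0 μ).le).1 hv μ (mem_univ μ)
    exact mul_self_eq_zero.1 ((mul_eq_zero.1 this).resolve_right (hz0 μ).ne')
  obtain ⟨y, hy, hc⟩ := st_NAK F ℚ Rd h n.Partition
    (fun μ k => if lst k < lst l then zqt q t μ * (m k μ : F) else rc μ k)
    (fun μ k => if lst k < lst l then z0 μ * m k μ else rc μ k)
    (fun μ k => by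
      split_ifs
      · exact h.mul (hz μ) (rd_rat h _)
      · exact h.nat _)
    (fun v hv => pos v (by
      simp only [mul_assoc]
      rw [expand hm]
      refine sum_eq_zero fun k _ => ?_
      have := hv k
      split_ifs at this
      · simp only [mul_assoc, this, zero_mul]
      · rw [this, mul_zero]))
    (P l) (fun k => if l = k then 1 else 0) (fun k => by
      have e : ∑ μ, P l μ * (if lst k < lst l then zqt q t μ * (m k μ : F) else rc μ k) =
          if l = k then 1 else 0 := by
        split_ifs with h1 h2 h2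
        · exact absurd (h2 ▸ h1) (lt_irrefl _)
        · simpa only [mul_assoc] using hw k h1
        · rw [← h2, hP.lead]
        · by_contra hne
          exact h2 (lst_inj (le_antisymm (not_lt.1 h1) (hP.tri l k hne)))
      rw [e]
      exact h.ite _)
  have hy0 : ∑ μ, y μ * y μ * z0 μ ≠ 0 := fun e => by
    have := hc l
    simp [pos y e] at this
  exact fun μ => ⟨⟨_, hy μ⟩, _, h.div (h.mul (hz μ) (hy μ))
    (h.sum _ fun ν _ => h.mul (h.mul (hy ν) (hy ν)) (hz ν)) hy0⟩

end MJP
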