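import Pool.Agent.Lib.MP_9c49f6_co.PBlue

/-! Row LOC: regularity of the coefficients along `t = 1`. -/

namespace MJP
open MJ MJT Finset MvPolynomial

namespace LOC84

lemma two_mul_le (f : ℕ → ℕ) (hf : Antitone f) (N : ℕ) :
    2 * ∑ i ∈ range N, i * f i + ∑ i ∈ range N, f i ≤
      (∑ i ∈ range N, f i) * ∑ i ∈ range N, f i := by
  induction N with
  | zero => simp
  | succ N ih =>
    rw [sum_range_succ, sum_range_succ]
    rcases Nat.eq_zero_or_pos (f N) with h | h
    · simpa [h] using ih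
    have h1 : N ≤ ∑ i ∈ range N, f i := by
      simpa using card_nsmul_le_sum (range N) f 1 fun i hi => h.trans_le (hf (mem_range.1 hi).le)
    nlinarith [Nat.mul_le_mul_right (f N) h1, Nat.mul_le_mul_right (f N) h]

lemma nRow_le {n : ℕ} (l : n.Partition) : 2 * nRow l ≤ n * (n - 1) := by
  have := two_mul_le (row l) (fun i j h => le_of_forall_lt fun c hc =>
    (lt_row_iff l _ _).2 (h.trans_lt ((lt_row_iff l _ _).1 hc))) n
  rw [sum_row] at this
  rw [Nat.mul_sub_one, nRow]
  omega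

variable {F : Type} [Field F] {O : Subring F}

lemma pow_one_add {g x : F} (hg : g ∈ O) (hx : x ∈ O) (a : ℕ) :
    ∃ o ∈ O, (1 + g * x) ^ a = 1 + g * o := by
  induction a with
  | zero => exact ⟨0, zero_mem _, by simp⟩
  | succ a ih =>
    obtain ⟨o, h1, h2⟩ := ih
    exact ⟨o + x + g * (o * x), add_mem (add_mem h1 hx) (mul_mem hg (mul_mem h1 hx)),
      by rw [pow_succ, h2]; ring⟩

lemma kap_mem {b g : F} (hb : b ∈ O) (hg : g ∈ O) (g0 : g ≠ 0) {n : ℕ} (l : n.Partition) :
    cArm (1 + g * (1 + b)) (1 + g) l / (1 - (1 + g)) ^ n ∈ O := by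
  have h : (1 - (1 + g)) ^ n = ∏ i ∈ range n, ∏ _j ∈ range (row l i), (-g) := by
    simp only [prod_const, card_range, prod_pow_eq_pow_sum, sum_row]
    congr 1
    ring
  rw [h, cArm, ← prod_div_distrib]
  refine prod_mem fun i _ => ?_
  rw [← prod_div_distrib]
  refine prod_mem fun j _ => ?_
  obtain ⟨o, h1, h2⟩ := pow_one_add hg (add_mem (one_mem O) hb) (row l i - (j + 1))
  obtain ⟨o', h3, h4⟩ := pow_one_add hg (one_mem O) (col l j - (i + 1) + 1)
  rw [mul_one] at h4
  rw [h2, h4, show (1 - (1 + g * o) * (1 + g * o')) / -g = o + o' + g * (o * o') by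
    field_simp
    ring]
  exact add_mem (add_mem h1 h3) (mul_mem hg (mul_mem h1 h3))

lemma term (z u κ S a b c : F) :
    z * (u / (κ ^ 2 * S) * (κ * a * (κ * b) * (κ * c))) = u * (κ * (z * a / S * b * c)) := by
  by_cases h1 : κ = 0
  · simp [h1]
  by_cases h2 : S = 0
  · simp [h2]
  field_simp

end LOC84
open LOC84

theorem st_LOC : St_LOC := by
  intro F _ O b g hb hg g0 t0 n P hP π μ ν
  have hq : 1 + g * (1 + b) ∈ O := add_mem (one_mem _) (mul_mem hg (add_mem (one_mem _) hb))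
  have ht : 1 + g ∈ O := add_mem (one_mem _) hg
  rw [WW, mul_assoc, cco, mul_sum, mul_sum]
  refine mul_mem (mul_mem (natCast_mem _ _) (natCast_mem _ _)) (sum_mem fun l _ => ?_)
  have h1 := kap_mem hb hg g0 l
  have h2 := hP l
  generalize 1 + g * (1 + b) = q at *
  generalize 1 + g = t at *
  have h3 : scal q t (Jc q t P l) (Jc q t P l) =
      (cArm q t l / (1 - t) ^ n) ^ 2 * scal q t (P l) (P l) := by
    simp only [scal, Jc, mul_sum]; exact sum_congr rfl fun _ _ => by ring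
  have h4 : t ^ (n * (n - 1)) * (q ^ nCol l * t⁻¹ ^ (2 * nRow l)) =
      q ^ nCol l * t ^ (n * (n - 1) - 2 * nRow l) := by
    rw [pow_sub₀ _ t0 (nRow_le l), inv_pow]
    ring
  rw [h3, Jc, Jc, Jc, term, ← mul_assoc, h4]
  exact mul_mem (mul_mem (pow_mem hq _) (pow_mem ht _))
    (mul_mem h1 (mul_mem (mul_mem (h2 π).2 (h2 μ).1) (h2 ν).1))

end MJP
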