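import Pool.Agent.Lib.MP_9c49f6_co.PBlue
import Pool.Agent.Lib.MP_9c49f6_co.T_LIM

/-! The coefficients are integer polynomials. -/

namespace MJP
open MJ MJT Finset MvPolynomial

namespace POLY15
variable {F : Type} [Field F]

/-- the regular elements -/
def Ob {K : Type} [Field K] {Rd : F → K → Prop} (h : Pl Rd) : Subring F where
  carrier := {y | ∃ a, Rd y a}
  mul_mem' := fun ⟨_, h1⟩ ⟨_, h2⟩ => ⟨_, h.mul h1 h2⟩
  one_mem' := ⟨_, h.one⟩
  add_mem' := fun ⟨_, h1⟩ ⟨_, h2⟩ => ⟨_, h.add h1 h2⟩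
  zero_mem' := ⟨_, h.zero'⟩
  neg_mem' := fun ⟨_, h1⟩ => ⟨_, h.neg h1⟩

/-- denominators are powers of `s` -/
noncomputable def Dn (x : Fin 2 → F) (s : MvPolynomial (Fin 2) ℤ) : Subring F where
  carrier := {y | ∃ (e : ℕ) (B : MvPolynomial (Fin 2) ℤ), aeval x (s ^ e) * y = aeval x B}
  mul_mem' := by
    rintro a b ⟨e, A, h1⟩ ⟨e', B, h2⟩
    exact ⟨e + e', A * B, by rw [map_mul, ← h1, ← h2, pow_add, map_mul]; ring⟩
  one_mem' := ⟨0, 1, by simp⟩
  add_mem' := by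
    rintro a b ⟨e, A, h1⟩ ⟨e', B, h2⟩
    refine ⟨e + e', s ^ e' * A + s ^ e * B, ?_⟩
    rw [map_add, map_mul, map_mul, ← h1, ← h2, pow_add, map_mul]; ring
  zero_mem' := ⟨0, 0, by simp⟩
  neg_mem' := by
    rintro a ⟨e, A, h1⟩
    exact ⟨e, -A, by rw [map_neg, ← h1]; ring⟩

lemma Dn_aeval (x : Fin 2 → F) (s A : MvPolynomial (Fin 2) ℤ) : aeval x A ∈ Dn x s :=
  ⟨0, A, by simp⟩

lemma Dn_inv (x : Fin 2 → F) {s A : MvPolynomial (Fin 2) ℤ} (h : A ∣ s) (h0 : aeval x A ≠ 0) :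
    (aeval x A)⁻¹ ∈ Dn x s := by
  obtain ⟨B, rfl⟩ := h
  exact ⟨1, B, by rw [pow_one, map_mul]; field_simp⟩

lemma Rv_aeval {K : Type} [Field K] (x : Fin 2 → F) (ev : MvPolynomial (Fin 2) ℤ →+* K)
    (A : MvPolynomial (Fin 2) ℤ) : Rv x ev (aeval x A) (ev A) :=
  ⟨A, 1, by simp, by simp, by simp⟩

lemma zqt_eq {q t a : F} (hi : Indep q t) (e : q - 1 = a * (t - 1)) {n : ℕ} (μ : n.Partition) :
    zqt q t μ = zz μ * (μ.parts.map fun i => a * qi q i / qi t i).prod := by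
  rw [zqt]
  congr 2
  refine Multiset.map_congr rfl fun i h => ?_
  have h1 := LIM15.qi_ne hi.t_pow_ne (μ.parts_pos h)
  have h2 := sub_ne_zero.mpr hi.t_ne_one.symm
  rw [LIM15.one_sub_pow q, LIM15.one_sub_pow t]
  field_simp
  linear_combination (-qi q i) * e

lemma qi_pos {u : ℚ} (hu : 0 ≤ u) {i : ℕ} (hi : 0 < i) : 0 < qi u i :=
  sum_pos' (fun _ _ => pow_nonneg hu _) ⟨0, mem_range.mpr hi, by simp⟩

end POLY15
open POLY15

theorem st_POLY (hC : St_COEF) (hL : St_LOC) (hG : St_GS) (hS : St_SEP) (hU : St_UFD)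
    (hP : St_PRI) : St_POLY := by
  intro F _ _ b g hx hi n π μ ν
  obtain ⟨hpl, hufd⟩ := hU F _ hx
  set x := ![b, g] with hxd
  let Q : MvPolynomial (Fin 2) ℤ := 1 + X 1 * (1 + X 0)
  let T : MvPolynomial (Fin 2) ℤ := 1 + X 1
  have eQ : aeval x Q = 1 + g * (1 + b) := by simp [Q, x]
  have eT : aeval x T = 1 + g := by simp [T, x]
  have eQ1 : aeval x (Q ^ 1 - 1) = 1 + g * (1 + b) - 1 := by simp [Q, x]
  have eT1 : aeval x (X 1 : MvPolynomial (Fin 2) ℤ) = 1 + g - 1 := by simp [x]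
  have n1 := hi.q_ne
  have n2 := hi.t_ne
  have n3 : 1 + g * (1 + b) - 1 ≠ 0 := sub_ne_zero.mpr (by simpa using hi.q_pow_ne 0)
  have n4 := sub_ne_zero.mpr hi.t_ne_one
  let s := Q * T * ((Q ^ 1 - 1) * X 1)
  obtain ⟨r, ⟨e, B, hB⟩, hr⟩ := hC F _ _ hi (Dn x s)
    ⟨eQ ▸ Dn_aeval x s Q, eQ ▸ Dn_inv x ((dvd_mul_right _ _).mul_right _) (eQ ▸ n1),
      eT ▸ Dn_aeval x s T, eT ▸ Dn_inv x ((dvd_mul_left _ _).mul_right _) (eT ▸ n2),
      eQ1 ▸ Dn_inv x ((dvd_mul_right _ _).mul_left _) (eQ1 ▸ n3),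
      eT1 ▸ Dn_inv x ((dvd_mul_left _ _).mul_left _) (eT1 ▸ n4)⟩ n π μ ν
  let u := ((μ.parts + ν.parts).map fun i => Q ^ i - 1).prod
  have eu : aeval x u = (μ.parts.map fun i => (1 + g * (1 + b)) ^ i - 1).prod *
      (ν.parts.map fun i => (1 + g * (1 + b)) ^ i - 1).prod := by
    simp only [u, Multiset.map_add, Multiset.prod_add, map_mul, map_multiset_prod,
      Multiset.map_map, Function.comp_def, map_sub, map_pow, map_one, eQ]
  have ne : ∀ κ : n.Partition, (κ.parts.map fun i => (1 + g * (1 + b)) ^ i - 1).prod ≠ 0 :=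
    fun κ => LIM15.mprod_ne κ fun i h => sub_ne_zero.mpr
      (sub_ne_zero.mp (LIM15.pow_ne hi.q_pow_ne h)).symm
  refine hufd _ (s ^ e * u) B (fun h => ?_) (by rw [map_mul, eu, ← hB, ← hr]; ring)
    fun p hp hd => ?_
  · have := congrArg (aeval x) h
    rw [map_mul, eu, map_pow, map_mul, map_mul, map_mul, eQ, eT, eQ1, eT1, map_zero] at this
    exact mul_ne_zero (pow_ne_zero _ (mul_ne_zero (mul_ne_zero n1 n2) (mul_ne_zero n3 n4)))
      (mul_ne_zero (ne μ) (ne ν)) this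
  have fin : ∀ (K : Type) [Field K] (ev : MvPolynomial (Fin 2) ℤ →+* K), ev p = 0 →
      Reg (1 + g * (1 + b)) (1 + g) (fun y => ∃ a, Rv x ev y a) (mac (n := n) hi) →
      ∃ B A' : MvPolynomial (Fin 2) ℤ, ¬ p ∣ B ∧
        aeval x B * WW (1 + g * (1 + b)) (1 + g) (mac hi) π μ ν = aeval x A' := by
    intro K _ ev h0 h
    obtain ⟨_, A', B', h1, h2, -⟩ := hL F (Ob (hpl K ev)) b g
      ⟨_, by simpa [x] using Rv_aeval x ev (X 0)⟩ ⟨_, by simpa [x] using Rv_aeval x ev (X 1)⟩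
      (by simpa using n4) n2 n _ h π μ ν
    exact ⟨B', A', fun ⟨c, hc⟩ => h1 (by rw [hc, map_mul, h0, zero_mul]), h2⟩
  have pt : ∀ c : ℤ, -1 ≤ c → eval ![0, c] p = 0 →
      ∃ B A' : MvPolynomial (Fin 2) ℤ, ¬ p ∣ B ∧
        aeval x B * WW (1 + g * (1 + b)) (1 + g) (mac hi) π μ ν = aeval x A' := by
    intro c hc h0
    let ev := (Int.castRingHom ℚ).comp (eval ![0, c])
    have h := hpl ℚ ev
    have hc' : (0 : ℚ) ≤ 1 + c := by exact_mod_cast (by omega : 0 ≤ 1 + c)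
    refine fin ℚ ev (by simp [ev, h0]) (hG F _ h _ _ n _ (LIM15.orth_of (isMac_mac hi)) fun κ => ?_)
    have r1 : Rv x ev (1 + g * (1 + b)) (1 + c) := by simpa [ev, Q, eQ] using Rv_aeval x ev Q
    have r2 : Rv x ev (1 + g) (1 + c) := by simpa [ev, T, eT] using Rv_aeval x ev T
    have r3 : Rv x ev (1 + b) 1 := by
      have := h.add h.one (Rv_aeval x ev (X 0))
      simpa [ev, x] using this
    rw [zqt_eq hi (a := 1 + b) (by ring)]
    refine ⟨_, ?_, h.mul (h.nat _) (h.mprod _ fun i hm => h.div (h.mul r3 (h.qi r1 i)) (h.qi r2 i)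
      (qi_pos hc' (κ.parts_pos hm)).ne')⟩
    refine mul_pos (lt_of_le_of_ne (Nat.cast_nonneg _) (LIM15.zz_ne κ).symm)
      (Multiset.prod_pos fun y hy => ?_)
    obtain ⟨i, hm, rfl⟩ := Multiset.mem_map.mp hy
    have := qi_pos hc' (κ.parts_pos hm)
    positivity
  obtain ⟨p1, p2, p3, p4⟩ := hP p hp
  by_cases c1 : p ∣ X 1
  · exact pt 0 (by norm_num) (p1 c1)
  have cyc : ∀ k : ℕ, p ∣ Q ^ (k + 1) - 1 → ∃ B A' : MvPolynomial (Fin 2) ℤ, ¬ p ∣ B ∧
      aeval x B * WW (1 + g * (1 + b)) (1 + g) (mac hi) π μ ν = aeval x A' := by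
    intro k hk
    obtain ⟨a1, a2, a3⟩ := p4 k hk c1
    have := (Ideal.span_singleton_prime hp.ne_zero).mpr hp
    let D := MvPolynomial (Fin 2) ℤ ⧸ Ideal.span {p}
    let ev := (algebraMap D (FractionRing D)).comp (Ideal.Quotient.mk (Ideal.span {p}))
    have hev : ∀ A, ev A = 0 ↔ p ∣ A := fun A => by
      rw [RingHom.comp_apply, map_eq_zero_iff _ (IsFractionRing.injective D _),
        Ideal.Quotient.eq_zero_iff_mem, Ideal.mem_span_singleton]
    have : CharZero (FractionRing D) := charZero_of_inj_zero fun m hm => by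
      rcases m with _ | m
      · rfl
      · exact (a1 m ((hev _).mp (by rwa [map_natCast]))).elim
    refine fin _ ev ((hev p).mpr dvd_rfl) (hS F _ _ (hpl _ ev) _ _ hi (ev Q) (ev T) k
      (eQ ▸ Rv_aeval x ev Q) (eT ▸ Rv_aeval x ev T) ?_ (fun h => a2 ((hev _).mp h))
      (fun m h => a3 m ((hev _).mp ?_)) n)
    · have := (hev _).mpr hk
      rwa [map_sub, map_pow, map_one, sub_eq_zero] at this
    · rw [map_sub, map_pow, map_one, sub_eq_zero]; exact h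
  rcases hp.dvd_or_dvd hd with h | h
  · rcases hp.dvd_or_dvd (hp.dvd_of_dvd_pow h) with h | h
    · rcases hp.dvd_or_dvd h with h | h
      · exact pt (-1) le_rfl (p3 h)
      · exact pt (-1) le_rfl (p2 h)
    · exact cyc 0 ((hp.dvd_or_dvd h).resolve_right c1)
  · obtain ⟨y, hy, h1⟩ := hp.exists_mem_multiset_dvd h
    obtain ⟨i, hm, rfl⟩ := Multiset.mem_map.mp hy
    have : 0 < i := by
      rcases Multiset.mem_add.mp hm with h | h
      exacts [μ.parts_pos h, ν.parts_pos h]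
    obtain ⟨j, rfl⟩ : ∃ j, i = j + 1 := ⟨i - 1, by omega⟩
    exact cyc j h1

end MJP
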