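import Pool.Agent.Lib.MP_9c49f6_co.PBlue

/-! Row PRI: the prime factors of the denominators. -/

namespace MJP
open MvPolynomial

namespace PRI34

abbrev P2 := MvPolynomial (Fin 2) ℤ

lemma ev_zero {p f : P2} (hp : Prime p) (hf : Irreducible f) (h : p ∣ f) (x : Fin 2 → ℤ)
    (hx : eval x f = 0) : eval x p = 0 := by
  obtain ⟨c, hc⟩ := (hp.irreducible.associated_of_dvd hf h).symm.dvd
  rw [hc, map_mul, hx, zero_mul]

lemma irr1 : Irreducible (1 + X 1 : P2) := by
  have := irreducible_mul_X_add (1 : P2) 1 1 one_ne_zero (by simp) (by simp) isRelPrime_one_left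
  rwa [one_mul, add_comm] at this

lemma irr2 : Irreducible (1 + X 1 * (1 + X 0) : P2) := by
  have h1 : (0 : Fin 2) ∉ (X 1 : P2).vars := by simp [vars_X]
  have h2 : (0 : Fin 2) ∉ (1 + X 1 : P2).vars := fun h => by
    rcases Finset.mem_union.1 (vars_add_subset _ _ h) with h | h
    · simp at h
    · exact h1 h
  have h3 : IsRelPrime (X 1 : P2) (1 + X 1) := fun d ha hb =>
    isUnit_of_dvd_one ((dvd_add_left ha).1 hb)
  have := irreducible_mul_X_add (X 1 : P2) (1 + X 1) 0 (X_ne_zero 1) h1 h2 h3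
  rwa [show (X 1 * X 0 + (1 + X 1) : P2) = 1 + X 1 * (1 + X 0) by ring] at this

lemma phi1 : finSuccEquiv ℤ 1 (X 1) = Polynomial.C (X 0) := finSuccEquiv_X_succ (j := 0)

lemma key {p f : P2} (hp : Prime p) {k : ℕ} (h : p ∣ (1 + X 1 * (1 + X 0)) ^ (k + 1) - 1)
    (hf : p ∣ f) (h0 : f ≠ 0) {f0 : MvPolynomial (Fin 1) ℤ}
    (e : finSuccEquiv ℤ 1 f = Polynomial.C f0) : p ∣ X 1 := by
  have h1 : finSuccEquiv ℤ 1 p ∣ finSuccEquiv ℤ 1 f := map_dvd _ hf
  have h2 : (finSuccEquiv ℤ 1 p).natDegree = 0 := by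
    have := Polynomial.natDegree_le_of_dvd h1 ((map_ne_zero_iff _ (AlgEquiv.injective _)).2 h0)
    rw [e, Polynomial.natDegree_C] at this
    omega
  obtain ⟨p0, hp0⟩ := Polynomial.natDegree_eq_zero.1 h2
  have h3 := map_dvd (finSuccEquiv ℤ 1) h
  have h4 : finSuccEquiv ℤ 1 (1 + X 1 * (1 + X 0)) =
      Polynomial.C (X 0) * Polynomial.X + Polynomial.C (1 + X 0) := by
    rw [map_add, map_mul, map_add, map_one, phi1, finSuccEquiv_X_zero, map_add, map_one]
    ring
  rw [← hp0, map_sub, map_pow, map_one, h4, Polynomial.C_dvd_iff_dvd_coeff] at h3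
  have h5 := h3 ((k + 1) * 1)
  rw [Polynomial.coeff_sub, Polynomial.coeff_pow_of_natDegree_le Polynomial.natDegree_linear_le,
    Polynomial.coeff_one, if_neg (by omega), sub_zero] at h5
  have h6 : (Polynomial.C (X 0) * Polynomial.X + Polynomial.C (1 + X 0) :
      Polynomial (MvPolynomial (Fin 1) ℤ)).coeff 1 = X 0 := by
    rw [Polynomial.coeff_add, Polynomial.coeff_C_mul, Polynomial.coeff_X_one, mul_one,
      Polynomial.coeff_C, if_neg one_ne_zero, add_zero]
  rw [h6] at h5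
  have h7 : finSuccEquiv ℤ 1 p ∣ finSuccEquiv ℤ 1 (X 1 ^ (k + 1)) := by
    rw [← hp0, map_pow, phi1, ← map_pow]
    exact map_dvd _ h5
  exact hp.dvd_of_dvd_pow ((map_dvd_iff (finSuccEquiv ℤ 1)).1 h7)

end PRI34

open PRI34 in
theorem st_PRI : St_PRI := by
  intro p hp
  refine ⟨fun h => ev_zero hp X_prime.irreducible h _ (by simp),
    fun h => ev_zero hp irr1 h _ (by simp), fun h => ev_zero hp irr2 h _ (by simp),
    fun k h hn => ⟨fun m hm => hn ?_, fun hm => hn ?_, fun m hm => hn ?_⟩⟩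
  · exact key hp h hm (Nat.cast_ne_zero.2 (by omega)) (f0 := ((m + 1 : ℕ) : _)) (by
      rw [map_natCast, map_natCast])
  · exact key hp h hm irr1.ne_zero (f0 := 1 + X 0) (by
      rw [map_add, map_one, phi1, map_add, map_one])
  · refine key hp h hm (fun e => ?_) (f0 := (1 + X 0) ^ (m + 1) - 1) (by
      rw [map_sub, map_pow, map_add, map_one, phi1, map_sub, map_pow, map_add, map_one])
    have := congrArg (eval (![0, -1] : Fin 2 → ℤ)) e
    simp at this

end MJP
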