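import Pool.Agent.Lib.MP_9c49f6_co.PBlue
import Pool.Agent.Lib.MP_9c49f6_co.T_LIM

/-! Regularity of the Macdonald polynomials and of the dual family at `q` a root of unity. -/

namespace MJP
open MJ MJT Finset MvPolynomial

namespace SEP57
variable {F K : Type} [Field F] [Field K] {n : ℕ} {Rd : F → K → Prop}

/-- the regular elements -/
def OO (h : Pl Rd) : Subring F where
  carrier := {y | ∃ a, Rd y a}
  mul_mem' := fun ⟨_, ha⟩ ⟨_, hb⟩ => ⟨_, h.mul ha hb⟩
  one_mem' := ⟨_, h.one⟩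
  add_mem' := fun ⟨_, ha⟩ ⟨_, hb⟩ => ⟨_, h.add ha hb⟩
  zero_mem' := ⟨_, h.zero'⟩
  neg_mem' := fun ⟨_, ha⟩ => ⟨_, h.neg ha⟩

lemma row_of_fst {l k : n.Partition}
    (h : (cells l).val.map Prod.fst = (cells k).val.map Prod.fst) : l = k := by
  have key : ∀ (l : n.Partition) (i : ℕ),
      (((cells l).val.map Prod.fst).map fun j => if j = i then 1 else 0).sum = row l i := by
    intro l i
    rw [Multiset.map_map]
    change ∑ c ∈ cells l, (if c.1 = i then 1 else 0) = _
    rw [sum_cells l (n + i + 1) ((col_le l 0).trans (by omega)), sum_eq_single i]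
    · simp
    · intro j _ hj; simp [hj]
    · intro hi; simp at hi
  exact row_ext fun i => by rw [← key l i, ← key k i, h]

lemma pow_inj {u : K} (h0 : u ≠ 0) (h : ∀ m, u ^ (m + 1) ≠ 1) (k : ℕ) :
    Function.Injective fun i : ℕ => (u ^ i) ^ (k + 1) := by
  have key : ∀ i j : ℕ, i < j → (u ^ i) ^ (k + 1) ≠ (u ^ j) ^ (k + 1) := fun i j hij e => by
    obtain ⟨r, rfl⟩ := Nat.exists_eq_add_of_lt hij
    refine h (r * (k + 1) + k) (mul_left_cancel₀ (pow_ne_zero (k + 1) (pow_ne_zero i h0)) ?_)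
    rw [mul_one]
    exact Eq.trans (by ring) e.symm
  intro i j e
  rcases lt_trichotomy i j with h1 | h1 | h1
  · exact absurd e (key i j h1)
  · exact h1
  · exact absurd e.symm (key j i h1)

/-- the value of the eigenvalue function -/
def gv (q0 t0 w : K) (l : n.Partition) : K :=
  ∏ c ∈ (cells l).erase (0, 0), mono q0 t0 c * (mono q0 t0 c - 1 + w * mono q0 t0 c)

lemma sep [CharZero K] {q0 t0 : K} {k : ℕ} (hq : q0 ^ (k + 1) = 1) (ht : t0 ≠ 0)
    (hr : ∀ m, t0 ^ (m + 1) ≠ 1) (hn : 0 < n) {l j : n.Partition}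
    (h : ∀ w : ℕ, gv q0 t0 w l = gv q0 t0 w j) : l = j := by
  have hq0 : q0 ≠ 0 := by
    rintro rfl
    simp at hq
  have hx : ∀ c, mono q0 t0 c ≠ 0 := fun c =>
    mul_ne_zero (pow_ne_zero _ hq0) (pow_ne_zero _ (inv_ne_zero ht))
  let A : n.Partition → Polynomial K := fun l =>
    Polynomial.C (∏ c ∈ (cells l).erase (0, 0), mono q0 t0 c ^ 2) *
      ((((cells l).erase (0, 0)).val.map fun c => (mono q0 t0 c)⁻¹ - 1).map
        fun a => Polynomial.X - Polynomial.C a).prod
  have hA : ∀ l w, (A l).eval w = gv q0 t0 w l := fun l w => by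
    simp only [A, Polynomial.eval_mul, Polynomial.eval_C, Polynomial.eval_multiset_prod,
      Multiset.map_map, Function.comp_def, Polynomial.eval_sub, Polynomial.eval_X]
    rw [gv, ← prod_eq_multiset_prod, ← prod_mul_distrib]
    refine prod_congr rfl fun c _ => ?_
    have := hx c
    field_simp
    ring
  have h1 : A l = A j := Polynomial.eq_of_infinite_eval_eq _ _
    ((Set.infinite_range_of_injective Nat.cast_injective).mono (by
      rintro _ ⟨w, rfl⟩
      simpa [hA] using h w))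
  have hR : ∀ l, (A l).roots.map (fun a => (a + 1) ^ (k + 1)) =
      (((cells l).erase (0, 0)).val.map Prod.fst).map fun i => (t0 ^ i) ^ (k + 1) := fun l => by
    rw [Polynomial.roots_C_mul _ (prod_ne_zero_iff.mpr fun c _ => pow_ne_zero _ (hx c)),
      Polynomial.roots_multiset_prod_X_sub_C, Multiset.map_map, Multiset.map_map]
    refine Multiset.map_congr rfl fun c _ => ?_
    simp only [Function.comp, sub_add_cancel, mono, mul_inv, inv_pow, inv_inv, mul_pow]
    rw [← pow_mul q0, mul_comm c.2, pow_mul, hq, one_pow, inv_one, one_mul]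
  have h2 := Multiset.map_injective (pow_inj ht hr k) ((hR l).symm.trans (h1 ▸ hR j))
  have h3 : ∀ l : n.Partition, (cells l).val = (0, 0) ::ₘ ((cells l).erase (0, 0)).val := fun l =>
    (Multiset.cons_erase (zero_mem_cells l hn)).symm
  refine row_of_fst ?_
  rw [h3 l, h3 j, Multiset.map_cons, Multiset.map_cons, h2]

variable [CharZero F] {q t : F}

/-- the dual family -/
noncomputable def xx (hi : Indep q t) (l μ : n.Partition) : F :=
  zqt q t μ * mac hi l μ / scal q t (mac hi l) (mac hi l)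

lemma dual (hi : Indep q t) (l k : n.Partition) :
    ∑ μ, mac hi l μ * xx hi k μ = if l = k then 1 else 0 := by
  have h1 : ∑ μ, mac hi l μ * xx hi k μ =
      scal q t (mac hi l) (mac hi k) / scal q t (mac hi k) (mac hi k) := by
    rw [scal, sum_div]
    exact sum_congr rfl fun μ _ => by rw [xx]; ring
  rw [h1]
  split_ifs with h
  · subst h
    exact div_self (ip_Th q t _ _ ▸ mac_norm hi l)
  · rw [(isMac_mac hi).orth l k h, zero_div]

/-- eigenvalue functions whose operator has a matrix with entries in `O` -/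
def Ok (hi : Indep q t) (O : Subring F) (Γ : n.Partition → F) : Prop :=
  ∀ π μ, ∑ l, Γ l * (xx hi l π * mac hi l μ) ∈ O

variable {hi : Indep q t} {O : Subring F}

lemma Ok.one : Ok hi O (fun _ : n.Partition => 1) := fun π μ => by
  simp only [one_mul, xx, LIM15.expand hi]
  split_ifs
  exacts [one_mem _, zero_mem _]

lemma Ok.mul {Γ Δ : n.Partition → F} (h1 : Ok hi O Γ) (h2 : Ok hi O Δ) :
    Ok hi O fun l => Γ l * Δ l := fun π μ => by
  classical
  convert sum_mem (t := univ) fun ν _ => mul_mem (h1 π ν) (h2 ν μ) using 1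
  simp only [sum_mul_sum]
  rw [sum_comm]
  refine sum_congr rfl fun l _ => ?_
  rw [sum_comm]
  have : ∀ k, ∑ ν, Γ l * (xx hi l π * mac hi l ν) * (Δ k * (xx hi k ν * mac hi k μ)) =
      (∑ ν, mac hi l ν * xx hi k ν) * (Γ l * Δ k * (xx hi l π * mac hi k μ)) := fun k => by
    rw [sum_mul]; exact sum_congr rfl fun _ _ => by ring
  simp [this, dual]

lemma Ok.aff {Γ : n.Partition → F} (h : Ok hi O Γ) {a b : F} (ha : a ∈ O) (hb : b ∈ O) :
    Ok hi O fun l => (Γ l - a) * b := fun π μ => by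
  convert mul_mem (sub_mem (h π μ) (mul_mem ha (Ok.one (hi := hi) π μ))) hb using 1
  rw [mul_sum, ← sum_sub_distrib, sum_mul]
  exact sum_congr rfl fun _ _ => by ring

lemma Ok.prod {ι : Type} (s : Finset ι) {Γ : ι → n.Partition → F} (h : ∀ i ∈ s, Ok hi O (Γ i)) :
    Ok hi O fun l => ∏ i ∈ s, Γ i l := by
  classical
  induction s using Finset.induction_on with
  | empty => simpa using Ok.one
  | insert a s ha ih =>
    simpa [prod_insert ha] using (h a (by simp)).mul (ih fun i hi => h i (by simp [hi]))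

lemma Ok.gam (hn : 0 < n) (hq : q ∈ O) (ht : t ∈ O) (hT : t⁻¹ ∈ O)
    (hz : ∀ μ : n.Partition, (zz μ : F)⁻¹ ∈ O)
    (hp : ∀ π : n.Partition, (π.parts.map fun i => t ^ i - 1).prod⁻¹ ∈ O) (w : ℕ) :
    Ok hi O fun l : n.Partition => Gam q t (Gt 1 w) ⟨n, l⟩ := fun π μ => by
  obtain ⟨K0, L, -, h2, -⟩ := exists_list (t := t) π hn
  have h3 := Del_p hi (Gt 1 w) K0 L
  obtain ⟨a, ha, h4⟩ := IL_coeff (IL_FF (R := O) (g := 1) (w := w) hi.t_ne hq hT
    (by simp) (natCast_mem _ _) K0 L) (dOf μ)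
  have h5 : pw (fun k => t ^ (k + 1) - 1) (dOf μ) = _ := prod_dOf μ fun i => t ^ i - 1
  rw [← h3, h2, map_smul, coeff_smul, Del_coeff, zn_dOf, h5, smul_eq_mul] at h4
  have h6 : (μ.parts.map fun i => t ^ i - 1).prod ∈ O := multiset_prod_mem _ fun x hx => by
    obtain ⟨i, -, rfl⟩ := Multiset.mem_map.mp hx
    exact sub_mem (pow_mem ht _) (one_mem _)
  have h7 := LIM15.zz_ne (F := F) μ
  have h8 := LIM15.mprod_ne π (f := fun i => t ^ i - 1) fun i h =>
    sub_ne_zero.mpr (sub_ne_zero.mp (LIM15.pow_ne hi.t_pow_ne h)).symm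
  convert mul_mem (mul_mem (hp π) (hz μ)) (mul_mem ha h6) using 1
  rw [← h4, mul_assoc, inv_mul_cancel_left₀ h7, inv_mul_cancel_left₀ h8, mul_sum]
  exact sum_congr rfl fun _ _ => by rw [xx]; ring

omit [CharZero F] in
lemma y_top {U : n.Partition → n.Partition → F} (h1 : ∀ j, U j j = 1)
    (h2 : ∀ j k, U j k ≠ 0 → lst k ≤ lst j) {y : n.Partition → F} {l : n.Partition}
    (h : ∀ j, ∑ k, y k * U k j = if l = j then 1 else 0) (k : n.Partition) :
    lst l ≤ lst k → y k = if l = k then 1 else 0 := by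
  let : LinearOrder n.Partition := LinearOrder.lift' lst lst_inj
  induction k using WellFoundedGT.induction with
  | ind k ih =>
    intro hk
    rw [← h k, sum_eq_single k, h1, mul_one]
    · intro j _ hj
      by_cases h3 : U j k = 0
      · rw [h3, mul_zero]
      · have h4 : lst k < lst j := lt_of_le_of_ne (h2 j k h3) fun e => hj (lst_inj e).symm
        rw [ih j h4 (hk.trans h4.le), if_neg, zero_mul]
        rintro rfl
        exact absurd hk (not_le.mpr h4)
    · simp

lemma exists_m (hi : Indep q t) (l : n.Partition) :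
    ∃ m : n.Partition → ℚ, ∑ π, (m π : F) * xx hi l π = 1 := by
  classical
  let M : Matrix n.Partition n.Partition ℚ := Matrix.of fun μ k => (rc μ k : ℚ)
  have hM : M.det ≠ 0 := fun h0 => by
    obtain ⟨v, h1, h2⟩ := Matrix.exists_vecMul_eq_zero_iff.mpr h0
    exact h1 (LIM15.rc_inj v fun k => congrFun h2 k)
  have h1 : ∀ j, ∑ π, M⁻¹ l π * (rc π j : ℚ) = if l = j then 1 else 0 := fun j => by
    have := congrFun (congrFun (Matrix.nonsing_inv_mul M (Ne.isUnit hM)) l) j
    rwa [Matrix.mul_apply, Matrix.one_apply] at this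
  have ho := LIM15.orth_of (isMac_mac (n := n) hi)
  refine ⟨M⁻¹ l, ?_⟩
  have h2 := y_top (y := fun k => ∑ π, (M⁻¹ l π : F) * xx hi k π) (l := l) ho.lead ho.tri
    (fun j => ?_) l le_rfl
  · simpa using h2
  have h3 : ∑ k, (∑ π, (M⁻¹ l π : F) * xx hi k π) * ∑ μ, mac hi k μ * rc μ j =
      ∑ π, ∑ μ, (∑ k, xx hi k π * mac hi k μ) * ((M⁻¹ l π : F) * rc μ j) := by
    simp only [sum_mul]
    rw [sum_comm]
    refine sum_congr rfl fun π _ => ?_
    simp only [mul_sum]
    rw [sum_comm]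
    exact sum_congr rfl fun _ _ => sum_congr rfl fun _ _ => by ring
  have h4 := congrArg (Rat.cast : ℚ → F) (h1 j)
  rw [h3]
  simp only [xx, LIM15.expand hi, ite_mul, one_mul, zero_mul, sum_ite_eq, mem_univ, if_true]
  push_cast at h4
  rw [h4]
  split_ifs <;> simp

end SEP57
open SEP57

theorem st_SEP : St_SEP := by
  intro F K _ _ _ _ Rd h q t hi q0 t0 k rq rt hq ht hr n l
  classical
  have rm : ∀ c, Rd (mono q t c) (mono q0 t0 c) := fun c =>
    h.mul (h.pow rq _) (h.pow (h.inv rt ht) _)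
  have rg : ∀ (w : ℕ) (j : n.Partition), Rd (Gam q t (Gt 1 w) ⟨n, j⟩) (gv q0 t0 w j) := fun w j =>
    h.prod _ fun c _ => by
      simpa [Gt] using h.mul (rm c) (h.add (h.sub (rm c) h.one) (h.mul (h.nat w) (rm c)))
  have h1 : ∀ j : n.Partition, j ≠ l →
      ∃ Γ, Ok hi (OO h) Γ ∧ Γ l = 1 ∧ Γ j = 0 := fun j hj => by
    have hn : 0 < n := Nat.pos_of_ne_zero (by
      rintro rfl
      exact hj (Subsingleton.elim _ _))
    obtain ⟨w, hw⟩ := not_forall.mp fun e => hj (sep hq ht hr hn e).symm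
    have h2 := h.sub (rg w l) (rg w j)
    refine ⟨_, (Ok.gam (hi := hi) (O := OO h) hn ⟨_, rq⟩ ⟨_, rt⟩ ⟨_, h.inv rt ht⟩
      (fun μ => ⟨_, h.inv (h.nat _) (LIM15.zz_ne μ)⟩) (fun π => ⟨_, h.inv (h.mprod _ fun i _ =>
        h.sub (h.pow rt i) h.one) (LIM15.mprod_ne π fun i hi' =>
          sub_ne_zero.mpr (sub_ne_zero.mp (LIM15.pow_ne hr hi')).symm)⟩) w).aff ⟨_, rg w j⟩
      ⟨_, h.inv h2 (sub_ne_zero.mpr hw)⟩, mul_inv_cancel₀ (h.ne h2 (sub_ne_zero.mpr hw)), ?_⟩
    simp
  choose! Γ hΓ using h1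
  have h2 : ∀ π μ, xx hi l π * mac hi l μ ∈ OO h := fun π μ => by
    have h3 := Ok.prod (univ.erase l) (fun j hj => (hΓ j (ne_of_mem_erase hj)).1) π μ
    beta_reduce at h3
    rwa [sum_eq_single l (fun j _ hj => by
        rw [prod_eq_zero (f := fun i => Γ i j) (mem_erase.mpr ⟨hj, mem_univ _⟩) (hΓ j hj).2.2,
          zero_mul]) (by simp),
      prod_eq_one fun j hj => (hΓ j (ne_of_mem_erase hj)).2.1, one_mul] at h3
  obtain ⟨m, hm⟩ := exists_m hi l
  refine fun μ => ⟨?_, ?_⟩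
  · change _ ∈ OO h
    convert sum_mem (t := univ) fun π _ => mul_mem (show (m π : F) ∈ OO h from
      ⟨_, by simpa [Rat.cast_def] using h.div (h.int (m π).num) (h.nat (m π).den) (by
        exact_mod_cast (m π).den_ne_zero)⟩) (h2 π μ) using 1
    simp only [← mul_assoc, ← sum_mul, hm, one_mul]
  · change xx hi l μ ∈ OO h
    convert sum_mem (t := univ) fun ν _ => mul_mem (h2 μ ν) (natCast_mem _ (rc ν l)) using 1
    simp only [mul_assoc, ← mul_sum, (LIM15.orth_of (isMac_mac hi)).lead l, mul_one]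

end MJP
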