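import Pool.Agent.Lib.MP_9c49f6_co.PBlue

/-! The symbol rule for the creation operators. -/

namespace MJP
open MJ MJT Finset MvPolynomial

namespace SYM91

variable {F : Type} [Field F] {q t : F}

lemma pow_eq (s : ℕ) (v : St F) :
    (EE q t ^ s) v = Polynomial.aeval (EE q t) (Polynomial.X ^ s : Polynomial F) v := by
  rw [map_pow, Polynomial.aeval_X]

lemma psi_Z (s : ℕ) {z : St F} (hz : z ∈ Zs q t) : psi q t 1 ((EE q t ^ s) z) = 0 := by
  rw [pow_eq]; exact Zs_psi (Zs_aeval _ hz)

lemma psi_eig (s : ℕ) {w : St F} {x : F} (h : EE q t w - x • w ∈ Zs q t) :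
    psi q t 1 ((EE q t ^ s) w) = x ^ s • psi q t 1 w := by
  have := Zs_psi (aeval_eig h (Polynomial.X ^ s))
  rw [map_sub, map_smul, sub_eq_zero, Polynomial.eval_pow, Polynomial.eval_X] at this
  rw [pow_eq, this]

variable [CharZero F]

lemma EE_iota (f : Lam F) : EE q t (iota q t f) = inc f := by
  have h := EE_ww q t 0 f
  have e : ww q t 0 f = iota q t f := by
    have : gb t 0 = 1 := gen_zero _
    simp [ww, this]
  rw [e] at h
  simpa using h

lemma iota_HS {m : ℤ} {f : Lam F} (hf : f ∈ Hm F m) : iota q t f ∈ HS F m := fun s =>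
  Sh_Hm _ s hf

lemma iota_type (hi : Indep q t) {m : ℤ} {f : Lam F} (hf : f ∈ Hm F m) {β : F}
    (h : DD q t 0 f = β • f) : Dt q t (iota q t f) - β • iota q t f ∈ Zs q t := by
  have e := rr_spec hi (iota_HS (q := q) (t := t) hf)
  rw [EE_iota] at e
  rw [← e]
  refine type_aeval hi.t_ne ?_ _
  rw [Dt_inc, h, map_smul, sub_self]
  exact zero_mem _

end SYM91

open SYM91 in
theorem st_SYM : St_SYM := by
  intro F _ _ q t hi a e N A hA r f
  have key : YS q t (r + e) ∘ₗ Dg hi a = ∑ s ∈ range N, Dg hi (A s) ∘ₗ YS q t (r + s) := by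
    refine (macSys hi).b.ext fun i => ?_
    let B : St F →ₗ[F] Lam F := a i • (psi q t 1 ∘ₗ (EE q t ^ e)) -
      ∑ s ∈ range N, Dg hi (A s) ∘ₗ psi q t 1 ∘ₗ (EE q t ^ s)
    have hB : ∀ w, B w = a i • psi q t 1 ((EE q t ^ e) w) -
        ∑ s ∈ range N, Dg hi (A s) (psi q t 1 ((EE q t ^ s) w)) := fun w => by
      simp only [B, LinearMap.sub_apply, LinearMap.smul_apply, LinearMap.comp_apply,
        LinearMap.sum_apply]
    have h0 : (EE q t ^ r) (iota q t ((macSys hi).b i)) ∈ LinearMap.ker B := by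
      rw [pow_eq]
      refine (macSys hi).decomp hi i _ _ (fun z hz => ?_) (fun w _ c k hc h1 h2 => ?_) _
        (aeval_HS q t _ (iota_HS ((macSys hi).hom i)))
        (type_aeval hi.t_ne (iota_type hi ((macSys hi).hom i) ((macSys hi).eig i)) _)
      · rw [LinearMap.mem_ker, hB]
        simp [psi_Z _ hz]
      · have a3 : DD q t 0 (psi q t 1 w) =
            del q t ((macSys hi).cells k).val • psi q t 1 w := by
          rw [hc, del_cons]; exact psi_one_eig' hi.t_ne h1 h2
        rw [LinearMap.mem_ker, hB]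
        simp only [psi_eig _ h1, map_smul, (macSys hi).Del_eig hi _ a3, smul_smul, ← sum_smul]
        rw [hA i k c hc, ← sub_smul, sub_eq_zero.2 (sum_congr rfl fun s _ => mul_comm _ _),
          zero_smul]
    rw [LinearMap.mem_ker, hB, sub_eq_zero] at h0
    simp only [LinearMap.comp_apply, LinearMap.sum_apply, Sys.Del_b, map_smul, YS,
      add_comm r, pow_add, Module.End.mul_apply]
    exact h0
  simpa only [LinearMap.comp_apply, LinearMap.sum_apply] using LinearMap.congr_fun key f

end MJP
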