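import Pool.Agent.Lib.MP_9c49f6_co.PBlue

/-! Transfer of the polynomial identity between fields of definition. -/

namespace MJP
open MJ MJT Finset MvPolynomial

namespace TRANS62

section hom
variable {K F : Type} [Field K] [Field F] (φ : K →+* F) {n : ℕ}

lemma map_zqt (q t : K) (l : n.Partition) : φ (zqt q t l) = zqt (φ q) (φ t) l := by
  simp only [zqt, map_mul, map_natCast, map_multiset_prod, Multiset.map_map]
  congr 2
  refine Multiset.map_congr rfl fun i _ => ?_
  simp

lemma map_scal (q t : K) (a b : n.Partition → K) :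
    φ (scal q t a b) = scal (φ q) (φ t) (fun μ => φ (a μ)) (fun μ => φ (b μ)) := by
  simp only [scal, map_sum, map_mul, map_zqt]

lemma map_psumPart (μ : n.Partition) :
    MvPolynomial.map φ (psumPart (Fin n) K μ) = psumPart (Fin n) F μ := by
  simp only [psumPart, map_multiset_prod, Multiset.map_map]
  congr 1
  refine Multiset.map_congr rfl fun i _ => ?_
  simp [psum]

lemma map_sym (a : n.Partition → K) :
    MvPolynomial.map φ (sym a) = sym fun μ => φ (a μ) := by
  simp only [sym, map_sum, smul_eq_C_mul, map_mul, map_C, map_psumPart]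

lemma coeff_sym_map (a : n.Partition → K) (d : Fin n →₀ ℕ) :
    coeff d (sym fun μ => φ (a μ)) = φ (coeff d (sym a)) := by
  rw [← map_sym, coeff_map]

lemma map_isMac {q t : K} {P : n.Partition → n.Partition → K} (h : IsMac q t P) :
    IsMac (φ q) (φ t) fun l μ => φ (P l μ) where
  lead l := by rw [coeff_sym_map, h.lead, map_one]
  tri l k hk := by
    rw [coeff_sym_map] at hk
    exact h.tri l k fun e => hk (by rw [e, map_zero])
  orth l k e := by rw [← map_scal, h.orth l k e, map_zero]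

lemma map_cArm (q t : K) (l : n.Partition) : φ (cArm q t l) = cArm (φ q) (φ t) l := by
  simp [cArm, map_prod]

lemma map_Jc (q t : K) (P : n.Partition → n.Partition → K) (l μ : n.Partition) :
    φ (Jc q t P l μ) = Jc (φ q) (φ t) (fun l μ => φ (P l μ)) l μ := by
  simp [Jc, map_cArm]

lemma map_WW (q t : K) (P : n.Partition → n.Partition → K) (π μ ν : n.Partition) :
    φ (WW q t P π μ ν) = WW (φ q) (φ t) (fun l μ => φ (P l μ)) π μ ν := by
  simp only [WW, cco, map_mul, map_natCast, map_pow, map_sum, map_div₀, map_inv₀, map_zqt,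
    map_scal, map_Jc]

lemma indep_of {q t : K} (h : Indep (φ q) (φ t)) : Indep q t := by
  intro s s' e
  apply h
  have key : ∀ s : Multiset (ℕ × ℕ),
      (s.map (mono (φ q) (φ t))).sum = φ (s.map (mono q t)).sum := by
    intro s
    rw [map_multiset_sum, Multiset.map_map]
    congr 1
    refine Multiset.map_congr rfl fun c _ => ?_
    simp [mono]
  simp only at e ⊢
  rw [key, key, e]

lemma WW_mac [CharZero K] [CharZero F] {q t : K} (hi : Indep q t) (h : Indep (φ q) (φ t))
    (π μ ν : n.Partition) :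
    WW (φ q) (φ t) (mac h) π μ ν = φ (WW q t (mac hi) π μ ν) := by
  rw [map_WW, (map_isMac φ (isMac_mac hi)).eq_mac h]

lemma map_aeval' (x : Fin 2 → K) (N : MvPolynomial (Fin 2) ℤ) :
    φ (aeval x N) = aeval (fun i => φ (x i)) N := by
  induction N using MvPolynomial.induction_on with
  | C a => simp
  | add p r hp hr => simp only [map_add, hp, hr]
  | mul_X p i hp => simp only [map_mul, hp, aeval_X]

lemma aeval_two (x : Fin 2 → K) (N : MvPolynomial (Fin 2) ℤ) :
    aeval ![φ (x 0), φ (x 1)] N = φ (aeval x N) := by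
  rw [map_aeval']
  congr 2
  ext i
  fin_cases i <;> rfl

end hom

lemma core {K F F' : Type} [Field K] [Field F] [Field F'] [CharZero K] [CharZero F] [CharZero F']
    (φ : K →+* F) (ψ : K →+* F') (x : Fin 2 → K)
    (hi : Indep (1 + φ (x 1) * (1 + φ (x 0))) (1 + φ (x 1)))
    (hi' : Indep (1 + ψ (x 1) * (1 + ψ (x 0))) (1 + ψ (x 1))) {n : ℕ} (π μ ν : n.Partition)
    (N : MvPolynomial (Fin 2) ℤ)
    (e : WW (1 + φ (x 1) * (1 + φ (x 0))) (1 + φ (x 1)) (mac hi) π μ ν =
      aeval ![φ (x 0), φ (x 1)] N) :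
    WW (1 + ψ (x 1) * (1 + ψ (x 0))) (1 + ψ (x 1)) (mac hi') π μ ν =
      aeval ![ψ (x 0), ψ (x 1)] N := by
  have q1 : 1 + φ (x 1) * (1 + φ (x 0)) = φ (1 + x 1 * (1 + x 0)) := by simp
  have q2 : 1 + ψ (x 1) * (1 + ψ (x 0)) = ψ (1 + x 1 * (1 + x 0)) := by simp
  have t1 : 1 + φ (x 1) = φ (1 + x 1) := by simp
  have t2 : 1 + ψ (x 1) = ψ (1 + x 1) := by simp
  revert e hi hi'
  rw [q1, q2, t1, t2, aeval_two, aeval_two]
  intro hi hi' e
  have h0 := indep_of φ hi
  rw [WW_mac φ h0] at e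
  rw [WW_mac ψ h0, φ.injective e]


/-- the universal field -/
abbrev F0 : Type := FractionRing (MvPolynomial (Fin 2) ℚ)

noncomputable def x0 (i : Fin 2) : F0 := algebraMap (MvPolynomial (Fin 2) ℚ) F0 (X i)

lemma exists_hom {F : Type} [Field F] [CharZero F] {x : Fin 2 → F}
    (h : AlgebraicIndependent ℚ x) : ∃ φ : F0 →+* F, ∀ i, φ (x0 i) = x i := by
  have hinj : Function.Injective (aeval x : MvPolynomial (Fin 2) ℚ →ₐ[ℚ] F).toRingHom := h
  refine ⟨IsFractionRing.lift hinj, fun i => ?_⟩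
  rw [x0, IsFractionRing.lift_algebraMap]
  simp

end TRANS62

open TRANS62 in
theorem st_TRANS : St_TRANS := by
  intro F F' _ _ _ _ b g b' g' h h' hi hi' n π μ ν N e
  obtain ⟨φ, hφ⟩ := exists_hom h
  obtain ⟨ψ, hψ⟩ := exists_hom h'
  have b1 : φ (x0 0) = b := hφ 0
  have g1 : φ (x0 1) = g := hφ 1
  have b2 : ψ (x0 0) = b' := hψ 0
  have g2 : ψ (x0 1) = g' := hψ 1
  subst b1 g1 b2 g2
  exact core φ ψ x0 hi hi' π μ ν N e

end MJP
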