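import Pool.Agent.Lib.MP_9c49f6_co.PBlue

/-! The creation operators applied to `h_n[X/(1-q)]` stay in the cyclic module. -/

namespace MJP
open MJ MJT Finset MvPolynomial

namespace UU44

variable {F : Type} [Field F] [CharZero F] {q t : F}

lemma Phi_uu (hi : Indep q t) (n : ℕ) :
    Phi (fun k => - cS q t k) (uu q (n + 1)) = Polynomial.C (uu q (n + 1)) +
      Polynomial.C (C t⁻¹) * (Polynomial.X * Phi (fun k => - cS q t k) (uu q n)) := by
  have e0 : ((n + 1 : ℕ) : ℤ) - 1 = n := by push_cast; ring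
  unfold uu
  rw [Phi_gen, Phi_gen, C_gen]
  have : (fun k : ℕ => (Polynomial.C (C ((1 - q ^ (k + 1))⁻¹ * - cS q t k)) *
      Polynomial.X ^ (k + 1) : Polynomial (Lam F))) =
      fun k => (Polynomial.C (C t⁻¹) * Polynomial.X) ^ (k + 1) := by
    funext k
    have h : 1 - q ^ (k + 1) ≠ 0 := sub_ne_zero.2 (hi.q_pow_ne k).symm
    have e : (1 - q ^ (k + 1))⁻¹ * - cS q t k = t⁻¹ ^ (k + 1) := by
      rw [cS, ← neg_mul, neg_sub, ← mul_assoc, inv_mul_cancel₀ h, one_mul]
    rw [e, mul_pow, map_pow, map_pow]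
  rw [this]
  generalize Ex F (fun k => Polynomial.C (C (1 - q ^ (k + 1))⁻¹ * X k : Lam F)) = A
  have g1 := Ex_geom (F := F) (Polynomial.C (C t⁻¹ : Lam F) * Polynomial.X)
  generalize Ex F (fun k => (Polynomial.C (C t⁻¹ : Lam F) * Polynomial.X) ^ (k + 1)) = B at g1 ⊢
  have h1 := cz_mul_one_sub (A * B) (Polynomial.C (C t⁻¹ : Lam F) * Polynomial.X) (n + 1 : ℕ)
  rw [mul_assoc, g1, mul_one, e0] at h1
  rw [h1]
  ring

lemma iota_uu (hi : Indep q t) (n : ℕ) :
    UU (iota q t (uu q n)) = t • (iota q t (uu q (n + 1)) - inc (uu q (n + 1))) := by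
  ext s : 1
  have e : ∀ (f : Lam F) (j : ℕ), iota q t f j = (Phi (fun k => - cS q t k) f).coeff j :=
    fun f j => Sh_nat _ j f
  rw [Finsupp.smul_apply, Finsupp.sub_apply, e, Phi_uu hi, Polynomial.coeff_add,
    Polynomial.coeff_C_mul]
  cases s with
  | zero => simp
  | succ s =>
    rw [UU_succ, e, Polynomial.coeff_X_mul, Polynomial.coeff_C_succ, inc_succ, zero_add, sub_zero,
      ← smul_eq_C_mul, smul_smul, mul_inv_cancel₀ hi.t_ne, one_smul]

omit [CharZero F] in
lemma EE_iota (f : Lam F) : EE q t (iota q t f) = inc f := by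
  ext j : 1
  rw [EE_apply, psi_iota]
  cases j with
  | zero => simp
  | succ j => rw [gg_neg t (by omega)]; simp

omit [CharZero F] in
lemma psi_one (v : St F) : psi q t 1 v = EE q t (UU v) 0 := by
  rw [EE_UU]; simp

omit [CharZero F] in
lemma UU_EE (hi : Indep q t) (v : St F) :
    UU (EE q t v) = (t * q⁻¹) • (EE q t (UU v) - inc (psi q t 1 v)) := by
  have e : t * q⁻¹ * (q * t⁻¹) = 1 := by
    have := hi.t_ne
    have := hi.q_ne
    field_simp
  rw [EE_UU, add_sub_cancel_left, smul_smul, e, one_smul]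

end UU44

theorem st_UU : St_UU := by
  intro F _ _ q t hi R hR n U h0 hU
  have hJ : ∀ (j : ℕ) (f : Lam F), ((EE q t ^ j) (inc f)) 0 = JJ q t j f := fun _ _ => rfl
  have key : ∀ k j : ℕ, ((EE q t ^ j) (UU ((EE q t ^ k) (iota q t (uu q n))))) 0 ∈ U := by
    intro k
    induction k with
    | zero =>
      intro j
      cases j with
      | zero => simp
      | succ j =>
        rw [pow_zero, Module.End.one_apply, UU44.iota_uu hi, map_smul, map_sub,
          Finsupp.smul_apply, Finsupp.sub_apply, hJ, pow_succ, Module.End.mul_apply,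
          UU44.EE_iota, hJ]
        exact (hU _ (U.sub_mem ((hU _ h0).2 _) ((hU _ h0).2 _))).1 t hR.t1
    | succ k ih =>
      intro j
      have h1 := ih 1
      rw [pow_one, ← UU44.psi_one] at h1
      have h2 := ih (j + 1)
      rw [pow_succ, Module.End.mul_apply] at h2
      rw [pow_succ', Module.End.mul_apply, UU44.UU_EE hi, map_smul, map_sub,
        Finsupp.smul_apply, Finsupp.sub_apply, hJ]
      exact (hU _ (U.sub_mem h2 ((hU _ h1).2 _))).1 _ (R.mul_mem hR.t1 hR.q2)
  intro s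
  have h1 := key s 1
  rw [pow_one, ← UU44.psi_one] at h1
  exact h1

end MJP
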