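import Pool.Agent.Lib.MP_9c49f6_co.TBlue

/-! Row `CAU`: the expansion of a product of complete homogeneous functions in power sums. -/

namespace MJT
open MJ Finset MvPolynomial

namespace CAU83
variable {F : Type} [Field F] [CharZero F]

/-- the complete homogeneous function over `F` -/
noncomputable def HF (F : Type) [Field F] (r : ℕ) : Lam F := ex F (fun k => (X k : Lam F)) r

lemma ip_HF (r : ℕ) : ∀ f h : Lam F,
    ip (0 : F) 0 (HF F r * f) h = ip (0 : F) 0 f (Sh (c1 F) r h) := by
  induction r using Nat.strong_induction_on with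
  | _ r ih =>
    intro f h
    cases r with
    | zero => simp [HF]
    | succ r =>
      have hr : ((r : F) + 1) ≠ 0 := by exact_mod_cast Nat.succ_ne_zero r
      apply mul_left_cancel₀ hr
      have h1 := ex_succ (F := F) (fun k => (X k : Lam F)) r
      have h2 := Sh_chain (c1 F) (r+1) h (r+1 : ℕ) le_rfl
      push_cast at h2
      have a1 : ∀ (a : F) f g, a * ip (0 : F) 0 f g = ip (0 : F) 0 (a • f) g := by simp
      have a2 : ∀ (a : F) f g, a * ip (0 : F) 0 f g = ip (0 : F) 0 f (a • g) := by simp
      rw [a1, a2, ← smul_mul_assoc, HF, h1]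
      push_cast
      rw [h2, sum_mul, map_sum, map_sum, LinearMap.sum_apply]
      refine sum_congr rfl fun k hk => ?_
      have hk' : k ≤ r := by simpa [Nat.lt_succ_iff] using hk
      have e : (r : ℤ) + 1 - (k + 1) = (r - k : ℕ) := by omega
      have h3 := ih (r - k) (by omega) f (pderiv k h)
      rw [HF] at h3
      rw [mul_assoc, ip_X, h3, e, map_smul]
      simp [c1]

lemma cf_eq (L : List ℕ) : ∀ g : Lam F, cf L g = ip (0 : F) 0 (L.map (HF F)).prod g := by
  induction L with
  | nil =>
    intro g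
    have h : (1 : Lam F) = monomial 0 1 := rfl
    rw [List.map_nil, List.prod_nil, h, ip_monomial, cf_nil]
    simp [zd, zn, pw, constantCoeff_eq]
  | cons k L ih => intro g; rw [cf_cons, ih, List.map_cons, List.prod_cons, ip_HF]

lemma zd_zero {n : ℕ} (μ : n.Partition) : zd (0 : F) 0 (dOf μ) = zz μ := by
  rw [zd, zn_dOf]
  simp [pw, Finsupp.prod]

lemma HF_Hm (m : ℕ) : HF F m ∈ Hm F m := by
  induction m using Nat.strong_induction_on with
  | _ m ih =>
    cases m with
    | zero => simpa [HF] using (one_mem_Hm : (1 : Lam F) ∈ Hm F 0)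
    | succ r =>
      rw [HF, ex_succ']
      refine Submodule.smul_mem _ _ (Submodule.sum_mem _ fun k hk => ?_)
      have hk' : k ≤ r := by simpa [Nat.lt_succ_iff] using hk
      have h1 := Hm_mul (X_mem_Hm (F := F) k) (ih (r - k) (by omega))
      have e : ((k : ℤ) + 1 + ((r - k : ℕ) : ℤ)) = ((r + 1 : ℕ) : ℤ) := by omega
      rwa [e] at h1

lemma prod_Hm (L : List ℕ) : (L.map (HF F)).prod ∈ Hm F (L.sum : ℕ) := by
  induction L with
  | nil => simpa using (one_mem_Hm : (1 : Lam F) ∈ Hm F 0)
  | cons a L ih => simpa using Hm_mul (HF_Hm a) ih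

omit [CharZero F] in
lemma rc_cast {n : ℕ} (μ κ : n.Partition) :
    (rc μ κ : F) = coeff (expo κ) (psumPart (Fin n) F μ) := by
  have h : MvPolynomial.map (Nat.castRingHom F) (psumPart (Fin n) ℕ μ) = psumPart (Fin n) F μ := by
    simp [psumPart, map_multiset_prod, Multiset.map_map, psum]
  rw [← h, coeff_map, rc]
  simp

lemma rc_eq {n : ℕ} (μ l : n.Partition) :
    (rc μ l : F) / zz μ = coeff (dOf μ) ((lst l).map (HF F)).prod := by
  classical
  have hz : (zz μ : F) ≠ 0 := by
    rw [← zn_dOf]; exact_mod_cast zn_ne _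
  have h1 : sym (Pi.single μ (1 : F)) = psumPart (Fin n) F μ := by
    rw [sym, sum_eq_single μ (fun ν _ h => by simp [h]) (by simp)]
    simp
  have h2 : Th (Pi.single μ (1 : F)) = monomial (dOf μ) 1 := by
    rw [Th_apply, sum_eq_single μ (fun ν _ h => by simp [h]) (by simp)]
    simp
  rw [rc_cast, ← h1, coeff_sym, cf_eq, ip_symm, h2, ip_monomial, zd_zero, div_eq_iff hz]
  ring

end CAU83

open CAU83 in
theorem st_CAU : St_CAU := by
  intro K A _ _ _ _ a n l
  have hH : ((lst l).map (HF K)).prod ∈ Hm K n := by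
    have := prod_Hm (F := K) (lst l); rwa [lst_sum] at this
  have h1 := congrArg (aeval a : Lam K →ₐ[K] A) (eq_Th hH)
  rw [Th_apply, map_sum, map_list_prod, List.map_map] at h1
  have h2 : ((lst l).map ((aeval a : Lam K →ₐ[K] A) ∘ HF K)).prod = (l.parts.map (ex K a)).prod := by
    rw [← lst_coe, Multiset.map_coe, Multiset.prod_coe]
    refine congrArg List.prod (List.map_congr_left fun m _ => ?_)
    simp [HF, map_ex]
  rw [← h2, h1]
  refine sum_congr rfl fun μ _ => ?_
  have h3 := prod_dOf μ fun i => a (i - 1)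
  simp only [Nat.add_sub_cancel] at h3
  rw [aeval_monomial, h3, rc_eq, Algebra.smul_def]

end MJT
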