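import Pool.Agent.Lib.MP_9c49f6_co.S_Kit
import Pool.Agent.Lib.MP_9c49f6_co.T_CAU

/-! Row `A2`: the part of `h_ρ` of length `ℓ(ρ) + 1` is adjoint to the weighted cut operator. -/

namespace MJS
open MJ MJT MJC Finset MvPolynomial

namespace X4

section defs
variable (K : Type) [Field K]

noncomputable abbrev II : Ideal (Lam K) := idealOfVars ℕ K
/-- `p_m / m` -/
noncomputable def aa (m : ℕ) : Lam K := (m : K)⁻¹ • pv K m
/-- the quadratic part of `h_m` -/
noncomputable def SS (m : ℕ) : Lam K :=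
  (m : K)⁻¹ • ∑ k ∈ range (m - 1), X k * aa K (m - 1 - k)
end defs

variable {K : Type} [Field K]

noncomputable def D2 (c : ℕ → ℕ → K) (m : ℕ) (f : Lam K) : Lam K :=
  (2 : K)⁻¹ • ∑ k ∈ range m, c k (m - 1 - k) • pderiv k (pderiv (m - 1 - k) f)
noncomputable def Sc (c : ℕ → ℕ → K) (n : ℕ) (f : Lam K) : Lam K :=
  (2 : K)⁻¹ • ∑ k ∈ range n, ∑ l ∈ range n, c k l • (X (k + l + 1) * pderiv k (pderiv l f))
/-- the Hall form with weight `w k` on `p_(k+1)` -/
noncomputable def jp (w : ℕ → K) : Lam K →ₗ[K] Lam K →ₗ[K] K :=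
  (basisMonomials ℕ K).constr K fun d => ((zn d : K) * pw w d) • lcoeff K d

lemma aa_hom (m : ℕ) : (aa K m).IsHomogeneous 1 := by
  refine (homogeneousSubmodule ℕ K 1).smul_mem _ ?_
  cases m with
  | zero => exact zero_mem _
  | succ m => exact isHomogeneous_X K m

lemma SS_hom (m : ℕ) : (SS K m).IsHomogeneous 2 :=
  (homogeneousSubmodule ℕ K 2).smul_mem _
    (sum_mem fun k _ => (isHomogeneous_X K k).mul (aa_hom _))

lemma hom_II {f : Lam K} {k : ℕ} (h : f.IsHomogeneous k) : f ∈ II K ^ k :=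
  (mem_pow_idealOfVars_iff' k f).mpr fun _ hx => h.coeff_eq_zero hx.ne

lemma mul_II {f g : Lam K} {i j k : ℕ} (hf : f ∈ II K ^ i) (hg : g ∈ II K ^ j) (h : k ≤ i + j) :
    f * g ∈ II K ^ k :=
  Ideal.pow_le_pow_right h (pow_add (II K) i j ▸ Ideal.mul_mem_mul hf hg)

lemma smul_II {f : Lam K} {k : ℕ} (c : K) (hf : f ∈ II K ^ k) : c • f ∈ II K ^ k := by
  rw [smul_eq_C_mul]; exact Ideal.mul_mem_left _ _ hf

lemma X_II (k : ℕ) : (X k : Lam K) ∈ II K ^ 1 := hom_II (isHomogeneous_X K k)

lemma hh_eq (m : ℕ) : hh K (m+1) = ((m : K) + 1)⁻¹ • ∑ k ∈ range (m+1), X k * hh K (m - k) :=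
  ex_succ' _ m

lemma hh_mem1 {m : ℕ} (hm : 0 < m) : hh K m ∈ II K ^ 1 := by
  obtain ⟨m, rfl⟩ : ∃ k, m = k + 1 := ⟨m - 1, by omega⟩
  rw [hh_eq]
  exact smul_II _ (sum_mem fun k _ => Ideal.mul_mem_right _ _ (X_II k))

lemma hh_sub (m : ℕ) :
    hh K (m+1) - aa K (m+1) = ((m : K) + 1)⁻¹ • ∑ k ∈ range m, X k * hh K (m - k) := by
  rw [hh_eq, sum_range_succ, aa]; simp

lemma hh_mem2 {m : ℕ} (hm : 0 < m) : hh K m - aa K m ∈ II K ^ 2 := by
  obtain ⟨m, rfl⟩ : ∃ k, m = k + 1 := ⟨m - 1, by omega⟩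
  rw [hh_sub]
  exact smul_II _ (sum_mem fun k hk =>
    mul_II (X_II k) (hh_mem1 (by have := mem_range.mp hk; omega)) le_rfl)

lemma hh_mem3 {m : ℕ} (hm : 0 < m) : hh K m - aa K m - SS K m ∈ II K ^ 3 := by
  obtain ⟨m, rfl⟩ : ∃ k, m = k + 1 := ⟨m - 1, by omega⟩
  rw [hh_sub, SS, Nat.add_sub_cancel, Nat.cast_succ, ← smul_sub, ← sum_sub_distrib]
  refine smul_II _ (sum_mem fun k hk => ?_)
  rw [← mul_sub]
  exact mul_II (X_II k) (hh_mem2 (by have := mem_range.mp hk; omega)) le_rfl

lemma A0_hom (l : List ℕ) : (l.map (aa K)).prod.IsHomogeneous l.length := by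
  induction l with
  | nil => exact isHomogeneous_one ℕ K
  | cons m l ih => simpa [add_comm] using (aa_hom m).mul ih

lemma A1_hom (l : List ℕ) : (one (SS K) (aa K) l).IsHomogeneous (l.length + 1) := by
  induction l with
  | nil => exact isHomogeneous_zero ℕ K _
  | cons m l ih =>
    have h1 := (SS_hom (K := K) m).mul (A0_hom l)
    have h2 := (aa_hom (K := K) m).mul ih
    rw [show 2 + l.length = l.length + 1 + 1 by ring] at h1
    rw [add_comm 1] at h2
    exact h1.add h2

lemma hl_mem (l : List ℕ) (h : ∀ m ∈ l, 0 < m) :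
    hl K l - (l.map (aa K)).prod - one (SS K) (aa K) l ∈ II K ^ (l.length + 2) := by
  induction l with
  | nil => simp [hl]
  | cons m l ih =>
    have h2 := ih fun x hx => h x (by simp [hx])
    have h1 : hl K l - (l.map (aa K)).prod ∈ II K ^ (l.length + 1) := by
      simpa using add_mem (Ideal.pow_le_pow_right (by omega) h2) (hom_II (A1_hom l))
    have h0 : hl K l ∈ II K ^ l.length := by
      simpa using add_mem (Ideal.pow_le_pow_right (by omega) h1) (hom_II (A0_hom l))
    have e : hl K (m :: l) - ((m :: l).map (aa K)).prod - one (SS K) (aa K) (m :: l) =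
        (hh K m - aa K m - SS K m) * hl K l +
          aa K m * (hl K l - (l.map (aa K)).prod - one (SS K) (aa K) l) +
          SS K m * (hl K l - (l.map (aa K)).prod) := by
      simp only [hl, List.map_cons, List.prod_cons, one_cons]; ring
    rw [e, List.length_cons]
    exact add_mem (add_mem (mul_II (hh_mem3 (h m (by simp))) h0 (by omega))
      (mul_II (hom_II (aa_hom m)) h2 (by omega))) (mul_II (hom_II (SS_hom m)) h1 (by omega))

lemma coeff_low (l : List ℕ) (h : ∀ m ∈ l, 0 < m) {d : ℕ →₀ ℕ} (hd : d.degree < l.length + 2) :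
    coeff d (hl K l) = coeff d (l.map (aa K)).prod + coeff d (one (SS K) (aa K) l) := by
  have := (mem_pow_idealOfVars_iff' _ _).mp (hl_mem (K := K) l h) d hd
  rw [coeff_sub, coeff_sub] at this
  linear_combination this

lemma A0_eq (l : List ℕ) :
    (l.map (aa K)).prod = (l.map fun m : ℕ => (m : K)⁻¹).prod • (l.map (pv K)).prod := by
  induction l with
  | nil => simp
  | cons m l ih => simp only [List.map_cons, List.prod_cons, ih, aa, smul_mul_smul_comm]

lemma pd_comm (i j : ℕ) (f : Lam K) : pderiv i (pderiv j f) = pderiv j (pderiv i f) := by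
  induction f using MvPolynomial.induction_on with
  | C a => simp
  | add p q hp hq => simp [hp, hq]
  | mul_X p v hp =>
    simp only [Derivation.leibniz, map_add, smul_eq_mul, hp, pderiv_X, Pi.single_apply]
    split_ifs <;> simp <;> ring

variable (w : ℕ → K) (c : ℕ → ℕ → K)

lemma jp_monomial (d : ℕ →₀ ℕ) (a : K) (g : Lam K) :
    jp w (monomial d a) g = a * ((zn d : K) * pw w d * coeff d g) := by
  have : (monomial d a : Lam K) = a • basisMonomials ℕ K d := by
    simp [smul_monomial]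
  rw [this, map_smul, jp, Module.Basis.constr_basis]; simp

lemma jpX (k : ℕ) (f g : Lam K) :
    jp w (X k * f) g = ((k : K) + 1) * w k * jp w f (pderiv k g) := by
  induction f using MvPolynomial.induction_on' with
  | add p r hp hr => simp only [mul_add, map_add, LinearMap.add_apply, hp, hr]
  | monomial d a =>
    rw [X, monomial_mul, one_mul, jp_monomial, jp_monomial, coeff_pderiv, add_comm _ d,
      zn_succ, pw_add, pw_single]
    push_cast; ring

lemma pd_Sc {n m : ℕ} (h : m < n) (f : Lam K) :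
    pderiv m (Sc c n f) = Sc c n (pderiv m f) + D2 c m f := by
  rw [Sc, Sc, D2, ← smul_add, Derivation.map_smul]
  refine congrArg _ ?_
  have e : ∑ k ∈ range m, c k (m - 1 - k) • pderiv k (pderiv (m - 1 - k) f) =
      ∑ k ∈ range n, ∑ l ∈ range n,
        if k + l + 1 = m then c k l • pderiv k (pderiv l f) else 0 := by
    refine (sum_subset_zero_on_sdiff (range_subset_range.mpr h.le) (fun k hk => ?_)
      fun k hk => ?_)
    · have : ¬ k < m := by simpa using (mem_sdiff.mp hk).2
      exact sum_eq_zero fun l _ => if_neg (by omega)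
    · have := mem_range.mp hk
      rw [sum_eq_single (m - 1 - k), if_pos (by omega)]
      · exact fun l _ hl => if_neg (by omega)
      · exact fun hl => absurd (mem_range.mpr (by omega)) hl
  rw [e, map_sum, ← sum_add_distrib]
  refine sum_congr rfl fun k _ => ?_
  rw [map_sum, ← sum_add_distrib]
  refine sum_congr rfl fun l _ => ?_
  rw [Derivation.map_smul, Derivation.leibniz, pd_comm m, pd_comm m, pderiv_X, Pi.single_apply]
  split_ifs <;> simp

variable [CharZero K]

lemma jpa (k : ℕ) (f g : Lam K) : jp w (aa K (k+1) * f) g = w k * jp w f (pderiv k g) := by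
  have h2 : ((k : K) + 1) ≠ 0 := Nat.cast_add_one_ne_zero k
  rw [aa, smul_mul_assoc, map_smul, LinearMap.smul_apply, pv_succ, jpX, smul_eq_mul, Nat.cast_succ,
    mul_assoc, inv_mul_cancel_left₀ h2]

variable {w c} (hw : ∀ k l, w (k + l + 1) * c k l = w k * w l)
include hw

lemma jpS (m : ℕ) (f g : Lam K) : jp w (SS K (m+1) * f) g = w m * jp w f (D2 c m g) := by
  have h2 : ((m : K) + 1) ≠ 0 := Nat.cast_add_one_ne_zero m
  set T : ℕ → K := fun k => w k * w (m - 1 - k) * jp w f (pderiv k (pderiv (m - 1 - k) g))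
    with hT
  have e1 : ∑ k ∈ range m, jp w (X k * aa K (m - k) * f) g =
      ∑ k ∈ range m, ((k : K) + 1) * T k := sum_congr rfl fun k hk => by
    have := mem_range.mp hk
    rw [mul_assoc, jpX, show m - k = m - 1 - k + 1 by omega, jpa, pd_comm, hT]
    ring
  have e2 : ∑ k ∈ range m, ((k : K) + 1) * T k = ∑ k ∈ range m, ((m : K) - k) * T k := by
    rw [← sum_range_reflect]
    refine sum_congr rfl fun k hk => ?_
    have := mem_range.mp hk
    have e : ((m - 1 - k : ℕ) : K) + 1 = m - k := by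
      rw [← Nat.cast_succ, ← Nat.cast_sub this.le]; congr 1; omega
    rw [e, hT]
    simp only
    rw [show m - 1 - (m - 1 - k) = k by omega, pd_comm, mul_comm (w k)]
  have e3 : 2 * ∑ k ∈ range m, ((k : K) + 1) * T k = ((m : K) + 1) * ∑ k ∈ range m, T k := by
    rw [two_mul]
    nth_rw 2 [e2]
    rw [← sum_add_distrib, mul_sum]
    exact sum_congr rfl fun k _ => by ring
  have e4 : w m * ∑ k ∈ range m, jp w f (c k (m - 1 - k) • pderiv k (pderiv (m - 1 - k) g)) =
      ∑ k ∈ range m, T k := by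
    rw [mul_sum]
    refine sum_congr rfl fun k hk => ?_
    have := mem_range.mp hk
    have h3 := hw k (m - 1 - k)
    rw [show k + (m - 1 - k) + 1 = m by omega] at h3
    rw [map_smul, smul_eq_mul, ← mul_assoc, h3]
  rw [SS, D2, Nat.add_sub_cancel, smul_mul_assoc, map_smul, LinearMap.smul_apply, sum_mul, map_sum,
    LinearMap.sum_apply, e1, map_smul, map_sum, Nat.cast_succ, smul_eq_mul, smul_eq_mul,
    mul_left_comm, e4]
  field_simp
  linear_combination e3

lemma key (n : ℕ) (l : List ℕ) (h : ∀ m ∈ l, 0 < m ∧ m ≤ n) :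
    ∀ f : Lam K, jp w (one (SS K) (aa K) l) f = jp w (l.map (aa K)).prod (Sc c n f) := by
  induction l with
  | nil =>
    intro f
    have h1 : coeff 0 (Sc c n f) = 0 := by
      rw [Sc, coeff_smul, coeff_sum, sum_eq_zero, smul_zero]
      intro k _
      rw [coeff_sum]
      exact sum_eq_zero fun j _ => by rw [coeff_smul, coeff_X_mul']; simp
    rw [one_nil, map_zero, LinearMap.zero_apply, List.map_nil, List.prod_nil, ← C_1, C_apply,
      jp_monomial, h1, mul_zero, mul_zero]
  | cons m l ih =>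
    intro f
    obtain ⟨h1, h2⟩ := h m (by simp)
    obtain ⟨m, rfl⟩ : ∃ k, m = k + 1 := ⟨m - 1, by omega⟩
    rw [one_cons, map_add, LinearMap.add_apply, jpS hw, jpa, ih fun x hx => h x (by simp [hx]),
      List.map_cons, List.prod_cons, jpa, pd_Sc c h2, map_add, add_comm, mul_add]

omit hw

omit [CharZero K] in
lemma Sst_eq (q : K) (n : ℕ) (f : Lam K) : Sst q n f = Sc (fun k l =>
    ((k + 1 : ℕ) : K) * (l + 1 : ℕ) / ((k + 1 : ℕ) + (l + 1 : ℕ)) * cw q (k + 1) (l + 1)) n f := by
  rw [Sst, P1_apply, Sc]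
  simp only [zero_mul, sum_const_zero, zero_add, AlgHom.id_apply]
  refine congrArg _ (sum_congr rfl fun k _ => sum_congr rfl fun l _ => ?_)
  rw [show k + 1 + (l + 1) = (k + l + 1) + 1 by ring, pv_succ, smul_mul_assoc]

omit [CharZero K] in
lemma pw_dOf (q : K) {n : ℕ} (μ : n.Partition) :
    pw (fun k => ((k + 1 : ℕ) : K) / qi q (k + 1)) (dOf μ) = (vq q μ)⁻¹ := by
  rw [vq, ← Multiset.prod_map_inv]
  simp only [inv_div]
  exact prod_dOf μ fun i => (i : K) / qi q i

lemma deg_dOf {n : ℕ} (π : n.Partition) : (dOf π).degree = ln π := by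
  have := prod_dOf (M := Multiplicative ℕ) π fun _ => Multiplicative.ofAdd 1
  have h2 := congrArg Multiplicative.toAdd this
  simpa [Finsupp.prod, Finsupp.degree_apply, ln, toAdd_prod] using h2

lemma len_lst {n : ℕ} (π : n.Partition) : (lst π).length = ln π := by
  rw [ln, ← lst_coe, Multiset.coe_card]

lemma zz_ne {n : ℕ} (π : n.Partition) : (zz π : K) ≠ 0 := by
  rw [← zn_dOf, zn]
  exact Nat.cast_ne_zero.mpr (prod_ne_zero_iff.mpr fun k _ => by positivity)

omit [CharZero K] in
lemma jp_symm (w : ℕ → K) (f g : Lam K) : jp w f g = jp w g f := by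
  induction f using MvPolynomial.induction_on' with
  | add p r hp hr => simp [hp, hr]
  | monomial d a =>
    induction g using MvPolynomial.induction_on' with
    | add p r hp hr => simp [hp, hr]
    | monomial e b =>
      rw [jp_monomial, jp_monomial, coeff_monomial, coeff_monomial]
      by_cases h : d = e
      · subst h; simp; ring
      · simp [h, Ne.symm h]

end X4
open X4

theorem st_A2 : St_A2 := by
  intro K _ _ s hs n ρ f hf
  have hp := lst_pos ρ
  have hr : ∀ μ : n.Partition, (rc μ ρ : K) = zz μ * coeff (dOf μ) (hl K (lst ρ)) := fun μ => by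
    rw [coeff_hl st_CAU, mul_div_cancel₀ _ (zz_ne μ)]
  have hk := key (w := fun k => ((k + 1 : ℕ) : K) / qi (1 + s) (k + 1)) (c := fun k l =>
    ((k + 1 : ℕ) : K) * (l + 1 : ℕ) / ((k + 1 : ℕ) + (l + 1 : ℕ)) * cw (1 + s) (k + 1) (l + 1))
    (fun k l => by
      have h1 := hs.qi_ne k.succ_pos
      have h2 := hs.qi_ne l.succ_pos
      have h3 := hs.qi_ne (k + l + 1).succ_pos
      have h4 : ((k + 1 : ℕ) : K) + (l + 1 : ℕ) = (k + l + 1 + 1 : ℕ) := by push_cast; ring
      have h5 : ((k + l + 1 + 1 : ℕ) : K) ≠ 0 := Nat.cast_ne_zero.mpr (by omega)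
      rw [hs.cw_eq k.succ_pos l.succ_pos, h4,
        show k.succ + l.succ = k + l + 1 + 1 by omega]
      field_simp) n (lst ρ) (fun m hm => ⟨hp m hm,
    (List.single_le_sum (fun _ _ => Nat.zero_le _) m hm).trans (lst_sum ρ).le⟩) f
  have h0 : coeff (dOf ρ) (hl K (lst ρ)) = ((lst ρ).map fun m : ℕ => (m : K)⁻¹).prod := by
    rw [coeff_low _ hp (by rw [deg_dOf, len_lst]; omega),
      (A1_hom _).coeff_eq_zero (by rw [deg_dOf, len_lst]; omega), A0_eq, ← pm_eq]
    simp
  rw [← Sst_eq, A0_eq, ← pm_eq, ← h0, smul_monomial, jp_monomial, zn_dOf, pw_dOf, jp_symm] at hk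
  nth_rw 1 [eq_sum_pm hf] at hk
  rw [map_sum, LinearMap.sum_apply] at hk
  refine (sum_congr rfl fun μ _ => ?_).trans (hk.trans (by rw [hr, smul_eq_mul]; ring))
  rw [jp_monomial, zn_dOf, pw_dOf]
  split_ifs with h
  · rw [hr, coeff_low _ hp (by rw [deg_dOf, len_lst]; omega),
      (A0_hom _).coeff_eq_zero (by rw [deg_dOf, len_lst]; omega)]
    ring
  · rw [(A1_hom _).coeff_eq_zero (by rw [deg_dOf, len_lst]; exact h)]; ring

end MJS
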