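import Pool.Agent.Lib.MP_9c49f6_co.S_Kit

/-! Row A3a: `S* h_l - U_l` has no power-sum monomial above `l`. -/

namespace MJS
open MJ MJT MJC Finset MvPolynomial

namespace A3a34

set_option linter.unusedSectionVars false

variable {K : Type} [Field K] [CharZero K] {q : K}

lemma cne (r : ℕ) : ((r : K) + 1) ≠ 0 := Nat.cast_add_one_ne_zero r

lemma hh_succ (r : ℕ) : ((r : K) + 1) • hh K (r+1) = ∑ k ∈ range (r+1), X k * hh K (r - k) :=
  ex_succ (F := K) (fun k => (X k : (Lam K))) r

lemma hh_newton (s : ℕ) : (s : K) • hh K s = ∑ j ∈ range s, X j * hh K (s - 1 - j) := by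
  cases s with
  | zero => simp
  | succ r => simpa using hh_succ r

lemma pd_hh (k m : ℕ) :
    pderiv k (hh K m) = if k < m then ((k : K) + 1)⁻¹ • hh K (m - (k+1)) else 0 := by
  induction m using Nat.strong_induction_on with
  | _ m ih =>
    cases m with
    | zero => simp [hh]
    | succ r =>
      have h2 : ((r : K) + 1) ≠ 0 := cne _
      have h3 : ((k : K) + 1) ≠ 0 := cne _
      have h := congrArg (pderiv k) (hh_succ (K := K) r)
      rw [Derivation.map_smul, map_sum] at h
      have e : ∀ j ∈ range (r+1), pderiv k (X j * hh K (r - j)) =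
          (if j = k then hh K (r - k) else 0) +
            (if j < r - k then ((k : K) + 1)⁻¹ • (X j * hh K (r - k - 1 - j)) else 0) := by
        intro j _
        rw [Derivation.leibniz, ih _ (by omega), pderiv_X, add_comm]
        congr 1
        · by_cases hj : j = k
          · subst hj; simp
          · simp [hj]
        · by_cases hj : j < r - k
          · rw [if_pos (by omega), if_pos hj, smul_eq_mul, mul_smul_comm]
            congr 3; omega
          · rw [if_neg (by omega), if_neg hj, smul_zero]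
      rw [sum_congr rfl e, sum_add_distrib, sum_ite_eq', ← sum_filter] at h
      have e2 : (range (r+1)).filter (fun j => j < r - k) = range (r - k) := by
        ext j; simp; omega
      rw [e2, ← smul_sum, ← hh_newton] at h
      apply smul_right_injective _ h2
      simp only
      rw [h]
      by_cases hk : k < r + 1
      · rw [if_pos (mem_range.mpr hk), if_pos hk, Nat.add_sub_add_right, smul_smul, smul_smul,
          Nat.cast_sub (by omega)]
        nth_rewrite 1 [← one_smul K (hh K (r - k))]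
        rw [← add_smul]; congr 1; field_simp; ring
      · rw [if_neg (by simpa using hk), if_neg hk, show r - k = 0 by omega]; simp

lemma pd_hh_zero {k m : ℕ} (h : m ≤ k) : pderiv k (hh K m) = 0 := by
  rw [pd_hh, if_neg (by omega)]

lemma pd_pd {k i m : ℕ} (h : m ≤ k) : pderiv k (pderiv i (hh K m)) = 0 := by
  rw [pd_hh]; split_ifs
  · rw [Derivation.map_smul, pd_hh_zero (by omega), smul_zero]
  · simp

/-- the grading -/
def wz (k : ℕ) : ℤ := k + 1

abbrev Hg (m : ℤ) : Submodule K (Lam K) := weightedHomogeneousSubmodule K wz m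

lemma Hg_mul {a b c : ℤ} {f g : (Lam K)} (hf : f ∈ Hg a) (hg : g ∈ Hg b) (h : a + b = c) :
    f * g ∈ Hg c := h ▸ IsWeightedHomogeneous.mul hf hg

lemma Hg_X (k : ℕ) : (X k : (Lam K)) ∈ Hg (k + 1) := isWeightedHomogeneous_X K wz k

lemma Hg_pd {a : ℤ} {f : (Lam K)} (hf : f ∈ Hg a) (i : ℕ) : pderiv i f ∈ Hg (a - (i + 1)) :=
  IsWeightedHomogeneous.pderiv hf (by simp [wz])

lemma Hg_hh (m : ℕ) : hh K m ∈ Hg m := by
  induction m using Nat.strong_induction_on with
  | _ m ih =>
    cases m with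
    | zero => simpa [hh] using isWeightedHomogeneous_one K wz
    | succ r =>
      rw [hh, ex_succ']
      refine Submodule.smul_mem _ _ (Submodule.sum_mem _ fun k hk => ?_)
      have hk' : k ≤ r := by simpa [Nat.lt_succ_iff] using hk
      exact Hg_mul (Hg_X k) (ih (r - k) (by omega)) (by push_cast [hk']; ring)

lemma pv_add (i j : ℕ) : pv K (i + 1 + (j + 1)) = X (i + j + 1) := by
  rw [show i + 1 + (j + 1) = (i + j + 1) + 1 by ring]; rfl

/-- the coefficients of the second-order operator -/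
noncomputable def gam (q : K) (i j : ℕ) : Lam K := ((i : K) * j / (i + j) * cw q i j) • pv K (i + j)

/-- its scalar part -/
def cc (q : K) (i j : ℕ) : K :=
  ((i + 1 : ℕ) : K) * ((j + 1 : ℕ) : K) / (((i + 1 : ℕ) : K) + ((j + 1 : ℕ) : K)) *
    cw q (i + 1) (j + 1)

lemma gam_eq (i j : ℕ) : gam q (i + 1) (j + 1) = cc q i j • (X (i + j + 1) : Lam K) := by
  rw [gam, pv_add, cc]

lemma gam_comm (i j : ℕ) : gam q i j = gam q j i := by
  rw [gam, gam, cw_comm q i j, add_comm i j, mul_comm (i : K) j, add_comm (i : K) j]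

/-- `W_(m,m')` -/
noncomputable def WX (q : K) (n m m' : ℕ) : Lam K :=
  Ga n (AlgHom.id K (Lam K)) (gam q) (hh K m) (hh K m')

lemma WW_eq (n m m' : ℕ) : WX q n m m' = ∑ i ∈ range n, ∑ j ∈ range n,
    cc q i j • (X (i + j + 1) * (pderiv i (hh K m) * pderiv j (hh K m'))) := by
  simp only [WX, Ga, gam_eq, AlgHom.id_apply, smul_mul_assoc]

lemma Hg_WW (n m m' : ℕ) : WX q n m m' ∈ Hg (m + m') := by
  rw [WW_eq]
  refine Submodule.sum_mem _ fun i _ => Submodule.sum_mem _ fun j _ => Submodule.smul_mem _ _ ?_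
  exact Hg_mul (Hg_X _) (Hg_mul (Hg_pd (Hg_hh m) i) (Hg_pd (Hg_hh m') j) rfl)
    (by push_cast; ring)

lemma Sst_eq (n : ℕ) : Sst q n = P1 n (AlgHom.id K (Lam K)) (fun _ => 0) (gam q) := rfl

lemma Hg_S (n m : ℕ) : Sst q n (hh K m) ∈ Hg m := by
  rw [Sst_eq, P1_apply]
  simp only [gam_eq, AlgHom.id_apply, zero_mul, sum_const_zero, zero_add, smul_mul_assoc]
  refine Submodule.smul_mem _ _
    (Submodule.sum_mem _ fun i _ => Submodule.sum_mem _ fun j _ => Submodule.smul_mem _ _ ?_)
  exact Hg_mul (Hg_X _) (Hg_pd (Hg_pd (Hg_hh m) j) i) (by push_cast; ring)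

lemma Hg_uu (m m' : ℕ) : uu q m m' ∈ Hg (m + m') := by
  refine Submodule.sum_mem _ fun l hl => Submodule.smul_mem _ _ ?_
  have : l ≤ m + m' := by have := mem_range.mp hl; omega
  exact Hg_mul (Hg_hh l) (Hg_hh _) (by push_cast [this]; ring)

lemma pd_WW {n m m' k : ℕ} (hm : m ≤ k) (hm' : m' ≤ k) :
    pderiv k (WX q n m m') = ∑ p ∈ range n ×ˢ range n,
      if p.1 + p.2 + 1 = k then cc q p.1 p.2 • (pderiv p.1 (hh K m) * pderiv p.2 (hh K m'))
      else 0 := by
  rw [WW_eq, sum_product, map_sum]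
  refine sum_congr rfl fun i _ => ?_
  rw [map_sum]
  refine sum_congr rfl fun j _ => ?_
  rw [Derivation.map_smul, Derivation.leibniz, Derivation.leibniz, pd_pd hm, pd_pd hm', pderiv_X]
  by_cases h : i + j + 1 = k
  · simp [h]
  · simp [h]

lemma pd_uu {m m' k : ℕ} (hm : m ≤ k) (hm' : m' ≤ k) :
    pderiv k (uu q m m') = ∑ l ∈ range (m + m' - k),
      (cw q (m - l) (m' - l) * ((k : K) + 1)⁻¹) • (hh K l * hh K (m + m' - k - 1 - l)) := by
  rw [uu, map_sum]
  symm
  refine sum_subset_zero_on_sdiff (range_subset_range.mpr (by omega)) (fun l hl => ?_)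
    (fun l hl => ?_)
  · have h1 := mem_range.mp (mem_sdiff.mp hl).1
    have h2 := (mem_sdiff.mp hl).2
    rw [mem_range] at h2
    rw [Derivation.map_smul, Derivation.leibniz, pd_hh_zero (by omega), pd_hh_zero (by omega)]
    simp
  · have h1 := mem_range.mp hl
    rw [Derivation.map_smul, Derivation.leibniz, pd_hh_zero (show l ≤ k by omega),
      pd_hh, if_pos (by omega), show m + m' - l - (k + 1) = m + m' - k - 1 - l by omega]
    simp [smul_smul]

lemma pd_diff {n m m' k : ℕ} (hn : m ≤ n) (hn' : m' ≤ n) (hm : m ≤ k) (hm' : m' ≤ k) :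
    pderiv k (WX q n m m' - uu q m m') = 0 := by
  rw [map_sub, pd_WW hm hm', pd_uu hm hm', sub_eq_zero]
  set T := m + m' - k with hT
  have e1 : ∑ l ∈ range T, (cw q (m - l) (m' - l) * ((k : K) + 1)⁻¹) •
        (hh K l * hh K (T - 1 - l)) =
      ∑ l ∈ range T, (cw q (m - l) (m' - (T - 1 - l)) * ((k : K) + 1)⁻¹) •
        (hh K l * hh K (T - 1 - l)) := by
    simp only [cw, add_mul, add_smul, sum_add_distrib]
    congr 1
    rw [← sum_range_reflect]
    refine sum_congr rfl fun l hl => ?_
    have := mem_range.mp hl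
    rw [show T - 1 - (T - 1 - l) = l by omega, mul_comm (hh K l)]
  rw [e1]
  symm
  refine sum_of_injOn (fun l => (m - 1 - l, m' - 1 - (T - 1 - l))) ?_ ?_ ?_ ?_
  · intro a ha b hb h
    have h1 := mem_range.mp (mem_coe.mp ha)
    have h2 := mem_range.mp (mem_coe.mp hb)
    have := congrArg Prod.fst h
    simp only at this
    omega
  · intro a ha
    have h1 := mem_range.mp (mem_coe.mp ha)
    simp only [coe_product, Set.mem_prod, mem_coe, mem_range]
    omega
  · rintro ⟨i, j⟩ _ h
    split_ifs with hk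
    · by_cases hi : i < m
      · by_cases hj : j < m'
        · exfalso
          apply h
          simp only at hk
          refine ⟨m - 1 - i, mem_coe.mpr (mem_range.mpr (by omega)), ?_⟩
          simp only [Prod.mk.injEq]
          omega
        · rw [pd_hh_zero (not_lt.mp hj), mul_zero, smul_zero]
      · rw [pd_hh_zero (not_lt.mp hi), zero_mul, smul_zero]
    · rfl
  · intro l hl
    have h1 := mem_range.mp hl
    obtain ⟨i, hi⟩ : ∃ i, m = i + 1 + l := ⟨m - 1 - l, by omega⟩
    obtain ⟨b, hb⟩ : ∃ b, T = b + 1 + l := ⟨T - 1 - l, by omega⟩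
    obtain ⟨j, hj⟩ : ∃ j, m' = j + 1 + b := ⟨m' - 1 - b, by omega⟩
    have hk : k = i + j + 1 := by omega
    simp only
    rw [show T - 1 - l = b by omega, show m - 1 - l = i by omega, show m' - 1 - b = j by omega,
      if_pos hk.symm, pd_hh, pd_hh, if_pos (by omega), if_pos (by omega),
      show m - (i + 1) = l by omega, show m' - (j + 1) = b by omega, smul_mul_smul_comm]
    rw [show m - l = i + 1 by omega, show m' - b = j + 1 by omega, smul_smul, hk, cc]
    congr 1
    have c1 := cne (K := K) i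
    have c2 := cne (K := K) j
    have c3 : ((i : K) + 1 + (j + 1)) ≠ 0 := by
      have := cne (K := K) (i + j + 1)
      push_cast at this
      rwa [show (i : K) + 1 + (j + 1) = i + j + 1 + 1 by ring]
    have c4 : ((i : K) + j + 1 + 1) = i + 1 + (j + 1) := by ring
    push_cast
    rw [c4]
    field_simp

/-- the value of a monomial: `p_a` has value `B^a` -/
noncomputable def val (B : ℕ) : (ℕ →₀ ℕ) →+ ℕ := Finsupp.weight fun k => B ^ (k+1)

lemma weight_ms {M : Type} [AddCommMonoid M] (w : ℕ → M) (s : Multiset ℕ) :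
    Finsupp.weight w (Multiset.toFinsupp s) = (s.map w).sum := by
  induction s using Multiset.induction_on with
  | empty => simp
  | cons a s ih =>
    rw [← Multiset.singleton_add, map_add, map_add, ih, Multiset.toFinsupp_singleton,
      Finsupp.weight_single]
    simp

lemma cast_ms (s : Multiset ℕ) : (s.map wz).sum = ((s.map (· + 1)).sum : ℕ) := by
  induction s using Multiset.induction_on with
  | empty => simp
  | cons a s _ => simp [wz]

lemma ms_le {B : ℕ} (hB : 2 ≤ B) (s : Multiset ℕ) :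
    (s.map fun k => B ^ (k+1)).sum ≤ B ^ (s.map (· + 1)).sum := by
  induction s using Multiset.induction_on with
  | empty => simp
  | cons a s ih =>
    rcases s.empty_or_exists_mem with rfl | ⟨b, hb⟩
    · simp
    · obtain ⟨t, rfl⟩ := Multiset.exists_cons_of_mem hb
      rw [Multiset.map_cons, Multiset.sum_cons, Multiset.map_cons (· + 1) a, Multiset.sum_cons,
        pow_add B (a + 1)]
      refine (Nat.add_le_add_left ih _).trans (Nat.add_le_mul ?_ ?_)
      · exact hB.trans (Nat.le_self_pow (by omega) B)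
      · exact hB.trans (Nat.le_self_pow (by simp) B)

lemma card_le_ms (s : Multiset ℕ) : Multiset.card s ≤ (s.map (· + 1)).sum := by
  induction s using Multiset.induction_on with
  | empty => simp
  | cons a s ih => simp only [Multiset.card_cons, Multiset.map_cons, Multiset.sum_cons]; omega

lemma ms_le2 {B m m' : ℕ} (hB : 2 ≤ B) (hN : m + m' ≤ B) (s : Multiset ℕ)
    (h : (s.map (· + 1)).sum = m + m') (hs : ∀ k ∈ s, k < m) :
    (s.map fun k => B ^ (k+1)).sum ≤ B ^ m + B ^ m' := by
  by_cases h1 : ∃ a ∈ s, a + 1 = m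
  · obtain ⟨a, ha, rfl⟩ := h1
    obtain ⟨t, rfl⟩ := Multiset.exists_cons_of_mem ha
    rw [Multiset.map_cons, Multiset.sum_cons] at h ⊢
    have := ms_le hB t
    rw [show (t.map (· + 1)).sum = m' by omega] at this
    omega
  · rcases s.empty_or_exists_mem with rfl | ⟨b, hb⟩
    · simp
    obtain ⟨r, rfl⟩ : ∃ r, m = r + 1 := ⟨m - 1, by have := hs b hb; omega⟩
    have h2 : (s.map fun k => B ^ (k+1)).sum ≤ Multiset.card (s.map fun k => B ^ (k+1)) • B ^ r :=
      Multiset.sum_le_card_nsmul _ _ fun x hx => by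
        obtain ⟨a, ha, rfl⟩ := Multiset.mem_map.mp hx
        refine Nat.pow_le_pow_right (by omega) ?_
        have := hs a ha
        have : a + 1 ≠ r + 1 := fun e => h1 ⟨a, ha, e⟩
        omega
    rw [Multiset.card_map, smul_eq_mul] at h2
    have h3 : Multiset.card s ≤ B := (card_le_ms s).trans (h ▸ hN)
    calc _ ≤ B * B ^ r := h2.trans (Nat.mul_le_mul_right _ h3)
      _ = B ^ (r+1) := by ring
      _ ≤ _ := Nat.le_add_right _ _

/-- all monomials have value at most `v` -/
def Bd (B v : ℕ) (f : (Lam K)) : Prop := ∀ d, coeff d f ≠ 0 → val B d ≤ v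

lemma Bd.add {B v : ℕ} {f g : (Lam K)} (hf : Bd B v f) (hg : Bd B v g) : Bd B v (f + g) := by
  intro d hd
  by_cases h : coeff d f = 0
  · exact hg d (by simpa [h] using hd)
  · exact hf d h

lemma Bd.mul {B v v' : ℕ} {f g : (Lam K)} (hf : Bd B v f) (hg : Bd B v' g) :
    Bd B (v + v') (f * g) := by
  intro d hd
  rw [coeff_mul] at hd
  obtain ⟨p, hp, h⟩ := exists_ne_zero_of_sum_ne_zero hd
  rw [← mem_antidiagonal.mp hp, map_add]
  exact add_le_add (hf _ (left_ne_zero_of_mul h)) (hg _ (right_ne_zero_of_mul h))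

lemma Bd_zero (B v : ℕ) : Bd B v (0 : Lam K) := fun d hd => absurd (by simp) hd

lemma Bd_one (B : ℕ) : Bd B 0 (1 : Lam K) := fun d hd => by
  rw [coeff_one] at hd
  split_ifs at hd with h
  · rw [← h]; simp
  · exact absurd rfl hd

lemma wt_of {m : ℕ} {f : (Lam K)} (hf : f ∈ Hg m) {s : Multiset ℕ}
    (hd : coeff (Multiset.toFinsupp s) f ≠ 0) : (s.map (· + 1)).sum = m := by
  have := hf hd
  rw [weight_ms, cast_ms] at this
  exact_mod_cast this

lemma Bd_Hg {B m : ℕ} (hB : 2 ≤ B) {f : (Lam K)} (hf : f ∈ Hg m) : Bd B (B ^ m) f := by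
  intro d hd
  obtain ⟨s, rfl⟩ := Multiset.toFinsupp.surjective d
  rw [val, weight_ms, ← wt_of hf hd]
  exact ms_le hB s

lemma lt_of_pd {m : ℕ} {f : (Lam K)} (h : ∀ k, m ≤ k → pderiv k f = 0) {s : Multiset ℕ}
    (hd : coeff (Multiset.toFinsupp s) f ≠ 0) : ∀ k ∈ s, k < m := by
  intro k hk
  by_contra hm
  obtain ⟨t, rfl⟩ := Multiset.exists_cons_of_mem hk
  have := coeff_pderiv (i := k) f (Multiset.toFinsupp t)
  rw [h k (not_lt.mp hm), coeff_zero] at this
  rw [← Multiset.singleton_add, map_add, Multiset.toFinsupp_singleton, add_comm] at hd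
  exact mul_ne_zero hd (cne _) this.symm

lemma Bd_diff {n m m' : ℕ} (hn : m ≤ n) (hn' : m' ≤ n) :
    Bd (2 * n + 2) ((2 * n + 2) ^ m + (2 * n + 2) ^ m') (WX q n m m' - uu q m m') := by
  intro d hd
  obtain ⟨s, rfl⟩ := Multiset.toFinsupp.surjective d
  have h1 : WX q n m m' - uu q m m' ∈ Hg ((m + m' : ℕ) : ℤ) := by
    push_cast; exact Submodule.sub_mem _ (Hg_WW n m m') (Hg_uu m m')
  have h2 := wt_of h1 hd
  have h3 := lt_of_pd (m := max m m')
    (fun k hk => pd_diff hn hn' ((le_max_left _ _).trans hk) ((le_max_right _ _).trans hk)) hd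
  rw [val, weight_ms]
  rcases le_total m m' with h | h
  · rw [max_eq_right h] at h3
    rw [add_comm (_ ^ m)]
    exact ms_le2 (by omega) (by omega) s (by omega) h3
  · rw [max_eq_left h] at h3
    exact ms_le2 (by omega) (by omega) s h2 h3

lemma Bd_prod {B : ℕ} (hB : 2 ≤ B) (L : List ℕ) :
    Bd B (L.map (B ^ ·)).sum (L.map (hh K)).prod := by
  induction L with
  | nil => exact Bd_one B
  | cons m L ih => exact (Bd_Hg hB (Hg_hh m)).mul ih

lemma Bd_one' {B : ℕ} (hB : 2 ≤ B) {g : ℕ → (Lam K)} (v : ℕ) (L : List ℕ)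
    (hg : ∀ m ∈ L, Bd B (v + B ^ m) (g m)) : Bd B (v + (L.map (B ^ ·)).sum) (one g (hh K) L) := by
  induction L with
  | nil => exact Bd_zero _ _
  | cons m L ih =>
    rw [one_cons, List.map_cons, List.sum_cons]
    refine Bd.add ?_ ?_
    · rw [← add_assoc]; exact (hg m (by simp)).mul (Bd_prod hB L)
    · rw [add_left_comm]
      exact (Bd_Hg hB (Hg_hh m)).mul (ih fun x hx => hg x (by simp [hx]))

lemma Bd_pair {B : ℕ} (hB : 2 ≤ B) {β : ℕ → ℕ → (Lam K)} (L : List ℕ)
    (hg : ∀ m ∈ L, ∀ m' ∈ L, Bd B (B ^ m + B ^ m') (β m m')) :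
    Bd B (L.map (B ^ ·)).sum (pair β (hh K) L) := by
  induction L with
  | nil => exact Bd_zero _ _
  | cons m L ih =>
    rw [pair_cons, List.map_cons, List.sum_cons]
    exact Bd.add (Bd_one' hB _ L fun x hx => hg m (by simp) x (by simp [hx]))
      ((Bd_Hg hB (Hg_hh m)).mul (ih fun x hx y hy => hg x (by simp [hx]) y (by simp [hy])))

lemma val_dOf (B : ℕ) {n : ℕ} (μ : n.Partition) : val B (dOf μ) = ((lst μ).map (B ^ ·)).sum := by
  rw [val, dOf, weight_ms, ← Multiset.sum_coe, ← Multiset.map_coe, lst_coe]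
  conv_rhs => rw [← parts_eq μ, Multiset.map_map]
  rfl

lemma lex_lt {B : ℕ} {L R : List ℕ} (h : L < R) (hL : L.Pairwise (· ≥ ·))
    (hB : L.length < B) : (L.map (B ^ ·)).sum < (R.map (B ^ ·)).sum := by
  induction h with
  | nil =>
    simp only [List.map_nil, List.sum_nil, List.map_cons, List.sum_cons]
    have : 0 < B := hB
    positivity
  | @rel a L b R hab =>
    have h1 : ((a :: L).map (B ^ ·)).sum ≤ ((a :: L).map (B ^ ·)).length • B ^ a :=
      List.sum_le_card_nsmul _ _ fun x hx => by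
        obtain ⟨y, hy, rfl⟩ := List.mem_map.mp hx
        refine Nat.pow_le_pow_right (by omega) ?_
        rcases List.mem_cons.mp hy with rfl | hy
        · exact le_rfl
        · exact (List.pairwise_cons.mp hL).1 y hy
    rw [List.length_map, smul_eq_mul] at h1
    have h2 : 0 < B ^ a := pow_pos (by omega) _
    calc _ ≤ _ := h1
      _ < B * B ^ a := Nat.mul_lt_mul_of_pos_right hB h2
      _ = B ^ (a + 1) := by ring
      _ ≤ B ^ b := Nat.pow_le_pow_right (by omega) hab
      _ ≤ _ := by rw [List.map_cons, List.sum_cons]; exact Nat.le_add_right _ _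
  | @cons a L R _ ih =>
    simp only [List.map_cons, List.sum_cons]
    exact Nat.add_lt_add_left (ih (List.pairwise_cons.mp hL).2
      (by simp only [List.length_cons] at hB; omega)) _

end A3a34

open A3a34 in
theorem st_A3a (hSO : St_SO) : St_A3a := by
  intro K _ _ q n l ρ hlt
  have hB : 2 ≤ 2 * n + 2 := by omega
  have hle : ∀ m ∈ lst l, m ≤ n := fun m hm => by
    have := List.le_sum_of_mem hm
    rwa [lst_sum] at this
  have h1 := (hSO K (Lam K) n (AlgHom.id K (Lam K)) (fun _ => 0) (gam q) gam_comm).1 (hh K) (lst l)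
  have h2 : Sst q n (hl K (lst l)) - Ul q (lst l) =
      one (fun m => Sst q n (hh K m)) (hh K) (lst l) +
      pair (fun m m' => WX q n m m' - uu q m m') (hh K) (lst l) := by
    rw [pair_sub, ← add_sub_assoc]
    exact congrArg (· - Ul q (lst l)) h1
  have h3 : Bd (2 * n + 2) ((lst l).map ((2 * n + 2) ^ ·)).sum
      (Sst q n (hl K (lst l)) - Ul q (lst l)) := by
    rw [h2]
    refine Bd.add ?_ (Bd_pair hB _ fun m hm m' hm' => Bd_diff (hle m hm) (hle m' hm'))
    simpa using Bd_one' hB 0 (lst l) fun m _ => by simpa using Bd_Hg hB (Hg_S n m)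
  rw [← sub_eq_zero, ← coeff_sub]
  by_contra h
  have h4 := h3 _ h
  rw [val_dOf] at h4
  exact absurd (lex_lt hlt (lst_sorted l) (by have := lst_length l; omega)) (not_lt.mpr h4)

end MJS
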