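import Pool.Agent.Lib.MP_9c49f6_co.S_Kit

/-! Row `A3b` of the second face: `U_λ` is a combination of `h_κ` with `κ > λ`. -/

namespace MJS
open MJ MJT MJC Finset MvPolynomial

namespace A3b66

variable {K : Type} [Field K]

lemma hl_cons (m : ℕ) (L : List ℕ) : hl K (m :: L) = hh K m * hl K L := by simp [hl]

lemma hl_perm {L M : List ℕ} (h : L.Perm M) : hl K L = hl K M := (h.map (hh K)).prod_eq

lemma mul_span {s : Set (Lam K)} {P : Submodule K (Lam K)} (g : Lam K) (h : ∀ f ∈ s, g * f ∈ P)
    {x : Lam K} (hx : x ∈ Submodule.span K s) : g * x ∈ P := by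
  induction hx using Submodule.span_induction with
  | mem f hf => exact h f hf
  | zero => simp
  | add x y _ _ hx hy => rw [mul_add]; exact add_mem hx hy
  | smul c x _ hx => rw [mul_smul_comm]; exact P.smul_mem c hx

variable (K) in
/-- the `h_(a :: T)` of weight `m + |L|` with `a > m` -/
def VS (m : ℕ) (L : List ℕ) : Set (Lam K) :=
  {f | ∃ a T, m < a ∧ (∀ x ∈ T, 0 < x) ∧ a + T.sum = m + L.sum ∧ f = hl K (a :: T)}

variable (K) in
/-- the `h_M` of the same weight with `M > L` -/
def WS (L : List ℕ) : Set (Lam K) :=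
  {f | ∃ M : List ℕ, (∀ x ∈ M, 0 < x) ∧ L < M ∧ M.sum = L.sum ∧ f = hl K M}

lemma one_uu (q : K) (m : ℕ) (L : List ℕ) (hL : ∀ x ∈ L, 0 < x) :
    one (uu q m) (hh K) L ∈ Submodule.span K (VS K m L) := by
  induction L with
  | nil => simp
  | cons b L ih =>
    have hb : 0 < b := hL b (by simp)
    have hL' : ∀ x ∈ L, 0 < x := fun x hx => hL x (by simp [hx])
    rw [one_cons]
    refine add_mem ?_ (mul_span _ ?_ (ih hL'))
    · change uu q m b * hl K L ∈ _
      rw [uu, sum_mul]
      refine Submodule.sum_mem _ fun l hl' => ?_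
      have hlb : l < b := lt_of_lt_of_le (mem_range.mp hl') (min_le_right _ _)
      rw [smul_mul_assoc]
      refine Submodule.smul_mem _ _ (Submodule.subset_span ?_)
      rcases Nat.eq_zero_or_pos l with rfl | h0
      · exact ⟨m + b, L, by omega, hL', by simp; omega, by simp [hl_cons]⟩
      · refine ⟨m + b - l, l :: L, by omega, ?_, by simp; omega, ?_⟩
        · intro x hx
          rcases List.mem_cons.mp hx with rfl | hx
          exacts [h0, hL' x hx]
        · simp only [hl_cons]; ring
    · rintro f ⟨a, T, h1, h2, h3, rfl⟩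
      refine Submodule.subset_span ⟨a, b :: T, h1, ?_, by simp; omega, ?_⟩
      · intro x hx
        rcases List.mem_cons.mp hx with rfl | hx
        exacts [hb, h2 x hx]
      · simp only [hl_cons]; ring

lemma Ul_mem (q : K) (L : List ℕ) (hL : ∀ x ∈ L, 0 < x) :
    Ul q L ∈ Submodule.span K (WS K L) := by
  induction L with
  | nil => simp [Ul]
  | cons m L ih =>
    have hm : 0 < m := hL m (by simp)
    have hL' : ∀ x ∈ L, 0 < x := fun x hx => hL x (by simp [hx])
    rw [Ul, pair_cons]
    refine add_mem (Submodule.span_mono ?_ (one_uu q m L hL')) (mul_span _ ?_ (ih hL'))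
    · rintro f ⟨a, T, h1, h2, h3, rfl⟩
      refine ⟨a :: T, ?_, List.cons_lt_cons_iff.mpr (Or.inl h1), by simpa using h3, rfl⟩
      intro x hx
      rcases List.mem_cons.mp hx with rfl | hx
      exacts [by omega, h2 x hx]
    · rintro f ⟨M, h1, h2, h3, rfl⟩
      refine Submodule.subset_span ⟨m :: M, ?_, List.cons_lt_cons_iff.mpr (Or.inr ⟨rfl, h2⟩),
        by simp [h3], (hl_cons m M).symm⟩
      intro x hx
      rcases List.mem_cons.mp hx with rfl | hx
      exacts [hm, h1 x hx]

lemma of_span {n : ℕ} (l : n.Partition) {f : Lam K} (hf : f ∈ Submodule.span K (WS K (lst l))) :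
    ∃ u : n.Partition → K, (∀ κ, u κ ≠ 0 → lst l < lst κ) ∧ f = ∑ κ, u κ • hl K (lst κ) := by
  classical
  induction hf using Submodule.span_induction with
  | mem f hf =>
    obtain ⟨M, h1, h2, h3, rfl⟩ := hf
    let k : n.Partition := ⟨M, fun hx => h1 _ hx, by simpa [lst_sum] using h3⟩
    have hp : M.Perm (lst k) := by rw [← Multiset.coe_eq_coe, lst_coe]
    refine ⟨fun κ => if κ = k then 1 else 0, fun κ hκ => ?_, ?_⟩
    · have : κ = k := by by_contra hc; simp [hc] at hκ
      rw [this]; exact h2.trans_le (perm_le_sorted (lst_sorted k) hp)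
    · simp [hl_perm hp]
  | zero => exact ⟨0, by simp, by simp⟩
  | add x y _ _ hx hy =>
    obtain ⟨u, hu, rfl⟩ := hx
    obtain ⟨v, hv, rfl⟩ := hy
    refine ⟨u + v, fun κ hκ => ?_, by simp [add_smul, sum_add_distrib]⟩
    by_cases h : u κ = 0
    · exact hv κ (by simpa [h] using hκ)
    · exact hu κ h
  | smul c x _ hx =>
    obtain ⟨u, hu, rfl⟩ := hx
    refine ⟨c • u, fun κ hκ => hu κ fun h => by simp [h] at hκ, by simp [smul_sum, smul_smul]⟩

end A3b66

theorem st_A3b : St_A3b := fun _ _ _ q _ l => A3b66.of_span l (A3b66.Ul_mem q _ (lst_pos l))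

end MJS
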