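import Pool.Agent.Lib.MP_9c49f6_co.TBlue

/-! The monomial expansion of products of power sums is triangular. -/

namespace MJT
open MJ Finset MvPolynomial

namespace RM76

variable {n : ℕ}

/-- the non-zero values of an exponent -/
noncomputable def vals (d : Fin n →₀ ℕ) : Multiset ℕ := (univ.val.map d).filter (0 < ·)

lemma vals_eq (d : Fin n →₀ ℕ) (i : Fin n) :
    vals d = (d i ::ₘ (univ.erase i).val.map d).filter (0 < ·) := by
  rw [vals, ← Multiset.map_cons, erase_val, Multiset.cons_erase (mem_univ i)]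

lemma vals_add (d : Fin n →₀ ℕ) (i : Fin n) {a : ℕ} (ha : 0 < a) :
    ∃ R : Multiset ℕ, vals (d + Finsupp.single i a) = (d i + a) ::ₘ R ∧
      vals d = if 0 < d i then d i ::ₘ R else R := by
  refine ⟨((univ.erase i).val.map d).filter (0 < ·), ?_, ?_⟩
  · rw [vals_eq _ i, Multiset.filter_cons_of_pos _ (by simp [ha])]
    congr 1
    · simp
    · congr 1
      refine Multiset.map_congr rfl fun j hj => ?_
      have : j ≠ i := (mem_erase.1 (show j ∈ univ.erase i from hj)).1
      simp [this.symm]
  · rw [vals_eq _ i]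
    split_ifs with h
    · rw [Multiset.filter_cons_of_pos _ h]
    · rw [Multiset.filter_cons_of_neg _ h]

lemma coeff_step (d : Fin n →₀ ℕ) (a : ℕ) (g : MvPolynomial (Fin n) ℕ) :
    coeff d (psum (Fin n) ℕ a * g) ≠ 0 ↔
      ∃ i d', d = d' + Finsupp.single i a ∧ coeff d' g ≠ 0 := by
  rw [psum, sum_mul, coeff_sum, Ne, sum_eq_zero_iff]
  simp only [X_pow_eq_monomial, coeff_monomial_mul', mem_univ, true_imp_iff, one_mul, not_forall]
  refine exists_congr fun i => ⟨fun h => ?_, ?_⟩
  · split_ifs at h with h1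
    · exact ⟨_, (tsub_add_cancel_of_le h1).symm, h⟩
    · exact absurd rfl h
  · rintro ⟨d', rfl, h⟩
    rwa [if_pos le_add_self, add_tsub_cancel_right]

lemma vals_zero : vals (0 : Fin n →₀ ℕ) = 0 := by
  rw [vals, Multiset.filter_eq_nil]
  intro a ha
  obtain ⟨i, -, rfl⟩ := Multiset.mem_map.1 ha
  simp

lemma key (B : ℕ) (hB : 2 ≤ B) (M : Multiset ℕ) (hM : ∀ a ∈ M, 0 < a) (d : Fin n →₀ ℕ)
    (h : coeff d (M.map (psum (Fin n) ℕ)).prod ≠ 0) :
    (vals d).card ≤ M.card ∧ ((vals d).card = M.card → vals d = M) ∧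
      (M.map (B ^ ·)).sum ≤ ((vals d).map (B ^ ·)).sum := by
  induction M using Multiset.induction_on generalizing d with
  | empty =>
    rw [Multiset.map_zero, Multiset.prod_zero, coeff_one] at h
    have : 0 = d := by simpa using h
    subst this
    simp [vals_zero]
  | cons a M ih =>
    rw [Multiset.map_cons, Multiset.prod_cons, coeff_step] at h
    obtain ⟨i, d', rfl, h⟩ := h
    have ha := hM a (Multiset.mem_cons_self _ _)
    obtain ⟨h1, h2, h3⟩ := ih (fun b hb => hM b (Multiset.mem_cons_of_mem hb)) d' h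
    obtain ⟨R, e1, e2⟩ := vals_add d' i ha
    rw [e1]
    rw [e2] at h1 h2 h3
    simp only [Multiset.card_cons, Multiset.map_cons, Multiset.sum_cons]
    split_ifs at h1 h2 h3 with h0
    · simp only [Multiset.card_cons, Multiset.map_cons, Multiset.sum_cons] at h1 h3
      have b1 : 2 ≤ B ^ a := hB.trans (Nat.le_self_pow ha.ne' B)
      have b2 : 2 ≤ B ^ d' i := hB.trans (Nat.le_self_pow h0.ne' B)
      have b3 := Nat.add_le_mul b2 b1
      rw [pow_add]
      exact ⟨by omega, fun h4 => by omega, by omega⟩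
    · have h5 : d' i = 0 := by omega
      rw [h5, zero_add]
      exact ⟨by omega, fun h4 => by rw [h2 (by omega)], by omega⟩

lemma diag (M : Multiset ℕ) (d : Fin n →₀ ℕ) (h : vals d = M) :
    coeff d (M.map (psum (Fin n) ℕ)).prod ≠ 0 := by
  induction M using Multiset.induction_on generalizing d with
  | empty =>
    have : d = 0 := by
      ext i
      have := Multiset.filter_eq_nil.1 h (d i) (Multiset.mem_map_of_mem _ (mem_univ i))
      simpa using this
    simp [this]
  | cons a M ih =>
    have h1 : a ∈ vals d := h ▸ Multiset.mem_cons_self _ _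
    obtain ⟨h2, ha⟩ := Multiset.mem_filter.1 h1
    obtain ⟨i, -, rfl⟩ := Multiset.mem_map.1 h2
    have e : d = d.erase i + Finsupp.single i (d i) := (Finsupp.erase_add_single i d).symm
    obtain ⟨R, e1, e2⟩ := vals_add (d.erase i) i ha
    rw [Finsupp.erase_same, zero_add, ← e, h] at e1
    rw [Finsupp.erase_same, if_neg (lt_irrefl 0)] at e2
    rw [Multiset.map_cons, Multiset.prod_cons, coeff_step]
    exact ⟨i, _, e, ih _ (e2.trans ((Multiset.cons_inj_right _).1 e1).symm)⟩

lemma filter_ofFn (n : ℕ) (L : List ℕ) (hL : ∀ x ∈ L, 0 < x) (hn : L.length ≤ n) :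
    (List.ofFn fun i : Fin n => L.getD i 0).filter (0 < ·) = L := by
  induction n generalizing L with
  | zero => simpa using (List.length_eq_zero_iff.1 (Nat.le_zero.1 hn)).symm
  | succ n ih =>
    rw [List.ofFn_succ]
    cases L with
    | nil => simp
    | cons a L =>
      have := ih L (fun x hx => hL x (List.mem_cons_of_mem _ hx)) (by simpa using hn)
      rw [List.filter_cons_of_pos (by simpa using hL a List.mem_cons_self)]
      simpa using this

lemma vals_expo (l : n.Partition) : vals (expo l) = l.parts := by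
  rw [vals, Fin.univ_val_map, Multiset.filter_coe, ← lst_coe]
  exact congrArg _ (filter_ofFn n _ (lst_pos l) (lst_length l))

lemma sum_lt {B : ℕ} {L L' : List ℕ} (h : List.Lex (· < ·) L L') (hL : L.Pairwise (· ≥ ·))
    (hB : L.length < B) : (L.map (B ^ ·)).sum < (L'.map (B ^ ·)).sum := by
  have B0 : 0 < B := by omega
  induction h with
  | @nil a l =>
    have := pow_pos B0 a
    simp only [List.map_nil, List.sum_nil, List.map_cons, List.sum_cons]
    omega
  | @rel a l b l' h =>
    have h1 : ((a :: l).map (B ^ ·)).sum ≤ ((a :: l).map (B ^ ·)).length • B ^ a :=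
      List.sum_le_card_nsmul _ _ fun x hx => by
        obtain ⟨y, hy, rfl⟩ := List.mem_map.1 hx
        refine Nat.pow_le_pow_right B0 ?_
        rcases List.mem_cons.1 hy with rfl | hy
        · exact le_rfl
        · exact (List.pairwise_cons.1 hL).1 y hy
    rw [List.length_map, smul_eq_mul] at h1
    have h2 := Nat.mul_lt_mul_of_pos_right hB (pow_pos B0 a)
    have h3 : B ^ (a + 1) ≤ B ^ b := Nat.pow_le_pow_right B0 h
    rw [pow_succ'] at h3
    rw [List.map_cons (a := b), List.sum_cons]
    omega
  | @cons a l l' h ih =>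
    have := ih (List.pairwise_cons.1 hL).2 (by simp at hB; omega)
    simp only [List.map_cons, List.sum_cons]
    omega

end RM76

open RM76 in
theorem st_RM : St_RM := by
  intro n μ
  refine ⟨diag _ _ (vals_expo μ), fun κ h => ?_⟩
  obtain ⟨h1, h2, h3⟩ := key (n + 2) (by omega) μ.parts (fun a ha => μ.parts_pos ha) _ h
  rw [vals_expo] at h1 h2 h3
  refine ⟨not_lt.1 fun h4 => ?_, h1, fun h4 => Nat.Partition.ext (h2 h4)⟩
  have h5 := sum_lt (B := n + 2) h4 (lst_sorted κ) (by have := lst_length κ; omega)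
  rw [← lst_coe, ← lst_coe, Multiset.map_coe, Multiset.map_coe, Multiset.sum_coe,
    Multiset.sum_coe] at h3
  omega

end MJT
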