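import Pool.Agent.Lib.MP_9c49f6_co.S_Kit
import Pool.Agent.Lib.MP_9c49f6_co.T_RM
import Pool.Agent.Lib.MP_9c49f6_co.T_CAU

/-! Second face: the first-order expansion of the basis dual to the Macdonald polynomials. -/

namespace MJS
open MJ MJT MJC Finset MvPolynomial

namespace A457
variable {K F : Type} [Field K] [Field F] [CharZero K] [CharZero F] [Algebra K F] {n : ℕ}

/-- `[p_μ] h_k` -/
noncomputable def HH (K : Type) [Field K] (k μ : n.Partition) : K := coeff (dOf μ) (hl K (lst k))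

lemma HH_eq (k μ : n.Partition) : HH K k μ = (rc μ k : K) / zz μ := coeff_hl st_CAU k μ

lemma HH_tri (k μ : n.Partition) (h : HH K k μ ≠ 0) : lst μ ≤ lst k := by
  refine ((st_RM n μ).2 k fun h0 => h ?_).1
  rw [HH_eq, h0, Nat.cast_zero, zero_div]

lemma rc_ne (μ : n.Partition) : (rc μ μ : K) ≠ 0 := by exact_mod_cast (st_RM n μ).1

lemma HH_diag (k : n.Partition) : HH K k k ≠ 0 := by
  rw [HH_eq]; exact div_ne_zero (rc_ne k) (LIM15.zz_ne k)

lemma exists_y (x : n.Partition → F) : ∃ y : n.Partition → F, ∀ μ, x μ = ∑ k, y k * HH F k μ := by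
  classical
  have h := det_tri (Matrix.of (HH F (n := n))) HH_tri HH_diag
  refine ⟨Matrix.vecMul x (Matrix.of (HH F))⁻¹, fun μ => ?_⟩
  have h1 : Matrix.vecMul (Matrix.vecMul x (Matrix.of (HH F (n := n)))⁻¹) (Matrix.of (HH F)) = x := by
    rw [Matrix.vecMul_vecMul, Matrix.nonsing_inv_mul _ (Ne.isUnit h), Matrix.vecMul_one]
  exact (congrFun h1 μ).symm

omit [CharZero F] in
lemma y_low {U : n.Partition → n.Partition → F} (h1 : ∀ j, U j j = 1)
    (h2 : ∀ j k, U j k ≠ 0 → lst k ≤ lst j) {y : n.Partition → F} {l : n.Partition}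
    (h : ∀ j, ∑ k, y k * U j k = if l = j then 1 else 0) (k : n.Partition) :
    lst k ≤ lst l → y k = if l = k then 1 else 0 := by
  let : LinearOrder n.Partition := LinearOrder.lift' lst lst_inj
  induction k using WellFoundedLT.induction with
  | ind k ih =>
    intro hk
    rw [← h k, sum_eq_single k, h1, mul_one]
    · intro j _ hj
      by_cases h3 : U k j = 0
      · rw [h3, mul_zero]
      · have h4 : lst j < lst k := lt_of_le_of_ne (h2 k j h3) fun e => hj (lst_inj e)
        rw [ih j h4 (h4.le.trans hk), if_neg, zero_mul]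
        rintro rfl
        exact absurd hk (not_le.mpr h4)
    · simp

lemma HH_map (k μ : n.Partition) : algebraMap K F (HH K k μ) = HH F k μ := by
  simp [HH_eq]

variable {s : K} {O : Subalgebra K F} {θ q t : F}

/-- `∏ [μ_i]_t / [μ_i]_q` -/
def wq (q t : F) (μ : n.Partition) : F := (μ.parts.map fun i => qi t i / qi q i).prod

omit [CharZero K] in
lemma wq_cg (S : Setting s O θ q t) (μ : n.Partition) :
    Cg O θ 1 (wq q t μ - algebraMap K F (vq (1 + s) μ)⁻¹) := by
  have h : algebraMap K F (vq (1 + s) μ)⁻¹ = (μ.parts.map fun i : ℕ => (i : F) / qi q i).prod := by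
    rw [map_inv₀, ← S.vq_q, vq, ← Multiset.prod_map_inv]
    simp only [inv_div]
  rw [h]
  refine S.loc.mprod_cg μ.parts (fun i _ => ?_) fun i _ => ?_
  · refine ((S.qi_t i).mul_right (O.algebraMap_mem (qi (1 + s) i)⁻¹)).of_eq ?_
    simp only [map_inv₀, map_natCast, ← S.qi_q]
    ring
  · simpa [S.qi_q] using O.algebraMap_mem ((i : K) / qi (1 + s) i)

omit [CharZero K] in
lemma wq_mem (S : Setting s O θ q t) (μ : n.Partition) : wq q t μ ∈ O :=
  S.loc.mem_of_sub (wq_cg S μ) (O.algebraMap_mem _)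

omit [CharZero K] in
lemma wq_xq (S : Setting s O θ q t) (l μ : n.Partition) :
    θ ^ ln μ * wq q t μ * xq q t (mac S.hi) l μ =
      mac S.hi l μ / scal q t (mac S.hi l) (mac S.hi l) := by
  have h1 := LIM15.zqt_scale S.hi S.th_q μ
  have h2 := LIM15.zz_ne (F := F) μ
  have h3 : wq q t μ * (μ.parts.map fun i => qi q i / qi t i).prod = 1 := by
    rw [wq, ← Multiset.prod_map_mul, Multiset.prod_eq_one]
    intro x hx
    obtain ⟨i, hi, rfl⟩ := Multiset.mem_map.mp hx
    have h4 := LIM15.qi_ne S.hi.q_pow_ne (μ.parts_pos hi)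
    have h5 := LIM15.qi_ne S.hi.t_pow_ne (μ.parts_pos hi)
    field_simp
  have h4 : θ ^ ln μ * wq q t μ * zqt q t μ = zz μ := by
    linear_combination wq q t μ * h1 + (zz μ : F) * h3
  rw [xq, ← mul_div_assoc, ← mul_assoc, h4, mul_comm _ (zz μ : F), mul_div_mul_left _ _ h2]

/-- the rescaled pairing of `h_k` with the coefficient of `x^ρ` -/
noncomputable def AM (θ q t : F) (k ρ : n.Partition) : F :=
  ∑ μ, θ ^ (ln μ - ln ρ) * wq q t μ * rc μ ρ * HH F k μ

omit [CharZero K] in
lemma AM_zero (S : Setting s O θ q t) {l ρ : n.Partition} (h : lst l < lst ρ)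
    {y : n.Partition → F} (hy : ∀ μ, xq q t (mac S.hi) l μ = ∑ k, y k * HH F k μ) :
    ∑ k, y k * AM θ q t k ρ = 0 := by
  have h1 : ∑ μ, mac S.hi l μ * rc μ ρ = 0 := by
    by_contra h0
    exact absurd ((LIM15.orth_of (isMac_mac S.hi)).tri l ρ h0) (not_le.mpr h)
  refine (mul_eq_zero.mp (?_ : θ ^ ln ρ * _ = 0)).resolve_left (pow_ne_zero _ S.loc.ne)
  have h2 : ∑ k, y k * AM θ q t k ρ =
      ∑ μ, θ ^ (ln μ - ln ρ) * wq q t μ * rc μ ρ * xq q t (mac S.hi) l μ := by
    simp only [AM, hy, mul_sum]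
    rw [sum_comm]
    exact sum_congr rfl fun _ _ => sum_congr rfl fun _ _ => by ring
  rw [h2, mul_sum, ← zero_div (scal q t (mac S.hi l) (mac S.hi l)), ← h1, sum_div]
  refine sum_congr rfl fun μ _ => ?_
  by_cases h0 : rc μ ρ = 0
  · simp [h0]
  · rw [mul_div_right_comm, ← wq_xq S, ← Nat.add_sub_cancel' ((st_RM n μ).2 ρ h0).2.1,
      Nat.add_sub_cancel_left, pow_add]
    ring

lemma AM_two (h2 : St_A2) (S : Setting s O θ q t) (k ρ : n.Partition) :
    Cg O θ 2 (AM θ q t k ρ - (wq q t ρ * rc ρ ρ * HH F k ρ + θ * algebraMap K F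
      ((rc ρ ρ : K) / vq (1 + s) ρ * coeff (dOf ρ) (Sst (1 + s) n (hl K (lst k)))))) := by
  classical
  have h3 : wq q t ρ * rc ρ ρ * HH F k ρ =
      ∑ μ, if μ = ρ then wq q t ρ * rc ρ ρ * HH F k ρ else 0 := by simp
  rw [← h2 K s S.gen n ρ _ (hl_lst_Hm k), h3, map_sum, mul_sum, ← sum_add_distrib, AM,
    ← sum_sub_distrib]
  refine Cg.sum fun μ _ => ?_
  have h4 : (rc μ ρ : F) * HH F k μ ∈ O :=
    mul_mem (natCast_mem _ _) (HH_map (K := K) (F := F) k μ ▸ O.algebraMap_mem _)
  by_cases h0 : rc μ ρ = 0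
  · have h5 : μ ≠ ρ := by
      rintro rfl
      exact (st_RM n μ).1 h0
    simpa [h0, h5] using Cg.zero 2
  · obtain ⟨-, h5, h6⟩ := (st_RM n μ).2 ρ h0
    by_cases h7 : ln ρ = ln μ
    · obtain rfl := h6 h7
      simpa using Cg.zero 2
    · have h8 : μ ≠ ρ := fun e => h7 (e ▸ rfl)
      rw [if_neg h8]
      by_cases h9 : ln μ = ln ρ + 1
      · rw [if_pos h9, h9, Nat.add_sub_cancel_left]
        refine ((wq_cg S μ).th_mul.mul_right h4).of_eq ?_
        rw [← HH_map (K := K), HH]
        simp only [map_mul, map_div₀, map_inv₀, map_natCast]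
        ring
      · rw [if_neg h9]
        refine (S.loc.mono (Cg.pow_mul (ln μ - ln ρ) (mul_mem (wq_mem S μ) h4))
          (by omega)).of_eq ?_
        rw [map_zero]
        ring

lemma AM_one (h2 : St_A2) (S : Setting s O θ q t) (k ρ : n.Partition) :
    Cg O θ 1 (AM θ q t k ρ - algebraMap K F ((rc ρ ρ : K) / vq (1 + s) ρ * HH K k ρ)) := by
  refine (((S.loc.mono (AM_two h2 S k ρ) one_le_two).add (Cg.self.mul_right
    (O.algebraMap_mem ((rc ρ ρ : K) / vq (1 + s) ρ *
      coeff (dOf ρ) (Sst (1 + s) n (hl K (lst k))))))).add ((wq_cg S ρ).mul_right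
    (O.algebraMap_mem ((rc ρ ρ : K) * HH K k ρ)))).of_eq ?_
  rw [← HH_map (K := K)]
  simp only [map_mul, map_div₀, map_inv₀, map_natCast]
  ring

end A457
open A457

theorem st_A4 (h2 : St_A2) (h3a : St_A3a) (h3b : St_A3b) (hCC : St_CC) : St_A4 := by
  intro K F _ _ _ _ _ s O θ q t S n l μ
  classical
  have L := S.loc
  obtain ⟨y, hy⟩ := exists_y (xq q t (mac S.hi) l)
  obtain ⟨u, hu, hU⟩ := h3b K (1 + s) n l
  have ho := LIM15.orth_of (isMac_mac (n := n) S.hi)
  have h1 := y_low (y := y) (l := l) ho.lead ho.tri fun j => by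
    rw [← (hCC F q t θ S.hi S.th_q n).1 l j]
    simp only [hy, mul_sum, sum_mul]
    rw [sum_comm]
    refine sum_congr rfl fun π _ => sum_congr rfl fun k _ => ?_
    have := LIM15.zz_ne (F := F) π
    rw [HH_eq]
    field_simp
  have hc : ∀ ρ : n.Partition, coeff (dOf ρ) (Ul (1 + s) (lst l)) = ∑ k, u k * HH K k ρ :=
    fun ρ => by simp [hU, coeff_sum, HH]
  have h4 := L.loc
    (Matrix.of fun k ρ : n.Partition =>
      if lst ρ ≤ lst l then (if k = ρ then 1 else 0) else AM θ q t k ρ)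
    (Matrix.of fun k ρ : n.Partition => if lst ρ ≤ lst l then (if k = ρ then 1 else 0) else
      (rc ρ ρ : K) / vq (1 + s) ρ * HH K k ρ)
    (fun k ρ => by
      simp only [Matrix.of_apply]
      split_ifs
      · simpa using Cg.zero 1
      · simpa using Cg.zero 1
      · exact AM_one h2 S k ρ)
    (det_tri _ (fun k ρ h => by
      simp only [Matrix.of_apply] at h
      split_ifs at h with h5 h6
      · exact h6 ▸ le_rfl
      · exact absurd rfl h
      · exact HH_tri k ρ (right_ne_zero_of_mul h)) fun k => by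
      simp only [Matrix.of_apply]
      split_ifs
      · exact one_ne_zero
      · exact mul_ne_zero (div_ne_zero (rc_ne k) (ASM23.vq_ne S.gen.2 k)) (HH_diag k)) 2
    (fun k => y k - ((if l = k then 1 else 0) - θ * algebraMap K F (u k))) fun ρ => by
      simp only [Matrix.of_apply]
      by_cases h5 : lst ρ ≤ lst l
      · have h6 : u ρ = 0 := by
          by_contra h0
          exact absurd (hu ρ h0) (not_lt.mpr h5)
        simpa [h5, h1 ρ h5, h6] using Cg.zero 2
      · have h6 : HH F l ρ = 0 := by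
          by_contra h0
          exact h5 (HH_tri l ρ h0)
        have h7 := AM_two h2 S l ρ
        rw [h3a K (1 + s) n l ρ (not_le.mp h5), hc, h6] at h7
        refine (h7.neg.add (Cg.sum (s := univ) fun k _ =>
          (AM_one h2 S k ρ).th_mul.mul_right (O.algebraMap_mem (u k)))).of_eq ?_
        simp only [if_neg h5, sub_mul, sum_sub_distrib, AM_zero S (not_le.mp h5) hy, ite_mul,
          one_mul, zero_mul, sum_ite_eq, mem_univ, if_true, mul_sub, map_mul, map_sum, mul_sum]
        have h8 : ∑ k, θ * AM θ q t k ρ * algebraMap K F (u k) =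
            ∑ k, θ * algebraMap K F (u k) * AM θ q t k ρ := sum_congr rfl fun _ _ => by ring
        have h9 : ∑ k, θ * (algebraMap K F ((rc ρ ρ : K) / vq (1 + s) ρ) *
            algebraMap K F (HH K k ρ)) * algebraMap K F (u k) =
            ∑ k, θ * (algebraMap K F ((rc ρ ρ : K) / vq (1 + s) ρ) *
              (algebraMap K F (u k) * algebraMap K F (HH K k ρ))) :=
          sum_congr rfl fun _ _ => by ring
        rw [h8, h9]
        ring
  refine (Cg.sum (s := univ) fun k _ => (h4 k).mul_right (O.algebraMap_mem (HH K k μ))).of_eq ?_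
  rw [hy, hc]
  simp only [sub_mul, sum_sub_distrib, ite_mul, one_mul, zero_mul, sum_ite_eq, mem_univ, if_true,
    map_sum, map_mul, mul_sum, mul_assoc, ← HH_map (K := K) (F := F)]
  rfl

end MJS
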