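import Pool.Agent.Lib.MP_9c49f6_co.S_A3a
import Pool.Agent.Lib.MP_9c49f6_co.C_B0

/-! Row B0: the second-order operator on the complete homogeneous functions, over a field. -/

namespace MJS
open MJ MJT MJC Finset

namespace X45
open PowerSeries

variable {K R : Type} [Field K] [CharZero K] [CommRing R] [Algebra K R]
  {M : R⟦X⟧} {φ : Lam K →ₐ[K] R}

lemma phi_d (h : ∀ m, φ (hh K m) = coeff m M) (k m : ℕ) :
    φ (MvPolynomial.pderiv k (hh K m)) = ((k : K) + 1)⁻¹ • coeff m (X ^ (k+1) * M) := by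
  rw [A3a34.pd_hh, coeff_X_pow_mul']
  by_cases hk : k < m
  · rw [if_pos hk, if_pos (Nat.succ_le_of_lt hk), map_smul, h]
  · rw [if_neg hk, if_neg (by omega), map_zero, smul_zero]

lemma phi_dd (h : ∀ m, φ (hh K m) = coeff m M) (k l m : ℕ) :
    φ (MvPolynomial.pderiv k (MvPolynomial.pderiv l (hh K m))) =
    (((k : K) + 1)⁻¹ * ((l : K) + 1)⁻¹) • coeff m (X ^ (l+1) * (X ^ (k+1) * M)) := by
  rw [A3a34.pd_hh, coeff_X_pow_mul']
  by_cases hk : l < m
  · rw [if_pos hk, if_pos (Nat.succ_le_of_lt hk), Derivation.map_smul, map_smul, phi_d h, smul_smul,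
      mul_comm]
  · rw [if_neg hk, if_neg (by omega), map_zero, map_zero, smul_zero]

lemma ga_mul (k l : ℕ) (c x : R) :
    ((((k+1 : ℕ) : K) * ((l+1 : ℕ) : K)) • c) * ((((k : K) + 1)⁻¹ * ((l : K) + 1)⁻¹) • x) =
      c * x := by
  have h1 : ((k : K) + 1) ≠ 0 := Nat.cast_add_one_ne_zero k
  have h2 : ((l : K) + 1) ≠ 0 := Nat.cast_add_one_ne_zero l
  rw [smul_mul_smul_comm, show (((k+1 : ℕ) : K) * ((l+1 : ℕ) : K)) *
    (((k : K) + 1)⁻¹ * ((l : K) + 1)⁻¹) = 1 by push_cast; field_simp, one_smul]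

lemma conv2_symm (N : R⟦X⟧) {B : ℕ → ℕ → R} (hB : ∀ m m', B m m' = B m' m) (k l : ℕ) :
    conv2 N N B k l = conv2 N N B l k := by
  rw [conv2, conv2, sum_comm]
  exact sum_congr rfl fun p _ => sum_congr rfl fun q _ => by rw [hB]; ring

end X45

open X45 PowerSeries in
theorem st_B0 : St_B0 := by
  intro K R _ _ _ _ M Mi B h0 hM hB hB0 φ γ hφ hγ
  have hco : ∀ m, φ (hh K m) = coeff m M := fun m => by
    have h : M = Ex K fun k => φ (MvPolynomial.X k) := by
      refine Ex_unique _ _ h0 ?_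
      have e : (PowerSeries.mk fun k => φ (MvPolynomial.X k)) = derivative R M * Mi := by
        ext1 k
        rw [coeff_mk, hφ]
      rw [e, mul_assoc, mul_comm Mi, hM, mul_one]
    rw [hh, map_ex, ← Ex_coeff, ← h]
  obtain ⟨CC, hCC⟩ : ∃ CC, CC = conv2 Mi Mi B := ⟨_, rfl⟩
  have cl : ∀ l, CC 0 l = 0 := fun l => by simp [hCC, conv2, hB0]
  have cr : ∀ k, CC k 0 = 0 := fun k => by rw [hCC, conv2_symm Mi hB, ← hCC, cl]
  rw [← hCC] at hγ
  refine ⟨hco, fun k l => by rw [hγ, hγ, hCC, conv2_symm Mi hB, mul_comm],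
    fun k => (-(k : K) / 2) • coeff k (diag CC), fun n m hm => ⟨?_, fun m' hm' => ?_⟩⟩
  · have e1 : ∀ k : ℕ, ((-((k+1 : ℕ) : K) / 2) • coeff (k+1) (diag CC)) *
        φ (MvPolynomial.pderiv k (hh K m)) =
        -((2 : K)⁻¹ • (coeff (k+1) (diag CC) * coeff m (X ^ (k+1) * M))) := fun k => by
      have h1 : ((k : K) + 1) ≠ 0 := Nat.cast_add_one_ne_zero k
      rw [phi_d hco, smul_mul_smul_comm, ← neg_smul]
      congr 1
      push_cast
      field_simp
    have e2 : ∀ k, ∑ l ∈ range n, γ (k+1) (l+1) *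
        φ (MvPolynomial.pderiv k (MvPolynomial.pderiv l (hh K m))) =
        coeff m (X ^ (k+1) * (PowerSeries.mk (CC (k+1)) * M)) := fun k => by
      simp only [phi_dd hco, hγ, ga_mul]
      rw [T88.shift' (CC (k+1)) (cr _) _ hm, mul_left_comm]
    have e3 := T88.shift' (fun k => coeff k (diag CC)) (by simp [MJC.diag, cl]) M hm
    have e4 := T88.shift (fun k => PowerSeries.mk (CC k) * M) (by
      rw [show PowerSeries.mk (CC 0) = 0 by ext1 l; simp [cl], zero_mul]) hm
    have e5 := congrArg (coeff m) (diag_conv2 1 M CC)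
    rw [MJC.diag, coeff_mk] at e5
    simp only [T88.conv2_left] at e5
    rw [P1_apply]
    simp only [e1, e2]
    rw [sum_neg_distrib, ← smul_sum, e3, e4, e5, one_mul, mul_comm M,
      show PowerSeries.mk (fun k => coeff k (diag CC)) = diag CC by ext1; rw [coeff_mk],
      neg_add_cancel]
  · have e1 : conv2 M M CC = B := by rw [hCC, conv2_conv2, hM, conv2_one]
    have e2 : ∀ k, ∑ l ∈ range n, γ (k+1) (l+1) *
        (φ (MvPolynomial.pderiv k (hh K m)) * φ (MvPolynomial.pderiv l (hh K m'))) =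
        conv2 1 M CC (k+1) m' * coeff m (X ^ (k+1) * M) := fun k => by
      simp only [phi_d hco, smul_mul_smul_comm (((k : K) + 1)⁻¹), hγ, ga_mul]
      rw [T88.conv2_left, ← T88.shift' (CC (k+1)) (cr _) _ hm', sum_mul]
      exact sum_congr rfl fun l _ => by ring
    rw [Ga]
    simp only [e2]
    rw [T88.shift' (fun k => conv2 1 M CC k m') (by simp [conv2, cl]) M hm, ← e1, mul_comm,
      coeff_mul, conv2]
    refine sum_congr rfl fun p _ => ?_
    rw [coeff_mk, T88.conv2_left, mul_comm (PowerSeries.mk _), coeff_mul, mul_sum]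
    exact sum_congr rfl fun q _ => by rw [coeff_mk, mul_assoc]

end MJS
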