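import Pool.Agent.Lib.MP_9c49f6_co.S_Kit

/-! Second face, row B1: the first-order equation on the basis `h_λ`. -/

namespace MJS
open MJ MJT MJC Finset MvPolynomial

namespace X76
variable {K : Type} [Field K]

lemma Bt_symm (q : K) (m m' : ℕ) : Bt q m m' = Bt q m' m := by
  have e : ew q m m' = ew q m' m := by
    simp only [ew, min_comm m m', add_comm m m', cw_comm q (m - _), mul_comm (qf q m)]
  simp only [Bt, e, uu_comm q m m', min_comm m m', add_comm m m', cw_comm q (m - _),
    mul_comm (gl q m) (gl q m'), mul_comm (Hh q Sum.inl m) (Hh q Sum.inl m'),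
    mul_comm (Hh q Sum.inr m) (Hh q Sum.inr m')]

lemma Bt_zero (q : K) (m : ℕ) : Bt q 0 m = 0 := by simp [Bt, uu, ew]

lemma ia_hl (q : K) (e : ℕ → ℕ ⊕ ℕ) (l : List ℕ) : ia q e (hl K l) = (l.map (Hh q e)).prod := by
  rw [hl, map_list_prod, List.map_map]
  exact congrArg _ (List.map_congr_left fun m _ => ia_hh q e m)

lemma C_w0 (q : K) (l : List ℕ) :
    (C (w0 q l) : AA K) = (l.map fun m => (C (gl q m) : AA K)).prod := by
  rw [w0, map_list_prod, List.map_map]
  rfl

lemma ia_Ul (q : K) (e : ℕ → ℕ ⊕ ℕ) (l : List ℕ) :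
    ia q e (Ul q l) = pair (fun m m' => ia q e (uu q m m')) (Hh q e) l := by
  rw [Ul, map_pair]
  exact pair_congr (fun _ _ _ _ => rfl) fun m _ => ia_hh q e m

lemma pair_U (q : K) (e e' : ℕ → ℕ ⊕ ℕ) (l : List ℕ) :
    pair (fun m m' => C (gl q m * gl q m') * (ia q e (uu q m m') * (Hh q e' m * Hh q e' m')))
      (fun m => C (gl q m) * (Hh q e m * Hh q e' m)) l =
      C (w0 q l) * (ia q e (Ul q l) * ia q e' (hl K l)) := by
  have h := pair_scale (fun m m' => ia q e (uu q m m')) (Hh q e)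
    (fun m => C (gl q m) * Hh q e' m) l
  rw [List.prod_map_mul, ← C_w0, ← ia_hl, ← ia_Ul] at h
  refine (pair_congr (fun m _ m' _ => ?_) fun m _ => ?_).trans (h.trans ?_)
  · rw [C_mul]; ring
  · ring
  · ring

lemma pair_W (q : K) (l : List ℕ) :
    pair (fun m m' => C (gl q m * gl q m' * ew q m m') *
        (Hh q Sum.inl m * Hh q Sum.inl m' * (Hh q Sum.inr m * Hh q Sum.inr m')))
      (fun m => C (gl q m) * (Hh q Sum.inl m * Hh q Sum.inr m)) l =
      C (w1 q l) * (ia q Sum.inl (hl K l) * ia q Sum.inr (hl K l)) := by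
  have h := pair_scale (fun m m' => (C (gl q m * gl q m' * ew q m m') : AA K))
    (fun m => C (gl q m)) (fun m => Hh q Sum.inl m * Hh q Sum.inr m) l
  rw [List.prod_map_mul, ← ia_hl, ← ia_hl,
    ← map_pair (C : K →+* AA K) (fun m m' => gl q m * gl q m' * ew q m m') (gl q) l] at h
  refine (pair_congr (fun m _ m' _ => ?_) fun m _ => rfl).trans h
  ring

end X76

open X76 in
theorem st_B1 (hSO : St_SO) (hB0 : St_B0) : St_B1 := by
  intro K _ _ q
  have g0 : gl q 0 = 1 := by simp [gl]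
  obtain ⟨h0, hs, δ, h1⟩ := hB0 K (AA K) (MS q (gl q)) (MI q (gl q)) (Bt q)
    (by simp [MS, g0]) (MS_mul_MI q g0) (Bt_symm q) (Bt_zero q) (ph q) (ga q)
    (fun k => by rw [ph, aeval_X]; rfl) (fun k l => rfl)
  have h0' : ∀ m, ph q (hh K m) = C (gl q m) * (Hh q Sum.inl m * Hh q Sum.inr m) := fun m => by
    rw [h0, MS, PowerSeries.coeff_mk]
  refine ⟨hs, δ, fun n l hl' => ⟨?_, ?_⟩⟩
  · rw [C_w0, ia_hl, ia_hl, ← List.prod_map_mul, ← List.prod_map_mul, hl, map_list_prod,
      List.map_map]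
    exact congrArg _ (List.map_congr_left fun m _ => h0' m)
  have h2 := (hSO K (AA K) n (ph q) δ (ga q) hs).1 (hh K) l
  have h3 : one (fun m => P1 n (ph q) δ (ga q) (hh K m)) (fun m => ph q (hh K m)) l = 0 := by
    rw [one_congr (g' := fun _ => 0) (a' := fun m => ph q (hh K m))
      (fun m hm => (h1 n m (hl' m hm)).1) (fun _ _ => rfl), one_zero]
  have hu : ∀ m m', ph q (uu q m m') =
      ∑ l ∈ range (min m m'), C (cw q (m - l) (m' - l)) * (Mm q l * Mm q (m + m' - l)) :=
    fun m m' => by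
      rw [uu, map_sum]
      refine sum_congr rfl fun i _ => ?_
      rw [map_smul, map_mul, h0', h0', smul_eq_C_mul]
      rfl
  have h4 : pair (fun m m' => Ga n (ph q) (ga q) (hh K m) (hh K m')) (fun m => ph q (hh K m)) l =
      pair (fun m m' => ph q (uu q m m') -
        (C (gl q m * gl q m') *
            (ia q Sum.inl (uu q m m') * (Hh q Sum.inr m * Hh q Sum.inr m')) +
          C (gl q m * gl q m') *
            (ia q Sum.inr (uu q m m') * (Hh q Sum.inl m * Hh q Sum.inl m'))) +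
        C (gl q m * gl q m' * ew q m m') *
          (Hh q Sum.inl m * Hh q Sum.inl m' * (Hh q Sum.inr m * Hh q Sum.inr m')))
        (fun m => ph q (hh K m)) l :=
    pair_congr (fun m hm m' hm' => by
      rw [(h1 n m (hl' m hm)).2 m' (hl' m' hm'), hu, Bt]; ring) (fun _ _ => rfl)
  have h5 := pair_U q Sum.inl Sum.inr l
  have h6 := pair_U q Sum.inr Sum.inl l
  have h7 : ph q (Ul q l) = pair (fun m m' => ph q (uu q m m')) (fun m => ph q (hh K m)) l := by
    rw [Ul, map_pair]
  have h8 := pair_W q l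
  simp only [mul_comm (Hh q Sum.inr _) (Hh q Sum.inl _), ← h0'] at h6
  simp only [← h0'] at h5 h8
  rw [show P1 n (ph q) δ (ga q) (hl K l) = _ from h2, h3, h4, pair_add, pair_sub, pair_add, h5, h6,
    h7, h8]
  ring

end MJS
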