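import Pool.Agent.Lib.MP_9c49f6_co.S_Kit

/-! Row CC: duality of `xq` and `P`, and the coefficients in terms of `FC`. -/

namespace MJS
open MJ MJT MJC Finset MvPolynomial

namespace CC84
open LIM15
variable {F : Type} [Field F] [CharZero F] {n : ℕ}

lemma zqt_ne {q t : F} (hi : Indep q t) (μ : n.Partition) : zqt q t μ ≠ 0 := by
  rw [zqt]
  exact mul_ne_zero (zz_ne μ) (mprod_ne μ fun i h =>
    div_ne_zero (pow_ne hi.q_pow_ne h) (pow_ne hi.t_pow_ne h))

lemma zz_xq (q t : F) (P : n.Partition → n.Partition → F) (l μ : n.Partition) :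
    zz μ * xq q t P l μ = zqt q t μ * P l μ / scal q t (P l) (P l) := by
  have h1 := zz_ne (F := F) μ
  rw [xq, ← div_div, mul_div_cancel₀ _ h1]

lemma dual {q t : F} (hi : Indep q t) (l k : n.Partition) :
    ∑ π, zz π * xq q t (mac hi) l π * mac hi k π = if l = k then 1 else 0 := by
  have h3 := mac_norm hi l
  rw [ip_Th] at h3
  have h : ∑ π, zz π * xq q t (mac hi) l π * mac hi k π =
      scal q t (mac hi l) (mac hi k) / scal q t (mac hi l) (mac hi l) := by
    rw [scal, sum_div]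
    refine sum_congr rfl fun π _ => ?_
    rw [zz_xq]
    ring
  rw [h]
  split_ifs with e
  · subst e
    exact div_self h3
  · rw [(isMac_mac hi).orth l k e, zero_div]

omit [CharZero F] in
lemma gam_eq (q t : F) (P : n.Partition → n.Partition → F) (l : n.Partition) :
    ∑ μ, xq q t P l μ * (μ.parts.map fun i => (1 - q ^ i)⁻¹).prod =
      ∑ μ, zqt q t μ * P l μ / scal q t (P l) (P l) *
        (zz μ * (μ.parts.map fun i => 1 - q ^ i).prod)⁻¹ := by
  refine sum_congr rfl fun μ _ => ?_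
  rw [Multiset.prod_map_inv, xq, mul_inv, ← div_div, div_eq_mul_inv _ (zz μ : F), mul_assoc]

end CC84
open CC84 LIM15

theorem st_CC : St_CC := by
  intro F _ _ q t θ hi e n
  classical
  refine ⟨dual hi, fun π μ ν => ?_⟩
  have ht1 := sub_ne_zero.mpr hi.t_ne_one
  have hθ : θ ≠ 0 := left_ne_zero_of_mul (e ▸ ht1)
  have hq1 : 1 - q ≠ 0 := by simpa using pow_ne hi.q_pow_ne one_pos
  set x : n.Partition → n.Partition → F :=
    fun μ l => zqt q t μ * mac hi l μ / scal q t (mac hi l) (mac hi l) with hx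
  set Γ : n.Partition → F :=
    fun l => ∑ μ, x μ l * (zz μ * (μ.parts.map fun i => 1 - q ^ i).prod)⁻¹ with hΓ
  have zne : ∀ μ : n.Partition, zqt q t μ ≠ 0 := zqt_ne hi
  have e2 : θ ^ n * cco q t (mac hi) π μ ν = zqt q t π / (zqt q t μ * zqt q t ν) *
      ∑ l, q ^ nCol l * t⁻¹ ^ nRow l / (Γ l * (1 - q) ^ n) * x μ l * x ν l * mac hi l π := by
    rw [cco, mul_left_comm, div_mul_eq_mul_div, mul_div_assoc, mul_sum, sum_div]
    congr 1
    refine sum_congr rfl fun l _ => ?_
    have h1 : Γ l * _ = _ := gam hi l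
    have h2 : scal q t (Jc q t (mac hi) l) (Jc q t (mac hi) l) =
        (cArm q t l / (1 - t) ^ n) ^ 2 * scal q t (mac hi l) (mac hi l) := by
      simp only [scal, Jc, mul_sum]; exact sum_congr rfl fun _ _ => by ring
    have h3 := mac_norm hi l
    rw [ip_Th] at h3
    have h4 := hi.t_ne
    have h5 := h1 ▸ pow_ne_zero (nRow l) h4
    have h6 := left_ne_zero_of_mul h5
    have h7 := left_ne_zero_of_mul (right_ne_zero_of_mul h5)
    have h8 : (1 - t) ^ n = θ ^ n * (1 - q) ^ n := by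
      rw [← mul_pow]; congr 1; linear_combination e
    have h9 := zne μ
    have h10 := zne ν
    rw [h2, Jc, Jc, Jc, h8, two_mul, pow_add, inv_pow, ← h1]
    simp only [hx]
    field_simp
  have e3 : (zz μ : F) * zz ν * ∑ l, mac hi l π * (ww q t (mac hi) l *
      (xq q t (mac hi) l μ * xq q t (mac hi) l ν)) =
      ∑ l, q ^ nCol l * t⁻¹ ^ nRow l / (Γ l * (1 - q) ^ n) * x μ l * x ν l * mac hi l π := by
    rw [mul_sum]
    refine sum_congr rfl fun l _ => ?_
    have a1 : x μ l = zz μ * xq q t (mac hi) l μ := (zz_xq q t _ l μ).symm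
    have a2 : x ν l = zz ν * xq q t (mac hi) l ν := (zz_xq q t _ l ν).symm
    have a3 : ww q t (mac hi) l = q ^ nCol l * t⁻¹ ^ nRow l / (Γ l * (1 - q) ^ n) := by
      rw [ww, gam_eq]
    rw [a1, a2, a3]
    ring
  have h1 := zz_ne (F := F) π
  have h2 := zne μ
  have h3 := zne ν
  rw [e2, ← e3, FC]
  field_simp

end MJS
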