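import Pool.Agent.Lib.MP_9c49f6_co.S_Kit

/-! Row `EP`: the recursion for `h` in the variables `y`, with positive coefficients. -/

namespace MJS
open MJ MJT MJC Finset MvPolynomial

namespace X50
variable {K : Type} [Field K]

lemma ex_PC {S : Subsemiring K} (hS : ∀ m : ℕ, (m : K)⁻¹ ∈ S) {b : ℕ → Lam K}
    (hb : ∀ k, b k ∈ PC S) (r : ℕ) : ex K b r ∈ PC S := by
  induction r using Nat.strong_induction_on with
  | _ r ih =>
    cases r with
    | zero => rw [ex_zero]; exact one_mem _
    | succ r =>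
      rw [ex_succ']
      exact smul_PC (by simpa using hS (r + 1))
        (sum_mem fun k _ => mul_mem (hb k) (ih _ (by omega)))

end X50

open X50 in
theorem st_EP : St_EP := by
  intro K _ _ s h
  have hs := h.s_ne
  set b : ℕ → Lam K := fun k => C (((k + 1 : ℕ) : K) * s) * X k with hb
  have hbP : ∀ r, ex K b r ∈ PC (cone s) := ex_PC (inv_nat_cone s) fun k =>
    mul_mem (C_PC (mul_mem (natCast_mem _ _) (s_cone s))) (X_PC k)
  refine ⟨fun m => ?_, fun m => ?_⟩
  · rw [ep, ex_succ', mul_smul_comm, mul_sum]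
    refine smul_PC (by simpa using inv_nat_cone s (m + 1)) (sum_mem fun k _ => ?_)
    rw [← mul_assoc, ← mul_assoc, ← C_mul, mul_comm _ s, inv_mul_cancel_left₀ hs]
    exact mul_mem (mul_mem (C_PC (natCast_mem _ _)) (X_PC k)) (hbP _)
  · set a : ℕ → Lam K := fun k => C (((k + 1 : ℕ) : K) / qi (1 + s) (k + 1)) * X k with ha
    have h1 : (fun k => (C (1 + s) : Lam K) ^ (k + 1) * a k) = fun k => b k + a k := by
      funext k
      rw [ha, hb, ← C_pow, ← mul_assoc, ← C_mul, ← add_mul, ← C_add]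
      congr 2
      have h2 := qi_mul s (k + 1)
      have h3 := h.qi_ne k.succ_pos
      rw [eq_sub_iff_add_eq] at h2
      rw [← h2]
      field_simp
    have h2 := P94.ex_scale (K := K) (C (1 + s) : Lam K) a (m + 1)
    rw [h1, P94.ex_add, sum_range_succ', ex_zero, one_mul, Nat.sub_zero, ← C_pow] at h2
    have h3 : (C s : Lam K) ≠ 0 := by simpa using hs
    refine mul_left_cancel₀ h3 ?_
    rw [← mul_assoc, ← C_mul, qi_mul, C_sub, C_1, sub_mul, one_mul,
      Finset.Nat.sum_antidiagonal_eq_sum_range_succ_mk, mul_sum]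
    change C ((1 + s) ^ (m + 1)) * ex K a (m + 1) - ex K a (m + 1) = _
    rw [← h2, add_sub_cancel_right]
    refine sum_congr rfl fun j _ => ?_
    rw [ep, ← mul_assoc, ← mul_assoc, ← C_mul, mul_inv_cancel₀ hs, C_1, one_mul,
      Nat.add_sub_add_right]
    rfl

end MJS
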