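import Pool.Agent.Lib.MP_9c49f6_co.S_A4

/-! Second face: the first-order expansion of the connection coefficients. -/

namespace MJS
open MJ MJT MJC Finset MvPolynomial

namespace FC57
variable {K F : Type} [Field K] [Field F] [CharZero K] [CharZero F] [Algebra K F] {n : ℕ}

lemma coeff_lin (T : Lam K →ₗ[K] AA K) {f : Lam K} (hf : f ∈ Hm K n) (D : ℕ ⊕ ℕ →₀ ℕ) :
    coeff D (T f) = ∑ π : n.Partition, coeff (dOf π) f * coeff D (T (monomial (dOf π) 1)) := by
  conv_lhs => rw [eq_sum_pm hf, map_sum, coeff_sum]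
  refine sum_congr rfl fun π _ => ?_
  rw [← smul_eq_mul, ← coeff_smul, ← map_smul, smul_monomial, smul_eq_mul, mul_one]

open Classical in
lemma coeff_ia (q : K) {f g : Lam K} (hf : f ∈ Hm K n) (hg : g ∈ Hm K n) (D : ℕ ⊕ ℕ →₀ ℕ) :
    coeff D (ia q Sum.inl f * ia q Sum.inr g) = ∑ μ : n.Partition, ∑ ν : n.Partition,
      if ASM23.dd μ ν = D then coeff (dOf μ) f * coeff (dOf ν) g * (vq q μ * vq q ν)⁻¹ else 0 := by
  rw [ia_eq q _ hf, ia_eq q _ hg, sum_mul_sum, coeff_sum]
  refine sum_congr rfl fun μ _ => ?_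
  rw [coeff_sum]
  refine sum_congr rfl fun ν _ => ?_
  rw [monomial_mul, coeff_monomial, div_mul_div_comm, div_eq_mul_inv]
  rfl

omit [CharZero F] in
open Classical in
lemma coeff_XX {q t : F} {P : n.Partition → n.Partition → F}
    (h : ∀ l k, ∑ π, zz π * xq q t P l π * P k π = if l = k then 1 else 0) (l : n.Partition)
    (D : ℕ ⊕ ℕ →₀ ℕ) : ∑ π, coeff D (XX q t P π) * xq q t P l π =
      ∑ μ : n.Partition, ∑ ν : n.Partition, if ASM23.dd μ ν = D then
        ww q t P l * (xq q t P l μ * xq q t P l ν) * (vq q μ * vq q ν)⁻¹ else 0 := by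
  have h1 : ∀ μ ν, ∑ π, FC q t P π μ ν * xq q t P l π =
      ww q t P l * (xq q t P l μ * xq q t P l ν) := fun μ ν => by
    have h2 : ∑ π, FC q t P π μ ν * xq q t P l π = ∑ k, (∑ π, zz π * xq q t P l π * P k π) *
        (ww q t P k * (xq q t P k μ * xq q t P k ν)) := by
      simp only [FC, mul_sum, sum_mul]
      rw [sum_comm]
      exact sum_congr rfl fun _ _ => sum_congr rfl fun _ _ => by ring
    simp [h2, h]
  simp only [XX, coeff_sum, coeff_monomial, sum_mul]
  rw [sum_comm]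
  refine sum_congr rfl fun μ _ => ?_
  rw [sum_comm]
  refine sum_congr rfl fun ν _ => ?_
  split_ifs
  · rw [← h1, sum_mul]
    exact sum_congr rfl fun _ _ => by ring
  · simp

omit [CharZero K] in
lemma ph_pv (q : K) {k : ℕ} (hk : 0 < k) : ph q (pv K k) = ka q (gl q) (k - 1) := by
  rw [pv, if_neg hk.ne', ph, aeval_X]

omit [CharZero K] in
lemma ph_pm (q : K) (π : n.Partition) :
    ph q (monomial (dOf π) 1) = ((lst π).map fun k => ka q (gl q) (k - 1)).prod := by
  rw [pm_eq, map_list_prod, List.map_map]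
  exact congrArg _ (List.map_congr_left fun k hk => ph_pv q (lst_pos π k hk))

lemma lst_le (π : n.Partition) : ∀ k ∈ lst π, k ≤ n := fun k hk =>
  (List.single_le_sum (fun _ _ => Nat.zero_le _) k hk).trans (lst_sum π).le

lemma P1_pm (hSO : St_SO) (q : K) (hs : ∀ k l, ga q k l = ga q l k) (δ : ℕ → AA K)
    (π : n.Partition) : P1 n (ph q) δ (ga q) (monomial (dOf π) 1) =
      one δ (fun k => ka q (gl q) (k - 1)) (lst π) +
        pair (ga q) (fun k => ka q (gl q) (k - 1)) (lst π) := by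
  obtain ⟨h1, h2, h3⟩ := hSO K (AA K) n (ph q) δ (ga q) hs
  rw [pm_eq, h1, one_congr (fun m hm => h2 m (lst_pos π m hm) (lst_le π m hm))
      fun m hm => ph_pv q (lst_pos π m hm),
    pair_congr (fun m hm m' hm' => h3 m m' (lst_pos π m hm) (lst_le π m hm) (lst_pos π m' hm')
      (lst_le π m' hm')) fun m hm => ph_pv q (lst_pos π m hm)]

end FC57
open FC57

theorem st_FC (hSO : St_SO) (hB : St_B1) (hA : St_A4) (hW : St_W) (hCC : St_CC) : St_FC := by
  intro K F _ _ _ _ _ s O θ q t S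
  classical
  have L := S.loc
  obtain ⟨hs, δ, hδ⟩ := hB K (1 + s)
  refine ⟨δ, fun n π D => ?_⟩
  rw [← ph_pm, ← P1_pm hSO _ hs]
  have hA' : ∀ l μ : n.Partition, Cg O θ 2 (xq q t (mac S.hi) l μ -
      (algebraMap K F (coeff (dOf μ) (hl K (lst l))) +
        θ * algebraMap K F (-coeff (dOf μ) (Ul (1 + s) (lst l))))) := fun l μ =>
    (hA K F s O θ q t S n l μ).of_eq (by rw [map_neg]; ring)
  refine L.loc (Matrix.of fun π l : n.Partition => xq q t (mac S.hi) l π)
    (Matrix.of (A457.HH K)).transpose (fun π l => ?_) ?_ 2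
    (fun π => coeff D (XX q t (mac S.hi) π) -
      (algebraMap K F (coeff D (ph (1 + s) (monomial (dOf π) 1))) + θ * algebraMap K F
        (coeff D (P1 n (ph (1 + s)) δ (ga (1 + s)) (monomial (dOf π) 1))))) (fun l => ?_) π
  · refine ((L.mono (hA' l π) one_le_two).add (Cg.self.mul_right
      (O.algebraMap_mem (-coeff (dOf π) (Ul (1 + s) (lst l)))))).of_eq ?_
    simp only [Matrix.of_apply, Matrix.transpose_apply, A457.HH]
    ring
  · rw [Matrix.det_transpose]
    exact det_tri _ A457.HH_tri A457.HH_diag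
  obtain ⟨h1, h2⟩ := hδ n (lst l) (lst_le l)
  have hh := hl_lst_Hm (K := K) l
  have hU := Ul_lst_Hm (1 + s) l
  have h3 : Cg O θ 2 (∑ π, (algebraMap K F (coeff D (ph (1 + s) (monomial (dOf π) 1))) +
      θ * algebraMap K F (coeff D (P1 n (ph (1 + s)) δ (ga (1 + s)) (monomial (dOf π) 1)))) *
        xq q t (mac S.hi) l π - (algebraMap K F (coeff D (ph (1 + s) (hl K (lst l)))) +
      θ * algebraMap K F (coeff D (P1 n (ph (1 + s)) δ (ga (1 + s)) (hl K (lst l)) -
        ph (1 + s) (Ul (1 + s) (lst l)))))) := by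
    have h4 := coeff_lin (ph (1 + s)).toLinearMap hh D
    have h5 := coeff_lin (ph (1 + s)).toLinearMap hU D
    simp only [AlgHom.toLinearMap_apply] at h4 h5
    rw [coeff_sub, h4, h5, coeff_lin _ hh D, ← sum_sub_distrib, map_sum, map_sum, mul_sum,
      ← sum_add_distrib, ← sum_sub_distrib]
    refine Cg.sum fun π _ => (L.mul_two ((Cg.zero 2).of_eq (sub_self _).symm) (hA' l π)
      (O.algebraMap_mem (coeff D (ph (1 + s) (monomial (dOf π) 1))))
      (O.algebraMap_mem (coeff D (P1 n (ph (1 + s)) δ (ga (1 + s)) (monomial (dOf π) 1))))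
      (O.algebraMap_mem _) (O.algebraMap_mem _)).of_eq ?_
    simp only [map_mul, map_sub, map_neg]
    ring
  have h4 : Cg O θ 2 (∑ π, coeff D (XX q t (mac S.hi) π) * xq q t (mac S.hi) l π -
      (algebraMap K F (coeff D (ph (1 + s) (hl K (lst l)))) +
      θ * algebraMap K F (coeff D (P1 n (ph (1 + s)) δ (ga (1 + s)) (hl K (lst l)) -
        ph (1 + s) (Ul (1 + s) (lst l)))))) := by
    rw [h1, h2, coeff_XX (hCC F q t θ S.hi S.th_q n).1, coeff_sub, coeff_C_mul, coeff_C_mul,
      coeff_C_mul, coeff_add, coeff_ia _ hh hh, coeff_ia _ hU hh, coeff_ia _ hh hU]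
    simp only [mul_sum, map_sum, ← sum_add_distrib, ← sum_sub_distrib]
    refine Cg.sum fun μ _ => Cg.sum fun ν _ => ?_
    split_ifs
    · have m := fun a : K => O.algebraMap_mem a
      refine ((L.mul_two (hW K F s O θ q t S n l) (L.mul_two (hA' l μ) (hA' l ν) (m _) (m _) (m _)
        (m _)) (m _) (m _) (mul_mem (m _) (m _))
        (add_mem (mul_mem (m _) (m _)) (mul_mem (m _) (m _)))).mul_right
        (m (vq (1 + s) μ * vq (1 + s) ν)⁻¹)).of_eq ?_
      simp only [map_mul, map_sub, map_add, map_neg, map_inv₀, S.vq_q]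
      ring
    · simpa using Cg.zero 2
  refine (h4.sub h3).of_eq ?_
  simp only [Matrix.of_apply, sub_mul, sum_sub_distrib]
  ring

end MJS
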