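import Pool.Agent.Lib.MP_9c49f6_co.SBlue

/-! Commutation rules of `Dq = (D_x - D_y)/(x - y)`. -/

namespace MJS.X63
open MJ Finset

variable {K : Type} [Field K] {R : Type} [CommRing R] [Algebra K R]

lemma qi_zero (q : K) : qi q 0 = 0 := by simp [qi]
lemma qi_succ (q : K) (n : ℕ) : qi q (n + 1) = 1 + q * qi q n := by
  rw [qi, sum_range_succ', qi, mul_sum, pow_zero, add_comm]
  exact congrArg _ (sum_congr rfl fun j _ => pow_succ' q j)
lemma qi_succ' (q : K) (n : ℕ) : qi q (n + 1) = qi q n + q ^ n := sum_range_succ _ _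

lemma Dq_zero (q : K) (φ : ℕ → ℕ → R) (d : ℕ) :
    Dq q φ d 0 = qi q (d + 2) • φ (d + 2) 0 - qi q 1 • φ d 1 := by
  simp [Dq]

lemma Dq_succ (q : K) (φ : ℕ → ℕ → R) (d b : ℕ) :
    Dq q φ d (b + 1) = Dq q φ (d + 2) b +
      (qi q (d + b + 3) • φ (d + 2) (b + 1) - qi q (b + 2) • φ d (b + 2)) := by
  rw [Dq, sum_range_succ, Dq]
  refine congrArg₂ (· + ·) (sum_congr rfl fun j hj => ?_) ?_
  · have := mem_range.1 hj
    rw [show d + 2 * (b + 1) + 2 - j = d + 2 + 2 * b + 2 - j by omega,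
      show d + 2 * (b + 1 - j) = d + 2 + 2 * (b - j) by omega]
  · rw [show d + 2 * (b + 1) + 2 - (b + 1) = d + b + 3 by omega, Nat.sub_self, mul_zero, add_zero]

lemma Dq_eq (q : K) (φ ψ : ℕ → ℕ → R)
    (h0 : ∀ d, ψ d 0 = qi q (d + 2) • φ (d + 2) 0 - qi q 1 • φ d 1)
    (h1 : ∀ d b, ψ d (b + 1) = ψ (d + 2) b +
      (qi q (d + b + 3) • φ (d + 2) (b + 1) - qi q (b + 2) • φ d (b + 2))) : Dq q φ = ψ := by
  funext d b
  induction b generalizing d with
  | zero => rw [Dq_zero, h0]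
  | succ b ih => rw [Dq_succ, h1, ih]

lemma Dq_add (q : K) (φ ψ : ℕ → ℕ → R) : Dq q (φ + ψ) = Dq q φ + Dq q ψ := by
  funext d b
  simp only [Dq, Pi.add_apply, ← sum_add_distrib]
  exact sum_congr rfl fun j _ => by module

lemma Dq_smul (q c : K) (φ : ℕ → ℕ → R) : Dq q (c • φ) = c • Dq q φ := by
  funext d b
  simp only [Dq, Pi.smul_apply, smul_sum]
  exact sum_congr rfl fun j _ => by module

lemma R3 (q : K) (φ : ℕ → ℕ → R) : Dq q (Mxy φ) = q • Mxy (Dq q φ) - φ := by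
  refine Dq_eq q _ _ (fun d => ?_) (fun d b => ?_)
  · simp [Mxy, qi_succ, qi_zero]
  · rcases b with _ | b
    · simp only [Mxy, Pi.sub_apply, Pi.smul_apply, Nat.succ_ne_zero,
        if_false, if_true, Dq_zero, Nat.add_one_sub_one, zero_add, add_zero]
      rw [qi_succ q (d + 2), qi_succ q 1, qi_succ q 0, qi_zero]
      module
    · simp only [Mxy, Pi.sub_apply, Pi.smul_apply, Nat.succ_ne_zero,
        if_false, Dq_succ, Nat.add_one_sub_one]
      rw [show d + (b + 1) + 3 = d + b + 3 + 1 by ring, qi_succ q (d + b + 3), qi_succ q (b + 2)]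
      module

lemma R2 (q : K) (φ : ℕ → ℕ → R) : Dq q (Dxy q φ) = q • Dxy q (Dq q φ) - Dq q (Dq q φ) := by
  refine Dq_eq q _ _ (fun d => ?_) (fun d b => ?_)
  · simp only [Dxy, Pi.sub_apply, Pi.smul_apply, Dq_zero q (Dq q φ), Dq_succ q φ d 0, add_zero,
      zero_add]
    rw [show d + 1 + 1 = d + 2 by ring, show d + 2 + 1 = d + 3 by ring, qi_succ q (d + 1),
      qi_succ q 0, qi_zero]
    module
  · simp only [Dxy, Pi.sub_apply, Pi.smul_apply, Dq_succ q (Dq q φ), Dq_succ q φ d (b + 1)]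
    rw [show d + (b + 1) + 1 = d + b + 2 by ring, show d + 2 + b + 1 = d + b + 3 by ring,
      show d + 2 + (b + 1) + 1 = d + (b + 1) + 3 by ring,
      show d + (b + 2) + 1 = d + b + 3 by ring, qi_succ q (d + b + 2), qi_succ q (b + 1)]
    module

lemma R1 (s : K) (φ : ℕ → ℕ → R) : Dq (1 + s) (Eq' (1 + s) φ) =
    (1 + s) ^ 2 • Eq' (1 + s) (Dq (1 + s) φ) + (2 + s) • Dq (1 + s) φ + s • Dxy (1 + s) φ +
      ((1 + s) * s) • Mxy (Dq (1 + s) (Dq (1 + s) φ)) := by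
  refine Dq_eq _ _ _ (fun d => ?_) (fun d b => ?_)
  · simp only [Eq', Dxy, Mxy, Pi.add_apply, Pi.smul_apply, Dq_zero, if_true, add_zero, zero_add]
    rw [qi_succ _ (d + 1), qi_succ _ d, qi_succ _ 0, qi_zero]
    module
  · have e : Dq (1 + s) (Dq (1 + s) φ) d b = Mxy (Dq (1 + s) (Dq (1 + s) φ)) (d + 2) b +
        (qi (1 + s) (d + b + 2) • Dq (1 + s) φ (d + 2) b -
          qi (1 + s) (b + 1) • Dq (1 + s) φ d (b + 1)) := by
      rcases b with _ | b
      · simp [Mxy, Dq_zero]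
      · rw [Dq_succ]; simp only [Mxy, Nat.succ_ne_zero, if_false, Nat.add_sub_cancel]; rfl
    have e2 : Mxy (Dq (1 + s) (Dq (1 + s) φ)) d (b + 1) = Dq (1 + s) (Dq (1 + s) φ) d b := by
      simp [Mxy]
    simp only [Eq', Dxy, Pi.add_apply, Pi.smul_apply, e2, e, Dq_succ _ φ d b]
    rw [show d + (b + 1) + 1 = d + b + 2 by ring, show d + 2 + b + 1 = d + b + 3 by ring,
      show d + 2 + (b + 1) = d + b + 3 by ring, show d + (b + 2) = d + b + 2 by ring,
      show d + 2 + b = d + b + 2 by ring, show d + (b + 1) = d + b + 1 by ring,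
      qi_succ _ (d + b + 2), qi_succ _ (d + b + 1), qi_succ _ (b + 1), qi_succ _ b]
    module

lemma Eq_fun (q : K) (k : ℕ) (φ : ℕ → ℕ → R) :
    (Dq q)^[k + 1] φ = Dq q ((Dq q)^[k] φ) := Function.iterate_succ_apply' _ _ _

end MJS.X63

namespace MJS
open X63

theorem st_FI1 : St_FI1 := by
  intro K _ s k
  suffices h : ∃ c : K, ∀ (R : Type) [CommRing R] [Algebra K R] (φ : ℕ → ℕ → R),
      (Dq (1 + s))^[k + 1] (Eq' (1 + s) φ) =
        (1 + s) ^ (2 * (k + 1)) • Eq' (1 + s) ((Dq (1 + s))^[k + 1] φ) +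
          c • (Dq (1 + s))^[k + 1] φ +
          (s * (1 + s) ^ k * MJ.qi (1 + s) (k + 1)) • Dxy (1 + s) ((Dq (1 + s))^[k] φ) +
          (s * (1 + s) ^ (k + 1) * MJ.qi (1 + s) (k + 1)) • Mxy ((Dq (1 + s))^[k + 2] φ) by
    obtain ⟨c, hc⟩ := h
    exact ⟨c, fun R _ _ φ d b => congrFun (congrFun (hc R φ) d) b⟩
  induction k with
  | zero =>
    refine ⟨2 + s, fun R _ _ φ => ?_⟩
    simp only [Eq_fun, Function.iterate_zero_apply, zero_add]
    rw [R1, qi_succ, qi_zero]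
    module
  | succ k ih =>
    obtain ⟨c, hc⟩ := ih
    refine ⟨(1 + s) ^ (2 * (k + 1)) * (2 + s) + c - s * (1 + s) ^ k * MJ.qi (1 + s) (k + 1) -
      s * (1 + s) ^ (k + 1) * MJ.qi (1 + s) (k + 1), fun R _ _ φ => ?_⟩
    rw [Eq_fun _ (k + 1) (Eq' (1 + s) φ), hc, Dq_add, Dq_add, Dq_add, Dq_smul, Dq_smul, Dq_smul,
      Dq_smul, R1, R2, R3, qi_succ' _ (k + 1)]
    simp only [← Eq_fun]
    module

end MJS
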