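import Pool.Agent.Lib.MP_9c49f6_co.S_FI1

/-! The `q`-Fischer identity. -/

namespace MJS.X63
open MJ Finset

variable {K : Type} [Field K] {R : Type} [CommRing R] [Algebra K R]

lemma qi_add (q : K) (a b : ℕ) : qi q (a + b) = qi q a + q ^ a * qi q b := by
  induction b with
  | zero => simp [qi_zero]
  | succ b ih => rw [← add_assoc, qi_succ', qi_succ', ih, pow_add]; ring

lemma qi_pow (s : K) (a : ℕ) : (1 + s) ^ a = 1 + s * qi (1 + s) a := by
  induction a with
  | zero => simp [qi_zero]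
  | succ a ih => rw [pow_succ, qi_succ, ih]; ring

lemma qi_ne {s : K} (h : Gen s) {k : ℕ} (hk : 0 < k) : qi (1 + s) k ≠ 0 := by
  obtain ⟨k, rfl⟩ : ∃ j, k = j + 1 := ⟨k - 1, by omega⟩
  intro h0
  exact h.2 k (by rw [qi_pow, h0, mul_zero, add_zero])

lemma s_ne {s : K} (h : Gen s) : s ≠ 0 := fun h0 => h.2 0 (by simp [h0])

lemma qf_succ (q : K) (m : ℕ) : qf q (m + 1) = qf q m * qi q (m + 1) := prod_range_succ _ _

lemma qf_ne {s : K} (h : Gen s) (m : ℕ) : qf (1 + s) m ≠ 0 :=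
  prod_ne_zero_iff.2 fun j _ => qi_ne h j.succ_pos

lemma it_add (q : K) (k : ℕ) (φ ψ : ℕ → ℕ → R) :
    (Dq q)^[k] (φ + ψ) = (Dq q)^[k] φ + (Dq q)^[k] ψ := by
  induction k with
  | zero => rfl
  | succ k ih => simp only [Eq_fun, ih, Dq_add]

lemma it_smul (q c : K) (k : ℕ) (φ : ℕ → ℕ → R) : (Dq q)^[k] (c • φ) = c • (Dq q)^[k] φ := by
  induction k with
  | zero => rfl
  | succ k ih => simp only [Eq_fun, ih, Dq_smul]

lemma it_loc (q : K) (d0 N k : ℕ) (φ : ℕ → ℕ → R)
    (h : ∀ d b, d0 ≤ d → d + 2 * b = N → φ d b = 0) :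
    ∀ d b, d0 ≤ d → d + 2 * b + 2 * k = N → (Dq q)^[k] φ d b = 0 := by
  induction k with
  | zero => exact fun d b h1 h2 => h d b h1 (by omega)
  | succ k ih =>
    intro d b h1 h2
    rw [Eq_fun, Dq]
    refine sum_eq_zero fun j hj => ?_
    have := mem_range.1 hj
    rw [ih _ _ (by omega) (by omega), ih _ _ (by omega) (by omega), smul_zero, smul_zero, sub_zero]

/-- the difference of the two sides -/
def Del (q : K) (d b : ℕ) (φ ψ : ℕ → ℕ → R) : R :=
  ∑ k ∈ range b, (qf q (d + b - (k + 1)) * qf q (b - (k + 1)) / qi q (k + 1)) •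
      ((Dq q)^[k + 1] φ d (b - (k + 1)) * (Dq q)^[k + 1] ψ d (b - (k + 1))) -
    ∑ l ∈ range b, (cw q (d + b - l) (b - l) * gN q (d + 2 * b) l) •
      (et q φ d b l * et q ψ d b l)

lemma Del_symm (q : K) (d b : ℕ) (φ ψ : ℕ → ℕ → R) : Del q d b φ ψ = Del q d b ψ φ := by
  simp only [Del, mul_comm]

lemma Del_lin (q : K) (d b : ℕ) (ψ : ℕ → ℕ → R) :
    IsLinearMap K fun φ : ℕ → ℕ → R => Del q d b φ ψ := by
  constructor
  · intro φ φ'
    simp only [Del, it_add, et, Pi.add_apply]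
    rw [sub_add_sub_comm, ← sum_add_distrib, ← sum_add_distrib]
    refine congrArg₂ (· - ·) (sum_congr rfl fun k _ => ?_) (sum_congr rfl fun k _ => ?_)
    · rw [add_mul, smul_add]
    · rw [← smul_add, ← add_mul, smul_add _ (φ d b), add_sub_add_comm]
  · intro c φ
    simp only [Del, it_smul, et, Pi.smul_apply, smul_sub, smul_sum]
    refine congrArg₂ (· - ·) (sum_congr rfl fun k _ => ?_) (sum_congr rfl fun k _ => ?_)
    · rw [smul_mul_assoc, smul_comm]
    · rw [smul_comm _ c, ← smul_sub, smul_mul_assoc, smul_comm]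

lemma Del_loc (q : K) (d b : ℕ) (φ ψ : ℕ → ℕ → R)
    (h : ∀ d' b', d ≤ d' → d' + 2 * b' = d + 2 * b → φ d' b' = 0) : Del q d b φ ψ = 0 := by
  rw [Del, sum_eq_zero, sum_eq_zero, sub_zero]
  · intro l hl
    have := mem_range.1 hl
    rw [et, h _ _ (by omega) (by omega), h _ _ le_rfl rfl, smul_zero, sub_zero, zero_mul, smul_zero]
  · intro k hk
    have := mem_range.1 hk
    rw [it_loc q d _ _ φ h _ _ le_rfl (by omega), zero_mul, smul_zero]

lemma Del_comm (hF : St_FI1) {s : K} (h : Gen s) (d b : ℕ) (φ ψ : ℕ → ℕ → R) :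
    Del (1 + s) d b (Eq' (1 + s) φ) ψ = Del (1 + s) d b φ (Eq' (1 + s) ψ) := by
  set q := 1 + s with hq
  let Y : ℕ → R := fun k => if k < b then (s * q ^ k * (qf q (d + b - k) * qf q (b - k))) •
    ((Dq q)^[k] φ d (b - k) * (Dq q)^[k + 1] ψ d (b - (k + 1)) -
      (Dq q)^[k + 1] φ d (b - (k + 1)) * (Dq q)^[k] ψ d (b - k)) else 0
  have h1 : ∀ k ∈ range b, (qf q (d + b - (k + 1)) * qf q (b - (k + 1)) / qi q (k + 1)) •
      ((Dq q)^[k + 1] (Eq' q φ) d (b - (k + 1)) * (Dq q)^[k + 1] ψ d (b - (k + 1))) -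
      (qf q (d + b - (k + 1)) * qf q (b - (k + 1)) / qi q (k + 1)) •
      ((Dq q)^[k + 1] φ d (b - (k + 1)) * (Dq q)^[k + 1] (Eq' q ψ) d (b - (k + 1))) =
      Y k - Y (k + 1) := by
    intro k hk
    obtain ⟨e, rfl⟩ : ∃ e, b = k + 1 + e := ⟨b - (k + 1), by have := mem_range.1 hk; omega⟩
    obtain ⟨c, hc⟩ := hF K s k
    have hn : qi q (k + 1) ≠ 0 := qi_ne h k.succ_pos
    obtain ⟨w, hw⟩ : ∃ w, w = (qi q (k + 1))⁻¹ := ⟨_, rfl⟩
    have hw' : qi q (k + 1) * w = 1 := by rw [hw, mul_inv_cancel₀ hn]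
    have e1 : Y (k + 1) = (s * q ^ (k + 1) * (qf q (d + e) * qf q e)) •
        ((Dq q)^[k + 1] φ d e * Mxy ((Dq q)^[k + 2] ψ) d e -
          Mxy ((Dq q)^[k + 2] φ) d e * (Dq q)^[k + 1] ψ d e) := by
      rcases e with _ | e
      · simp [Y, Mxy]
      · simp only [Y, Mxy, Nat.succ_ne_zero, if_false, Nat.add_sub_cancel]
        rw [if_pos (by omega), show d + (k + 1 + (e + 1)) - (k + 1) = d + (e + 1) by omega,
          show k + 1 + (e + 1) - (k + 1) = e + 1 by omega,
          show k + 1 + (e + 1) - (k + 1 + 1) = e by omega]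
    rw [e1]
    simp only [Y]
    rw [if_pos (by omega), hc, hc, ← hq, show d + (k + 1 + e) - (k + 1) = d + e by omega,
      show k + 1 + e - (k + 1) = e by omega, show d + (k + 1 + e) - k = d + e + 1 by omega,
      show k + 1 + e - k = e + 1 by omega, qf_succ, qf_succ, div_eq_mul_inv, ← hw]
    simp only [Eq', Dxy, Algebra.smul_def, map_mul, map_add, map_pow]
    have hw2 := congrArg (algebraMap K R) hw'
    rw [map_mul, map_one] at hw2
    linear_combination (algebraMap K R (qf q (d + e)) * algebraMap K R (qf q e) *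
      algebraMap K R s * algebraMap K R q ^ k *
      (algebraMap K R (qi q (d + e + 1)) * algebraMap K R (qi q (e + 1)) *
        ((Dq q)^[k] φ d (e + 1) * (Dq q)^[k + 1] ψ d e -
          (Dq q)^[k + 1] φ d e * (Dq q)^[k] ψ d (e + 1)) -
        algebraMap K R q * ((Dq q)^[k + 1] φ d e * Mxy ((Dq q)^[k + 2] ψ) d e -
          Mxy ((Dq q)^[k + 2] φ) d e * (Dq q)^[k + 1] ψ d e))) * hw2
  have h2 : ∀ l ∈ range b, (cw q (d + b - l) (b - l) * gN q (d + 2 * b) l) •
      (et q (Eq' q φ) d b l * et q ψ d b l) - (cw q (d + b - l) (b - l) * gN q (d + 2 * b) l) •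
      (et q φ d b l * et q (Eq' q ψ) d b l) =
      (s * (qf q (d + b) * qf q b) * (qi q (d + 2 * b - l) - qi q l)) •
        (φ d b * ψ (d + 2 * (b - l)) l - φ (d + 2 * (b - l)) l * ψ d b) := by
    intro l hl
    obtain ⟨i, rfl⟩ : ∃ e, b = l + e := ⟨b - l, by have := mem_range.1 hl; omega⟩
    have hi : 0 < i := by have := mem_range.1 hl; omega
    have hg : gN q (d + 2 * (l + i)) l ≠ 0 := mul_ne_zero (qf_ne h _) (qf_ne h _)
    have n1 : qi q i ≠ 0 := qi_ne h hi
    have n2 : qi q (d + i) ≠ 0 := qi_ne h (by omega)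
    have key : cw q (d + (l + i) - l) (l + i - l) * gN q (d + 2 * (l + i)) l *
        (qf q (d + (l + i)) * qf q (l + i) / gN q (d + 2 * (l + i)) l) *
        (qi q (d + 2 * (l + i - l) + l) + qi q l - (qi q (d + (l + i)) + qi q (l + i))) =
        s * (qf q (d + (l + i)) * qf q (l + i)) * (qi q (d + 2 * (l + i) - l) - qi q l) := by
      generalize qf q (d + (l + i)) * qf q (l + i) = g
      generalize gN q (d + 2 * (l + i)) l = G at hg
      rw [show d + (l + i) - l = d + i by omega, Nat.add_sub_cancel_left,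
        show d + 2 * i + l = l + ((d + i) + i) by ring,
        show d + 2 * (l + i) - l = l + ((d + i) + i) by omega,
        show d + (l + i) = l + (d + i) by ring, qi_add q l, qi_add q l, qi_add q l,
        qi_add q (d + i) i, hq, qi_pow s (d + i), ← hq, cw]
      field_simp
      rw [hq]; ring
    rw [← key]
    simp only [et, Eq', Algebra.smul_def, map_mul, map_add, map_sub]
    ring
  rw [← sub_eq_zero, Del, Del, sub_sub_sub_comm, ← sum_sub_distrib, ← sum_sub_distrib,
    sum_congr rfl h1, sum_congr rfl h2, sum_range_sub', sub_eq_zero]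
  rcases b with _ | b
  · simp [Y]
  · have e : ∀ φ : ℕ → ℕ → R, Dq q φ d b =
        ∑ l ∈ range (b + 1), (qi q (d + 2 * (b + 1) - l) - qi q l) • φ (d + 2 * (b + 1 - l)) l -
          qi q (b + 1) • φ d (b + 1) := by
      intro φ
      have e3 : ∑ j ∈ range (b + 1), qi q (j + 1) • φ (d + 2 * (b - j)) (j + 1) =
          ∑ l ∈ range (b + 1), qi q l • φ (d + 2 * (b + 1 - l)) l + qi q (b + 1) • φ d (b + 1) := by
        have := sum_range_succ' (fun l => qi q l • φ (d + 2 * (b + 1 - l)) l) (b + 1)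
        rw [sum_range_succ, qi_zero, zero_smul, add_zero, Nat.sub_self, mul_zero, add_zero] at this
        rw [this]
        exact sum_congr rfl fun j _ => by rw [Nat.add_sub_add_right]
      rw [Dq, sum_sub_distrib, e3]
      simp only [sub_smul, sum_sub_distrib]
      rw [sub_sub]
      refine congrArg₂ (· - ·) (sum_congr rfl fun j hj => ?_) rfl
      have := mem_range.1 hj
      rw [show d + 2 * (b - j) + 2 = d + 2 * (b + 1 - j) by omega, mul_add, add_assoc]
    simp only [Y, lt_irrefl, if_false, Nat.succ_pos, if_true, zero_add, Function.iterate_one,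
      Function.iterate_zero_apply, Nat.sub_zero, Nat.add_sub_cancel, pow_zero, mul_one, sub_zero, e]
    simp only [mul_smul _ (qi q _ - qi q _), ← smul_sum]
    refine congrArg _ ?_
    simp only [smul_sub, sum_sub_distrib, mul_sub, sub_mul, mul_sum, sum_mul, mul_smul_comm,
      smul_mul_assoc]
    abel

/-- the entry of `φ` at the point `l` of the line -/
def part (d b l : ℕ) (φ : ℕ → ℕ → R) (d' b' : ℕ) : R :=
  if d' = d + 2 * (b - l) ∧ b' = l then φ d' b' else 0

lemma Del_sum (q : K) (d b : ℕ) (φ ψ : ℕ → ℕ → R) :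
    Del q d b φ ψ = ∑ l ∈ range (b + 1), Del q d b (part d b l φ) ψ := by
  have e := map_sum (IsLinearMap.mk' _ (Del_lin q d b ψ)) (fun l => part d b l φ) (range (b + 1))
  have e2 := (Del_lin q d b ψ).map_sub φ (∑ l ∈ range (b + 1), part d b l φ)
  simp only [IsLinearMap.mk'_apply] at e e2
  rw [← e, ← sub_eq_zero, ← e2]
  refine Del_loc _ _ _ _ _ fun d' b' h1 h2 => ?_
  rw [Pi.sub_apply, Pi.sub_apply, Finset.sum_apply, Finset.sum_apply, sum_eq_single b', part,
    if_pos ⟨by omega, rfl⟩, sub_self]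
  · intro l _ hl; exact if_neg fun h => hl h.2.symm
  · intro hb; exact absurd (mem_range.2 (by omega)) hb

lemma Del_off (hF : St_FI1) {s : K} (h : Gen s) (d b : ℕ) (φ ψ : ℕ → ℕ → R) {l l' : ℕ}
    (hl : l < l') (hl' : l' ≤ b) : Del (1 + s) d b (part d b l φ) (part d b l' ψ) = 0 := by
  have e : ∀ (l : ℕ) (φ : ℕ → ℕ → R), Eq' (1 + s) (part d b l φ) =
      (qi (1 + s) (d + 2 * (b - l) + l) + qi (1 + s) l) • part d b l φ := by
    intro l φ
    funext d' b'
    simp only [Eq', part, Pi.smul_apply]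
    split_ifs with h1
    · rw [h1.1, h1.2]
    · rw [smul_zero, smul_zero]
  have h1 := Del_comm hF h d b (part d b l φ) (part d b l' ψ)
  rw [e, e, (Del_lin _ d b _).map_smul, Del_symm _ d b _ (_ • _), (Del_lin _ d b _).map_smul,
    Del_symm _ d b (part d b l' ψ), ← sub_eq_zero, ← sub_smul] at h1
  obtain ⟨i, rfl⟩ : ∃ i, l' = l + i := ⟨l' - l, by omega⟩
  obtain ⟨j, rfl⟩ : ∃ j, b = l + i + j := ⟨b - (l + i), by omega⟩
  have hne : qi (1 + s) (d + 2 * (l + i + j - l) + l) + qi (1 + s) l -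
      (qi (1 + s) (d + 2 * (l + i + j - (l + i)) + (l + i)) + qi (1 + s) (l + i)) ≠ 0 := by
    rw [show d + 2 * (l + i + j - l) + l = l + (i + (d + i + 2 * j)) by omega,
      show d + 2 * (l + i + j - (l + i)) + (l + i) = l + (d + i + 2 * j) by omega,
      qi_add _ l, qi_add _ l, qi_add _ l, qi_add _ i, qi_pow s i]
    have : (1 + s) ^ l * s * qi (1 + s) i * qi (1 + s) (d + i + 2 * j) ≠ 0 :=
      mul_ne_zero (mul_ne_zero (mul_ne_zero (pow_ne_zero _ h.1) (s_ne h)) (qi_ne h (by omega)))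
        (qi_ne h (by omega))
    intro h0
    exact this (by linear_combination h0)
  rw [← inv_smul_smul₀ hne (Del (1 + s) d (l + i + j) _ _), h1, smul_zero]

lemma Del_base {s : K} (h : Gen s) (d b : ℕ) (r : R) (ψ : ℕ → ℕ → R) :
    Del (1 + s) d b (fun d' b' => (qf (1 + s) (d' + b') * qf (1 + s) b')⁻¹ • r) ψ = 0 := by
  have e : Dq (1 + s) (fun d' b' => (qf (1 + s) (d' + b') * qf (1 + s) b')⁻¹ • r) = 0 := by
    funext d b
    refine sum_eq_zero fun j hj => ?_
    have := mem_range.1 hj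
    beta_reduce
    rw [show d + 2 * b + 2 - j = d + 2 * (b - j) + (j + 1) + 1 by omega,
      show d + 2 * (b - j) + 2 + j = d + 2 * (b - j) + (j + 1) + 1 by omega, qf_succ, qf_succ _ j,
      smul_smul, smul_smul, ← sub_smul]
    have n1 := qi_ne h (d + 2 * (b - j) + (j + 1)).succ_pos
    have n2 := qi_ne h j.succ_pos
    have n3 := qf_ne h (d + 2 * (b - j) + (j + 1))
    have n4 := qf_ne h j
    rw [sub_eq_zero.2 (by field_simp), zero_smul]
  rw [Del, sum_eq_zero, sum_eq_zero, sub_zero]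
  · intro l hl
    have := mem_range.1 hl
    have n3 := qf_ne h (d + b)
    have n4 := qf_ne h b
    rw [et, smul_smul, ← sub_smul, gN, show d + 2 * (b - l) + l = d + 2 * b - l by omega,
      sub_eq_zero.2 (by field_simp), zero_smul, zero_mul, smul_zero]
  · intro k _
    rw [Function.iterate_succ_apply, e, it_loc _ 0 _ k 0 (fun _ _ _ _ => rfl) _ _ (Nat.zero_le _) rfl,
      zero_mul, smul_zero]

end MJS.X63

namespace MJS
open X63 Finset

theorem st_FI2 (hF : St_FI1) : St_FI2 := by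
  intro K R _ _ _ s h φ ψ d b
  refine (sub_eq_zero.1 (?_ : Del (1 + s) d b φ ψ = 0)).symm
  have off : ∀ (φ ψ : ℕ → ℕ → R) (l l' : ℕ), l ≤ b → l' ≤ b → l ≠ l' →
      Del (1 + s) d b (part d b l φ) (part d b l' ψ) = 0 := by
    intro φ ψ l l' h1 h2 h3
    rcases lt_or_gt_of_ne h3 with h4 | h4
    · exact Del_off hF h d b φ ψ h4 h2
    · rw [Del_symm]; exact Del_off hF h d b ψ φ h4 h1
  rw [Del_symm, Del_sum]
  refine sum_eq_zero fun l hl => ?_
  have hl' : l ≤ b := by have := mem_range.1 hl; omega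
  have one : ∀ φ : ℕ → ℕ → R, Del (1 + s) d b φ (part d b l ψ) =
      Del (1 + s) d b (part d b l φ) (part d b l ψ) := fun φ => by
    rw [Del_sum, sum_eq_single l (fun l' h1 h2 => off _ _ _ _ (by have := mem_range.1 h1; omega)
      hl' h2) (fun h1 => absurd hl h1)]
  have hb := Del_base h d b ((qf (1 + s) (d + 2 * (b - l) + l) * qf (1 + s) l) •
    φ (d + 2 * (b - l)) l) (part d b l ψ)
  rw [one] at hb
  rw [Del_symm, one, ← hb]
  refine congrArg (fun x => Del (1 + s) d b x (part d b l ψ)) ?_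
  funext d' b'
  simp only [part]
  split_ifs with h1
  · rw [h1.1, h1.2, inv_smul_smul₀ (mul_ne_zero (qf_ne h _) (qf_ne h _))]
  · rfl

end MJS
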