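import Pool.Agent.Lib.MP_9c49f6_co.S_Kit

/-! Second face: the scalar identity `IQ`. -/

namespace MJS.X19
open MJ MJT MJC Finset

variable {K : Type} [Field K] {s : K}

/-- `[D+b]! [b]! / ([D+b+r]! [b-r]!)` -/
def TT (q : K) (D b : ℕ) : ℕ → K
  | 0 => 1
  | r + 1 => TT q D b r * qi q (b - r) / qi q (D + b + r + 1)

lemma TT_eq (h : Gen s) (D b r : ℕ) : ∀ l, l + r = b →
    qf (1 + s) (D + b) * qf (1 + s) b / (qf (1 + s) l * qf (1 + s) (D + b + r)) =
      TT (1 + s) D b r := by
  induction r with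
  | zero =>
    intro l hl
    have h1 := h.qf_ne (D + b)
    have h2 := h.qf_ne b
    rw [show l = b by omega, TT, add_zero]
    field_simp
  | succ r ih =>
    intro l hl
    have h1 := h.qf_ne (D + b + r)
    have h2 := h.qf_ne l
    have h3 := h.qi_ne (k := l + 1) (by omega)
    have h4 := h.qi_ne (k := D + b + r + 1) (by omega)
    rw [TT, ← ih (l + 1) (by omega), show b - r = l + 1 by omega, ← add_assoc, qf_succ, qf_succ]
    field_simp

lemma TT_step (h : Gen s) (D b r : ℕ) :
    TT (1 + s) D b r * (qi (1 + s) (D + b + 1) * qi (1 + s) (b + 1)) =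
      TT (1 + s) D (b + 1) r * (qi (1 + s) (D + b + 1 + r) * qi (1 + s) (b + 1 - r)) := by
  induction r with
  | zero => simp [TT]
  | succ r ih =>
    have h3 := h.qi_ne (k := D + b + r + 1) (by omega)
    have h4 := h.qi_ne (k := D + b + r + 2) (by omega)
    rw [TT, TT, show D + (b + 1) + r + 1 = D + b + r + 2 by omega,
      show D + b + 1 + (r + 1) = D + b + r + 2 by omega, show b + 1 - (r + 1) = b - r by omega]
    rw [show D + b + 1 + r = D + b + r + 1 by omega] at ih
    field_simp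
    linear_combination qi (1 + s) (b - r) * ih

lemma key1 (h : Gen s) (D l j : ℕ) :
    (1 + s) ^ l * qi (1 + s) (D + j + 1 + (j + 1)) * ((1 + s) ^ ((j + 1) * (D + j + 1)) - 1) =
      ((1 + s) ^ (l + j + 1 + (j + 1) * D + (j + 1) * j) - 1) *
          qi (1 + s) (D + (l + j + 1) + j + 1) -
        ((1 + s) ^ (l + j + 1 + (j + 1 + 1) * D + (j + 1 + 1) * (j + 1)) - 1) * qi (1 + s) l := by
  apply mul_left_cancel₀ h.s_ne
  have a := qi_mul s (D + j + 1 + (j + 1))
  have b := qi_mul s (D + (l + j + 1) + j + 1)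
  have c := qi_mul s l
  generalize (1 + s) = q at a b c ⊢
  linear_combination q ^ l * (q ^ ((j + 1) * (D + j + 1)) - 1) * a -
    (q ^ (l + j + 1 + (j + 1) * D + (j + 1) * j) - 1) * b +
    (q ^ (l + j + 1 + (j + 1 + 1) * D + (j + 1 + 1) * (j + 1)) - 1) * c

lemma key2 (h : Gen s) (D l j : ℕ) :
    qi (1 + s) (D + (l + j) + 1) * qi (1 + s) (l + j + 1) -
        qi (1 + s) (D + (l + j) + 1 + (j + 1)) * qi (1 + s) l =
      (1 + s) ^ l * (qi (1 + s) (D + j + 1) * qi (1 + s) (j + 1)) := by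
  apply mul_left_cancel₀ (mul_ne_zero h.s_ne h.s_ne)
  have a := qi_mul s (D + (l + j) + 1)
  have b := qi_mul s (l + j + 1)
  have c := qi_mul s (D + (l + j) + 1 + (j + 1))
  have d := qi_mul s l
  have e := qi_mul s (D + j + 1)
  have f := qi_mul s (j + 1)
  generalize (1 + s) = q at a b c d e f ⊢
  rw [show s * s * (qi q (D + (l + j) + 1) * qi q (l + j + 1) -
      qi q (D + (l + j) + 1 + (j + 1)) * qi q l) =
      (s * qi q (D + (l + j) + 1)) * (s * qi q (l + j + 1)) -
      (s * qi q (D + (l + j) + 1 + (j + 1))) * (s * qi q l) by ring,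
    show s * s * (q ^ l * (qi q (D + j + 1) * qi q (j + 1))) =
      q ^ l * ((s * qi q (D + j + 1)) * (s * qi q (j + 1))) by ring, a, b, c, d, e, f]
  ring

def tm (q : K) (D b j : ℕ) : K :=
  cw q (D + j + 1) (j + 1) * TT q D b (j + 1) * (q ^ ((j + 1) * (D + j + 1)) - 1)

def VV (q : K) (D b j : ℕ) : K :=
  TT q D b j * qi q (b - j) * (q ^ (b + (j + 1) * D + (j + 1) * j) - 1)

lemma tm_step (h : Gen s) (D l j : ℕ) :
    (tm (1 + s) D (l + j + 1) j - tm (1 + s) D (l + j) j) *
        (qi (1 + s) (D + (l + j) + 1) * qi (1 + s) (l + j + 1)) =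
      VV (1 + s) D (l + j + 1) j - VV (1 + s) D (l + j + 1) (j + 1) := by
  have h1 := TT_step h D (l + j) (j + 1)
  have h2 := key1 h D l j
  have h3 := key2 h D l j
  have h4 := h.qi_ne (k := D + j + 1) (by omega)
  have h5 := h.qi_ne (k := j + 1) (by omega)
  have h6 := h.qi_ne (k := D + (l + j + 1) + j + 1) (by omega)
  have h7 : TT (1 + s) D (l + j + 1) j * qi (1 + s) (l + j + 1 - j) =
      TT (1 + s) D (l + j + 1) (j + 1) * qi (1 + s) (D + (l + j + 1) + j + 1) := by
    rw [TT]; field_simp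
  have h8 : cw (1 + s) (D + j + 1) (j + 1) * (qi (1 + s) (D + j + 1) * qi (1 + s) (j + 1)) =
      qi (1 + s) (D + j + 1 + (j + 1)) := by
    rw [h.cw_eq (by omega) (by omega)]; field_simp
  rw [show l + j + 1 - (j + 1) = l by omega] at h1
  rw [tm, tm, VV, VV, h7, show l + j + 1 - (j + 1) = l by omega]
  set c := cw (1 + s) (D + j + 1) (j + 1)
  set w := (1 + s) ^ ((j + 1) * (D + j + 1)) - 1
  set T1 := TT (1 + s) D (l + j + 1) (j + 1)
  linear_combination (-c * w) * h1 + c * w * T1 * h3 + T1 * w * (1 + s) ^ l * h8 + T1 * h2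

lemma sum_tm (h : Gen s) (D b : ℕ) : ∑ j ∈ range b, tm (1 + s) D b j = s * b := by
  induction b with
  | zero => simp
  | succ b ih =>
    have h1 := h.qi_ne (k := D + b + 1) (by omega)
    have h2 := h.qi_ne (k := b + 1) (by omega)
    have h0 : tm (1 + s) D b b = 0 := by simp [tm, TT]
    have h3 : (∑ j ∈ range (b + 1), tm (1 + s) D (b + 1) j -
        ∑ j ∈ range (b + 1), tm (1 + s) D b j) * (qi (1 + s) (D + b + 1) * qi (1 + s) (b + 1)) =
        s * (qi (1 + s) (D + b + 1) * qi (1 + s) (b + 1)) := by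
      rw [← sum_sub_distrib, sum_mul, sum_congr rfl (g := fun j =>
        VV (1 + s) D (b + 1) j - VV (1 + s) D (b + 1) (j + 1)), sum_range_sub']
      · have := qi_mul s (D + b + 1)
        simp only [VV, TT, Nat.sub_self, qi_zero, Nat.sub_zero, zero_add, one_mul, mul_zero,
          add_zero, zero_mul, sub_zero]
        rw [show b + 1 + D = D + b + 1 by omega, ← this]
        ring
      · intro j hj
        obtain ⟨l, rfl⟩ : ∃ l, b = l + j := ⟨b - j, by simp at hj; omega⟩
        exact tm_step h D l j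
    have h4 := mul_right_cancel₀ (mul_ne_zero h1 h2) h3
    rw [sum_range_succ (fun j => tm (1 + s) D b j), h0, ih] at h4
    push_cast
    linear_combination h4

lemma ch (a r : ℕ) : (a + r).choose 2 = a.choose 2 + a * r + r.choose 2 := by
  induction r with
  | zero => simp
  | succ r ih =>
    rw [← add_assoc, Nat.choose_succ_succ' (a + r), Nat.choose_succ_succ' r, ih]
    simp only [Nat.choose_one_right]
    ring

lemma main (h : Gen s) (D b : ℕ) :
    ∑ l ∈ range b, cw (1 + s) (D + b - l) (b - l) *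
      (qf (1 + s) (D + b) * qf (1 + s) b / gN (1 + s) (D + b + b) l) *
      ((1 + s) ^ (l.choose 2 + (D + b + b - l).choose 2) /
        (1 + s) ^ ((D + b).choose 2 + b.choose 2) - 1) = s * b := by
  rw [← sum_tm h D b, ← sum_range_reflect]
  refine sum_congr rfl fun j hj => ?_
  obtain ⟨l, rfl⟩ : ∃ l, b = l + (j + 1) := ⟨b - 1 - j, by simp at hj; omega⟩
  rw [show l + (j + 1) - 1 - j = l by omega, show D + (l + (j + 1)) - l = D + j + 1 by omega,
    show l + (j + 1) - l = j + 1 by omega, gN,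
    show D + (l + (j + 1)) + (l + (j + 1)) - l = D + (l + (j + 1)) + (j + 1) by omega,
    TT_eq h D _ (j + 1) l rfl, tm,
    show l.choose 2 + (D + (l + (j + 1)) + (j + 1)).choose 2 =
      (j + 1) * (D + j + 1) + ((D + (l + (j + 1))).choose 2 + (l + (j + 1)).choose 2) by
        rw [ch (D + (l + (j + 1))), ch l]; ring,
    pow_add, mul_div_assoc, div_self (pow_ne_zero _ h.1), mul_one]

end MJS.X19

namespace MJS
open MJ MJT MJC Finset

theorem st_IQ : St_IQ := by
  intro K _ s h m m'
  rcases le_total m' m with hm | hm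
  · obtain ⟨D, rfl⟩ : ∃ D, m = D + m' := ⟨m - m', by omega⟩
    rw [min_eq_right hm]
    exact X19.main h D m'
  · obtain ⟨D, rfl⟩ : ∃ D, m' = D + m := ⟨m' - m, by omega⟩
    rw [min_eq_left hm, ← X19.main h D m]
    refine sum_congr rfl fun l _ => ?_
    rw [cw_comm, add_comm m (D + m), mul_comm (qf (1 + s) m), add_comm (m.choose 2)]

end MJS
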