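import Pool.Agent.Lib.MP_9c49f6_co.S_Kit

/-! The vertex operators `JH`: positivity, action on products, commutation relation. -/

namespace MJS
open MJ MJT MJC Finset MvPolynomial

namespace X80
variable {K : Type} [Field K]

noncomputable def cc (s : K) (k : ℕ) : K := qi (1 + s) (k + 1) / ((k + 1 : ℕ) : K)

noncomputable def LJ (s : K) (v : ℕ) : Polynomial (Lam K) →ₗ[K] Lam K :=
  Polynomial.lsum fun r : ℕ => LinearMap.mulLeft K (ep s (v + r))

variable (s : K)

lemma JH_apply (v : ℕ) (f : Lam K) : JH s v f = LJ s v (Phi (cc s) f) := rfl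

lemma LJ_monomial (v r : ℕ) (a : Lam K) :
    LJ s v (Polynomial.monomial r a) = ep s (v + r) * a := by
  simp [LJ, Polynomial.lsum, Polynomial.sum_monomial_index]

lemma LJ_C (v : ℕ) (a : Lam K) : LJ s v (Polynomial.C a) = ep s v * a := by
  simpa using LJ_monomial s v 0 a

lemma LJ_C_mul (v : ℕ) (a : Lam K) (P : Polynomial (Lam K)) :
    LJ s v (Polynomial.C a * P) = a * LJ s v P := by
  induction P using poly_ind with
  | hadd p q hp hq => simp only [mul_add, map_add, hp, hq]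
  | hm n b => rw [Polynomial.C_mul_monomial, LJ_monomial, LJ_monomial]; ring

lemma LJ_X_pow_mul (v k : ℕ) (P : Polynomial (Lam K)) :
    LJ s v (Polynomial.X ^ k * P) = LJ s (v + k) P := by
  induction P using poly_ind with
  | hadd p q hp hq => simp only [mul_add, map_add, hp, hq]
  | hm n b =>
    rw [Polynomial.X_pow_mul_monomial, LJ_monomial, LJ_monomial]
    congr 2; ring

lemma LJ_X_mul (v : ℕ) (P : Polynomial (Lam K)) :
    LJ s v (Polynomial.X * P) = LJ s (v + 1) P := by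
  simpa using LJ_X_pow_mul s v 1 P

lemma JH_sum (v : ℕ) (f : Lam K) (n : ℕ) (h : ∀ j : ℤ, (n : ℤ) ≤ j → Sh (cc s) j f = 0) :
    JH s v f = ∑ r ∈ range n, ep s (v + r) * Sh (cc s) r f := by
  rw [JH_apply, Phi_eq_sum _ f n h, map_sum]
  refine sum_congr rfl fun r _ => ?_
  rw [LJ_X_pow_mul, LJ_C]

variable [CharZero K]

lemma Sh_PC {f : Lam K} (hf : f ∈ PC (cone s)) (r : ℕ) : Sh (cc s) r f ∈ PC (cone s) := by
  have hC : ∀ a ∈ PC (cone s), Polynomial.C a ∈ Polynomial.lifts (PC (σ := ℕ) (cone s)).subtype :=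
    fun a ha => Polynomial.C_mem_lifts (PC (σ := ℕ) (cone s)).subtype ⟨a, ha⟩
  have h := hom_mem (T := Polynomial.lifts (PC (σ := ℕ) (cone s)).subtype) (Phi (cc s))
    (fun a ha => hC _ (C_PC ha)) (fun i => by
      rw [Phi_X]
      exact add_mem (hC _ (X_PC _)) (mul_mem (hC _ (C_PC (by
        rw [cc, div_eq_mul_inv]
        exact mul_mem (qi_cone s _) (inv_nat_cone s _))))
        (Polynomial.X_pow_mem_lifts _ _))) hf
  obtain ⟨⟨a, ha⟩, e⟩ := (Polynomial.lifts_iff_coeff_lifts _).1 h r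
  rw [Sh_nat, ← e]
  exact ha

lemma ex_geom {A : Type} [CommRing A] [Algebra K A] (u : A) (r : ℕ) :
    ex K (fun k => u ^ (k + 1)) r = u ^ r := by
  induction r using Nat.strong_induction_on with
  | _ r ih =>
    cases r with
    | zero => simp
    | succ r =>
      rw [ex_succ', sum_congr rfl (g := fun _ => u ^ (r + 1)) fun k hk => by
        rw [ih _ (by omega), ← pow_add]; congr 1; simp at hk; omega]
      rw [sum_const, card_range, ← Nat.cast_smul_eq_nsmul K, smul_smul, Nat.cast_succ,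
        inv_mul_cancel₀ (Nat.cast_add_one_ne_zero r), one_smul]

variable {s}

lemma Phi_hy (h : Gen s) (m : ℕ) : Phi (cc s) (hy (1 + s) m) =
    ∑ p ∈ antidiagonal m, Polynomial.C (hy (1 + s) p.1) * Polynomial.X ^ p.2 := by
  have e : (fun k : ℕ => Polynomial.C (C ((((k + 1 : ℕ) : K) / qi (1 + s) (k + 1)) * cc s k) : Lam K) *
      Polynomial.X ^ (k + 1)) = fun k => Polynomial.X ^ (k + 1) := by
    funext k
    have h1 := h.qi_ne k.succ_pos
    have h2 : ((k + 1 : ℕ) : K) ≠ 0 := Nat.cast_ne_zero.2 k.succ_ne_zero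
    rw [cc, div_mul_div_cancel₀' h2, div_self h1]
    simp
  rw [hy, ← gen_nat, Phi_gen, e, cz_nat, PowerSeries.coeff_mul]
  refine sum_congr rfl fun p _ => ?_
  rw [hy, ← gen_nat, C_gen, cz_nat, Ex_coeff (fun k => Polynomial.X ^ (k + 1)), ex_geom]

lemma Phi_ep (b : ℕ) :
    Phi (cc s) (ep s (b + 1)) - Polynomial.C (C (1 + s)) * (Polynomial.X * Phi (cc s) (ep s b)) =
      Polynomial.C (ep s (b + 1)) - Polynomial.C (ep s b) * Polynomial.X := by
  have e : (fun k : ℕ => Polynomial.C (C ((((k + 1 : ℕ) : K) * s) * cc s k) : Lam K) *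
      Polynomial.X ^ (k + 1)) = fun k => - (Polynomial.X : Polynomial (Lam K)) ^ (k + 1) +
        (Polynomial.C (C (1 + s)) * Polynomial.X) ^ (k + 1) := by
    funext k
    have h2 : ((k + 1 : ℕ) : K) ≠ 0 := Nat.cast_ne_zero.2 k.succ_ne_zero
    rw [show (((k + 1 : ℕ) : K) * s) * cc s k = (1 + s) ^ (k + 1) - 1 by
      rw [← qi_mul, cc]; field_simp]
    simp only [map_sub, map_pow, map_one, mul_pow]
    ring
  rw [ep, ep, ← gen_nat, ← gen_nat]
  simp only [map_mul (Phi (cc s)), map_mul (Polynomial.C (R := Lam K)) (C s⁻¹), Phi_C]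
  rw [Phi_gen, Phi_gen, C_gen, C_gen, e, Ex_add, Ex_neg_geom]
  generalize Ex K (fun k : ℕ => Polynomial.C (C (((k + 1 : ℕ) : K) * s) * X k : Lam K)) = A
  have g1 := Ex_geom (F := K) (Polynomial.C (C (1 + s) : Lam K) * Polynomial.X)
  generalize Ex K (fun k => (Polynomial.C (C (1 + s) : Lam K) * Polynomial.X) ^ (k + 1)) = B
    at g1 ⊢
  have h1 := cz_mul_one_sub (A * ((1 - PowerSeries.C Polynomial.X * PowerSeries.X) * B))
    (Polynomial.C (C (1 + s) : Lam K) * Polynomial.X) ((b + 1 + 1 : ℕ) : ℤ)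
  have h2 := cz_mul_one_sub A Polynomial.X ((b + 1 + 1 : ℕ) : ℤ)
  rw [mul_assoc, mul_assoc, g1, mul_one, h2,
    show ((b + 1 + 1 : ℕ) : ℤ) - 1 = ((b + 1 : ℕ) : ℤ) by omega] at h1
  linear_combination (-Polynomial.C (C s⁻¹ : Lam K)) * h1

lemma JH_JH (a b : ℕ) (f : Lam K) (n : ℕ) (h : ∀ j : ℤ, (n : ℤ) ≤ j → Sh (cc s) j f = 0) :
    JH s a (JH s (b + 1) f) - (1 + s) • JH s (a + 1) (JH s b f) =
      ∑ r ∈ range n, ∑ i ∈ range n, (ep s (b + r + 1) * ep s (a + i) -
        ep s (b + r) * ep s (a + i + 1)) * Sh (cc s) i (Sh (cc s) r f) := by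
  have h' : ∀ i j : ℤ, (n : ℤ) ≤ j → Sh (cc s) j (Sh (cc s) i f) = 0 := fun i j hj => by
    rw [Sh_comm, h j hj, map_zero]
  rw [JH_sum s (b + 1) f n h, JH_sum s b f n h, map_sum, map_sum, smul_sum, ← sum_sub_distrib]
  refine sum_congr rfl fun r _ => ?_
  have h2 := congrArg (fun P => LJ s a (P * Phi (cc s) (Sh (cc s) r f))) (Phi_ep (s := s) (b + r))
  simp only [sub_mul, mul_assoc, map_sub, LJ_C_mul, LJ_X_mul] at h2
  rw [JH_apply, JH_apply, map_mul (Phi (cc s)), map_mul (Phi (cc s)), smul_eq_C_mul,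
    add_right_comm, h2, ← JH_apply,
    ← JH_apply, JH_sum s a _ n (h' r), JH_sum s (a + 1) _ n (h' r), mul_sum, mul_sum,
    ← sum_sub_distrib]
  refine sum_congr rfl fun i _ => ?_
  rw [add_right_comm a 1 i]
  ring

end X80

open X80 in
theorem st_JI (hE : St_EP) : St_JI := by
  intro K _ _ s h
  refine ⟨fun v f hf => ?_, fun v => ?_, fun v c f => ?_, fun a b f => ?_⟩
  · obtain ⟨n, hn⟩ := Sh_bound (cc s) f
    rw [JH_sum s v f n hn]
    exact sum_mem fun r _ => mul_mem ((hE K s h).1 _) (Sh_PC s hf r)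
  · rw [JH_apply, map_one, ← Polynomial.C_1, LJ_C, mul_one]
  · rw [JH_apply, map_mul, Phi_hy h, sum_mul, map_sum]
    refine sum_congr rfl fun p _ => ?_
    rw [mul_assoc, LJ_C_mul, LJ_X_pow_mul, JH_apply]
  · obtain ⟨n, hn⟩ := Sh_bound (cc s) f
    rw [JH_JH a b f n hn, JH_JH b a f n hn, sum_comm, ← sum_add_distrib]
    refine sum_eq_zero fun i _ => ?_
    rw [← sum_add_distrib]
    refine sum_eq_zero fun r _ => ?_
    rw [Sh_comm]
    ring

end MJS
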