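import Pool.Agent.Lib.MP_9c49f6_co.S_Kit

/-! Second face: the coefficient is a positive product plus a positive first-order term. -/

namespace MJS
open MJ MJT MJC Finset MvPolynomial

namespace MAIN52
variable {K F : Type} [Field K] [Field F] [Algebra K F] {O : Subalgebra K F} {θ : F}

/-- coefficientwise congruence -/
def PCg (O : Subalgebra K F) (θ : F) (k : ℕ) (f : AA F) : Prop := ∀ D, Cg O θ k (coeff D f)

lemma PCg.add {k : ℕ} {f g : AA F} (hf : PCg O θ k f) (hg : PCg O θ k g) : PCg O θ k (f + g) :=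
  fun D => by rw [coeff_add]; exact (hf D).add (hg D)

lemma PCg.sub {k : ℕ} {f g : AA F} (hf : PCg O θ k f) (hg : PCg O θ k g) : PCg O θ k (f - g) :=
  fun D => by rw [coeff_sub]; exact (hf D).sub (hg D)

lemma PCg.mul {k j : ℕ} {f g : AA F} (hf : PCg O θ k f) (hg : PCg O θ j g) :
    PCg O θ (k + j) (f * g) := fun D => by
  classical
  rw [coeff_mul]
  exact Cg.sum fun p _ => (hf _).mul (hg _)

lemma PCg_map (f : AA K) : PCg O θ 0 (map (algebraMap K F) f) := fun D => by
  rw [coeff_map]; exact Cg_zero_iff.mpr (O.algebraMap_mem _)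

lemma PCg_th : PCg O θ 1 (C θ) := fun D => by
  classical
  rw [coeff_C]
  split_ifs
  · exact Cg.self
  · exact Cg.zero 1

lemma PCg.mono (L : Loc O θ) {k j : ℕ} {f : AA F} (hf : PCg O θ k f) (h : j ≤ k) : PCg O θ j f :=
  fun D => L.mono (hf D) h

lemma prod_two (L : Loc O θ) (x : ℕ → AA F) (κ δ : ℕ → AA K) (l : List ℕ)
    (h : ∀ k ∈ l, PCg O θ 2 (x k - (map (algebraMap K F) (κ k) + C θ * map (algebraMap K F) (δ k)))) :
    PCg O θ 2 ((l.map x).prod - (map (algebraMap K F) (l.map κ).prod +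
      C θ * map (algebraMap K F) (one δ κ l))) := by
  induction l with
  | nil => intro D; simpa using Cg.zero 2
  | cons m l ih =>
    have h1 := h m (by simp)
    have h2 := ih fun k hk => h k (by simp [hk])
    have h3 : PCg O θ 0 (map (algebraMap K F) (l.map κ).prod +
        C θ * map (algebraMap K F) (one δ κ l)) :=
      (PCg_map _).add ((PCg_th.mul (PCg_map _)).mono L (by omega))
    have h4 : PCg O θ 0 (x m) := by
      have := (h1.mono L (Nat.zero_le _)).add
        ((PCg_map (κ m)).add ((PCg_th.mul (PCg_map (δ m))).mono L (by omega)))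
      rwa [sub_add_cancel] at this
    have h5 := ((h1.mul h3).add (h2.mul h4)).add
      ((PCg_th.mul PCg_th).mul ((PCg_map (δ m)).mul (PCg_map (one δ κ l))))
    convert h5 using 1
    simp only [List.map_cons, List.prod_cons, one_cons, map_add, map_mul]
    ring

/-- the diagonal scaling -/
noncomputable def tau (c : ℕ → F) : AA F →ₐ[F] AA F :=
  aeval fun i => C (c (Sum.elim id id i + 1)) * X i

lemma tau_mono (c : ℕ → F) (D : ℕ ⊕ ℕ →₀ ℕ) (a : F) : tau c (monomial D a) =
    monomial D ((D.prod fun i e => c (Sum.elim id id i + 1) ^ e) * a) := by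
  rw [tau, aeval_monomial, monomial_eq, mul_comm _ a, C_mul, mul_assoc, map_finsuppProd,
    ← Finsupp.prod_mul]
  simp [mul_pow]

lemma coeff_tau (c : ℕ → F) (D : ℕ ⊕ ℕ →₀ ℕ) (f : AA F) : coeff D (tau c f) =
    (D.prod fun i e => c (Sum.elim id id i + 1) ^ e) * coeff D f := by
  classical
  induction f using MvPolynomial.induction_on' with
  | monomial d a =>
    rw [tau_mono, coeff_monomial, coeff_monomial]
    split_ifs with h
    · rw [h]
    · simp
  | add f g hf hg => rw [map_add, coeff_add, coeff_add, hf, hg, mul_add]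

lemma prod_dd {n : ℕ} (c : ℕ → F) (μ ν : n.Partition) :
    ((ASM23.dd μ ν).prod fun i e => c (Sum.elim id id i + 1) ^ e) =
      (μ.parts.map c).prod * (ν.parts.map c).prod := by
  rw [ASM23.dd, Finsupp.prod_add_index' (by simp) (by simp [pow_add]),
    Finsupp.prod_mapDomain_index_inj Sum.inl_injective,
    Finsupp.prod_mapDomain_index_inj Sum.inr_injective, ← prod_dOf, ← prod_dOf]
  rfl

lemma coeff_dd {n : ℕ} (a : n.Partition → n.Partition → F) (μ ν : n.Partition) :
    coeff (ASM23.dd μ ν) (∑ μ', ∑ ν', monomial (ASM23.dd μ' ν') (a μ' ν') : AA F) = a μ ν := by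
  classical
  rw [coeff_sum, sum_eq_single μ, coeff_sum, sum_eq_single ν, coeff_monomial, if_pos rfl]
  · intro ν' _ h
    rw [coeff_monomial, if_neg fun h1 => h (ASM23.dd_inj h1).2]
  · simp
  · intro μ' _ h
    rw [coeff_sum]
    exact sum_eq_zero fun ν' _ => by
      rw [coeff_monomial, if_neg fun h1 => h (ASM23.dd_inj h1).1]
  · simp

noncomputable def VV (q t : F) {n : ℕ} (P : n.Partition → n.Partition → F) (π : n.Partition) :
    AA F := ∑ μ, ∑ ν, monomial (ASM23.dd μ ν) (cco q t P π μ ν)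

lemma sq_le (l : List ℕ) : (l.map fun k => k * (k - 1)).sum ≤ l.sum * (l.sum - 1) := by
  induction l with
  | nil => simp
  | cons m l ih =>
    simp only [List.map_cons, List.sum_cons]
    refine (Nat.add_le_add_left ih _).trans ?_
    rw [add_mul]
    exact Nat.add_le_add (Nat.mul_le_mul_left _ (by omega)) (Nat.mul_le_mul_left _ (by omega))

lemma mpow (a : F) (M : Multiset ℕ) : (M.map fun i => a ^ i).prod = a ^ M.sum := by
  induction M using Multiset.induction_on with
  | empty => simp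
  | cons m M ih => simp [ih, pow_add]

variable [CharZero F] {q t : F}

lemma scale (hi : Indep q t) (e : θ * (q - 1) = t - 1) {n : ℕ} (μ : n.Partition) :
    (zz μ : F) / zqt q t μ * vq q μ = (μ.parts.map fun i => θ * (qi t i / i)).prod ∧
    zqt q t μ / zz μ = (μ.parts.map fun i => θ⁻¹ * (qi q i / qi t i)).prod := by
  have hθ : θ ≠ 0 := left_ne_zero_of_mul (e ▸ sub_ne_zero.mpr hi.t_ne_one)
  have h1 := LIM15.zqt_scale hi e μ
  have h2 := LIM15.zz_ne (F := F) μ
  have h3 : zqt q t μ / zz μ = (μ.parts.map fun i => θ⁻¹ * (qi q i / qi t i)).prod := by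
    rw [Multiset.prod_map_mul, Multiset.map_const', Multiset.prod_replicate, div_eq_iff h2,
      inv_pow, mul_assoc, eq_inv_mul_iff_mul_eq₀ (pow_ne_zero _ hθ), mul_comm _ (zz μ : F)]
    exact h1
  refine ⟨?_, h3⟩
  rw [← inv_div, h3, vq, ← Multiset.prod_map_inv, ← Multiset.prod_map_mul]
  refine congrArg _ (Multiset.map_congr rfl fun i h => ?_)
  have h4 := LIM15.qi_ne hi.q_pow_ne (μ.parts_pos h)
  have h5 := LIM15.qi_ne hi.t_pow_ne (μ.parts_pos h)
  field_simp

lemma VV_eq (hCC : St_CC) (hi : Indep q t) (e : θ * (q - 1) = t - 1) {n : ℕ} (π : n.Partition) :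
    VV q t (mac hi) π = C (π.parts.map fun i => θ⁻¹ ^ i * (θ⁻¹ * (qi q i / qi t i))).prod *
      tau (fun i => θ * (qi t i / i)) (XX q t (mac hi) π) := by
  have hθ : θ ≠ 0 := left_ne_zero_of_mul (e ▸ sub_ne_zero.mpr hi.t_ne_one)
  simp only [VV, XX, map_sum, mul_sum, tau_mono, C_mul_monomial]
  refine sum_congr rfl fun μ _ => sum_congr rfl fun ν _ => congrArg _ ?_
  have h1 := (hCC F q t θ hi e n).2 π μ ν
  have h2 := ASM23.vq_ne hi.q_pow_ne μ
  have h3 := ASM23.vq_ne hi.q_pow_ne ν
  have h4 : (π.parts.map fun i => θ⁻¹ ^ i).prod = θ⁻¹ ^ n := by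
    rw [mpow, π.parts_sum]
  rw [prod_dd (fun i => θ * (qi t i / i)), Multiset.prod_map_mul, h4, ← (scale hi e π).2,
    ← (scale hi e μ).1, ← (scale hi e ν).1,
    eq_inv_mul_iff_mul_eq₀ (pow_ne_zero n hθ) |>.mpr h1, inv_pow]
  field_simp

end MAIN52
open MAIN52

theorem st_MAIN (hFC : St_FC) (hCC : St_CC) (hTW : St_TW2) : St_MAIN := by
  intro K F _ _ _ _ _ s O θ q t S N hr ht hone n π μ ν
  classical
  obtain ⟨δ, hδ⟩ := hFC K F s O θ q t S
  obtain ⟨hL, hC⟩ := hTW K s S.gen
  have L := S.loc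
  have hθ := L.ne
  set κ : ℕ → AA K := fun k => ka (1 + s) (gl (1 + s)) (k - 1) with hκ
  set x : ℕ → AA F := fun k => XX q t (mac S.hi) (Nat.Partition.indiscrete k) with hx
  set V : ℕ → AA F := fun k => VV q t (mac S.hi) (Nat.Partition.indiscrete k) with hV
  have hp : ∀ k, 0 < k → (Nat.Partition.indiscrete k).parts = {k} := fun k hk =>
    Nat.Partition.indiscrete_parts hk.ne'
  have h1 : PCg O θ 2 (XX q t (mac S.hi) π - ((lst π).map x).prod -
      C θ * map (algebraMap K F) (pair (ga (1 + s)) κ (lst π))) := by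
    have h2 := prod_two L x κ δ (lst π) fun k hk D => by
      have h3 := hδ k (Nat.Partition.indiscrete k) D
      have h4 : lst (Nat.Partition.indiscrete k) = [k] := by
        rw [lst, hp k (lst_pos π k hk), Multiset.sort_singleton]
      rw [h4] at h3
      simpa [coeff_map] using h3
    intro D
    refine ((hδ n π D).sub (h2 D)).of_eq ?_
    simp only [coeff_sub, coeff_add, coeff_C_mul, coeff_map, map_add]
    ring
  have h2 : ((lst π).map V).prod =
      C (π.parts.map fun i => θ⁻¹ ^ i * (θ⁻¹ * (qi q i / qi t i))).prod *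
        tau (fun i => θ * (qi t i / i)) ((lst π).map x).prod := by
    rw [← lst_coe π, Multiset.map_coe, Multiset.prod_coe, map_list_prod, map_list_prod,
      List.map_map, List.map_map, ← List.prod_map_mul]
    refine congrArg _ (List.map_congr_left fun k hk => ?_)
    simp only [hV, hx, VV_eq hCC S.hi S.th_q, hp k (lst_pos π k hk), Multiset.map_singleton,
      Multiset.prod_singleton, Function.comp]
  have h3 : ∀ k, 0 < k → C (t ^ (k * (k - 1))) * V k ∈ PC N := fun k hk => by
    simp only [hV, VV, mul_sum, C_mul_monomial]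
    refine sum_mem fun μ' _ => sum_mem fun ν' _ => monomial_PC _ ?_
    have h4 := mul_mem (hr ((zz μ' : ℚ≥0) * zz ν')⁻¹) (hone k _ μ' ν' (hp k hk))
    have h5 := LIM15.zz_ne (F := F) μ'
    have h6 := LIM15.zz_ne (F := F) ν'
    convert h4 using 1
    rw [WW]
    push_cast
    field_simp
  have h4 : C (t ^ (n * (n - 1))) * ((lst π).map V).prod ∈ PC N := by
    obtain ⟨r, hr'⟩ := Nat.exists_eq_add_of_le (sq_le (lst π))
    rw [lst_sum] at hr'
    have h5 : ∀ l : List ℕ, (C (t ^ (l.map fun k => k * (k - 1)).sum) : AA F) =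
        (l.map fun k => C (t ^ (k * (k - 1)))).prod := fun l => by
      induction l with
      | nil => simp
      | cons m l ih => rw [List.map_cons, List.sum_cons, pow_add, C_mul, ih]; simp
    rw [hr', pow_add, C_mul, mul_right_comm, h5, ← List.prod_map_mul]
    refine mul_mem (list_prod_mem fun y hy => ?_) (C_PC (pow_mem ht _))
    obtain ⟨k, hk, rfl⟩ := List.mem_map.mp hy
    exact h3 k (lst_pos π k hk)
  have h5 : C (vq (1 + s) π) * pair (ga (1 + s)) κ (lst π) ∈ PC (cone s) := by
    have h6 : (C (vq (1 + s) π) : AA K) = ((lst π).map fun k => C (qi (1 + s) k / k)).prod := by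
      rw [vq, ← lst_coe π, Multiset.map_coe, Multiset.prod_coe, map_list_prod, List.map_map]
      rfl
    rw [h6, mul_comm, ← pair_scale]
    refine pair_in _ (fun m hm m' hm' => ?_) fun m _ => mul_comm (κ m) _ ▸ hL m
    have h7 : (m : K) ≠ 0 := by exact_mod_cast (lst_pos π m hm).ne'
    have h8 : (m' : K) ≠ 0 := by exact_mod_cast (lst_pos π m' hm').ne'
    convert mul_mem (C_PC (qi_cone s m')) (hC m m') using 1
    rw [ga, smul_eq_C_mul, mul_right_comm, ← C_mul, ← C_mul, ← mul_assoc (C _), ← C_mul]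
    congr 2
    field_simp
  refine ⟨zz μ * zz ν * coeff (ASM23.dd μ ν) (C (t ^ (n * (n - 1))) * ((lst π).map V).prod),
    mul_mem (mul_mem (natCast_mem _ _) (natCast_mem _ _)) (h4 _),
    zz μ * zz ν * coeff (ASM23.dd μ ν) (C (vq (1 + s) π) * pair (ga (1 + s)) κ (lst π)),
    mul_mem (mul_mem (natCast_mem _ _) (natCast_mem _ _)) (h5 _), ?_⟩
  have h6 : cco q t (mac S.hi) π μ ν = coeff (ASM23.dd μ ν) (VV q t (mac S.hi) π) :=
    (coeff_dd _ μ ν).symm
  have h7 : ∀ ρ : n.Partition, Cg O θ 1 ((ρ.parts.map fun i => qi t i / i).prod - 1) := fun ρ => by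
    refine (L.mprod_cg ρ.parts (f := fun i => qi t i / i) (g := fun _ => 1) (fun i hi => ?_)
      fun _ _ => one_mem _).of_eq (by simp)
    have h8 : (i : F) ≠ 0 := by exact_mod_cast (ρ.parts_pos hi).ne'
    refine ((S.qi_t i).mul_right (O.algebraMap_mem (i : K)⁻¹)).of_eq ?_
    simp only [map_inv₀, map_natCast]
    field_simp
  have h8 : Cg O θ 1 ((π.parts.map fun i => qi q i / qi t i).prod -
      algebraMap K F (vq (1 + s) π)) := by
    rw [← S.vq_q]
    refine L.mprod_cg π.parts (fun i hi => ?_) fun i _ => ?_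
    · have h9 : (i : K) ≠ 0 := by exact_mod_cast (π.parts_pos hi).ne'
      refine ((L.inv_cg h9 (S.qi_t i)).mul_left (O.algebraMap_mem (qi (1 + s) i))).of_eq ?_
      simp only [map_inv₀, map_natCast, ← S.qi_q]
      ring
    · simpa [S.qi_q] using O.algebraMap_mem (qi (1 + s) i / i)
  have h9 := L.mul_cg (L.mul_cg (L.mul_cg (S.t_pow_cg (n * (n - 1))) h8 (one_mem _)
    (O.algebraMap_mem _)) (h7 μ) (mul_mem (one_mem _) (O.algebraMap_mem _)) (one_mem _)) (h7 ν)
    (mul_mem (mul_mem (one_mem _) (O.algebraMap_mem _)) (one_mem _)) (one_mem _)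
  have h10 := L.mem_of_sub h9 (mul_mem (mul_mem (mul_mem (one_mem _) (O.algebraMap_mem _))
    (one_mem _)) (one_mem _))
  have h11 := (((h1 (ASM23.dd μ ν)).mul_left h10).add (h9.th_mul.mul_right
    (O.algebraMap_mem (coeff (ASM23.dd μ ν) (pair (ga (1 + s)) κ (lst π)))))).mul_left
    (mul_mem (natCast_mem O (zz μ)) (natCast_mem O (zz ν)))
  refine h11.of_eq ?_
  have h12 : (π.parts.map fun i => θ⁻¹ ^ i).prod = θ⁻¹ ^ n := by
    rw [mpow, π.parts_sum]
  rw [WW, h6, h2, VV_eq hCC S.hi S.th_q]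
  simp only [coeff_sub, coeff_C_mul, coeff_tau, coeff_map]
  rw [prod_dd (fun i => θ * (qi t i / i))]
  simp only [map_mul, map_natCast, Multiset.prod_map_mul, h12, Multiset.map_const',
    Multiset.prod_replicate, ln]
  rw [zpow_sub₀ hθ, zpow_sub₀ hθ, zpow_add₀ hθ, zpow_natCast, zpow_natCast, zpow_natCast,
    zpow_natCast]
  simp only [inv_pow]
  field_simp
  ring

end MJS
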