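import Pool.Agent.Lib.MP_9c49f6_co.S_Kit

/-! Row `SO`: the product rule of a second order operator. -/

namespace MJS
open MJ MJT MJC Finset MvPolynomial

namespace X47
variable {K : Type} [Field K] {R : Type} [CommRing R] [Algebra K R]

lemma Ga_mul (n : ℕ) (φ : Lam K →ₐ[K] R) (γ : ℕ → ℕ → R) (f g h : Lam K) :
    Ga n φ γ f (g * h) = Ga n φ γ f g * φ h + φ g * Ga n φ γ f h := by
  simp only [Ga, Derivation.leibniz, smul_eq_mul, map_add, map_mul, sum_mul, mul_sum,
    ← sum_add_distrib]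
  refine sum_congr rfl fun k _ => sum_congr rfl fun l _ => by ring

lemma Ga_one (n : ℕ) (φ : Lam K →ₐ[K] R) (γ : ℕ → ℕ → R) (f : Lam K) : Ga n φ γ f 1 = 0 := by
  simp [Ga]

lemma Ga_prod (n : ℕ) (φ : Lam K →ₐ[K] R) (γ : ℕ → ℕ → R) (f : Lam K) (x : ℕ → Lam K) (l : List ℕ) :
    Ga n φ γ f (l.map x).prod = one (fun m => Ga n φ γ f (x m)) (fun m => φ (x m)) l := by
  induction l with
  | nil => simp [Ga_one]
  | cons m l ih =>
    rw [List.map_cons, List.prod_cons, Ga_mul, ih, one_cons, map_list_prod, List.map_map]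
    rfl

lemma Ga_symm (n : ℕ) (φ : Lam K →ₐ[K] R) (γ : ℕ → ℕ → R) (hγ : ∀ k l, γ k l = γ l k) (f g : Lam K) :
    Ga n φ γ f g = Ga n φ γ g f := by
  unfold Ga
  rw [sum_comm]
  refine sum_congr rfl fun k _ => sum_congr rfl fun l _ => ?_
  rw [hγ (l+1) (k+1)]; ring

lemma P1_mul [CharZero K] (n : ℕ) (φ : Lam K →ₐ[K] R) (δ : ℕ → R) (γ : ℕ → ℕ → R)
    (hγ : ∀ k l, γ k l = γ l k) (f g : Lam K) :
    P1 n φ δ γ (f * g) = P1 n φ δ γ f * φ g + φ f * P1 n φ δ γ g + Ga n φ γ f g := by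
  have h2 : Ga n φ γ f g = (2 : K)⁻¹ • (Ga n φ γ f g + Ga n φ γ g f) := by
    rw [Ga_symm n φ γ hγ g f, ← two_smul K, smul_smul, inv_mul_cancel₀ two_ne_zero, one_smul]
  have e1 : ∑ k ∈ range n, δ (k+1) * φ (pderiv k (f * g)) =
      (∑ k ∈ range n, δ (k+1) * φ (pderiv k f)) * φ g +
        φ f * ∑ k ∈ range n, δ (k+1) * φ (pderiv k g) := by
    simp only [Derivation.leibniz, smul_eq_mul, map_add, map_mul, sum_mul, mul_sum,
      ← sum_add_distrib]
    exact sum_congr rfl fun k _ => by ring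
  have e2 : ∑ k ∈ range n, ∑ l ∈ range n, γ (k+1) (l+1) * φ (pderiv k (pderiv l (f * g))) =
      (∑ k ∈ range n, ∑ l ∈ range n, γ (k+1) (l+1) * φ (pderiv k (pderiv l f))) * φ g +
        φ f * (∑ k ∈ range n, ∑ l ∈ range n, γ (k+1) (l+1) * φ (pderiv k (pderiv l g))) +
        (Ga n φ γ f g + Ga n φ γ g f) := by
    simp only [Ga, Derivation.leibniz, smul_eq_mul, map_add, map_mul, sum_mul, mul_sum,
      ← sum_add_distrib]
    exact sum_congr rfl fun k _ => sum_congr rfl fun l _ => by ring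
  rw [h2, P1_apply, P1_apply, P1_apply, e1, e2]
  simp only [smul_add, add_mul, mul_add, smul_mul_assoc, mul_smul_comm]
  abel

lemma P1_one (n : ℕ) (φ : Lam K →ₐ[K] R) (δ : ℕ → R) (γ : ℕ → ℕ → R) : P1 n φ δ γ 1 = 0 := by
  simp [P1_apply]

lemma pd_X (k j : ℕ) : pderiv k (X j : Lam K) = if k = j then 1 else 0 := by
  by_cases h : k = j
  · subst h; simp
  · rw [if_neg h, pderiv_X_of_ne (Ne.symm h)]

lemma pd_pd_X (k l j : ℕ) : pderiv k (pderiv l (X j : Lam K)) = 0 := by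
  rw [pd_X]; split_ifs <;> simp

end X47
open X47

theorem st_SO : St_SO := by
  intro K R _ _ _ _ n φ δ γ hγ
  refine ⟨fun x l => ?_, fun m h1 h2 => ?_, fun m m' h1 h2 h1' h2' => ?_⟩
  · induction l with
    | nil => simp [P1_one]
    | cons m l ih =>
      rw [List.map_cons, List.prod_cons, P1_mul n φ δ γ hγ, ih, Ga_prod, one_cons, pair_cons,
        map_list_prod, List.map_map]
      have : (⇑φ ∘ x) = fun m => φ (x m) := rfl
      rw [this]; ring
  · obtain ⟨j, rfl⟩ : ∃ j, m = j + 1 := ⟨m - 1, by omega⟩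
    have hj : j ∈ range n := mem_range.mpr (by omega)
    have : pv K (j + 1) = X j := rfl
    rw [this, P1_apply]
    simp only [pd_pd_X, map_zero, mul_zero, sum_const_zero, smul_zero, add_zero]
    rw [sum_eq_single j]
    · simp
    · intro k _ hk; rw [pd_X, if_neg hk]; simp
    · intro h; exact absurd hj h
  · obtain ⟨j, rfl⟩ : ∃ j, m = j + 1 := ⟨m - 1, by omega⟩
    obtain ⟨j', rfl⟩ : ∃ j', m' = j' + 1 := ⟨m' - 1, by omega⟩
    have hj : j ∈ range n := mem_range.mpr (by omega)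
    have hj' : j' ∈ range n := mem_range.mpr (by omega)
    have e1 : pv K (j + 1) = X j := rfl
    have e2 : pv K (j' + 1) = X j' := rfl
    rw [e1, e2, Ga, sum_eq_single j]
    · rw [sum_eq_single j']
      · simp
      · intro l _ hl; rw [pd_X l, if_neg hl]; simp
      · intro h; exact absurd hj' h
    · intro k _ hk
      refine sum_eq_zero fun l _ => ?_
      rw [pd_X k, if_neg hk]; simp
    · intro h; exact absurd hj h

end MJS
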