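import Pool.Agent.Lib.MP_9c49f6_co.S_Kit

namespace MJS
open MJ MJT MJC Finset MvPolynomial

namespace X56

lemma ad_assoc {M : Type} [AddCommMonoid M] (f : ℕ → ℕ → ℕ → M) (n : ℕ) :
    ∑ p ∈ antidiagonal n, ∑ r ∈ antidiagonal p.1, f r.1 r.2 p.2 =
      ∑ p ∈ antidiagonal n, ∑ r ∈ antidiagonal p.2, f p.1 r.1 r.2 := by
  rw [sum_sigma', sum_sigma']
  refine sum_bij' (fun x _ => ⟨(x.2.1, x.2.2 + x.1.2), (x.2.2, x.1.2)⟩)
    (fun x _ => ⟨(x.1.1 + x.2.1, x.2.2), (x.1.1, x.2.1)⟩) ?_ ?_ ?_ ?_ fun _ _ => rfl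
  all_goals
    rintro ⟨⟨a, b⟩, c, d⟩ h
    simp only [mem_sigma, HasAntidiagonal.mem_antidiagonal] at h ⊢
  · exact ⟨by omega, trivial⟩
  · exact ⟨by omega, trivial⟩
  · rw [h.2]
  · rw [h.2]

variable {K : Type} [Field K] {s : K}

lemma Dq_map {R : Type} [CommRing R] [Algebra K R] (q : K) (L : R →ₗ[K] R) (φ : ℕ → ℕ → R) :
    Dq q (fun d b => L (φ d b)) = fun d b => L (Dq q φ d b) := by
  funext d b
  simp only [Dq, map_sum, map_sub, map_smul]

section
variable (h3 : ∀ v c f, JH s v (hy (1 + s) c * f) =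
  ∑ p ∈ antidiagonal c, hy (1 + s) p.1 * JH s (v + p.2) f)
include h3

lemma JH_conv (v c : ℕ) (Θ : ℕ → Lam K) :
    JH s v (∑ p ∈ antidiagonal c, hy (1 + s) p.1 * Θ p.2) =
      ∑ p ∈ antidiagonal c, hy (1 + s) p.1 * ∑ r ∈ antidiagonal p.2, JH s (v + r.1) (Θ r.2) := by
  simp only [map_sum, h3, mul_sum]
  exact ad_assoc (fun a b c => hy (1 + s) a * JH s (v + b) (Θ c)) c

lemma GG_eq (k c d : ℕ) : GG s k c d = (JH s 1 ^ k) (hy (1 + s) c * hy (1 + s) d) := by
  induction k with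
  | zero =>
    simp only [GG, conv2, th, Function.iterate_zero, id, PowerSeries.coeff_mk, pow_zero,
      Module.End.one_apply]
    rw [sum_eq_single (c, 0), sum_eq_single (d, 0)]
    · simp
    · rintro ⟨a, b⟩ h1 h2
      have : b ≠ 0 := fun e => h2 (by simpa [e] using h1)
      simp [this]
    · simp
    · rintro ⟨a, b⟩ h1 h2
      have : b ≠ 0 := fun e => h2 (by simpa [e] using h1)
      simp [this]
    · simp
  | succ k ih =>
    rw [pow_succ', Module.End.mul_apply, ← ih]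
    simp only [GG, conv2, th, Function.iterate_succ_apply', PowerSeries.coeff_mk, mul_assoc,
      ← mul_sum]
    generalize (AO s)^[k] _ = Θ
    rw [JH_conv h3 1 c fun m => ∑ r ∈ antidiagonal d, hy (1 + s) r.1 * Θ m r.2]
    refine sum_congr rfl fun p _ => congrArg _ ?_
    have e := fun v m => JH_conv h3 v d (Θ m)
    simp only [e]
    rw [sum_comm]
    simp only [AO, mul_sum]

lemma JH_one (a : ℕ) (f : Lam K) : JH s 1 (hy (1 + s) a * f) =
    JH s 0 (hy (1 + s) (a + 1) * f) - hy (1 + s) (a + 1) * JH s 0 f := by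
  rw [h3, h3, Nat.sum_antidiagonal_succ']
  simp only [zero_add, add_comm 1, add_zero, add_sub_cancel_left]

lemma Dq_hh (h2 : ∀ v, JH s v 1 = ep s v) (h1 : ∀ m, C (qi (1 + s) (m + 1)) * hy (1 + s) (m + 1) =
    ∑ p ∈ antidiagonal m, ep s p.1 * hy (1 + s) p.2) (b : ℕ) : ∀ d,
    Dq (1 + s) (fun d b => hy (1 + s) (d + b) * hy (1 + s) b) d b =
      JH s 1 (hy (1 + s) (d + b) * hy (1 + s) b) := by
  have h0 : ∀ m, JH s 0 (hy (1 + s) m) = qi (1 + s) (m + 1) • hy (1 + s) (m + 1) := fun m => by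
    rw [smul_eq_C_mul, h1, ← mul_one (hy (1 + s) m), h3, ← Nat.sum_antidiagonal_swap]
    simp only [h2, zero_add, Prod.fst_swap, Prod.snd_swap, mul_comm]
  induction b with
  | zero =>
    intro d
    rw [JH_one h3, h0, hy_zero, mul_one, h0]
    simp [Dq]
  | succ b ih =>
    intro d
    have e := ih (d + 2)
    rw [mul_comm (hy (1 + s) (d + 2 + b)), JH_one h3, h0, show d + 2 + b = d + (b + 1) + 1 by ring,
      mul_comm (hy (1 + s) (b + 1))] at e
    rw [JH_one h3, h0, ← sub_add_cancel (JH s 0 (hy (1 + s) (d + (b + 1) + 1) * hy (1 + s) (b + 1)))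
      (hy (1 + s) (b + 1) * qi (1 + s) (d + (b + 1) + 1 + 1) • hy (1 + s) (d + (b + 1) + 1 + 1)), ← e]
    simp only [Dq]
    rw [sum_range_succ _ (b + 1), add_sub_assoc]
    congr 1
    · refine sum_congr rfl fun j hj => ?_
      have := mem_range.1 hj
      rw [show d + 2 * (b + 1) + 2 - j = d + 2 + 2 * b + 2 - j by omega,
        show d + 2 * (b + 1 - j) = d + 2 + 2 * (b - j) by omega]
    · rw [show d + 2 * (b + 1) + 2 - (b + 1) = d + (b + 1) + 1 + 1 by omega,
        show d + 2 * (b + 1 - (b + 1)) + 2 + (b + 1) = d + (b + 1) + 1 + 1 by omega,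
        show d + 2 * (b + 1 - (b + 1)) + (b + 1 + 1) = d + (b + 1) + 1 by omega]
      simp only [mul_smul_comm, smul_mul_assoc, mul_comm]

end

end X56

theorem st_TH1 (hEP : St_EP) (hJI : St_JI) : St_TH1 := by
  intro K _ _ s hs k
  obtain ⟨-, h1⟩ := hEP K s hs
  obtain ⟨-, h2, h3, -⟩ := hJI K s hs
  refine ⟨fun d b => ?_, fun c d => by rw [X56.GG_eq h3, X56.GG_eq h3, mul_comm]⟩
  rw [X56.GG_eq h3]
  induction k generalizing d b with
  | zero => rfl
  | succ k ih =>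
    rw [Function.iterate_succ_apply', show (Dq (1 + s))^[k] _ = _ from
      funext fun d => funext fun b => ih d b, X56.Dq_map, pow_succ, Module.End.mul_apply,
      ← X56.Dq_hh h3 h2 h1]

end MJS
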