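import Pool.Agent.Lib.MP_9c49f6_co.S_Kit

/-! Second face, step TH2: positivity of the coefficients `th` and divisibility by `[k]`. -/

namespace MJS
open MJ MJT MJC Finset MvPolynomial

namespace X95
variable {K : Type} [Field K]

/-- double power series with operator coefficients -/
abbrev R2 (K : Type) [Field K] : Type := PowerSeries (PowerSeries (Module.End K (Lam K)))

noncomputable def cf (X : R2 K) (m l : ℕ) : Module.End K (Lam K) :=
  PowerSeries.coeff l (PowerSeries.coeff m X)

noncomputable def op (s : K) (c : ℕ → K) : R2 K :=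
  PowerSeries.mk fun a => PowerSeries.mk fun b => c a • (JH s (1 + a + b) : Module.End K (Lam K))

lemma cf_op (s : K) (c : ℕ → K) (m l : ℕ) :
    cf (op s c) m l = c m • (JH s (1 + m + l) : Module.End K (Lam K)) := by
  simp [cf, op]

lemma cf_mul (X Y : R2 K) (m l : ℕ) : cf (X * Y) m l =
    ∑ p ∈ antidiagonal m, ∑ r ∈ antidiagonal l, cf X p.1 r.1 * cf Y p.2 r.2 := by
  simp only [cf, PowerSeries.coeff_mul, map_sum]

lemma cf_one (m l : ℕ) : cf (1 : R2 K) m l = if m = 0 ∧ l = 0 then 1 else 0 := by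
  simp only [cf, PowerSeries.coeff_one]
  by_cases hm : m = 0 <;> by_cases hl : l = 0 <;> simp [hm, hl, PowerSeries.coeff_one]

lemma cf_smul (a : K) (X : R2 K) (m l : ℕ) : cf (a • X) m l = a • cf X m l := rfl

lemma cf_sub (X Y : R2 K) (m l : ℕ) : cf (X - Y) m l = cf X m l - cf Y m l := by
  simp only [cf, map_sub]

lemma cf_ext {X Y : R2 K} (h : ∀ m l, cf X m l = cf Y m l) : X = Y :=
  PowerSeries.ext fun m => PowerSeries.ext fun l => h m l

lemma th_eq (s : K) (k m l : ℕ) : th s k m l = cf (op s (fun _ => 1) ^ k) m l 1 := by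
  induction k generalizing m l with
  | zero =>
    rw [pow_zero, cf_one]
    simp only [th, Function.iterate_zero, id]
    split_ifs <;> simp
  | succ k ih =>
    have : th s (k + 1) = AO s (th s k) := Function.iterate_succ_apply' _ _ _
    rw [this, pow_succ', cf_mul]
    simp only [AO, ih, cf_op, one_smul, LinearMap.sum_apply, Module.End.mul_apply]

lemma scale (s : K) (k m l : ℕ) : cf (op s (fun a => (1 + s) ^ a) ^ k) m l =
    (1 + s) ^ m • cf (op s (fun _ => 1) ^ k) m l := by
  induction k generalizing m l with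
  | zero =>
    rw [pow_zero, pow_zero, cf_one]
    split_ifs with h
    · simp [h.1]
    · simp
  | succ k ih =>
    rw [pow_succ', pow_succ', cf_mul, cf_mul, smul_sum]
    refine sum_congr rfl fun p hp => ?_
    rw [smul_sum]
    refine sum_congr rfl fun r _ => ?_
    rw [ih, cf_op, cf_op, one_smul, smul_mul_smul_comm, ← pow_add, mem_antidiagonal.1 hp]

/-- all coefficients preserve the cone -/
def Ps (s : K) (X : R2 K) : Prop := ∀ m l, ∀ f ∈ PC (cone s), cf X m l f ∈ PC (cone s)

lemma Ps.mul {s : K} {X Y : R2 K} (hX : Ps s X) (hY : Ps s Y) : Ps s (X * Y) := fun m l f hf => by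
  rw [cf_mul]
  simp only [LinearMap.sum_apply, Module.End.mul_apply]
  exact sum_mem fun p _ => sum_mem fun r _ => hX _ _ _ (hY _ _ _ hf)

lemma Ps.pow {s : K} {X : R2 K} (hX : Ps s X) (k : ℕ) : Ps s (X ^ k) := by
  induction k with
  | zero =>
    intro m l f hf
    rw [pow_zero, cf_one]
    split_ifs
    · exact hf
    · exact zero_mem _
  | succ k ih => rw [pow_succ]; exact ih.mul hX

lemma Ps_op {s : K} (hJ : ∀ v, ∀ f ∈ PC (cone s), JH s v f ∈ PC (cone s)) {c : ℕ → K}
    (hc : ∀ a, c a ∈ cone s) : Ps s (op s c) := fun m l f hf => by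
  rw [cf_op]
  exact smul_PC (hc m) (hJ _ f hf)

lemma comm [CharZero K] (s : K)
    (hK : ∀ a b f, JH s a (JH s (b + 1) f) - (1 + s) • JH s (a + 1) (JH s b f) +
      (JH s b (JH s (a + 1) f) - (1 + s) • JH s (b + 1) (JH s a f)) = 0) :
    op s (fun a => qi (1 + s) (a + 1)) * op s (qi (1 + s)) =
      (1 + s) • (op s (qi (1 + s)) * op s (fun a => qi (1 + s) (a + 1))) := by
  refine cf_ext fun n l => ?_
  rw [cf_smul, cf_mul, cf_mul]
  simp only [cf_op]
  rcases n with _ | m
  · simp
  rw [Finset.Nat.sum_antidiagonal_succ', Finset.Nat.sum_antidiagonal_succ]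
  simp only [qi_zero, zero_smul, mul_zero, zero_mul, sum_const_zero, zero_add]
  refine LinearMap.ext fun f => ?_
  rw [← sub_eq_zero]
  set G : ℕ × ℕ → ℕ × ℕ → Lam K := fun p r => (qi (1 + s) (p.1 + 1) * qi (1 + s) (p.2 + 1)) •
    (JH s (1 + p.1 + r.1) (JH s (1 + p.2 + r.2 + 1) f) -
      (1 + s) • JH s (1 + p.1 + r.1 + 1) (JH s (1 + p.2 + r.2) f)) with hG
  have e1 : ∑ p ∈ antidiagonal m, ∑ r ∈ antidiagonal l, G p r =
      ∑ p ∈ antidiagonal m, ∑ r ∈ antidiagonal l, G p.swap r.swap := by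
    rw [← Finset.Nat.sum_antidiagonal_swap]
    exact sum_congr rfl fun p _ => (Finset.Nat.sum_antidiagonal_swap).symm
  have e2 : (2 : K) • ∑ p ∈ antidiagonal m, ∑ r ∈ antidiagonal l, G p r = 0 := by
    rw [two_smul]
    nth_rewrite 2 [e1]
    rw [← sum_add_distrib]
    refine sum_eq_zero fun p _ => ?_
    rw [← sum_add_distrib]
    refine sum_eq_zero fun r _ => ?_
    simp only [hG, Prod.fst_swap, Prod.snd_swap]
    rw [mul_comm (qi (1 + s) (p.2 + 1)), ← smul_add, hK, smul_zero]
  refine Eq.trans ?_ ((smul_eq_zero.1 e2).resolve_left two_ne_zero)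
  simp only [LinearMap.smul_apply, LinearMap.sum_apply, smul_sum, ← sum_sub_distrib]
  refine sum_congr rfl fun p _ => sum_congr rfl fun r _ => ?_
  simp only [hG, Module.End.mul_apply, LinearMap.smul_apply, map_smul, smul_sub, smul_smul]
  rw [show 1 + (p.2 + 1) + r.2 = 1 + p.2 + r.2 + 1 by ring,
    show 1 + (p.1 + 1) + r.1 = 1 + p.1 + r.1 + 1 by ring]
  congr 2 <;> ring

lemma pow_sub {R : Type} [Ring R] [Algebra K R] (s : K) {A B P : R}
    (h1 : A * P = (1 + s) • (P * B)) (h2 : B - A = s • P) (k : ℕ) :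
    B ^ (k + 1) - A ^ (k + 1) = (s * qi (1 + s) (k + 1)) • (P * B ^ k) := by
  induction k with
  | zero => simpa using h2
  | succ k ih =>
    have e : B ^ (k + 1 + 1) - A ^ (k + 1 + 1) =
        (B - A) * B ^ (k + 1) + A * (B ^ (k + 1) - A ^ (k + 1)) := by
      rw [pow_succ' B (k + 1), pow_succ' A (k + 1)]; noncomm_ring
    rw [e, ih, h2, mul_smul_comm, ← mul_assoc, h1, smul_mul_assoc, smul_mul_assoc, smul_smul,
      mul_assoc P, ← pow_succ', ← add_smul, qi_succ' _ (k + 1)]
    congr 1; ring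

end X95

open X95 in
theorem st_TH2 (hJI : St_JI) : St_TH2 := by
  intro K _ _ s hs k m l
  obtain ⟨hJ, -, -, hK⟩ := hJI K s hs
  refine ⟨?_, ?_⟩
  · rw [th_eq]
    exact (Ps_op hJ fun _ => one_mem _).pow k m l 1 (one_mem _)
  rcases k with _ | k
  · refine ⟨0, zero_mem _, ?_⟩
    simp only [th, Function.iterate_zero, id]
    split_ifs with h
    · simp [h.1]
    · simp
  have hA : op s (fun _ => 1) =
      op s (fun a => qi (1 + s) (a + 1)) - (1 + s) • op s (qi (1 + s)) :=
    cf_ext fun a b => by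
      rw [cf_sub, cf_smul, cf_op, cf_op, cf_op, smul_smul, qi_succ']
      module
  have hB : op s (fun a => (1 + s) ^ a) =
      op s (fun a => qi (1 + s) (a + 1)) - op s (qi (1 + s)) :=
    cf_ext fun a b => by
      rw [cf_sub, cf_op, cf_op, cf_op, qi_succ]
      module
  have h1 : op s (fun _ => 1) * op s (qi (1 + s)) =
      (1 + s) • (op s (qi (1 + s)) * op s (fun a => (1 + s) ^ a)) := by
    rw [hA, hB, sub_mul, comm s hK, mul_sub, smul_sub, smul_mul_assoc]
  have h2 : op s (fun a => (1 + s) ^ a) - op s (fun _ => 1) = s • op s (qi (1 + s)) := by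
    rw [hA, hB, add_smul, one_smul]; abel
  have h3 := congrArg (fun X => cf X m l 1) (pow_sub s h1 h2 k)
  simp only [cf_sub, cf_smul, scale, LinearMap.sub_apply, LinearMap.smul_apply, ← th_eq] at h3
  refine ⟨_, ((Ps_op hJ (qi_cone s)).mul
    ((Ps_op hJ fun a => pow_mem (q_cone s) a).pow k)) m l 1 (one_mem _), ?_⟩
  rw [← smul_eq_C_mul, ← smul_eq_C_mul]
  refine smul_right_injective _ hs.s_ne ?_
  simp only [smul_smul]
  rw [← h3, qi_mul, sub_smul, one_smul]

end MJS
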