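import Pool.Agent.Lib.MP_9c49f6_co.S_Kit

/-! Second face: positivity for the twisted weights. -/

namespace MJS
open MJ MJT MJC Finset MvPolynomial

namespace X92
variable {K : Type} [Field K]

lemma map_conv2 (φ : AA K →ₐ[K] AA K) (M M' : PowerSeries (AA K)) (B : ℕ → ℕ → AA K) (a b : ℕ) :
    φ (conv2 M M' B a b) = conv2 (PowerSeries.map (φ : AA K →+* AA K) M)
      (PowerSeries.map (φ : AA K →+* AA K) M') (fun i j => φ (B i j)) a b := by
  simp only [conv2, map_sum, map_mul, PowerSeries.coeff_map, RingHom.coe_coe]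

lemma sum_tr (q : K) (φ : AA K →ₐ[K] AA K) {m a : ℕ} (h : m ≤ a) (G : ℕ → AA K) :
    ∑ i ∈ range (a + 1), φ (tr q Sum.inr i m) * G i =
      ∑ p ∈ antidiagonal m, φ (Hh q Sum.inr p.1) * G p.2 := by
  rw [← Finset.Nat.sum_antidiagonal_swap, Finset.Nat.sum_antidiagonal_eq_sum_range_succ_mk]
  symm
  refine (sum_congr rfl fun i hi => ?_).trans
    (sum_subset (range_subset_range.2 (Nat.succ_le_succ h)) fun i _ hi => ?_)
  · rw [tr, if_pos (Nat.lt_succ_iff.1 (mem_range.1 hi))]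
    rfl
  · rw [tr, if_neg fun h' => hi (mem_range.2 (Nat.lt_succ_of_le h')), map_zero, zero_mul]

variable {s : K} (h : Gen s) {ev nb : AA K →ₐ[K] AA K}
  (hm : ∀ m, ev (Hh (1 + s) Sum.inl m) = C ((1 + s) ^ m.choose 2 / qf (1 + s) m) ∧
    ev (Hh (1 + s) Sum.inr m) = Hh (1 + s) Sum.inr m ∧
    nb (Hh (1 + s) Sum.inl m) = Hh (1 + s) Sum.inl m ∧
    nb (Hh (1 + s) Sum.inr m) = C ((1 + s) ^ m.choose 2) * Hh (1 + s) Sum.inr m)
include hm

lemma map_MS : PowerSeries.map (nb : AA K →+* AA K) (MS (1 + s) (qf (1 + s))) =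
    MS (1 + s) (gl (1 + s)) := by
  refine PowerSeries.ext fun k => ?_
  simp only [MS, PowerSeries.coeff_map, PowerSeries.coeff_mk, RingHom.coe_coe, map_mul, algHom_C,
    (hm k).2.2.1, (hm k).2.2.2, gl_eq, algebraMap_eq]
  ring

lemma map_MI : PowerSeries.map (nb : AA K →+* AA K) (MI (1 + s) (qf (1 + s))) =
    MI (1 + s) (gl (1 + s)) := by
  have h1 := congrArg (PowerSeries.map (nb : AA K →+* AA K))
    (MS_mul_MI (1 + s) (qf_zero (1 + s)))
  rw [map_mul, map_one, map_MS hm, mul_comm] at h1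
  exact left_inv_eq_right_inv h1 (MS_mul_MI (1 + s) (by simp [gl_eq]))

lemma map_LG (k : ℕ) : nb (LG (1 + s) (qf (1 + s)) k) = LG (1 + s) (gl (1 + s)) k := by
  have h1 : PowerSeries.map (nb : AA K →+* AA K)
      (PowerSeries.derivative (AA K) (MS (1 + s) (qf (1 + s)))) =
      PowerSeries.derivative (AA K) (MS (1 + s) (gl (1 + s))) := by
    refine PowerSeries.ext fun k => ?_
    rw [← map_MS hm, PowerSeries.coeff_map, PowerSeries.coeff_derivative,
      PowerSeries.coeff_derivative, PowerSeries.coeff_map, map_mul, map_add, map_natCast, map_one]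
  rw [LG, LG, map_mul, algHom_C, algebraMap_eq, ka, ka, ← h1, ← map_MI hm, ← map_mul,
    PowerSeries.coeff_map]
  rfl

lemma sum_w (a : ℕ) (G : ℕ → AA K) :
    ∑ i ∈ range (a + 1), nb (PowerSeries.coeff a (wS (1 + s) 0 i)) * G i =
      ∑ p ∈ antidiagonal a, PowerSeries.coeff p.1 (MI (1 + s) (gl (1 + s))) *
        (C (qf (1 + s) p.2) * Hh (1 + s) Sum.inl p.2) *
        ∑ r ∈ antidiagonal p.2, nb (Hh (1 + s) Sum.inr r.1) * G r.2 := by
  simp only [wS, PowerSeries.coeff_mul, PowerSeries.coeff_mk, map_sum, map_mul, sum_mul]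
  rw [sum_comm]
  refine sum_congr rfl fun p hp => ?_
  rw [← sum_tr (1 + s) nb (a := a) (by have := mem_antidiagonal.1 hp; omega), mul_sum,
    ← map_MI hm, PowerSeries.coeff_map]
  refine sum_congr rfl fun i _ => ?_
  rw [tr, if_pos (Nat.zero_le _), Nat.sub_zero, (hm _).2.2.1, algHom_C, algebraMap_eq,
    RingHom.coe_coe]
  ring

include h

lemma ev_Bu (m m' : ℕ) : ev (Bu (1 + s) m m') = ∑ r ∈ antidiagonal m, ∑ r' ∈ antidiagonal m',
    nb (Hh (1 + s) Sum.inr r.1) * nb (Hh (1 + s) Sum.inr r'.1) * ev (Cu (1 + s) r.2 r'.2) := by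
  have h1 : Bu (1 + s) = conv2 (MS (1 + s) (qf (1 + s))) (MS (1 + s) (qf (1 + s))) (Cu (1 + s)) := by
    rw [Cu, conv2_conv2, MS_mul_MI (1 + s) (qf_zero (1 + s)), conv2_one]
  have h2 : ∀ c, ev (PowerSeries.coeff c (MS (1 + s) (qf (1 + s)))) =
      nb (Hh (1 + s) Sum.inr c) := fun c => by
    rw [MS, PowerSeries.coeff_mk, map_mul, map_mul, algHom_C, algebraMap_eq, (hm c).1, (hm c).2.1,
      (hm c).2.2.2, ← mul_assoc, ← C_mul, mul_div_cancel₀ _ (h.qf_ne c)]
  conv_lhs => rw [h1]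
  simp only [conv2, map_sum, map_mul, h2]

lemma Bt_eq (hIQ : St_IQ) (m m' : ℕ) : Bt (1 + s) m m' = nb (Bu (1 + s) m m') +
    C (qf (1 + s) m) * Hh (1 + s) Sum.inl m * (C (qf (1 + s) m') * Hh (1 + s) Sum.inl m') *
      ev (Bu (1 + s) m m') := by
  have hI := congrArg (fun x : K => (C ((1 + s) ^ m.choose 2 * (1 + s) ^ m'.choose 2 * x) : AA K))
    (hIQ K s h m m')
  have hq : ∀ k : ℕ, (1 + s) ^ k ≠ 0 := fun k => pow_ne_zero _ h.1
  have hU : ∀ e, ia (1 + s) e (uu (1 + s) m m') = ∑ l ∈ range (min m m'),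
      C (cw (1 + s) (m - l) (m' - l)) * (Hh (1 + s) e l * Hh (1 + s) e (m + m' - l)) := fun e => by
    simp only [uu, map_sum, map_mul, ia_hh, smul_eq_C_mul, algHom_C, algebraMap_eq]
  simp only [mul_sum, map_sum] at hI
  rw [Bt, hU, hU, ew, add_sub_cancel_left, mul_sub, C_sub,
    show gl (1 + s) m * gl (1 + s) m' * (s * (min m m' : ℕ)) = qf (1 + s) m * qf (1 + s) m' *
      ((1 + s) ^ m.choose 2 * (1 + s) ^ m'.choose 2 * (s * (min m m' : ℕ))) by
        simp only [gl_eq]; ring, C_mul (a := qf (1 + s) m * qf (1 + s) m'), ← hI]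
  simp only [Bu, map_sum, mul_sum, sum_mul, mul_add, sub_mul, ← sum_add_distrib, ← sum_sub_distrib]
  refine sum_congr rfl fun l _ => ?_
  have hg := h.gN_ne (m + m') l
  have e1 : (1 + s) ^ m.choose 2 * (1 + s) ^ m'.choose 2 * (cw (1 + s) (m - l) (m' - l) *
      (qf (1 + s) m * qf (1 + s) m' / gN (1 + s) (m + m') l) *
      ((1 + s) ^ (l.choose 2 + (m + m' - l).choose 2) / (1 + s) ^ (m.choose 2 + m'.choose 2) - 1)) =
      cw (1 + s) (m - l) (m' - l) * (qf (1 + s) m * qf (1 + s) m' / gN (1 + s) (m + m') l) *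
        ((1 + s) ^ l.choose 2 * (1 + s) ^ (m + m' - l).choose 2 -
          (1 + s) ^ m.choose 2 * (1 + s) ^ m'.choose 2) := by
    have := hq (m.choose 2)
    have := hq (m'.choose 2)
    rw [pow_add, pow_add]
    field_simp
  have e2 : (C (gN (1 + s) (m + m') l) : AA K) *
      C (qf (1 + s) m * qf (1 + s) m' / gN (1 + s) (m + m') l) =
      C (qf (1 + s) m) * C (qf (1 + s) m') := by
    rw [← C_mul, ← C_mul, mul_div_cancel₀ _ hg]
  have e3 : (C (gN (1 + s) (m + m') l) : AA K) =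
      C (qf (1 + s) l) * C (qf (1 + s) (m + m' - l)) := by rw [gN, C_mul]
  have e4 : ∀ k, (C (qf (1 + s) k) : AA K) * C ((1 + s) ^ k.choose 2 / qf (1 + s) k) =
      C ((1 + s) ^ k.choose 2) := fun k => by rw [← C_mul, mul_div_cancel₀ _ (h.qf_ne k)]
  rw [e1]
  simp only [et2, Mm, map_mul, map_sub, algHom_C, algebraMap_eq, gl_eq, fun k => (hm k).1,
    fun k => (hm k).2.1, fun k => (hm k).2.2.1, fun k => (hm k).2.2.2]
  have a1 := e4 l
  have a2 := e4 (m + m' - l)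
  have a3 := e4 m
  have a4 := e4 m'
  generalize (C ((1 + s) ^ l.choose 2 / qf (1 + s) l) : AA K) = E1 at *
  generalize (C ((1 + s) ^ (m + m' - l).choose 2 / qf (1 + s) (m + m' - l)) : AA K) = E2 at *
  generalize (C ((1 + s) ^ m.choose 2 / qf (1 + s) m) : AA K) = E3 at *
  generalize (C ((1 + s) ^ m'.choose 2 / qf (1 + s) m') : AA K) = E4 at *
  rw [← a1, ← a2, ← a3, ← a4]
  generalize (C (qf (1 + s) m * qf (1 + s) m' / gN (1 + s) (m + m') l) : AA K) = ρ at *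
  rw [e3] at e2 ⊢
  linear_combination C (cw (1 + s) (m - l) (m' - l)) *
    (C (qf (1 + s) m) * C (qf (1 + s) m') * (E3 * E4) *
      (Hh (1 + s) Sum.inl l * Hh (1 + s) Sum.inl (m + m' - l) *
          (Hh (1 + s) Sum.inr m * Hh (1 + s) Sum.inr m') +
        Hh (1 + s) Sum.inl m * Hh (1 + s) Sum.inl m' *
          (Hh (1 + s) Sum.inr l * Hh (1 + s) Sum.inr (m + m' - l) -
            2 * ρ * (Hh (1 + s) Sum.inr m * Hh (1 + s) Sum.inr m'))) +
      C (qf (1 + s) l) * C (qf (1 + s) (m + m' - l)) * (E1 * E2) *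
        (Hh (1 + s) Sum.inl m * Hh (1 + s) Sum.inl m' *
          (Hh (1 + s) Sum.inr l * Hh (1 + s) Sum.inr (m + m' - l)))) * e2

end X92

open X92 in
theorem st_TW2 (hIQ : St_IQ) (hW1 : St_WP1) (hW2 : St_WP2) (hCU : St_CU) (hT : St_TW1) :
    St_TW2 := by
  intro K _ _ s h
  obtain ⟨ev, nb, hP, hm⟩ := hT K s h
  refine ⟨fun k => map_LG hm k ▸ (hP _ ((hW2 K s h).1 k)).2, fun a b => ?_⟩
  have h1 : Ct (1 + s) a b = nb (Cu (1 + s) a b) + ∑ i ∈ range (a + 1),
      nb (PowerSeries.coeff a (wS (1 + s) 0 i)) * ∑ j ∈ range (b + 1),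
        nb (PowerSeries.coeff b (wS (1 + s) 0 j)) * ev (Cu (1 + s) i j) := by
    rw [sum_w hm]
    simp only [sum_w hm]
    rw [Cu, map_conv2, map_MI hm, ← Cu]
    simp only [Ct, conv2, Bt_eq h hm hIQ, mul_add, sum_add_distrib, ev_Bu h hm, mul_sum]
    refine congrArg _ (sum_congr rfl fun p _ => ?_)
    rw [sum_comm]
    refine sum_congr rfl fun r _ => sum_congr rfl fun p' _ => sum_congr rfl fun r' _ => ?_
    ring
  rw [h1, mul_add, mul_sum]
  refine add_mem ?_ (sum_mem fun i _ => ?_)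
  · have := (hP _ (hCU K s h a b)).2
    rwa [map_mul, algHom_C, algebraMap_eq] at this
  · obtain ⟨p, -, p', hp', e⟩ := (hW2 K s h).2 0 i a
    have e1 := congrArg nb e
    rw [qi_zero, C_0, zero_mul, zero_add, map_mul, map_mul, algHom_C, algHom_C, algebraMap_eq] at e1
    rw [← mul_assoc, e1, mul_sum]
    refine sum_mem fun j _ => ?_
    have h2 := (hP _ (hCU K s h i j)).1
    rw [map_mul, algHom_C, algebraMap_eq] at h2
    have h3 := mul_mem (mul_mem (hP _ hp').2 (hP _ (hW1 K s h 0 j b)).2) h2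
    rwa [mul_comm (nb p' * _), mul_mul_mul_comm, mul_comm (ev _)] at h3

end MJS
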