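import Pool.Agent.Lib.MP_9c49f6_co.TBlue

/-! Row QB: the q-binomial expansion and the column statistic. -/

namespace MJT
open MJ Finset

namespace QB94

lemma ex_scale {K : Type} [Field K] (c : K) (a : ℕ → K) (r : ℕ) :
    ex K (fun k => c ^ (k + 1) * a k) r = c ^ r * ex K a r := by
  induction r using Nat.strong_induction_on with
  | _ r ih =>
    cases r with
    | zero => simp
    | succ r =>
      rw [ex_succ', ex_succ', smul_eq_mul, smul_eq_mul, mul_left_comm]
      congr 1
      rw [mul_sum]
      refine sum_congr rfl fun k hk => ?_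
      have hk' : k ≤ r := Nat.lt_succ_iff.mp (mem_range.mp hk)
      rw [ih _ (by omega)]
      have h : c ^ (r + 1) = c ^ (k + 1) * c ^ (r - k) := by
        rw [← pow_add]; exact congrArg _ (by omega)
      rw [h]; ring

lemma step {K : Type} [Field K] [CharZero K] (q : K) (hq : ∀ k, q ^ (k + 1) ≠ 1) (m : ℕ) :
    ex K (fun k => (1 - q ^ (k + 1))⁻¹) (m + 1) * (1 - q ^ (m + 1)) =
      ex K (fun k => (1 - q ^ (k + 1))⁻¹) m := by
  set a : ℕ → K := fun k => (1 - q ^ (k + 1))⁻¹ with ha
  have h1 : a = fun k => q ^ (k + 1) * a k + (1 : K) ^ (k + 1) := by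
    funext k
    have h0 : 1 - q ^ (k + 1) ≠ 0 := sub_ne_zero.mpr (hq k).symm
    simp only [ha, one_pow]
    field_simp
    ring
  have h2 : Ex K a * (1 - PowerSeries.C (1 : K) * PowerSeries.X) =
      Ex K (fun k => q ^ (k + 1) * a k) := by
    have h3 := Ex_add (F := K) (fun k => q ^ (k + 1) * a k) (fun k => (1 : K) ^ (k + 1))
    rw [← h1] at h3
    rw [h3, mul_assoc, Ex_geom, mul_one]
  have h4 := congrArg (PowerSeries.coeff (m + 1)) h2
  rw [mul_sub, mul_one, map_one, one_mul, map_sub, PowerSeries.coeff_succ_mul_X, Ex_coeff,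
    Ex_coeff, Ex_coeff, ex_scale] at h4
  linear_combination h4

lemma sum_lt (n i : ℕ) (h : i ≤ n) :
    ∑ j ∈ range n, (if j < i then j else 0) = i.choose 2 := by
  rw [← sum_filter]
  have h1 : (range n).filter (· < i) = range i := by
    ext j; simp only [mem_filter, mem_range]; omega
  rw [h1, sum_range_id, Nat.choose_two_right]

lemma col_sum (n : ℕ) (M : Multiset ℕ) (h : ∀ i ∈ M, i ≤ n) :
    ∑ j ∈ range n, j * (M.filter (j < ·)).card = (M.map fun i => i.choose 2).sum := by
  induction M using Multiset.induction_on with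
  | empty => simp
  | cons a M ih =>
    rw [Multiset.map_cons, Multiset.sum_cons, ← ih fun i hi => h i (Multiset.mem_cons_of_mem hi),
      ← sum_lt n a (h a (Multiset.mem_cons_self a M)), ← sum_add_distrib]
    refine sum_congr rfl fun j _ => ?_
    by_cases hj : j < a
    · rw [Multiset.filter_cons_of_pos _ hj, Multiset.card_cons, if_pos hj]; ring
    · rw [Multiset.filter_cons_of_neg _ hj, if_neg hj, zero_add]

end QB94

theorem st_QB : St_QB := by
  intro K _ _ q hq
  refine ⟨fun m => ?_, fun n l => ?_⟩
  · induction m with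
    | zero => simp
    | succ m ih =>
      rw [prod_range_succ, mul_comm (∏ j ∈ range m, (1 - q ^ (j + 1))), ← mul_assoc,
        QB94.step q hq, ih]
  · exact QB94.col_sum n l.parts fun i hi => by
      have := Multiset.single_le_sum (fun _ _ => Nat.zero_le _) i hi
      rwa [l.parts_sum] at this

end MJT
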