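import Pool.Agent.Lib.MP_9c49f6_co.S_Kit
import Pool.Agent.Lib.MP_9c49f6_co.T_QB

/-! Second face: the first-order expansion of the weights. -/

namespace MJS
open MJ MJT MJC Finset MvPolynomial

namespace W57
variable {K F : Type} [Field K] [Field F] [Algebra K F] {n : ℕ}

lemma pair_mul_left (c : K) (β : ℕ → ℕ → K) (a : ℕ → K) (l : List ℕ) :
    pair (fun m m' => c * β m m') a l = c * pair β a l := by
  induction l with
  | nil => simp
  | cons m l ih => simp only [pair_cons, ih, one_mul_left]; ring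

lemma pair_scale_one (β : ℕ → ℕ → K) (e : ℕ → K) (l : List ℕ) :
    pair (fun m m' => β m m' * (e m * e m')) e l = pair β (fun _ => 1) l * (l.map e).prod := by
  simpa using pair_scale β (fun _ => 1) e l

lemma pair_min (L : List ℕ) (hL : L.Pairwise (· ≥ ·)) : ∀ N, L.length ≤ N →
    ((∑ i ∈ range N, i * L.getD i 0 : ℕ) : K) =
      pair (fun m m' => ((min m m' : ℕ) : K)) (fun _ => 1) L := by
  induction L with
  | nil => simp
  | cons m L ih =>
    intro N hN
    obtain ⟨N, rfl⟩ : ∃ M, N = M + 1 := ⟨N - 1, by simp at hN; omega⟩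
    obtain ⟨h1, h2⟩ := List.pairwise_cons.mp hL
    have h3 : L.length ≤ N := by simpa using hN
    have h4 : one (fun m' => ((min m m' : ℕ) : K)) (fun _ => 1) L = (L.sum : ℕ) := by
      have := one_self (fun m' : ℕ => (m' : K)) (fun _ => 1) L
      rw [one_congr (g' := fun m' : ℕ => (m' : K) * 1) (fun x hx => by
        rw [min_eq_right (h1 x hx), mul_one]) fun _ _ => rfl, this]
      simp
    rw [pair_cons, ← ih h2 N h3, h4, ← sum_getD L N h3, sum_range_succ', one_mul, ← Nat.cast_add,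
      ← sum_add_distrib]
    simp only [List.getD_cons_succ, zero_mul, zero_add, add_mul, one_mul, add_comm]

/-- principal specialisation -/
noncomputable def ev (q : K) : Lam K →ₐ[K] K := aeval fun k => (1 - q ^ (k + 1))⁻¹

/-- `∑ cw [m]! [m']! / gN` -/
def rho (q : K) (m m' : ℕ) : K :=
  ∑ l ∈ range (min m m'), cw q (m - l) (m' - l) * (qf q m * qf q m' / gN q (m + m') l)

lemma w1_eq (s : K) (l : n.Partition) : w1 (1 + s) (lst l) =
    (pair (rho (1 + s)) (fun _ => 1) (lst l) - s * nRow l) * w0 (1 + s) (lst l) := by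
  rw [nRow, show (∑ i ∈ range n, i * row l i) = ∑ i ∈ range n, i * (lst l).getD i 0 from rfl,
    pair_min _ (lst_sorted l) n (lst_length l), ← pair_mul_left, ← pair_sub, w0, ← pair_scale_one,
    w1]
  refine pair_congr (fun m _ m' _ => ?_) fun _ _ => rfl
  rw [ew, rho]
  ring

variable [CharZero K]

lemma ev_eq (q : K) {f : Lam K} (hf : f ∈ Hm K n) : ev q f =
    ∑ μ : n.Partition, coeff (dOf μ) f * (μ.parts.map fun i => (1 - q ^ i)⁻¹).prod := by
  conv_lhs => rw [eq_sum_pm hf, map_sum]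
  refine sum_congr rfl fun μ _ => ?_
  rw [ev, aeval_monomial, ← prod_dOf μ fun i => (1 - q ^ i)⁻¹]
  rfl

variable {s : K}

lemma ev_hh (h : Gen s) (m : ℕ) : ev (1 + s) (hh K m) = ((-s) ^ m * qf (1 + s) m)⁻¹ := by
  have h1 := (st_QB K (1 + s) h.2).1 m
  have h2 : ∏ j ∈ range m, (1 - (1 + s) ^ (j + 1)) = (-s) ^ m * qf (1 + s) m := by
    simp only [LIM15.one_sub_pow (1 + s), prod_mul_distrib, prod_const, card_range, qf]
    congr 2
    ring
  rw [← h2, ← eq_inv_of_mul_eq_one_left h1, hh, map_ex]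
  simp [ev]

lemma ev_uu (h : Gen s) (m m' : ℕ) : ev (1 + s) (uu (1 + s) m m') =
    rho (1 + s) m m' * (ev (1 + s) (hh K m) * ev (1 + s) (hh K m')) := by
  rw [uu, rho, map_sum, sum_mul]
  refine sum_congr rfl fun l hl => ?_
  have h1 : (-s) ^ (m + m' - l) * (-s) ^ l = (-s) ^ m * (-s) ^ m' := by
    rw [← pow_add, ← pow_add, Nat.sub_add_cancel (by simp at hl; omega)]
  have h2 := neg_ne_zero.mpr h.s_ne
  have h3 := h.qf_ne m
  have h4 := h.qf_ne m'
  have h5 := h.qf_ne l
  have h6 := h.qf_ne (m + m' - l)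
  rw [map_smul, map_mul, smul_eq_mul, ev_hh h, ev_hh h, ev_hh h, ev_hh h, gN,
    eq_div_of_mul_eq (pow_ne_zero l h2) h1]
  field_simp

lemma ev_Ul (h : Gen s) (l : List ℕ) : ev (1 + s) (Ul (1 + s) l) =
    pair (rho (1 + s)) (fun _ => 1) l * ev (1 + s) (hl K l) := by
  rw [Ul, map_pair, hl, map_list_prod, List.map_map]
  simp only [ev_uu h]
  exact pair_scale_one _ _ l

lemma ev_hl (h : Gen s) (l : List ℕ) : w0 (1 + s) l * (ev (1 + s) (hl K l) * (-s) ^ l.sum) =
    (1 + s) ^ (l.map fun i => i.choose 2).sum := by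
  induction l with
  | nil => simp [w0, hl]
  | cons m l ih =>
    have h2 := neg_ne_zero.mpr h.s_ne
    have h3 := h.qf_ne m
    simp only [w0, hl, List.map_cons, List.prod_cons, List.sum_cons, map_mul, pow_add, ev_hh h,
      gl_eq] at ih ⊢
    rw [← ih]
    field_simp

variable {O : Subalgebra K F} {θ q t : F}

omit [CharZero K] in
lemma inv_two (L : Loc O θ) {x : F} {a a' : K} (ha : a ≠ 0)
    (h : Cg O θ 2 (x - (algebraMap K F a + θ * algebraMap K F a'))) :
    Cg O θ 2 (x⁻¹ - (algebraMap K F a⁻¹ + θ * algebraMap K F (-a' / a ^ 2))) := by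
  obtain ⟨h1, h2⟩ := L.inv_mem ha (x := x)
    (((L.mono h one_le_two).add (Cg.self.mul_right (O.algebraMap_mem a'))).of_eq (by ring))
  have h3 : algebraMap K F a ≠ 0 := (map_ne_zero _).mpr ha
  refine (((Cg.pow_mul 2 (O.algebraMap_mem (a' ^ 2 / a ^ 2))).sub (h.mul_right (add_mem
    (O.algebraMap_mem a⁻¹) (mul_mem L.mem (O.algebraMap_mem (-a' / a ^ 2)))))).mul_left h2).of_eq ?_
  simp only [map_div₀, map_pow, map_inv₀, map_neg]
  field_simp
  ring

omit [CharZero K] in
lemma t_two (S : Setting s O θ q t) (k : ℕ) :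
    Cg O θ 2 (t⁻¹ ^ k - (1 + θ * algebraMap K F (-(s * k)))) := by
  have h1 := inv_two S.loc (x := t) (a := 1) (a' := s) one_ne_zero
    ((Cg.zero 2).of_eq (by rw [S.ht, map_one, sub_self]))
  induction k with
  | zero => simpa using Cg.zero 2
  | succ k ih =>
    refine (S.loc.mul_two ih h1 (one_mem _) (O.algebraMap_mem _) (O.algebraMap_mem _)
      (O.algebraMap_mem _)).of_eq ?_
    simp only [map_div₀, map_pow, map_inv₀, map_neg, map_one, map_mul, map_natCast, Nat.cast_succ,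
      map_add]
    ring

end W57
open W57

theorem st_W (hA : St_A4) : St_W := by
  intro K F _ _ _ _ _ s O θ q t S n l
  have L := S.loc
  have hg := S.gen
  have h0 := ev_hl hg (lst l)
  have h1 : ((lst l).map fun i => i.choose 2).sum = nCol l := by
    rw [(st_QB K (1 + s) hg.2).2, ← lst_coe l, Multiset.map_coe, Multiset.sum_coe]
  rw [lst_sum, h1] at h0
  have h2 := pow_ne_zero (nCol l) hg.1
  have h3 : ev (1 + s) (hl K (lst l)) ≠ 0 :=
    left_ne_zero_of_mul (right_ne_zero_of_mul (h0 ▸ h2))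
  have h4 : Cg O θ 2 ((∑ μ, xq q t (mac S.hi) l μ * (μ.parts.map fun i => (1 - q ^ i)⁻¹).prod) -
      (algebraMap K F (ev (1 + s) (hl K (lst l))) +
        θ * algebraMap K F (-ev (1 + s) (Ul (1 + s) (lst l))))) := by
    rw [ev_eq _ (hl_lst_Hm l), ev_eq _ (Ul_lst_Hm _ l), map_neg, map_sum, map_sum, mul_neg,
      mul_sum, ← sub_eq_add_neg, ← sum_sub_distrib, ← sum_sub_distrib]
    refine Cg.sum fun μ _ => ((hA K F s O θ q t S n l μ).mul_right (O.algebraMap_mem
      (μ.parts.map fun i => (1 - (1 + s) ^ i)⁻¹).prod)).of_eq ?_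
    have h5 : algebraMap K F (μ.parts.map fun i => (1 - (1 + s) ^ i)⁻¹).prod =
        (μ.parts.map fun i => (1 - q ^ i)⁻¹).prod := by
      simp [map_multiset_prod, Multiset.map_map, S.hq]
    rw [map_mul, map_mul, h5]
    ring
  have h5 := (L.mul_two (t_two S (nRow l)) (inv_two L h3 h4) (one_mem _) (O.algebraMap_mem _)
    (O.algebraMap_mem _) (O.algebraMap_mem _)).mul_left
    (O.algebraMap_mem ((1 + s) ^ nCol l / (-s) ^ n))
  refine h5.of_eq ?_
  have h6 := pow_ne_zero n (neg_ne_zero.mpr hg.s_ne)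
  have h7 : (1 + s) ^ nCol l / (-s) ^ n = w0 (1 + s) (lst l) * ev (1 + s) (hl K (lst l)) := by
    rw [← h0]; field_simp
  have h8 : q ^ nCol l / (1 - q) ^ n = algebraMap K F ((1 + s) ^ nCol l / (-s) ^ n) := by
    simp [S.hq]
  have h9 : algebraMap K F (ev (1 + s) (hl K (lst l))) ≠ 0 := (map_ne_zero _).mpr h3
  rw [ww, mul_comm _ ((1 - q) ^ n), ← div_div, mul_div_right_comm, h8, h7, w1_eq, ev_Ul hg]
  simp only [map_div₀, map_pow, map_inv₀, map_neg, map_mul, map_sub, neg_neg]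
  generalize (∑ μ, xq q t (mac S.hi) l μ * (μ.parts.map fun i => (1 - q ^ i)⁻¹).prod) = Γ
  rw [div_eq_mul_inv _ Γ]
  generalize Γ⁻¹ = G
  field_simp
  ring

end MJS
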