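import Pool.Agent.Lib.MP_9c49f6_co.S_Kit

namespace MJS
open MJ MJT MJC Finset MvPolynomial

namespace X8

variable {K : Type} [Field K]

noncomputable def Nw (q : K) (e e' : ℕ → ℕ ⊕ ℕ) (i j : ℕ) : PowerSeries (AA K) :=
  PowerSeries.mk fun c => C (qf q c) * (tr q e i c * tr q e' j c)

lemma Nw_comm (q : K) (e e' : ℕ → ℕ ⊕ ℕ) (i j : ℕ) : Nw q e e' i j = Nw q e' e j i := by
  simp only [Nw, mul_comm (tr q e i _)]

lemma tr_succ (q : K) (e : ℕ → ℕ ⊕ ℕ) (i c : ℕ) : tr q e (i + 1) (c + 1) = tr q e i c := by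
  simp [tr]

lemma key {s : K} (h : ∀ m, C (qi (1 + s) (m + 1)) * hy (1 + s) (m + 1) =
      ∑ p ∈ antidiagonal m, ep s p.1 * hy (1 + s) p.2) (e : ℕ → ℕ ⊕ ℕ) (j : ℕ) {c B : ℕ}
    (hB : c < B) : C (qi (1 + s) (c + 1)) * tr (1 + s) e j (c + 1) =
      C (qi (1 + s) j) * tr (1 + s) e (j - 1) c +
        C ((1 + s) ^ j) * ∑ m ∈ range B, rename e (ep s m) * tr (1 + s) e (j + m) c := by
  have h1 : C (qi (1 + s) j) * tr (1 + s) e (j - 1) c = C (qi (1 + s) j) * tr (1 + s) e j (c + 1) := by
    cases j with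
    | zero => simp
    | succ j => rw [tr_succ, Nat.add_sub_cancel]
  rw [h1]
  rcases le_or_gt j c with hj | hj
  · obtain ⟨d, rfl⟩ := Nat.exists_eq_add_of_le hj
    have h2 := congrArg (rename e) (h d)
    simp only [map_mul, map_sum, rename_C, rename_hy] at h2
    have h3 : ∑ m ∈ range B, rename e (ep s m) * tr (1 + s) e (j + m) (j + d) =
        ∑ p ∈ antidiagonal d, rename e (ep s p.1) * Hh (1 + s) e p.2 := by
      rw [Nat.sum_antidiagonal_eq_sum_range_succ_mk,
        ← sum_subset (range_subset_range.mpr (by omega : d.succ ≤ B)) fun m _ hm => by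
          rw [tr, if_neg (by simp at hm; omega), mul_zero]]
      refine sum_congr rfl fun m hm => ?_
      rw [tr, if_pos (by simp at hm; omega), Nat.add_sub_add_left]
    rw [h3, ← h2, add_assoc, qi_add, tr, if_pos (by omega), Nat.add_sub_cancel_left]
    simp only [map_add, map_mul]
    ring
  · rw [sum_eq_zero fun m _ => by rw [tr, if_neg (by omega), mul_zero], mul_zero, add_zero]
    rcases eq_or_lt_of_le (Nat.succ_le_of_lt hj) with rfl | h2
    · rfl
    · rw [tr, if_neg (by omega), mul_zero, mul_zero]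

lemma step {s : K} (h0 : ∀ m, ep s m ∈ PC (cone s))
    (h : ∀ m, C (qi (1 + s) (m + 1)) * hy (1 + s) (m + 1) =
      ∑ p ∈ antidiagonal m, ep s p.1 * hy (1 + s) p.2) (e e' : ℕ → ℕ ⊕ ℕ)
    (I : PowerSeries (AA K)) (c : ℕ)
    (ih : ∀ b < c, ∀ i j, PowerSeries.coeff b (I * Nw (1 + s) e e' i j) ∈ PC (cone s)) (i j : ℕ) :
    PowerSeries.coeff c (I * Nw (1 + s) e e' (i + 1) j) ∈ PC (cone s) := by
  let T := PowerSeries.C (C (qi (1 + s) j)) * Nw (1 + s) e e' i (j - 1) +
    PowerSeries.C (C ((1 + s) ^ j)) *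
      ∑ m ∈ range c, PowerSeries.C (rename e' (ep s m)) * Nw (1 + s) e e' i (j + m)
  have h1 : ∀ b ≤ c, PowerSeries.coeff b (Nw (1 + s) e e' (i + 1) j) =
      PowerSeries.coeff b (PowerSeries.X * T) := fun b hb => by
    cases b with
    | zero => simp [Nw, tr]
    | succ b =>
      simp only [PowerSeries.coeff_succ_X_mul, T, map_add, map_sum, PowerSeries.coeff_C_mul, Nw,
        PowerSeries.coeff_mk, tr_succ, qf_succ, map_mul]
      have h2 := congrArg (C (qf (1 + s) b) * tr (1 + s) e i b * ·) (key h e' j hb)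
      simp only [mul_add, mul_sum] at h2 ⊢
      rw [show ∀ x y z w : AA K, x * y * (z * w) = x * z * (y * w) from fun _ _ _ _ => by ring, h2]
      exact congrArg₂ _ (by ring) (sum_congr rfl fun m _ => by ring)
  have h2 : PowerSeries.coeff c (I * Nw (1 + s) e e' (i + 1) j) =
      PowerSeries.coeff c (PowerSeries.X * (I * T)) := by
    rw [mul_left_comm, PowerSeries.coeff_mul, PowerSeries.coeff_mul]
    exact sum_congr rfl fun p hp => by rw [h1 _ (by have := mem_antidiagonal.mp hp; omega)]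
  rw [h2]
  cases c with
  | zero => simp
  | succ c =>
    simp only [PowerSeries.coeff_succ_X_mul, T, mul_add, mul_sum, mul_left_comm I, map_add, map_sum,
      PowerSeries.coeff_C_mul]
    exact add_mem (mul_mem (C_PC (qi_cone s j)) (ih c c.lt_succ_self _ _)) (sum_mem fun m _ =>
      mul_mem (C_PC (pow_mem (q_cone s) j)) (mul_mem (rename_PC _ (h0 m))
        (ih c c.lt_succ_self _ _)))

end X8

open X8

theorem st_WP1 (hEP : St_EP) : St_WP1 := by
  intro K _ _ s hs i j c
  obtain ⟨h0, h⟩ := hEP K s hs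
  change PowerSeries.coeff c (MI (1 + s) (qf (1 + s)) * Nw (1 + s) Sum.inl Sum.inr i j) ∈ _
  induction c using Nat.strong_induction_on generalizing i j with
  | _ c ih =>
    cases i with
    | succ i => exact step h0 h _ _ _ c (fun b hb i j => ih b hb i j) i j
    | zero =>
      cases j with
      | succ j =>
        rw [Nw_comm]
        exact step h0 h _ _ _ c (fun b hb i j => by rw [Nw_comm]; exact ih b hb j i) j 0
      | zero =>
        have e : Nw (1 + s) Sum.inl Sum.inr 0 0 = MS (1 + s) (qf (1 + s)) := by simp [Nw, MS, tr]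
        rw [e, mul_comm, MS_mul_MI _ (qf_zero _), PowerSeries.coeff_one]
        split_ifs
        · exact one_mem _
        · exact zero_mem _

end MJS
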