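import Pool.Agent.Lib.MP_9c49f6_co.TBlue

/-! Row PK: closure properties of `PP` and the derivative of `ex`. -/

namespace MJT
open MJ Finset MvPolynomial

namespace PK5
variable {K : Type} [Field K]

lemma fact_add (d : ℕ ⊕ ℕ →₀ ℕ) (i : ℕ ⊕ ℕ) :
    ((d + Finsupp.single i 1).prod fun _ e => (e.factorial : K)) =
      (d.prod fun _ e => (e.factorial : K)) * ((d i : K) + 1) := by
  classical
  rw [← Finsupp.mul_prod_erase' (d + Finsupp.single i 1) i _ (by simp),
    ← Finsupp.mul_prod_erase' d i _ (by simp), Finsupp.erase_add, Finsupp.erase_single, add_zero]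
  simp only [Finsupp.coe_add, Pi.add_apply, Finsupp.single_eq_same, Nat.factorial_succ]
  push_cast
  ring

lemma step (f : AA K) (d : ℕ ⊕ ℕ →₀ ℕ) (i : ℕ ⊕ ℕ) :
    ((d + Finsupp.single i 1).prod fun _ e => (e.factorial : K)) *
        coeff (d + Finsupp.single i 1) f =
      (d.prod fun _ e => (e.factorial : K)) * coeff d (pderiv i f) := by
  rw [fact_add, coeff_pderiv]
  ring

lemma split (d : ℕ ⊕ ℕ →₀ ℕ) (hd : d ≠ 0) : ∃ d' i, d = d' + Finsupp.single i 1 := by
  obtain ⟨i, hi⟩ := Finsupp.support_nonempty_iff.2 hd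
  refine ⟨d - Finsupp.single i 1, i, (tsub_add_cancel_of_le ?_).symm⟩
  rw [Finsupp.single_le_iff]
  exact Nat.one_le_iff_ne_zero.2 (Finsupp.mem_support_iff.1 hi)

lemma crit (s : K) (f : AA K) : PP s f ↔
    constantCoeff f ∈ Subsemiring.closure ({s} : Set K) ∧ ∀ i, PP s (pderiv i f) := by
  constructor
  · intro h
    refine ⟨?_, fun i d => ?_⟩
    · simpa [constantCoeff_eq] using h 0
    · rw [← step]
      exact h _
  · rintro ⟨h0, h⟩ d
    by_cases hd : d = 0
    · subst hd
      simpa [constantCoeff_eq] using h0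
    · obtain ⟨d', i, rfl⟩ := split d hd
      rw [step]
      exact h i d'

lemma pp_zero (s : K) : PP s 0 := fun d => by simp

lemma pp_add {s : K} {f g : AA K} (hf : PP s f) (hg : PP s g) : PP s (f + g) := fun d => by
  rw [coeff_add, mul_add]
  exact add_mem (hf d) (hg d)

lemma pp_mul {s : K} {f g : AA K} (hf : PP s f) (hg : PP s g) : PP s (f * g) := by
  intro d
  generalize hn : d.degree = n
  induction n generalizing d f g with
  | zero =>
    obtain rfl : d = 0 := (Finsupp.degree_eq_zero_iff d).1 hn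
    have := mul_mem ((crit s f).1 hf).1 ((crit s g).1 hg).1
    rw [← map_mul] at this
    simpa [constantCoeff_eq] using this
  | succ n ih =>
    obtain ⟨d', i, rfl⟩ := split d (by rintro rfl; simp at hn)
    have hd : d'.degree = n := by
      rw [map_add, Finsupp.degree_single] at hn
      omega
    rw [step, pderiv_mul, coeff_add, mul_add]
    exact add_mem (ih (((crit s f).1 hf).2 i) hg d' hd) (ih hf (((crit s g).1 hg).2 i) d' hd)

lemma pp_C {s a : K} (ha : a ∈ Subsemiring.closure ({s} : Set K)) : PP s (C a) :=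
  (crit s _).2 ⟨by simpa using ha, fun i => by rw [pderiv_C]; exact pp_zero s⟩

lemma pp_X (s : K) (i : ℕ ⊕ ℕ) : PP s (X i) := by
  refine (crit s _).2 ⟨by simp, fun j => ?_⟩
  by_cases h : i = j
  · subst h
    rw [pderiv_X_self]
    exact pp_C (a := 1) (one_mem _)
  · rw [pderiv_X_of_ne h]
    exact pp_zero s

lemma pp_sum {s : K} {ι : Type} (t : Finset ι) (f : ι → AA K) (h : ∀ i ∈ t, PP s (f i)) :
    PP s (∑ i ∈ t, f i) :=
  Finset.sum_induction f (PP s) (fun _ _ => pp_add) (pp_zero s) h

lemma der_ex [CharZero K] (a : ℕ → AA K) (i : ℕ ⊕ ℕ) (r : ℕ) : pderiv i (ex K a r) =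
    ∑ k ∈ range r, C ((k + 1 : ℕ) : K)⁻¹ * pderiv i (a k) * ex K a (r - 1 - k) := by
  set P : PowerSeries (AA K) := PowerSeries.mk fun r => pderiv i (ex K a r) with hP
  set B : PowerSeries (AA K) :=
    PowerSeries.mk fun k => C ((k + 1 : ℕ) : K)⁻¹ * pderiv i (a k) with hB
  set D : PowerSeries (AA K) := PowerSeries.mk fun k => pderiv i (a k) with hD
  have hc : ∀ r : ℕ, ((r : AA K) + 1) = C ((r : K) + 1) := fun r => by simp
  have h1 : PowerSeries.derivative (AA K) P = D * Ex K a + PowerSeries.mk a * P := by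
    ext1 r
    have h := congrArg (pderiv i) (ex_succ (F := K) a r)
    rw [Derivation.map_smul, map_sum] at h
    rw [PowerSeries.coeff_derivative, map_add, PowerSeries.coeff_mul, PowerSeries.coeff_mul,
      Nat.sum_antidiagonal_eq_sum_range_succ_mk, Nat.sum_antidiagonal_eq_sum_range_succ_mk,
      ← sum_add_distrib]
    simp only [hP, hD, PowerSeries.coeff_mk, Ex_coeff]
    rw [hc, mul_comm, C_mul', h]
    exact sum_congr rfl fun k _ => pderiv_mul
  have h2 : PowerSeries.derivative (AA K) (PowerSeries.X * B) = D := by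
    ext1 r
    rw [PowerSeries.coeff_derivative, PowerSeries.coeff_succ_X_mul]
    simp only [hB, hD, PowerSeries.coeff_mk]
    rw [hc, mul_comm, ← mul_assoc, ← C_mul, Nat.cast_succ,
      mul_inv_cancel₀ (by exact_mod_cast Nat.succ_ne_zero r), C_1, one_mul]
  have h3 : Ex K a + (P - PowerSeries.X * B * Ex K a) = Ex K a := by
    apply Ex_unique
    · rw [map_add, map_sub, mul_assoc, PowerSeries.coeff_zero_X_mul, Ex_coeff, hP,
        PowerSeries.coeff_mk, ex_zero, pderiv_one, sub_zero, add_zero]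
    · rw [map_add, map_sub, Derivation.leibniz, h1, h2, Ex_deriv]
      simp only [smul_eq_mul]
      ring
  have h4 : P = PowerSeries.X * (B * Ex K a) := by
    rw [← mul_assoc]
    exact sub_eq_zero.1 (add_eq_left.1 h3)
  have h5 := congrArg (PowerSeries.coeff r) h4
  rw [hP, PowerSeries.coeff_mk] at h5
  rw [h5]
  cases r with
  | zero => simp
  | succ r =>
    rw [PowerSeries.coeff_succ_X_mul, PowerSeries.coeff_mul,
      Nat.sum_antidiagonal_eq_sum_range_succ_mk]
    simp only [hB, PowerSeries.coeff_mk, Ex_coeff, Nat.add_sub_cancel]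

lemma pp_ex [CharZero K] (s : K) (a : ℕ → AA K) (r : ℕ)
    (h : ∀ k < r, constantCoeff (a k) = 0 ∧ PP s (C ((k + 1 : ℕ) : K)⁻¹ * a k)) :
    PP s (ex K a r) := by
  induction r using Nat.strong_induction_on with
  | _ r ih =>
    refine (crit s _).2 ⟨?_, fun i => ?_⟩
    · cases r with
      | zero => simp
      | succ r =>
        rw [ex_succ', ← C_mul', map_mul, map_sum, sum_eq_zero, mul_zero]
        · exact zero_mem _
        · intro k hk
          rw [map_mul, (h k (mem_range.1 hk)).1, zero_mul]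
    · rw [der_ex]
      refine pp_sum _ _ fun k hk => pp_mul ?_ (ih _ ?_ fun j hj => h j ?_)
      · rw [← pderiv_C_mul]
        exact ((crit s _).1 (h k (mem_range.1 hk)).2).2 i
      · have := mem_range.1 hk
        omega
      · omega

end PK5

theorem st_PK : St_PK := fun _ _ _ s =>
  ⟨PK5.crit s, fun _ _ hf hg => ⟨PK5.pp_add hf hg, PK5.pp_mul hf hg⟩, fun _ ha => PK5.pp_C ha,
    PK5.pp_X s, PK5.der_ex, PK5.pp_ex s⟩

end MJT
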