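import Pool.Agent.Lib.MP_9c49f6_co.TBlue

/-! Positivity of the cumulants of the top face. -/

namespace MJT.POS83
open MJ Finset MvPolynomial

variable {K : Type} [Field K]

lemma qi_add (q : K) (a b : ℕ) : qi q (a + b) = qi q a + q ^ a * qi q b := by
  simp only [qi, sum_range_add, mul_sum, pow_add]

lemma qi_mul (s : K) (m : ℕ) : s * qi (1 + s) m = (1 + s) ^ m - 1 := by
  have := mul_geom_sum (1 + s) m
  rwa [add_sub_cancel_left] at this

lemma q_mem (s : K) (m : ℕ) : (1 + s) ^ m ∈ Subsemiring.closure ({s} : Set K) :=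
  pow_mem (add_mem (one_mem _) (Subsemiring.subset_closure (Set.mem_singleton s))) m

lemma qi_mem (s : K) (a m : ℕ) : qi ((1 + s) ^ a) m ∈ Subsemiring.closure ({s} : Set K) :=
  sum_mem fun j _ => pow_mem (q_mem s a) j

/-- truncated shift -/
noncomputable def tr (U : ℕ → AA K) (S i : ℕ) : AA K := if S ≤ i then U (i - S) else 0

noncomputable def ZZ (q : K) (U V : ℕ → AA K) (k S N i : ℕ) : AA K :=
  C (∏ j ∈ Ico k i, q ^ j * qi q (i - j)) * (tr U S i * tr V N i)

lemma ZZ_comm (q : K) (U V : ℕ → AA K) (k S N : ℕ) : ZZ q U V k S N = ZZ q V U k N S := by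
  funext i; rw [ZZ, ZZ, mul_comm (tr U S i)]

lemma prod_gl (q : K) (k m : ℕ) :
    ∏ j ∈ Ico k (k + m), q ^ j * qi q (k + m - j) = q ^ (k * m) * gl q m := by
  rw [prod_Ico_eq_prod_range, add_tsub_cancel_left, prod_mul_distrib, prod_pow_eq_pow_sum,
    sum_add_distrib, sum_const, card_range, smul_eq_mul, gl, ← prod_range_reflect (fun j => qi q (j+1)),
    pow_add, Nat.choose_two_right, ← sum_range_id, mul_comm m k, mul_assoc]
  congr 2
  exact prod_congr rfl fun j hj => by congr 1; simp at hj; omega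

lemma ZZ_rec (q : K) (U V e : ℕ → AA K)
    (hV : ∀ m, C (qi q m) * V m = ∑ j ∈ range m, e j * V (m - 1 - j))
    {k S N : ℕ} (hS : k < S) (hN : k ≤ N) {i J : ℕ} (hJ : i ≤ J) :
    ZZ q U V k S N i = C (q ^ k * qi q (N - k)) * ZZ q U V (k+1) S N i +
      C (q ^ N) * ∑ j ∈ range J, e j * ZZ q U V (k+1) S (N + j + 1) i := by
  by_cases h1 : S ≤ i
  · by_cases h2 : N ≤ i
    · obtain ⟨a, rfl⟩ := Nat.exists_eq_add_of_le hN
      obtain ⟨m, rfl⟩ := Nat.exists_eq_add_of_le h2
      have h3 : ∑ j ∈ range J, e j * tr V (k + a + j + 1) (k + a + m) = C (qi q m) * V m := by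
        rw [hV, ← sum_subset (range_subset_range.mpr (show m ≤ J by omega))]
        · refine sum_congr rfl fun j hj => ?_
          have := mem_range.mp hj
          rw [tr, if_pos (by omega)]; congr 2; omega
        · intro j _ hj
          rw [tr, if_neg (by simp at hj; omega), mul_zero]
      have h4 : ∀ j, e j * ZZ q U V (k+1) S (k + a + j + 1) (k + a + m) =
          C (∏ j ∈ Ico (k+1) (k + a + m), q ^ j * qi q (k + a + m - j)) * tr U S (k + a + m) *
            (e j * tr V (k + a + j + 1) (k + a + m)) := fun j => by rw [ZZ]; ring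
      simp only [h4]
      rw [← mul_sum, h3, ZZ, ZZ, prod_eq_prod_Ico_succ_bot (by omega), tr, tr, if_pos h1, if_pos h2,
        show k + a + m - k = a + m by omega, show k + a + m - (k + a) = m by omega,
        add_tsub_cancel_left, qi_add]
      simp only [map_mul, map_add, map_pow]; ring
    · have h3 : ∀ N', N ≤ N' → tr V N' i = 0 := fun N' h => by rw [tr, if_neg (by omega)]
      rw [sum_eq_zero fun j _ => by rw [ZZ, h3 _ (by omega)]; simp]
      simp [ZZ, h3 N le_rfl]
  · have h3 : tr U S i = 0 := by rw [tr, if_neg h1]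
    simp [ZZ, h3]

lemma ex_scale (c : K) (a : ℕ → AA K) (r : ℕ) :
    ex K (fun k => C (c ^ (k+1)) * a k) r = C (c ^ r) * ex K a r := by
  induction r using Nat.strong_induction_on with
  | _ r ih =>
    cases r with
    | zero => simp
    | succ r =>
      rw [ex_succ', ex_succ', mul_smul_comm, mul_sum]
      congr 1
      refine sum_congr rfl fun k hk => ?_
      obtain ⟨j, rfl⟩ := Nat.exists_eq_add_of_le (Nat.lt_succ_iff.mp (mem_range.mp hk))
      rw [ih _ (by omega), add_tsub_cancel_left]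
      simp only [map_pow]; ring

/-- the weight: `y_k` has weight `k+1`, `z_k` has weight `0` -/
def ww : ℕ ⊕ ℕ → ℕ := Sum.elim (· + 1) fun _ => 0

lemma ex_hom (c : ℕ) (a : ℕ → AA K) (h : ∀ k, IsWeightedHomogeneous ww (a k) (c * (k+1)))
    (r : ℕ) : IsWeightedHomogeneous ww (ex K a r) (c * r) := by
  induction r using Nat.strong_induction_on with
  | _ r ih =>
    cases r with
    | zero => simpa using isWeightedHomogeneous_one K ww
    | succ r =>
      rw [ex_succ']
      refine (weightedHomogeneousSubmodule K ww _).smul_mem _ (Submodule.sum_mem _ fun k hk => ?_)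
      obtain ⟨j, rfl⟩ := Nat.exists_eq_add_of_le (Nat.lt_succ_iff.mp (mem_range.mp hk))
      have := (h k).mul (ih j (by omega))
      rwa [add_tsub_cancel_left, show c * (k + j + 1) = c * (k+1) + c * j by ring]

lemma Mm_hom (q : K) (m : ℕ) : IsWeightedHomogeneous ww (Mm q m) m := by
  have h1 := ex_hom 1 (fun k => C (((k + 1 : ℕ) : K) / qi q (k + 1)) * X (Sum.inl k)) (fun k => by
    simpa [ww] using (isWeightedHomogeneous_X K ww (Sum.inl k)).C_mul _) m
  have h2 := ex_hom 0 (fun k => C (((k + 1 : ℕ) : K) / qi q (k + 1)) * X (Sum.inr k)) (fun k => by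
    simpa [ww] using (isWeightedHomogeneous_X K ww (Sum.inr k)).C_mul _) m
  simpa [Mm, Hh] using (h1.mul h2).C_mul (gl q m)

variable [CharZero K]

lemma exists_a (M : ℕ → AA K) (h0 : M 0 = 1) : ∃ a : ℕ → AA K, ∀ m, ex K a m = M m := by
  have h1 := PowerSeries.invOfUnit_mul (PowerSeries.mk M) 1 (by simpa using h0)
  refine ⟨fun k => PowerSeries.coeff k (PowerSeries.derivative _ (PowerSeries.mk M) *
    PowerSeries.invOfUnit (PowerSeries.mk M) 1), fun m => ?_⟩
  rw [← Ex_coeff, ← Ex_unique _ (PowerSeries.mk M) (by simpa using h0), PowerSeries.coeff_mk]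
  have h2 : ∀ P : PowerSeries (AA K), PowerSeries.mk (fun k => PowerSeries.coeff k P) = P :=
    fun P => by ext; simp
  rw [h2, mul_assoc, h1, mul_one]

lemma a_hom {a : ℕ → AA K} (h : ∀ m, IsWeightedHomogeneous ww (ex K a m) m) (k : ℕ) :
    IsWeightedHomogeneous ww (a k) (k + 1) := by
  induction k using Nat.strong_induction_on with
  | _ k ih =>
    have h1 := ex_succ (F := K) a k
    rw [sum_range_succ, Nat.sub_self, ex_zero, mul_one, ← sub_eq_iff_eq_add'] at h1
    rw [← h1]
    refine (weightedHomogeneousSubmodule K ww _).sub_mem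
      ((weightedHomogeneousSubmodule K ww _).smul_mem _ (h _)) (Submodule.sum_mem _ fun j hj => ?_)
    obtain ⟨i, rfl⟩ := Nat.exists_eq_add_of_le (mem_range.mp hj).le
    have := (ih j (mem_range.mp hj)).mul (h i)
    rwa [add_tsub_cancel_left, show j + i + 1 = j + 1 + i by ring]

/-- the hypothesis on the sequences `H` -/
def Good (s : K) (V : ℕ → AA K) : Prop := ∃ e : ℕ → AA K, (∀ j, PP s (e j)) ∧
  ∀ m, C (qi (1 + s) m) * V m = ∑ j ∈ range m, e j * V (m - 1 - j)

section
variable (hPK : St_PK) (s : K)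
include hPK

lemma PP_C {a : K} (h : a ∈ Subsemiring.closure ({s} : Set K)) : PP s (C a) :=
  (hPK K s).2.2.1 a h

lemma PP_zero : PP s (0 : AA K) := by simpa using PP_C hPK s (zero_mem _)

variable {s}
lemma PP_add {f g : AA K} (hf : PP s f) (hg : PP s g) : PP s (f + g) :=
  ((hPK K s).2.1 f g hf hg).1
lemma PP_mul {f g : AA K} (hf : PP s f) (hg : PP s g) : PP s (f * g) :=
  ((hPK K s).2.1 f g hf hg).2
lemma PP_sum {ι : Type} (t : Finset ι) (f : ι → AA K) (h : ∀ i ∈ t, PP s (f i)) :
    PP s (∑ i ∈ t, f i) :=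
  sum_induction f (PP s) (fun _ _ => PP_add hPK) (PP_zero hPK s) h

lemma good_H (hq : ∀ k, (1 + s) ^ (k + 1) ≠ 1) (e : ℕ → ℕ ⊕ ℕ) : Good s (Hh (1 + s) e) := by
  have hs : s ≠ 0 := fun h => hq 0 (by simp [h])
  have hi : ∀ k, qi (1 + s) (k+1) ≠ 0 := fun k h => hq k (by
    rw [← sub_eq_zero, ← qi_mul, h, mul_zero])
  have hk : ∀ k : ℕ, ((k + 1 : ℕ) : K) ≠ 0 := fun k => Nat.cast_ne_zero.mpr k.succ_ne_zero
  set b : ℕ → AA K := fun k => C (((k + 1 : ℕ) : K) * s) * X (e k) with hb
  have h1 : ∀ k, C ((k + 1 : ℕ) : K)⁻¹ * b k = C s * X (e k) := fun k => by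
    rw [hb, ← mul_assoc, ← map_mul, inv_mul_cancel_left₀ (hk k)]
  have h2 : ∀ r, PP s (ex K b r) := fun r => (hPK K s).2.2.2.2.2 b r fun k _ =>
    ⟨by simp [hb], by
      rw [h1]; exact PP_mul hPK (PP_C hPK s (Subsemiring.subset_closure rfl)) ((hPK K s).2.2.2.1 _)⟩
  refine ⟨fun j => C s⁻¹ * ex K b (j+1), fun j => ?_, fun m => ?_⟩
  · beta_reduce
    rw [(hPK K s).1]
    refine ⟨?_, fun i => ?_⟩
    · rw [ex_succ', map_mul, constantCoeff_smul, map_sum, sum_eq_zero fun k _ => by simp [hb]]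
      simp
    · rw [pderiv_C_mul, (hPK K s).2.2.2.2.1, mul_sum]
      refine PP_sum hPK _ _ fun k _ => ?_
      rw [← pderiv_C_mul, h1, pderiv_C_mul, ← mul_assoc, ← mul_assoc, ← map_mul,
        inv_mul_cancel₀ hs, map_one, one_mul]
      refine PP_mul hPK ?_ (h2 _)
      rw [pderiv_X]
      by_cases h : e k = i
      · subst h; simpa using PP_C hPK s (one_mem _)
      · rw [Pi.single_eq_of_ne h]; exact PP_zero hPK s
  · have h3 := congrArg (PowerSeries.coeff m) (Ex_add (F := K) b
      fun k => C (((k + 1 : ℕ) : K) / qi (1 + s) (k + 1)) * X (e k))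
    have h4 : (fun k => b k + C (((k + 1 : ℕ) : K) / qi (1 + s) (k + 1)) * X (e k)) =
        fun k => C ((1 + s) ^ (k+1)) *
          (C (((k + 1 : ℕ) : K) / qi (1 + s) (k + 1)) * X (e k)) := by
      funext k
      rw [hb, ← add_mul, ← mul_assoc, ← map_add, ← map_mul]
      congr 2
      have e1 := qi_mul s (k+1)
      have := hi k
      field_simp
      linear_combination e1
    rw [h4, Ex_coeff, ex_scale, PowerSeries.coeff_mul, Nat.sum_antidiagonal_eq_sum_range_succ_mk,
      sum_range_succ'] at h3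
    simp only [Ex_coeff, ex_zero, one_mul, Nat.sub_zero] at h3
    have h5 : (C (qi (1 + s) m) : AA K) = C s⁻¹ * (C ((1 + s) ^ m) - 1) := by
      rw [← map_one C, ← map_sub, ← map_mul, ← qi_mul, inv_mul_cancel_left₀ hs]
    rw [h5, mul_assoc, sub_mul, one_mul, Hh, h3, add_sub_cancel_right, mul_sum]
    refine sum_congr rfl fun j _ => ?_
    rw [mul_assoc, Hh, show m - 1 - j = m - (j+1) by omega]

lemma RR_pos {a : ℕ → AA K} {n : ℕ} (h0 : ∀ k, constantCoeff (a k) = 0)
    (hG : ∀ k, k + 1 < n → PP s (C (qi (1 + s) (k + 1) / (k + 1 : ℕ)) * a k)) (d : ℕ) :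
    ∀ (k S N : ℕ) (U V : ℕ → AA K), n < k + d → Good s U → Good s V →
    (∀ m, ex K a m = C (gl (1 + s) m) * (U m * V m)) → k ≤ S → k ≤ N → 0 < S + N →
    PP s (PowerSeries.coeff n (PowerSeries.mk (ZZ (1 + s) U V k S N) * Ex K fun j => - a j)) := by
  induction d with
  | zero =>
    intro k S N U V hd _ _ _ hS _ _
    rw [PowerSeries.coeff_mul]
    refine PP_sum hPK _ _ fun p hp => ?_
    have := mem_antidiagonal.mp hp
    rw [PowerSeries.coeff_mk, ZZ, tr, if_neg (by omega)]
    simpa using PP_zero hPK s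
  | succ d ih =>
    have key : ∀ (k S N : ℕ) (U V : ℕ → AA K), n < k + (d+1) → Good s U → Good s V →
        (∀ m, ex K a m = C (gl (1 + s) m) * (U m * V m)) → k < S → k ≤ N →
        PP s (PowerSeries.coeff n
          (PowerSeries.mk (ZZ (1 + s) U V k S N) * Ex K fun j => - a j)) := by
      intro k S N U V hd hU hV hM hS hN
      obtain ⟨e, he, h1⟩ := id hV
      have h2 : PowerSeries.coeff n (PowerSeries.mk (ZZ (1 + s) U V k S N) * Ex K fun j => - a j) =
          C ((1 + s) ^ k * qi (1 + s) (N - k)) * PowerSeries.coeff n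
            (PowerSeries.mk (ZZ (1 + s) U V (k+1) S N) * Ex K fun j => - a j) +
          C ((1 + s) ^ N) * ∑ j ∈ range n, e j * PowerSeries.coeff n
            (PowerSeries.mk (ZZ (1 + s) U V (k+1) S (N + j + 1)) * Ex K fun j => - a j) := by
        simp only [PowerSeries.coeff_mul, PowerSeries.coeff_mk, mul_sum]
        rw [sum_comm, ← sum_add_distrib]
        refine sum_congr rfl fun p hp => ?_
        have := mem_antidiagonal.mp hp
        rw [ZZ_rec _ U V e h1 hS hN (show p.1 ≤ n by omega), add_mul, mul_sum, sum_mul]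
        simp only [mul_assoc]
      rw [h2]
      refine PP_add hPK ?_ (PP_mul hPK (PP_C hPK s (q_mem s N)) (PP_sum hPK _ _ fun j _ =>
        PP_mul hPK (he j) (ih _ _ _ U V (by omega) hU hV hM hS (by omega) (by omega))))
      rcases hN.eq_or_lt with rfl | h3
      · simpa [qi] using PP_zero hPK s
      · exact PP_mul hPK (PP_C hPK s (mul_mem (q_mem s k) (by simpa using qi_mem s 1 _)))
          (ih _ _ _ U V (by omega) hU hV hM hS h3 (by omega))
    intro k S N U V hd hU hV hM hS hN hp
    rcases hS.eq_or_lt with rfl | h1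
    · rcases hN.eq_or_lt with rfl | h2
      · have h3 : PowerSeries.mk (ZZ (1 + s) U V k k k) = PowerSeries.X ^ k *
            Ex K fun j => C (((1 + s) ^ k) ^ (j+1)) * a j := by
          ext i : 1
          rw [PowerSeries.coeff_mk, PowerSeries.coeff_X_pow_mul', ZZ, tr, tr]
          split_ifs with h
          · obtain ⟨m, rfl⟩ := Nat.exists_eq_add_of_le h
            rw [prod_gl, add_tsub_cancel_left, Ex_coeff, ex_scale, hM, map_mul, pow_mul, mul_assoc]
          · simp
        rw [h3, mul_assoc, ← Ex_add, PowerSeries.coeff_X_pow_mul']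
        split_ifs with h
        · rw [Ex_coeff]
          refine (hPK K s).2.2.2.2.2 _ _ fun j hj => ⟨by simp [h0], ?_⟩
          have h4 : C ((j + 1 : ℕ) : K)⁻¹ * (C (((1 + s) ^ k) ^ (j+1)) * a j + - a j) =
              C (s * qi ((1 + s) ^ (j+1)) k) * (C (qi (1 + s) (j + 1) / (j + 1 : ℕ)) * a j) := by
            have e1 := mul_geom_sum ((1 + s) ^ (j+1)) k
            rw [← qi_mul, ← qi, ← pow_mul, mul_comm (j+1), pow_mul] at e1
            rw [← mul_assoc (C _), ← map_mul, ← neg_one_mul (a j), ← add_mul, ← mul_assoc,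
              ← map_one C, ← map_neg, ← map_add, ← map_mul]
            congr 2
            rw [div_eq_mul_inv]
            linear_combination (-((j + 1 : ℕ) : K)⁻¹) * e1
          rw [h4]
          exact PP_mul hPK (PP_C hPK s (mul_mem (Subsemiring.subset_closure rfl) (qi_mem s _ _)))
            (hG j (by omega))
        · exact PP_zero hPK s
      · rw [ZZ_comm]
        exact key _ _ _ V U hd hV hU (fun m => by rw [hM, mul_comm (U m)]) h2 le_rfl
    · exact key _ _ _ U V hd hU hV hM h1 hN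

lemma pderiv_Mm (hq : ∀ k, (1 + s) ^ (k + 1) ≠ 1) (i r : ℕ) :
    C (qi (1 + s) (i+1)) * pderiv (Sum.inl i) (Mm (1 + s) r) =
      ZZ (1 + s) (Hh (1 + s) Sum.inl) (Hh (1 + s) Sum.inr) 0 (i+1) 0 r := by
  have hi : qi (1 + s) (i+1) ≠ 0 := fun h => hq i (by
    rw [← sub_eq_zero, ← qi_mul, h, mul_zero])
  have h1 : pderiv (Sum.inl i) (Hh (1 + s) Sum.inr r) = 0 := by
    rw [Hh, (hPK K s).2.2.2.2.1]
    exact sum_eq_zero fun k _ => by simp [pderiv_X]
  have h2 : C (qi (1 + s) (i+1)) * pderiv (Sum.inl i) (Hh (1 + s) Sum.inl r) =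
      tr (Hh (1 + s) Sum.inl) (i+1) r := by
    rw [Hh, (hPK K s).2.2.2.2.1, tr]
    have h3 : ∀ k, k ≠ i → pderiv (Sum.inl i) (C (((k + 1 : ℕ) : K) / qi (1 + s) (k + 1)) *
        X (Sum.inl k) : AA K) = 0 := fun k hk => by
      rw [pderiv_C_mul, pderiv_X_of_ne (by simpa using hk), mul_zero]
    split_ifs with h
    · rw [sum_eq_single i (fun k _ hk => by rw [h3 k hk]; simp) (by simp; omega), pderiv_C_mul,
        pderiv_X_self, mul_one, ← map_mul, ← mul_assoc, ← map_mul, Hh,
        show r - 1 - i = r - (i+1) by omega]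
      have : ((i + 1 : ℕ) : K) ≠ 0 := Nat.cast_ne_zero.mpr i.succ_ne_zero
      rw [show qi (1 + s) (i + 1) * (((i + 1 : ℕ) : K)⁻¹ * (((i + 1 : ℕ) : K) / qi (1 + s) (i + 1)))
        = 1 by field_simp, map_one, one_mul]
    · rw [sum_eq_zero fun k hk => by rw [h3 k (by simp at hk; omega)]; simp, mul_zero]
  have h4 := prod_gl (1 + s) 0 r
  simp only [zero_add, zero_mul, pow_zero, one_mul] at h4
  rw [ZZ, h4, ← h2, tr, if_pos (Nat.zero_le r), Nat.sub_zero, Mm, pderiv_C_mul, pderiv_mul, h1]
  ring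

lemma deriv_a {a : ℕ → AA K} (i : ℕ ⊕ ℕ) (k : ℕ) :
    PowerSeries.coeff (k+1) (PowerSeries.mk (fun r => pderiv i (ex K a r)) * Ex K fun j => - a j) =
      C ((k + 1 : ℕ) : K)⁻¹ * pderiv i (a k) := by
  have h1 : PowerSeries.mk (fun r => pderiv i (ex K a r)) = PowerSeries.X *
      (PowerSeries.mk (fun k => C ((k + 1 : ℕ) : K)⁻¹ * pderiv i (a k)) * Ex K a) := by
    ext r : 1
    rw [PowerSeries.coeff_mk, (hPK K 0).2.2.2.2.1]
    cases r with
    | zero => simp
    | succ r =>
      rw [PowerSeries.coeff_succ_X_mul, PowerSeries.coeff_mul,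
        Nat.sum_antidiagonal_eq_sum_range_succ_mk]
      simp only [PowerSeries.coeff_mk, Ex_coeff, Nat.add_sub_cancel]
  rw [h1, mul_assoc, mul_assoc, ← Ex_add, PowerSeries.coeff_succ_X_mul]
  simp only [add_neg_cancel, Ex_zero, mul_one, PowerSeries.coeff_mk]

end

lemma PP_of_deriv {s : K} {f : AA K} {n : ℕ} (hf : IsWeightedHomogeneous ww f n)
    (h : ∀ i, PP s (C (qi (1 + s) (i+1)) * pderiv (Sum.inl i) f)) : PP s (C (qi (1 + s) n) * f) := by
  intro d
  rw [coeff_C_mul]
  by_cases h0 : coeff d f = 0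
  · rw [h0, mul_zero, mul_zero]; exact zero_mem _
  rw [← hf h0, mul_left_comm, Finsupp.weight_apply, Finsupp.sum]
  set c := (d.prod fun _ e => (e.factorial : K)) * coeff d f with hc
  have h1 : ∀ a b, qi (1 + s) a * c ∈ Subsemiring.closure ({s} : Set K) →
      qi (1 + s) b * c ∈ Subsemiring.closure ({s} : Set K) →
      qi (1 + s) (a + b) * c ∈ Subsemiring.closure ({s} : Set K) := fun a b ha hb => by
    rw [qi_add, add_mul, mul_assoc]; exact add_mem ha (mul_mem (q_mem s a) hb)
  have h2 : qi (1 + s) 0 * c ∈ Subsemiring.closure ({s} : Set K) := by simp [qi]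
  refine sum_induction _ (fun a => qi (1 + s) a * c ∈ Subsemiring.closure ({s} : Set K)) h1 h2
    fun x hx => ?_
  cases x with
  | inr j => simpa [ww] using h2
  | inl j =>
    have h3 : qi (1 + s) (j+1) * c ∈ Subsemiring.closure ({s} : Set K) := by
      have h4 := h j (d - Finsupp.single (Sum.inl j) 1)
      have h5 : d - Finsupp.single (Sum.inl j) 1 + Finsupp.single (Sum.inl j) 1 = d :=
        tsub_add_cancel_of_le (by
          rw [Finsupp.single_le_iff]; exact Nat.pos_of_ne_zero (Finsupp.mem_support_iff.mp hx))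
      rw [coeff_C_mul, coeff_pderiv, h5] at h4
      generalize d - Finsupp.single (Sum.inl j) 1 = d' at h4 h5
      have h6 : (d.prod fun _ e => (e.factorial : K)) =
          (d'.prod fun _ e => (e.factorial : K)) * (d' (Sum.inl j) + 1) := by
        classical
        rw [← h5, Finsupp.prod_of_support_subset _ (s := insert (Sum.inl j) d'.support) _ _ (by simp),
          Finsupp.prod_of_support_subset _ (subset_insert (Sum.inl j) d'.support) _ (by simp),
          ← mul_prod_erase _ _ (mem_insert_self _ _), ← mul_prod_erase _ _ (mem_insert_self _ _),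
          prod_congr rfl (g := fun x => ((d' x).factorial : K))]
        · simp [Nat.factorial_succ]; ring
        · intro x hx; rw [Finsupp.add_apply, Finsupp.single_eq_of_ne (ne_of_mem_erase hx), add_zero]
        · exact Finsupp.support_add.trans (union_subset (subset_insert _ _)
            (Finsupp.support_single_subset.trans (by simp)))
      rw [hc, h6]; exact (congrArg (· ∈ _) (by ring)).mp h4
    simp only [ww, Sum.elim_inl, smul_eq_mul]
    induction d (Sum.inl j) with
    | zero => simpa using h2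
    | succ m ih => rw [Nat.succ_mul]; exact h1 _ _ ih h3

end MJT.POS83

namespace MJT
open MJ Finset MvPolynomial POS83

theorem st_POS (hPK : St_PK) : St_POS := by
  intro K _ _ s hq
  obtain ⟨a, ha⟩ := exists_a (Mm (1 + s)) (by simp [Mm, gl, Hh])
  have h1 := a_hom (a := a) fun m => by rw [ha]; exact Mm_hom _ m
  have h0 : ∀ k, constantCoeff (a k) = 0 := fun k => by
    by_contra hc
    have := h1 k (d := 0) hc
    simp at this
  refine ⟨a, ha, fun k => ?_⟩
  induction k using Nat.strong_induction_on with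
  | _ k ih =>
    rw [div_eq_mul_inv, map_mul, mul_assoc]
    refine PP_of_deriv ((h1 k).C_mul _) fun i => ?_
    have h2 := RR_pos hPK h0 (n := k+1) (fun j hj => ih j (by omega)) (k+2) 0 (i+1) 0 _ _
      (by omega) (good_H hPK hq Sum.inl) (good_H hPK hq Sum.inr) ha (by omega) le_rfl (by omega)
    have h3 : PowerSeries.mk (ZZ (1 + s) (Hh (1 + s) Sum.inl) (Hh (1 + s) Sum.inr) 0 (i+1) 0) =
        PowerSeries.C (C (qi (1 + s) (i+1))) *
          PowerSeries.mk fun r => pderiv (Sum.inl i) (ex K a r) := by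
      ext r : 1
      rw [PowerSeries.coeff_C_mul, PowerSeries.coeff_mk, PowerSeries.coeff_mk, ha,
        pderiv_Mm hPK hq]
    rwa [h3, mul_assoc, PowerSeries.coeff_C_mul, deriv_a hPK, ← pderiv_C_mul] at h2

end MJT
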