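import Pool.Agent.Lib.MP_9c49f6_co.S_Kit
import Pool.Agent.Lib.MP_9c49f6_co.T_POS
import Pool.Agent.Lib.MP_9c49f6_co.T_PK

/-! Row `WP2`: positivity of the cumulants and divisibility of the series `w_(i,j)`. -/

namespace MJS
open MJ MJT MJC Finset MvPolynomial

namespace X69
variable {K : Type} [Field K]

/-- coefficientwise partial derivative -/
noncomputable def dd (v : ℕ ⊕ ℕ) (P : PowerSeries (AA K)) : PowerSeries (AA K) :=
  PowerSeries.mk fun r => pderiv v (PowerSeries.coeff r P)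

lemma coeff_dd (v : ℕ ⊕ ℕ) (P : PowerSeries (AA K)) (r : ℕ) :
    PowerSeries.coeff r (dd v P) = pderiv v (PowerSeries.coeff r P) := PowerSeries.coeff_mk _ _

lemma dd_mul (v : ℕ ⊕ ℕ) (P Q : PowerSeries (AA K)) :
    dd v (P * Q) = dd v P * Q + P * dd v Q := by
  ext r : 1
  simp only [coeff_dd, PowerSeries.coeff_mul, map_sum, map_add, pderiv_mul, sum_add_distrib]

/-- `log M` -/
noncomputable def LL (q : K) : PowerSeries (AA K) :=
  PowerSeries.mk fun c => C (c : K)⁻¹ * ka q (qf q) (c - 1)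

noncomputable def NN (q : K) (i j : ℕ) : PowerSeries (AA K) :=
  PowerSeries.mk fun c => C (qf q c) * (tr q Sum.inl i c * tr q Sum.inr j c)

lemma LG_eq (q : K) (c : ℕ) : LG q (qf q) c = C (qi q c) * PowerSeries.coeff c (LL q) := by
  rw [LG, LL, PowerSeries.coeff_mk, div_eq_mul_inv, map_mul, mul_assoc]

lemma NN_zero (q : K) : NN q 0 0 = MS q (qf q) := by
  ext c : 1; simp [NN, MS, tr]

lemma NN_eq (q : K) (i j : ℕ) : NN q i j = wS q i j * MS q (qf q) := by
  rw [wS, mul_right_comm, mul_comm (MI q _), MS_mul_MI q (qf_zero q), one_mul, NN]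

lemma cancel (q : K) {P Q : PowerSeries (AA K)} (h : P * MS q (qf q) = Q * MS q (qf q)) :
    P = Q := by
  have := congrArg (· * MI q (qf q)) h
  simpa [mul_assoc, MS_mul_MI q (qf_zero q)] using this

variable [CharZero K]

lemma dd_MS (q : K) (v : ℕ ⊕ ℕ) : dd v (MS q (qf q)) = dd v (LL q) * MS q (qf q) := by
  have h0 : ∀ m, PowerSeries.coeff m (MS q (qf q)) = ex K (ka q (qf q)) m := fun m => by
    rw [ex_ka q (qf_zero q), MS, PowerSeries.coeff_mk]
  ext r : 1
  rw [coeff_dd, h0, PK5.der_ex, PowerSeries.coeff_mul, Nat.sum_antidiagonal_eq_sum_range_succ_mk,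
    sum_range_succ']
  simp only [coeff_dd, h0, LL, PowerSeries.coeff_mk, Nat.cast_zero, inv_zero, map_zero, zero_mul,
    add_zero, Nat.add_sub_cancel, pderiv_C_mul]
  exact sum_congr rfl fun k _ => by rw [show r - 1 - k = r - (k + 1) by omega]

lemma der_ne (q : K) {e : ℕ → ℕ ⊕ ℕ} {v : ℕ ⊕ ℕ} (h : ∀ k, e k ≠ v) (j c : ℕ) :
    pderiv v (tr q e j c) = 0 := by
  rw [tr]
  split_ifs
  · rw [Hh, PK5.der_ex]
    exact sum_eq_zero fun k _ => by rw [pderiv_C_mul, pderiv_X_of_ne (h k)]; simp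
  · simp

variable {s : K} (hs : Gen s)
include hs

lemma der_eq {e : ℕ → ℕ ⊕ ℕ} (he : Function.Injective e) (i r : ℕ) :
    C (qi (1 + s) (i+1)) * pderiv (e i) (tr (1 + s) e 0 r) = tr (1 + s) e (i+1) r := by
  have hi := hs.qi_ne i.succ_pos
  rw [tr, if_pos (Nat.zero_le r), Nat.sub_zero, Hh, PK5.der_ex, tr]
  have h3 : ∀ k, k ≠ i → pderiv (e i) (C (((k + 1 : ℕ) : K) / qi (1 + s) (k + 1)) *
      X (e k) : AA K) = 0 := fun k hk => by
    rw [pderiv_C_mul, pderiv_X_of_ne (he.ne hk), mul_zero]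
  split_ifs with h
  · rw [sum_eq_single i (fun k _ hk => by rw [h3 k hk]; simp) (by simp; omega), pderiv_C_mul,
      pderiv_X_self, mul_one, ← map_mul, ← mul_assoc, ← map_mul, Hh,
      show r - 1 - i = r - (i+1) by omega]
    have : ((i + 1 : ℕ) : K) ≠ 0 := Nat.cast_ne_zero.mpr i.succ_ne_zero
    rw [show qi (1 + s) (i + 1) * (((i + 1 : ℕ) : K)⁻¹ * (((i + 1 : ℕ) : K) / qi (1 + s) (i + 1)))
      = 1 by field_simp, map_one, one_mul]
  · rw [sum_eq_zero fun k hk => by rw [h3 k (by simp at hk; omega)]; simp, mul_zero]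

lemma NN_left (i j : ℕ) : NN (1 + s) (i+1) j =
    PowerSeries.C (C (qi (1 + s) (i+1))) * dd (Sum.inl i) (NN (1 + s) 0 j) := by
  ext c : 1
  rw [PowerSeries.coeff_C_mul, coeff_dd, NN, NN, PowerSeries.coeff_mk, PowerSeries.coeff_mk,
    pderiv_C_mul, pderiv_mul, der_ne _ (fun k => Sum.inr_ne_inl), ← der_eq hs Sum.inl_injective]
  ring

lemma NN_right (j : ℕ) : NN (1 + s) 0 (j+1) =
    PowerSeries.C (C (qi (1 + s) (j+1))) * dd (Sum.inr j) (NN (1 + s) 0 0) := by
  ext c : 1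
  rw [PowerSeries.coeff_C_mul, coeff_dd, NN, NN, PowerSeries.coeff_mk, PowerSeries.coeff_mk,
    pderiv_C_mul, pderiv_mul, der_ne _ (fun k => Sum.inl_ne_inr), ← der_eq hs Sum.inr_injective]
  ring

lemma wS_left (i : ℕ) : wS (1 + s) (i+1) 0 =
    PowerSeries.C (C (qi (1 + s) (i+1))) * dd (Sum.inl i) (LL (1 + s)) :=
  cancel (1 + s) (by rw [← NN_eq, NN_left hs, NN_zero, dd_MS, mul_assoc])

lemma wS_right (j : ℕ) : wS (1 + s) 0 (j+1) =
    PowerSeries.C (C (qi (1 + s) (j+1))) * dd (Sum.inr j) (LL (1 + s)) :=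
  cancel (1 + s) (by rw [← NN_eq, NN_right hs, NN_zero, dd_MS, mul_assoc])

lemma wS_both (i j : ℕ) : wS (1 + s) (i+1) j =
    PowerSeries.C (C (qi (1 + s) (i+1))) * dd (Sum.inl i) (wS (1 + s) 0 j) +
      wS (1 + s) 0 j * wS (1 + s) (i+1) 0 :=
  cancel (1 + s) (by rw [← NN_eq, NN_left hs, NN_eq, dd_mul, dd_MS, wS_left hs]; ring)

omit hs in
lemma LL_hom (q : K) (c : ℕ) :
    IsWeightedHomogeneous POS83.ww (PowerSeries.coeff c (LL q)) c := by
  have h0 : ∀ m, IsWeightedHomogeneous POS83.ww (ex K (ka q (qf q)) m) m := fun m => by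
    have h1 := POS83.ex_hom 1 (fun k => C (((k + 1 : ℕ) : K) / qi q (k + 1)) * X (Sum.inl k))
      (fun k => by
        simpa [POS83.ww] using (isWeightedHomogeneous_X K POS83.ww (Sum.inl k)).C_mul _) m
    have h2 := POS83.ex_hom 0 (fun k => C (((k + 1 : ℕ) : K) / qi q (k + 1)) * X (Sum.inr k))
      (fun k => by
        simpa [POS83.ww] using (isWeightedHomogeneous_X K POS83.ww (Sum.inr k)).C_mul _) m
    rw [ex_ka q (qf_zero q)]
    simpa [Hh] using (h1.mul h2).C_mul (qf q m)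
  rw [LL, PowerSeries.coeff_mk]
  cases c with
  | zero => simpa using isWeightedHomogeneous_zero K POS83.ww 0
  | succ c => exact (POS83.a_hom h0 c).C_mul _

omit hs in
lemma PC_of_deriv {f : AA K} {n : ℕ} (hf : IsWeightedHomogeneous POS83.ww f n)
    (h : ∀ i, C (qi (1 + s) (i+1)) * pderiv (Sum.inl i) f ∈ PC (cone s)) :
    C (qi (1 + s) n) * f ∈ PC (cone s) := by
  intro d
  rw [coeff_C_mul]
  by_cases h0 : coeff d f = 0
  · rw [h0, mul_zero]; exact zero_mem _
  rw [← hf h0, Finsupp.weight_apply, Finsupp.sum]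
  have h1 : ∀ a b, qi (1 + s) a * coeff d f ∈ cone s → qi (1 + s) b * coeff d f ∈ cone s →
      qi (1 + s) (a + b) * coeff d f ∈ cone s := fun a b ha hb => by
    rw [qi_add, add_mul, mul_assoc]; exact add_mem ha (mul_mem (pow_mem (q_cone s) a) hb)
  have h2 : qi (1 + s) 0 * coeff d f ∈ cone s := by simp
  refine sum_induction _ (fun a => qi (1 + s) a * coeff d f ∈ cone s) h1 h2 fun x hx => ?_
  cases x with
  | inr j => simpa [POS83.ww] using h2
  | inl j =>
    have h3 : qi (1 + s) (j+1) * coeff d f ∈ cone s := by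
      have h4 := h j (d - Finsupp.single (Sum.inl j) 1)
      have h5 : d - Finsupp.single (Sum.inl j) 1 + Finsupp.single (Sum.inl j) 1 = d :=
        tsub_add_cancel_of_le (by
          rw [Finsupp.single_le_iff]; exact Nat.pos_of_ne_zero (Finsupp.mem_support_iff.mp hx))
      rw [coeff_C_mul, coeff_pderiv, h5] at h4
      generalize (d - Finsupp.single (Sum.inl j) 1 : ℕ ⊕ ℕ →₀ ℕ) (Sum.inl j) = m at h4
      have h6 := mul_mem h4 (inv_nat_cone s (m + 1))
      have h7 : ((m : K) + 1) ≠ 0 := by exact_mod_cast m.succ_ne_zero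
      rwa [Nat.cast_succ, mul_assoc, mul_assoc, mul_inv_cancel₀ h7, mul_one] at h6
    simp only [POS83.ww, Sum.elim_inl, smul_eq_mul]
    induction d (Sum.inl j) with
    | zero => simpa using h2
    | succ m ih => rw [Nat.succ_mul]; exact h1 _ _ ih h3

lemma qi_left (i c : ℕ) : C (qi (1 + s) c) * PowerSeries.coeff c (wS (1 + s) (i+1) 0) =
    C (qi (1 + s) (i+1)) * pderiv (Sum.inl i) (LG (1 + s) (qf (1 + s)) c) := by
  rw [wS_left hs, PowerSeries.coeff_C_mul, coeff_dd, LG_eq, pderiv_C_mul]; ring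

lemma qi_right (j c : ℕ) : C (qi (1 + s) c) * PowerSeries.coeff c (wS (1 + s) 0 (j+1)) =
    C (qi (1 + s) (j+1)) * pderiv (Sum.inr j) (LG (1 + s) (qf (1 + s)) c) := by
  rw [wS_right hs, PowerSeries.coeff_C_mul, coeff_dd, LG_eq, pderiv_C_mul]; ring

end X69

open X69 in
theorem st_WP2 (hW : St_WP1) : St_WP2 := by
  intro K _ _ s hs
  have hw := hW K s hs
  have hL : ∀ k, LG (1 + s) (qf (1 + s)) k ∈ PC (cone s) := fun k => by
    rw [LG_eq]
    refine PC_of_deriv (LL_hom _ k) fun i => ?_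
    have := hw (i+1) 0 k
    rwa [wS_left hs, PowerSeries.coeff_C_mul, coeff_dd] at this
  refine ⟨hL, fun i j c => ?_⟩
  cases i with
  | zero =>
    cases j with
    | zero =>
      refine ⟨0, zero_mem _, 0, zero_mem _, ?_⟩
      have h1 : wS (1 + s) 0 0 = 1 := cancel (1 + s) (by rw [← NN_eq, NN_zero, one_mul])
      rw [h1, PowerSeries.coeff_one]
      split_ifs with h <;> simp [h]
    | succ j =>
      exact ⟨0, zero_mem _, _, pderiv_PC (Sum.inr j) (hL c), by
        rw [qi_right hs, mul_zero, zero_add]⟩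
  | succ i =>
    cases j with
    | zero =>
      exact ⟨_, pderiv_PC (Sum.inl i) (hL c), 0, zero_mem _, by
        rw [qi_left hs, mul_zero, add_zero]⟩
    | succ j =>
      refine ⟨C (qi (1 + s) (j+1)) * pderiv (Sum.inl i)
          (pderiv (Sum.inr j) (LG (1 + s) (qf (1 + s)) c)) +
        ∑ p ∈ antidiagonal c, C ((1 + s) ^ p.1) * (PowerSeries.coeff p.1 (wS (1 + s) 0 (j+1)) *
          pderiv (Sum.inl i) (LG (1 + s) (qf (1 + s)) p.2)),
        add_mem (mul_mem (C_PC (qi_cone s _)) (pderiv_PC _ (pderiv_PC _ (hL c))))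
          (sum_mem fun p _ => mul_mem (C_PC (pow_mem (q_cone s) _))
            (mul_mem (hw _ _ _) (pderiv_PC _ (hL _)))),
        ∑ p ∈ antidiagonal c, pderiv (Sum.inr j) (LG (1 + s) (qf (1 + s)) p.1) *
          PowerSeries.coeff p.2 (wS (1 + s) (i+1) 0),
        sum_mem fun p _ => mul_mem (pderiv_PC _ (hL _)) (hw _ _ _), ?_⟩
      have h1 := congrArg (pderiv (Sum.inl i)) (qi_right hs j c)
      rw [pderiv_C_mul, pderiv_C_mul] at h1
      rw [wS_both hs, map_add, PowerSeries.coeff_C_mul, coeff_dd, PowerSeries.coeff_mul, mul_add,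
        mul_left_comm, h1, mul_add, add_assoc, mul_sum, mul_sum, mul_sum, ← sum_add_distrib]
      congr 1
      refine sum_congr rfl fun p hp => ?_
      have h2 := qi_left hs i p.2
      have h3 := qi_right hs j p.1
      rw [← mem_antidiagonal.mp hp, qi_add, map_add, map_mul]
      linear_combination (PowerSeries.coeff p.2 (wS (1 + s) (i+1) 0)) * h3 +
        C ((1 + s) ^ p.1) * (PowerSeries.coeff p.1 (wS (1 + s) 0 (j+1))) * h2

end MJS
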