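import Pool.Agent.Lib.MP_9c49f6_co.TBlue

/-! Top face: the limit value is a polynomial in `s` with natural coefficients. -/

namespace MJT
open MJ Finset MvPolynomial

namespace ASM23
variable {K : Type} [Field K] {n : ℕ}

lemma zz_ne [CharZero K] (μ : n.Partition) : (zz μ : K) ≠ 0 := by
  rw [← zn_dOf]; exact_mod_cast zn_ne _

lemma vq_ne [CharZero K] {q : K} (hq : ∀ k, q ^ (k + 1) ≠ 1) (μ : n.Partition) : vq q μ ≠ 0 := by
  refine Multiset.prod_ne_zero fun h => ?_
  obtain ⟨i, hi, h0⟩ := Multiset.mem_map.1 h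
  obtain ⟨k, rfl⟩ := Nat.exists_eq_succ_of_ne_zero (μ.parts_pos hi).ne'
  refine div_ne_zero (fun h1 => hq k ?_) (by exact_mod_cast Nat.succ_ne_zero k) h0
  have := mul_geom_sum q (k + 1)
  rw [qi] at h1
  rw [h1, mul_zero] at this
  exact (sub_eq_zero.1 this.symm)

lemma prod_a (q : K) (e : ℕ → ℕ ⊕ ℕ) (μ : n.Partition) :
    (μ.parts.map fun i => (C (((i - 1 + 1 : ℕ) : K) / qi q (i - 1 + 1)) * X (e (i - 1)) : AA K)).prod
      = monomial ((dOf μ).mapDomain e) (vq q μ)⁻¹ := by
  rw [Multiset.prod_map_mul]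
  have h1 : (μ.parts.map fun i => (X (e (i - 1)) : AA K)).prod =
      monomial ((dOf μ).mapDomain e) 1 := by
    rw [← prod_dOf μ fun i => (X (e (i - 1)) : AA K), ← rename_monomial, monomial_eq, C_1, one_mul,
      map_finsuppProd]
    simp
  have h2 : (μ.parts.map fun i => (C (((i - 1 + 1 : ℕ) : K) / qi q (i - 1 + 1)) : AA K)).prod =
      C (vq q μ)⁻¹ := by
    rw [vq, ← Multiset.prod_map_inv, map_multiset_prod, Multiset.map_map]
    refine congrArg _ (Multiset.map_congr rfl fun i hi => ?_)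
    rw [Nat.sub_add_cancel (μ.parts_pos hi)]
    simp
  rw [h1, h2, C_mul_monomial, mul_one]

lemma prod_H [CharZero K] (hC : St_CAU) (q : K) (e : ℕ → ℕ ⊕ ℕ) (l : n.Partition) :
    (l.parts.map (Hh q e)).prod = ∑ μ : n.Partition,
      monomial ((dOf μ).mapDomain e) ((rc μ l : K) / zz μ * (vq q μ)⁻¹) := by
  have := hC K (AA K) (fun k => C (((k + 1 : ℕ) : K) / qi q (k + 1)) * X (e k)) n l
  refine this.symm.trans (sum_congr rfl fun μ _ => ?_)
  rw [prod_a, smul_monomial, smul_eq_mul]

/-- the exponent of `y^μ z^ν` -/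
noncomputable def dd (μ ν : n.Partition) : ℕ ⊕ ℕ →₀ ℕ :=
  (dOf μ).mapDomain Sum.inl + (dOf ν).mapDomain Sum.inr

lemma dd_inj {μ ν μ' ν' : n.Partition} (h : dd μ' ν' = dd μ ν) : μ' = μ ∧ ν' = ν := by
  constructor
  · refine dOf_inj (Finsupp.ext fun k => ?_)
    have := DFunLike.congr_fun h (Sum.inl k)
    simpa [dd, Finsupp.mapDomain_apply Sum.inl_injective, Finsupp.mapDomain_of_notMem_range] using this
  · refine dOf_inj (Finsupp.ext fun k => ?_)
    have := DFunLike.congr_fun h (Sum.inr k)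
    simpa [dd, Finsupp.mapDomain_apply Sum.inr_injective, Finsupp.mapDomain_of_notMem_range] using this

lemma coeff_M [CharZero K] (hC : St_CAU) (q : K) (l μ ν : n.Partition) :
    coeff (dd μ ν) (l.parts.map (Mm q)).prod = (l.parts.map (gl q)).prod *
      (((rc μ l : K) / zz μ * (vq q μ)⁻¹) * ((rc ν l : K) / zz ν * (vq q ν)⁻¹)) := by
  have h : (l.parts.map (Mm q)).prod = C (l.parts.map (gl q)).prod *
      ((l.parts.map (Hh q Sum.inl)).prod * (l.parts.map (Hh q Sum.inr)).prod) := by
    rw [map_multiset_prod, Multiset.map_map, ← Multiset.prod_map_mul, ← Multiset.prod_map_mul]; rfl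
  rw [h, coeff_C_mul, prod_H hC, prod_H hC, sum_mul_sum, coeff_sum, sum_eq_single μ, coeff_sum,
    sum_eq_single ν, monomial_mul, coeff_monomial, if_pos (by rfl)]
  · intro ν' _ h'
    rw [monomial_mul, coeff_monomial]
    exact if_neg fun h1 => h' (dd_inj h1).2
  · simp
  · intro μ' _ h'
    rw [coeff_sum]
    refine sum_eq_zero fun ν' _ => ?_
    rw [monomial_mul, coeff_monomial]
    exact if_neg fun h1 => h' (dd_inj h1).1
  · simp

lemma right_inv {m0 : n.Partition → n.Partition → K}
    (h : ∀ l k, ∑ π, m0 l π * rc π k = if l = k then 1 else 0) (π' π : n.Partition) :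
    ∑ l, (rc π' l : K) * m0 l π = if π' = π then 1 else 0 := by
  have h1 : Matrix.of m0 * Matrix.of (fun π k : n.Partition => (rc π k : K)) = 1 := by
    ext l k; simpa [Matrix.mul_apply, Matrix.one_apply] using h l k
  have h2 := mul_eq_one_comm.1 h1
  simpa [Matrix.mul_apply, Matrix.one_apply] using congrFun (congrFun h2 π') π

lemma dd_fac (μ ν : n.Partition) : ∃ c : ℕ, (zz μ : K) * zz ν =
    c * (dd μ ν).prod fun _ e => (e.factorial : K) := by
  refine ⟨((dOf μ).prod fun k e => (k + 1) ^ e) * (dOf ν).prod fun k e => (k + 1) ^ e, ?_⟩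
  have hd : Disjoint ((dOf μ).mapDomain (Sum.inl : ℕ → ℕ ⊕ ℕ)).support
      ((dOf ν).mapDomain Sum.inr).support := by
    rw [Finsupp.mapDomain_support_of_injective Sum.inl_injective,
      Finsupp.mapDomain_support_of_injective Sum.inr_injective, disjoint_left]
    simp +contextual
  rw [dd, Finsupp.prod_add_index_of_disjoint hd,
    Finsupp.prod_mapDomain_index_inj Sum.inl_injective,
    Finsupp.prod_mapDomain_index_inj Sum.inr_injective, ← zn_dOf, ← zn_dOf, zn, zn,
    Finsupp.prod_mul, Finsupp.prod_mul]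
  simp only [Finsupp.prod]
  push_cast
  ring

end ASM23
open ASM23

theorem st_ASM (hC : St_CAU) (hK : St_PK) (hP : St_POS) : St_ASM := by
  intro K _ _ s hq n m0 hm π μ ν
  obtain ⟨a, ha, hG⟩ := hP K s hq
  obtain ⟨-, hmul, hc, -⟩ := hK K s
  have hprod : ∀ M : Multiset ℕ, (∀ i ∈ M, 0 < i) →
      PP s (M.map fun i => C (qi (1 + s) i / i) * a (i - 1)).prod := by
    intro M
    induction M using Multiset.induction_on with
    | empty => intro _; simpa using hc 1 (one_mem _)
    | cons i M ih =>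
      intro h
      rw [Multiset.map_cons, Multiset.prod_cons]
      refine (hmul _ _ ?_ (ih fun j hj => h j (Multiset.mem_cons_of_mem hj))).2
      have := hG (i - 1)
      rwa [Nat.sub_add_cancel (h i (Multiset.mem_cons_self _ _))] at this
  have h1 := hprod π.parts (fun i hi => π.parts_pos hi) (dd μ ν)
  have h2 : (π.parts.map fun i => C (qi (1 + s) i / i) * a (i - 1)).prod =
      C (vq (1 + s) π) * (π.parts.map fun i => a (i - 1)).prod := by
    rw [Multiset.prod_map_mul, vq, map_multiset_prod, Multiset.map_map]; rfl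
  have h3 : ∑ l : n.Partition, coeff (dd μ ν) (l.parts.map (Mm (1 + s))).prod * m0 l π =
      (zz π : K)⁻¹ * coeff (dd μ ν) (π.parts.map fun i => a (i - 1)).prod := by
    have h4 : ∀ l : n.Partition, coeff (dd μ ν) (l.parts.map (Mm (1 + s))).prod * m0 l π =
        ∑ ρ : n.Partition, (rc ρ l : K) * m0 l π *
          ((zz ρ : K)⁻¹ * coeff (dd μ ν) (ρ.parts.map fun i => a (i - 1)).prod) := by
      intro l
      rw [← funext ha, ← hC K (AA K) a n l, coeff_sum, sum_mul]
      refine sum_congr rfl fun ρ _ => ?_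
      rw [coeff_smul, smul_eq_mul]; ring
    simp only [h4]
    rw [sum_comm]
    simp only [← sum_mul, right_inv hm]
    simp
  obtain ⟨c, hcc⟩ := dd_fac (K := K) μ ν
  have h5 : lim (1 + s) m0 π μ ν = c * (((dd μ ν).prod fun _ e => (e.factorial : K)) *
      coeff (dd μ ν) (π.parts.map fun i => C (qi (1 + s) i / i) * a (i - 1)).prod) := by
    have z1 := zz_ne (K := K) π
    have z2 := zz_ne (K := K) μ
    have z3 := zz_ne (K := K) ν
    have v2 := vq_ne hq μ
    have v3 := vq_ne hq ν
    have h6 : coeff (dd μ ν) (π.parts.map fun i => a (i - 1)).prod = zz π *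
        ∑ l : n.Partition, coeff (dd μ ν) (l.parts.map (Mm (1 + s))).prod * m0 l π := by
      rw [h3, ← mul_assoc, mul_inv_cancel₀ z1, one_mul]
    rw [← mul_assoc, ← hcc, h2, coeff_C_mul, h6, lim]
    simp only [coeff_M hC, mul_sum]
    refine sum_congr rfl fun l _ => ?_
    field_simp
  rw [h5]
  exact mul_mem (natCast_mem _ c) h1

end MJT
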