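import Pool.Agent.Lib.MP_9c49f6_co.P_FIN
import Pool.Agent.Lib.MP_9c49f6_co.P_COEF
import Pool.Agent.Lib.MP_9c49f6_co.P_CYC
import Pool.Agent.Lib.MP_9c49f6_co.P_EIG
import Pool.Agent.Lib.MP_9c49f6_co.P_GS
import Pool.Agent.Lib.MP_9c49f6_co.P_LOC
import Pool.Agent.Lib.MP_9c49f6_co.P_POLY
import Pool.Agent.Lib.MP_9c49f6_co.P_PRI
import Pool.Agent.Lib.MP_9c49f6_co.P_SEP
import Pool.Agent.Lib.MP_9c49f6_co.P_TRANS
import Pool.Agent.Lib.MP_9c49f6_co.P_UFD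
import Pool.Agent.Lib.MP_9c49f6_co.P_GEN
import Pool.Agent.Lib.MP_9c49f6_co.P_SYM
import Pool.Agent.Lib.MP_9c49f6_co.P_UU
import Pool.Agent.Lib.MP_9c49f6_co.S_A2
import Pool.Agent.Lib.MP_9c49f6_co.S_A3a
import Pool.Agent.Lib.MP_9c49f6_co.S_A3b
import Pool.Agent.Lib.MP_9c49f6_co.S_A4
import Pool.Agent.Lib.MP_9c49f6_co.S_B0
import Pool.Agent.Lib.MP_9c49f6_co.S_B1
import Pool.Agent.Lib.MP_9c49f6_co.S_CC
import Pool.Agent.Lib.MP_9c49f6_co.S_CU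
import Pool.Agent.Lib.MP_9c49f6_co.S_EP
import Pool.Agent.Lib.MP_9c49f6_co.S_FC
import Pool.Agent.Lib.MP_9c49f6_co.S_FI1
import Pool.Agent.Lib.MP_9c49f6_co.S_FI2
import Pool.Agent.Lib.MP_9c49f6_co.S_IQ
import Pool.Agent.Lib.MP_9c49f6_co.S_JI
import Pool.Agent.Lib.MP_9c49f6_co.S_MAIN
import Pool.Agent.Lib.MP_9c49f6_co.S_SO
import Pool.Agent.Lib.MP_9c49f6_co.S_TH1
import Pool.Agent.Lib.MP_9c49f6_co.S_TH2
import Pool.Agent.Lib.MP_9c49f6_co.S_TW1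
import Pool.Agent.Lib.MP_9c49f6_co.S_TW2
import Pool.Agent.Lib.MP_9c49f6_co.S_W
import Pool.Agent.Lib.MP_9c49f6_co.S_WP1
import Pool.Agent.Lib.MP_9c49f6_co.S_WP2
import Pool.Agent.Lib.MP_9c49f6_co.T_LIM
import Pool.Agent.Lib.MP_9c49f6_co.T_ASM
import Pool.Agent.Lib.MP_9c49f6_co.T_REG
import Pool.Agent.Lib.MP_9c49f6_co.T_QB
import Pool.Agent.Lib.MP_9c49f6_co.T_NAK
import Pool.Agent.Lib.MP_9c49f6_co.T_RM
import Pool.Agent.Lib.MP_9c49f6_co.T_CAU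
import Pool.Agent.Lib.MP_9c49f6_co.T_PK
import Pool.Agent.Lib.MP_9c49f6_co.T_POS

/-! Assembly of all steps. -/

namespace MJP

theorem poly_all : St_POLY :=
  st_POLY (st_COEF st_GEN st_SYM (st_CYC st_GEN st_EIG st_SYM st_UU)) st_LOC st_GS st_SEP st_UFD
    st_PRI

open MJT in
theorem lim_all : St_LIM := st_LIM st_NAK (st_REG st_NAK st_RM) st_CAU st_QB

open MJT in
theorem asm_all : St_ASM := st_ASM st_CAU st_PK (st_POS st_PK)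

open MJS in
theorem main_all : St_MAIN :=
  have a4 := st_A4 st_A2 (st_A3a st_SO) st_A3b st_CC
  have ji := st_JI st_EP
  have w1 := st_WP1 st_EP
  have w2 := st_WP2 w1
  st_MAIN (st_FC st_SO (st_B1 st_SO st_B0) a4 (st_W a4) st_CC) st_CC
    (st_TW2 st_IQ w1 w2 (st_CU (st_FI2 st_FI1) (st_TH1 st_EP ji) (st_TH2 ji) w1 w2)
      (st_TW1 st_EP w2))

end MJP
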