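import Pool.Agent.Lib.MP_9c49f6_co.T_Pl

/-! Laurent series: the value at `0`, and the substitution `b = 1/e`, `γ = s e`. -/

namespace MJT.Lau62
open Finset MvPolynomial

variable {K : Type} [Field K]

/-- no pole, and constant term `a` -/
def Rd (x : LaurentSeries K) (a : K) : Prop := (∀ k < 0, x.coeff k = 0) ∧ x.coeff 0 = a

lemma Rd_iff {x : LaurentSeries K} {a : K} : Rd x a ↔ ∃ f : PowerSeries K,
    x = HahnSeries.ofPowerSeries ℤ K f ∧ PowerSeries.constantCoeff f = a := by
  constructor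
  · rintro ⟨h1, h2⟩
    refine ⟨PowerSeries.mk fun n => x.coeff n, ?_, by simpa using h2⟩
    ext k
    rw [PowerSeries.coeff_coe]
    split_ifs with hk
    · exact h1 k hk
    · rw [PowerSeries.coeff_mk, Int.natAbs_of_nonneg (not_lt.mp hk)]
  · rintro ⟨f, rfl, h⟩
    refine ⟨fun k hk => by rw [PowerSeries.coeff_coe, if_pos hk], ?_⟩
    rw [PowerSeries.coeff_coe, if_neg (lt_irrefl _)]
    simpa using h

theorem pl_Rd : Pl (Rd (K := K)) where
  one := Rd_iff.mpr ⟨1, by simp, by simp⟩
  neg := fun h => ⟨fun k hk => by simp [h.1 k hk], by simp [h.2]⟩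
  add := fun h h' => ⟨fun k hk => by simp [h.1 k hk, h'.1 k hk], by simp [h.2, h'.2]⟩
  mul := fun h h' => by
    obtain ⟨f, rfl, rfl⟩ := Rd_iff.mp h
    obtain ⟨g, rfl, rfl⟩ := Rd_iff.mp h'
    exact Rd_iff.mpr ⟨f * g, by simp, by simp⟩
  inv := fun h ha => by
    obtain ⟨f, rfl, rfl⟩ := Rd_iff.mp h
    refine Rd_iff.mpr ⟨f⁻¹, (eq_inv_of_mul_eq_one_right ?_).symm, by simp⟩
    rw [← map_mul, PowerSeries.mul_inv_cancel f ha, map_one]
  zero := fun h => by simpa using h.2.symm

lemma Rd_single_zero (a : K) : Rd (HahnSeries.single (0 : ℤ) a) a :=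
  ⟨fun k hk => by simp [hk.ne], by simp⟩

lemma Rd_single_pos {k : ℤ} (hk : 0 < k) (a : K) : Rd (HahnSeries.single k a) 0 :=
  ⟨fun j hj => HahnSeries.coeff_single_of_ne (by omega),
    HahnSeries.coeff_single_of_ne (by omega)⟩

lemma Rd_shift {d : ℤ} {x : LaurentSeries K} {a : K}
    (h : Rd (HahnSeries.single d (1 : K) * x) a) :
    (∀ k < -d, x.coeff k = 0) ∧ x.coeff (-d) = a := by
  have key : ∀ k, (HahnSeries.single d (1 : K) * x).coeff (k + d) = x.coeff k := fun k => by
    rw [HahnSeries.coeff_single_mul_add, one_mul]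
  exact ⟨fun k hk => by rw [← key]; exact h.1 _ (by omega), by rw [← key]; simpa using h.2⟩

lemma single_one_zpow (d : ℤ) :
    (HahnSeries.single (1 : ℤ) (1 : K) : LaurentSeries K) ^ d = HahnSeries.single d 1 := by
  obtain ⟨k, rfl | rfl⟩ := Int.eq_nat_or_neg d
  · simp [HahnSeries.single_pow]
  · rw [zpow_neg, zpow_natCast, HahnSeries.single_pow]
    symm
    apply eq_inv_of_mul_eq_one_left
    simp [HahnSeries.single_mul_single]

/-- `b = 1/e` -/
noncomputable abbrev bb (K : Type) [Field K] : LaurentSeries K := HahnSeries.single (-1 : ℤ) 1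

/-- `γ = s e` -/
noncomputable abbrev gg (s : K) : LaurentSeries K := HahnSeries.single (1 : ℤ) s

/-- `θ = 1/α = 1/(1+b)` -/
noncomputable def th (K : Type) [Field K] : LaurentSeries K := (1 + bb K)⁻¹

lemma Rd_one_add : Rd (1 + HahnSeries.single (1 : ℤ) (1 : K)) 1 := by
  simpa using pl_Rd.add pl_Rd.one (Rd_single_pos one_pos (1 : K))

lemma e_mul_bb : HahnSeries.single (1 : ℤ) (1 : K) * bb K = 1 := by
  simp [HahnSeries.single_mul_single]

lemma one_add_bb_ne : 1 + bb K ≠ 0 := fun h => by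
  have := congrArg (fun x : LaurentSeries K => x.coeff 0) h
  simp at this

lemma th_mul : th K * (1 + HahnSeries.single (1 : ℤ) 1) = HahnSeries.single (1 : ℤ) 1 := by
  rw [th, inv_mul_eq_iff_eq_mul₀ one_add_bb_ne]
  linear_combination -e_mul_bb (K := K)

lemma Rd_th : Rd (th K) 0 := by
  rw [eq_div_of_mul_eq (pl_Rd.ne Rd_one_add one_ne_zero) th_mul]
  simpa using pl_Rd.div (Rd_single_pos one_pos (1 : K)) Rd_one_add one_ne_zero

lemma Rd_t (s : K) : Rd (1 + gg s) 1 := by
  simpa using pl_Rd.add pl_Rd.one (Rd_single_pos one_pos s)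

lemma Rd_q (s : K) : Rd (1 + gg s * (1 + bb K)) (1 + s) := by
  have : gg s * bb K = HahnSeries.single (0 : ℤ) s := by simp [HahnSeries.single_mul_single]
  rw [mul_add, mul_one, this]
  simpa using pl_Rd.add pl_Rd.one (pl_Rd.add (Rd_single_pos one_pos s) (Rd_single_zero s))

lemma th_q (s : K) : th K * (1 + gg s * (1 + bb K) - 1) = 1 + gg s - 1 := by
  have := inv_mul_cancel₀ (one_add_bb_ne (K := K))
  rw [th]
  linear_combination gg s * this

/-- from the limit of `θ^d x` to the coefficients of `x` -/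
lemma Rd_th_zpow {d : ℤ} {x : LaurentSeries K} {a : K} (h : Rd (th K ^ d * x) a) :
    (∀ k < -d, x.coeff k = 0) ∧ x.coeff (-d) = a := by
  refine Rd_shift ?_
  have := pl_Rd.mul (pl_Rd.zpow Rd_one_add one_ne_zero d) h
  rwa [one_zpow, one_mul, ← mul_assoc, ← mul_zpow, mul_comm _ (th K), th_mul, single_one_zpow]
    at this

variable [CharZero K]

lemma pow_ne_one {s : K} (hs : Transcendental ℚ s) (k : ℕ) : (1 + s) ^ (k + 1) ≠ 1 := fun h => by
  have h1 := transcendental_iff_injective.mp hs (a₁ := (1 + Polynomial.X) ^ (k + 1)) (a₂ := 1)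
    (by simpa using h)
  have h2 := congrArg (Polynomial.eval (-1)) h1
  simp at h2

instance charZero : CharZero (LaurentSeries K) :=
  charZero_of_injective_ringHom (f := (HahnSeries.C : K →+* LaurentSeries K))
    HahnSeries.C_injective

variable [Algebra ℚ (LaurentSeries K)]

omit [CharZero K] in
lemma aeval_mono (s : K) (d : Fin 2 →₀ ℕ) (c : ℚ) :
    aeval ![bb K, gg s] (monomial d c) =
      HahnSeries.single ((d 1 : ℤ) - d 0) ((c : K) * s ^ d 1) := by
  rw [aeval_monomial, Finsupp.prod_fintype _ _ (by simp), Fin.prod_univ_two, eq_ratCast,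
    ← map_ratCast (HahnSeries.C : K →+* LaurentSeries K), HahnSeries.C_apply]
  simp [HahnSeries.single_pow, HahnSeries.single_mul_single, sub_eq_neg_add]

lemma coeff_aeval (s : K) (N : MvPolynomial (Fin 2) ℚ) (k : ℤ) :
    (aeval ![bb K, gg s] N).coeff k = Polynomial.aeval s
      (∑ m ∈ N.support with (m 1 : ℤ) - m 0 = k, Polynomial.monomial (m 1) (coeff m N)) := by
  conv_lhs => rw [N.as_sum]
  rw [map_sum, map_sum, HahnSeries.coeff_sum, sum_filter]
  refine sum_congr rfl fun m _ => ?_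
  rw [aeval_mono, HahnSeries.coeff_single, Polynomial.aeval_monomial, eq_ratCast]
  simp only [eq_comm]
  congr

omit [CharZero K] [Algebra ℚ (LaurentSeries K)] in
lemma coeff_slice (N : MvPolynomial (Fin 2) ℚ) (m : Fin 2 →₀ ℕ) :
    (∑ m' ∈ N.support with (m' 1 : ℤ) - m' 0 = (m 1 : ℤ) - m 0,
      Polynomial.monomial (m' 1) (coeff m' N)).coeff (m 1) = coeff m N := by
  rw [Polynomial.finsetSum_coeff, sum_eq_single m]
  · simp
  · intro m' hm' hne
    rw [Polynomial.coeff_monomial, if_neg]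
    intro h
    have h2 := (mem_filter.mp hm').2
    refine hne (Finsupp.ext fun i => ?_)
    fin_cases i
    · simp only [Fin.zero_eta]; omega
    · exact h
  · intro h
    simpa using h

/-- the coefficient of `e^k` determines the coefficients on the line `j - i = k` -/
lemma coeff_line {s : K} (hs : Transcendental ℚ s) (N : MvPolynomial (Fin 2) ℚ) (k : ℤ)
    (G : Polynomial ℚ) (h : (aeval ![bb K, gg s] N).coeff k = Polynomial.aeval s G)
    (m : Fin 2 →₀ ℕ) (hm : (m 1 : ℤ) - m 0 = k) : coeff m N = G.coeff (m 1) := by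
  subst hm
  rw [coeff_aeval] at h
  rw [← transcendental_iff_injective.mp hs h, coeff_slice]

theorem ai {s : K} (hs : Transcendental ℚ s) : AlgebraicIndependent ℚ ![bb K, gg s] := by
  rw [algebraicIndependent_iff]
  intro p hp
  ext m
  simpa using coeff_line hs p _ 0 (by rw [hp]; simp) m rfl

theorem coeff_top {s : K} (hs : Transcendental ℚ s) (N : MvPolynomial (Fin 2) ℚ) (d : ℤ)
    (G : Polynomial ℕ) (h1 : ∀ k < -d, (aeval ![bb K, gg s] N).coeff k = 0)
    (h2 : (aeval ![bb K, gg s] N).coeff (-d) = Polynomial.aeval s G) (m : Fin 2 →₀ ℕ) :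
    ((m 0 : ℤ) - m 1 > d → coeff m N = 0) ∧
      ((m 0 : ℤ) - m 1 = d → coeff m N = (G.coeff (m 1) : ℚ)) := by
  refine ⟨fun h => ?_, fun h => ?_⟩
  · simpa using coeff_line hs N _ 0 (by rw [h1 _ (by omega)]; simp) m rfl
  · have := coeff_line hs N (-d) (G.map (algebraMap ℕ ℚ))
      (by rw [h2, Polynomial.aeval_map_algebraMap]) m (by omega)
    simpa using this

omit [CharZero K] [Algebra ℚ (LaurentSeries K)] in
lemma closure_poly {s a : K} (h : a ∈ Subsemiring.closure ({s} : Set K)) :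
    ∃ G : Polynomial ℕ, a = Polynomial.aeval s G := by
  induction h using Subsemiring.closure_induction with
  | mem x hx => exact ⟨Polynomial.X, by simpa using hx⟩
  | zero => exact ⟨0, by simp⟩
  | one => exact ⟨1, by simp⟩
  | add x y _ _ hx hy =>
    obtain ⟨G, rfl⟩ := hx
    obtain ⟨H, rfl⟩ := hy
    exact ⟨G + H, by simp⟩
  | mul x y _ _ hx hy =>
    obtain ⟨G, rfl⟩ := hx
    obtain ⟨H, rfl⟩ := hy
    exact ⟨G * H, by simp⟩

end MJT.Lau62
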