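import Pool.Agent.Lib.MP_9c49f6_co.S_Kit
import Pool.Agent.Lib.MP_9c49f6_co.T_Lau
import Pool.Agent.Lib.MP_9c49f6_co.One

/-! Second face: the substitution `b = 1/e`, `γ = s e`. -/

namespace MJS
open MJ MJT MJT.Lau62 Finset

namespace FIN52
variable {K : Type} [Field K] [CharZero K]

lemma cone_poly {s a : K} (h : a ∈ cone s) :
    ∃ G : Polynomial ℚ, (∀ i, 0 ≤ G.coeff i) ∧ a = Polynomial.aeval s G := by
  induction h using Subsemiring.closure_induction with
  | mem x hx =>
    rcases hx with rfl | ⟨r, rfl⟩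
    · exact ⟨Polynomial.X, fun i => by rw [Polynomial.coeff_X]; split_ifs <;> simp, by simp⟩
    · exact ⟨Polynomial.C (r : ℚ), fun i => by rw [Polynomial.coeff_C]; split_ifs <;> simp,
        by simp⟩
  | zero => exact ⟨0, by simp, by simp⟩
  | one => exact ⟨1, fun i => by rw [Polynomial.coeff_one]; split_ifs <;> simp, by simp⟩
  | add x y _ _ hx hy =>
    obtain ⟨G, h1, rfl⟩ := hx
    obtain ⟨H, h2, rfl⟩ := hy
    exact ⟨G + H, fun i => by rw [Polynomial.coeff_add]; exact add_nonneg (h1 i) (h2 i), by simp⟩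
  | mul x y _ _ hx hy =>
    obtain ⟨G, h1, rfl⟩ := hx
    obtain ⟨H, h2, rfl⟩ := hy
    exact ⟨G * H, fun i => by
      rw [Polynomial.coeff_mul]; exact sum_nonneg fun p _ => mul_nonneg (h1 _) (h2 _), by simp⟩

/-- Laurent series with all coefficients in the cone -/
def NL (s : K) : Subsemiring (LaurentSeries K) where
  carrier := {x | ∀ k, x.coeff k ∈ cone s}
  mul_mem' := fun {x y} hx hy k => by
    rw [HahnSeries.coeff_mul]
    exact sum_mem fun p _ => mul_mem (hx _) (hy _)
  one_mem' := fun k => by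
    rw [HahnSeries.coeff_one]
    split_ifs
    · exact one_mem _
    · exact zero_mem _
  add_mem' := fun {x y} hx hy k => by
    rw [HahnSeries.coeff_add]
    exact add_mem (hx k) (hy k)
  zero_mem' := fun k => by
    rw [HahnSeries.coeff_zero]
    exact zero_mem _

omit [CharZero K] in
lemma single_NL {s a : K} (h : a ∈ cone s) (j : ℤ) : HahnSeries.single j a ∈ NL s := fun k => by
  rw [HahnSeries.coeff_single]
  split_ifs
  · exact h
  · exact zero_mem _

lemma Rd_nnrat (r : ℚ≥0) : Rd (r : LaurentSeries K) (r : K) := by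
  rw [NNRat.cast_def, NNRat.cast_def]
  exact pl_Rd.div (pl_Rd.nat _) (pl_Rd.nat _) (by exact_mod_cast r.den_ne_zero)

omit [CharZero K] in
lemma nnrat_NL (s : K) (r : ℚ≥0) : (r : LaurentSeries K) ∈ NL s := by
  rw [← map_nnratCast (HahnSeries.C : K →+* LaurentSeries K)]
  exact single_NL (nnrat_cone s r) 0

lemma aeval_mem {F : Type} [Field F] {N : Subsemiring F} (x : Fin 2 → F) (h : ∀ i, x i ∈ N)
    (P : MvPolynomial (Fin 2) ℕ) : MvPolynomial.aeval x P ∈ N := by
  induction P using MvPolynomial.induction_on with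
  | C a => simp
  | add p p' hp hp' => rw [map_add]; exact add_mem hp hp'
  | mul_X p i hp => rw [map_mul, MvPolynomial.aeval_X]; exact mul_mem hp (h i)

lemma Rd_closure {s : K} (hs : Transcendental ℚ s) {q : LaurentSeries K} (hq : Rd q (1 + s))
    {x : LaurentSeries K} (hx : x ∈ Subfield.closure {q}) : ∃ a, Rd x a := by
  have key : ∀ y ∈ Subring.closure {q}, ∃ P : Polynomial ℤ, y = Polynomial.aeval q P ∧
      Rd y (Polynomial.aeval (1 + s) P) := fun y hy => by
    induction hy using Subring.closure_induction with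
    | mem y hy => exact ⟨Polynomial.X, by simpa using hy, by simpa [Set.mem_singleton_iff.mp hy]⟩
    | zero => exact ⟨0, by simp, by simpa using pl_Rd.zero'⟩
    | one => exact ⟨1, by simp, by simpa using pl_Rd.one⟩
    | add y z _ _ hy hz =>
      obtain ⟨P, h1, h2⟩ := hy
      obtain ⟨Q, h3, h4⟩ := hz
      exact ⟨P + Q, by simp [h1, h3], by simpa using pl_Rd.add h2 h4⟩
    | neg y _ hy =>
      obtain ⟨P, h1, h2⟩ := hy
      exact ⟨-P, by simp [h1], by simpa using pl_Rd.neg h2⟩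
    | mul y z _ _ hy hz =>
      obtain ⟨P, h1, h2⟩ := hy
      obtain ⟨Q, h3, h4⟩ := hz
      exact ⟨P * Q, by simp [h1, h3], by simpa using pl_Rd.mul h2 h4⟩
  obtain ⟨y, hy, z, hz, rfl⟩ := Subfield.mem_closure_iff.mp hx
  obtain ⟨P, -, h1⟩ := key y hy
  obtain ⟨Q, h2, h3⟩ := key z hz
  by_cases h : Q = 0
  · exact ⟨0, by simpa [h2, h] using pl_Rd.zero'⟩
  · refine ⟨_, pl_Rd.div h1 h3 fun h4 => h ?_⟩
    have h5 : Transcendental ℚ (1 + s) := fun h6 => hs (by simpa using h6.sub isAlgebraic_one)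
    refine Polynomial.map_injective (algebraMap ℤ ℚ) Int.cast_injective ?_
    refine transcendental_iff_injective.mp h5 ?_
    rw [Polynomial.aeval_map_algebraMap, h4]
    simp

end FIN52
open FIN52

theorem second (hM : St_MAIN) {K : Type} [Field K] [CharZero K] {s : K}
    (hs : Transcendental ℚ s) (hi : Indep (1 + Lau62.gg s * (1 + bb K)) (1 + Lau62.gg s))
    (n : ℕ) (π μ ν : n.Partition) : ∃ G : Polynomial ℚ, (∀ i, 0 ≤ G.coeff i) ∧
      (WW (1 + Lau62.gg s * (1 + bb K)) (1 + Lau62.gg s) (mac hi) π μ ν).coeff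
        (1 - ((n : ℤ) + ln π - ln μ - ln ν)) = Polynomial.aeval s G := by
  let q := 1 + Lau62.gg s * (1 + bb K)
  let K0 := Subfield.closure {q}
  let O : Subalgebra K0 (LaurentSeries K) :=
    { carrier := {x | ∃ a, Rd x a}
      mul_mem' := fun ⟨_, h⟩ ⟨_, h'⟩ => ⟨_, pl_Rd.mul h h'⟩
      add_mem' := fun ⟨_, h⟩ ⟨_, h'⟩ => ⟨_, pl_Rd.add h h'⟩
      algebraMap_mem' := fun x => Rd_closure hs (Rd_q s) x.2 }
  let s0 : K0 := ⟨q - 1, sub_mem (Subfield.subset_closure rfl) (one_mem _)⟩
  have hθ : Lau62.th K ≠ 0 := inv_ne_zero one_add_bb_ne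
  have S : Setting s0 O (Lau62.th K) q (1 + Lau62.gg s) :=
    { loc :=
        { mem := ⟨_, Rd_th⟩
          ne := hθ
          inv := fun o ⟨a, h⟩ => by
            have h1 := pl_Rd.add pl_Rd.one (pl_Rd.mul Rd_th h)
            rw [zero_mul, add_zero] at h1
            exact ⟨pl_Rd.ne h1 one_ne_zero, _, pl_Rd.inv h1 one_ne_zero⟩ }
      hq := by
        change q = 1 + (q - 1)
        ring
      ht := by
        change _ = 1 + Lau62.th K * (q - 1)
        rw [th_q]
        ring
      hi := hi }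
  have hb : bb K ∈ NL s := single_NL (one_mem _) _
  have hg : Lau62.gg s ∈ NL s := single_NL (s_cone s) _
  obtain ⟨y, hy, G, hG, o, ⟨a, ho⟩, e⟩ := hM K0 _ s0 O _ _ _ S (NL s) (nnrat_NL s)
    (add_mem (one_mem _) hg) (fun k π μ ν hπ => by
      have hk : 0 < k := π.parts_pos (by simp [hπ])
      obtain rfl : π = Nat.Partition.indiscrete k :=
        Nat.Partition.ext (by rw [hπ, Nat.Partition.indiscrete_parts hk.ne'])
      obtain ⟨P, hP⟩ := One22.nat_q (@ai K _ _ DivisionRing.toRatAlgebra s hs) (ib := 0) (ig := 1)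
        (by decide) hk μ ν
      rw [WW, One22.cco_top S.hi hk rfl]
      refine (show _ = _ from hP) ▸ ?_
      exact aeval_mem _ (fun i => by fin_cases i <;> assumption) P) n π μ ν
  have h1 : ∃ g ∈ cone s, Rd (algebraMap K0 (LaurentSeries K) G) g := by
    clear e
    induction hG using Subsemiring.closure_induction with
    | mem x hx =>
      rcases hx with rfl | ⟨r, rfl⟩
      · exact ⟨s, s_cone s, add_sub_cancel_left 1 s ▸ pl_Rd.sub (Rd_q s) pl_Rd.one⟩
      · exact ⟨r, nnrat_cone s r, by simpa using Rd_nnrat r⟩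
    | zero => exact ⟨0, zero_mem _, by simpa using pl_Rd.zero'⟩
    | one => exact ⟨1, one_mem _, by simpa using pl_Rd.one⟩
    | add x y _ _ hx hy =>
      obtain ⟨g, h1, h2⟩ := hx
      obtain ⟨g', h3, h4⟩ := hy
      exact ⟨_, add_mem h1 h3, by simpa using pl_Rd.add h2 h4⟩
    | mul x y _ _ hx hy =>
      obtain ⟨g, h1, h2⟩ := hx
      obtain ⟨g', h3, h4⟩ := hy
      exact ⟨_, mul_mem h1 h3, by simpa using pl_Rd.mul h2 h4⟩
  obtain ⟨g, h2, h3⟩ := h1
  generalize (n : ℤ) + ln π - ln μ - ln ν = d at e ⊢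
  have h4 := pl_Rd.add h3 (pl_Rd.mul Rd_th ho)
  have h5 : algebraMap K0 (LaurentSeries K) G + Lau62.th K * o =
      Lau62.th K ^ (d - 1) * (WW q (1 + Lau62.gg s) (mac hi) π μ ν - y) := by
    rw [zpow_sub_one₀ hθ]
    field_simp
    linear_combination -e
  rw [h5, zero_mul, add_zero] at h4
  have h6 := (Rd_th_zpow h4).2
  rw [HahnSeries.coeff_sub, neg_sub, sub_eq_iff_eq_add] at h6
  rw [h6]
  exact cone_poly (add_mem h2 (hy _))

end MJS
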