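import Pool.Agent.Lib.MP_9c49f6_co.PBlue
import Pool.Agent.Lib.MP_9c49f6_co.S_FIN

/-! The integer polynomial and its two top faces. -/

namespace MJP
open MJ MJT MJT.Lau62 Finset MvPolynomial

lemma aeval_int {F : Type} [Field F] [CharZero F] (x : Fin 2 → F) (N : MvPolynomial (Fin 2) ℤ) :
    aeval x N = aeval x (map (algebraMap ℤ ℚ) N) := (aeval_map_algebraMap ℚ x N).symm

theorem faces (hP : St_POLY) (hT : St_TRANS) (hL : St_LIM) (hA : St_ASM) (hM : MJS.St_MAIN)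
    {F : Type} [Field F] [CharZero F] {b g : F} (hx : AlgebraicIndependent ℚ ![b, g])
    (hi : Indep (1 + g * (1 + b)) (1 + g)) {n : ℕ} (π μ ν : n.Partition) :
    ∃ N : MvPolynomial (Fin 2) ℤ, WW (1 + g * (1 + b)) (1 + g) (mac hi) π μ ν = aeval ![b, g] N ∧
      ∀ m : Fin 2 →₀ ℕ, ((m 0 : ℤ) - m 1 > n + ln π - ln μ - ln ν → N.coeff m = 0) ∧
        ((m 0 : ℤ) - m 1 ≥ n + ln π - ln μ - ln ν - 1 → 0 ≤ N.coeff m) := by
  obtain ⟨N, hN⟩ := hP F b g hx hi n π μ ν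
  refine ⟨N, hN, fun m => ?_⟩
  let K := RatFunc ℚ
  have hs : Transcendental ℚ (RatFunc.X : K) := by
    have := RatFunc.transcendental_X (K := ℚ)
    rwa [Subsingleton.elim (RatFunc.instAlgebraOfPolynomial ℚ ℚ) DivisionRing.toRatAlgebra] at this
  generalize (RatFunc.X : K) = s at hs
  have hy := @ai K _ _ DivisionRing.toRatAlgebra s hs
  have hj : Indep (1 + Lau62.gg s * (1 + bb K)) (1 + Lau62.gg s) :=
    indep hy (ib := 0) (ig := 1) (by decide)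
  have h0 := hT F _ b g _ _ hx hy hi hj n π μ ν N hN
  rw [aeval_int, WW] at h0
  have hq := Lau62.pow_ne_one hs
  obtain ⟨m0, h1, h2⟩ := hL _ K Lau62.Rd pl_Rd _ _ (th K) (1 + s) hj Rd_th (Rd_q s) (Rd_t s)
    (th_q s) hq n
  obtain ⟨G, hG⟩ := closure_poly (hA K s hq n m0 h1 π μ ν)
  obtain ⟨G1, p1, e1⟩ := MJS.second hM hs hj n π μ ν
  have h3 := Rd_th_zpow (h2 π μ ν)
  rw [hG] at h3
  rw [MJS.WW] at e1
  rw [h0] at h3 e1
  generalize (n : ℤ) + ln π - ln μ - ln ν = d at h3 e1 ⊢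
  obtain ⟨h4, h5⟩ := coeff_top hs _ d G h3.1 h3.2 m
  have h6 := coeff_line hs _ _ G1 e1 m
  rw [coeff_map, eq_intCast] at h4 h5 h6
  refine ⟨fun h => by exact_mod_cast h4 h, fun h => ?_⟩
  rw [← Int.cast_nonneg_iff (R := ℚ)]
  rcases lt_trichotomy ((m 0 : ℤ) - m 1) d with h7 | h7 | h7
  · rw [h6 (by omega)]; exact p1 _
  · rw [h5 h7]; exact Nat.cast_nonneg _
  · rw [h4 h7]

end MJP
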