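import Pool.Agent.Lib.MP_9c49f6_co.PBlue

/-! Places given by evaluation of integer polynomials, and removal of denominators. -/

namespace MJP
open MJ MJT Finset MvPolynomial

namespace UFD98

theorem inj {F : Type} [Field F] [CharZero F] {x : Fin 2 → F} (hx : AlgebraicIndependent ℚ x) :
    Function.Injective (aeval x : MvPolynomial (Fin 2) ℤ →ₐ[ℤ] F) :=
  hx.restrictScalars (R := ℤ) (algebraMap ℤ ℚ).injective_int

theorem pl {F : Type} [Field F] [CharZero F] {x : Fin 2 → F} (hx : AlgebraicIndependent ℚ x)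
    (K : Type) [Field K] (ev : MvPolynomial (Fin 2) ℤ →+* K) : Pl (Rv x ev) where
  one := ⟨1, 1, by simp, by simp, by simp⟩
  neg := by
    rintro y a ⟨A, B, hB, h1, h2⟩
    refine ⟨-A, B, hB, ?_, ?_⟩
    · rw [map_neg, ← h1]; ring
    · rw [map_neg, ← h2]; ring
  add := by
    rintro y a z b ⟨A, B, hB, h1, h2⟩ ⟨A', B', hB', h1', h2'⟩
    refine ⟨A * B' + A' * B, B * B', by rw [map_mul]; exact mul_ne_zero hB hB', ?_, ?_⟩
    · rw [map_add, map_mul, map_mul, map_mul, ← h1, ← h1']; ring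
    · rw [map_add, map_mul, map_mul, map_mul, ← h2, ← h2']; ring
  mul := by
    rintro y a z b ⟨A, B, hB, h1, h2⟩ ⟨A', B', hB', h1', h2'⟩
    refine ⟨A * A', B * B', by rw [map_mul]; exact mul_ne_zero hB hB', ?_, ?_⟩
    · rw [map_mul, map_mul, ← h1, ← h1']; ring
    · rw [map_mul, map_mul, ← h2, ← h2']; ring
  inv := by
    rintro y a ⟨A, B, hB, h1, h2⟩ ha
    have hA : ev A ≠ 0 := by rw [← h2]; exact mul_ne_zero ha hB
    have hA0 : A ≠ 0 := by rintro rfl; exact hA (map_zero _)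
    have hy : y ≠ 0 := by
      rintro rfl
      apply hA0
      apply inj hx
      rw [← h1, mul_zero, map_zero]
    refine ⟨B, A, hA, ?_, ?_⟩
    · rw [← h1, mul_assoc, mul_inv_cancel₀ hy, mul_one]
    · rw [← h2, ← mul_assoc, inv_mul_cancel₀ ha, one_mul]
  zero := by
    rintro a ⟨A, B, hB, h1, h2⟩
    have hA : A = 0 := by
      apply inj hx
      rw [← h1, mul_zero, map_zero]
    rw [hA, map_zero] at h2
    exact (mul_eq_zero.1 h2).resolve_right hB

theorem clear {F : Type} [Field F] [CharZero F] {x : Fin 2 → F} (hx : AlgebraicIndependent ℚ x)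
    (y : F) (s : MvPolynomial (Fin 2) ℤ) : ∀ A : MvPolynomial (Fin 2) ℤ, s ≠ 0 →
    aeval x s * y = aeval x A →
    (∀ p, Prime p → p ∣ s → ∃ B A' : MvPolynomial (Fin 2) ℤ,
      ¬ p ∣ B ∧ aeval x B * y = aeval x A') →
    ∃ N : MvPolynomial (Fin 2) ℤ, y = aeval x N := by
  induction s using UniqueFactorizationMonoid.induction_on_prime with
  | h₁ => intro A h; exact absurd rfl h
  | h₂ u hu =>
    intro A _ h _
    obtain ⟨v, hv⟩ := hu.exists_left_inv
    refine ⟨v * A, ?_⟩
    rw [map_mul, ← h, ← mul_assoc, ← map_mul, hv, map_one, one_mul]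
  | h₃ s p hs hp ih =>
    intro A _ h hall
    obtain ⟨B, A', hB, hBA⟩ := hall p hp (dvd_mul_right p s)
    have e : B * A = p * (s * A') := by
      apply inj hx
      rw [map_mul, map_mul, map_mul, ← h, ← hBA, map_mul]; ring
    have hpA : p ∣ A := (hp.dvd_or_dvd ⟨_, e⟩).resolve_left hB
    obtain ⟨A₁, rfl⟩ := hpA
    have hp0 : (aeval x p : F) ≠ 0 := by
      intro h0
      exact hp.ne_zero (inj hx (by rw [h0, map_zero]))
    refine ih A₁ hs ?_ fun r hr hrs => hall r hr (hrs.mul_left p)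
    apply mul_left_cancel₀ hp0
    rw [← mul_assoc, ← map_mul, h, map_mul]

end UFD98

theorem st_UFD : St_UFD := fun _ _ _ _ hx =>
  ⟨fun K _ ev => UFD98.pl hx K ev, fun y s A => UFD98.clear hx y s A⟩

end MJP
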