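import Pool.Agent.Lib.MP_9c49f6_co.Yop

/-! Positivity of the operators in `b` and `γ`. -/

namespace MJ
open Finset MvPolynomial

variable {F : Type} [Field F]

def br (t : F) (k : ℕ) : F := ∑ i ∈ range (k+1), t ^ i

structure PosData (q t w : F) where
  P : Subsemiring F
  b : F
  g : F
  hb : b ∈ P
  hg : g ∈ P
  hw : w ∈ P
  inv : ∀ n : ℕ, (n : F)⁻¹ ∈ P
  g0 : g ≠ 0
  ht : t = 1 + g
  hq : q = 1 + g * (1 + b)
  t0 : t ≠ 0

noncomputable def Gt (g w : F) : Polynomial F :=
  Polynomial.C g⁻¹ * (Polynomial.X - 1) + Polynomial.C w * Polynomial.X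

lemma Sh_mul (c : ℕ → F) (n : ℕ) (f g : Lam F) :
    Sh c n (f * g) = ∑ p ∈ antidiagonal n, Sh c p.1 f * Sh c p.2 g := by
  simp only [Sh_nat, map_mul, Polynomial.coeff_mul]

lemma run_UU_zero (q t : F) (L : List (Polynomial F)) (v : St F) : run q t L (UU v) 0 = 0 := by
  induction L generalizing v with
  | nil => simp
  | cons p L ih => rw [run_cons, ih]

variable {q t w : F} (D : PosData q t w)

namespace PosData

lemma t_mem : t ∈ D.P := by
  have h := add_mem (one_mem D.P) D.hg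
  rwa [← D.ht] at h
lemma q_mem : q ∈ D.P := by
  have h := add_mem (one_mem D.P) (mul_mem D.hg (add_mem (one_mem _) D.hb))
  rwa [← D.hq] at h
lemma br_t (k : ℕ) : t ^ (k+1) - 1 = D.g * br t k := by
  have h : t - 1 = D.g := by have := D.ht; linear_combination this
  rw [br, ← geom_sum_mul, mul_comm, h]
lemma br_mem {x : F} (hx : x ∈ D.P) (k : ℕ) : br x k ∈ D.P := sum_mem fun i _ => pow_mem hx i
lemma qdiv (k : ℕ) : D.g⁻¹ * (q ^ (k+1) - 1) ∈ D.P := by
  have : D.g⁻¹ * (q ^ (k+1) - 1) = (1 + D.b) * br q k := by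
    have h : q - 1 = D.g * (1 + D.b) := by have := D.hq; linear_combination this
    rw [br, ← geom_sum_mul, h]; field_simp [D.g0]
  rw [this]; exact mul_mem (add_mem (one_mem _) D.hb) (D.br_mem D.q_mem k)
lemma qtdiv (j : ℕ) : D.g⁻¹ * (q ^ j - t ^ j) ∈ D.P := by
  induction j with
  | zero => simp
  | succ j ih =>
    have h : q - t = D.g * D.b := by
      have h1 := D.hq; have h2 := D.ht; linear_combination h1 - h2
    have : D.g⁻¹ * (q ^ (j+1) - t ^ (j+1)) = q * (D.g⁻¹ * (q ^ j - t ^ j)) + D.b * t ^ j := by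
      have h3 := mul_inv_cancel₀ D.g0
      linear_combination (D.g⁻¹ * t ^ j) * h + D.b * t ^ j * h3
    rw [this]; exact add_mem (mul_mem D.q_mem ih) (mul_mem D.hb (pow_mem D.t_mem j))

noncomputable def PL : Subsemiring (Lam F) :=
  Subsemiring.closure (C '' (D.P : Set F) ∪ Set.range fun k => C (br t k) * X k)

lemma C_mem {a : F} (ha : a ∈ D.P) : C a ∈ D.PL := Subsemiring.subset_closure (Or.inl ⟨a, ha, rfl⟩)
lemma X_mem (k : ℕ) : C (br t k) * X k ∈ D.PL := Subsemiring.subset_closure (Or.inr ⟨k, rfl⟩)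
lemma smul_mem {a : F} (ha : a ∈ D.P) {f : Lam F} (hf : f ∈ D.PL) : a • f ∈ D.PL := by
  rw [smul_eq_C_mul]; exact mul_mem (D.C_mem ha) hf
lemma of_div {f : Lam F} (h : D.g⁻¹ • f ∈ D.PL) : f ∈ D.PL := by
  have := D.smul_mem D.hg h
  rwa [smul_smul, mul_inv_cancel₀ D.g0, one_smul] at this

lemma gg_div (m : ℤ) : gg t m ∈ D.PL ∧ (m ≠ 0 → D.g⁻¹ • gg t m ∈ D.PL) := by
  rcases lt_or_ge m 0 with h | h
  · rw [gg_neg t h]; simp
  · obtain ⟨r, rfl⟩ := Int.eq_ofNat_of_zero_le h
    induction r using Nat.strong_induction_on with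
    | _ r ih =>
      cases r with
      | zero => simp
      | succ r =>
        have : D.g⁻¹ • gg t ((r+1 : ℕ) : ℤ) ∈ D.PL := by
          rw [gg, gen_nat, ex_succ', smul_comm, smul_sum]
          refine D.smul_mem (by simpa using D.inv (r+1)) (sum_mem fun k _ => ?_)
          have h1 := (ih (r - k) (by omega) (by omega)).1
          rw [gg, gen_nat] at h1
          rw [← smul_mul_assoc, ← smul_mul_assoc, smul_eq_C_mul, ← map_mul, D.br_t,
            inv_mul_cancel_left₀ D.g0]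
          exact mul_mem (D.X_mem k) h1
        exact ⟨D.of_div this, fun _ => this⟩

lemma Sh_div {f : Lam F} (hf : f ∈ D.PL) : ∀ s : ℕ,
    Sh (fun k => q ^ (k+1) - 1) s f ∈ D.PL ∧
      (s ≠ 0 → D.g⁻¹ • Sh (fun k => q ^ (k+1) - 1) s f ∈ D.PL) := by
  have aux : ∀ f ∈ D.PL, (∀ s : ℕ, s ≠ 0 → D.g⁻¹ • Sh (fun k => q ^ (k+1) - 1) s f ∈ D.PL) →
      ∀ s : ℕ, Sh (fun k => q ^ (k+1) - 1) s f ∈ D.PL ∧
      (s ≠ 0 → D.g⁻¹ • Sh (fun k => q ^ (k+1) - 1) s f ∈ D.PL) := by
    intro f hf h s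
    refine ⟨?_, h s⟩
    rcases eq_or_ne s 0 with rfl | hs
    · simpa using hf
    · exact D.of_div (h s hs)
  induction hf using Subsemiring.closure_induction with
  | mem x hx =>
    refine aux x (Subsemiring.subset_closure hx) fun s hs => ?_
    rcases hx with ⟨a, _, rfl⟩ | ⟨k, rfl⟩
    · rw [Sh_C, if_neg (by omega)]; simp
    · simp only
      rw [mul_comm, Sh_X_mul, Sh_C, if_neg (by omega), Sh_C, mul_zero, zero_add, smul_smul]
      refine D.smul_mem (D.qdiv k) ?_
      split_ifs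
      · exact D.C_mem (D.br_mem D.t_mem k)
      · exact zero_mem _
  | zero => simp
  | one =>
    refine aux 1 (one_mem _) fun s hs => ?_
    rw [← C_1, Sh_C, if_neg (by omega)]; simp
  | add x y _ _ hx hy =>
    intro s
    simp only [map_add, smul_add]
    exact ⟨add_mem (hx s).1 (hy s).1, fun h => add_mem ((hx s).2 h) ((hy s).2 h)⟩
  | mul x y hx' hy' hx hy =>
    refine aux _ (mul_mem hx' hy') fun s hs => ?_
    rw [Sh_mul, smul_sum]
    refine sum_mem fun p hp => ?_
    rcases eq_or_ne p.1 0 with h | h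
    · rw [← mul_smul_comm]
      exact mul_mem (hx _).1 ((hy _).2 (by simp at hp; omega))
    · rw [← smul_mul_assoc]; exact mul_mem ((hx _).2 h) (hy _).1

def PO (a : ℤ) (f : Lam F) : Prop := t ^ a • f ∈ D.PL

lemma PO_zero (a : ℤ) : D.PO a 0 := by simp [PO]
lemma PO_add {a : ℤ} {f g : Lam F} (hf : D.PO a f) (hg : D.PO a g) : D.PO a (f + g) := by
  unfold PO at *; rw [smul_add]; exact add_mem hf hg
lemma PO_sum {ι : Type} {a : ℤ} {s : Finset ι} {f : ι → Lam F} (h : ∀ i ∈ s, D.PO a (f i)) :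
    D.PO a (∑ i ∈ s, f i) := by
  unfold PO at *; rw [smul_sum]; exact sum_mem h
lemma PO_smul {a : ℤ} {x : F} (hx : x ∈ D.P) {f : Lam F} (hf : D.PO a f) : D.PO a (x • f) := by
  unfold PO at *; rw [smul_comm]; exact D.smul_mem hx hf
lemma PO_mono {a a' : ℤ} (h : a ≤ a') {f : Lam F} (hf : D.PO a f) : D.PO a' f := by
  obtain ⟨n, rfl⟩ := Int.le.dest h
  unfold PO at *
  rw [add_comm, zpow_add₀ D.t0, mul_smul, zpow_natCast]
  exact D.smul_mem (pow_mem D.t_mem n) hf
lemma PO_T {a : ℤ} (j : ℕ) {f : Lam F} (hf : D.PO a f) : D.PO (a + j) (t⁻¹ ^ j • f) := by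
  unfold PO at *
  rwa [smul_smul, zpow_add₀ D.t0, zpow_natCast, mul_assoc, ← mul_pow, mul_inv_cancel₀ D.t0,
    one_pow, mul_one]
lemma PO_qT {a : ℤ} (j : ℕ) {f : Lam F} (hf : D.PO a f) :
    D.PO (a + j) ((q * t⁻¹) ^ j • f) := by
  rw [mul_pow, mul_smul]; exact D.PO_smul (pow_mem D.q_mem j) (D.PO_T j hf)
lemma PO_of_div {a : ℤ} {f : Lam F} (hf : D.PO a (D.g⁻¹ • f)) : D.PO a f := by
  unfold PO at *; rw [smul_comm] at hf; exact D.of_div hf

variable [CharZero F]

lemma DD_div (m : ℤ) {k a : ℤ} {f : Lam F} (hf : f ∈ Hm F k) (h : D.PO a f) :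
    D.PO (a + k) (D.g⁻¹ • (DD q t m f - if m = 0 then f else 0)) := by
  rcases lt_or_ge k 0 with hk | hk
  · rw [Hm_neg hf hk]; simp [PO_zero]
  obtain ⟨n, rfl⟩ := Int.eq_ofNat_of_zero_le hk
  rw [DD_eq_sum q t m f (n+1) (fun s hs => Sh_eq_zero_of_Hm _ hf (by omega)), sum_range_succ',
    add_sub_assoc, smul_add, smul_sum]
  refine D.PO_add (D.PO_sum fun s hs => ?_) ?_
  · have e : cS q t = fun k => t⁻¹ ^ (k+1) * (q ^ (k+1) - 1) := by funext k; rw [cS, mul_comm]
    rw [e, Sh_scale, mul_smul_comm, smul_comm]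
    refine D.PO_mono (by simp at hs; omega) (D.PO_T (a := a) (s+1) ?_)
    unfold PO at *
    rw [smul_comm, ← mul_smul_comm, ← map_smul, ← mul_smul_comm]
    exact mul_mem (D.gg_div _).1 ((D.Sh_div h (s+1)).2 (by omega))
  · simp only [Nat.cast_zero, add_zero, Sh_zero]
    split_ifs with hm
    · subst hm; simp [PO_zero]
    · refine D.PO_mono (by omega) (a := a) ?_
      unfold PO at *
      rw [sub_zero, ← smul_mul_assoc, ← mul_smul_comm]
      exact mul_mem ((D.gg_div m).2 hm) h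

def PS (a : ℤ) (v : St F) : Prop := ∀ s : ℕ, D.PO (a + s) (v s)

omit [CharZero F] in
lemma PS_inc {a : ℤ} {f : Lam F} (h : D.PO a f) : D.PS a (inc f) := by
  intro s; cases s with
  | zero => simpa using h
  | succ s => simpa using D.PO_zero _

omit [CharZero F] in
lemma PS_UU {a : ℤ} {v : St F} (h : D.PS a v) : D.PS (a - 1) (UU v) := by
  intro s; cases s with
  | zero => simpa using D.PO_zero _
  | succ s =>
    have := h s
    rw [UU_succ]; convert this using 1; push_cast; ring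

lemma PS_top {a k : ℤ} {v : St F} (hv : v ∈ HS F k) (h : D.PS a v) (j : ℕ) :
    D.PO (a + k) (v j) := by
  rcases lt_or_ge k j with h1 | h1
  · rw [HS_bound hv h1]; exact D.PO_zero _
  · exact D.PO_mono (by omega) (h j)

lemma psi_div {a k : ℤ} {v : St F} (hv : v ∈ HS F k) (h : D.PS a v) (j : ℕ) :
    D.PO (a + k) (D.g⁻¹ • (psi q t (-j) v - v j)) := by
  have e : v j = ∑ s ∈ range (k.toNat + j + 1), if (s:ℤ) + -j = 0 then v s else 0 := by
    rw [sum_eq_single j] <;> simp
    · intro b _ hb hc; omega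
  rw [psi_eq_sum q t _ v (k.toNat + j + 1) (fun s hs => HS_bound hv (by omega))]
  conv => rhs; rw [e]
  rw [← sum_sub_distrib, smul_sum]
  refine D.PO_sum fun s _ => ?_
  have := D.DD_div (s + -j) (hv s) (h s)
  convert this using 1; ring

lemma PS_EE {a k : ℤ} {v : St F} (hv : v ∈ HS F k) (h : D.PS a v) : D.PS (a + k) (EE q t v) := by
  intro j
  rw [EE_apply]
  refine D.PO_qT j ?_
  have := D.PO_add (D.PO_of_div (D.psi_div hv h j)) (D.PS_top hv h j)
  rwa [sub_add_cancel] at this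

lemma PS_Gt {a k : ℤ} {v : St F} (hv : v ∈ HS F k) (h : D.PS a v) :
    D.PS (a + k) (Polynomial.aeval (EE q t) (Gt D.g w) v) := by
  intro j
  have e : Polynomial.aeval (EE q t) (Gt D.g w) v j =
      (q * t⁻¹) ^ j • (D.g⁻¹ • (psi q t (-j) v - v j)) +
      t⁻¹ ^ j • ((D.g⁻¹ * (q ^ j - t ^ j)) • v j) + w • EE q t v j := by
    have : t⁻¹ ^ j * t ^ j = 1 := by rw [← mul_pow, inv_mul_cancel₀ D.t0, one_pow]
    simp only [Gt, map_add, map_mul, map_sub, Polynomial.aeval_C, Polynomial.aeval_X, map_one,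
      LinearMap.add_apply, Module.End.mul_apply, LinearMap.sub_apply, Module.End.one_apply,
      Module.algebraMap_end_apply, Finsupp.add_apply, Finsupp.smul_apply, Finsupp.sub_apply,
      EE_apply]
    linear_combination (norm := module) (D.g⁻¹ * this) • v j
  rw [e]
  exact D.PO_add (D.PO_add (D.PO_qT j (D.psi_div hv h j))
    (D.PO_T j (D.PO_smul (D.qtdiv j) (D.PS_top hv h j)))) (D.PO_smul D.hw (D.PS_EE hv h j))

lemma PS_rep (i : ℕ) {a k : ℤ} {v : St F} (hv : v ∈ HS F k) (h : D.PS a v) :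
    D.PS (a + (2 * k * i + i * i - 2 * i))
      (run q t (List.replicate i (Polynomial.X * Gt D.g w)) v) := by
  induction i generalizing a k v with
  | zero => simpa using h
  | succ i ih =>
    rw [List.replicate_succ, run_cons, map_mul, Polynomial.aeval_X, Module.End.mul_apply]
    have h1 := aeval_HS q t (Gt D.g w) hv
    have := ih (UU_HS (EE_HS q t h1)) (D.PS_UU (D.PS_EE h1 (D.PS_Gt hv h)))
    convert this using 1; push_cast; ring

lemma PO_wd (i j : ℕ) {a k : ℤ} {v : St F} (hv : v ∈ HS F k) (h : D.PS a v) :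
    D.PO (a + (2 * k * (i + j + 1) + (i + j) * (i + j) + j))
      (D.g⁻¹ • psi q t 0 (run q t (wd (Polynomial.X * Gt D.g w) (Gt D.g w) i j) v)) := by
  rw [wd, run_append, run_cons]
  have h1 := run_HS (q := q) (t := t) (List.replicate i (Polynomial.X * Gt D.g w)) hv
  have h2 := UU_HS (aeval_HS q t (Gt D.g w) h1)
  have h3 := run_HS (q := q) (t := t) (List.replicate j (Polynomial.X * Gt D.g w)) h2
  have := D.psi_div h3 (D.PS_rep j h2 (D.PS_UU (D.PS_Gt h1 (D.PS_rep i hv h)))) 0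
  rw [run_UU_zero, sub_zero, Nat.cast_zero, neg_zero] at this
  convert this using 1
  simp; ring

lemma PO_YP (K : ℕ) {a m : ℤ} {f : Lam F} (hf : f ∈ Hm F m) (h : D.PO a f) :
    D.PO (a + (2 * m * (K + 1) + K * (K + 1))) (D.g⁻¹ • YP q t (Gt D.g w) K f) := by
  rw [YP, smul_sum]
  refine D.PO_sum fun i hi => ?_
  obtain ⟨j, rfl⟩ := Nat.exists_eq_add_of_le (show i ≤ K by simpa [Nat.lt_succ_iff] using hi)
  have := D.PO_qT i (D.PO_wd i j (inc_HS hf) (D.PS_inc h))
  rw [smul_comm, Nat.add_sub_cancel_left]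
  convert this using 1; push_cast; ring

lemma PO_Y0 (K : ℕ) : D.PO (K * (K + 1)) (D.g⁻¹ • Y0 q t (Gt D.g w) K) := by
  have hv : UU (inc (1 : Lam F)) ∈ HS F (0 + 1) := UU_HS (inc_HS one_mem_Hm)
  have hp : D.PS (0 - 1) (UU (inc 1)) := D.PS_UU (D.PS_inc (by simp [PO]))
  rw [Y0, smul_add, smul_sum]
  refine D.PO_add (D.PO_sum fun i hi => ?_) ?_
  · obtain ⟨j, rfl⟩ := Nat.exists_eq_add_of_le (show i + 1 ≤ K by simpa using hi)
    have := D.PO_qT (i+1) (D.PO_wd i j hv hp)
    rw [smul_comm, Nat.add_sub_cancel_left]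
    convert this using 1; push_cast; ring
  · have := D.psi_div (run_HS (q := q) (t := t) _ hv) (D.PS_rep K hv hp) 0
    rw [run_UU_zero, sub_zero, Nat.cast_zero, neg_zero] at this
    convert this using 1
    simp; ring

end PosData

variable [CharZero F]

omit [CharZero F] in
lemma wd_length (G p : Polynomial F) (i j : ℕ) : (wd G p i j).length = i + j + 1 := by
  simp [wd]; ring

lemma FF_Hm (G : Polynomial F) (K0 : ℕ) (L : List ℕ) :
    FF q t G K0 L ∈ Hm F (dg L + (K0 + 1)) := by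
  induction L with
  | nil =>
    have hv : UU (inc (1 : Lam F)) ∈ HS F (0 + 1) := UU_HS (inc_HS one_mem_Hm)
    rw [FF, Y0]
    refine add_mem (Submodule.sum_mem _ fun i hi => Submodule.smul_mem _ _ ?_) ?_
    · have := psi_Hm q t 0 (run_HS (q := q) (t := t) (wd (Polynomial.X * G) G i (K0 - (i+1))) hv)
      convert this using 2
      simp [wd_length, dg] at hi ⊢; omega
    · have := psi_Hm q t 0 (run_HS (q := q) (t := t) (List.replicate K0 (Polynomial.X * G)) hv)
      convert this using 2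
      simp [dg]; ring
  | cons K L ih =>
    rw [FF, YP]
    refine Submodule.sum_mem _ fun i hi => Submodule.smul_mem _ _ ?_
    have := psi_Hm q t 0 (run_HS (q := q) (t := t) (wd (Polynomial.X * G) G i (K - i)) (inc_HS ih))
    convert this using 2
    simp [wd_length, dg] at hi ⊢; omega

omit [CharZero F] in
lemma YP_smul (G : Polynomial F) (K : ℕ) (c : F) (f : Lam F) :
    YP q t G K (c • f) = c • YP q t G K f := by
  simp only [YP, map_smul, smul_sum, smul_comm c]

theorem PosData.PO_FF (K0 : ℕ) (L : List ℕ) :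
    D.PO ((dg L + (K0 + 1)) * (dg L + K0)) (D.g⁻¹ ^ (L.length + 1) • FF q t (Gt D.g w) K0 L) := by
  induction L with
  | nil => simpa [dg, FF, mul_comm] using D.PO_Y0 K0
  | cons K L ih =>
    have := D.PO_YP K (Submodule.smul_mem _ _ (FF_Hm (q := q) (t := t) (Gt D.g w) K0 L)) ih
    rw [YP_smul, smul_smul, ← pow_succ'] at this
    rw [FF, List.length_cons]
    convert this using 1
    simp [dg]; ring

def pw (s : ℕ → F) (d : ℕ →₀ ℕ) : F := d.prod fun k e => s k ^ e

omit [CharZero F] in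
lemma pw_add (s : ℕ → F) (d e : ℕ →₀ ℕ) : pw s (d + e) = pw s d * pw s e :=
  Finsupp.prod_add_index' (by simp) (fun _ _ _ => pow_add _ _ _)

omit [CharZero F] in
lemma pw_single (s : ℕ → F) (k : ℕ) : pw s (Finsupp.single k 1) = s k := by simp [pw]

omit [CharZero F] in
lemma PosData.coeff_mem {f : Lam F} (hf : f ∈ D.PL) : ∀ d, ∃ a ∈ D.P,
    coeff d f = a * pw (br t) d := by
  induction hf using Subsemiring.closure_induction with
  | mem x hx =>
    intro d
    rcases hx with ⟨a, ha, rfl⟩ | ⟨k, rfl⟩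
    · rw [coeff_C]; split_ifs with h
      · subst h; exact ⟨a, ha, by simp [pw]⟩
      · exact ⟨0, zero_mem _, by simp⟩
    · simp only [coeff_C_mul, coeff_X]
      split_ifs with h
      · subst h; exact ⟨1, one_mem _, by simp [pw_single]⟩
      · exact ⟨0, zero_mem _, by simp⟩
  | zero => exact fun d => ⟨0, zero_mem _, by simp⟩
  | one =>
    intro d
    rw [coeff_one]; split_ifs with h
    · subst h; exact ⟨1, one_mem _, by simp [pw]⟩
    · exact ⟨0, zero_mem _, by simp⟩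
  | add x y _ _ hx hy =>
    intro d
    obtain ⟨a, ha, h1⟩ := hx d; obtain ⟨b, hb, h2⟩ := hy d
    exact ⟨a + b, add_mem ha hb, by rw [coeff_add, h1, h2, add_mul]⟩
  | mul x y _ _ hx hy =>
    intro d
    choose a ha h1 using hx
    choose b hb h2 using hy
    refine ⟨∑ p ∈ antidiagonal d, a p.1 * b p.2, sum_mem fun p _ => mul_mem (ha _) (hb _), ?_⟩
    rw [coeff_mul, sum_mul]
    refine sum_congr rfl fun p hp => ?_
    rw [h1, h2, ← mem_antidiagonal.mp hp, pw_add]; ring

end MJ
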