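import Pool.Agent.Lib.MP_9c49f6_co.Three

/-! States with two catalytic variables: the operators `T`, `K`, `Q` and their relations. -/

namespace MJ
namespace Q2
open Finset Polynomial

abbrev PP (L : Type) [CommRing L] := Polynomial L
abbrev P1 (F : Type) [Field F] := PP (Lam F)
abbrev V2 (F : Type) [Field F] := PP (P1 F)

section ind
variable {R : Type} [CommRing R]

lemma pind {P : Polynomial R → Prop} (hC : ∀ a, P (C a)) (hadd : ∀ u v, P u → P v → P (u + v))
    (hX : ∀ u, P u → P (X * u)) (u : Polynomial R) : P u := by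
  induction u using Polynomial.induction_on with
  | C a => exact hC a
  | add p r hp hr => exact hadd _ _ hp hr
  | monomial n a h =>
    have e : C a * X ^ (n+1) = X * (C a * X ^ n) := by ring
    rw [e]; exact hX _ h

lemma mind {P : Polynomial R → Prop} (hadd : ∀ u v, P u → P v → P (u + v))
    (hm : ∀ n a, P (X ^ n * C a)) (u : Polynomial R) : P u := by
  induction u using Polynomial.induction_on' with
  | add p r hp hr => exact hadd _ _ hp hr
  | monomial n a => rw [← C_mul_X_pow_eq_monomial, mul_comm]; exact hm n a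

lemma lsum_m {F M : Type} [Field F] [Algebra F R] [AddCommGroup M] [Module F M]
    (A : ℕ → R →ₗ[F] M) (n : ℕ) (a : R) : Polynomial.lsum A (X ^ n * C a) = A n a := by
  rw [mul_comm, C_mul_X_pow_eq_monomial]
  simp [Polynomial.lsum, Polynomial.sum_monomial_index]

lemma lsum_C {F M : Type} [Field F] [Algebra F R] [AddCommGroup M] [Module F M]
    (A : ℕ → R →ₗ[F] M) (a : R) : Polynomial.lsum A (C a) = A 0 a := by
  have := lsum_m A 0 a
  rwa [pow_zero, one_mul] at this

lemma X_m (n : ℕ) (a : R) : X * (X ^ n * C a) = X ^ (n+1) * C a := by ring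

end ind

variable {F : Type} [Field F]

lemma pind1 {P : P1 F → Prop} (hC : ∀ a : Lam F, P (C a))
    (hadd : ∀ u v : P1 F, P u → P v → P (u + v))
    (hX : ∀ u : P1 F, P u → P (X * u)) (u : P1 F) : P u := pind hC hadd hX u

lemma pind2 {P : V2 F → Prop} (hC : ∀ a : P1 F, P (C a))
    (hadd : ∀ u v : V2 F, P u → P v → P (u + v))
    (hX : ∀ u : V2 F, P u → P (X * u)) (u : V2 F) : P u := pind hC hadd hX u

lemma lc2 (a b c : V2 F) : a * (b * c) = b * (a * c) := by ring

/-- induction from the states without catalytic variable -/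
lemma ind2 {P : V2 F → Prop} (hC : ∀ f, P (C (C f))) (hadd : ∀ u v, P u → P v → P (u + v))
    (h1 : ∀ v, P v → P (C X * v)) (h2 : ∀ v, P v → P (X * v)) (v : V2 F) : P v := by
  refine pind (fun u => ?_) hadd h2 v
  refine pind (P := fun u => P (C u)) hC (fun u v hu hv => ?_) (fun u hu => ?_) u
  · rw [map_add]; exact hadd _ _ hu hv
  · rw [map_mul]; exact h1 _ hu

/-- the inclusion of the scalars as a linear map -/
noncomputable def CL1 : Lam F →ₗ[F] P1 F := (CAlgHom (R := F) (A := Lam F)).toLinearMap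
/-- the inclusion `w ↦ y1` -/
noncomputable def CL2 : P1 F →ₗ[F] V2 F := (CAlgHom (R := F) (A := P1 F)).toLinearMap
@[simp] lemma CL1_apply (f : Lam F) : CL1 f = C f := rfl
@[simp] lemma CL2_apply (u : P1 F) : CL2 u = C u := rfl

lemma C1_smul (a : F) (f : Lam F) : (C (a • f) : P1 F) = a • C f := map_smul CL1 a f
lemma C2_smul (a : F) (u : P1 F) : (C (a • u) : V2 F) = a • C u := map_smul CL2 a u

variable (q t s : F)

/-- the shift `f ↦ f[X + w]` -/
noncomputable def Ph : Lam F →ₐ[F] P1 F := Phi (cS q t)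
/-- `w^a f ↦ g_(a+c) f` -/
noncomputable def Lc (c : ℤ) : P1 F →ₗ[F] Lam F := LL t c

lemma Ph_C (r : F) : Ph q t (MvPolynomial.C r) = C (MvPolynomial.C r) := Phi_C _ r
lemma Ph_X (k : ℕ) : Ph q t (MvPolynomial.X k) =
    C (MvPolynomial.X k) + C (MvPolynomial.C (cS q t k)) * X ^ (k+1) := Phi_X _ k
lemma Ph_coeff (f : Lam F) (j : ℕ) : (Ph q t f).coeff j = Sh (cS q t) j f := (Sh_nat _ j f).symm
lemma Lc_C (c : ℤ) (a : Lam F) : Lc t c (C a) = gg t c * a := LL_C t c a
lemma Lc_C_mul (c : ℤ) (a : Lam F) (u : P1 F) : Lc t c (C a * u) = a * Lc t c u :=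
  LL_C_mul t c a u
lemma Lc_X (c : ℤ) (u : P1 F) : Lc t c (X * u) = Lc t (c+1) u := LL_X_mul t c u
lemma Lc_m (c : ℤ) (a : ℕ) (f : Lam F) : Lc t c (X ^ a * C f) = gg t (c + a) * f :=
  (LL_X_pow_mul t c a (C f)).trans (LL_C t _ f)

/-- `w^a f ↦ y2^a f[X + y1]` -/
noncomputable def i1 : P1 F →ₐ[F] V2 F := Polynomial.mapAlgHom (Ph q t)

lemma i1_C (f : Lam F) : i1 q t (C f) = C (Ph q t f) := by simp [i1]
lemma i1_X : i1 q t X = X := by simp [i1]

noncomputable def SS : ℕ → P1 F
  | 0 => 0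
  | k+1 => C (gg t k) + s • (X * SS k)

noncomputable def RR (k : ℕ) : P1 F := C (gg t k) + (s - 1) • (X * SS t s k)

noncomputable def Eb : ℕ → P1 F
  | 0 => 0
  | k+1 => (q * t⁻¹) • (X * Eb k) + Ph q t (gg t k)

/-- the one-mark operator in shifted coordinates -/
noncomputable def Eh : Module.End F (P1 F) :=
  Polynomial.lsum fun a => LinearMap.mulLeft F (Eb q t (a+1)) ∘ₗ (Ph q t).toLinearMap

noncomputable def QQ : V2 F →ₗ[F] P1 F :=
  Polynomial.lsum fun b => LinearMap.mulLeft F (RR t s (b+1))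

noncomputable def kk : ℕ → V2 F
  | 0 => 1
  | b+1 => (q * t⁻¹) • (C X * kk b) + i1 q t (RR t s (b+1))

noncomputable def KK : Module.End F (V2 F) :=
  Polynomial.lsum fun b => LinearMap.mulLeft F (kk q t s b) ∘ₗ (i1 q t).toLinearMap

noncomputable def ta : ℕ → V2 F
  | 0 => 1
  | a+1 => X * ta a - (s - 1) • C (X ^ (a+1))

noncomputable def Tb : ℕ → P1 F →ₗ[F] V2 F
  | 0 => Polynomial.lsum fun a => LinearMap.mulLeft F (ta s a) ∘ₗ CL2 ∘ₗ CL1
  | b+1 => LinearMap.mulLeft F (C X) ∘ₗ (Tb b + (s - 1) • (LinearMap.mulLeft F (X ^ b) ∘ₗ CL2))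

/-- the Demazure-Lusztig operator -/
noncomputable def TT : Module.End F (V2 F) := Polynomial.lsum (Tb s)

/-! ### Recursions -/

lemma RR_zero : RR t s 0 = 1 := by simp [RR, SS]

lemma SS_succ (k : ℕ) : SS t s (k+1) = RR t s k + X * SS t s k := by
  rw [SS, RR]; module

lemma RR_succ (k : ℕ) :
    RR t s (k+1) = s • (X * RR t s k) + (C (gg t (k+1 : ℕ)) - X * C (gg t k)) := by
  rw [RR, RR, SS]
  simp only [mul_add, mul_smul_comm]
  module

lemma Eh_m (a : ℕ) (f : Lam F) : Eh q t (X ^ a * C f) = Eb q t (a+1) * Ph q t f := by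
  rw [Eh, lsum_m]; rfl

lemma Eh_C (f : Lam F) : Eh q t (C f) = Ph q t f := by
  have := Eh_m q t 0 f
  simpa [Eb] using this

lemma Eh_X (u : P1 F) :
    Eh q t (X * u) = (q * t⁻¹) • (X * Eh q t u) + Ph q t (Lc t 1 u) := by
  induction u using mind with
  | hadd u v hu hv => simp only [mul_add, map_add, hu, hv, smul_add]; abel
  | hm a f =>
    have e : (1:ℤ) + a = (a+1 : ℕ) := by push_cast; ring
    rw [X_m, Eh_m, Eh_m, Lc_m, e, map_mul, Eb, add_mul, smul_mul_assoc, mul_assoc]

lemma QQ_m (b : ℕ) (u : P1 F) : QQ t s (X ^ b * C u) = RR t s (b+1) * u := by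
  rw [QQ, lsum_m]; rfl

lemma QQ_C_mul (u : P1 F) (v : V2 F) : QQ t s (C u * v) = u * QQ t s v := by
  induction v using mind with
  | hadd u v hu hv => simp only [mul_add, map_add, hu, hv]
  | hm b w => rw [mul_left_comm, ← map_mul, QQ_m, QQ_m]; ring

lemma KK_m (b : ℕ) (u : P1 F) : KK q t s (X ^ b * C u) = kk q t s b * i1 q t u := by
  rw [KK, lsum_m]; rfl

lemma KK_C (u : P1 F) : KK q t s (C u) = i1 q t u := by
  have := KK_m q t s 0 u
  simpa [kk] using this

lemma KK_y1 (v : V2 F) : KK q t s (C X * v) = X * KK q t s v := by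
  induction v using mind with
  | hadd u v hu hv => simp only [mul_add, map_add, hu, hv]
  | hm b w => rw [mul_left_comm, ← map_mul, KK_m, KK_m, map_mul, i1_X]; ring

lemma KK_y2 (v : V2 F) :
    KK q t s (X * v) = (q * t⁻¹) • (C X * KK q t s v) + i1 q t (QQ t s v) := by
  induction v using mind with
  | hadd u v hu hv => simp only [mul_add, map_add, hu, hv, smul_add]; abel
  | hm b w =>
    rw [X_m, KK_m, KK_m, QQ_m, map_mul, kk, add_mul, smul_mul_assoc, mul_assoc]

lemma TT_m (b : ℕ) (u : P1 F) : TT s (X ^ b * C u) = Tb s b u := by rw [TT, lsum_m]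

lemma TT_Cm (a : ℕ) (f : Lam F) : TT s (C (X ^ a * C f)) = ta s a * C (C f) := by
  rw [TT, lsum_C, Tb, lsum_m]; rfl

lemma TT_CC (f : Lam F) : TT s (C (C f)) = C (C f) := by
  have := TT_Cm s 0 f
  simpa [ta] using this

lemma TT_y2 (v : V2 F) : TT s (X * v) = C X * (TT s v + (s - 1) • v) := by
  induction v using mind with
  | hadd u v hu hv => simp only [mul_add, map_add, hu, hv, smul_add]; abel
  | hm b w => rw [X_m, TT_m, TT_m]; rfl

lemma TT_y1 (v : V2 F) : TT s (C X * v) = X * TT s v - (s - 1) • (C X * v) := by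
  refine pind2 (P := fun v => TT s (C X * v) = X * TT s v - (s - 1) • (C X * v))
    (fun u => ?_) (fun u v hu hv => ?_) (fun v hv => ?_) v
  · induction u using mind with
    | hadd u v hu hv => simp only [mul_add, map_add, hu, hv, smul_add]; abel
    | hm a f =>
      rw [← map_mul, X_m, TT_Cm, TT_Cm, ta, sub_mul, smul_mul_assoc, mul_assoc, map_mul C]
  · simp only [mul_add, map_add, hu, hv, smul_add]; abel
  · rw [lc2, TT_y2, TT_y2, hv]
    simp only [mul_add, mul_smul_comm, sub_add_cancel]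
    rw [lc2 X, lc2 X (C X) v, add_sub_cancel_right]

/-! ### The Hecke relation, symmetric elements -/

lemma TT_sq (v : V2 F) : TT s (TT s v + (s - 1) • v) = s • v := by
  refine ind2 (P := fun v => TT s (TT s v + (s - 1) • v) = s • v)
    (fun f => ?_) (fun u v hu hv => ?_) (fun v hv => ?_) (fun v hv => ?_) v
  · rw [TT_CC, map_add, map_smul, TT_CC]; module
  · have e : TT s (u + v) + (s - 1) • (u + v) =
        (TT s u + (s - 1) • u) + (TT s v + (s - 1) • v) := by rw [map_add]; module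
    rw [e, map_add, hu, hv, smul_add]
  · rw [TT_y1, sub_add_cancel, TT_y2, ← map_smul, ← map_add, hv, mul_smul_comm]
  · rw [TT_y2, map_add, map_smul, TT_y1, TT_y2, hv, mul_smul_comm, mul_comm X,
      ← mul_smul_comm (s - 1), mul_smul_comm (s - 1), sub_add_cancel]

lemma TT_sq' (v : V2 F) : TT s (TT s v) + (s - 1) • TT s v = s • v := by
  have := TT_sq s v
  rwa [map_add, map_smul] at this

/-- elements commuting with `T` -/
def Sy (z : V2 F) : Prop := ∀ v, TT s (z * v) = z * TT s v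

lemma Sy_CC (f : Lam F) : Sy s (C (C f)) := by
  intro v
  refine ind2 (P := fun v => TT s (C (C f) * v) = C (C f) * TT s v)
    (fun g => ?_) (fun u v hu hv => ?_) (fun v hv => ?_) (fun v hv => ?_) v
  · rw [← map_mul, ← map_mul, TT_CC, TT_CC, map_mul, map_mul]
  · simp only [mul_add, map_add, hu, hv]
  · rw [lc2, TT_y1, TT_y1, hv]
    simp only [Algebra.smul_def]; ring
  · rw [lc2, TT_y2, TT_y2, hv, ← mul_smul_comm]; ring

lemma Sy_add {y z : V2 F} (hy : Sy s y) (hz : Sy s z) : Sy s (y + z) := fun v => by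
  rw [add_mul, map_add, hy, hz, add_mul]
lemma Sy_sub {y z : V2 F} (hy : Sy s y) (hz : Sy s z) : Sy s (y - z) := fun v => by
  rw [sub_mul, map_sub, hy, hz, sub_mul]
lemma Sy_mul {y z : V2 F} (hy : Sy s y) (hz : Sy s z) : Sy s (y * z) := fun v => by
  rw [mul_assoc, hy, hz, mul_assoc]
lemma Sy_e1 : Sy s (C X + X) := fun v => by
  rw [add_mul, map_add, TT_y1, TT_y2, mul_add, mul_smul_comm, add_mul]; abel
lemma Sy_e2 : Sy s (C X * X) := fun v => by
  rw [mul_assoc, TT_y1, TT_y2]; simp only [mul_add, mul_smul_comm]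
  rw [mul_left_comm X (C X) v, add_sub_cancel_right]; ring

lemma Sy_p (k : ℕ) : Sy s (C X ^ k + X ^ k) ∧ Sy s (C X ^ (k+1) + X ^ (k+1)) := by
  induction k with
  | zero =>
    refine ⟨?_, by simpa using Sy_e1 s⟩
    have := Sy_CC s 1
    rw [map_one, map_one] at this
    simpa using Sy_add s this this
  | succ k ih =>
    refine ⟨ih.2, ?_⟩
    have e : (C X ^ (k+1+1) + X ^ (k+1+1) : V2 F) =
        (C X + X) * (C X ^ (k+1) + X ^ (k+1)) - C X * X * (C X ^ k + X ^ k) := by ring
    rw [e]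
    exact Sy_sub s (Sy_mul s (Sy_e1 s) ih.2) (Sy_mul s (Sy_e2 s) ih.1)

lemma Sy_Phi (f : Lam F) : Sy s (i1 q t (Ph q t f)) := by
  induction f using lam_ind with
  | hC r => rw [Ph_C, i1_C, Ph_C]; exact Sy_CC s _
  | hadd f g hf hg => rw [map_add, map_add]; exact Sy_add s hf hg
  | hX f k hf =>
    rw [map_mul, map_mul]
    refine Sy_mul s ?_ hf
    have e : i1 q t (Ph q t (MvPolynomial.X k)) = C (C (MvPolynomial.X k)) +
        C (C (MvPolynomial.C (cS q t k))) * (C X ^ (k+1) + X ^ (k+1)) := by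
      rw [Ph_X, map_add, map_mul, map_pow, i1_C, i1_C, i1_X, Ph_X, Ph_C]
      simp only [map_add, map_mul, map_pow]; ring
    rw [e]
    exact Sy_add s (Sy_CC s _) (Sy_mul s (Sy_CC s _) (Sy_p s k).2)

lemma TT_one : TT s (1 : V2 F) = 1 := by
  have := TT_CC s 1
  rwa [map_one, map_one] at this

lemma TT_Phi (f : Lam F) : TT s (i1 q t (Ph q t f)) = i1 q t (Ph q t f) := by
  have := Sy_Phi q t s f 1
  rwa [mul_one, TT_one, mul_one] at this

/-! ### The closing is invariant -/

noncomputable def MM2 (d : ℤ) : V2 F →ₗ[F] P1 F :=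
  Polynomial.lsum fun b => LinearMap.mulLeft F (C (gg t (d + b)))

lemma MM2_m (d : ℤ) (b : ℕ) (u : P1 F) : MM2 t d (X ^ b * C u) = C (gg t (d + b)) * u := by
  rw [MM2, lsum_m]; rfl

lemma MM2_y1 (d : ℤ) (v : V2 F) : MM2 t d (C X * v) = X * MM2 t d v := by
  induction v using mind with
  | hadd u v hu hv => simp only [mul_add, map_add, hu, hv]
  | hm b w => rw [mul_left_comm, ← map_mul, MM2_m, MM2_m]; ring

lemma MM2_y2 (d : ℤ) (v : V2 F) : MM2 t d (X * v) = MM2 t (d+1) v := by
  induction v using mind with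
  | hadd u v hu hv => simp only [mul_add, map_add, hu, hv]
  | hm b w =>
    have e : d + ((b+1 : ℕ) : ℤ) = d + 1 + b := by push_cast; ring
    rw [X_m, MM2_m, MM2_m, e]

lemma QQ_y2 (v : V2 F) :
    QQ t s (X * v) = s • (X * QQ t s v) + (MM2 t 2 v - X * MM2 t 1 v) := by
  induction v using mind with
  | hadd u v hu hv => simp only [mul_add, map_add, hu, hv, smul_add]; abel
  | hm b w =>
    have e1 : (2:ℤ) + b = (b+1+1 : ℕ) := by push_cast; ring
    have e2 : (1:ℤ) + b = (b+1 : ℕ) := by push_cast; ring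
    rw [X_m, QQ_m, QQ_m, MM2_m, MM2_m, RR_succ, e1, e2, add_mul, smul_mul_assoc, mul_assoc,
      sub_mul, mul_assoc]

lemma exists_dd (v : V2 F) : ∃ h : V2 F, TT s v = v + (X * h - s • (C X * h)) ∧
    ∀ c d : ℤ, Lc t d (MM2 t c v) = Lc t c (MM2 t d v) +
      (Lc t c (MM2 t (d+1) h) - Lc t (c+1) (MM2 t d h)) := by
  refine ind2 (P := fun v => ∃ h : V2 F, TT s v = v + (X * h - s • (C X * h)) ∧
    ∀ c d : ℤ, Lc t d (MM2 t c v) = Lc t c (MM2 t d v) +
      (Lc t c (MM2 t (d+1) h) - Lc t (c+1) (MM2 t d h)))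
    (fun f => ?_) (fun u v hu hv => ?_) (fun v hv => ?_) (fun v hv => ?_) v
  · refine ⟨0, by simp [TT_CC], fun c d => ?_⟩
    have h := fun d => MM2_m t d 0 (C f)
    simp only [pow_zero, one_mul, Nat.cast_zero, add_zero] at h
    rw [h, h, Lc_C_mul, Lc_C_mul, Lc_C, Lc_C]
    simp only [map_zero, sub_zero, add_zero]; ring
  · obtain ⟨g, h1, h2⟩ := hu
    obtain ⟨h, h3, h4⟩ := hv
    refine ⟨g + h, ?_, fun c d => ?_⟩
    · rw [map_add, h1, h3]; simp only [mul_add, smul_add]; abel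
    · simp only [map_add, h2 c d, h4 c d]; abel
  · obtain ⟨h, h1, h2⟩ := hv
    refine ⟨v + X * h, ?_, fun c d => ?_⟩
    · rw [TT_y1, h1]
      simp only [mul_add, mul_sub, mul_smul_comm, smul_add, mul_left_comm X (C X) h]
      module
    · simp only [map_add, MM2_y1, MM2_y2, Lc_X, h2 c (d+1)]; abel
  · obtain ⟨h, h1, h2⟩ := hv
    refine ⟨C X * h - v, ?_, fun c d => ?_⟩
    · rw [TT_y2, h1]
      simp only [Algebra.smul_def, map_sub, map_one]; ring
    · simp only [map_sub, MM2_y1, MM2_y2, Lc_X, h2 (c+1) d]; abel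

lemma CL_TT (v : V2 F) : Lc t 1 (QQ t s (TT s v)) = Lc t 1 (QQ t s v) := by
  obtain ⟨h, h1, h2⟩ := exists_dd t s v
  have h3 := h2 1 1
  rw [h1, map_add, map_add, map_sub, map_smul, QQ_y2, QQ_C_mul, add_sub_cancel_left, map_sub,
    Lc_X]
  rw [show (1:ℤ) + 1 = 2 from rfl] at h3 ⊢
  linear_combination -h3

lemma QQ_TT_C (u : P1 F) : QQ t s (TT s (C u)) = C (Lc t 1 u) + (s - 1) • (X * u) := by
  have key : ∀ a c : ℕ, QQ t s (X ^ c * ta s a) =
      C (gg t (c + 1 + a : ℕ)) + (s - 1) • (X ^ (a+1) * SS t s (c+1)) := by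
    intro a
    induction a with
    | zero =>
      intro c
      have := QQ_m t s c 1
      rw [map_one] at this
      rw [ta, this, mul_one, RR]; simp
    | succ a ih =>
      intro c
      have e : c + 1 + (a + 1) = c + 1 + 1 + a := by ring
      rw [ta, mul_sub, ← mul_assoc, ← pow_succ, mul_smul_comm, map_sub, map_smul, ih, QQ_m, e,
        SS_succ t s (c+1), mul_add, smul_add, mul_comm (RR t s (c+1)), ← mul_assoc, ← pow_succ]
      abel
  induction u using mind with
  | hadd u v hu hv => simp only [mul_add, map_add, hu, hv, smul_add]; abel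
  | hm a f =>
    have h := key a 0
    have e : (1:ℤ) + a = (0 + 1 + a : ℕ) := by push_cast; ring
    rw [pow_zero, one_mul, zero_add, SS, SS] at h
    rw [TT_Cm, mul_comm (ta s a), QQ_C_mul, h, Lc_m, e, X_m, map_mul, mul_add, mul_smul_comm]
    simp only [Nat.cast_zero, gg_zero, map_one, mul_zero, smul_zero, add_zero, mul_one]
    rw [mul_comm (C f), mul_comm (C f)]

/-! ### The core relations -/

section core
variable {q t s} {s' : F} [CharZero F] (ht : t ≠ 0) (ha : s + s' = q + t⁻¹)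
  (hm : s * s' = q * t⁻¹)
include ht

lemma Ph_gg (m : ℤ) :
    Ph q t (gg t m) - (q + t⁻¹) • (X * Ph q t (gg t (m-1))) +
      (q * t⁻¹) • (X ^ 2 * Ph q t (gg t (m-2))) =
    C (gg t m) - (1 + q * t⁻¹) • (X * C (gg t (m-1))) + (q * t⁻¹) • (X ^ 2 * C (gg t (m-2))) := by
  have h := Phi_S_gg q t ht m
  simp only [Algebra.smul_def]
  exact h

lemma Eb_two (k : ℕ) : Eb q t (k+2) - (q + t⁻¹) • (X * Eb q t (k+1)) +
    (q * t⁻¹) • (X ^ 2 * Eb q t k) = C (gg t (k+1 : ℕ)) - X * C (gg t k) := by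
  induction k with
  | zero =>
    have h := Ph_gg (q := q) ht 1
    rw [gg_neg t (show (1:ℤ) - 2 < 0 by omega), sub_self] at h
    simp only [Eb, Nat.cast_zero, Nat.cast_one, zero_add, gg_zero, map_one, map_zero] at h ⊢
    simp only [Algebra.smul_def, map_add, map_one] at h ⊢
    linear_combination h
  | succ k ih =>
    have h := Ph_gg (q := q) ht (k+1+1 : ℕ)
    have e1 : ((k+1+1 : ℕ) : ℤ) - 1 = (k+1 : ℕ) := by push_cast; ring
    have e2 : ((k+1+1 : ℕ) : ℤ) - 2 = k := by push_cast; ring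
    rw [e1, e2] at h
    have r1 : Eb q t (k+1+2) = _ := Eb.eq_2 q t (k+1+1)
    have r2 : Eb q t (k+1+1) = _ := Eb.eq_2 q t (k+1)
    have r3 : Eb q t (k+1) = _ := Eb.eq_2 q t k
    simp only [Algebra.smul_def, map_add, map_one] at h ih r1 r2 r3 ⊢
    linear_combination h + algebraMap F (P1 F) (q * t⁻¹) * X * ih + r1 -
      (algebraMap F (P1 F) q + algebraMap F (P1 F) t⁻¹) * X * r2 +
      algebraMap F (P1 F) (q * t⁻¹) * X ^ 2 * r3

include ha hm

lemma RR_Eb (k : ℕ) : RR t s k = Eb q t (k+1) - s' • (X * Eb q t k) := by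
  induction k with
  | zero => simp [RR_zero, Eb]
  | succ k ih =>
    rw [RR_succ, ih, ← Eb_two (q := q) ht, ← ha, ← hm]
    simp only [Algebra.smul_def, map_add, map_mul]; ring

lemma QQ_i1 (u : P1 F) :
    QQ t s (i1 q t u) = Ph q t (Lc t 1 u) + (s' * (s - 1)) • (X * Eh q t u) := by
  induction u using mind with
  | hadd u v hu hv => simp only [mul_add, map_add, hu, hv, smul_add]; abel
  | hm a f =>
    have e : (1:ℤ) + a = (a+1 : ℕ) := by push_cast; ring
    rw [map_mul, map_pow, i1_X, i1_C, QQ_m, RR_Eb ht ha hm, Eh_m, Lc_m, e, map_mul, Eb, ← hm]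
    simp only [Algebra.smul_def, map_sub, map_mul, map_one]; ring

lemma TK_i1 (u : P1 F) : TT s (KK q t s (i1 q t u)) = i1 q t (Eh q t u) := by
  refine pind1 (P := fun u => TT s (KK q t s (i1 q t u)) = i1 q t (Eh q t u))
    (fun f => ?_) (fun u v hu hv => ?_) (fun u hu => ?_) u
  · rw [i1_C, KK_C, TT_Phi, Eh_C]
  · simp only [map_add, hu, hv]
  · have h := TT_sq' s (KK q t s (i1 q t u))
    rw [hu] at h
    rw [map_mul, i1_X, KK_y2, QQ_i1 ht ha hm, Eh_X]
    simp only [map_add, map_smul, map_mul, i1_X, TT_y1, TT_y2, TT_Phi, hu]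
    rw [h, ← hm]
    simp only [Algebra.smul_def, map_sub, map_mul, map_one]; ring

lemma sK_i1 (u : P1 F) : s • KK q t s (i1 q t u) =
    TT s (i1 q t (Eh q t u)) + (s - 1) • i1 q t (Eh q t u) := by
  rw [← TK_i1 ht ha hm, TT_sq']

lemma QK (v : V2 F) : s • QQ t s (KK q t s v) = Eh q t (QQ t s (TT s v)) := by
  refine pind2 (P := fun v => s • QQ t s (KK q t s v) = Eh q t (QQ t s (TT s v)))
    (fun u => ?_) (fun u v hu hv => ?_) (fun v hv => ?_) v
  · rw [KK_C, QQ_i1 ht ha hm, QQ_TT_C, map_add, map_smul, Eh_C, Eh_X, ← hm]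
    simp only [Algebra.smul_def, map_sub, map_mul, map_one]; ring
  · simp only [map_add, smul_add, hu, hv]
  · rw [KK_y2, TT_y2, map_add, map_smul, QQ_C_mul, QQ_C_mul, QQ_i1 ht ha hm, Eh_X]
    simp only [map_add, map_smul, CL_TT, ← hv]
    rw [← hm]
    simp only [Algebra.smul_def, map_sub, map_mul, map_one]; ring

lemma EQ (hs : s ≠ 0) (v : V2 F) :
    Eh q t (QQ t s v) = QQ t s (KK q t s (TT s v + (s - 1) • v)) := by
  apply smul_right_injective _ hs
  simp only
  rw [QK ht ha hm, TT_sq, map_smul, map_smul]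

lemma core (hs : s ≠ 0) (v : V2 F) :
    TT s (KK q t s (KK q t s v)) = KK q t s (KK q t s (TT s v)) := by
  refine ind2 (P := fun v => TT s (KK q t s (KK q t s v)) = KK q t s (KK q t s (TT s v)))
    (fun f => ?_) (fun u v hu hv => ?_) (fun v hv => ?_) (fun v hv => ?_) v
  · rw [TT_CC, KK_C, i1_C, KK_C, TT_Phi]
  · simp only [map_add, hu, hv]
  · apply smul_right_injective _ hs
    have h1 := sK_i1 ht ha hm (QQ t s (TT s v))
    rw [← QK ht ha hm] at h1
    simp only [TT_y1, KK_y1, KK_y2, map_add, map_sub, map_smul, hv, smul_add, smul_sub] at h1 ⊢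
    rw [h1]
    module
  · simp only [TT_y2, KK_y1, KK_y2, map_add (KK q t s), map_smul, map_add (TT s), TK_i1 ht ha hm,
      EQ ht ha hm hs, hv]

end core

/-! ### Passage from the unshifted one-mark states -/

noncomputable def h1 : St F →ₗ[F] P1 F :=
  Finsupp.lsum F fun a : ℕ => LinearMap.mulLeft F (X ^ a) ∘ₗ (Ph q t).toLinearMap

lemma h1_single (a : ℕ) (f : Lam F) : h1 q t (Finsupp.single a f) = X ^ a * Ph q t f := by
  simp [h1]

lemma h1_inc (f : Lam F) : h1 q t (inc f) = Ph q t f := by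
  rw [inc_apply, h1_single, pow_zero, one_mul]

lemma h1_UU (v : St F) : h1 q t (UU v) = X * h1 q t v := by
  induction v using st_ind with
  | h0 => simp
  | hadd v w hv hw => simp only [map_add, mul_add, hv, hw]
  | hs j f => rw [UU_single, h1_single, h1_single]; ring

lemma Lc_h1 (c : ℤ) (v : St F) : Lc t c (h1 q t v) = psi q t c v := by
  induction v using st_ind with
  | h0 => simp
  | hadd v w hv hw => simp only [map_add, hv, hw]
  | hs j f =>
    rw [h1_single, psi_single, add_comm]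
    exact LL_X_pow_mul t c j _

lemma h1_coeff (v : St F) (d : ℕ) :
    (h1 q t v).coeff d = ∑ j ∈ range (d+1), Sh (cS q t) (d - j) (v j) := by
  induction v using st_ind with
  | h0 => simp
  | hadd v w hv hw => simp [hv, hw, sum_add_distrib]
  | hs j f =>
    have e : (X ^ j * Ph q t f).coeff d = Sh (cS q t) (d - j) f :=
      (pz_nat d _).symm.trans (pz_X_pow_mul d j _)
    rw [h1_single, e]
    simp only [Finsupp.single_apply, apply_ite (Sh (cS q t) _), map_zero]
    rw [sum_ite_eq]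
    split_ifs with h
    · rfl
    · exact Sh_neg _ (by simp at h; omega) _

lemma h1_zero {v : St F} (h : h1 q t v = 0) : v = 0 := by
  ext d : 1
  induction d using Nat.strong_induction_on with
  | _ d ih =>
    have := h1_coeff q t v d
    rw [h, coeff_zero, sum_range_succ, sum_eq_zero fun j hj => by
      rw [ih j (mem_range.mp hj)]; simp] at this
    simpa using this.symm

lemma h1_inj {v w : St F} (h : h1 q t v = h1 q t w) : v = w :=
  sub_eq_zero.mp (h1_zero q t (by rw [map_sub, h, sub_self]))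

lemma h1_iota (f : Lam F) : h1 q t (iota q t f) = C f := by
  obtain ⟨n, hn⟩ := Sh_bound (fun k => - cS q t k) f
  have := Phi_add (cS q t) (fun k => - cS q t k) f n hn
  simp only [add_neg_cancel] at this
  rw [Phi_zero] at this
  rw [h1, lsum_eq_sum _ _ n fun j hj => by
    rw [show iota q t f j = 0 from hn j (by omega), map_zero]]
  exact this.symm

lemma iota_ind {P : St F → Prop} (hadd : ∀ v w, P v → P w → P (v + w))
    (hi : ∀ f, P (iota q t f)) (hU : ∀ v, P v → P (UU v)) (v : St F) : P v := by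
  obtain ⟨w, hw, h⟩ : ∃ w, P w ∧ h1 q t w = h1 q t v := by
    refine pind1 (P := fun u => ∃ w, P w ∧ h1 q t w = u) (fun f => ⟨_, hi f, h1_iota q t f⟩)
      ?_ ?_ _
    · rintro _ _ ⟨a, ha, rfl⟩ ⟨b, hb, rfl⟩
      exact ⟨_, hadd _ _ ha hb, map_add _ _ _⟩
    · rintro _ ⟨a, ha, rfl⟩
      exact ⟨_, hU _ ha, h1_UU q t a⟩
  rwa [← h1_inj q t h]

lemma EE_iota (f : Lam F) : EE q t (iota q t f) = inc f := by
  ext j : 1
  rw [EE_apply, psi_iota]
  cases j with
  | zero => simp
  | succ j => rw [gg_neg t (by omega)]; simp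

lemma h1_EE (v : St F) : h1 q t (EE q t v) = Eh q t (h1 q t v) := by
  induction v using iota_ind q t with
  | hadd v w hv hw => simp only [map_add, hv, hw]
  | hi f => rw [EE_iota, h1_inc, h1_iota, Eh_C]
  | hU v hv => rw [EE_UU, map_add, map_smul, h1_inc, h1_UU, h1_UU, Eh_X, Lc_h1, hv, add_comm]

/-- `y1 ↦ 0` -/
noncomputable def ev0 : V2 F →+* P1 F := Polynomial.mapRingHom Polynomial.constantCoeff

lemma ev0_y1 (v : V2 F) : ev0 (C X * v) = 0 := by simp [ev0]

lemma ev0_i1 (u : P1 F) : ev0 (i1 q t u) = u := by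
  induction u using mind with
  | hadd u v hu hv => simp only [map_add, hu, hv]
  | hm a f =>
    have h : (Ph q t f).coeff 0 = f := by rw [Ph_coeff]; simp
    rw [map_mul, map_pow, i1_X, i1_C]
    simp [ev0, h]

lemma y1_cancel {v : V2 F} (h : C X * v = 0) : v = 0 :=
  (mul_eq_zero.mp h).resolve_left (C_ne_zero.mpr X_ne_zero)

end Q2
end MJ
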