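import Pool.Agent.Lib.MP_9c49f6_co.Hom

/-! Row removal and the spectrum of `E`. -/

namespace MJ
open Finset MvPolynomial

variable {F : Type} [Field F]

noncomputable def HV (j : ℤ) : St F →ₗ[F] St F := Finsupp.mapRange.linearMap (Sh (c1 F) j)

@[simp] lemma HV_apply (j : ℤ) (v : St F) (s : ℕ) : HV j v s = Sh (c1 F) j (v s) := by
  simp [HV]

lemma HV_single (j : ℤ) (s : ℕ) (f : Lam F) :
    HV j (Finsupp.single s f) = Finsupp.single s (Sh (c1 F) j f) := by simp [HV]

variable (q t : F)

def cQ (q t : F) (k : ℕ) : F := (q * t⁻¹) ^ (k+1)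

noncomputable def sig : St F →ₗ[F] Polynomial (Lam F) :=
  Finsupp.lsum F fun s : ℕ =>
    LinearMap.mulLeft F (Polynomial.X ^ s) ∘ₗ (Phi (cQ q t)).toLinearMap

lemma sig_single (s : ℕ) (f : Lam F) :
    sig q t (Finsupp.single s f) = Polynomial.X ^ s * Phi (cQ q t) f := by simp [sig]

lemma Sh_cQ (j : ℕ) (f : Lam F) : Sh (cQ q t) j f = (q * t⁻¹) ^ j • Sh (c1 F) j f := by
  rw [← Sh_scale]; congr 2; funext k; simp [cQ, c1]

lemma sig_coeff (v : St F) (d : ℕ) :
    (sig q t v).coeff d = ∑ s ∈ range (d+1), Sh (cQ q t) (d - s) (v s) := by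
  induction v using st_ind with
  | h0 => simp
  | hadd v w hv hw => simp [hv, hw, sum_add_distrib]
  | hs s f =>
    rw [sig_single, ← pz_nat, pz_X_pow_mul, ← Sh_apply]
    simp only [Finsupp.single_apply, apply_ite (Sh (cQ q t) _), map_zero]
    rw [sum_ite_eq]
    split_ifs with h
    · rfl
    · exact Sh_neg _ (by simp at h; omega) _

lemma st_bound (v : St F) : ∃ n : ℕ, ∀ s, n ≤ s → v s = 0 := by
  refine ⟨v.support.sup id + 1, fun s hs => ?_⟩
  by_contra h
  have := Finset.le_sup (f := id) (Finsupp.mem_support_iff.mpr h)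
  simp at this; omega

lemma core_sum (w : St F) (d : ℤ) (n : ℕ) (h : ∀ j : ℤ, (n:ℤ) ≤ j → HV j w = 0) :
    ∑ j ∈ range n, t⁻¹ ^ j • psi q t (j - d) (HV j w) = LL t (-d) (sig q t w) := by
  obtain ⟨N, hN⟩ := st_bound w
  have e : cQ q t = fun k => cS q t k + t⁻¹ ^ (k+1) * c1 F k := by
    funext k; simp [cQ, cS, c1, mul_pow]; ring
  rw [sig, lsum_eq_sum _ w N (fun s hs => by rw [hN s hs, map_zero]), map_sum]
  have : ∀ j : ℕ, psi q t (j - d) (HV j w) = ∑ s ∈ range N, DD q t (s + (j - d)) (HV j w s) :=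
    fun j => psi_eq_sum q t _ _ N fun s hs => by simp [hN s hs]
  simp only [this, smul_sum]
  rw [sum_comm]
  refine sum_congr rfl fun s _ => ?_
  simp only [LinearMap.comp_apply, LinearMap.mulLeft_apply, AlgHom.toLinearMap_apply]
  rw [LL_X_pow_mul, e, LL_Phi_add t _ _ _ _ n]
  · refine sum_congr rfl fun j _ => ?_
    rw [Sh_scale, map_smul, map_smul, HV_apply, DD_apply]
    congr 3; ring
  · intro j hj
    obtain ⟨i, rfl⟩ := Int.eq_ofNat_of_zero_le (show 0 ≤ j by omega)
    rw [Sh_scale, ← HV_apply, h i hj]; simp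

lemma LL_top (P : Polynomial (Lam F)) (k d : ℕ) (hd : k ≤ d) (h : ∀ e, k < e → P.coeff e = 0) :
    LL t (-d) P = if d = k then P.coeff k else 0 := by
  have : P = ∑ e ∈ range (k+1), Polynomial.monomial e (P.coeff e) := by
    ext e : 1
    rw [Polynomial.finsetSum_coeff]
    simp only [Polynomial.coeff_monomial, sum_ite_eq', mem_range]
    split_ifs with he
    · rfl
    · exact h e (by omega)
  conv_lhs => rw [this, map_sum, sum_range_succ]
  rw [sum_eq_zero, zero_add, LL_monomial]
  · split_ifs with h1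
    · subst h1; simp
    · rw [gg_neg t (by omega), zero_mul]
  · intro e he
    rw [LL_monomial, gg_neg t (by simp at he; omega), zero_mul]

noncomputable def er (j i : ℤ) (w : St F) : Lam F :=
  Sh (c1 F) j (psi q t i w) - t⁻¹ • psi q t i (HV j w)

noncomputable def Fs (k : ℕ) : Submodule F (St F) where
  carrier := {w | (∀ j : ℤ, (k:ℤ) < j → HV j w = 0) ∧ ∀ d, k < d → (sig q t w).coeff d = 0}
  add_mem' := by
    rintro a b ⟨h1, h2⟩ ⟨h3, h4⟩
    exact ⟨fun j hj => by simp [h1 j hj, h3 j hj], fun d hd => by simp [h2 d hd, h4 d hd]⟩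
  zero_mem' := by simp
  smul_mem' := by
    rintro c a ⟨h1, h2⟩
    exact ⟨fun j hj => by simp [h1 j hj], fun d hd => by simp [h2 d hd]⟩

def mono (q t : F) (c : ℕ × ℕ) : F := q ^ c.2 * t⁻¹ ^ c.1

noncomputable def annP (L : List (ℕ × ℕ)) : Polynomial F :=
  (L.map fun c => Polynomial.X - Polynomial.C (mono q t c)).prod

lemma annP_cons (c : ℕ × ℕ) (L : List (ℕ × ℕ)) :
    annP q t (c :: L) = (Polynomial.X - Polynomial.C (mono q t c)) * annP q t L := by
  simp [annP]

lemma annP_append (L L' : List (ℕ × ℕ)) : annP q t (L ++ L') = annP q t L * annP q t L' := by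
  simp [annP]

lemma aeval_lin (x : F) (p : Polynomial F) (v : St F) :
    Polynomial.aeval (EE q t) ((Polynomial.X - Polynomial.C x) * p) v =
      EE q t (Polynomial.aeval (EE q t) p v) - x • Polynomial.aeval (EE q t) p v := by
  rw [map_mul, Module.End.mul_apply, map_sub, Polynomial.aeval_X, Polynomial.aeval_C]
  simp

variable [CharZero F]

lemma H_psi (j i : ℤ) (w : St F) :
    Sh (c1 F) j (psi q t i w) - t • Sh (c1 F) (j-1) (psi q t (i-1) w) =
      psi q t i (HV j w) - psi q t (i-1) (HV (j-1) w) := by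
  induction w using st_ind with
  | h0 => simp
  | hadd v w hv hw => simp only [map_add, smul_add]; linear_combination hv + hw
  | hs s f =>
    have e : (s:ℤ) + (i - 1) = s + i - 1 := by ring
    simp only [HV_single, psi_single, e]
    exact H_DD q t j _ f

lemma er_sum (ht : t ≠ 0) (d : ℤ) (w : St F) (j : ℕ) :
    t⁻¹ ^ j • er q t j (j - d) w =
      (1 - t⁻¹) • ∑ i ∈ range (j+1), t⁻¹ ^ i • psi q t (i - d) (HV i w) := by
  induction j with
  | zero =>
    have : HV (0:ℤ) w = w := by ext s : 1; simp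
    simp [er, this, sub_smul]
  | succ j ih =>
    have h := H_psi q t (j+1) (j+1-d) w
    have e1 : (j:ℤ) + 1 - 1 = j := by ring
    have e2 : (j:ℤ) + 1 - d - 1 = j - d := by ring
    rw [e1, e2] at h
    rw [sum_range_succ, smul_add, ← ih]
    simp only [er]; push_cast
    have h' := congrArg (fun x => t⁻¹ ^ (j+1) • x) h
    simp only [smul_sub, smul_smul] at h' ⊢
    have e3 : t⁻¹ ^ (j+1) * t = t⁻¹ ^ j := by rw [pow_succ, mul_assoc, inv_mul_cancel₀ ht, mul_one]
    rw [e3] at h'
    linear_combination (norm := module) h'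

lemma er_val (ht : t ≠ 0) {k : ℕ} {w : St F} (hw : w ∈ Fs q t k) (j d : ℕ) (hj : k ≤ j)
    (hd : k ≤ d) :
    er q t j (j - d) w = if d = k then (t ^ j * (1 - t⁻¹)) • (sig q t w).coeff k else 0 := by
  have h := er_sum q t ht d w j
  rw [core_sum q t w d (j+1) (fun i hi => hw.1 i (by omega)), LL_top t _ k d hd hw.2] at h
  have h' := congrArg (fun x => t ^ j • x) h
  simp only [smul_smul, ← mul_pow, mul_inv_cancel₀ ht, one_pow, one_smul] at h'
  rw [h']; split_ifs <;> simp

lemma sum_diag (ht : t ≠ 0) (w : St F) (d : ℤ) (n : ℕ) :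
    (1 - t⁻¹) • ∑ J ∈ range (n+1), Sh (c1 F) J (psi q t (J - d) w) = er q t n (n - d) w := by
  induction n with
  | zero =>
    have : HV (0:ℤ) w = w := by ext s : 1; simp
    simp [er, this, sub_smul]
  | succ j ih =>
    have h := H_psi q t (j+1) (j+1-d) w
    have e1 : (j:ℤ) + 1 - 1 = j := by ring
    have e2 : (j:ℤ) + 1 - d - 1 = j - d := by ring
    rw [e1, e2] at h
    rw [sum_range_succ, smul_add, ih]
    simp only [er]; push_cast
    have h' := congrArg (fun x => t⁻¹ • x) h
    simp only [smul_sub, smul_smul, inv_mul_cancel₀ ht, one_smul] at h'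
    linear_combination (norm := module) -h'

lemma sig_EE (ht : t ≠ 0) (ht1 : t ≠ 1) {k : ℕ} {w : St F} (hw : w ∈ Fs q t k) (d : ℕ)
    (hd : k ≤ d) :
    (sig q t (EE q t w)).coeff d = if d = k then q ^ k • (sig q t w).coeff k else 0 := by
  have h1 : (sig q t (EE q t w)).coeff d =
      (q * t⁻¹) ^ d • ∑ J ∈ range (d+1), Sh (c1 F) J (psi q t (J - d) w) := by
    rw [sig_coeff, ← sum_range_reflect, smul_sum]
    refine sum_congr rfl fun J hJ => ?_
    have hJ' : J ≤ d := by simpa [Nat.lt_succ_iff] using hJ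
    have e1 : d + 1 - 1 - J = d - J := by omega
    have e2 : (d:ℤ) - ((d - J : ℕ) : ℤ) = J := by omega
    have e3 : -((d - J : ℕ) : ℤ) = J - d := by omega
    rw [e1, e2, Sh_cQ, EE_apply, e3, map_smul, smul_smul, ← pow_add]
    congr 2; omega
  have h2 := sum_diag q t ht w d d
  rw [er_val q t ht hw d d hd hd] at h2
  have hT : (1 - t⁻¹) ≠ 0 := by
    rw [sub_ne_zero]; exact fun h => ht1 (inv_eq_one.mp h.symm)
  apply smul_right_injective _ hT
  simp only
  rw [h1, smul_comm, h2]
  split_ifs with h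
  · subst h
    rw [smul_smul, smul_smul]; congr 1
    rw [mul_pow, inv_pow]; field_simp
  · simp

lemma HV_EE (ht : t ≠ 0) {k : ℕ} {w : St F} (hw : w ∈ Fs q t k) (j : ℕ) (hj : k ≤ j) :
    HV j (EE q t w) = t⁻¹ • EE q t (HV j w) +
      if j = k then (t ^ k * (1 - t⁻¹)) • inc ((sig q t w).coeff k) else 0 := by
  ext r : 1
  have h := er_val q t ht hw j (j + r) hj (by omega)
  have e : (j:ℤ) - ((j + r : ℕ) : ℤ) = -r := by push_cast; ring
  rw [e, er, sub_eq_iff_eq_add] at h
  rw [HV_apply, EE_apply, map_smul, h, Finsupp.add_apply, Finsupp.smul_apply, EE_apply, smul_add,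
    add_comm, smul_comm]
  congr 1
  by_cases h1 : j = k
  · subst h1
    cases r with
    | zero => simp
    | succ r => simp
  · rw [if_neg h1, if_neg (by omega)]; simp

lemma EE_Fs (ht : t ≠ 0) (ht1 : t ≠ 1) {k : ℕ} {w : St F} (hw : w ∈ Fs q t k) :
    EE q t w ∈ Fs q t k := by
  refine ⟨fun j hj => ?_, fun d hd => ?_⟩
  · obtain ⟨i, rfl⟩ := Int.eq_ofNat_of_zero_le (show 0 ≤ j by omega)
    rw [HV_EE q t ht hw i (by omega), hw.1 i hj, if_neg (by omega)]; simp
  · rw [sig_EE q t ht ht1 hw d hd.le, if_neg (by omega)]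

lemma annP_down (ht : t ≠ 0) (ht1 : t ≠ 1) {k : ℕ} {w : St F} (hw : w ∈ Fs q t k)
    (h0 : (sig q t w).coeff k = 0) (L : List (ℕ × ℕ)) :
    let w' := Polynomial.aeval (EE q t) (annP q t (L.map fun c => (c.1 + 1, c.2))) w
    w' ∈ Fs q t k ∧ (sig q t w').coeff k = 0 ∧
      HV k w' = t⁻¹ ^ L.length • Polynomial.aeval (EE q t) (annP q t L) (HV k w) := by
  induction L with
  | nil => simp [annP, hw, h0]
  | cons c L ih =>
    obtain ⟨h1, h2, h3⟩ := ih
    simp only [List.map_cons, annP_cons, aeval_lin]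
    refine ⟨sub_mem (EE_Fs q t ht ht1 h1) (Submodule.smul_mem _ _ h1), ?_, ?_⟩
    · rw [map_sub, map_smul, Polynomial.coeff_sub, Polynomial.coeff_smul,
        sig_EE q t ht ht1 h1 k le_rfl, h2]; simp
    · rw [map_sub, map_smul, HV_EE q t ht h1 k le_rfl, h2, h3]
      simp only [if_true, map_zero, smul_zero, add_zero, map_smul, List.length_cons, mono]
      module

omit [CharZero F] in
lemma DD_C (m : ℤ) (c : F) : DD q t m (C c) = gg t m * C c := by
  rw [DD_apply, Phi_C, LL_C]

omit [CharZero F] in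
lemma EE_inc_C (c : F) : EE q t (inc (C c)) = inc (C c) := by
  ext j : 1
  rw [EE_apply, psi_inc, DD_C]
  cases j with
  | zero => simp
  | succ j => rw [gg_neg t (by omega)]; simp

lemma spectrum (ht : t ≠ 0) (ht1 : t ≠ 1) (N : ℕ) : ∃ L : List (ℕ × ℕ), ∀ m : ℤ, m < N →
    ∀ w ∈ HS F m, Polynomial.aeval (EE q t) (annP q t L) w = 0 := by
  induction N with
  | zero =>
    refine ⟨[], fun m hm w hw => ?_⟩
    have : w = 0 := by ext s : 1; exact HS_bound hw (by omega)
    simp [this]
  | succ N ih =>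
    obtain ⟨L', hL'⟩ := ih
    have inner : ∀ k : ℕ, ∃ L : List (ℕ × ℕ), ∀ m : ℤ, m < (N+1 : ℕ) → ∀ w ∈ HS F m,
        w ∈ Fs q t k → Polynomial.aeval (EE q t) (annP q t L) w = 0 := by
      intro k
      induction k with
      | zero =>
        refine ⟨[(0,0)], fun m _ w _ hw => ?_⟩
        have hc : ∀ s, w s = C (constantCoeff (w s)) := fun s => eq_C_of_Sh _ fun j hj => by
          have := congrArg (fun v => v s) (hw.1 j (by simpa using hj))
          rw [HV_apply] at this
          exact this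
        have hw0 : w = inc (C (constantCoeff (w 0))) := by
          ext s : 1
          cases s with
          | zero => simpa using hc 0
          | succ s =>
            have := hw.2 (s+1) (by omega)
            rw [sig_coeff, sum_range_succ, sum_eq_zero] at this
            · simpa using this
            · intro i hi
              rw [hc i, Sh_C, if_neg (by simp at hi; omega)]
        rw [hw0]
        have := aeval_lin q t (mono q t (0,0)) 1 (inc (C (constantCoeff (w 0))))
        simp only [annP, List.map_cons, List.map_nil, List.prod_cons, List.prod_nil]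
        rw [this]; simp [EE_inc_C, mono]
      | succ k ihk =>
        obtain ⟨L, hL⟩ := ihk
        refine ⟨L ++ (L'.map fun c => (c.1 + 1, c.2)) ++ [(0, k+1)], fun m hm w hw hF => ?_⟩
        rw [annP_append, annP_append, map_mul, map_mul, Module.End.mul_apply, Module.End.mul_apply]
        set w1 := Polynomial.aeval (EE q t) (annP q t [(0, k+1)]) w with hw1
        have e1 : w1 = EE q t w - q ^ (k+1) • w := by
          have := aeval_lin q t (mono q t (0,k+1)) 1 w
          simp only [hw1, annP, List.map_cons, List.map_nil, List.prod_cons, List.prod_nil]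
          rw [this]; simp [mono]
        have f1 : w1 ∈ Fs q t (k+1) :=
          e1 ▸ sub_mem (EE_Fs q t ht ht1 hF) (Submodule.smul_mem _ _ hF)
        have s1 : (sig q t w1).coeff (k+1) = 0 := by
          rw [e1, map_sub, map_smul, Polynomial.coeff_sub, Polynomial.coeff_smul,
            sig_EE q t ht ht1 hF _ le_rfl]; simp
        have g1 : w1 ∈ HS F m := aeval_HS q t _ hw
        obtain ⟨h1, h2, h3⟩ := annP_down q t ht ht1 f1 s1 L'
        have g2 : HV ((k+1 : ℕ) : ℤ) w1 ∈ HS F (m - (k+1 : ℕ)) := by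
          intro s
          have := Sh_Hm (c1 F) ((k+1 : ℕ) : ℤ) (g1 s)
          rw [HV_apply]; convert this using 2; ring
        rw [hL' _ (by omega) _ g2, smul_zero] at h3
        refine hL m hm _ (aeval_HS q t _ g1) ⟨fun j hj => ?_, fun d hd => ?_⟩
        · rcases eq_or_lt_of_le (show ((k+1 : ℕ) : ℤ) ≤ j by omega) with h | h
          · rw [← h]; exact h3
          · exact h1.1 j h
        · rcases eq_or_lt_of_le (show k+1 ≤ d by omega) with h | h
          · rw [← h]; exact h2
          · exact h1.2 d h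
    obtain ⟨L, hL⟩ := inner N
    refine ⟨L, fun m hm w hw => hL m hm w hw ⟨fun j hj => ?_, fun d hd => ?_⟩⟩
    · ext s : 1
      rw [HV_apply]; exact Sh_eq_zero_of_Hm _ (hw s) (by omega)
    · rw [sig_coeff]
      exact sum_eq_zero fun s _ => Sh_eq_zero_of_Hm _ (hw s) (by omega)

/-- row removal for `D_0` -/
lemma H_D0 (ht : t ≠ 0) (k : ℕ) (f : Lam F) (h : ∀ j : ℤ, (k:ℤ) < j → Sh (c1 F) j f = 0)
    (j : ℕ) (hj : k ≤ j) :
    Sh (c1 F) j (DD q t 0 f) = t⁻¹ • DD q t 0 (Sh (c1 F) j f) +
      ((1 - t⁻¹) * q ^ j) • Sh (c1 F) j f := by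
  have hs : ∀ d : ℕ, (sig q t (inc f)).coeff d = (q * t⁻¹) ^ d • Sh (c1 F) d f := by
    intro d; rw [inc_apply, sig_single, pow_zero, one_mul, ← Sh_nat, Sh_cQ]
  have hw : inc f ∈ Fs q t k := by
    refine ⟨fun j hj => ?_, fun d hd => ?_⟩
    · rw [inc_apply, HV_single, h j hj]; simp
    · rw [hs, h d (by omega), smul_zero]
  have := congrArg (fun v => v 0) (HV_EE q t ht hw j hj)
  simp only [HV_apply, EE_apply, pow_zero, one_smul, Nat.cast_zero, neg_zero, psi_inc,
    Finsupp.add_apply, Finsupp.smul_apply] at this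
  rw [this, inc_apply, HV_single, ← inc_apply, psi_inc]
  congr 1
  split_ifs with h1
  · subst h1
    rw [Finsupp.smul_apply, inc_zero, ← inc_apply, hs, smul_smul]; congr 1
    rw [mul_pow, inv_pow]; field_simp
  · rw [h j (by omega)]; simp

end MJ
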