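import Pool.Agent.Lib.MP_9c49f6_co.T_ASM
import Pool.Agent.Lib.MP_9c49f6_co.T_LIM
import Pool.Agent.Lib.MP_9c49f6_co.CTool

/-! Second face (first order in `θ = (t-1)/(q-1)` at fixed `q = 1 + s`): definitions and
statements of the steps. -/

namespace MJS
open MJ MJT MJC Finset MvPolynomial

section scalars
variable {K : Type} [Field K]

/-- `q = 1 + s` is neither zero nor a root of unity -/
def Gen (s : K) : Prop := 1 + s ≠ 0 ∧ ∀ k, (1 + s) ^ (k + 1) ≠ 1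

/-- generated by `s` and the non-negative rationals -/
def cone (s : K) : Subsemiring K :=
  Subsemiring.closure (insert s (Set.range fun r : ℚ≥0 => (r : K)))

/-- polynomials with coefficients in `S` -/
def PC {σ : Type} (S : Subsemiring K) : Subsemiring (MvPolynomial σ K) where
  carrier := {f | ∀ d, coeff d f ∈ S}
  mul_mem' := fun {f g} hf hg d => by
    classical
    rw [coeff_mul]
    exact sum_mem fun p _ => mul_mem (hf _) (hg _)
  one_mem' := fun d => by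
    classical
    rw [coeff_one]
    split_ifs
    · exact one_mem _
    · exact zero_mem _
  add_mem' := fun {f g} hf hg d => by
    rw [coeff_add]
    exact add_mem (hf d) (hg d)
  zero_mem' := fun d => by
    rw [coeff_zero]
    exact zero_mem _

/-- `[m]_q!` -/
def qf (q : K) (m : ℕ) : K := ∏ j ∈ range m, qi q (j + 1)
/-- `[i+j] / ([i][j])` for `i, j ≥ 1` -/
def cw (q : K) (i j : ℕ) : K := q - 1 + (qi q i)⁻¹ + (qi q j)⁻¹
/-- `[l]! [N-l]!` -/
def gN (q : K) (N l : ℕ) : K := qf q l * qf q (N - l)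
def ew (q : K) (m m' : ℕ) : K :=
  ∑ l ∈ range (min m m'), cw q (m - l) (m' - l) * (qf q m * qf q m' / gN q (m + m') l) -
    (q - 1) * (min m m' : ℕ)
def w0 (q : K) (l : List ℕ) : K := (l.map (gl q)).prod
def w1 (q : K) (l : List ℕ) : K := pair (fun m m' => gl q m * gl q m' * ew q m m') (gl q) l
end scalars

/-! ### Power sums: `X k` is `p_(k+1)` -/
section power
variable (K : Type) [Field K]

/-- `p_k`, with `p_0 = 0` -/
noncomputable def pv (k : ℕ) : Lam K := if k = 0 then 0 else X (k - 1)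
/-- the complete homogeneous function `h_m` -/
noncomputable def hh (m : ℕ) : Lam K := ex K (fun k => (X k : Lam K)) m
noncomputable def hl (l : List ℕ) : Lam K := (l.map (hh K)).prod

variable {K}
noncomputable def uu (q : K) (m m' : ℕ) : Lam K :=
  ∑ l ∈ range (min m m'), cw q (m - l) (m' - l) • (hh K l * hh K (m + m' - l))
noncomputable def Ul (q : K) (l : List ℕ) : Lam K := pair (uu q) (hh K) l

variable {R : Type} [CommRing R] [Algebra K R]

noncomputable def Ga (n : ℕ) (φ : Lam K →ₐ[K] R) (γ : ℕ → ℕ → R) (f g : Lam K) : R :=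
  ∑ k ∈ range n, ∑ l ∈ range n, γ (k+1) (l+1) * (φ (pderiv k f) * φ (pderiv l g))

noncomputable def P1 (n : ℕ) (φ : Lam K →ₐ[K] R) (δ : ℕ → R) (γ : ℕ → ℕ → R) :
    Lam K →ₗ[K] R where
  toFun f := ∑ k ∈ range n, δ (k+1) * φ (pderiv k f) +
    (2 : K)⁻¹ • ∑ k ∈ range n, ∑ l ∈ range n, γ (k+1) (l+1) * φ (pderiv k (pderiv l f))
  map_add' f g := by simp only [map_add, mul_add, sum_add_distrib, smul_add]; abel
  map_smul' c f := by
    simp only [Derivation.map_smul, map_smul, mul_smul_comm, ← smul_sum, RingHom.id_apply, smul_add,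
      smul_comm c]

lemma P1_apply (n : ℕ) (φ : Lam K →ₐ[K] R) (δ : ℕ → R) (γ : ℕ → ℕ → R) (f : Lam K) :
    P1 n φ δ γ f = ∑ k ∈ range n, δ (k+1) * φ (pderiv k f) +
      (2 : K)⁻¹ • ∑ k ∈ range n, ∑ l ∈ range n, γ (k+1) (l+1) * φ (pderiv k (pderiv l f)) := rfl

/-- `S* = 1/2 ∑ (a_i a_j / a_(i+j)) p_(i+j) ∂_i ∂_j`, `a_k = k / [k]` -/
noncomputable def Sst (q : K) (n : ℕ) : Lam K →ₗ[K] Lam K :=
  P1 n (AlgHom.id K (Lam K)) (fun _ => 0) fun i j =>
    ((i : K) * j / (i + j) * cw q i j) • pv K (i + j)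

/-! ### Two-row sequences; the index `(d, b)` stands for the pair of rows `(d + b, b)` -/

/-- `(D_x - D_y)/(x - y)` -/
def Dq (q : K) (φ : ℕ → ℕ → R) (d b : ℕ) : R := ∑ j ∈ range (b + 1),
  (qi q (d + 2 * b + 2 - j) • φ (d + 2 * (b - j) + 2) j - qi q (j + 1) • φ (d + 2 * (b - j)) (j + 1))
/-- `x D_x + y D_y` -/
def Eq' (q : K) (φ : ℕ → ℕ → R) (d b : ℕ) : R := (qi q (d + b) + qi q b) • φ d b
/-- `D_x D_y` -/
def Dxy (q : K) (φ : ℕ → ℕ → R) (d b : ℕ) : R := (qi q (d + b + 1) * qi q (b + 1)) • φ d (b + 1)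
/-- multiplication by `x y` -/
def Mxy (φ : ℕ → ℕ → R) (d b : ℕ) : R := if b = 0 then 0 else φ d (b - 1)
def et (q : K) (φ : ℕ → ℕ → R) (d b l : ℕ) : R :=
  φ (d + 2 * (b - l)) l - (qf q (d + b) * qf q b / gN q (d + 2 * b) l) • φ d b
end power

/-! ### One alphabet in the variables `X k = y_(k+1) = [k+1] p_(k+1) / (k+1)` -/
section one
variable {K : Type} [Field K]

noncomputable def hy (q : K) (m : ℕ) : Lam K :=
  ex K (fun k => C (((k + 1 : ℕ) : K) / qi q (k + 1)) * X k) m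
/-- `e'_(m+1)`, where `H(qz)/H(z) = 1 + s ∑ e'_m z^m` -/
noncomputable def ep (s : K) (m : ℕ) : Lam K :=
  C s⁻¹ * ex K (fun k => C (((k + 1 : ℕ) : K) * s) * X k) (m + 1)
/-- the Hall-Littlewood vertex operator `H_(v+1)` divided by `s` -/
noncomputable def JH (s : K) (v : ℕ) : Lam K →ₗ[K] Lam K :=
  (Polynomial.lsum fun r : ℕ => LinearMap.mulLeft K (ep s (v + r))) ∘ₗ
    (Phi fun k => qi (1 + s) (k + 1) / ((k + 1 : ℕ) : K)).toLinearMap
noncomputable def AO (s : K) (Θ : ℕ → ℕ → Lam K) (m l : ℕ) : Lam K :=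
  ∑ p ∈ antidiagonal m, ∑ r ∈ antidiagonal l, JH s (1 + p.1 + r.1) (Θ p.2 r.2)
noncomputable def th (s : K) (k : ℕ) : ℕ → ℕ → Lam K :=
  (AO s)^[k] fun m l => if m = 0 ∧ l = 0 then 1 else 0
noncomputable def GG (s : K) (k : ℕ) : ℕ → ℕ → Lam K :=
  conv2 (PowerSeries.mk (hy (1 + s))) (PowerSeries.mk (hy (1 + s))) (th s k)
end one

/-! ### Two alphabets -/
section two
variable {K : Type} [Field K]

/-- `p_k ↦ k y_k / [k]` -/
noncomputable def ia (q : K) (e : ℕ → ℕ ⊕ ℕ) : Lam K →ₐ[K] AA K :=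
  aeval fun k => C (((k + 1 : ℕ) : K) / qi q (k + 1)) * X (e k)
noncomputable def MS (q : K) (g : ℕ → K) : PowerSeries (AA K) :=
  PowerSeries.mk fun m => C (g m) * (Hh q Sum.inl m * Hh q Sum.inr m)
noncomputable def MI (q : K) (g : ℕ → K) : PowerSeries (AA K) := PowerSeries.invOfUnit (MS q g) 1
/-- `(k+1)` times the coefficient of `x^(k+1)` in `log M` -/
noncomputable def ka (q : K) (g : ℕ → K) (k : ℕ) : AA K :=
  PowerSeries.coeff k (PowerSeries.derivative (AA K) (MS q g) * MI q g)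
/-- `[k]` times the coefficient of `x^k` in `log M` -/
noncomputable def LG (q : K) (g : ℕ → K) (k : ℕ) : AA K := C (qi q k / k) * ka q g (k - 1)
noncomputable def tr (q : K) (e : ℕ → ℕ ⊕ ℕ) (i c : ℕ) : AA K :=
  if i ≤ c then Hh q e (c - i) else 0
noncomputable def wS (q : K) (i j : ℕ) : PowerSeries (AA K) := MI q (qf q) *
  PowerSeries.mk fun c => C (qf q c) * (tr q Sum.inl i c * tr q Sum.inr j c)
noncomputable def et2 (q : K) (e : ℕ → ℕ ⊕ ℕ) (m m' l : ℕ) : AA K :=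
  Hh q e l * Hh q e (m + m' - l) -
    C (qf q m * qf q m' / gN q (m + m') l) * (Hh q e m * Hh q e m')
noncomputable def Bu (q : K) (m m' : ℕ) : AA K := ∑ l ∈ range (min m m'),
  C (cw q (m - l) (m' - l) * gN q (m + m') l) * (et2 q Sum.inl m m' l * et2 q Sum.inr m m' l)
noncomputable def Cu (q : K) : ℕ → ℕ → AA K := conv2 (MI q (qf q)) (MI q (qf q)) (Bu q)
noncomputable def Bt (q : K) (m m' : ℕ) : AA K :=
  ∑ l ∈ range (min m m'), C (cw q (m - l) (m' - l)) * (Mm q l * Mm q (m + m' - l)) -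
    C (gl q m * gl q m') * (ia q Sum.inl (uu q m m') * (Hh q Sum.inr m * Hh q Sum.inr m') +
      Hh q Sum.inl m * Hh q Sum.inl m' * ia q Sum.inr (uu q m m')) +
    C (gl q m * gl q m' * ew q m m') *
      (Hh q Sum.inl m * Hh q Sum.inl m' * (Hh q Sum.inr m * Hh q Sum.inr m'))
noncomputable def Ct (q : K) : ℕ → ℕ → AA K := conv2 (MI q (gl q)) (MI q (gl q)) (Bt q)
noncomputable def ph (q : K) : Lam K →ₐ[K] AA K := aeval (ka q (gl q))
noncomputable def ga (q : K) (k l : ℕ) : AA K := ((k : K) * l) • Ct q k l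
end two

/-! ### The local ring at `θ = 0` -/
section loc
variable {K F : Type} [Field K] [Field F] [Algebra K F] {n : ℕ}

structure Loc (O : Subalgebra K F) (θ : F) : Prop where
  mem : θ ∈ O
  ne : θ ≠ 0
  inv : ∀ o ∈ O, 1 + θ * o ≠ 0 ∧ (1 + θ * o)⁻¹ ∈ O

/-- `x ∈ θ^k O` -/
def Cg (O : Subalgebra K F) (θ : F) (k : ℕ) (x : F) : Prop := ∃ o ∈ O, x = θ ^ k * o

structure Setting (s : K) (O : Subalgebra K F) (θ q t : F) : Prop where
  loc : Loc O θ
  hq : q = algebraMap K F (1 + s)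
  ht : t = 1 + θ * algebraMap K F s
  hi : Indep q t

/-- power-sum coefficients of the basis dual to `P` for the Hall form -/
def xq (q t : F) (P : n.Partition → n.Partition → F) (l μ : n.Partition) : F :=
  zqt q t μ * P l μ / (scal q t (P l) (P l) * zz μ)
def ww (q t : F) (P : n.Partition → n.Partition → F) (l : n.Partition) : F :=
  q ^ nCol l * t⁻¹ ^ nRow l /
    ((∑ μ, xq q t P l μ * (μ.parts.map fun i => (1 - q ^ i)⁻¹).prod) * (1 - q) ^ n)
def FC (q t : F) (P : n.Partition → n.Partition → F) (π μ ν : n.Partition) : F :=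
  zz π * ∑ l, P l π * (ww q t P l * (xq q t P l μ * xq q t P l ν))
noncomputable def XX (q t : F) (P : n.Partition → n.Partition → F) (π : n.Partition) : AA F :=
  ∑ μ : n.Partition, ∑ ν : n.Partition,
    monomial (ASM23.dd μ ν) (FC q t P π μ ν / (vq q μ * vq q ν))
/-- the quantity of the conjecture -/
def WW (q t : F) (P : n.Partition → n.Partition → F) (π μ ν : n.Partition) : F :=
  zz μ * zz ν * t ^ (n * (n - 1)) * cco q t P π μ ν
end loc

/-! ### Statements: first-order expansion -/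

def St_SO : Prop := ∀ (K R : Type) [Field K] [CharZero K] [CommRing R] [Algebra K R] (n : ℕ)
  (φ : Lam K →ₐ[K] R) (δ : ℕ → R) (γ : ℕ → ℕ → R), (∀ k l, γ k l = γ l k) →
    (∀ (x : ℕ → Lam K) (l : List ℕ), P1 n φ δ γ (l.map x).prod =
      one (fun m => P1 n φ δ γ (x m)) (fun m => φ (x m)) l +
        pair (fun m m' => Ga n φ γ (x m) (x m')) (fun m => φ (x m)) l) ∧
    (∀ m, 1 ≤ m → m ≤ n → P1 n φ δ γ (pv K m) = δ m) ∧
    ∀ m m', 1 ≤ m → m ≤ n → 1 ≤ m' → m' ≤ n → Ga n φ γ (pv K m) (pv K m') = γ m m'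

def St_A2 : Prop := ∀ (K : Type) [Field K] [CharZero K] (s : K), Gen s →
  ∀ (n : ℕ) (ρ : n.Partition) (f : Lam K), f ∈ Hm K n →
  ∑ μ : n.Partition,
      (if ln μ = ln ρ + 1 then (rc μ ρ : K) / vq (1 + s) μ * coeff (dOf μ) f else 0) =
    (rc ρ ρ : K) / vq (1 + s) ρ * coeff (dOf ρ) (Sst (1 + s) n f)

def St_A3a : Prop := ∀ (K : Type) [Field K] [CharZero K] (q : K) (n : ℕ) (l ρ : n.Partition),
  lst l < lst ρ → coeff (dOf ρ) (Sst q n (hl K (lst l))) = coeff (dOf ρ) (Ul q (lst l))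

def St_A3b : Prop := ∀ (K : Type) [Field K] [CharZero K] (q : K) (n : ℕ) (l : n.Partition),
  ∃ u : n.Partition → K, (∀ κ, u κ ≠ 0 → lst l < lst κ) ∧
    Ul q (lst l) = ∑ κ, u κ • hl K (lst κ)

def St_A4 : Prop := ∀ (K F : Type) [Field K] [Field F] [CharZero K] [CharZero F] [Algebra K F]
  (s : K) (O : Subalgebra K F) (θ q t : F) (S : Setting s O θ q t) (n : ℕ) (l μ : n.Partition),
  Cg O θ 2 (xq q t (mac S.hi) l μ - (algebraMap K F (coeff (dOf μ) (hl K (lst l))) -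
    θ * algebraMap K F (coeff (dOf μ) (Ul (1 + s) (lst l)))))

def St_W : Prop := ∀ (K F : Type) [Field K] [Field F] [CharZero K] [CharZero F] [Algebra K F]
  (s : K) (O : Subalgebra K F) (θ q t : F) (S : Setting s O θ q t) (n : ℕ) (l : n.Partition),
  Cg O θ 2 (ww q t (mac S.hi) l - (algebraMap K F (w0 (1 + s) (lst l)) +
    θ * algebraMap K F (w1 (1 + s) (lst l))))

def St_CC : Prop := ∀ (F : Type) [Field F] [CharZero F] (q t θ : F) (hi : Indep q t),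
  θ * (q - 1) = t - 1 → ∀ n : ℕ,
  (∀ l k : n.Partition, ∑ π, zz π * xq q t (mac hi) l π * mac hi k π = if l = k then 1 else 0) ∧
  ∀ π μ ν : n.Partition, θ ^ n * cco q t (mac hi) π μ ν =
    zqt q t π / zz π * (zz μ / zqt q t μ) * (zz ν / zqt q t ν) * FC q t (mac hi) π μ ν

def St_B0 : Prop := ∀ (K R : Type) [Field K] [CharZero K] [CommRing R] [Algebra K R]
  (M Mi : PowerSeries R) (B : ℕ → ℕ → R), PowerSeries.coeff 0 M = 1 → M * Mi = 1 →
  (∀ m m', B m m' = B m' m) → (∀ m, B 0 m = 0) → ∀ (φ : Lam K →ₐ[K] R) (γ : ℕ → ℕ → R),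
  (∀ k, φ (X k) = PowerSeries.coeff k (PowerSeries.derivative R M * Mi)) →
  (∀ k l, γ k l = ((k : K) * l) • conv2 Mi Mi B k l) →
  (∀ m, φ (hh K m) = PowerSeries.coeff m M) ∧ (∀ k l, γ k l = γ l k) ∧
  ∃ δ : ℕ → R, ∀ n m, m ≤ n → P1 n φ δ γ (hh K m) = 0 ∧
    ∀ m', m' ≤ n → Ga n φ γ (hh K m) (hh K m') = B m m'

def St_B1 : Prop := ∀ (K : Type) [Field K] [CharZero K] (q : K), (∀ k l, ga q k l = ga q l k) ∧
  ∃ δ : ℕ → AA K, ∀ (n : ℕ) (l : List ℕ), (∀ m ∈ l, m ≤ n) →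
    ph q (hl K l) = C (w0 q l) * (ia q Sum.inl (hl K l) * ia q Sum.inr (hl K l)) ∧
    P1 n (ph q) δ (ga q) (hl K l) - ph q (Ul q l) =
      C (w1 q l) * (ia q Sum.inl (hl K l) * ia q Sum.inr (hl K l)) -
        C (w0 q l) * (ia q Sum.inl (Ul q l) * ia q Sum.inr (hl K l) +
          ia q Sum.inl (hl K l) * ia q Sum.inr (Ul q l))

def St_FC : Prop := ∀ (K F : Type) [Field K] [Field F] [CharZero K] [CharZero F] [Algebra K F]
  (s : K) (O : Subalgebra K F) (θ q t : F) (S : Setting s O θ q t), ∃ δ : ℕ → AA K,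
  ∀ (n : ℕ) (π : n.Partition) (D : ℕ ⊕ ℕ →₀ ℕ),
  Cg O θ 2 (coeff D (XX q t (mac S.hi) π) -
    (algebraMap K F (coeff D ((lst π).map fun k => ka (1 + s) (gl (1 + s)) (k - 1)).prod) +
      θ * algebraMap K F (coeff D
        (one δ (fun k => ka (1 + s) (gl (1 + s)) (k - 1)) (lst π) +
          pair (ga (1 + s)) (fun k => ka (1 + s) (gl (1 + s)) (k - 1)) (lst π)))))

/-! ### Statements: positivity -/

def St_FI1 : Prop := ∀ (K : Type) [Field K] (s : K) (k : ℕ), ∃ c : K,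
  ∀ (R : Type) [CommRing R] [Algebra K R] (φ : ℕ → ℕ → R) (d b : ℕ),
  (Dq (1 + s))^[k + 1] (Eq' (1 + s) φ) d b =
    (1 + s) ^ (2 * (k + 1)) • Eq' (1 + s) ((Dq (1 + s))^[k + 1] φ) d b +
      c • (Dq (1 + s))^[k + 1] φ d b +
      (s * (1 + s) ^ k * qi (1 + s) (k + 1)) • Dxy (1 + s) ((Dq (1 + s))^[k] φ) d b +
      (s * (1 + s) ^ (k + 1) * qi (1 + s) (k + 1)) • Mxy ((Dq (1 + s))^[k + 2] φ) d b

def St_FI2 : Prop := ∀ (K R : Type) [Field K] [CommRing R] [Algebra K R] (s : K), Gen s →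
  ∀ (φ ψ : ℕ → ℕ → R) (d b : ℕ),
  ∑ l ∈ range b, (cw (1 + s) (d + b - l) (b - l) * gN (1 + s) (d + 2 * b) l) •
      (et (1 + s) φ d b l * et (1 + s) ψ d b l) =
    ∑ k ∈ range b,
      (qf (1 + s) (d + b - (k + 1)) * qf (1 + s) (b - (k + 1)) / qi (1 + s) (k + 1)) •
        ((Dq (1 + s))^[k + 1] φ d (b - (k + 1)) * (Dq (1 + s))^[k + 1] ψ d (b - (k + 1)))

def St_EP : Prop := ∀ (K : Type) [Field K] [CharZero K] (s : K), Gen s →
  (∀ m, ep s m ∈ PC (cone s)) ∧ ∀ m, C (qi (1 + s) (m + 1)) * hy (1 + s) (m + 1) =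
    ∑ p ∈ antidiagonal m, ep s p.1 * hy (1 + s) p.2

def St_JI : Prop := ∀ (K : Type) [Field K] [CharZero K] (s : K), Gen s →
  (∀ v, ∀ f ∈ PC (cone s), JH s v f ∈ PC (cone s)) ∧ (∀ v, JH s v 1 = ep s v) ∧
  (∀ v c f, JH s v (hy (1 + s) c * f) =
    ∑ p ∈ antidiagonal c, hy (1 + s) p.1 * JH s (v + p.2) f) ∧
  ∀ a b f, JH s a (JH s (b + 1) f) - (1 + s) • JH s (a + 1) (JH s b f) +
    (JH s b (JH s (a + 1) f) - (1 + s) • JH s (b + 1) (JH s a f)) = 0

def St_TH1 : Prop := ∀ (K : Type) [Field K] [CharZero K] (s : K), Gen s → ∀ k,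
  (∀ d b, (Dq (1 + s))^[k] (fun d b => hy (1 + s) (d + b) * hy (1 + s) b) d b =
    GG s k (d + b) b) ∧ ∀ c d, GG s k c d = GG s k d c

def St_TH2 : Prop := ∀ (K : Type) [Field K] [CharZero K] (s : K), Gen s → ∀ k m l,
  th s k m l ∈ PC (cone s) ∧
    ∃ p ∈ PC (cone s), C (qi (1 + s) m) * th s k m l = C (qi (1 + s) k) * p

def St_WP1 : Prop := ∀ (K : Type) [Field K] [CharZero K] (s : K), Gen s → ∀ i j c,
  PowerSeries.coeff c (wS (1 + s) i j) ∈ PC (cone s)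

def St_WP2 : Prop := ∀ (K : Type) [Field K] [CharZero K] (s : K), Gen s →
  (∀ k, LG (1 + s) (qf (1 + s)) k ∈ PC (cone s)) ∧ ∀ i j c, ∃ p ∈ PC (cone s), ∃ p' ∈ PC (cone s),
    C (qi (1 + s) c) * PowerSeries.coeff c (wS (1 + s) i j) =
      C (qi (1 + s) i) * p + C (qi (1 + s) j) * p'

def St_CU : Prop := ∀ (K : Type) [Field K] [CharZero K] (s : K), Gen s → ∀ a b,
  C (qi (1 + s) a) * Cu (1 + s) a b ∈ PC (cone s)

def St_IQ : Prop := ∀ (K : Type) [Field K] (s : K), Gen s → ∀ m m' : ℕ,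
  ∑ l ∈ range (min m m'), cw (1 + s) (m - l) (m' - l) *
      (qf (1 + s) m * qf (1 + s) m' / gN (1 + s) (m + m') l) *
      ((1 + s) ^ (l.choose 2 + (m + m' - l).choose 2) / (1 + s) ^ (m.choose 2 + m'.choose 2) - 1) =
    s * (min m m' : ℕ)

def St_TW1 : Prop := ∀ (K : Type) [Field K] [CharZero K] (s : K), Gen s →
  ∃ ev nb : AA K →ₐ[K] AA K, (∀ f ∈ PC (cone s), ev f ∈ PC (cone s) ∧ nb f ∈ PC (cone s)) ∧ ∀ m,
    ev (Hh (1 + s) Sum.inl m) = C ((1 + s) ^ m.choose 2 / qf (1 + s) m) ∧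
    ev (Hh (1 + s) Sum.inr m) = Hh (1 + s) Sum.inr m ∧
    nb (Hh (1 + s) Sum.inl m) = Hh (1 + s) Sum.inl m ∧
    nb (Hh (1 + s) Sum.inr m) = C ((1 + s) ^ m.choose 2) * Hh (1 + s) Sum.inr m

def St_TW2 : Prop := ∀ (K : Type) [Field K] [CharZero K] (s : K), Gen s →
  (∀ k, LG (1 + s) (gl (1 + s)) k ∈ PC (cone s)) ∧
    ∀ a b, C (qi (1 + s) a) * Ct (1 + s) a b ∈ PC (cone s)

def St_MAIN : Prop := ∀ (K F : Type) [Field K] [Field F] [CharZero K] [CharZero F] [Algebra K F]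
  (s : K) (O : Subalgebra K F) (θ q t : F) (S : Setting s O θ q t) (N : Subsemiring F),
  (∀ r : ℚ≥0, (r : F) ∈ N) → t ∈ N →
  (∀ (k : ℕ) (π μ ν : k.Partition), π.parts = {k} → WW q t (mac S.hi) π μ ν ∈ N) →
  ∀ (n : ℕ) (π μ ν : n.Partition), ∃ y ∈ N, ∃ G ∈ cone s,
    Cg O θ 2 (θ ^ ((n : ℤ) + ln π - ln μ - ln ν) * (WW q t (mac S.hi) π μ ν - y) -
      θ * algebraMap K F G)

end MJS
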