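import Pool.Agent.Lib.MP_9c49f6_co.S_Kit

/-! Second face: positivity of the untwisted cumulants. -/

namespace MJS
open MJ MJT MJC Finset MvPolynomial

namespace CU71

variable {K : Type} [Field K]

lemma Dq_map {R R' : Type} [CommRing R] [Algebra K R] [CommRing R'] [Algebra K R'] (q : K)
    (f : R →ₐ[K] R') (k : ℕ) (φ : ℕ → ℕ → R) :
    (Dq q)^[k] (fun d b => f (φ d b)) = fun d b => f ((Dq q)^[k] φ d b) := by
  induction k generalizing φ with
  | zero => rfl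
  | succ k ih =>
    rw [Function.iterate_succ_apply, Function.iterate_succ_apply, ← ih]
    congr 1
    funext d b
    simp only [Dq, map_sum, map_sub, map_smul]

lemma swap4 {α β γ δ M : Type} [AddCommMonoid M] (A : Finset α) (B : Finset β) (S : Finset γ)
    (T : Finset δ) (F : α → β → γ → δ → M) :
    ∑ x ∈ A, ∑ y ∈ B, ∑ p ∈ S, ∑ r ∈ T, F x y p r = ∑ p ∈ S, ∑ r ∈ T, ∑ x ∈ A, ∑ y ∈ B, F x y p r :=
  ((sum_congr rfl fun _ _ => sum_comm).trans sum_comm).trans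
    (sum_congr rfl fun _ _ => (sum_congr rfl fun _ _ => sum_comm).trans sum_comm)

/-- shift of a double sequence along the diagonal -/
def sh {B : Type} [CommRing B] (r : ℕ) (F : ℕ → ℕ → B) (k l : ℕ) : B :=
  if r ≤ k ∧ r ≤ l then F (k - r) (l - r) else 0

lemma nest_sh {B : Type} [CommRing B] (r : ℕ) (F : ℕ → ℕ → B) :
    nest (sh r F) = PowerSeries.X ^ r * (PowerSeries.C (PowerSeries.X ^ r) * nest F) := by
  ext k l
  rw [coeff_nest, PowerSeries.coeff_X_pow_mul', sh]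
  by_cases h1 : r ≤ k
  · rw [if_pos h1, PowerSeries.coeff_C_mul, PowerSeries.coeff_X_pow_mul']
    by_cases h2 : r ≤ l
    · rw [if_pos h2, if_pos ⟨h1, h2⟩, coeff_nest]
    · rw [if_neg h2, if_neg fun h => h2 h.2]
  · rw [if_neg h1, if_neg fun h => h1 h.1, map_zero]

lemma conv2_sh {B : Type} [CommRing B] (M M' : PowerSeries B) (r : ℕ) (F : ℕ → ℕ → B) :
    conv2 M M' (sh r F) = sh r (conv2 M M' F) :=
  nest_inj (by simp only [nest_conv2, nest_sh]; ring)

/-- the summand of order `k` -/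
noncomputable def EE (s : K) (k c d : ℕ) : AA K := C (qf (1 + s) c * qf (1 + s) d) *
  (rename Sum.inl (GG s k c d) * rename Sum.inr (GG s k c d))

lemma Bu_comm (q : K) (m m' : ℕ) : Bu q m m' = Bu q m' m := by
  simp only [Bu, et2, min_comm m m', add_comm m m', cw_comm q (m - _), mul_comm (qf q m),
    mul_comm (Hh q _ m) (Hh q _ m')]

lemma et_eq (q : K) (e : ℕ → ℕ ⊕ ℕ) (d : ℕ) {b l : ℕ} (h : l < b) :
    et q (fun d b => rename e (hy q (d + b) * hy q b)) d b l = et2 q e (d + b) b l := by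
  simp only [et, et2, map_mul, rename_hy, smul_eq_C_mul]
  rw [show d + 2 * (b - l) + l = d + b + b - l by omega, show d + 2 * b = d + b + b by omega,
    mul_comm (Hh q e l)]

variable [CharZero K] {s : K}

lemma Bu_eq (hF : St_FI2) (hT : St_TH1) (h : Gen s) (m m' : ℕ) :
    Bu (1 + s) m m' = ∑ k ∈ range (min m m'),
      C (qi (1 + s) (k + 1))⁻¹ * EE s (k + 1) (m - (k + 1)) (m' - (k + 1)) := by
  wlog hm : m' ≤ m generalizing m m'
  · rw [Bu_comm, this m' m (by omega), min_comm]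
    refine sum_congr rfl fun k _ => ?_
    rw [EE, EE, (hT K s h (k + 1)).2, mul_comm (qf (1 + s) _)]
  obtain ⟨d, rfl⟩ : ∃ d, m = d + m' := ⟨m - m', by omega⟩
  have e := hF K (AA K) s h (fun d b => rename Sum.inl (hy (1 + s) (d + b) * hy (1 + s) b))
    (fun d b => rename Sum.inr (hy (1 + s) (d + b) * hy (1 + s) b)) d m'
  rw [Bu, min_eq_right hm]
  refine Eq.trans (sum_congr rfl fun l hl => ?_) (e.trans (sum_congr rfl fun k hk => ?_))
  · rw [et_eq _ _ _ (mem_range.1 hl), et_eq _ _ _ (mem_range.1 hl), smul_eq_C_mul,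
      show d + 2 * m' = d + m' + m' by omega]
  · have hk := mem_range.1 hk
    rw [Dq_map, Dq_map]
    simp only [(hT K s h (k + 1)).1]
    rw [EE, show d + (m' - (k + 1)) = d + m' - (k + 1) by omega, smul_eq_C_mul, div_eq_mul_inv,
      C_mul, mul_comm (C (qf (1 + s) _ * _)), mul_assoc]

omit [CharZero K] in
lemma tr_sum (q : K) (e : ℕ → ℕ ⊕ ℕ) {c N : ℕ} (hc : c < N) (f : ℕ → AA K) :
    ∑ p ∈ antidiagonal c, Hh q e p.1 * f p.2 = ∑ m ∈ range N, tr q e m c * f m := by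
  rw [← Finset.Nat.sum_antidiagonal_swap,
    Finset.Nat.sum_antidiagonal_eq_sum_range_succ_mk]
  refine Eq.trans (sum_congr rfl fun m hm => ?_)
    (sum_subset (range_subset_range.2 hc) fun m _ hm => ?_)
  · rw [tr, if_pos (Nat.lt_succ_iff.1 (mem_range.1 hm))]
    rfl
  · rw [tr, if_neg (fun h => hm (mem_range.2 (Nat.lt_succ_iff.2 h))), zero_mul]

omit [CharZero K] in
lemma GG_eq (e : ℕ → ℕ ⊕ ℕ) (k : ℕ) {c d N : ℕ} (hc : c < N) (hd : d < N) :
    rename e (GG s k c d) = ∑ p ∈ range N ×ˢ range N,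
      tr (1 + s) e p.1 c * (tr (1 + s) e p.2 d * rename e (th s k p.1 p.2)) := by
  simp only [GG, conv2, map_sum, map_mul, PowerSeries.coeff_mk, rename_hy, mul_assoc, ← mul_sum]
  rw [tr_sum _ e hc fun m => ∑ r ∈ antidiagonal d, Hh (1 + s) e r.1 * rename e (th s k m r.2),
    sum_product]
  refine sum_congr rfl fun m _ => ?_
  rw [tr_sum _ e hd fun l => rename e (th s k m l), mul_sum]

omit [CharZero K] in
lemma conv_EE (k a b : ℕ) :
    conv2 (MI (1 + s) (qf (1 + s))) (MI (1 + s) (qf (1 + s))) (EE s k) a b =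
      ∑ p ∈ range (a + b + 1) ×ˢ range (a + b + 1), ∑ r ∈ range (a + b + 1) ×ˢ range (a + b + 1),
        rename Sum.inl (th s k p.1 p.2) * rename Sum.inr (th s k r.1 r.2) *
          (PowerSeries.coeff a (wS (1 + s) p.1 r.1) * PowerSeries.coeff b (wS (1 + s) p.2 r.2)) := by
  simp only [wS, PowerSeries.coeff_mul, PowerSeries.coeff_mk]
  simp only [sum_mul_sum]
  simp only [mul_sum]
  rw [← swap4, conv2]
  refine sum_congr rfl fun x h1 => sum_congr rfl fun y h2 => ?_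
  have h1 := mem_antidiagonal.1 h1
  have h2 := mem_antidiagonal.1 h2
  rw [EE, GG_eq Sum.inl k (N := a + b + 1) (by omega) (by omega),
    GG_eq Sum.inr k (N := a + b + 1) (by omega) (by omega), sum_mul_sum, mul_sum, mul_sum]
  refine sum_congr rfl fun p _ => ?_
  rw [mul_sum, mul_sum]
  refine sum_congr rfl fun r _ => ?_
  rw [C_mul]
  ring

lemma Cu_eq (hF : St_FI2) (hT : St_TH1) (h : Gen s) (a b : ℕ) :
    Cu (1 + s) a b = ∑ k ∈ range (min a b), C (qi (1 + s) (k + 1))⁻¹ *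
      conv2 (MI (1 + s) (qf (1 + s))) (MI (1 + s) (qf (1 + s))) (EE s (k + 1))
        (a - (k + 1)) (b - (k + 1)) := by
  have e : ∀ m ≤ a, ∀ m' ≤ b, Bu (1 + s) m m' = ∑ k ∈ range (min a b),
      C (qi (1 + s) (k + 1))⁻¹ * sh (k + 1) (EE s (k + 1)) m m' := fun m hm m' hm' => by
    rw [Bu_eq hF hT h]
    refine Eq.trans (sum_congr rfl fun r hr => ?_)
      (sum_subset (range_subset_range.2 (show min m m' ≤ min a b by omega)) fun r _ hr => ?_)
    · rw [sh, if_pos (by have := mem_range.1 hr; omega)]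
    · rw [sh, if_neg (by rw [mem_range] at hr; omega), mul_zero]
  refine Eq.trans ?_ (sum_congr rfl (f := fun k => C (qi (1 + s) (k + 1))⁻¹ *
    conv2 (MI (1 + s) (qf (1 + s))) (MI (1 + s) (qf (1 + s))) (sh (k + 1) (EE s (k + 1))) a b)
    fun k hk => by rw [conv2_sh, sh, if_pos (by have := mem_range.1 hk; omega)])
  simp only [Cu, conv2, mul_sum]
  rw [sum_comm (s := range _)]
  refine sum_congr rfl fun p hp => ?_
  rw [sum_comm (s := range _)]
  refine sum_congr rfl fun r hr => ?_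
  rw [e _ (by have := mem_antidiagonal.1 hp; omega) _ (by have := mem_antidiagonal.1 hr; omega),
    mul_sum]
  exact sum_congr rfl fun k _ => mul_left_comm _ _ _

end CU71

open CU71 in
theorem st_CU (hF : St_FI2) (hT : St_TH1) (hT2 : St_TH2) (hW1 : St_WP1) (hW2 : St_WP2) :
    St_CU := by
  intro K _ _ s h a b
  rw [Cu_eq hF hT h, mul_sum]
  refine sum_mem fun k hk => ?_
  have hk := mem_range.1 hk
  obtain ⟨c, rfl⟩ : ∃ c, a = k + 1 + c := ⟨a - (k + 1), by omega⟩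
  rw [conv_EE, mul_sum, mul_sum, Nat.add_sub_cancel_left]
  refine sum_mem fun p _ => ?_
  rw [mul_sum, mul_sum]
  refine sum_mem fun r _ => ?_
  obtain ⟨t1, u1, v1, e1⟩ := hT2 K s h (k + 1) p.1 p.2
  obtain ⟨t2, u2, v2, e2⟩ := hT2 K s h (k + 1) r.1 r.2
  obtain ⟨x, hx, y, hy, e3⟩ := (hW2 K s h).2 p.1 r.1 c
  have w1 := hW1 K s h p.1 r.1 c
  have w2 := hW1 K s h p.2 r.2 (b - (k + 1))
  have e1 := congrArg (rename (R := K) (Sum.inl : ℕ → ℕ ⊕ ℕ)) e1
  have e2 := congrArg (rename (R := K) (Sum.inr : ℕ → ℕ ⊕ ℕ)) e2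
  rw [map_mul, map_mul, rename_C, rename_C] at e1 e2
  have e4 : (C (qi (1 + s) (k + 1))⁻¹ : AA K) * C (qi (1 + s) (k + 1)) = 1 := by
    rw [← C_mul, inv_mul_cancel₀ (h.qi_ne k.succ_pos), C_1]
  have a1 := rename_PC (Sum.inl : ℕ → ℕ ⊕ ℕ) t1
  have a2 := rename_PC (Sum.inr : ℕ → ℕ ⊕ ℕ) t2
  have := add_mem (mul_mem (mul_mem a1 a2) (mul_mem w1 w2))
    (mul_mem (mul_mem (C_PC (σ := ℕ ⊕ ℕ) (pow_mem (q_cone s) (k + 1))) w2)
      (add_mem (mul_mem (mul_mem (rename_PC (Sum.inl : ℕ → ℕ ⊕ ℕ) v1) a2) hx)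
        (mul_mem (mul_mem a1 (rename_PC (Sum.inr : ℕ → ℕ ⊕ ℕ) v2)) hy)))
  refine Eq.mpr (congrArg (· ∈ PC (cone s)) ?_) this
  rw [qi_add, C_add, C_mul]
  generalize (C (qi (1 + s) (k + 1))⁻¹ : AA K) = I at e4 ⊢
  generalize rename (Sum.inl : ℕ → ℕ ⊕ ℕ) (th s (k + 1) p.1 p.2) = A at e1 ⊢
  generalize rename (Sum.inr : ℕ → ℕ ⊕ ℕ) (th s (k + 1) r.1 r.2) = B at e2 ⊢
  generalize PowerSeries.coeff c (wS (1 + s) p.1 r.1) = W at e3 ⊢
  generalize PowerSeries.coeff (b - (k + 1)) (wS (1 + s) p.2 r.2) = W'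
  generalize (C ((1 + s) ^ (k + 1)) : AA K) = Q
  linear_combination (A * B * W * W' + Q * W' * (rename Sum.inl u1 * B * x +
    A * rename Sum.inr u2 * y)) * e4 + Q * I * A * B * W' * e3 + Q * I * B * W' * x * e1 +
    Q * I * A * W' * y * e2

end MJS
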