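import Pool.Agent.Lib.MP_9c49f6_co.S_Kit

/-! Row TW1: the evaluation `ev` and the twist `nb`. -/

namespace MJS
open MJ MJT MJC Finset MvPolynomial

namespace TW123
variable {K : Type} [Field K] [CharZero K]

lemma ex_one {A : Type} [CommRing A] [Algebra K A] (m : ℕ) : ex K (fun _ => (1 : A)) m = 1 := by
  induction m using Nat.strong_induction_on with
  | _ r ih =>
    cases r with
    | zero => exact ex_zero _
    | succ r =>
      rw [ex_succ', sum_congr rfl fun k _ => by rw [ih (r - k) (by omega), one_mul], sum_const,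
        card_range, ← Nat.cast_smul_eq_nsmul K, smul_smul, Nat.cast_succ,
        inv_mul_cancel₀ (Nat.cast_add_one_ne_zero r), one_smul]

lemma ex_geom {A : Type} [CommRing A] [Algebra K A] (u : A) (m : ℕ) :
    ex K (fun k => u ^ (k + 1)) m = u ^ m := by
  simpa [ex_one] using P94.ex_scale (K := K) u (fun _ => 1) m

noncomputable def e0 (s : K) : Lam K →ₐ[K] AA K := aeval fun k => C (s ^ k / ((k + 1 : ℕ) : K))

lemma e0_ep {s : K} (h : Gen s) (m : ℕ) : e0 s (ep s m) = C (s ^ m) := by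
  have h1 : (fun k => e0 s (C (((k + 1 : ℕ) : K) * s) * X k)) = fun k => C s ^ (k + 1) := by
    funext k
    have : ((k + 1 : ℕ) : K) ≠ 0 := Nat.cast_ne_zero.mpr k.succ_ne_zero
    rw [map_mul, algHom_C, e0, aeval_X, algebraMap_eq, ← C_mul, ← C_pow]
    congr 1
    field_simp
    ring
  rw [ep, map_mul, map_ex, h1, ex_geom, algHom_C, algebraMap_eq, ← C_pow, ← C_mul, pow_succ',
    inv_mul_cancel_left₀ h.s_ne]

lemma e0_hy (hE : St_EP) {s : K} (h : Gen s) (m : ℕ) :
    e0 s (hy (1 + s) m) = C ((1 + s) ^ m.choose 2 / qf (1 + s) m) := by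
  have h1 : ∀ m, C (qi (1 + s) (m + 1)) * e0 s (hy (1 + s) (m + 1)) =
      ∑ p ∈ antidiagonal m, C (s ^ p.1) * e0 s (hy (1 + s) p.2) := fun m => by
    have := congrArg (e0 s) ((hE K s h).2 m)
    simpa only [map_mul, map_sum, algHom_C, algebraMap_eq, e0_ep h] using this
  have h2 : ∀ m, C (qi (1 + s) (m + 1)) * e0 s (hy (1 + s) (m + 1)) =
      C ((1 + s) ^ m) * e0 s (hy (1 + s) m) := fun m => by
    rw [h1]
    cases m with
    | zero => simp
    | succ m =>
      rw [Nat.sum_antidiagonal_succ]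
      have h3 : ∑ p ∈ antidiagonal m, C (s ^ (p.1 + 1)) * e0 s (hy (1 + s) p.2) =
          C s * (C (qi (1 + s) (m + 1)) * e0 s (hy (1 + s) (m + 1))) := by
        rw [h1, mul_sum]
        refine sum_congr rfl fun p _ => ?_
        rw [pow_succ', C_mul, mul_assoc]
      rw [h3, ← mul_assoc, ← C_mul, qi_mul, C_sub, pow_zero]
      ring
  induction m with
  | zero => simp
  | succ m ih =>
    have h3 := h.qi_ne m.succ_pos
    have h4 := h.qf_ne m
    refine mul_left_cancel₀ (C_ne_zero.mpr h3) ?_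
    rw [h2, ih, ← C_mul, ← C_mul, qf_succ, Nat.choose_succ_succ' m 1, Nat.choose_one_right, pow_add]
    congr 1
    field_simp

noncomputable def ev (s : K) : AA K →ₐ[K] AA K :=
  aeval (Sum.elim (fun k => C (s ^ k / ((k + 1 : ℕ) : K))) fun k => X (Sum.inr k))

noncomputable def nb (s : K) : AA K →ₐ[K] AA K :=
  aeval (Sum.elim (fun k => X (Sum.inl k)) fun k => ev s (LG (1 + s) (qf (1 + s)) (k + 1)))

lemma ev_PC (s : K) {f : AA K} (hf : f ∈ PC (cone s)) : ev s f ∈ PC (cone s) := by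
  refine hom_PC _ (fun i => ?_) hf
  rw [ev, aeval_X]
  cases i with
  | inl k =>
    exact C_PC (by rw [div_eq_mul_inv]; exact mul_mem (pow_mem (s_cone s) _) (inv_nat_cone s _))
  | inr k => exact X_PC _

lemma ev_inl (hE : St_EP) {s : K} (h : Gen s) (m : ℕ) :
    ev s (Hh (1 + s) Sum.inl m) = C ((1 + s) ^ m.choose 2 / qf (1 + s) m) := by
  rw [← rename_hy, ev, aeval_rename]
  exact e0_hy hE h m

omit [CharZero K] in
lemma ev_inr (s : K) (m : ℕ) : ev s (Hh (1 + s) Sum.inr m) = Hh (1 + s) Sum.inr m := by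
  rw [Hh, map_ex]
  simp only [ev, map_mul, algHom_C, aeval_X, Sum.elim_inr, algebraMap_eq]

omit [CharZero K] in
lemma nb_inl (s : K) (m : ℕ) : nb s (Hh (1 + s) Sum.inl m) = Hh (1 + s) Sum.inl m := by
  rw [Hh, map_ex]
  simp only [nb, map_mul, algHom_C, aeval_X, Sum.elim_inl, algebraMap_eq]

lemma nb_inr (hE : St_EP) {s : K} (h : Gen s) (m : ℕ) :
    nb s (Hh (1 + s) Sum.inr m) = C ((1 + s) ^ m.choose 2) * Hh (1 + s) Sum.inr m := by
  have h1 : (fun k => nb s (C (((k + 1 : ℕ) : K) / qi (1 + s) (k + 1)) * X (Sum.inr k))) =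
      fun k => ev s (ka (1 + s) (qf (1 + s)) k) := by
    funext k
    have h2 : ((k + 1 : ℕ) : K) ≠ 0 := Nat.cast_ne_zero.mpr k.succ_ne_zero
    have h3 := h.qi_ne k.succ_pos
    rw [map_mul, algHom_C, nb, aeval_X, Sum.elim_inr, LG, map_mul, algHom_C, algebraMap_eq,
      ← mul_assoc, ← C_mul, Nat.add_sub_cancel, div_mul_div_cancel₀ h3, div_self h2, C_1, one_mul]
  conv_lhs => rw [Hh, map_ex, h1, ← map_ex, ex_ka _ (qf_zero _)]
  rw [map_mul, map_mul, ev_inl hE h, ev_inr, algHom_C, algebraMap_eq, ← mul_assoc, ← C_mul,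
    mul_div_cancel₀ _ (h.qf_ne m)]

end TW123

open TW123 in
theorem st_TW1 (hE : St_EP) (hW : St_WP2) : St_TW1 := by
  intro K _ _ s h
  refine ⟨ev s, nb s, fun f hf => ⟨ev_PC s hf, hom_PC _ (fun i => ?_) hf⟩,
    fun m => ⟨ev_inl hE h m, ev_inr s m, nb_inl s m, nb_inr hE h m⟩⟩
  rw [nb, aeval_X]
  cases i with
  | inl k => exact X_PC _
  | inr k => exact ev_PC s ((hW K s h).1 _)

end MJS
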