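import Pool.Agent.Lib.MP_9c49f6_co.S_FIN
import Pool.Agent.Lib.MP_9c49f6_co.S_MAIN
import Pool.Agent.Lib.MP_9c49f6_co.S_SO
import Pool.Agent.Lib.MP_9c49f6_co.S_A2
import Pool.Agent.Lib.MP_9c49f6_co.S_A3a
import Pool.Agent.Lib.MP_9c49f6_co.S_A3b
import Pool.Agent.Lib.MP_9c49f6_co.S_A4
import Pool.Agent.Lib.MP_9c49f6_co.S_W
import Pool.Agent.Lib.MP_9c49f6_co.S_CC
import Pool.Agent.Lib.MP_9c49f6_co.S_B0
import Pool.Agent.Lib.MP_9c49f6_co.S_B1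
import Pool.Agent.Lib.MP_9c49f6_co.S_FC
import Pool.Agent.Lib.MP_9c49f6_co.S_FI1
import Pool.Agent.Lib.MP_9c49f6_co.S_FI2
import Pool.Agent.Lib.MP_9c49f6_co.S_EP
import Pool.Agent.Lib.MP_9c49f6_co.S_JI
import Pool.Agent.Lib.MP_9c49f6_co.S_TH1
import Pool.Agent.Lib.MP_9c49f6_co.S_TH2
import Pool.Agent.Lib.MP_9c49f6_co.S_WP1
import Pool.Agent.Lib.MP_9c49f6_co.S_WP2
import Pool.Agent.Lib.MP_9c49f6_co.S_CU
import Pool.Agent.Lib.MP_9c49f6_co.S_IQ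
import Pool.Agent.Lib.MP_9c49f6_co.S_TW1
import Pool.Agent.Lib.MP_9c49f6_co.S_TW2

/-! Second face: assembly of the steps. -/

namespace MJS

theorem tw2 : St_TW2 :=
  have h1 := st_WP1 st_EP
  have h2 := st_WP2 h1
  st_TW2 st_IQ h1 h2
    (st_CU (st_FI2 st_FI1) (st_TH1 st_EP (st_JI st_EP)) (st_TH2 (st_JI st_EP)) h1 h2)
    (st_TW1 st_EP h2)

theorem main : St_MAIN :=
  have h := st_A4 st_A2 (st_A3a st_SO) st_A3b st_CC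
  st_MAIN (st_FC st_SO (st_B1 st_SO st_B0) h (st_W h) st_CC) st_CC tw2

end MJS
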