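import Pool.Agent.Lib.MP_9c49f6_co.S_MAINr
import Pool.Agent.Lib.MP_9c49f6_co.P_FIN

/-! The two top faces for the sharp degree `n + min(ℓ(π), ℓ(μ), ℓ(ν)) - ℓ(μ) - ℓ(ν)`. -/

namespace MJS
open MJ MJT MJT.Lau62 Finset FIN52

theorem rotated (hM : St_MAINr) {K : Type} [Field K] [CharZero K] {s : K}
    (hs : Transcendental ℚ s) (hi : Indep (1 + Lau62.gg s * (1 + bb K)) (1 + Lau62.gg s))
    (n : ℕ) (π μ ν : n.Partition) (d : ℤ) (hd : d = n - ln ν) (W : LaurentSeries K)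
    (hW : W = WW (1 + Lau62.gg s * (1 + bb K)) (1 + Lau62.gg s) (mac hi) π μ ν) :
    (∀ k < -d, W.coeff k = 0) ∧ W.coeff (-d) ∈ cone s ∧ W.coeff (1 - d) ∈ cone s := by
  let q := 1 + Lau62.gg s * (1 + bb K)
  let K0 := Subfield.closure {q}
  let O : Subalgebra K0 (LaurentSeries K) :=
    { carrier := {x | ∃ a, Rd x a}
      mul_mem' := fun ⟨_, h⟩ ⟨_, h'⟩ => ⟨_, pl_Rd.mul h h'⟩
      add_mem' := fun ⟨_, h⟩ ⟨_, h'⟩ => ⟨_, pl_Rd.add h h'⟩
      algebraMap_mem' := fun x => Rd_closure hs (Rd_q s) x.2 }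
  let s0 : K0 := ⟨q - 1, sub_mem (Subfield.subset_closure rfl) (one_mem _)⟩
  have hθ : Lau62.th K ≠ 0 := inv_ne_zero one_add_bb_ne
  have S : Setting s0 O (Lau62.th K) q (1 + Lau62.gg s) :=
    { loc :=
        { mem := ⟨_, Rd_th⟩
          ne := hθ
          inv := fun o ⟨a, h⟩ => by
            have h1 := pl_Rd.add pl_Rd.one (pl_Rd.mul Rd_th h)
            rw [zero_mul, add_zero] at h1
            exact ⟨pl_Rd.ne h1 one_ne_zero, _, pl_Rd.inv h1 one_ne_zero⟩ }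
      hq := by
        change q = 1 + (q - 1)
        ring
      ht := by
        change _ = 1 + Lau62.th K * (q - 1)
        rw [th_q]
        ring
      hi := hi }
  have hb : bb K ∈ NL s := single_NL (one_mem _) _
  have hg : Lau62.gg s ∈ NL s := single_NL (s_cone s) _
  obtain ⟨⟨a0, h0⟩, y, hy, G, hG, o, ⟨a, ho⟩, e⟩ := hM K0 _ s0 O _ _ _ S (NL s) (nnrat_NL s)
    (add_mem (one_mem _) hg) (fun k π μ ν hμ => by
      have hk : 0 < k := μ.parts_pos (by simp [hμ])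
      obtain rfl : μ = Nat.Partition.indiscrete k :=
        Nat.Partition.ext (by rw [hμ, Nat.Partition.indiscrete_parts hk.ne'])
      obtain ⟨P, hP⟩ := One22.nat_t (@ai K _ _ DivisionRing.toRatAlgebra s hs) (ib := 0) (ig := 1)
        (by decide) hk π ν
      have h1 := One22.cco_one S.hi hk rfl π ν
      have h2 := hP ▸ aeval_mem (N := NL s) _ (fun i => by fin_cases i <;> assumption) P
      rw [WW, One22.cco_swap]
      convert h2 using 1
      refine Eq.trans ?_ (congrArg (zz ν * (1 + Lau62.gg s) ^ (k * (k - 1)) * ·) h1)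
      ring) n π μ ν
  have h1 : ∃ g ∈ cone s, Rd (algebraMap K0 (LaurentSeries K) G) g := by
    clear e
    induction hG using Subsemiring.closure_induction with
    | mem x hx =>
      rcases hx with rfl | ⟨r, rfl⟩
      · exact ⟨s, s_cone s, add_sub_cancel_left 1 s ▸ pl_Rd.sub (Rd_q s) pl_Rd.one⟩
      · exact ⟨r, nnrat_cone s r, by simpa using Rd_nnrat r⟩
    | zero => exact ⟨0, zero_mem _, by simpa using pl_Rd.zero'⟩
    | one => exact ⟨1, one_mem _, by simpa using pl_Rd.one⟩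
    | add x y _ _ hx hy =>
      obtain ⟨g, h1, h2⟩ := hx
      obtain ⟨g', h3, h4⟩ := hy
      exact ⟨_, add_mem h1 h3, by simpa using pl_Rd.add h2 h4⟩
    | mul x y _ _ hx hy =>
      obtain ⟨g, h1, h2⟩ := hx
      obtain ⟨g', h3, h4⟩ := hy
      exact ⟨_, mul_mem h1 h3, by simpa using pl_Rd.mul h2 h4⟩
  obtain ⟨g, h2, h3⟩ := h1
  rw [← hd] at e h0
  replace e : Lau62.th K ^ d * (W - y) - _ = _ := hW ▸ e
  replace h0 : Rd (Lau62.th K ^ d * W) a0 := hW ▸ h0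
  have h4 := pl_Rd.add h3 (pl_Rd.mul Rd_th ho)
  have h5 : algebraMap K0 (LaurentSeries K) G + Lau62.th K * o =
      Lau62.th K ^ (d - 1) * (W - y) := by
    rw [zpow_sub_one₀ hθ]
    field_simp
    linear_combination -e
  rw [h5, zero_mul, add_zero] at h4
  obtain ⟨h6, h7⟩ := Rd_th_zpow h4
  have h8 := h6 (-d) (by omega)
  rw [HahnSeries.coeff_sub, sub_eq_zero] at h8
  rw [HahnSeries.coeff_sub, neg_sub, sub_eq_iff_eq_add] at h7
  exact ⟨(Rd_th_zpow h0).1, h8 ▸ hy _, h7 ▸ add_mem h2 (hy _)⟩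

end MJS

namespace MJP
open MJ MJT MJT.Lau62 Finset MvPolynomial

theorem facesD (hP : St_POLY) (hT : St_TRANS) (hL : St_LIM) (hA : St_ASM) (hM : MJS.St_MAIN)
    (hR : MJS.St_MAINr) {F : Type} [Field F] [CharZero F] {b g : F}
    (hx : AlgebraicIndependent ℚ ![b, g]) (hi : Indep (1 + g * (1 + b)) (1 + g)) {n : ℕ}
    (π μ ν : n.Partition) (d : ℤ)
    (hd : d = n + (min (ln π) (min (ln μ) (ln ν)) : ℕ) - ln μ - ln ν) :
    ∃ N : MvPolynomial (Fin 2) ℤ, WW (1 + g * (1 + b)) (1 + g) (mac hi) π μ ν = aeval ![b, g] N ∧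
      ∀ m : Fin 2 →₀ ℕ, ((m 0 : ℤ) - m 1 > d → N.coeff m = 0) ∧
        ((m 0 : ℤ) - m 1 ≥ d - 1 → 0 ≤ N.coeff m) := by
  obtain ⟨N, hN, h1⟩ := faces hP hT hL hA hM hx hi π μ ν
  refine ⟨N, hN, fun m => ?_⟩
  let K := RatFunc ℚ
  have hs : Transcendental ℚ (RatFunc.X : K) := by
    have := RatFunc.transcendental_X (K := ℚ)
    rwa [Subsingleton.elim (RatFunc.instAlgebraOfPolynomial ℚ ℚ) DivisionRing.toRatAlgebra] at this
  generalize (RatFunc.X : K) = s at hs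
  have hy := @ai K _ _ DivisionRing.toRatAlgebra s hs
  have hj : Indep (1 + Lau62.gg s * (1 + bb K)) (1 + Lau62.gg s) :=
    indep hy (ib := 0) (ig := 1) (by decide)
  have h0 := hT F _ b g _ _ hx hy hi hj n π μ ν N hN
  rw [aeval_int] at h0
  have key : ∀ W : LaurentSeries K, W = aeval ![bb K, Lau62.gg s] (map (algebraMap ℤ ℚ) N) →
      (∀ k < -d, W.coeff k = 0) ∧ W.coeff (-d) ∈ MJS.cone s ∧ W.coeff (1 - d) ∈ MJS.cone s →
      ((m 0 : ℤ) - m 1 > d → N.coeff m = 0) ∧ ((m 0 : ℤ) - m 1 ≥ d - 1 → 0 ≤ N.coeff m) := by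
    rintro W rfl ⟨h2, h3, h4⟩
    obtain ⟨G0, p0, e0⟩ := MJS.FIN52.cone_poly h3
    obtain ⟨G1, p1, e1⟩ := MJS.FIN52.cone_poly h4
    have h5 : (m 0 : ℤ) - m 1 > d → N.coeff m = 0 := fun h => by
      have := coeff_line hs _ _ 0 (by rw [h2 _ (show (m 1 : ℤ) - m 0 < -d by omega)]; simp) m rfl
      rw [coeff_map, eq_intCast, Polynomial.coeff_zero] at this
      exact_mod_cast this
    have h6 := coeff_line hs _ _ G0 e0 m
    have h7 := coeff_line hs _ _ G1 e1 m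
    rw [coeff_map, eq_intCast] at h6 h7
    refine ⟨h5, fun h => ?_⟩
    rcases lt_trichotomy ((m 0 : ℤ) - m 1) d with h8 | h8 | h8
    · rw [← Int.cast_nonneg_iff (R := ℚ), h7 (by omega)]; exact p1 _
    · rw [← Int.cast_nonneg_iff (R := ℚ), h6 (by omega)]; exact p0 _
    · rw [h5 h8]
  by_cases c1 : d = n - ln ν
  · exact key _ h0 (MJS.rotated hR hs hj n π μ ν d c1 _ rfl)
  by_cases c2 : d = n - ln μ
  · refine key _ h0 (MJS.rotated hR hs hj n π ν μ d c2 _ ?_)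
    rw [WW, MJS.WW, One22.cco_swap, mul_comm (zz μ : LaurentSeries K)]
  rw [show d = n + ln π - ln μ - ln ν by omega]
  exact h1 m

end MJP
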