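import Pool.Agent.Lib.MP_9c49f6_co.TBlue

/-! Step (2) of row POS: the recursion `[m] H_m = ∑ E_j H_(m-1-j)` with positive `E_j`. -/

namespace MJT
open MJ Finset MvPolynomial

namespace P94
variable {K : Type} [Field K]

lemma ex_scale {A : Type} [CommRing A] [Algebra K A] (c : A) (a : ℕ → A) (r : ℕ) :
    ex K (fun k => c ^ (k + 1) * a k) r = c ^ r * ex K a r := by
  induction r using Nat.strong_induction_on with
  | _ r ih =>
    cases r with
    | zero => simp
    | succ r =>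
      rw [ex_succ', ex_succ', mul_smul_comm]
      congr 1
      rw [mul_sum]
      refine sum_congr rfl fun k hk => ?_
      have hk' : k ≤ r := Nat.lt_succ_iff.mp (mem_range.mp hk)
      rw [ih _ (by omega)]
      have h : c ^ (r + 1) = c ^ (k + 1) * c ^ (r - k) := by
        rw [← pow_add]; exact congrArg _ (by omega)
      rw [h]; ring

lemma ex_add [CharZero K] {A : Type} [CommRing A] [Algebra K A] (a b : ℕ → A) (m : ℕ) :
    ex K (fun k => a k + b k) m = ∑ j ∈ range (m + 1), ex K a j * ex K b (m - j) := by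
  have h := congrArg (PowerSeries.coeff m) (Ex_add (F := K) a b)
  rw [Ex_coeff, PowerSeries.coeff_mul, Nat.sum_antidiagonal_eq_sum_range_succ_mk] at h
  simpa only [Ex_coeff] using h

lemma const_ex (a : ℕ → AA K) (h : ∀ k, constantCoeff (a k) = 0) (r : ℕ) :
    constantCoeff (ex K a (r + 1)) = 0 := by
  rw [ex_succ', constantCoeff_smul, map_sum, sum_eq_zero, smul_zero]
  intro k _
  rw [map_mul, h, zero_mul]

lemma qi_mul (s : K) (m : ℕ) : s * qi (1 + s) m = (1 + s) ^ m - 1 := by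
  have h := mul_geom_sum (1 + s) m
  rw [add_sub_cancel_left] at h
  exact h

lemma qi_ne (s : K) (hq : ∀ k, (1 + s) ^ (k + 1) ≠ 1) (k : ℕ) : qi (1 + s) (k + 1) ≠ 0 := by
  intro h
  have h1 := qi_mul s (k + 1)
  rw [h, mul_zero] at h1
  exact hq k (sub_eq_zero.mp h1.symm)

lemma s_ne (s : K) (hq : ∀ k, (1 + s) ^ (k + 1) ≠ 1) : s ≠ 0 := by
  rintro rfl
  exact hq 0 (by simp)

lemma pp_zero (s : K) : PP s (0 : AA K) := fun d => by simp

lemma pp_sum [CharZero K] (hPK : St_PK) (s : K) {ι : Type} (t : Finset ι) (f : ι → AA K)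
    (h : ∀ i ∈ t, PP s (f i)) : PP s (∑ i ∈ t, f i) :=
  sum_induction f (PP s) (fun a b ha hb => ((hPK K s).2.1 a b ha hb).1) (pp_zero s) h

lemma pp_one [CharZero K] (hPK : St_PK) (s : K) : PP s (1 : AA K) := by
  simpa using (hPK K s).2.2.1 1 (one_mem _)

theorem hrec [CharZero K] (hPK : St_PK) (s : K) (hq : ∀ k, (1 + s) ^ (k + 1) ≠ 1)
    (e : ℕ → ℕ ⊕ ℕ) : ∃ E : ℕ → AA K, (∀ j, PP s (E j)) ∧ ∀ m,
      C (qi (1 + s) m) * Hh (1 + s) e m = ∑ j ∈ range m, E j * Hh (1 + s) e (m - 1 - j) := by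
  classical
  obtain ⟨hc, hr, hC, hX, hd, hl⟩ := hPK K s
  have hs := s_ne s hq
  have hs' : s ∈ Subsemiring.closure ({s} : Set K) := Subsemiring.subset_closure rfl
  set b : ℕ → AA K := fun k => C (((k + 1 : ℕ) : K) * s) * X (e k) with hb
  have hk (k : ℕ) : ((k + 1 : ℕ) : K) ≠ 0 := Nat.cast_ne_zero.mpr k.succ_ne_zero
  have hb0 (k) : constantCoeff (b k) = 0 := by simp [hb]
  have hbP (r) : PP s (ex K b r) := hl b r fun k _ => ⟨hb0 k, by
    have : C ((k + 1 : ℕ) : K)⁻¹ * b k = C s * X (e k) := by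
      rw [hb, ← mul_assoc, ← C_mul, inv_mul_cancel_left₀ (hk k)]
    rw [this]
    exact (hr _ _ (hC s hs') (hX _)).2⟩
  refine ⟨fun j => C s⁻¹ * ex K b (j + 1), fun j => ?_, fun m => ?_⟩
  · rw [hc]
    refine ⟨by rw [map_mul, const_ex b hb0, mul_zero]; exact zero_mem _, fun i => ?_⟩
    rw [pderiv_C_mul, hd, mul_sum]
    refine pp_sum hPK s _ _ fun k _ => ?_
    have : C s⁻¹ * (C ((k + 1 : ℕ) : K)⁻¹ * pderiv i (b k) * ex K b (j + 1 - 1 - k)) =
        pderiv i (X (e k) : AA K) * ex K b (j + 1 - 1 - k) := by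
      rw [hb, pderiv_C_mul, ← mul_assoc, ← mul_assoc, ← mul_assoc, ← C_mul, ← C_mul,
        mul_assoc s⁻¹, inv_mul_cancel_left₀ (hk k), inv_mul_cancel₀ hs, C_1, one_mul]
    rw [this]
    refine (hr _ _ ?_ (hbP _)).2
    by_cases h : e k = i
    · rw [h, pderiv_X_self]; exact pp_one hPK s
    · rw [pderiv_X_of_ne h]; exact pp_zero s
  · set a : ℕ → AA K := fun k => C (((k + 1 : ℕ) : K) / qi (1 + s) (k + 1)) * X (e k) with ha
    have h1 : (fun k => (C (1 + s) : AA K) ^ (k + 1) * a k) = fun k => b k + a k := by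
      funext k
      rw [ha, hb, ← C_pow, ← mul_assoc, ← C_mul, ← add_mul, ← C_add]
      congr 2
      have h2 := qi_mul s (k + 1)
      have h3 := qi_ne s hq k
      rw [eq_sub_iff_add_eq] at h2
      rw [← h2]
      field_simp
    have h2 := ex_scale (K := K) (C (1 + s) : AA K) a m
    rw [h1, ex_add, sum_range_succ', ex_zero, one_mul, Nat.sub_zero, ← C_pow] at h2
    have h3 : (C s : AA K) ≠ 0 := by simpa using hs
    refine mul_left_cancel₀ h3 ?_
    rw [← mul_assoc, ← C_mul, qi_mul, C_sub, C_1, sub_mul, one_mul, mul_sum]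
    change C ((1 + s) ^ m) * ex K a m - ex K a m = _
    rw [← h2, add_sub_cancel_right]
    refine sum_congr rfl fun j _ => ?_
    rw [← mul_assoc, ← mul_assoc, ← C_mul, mul_inv_cancel₀ hs, C_1, one_mul,
      show m - 1 - j = m - (j + 1) by omega]
    rfl

end P94
end MJT
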