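import Pool.Agent.Lib.MP_9c49f6_co.SBlue
import Pool.Agent.Lib.MP_9c49f6_co.T_POS2

/-! Shared tools for the second face: `q`-integers, cones, congruences, basic identities. -/

namespace MJS
open MJ MJT MJC Finset MvPolynomial

section scalars
variable {K : Type} [Field K]

@[simp] lemma qi_zero (q : K) : qi q 0 = 0 := by simp [qi]
@[simp] lemma qi_one (q : K) : qi q 1 = 1 := by simp [qi]
lemma qi_add (q : K) (a b : ℕ) : qi q (a + b) = qi q a + q ^ a * qi q b := by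
  simp [qi, sum_range_add, mul_sum, pow_add]
lemma qi_succ (q : K) (a : ℕ) : qi q (a + 1) = qi q a + q ^ a := by simp [qi_add]
lemma qi_succ' (q : K) (a : ℕ) : qi q (a + 1) = 1 + q * qi q a := by
  rw [add_comm, qi_add]; simp
lemma qi_mul (s : K) (m : ℕ) : s * qi (1 + s) m = (1 + s) ^ m - 1 := P94.qi_mul s m
@[simp] lemma qf_zero (q : K) : qf q 0 = 1 := by simp [qf]
lemma qf_succ (q : K) (m : ℕ) : qf q (m + 1) = qf q m * qi q (m + 1) := prod_range_succ _ _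
lemma gl_eq (q : K) (m : ℕ) : gl q m = q ^ m.choose 2 * qf q m := rfl
lemma cw_comm (q : K) (i j : ℕ) : cw q i j = cw q j i := by simp only [cw]; ring

variable {s : K}
lemma Gen.s_ne (h : Gen s) : s ≠ 0 := P94.s_ne s h.2
lemma Gen.qi_ne (h : Gen s) {k : ℕ} (hk : 0 < k) : qi (1 + s) k ≠ 0 := LIM15.qi_ne h.2 hk
lemma Gen.qf_ne (h : Gen s) (m : ℕ) : qf (1 + s) m ≠ 0 :=
  prod_ne_zero_iff.mpr fun j _ => h.qi_ne j.succ_pos
lemma Gen.gN_ne (h : Gen s) (N l : ℕ) : gN (1 + s) N l ≠ 0 := mul_ne_zero (h.qf_ne _) (h.qf_ne _)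
lemma Gen.cw_eq (h : Gen s) {i j : ℕ} (hi : 0 < i) (hj : 0 < j) :
    cw (1 + s) i j = qi (1 + s) (i + j) / (qi (1 + s) i * qi (1 + s) j) := by
  have h1 := h.qi_ne hi
  have h2 := h.qi_ne hj
  rw [cw, qi_add]
  field_simp
  linear_combination qi (1 + s) j * qi_mul s i

lemma s_cone (s : K) : s ∈ cone s := Subsemiring.subset_closure (Set.mem_insert _ _)
lemma nnrat_cone (s : K) (r : ℚ≥0) : (r : K) ∈ cone s :=
  Subsemiring.subset_closure (Set.mem_insert_of_mem _ ⟨r, rfl⟩)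
lemma q_cone (s : K) : 1 + s ∈ cone s := add_mem (one_mem _) (s_cone s)
lemma qi_cone (s : K) (m : ℕ) : qi (1 + s) m ∈ cone s := sum_mem fun _ _ => pow_mem (q_cone s) _
lemma qf_cone (s : K) (m : ℕ) : qf (1 + s) m ∈ cone s := prod_mem fun _ _ => qi_cone s _
lemma inv_nat_cone [CharZero K] (s : K) (m : ℕ) : (m : K)⁻¹ ∈ cone s := by
  simpa using nnrat_cone s (m : ℚ≥0)⁻¹

variable {σ τ : Type} {S : Subsemiring K}
lemma mem_PC {f : MvPolynomial σ K} : f ∈ PC S ↔ ∀ d, coeff d f ∈ S := Iff.rfl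
lemma monomial_PC (d : σ →₀ ℕ) {a : K} (h : a ∈ S) : monomial d a ∈ PC S := fun e => by
  classical
  rw [coeff_monomial]
  split_ifs
  · exact h
  · exact zero_mem _
lemma C_PC {a : K} (h : a ∈ S) : (C a : MvPolynomial σ K) ∈ PC S := monomial_PC 0 h
lemma X_PC (i : σ) : (X i : MvPolynomial σ K) ∈ PC S := monomial_PC _ (one_mem _)
lemma smul_PC {a : K} (h : a ∈ S) {f : MvPolynomial σ K} (hf : f ∈ PC S) : a • f ∈ PC S := by
  rw [smul_eq_C_mul]; exact mul_mem (C_PC h) hf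
lemma hom_mem {A : Type} [CommRing A] [Algebra K A] {T : Subsemiring A}
    (φ : MvPolynomial σ K →ₐ[K] A) (hS : ∀ a ∈ S, algebraMap K A a ∈ T) (h : ∀ i, φ (X i) ∈ T)
    {f : MvPolynomial σ K} (hf : f ∈ PC S) : φ f ∈ T := by
  rw [f.as_sum, map_sum]
  refine sum_mem fun d _ => ?_
  rw [monomial_eq, map_mul, algHom_C, map_finsuppProd]
  exact mul_mem (hS _ (hf d)) (prod_mem fun i _ => by simpa using pow_mem (h i) _)
lemma hom_PC (φ : MvPolynomial σ K →ₐ[K] MvPolynomial τ K) (h : ∀ i, φ (X i) ∈ PC S)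
    {f : MvPolynomial σ K} (hf : f ∈ PC S) : φ f ∈ PC S :=
  hom_mem φ (fun _ ha => C_PC ha) h hf
lemma rename_PC (e : σ → τ) {f : MvPolynomial σ K} (hf : f ∈ PC S) : rename e f ∈ PC S :=
  hom_PC _ (fun i => by rw [rename_X]; exact X_PC _) hf
lemma pderiv_PC (i : σ) {f : MvPolynomial σ K} (hf : f ∈ PC S) : pderiv i f ∈ PC S := fun d => by
  classical
  rw [coeff_pderiv]
  exact mul_mem (hf _) (add_mem (natCast_mem _ _) (one_mem _))
end scalars

section power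
variable {K : Type} [Field K]

@[simp] lemma hh_zero : hh K 0 = 1 := ex_zero _
@[simp] lemma pv_zero : pv K 0 = 0 := rfl
@[simp] lemma pv_succ (k : ℕ) : pv K (k + 1) = X k := rfl
@[simp] lemma hy_zero (q : K) : hy q 0 = 1 := ex_zero _
@[simp] lemma Hh_zero (q : K) (e : ℕ → ℕ ⊕ ℕ) : Hh q e 0 = 1 := ex_zero _
lemma ia_hh (q : K) (e : ℕ → ℕ ⊕ ℕ) (m : ℕ) : ia q e (hh K m) = Hh q e m := by
  rw [hh, map_ex]; simp [ia, Hh]
lemma rename_hy (q : K) (e : ℕ → ℕ ⊕ ℕ) (m : ℕ) : rename e (hy q m) = Hh q e m := by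
  rw [hy, map_ex]; simp [Hh]
lemma uu_comm (q : K) (m m' : ℕ) : uu q m m' = uu q m' m := by
  simp only [uu, min_comm m m', add_comm m m', cw_comm q (m - _)]
lemma pm_eq {n : ℕ} (π : n.Partition) :
    (monomial (dOf π) 1 : Lam K) = ((lst π).map (pv K)).prod := by
  rw [monomial_eq, C_1, one_mul, ← Multiset.prod_coe, ← Multiset.map_coe, lst_coe,
    ← prod_dOf π (pv K)]
  rfl
lemma MS_mul_MI (q : K) {g : ℕ → K} (h : g 0 = 1) : MS q g * MI q g = 1 :=
  PowerSeries.mul_invOfUnit _ _ (by simp [MS, ← PowerSeries.coeff_zero_eq_constantCoeff_apply, h])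

variable [CharZero K]
lemma ex_ka (q : K) {g : ℕ → K} (h : g 0 = 1) (m : ℕ) :
    ex K (ka q g) m = C (g m) * (Hh q Sum.inl m * Hh q Sum.inr m) := by
  have h1 : MS q g = Ex K (ka q g) := by
    refine Ex_unique _ _ (by simp [MS, h]) ?_
    rw [show PowerSeries.mk (ka q g) = PowerSeries.derivative (AA K) (MS q g) * MI q g from
      PowerSeries.ext fun k => by rw [PowerSeries.coeff_mk, ka], mul_assoc, mul_comm (MI q g),
      MS_mul_MI q h, mul_one]
  rw [← Ex_coeff, ← h1, MS, PowerSeries.coeff_mk]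
lemma hh_Hm (m : ℕ) : hh K m ∈ Hm K m := by
  have := gen_Hm (F := K) (fun _ => 1) m
  rw [gen_nat] at this
  simpa [hh] using this
lemma hl_Hm (l : List ℕ) : hl K l ∈ Hm K l.sum := by
  induction l with
  | nil => simpa [hl] using one_mem_Hm (F := K)
  | cons m l ih => simpa [hl] using Hm_mul (hh_Hm m) ih
lemma hl_lst_Hm {n : ℕ} (l : n.Partition) : hl K (lst l) ∈ Hm K n := by
  simpa [lst_sum] using hl_Hm (K := K) (lst l)
lemma uu_Hm (q : K) (m m' : ℕ) : uu q m m' ∈ Hm K (m + m' : ℕ) :=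
  Submodule.sum_mem _ fun l hl => Submodule.smul_mem _ _ (by
    have := Hm_mul (hh_Hm (K := K) l) (hh_Hm (m + m' - l))
    rwa [← Nat.cast_add, Nat.add_sub_cancel' (by simp at hl; omega)] at this)
lemma one_Hm {g : ℕ → Lam K} {c : ℕ} (hg : ∀ m, g m ∈ Hm K (c + m : ℕ)) (l : List ℕ) :
    one g (hh K) l ∈ Hm K (c + l.sum : ℕ) := by
  induction l with
  | nil => exact zero_mem _
  | cons m l ih =>
    refine add_mem ?_ ?_
    · convert Hm_mul (hg m) (hl_Hm l) using 2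
      · simp [add_assoc]
      · rfl
    · convert Hm_mul (hh_Hm m) ih using 2; simp; ring
lemma Ul_Hm (q : K) (l : List ℕ) : Ul q l ∈ Hm K l.sum := by
  induction l with
  | nil => exact zero_mem _
  | cons m l ih =>
    refine add_mem ?_ ?_
    · simpa using one_Hm (uu_Hm q m) l
    · simpa [Ul] using Hm_mul (hh_Hm m) ih
lemma Ul_lst_Hm (q : K) {n : ℕ} (l : n.Partition) : Ul q (lst l) ∈ Hm K n := by
  simpa [lst_sum] using Ul_Hm q (lst l)
lemma eq_sum_pm {n : ℕ} {f : Lam K} (hf : f ∈ Hm K n) :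
    f = ∑ π : n.Partition, monomial (dOf π) (coeff (dOf π) f) :=
  (eq_Th hf).trans (Th_apply _)
/-- `[p_μ] h_λ = rc μ λ / z_μ` -/
lemma coeff_hl (hC : St_CAU) {n : ℕ} (l μ : n.Partition) :
    coeff (dOf μ) (hl K (lst l)) = (rc μ l : K) / zz μ := by
  have h := hC K (Lam K) (fun k => X k) n l
  have h1 : hl K (lst l) = Th fun μ : n.Partition => (rc μ l : K) / zz μ := by
    rw [hl, ← Multiset.prod_coe, ← Multiset.map_coe, lst_coe, Th_apply]
    refine h.symm.trans (sum_congr rfl fun μ _ => ?_)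
    rw [← prod_dOf μ fun i => (X (i - 1) : Lam K), monomial_eq, smul_eq_C_mul]
    rfl
  rw [h1, coeff_Th]
/-- the expansion of `ia q e f` -/
lemma ia_eq (q : K) (e : ℕ → ℕ ⊕ ℕ) {n : ℕ} {f : Lam K} (hf : f ∈ Hm K n) :
    ia q e f = ∑ μ : n.Partition, monomial ((dOf μ).mapDomain e) (coeff (dOf μ) f / vq q μ) := by
  conv_lhs => rw [eq_sum_pm hf, map_sum]
  refine sum_congr rfl fun μ _ => ?_
  rw [ia, aeval_monomial, div_eq_mul_inv, ← C_mul_monomial, ← ASM23.prod_a q e μ,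
    ← prod_dOf μ fun i => (C (((i - 1 + 1 : ℕ) : K) / qi q (i - 1 + 1)) * X (e (i - 1)) : AA K)]
  rfl
end power

section loc
variable {K F : Type} [Field K] [Field F] [Algebra K F] {O : Subalgebra K F} {θ : F}

lemma Cg_zero_iff {x : F} : Cg O θ 0 x ↔ x ∈ O :=
  ⟨fun ⟨o, h, e⟩ => by simpa [e] using h, fun h => ⟨x, h, by simp⟩⟩
lemma Cg.zero (k : ℕ) : Cg O θ k 0 := ⟨0, zero_mem _, by simp⟩
lemma Cg.of_eq {k : ℕ} {x y : F} (h : Cg O θ k x) (e : x = y) : Cg O θ k y := e ▸ h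
lemma Cg.add {k : ℕ} {x y : F} (hx : Cg O θ k x) (hy : Cg O θ k y) : Cg O θ k (x + y) := by
  obtain ⟨a, ha, rfl⟩ := hx; obtain ⟨b, hb, rfl⟩ := hy
  exact ⟨a + b, add_mem ha hb, by ring⟩
lemma Cg.neg {k : ℕ} {x : F} (hx : Cg O θ k x) : Cg O θ k (-x) := by
  obtain ⟨a, ha, rfl⟩ := hx
  exact ⟨-a, neg_mem ha, by ring⟩
lemma Cg.sub {k : ℕ} {x y : F} (hx : Cg O θ k x) (hy : Cg O θ k y) : Cg O θ k (x - y) :=
  (hx.add hy.neg).of_eq (by ring)
lemma Cg.mul {k j : ℕ} {x y : F} (hx : Cg O θ k x) (hy : Cg O θ j y) :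
    Cg O θ (k + j) (x * y) := by
  obtain ⟨a, ha, rfl⟩ := hx; obtain ⟨b, hb, rfl⟩ := hy
  exact ⟨a * b, mul_mem ha hb, by ring⟩
lemma Cg.mul_right {k : ℕ} {x y : F} (hx : Cg O θ k x) (hy : y ∈ O) : Cg O θ k (x * y) :=
  hx.mul (Cg_zero_iff.mpr hy)
lemma Cg.mul_left {k : ℕ} {x y : F} (hx : Cg O θ k x) (hy : y ∈ O) : Cg O θ k (y * x) :=
  (hx.mul_right hy).of_eq (mul_comm _ _)
lemma Cg.pow_mul (k : ℕ) {y : F} (hy : y ∈ O) : Cg O θ k (θ ^ k * y) := ⟨y, hy, rfl⟩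
lemma Cg.self : Cg O θ 1 θ := ⟨1, one_mem _, by simp⟩
lemma Cg.th_mul {k : ℕ} {x : F} (hx : Cg O θ k x) : Cg O θ (k + 1) (θ * x) :=
  (hx.mul Cg.self).of_eq (mul_comm _ _)
lemma Cg.pow {x : F} (hx : Cg O θ 1 x) (k : ℕ) : Cg O θ k (x ^ k) := by
  induction k with
  | zero => exact ⟨1, one_mem _, by simp⟩
  | succ k ih => exact (ih.mul hx).of_eq (pow_succ _ _).symm
lemma Cg.sum {ι : Type} {k : ℕ} {s : Finset ι} {f : ι → F} (h : ∀ i ∈ s, Cg O θ k (f i)) :
    Cg O θ k (∑ i ∈ s, f i) :=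
  sum_induction _ (Cg O θ k) (fun _ _ => Cg.add) (Cg.zero k) h

variable (L : Loc O θ)
include L

lemma Loc.mono {k j : ℕ} {x : F} (hx : Cg O θ k x) (h : j ≤ k) : Cg O θ j x := by
  obtain ⟨a, ha, rfl⟩ := hx
  obtain ⟨i, rfl⟩ := Nat.exists_eq_add_of_le h
  exact ⟨θ ^ i * a, mul_mem (pow_mem L.mem _) ha, by ring⟩
lemma Loc.mem_of {k : ℕ} {x : F} (hx : Cg O θ k x) : x ∈ O :=
  Cg_zero_iff.mp (L.mono hx (Nat.zero_le _))
lemma Loc.mem_of_sub {k : ℕ} {x y : F} (h : Cg O θ k (x - y)) (hy : y ∈ O) : x ∈ O := by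
  simpa using add_mem (L.mem_of h) hy
/-- congruences multiply -/
lemma Loc.mul_cg {k : ℕ} {x y a b : F} (hx : Cg O θ k (x - a)) (hy : Cg O θ k (y - b))
    (ha : a ∈ O) (hb : b ∈ O) : Cg O θ k (x * y - a * b) :=
  ((hx.mul_right hb).add (hy.mul_left (L.mem_of_sub hx ha))).of_eq (by ring)
/-- first-order expansions multiply -/
lemma Loc.mul_two {x y a a' b b' : F} (hx : Cg O θ 2 (x - (a + θ * a')))
    (hy : Cg O θ 2 (y - (b + θ * b'))) (ha : a ∈ O) (ha' : a' ∈ O) (hb : b ∈ O) (hb' : b' ∈ O) :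
    Cg O θ 2 (x * y - (a * b + θ * (a * b' + a' * b))) :=
  ((L.mul_cg hx hy (add_mem ha (mul_mem L.mem ha')) (add_mem hb (mul_mem L.mem hb'))).add
    (Cg.pow_mul 2 (mul_mem ha' hb'))).of_eq (by ring)
lemma Loc.prod_cg {ι : Type} {k : ℕ} (s : Finset ι) {f g : ι → F}
    (h : ∀ i ∈ s, Cg O θ k (f i - g i)) (hg : ∀ i ∈ s, g i ∈ O) :
    Cg O θ k (∏ i ∈ s, f i - ∏ i ∈ s, g i) := by
  classical
  induction s using Finset.induction_on with
  | empty => simpa using Cg.zero k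
  | insert a s ha ih =>
    rw [prod_insert ha, prod_insert ha]
    exact L.mul_cg (h a (by simp)) (ih (fun i hi => h i (by simp [hi])) fun i hi =>
      hg i (by simp [hi])) (hg a (by simp)) (prod_mem fun i hi => hg i (by simp [hi]))
lemma Loc.mprod_cg {ι : Type} {k : ℕ} (s : Multiset ι) {f g : ι → F}
    (h : ∀ i ∈ s, Cg O θ k (f i - g i)) (hg : ∀ i ∈ s, g i ∈ O) :
    Cg O θ k ((s.map f).prod - (s.map g).prod) := by
  induction s using Multiset.induction_on with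
  | empty => simpa using Cg.zero k
  | cons a s ih =>
    simp only [Multiset.map_cons, Multiset.prod_cons]
    refine L.mul_cg (h a (by simp)) (ih (fun i hi => h i (by simp [hi])) fun i hi =>
      hg i (by simp [hi])) (hg a (by simp)) (multiset_prod_mem _ fun x hx => ?_)
    obtain ⟨i, hi, rfl⟩ := Multiset.mem_map.mp hx
    exact hg i (by simp [hi])
lemma Loc.inv_mem {x : F} {a : K} (ha : a ≠ 0) (h : Cg O θ 1 (x - algebraMap K F a)) :
    x ≠ 0 ∧ x⁻¹ ∈ O := by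
  obtain ⟨o, ho, e⟩ := h
  obtain ⟨h1, h2⟩ := L.inv _ (mul_mem (O.algebraMap_mem a⁻¹) ho)
  have h3 : algebraMap K F a ≠ 0 := (map_ne_zero _).mpr ha
  have h4 : x = algebraMap K F a * (1 + θ * (algebraMap K F a⁻¹ * o)) := by
    rw [map_inv₀]; field_simp; linear_combination e
  exact ⟨h4 ▸ mul_ne_zero h3 h1, by
    rw [h4, mul_inv, ← map_inv₀]; exact mul_mem (O.algebraMap_mem _) h2⟩
lemma Loc.inv_cg {x : F} {a : K} (ha : a ≠ 0) (h : Cg O θ 1 (x - algebraMap K F a)) :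
    Cg O θ 1 (x⁻¹ - algebraMap K F a⁻¹) := by
  obtain ⟨h1, h2⟩ := L.inv_mem ha h
  have h3 : algebraMap K F a ≠ 0 := (map_ne_zero _).mpr ha
  refine ((h.neg.mul_right h2).mul_right (O.algebraMap_mem a⁻¹)).of_eq ?_
  rw [map_inv₀]; field_simp; ring
lemma Loc.det_cg {ι : Type} [Fintype ι] [DecidableEq ι] (M : Matrix ι ι F) (M0 : Matrix ι ι K)
    (h : ∀ i j, Cg O θ 1 (M i j - algebraMap K F (M0 i j))) :
    Cg O θ 1 (M.det - algebraMap K F M0.det) := by
  rw [Matrix.det_apply', Matrix.det_apply', map_sum, ← sum_sub_distrib]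
  refine Cg.sum fun σ _ => ?_
  refine ((L.prod_cg univ (fun i _ => h (σ i) i) fun i _ => O.algebraMap_mem _).mul_left
    (intCast_mem _ (Equiv.Perm.sign σ : ℤ))).of_eq ?_
  simp only [map_mul, map_intCast, map_prod]; ring
/-- LOC -/
theorem Loc.loc {ι : Type} [Fintype ι] [DecidableEq ι] (M : Matrix ι ι F) (M0 : Matrix ι ι K)
    (h : ∀ i j, Cg O θ 1 (M i j - algebraMap K F (M0 i j))) (h0 : M0.det ≠ 0) (k : ℕ)
    (x : ι → F) (hx : ∀ j, Cg O θ k (∑ i, x i * M i j)) (i : ι) : Cg O θ k (x i) := by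
  obtain ⟨h1, h2⟩ := L.inv_mem h0 (L.det_cg M M0 h)
  let N : Matrix ι ι O := fun i j => ⟨M i j, L.mem_of_sub (h i j) (O.algebraMap_mem _)⟩
  have hN : M = (O.val : O →+* F).mapMatrix N := rfl
  have h3 : ∀ i j, M.adjugate i j ∈ O := fun i j => by
    rw [hN, ← RingHom.map_adjugate]; exact (N.adjugate i j).2
  have h4 : Matrix.vecMul (Matrix.vecMul x M) M.adjugate = M.det • x := by
    rw [Matrix.vecMul_vecMul, Matrix.mul_adjugate, Matrix.vecMul_smul, Matrix.vecMul_one]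
  have h5 : Cg O θ k (∑ j, (∑ i, x i * M i j) * M.adjugate j i) :=
    Cg.sum fun j _ => (hx j).mul_right (h3 j i)
  refine (h5.mul_left h2).of_eq ?_
  have h6 : ∑ j, (∑ i, x i * M i j) * M.adjugate j i = M.det * x i := congrFun h4 i
  rw [h6, inv_mul_cancel_left₀ h1]

omit L in
/-- a matrix triangular for the lexicographic order -/
lemma det_tri {n : ℕ} [DecidableEq n.Partition] (M : Matrix n.Partition n.Partition K)
    (h : ∀ κ ρ, M κ ρ ≠ 0 → lst ρ ≤ lst κ) (hd : ∀ κ, M κ κ ≠ 0) : M.det ≠ 0 := by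
  let : LinearOrder n.Partition := LinearOrder.lift' lst lst_inj
  have h1 : M.BlockTriangular OrderDual.toDual := fun i j hij => by
    by_contra hc
    exact absurd (h i j hc) (not_le.mpr hij)
  have := Matrix.det_of_isLowerTriangular M h1
  convert (this ▸ prod_ne_zero_iff.mpr fun i _ => hd i : _ ≠ (0:K))

omit L
variable {s : K} {q t : F} (S : Setting s O θ q t)
include S

lemma Setting.gen : Gen s :=
  ⟨fun h => S.hi.q_ne (by rw [S.hq, h, map_zero]), fun k h => S.hi.q_pow_ne k (by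
    rw [S.hq, ← map_pow, h, map_one])⟩
lemma Setting.th_q : θ * (q - 1) = t - 1 := by rw [S.hq, S.ht, map_add, map_one]; ring
lemma Setting.qi_q (m : ℕ) : qi q m = algebraMap K F (qi (1 + s) m) := by
  simp [qi, S.hq]
lemma Setting.vq_q {n : ℕ} (μ : n.Partition) : vq q μ = algebraMap K F (vq (1 + s) μ) := by
  simp [vq, map_multiset_prod, Multiset.map_map, S.qi_q]
lemma Setting.t_cg : Cg O θ 1 (t - 1) := ⟨_, O.algebraMap_mem s, by rw [S.ht]; ring⟩
lemma Setting.t_mem : t ∈ O := S.loc.mem_of_sub S.t_cg (one_mem _)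
lemma Setting.t_pow_cg (m : ℕ) : Cg O θ 1 (t ^ m - 1) := by
  simpa using S.loc.prod_cg (range m) (fun _ _ => S.t_cg) fun _ _ => one_mem _
lemma Setting.qi_t (m : ℕ) : Cg O θ 1 (qi t m - algebraMap K F m) := by
  refine (Cg.sum (s := range m) fun j _ => S.t_pow_cg j).of_eq ?_
  simp [qi]
end loc

end MJS
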