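import Pool.Agent.Lib.MP_9c49f6_co.S_MAIN
import Pool.Agent.Lib.MP_9c49f6_co.One

/-! The two top faces seen from `μ`: the expansion in `θ` starts at order `ℓ(ν) - n`. -/

namespace MJS
open MJ MJT MJC Finset MvPolynomial

def St_ROT : Prop := ∀ (K : Type) [Field K] [CharZero K] (s : K), Gen s →
  ∃ φ : AA K →ₐ[K] AA K,
    (∀ k, φ (X (Sum.inl k)) = C (qi (1 + s) (k + 1)) * X (Sum.inl k) ∧
      φ (X (Sum.inr k)) = X (Sum.inr k)) ∧
    (∀ k, φ (ka (1 + s) (gl (1 + s)) k) ∈ PC (cone s)) ∧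
    ∀ a b, φ (Ct (1 + s) a b) ∈ PC (cone s)

def St_MAINr : Prop := ∀ (K F : Type) [Field K] [Field F] [CharZero K] [CharZero F] [Algebra K F]
  (s : K) (O : Subalgebra K F) (θ q t : F) (S : Setting s O θ q t) (N : Subsemiring F),
  (∀ r : ℚ≥0, (r : F) ∈ N) → t ∈ N →
  (∀ (k : ℕ) (π μ ν : k.Partition), μ.parts = {k} → WW q t (mac S.hi) π μ ν ∈ N) →
  ∀ (n : ℕ) (π μ ν : n.Partition), θ ^ ((n : ℤ) - ln ν) * WW q t (mac S.hi) π μ ν ∈ O ∧
    ∃ y ∈ N, ∃ G ∈ cone s, Cg O θ 2 (θ ^ ((n : ℤ) - ln ν) * (WW q t (mac S.hi) π μ ν - y) -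
      θ * algebraMap K F G)

namespace ROT52
open MAIN52
variable {F : Type} [Field F]

/-- the diagonal scaling with different weights on the two alphabets -/
noncomputable def dgs (a c : ℕ → F) : AA F →ₐ[F] AA F :=
  aeval fun i => C (Sum.elim (fun k => a (k + 1)) (fun k => c (k + 1)) i) * X i

lemma dg_mono (a c : ℕ → F) (D : ℕ ⊕ ℕ →₀ ℕ) (x : F) : dgs a c (monomial D x) =
    monomial D ((D.prod fun i e => Sum.elim (fun k => a (k + 1)) (fun k => c (k + 1)) i ^ e) * x) := by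
  rw [dgs, aeval_monomial, monomial_eq, mul_comm _ x, C_mul, mul_assoc, map_finsuppProd,
    ← Finsupp.prod_mul]
  simp [mul_pow]

lemma coeff_dg (a c : ℕ → F) (D : ℕ ⊕ ℕ →₀ ℕ) (f : AA F) : coeff D (dgs a c f) =
    (D.prod fun i e => Sum.elim (fun k => a (k + 1)) (fun k => c (k + 1)) i ^ e) * coeff D f := by
  classical
  induction f using MvPolynomial.induction_on' with
  | monomial d x =>
    rw [dg_mono, coeff_monomial, coeff_monomial]
    split_ifs with h
    · rw [h]
    · simp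
  | add f g hf hg => rw [map_add, coeff_add, coeff_add, hf, hg, mul_add]

lemma prod_dg {n : ℕ} (a c : ℕ → F) (μ ν : n.Partition) :
    ((ASM23.dd μ ν).prod fun i e => Sum.elim (fun k => a (k + 1)) (fun k => c (k + 1)) i ^ e) =
      (μ.parts.map a).prod * (ν.parts.map c).prod := by
  rw [ASM23.dd, Finsupp.prod_add_index' (by simp) (by simp [pow_add]),
    Finsupp.prod_mapDomain_index_inj Sum.inl_injective,
    Finsupp.prod_mapDomain_index_inj Sum.inr_injective, ← prod_dOf, ← prod_dOf]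
  rfl

noncomputable def Ur (q t : F) {n : ℕ} (P : n.Partition → n.Partition → F) (μ : n.Partition) :
    AA F := ∑ π, ∑ ν, monomial (ASM23.dd π ν) (zz μ / zz π * cco q t P π μ ν)

variable [CharZero F] {θ q t : F}

lemma UU_eq (hCC : St_CC) (hi : Indep q t) (e : θ * (q - 1) = t - 1) {n : ℕ} (μ : n.Partition) :
    Ur q t (mac hi) μ = C (θ⁻¹ ^ n) *
      dgs (fun i => qi q i / i) (fun i => θ * (qi t i / i)) (XX q t (mac hi) μ) := by
  have hθ : θ ≠ 0 := left_ne_zero_of_mul (e ▸ sub_ne_zero.mpr hi.t_ne_one)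
  simp only [Ur, XX, map_sum, mul_sum, dg_mono, C_mul_monomial]
  refine sum_congr rfl fun π _ => sum_congr rfl fun ν _ => congrArg _ ?_
  have h1 := (hCC F q t θ hi e n).2 μ π ν
  have h2 := ASM23.vq_ne hi.q_pow_ne π
  have h3 := ASM23.vq_ne hi.q_pow_ne ν
  have h4 := One22.cco_rot (q := q) (t := t) (mac hi) π μ ν
  rw [One22.cco_swap _ μ ν π] at h4
  have h5 := zd_ne hi (dOf μ)
  have h6 := zd_ne hi (dOf π)
  rw [zd_dOf] at h5 h6
  have h7 := LIM15.zz_ne (F := F) μ
  have h8 := LIM15.zz_ne (F := F) π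
  rw [prod_dg (fun i => qi q i / i) (fun i => θ * (qi t i / i)), ← (scale hi e ν).1, ← vq,
    eq_div_of_mul_eq h5 ((mul_comm _ _).trans h4),
    eq_inv_mul_iff_mul_eq₀ (pow_ne_zero n hθ) |>.mpr h1, inv_pow]
  field_simp

end ROT52
open MAIN52 ROT52

theorem st_MAINr (hFC : St_FC) (hCC : St_CC) (hR : St_ROT) : St_MAINr := by
  intro K F _ _ _ _ _ s O θ q t S N hr ht hone n π μ ν
  classical
  obtain ⟨δ, hδ⟩ := hFC K F s O θ q t S
  obtain ⟨φ, hφ, hL, hC⟩ := hR K s S.gen
  have L := S.loc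
  have hθ := L.ne
  set κ : ℕ → AA K := fun k => ka (1 + s) (gl (1 + s)) (k - 1) with hκ
  set x : ℕ → AA F := fun k => XX q t (mac S.hi) (Nat.Partition.indiscrete k) with hx
  set V : ℕ → AA F := fun k => Ur q t (mac S.hi) (Nat.Partition.indiscrete k) with hV
  have hp : ∀ k, 0 < k → (Nat.Partition.indiscrete k).parts = {k} := fun k hk =>
    Nat.Partition.indiscrete_parts hk.ne'
  have h0 : ∀ D, coeff D (XX q t (mac S.hi) μ) ∈ O := fun D =>
    L.mem_of_sub (hδ n μ D) (add_mem (O.algebraMap_mem _) (mul_mem L.mem (O.algebraMap_mem _)))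
  have h1 : PCg O θ 2 (XX q t (mac S.hi) μ - ((lst μ).map x).prod -
      C θ * map (algebraMap K F) (pair (ga (1 + s)) κ (lst μ))) := by
    have h2 := prod_two L x κ δ (lst μ) fun k hk D => by
      have h3 := hδ k (Nat.Partition.indiscrete k) D
      have h4 : lst (Nat.Partition.indiscrete k) = [k] := by
        rw [lst, hp k (lst_pos μ k hk), Multiset.sort_singleton]
      rw [h4] at h3
      simpa [coeff_map] using h3
    intro D
    refine ((hδ n μ D).sub (h2 D)).of_eq ?_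
    simp only [coeff_sub, coeff_add, coeff_C_mul, coeff_map, map_add]
    ring
  have h5 : ∀ (a : F) (f : ℕ → ℕ) (l : List ℕ), (C (a ^ (l.map f).sum) : AA F) =
      (l.map fun k => C (a ^ f k)).prod := fun a f l => by
    induction l with
    | nil => simp
    | cons m l ih => rw [List.map_cons, List.sum_cons, pow_add, C_mul, ih]; simp
  have h2 : ((lst μ).map V).prod = C (θ⁻¹ ^ n) *
      dgs (fun i => qi q i / i) (fun i => θ * (qi t i / i)) ((lst μ).map x).prod := by
    have h3 := h5 θ⁻¹ id (lst μ)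
    rw [List.map_id, lst_sum] at h3
    rw [h3, map_list_prod, List.map_map, ← List.prod_map_mul]
    refine congrArg _ (List.map_congr_left fun k _ => ?_)
    simp only [hV, hx, UU_eq hCC S.hi S.th_q, Function.comp, id]
  have h3 : ∀ k, 0 < k → C (t ^ (k * (k - 1))) * V k ∈ PC N := fun k hk => by
    simp only [hV, Ur, mul_sum, C_mul_monomial]
    refine sum_mem fun π' _ => sum_mem fun ν' _ => monomial_PC _ ?_
    have h4 := mul_mem (hr ((zz π' : ℚ≥0) * zz ν')⁻¹) (hone k π' _ ν' (hp k hk))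
    have h5 := LIM15.zz_ne (F := F) π'
    have h6 := LIM15.zz_ne (F := F) ν'
    convert h4 using 1
    rw [WW]
    push_cast
    field_simp
  have h4 : C (t ^ (n * (n - 1))) * ((lst μ).map V).prod ∈ PC N := by
    obtain ⟨r, hr'⟩ := Nat.exists_eq_add_of_le (sq_le (lst μ))
    rw [lst_sum] at hr'
    rw [hr', pow_add, C_mul, mul_right_comm, h5, ← List.prod_map_mul]
    refine mul_mem (list_prod_mem fun y hy => ?_) (C_PC (pow_mem ht _))
    obtain ⟨k, hk, rfl⟩ := List.mem_map.mp hy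
    exact h3 k (lst_pos μ k hk)
  have h6 : φ (pair (ga (1 + s)) κ (lst μ)) ∈ PC (cone s) := by
    rw [map_pair]
    refine pair_in _ (fun m _ m' _ => ?_) fun m _ => hL _
    rw [ga, map_smul]
    exact smul_PC (mul_mem (natCast_mem _ _) (natCast_mem _ _)) (hC m m')
  have h7 : φ = dgs (qi (1 + s)) fun _ => 1 := algHom_ext fun i => by
    cases i <;> simp [dgs, hφ]
  have h8 : vq (1 + s) π * coeff (ASM23.dd π ν) (pair (ga (1 + s)) κ (lst μ)) ∈ cone s := by
    have h9 := h6 (ASM23.dd π ν)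
    rw [h7, coeff_dg, prod_dg (qi (1 + s)) fun _ => 1] at h9
    convert mul_mem (multiset_prod_mem (π.parts.map fun i : ℕ => (i : K)⁻¹) fun y hy => by
      obtain ⟨i, -, rfl⟩ := Multiset.mem_map.mp hy
      exact inv_nat_cone s i) h9 using 1
    simp only [vq, div_eq_mul_inv, Multiset.prod_map_mul, Multiset.prod_map_one]
    ring
  have h9 : Cg O θ 1 ((ν.parts.map fun i => qi t i / i).prod - 1) := by
    refine (L.mprod_cg ν.parts (f := fun i => qi t i / i) (g := fun _ => 1) (fun i hi => ?_)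
      fun _ _ => one_mem _).of_eq (by simp)
    have h8 : (i : F) ≠ 0 := by exact_mod_cast (ν.parts_pos hi).ne'
    refine ((S.qi_t i).mul_right (O.algebraMap_mem (i : K)⁻¹)).of_eq ?_
    simp only [map_inv₀, map_natCast]
    field_simp
  have h10 := L.mul_cg (S.t_pow_cg (n * (n - 1))) h9 (one_mem _) (one_mem _)
  have h11 := L.mem_of_sub h10 (mul_mem (one_mem _) (one_mem _))
  have h12 := mul_mem (mul_mem (natCast_mem O (zz π)) (natCast_mem O (zz ν)))
    (O.algebraMap_mem (vq (1 + s) π))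
  have h13 : ∀ f : AA F, θ ^ ((n : ℤ) - ln ν) * coeff (ASM23.dd π ν) (C (θ⁻¹ ^ n) *
      dgs (fun i => qi q i / i) (fun i => θ * (qi t i / i)) f) = algebraMap K F (vq (1 + s) π) *
        (ν.parts.map fun i => qi t i / i).prod * coeff (ASM23.dd π ν) f := fun f => by
    rw [coeff_C_mul, coeff_dg, prod_dg (fun i => qi q i / i) (fun i => θ * (qi t i / i)), ← vq,
      S.vq_q, Multiset.prod_map_mul, Multiset.map_const', Multiset.prod_replicate, ln,
      zpow_sub₀ hθ, zpow_natCast, zpow_natCast, inv_pow]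
    field_simp
  have h14 : WW q t (mac S.hi) π μ ν =
      zz π * zz ν * t ^ (n * (n - 1)) * coeff (ASM23.dd π ν) (Ur q t (mac S.hi) μ) := by
    have h15 := LIM15.zz_ne (F := F) π
    rw [Ur, coeff_dd, WW]
    field_simp
  rw [UU_eq hCC S.hi S.th_q] at h14
  refine ⟨?_, zz π * zz ν * coeff (ASM23.dd π ν) (C (t ^ (n * (n - 1))) * ((lst μ).map V).prod),
    mul_mem (mul_mem (natCast_mem _ _) (natCast_mem _ _)) (h4 _),
    zz π * zz ν * (vq (1 + s) π * coeff (ASM23.dd π ν) (pair (ga (1 + s)) κ (lst μ))),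
    mul_mem (mul_mem (natCast_mem _ _) (natCast_mem _ _)) h8, ?_⟩
  · convert mul_mem (mul_mem h12 h11) (h0 (ASM23.dd π ν)) using 1
    rw [h14, mul_left_comm, h13]
    ring
  · refine ((((h1 (ASM23.dd π ν)).mul_left h11).add (h10.th_mul.mul_right (O.algebraMap_mem
      (coeff (ASM23.dd π ν) (pair (ga (1 + s)) κ (lst μ)))))).mul_left h12).of_eq ?_
    have h15 := h13 (XX q t (mac S.hi) μ)
    have h16 := h13 ((lst μ).map x).prod
    rw [h14, h2, coeff_C_mul _ (t ^ _)]
    simp only [coeff_sub, coeff_C_mul _ θ, coeff_map, map_mul (algebraMap K F), map_natCast]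
    linear_combination (zz π * zz ν * t ^ (n * (n - 1))) * (h16 - h15)

end MJS
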