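import Pool.Agent.Lib.MP_9c49f6_co.S_ALL
import Pool.Agent.Lib.MP_9c49f6_co.S_MAINr

/-! Rotated faces: positivity after the rescaling `y_k ↦ [k] y_k` of one alphabet. -/

namespace MJS
open MJ MJT MJC Finset MvPolynomial

namespace R62
variable {K : Type} [Field K]

section abstract
variable {R : Type} [Ring R] [Algebra K R]

lemma key (q : K) {A Y B D : R} (h1 : (Y - A) * A = q • (Y * (Y - A)))
    (h2 : A * B + B * A = (1 + q) • (Y * B)) (h3 : D * A - A * D = B) (k : ℕ) :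
    A ^ (k + 1) = Y ^ (k + 1) - qi q (k + 1) • (Y ^ k * (Y - A)) ∧
      D * A ^ (k + 1) - A ^ (k + 1) * D = qi q (k + 1) • (Y ^ k * B) := by
  induction k with
  | zero => simpa using h3
  | succ k ih =>
    obtain ⟨i1, i2⟩ := ih
    constructor
    · rw [pow_succ A (k + 1), i1, sub_mul, smul_mul_assoc, mul_assoc, h1, qi_succ' q (k + 1),
        pow_succ Y (k + 1)]
      simp only [mul_smul_comm, ← mul_assoc, ← pow_succ, mul_sub]
      module
    · have e : D * A ^ (k + 1 + 1) - A ^ (k + 1 + 1) * D =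
          (D * A ^ (k + 1) - A ^ (k + 1) * D) * A + A ^ (k + 1) * (D * A - A * D) := by
        rw [pow_succ A (k + 1)]; noncomm_ring
      have h4 := congrArg (Y ^ k * ·) h2
      rw [e, i2, h3, i1, qi_succ' q (k + 1)]
      simp only [pow_succ Y k, sub_mul, mul_sub, mul_add, smul_mul_assoc, mul_smul_comm,
        mul_assoc] at h4 ⊢
      linear_combination (norm := module) qi q (k + 1) • h4

noncomputable def op (E : ℕ → R) (c : ℕ → K) : PowerSeries R := PowerSeries.mk fun i => c i • E i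

lemma op_ext {E : ℕ → R} {c : ℕ → K} {P : PowerSeries R}
    (h : ∀ i, c i • E i = PowerSeries.coeff i P) : op E c = P :=
  PowerSeries.ext fun i => by rw [op, PowerSeries.coeff_mk, h]

lemma comm [CharZero K] (q : K) {E : ℕ → R} (hE : ∀ i j, E (i + 1) * E j - q • (E i * E (j + 1)) +
    (E (j + 1) * E i - q • (E j * E (i + 1))) = 0) {c c' : ℕ → K} (h0 : c' 0 = 0)
    (h : ∀ i, c' (i + 1) = c i) : op E c' * op E c = q • (op E c * op E c') := by
  refine PowerSeries.ext fun n => ?_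
  rw [PowerSeries.coeff_smul, PowerSeries.coeff_mul, PowerSeries.coeff_mul]
  simp only [op, PowerSeries.coeff_mk]
  rcases n with _ | m
  · simp [h0]
  rw [Finset.Nat.sum_antidiagonal_succ, Finset.Nat.sum_antidiagonal_succ']
  simp only [h0, h, zero_smul, mul_zero, zero_mul, zero_add]
  rw [← sub_eq_zero]
  set G : ℕ × ℕ → R := fun p => (c p.1 * c p.2) •
    (E (p.1 + 1) * E p.2 - q • (E p.1 * E (p.2 + 1))) with hG
  have e2 : (2 : K) • ∑ p ∈ antidiagonal m, G p = 0 := by
    rw [two_smul]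
    nth_rewrite 2 [← Finset.Nat.sum_antidiagonal_swap]
    rw [← sum_add_distrib]
    refine sum_eq_zero fun p _ => ?_
    simp only [hG, Prod.fst_swap, Prod.snd_swap]
    rw [mul_comm (c p.2), ← smul_add, hE, smul_zero]
  refine Eq.trans ?_ ((smul_eq_zero.1 e2).resolve_left two_ne_zero)
  rw [smul_sum, ← sum_sub_distrib]
  refine sum_congr rfl fun p _ => ?_
  simp only [hG, smul_mul_smul_comm, smul_sub, smul_comm q]

lemma main_abs [CharZero K] {s : K} (hs : s ≠ 0) {E : ℕ → R}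
    (hE : ∀ i j, E (i + 1) * E j - (1 + s) • (E i * E (j + 1)) +
      (E (j + 1) * E i - (1 + s) • (E j * E (i + 1))) = 0) {A Y D : PowerSeries R}
    (hA : s • A = op E fun i => if i = 0 then (1 : K) else 0)
    (hY : s • Y = op E fun i => if i = 0 then 1 else s * (1 + s) ^ (i - 1))
    (hD : D * A - A * D = op E (qi (1 + s))) (k : ℕ) :
    D * A ^ (k + 1) - A ^ (k + 1) * D = qi (1 + s) (k + 1) • (Y ^ k * op E (qi (1 + s))) := by
  have c1 := comm (1 + s) hE (c := fun i => qi (1 + s) (i + 1)) (qi_zero _) fun _ => rfl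
  have c2 := comm (1 + s) hE (c := qi (1 + s)) (c' := fun i => qi (1 + s) (i - 1)) (qi_zero _)
    fun _ => rfl
  have c3 := comm (1 + s) hE (c := fun i => (1 + s) ^ i)
    (c' := fun i => if i = 0 then 0 else (1 + s) ^ (i - 1)) rfl fun _ => rfl
  set G0 := op E fun i => qi (1 + s) (i + 1) with g0
  set G1 := op E (qi (1 + s)) with g1
  set G2 := op E fun i => qi (1 + s) (i - 1) with g2
  have coe : ∀ (c : ℕ → K) i, PowerSeries.coeff i (op E c) = c i • E i := fun c i =>
    PowerSeries.coeff_mk _ _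
  have a1 : s • A = G0 - (1 + (1 + s)) • G1 + (1 + s) • G2 := hA.trans (op_ext fun i => by
    simp only [map_add, map_sub, PowerSeries.coeff_smul, g0, g1, g2, coe]
    rcases i with _ | _ | i
    · simp
    · simp [qi_succ']
    · simp only [qi_succ' _ (i + 1 + 1), qi_succ' _ (i + 1), Nat.add_sub_cancel]; simp; module)
  have a2 : s • Y = G0 - (2 : K) • G1 + G2 := hY.trans (op_ext fun i => by
    simp only [map_add, map_sub, PowerSeries.coeff_smul, g0, g1, g2, coe]
    rcases i with _ | i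
    · simp
    · simp only [qi_succ _ (i + 1), qi_succ _ i, Nat.add_sub_cancel, pow_succ]; simp; module)
  have a3 : (op E fun i => (1 + s) ^ i) = G0 - G1 := op_ext fun i => by
    simp only [map_sub, g0, g1, coe, qi_succ]; module
  have a4 : (op E fun i => if i = 0 then 0 else (1 + s) ^ (i - 1)) = G1 - G2 := op_ext fun i => by
    simp only [map_sub, g1, g2, coe]
    rcases i with _ | i
    · simp
    · simp only [qi_succ _ i, Nat.add_sub_cancel]; simp; module
  rw [a3, a4] at c3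
  refine (key (1 + s) ?_ ?_ hD k).2
  · refine smul_right_injective _ (mul_ne_zero hs hs) ?_
    have e : (s * s) • ((Y - A) * A) = (s • Y - s • A) * (s • A) := by
      rw [← smul_sub, smul_mul_smul_comm]
    have e' : (s * s) • ((1 + s) • (Y * (Y - A))) = (1 + s) • ((s • Y) * (s • Y - s • A)) := by
      rw [← smul_sub, smul_mul_smul_comm, smul_comm]
    simp only [e, e', a1, a2]
    simp only [mul_sub, sub_mul, mul_add, add_mul, smul_mul_assoc, mul_smul_comm] at c3 ⊢
    linear_combination (norm := module) s • c3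
  · refine smul_right_injective _ hs ?_
    have e : s • (A * G1 + G1 * A) = (s • A) * G1 + G1 * (s • A) := by
      rw [smul_add, smul_mul_assoc, mul_smul_comm]
    have e' : s • ((1 + (1 + s)) • (Y * G1)) = (1 + (1 + s)) • ((s • Y) * G1) := by
      rw [smul_mul_assoc, smul_comm]
    simp only [e, e', a1, a2]
    simp only [mul_sub, sub_mul, mul_add, add_mul, smul_mul_assoc, mul_smul_comm]
    linear_combination (norm := module) c1 - c2

end abstract

section ops
variable (s : K)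

noncomputable def uz (n : ℤ) : Lam K := gen (fun k => ((k + 1 : ℕ) : K) * s) n

noncomputable def LU (n : ℤ) : Polynomial (Lam K) →ₗ[K] Lam K :=
  Polynomial.lsum fun r : ℕ => LinearMap.mulLeft K (uz s (n + r))

/-- the Hall-Littlewood vertex operator, for all integer indices -/
noncomputable def HZ (n : ℤ) : Module.End K (Lam K) := LU s n ∘ₗ (Phi (X80.cc s)).toLinearMap

lemma HZ_apply (n : ℤ) (f : Lam K) : HZ s n f = LU s n (Phi (X80.cc s) f) := rfl

lemma LU_monomial (n : ℤ) (r : ℕ) (a : Lam K) :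
    LU s n (Polynomial.monomial r a) = uz s (n + r) * a := by
  simp [LU, Polynomial.lsum, Polynomial.sum_monomial_index]

lemma LU_C_mul (n : ℤ) (a : Lam K) (P : Polynomial (Lam K)) :
    LU s n (Polynomial.C a * P) = a * LU s n P := by
  induction P using poly_ind with
  | hadd p q hp hq => simp only [mul_add, map_add, hp, hq]
  | hm n b => rw [Polynomial.C_mul_monomial, LU_monomial, LU_monomial]; ring

lemma LU_X_mul (n : ℤ) (P : Polynomial (Lam K)) :
    LU s n (Polynomial.X * P) = LU s (n + 1) P := by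
  induction P using poly_ind with
  | hadd p q hp hq => simp only [mul_add, map_add, hp, hq]
  | hm n b =>
    rw [Polynomial.X_mul_monomial, LU_monomial, LU_monomial]
    congr 2; push_cast; ring

lemma HZ_sum (v : ℤ) (f : Lam K) (n : ℕ) (h : ∀ j : ℤ, (n : ℤ) ≤ j → Sh (X80.cc s) j f = 0) :
    HZ s v f = ∑ r ∈ range n, uz s (v + r) * Sh (X80.cc s) r f := by
  rw [HZ_apply, Phi_eq_sum _ f n h, map_sum]
  refine sum_congr rfl fun r _ => ?_
  rw [mul_comm, Polynomial.C_mul_X_pow_eq_monomial, LU_monomial]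

lemma Sh_pderiv (c : ℕ → K) (r : ℕ) (a : Lam K) : ∀ j : ℤ,
    Sh c j (pderiv r a) = pderiv r (Sh c j a) := by
  induction a using lam_ind with
  | hC c => intro j; rw [Sh_C]; split_ifs <;> simp
  | hadd f g hf hg => intro j; simp only [map_add, hf, hg]
  | hX f k hf =>
    intro j
    rw [pderiv_mul, map_add, Sh_X_mul, Sh_X_mul, map_add, pderiv_mul, hf, hf, Derivation.map_smul,
      pderiv_X]
    by_cases h : k = r
    · subst h; simp [add_assoc]
    · simp [Pi.single_eq_of_ne h]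

variable {s}

lemma HZ_JH (h : s ≠ 0) (v : ℕ) : HZ s (v + 1) = s • (JH s v : Module.End K (Lam K)) := by
  refine LinearMap.ext fun f => ?_
  obtain ⟨n, hn⟩ := Sh_bound (X80.cc s) f
  rw [LinearMap.smul_apply, HZ_sum s _ f n hn, X80.JH_sum s v f n hn, smul_sum]
  refine sum_congr rfl fun r _ => ?_
  rw [ep, smul_eq_C_mul, ← mul_assoc, ← mul_assoc, ← C_mul, mul_inv_cancel₀ h, C_1, one_mul,
    ← gen_nat, uz]
  congr 2; push_cast; ring

variable [CharZero K] (s)

lemma uz_PC (n : ℤ) : uz s n ∈ PC (cone s) := by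
  rcases lt_or_ge n 0 with h | h
  · rw [uz, gen_neg _ h]; exact zero_mem _
  · obtain ⟨m, rfl⟩ := Int.eq_ofNat_of_zero_le h
    rw [uz, gen_nat]
    exact X50.ex_PC (inv_nat_cone s) (fun k =>
      mul_mem (C_PC (mul_mem (natCast_mem _ _) (s_cone s))) (X_PC k)) m

lemma HZ_PC (v : ℤ) {f : Lam K} (hf : f ∈ PC (cone s)) : HZ s v f ∈ PC (cone s) := by
  obtain ⟨n, hn⟩ := Sh_bound (X80.cc s) f
  rw [HZ_sum s v f n hn]
  exact sum_mem fun r _ => mul_mem (uz_PC s _) (X80.Sh_PC s hf r)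

lemma der_uz (j : ℕ) (n : ℤ) : pderiv j (uz s n) = s • uz s (n - (j + 1)) := by
  rcases lt_or_ge n 0 with h | h
  · rw [uz, uz, gen_neg _ h, gen_neg _ (by omega), map_zero, smul_zero]
  obtain ⟨m, rfl⟩ := Int.eq_ofNat_of_zero_le h
  refine rename_injective (Sum.inl : ℕ → ℕ ⊕ ℕ) Sum.inl_injective ?_
  have e : ∀ r : ℕ, rename (Sum.inl : ℕ → ℕ ⊕ ℕ) (uz s r) =
      ex K (fun k => C (((k + 1 : ℕ) : K) * s) * X (Sum.inl k)) r := fun r => by
    rw [uz, gen_nat, map_ex]; simp only [map_mul, rename_C, rename_X]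
  have h3 : ∀ k, k ≠ j → pderiv (Sum.inl j) (C (((k + 1 : ℕ) : K) * s) *
      X (Sum.inl k) : AA K) = 0 := fun k hk => by
    rw [pderiv_C_mul, pderiv_X_of_ne (Sum.inl_injective.ne hk), mul_zero]
  rw [← pderiv_rename Sum.inl_injective, e, PK5.der_ex, map_smul]
  rcases lt_or_ge j m with h | h
  · rw [sum_eq_single j (fun k _ hk => by rw [h3 k hk]; simp) (by simp; omega), pderiv_C_mul,
      pderiv_X_self, mul_one, ← map_mul, inv_mul_cancel_left₀ (Nat.cast_ne_zero.2 j.succ_ne_zero),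
      show (m : ℤ) - (j + 1) = (m - 1 - j : ℕ) by omega, e, smul_eq_C_mul]
  · rw [sum_eq_zero fun k hk => by rw [h3 k (by simp at hk; omega)]; simp, uz,
      gen_neg _ (by omega), map_zero, smul_zero]

lemma der_HZ (j : ℕ) (v : ℤ) (f : Lam K) :
    pderiv j (HZ s v f) = s • HZ s (v - (j + 1)) f + HZ s v (pderiv j f) := by
  obtain ⟨n, hn⟩ := Sh_bound (X80.cc s) f
  rw [HZ_sum s v f n hn, HZ_sum s _ f n hn, HZ_sum s v _ n fun i hi => by
    rw [Sh_pderiv, hn i hi, map_zero], map_sum, smul_sum, ← sum_add_distrib]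
  refine sum_congr rfl fun r _ => ?_
  rw [pderiv_mul, der_uz, Sh_pderiv, smul_mul_assoc, sub_add_eq_add_sub]

lemma Phi_uz (b : ℤ) : Phi (X80.cc s) (uz s (b + 1)) -
    Polynomial.C (C (1 + s)) * (Polynomial.X * Phi (X80.cc s) (uz s b)) =
      Polynomial.C (uz s (b + 1)) - Polynomial.C (uz s b) * Polynomial.X := by
  have e : (fun k : ℕ => Polynomial.C (C ((((k + 1 : ℕ) : K) * s) * X80.cc s k) : Lam K) *
      Polynomial.X ^ (k + 1)) = fun k => - (Polynomial.X : Polynomial (Lam K)) ^ (k + 1) +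
        (Polynomial.C (C (1 + s)) * Polynomial.X) ^ (k + 1) := by
    funext k
    have h2 : ((k + 1 : ℕ) : K) ≠ 0 := Nat.cast_ne_zero.2 k.succ_ne_zero
    rw [show (((k + 1 : ℕ) : K) * s) * X80.cc s k = (1 + s) ^ (k + 1) - 1 by
      rw [← qi_mul, X80.cc]; field_simp]
    simp only [map_sub, map_pow, map_one, mul_pow]
    ring
  rw [uz, uz, Phi_gen, Phi_gen, C_gen, C_gen, e, Ex_add, Ex_neg_geom]
  generalize Ex K (fun k : ℕ => Polynomial.C (C (((k + 1 : ℕ) : K) * s) * X k : Lam K)) = A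
  have g1 := Ex_geom (F := K) (Polynomial.C (C (1 + s) : Lam K) * Polynomial.X)
  generalize Ex K (fun k => (Polynomial.C (C (1 + s) : Lam K) * Polynomial.X) ^ (k + 1)) = B
    at g1 ⊢
  have h1 := cz_mul_one_sub (A * ((1 - PowerSeries.C Polynomial.X * PowerSeries.X) * B))
    (Polynomial.C (C (1 + s) : Lam K) * Polynomial.X) (b + 1)
  have h2 := cz_mul_one_sub A Polynomial.X (b + 1)
  rw [mul_assoc, mul_assoc, g1, mul_one, h2, add_sub_cancel_right] at h1
  linear_combination -h1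

lemma HZ_HZ (a b : ℤ) (f : Lam K) (n : ℕ) (h : ∀ j : ℤ, (n : ℤ) ≤ j → Sh (X80.cc s) j f = 0) :
    HZ s a (HZ s (b + 1) f) - (1 + s) • HZ s (a + 1) (HZ s b f) =
      ∑ r ∈ range n, ∑ i ∈ range n, (uz s (b + r + 1) * uz s (a + i) -
        uz s (b + r) * uz s (a + i + 1)) * Sh (X80.cc s) i (Sh (X80.cc s) r f) := by
  have h' : ∀ i j : ℤ, (n : ℤ) ≤ j → Sh (X80.cc s) j (Sh (X80.cc s) i f) = 0 := fun i j hj => by
    rw [Sh_comm, h j hj, map_zero]
  rw [HZ_sum s (b + 1) f n h, HZ_sum s b f n h, map_sum, map_sum, smul_sum, ← sum_sub_distrib]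
  refine sum_congr rfl fun r _ => ?_
  have h2 := congrArg (fun P => LU s a (P * Phi (X80.cc s) (Sh (X80.cc s) r f))) (Phi_uz s (b + r))
  simp only [sub_mul, mul_assoc, map_sub, LU_C_mul, LU_X_mul] at h2
  rw [HZ_apply, HZ_apply, map_mul (Phi (X80.cc s)), map_mul (Phi (X80.cc s)), smul_eq_C_mul,
    add_right_comm, h2, ← HZ_apply, ← HZ_apply, HZ_sum s a _ n (h' r),
    HZ_sum s (a + 1) _ n (h' r), mul_sum, mul_sum, ← sum_sub_distrib]
  refine sum_congr rfl fun i _ => ?_
  rw [add_right_comm a 1 i]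
  ring

lemma HZ_rel (a b : ℤ) : HZ s a * HZ s (b + 1) - (1 + s) • (HZ s (a + 1) * HZ s b) +
    (HZ s b * HZ s (a + 1) - (1 + s) • (HZ s (b + 1) * HZ s a)) = 0 := by
  refine LinearMap.ext fun f => ?_
  obtain ⟨n, hn⟩ := Sh_bound (X80.cc s) f
  simp only [LinearMap.add_apply, LinearMap.sub_apply, LinearMap.smul_apply, Module.End.mul_apply,
    LinearMap.zero_apply]
  rw [HZ_HZ s a b f n hn, HZ_HZ s b a f n hn, sum_comm, ← sum_add_distrib]
  refine sum_eq_zero fun i _ => ?_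
  rw [← sum_add_distrib]
  refine sum_eq_zero fun r _ => ?_
  rw [Sh_comm]
  ring

open X95 in
noncomputable def EE (s : K) (i : ℕ) : R2 K :=
  PowerSeries.mk fun m => PowerSeries.mk fun l => HZ s (2 - i + m + l)

open X95 in
omit [CharZero K] in
lemma cf_EE (i m l : ℕ) : cf (EE s i) m l = HZ s (2 - i + m + l) := by simp [X95.cf, EE]

open X95 in
lemma EE_rel (i j : ℕ) : EE s (i + 1) * EE s j - (1 + s) • (EE s i * EE s (j + 1)) +
    (EE s (j + 1) * EE s i - (1 + s) • (EE s j * EE s (i + 1))) = 0 := by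
  refine cf_ext fun m l => ?_
  have ad : ∀ X Y : R2 K, cf (X + Y) m l = cf X m l + cf Y m l := fun X Y => by
    simp only [X95.cf, map_add]
  have sw : ∀ F : ℕ × ℕ → ℕ × ℕ → Module.End K (Lam K),
      ∑ p ∈ antidiagonal m, ∑ r ∈ antidiagonal l, F p r =
        ∑ p ∈ antidiagonal m, ∑ r ∈ antidiagonal l, F p.swap r.swap := fun F => by
    rw [← Finset.Nat.sum_antidiagonal_swap]
    exact sum_congr rfl fun p _ => (Finset.Nat.sum_antidiagonal_swap).symm
  rw [ad, cf_sub, cf_sub, cf_smul, cf_smul, cf_mul, cf_mul, cf_mul (EE s (j + 1)),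
    cf_mul (EE s j), sw fun p r => cf (EE s (j + 1)) p.1 r.1 * cf (EE s i) p.2 r.2,
    sw fun p r => cf (EE s j) p.1 r.1 * cf (EE s (i + 1)) p.2 r.2]
  simp only [smul_sum, ← sum_sub_distrib, ← sum_add_distrib, cf_EE, Prod.fst_swap, Prod.snd_swap]
  refine (sum_eq_zero fun p _ => sum_eq_zero fun r _ => ?_).trans (by simp [X95.cf])
  rw [show (2 : ℤ) - (i + 1 : ℕ) + p.1 + r.1 = 1 - i + p.1 + r.1 by push_cast; ring,
    show (2 : ℤ) - (j + 1 : ℕ) + p.2 + r.2 = 1 - j + p.2 + r.2 by push_cast; ring,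
    show (2 : ℤ) - i + p.1 + r.1 = 1 - i + p.1 + r.1 + 1 by ring,
    show (2 : ℤ) - j + p.2 + r.2 = 1 - j + p.2 + r.2 + 1 by ring]
  exact HZ_rel s _ _

open X95 in
/-- `[j+1] ∂_j th_k ∈ [k] PC` -/
theorem der_th {s : K} (hs : Gen s) (k m l j : ℕ) : ∃ p ∈ PC (cone s),
    C (qi (1 + s) (j + 1)) * pderiv j (th s (k + 1) m l) = C (qi (1 + s) (k + 1)) * p := by
  let d : ℕ → Module.End K (Lam K) := fun i =>
    qi (1 + s) i • (pderiv (i - 1) : Derivation K (Lam K) (Lam K)).toLinearMap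
  let A : R2 K := X95.op s fun _ => 1
  let Y : PowerSeries (R2 K) :=
    PowerSeries.mk fun i => if i = 0 then A else (1 + s) ^ (i - 1) • EE s i
  let D : PowerSeries (R2 K) := PowerSeries.mk fun i => PowerSeries.C (PowerSeries.C (d i))
  have hA : s • A = EE s 0 := cf_ext fun m l => by
    rw [cf_smul, cf_op, cf_EE, one_smul, ← HZ_JH hs.s_ne]
    congr 1; push_cast; ring
  have c1 : ∀ (e : Module.End K (Lam K)) (X : R2 K) m l,
      cf (PowerSeries.C (PowerSeries.C e) * X) m l = e * cf X m l := fun e X m l => by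
    simp only [X95.cf, PowerSeries.coeff_C_mul]
  have c2 : ∀ (e : Module.End K (Lam K)) (X : R2 K) m l,
      cf (X * PowerSeries.C (PowerSeries.C e)) m l = cf X m l * e := fun e X m l => by
    simp only [X95.cf, PowerSeries.coeff_mul_C]
  have h := main_abs hs.s_ne (EE_rel s) (A := PowerSeries.C A) (Y := Y) (D := D)
    (op_ext fun i => by
      rw [PowerSeries.coeff_smul, PowerSeries.coeff_C]
      split_ifs with h
      · rw [h, hA, one_smul]
      · rw [zero_smul, smul_zero]).symm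
    (op_ext fun i => by
      rw [PowerSeries.coeff_smul, PowerSeries.coeff_mk]
      split_ifs with h
      · rw [h, hA, one_smul]
      · rw [smul_smul]).symm
    (op_ext fun i => by
      rw [map_sub, PowerSeries.coeff_C_mul, PowerSeries.coeff_mul_C, PowerSeries.coeff_mk]
      refine smul_right_injective _ hs.s_ne (cf_ext fun m l => LinearMap.ext fun f => ?_)
      dsimp only
      rw [smul_sub, ← mul_smul_comm s, ← smul_mul_assoc s, hA, cf_sub, c1, c2, cf_smul, cf_smul,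
        cf_EE, cf_EE]
      rcases i with _ | i
      · simp [d]
      · simp only [d, LinearMap.smul_apply, LinearMap.sub_apply, Module.End.mul_apply, map_smul,
          Derivation.coeFn_coe, Nat.add_sub_cancel, der_HZ]
        rw [show (2 : ℤ) - (i + 1 : ℕ) + m + l = 2 - (0 : ℕ) + m + l - (i + 1) by push_cast; ring]
        module).symm k
  have hJ := (st_JI st_EP K s hs).1
  have hE : ∀ i, ∀ c ∈ cone s, Ps s (c • EE s i) := fun i c hc m l f hf => by
    rw [cf_smul, cf_EE]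
    exact smul_PC hc (HZ_PC s _ hf)
  have hz : Ps s 0 := fun m l f _ => by simp [X95.cf]
  have hs' : ∀ (t : Finset (ℕ × ℕ)) (F : ℕ × ℕ → R2 K), (∀ p, Ps s (F p)) → Ps s (∑ p ∈ t, F p) :=
    fun t F hF m l f hf => by
      simp only [X95.cf, map_sum, LinearMap.sum_apply]
      exact sum_mem fun p _ => hF p m l f hf
  have hP : ∀ k i, Ps s (PowerSeries.coeff i (Y ^ k * op (EE s) (qi (1 + s)))) := fun k => by
    induction k with
    | zero =>
      intro i
      rw [pow_zero, one_mul, op, PowerSeries.coeff_mk]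
      exact hE _ _ (qi_cone s i)
    | succ k ih =>
      intro i
      rw [pow_succ', mul_assoc, PowerSeries.coeff_mul]
      refine hs' _ _ fun p => Ps.mul ?_ (ih _)
      rw [PowerSeries.coeff_mk]
      split_ifs
      · exact Ps_op hJ fun _ => one_mem _
      · exact hE _ _ (pow_mem (q_cone s) _)
  refine ⟨_, hP k (j + 1) m l 1 (one_mem _), ?_⟩
  have h1 := congrArg (fun X => cf (PowerSeries.coeff (j + 1) X) m l 1) h
  simp only [← map_pow, map_sub, PowerSeries.coeff_C_mul, PowerSeries.coeff_mul_C, D,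
    PowerSeries.coeff_mk, cf_sub, c1, c2, PowerSeries.coeff_smul, cf_smul, d, Nat.add_sub_cancel,
    LinearMap.smul_apply, LinearMap.sub_apply, Module.End.mul_apply, Derivation.coeFn_coe,
    Derivation.map_one_eq_zero, smul_zero, map_zero, sub_zero, smul_eq_C_mul] at h1
  rw [th_eq, h1]

end ops

section rot

def wt (q : K) : ℕ ⊕ ℕ → K := Sum.elim (fun k => qi q (k + 1)) fun _ => 1

/-- the rescaling `y_k ↦ [k] y_k` of the first alphabet -/
noncomputable def sg (q : K) : AA K →ₐ[K] AA K := aeval fun v => C (wt q v) * X v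

lemma sg_inl (q : K) (k : ℕ) : sg q (X (Sum.inl k)) = C (qi q (k + 1)) * X (Sum.inl k) :=
  aeval_X _ _

lemma sg_inr (q : K) (k : ℕ) : sg q (X (Sum.inr k)) = X (Sum.inr k) := by simp [sg, wt]

lemma sg_monomial (q : K) (d : ℕ ⊕ ℕ →₀ ℕ) (a : K) :
    sg q (monomial d a) = monomial d ((d.prod fun v n => wt q v ^ n) * a) := by
  rw [sg, aeval_monomial, monomial_eq, algebraMap_eq, mul_comm _ a, C_mul, mul_assoc,
    map_finsuppProd, ← Finsupp.prod_mul]
  simp only [mul_pow, map_pow]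

lemma coeff_sg (q : K) (d : ℕ ⊕ ℕ →₀ ℕ) (f : AA K) :
    coeff d (sg q f) = (d.prod fun v n => wt q v ^ n) * coeff d f := by
  induction f using MvPolynomial.induction_on' with
  | monomial e a =>
    rw [sg_monomial, coeff_monomial, coeff_monomial]
    split_ifs with h
    · rw [h]
    · rw [mul_zero]
  | add f g hf hg => rw [map_add, coeff_add, coeff_add, hf, hg, mul_add]

lemma wt_succ (q : K) (d : ℕ ⊕ ℕ →₀ ℕ) (w : ℕ ⊕ ℕ) :
    ((d + Finsupp.single w 1).prod fun v n => wt q v ^ n) =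
      (d.prod fun v n => wt q v ^ n) * wt q w := by
  rw [Finsupp.prod_add_index' (fun _ => pow_zero _) fun _ _ _ => pow_add _ _ _]
  simp

variable {s : K}

lemma wt_cone (v : ℕ ⊕ ℕ) : wt (1 + s) v ∈ cone s := by
  cases v with
  | inl k => exact qi_cone s _
  | inr k => exact one_mem _

lemma sg_PC {f : AA K} (hf : f ∈ PC (cone s)) : sg (1 + s) f ∈ PC (cone s) :=
  hom_PC _ (fun v => by rw [sg, aeval_X]; exact mul_mem (C_PC (wt_cone v)) (X_PC v)) hf

lemma sg_der (q : K) (j : ℕ) (f : AA K) :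
    sg q (pderiv (Sum.inr j) f) = pderiv (Sum.inr j) (sg q f) := by
  ext d
  rw [coeff_sg, coeff_pderiv, coeff_pderiv, coeff_sg, mul_assoc, wt_succ]
  simp [wt]

variable [CharZero K]

lemma sg_of_deriv {f : AA K} (h0 : ∀ d : ℕ ⊕ ℕ →₀ ℕ, (∀ j, d (Sum.inl j) = 0) → coeff d f = 0)
    (h : ∀ j, C (qi (1 + s) (j + 1)) * pderiv (Sum.inl j) f ∈ PC (cone s)) :
    sg (1 + s) f ∈ PC (cone s) := by
  classical
  intro d
  rw [coeff_sg]
  by_cases hd : ∀ j, d (Sum.inl j) = 0
  · rw [h0 d hd, mul_zero]; exact zero_mem _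
  obtain ⟨j, hj⟩ := not_forall.1 hd
  obtain ⟨e, rfl⟩ : ∃ e, d = e + Finsupp.single (Sum.inl j) 1 :=
    ⟨d - Finsupp.single (Sum.inl j) 1, (tsub_add_cancel_of_le (by
      rw [Finsupp.single_le_iff]; exact Nat.pos_of_ne_zero hj)).symm⟩
  have h4 := mul_mem (h j e) (inv_nat_cone s (e (Sum.inl j) + 1))
  have h7 : ((e (Sum.inl j) : K) + 1) ≠ 0 := by exact_mod_cast (e (Sum.inl j)).succ_ne_zero
  rw [coeff_C_mul, coeff_pderiv, Nat.cast_succ, mul_assoc, mul_assoc, mul_inv_cancel₀ h7,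
    mul_one] at h4
  rw [wt_succ, mul_assoc]
  exact mul_mem (prod_mem fun v _ => pow_mem (wt_cone v) _) h4

omit [CharZero K] in
lemma th_const (k m l : ℕ) : constantCoeff (th s (k + 1) m l) = 0 := by
  have : th s (k + 1) = AO s (th s k) := Function.iterate_succ_apply' _ _ _
  rw [this, AO]
  simp only [map_sum]
  refine sum_eq_zero fun p _ => sum_eq_zero fun r _ => ?_
  obtain ⟨n, hn⟩ := Sh_bound (X80.cc s) (th s k p.2 r.2)
  rw [X80.JH_sum s _ _ n hn, map_sum]
  refine sum_eq_zero fun i _ => ?_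
  rw [ep, ex_succ', map_mul, map_mul, smul_eq_C_mul, map_mul, map_sum]
  simp

lemma sg_th (hs : Gen s) (k m l : ℕ) : C (qi (1 + s) (k + 1))⁻¹ *
    sg (1 + s) (rename Sum.inl (th s (k + 1) m l)) ∈ PC (cone s) := by
  have := sg_of_deriv (s := s)
    (f := C (qi (1 + s) (k + 1))⁻¹ * rename Sum.inl (th s (k + 1) m l)) (fun d hd => ?_)
    fun j => ?_
  · rwa [map_mul, algHom_C, algebraMap_eq] at this
  · rw [coeff_C_mul, coeff_rename_eq_zero _ _ _ fun u hu => ?_, mul_zero]
    have : u = 0 := Finsupp.ext fun j => by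
      rw [← Finsupp.mapDomain_apply Sum.inl_injective, hu, hd, Finsupp.zero_apply]
    rw [this]
    exact th_const k m l
  · obtain ⟨p, hp, e⟩ := der_th hs k m l j
    have e := congrArg (rename (R := K) (Sum.inl : ℕ → ℕ ⊕ ℕ)) e
    rw [map_mul, map_mul, rename_C, rename_C] at e
    rw [pderiv_C_mul, pderiv_rename Sum.inl_injective, mul_left_comm, e, ← mul_assoc, ← C_mul,
      inv_mul_cancel₀ (hs.qi_ne k.succ_pos), C_1, one_mul]
    exact rename_PC _ hp

lemma sg_Cu (hs : Gen s) (a b : ℕ) : sg (1 + s) (Cu (1 + s) a b) ∈ PC (cone s) := by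
  rw [CU71.Cu_eq (st_FI2 st_FI1) (st_TH1 st_EP (st_JI st_EP)) hs, map_sum]
  refine sum_mem fun k _ => ?_
  rw [CU71.conv_EE, mul_sum, map_sum]
  refine sum_mem fun p _ => ?_
  rw [mul_sum, map_sum]
  refine sum_mem fun r _ => ?_
  rw [mul_assoc, ← mul_assoc (C _), map_mul, map_mul, algHom_C, algebraMap_eq]
  exact mul_mem (sg_th hs k _ _) (sg_PC (mul_mem
    (rename_PC _ (st_TH2 (st_JI st_EP) K s hs _ _ _).1)
    (mul_mem (st_WP1 st_EP K s hs _ _ _) (st_WP1 st_EP K s hs _ _ _))))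

lemma sg_LL (hs : Gen s) (a : ℕ) :
    sg (1 + s) (PowerSeries.coeff a (X69.LL (1 + s))) ∈ PC (cone s) := by
  refine sg_of_deriv (fun d hd => ?_) fun i => ?_
  · by_contra h0
    have h1 := X69.LL_hom (1 + s) a h0
    rw [Finsupp.weight_apply, Finsupp.sum, sum_eq_zero fun v _ => by
      cases v <;> simp [POS83.ww, hd]] at h1
    exact h0 (by rw [← h1, X69.LL, PowerSeries.coeff_mk]; simp)
  · have := st_WP1 st_EP K s hs (i + 1) 0 a
    rwa [X69.wS_left hs, PowerSeries.coeff_C_mul, X69.coeff_dd] at this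

open TW123

omit [CharZero K] in
lemma sg_ev (f : AA K) : sg (1 + s) (ev s f) = ev s f := by
  refine DFunLike.congr_fun (show (sg (1 + s)).comp (ev s) = ev s from
    MvPolynomial.algHom_ext fun v => ?_) f
  cases v <;> simp [ev, sg_inr]

omit [CharZero K] in
lemma sg_nb (f : AA K) : sg (1 + s) (nb s f) = nb s (sg (1 + s) f) := by
  refine DFunLike.congr_fun (show (sg (1 + s)).comp (nb s) = (nb s).comp (sg (1 + s)) from
    MvPolynomial.algHom_ext fun v => ?_) f
  cases v <;> simp [nb, sg_inr, sg_inl, sg_ev]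

lemma hm (hs : Gen s) (m : ℕ) :
    ev s (Hh (1 + s) Sum.inl m) = C ((1 + s) ^ m.choose 2 / qf (1 + s) m) ∧
    ev s (Hh (1 + s) Sum.inr m) = Hh (1 + s) Sum.inr m ∧
    nb s (Hh (1 + s) Sum.inl m) = Hh (1 + s) Sum.inl m ∧
    nb s (Hh (1 + s) Sum.inr m) = C ((1 + s) ^ m.choose 2) * Hh (1 + s) Sum.inr m :=
  ⟨ev_inl st_EP hs m, ev_inr s m, nb_inl s m, nb_inr st_EP hs m⟩

lemma nb_PC (hs : Gen s) {f : AA K} (hf : f ∈ PC (cone s)) : nb s f ∈ PC (cone s) := by
  refine hom_PC _ (fun v => ?_) hf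
  rw [nb, aeval_X]
  cases v with
  | inl k => exact X_PC _
  | inr k => exact ev_PC s ((st_WP2 (st_WP1 st_EP) K s hs).1 _)

theorem sg_ka (hs : Gen s) (k : ℕ) : sg (1 + s) (ka (1 + s) (gl (1 + s)) k) ∈ PC (cone s) := by
  have h1 := X92.map_LG (hm hs) (k + 1)
  have h2 : ((k + 1 : ℕ) : K) ≠ 0 := Nat.cast_ne_zero.2 k.succ_ne_zero
  have h3 := hs.qi_ne k.succ_pos
  rw [X69.LG_eq, LG, Nat.add_sub_cancel, map_mul, algHom_C, algebraMap_eq] at h1
  have h4 : ka (1 + s) (gl (1 + s)) k =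
      C ((k + 1 : ℕ) : K) * nb s (PowerSeries.coeff (k + 1) (X69.LL (1 + s))) := by
    refine mul_left_cancel₀ (C_ne_zero.2 (div_ne_zero h3 h2)) ?_
    rw [← h1, ← mul_assoc, ← C_mul, div_mul_cancel₀ _ h2]
  rw [h4, map_mul, algHom_C, algebraMap_eq, sg_nb]
  exact mul_mem (C_PC (natCast_mem _ _)) (nb_PC hs (sg_LL hs _))

open X92 in
theorem sg_Ct (hs : Gen s) (a b : ℕ) : sg (1 + s) (Ct (1 + s) a b) ∈ PC (cone s) := by
  have hm := hm hs
  have hW1 := st_WP1 st_EP
  have hCU := st_CU (st_FI2 st_FI1) (st_TH1 st_EP (st_JI st_EP)) (st_TH2 (st_JI st_EP)) hW1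
    (st_WP2 hW1) K s hs
  have h1 : Ct (1 + s) a b = nb s (Cu (1 + s) a b) + ∑ i ∈ range (a + 1),
      nb s (PowerSeries.coeff a (wS (1 + s) 0 i)) * ∑ j ∈ range (b + 1),
        nb s (PowerSeries.coeff b (wS (1 + s) 0 j)) * ev s (Cu (1 + s) i j) := by
    rw [sum_w hm]
    simp only [sum_w hm]
    rw [Cu, map_conv2, map_MI hm, ← Cu]
    simp only [Ct, conv2, Bt_eq hs hm st_IQ, mul_add, sum_add_distrib, ev_Bu hs hm, mul_sum]
    refine congrArg _ (sum_congr rfl fun p _ => ?_)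
    rw [sum_comm]
    refine sum_congr rfl fun r _ => sum_congr rfl fun p' _ => sum_congr rfl fun r' _ => ?_
    ring
  rw [h1, map_add, map_sum]
  refine add_mem (by rw [sg_nb]; exact nb_PC hs (sg_Cu hs a b)) (sum_mem fun i _ => ?_)
  rw [map_mul, map_sum, mul_sum]
  refine sum_mem fun j _ => ?_
  rw [map_mul, sg_ev, sg_nb, sg_nb]
  rcases i with _ | i
  · rw [CU71.Cu_eq (st_FI2 st_FI1) (st_TH1 st_EP (st_JI st_EP)) hs]
    simp
  have h2 := ev_PC s (hCU (i + 1) j)
  rw [map_mul, algHom_C, algebraMap_eq] at h2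
  have h3 := mul_mem (mul_mem (nb_PC hs (pderiv_PC (Sum.inr i) (sg_LL hs a)))
    (nb_PC hs (sg_PC (hW1 K s hs 0 j b)))) h2
  rw [X69.wS_right hs, PowerSeries.coeff_C_mul, X69.coeff_dd, map_mul, algHom_C,
    algebraMap_eq, map_mul, algHom_C, algebraMap_eq, sg_der]
  rwa [mul_comm (nb s _ * _), mul_mul_mul_comm, mul_comm (ev s _)] at h3

end rot

end R62

theorem st_ROT : St_ROT := fun _ _ _ s hs =>
  ⟨R62.sg (1 + s), fun k => ⟨R62.sg_inl _ k, R62.sg_inr _ k⟩, R62.sg_ka hs, R62.sg_Ct hs⟩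

theorem mainr : St_MAINr :=
  have h := st_A4 st_A2 (st_A3a st_SO) st_A3b st_CC
  st_MAINr (st_FC st_SO (st_B1 st_SO st_B0) h (st_W h) st_CC) st_CC st_ROT

end MJS
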