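import Pool.Agent.Lib.MP_9c49f6_co.Six

/-! The input of the two-variable operator and its positivity. -/

namespace MJ
namespace Two22
open Finset MvPolynomial One22

variable {F : Type} [Field F] {q t : F}

lemma DD_X (c : ℤ) (j : ℕ) (f : Lam F) :
    DD q t c (X j * f) = X j * DD q t c f + cS q t j • DD q t (c + (j+1)) f := by
  rw [DD_apply, map_mul, Phi_X, add_mul, map_add, LL_C_mul, mul_assoc, LL_C_mul, LL_X_pow_mul,
    smul_eq_C_mul]
  rfl

lemma nn_X (c b : ℤ) (j : ℕ) (f : Lam F) : nn q t c b (X j * f) = X j * nn q t c b f +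
    cS q t j • (nn q t (c + (j+1)) b f + nn q t c (b + (j+1)) f) := by
  simp only [nn, LinearMap.comp_apply, AlgHom.toLinearMap_apply]
  rw [map_mul, Phi_X]
  generalize Phi (cS q t) f = P
  induction P using poly_ind with
  | hadd p r hp hr => simp only [mul_add, map_add, hp, hr]; module
  | hm n a =>
    rw [add_mul, mul_assoc, Polynomial.X_pow_mul_monomial, Polynomial.C_mul_monomial,
      Polynomial.C_mul_monomial, map_add]
    simp only [Polynomial.lsum_apply, LinearMap.comp_apply, LinearMap.mulLeft_apply, map_zero,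
      Polynomial.sum_monomial_index, DD_X, ← smul_eq_C_mul, map_smul, mul_zero]
    rw [show b + ((n + (j+1) : ℕ) : ℤ) = b + (j+1) + n by push_cast; ring]
    simp only [smul_eq_C_mul]; ring

lemma PP_X (c d : ℤ) (j : ℕ) (f : Lam F) : PP q t c d (X j * f) = X j * PP q t c d f +
    cS q t j • (PP q t (c + (j+1)) d f + PP q t c (d + (j+1)) f) := by
  have h1 : ∀ v : St F, psi q t c (Finsupp.mapRange.linearMap (LinearMap.mulLeft F (X j)) v) =
      X j * psi q t c v + cS q t j • psi q t (c + (j+1)) v := by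
    intro v
    induction v using st_ind with
    | h0 => simp
    | hadd v w hv hw => simp only [map_add, hv, hw, mul_add]; module
    | hs s f =>
      rw [Finsupp.mapRange.linearMap_apply, Finsupp.mapRange_single, psi_single, psi_single,
        psi_single, LinearMap.mulLeft_apply, DD_X, add_assoc]
  have h2 : ee q t d (X j * f) = Finsupp.mapRange.linearMap (LinearMap.mulLeft F (X j))
      (ee q t d f) + cS q t j • ee q t (d + (j+1)) f := by
    ext i : 1
    simp only [ee_apply, DD_X, Finsupp.add_apply, Finsupp.smul_apply, add_sub_right_comm,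
      Finsupp.mapRange.linearMap_apply, Finsupp.mapRange_apply, LinearMap.mulLeft_apply,
      mul_smul_comm]
    module
  simp only [PP, LinearMap.comp_apply, h2, map_add, map_smul, h1]
  module

namespace Rt
variable (R : Rt q t)

noncomputable def Sy (A B : ℤ) (f : Lam F) : Lam F := R.σ⁻¹ • (R.Lh A B f + R.Lh B A f)

noncomputable def RR (c b : ℤ) (f : Lam F) : Lam F :=
  R.σ⁻¹ • (R.Lh (b+1) (c-1) f - nn q t (c-1) (b+1) f)

def ev (r : ℕ) : F := R.σ * ∑ i ∈ range r, R.s' ^ (2 * i)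

lemma Sy_symm (A B : ℤ) (f : Lam F) : R.Sy A B f = R.Sy B A f := by rw [Sy, Sy, add_comm]

lemma Sy_X (A B : ℤ) (j : ℕ) (a : F) (f : Lam F) : R.Sy A B (a • (X j * f)) =
    (a • X j) * R.Sy A B f + (a * cS q t j) • (R.Sy (A + (j+1)) B f + R.Sy A (B + (j+1)) f) := by
  simp only [Sy, Lh, map_smul, LinearMap.sub_apply, LinearMap.smul_apply, PP_X, add_right_comm,
    add_sub_right_comm, mul_smul_comm, smul_mul_assoc, mul_add, mul_sub]
  module

lemma Sy_eq (A B : ℤ) (f : Lam F) : R.Sy A B f =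
    (2 * R.σ⁻¹) • nn q t B A f + R.RR (B+1) (A-1) f + R.RR (A+1) (B-1) f := by
  simp only [Sy, RR, sub_add_cancel, add_sub_cancel_right, nn_symm q t A B]
  module

lemma ev_mul (r : ℕ) : (1 + R.s') * R.ev r = R.s' ^ (2 * r) - 1 := by
  induction r with
  | zero => simp [ev]
  | succ r ih =>
    simp only [ev, sum_range_succ, σ] at ih ⊢
    linear_combination ih

variable [CharZero F]

lemma Lh_zero {A : ℤ} (B : ℤ) {k : ℤ} {f : Lam F} (hf : f ∈ Hm F k) (h : A < -k) :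
    R.Lh A B f = 0 := by
  have h1 : ∀ d < -k, ee q t d f = 0 := fun d hd => by
    ext s : 1; exact HS_bound (ee_HS d hf) (by omega)
  simp [Lh, PP, h1 A h, h1 (A-1) (by omega)]

lemma RR_rec (hi : Indep q t) (c b : ℤ) (f : Lam F) :
    R.RR c b f = nn q t c b f + R.s' • R.RR (c+1) (b-1) f := by
  have h := R.Lh_step hi.t_ne b (c-1) f
  have h1 := inv_mul_cancel₀ (R.σ_ne hi)
  have h2 : R.σ = R.s' - 1 := rfl
  simp only [RR, sub_add_cancel, add_sub_cancel_right] at h ⊢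
  linear_combination (norm := module) R.σ⁻¹ • h + (h1 - R.σ⁻¹ * h2) • nn q t c b f

lemma RR_split (hi : Indep q t) (f : Lam F) (J : ℕ) : ∀ c b : ℤ, R.RR c b f =
    ∑ k ∈ range J, R.s' ^ k • nn q t (c + k) (b - k) f + R.s' ^ J • R.RR (c + J) (b - J) f := by
  induction J with
  | zero => simp
  | succ J ih =>
    intro c b
    rw [ih, R.RR_rec hi, sum_range_succ]
    push_cast
    rw [add_assoc c, sub_sub b]; module

end Rt

variable [CharZero F] {D : PosData q t 0} (K : Cn D) {s : ℕ → F}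

lemma GC_X (j : ℕ) {k A : ℤ} {f : Lam F} (h : f ∈ (GC D s k).S A) :
    (s j • X j) * f ∈ (GC D s (k + (j+1))).S A :=
  ⟨add_comm k _ ▸ Hm_mul (Submodule.smul_mem _ _ (X_mem_Hm j)) h.1, by
    rw [← mul_smul_comm]; exact mul_mem (CC_X D j) h.2⟩

omit [CharZero F] in
lemma PF_u {u : F} (hu : u ∈ D.P) (j : ℕ) : PF D (0 + (j+1 : ℕ)) (u * t⁻¹ ^ (j+1)) :=
  PF_mul D (PF_of D hu le_rfl) (PF_pow D (by simpa using PF_div D (one_mem _)) _)

variable (hi : Indep q t) (hu : ∀ k, ∃ u ∈ D.P, (q ^ (k+1) - 1) * s k = D.g * K.κ * u)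
  (hv : ∀ k, ∃ v ∈ D.P, br t k = v * s k)
include hi hu hv

lemma nn_CC (d : ℕ →₀ ℕ) : ∀ c b : ℤ,
    nn q t c b (monomial d (pw s d)) ∈ (GC D s (wt d + c + b)).S (wt d) ∧
    (c < 0 → (D.g * K.κ)⁻¹ • nn q t c b (monomial d (pw s d)) ∈
      (GC D s (wt d + c + b)).S (wt d)) := by
  induction d using fs_ind with
  | h0 =>
    intro c b
    have e : nn q t c b (1 : Lam F) = gg t b * gg t c := by
      have h1 : DD q t c 1 = gg t c := by simpa using DD_C q t c 1
      rw [nn_eq_sum q t c b 1 1 fun s hs => Sh_eq_zero_of_Hm _ one_mem_Hm (by omega)]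
      simp [h1]
    rw [pw_zero, monomial_zero', C_1, e]
    refine ⟨⟨?_, ?_⟩, fun h => by rw [gg_neg t h, mul_zero, smul_zero]; exact zero_mem _⟩
    · simpa [wt, add_comm] using Hm_mul (gg_Hm t b) (gg_Hm t c)
    · simpa [wt] using PL_CC D hv (mul_mem (D.gg_div b).1 (D.gg_div c).1)
  | hs d j ih =>
    intro c b
    obtain ⟨u, h1, h2⟩ := hu j
    have h3 : s j * cS q t j = D.g * K.κ * (u * t⁻¹ ^ (j+1)) := by
      rw [cS]; linear_combination t⁻¹ ^ (j+1) * h2
    have h4 := (ih (c + (j+1)) b).1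
    have h5 := (ih c (b + (j+1))).1
    have h6 := GC_X j (ih c b).1
    rw [show (wt d : ℤ) + (c + (j+1)) + b = wt d + c + b + (j+1) by ring] at h4
    rw [← add_assoc] at h5
    have h7 := (GC D s _).smul (PF_u h1 j) (add_mem h4 h5)
    have h8 := mul_ne_zero D.g0 (K.κ_ne hi)
    rw [mono_succ', map_smul, nn_X, smul_add, smul_smul, h3, mul_smul, ← smul_mul_assoc, wt_add,
      wt_single, show ((wt d + (j+1) : ℕ) : ℤ) + c + b = wt d + c + b + (j+1) by push_cast; ring]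
    refine ⟨add_mem ((GC D s _).mono (by omega) h6) ((GC D s _).smul'
      (PF_of D (mul_mem D.hg K.hκ) le_rfl) h7 (by omega)), fun h => ?_⟩
    rw [smul_add, inv_smul_smul₀ h8, ← mul_smul_comm]
    exact add_mem ((GC D s _).mono (by omega) (GC_X j ((ih c b).2 h)))
      ((GC D s _).mono (by omega) h7)

lemma RR_inp (d : ℕ →₀ ℕ) (n : ℕ) : ∀ c b B : ℤ, b + wt d + 1 < n → 2 * wt d + b ≤ B →
    Pos (GC D s (wt d + c + b)) K.lam (-1) (B + 1) fun R => R.RR c b (monomial d (pw s d)) := by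
  have hf := monomial_mem_Hm d (pw s d)
  induction n with
  | zero =>
    intro c b B h1 _
    exact Pos.zero.congr fun R => by
      rw [Rt.RR, R.Lh_zero _ hf (by omega), nn_zero hf (by omega)]; simp
  | succ n ih =>
    intro c b B h1 h2
    have h3 := inp_s K hi (ih (c+1) (b-1) (B-1) (by omega) (by omega))
    rw [show (wt d : ℤ) + (c + 1) + (b - 1) = wt d + c + b by ring] at h3
    refine ((Pos.const ?_).add (h3.mono (by omega))).congr fun R => R.RR_rec hi _ _ _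
    rcases lt_or_ge b (-wt d) with h | h
    · rw [nn_zero hf h]; exact zero_mem _
    · exact (GC D s _).mono (by omega) (nn_CC K hi hu hv d c b).1

lemma RR_inp' (d : ℕ →₀ ℕ) {c b B k : ℤ} (h : 2 * wt d + b + 1 ≤ B) (hk : k = wt d + c + b) :
    Pos (GC D s k) K.lam (-1) B fun R => R.RR c b (monomial d (pw s d)) :=
  hk ▸ (RR_inp K hi hu hv d (b + wt d + 2).toNat c b _ (by omega) le_rfl).mono h

lemma nn_inp (d : ℕ →₀ ℕ) {c : ℤ} (hc : c < 0) (b : ℤ) :
    Pos (GC D s (wt d + c + b)) K.lam (-1) (wt d)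
      fun R => R.σ⁻¹ • nn q t c b (monomial d (pw s d)) :=
  ⟨_, (nn_CC K hi hu hv d c b).2 hc, 0, zero_mem _, fun R => by
    rw [add_zero, smul_smul, Cn.lam, div_mul_eq_mul_div, mul_inv_cancel₀
      (mul_ne_zero D.g0 (K.κ_ne hi)), one_div]⟩

lemma Sy_inp (d : ℕ →₀ ℕ) {C B : ℤ} (hB : B < 0) {J : ℕ} (hC : C ≤ J) :
    Pos (GC D s (wt d + B + C)) K.lam (-1) (2 * wt d + J)
      fun R => R.Sy C B (monomial d (pw s d)) := by
  have h1 := (nn_inp K hi hu hv d hB C).mono (show (wt d : ℤ) ≤ 2 * wt d + J by omega)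
  refine (((h1.add h1).add (RR_inp' K hi hu hv d (c := B+1) (b := C-1) (by omega) (by ring))).add
    (RR_inp' K hi hu hv d (c := C+1) (b := B-1) (by omega) (by ring))).congr fun R => ?_
  rw [R.Sy_eq, two_mul, add_smul]

omit hu hv in
lemma inp_ev {M : Type} [AddCommGroup M] [Module F M] {G : Gr D M} {A : ℤ} {v : Rt q t → M}
    (h : Pos G K.lam (-1) A v) (r : ℕ) :
    Pos G K.lam (-1) (A + 2 * r - 1) fun R => R.ev r • v R := by
  induction r with
  | zero => exact Pos.zero.congr fun R => by simp [Rt.ev]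
  | succ r ih =>
    refine ((ih.mono (by omega)).add ((inp_σ K hi (inp_pow K hi (2 * r) h)).mono
      (by omega))).congr fun R => ?_
    simp only [Rt.ev, sum_range_succ]; module

omit hi hu hv in
/-- divisible by `1 + s'` -/
def Od (G : Gr D (Lam F)) (A : ℤ) (v : Rt q t → Lam F) : Prop :=
  ∃ w, Pos G K.lam (-1) A w ∧ ∀ R, v R = (1 + R.s') • w R

section od
omit hu hv
variable {G : Gr D (Lam F)} {A B : ℤ} {v w : Rt q t → Lam F}

omit hi [CharZero F] in
lemma Od.add (h : Od K G A v) (h' : Od K G A w) : Od K G A fun R => v R + w R := by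
  obtain ⟨x, hx, h⟩ := h
  obtain ⟨y, hy, h'⟩ := h'
  exact ⟨_, hx.add hy, fun R => by simp only [h, h', smul_add]⟩

omit hi [CharZero F] in
lemma Od.sum {n : ℕ} {v : ℕ → Rt q t → Lam F} (h : ∀ i < n, Od K G A (v i)) :
    Od K G A fun R => ∑ i ∈ range n, v i R := by
  induction n with
  | zero => exact ⟨_, Pos.zero, by simp⟩
  | succ n ih => simpa only [sum_range_succ] using (ih fun i hi => h i (by omega)).add K (h n (by omega))

lemma od_alt (h : Pos G K.lam (-1) A v) (a r : ℕ) (hB : A + a + 2 * r ≤ B) :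
    Od K G B fun R => (R.s' ^ a + R.s' ^ (a + 2 * r + 1)) • v R := by
  have h1 := inp_pow K hi a h
  refine ⟨_, (h1.mono (by omega)).add ((inp_s K hi (inp_ev K hi h1 r)).mono (by omega)),
    fun R => ?_⟩
  linear_combination (norm := module) (-(R.s' ^ a * R.s') * R.ev_mul r) • v R

lemma od_pair (h : Pos G K.lam (-1) A v) {a b r : ℕ} (hr : a + b + 1 = 2 * r)
    (hB : A + 2 * r - 2 ≤ B) : Od K G B fun R => (R.s' ^ a + R.s' ^ b) • v R := by
  rcases lt_or_ge a b with h1 | h1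
  · obtain ⟨u, rfl⟩ : ∃ u, b = a + 2 * u + 1 := ⟨(b - a) / 2, by omega⟩
    exact od_alt K hi h a u (by omega)
  · obtain ⟨u, rfl⟩ : ∃ u, a = b + 2 * u + 1 := ⟨(a - b) / 2, by omega⟩
    simpa only [add_comm (_ ^ b)] using od_alt K hi h b u (B := B) (by omega)

end od

lemma od_end (d : ℕ →₀ ℕ) {c : ℤ} (hc : c < 0) (b : ℤ) (r : ℕ) :
    Od K (GC D s (wt d + c + b)) (2 * wt d + 2 * r - 1)
      fun R => (2 * R.σ⁻¹ + R.s' ^ (2 * r)) • nn q t c b (monomial d (pw s d)) := by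
  rcases Nat.eq_zero_or_pos (wt d) with h | h
  · refine ⟨_, Pos.zero, fun R => ?_⟩
    rw [nn_symm, nn_zero (monomial_mem_Hm d _) (by omega)]; simp
  have h1 : Pos (GC D s (wt d + c + b)) K.lam (-1) (wt d + 1)
      fun _ => nn q t c b (monomial d (pw s d)) :=
    Pos.const (by simpa using (nn_CC K hi hu hv d c b).1)
  refine ⟨_, ((nn_inp K hi hu hv d hc b).mono (by omega)).add
    ((inp_ev K hi h1 r).mono (by omega)), fun R => ?_⟩
  have h2 := inv_mul_cancel₀ (R.σ_ne hi)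
  have h3 : R.σ = R.s' - 1 := rfl
  linear_combination (norm := module)
    (-R.ev_mul r - h2 + R.σ⁻¹ * h3) • nn q t c b (monomial d (pw s d))

lemma od_Sy (d : ℕ →₀ ℕ) {A B : ℤ} (hA : A < 0) (hB : B < 0) (r : ℕ) :
    Od K (GC D s (wt d + B + (A + (2 * r + 1)))) (2 * wt d + 2 * r - 1) fun R =>
      R.Sy (A + (2 * r + 1)) B (monomial d (pw s d)) +
        R.Sy A (B + (2 * r + 1)) (monomial d (pw s d)) := by
  have h1 := od_end K hi hu hv d hB (A + (2 * r + 1)) r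
  have h2 := od_end K hi hu hv d hA (B + (2 * r + 1)) r
  rw [show (wt d : ℤ) + A + (B + (2 * r + 1)) = wt d + B + (A + (2 * r + 1)) by ring] at h2
  have h3 := od_alt K hi (RR_inp' K hi hu hv d (c := B + (2 * r + 1) + 1) (b := A - 1)
    (k := wt d + B + (A + (2 * r + 1))) le_rfl (by ring)) 0 r
    (B := 2 * wt d + 2 * r - 1) (by omega)
  have h4 := od_alt K hi (RR_inp' K hi hu hv d (c := A + (2 * r + 1) + 1) (b := B - 1)
    (k := wt d + B + (A + (2 * r + 1))) le_rfl (by ring)) 0 r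
    (B := 2 * wt d + 2 * r - 1) (by omega)
  have h5 : Od K (GC D s (wt d + B + (A + (2 * r + 1)))) (2 * wt d + 2 * r - 1) fun R =>
      ∑ k ∈ range (2 * r), (R.s' ^ k + R.s' ^ (2 * r - 1 - k)) •
        nn q t (B + 1 + k) (A + 2 * r - k) (monomial d (pw s d)) := by
    refine Od.sum K fun k hk => od_pair K hi (A := wt d + 1) (Pos.const ?_) (r := r) (by omega)
      (by omega)
    have := (nn_CC K hi hu hv d (B + 1 + k) (A + 2 * r - k)).1
    rw [show (wt d : ℤ) + (B + 1 + k) + (A + 2 * r - k) = wt d + B + (A + (2 * r + 1)) by ring]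
      at this
    simpa using this
  obtain ⟨w, hw, h⟩ := (((h1.add K h2).add K h3).add K h4).add K h5
  refine ⟨w, hw, fun R => ?_⟩
  rw [← h]
  generalize (monomial d (pw s d) : Lam F) = f
  have e1 := R.RR_split hi f (2 * r + 1) (B + 1) (A + (2 * r + 1) - 1)
  have e2 := R.RR_split hi f (2 * r + 1) (A + 1) (B + (2 * r + 1) - 1)
  rw [sum_range_succ] at e1 e2
  rw [← sum_range_reflect] at e2
  have e3 : ∑ k ∈ range (2 * r), (R.s' ^ k + R.s' ^ (2 * r - 1 - k)) •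
      nn q t (B + 1 + k) (A + 2 * r - k) f =
      ∑ k ∈ range (2 * r), R.s' ^ k • nn q t (B + 1 + k) (A + (2 * r + 1) - 1 - k) f +
      ∑ k ∈ range (2 * r), R.s' ^ (2 * r - 1 - k) • nn q t (A + 1 + (2 * r - 1 - k : ℕ))
        (B + (2 * r + 1) - 1 - (2 * r - 1 - k : ℕ)) f := by
    rw [← sum_add_distrib]
    refine sum_congr rfl fun k hk => ?_
    have hk' := mem_range.mp hk
    rw [nn_symm q t (A + 1 + _), show A + 1 + (2 * r - 1 - k : ℕ) = A + 2 * r - k by omega,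
      show B + (2 * r + 1) - 1 - (2 * r - 1 - k : ℕ) = B + 1 + k by omega,
      show A + (2 * r + 1) - 1 - k = A + 2 * r - k by ring, add_smul]
  push_cast at e1 e2
  rw [show B + 1 + 2 * r = B + (2 * r + 1) by ring, show A + (2 * r + 1) - 1 - 2 * r = A by ring,
    show B + 1 + (2 * r + 1) = B + (2 * r + 1) + 1 by ring,
    show A + (2 * r + 1) - 1 - (2 * r + 1) = A - 1 by ring] at e1
  rw [show A + 1 + 2 * r = A + (2 * r + 1) by ring, show B + (2 * r + 1) - 1 - 2 * r = B by ring,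
    show A + 1 + (2 * r + 1) = A + (2 * r + 1) + 1 by ring,
    show B + (2 * r + 1) - 1 - (2 * r + 1) = B - 1 by ring] at e2
  simp only [R.Sy_eq, e3, nn_symm q t A, nn_symm q t (A + (2 * r + 1))] at e2 ⊢
  linear_combination (norm := module) e1 + e2

variable {β : F} (hβ : ∀ r, ∃ u ∈ D.P, (q ^ (2 * r + 1 + 1) - 1) * s (2 * r + 1) =
  D.g * K.κ * (β * u))
include hβ

lemma input_split {n : ℕ} {A B : ℤ} (hA : A < 0) (hB : B < 0) (d : ℕ →₀ ℕ) : wt d ≤ n →
    ∃ v w, Pos (GC D s (wt d + A + B)) K.lam (-1) (2 * n - 1) v ∧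
      Pos (GC D s (wt d + A + B)) K.lam (-1) (2 * n - 2) w ∧
      ∀ R, (D.g * K.κ)⁻¹ • R.Sy A B (monomial d (pw s d)) = β • v R + (1 + R.s') • w R := by
  have h0 := mul_ne_zero D.g0 (K.κ_ne hi)
  induction d using fs_ind with
  | h0 =>
    refine fun _ => ⟨_, _, Pos.zero, Pos.zero, fun R => ?_⟩
    have hf := monomial_mem_Hm 0 (pw s 0)
    rw [Rt.Sy, R.Lh_zero _ hf (by simpa [wt] using hA), R.Lh_zero _ hf (by simpa [wt] using hB)]
    simp
  | hs d j ih =>
    intro hn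
    rw [wt_add, wt_single] at hn
    obtain ⟨v, w, h1, h2, h3⟩ := ih (by omega)
    have h4 := h1.map (G' := GC D s (wt d + A + B + (j+1))) (LinearMap.mulLeft F (s j • X j))
      (c := 0) fun _ _ hx => by simpa using GC_X j hx
    have h5 := h2.map (G' := GC D s (wt d + A + B + (j+1))) (LinearMap.mulLeft F (s j • X j))
      (c := 0) fun _ _ hx => by simpa using GC_X j hx
    have e : ∀ u, (q ^ (j+1) - 1) * s j = D.g * K.κ * u → ∀ R : Rt q t,
        (D.g * K.κ)⁻¹ • R.Sy A B (s j • (X j * monomial d (pw s d))) =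
        β • (s j • X j) * v R + (1 + R.s') • (s j • X j) * w R + (u * t⁻¹ ^ (j+1)) •
          (R.Sy (A + (j+1)) B (monomial d (pw s d)) +
            R.Sy A (B + (j+1)) (monomial d (pw s d))) := by
      intro u h R
      have : (D.g * K.κ)⁻¹ * (s j * cS q t j) = u * t⁻¹ ^ (j+1) := by
        rw [cS, inv_mul_eq_iff_eq_mul₀ h0]; linear_combination t⁻¹ ^ (j+1) * h
      rw [R.Sy_X, smul_add, smul_smul _ (s j * _), this, ← mul_smul_comm, h3, mul_add,
        mul_smul_comm, mul_smul_comm, smul_mul_assoc β, smul_mul_assoc (1 + R.s')]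
    rw [mono_succ', wt_add, wt_single,
      show ((wt d + (j+1) : ℕ) : ℤ) + A + B = wt d + A + B + (j+1) by push_cast; ring]
    rcases Nat.even_or_odd' j with ⟨r, rfl | rfl⟩
    · obtain ⟨u, g1, g2⟩ := hu (2 * r)
      obtain ⟨z, g3, g4⟩ := od_Sy K hi hu hv d hA hB r
      rw [show (wt d : ℤ) + B + (A + (2 * r + 1)) = wt d + A + B + ((2 * r : ℕ) + 1) by
        push_cast; ring] at g3
      refine ⟨_, _, h4.mono (by omega), (h5.mono (by omega)).add
        ((g3.smul (PF_u g1 (2 * r))).mono (by omega)), fun R => ?_⟩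
      have g5 := g4 R
      rw [e u g2]
      push_cast
      simp only [LinearMap.mulLeft_apply, smul_mul_assoc] at g5 ⊢
      rw [g5]; module
    · obtain ⟨u, g1, g2⟩ := hβ r
      have g3 := Sy_inp K hi hu hv d hB (C := A + ((2 * r + 1 : ℕ) + 1)) (J := 2 * r + 1) (by omega)
      have g4 := Sy_inp K hi hu hv d hA (C := B + ((2 * r + 1 : ℕ) + 1)) (J := 2 * r + 1) (by omega)
      rw [show (wt d : ℤ) + B + (A + ((2 * r + 1 : ℕ) + 1)) =
        wt d + A + B + ((2 * r + 1 : ℕ) + 1) by ring] at g3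
      rw [← add_assoc] at g4
      refine ⟨_, _, (h4.mono (by omega)).add (((g3.add g4).smul (PF_u g1 (2 * r + 1))).mono
        (by omega)), h5.mono (by omega), fun R => ?_⟩
      rw [e _ g2, R.Sy_symm A]
      simp only [LinearMap.mulLeft_apply, smul_mul_assoc]
      module

variable {m : ℕ} (hm : 1 ≤ m) {σ : F} (hσ : σ ∈ D.P) (hs : ∀ k, aq D.g q k * s k ∈ D.P)
  (hd : ∀ y d, wt d = m → (∀ j, d j ≠ 0 → y * (aq D.g q j * br t j) ∈ D.P) →
    σ * pw (fun k => aq D.g q k * s k) d * y ∈ D.P)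
include hm hσ hs hd

lemma OUT_split (d : ℕ →₀ ℕ) (hw : wt d = m + 2) :
    ∃ v w, Pos (GP D) K.δ 1 ((m + 2) * (m + 1) + 1) v ∧ Pos (GP D) K.δ 1 ((m + 2) * (m + 1)) w ∧
      ∀ R, (2 * σ * D.g⁻¹ * D.g⁻¹ * (D.g * K.κ)⁻¹ * R.σ⁻¹) •
        R.OUT hi D.g m (monomial d (pw s d)) = β • v R + (1 + R.s') • w R := by
  have key : ∀ (i j : ℕ) (B : ℤ) (J : Rt q t → Lam F),
      Pos (GC D s (wt d + (-1 - i) + (-1 - j))) K.lam (-1) (B + 1) J →
      Pos (GP D) K.δ 1 (m * m + m + 1 + B) fun R => (q * t⁻¹) ^ (i + j) • D.g⁻¹ • D.g⁻¹ •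
        psi q t 1 (R.Q (σ • R.Ps hi D.g m i j (J R))) := by
    intro i j B J h
    rw [show (wt d : ℤ) + (-1 - i) + (-1 - j) = m - i - j by omega] at h
    refine ((Pos_close K hi (Pos_Ps K hi hm hσ hs hd h)).smul (PF_pow D PF_ρ (i + j))).mono
      (le_of_eq ?_)
    push_cast; ring
  choose v w h1 h2 h3 using fun i j : ℕ => input_split K hi hu hv hβ (n := m + 2) (A := -1 - i)
    (B := -1 - j) (by omega) (by omega) d hw.le
  refine ⟨_, _, (Pos.sum (s := range (m+1)) fun i _ => Pos.sum (s := range (m+1)) fun j _ =>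
    key i j (2 * m + 2) _ ((h1 i j).mono (by omega))).mono (le_of_eq (by ring)),
    (Pos.sum (s := range (m+1)) fun i _ => Pos.sum (s := range (m+1)) fun j _ =>
    key i j (2 * m + 1) _ ((h2 i j).mono (by omega))).mono (le_of_eq (by ring)), fun R => ?_⟩
  have hf := monomial_mem_Hm d (pw s d)
  generalize monomial d (pw s d) = f at h3 hf
  have e1 : R.OUT hi D.g m f = ∑ i ∈ range (m+1), ∑ j ∈ range (m+1), (q * t⁻¹) ^ (i + j) •
      psi q t 1 (R.Q (R.Ps hi D.g m i j (R.Lh (-1 - i) (-1 - j) f))) := by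
    simp [Rt.OUT, LinearMap.sum_apply]
  have e2 : R.OUT hi D.g m f = ∑ i ∈ range (m+1), ∑ j ∈ range (m+1), (q * t⁻¹) ^ (i + j) •
      psi q t 1 (R.Q (R.Ps hi D.g m i j (R.Lh (-1 - j) (-1 - i) f))) := by
    rw [e1, sum_comm]
    refine sum_congr rfl fun i _ => sum_congr rfl fun j _ => ?_
    have := R.Lh_Hm (-1 - j) (-1 - i) hf
    rw [show (wt d : ℤ) + (-1 - j) + (-1 - i) = m - j - i by omega] at this
    rw [R.Ps_sym hi D.g0 hm this, add_comm]
  rw [mul_assoc, mul_assoc, mul_assoc, mul_assoc, mul_smul, two_smul, ← smul_add]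
  nth_rewrite 1 [e1]
  rw [e2]
  simp only [smul_sum, ← sum_add_distrib]
  refine sum_congr rfl fun i _ => sum_congr rfl fun j _ => ?_
  have h4 := congrArg (fun x => psi q t 1 (R.Q (R.Ps hi D.g m i j x))) (h3 i j R)
  simp only [Rt.Sy, map_add, map_smul] at h4 ⊢
  linear_combination (norm := module) ((q * t⁻¹) ^ (i + j) * D.g⁻¹ * D.g⁻¹ * σ) • h4

theorem OUT_pos (hb : β ∈ D.P) (hb0 : β ≠ 0) {β' : F} (hb' : PF D 1 β')
    (hbb : β * β' = (1 + q) * (1 + t⁻¹)) (d e : ℕ →₀ ℕ) (hw : wt d = m + 2) {A1 A2 : F}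
    (hA : ∀ R : Rt q t, 2 * coeff e (R.OUT hi D.g m (monomial d 1)) = 2 * A1 + R.σ * (A1 + A2)) :
    t ^ ((m + 2) * (m + 1) + 2) *
      (σ * D.g⁻¹ * D.g⁻¹ * (D.g * K.κ)⁻¹ * (D.g * K.κ)⁻¹ * pw s d) * A1 ∈ D.P ∧
    t ^ ((m + 2) * (m + 1) + 2) * (σ * D.g⁻¹ * D.g⁻¹ * (D.g * K.κ)⁻¹ * β⁻¹ * pw s d) * A2 ∈ D.P := by
  obtain ⟨v, w, ⟨x, hx, y, hy, h1⟩, ⟨x', hx', y', hy', h2⟩, h3⟩ :=
    OUT_split K hi hu hv hβ hm hσ hs hd d hw
  have p2 : PF D 0 2 := PF_of D (by simp) le_rfl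
  have pk : PF D 1 (D.g * K.κ * t⁻¹) := PF_div D (mul_mem D.hg K.hκ)
  have hX : β • x + (2 + D.g * (D.g * (K.θ * K.κ * t⁻¹))) • x' + (D.g * K.θ) • y' ∈
      (GP D).S ((m + 2) * (m + 1) + 1) := add_mem (add_mem
    ((GP D).smul' (PF_of D hb le_rfl) hx (by omega)) ((GP D).smul' (PF_add D
      (PF_mono D p2 (by omega)) (PF_mul D (PF_of D D.hg le_rfl) (PF_M K))) hx' (by omega)))
    ((GP D).smul' (PF_of D (mul_mem D.hg K.hθ) le_rfl) hy' (by omega))
  have hZ : (D.g * K.κ * t⁻¹) • x + (2:F) • y + β' • ((D.g * K.κ * t⁻¹) • x' + y') ∈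
      (GP D).S ((m + 2) * (m + 1) + 2) := add_mem (add_mem
    ((GP D).smul' pk hx (by omega)) ((GP D).smul' p2 hy (by omega)))
    ((GP D).smul' hb' (add_mem ((GP D).smul pk hx') hy') (by omega))
  obtain ⟨a1, ha1, e1⟩ := D.coeff_mem hX e
  obtain ⟨a2, ha2, e2⟩ := D.coeff_mem hZ e
  have e0 : (monomial d (pw s d) : Lam F) = pw s d • monomial d 1 := by
    rw [smul_monomial, smul_eq_mul, mul_one]
  have g0 := mul_inv_cancel₀ D.g0
  have t0 := mul_inv_cancel₀ D.t0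
  have k0 := mul_inv_cancel₀ (mul_ne_zero D.g0 (K.κ_ne hi))
  have b0 := mul_inv_cancel₀ hb0
  simp only [coeff_smul, coeff_add, smul_eq_mul] at e1 e2
  set E := σ * D.g⁻¹ * D.g⁻¹ * (D.g * K.κ)⁻¹ * pw s d with hE
  have key : ∀ R : Rt q t, K.δ R * (2 * E * t * (D.g * K.κ)⁻¹ * A1 - (β * coeff e x +
      (2 + D.g * (D.g * (K.θ * K.κ * t⁻¹))) * coeff e x' + D.g * K.θ * coeff e y')) =
      β * coeff e y + D.g * K.κ * t⁻¹ * (q * t⁻¹) * coeff e x' + (1 + q * t⁻¹) * coeff e y' -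
        E * (A2 - A1) := by
    intro R
    have h4 := congrArg (coeff e) (h3 R)
    have h5 : R.σ⁻¹ = t * K.δ R * (D.g * K.κ)⁻¹ - 1 := by
      have := K.l2 hi R
      rw [Cn.lam, div_eq_mul_inv] at this
      linear_combination (D.g * K.κ)⁻¹ * this - (R.σ⁻¹ + 1) * k0
    have h6 : R.σ * K.δ R = D.g * (D.g * (K.θ * K.κ * t⁻¹)) * K.δ R +
        D.g * K.κ * t⁻¹ * (q * t⁻¹) := by
      linear_combination D.g * K.f2 hi R - D.g * K.δ R * K.f3 R - R.σ * K.δ R * g0
    have h7 : R.σ = R.s' - 1 := rfl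
    have h8 := inv_mul_cancel₀ (R.σ_ne hi)
    rw [h1, h2, e0, map_smul] at h4
    simp only [coeff_smul, coeff_add, smul_eq_mul] at h4
    linear_combination h4 - (E * R.σ⁻¹) * hA R - (E * (A1 + A2)) * h8 - 2 * E * A1 * h5 +
      coeff e x' * (h6 - K.δ R * h7) - coeff e y' * K.δ_mul hi R
  have hδ : K.δ ⟨q, t⁻¹, rfl, rfl⟩ ≠ K.δ ⟨t⁻¹, q, mul_comm _ _, add_comm _ _⟩ := fun h => by
    have h4 := K.δ_mul hi ⟨q, t⁻¹, rfl, rfl⟩
    rw [h, K.δ_mul hi, sub_left_inj] at h4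
    simpa using hi.mono_inj (a₁ := (0, 1)) (a₂ := (1, 0)) (by simpa [mono] using h4)
  have k1 := key ⟨q, t⁻¹, rfl, rfl⟩
  have k2 := (mul_eq_mul_right_iff.mp (k1.trans (key _).symm)).resolve_left hδ
  rw [k2, mul_zero] at k1
  have hP : ∀ a ∈ D.P, a * pw (br t) e * (2:F)⁻¹ ∈ D.P := fun a ha =>
    mul_mem (mul_mem ha (pw_mem D (D.br_mem D.t_mem) e)) (by simpa using D.inv 2)
  have z1 : t ^ (((m:ℤ) + 2) * (m + 1) + 1) = t ^ ((m + 2) * (m + 1) + 1) := by norm_cast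
  have z2 : t ^ (((m:ℤ) + 2) * (m + 1) + 2) = t ^ ((m + 2) * (m + 1) + 2) := by norm_cast
  have hM := K.MM_eq
  rw [MM] at hM
  constructor
  · refine (congrArg (· ∈ D.P) ?_).mp (hP _ ha1)
    rw [← e1, z1, pow_succ t (_ + 1)]
    linear_combination (-(t ^ ((m + 2) * (m + 1) + 1)) * 2⁻¹) * k2
  · refine (congrArg (· ∈ D.P) ?_).mp (hP _ ha2)
    rw [← e2, z2]
    apply mul_left_cancel₀ hb0
    generalize t ^ ((m + 2) * (m + 1) + 2) = T
    linear_combination (-T) * k1 - (T * 2⁻¹ * D.g * K.κ * t⁻¹) * k2 +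
      (T * 2⁻¹ * (D.g * K.κ * t⁻¹ * coeff e x' + coeff e y')) * (hbb + hM) +
      (T * E * A1 * D.g * K.κ * (D.g * K.κ)⁻¹) * t0 + (T * E * A1) * k0 - (T * E * A2) * b0

end Two22
end MJ
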