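import Pool.Agent.Lib.MP_9c49f6_co.Ex

/-! Shift homomorphisms `p_k ↦ p_k + c_k x^k` on the ring of symmetric functions
(`X k` is the power sum `p_(k+1)`). -/

namespace MJ
open Finset MvPolynomial

abbrev Lam (F : Type) [Field F] := MvPolynomial ℕ F

variable {F : Type} [Field F]

noncomputable def Phi (c : ℕ → F) : Lam F →ₐ[F] Polynomial (Lam F) :=
  aeval fun k => Polynomial.C (X k) + Polynomial.C (C (c k)) * Polynomial.X ^ (k+1)

/-- integer indexed coefficient of a polynomial -/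
noncomputable def pz (j : ℤ) : Polynomial (Lam F) →ₗ[F] Lam F :=
  if 0 ≤ j then ((Polynomial.lcoeff (Lam F) j.toNat).restrictScalars F) else 0

noncomputable def Sh (c : ℕ → F) (j : ℤ) : Lam F →ₗ[F] Lam F :=
  pz j ∘ₗ (Phi c).toLinearMap

@[simp] lemma pz_nat (n : ℕ) (P : Polynomial (Lam F)) : pz n P = P.coeff n := by
  simp [pz]

lemma pz_neg {j : ℤ} (h : j < 0) (P : Polynomial (Lam F)) : pz j P = 0 := by
  simp [pz, not_le.mpr h]

lemma pz_C_mul (j : ℤ) (a : Lam F) (P : Polynomial (Lam F)) :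
    pz j (Polynomial.C a * P) = a * pz j P := by
  unfold pz; split_ifs <;> simp

lemma pz_X_pow_mul (j : ℤ) (k : ℕ) (P : Polynomial (Lam F)) :
    pz j (Polynomial.X ^ k * P) = pz (j - k) P := by
  rcases lt_or_ge j 0 with h | h
  · rw [pz_neg h, pz_neg (by omega)]
  · obtain ⟨n, rfl⟩ := Int.eq_ofNat_of_zero_le h
    rw [pz_nat, Polynomial.coeff_X_pow_mul']
    split_ifs with h1
    · have : (n : ℤ) - k = (n - k : ℕ) := by omega
      rw [this, pz_nat]
    · rw [pz_neg (by omega)]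

lemma pz_X_mul (j : ℤ) (P : Polynomial (Lam F)) :
    pz j (Polynomial.X * P) = pz (j - 1) P := by
  simpa using pz_X_pow_mul j 1 P

lemma Sh_apply (c : ℕ → F) (j : ℤ) (f : Lam F) : Sh c j f = pz j (Phi c f) := rfl

lemma Sh_nat (c : ℕ → F) (n : ℕ) (f : Lam F) : Sh c n f = (Phi c f).coeff n := by
  rw [Sh_apply, pz_nat]

lemma Sh_neg (c : ℕ → F) {j : ℤ} (h : j < 0) (f : Lam F) : Sh c j f = 0 := by
  rw [Sh_apply, pz_neg h]

lemma Phi_C (c : ℕ → F) (r : F) : Phi c (C r) = Polynomial.C (C r) := by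
  simp [Phi]

lemma Phi_X (c : ℕ → F) (k : ℕ) :
    Phi c (X k) = Polynomial.C (X k) + Polynomial.C (C (c k)) * Polynomial.X ^ (k+1) := by
  simp [Phi]

lemma Sh_C (c : ℕ → F) (j : ℤ) (r : F) : Sh c j (C r) = if j = 0 then C r else 0 := by
  rcases lt_or_ge j 0 with h | h
  · rw [Sh_neg c h, if_neg (by omega)]
  · obtain ⟨n, rfl⟩ := Int.eq_ofNat_of_zero_le h
    rw [Sh_nat, Phi_C, Polynomial.coeff_C]; simp

lemma Sh_X_mul (c : ℕ → F) (j : ℤ) (k : ℕ) (f : Lam F) :
    Sh c j (X k * f) = X k * Sh c j f + c k • Sh c (j - (k+1)) f := by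
  rw [Sh_apply, map_mul, Phi_X, add_mul, map_add, pz_C_mul, mul_assoc, pz_C_mul, pz_X_pow_mul,
    smul_eq_C_mul]
  simp [Sh_apply]

lemma lam_ind {P : Lam F → Prop} (f : Lam F) (hC : ∀ r, P (C r))
    (hadd : ∀ f g, P f → P g → P (f + g)) (hX : ∀ f k, P f → P (X k * f)) : P f := by
  induction f using MvPolynomial.induction_on with
  | C a => exact hC a
  | add p q hp hq => exact hadd _ _ hp hq
  | mul_X p n hp => rw [mul_comm]; exact hX _ _ hp

@[simp] lemma Sh_zero (c : ℕ → F) (f : Lam F) : Sh c 0 f = f := by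
  induction f using lam_ind with
  | hC r => simp [Sh_C]
  | hadd f g hf hg => simp [hf, hg]
  | hX f k hf => rw [Sh_X_mul, hf, Sh_neg c (by omega)]; simp

lemma Sh_comm (a b : ℕ → F) (f : Lam F) : ∀ i j : ℤ,
    Sh a i (Sh b j f) = Sh b j (Sh a i f) := by
  induction f using lam_ind with
  | hC r =>
    intro i j
    rw [Sh_C, Sh_C]; split_ifs <;> simp_all [Sh_C]
  | hadd f g hf hg => intro i j; simp [hf, hg]
  | hX f k hf =>
    intro i j
    simp only [Sh_X_mul, map_add, map_smul, hf]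
    module

lemma Sh_scale (z : F) (c : ℕ → F) (f : Lam F) : ∀ j : ℕ,
    Sh (fun k => z ^ (k+1) * c k) j f = z ^ j • Sh c j f := by
  induction f using lam_ind with
  | hC r => intro j; rw [Sh_C, Sh_C]; split_ifs with h
            · have : j = 0 := by omega
              subst this; simp
            · simp
  | hadd f g hf hg => intro j; simp [hf, hg]
  | hX f k hf =>
    intro j
    rw [Sh_X_mul, Sh_X_mul, hf]
    rcases lt_or_ge j (k+1) with h | h
    · have hn : (j:ℤ) - (k+1) < 0 := by omega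
      rw [Sh_neg _ hn, Sh_neg _ hn]; simp
    · obtain ⟨i, rfl⟩ := Nat.exists_eq_add_of_le h
      have : ((k + 1 + i : ℕ) : ℤ) - (k+1) = i := by omega
      rw [this, hf, smul_add, mul_smul_comm, smul_smul, smul_smul]
      congr 2; ring

lemma Sh_bound (c : ℕ → F) (f : Lam F) : ∃ n : ℕ, ∀ s : ℤ, (n:ℤ) ≤ s → Sh c s f = 0 := by
  refine ⟨(Phi c f).natDegree + 1, fun s hs => ?_⟩
  obtain ⟨m, rfl⟩ := Int.eq_ofNat_of_zero_le (show 0 ≤ s by omega)
  rw [Sh_nat]; exact Polynomial.coeff_eq_zero_of_natDegree_lt (by omega)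

lemma Phi_eq_sum (c : ℕ → F) (f : Lam F) (n : ℕ) (h : ∀ s : ℤ, (n:ℤ) ≤ s → Sh c s f = 0) :
    Phi c f = ∑ s ∈ range n, Polynomial.X ^ s * Polynomial.C (Sh c s f) := by
  ext j : 1
  rw [Polynomial.finsetSum_coeff]
  simp only [Polynomial.coeff_mul_C, Polynomial.coeff_X_pow, ite_mul, one_mul, zero_mul]
  rw [sum_ite_eq]
  split_ifs with hj
  · rw [Sh_nat]
  · rw [← Sh_nat]; apply h; simpa using hj

lemma Phi_add (a b : ℕ → F) (f : Lam F) (n : ℕ) (h : ∀ s : ℤ, (n:ℤ) ≤ s → Sh b s f = 0) :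
    Phi (fun k => a k + b k) f = ∑ s ∈ range n, Polynomial.X ^ s * Phi a (Sh b s f) := by
  let Ξ : Polynomial (Lam F) →ₐ[F] Polynomial (Lam F) :=
    Polynomial.eval₂AlgHom (Phi a) Polynomial.X (fun _ => Commute.all _ _)
  have h1 : Phi (fun k => a k + b k) = Ξ.comp (Phi b) := by
    ext k : 1
    simp [Ξ, Phi_X]; ring
  rw [h1, AlgHom.comp_apply, Phi_eq_sum b f n h, map_sum]
  refine sum_congr rfl fun s _ => ?_
  rw [mul_comm _ (Phi a _)]
  simp [Ξ]

lemma Phi_zero (f : Lam F) : Phi (fun _ => (0:F)) f = Polynomial.C f := by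
  induction f using lam_ind with
  | hC r => simp
  | hadd f g hf hg => simp [hf, hg]
  | hX f k hf => rw [map_mul, hf, Phi_X]; simp

/-- chain rule -/
lemma Sh_chain (c : ℕ → F) (n : ℕ) (f : Lam F) : ∀ j : ℤ, j ≤ n →
    (j : F) • Sh c j f =
      ∑ k ∈ range n, ((k+1 : F) * c k) • Sh c (j - (k+1)) (pderiv k f) := by
  induction f using lam_ind with
  | hC r =>
    intro j _
    rw [Sh_C]; split_ifs with h <;> simp [h]
  | hadd f g hf hg =>
    intro j hj
    simp only [map_add, smul_add, sum_add_distrib, hf j hj, hg j hj]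
  | hX f m hf =>
    intro j hj
    have h1 := hf j hj
    have h2 := hf (j - (m+1)) (by omega)
    have key : ∀ k ∈ range n, ((k+1 : F) * c k) • Sh c (j - (k+1)) (pderiv k (X m * f)) =
        (if k = m then ((m+1 : F) * c m) • Sh c (j - (m+1)) f else 0)
        + X m * (((k+1 : F) * c k) • Sh c (j - (k+1)) (pderiv k f))
        + c m • (((k+1 : F) * c k) • Sh c (j - (m+1) - (k+1)) (pderiv k f)) := by
      intro k _
      rw [pderiv_mul, pderiv_X, map_add, Sh_X_mul]
      have e : j - (k+1) - (m+1) = j - (m+1) - (k+1) := by ring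
      rw [e]
      by_cases hk : k = m
      · subst hk; simp [smul_add, add_assoc, smul_comm (c k)]
      · rw [Pi.single_eq_of_ne (Ne.symm hk), if_neg hk]
        simp [smul_add, smul_comm (c m)]
    rw [sum_congr rfl key, sum_add_distrib, sum_add_distrib, ← mul_sum, ← smul_sum, ← h1, ← h2,
      sum_ite_eq', Sh_X_mul]
    split_ifs with hm
    · push_cast; rw [mul_smul_comm]; module
    · rw [Sh_neg c (show j - (m+1) < 0 by simp at hm; omega)]; simp

lemma eq_C_of_pderiv [CharZero F] (f : Lam F) (h : ∀ k, pderiv k f = 0) :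
    f = C (constantCoeff f) := by
  ext d
  rw [coeff_C]
  split_ifs with hd
  · subst hd; rfl
  · obtain ⟨k, hk⟩ : ∃ k, d k ≠ 0 := by
      by_contra hc; push Not at hc; exact hd (by ext k; simp [hc])
    have := congrArg (coeff (d - Finsupp.single k 1)) (h k)
    rw [coeff_pderiv, coeff_zero] at this
    have e : d - Finsupp.single k 1 + Finsupp.single k 1 = d := by
      ext i; by_cases hi : i = k
      · subst hi; simp; omega
      · simp [Finsupp.single_eq_of_ne hi]
    rw [e] at this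
    rcases mul_eq_zero.mp this with h1 | h1
    · exact h1
    · exact absurd h1 (Nat.cast_add_one_ne_zero _)

/-- an element killed by all `H_j`, `j>0`, is constant -/
lemma eq_C_of_Sh [CharZero F] (f : Lam F) (h : ∀ j : ℤ, 0 < j → Sh (fun _ => (1:F)) j f = 0) :
    f = C (constantCoeff f) := by
  apply eq_C_of_pderiv
  intro k
  induction k using Nat.strong_induction_on with
  | _ k ih =>
    have h1 := Sh_chain (fun _ => (1:F)) (k+1) f (k+1 : ℕ) le_rfl
    rw [h _ (by omega), smul_zero, sum_range_succ, sum_eq_zero] at h1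
    · have e : ((k+1 : ℕ) : ℤ) - (k+1) = 0 := by omega
      rw [e, Sh_zero, zero_add, mul_one] at h1
      exact (smul_eq_zero.mp h1.symm).resolve_left (by exact_mod_cast Nat.succ_ne_zero k)
    · intro i hi
      rw [ih i (by simpa using hi)]; simp

end MJ
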