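import Pool.Agent.Lib.MP_9c49f6_co.Five

/-! Positivity cones for the two-variable states. -/

namespace MJ
namespace Two22
open Finset MvPolynomial One22

variable {F : Type} [Field F] {q t : F} (D : PosData q t 0)

def PF (k : ℤ) (a : F) : Prop := t ^ k * a ∈ D.P

lemma PF_mul {k l : ℤ} {a b : F} (ha : PF D k a) (hb : PF D l b) : PF D (k + l) (a * b) := by
  have := mul_mem ha hb
  unfold PF
  rw [zpow_add₀ D.t0]
  exact (congrArg (· ∈ D.P) (by ring)).mp this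

lemma PF_add {k : ℤ} {a b : F} (ha : PF D k a) (hb : PF D k b) : PF D k (a + b) := by
  unfold PF; rw [mul_add]; exact add_mem ha hb

lemma PF_of {a : F} (h : a ∈ D.P) {k : ℤ} (hk : 0 ≤ k) : PF D k a := by
  obtain ⟨n, rfl⟩ := Int.eq_ofNat_of_zero_le hk
  unfold PF; rw [zpow_natCast]; exact mul_mem (pow_mem D.t_mem n) h

lemma PF_mono {k l : ℤ} {a : F} (ha : PF D k a) (h : k ≤ l) : PF D l a := by
  have := PF_mul D ha (PF_of D (one_mem _) (sub_nonneg.mpr h))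
  rwa [mul_one, add_sub_cancel] at this

lemma PF_zero (k : ℤ) : PF D k 0 := by simp [PF]

lemma PF_div {a : F} (h : a ∈ D.P) : PF D 1 (a * t⁻¹) := by
  unfold PF; rw [zpow_one, mul_left_comm, mul_inv_cancel₀ D.t0, mul_one]; exact h

lemma PF_t : PF D (-1) t := by
  unfold PF; rw [zpow_neg_one, inv_mul_cancel₀ D.t0]; exact one_mem _

lemma PF_pow {a : F} (h : PF D 1 a) (n : ℕ) : PF D n (a ^ n) := by
  induction n with
  | zero => exact PF_of D (by simp) le_rfl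
  | succ n ih => rw [pow_succ]; push_cast; exact PF_mul D ih h

lemma PO_PF {k A : ℤ} {a : F} {f : Lam F} (ha : PF D k a) (hf : D.PO A f) :
    D.PO (A + k) (a • f) := by
  have := D.smul_mem ha hf
  unfold PosData.PO
  rw [smul_smul] at this ⊢
  rw [zpow_add₀ D.t0]
  exact (congrArg (fun c => c • f ∈ D.PL) (by ring)).mp this

/-- a graded cone -/
structure Gr (M : Type) [AddCommGroup M] [Module F M] where
  S : ℤ → AddSubmonoid M
  smul : ∀ {k : ℤ} {a : F} {A : ℤ} {x : M}, PF D k a → x ∈ S A → a • x ∈ S (A + k)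

section Pos
variable {D} {M M' : Type} [AddCommGroup M] [Module F M] [AddCommGroup M'] [Module F M']
  {G : Gr D M} {G' : Gr D M'}

lemma Gr.mono {A B : ℤ} (h : A ≤ B) {x : M} (hx : x ∈ G.S A) : x ∈ G.S B := by
  have := G.smul (PF_of D (one_mem _) (sub_nonneg.mpr h)) hx
  rwa [one_smul, add_sub_cancel] at this

lemma Gr.smul' {k A B : ℤ} {a : F} {x : M} (ha : PF D k a) (hx : x ∈ G.S A) (h : A + k ≤ B) :
    a • x ∈ G.S B := G.mono h (G.smul ha hx)

/-- families indexed by the two roots, positive in the basis `β, 1` -/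
def Pos (G : Gr D M) (β : Rt q t → F) (e A : ℤ) (v : Rt q t → M) : Prop :=
  ∃ x ∈ G.S A, ∃ y ∈ G.S (A + e), ∀ R, v R = β R • x + y

variable {β : Rt q t → F} {e A B : ℤ} {v w : Rt q t → M}

lemma Pos.congr (h : Pos G β e A v) (h' : ∀ R, w R = v R) : Pos G β e A w := by
  obtain ⟨x, hx, y, hy, h⟩ := h
  exact ⟨x, hx, y, hy, fun R => by rw [h', h]⟩

lemma Pos.mono (h : Pos G β e A v) (h' : A ≤ B) : Pos G β e B v := by
  obtain ⟨x, hx, y, hy, h⟩ := h
  exact ⟨x, G.mono h' hx, y, G.mono (by omega) hy, h⟩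

lemma Pos.const {y : M} (h : y ∈ G.S (A + e)) : Pos G β e A fun _ => y :=
  ⟨0, zero_mem _, y, h, fun R => by simp⟩

lemma Pos.zero : Pos G β e A fun _ => 0 := Pos.const (zero_mem _)

lemma Pos.add (h : Pos G β e A v) (h' : Pos G β e A w) : Pos G β e A fun R => v R + w R := by
  obtain ⟨x, hx, y, hy, h⟩ := h
  obtain ⟨x', hx', y', hy', h'⟩ := h'
  exact ⟨x + x', add_mem hx hx', y + y', add_mem hy hy', fun R => by simp only [h, h']; module⟩

lemma Pos.sum {ι : Type} {s : Finset ι} {v : ι → Rt q t → M} (h : ∀ i ∈ s, Pos G β e A (v i)) :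
    Pos G β e A fun R => ∑ i ∈ s, v i R := by
  classical
  induction s using Finset.induction_on with
  | empty => simpa using Pos.zero
  | insert j s hj ih =>
    exact ((h j (by simp)).add (ih fun i hi => h i (by simp [hi]))).congr fun R => sum_insert hj

lemma Pos.map (h : Pos G β e A v) (L : M →ₗ[F] M') {c : ℤ}
    (hL : ∀ A, ∀ x ∈ G.S A, L x ∈ G'.S (A + c)) : Pos G' β e (A + c) fun R => L (v R) := by
  obtain ⟨x, hx, y, hy, h⟩ := h
  exact ⟨L x, hL _ _ hx, L y, by rw [add_right_comm]; exact hL _ _ hy, fun R => by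
    simp only [h, map_add, map_smul]⟩

lemma Pos.act (h : Pos G β e A v) {c : Rt q t → F} {k : ℤ} {a b a' b' : F}
    (h1 : ∀ R, c R * β R = a * β R + b) (h2 : ∀ R, c R = a' * β R + b') (ha : PF D k a)
    (hb : PF D (k + e) b) (ha' : PF D (k - e) a') (hb' : PF D k b') :
    Pos G β e (A + k) fun R => c R • v R := by
  obtain ⟨x, hx, y, hy, h⟩ := h
  refine ⟨a • x + a' • y, add_mem (G.smul ha hx) (G.smul' ha' hy (by omega)), b • x + b' • y,
    add_mem (G.smul' hb hx (by omega)) (G.smul' hb' hy (by omega)), fun R => ?_⟩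
  simp only [h, smul_add, smul_smul, h1]
  nth_rewrite 1 [h2]
  module

lemma Pos.smul (h : Pos G β e A v) {k : ℤ} {a : F} (ha : PF D k a) :
    Pos G β e (A + k) fun R => a • v R :=
  h.act (b := 0) (a' := 0) (fun _ => (add_zero _).symm) (fun _ => by simp) ha (PF_zero D _)
    (PF_zero D _) ha

end Pos

def POm (A : ℤ) : AddSubmonoid (Lam F) where
  carrier := {f | D.PO A f}
  add_mem' := D.PO_add
  zero_mem' := D.PO_zero A

def GP : Gr D (Lam F) := ⟨POm D, PO_PF D⟩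

noncomputable def SS (c n : ℤ) : AddSubmonoid (Lam F) := (Hm F (c - n)).toAddSubmonoid ⊓ POm D n

lemma mem_GW {k A : ℤ} {v : V2 F} : v ∈ CO (SS D (k + A)) A ↔
    ∀ a b : ℕ, co a b v ∈ Hm F (k - a - b) ∧ D.PO (A + a + b) (co a b v) := by
  refine forall_congr' fun a => forall_congr' fun b => ?_
  have e : k + A - (A + a + b) = k - a - b := by ring
  rw [SS, e]; rfl

noncomputable def GW (k : ℤ) : Gr D (V2 F) where
  S A := CO (SS D (k + A)) A
  smul := by
    intro l c A x hc hx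
    rw [mem_GW] at *
    intro a b
    rw [map_smul]
    refine ⟨Submodule.smul_mem _ _ (hx a b).1, ?_⟩
    have := PO_PF D hc (hx a b).2
    rwa [show A + a + b + l = A + l + a + b by ring] at this

lemma GW_of {c k A B : ℤ} {v : V2 F} (h : v ∈ CO (SS D c) A) (h1 : c = k + A) (h2 : A ≤ B) :
    v ∈ (GW D k).S B := by
  subst h1; exact (GW D k).mono h2 h

lemma SS_of {k A : ℤ} {v : St F} (hv : v ∈ HS F k) (h : D.PS A v) (j : ℕ) :
    v j ∈ SS D (k + A) (A + j) := by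
  refine ⟨?_, h j⟩
  have := hv j
  rwa [show k - j = k + A - (A + j) by ring] at this

lemma GW_map {M : Type} [AddCommGroup M] [Module F M] (L : V2 F →ₗ[F] M) (S : AddSubmonoid M)
    {k A : ℤ} (h : ∀ (a b : ℕ) (f : Lam F), f ∈ Hm F (k - a - b) → D.PO (A + a + b) f →
      L (mon a b f) ∈ S) {v : V2 F} (hv : v ∈ (GW D k).S A) : L v ∈ S :=
  co_ind (P := fun v => L v ∈ S) v (by simp) (fun _ _ h1 h2 => by rw [map_add]; exact add_mem h1 h2)
    fun a b => h a b _ ((mem_GW D).mp hv a b).1 ((mem_GW D).mp hv a b).2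

lemma single_HS {k : ℤ} {a : ℕ} {f : Lam F} (hf : f ∈ Hm F (k - a)) :
    Finsupp.single a f ∈ HS F k := by
  intro j
  rw [Finsupp.single_apply]; split_ifs with h
  · subst h; exact hf
  · exact zero_mem _

lemma single_PS {A : ℤ} {a : ℕ} {f : Lam F} (hf : D.PO (A + a) f) :
    D.PS A (Finsupp.single a f) := by
  intro j
  rw [Finsupp.single_apply]; split_ifs with h
  · subst h; exact hf
  · exact D.PO_zero _

variable (q t) in
noncomputable def E1 : V2 F →ₗ[F] V2 F :=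
  ls fun a b => LinearMap.mulLeft F (y2 ^ b) ∘ₗ i1 ∘ₗ ee q t a
variable (q t) in
noncomputable def C1 : V2 F →ₗ[F] V2 F :=
  ls fun a b => LinearMap.mulLeft F (y2 * hh b) ∘ₗ i2 ∘ₗ ee q t a
variable (q t) in
noncomputable def C2 : V2 F →ₗ[F] V2 F :=
  ls fun a b => LinearMap.mulLeft F (y2 * hh b * y1) ∘ₗ KK q t (a - 1)
variable (q t) in
noncomputable def CA : V2 F →ₗ[F] Lam F := ls fun a b => DD q t (b + 1) ∘ₗ DD q t (a + 1)
variable (q t) in
noncomputable def CB : V2 F →ₗ[F] Lam F := ls fun a b => PP q t (b + 2) a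

lemma Y1_eq (R : Rt q t) (v : V2 F) :
    R.Y1 v = E1 q t v + R.σ • C1 q t v + (R.σ * R.σ * R.s) • C2 q t v := by
  refine co_ind (P := fun v => R.Y1 v = E1 q t v + R.σ • C1 q t v + (R.σ * R.σ * R.s) • C2 q t v)
    v (by simp) (fun v w h1 h2 => by simp only [map_add, h1, h2]; module) fun a b => ?_
  rw [R.Y1_mon, E1, C1, C2, ls_mon, ls_mon, ls_mon]
  simp only [LinearMap.comp_apply, LinearMap.mulLeft_apply, mul_assoc]

lemma PP_rec (c d : ℤ) (f : Lam F) :
    PP q t c d f = DD q t c (DD q t d f) + (q * t⁻¹) • PP q t (c+1) (d-1) f := by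
  simp only [PP, LinearMap.comp_apply]
  rw [ee_rec q t d, map_add, map_smul, psi_inc, psi_UU]

lemma Lh_eq (R : Rt q t) (A B : ℤ) (f : Lam F) :
    R.Lh A B f = DD q t B (DD q t A f) + (R.σ * R.s) • PP q t (B+1) (A-1) f := by
  rw [Rt.Lh, LinearMap.sub_apply, LinearMap.smul_apply, PP_rec, ← R.ρ_sub]; module

lemma psi_Q_eq (R : Rt q t) (v : V2 F) :
    psi q t 1 (R.Q v) = CA q t v + (R.σ * R.s) • CB q t v := by
  refine co_ind (P := fun v => psi q t 1 (R.Q v) = CA q t v + (R.σ * R.s) • CB q t v)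
    v (by simp) (fun v w h1 h2 => by simp only [map_add, h1, h2]; module) fun a b => ?_
  rw [R.psi_Q_mon, CA, CB, ls_mon, ls_mon, Lh_eq, add_sub_cancel_right, add_assoc (b:ℤ) 1 1]
  rfl

variable [CharZero F]

lemma PO_DD (c : ℤ) {k A : ℤ} {f : Lam F} (hf : f ∈ Hm F k) (h : D.PO A f) :
    D.PO (A + k) (DD q t c f) := by
  rcases lt_or_ge k 0 with hk | hk
  · rw [Hm_neg hf hk, map_zero]; exact D.PO_zero _
  have h1 := D.PO_of_div (D.DD_div c hf h)
  split_ifs at h1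
  · have := D.PO_add h1 (D.PO_mono (show A ≤ A + k by omega) h)
    rwa [sub_add_cancel] at this
  · rwa [sub_zero] at h1

lemma PO_DD' {c : ℤ} (hc : c ≠ 0) {k A : ℤ} {f : Lam F} (hf : f ∈ Hm F k) (h : D.PO A f) :
    D.PO (A + k) (D.g⁻¹ • DD q t c f) := by
  have h1 := D.DD_div c hf h
  rwa [if_neg hc, sub_zero] at h1

lemma PS_ee (c : ℤ) {k A : ℤ} {f : Lam F} (hf : f ∈ Hm F k) (h : D.PO A f) :
    D.PS (A + k) (ee q t c f) := fun j => by
  rw [ee_apply]; exact D.PO_qT j (PO_DD D _ hf h)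

lemma PO_psi (c : ℕ) {k A : ℤ} {v : St F} (hv : v ∈ HS F k) (h : D.PS A v) :
    D.PO (A + k) (D.g⁻¹ • psi q t (c + 1) v) := by
  induction c generalizing k A v with
  | zero =>
    have := D.psi_div (UU_HS hv) (D.PS_UU h) 0
    rwa [UU_zero, sub_zero, Nat.cast_zero, neg_zero, psi_UU,
      show A - 1 + (k + 1) = A + k by ring] at this
  | succ c ih =>
    have := ih (UU_HS hv) (D.PS_UU h)
    rwa [psi_UU, show A - 1 + (k + 1) = A + k by ring, ← Nat.cast_succ c] at this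

lemma PO_PP (c : ℕ) (d : ℤ) {k A : ℤ} {f : Lam F} (hf : f ∈ Hm F k) (h : D.PO A f) :
    D.PO (A + k + (k + d)) (D.g⁻¹ • PP q t (c + 1) d f) :=
  PO_psi D c (ee_HS d hf) (PS_ee D d hf h)

lemma E1_pos {k A : ℤ} {v : V2 F} (hv : v ∈ (GW D k).S A) :
    D.g⁻¹ • (E1 q t v - v) ∈ (GW D k).S (A + k) := by
  refine GW_map D (D.g⁻¹ • (E1 q t - LinearMap.id)) _ (fun a b f hf h => ?_) hv
  have h1 : Finsupp.single a f ∈ HS F (k - b) := single_HS (by rwa [sub_right_comm])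
  have h2 := D.PS_Gt h1 (single_PS D (A := A + b) (by rwa [add_right_comm]))
  have h3 := CO_y2_pow b (CO_i1 (SS_of D (aeval_HS q t _ h1) h2))
  have e : (D.g⁻¹ • (E1 q t - LinearMap.id) : V2 F →ₗ[F] V2 F) (mon a b f) =
      y2 ^ b * i1 (Polynomial.aeval (EE q t) (Gt D.g 0) (Finsupp.single a f)) := by
    have e1 : Polynomial.aeval (EE q t) (Gt D.g 0) (Finsupp.single a f) =
        D.g⁻¹ • (ee q t a f - Finsupp.single a f) := by simp [Gt, EE_single]
    rw [e1, LinearMap.smul_apply, LinearMap.sub_apply, E1, ls_mon, map_smul, map_sub, i1_single,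
      mul_smul_comm, mul_sub, LinearMap.id_apply, mon_apply, mon_apply]
    simp only [LinearMap.comp_apply, LinearMap.mulLeft_apply]
    congr 2; ring
  rw [e]
  exact GW_of D h3 (by ring) (by omega)

lemma C1_pos {k A : ℤ} {v : V2 F} (hv : v ∈ (GW D k).S A) :
    C1 q t v ∈ (GW D k).S (A + (k - 1)) := by
  refine GW_map D _ _ (fun a b f hf h => ?_) hv
  rw [C1, ls_mon]
  simp only [LinearMap.comp_apply, LinearMap.mulLeft_apply, mul_assoc]
  cases b with
  | zero => simp [hh]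
  | succ b =>
    exact GW_of D (CO_y2 (CO_hh (b+1) (CO_i2 (SS_of D (ee_HS a hf) (PS_ee D a hf h))))) (by ring)
      (by push_cast; omega)

lemma C2_pos {k A : ℤ} {v : V2 F} (hv : v ∈ (GW D k).S A) :
    C2 q t v ∈ (GW D k).S (A + (k - 2)) := by
  refine GW_map D _ _ (fun a b f hf h => ?_) hv
  rw [C2, ls_mon]
  simp only [LinearMap.comp_apply, LinearMap.mulLeft_apply, mul_assoc, KK]
  cases b with
  | zero => simp [hh]
  | succ b =>
    exact GW_of D (CO_y2 (CO_hh (b+1) (CO_y1 (CO_ih (SS_of D (ee_HS _ hf) (PS_ee D _ hf h))))))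
      (by ring) (by push_cast; omega)

lemma CA_pos {k A : ℤ} {v : V2 F} (hv : v ∈ (GW D k).S A) :
    D.PO (A + (2 * k + 1)) (D.g⁻¹ • D.g⁻¹ • CA q t v) := by
  refine GW_map D (D.g⁻¹ • D.g⁻¹ • CA q t) (POm D _) (fun a b f hf h => ?_) hv
  have h1 := PO_DD' D (c := b + 1) (by omega) (Submodule.smul_mem _ D.g⁻¹ (DD_Hm q t (a+1) hf))
    (PO_DD' D (c := a + 1) (by omega) hf h)
  rw [map_smul] at h1
  rw [LinearMap.smul_apply, LinearMap.smul_apply, CA, ls_mon]
  exact D.PO_mono (by omega) h1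

lemma CB_pos {k A : ℤ} {v : V2 F} (hv : v ∈ (GW D k).S A) :
    D.PO (A + 2 * k) (D.g⁻¹ • CB q t v) := by
  refine GW_map D (D.g⁻¹ • CB q t) (POm D _) (fun a b f hf h => ?_) hv
  have h1 := PO_PP D (b+1) a hf h
  rw [LinearMap.smul_apply, CB, ls_mon]
  rw [Nat.cast_succ, add_assoc (b:ℤ) 1 1] at h1
  exact D.PO_mono (by omega) h1

omit [CharZero F] in
lemma MM_eq : MM q t = D.g * D.g * ((1 + D.b) * t⁻¹) := by
  have h1 := D.hq; have h2 := D.ht; have h3 := mul_inv_cancel₀ D.t0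
  rw [MM]
  linear_combination (1 - t⁻¹) * h1 + (D.g * (1 + D.b)) * (t⁻¹ * h2 - h3)

lemma nn_zero {k c b : ℤ} {f : Lam F} (hf : f ∈ Hm F k) (h : b < -k) : nn q t c b f = 0 := by
  rw [nn_eq_sum q t c b f (k.toNat + 1) fun s hs => Sh_eq_zero_of_Hm _ hf (by omega)]
  refine sum_eq_zero fun s _ => ?_
  rcases lt_or_ge k s with h1 | h1
  · rw [Sh_eq_zero_of_Hm _ hf h1, map_zero, mul_zero]
  · rw [gg_neg t (by omega), zero_mul]

lemma XN_pos {k A : ℤ} {f : Lam F} (hf : f ∈ Hm F k) (h : D.PO A f) (n : ℕ) : ∀ (c : ℕ) (b : ℤ),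
    b + k < n → D.PO (A + 2 * k + b) (D.g⁻¹ • D.g⁻¹ • XN q t c b f) := by
  induction n with
  | zero =>
    intro c b hb
    rw [XN, nn_zero hf (by omega), Hm_neg (DD_Hm q t b hf) (by omega)]
    simp [D.PO_zero]
  | succ n ih =>
    intro c b hb
    have h1 := ih (c+1) (b-1) (by omega)
    have h2 := PO_PF D (PF_div D (add_mem (one_mem _) D.hb)) (PO_PP D c (b-1) hf h)
    have h3 := XN_step q t D.t0 c b f
    have e : D.g⁻¹ • D.g⁻¹ • XN q t c b f = D.g⁻¹ • D.g⁻¹ • XN q t (c+1) (b-1) f +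
        D.g • ((1 + D.b) * t⁻¹) • D.g⁻¹ • D.g⁻¹ • D.g • PP q t (c + 1) (b-1) f := by
      rw [sub_eq_iff_eq_add', MM_eq D] at h3
      rw [h3, PP, LinearMap.comp_apply]; module
    rw [e, inv_smul_smul₀ D.g0]
    exact D.PO_add (D.PO_mono (by omega) h1) (D.PO_smul D.hg (D.PO_mono (by omega) h2))

lemma nn_pos {k A : ℤ} {f : Lam F} (hf : f ∈ Hm F k) (h : D.PO A f) (c b : ℕ) :
    D.PO (A + k) (D.g⁻¹ • D.g⁻¹ • nn q t (c + 1) (b + 1) f) := by
  rw [nn_eq_sum q t _ _ f (k.toNat + 1) fun s hs => Sh_eq_zero_of_Hm _ hf (by omega), smul_sum,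
    smul_sum]
  refine D.PO_sum fun s _ => ?_
  have e : cS q t = fun k => t⁻¹ ^ (k+1) * (q ^ (k+1) - 1) := by funext k; rw [cS, mul_comm]
  have h1 : D.PO (A + s) (Sh (cS q t) s f) := by
    rw [e, Sh_scale]
    refine D.PO_T s ?_
    unfold PosData.PO at *
    rw [← map_smul]; exact (D.Sh_div h s).1
  have h2 := PO_DD' D (c := c + 1) (by omega) (Sh_Hm (cS q t) s hf) h1
  rw [show A + s + (k - s) = A + k by ring] at h2
  unfold PosData.PO at *
  rw [← mul_smul_comm, ← smul_mul_assoc, ← mul_smul_comm]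
  exact mul_mem ((D.gg_div _).2 (by omega)) h2

lemma CC_pos {k A : ℤ} {v : V2 F} (hv : v ∈ (GW D k).S A) :
    D.PO (A + 2 * k) (D.g⁻¹ • D.g⁻¹ • (CA q t v - MM q t • CB q t v)) := by
  refine GW_map D (D.g⁻¹ • D.g⁻¹ • (CA q t - MM q t • CB q t)) (POm D _) (fun a b f hf h => ?_) hv
  rcases lt_or_ge (k - a - b) 0 with hk | hk
  · rw [Hm_neg hf hk, map_zero, map_zero]; exact zero_mem _
  have h1 := XN_step q t D.t0 (b+1) (a+1) f
  have e : (D.g⁻¹ • D.g⁻¹ • (CA q t - MM q t • CB q t)) (mon a b f) =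
      D.g⁻¹ • D.g⁻¹ • nn q t (b+1) (a+1) f + D.g⁻¹ • D.g⁻¹ • XN q t (b+2 : ℕ) a f := by
    simp only [LinearMap.smul_apply, LinearMap.sub_apply, CA, CB, ls_mon, PP,
      LinearMap.comp_apply]
    rw [XN, add_sub_cancel_right, show (b:ℤ) + 1 + 1 = b + 2 by ring] at h1
    push_cast
    linear_combination (norm := module) (D.g⁻¹ * D.g⁻¹) • h1
  rw [e]
  exact D.PO_add (D.PO_mono (by omega) (nn_pos D hf h b a))
    (D.PO_mono (by omega) (XN_pos D hf h (k.toNat + 1) _ _ (by omega)))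

/-- a factorization `α = θ κ` -/
structure Cn where
  θ : F
  κ : F
  hθ : θ ∈ D.P
  hκ : κ ∈ D.P
  h : θ * κ = 1 + D.b

variable {D} (K : Cn D)

def Cn.δ (R : Rt q t) : F := (R.s' - q * t⁻¹) / (D.g * K.θ)
def Cn.lam (R : Rt q t) : F := D.g * K.κ / R.σ

omit [CharZero F] in
lemma Cn.MM_eq : MM q t = D.g * D.g * (K.θ * K.κ * t⁻¹) := by rw [K.h, Two22.MM_eq D]

omit [CharZero F] in
lemma ρ_eq : q * t⁻¹ = 1 + D.g * (D.b * t⁻¹) := by
  have h1 := D.hq; have h2 := D.ht; have h3 := mul_inv_cancel₀ D.t0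
  linear_combination t⁻¹ * h1 - t⁻¹ * h2 + h3

omit [CharZero F] in
lemma PF_ρ : PF D 1 (q * t⁻¹) := PF_div D D.q_mem

omit [CharZero F] in
lemma PF_M : PF D 1 (D.g * (K.θ * K.κ * t⁻¹)) := by
  rw [← mul_assoc]; exact PF_div D (mul_mem D.hg (mul_mem K.hθ K.hκ))

omit [CharZero F] in
lemma PF_k : PF D 2 (K.κ * t⁻¹ * (q * t⁻¹)) := PF_mul D (PF_div D K.hκ) PF_ρ

variable (hi : Indep q t)
include hi

omit [CharZero F] in
lemma Cn.θ_ne : K.θ ≠ 0 := fun h => hi.MM_ne (by rw [K.MM_eq, h]; ring)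
omit [CharZero F] in
lemma Cn.κ_ne : K.κ ≠ 0 := fun h => hi.MM_ne (by rw [K.MM_eq, h]; ring)

omit [CharZero F] in
lemma Cn.δ_mul (R : Rt q t) : D.g * K.θ * K.δ R = R.s' - q * t⁻¹ :=
  mul_div_cancel₀ _ (mul_ne_zero D.g0 (K.θ_ne hi))

omit [CharZero F] in
lemma Cn.f1 (R : Rt q t) : D.g⁻¹ * R.σ = K.θ * K.δ R + D.b * t⁻¹ := by
  apply mul_left_cancel₀ D.g0
  rw [mul_inv_cancel_left₀ D.g0, Rt.σ]
  linear_combination -K.δ_mul hi R + ρ_eq (D := D)

omit [CharZero F] in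
lemma Cn.f2 (R : Rt q t) : D.g⁻¹ * (R.σ * R.s) * K.δ R = K.κ * t⁻¹ * (q * t⁻¹) := by
  apply mul_left_cancel₀ (mul_ne_zero D.g0 (mul_ne_zero D.g0 (K.θ_ne hi)))
  have h1 := mul_inv_cancel₀ D.g0
  linear_combination (R.σ * R.s * D.g * K.θ * K.δ R) * h1 + (R.σ * R.s) * K.δ_mul hi R +
    (q * t⁻¹) * (R.σ_mul + K.MM_eq) + R.σ * R.hm

omit [CharZero F] hi in
lemma Cn.f3 (R : Rt q t) :
    D.g⁻¹ * (R.σ * R.s) = D.g⁻¹ * R.σ - D.g * (K.θ * K.κ * t⁻¹) := by
  have h1 := mul_inv_cancel₀ D.g0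
  linear_combination (-D.g⁻¹) * (R.σ_mul + K.MM_eq) - (D.g * (K.θ * K.κ * t⁻¹)) * h1

section act
variable {M : Type} [AddCommGroup M] [Module F M] {G : Gr D M} {A : ℤ} {v : Rt q t → M}

omit [CharZero F] in
lemma act_σ (h : Pos G K.δ 1 A v) : Pos G K.δ 1 (A + 1) fun R => (D.g⁻¹ * R.σ) • v R :=
  h.act (fun R => by linear_combination K.f2 hi R - K.δ R * K.f3 R) (K.f1 hi) (PF_M K)
    (PF_k K) (PF_of D K.hθ (by omega)) (PF_div D D.hb)

omit [CharZero F] in
lemma act_τ (h : Pos G K.δ 1 A v) :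
    Pos G K.δ 1 (A + 2) fun R => (D.g⁻¹ * (R.σ * R.σ * R.s)) • v R := by
  have h1 := mul_inv_cancel₀ D.g0
  have hε : PF D 1 (D.g * (D.b * t⁻¹)) := by rw [← mul_assoc]; exact PF_div D (mul_mem D.hg D.hb)
  refine h.act (fun R => ?_) (fun R => ?_) (PF_mul D (PF_M K) PF_ρ) (PF_mul D (PF_k K) hε)
    (PF_mul D hε (PF_of D K.hθ le_rfl))
    (PF_add D (PF_mono D (PF_M K) (by omega)) (PF_mul D hε (PF_div D D.hb)))
  · linear_combination R.σ * K.f2 hi R + (D.g * (K.κ * t⁻¹ * (q * t⁻¹))) * K.f1 hi R -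
      (R.σ * (K.κ * t⁻¹ * (q * t⁻¹))) * h1
  · linear_combination (-D.g⁻¹ * R.σ) * R.ρ_sub + D.g⁻¹ * R.σ * ρ_eq (D := D) - K.f3 R +
      (D.g * (D.b * t⁻¹)) * K.f1 hi R

omit [CharZero F] in
lemma Cn.l1 (R : Rt q t) : R.σ * K.lam R = D.g * K.κ := mul_div_cancel₀ _ (R.σ_ne hi)

lemma Cn.l2 (R : Rt q t) : K.lam R = t * K.δ R - D.g * K.κ := by
  apply mul_left_cancel₀ (mul_ne_zero (R.σ_ne hi) (mul_ne_zero D.g0 (K.θ_ne hi)))
  have h1 := mul_inv_cancel₀ D.t0
  have h2 : R.σ = R.s' - 1 := rfl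
  linear_combination (D.g * K.θ) * K.l1 hi R - (R.σ * t) * K.δ_mul hi R -
    (t * R.s') * (R.σ_mul + K.MM_eq) - (t * R.σ) * R.hm -
    (D.g * D.g * K.θ * K.κ * R.s') * h1 + (D.g * D.g * K.θ * K.κ) * h2

lemma Cn.l3 (R : Rt q t) :
    R.σ = D.g * K.θ * t⁻¹ * K.lam R + D.g * (D.g * (K.θ * K.κ * t⁻¹) + D.b * t⁻¹) := by
  have h1 := mul_inv_cancel₀ D.t0
  have h2 := mul_inv_cancel₀ D.g0
  linear_combination D.g * K.f1 hi R - R.σ * h2 - (D.g * K.θ * t⁻¹) * K.l2 hi R -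
    (D.g * K.θ * K.δ R) * h1

lemma inp_σ (h : Pos G K.lam (-1) A v) : Pos G K.lam (-1) (A + 1) fun R => R.σ • v R :=
  h.act (a := 0) (fun R => by rw [K.l1 hi]; ring) (K.l3 hi) (PF_zero D _)
    (PF_of D (mul_mem D.hg K.hκ) (by omega))
    (PF_mono D (PF_div D (mul_mem D.hg K.hθ)) (by omega))
    (PF_mul D (PF_of D D.hg le_rfl) (PF_add D (PF_M K) (PF_div D D.hb)))

lemma inp_s (h : Pos G K.lam (-1) A v) : Pos G K.lam (-1) (A + 1) fun R => R.s' • v R :=
  ((inp_σ K hi h).add (h.mono (by omega))).congr fun R => by rw [Rt.σ]; module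

lemma inp_pow (n : ℕ) (h : Pos G K.lam (-1) A v) :
    Pos G K.lam (-1) (A + n) fun R => R.s' ^ n • v R := by
  induction n with
  | zero => simpa using h
  | succ n ih =>
    exact ((inp_s K hi ih).mono (by omega)).congr fun R => by rw [pow_succ', mul_smul]

end act

section
variable {k : ℕ} {A : ℤ} {v : Rt q t → V2 F}

lemma Pos_G (h : Pos (GW D k) K.δ 1 A v) :
    Pos (GW D k) K.δ 1 (A + k) fun R => D.g⁻¹ • (R.Y1 (v R) - v R) := by
  have h1 := h.map (D.g⁻¹ • (E1 q t - LinearMap.id)) fun _ _ hx => E1_pos D hx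
  have h2 := act_σ K hi (h.map _ fun _ _ hx => C1_pos D hx)
  have h3 := act_τ K hi (h.map _ fun _ _ hx => C2_pos D hx)
  refine ((h1.add (h2.mono (by omega))).add (h3.mono (by omega))).congr fun R => ?_
  rw [Y1_eq]
  simp only [LinearMap.smul_apply, LinearMap.sub_apply, LinearMap.id_apply]
  module

lemma Pos_ZZ (h : Pos (GW D k) K.δ 1 A v) :
    Pos (GW D (k + 1 : ℕ)) K.δ 1 (A + (2 * k - 1)) fun R => R.ZZ D.g (v R) := by
  have h1 := Pos_G K hi h
  have h2 := ((Pos_G K hi h1).smul (PF_of D D.hg le_rfl)).add (h1.mono (by omega))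
  refine ((h2.map (G' := GW D (k + 1 : ℕ)) (LinearMap.mulLeft F y1) (c := -1) fun B x hx =>
    GW_of D (CO_y1 hx) (by push_cast; ring) (by omega)).mono (by omega)).congr fun R => ?_
  rw [smul_inv_smul₀ D.g0, sub_add_cancel]
  simp [Rt.ZZ, Gt]

lemma Pos_ZZ_pow (i : ℕ) (h : Pos (GW D k) K.δ 1 A v) :
    Pos (GW D (k + i : ℕ)) K.δ 1 (A + (2 * k * i + i * i - 2 * i))
      fun R => (R.ZZ D.g ^ i : Module.End F (V2 F)) (v R) := by
  induction i with
  | zero => simpa using h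
  | succ i ih =>
    refine ((Pos_ZZ K hi ih).mono (le_of_eq ?_)).congr fun R => by
      rw [pow_succ', Module.End.mul_apply]
    push_cast; ring

lemma Pos_close (h : Pos (GW D k) K.δ 1 A v) :
    Pos (GP D) K.δ 1 (A + (2 * k + 1)) fun R => D.g⁻¹ • D.g⁻¹ • psi q t 1 (R.Q (v R)) := by
  obtain ⟨x, hx, y, hy, h⟩ := h
  refine ⟨D.g⁻¹ • D.g⁻¹ • CA q t x + K.θ • D.g⁻¹ • CB q t y, add_mem (CA_pos D hx)
    ((GP D).smul' (PF_of D K.hθ le_rfl) (CB_pos D hy) (by omega)),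
    (K.κ * t⁻¹ * (q * t⁻¹)) • D.g⁻¹ • CB q t x + D.g⁻¹ • D.g⁻¹ • (CA q t y - MM q t • CB q t y) +
      (D.b * t⁻¹) • D.g⁻¹ • CB q t y, add_mem (add_mem
      ((GP D).smul' (PF_k K) (CB_pos D hx) (by omega)) ((GP D).mono (by omega) (CC_pos D hy)))
      ((GP D).smul' (PF_div D D.hb) (CB_pos D hy) (by omega)), fun R => ?_⟩
  have h1 := mul_inv_cancel₀ D.g0
  have h2 : D.g⁻¹ * (R.σ * R.s) = K.θ * K.δ R + D.b * t⁻¹ - D.g⁻¹ * MM q t := by
    rw [K.f3, K.f1 hi, K.MM_eq]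
    linear_combination (D.g * (K.θ * K.κ * t⁻¹)) * h1
  simp only [psi_Q_eq, h, map_add, map_smul]
  linear_combination (norm := module) (D.g⁻¹ * K.f2 hi R) • CB q t x + (D.g⁻¹ * h2) • CB q t y

end

section input
variable {s : ℕ → F}

variable (D s) in
/-- homogeneous elements of the cone `CC` -/
noncomputable def GC (k : ℤ) : Gr D (Lam F) where
  S A :=
    { carrier := {f | f ∈ Hm F k ∧ t ^ A • f ∈ CC D s}
      add_mem' := fun h h' => ⟨add_mem h.1 h'.1, by rw [smul_add]; exact add_mem h.2 h'.2⟩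
      zero_mem' := ⟨zero_mem _, by simp⟩ }
  smul := by
    intro l a A x ha hx
    refine ⟨Submodule.smul_mem _ _ hx.1, ?_⟩
    have := CC_smul D ha hx.2
    rw [smul_smul] at this ⊢
    rw [zpow_add₀ D.t0]
    exact (congrArg (fun c => c • x ∈ CC D s) (by ring)).mp this

lemma GT_pos {m : ℕ} (hm : 1 ≤ m) {σ : F} (hσ : σ ∈ D.P) (hu : ∀ k, aq D.g q k * s k ∈ D.P)
    {a : ℕ} (hd : a = 0 → ∀ y d, wt d = m → (∀ j, d j ≠ 0 → y * (aq D.g q j * br t j) ∈ D.P) →
      σ * pw (fun k => aq D.g q k * s k) d * y ∈ D.P)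
    {f : Lam F} (hf : f ∈ Hm F (m - a)) (hc : f ∈ CC D s) :
    GT hi D.g m (Finsupp.single a f) ∈ HS F m ∧
      D.PS (m * m - m - a) (σ • GT hi D.g m (Finsupp.single a f)) := by
  have sm : ∀ {A : ℤ} {x : F} {v : St F}, x ∈ D.P → D.PS A v → D.PS A (x • v) :=
    fun hx hv j => D.PO_smul hx (hv j)
  rw [f.as_sum, Finsupp.single_finsetSum]
  simp only [map_sum, smul_sum]
  suffices h : ∀ d ∈ f.support,
      GT hi D.g m (Finsupp.single a (monomial d (coeff d f))) ∈ HS F m ∧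
      D.PS (m * m - m - a) (σ • GT hi D.g m (Finsupp.single a (monomial d (coeff d f)))) from
    ⟨sum_mem fun d hd => (h d hd).1, fun j => by
      rw [Finsupp.finsetSum_apply]; exact D.PO_sum fun d hd => (h d hd).2 j⟩
  intro d hd'
  have hw : (wt d : ℤ) = m - a := Hm_coeff hf (mem_support_iff.mp hd')
  obtain ⟨x, hx, h1⟩ := hc d
  have e0 : (monomial d (coeff d f) : Lam F) = x • monomial d (pw s d) := by
    rw [h1, smul_monomial, smul_eq_mul]
  rw [e0, ← Finsupp.smul_single, map_smul, smul_comm _ x]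
  suffices h : GT hi D.g m (Finsupp.single a (monomial d (pw s d))) ∈ HS F m ∧
      D.PS (m * m - m - a) (σ • GT hi D.g m (Finsupp.single a (monomial d (pw s d)))) from
    ⟨Submodule.smul_mem _ _ h.1, sm hx h.2⟩
  have hG : GG hi D.g (monomial d (pw s d)) ∈ Hm F (wt d) :=
    (macSys hi).Del_Hm _ (monomial_mem_Hm d _)
  by_cases h : a = m
  · subst h
    have hd0 : d = 0 := by
      ext k; by_contra h
      have := le_wt d h; omega
    subst hd0
    obtain ⟨k, rfl⟩ : ∃ k, a = k + 1 := ⟨a - 1, by omega⟩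
    rw [GT_top, pw_zero, monomial_zero', C_1, Nat.add_sub_cancel]
    have hv := UU_HS (inc_HS (one_mem_Hm (F := F)))
    have h2 := run_HS (q := q) (t := t) (List.replicate k (Polynomial.X * Gt D.g 0)) hv
    have h3 := D.PS_rep k hv (D.PS_UU (D.PS_inc (a := 0) (by simp [PosData.PO])))
    rw [List.length_replicate, show (0:ℤ) + 1 + k = (k+1 : ℕ) by push_cast; ring] at h2
    rw [show (0:ℤ) - 1 + (2 * (0 + 1) * k + k * k - 2 * k) =
      (k+1 : ℕ) * (k+1 : ℕ) - (k+1 : ℕ) - (k+1 : ℕ) by push_cast; ring] at h3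
    exact ⟨h2, sm hσ h3⟩
  · rw [GT_low hi _ h]
    have h4 := run_HS (q := q) (t := t) (List.replicate a (Polynomial.X * Gt D.g 0)) (inc_HS hG)
    rw [List.length_replicate, hw, sub_add_cancel] at h4
    refine ⟨h4, ?_⟩
    cases a with
    | zero =>
      have hw' : wt d = m := by omega
      have h2 : D.PO ((m * (m - 1) : ℕ) : ℤ) (σ • GG hi D.g (monomial d (pw s d))) := by
        refine of_coeff D fun e => ⟨_, mul_mem (natCast_mem _ (zn d))
          (hd rfl _ d hw' (claim hi D m d e hw')), ?_⟩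
        rw [zpow_natCast, coeff_smul, coeff_smul, coeff_GG_B, smul_eq_mul, smul_eq_mul]; ring
      have e : ((m * (m - 1) : ℕ) : ℤ) = m * m - m - (0:ℕ) := by
        obtain ⟨k, rfl⟩ : ∃ k, m = k + 1 := ⟨m - 1, by omega⟩
        rw [Nat.add_sub_cancel]; push_cast; ring
      rw [List.replicate_zero, run_nil, ← map_smul, ← e]
      exact D.PS_inc h2
    | succ a =>
      refine sm hσ ?_
      have h2 := PS_Gt' D hG (Sh_cone D ((wt d * (wt d - 1) : ℕ) : ℤ) _
        (fun e => mm hi D.g d e * (zn d * pw (fun k => aq D.g q k * s k) d))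
        (fun e => coeff_GG_B hi D d e) (fun e j hj => by
          by_cases hw : wt e = wt d
          · have := mul_mem (claim hi D _ e d hw j hj)
              (mul_mem (natCast_mem _ (zn d)) (pw_mem D hu d))
            rw [zpow_natCast, mm_symm]
            refine (congrArg (· ∈ D.P) ?_).mp this
            ring
          · rw [mm_zero hi _ hw]; simp))
      have h3 := aeval_HS q t (Gt D.g 0) (inc_HS hG)
      have := D.PS_rep a (UU_HS (EE_HS q t h3)) (D.PS_UU (D.PS_EE h3 h2))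
      have e : ((wt d * (wt d - 1) : ℕ) : ℤ) + wt d + wt d - 1 +
          (2 * (wt d + 1) * a + a * a - 2 * a) = m * m - m - (a+1 : ℕ) := by
        obtain ⟨k, hk⟩ : ∃ k, wt d = k + 1 := ⟨wt d - 1, by omega⟩
        have : (m:ℤ) = k + 1 + (a + 1) := by rw [hk] at hw; push_cast at hw; omega
        rw [hk, Nat.add_sub_cancel, this]; push_cast; ring
      rw [e] at this
      rw [List.replicate_succ, run_cons, map_mul, Polynomial.aeval_X, Module.End.mul_apply]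
      exact this

lemma GT_pos' {m : ℕ} (hm : 1 ≤ m) {σ : F} (hσ : σ ∈ D.P) (hu : ∀ k, aq D.g q k * s k ∈ D.P)
    {a : ℕ} (hd : a = 0 → ∀ y d, wt d = m → (∀ j, d j ≠ 0 → y * (aq D.g q j * br t j) ∈ D.P) →
      σ * pw (fun k => aq D.g q k * s k) d * y ∈ D.P) {w : ℕ → V2 F}
    (hw : ∀ {v : St F} {S : ℤ → AddSubmonoid (Lam F)} {A : ℤ}, (∀ j : ℕ, v j ∈ S (A + j)) →
      emb w v ∈ CO S A) {B : ℤ} {f : Lam F} (hf : f ∈ (GC D s (m - a)).S B) :
    σ • emb w (GT hi D.g m (Finsupp.single a f)) ∈ (GW D m).S (m * m - m - a + B) := by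
  have h0 : t ^ B ≠ 0 := zpow_ne_zero _ D.t0
  obtain ⟨h1, h2⟩ := GT_pos hi hm hσ hu hd (Submodule.smul_mem _ (t ^ B) hf.1) hf.2
  have h3 := (GW D m).smul (k := B) (a := (t ^ B)⁻¹)
    (by unfold PF; rw [mul_inv_cancel₀ h0]; exact one_mem _)
    (hw (SS_of D (Submodule.smul_mem _ σ h1) h2))
  rwa [← Finsupp.smul_single, map_smul, map_smul, map_smul, smul_comm σ, inv_smul_smul₀ h0] at h3

lemma Pos_Ps {m i j : ℕ} (hm : 1 ≤ m) {σ : F} (hσ : σ ∈ D.P) (hu : ∀ k, aq D.g q k * s k ∈ D.P)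
    (hd : ∀ y d, wt d = m → (∀ j, d j ≠ 0 → y * (aq D.g q j * br t j) ∈ D.P) →
      σ * pw (fun k => aq D.g q k * s k) d * y ∈ D.P) {B : ℤ} {J : Rt q t → Lam F}
    (h : Pos (GC D s (m - i - j)) K.lam (-1) (B + 1) J) :
    Pos (GW D m) K.δ 1 (m * m - m - i - j + B) fun R => σ • R.Ps hi D.g m i j (J R) := by
  obtain ⟨x, hx, y, hy, h⟩ := h
  have g1 := mul_inv_cancel₀ D.g0
  by_cases hj : j = 0
  · subst hj
    rw [Nat.cast_zero, sub_zero] at hx hy
    have h1 := GT_pos' hi hm hσ hu (fun _ => hd) CO_i1 hx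
    have h2 := GT_pos' hi hm hσ hu (fun _ => hd) CO_i1 hy
    refine ⟨_, add_mem ((GW D m).smul' (PF_t D) h1 (by omega))
      ((GW D m).smul' (PF_of D (mul_mem D.hg K.hθ) le_rfl) h2 (by omega)), _,
      (GW D m).smul' PF_ρ h2 (by omega), fun R => ?_⟩
    have h3 : R.s' * K.lam R = t * K.δ R := by
      have : R.σ = R.s' - 1 := rfl
      linear_combination K.l1 hi R + K.l2 hi R - K.lam R * this
    simp only [Rt.Ps, if_true, h, LinearMap.smul_apply, LinearMap.comp_apply, map_add, map_smul,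
      Finsupp.lsingle_apply, i1]
    linear_combination (norm := module) (σ * h3) • emb _ (GT hi D.g m (Finsupp.single i x)) -
      (σ * K.δ_mul hi R) • emb _ (GT hi D.g m (Finsupp.single i y))
  rcases lt_or_ge m (i + j) with hij | hij
  · refine Pos.zero.congr fun R => ?_
    rw [h, Hm_neg hx.1 (by omega), Hm_neg hy.1 (by omega)]; simp
  obtain ⟨k, rfl⟩ : ∃ k, m = k + i := ⟨m - i, by omega⟩
  rw [show ((k + i : ℕ) : ℤ) - i = k by omega] at hx hy
  have hk : 1 ≤ k := by omega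
  have h0 : Pos (GW D k) K.δ 1 (k * k - k - j + B)
      fun R => σ • R.Tb (i1 (GT hi D.g k (Finsupp.single j (J R)))) := by
    have h1 := GT_pos' hi hk hσ hu (fun h => absurd h hj) CO_i2 hx
    have h2 := GT_pos' hi hk hσ hu (fun h => absurd h hj) CO_ic hx
    have h3 := GT_pos' hi hk hσ hu (fun h => absurd h hj) CO_i2 hy
    have h4 := GT_pos' hi hk hσ hu (fun h => absurd h hj) CO_ih hy
    refine ⟨_, add_mem ((GW D k).smul' (PF_t D) h1 (by omega))
      ((GW D k).smul' (PF_of D (mul_mem D.hg K.hθ) le_rfl) h4 (by omega)), _,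
      add_mem (add_mem ((GW D k).smul' (PF_of D (mul_mem D.hg K.hκ) le_rfl) h2 (by omega))
        ((GW D k).mono (by omega) h3))
        ((GW D k).smul' (PF_mul D (PF_of D D.hg le_rfl) (PF_div D D.hb)) h4 (by omega)),
      fun R => ?_⟩
    have h5 : R.σ = D.g * K.θ * K.δ R + D.g * (D.b * t⁻¹) := by
      linear_combination D.g * K.f1 hi R - R.σ * g1
    have e1 := ih_eq (GT hi D.g k (Finsupp.single j x))
    simp only [h, Finsupp.single_add, ← Finsupp.smul_single, map_add, map_smul, R.Tb_i1]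
    simp only [i2, ih, ic] at e1 ⊢
    linear_combination (norm := module) (σ * R.σ * K.lam R) • e1 +
      (σ * (K.l1 hi R + K.l2 hi R)) • emb (y2 ^ ·) (GT hi D.g k (Finsupp.single j x)) +
      (σ * K.l1 hi R) • emb (fun j => y1 * hh j) (GT hi D.g k (Finsupp.single j x)) +
      (σ * h5) • emb (fun j => hh (j+1)) (GT hi D.g k (Finsupp.single j y))
  refine ((Pos_ZZ_pow K hi i h0).mono (le_of_eq ?_)).congr fun R => ?_
  · push_cast; ring
  · simp [Rt.Ps, hj]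

end input

end Two22
end MJ
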