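import Pool.Agent.Lib.MP_9c49f6_co.Vertex

/-! States with one catalytic variable `y`. -/

namespace MJ
open Finset MvPolynomial

variable {F : Type} [Field F]

abbrev St (F : Type) [Field F] := ℕ →₀ Lam F

noncomputable def stateOf {M : Type} [AddCommGroup M] [Module F M] (A : ℕ → M →ₗ[F] Lam F)
    (h : ∀ x, ∃ n : ℕ, ∀ j, n ≤ j → A j x = 0) : M →ₗ[F] St F where
  toFun x := Finsupp.ofSupportFinite (fun j => A j x) (by
    obtain ⟨n, hn⟩ := h x
    refine (Set.finite_lt_nat n).subset fun j hj => ?_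
    by_contra hc
    exact hj (hn j (by simpa using hc)))
  map_add' x y := by ext j : 1; simp [Finsupp.ofSupportFinite_coe]
  map_smul' c x := by ext j : 1; simp [Finsupp.ofSupportFinite_coe]

@[simp] lemma stateOf_apply {M : Type} [AddCommGroup M] [Module F M] (A : ℕ → M →ₗ[F] Lam F)
    (h : ∀ x, ∃ n : ℕ, ∀ j, n ≤ j → A j x = 0) (x : M) (j : ℕ) : stateOf A h x j = A j x := rfl

noncomputable def UU : St F →ₗ[F] St F := Finsupp.lmapDomain (Lam F) F Nat.succ
noncomputable def inc : Lam F →ₗ[F] St F := Finsupp.lsingle 0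

lemma UU_single (s : ℕ) (f : Lam F) : UU (Finsupp.single s f) = Finsupp.single (s+1) f := by
  simp [UU, Finsupp.mapDomain_single]
lemma inc_apply (f : Lam F) : inc f = Finsupp.single 0 f := rfl
@[simp] lemma UU_zero (v : St F) : UU v 0 = 0 := by
  simp only [UU, Finsupp.lmapDomain_apply]
  exact Finsupp.mapDomain_of_notMem_range _ _ (by simp)
@[simp] lemma UU_succ (v : St F) (s : ℕ) : UU v (s+1) = v s := by
  simp only [UU, Finsupp.lmapDomain_apply]
  exact Finsupp.mapDomain_apply Nat.succ_injective _ _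
@[simp] lemma inc_zero (f : Lam F) : inc f 0 = f := by simp [inc]
@[simp] lemma inc_succ (f : Lam F) (s : ℕ) : inc f (s+1) = 0 := by simp [inc]

lemma st_ind {P : St F → Prop} (v : St F) (h0 : P 0) (hadd : ∀ v w, P v → P w → P (v + w))
    (hs : ∀ s f, P (Finsupp.single s f)) : P v :=
  Finsupp.induction_linear v h0 hadd hs

lemma lsum_eq_sum {M : Type} [AddCommGroup M] [Module F M] (A : ℕ → Lam F →ₗ[F] M) (v : St F)
    (n : ℕ) (h : ∀ s, n ≤ s → A s (v s) = 0) :
    Finsupp.lsum F A v = ∑ s ∈ range n, A s (v s) := by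
  rw [Finsupp.lsum_apply, Finsupp.sum]
  rw [← sum_subset (s₁ := v.support ∩ range n) inter_subset_left,
    ← sum_subset (s₁ := v.support ∩ range n) inter_subset_right]
  · intro s hs hs'
    have : v s = 0 := by simpa [hs] using hs'
    simp [this]
  · intro s hs hs'
    apply h; simpa [hs] using hs'

variable (q t : F)

noncomputable def psi (c : ℤ) : St F →ₗ[F] Lam F := Finsupp.lsum F fun s : ℕ => DD q t (s + c)

lemma psi_single (c : ℤ) (s : ℕ) (f : Lam F) :
    psi q t c (Finsupp.single s f) = DD q t (s + c) f := by simp [psi]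

lemma psi_inc (c : ℤ) (f : Lam F) : psi q t c (inc f) = DD q t c f := by
  rw [inc_apply, psi_single]; simp

lemma psi_UU (c : ℤ) (v : St F) : psi q t c (UU v) = psi q t (c+1) v := by
  induction v using st_ind with
  | h0 => simp
  | hadd v w hv hw => simp [hv, hw]
  | hs s f => rw [UU_single, psi_single, psi_single]; congr 2; push_cast; ring

lemma psi_bound (v : St F) : ∃ n : ℕ, ∀ c : ℤ, c ≤ -n → psi q t c v = 0 := by
  induction v using st_ind with
  | h0 => exact ⟨0, by simp⟩
  | hadd v w hv hw =>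
    obtain ⟨n, hn⟩ := hv; obtain ⟨m, hm⟩ := hw
    exact ⟨n + m, fun c hc => by rw [map_add, hn c (by omega), hm c (by omega), add_zero]⟩
  | hs s f =>
    obtain ⟨n, hn⟩ := DD_bound q t f
    exact ⟨n + s, fun c hc => by rw [psi_single, hn _ (by omega)]⟩

noncomputable def EE : St F →ₗ[F] St F :=
  stateOf (fun j => (q * t⁻¹) ^ j • psi q t (-j)) (fun v => by
    obtain ⟨n, hn⟩ := psi_bound q t v
    exact ⟨n, fun j hj => by simp [hn (-j) (by omega)]⟩)

noncomputable def ee (b : ℤ) : Lam F →ₗ[F] St F :=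
  stateOf (fun j => (q * t⁻¹) ^ j • DD q t (b - j)) (fun f => by
    obtain ⟨n, hn⟩ := DD_bound q t f
    exact ⟨n + b.toNat, fun j hj => by simp [hn (b - j) (by omega)]⟩)

lemma EE_apply (v : St F) (j : ℕ) : EE q t v j = (q * t⁻¹) ^ j • psi q t (-j) v := rfl
lemma ee_apply (b : ℤ) (f : Lam F) (j : ℕ) :
    ee q t b f j = (q * t⁻¹) ^ j • DD q t (b - j) f := rfl

lemma EE_single (s : ℕ) (f : Lam F) : EE q t (Finsupp.single s f) = ee q t s f := by
  ext j : 1; rw [EE_apply, ee_apply, psi_single]; rfl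

lemma ee_rec (b : ℤ) (f : Lam F) :
    ee q t b f = inc (DD q t b f) + (q * t⁻¹) • UU (ee q t (b-1) f) := by
  ext j : 1
  cases j with
  | zero => simp [ee_apply]
  | succ j =>
    have : b - ((j+1 : ℕ) : ℤ) = b - 1 - j := by push_cast; ring
    rw [ee_apply, this]; simp [ee_apply, smul_smul, pow_succ, mul_comm]

lemma ee_bound (f : Lam F) : ∃ n : ℕ, ∀ b : ℤ, b ≤ -n → ee q t b f = 0 := by
  obtain ⟨n, hn⟩ := DD_bound q t f
  refine ⟨n, fun b hb => ?_⟩
  ext j : 1; rw [ee_apply, hn _ (by omega)]; simp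

lemma EE_UU (v : St F) : EE q t (UU v) = inc (psi q t 1 v) + (q * t⁻¹) • UU (EE q t v) := by
  ext j : 1
  cases j with
  | zero => simp [EE_apply, psi_UU]
  | succ j =>
    have : -((j+1 : ℕ) : ℤ) + 1 = -j := by push_cast; ring
    rw [EE_apply, psi_UU, this]; simp [EE_apply, smul_smul, pow_succ, mul_comm]

lemma down_ind {M : Type} [AddCommGroup M] [Module F M] (φ : ℕ → M) (a : F)
    (h : ∀ i, φ i = a • φ (i+1)) (n : ℕ) (hn : φ n = 0) : φ 0 = 0 := by
  have : ∀ i, φ 0 = a ^ i • φ i := by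
    intro i; induction i with
    | zero => simp
    | succ i ih => rw [ih, h i, smul_smul, pow_succ]
  rw [this n, hn, smul_zero]

def MM (q t : F) : F := (q - 1) * (1 - t⁻¹)

noncomputable def XN (c b : ℤ) (f : Lam F) : Lam F := DD q t c (DD q t b f) - nn q t c b f

variable [CharZero F]

lemma XN_step (ht : t ≠ 0) (c b : ℤ) (f : Lam F) :
    XN q t c b f - XN q t (c+1) (b-1) f = MM q t • psi q t (c+1) (ee q t (b-1) f) := by
  let d : ℤ → ℤ → Lam F := fun c b =>
    XN q t c b f - XN q t (c+1) (b-1) f - MM q t • psi q t (c+1) (ee q t (b-1) f)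
  have step : ∀ c b, d c b = (q * t⁻¹) • d (c+1) (b-1) := by
    intro c b
    have h1 := DD_DD q t ht c b f
    have h2 := congrArg (psi q t (c+1)) (ee_rec q t (b-1) f)
    rw [map_add, map_smul, psi_inc, psi_UU] at h2
    have e1 : c + 1 + 1 = c + 2 := by ring
    have e2 : b - 1 - 1 = b - 2 := by ring
    simp only [d, XN, MM, e1, e2] at h2 ⊢
    rw [h2]
    linear_combination (norm := module) h1
  obtain ⟨n1, h1⟩ := DD_bound q t f
  obtain ⟨n2, h2⟩ := nn_bound q t f
  obtain ⟨n3, h3⟩ := ee_bound q t f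
  have := down_ind (fun i : ℕ => d (c + i) (b - i)) (q * t⁻¹) (fun i => by
    have e1 : c + (i:ℤ) + 1 = c + ((i+1 : ℕ) : ℤ) := by push_cast; ring
    have e2 : b - (i:ℤ) - 1 = b - ((i+1 : ℕ) : ℤ) := by push_cast; ring
    rw [step, e1, e2]) (n1 + n2 + n3 + b.toNat) (by
    simp only [d, XN]
    rw [h1 _ (by omega), h1 _ (by omega), h2 _ _ (by omega), h2 _ _ (by omega), h3 _ (by omega)]
    simp)
  simp only [d, Nat.cast_zero, add_zero, sub_zero] at this
  exact sub_eq_zero.mp this

omit [CharZero F] in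
noncomputable def Dts : ℕ → Lam F →ₗ[F] St F
  | 0 => inc ∘ₗ DD q t 0
  | s+1 => UU ∘ₗ (Dts s + MM q t • ee q t s)

omit [CharZero F] in
noncomputable def Dt : St F →ₗ[F] St F := Finsupp.lsum F (Dts q t)

omit [CharZero F] in
lemma Dt_single (s : ℕ) (f : Lam F) : Dt q t (Finsupp.single s f) = Dts q t s f := by simp [Dt]

omit [CharZero F] in
lemma Dt_inc (f : Lam F) : Dt q t (inc f) = inc (DD q t 0 f) := by
  rw [inc_apply, Dt_single]; rfl

omit [CharZero F] in
lemma Dt_UU (v : St F) : Dt q t (UU v) = UU (Dt q t v + MM q t • EE q t v) := by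
  induction v using st_ind with
  | h0 => simp
  | hadd v w hv hw => simp only [map_add, hv, hw, smul_add]; abel
  | hs s f => rw [UU_single, Dt_single, Dt_single, EE_single]; rfl

lemma psi_Dts (ht : t ≠ 0) (f : Lam F) (s : ℕ) : ∀ c : ℤ,
    psi q t c (Dts q t s f) = XN q t c s f + nn q t (c + s) 0 f := by
  induction s with
  | zero => intro c; simp [Dts, psi_inc, XN]
  | succ s ih =>
    intro c
    have h := XN_step q t ht c (s+1) f
    have e1 : (s:ℤ) + 1 - 1 = s := by ring
    have e2 : c + ((s+1 : ℕ) : ℤ) = c + 1 + s := by push_cast; ring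
    rw [e1] at h
    simp only [Dts, LinearMap.comp_apply, LinearMap.add_apply, LinearMap.smul_apply, psi_UU,
      map_add, map_smul, ih, e2]
    push_cast
    rw [← h]; abel

lemma psi_Dt (ht : t ≠ 0) (v : St F) : psi q t 0 (Dt q t v) = DD q t 0 (psi q t 0 v) := by
  induction v using st_ind with
  | h0 => simp
  | hadd v w hv hw => simp only [map_add, hv, hw]
  | hs s f =>
    rw [Dt_single, psi_Dts q t ht, psi_single, XN, nn_symm]; simp

lemma Dt_ee (ht : t ≠ 0) (f : Lam F) (r : ℕ) : ∀ b : ℤ,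
    Dt q t (ee q t b f) r = (q * t⁻¹) ^ r • (XN q t (-r) b f + nn q t 0 (b - r) f) := by
  induction r with
  | zero => intro b; rw [ee_rec, map_add, map_smul, Dt_inc, Dt_UU]; simp [XN]
  | succ r ih =>
    intro b
    have h := XN_step q t ht (-((r+1 : ℕ) : ℤ)) b f
    have e1 : -((r+1 : ℕ) : ℤ) + 1 = -r := by push_cast; ring
    have e2 : b - ((r+1 : ℕ) : ℤ) = b - 1 - r := by push_cast; ring
    rw [e1] at h
    rw [ee_rec, map_add (Dt q t), map_smul, Dt_inc, Dt_UU, e2]
    simp only [Finsupp.add_apply, Finsupp.smul_apply, inc_succ, UU_succ, ih, EE_apply, zero_add]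
    rw [smul_comm (MM q t), ← h, pow_succ]
    module

lemma Dt_EE (ht : t ≠ 0) (v : St F) : Dt q t (EE q t v) = EE q t (Dt q t v) := by
  induction v using st_ind with
  | h0 => simp
  | hadd v w hv hw => simp only [map_add, hv, hw]
  | hs s f =>
    ext r : 1
    rw [EE_single, Dt_ee q t ht, EE_apply, Dt_single, psi_Dts q t ht, nn_symm q t 0]
    have e : -(r:ℤ) + s = s - r := by ring
    rw [e]

end MJ
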