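import Pool.Agent.Lib.MP_9c49f6_co.Row

/-! Symbol calculus: conjugating words in `U`, `E` by diagonal operators. -/

namespace MJ
open Finset MvPolynomial

variable {F : Type} [Field F]

def Indep (q t : F) : Prop :=
  Function.Injective fun s : Multiset (ℕ × ℕ) => (s.map (mono q t)).sum

def del (q t : F) (s : Multiset (ℕ × ℕ)) : F := 1 + MM q t * (s.map (mono q t)).sum

section indep
variable {q t : F} (hi : Indep q t)
include hi

lemma Indep.mono_inj : Function.Injective (mono q t) := by
  intro a b h
  have := @hi {a} {b} (by simpa using h)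
  simpa using this

lemma Indep.mono_ne (c : ℕ × ℕ) : mono q t c ≠ 0 := by
  intro h
  have := @hi {c} 0 (by simpa using h)
  simp at this

lemma Indep.t_ne : t ≠ 0 := by
  have := hi.mono_ne (1, 0); simpa [mono] using this

lemma Indep.q_ne : q ≠ 0 := by
  have := hi.mono_ne (0, 1); simpa [mono] using this

lemma Indep.q_pow_ne (k : ℕ) : q ^ (k+1) ≠ 1 := by
  intro h
  have := hi.mono_inj (a₁ := (0, k+1)) (a₂ := (0,0)) (by simpa [mono] using h)
  simp at this

lemma Indep.t_pow_ne (k : ℕ) : t ^ (k+1) ≠ 1 := by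
  intro h
  have := hi.mono_inj (a₁ := (k+1, 0)) (a₂ := (0,0)) (by simp [mono, h])
  simp at this

lemma Indep.t_ne_one : t ≠ 1 := by simpa using hi.t_pow_ne 0

lemma Indep.MM_ne : MM q t ≠ 0 := by
  refine mul_ne_zero (sub_ne_zero.mpr (by simpa using hi.q_pow_ne 0)) (sub_ne_zero.mpr ?_)
  exact fun h => hi.t_ne_one (inv_eq_one.mp h.symm)

lemma Indep.del_inj : Function.Injective (del q t) := by
  intro a b h
  apply hi
  simp only [del, add_right_inj] at h
  exact mul_left_cancel₀ hi.MM_ne h

end indep

lemma del_cons (q t : F) (c : ℕ × ℕ) (s : Multiset (ℕ × ℕ)) :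
    del q t (c ::ₘ s) = del q t s + MM q t * mono q t c := by
  simp [del]; ring

structure Sys (q t : F) (ι : Type) where
  b : Module.Basis ι F (Lam F)
  cells : ι → Finset (ℕ × ℕ)
  cells_inj : Function.Injective cells
  lower : ∀ i (c d : ℕ × ℕ), c ∈ cells i → d.1 ≤ c.1 → d.2 ≤ c.2 → d ∈ cells i
  hom : ∀ i, b i ∈ Hm F (cells i).card
  eig : ∀ i, DD q t 0 (b i) = del q t (cells i).val • b i

variable (q t : F)

noncomputable def run : List (Polynomial F) → St F →ₗ[F] St F
  | [] => LinearMap.id
  | p :: L => run L ∘ₗ UU ∘ₗ Polynomial.aeval (EE q t) p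

@[simp] lemma run_nil (v : St F) : run q t [] v = v := rfl
lemma run_cons (p : Polynomial F) (L : List (Polynomial F)) (v : St F) :
    run q t (p :: L) v = run q t L (UU (Polynomial.aeval (EE q t) p v)) := rfl

lemma run_append (L L' : List (Polynomial F)) (v : St F) :
    run q t (L ++ L') v = run q t L' (run q t L v) := by
  induction L generalizing v with
  | nil => rfl
  | cons p L ih => rw [List.cons_append, run_cons, run_cons, ih]

noncomputable def Zs : Submodule F (St F) where
  carrier := {v | ∀ p L, psi q t 0 (run q t (p :: L) v) = 0}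
  add_mem' := by intro a b ha hb p L; rw [map_add, map_add, ha, hb, add_zero]
  zero_mem' := by intro p L; simp
  smul_mem' := by intro c a ha p L; rw [map_smul, map_smul, ha, smul_zero]

variable {q t}

lemma Zs_aeval (p : Polynomial F) {v : St F} (hv : v ∈ Zs q t) :
    Polynomial.aeval (EE q t) p v ∈ Zs q t := by
  intro p' L
  have := hv (p' * p) L
  rwa [run_cons, map_mul, Module.End.mul_apply, ← run_cons] at this

lemma Zs_EE {v : St F} (hv : v ∈ Zs q t) : EE q t v ∈ Zs q t := by
  simpa using Zs_aeval Polynomial.X hv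

lemma Zs_run {v : St F} (hv : v ∈ Zs q t) (L : List (Polynomial F)) :
    psi q t 0 (run q t L (UU v)) = 0 := by
  have := hv 1 L
  rwa [run_cons, map_one, Module.End.one_apply] at this

lemma Zs_UU {v : St F} (hv : v ∈ Zs q t) : UU v ∈ Zs q t := fun _ _ => Zs_run hv _

lemma Zs_psi {v : St F} (hv : v ∈ Zs q t) : psi q t 1 v = 0 := by
  have := Zs_run hv []
  rwa [run_nil, psi_UU, zero_add] at this

lemma aeval_eig {v : St F} {x : F} (h : EE q t v - x • v ∈ Zs q t) (p : Polynomial F) :
    Polynomial.aeval (EE q t) p v - p.eval x • v ∈ Zs q t := by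
  obtain ⟨r, hr⟩ := Polynomial.X_sub_C_dvd_sub_C_eval (a := x) (p := p)
  have h2 := Zs_aeval r h
  have h3 := congrArg (fun s => Polynomial.aeval (EE q t) s v) hr
  simp only [mul_comm _ r, map_mul, map_sub, Polynomial.aeval_C, Polynomial.aeval_X,
    Module.End.mul_apply, LinearMap.sub_apply, Module.algebraMap_end_apply] at h3
  rw [h3, ← map_sub]; exact h2

section sys
variable {ι : Type} (S : Sys q t ι)

lemma Sys.repr_DD (f : Lam F) (i : ι) :
    S.b.repr (DD q t 0 f) i = del q t (S.cells i).val * S.b.repr f i := by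
  have : (S.b.coord i) ∘ₗ DD q t 0 = del q t (S.cells i).val • S.b.coord i := by
    refine S.b.ext fun j => ?_
    classical
    simp only [LinearMap.comp_apply, S.eig, map_smul, LinearMap.smul_apply, Module.Basis.coord_apply,
      Module.Basis.repr_self, Finsupp.single_apply, smul_eq_mul]
    split_ifs with h
    · subst h; rfl
    · simp
  exact congrArg (fun φ => φ f) this

lemma Sys.eig_zero {f : Lam F} {β : F} (h : DD q t 0 f = β • f)
    (hβ : ∀ i, del q t (S.cells i).val ≠ β) : f = 0 := by
  apply S.b.repr.injective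
  ext i
  have := S.repr_DD f i
  rw [h, map_smul, Finsupp.smul_apply, smul_eq_mul] at this
  by_contra hc
  exact hβ i (mul_right_cancel₀ (by simpa using hc) this).symm

include S in
lemma Sys.eig_sq {f : Lam F} {β : F}
    (h : DD q t 0 (DD q t 0 f - β • f) = β • (DD q t 0 f - β • f)) : DD q t 0 f - β • f = 0 := by
  apply S.b.repr.injective
  ext i
  have := S.repr_DD (DD q t 0 f - β • f) i
  rw [h] at this
  simp only [map_smul, map_sub, Finsupp.smul_apply, Finsupp.sub_apply, smul_eq_mul,
    S.repr_DD, map_zero, Finsupp.zero_apply] at this ⊢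
  have h2 : (del q t (S.cells i).val - β) ^ 2 * S.b.repr f i = 0 := by linear_combination -this
  rcases mul_eq_zero.mp h2 with h3 | h3
  · rw [sub_eq_zero.mp (pow_eq_zero_iff (two_ne_zero) |>.mp h3), sub_self]
  · simp [h3]

noncomputable def Sys.Del (Γ : ι → F) : Lam F →ₗ[F] Lam F := S.b.constr F fun i => Γ i • S.b i

lemma Sys.Del_b (Γ : ι → F) (i : ι) : S.Del Γ (S.b i) = Γ i • S.b i := by simp [Sys.Del]

lemma Sys.Del_eig (hi : Indep q t) (Γ : ι → F) {f : Lam F} {k : ι}
    (h : DD q t 0 f = del q t (S.cells k).val • f) : S.Del Γ f = Γ k • f := by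
  have : f = S.b.repr f k • S.b k := by
    apply S.b.repr.injective
    ext i
    classical
    simp only [map_smul, Module.Basis.repr_self, Finsupp.smul_apply, Finsupp.single_apply,
      smul_eq_mul]
    split_ifs with h1
    · subst h1; simp
    · have := S.repr_DD f i
      rw [h, map_smul, Finsupp.smul_apply, smul_eq_mul] at this
      by_contra hc
      have h2 := hi.del_inj (mul_right_cancel₀ (by simpa using hc) this)
      exact h1 (S.cells_inj (Finset.val_injective h2))
  rw [this, map_smul, S.Del_b, smul_comm]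

variable [CharZero F]

lemma Sys.Hm_ind {m : ℤ} {P : Lam F → Prop} (h0 : P 0) (hadd : ∀ f g, P f → P g → P (f + g))
    (hb : ∀ (a : F) i, ((S.cells i).card : ℤ) = m → P (a • S.b i)) {f : Lam F} (hf : f ∈ Hm F m) :
    P f := by
  classical
  have hr : ∀ i, S.b.repr f i ≠ 0 → ((S.cells i).card : ℤ) = m := by
    intro i hc
    have : (S.b.coord i) ∘ₗ (sc (F := F)).toLinearMap =
        (2:F) ^ ((S.cells i).card : ℤ) • S.b.coord i := by
      refine S.b.ext fun j => ?_
      simp only [LinearMap.comp_apply, AlgHom.toLinearMap_apply, mem_Hm.mp (S.hom j), map_smul,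
        LinearMap.smul_apply, Module.Basis.coord_apply,
        Module.Basis.repr_self, Finsupp.single_apply, smul_eq_mul]
      split_ifs with h
      · subst h; rfl
      · simp
    have h1 := congrArg (fun φ => φ f) this
    simp only [LinearMap.comp_apply, AlgHom.toLinearMap_apply, mem_Hm.mp hf, map_smul,
      LinearMap.smul_apply, Module.Basis.coord_apply, smul_eq_mul] at h1
    have h2 := mul_right_cancel₀ hc h1
    have h3 : ((2:ℚ) ^ m) = (2:ℚ) ^ ((S.cells i).card : ℤ) := by
      apply (algebraMap ℚ F).injective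
      simpa using h2
    exact (zpow_right_injective₀ (by norm_num) (by norm_num) h3).symm
  rw [← S.b.linearCombination_repr f, Finsupp.linearCombination_apply, Finsupp.sum]
  refine Finset.sum_induction _ P hadd h0 fun i hi => hb _ _ (hr i (by simpa using hi))

lemma psi_one_eig (ht : t ≠ 0) (v : St F) :
    DD q t 0 (psi q t 1 v) = psi q t 1 (Dt q t v) + MM q t • psi q t 1 (EE q t v) := by
  have := psi_Dt q t ht (UU v)
  rw [Dt_UU, psi_UU, psi_UU, zero_add, map_add, map_smul] at this
  exact this.symm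

lemma psi_one_eig' (ht : t ≠ 0) {v : St F} {x β : F} (h1 : EE q t v - x • v ∈ Zs q t)
    (h2 : Dt q t v - β • v ∈ Zs q t) :
    DD q t 0 (psi q t 1 v) = (β + MM q t * x) • psi q t 1 v := by
  have e1 := Zs_psi h1
  have e2 := Zs_psi h2
  rw [map_sub, map_smul, sub_eq_zero] at e1 e2
  rw [psi_one_eig ht, e1, e2, add_smul, smul_smul]

omit [CharZero F] in
lemma Dt_UU_eig {v : St F} {x β : F} (h1 : EE q t v - x • v ∈ Zs q t)
    (h2 : Dt q t v - β • v ∈ Zs q t) :
    Dt q t (UU v) - (β + MM q t * x) • UU v ∈ Zs q t := by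
  have := Zs_UU (add_mem h2 (Submodule.smul_mem _ (MM q t) h1))
  convert this using 1
  rw [Dt_UU, ← map_smul UU, ← map_sub UU]; congr 1; module

def Bad (s : Multiset (ℕ × ℕ)) (c : ℕ × ℕ) : Prop :=
  ¬ (c ::ₘ s).Nodup ∨ ∃ h : ℕ × ℕ, h ∉ s ∧ h.1 ≤ c.1 + 1 ∧ h.2 ≤ c.2 + 1 ∧ h.1 + c.2 ≠ h.2 + c.1

omit [CharZero F] in
lemma Sys.bad (i : ι) (c : ℕ × ℕ) : Bad (S.cells i).val c := by
  by_cases h : c ∈ S.cells i
  · left; simp [h]
  · right
    exact ⟨(c.1, c.2 + 1), fun h' => h (S.lower i _ _ h' le_rfl (by simp)), by simp, by simp,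
      by simp; omega⟩

include S in
lemma Sys.dead (hi : Indep q t) (L : List (Polynomial F)) : ∀ (p : Polynomial F) (w : St F)
    (s : Multiset (ℕ × ℕ)) (c : ℕ × ℕ), Bad s c → EE q t w - mono q t c • w ∈ Zs q t →
    Dt q t w - del q t s • w ∈ Zs q t → psi q t 1 w = 0 →
    psi q t 0 (run q t (p :: L) w) = 0 := by
  induction L with
  | nil =>
    intro p w s c _ h1 _ h3
    have := Zs_psi (aeval_eig h1 p)
    rw [map_sub, map_smul, h3, smul_zero, sub_zero] at this
    rw [run_cons, run_nil, psi_UU, zero_add, this]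
  | cons p' L ih =>
    intro p w s c hb h1 h2 h3
    have e := Zs_run (aeval_eig h1 p) (p' :: L)
    rw [map_sub, map_sub, map_sub, map_smul, map_smul, map_smul, sub_eq_zero] at e
    rw [run_cons, e]
    have hm : mono q t (c.1 + 1, c.2 + 1) = (q * t⁻¹) * mono q t c := by
      simp only [mono]; ring
    have g1 : EE q t (UU w) - mono q t (c.1 + 1, c.2 + 1) • UU w ∈ Zs q t := by
      have := Submodule.smul_mem _ (q * t⁻¹) (Zs_UU h1)
      convert this using 1
      rw [EE_UU, h3, hm, map_sub, map_smul, map_zero]; module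
    have g2 : Dt q t (UU w) - del q t (c ::ₘ s) • UU w ∈ Zs q t := by
      rw [del_cons]; exact Dt_UU_eig h1 h2
    have g3 : psi q t 1 (UU w) = 0 := by
      refine S.eig_zero (psi_one_eig' hi.t_ne g1 g2) fun i hc => ?_
      rw [← del_cons] at hc
      have hc' := hi.del_inj hc
      rcases hb with hb | ⟨h, k1, k2, k3, k4⟩
      · have := (S.cells i).nodup
        rw [hc'] at this
        exact hb (Multiset.nodup_cons.mp this).2
      · have m1 : (c.1 + 1, c.2 + 1) ∈ S.cells i := by
          rw [← Finset.mem_val, hc']; simp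
        have m2 := S.lower i _ h m1 k2 k3
        rw [← Finset.mem_val, hc'] at m2
        simp only [Multiset.mem_cons] at m2
        rcases m2 with rfl | rfl | m2
        · simp at k4; omega
        · omega
        · exact k1 m2
    have hb' : Bad (c ::ₘ s) (c.1 + 1, c.2 + 1) := by
      rcases hb with hb | ⟨h, k1, k2, k3, k4⟩
      · left; exact fun hn => hb (Multiset.nodup_cons.mp hn).2
      · right
        refine ⟨h, ?_, by simp; omega, by simp; omega, by simp; omega⟩
        simp only [Multiset.mem_cons, not_or]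
        exact ⟨by rintro rfl; omega, k1⟩
    rw [ih p' (UU w) _ _ hb' g1 g2 g3, smul_zero]

lemma Sys.dead' (hi : Indep q t) {w : St F} {i : ι} {c : ℕ × ℕ}
    (h1 : EE q t w - mono q t c • w ∈ Zs q t)
    (h2 : Dt q t w - del q t (S.cells i).val • w ∈ Zs q t) (h3 : psi q t 1 w = 0) :
    w ∈ Zs q t := fun p L => S.dead hi L p w _ c (S.bad i c) h1 h2 h3

lemma Dt_aeval (ht : t ≠ 0) (p : Polynomial F) (v : St F) :
    Dt q t (Polynomial.aeval (EE q t) p v) = Polynomial.aeval (EE q t) p (Dt q t v) := by
  induction p using Polynomial.induction_on with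
  | C a => simp
  | add p r hp hr => simp [hp, hr]
  | monomial n a h =>
    have e : Polynomial.C a * Polynomial.X ^ (n+1) =
        Polynomial.X * (Polynomial.C a * Polynomial.X ^ n) := by ring
    rw [e, map_mul (Polynomial.aeval (EE q t)), Polynomial.aeval_X, Module.End.mul_apply,
      Module.End.mul_apply, Dt_EE q t ht, h]

lemma type_aeval (ht : t ≠ 0) {β : F} {v : St F} (h : Dt q t v - β • v ∈ Zs q t)
    (p : Polynomial F) :
    Dt q t (Polynomial.aeval (EE q t) p v) - β • Polynomial.aeval (EE q t) p v ∈ Zs q t := by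
  rw [Dt_aeval ht, ← map_smul, ← map_sub]; exact Zs_aeval p h

lemma Sys.mult (hi : Indep q t) {u : St F} {i : ι} {c : ℕ × ℕ}
    (h1 : EE q t (EE q t u - mono q t c • u) - mono q t c • (EE q t u - mono q t c • u) ∈ Zs q t)
    (h2 : Dt q t u - del q t (S.cells i).val • u ∈ Zs q t) :
    EE q t u - mono q t c • u ∈ Zs q t := by
  have h3 : Dt q t (EE q t u - mono q t c • u) -
      del q t (S.cells i).val • (EE q t u - mono q t c • u) ∈ Zs q t := by
    have := type_aeval hi.t_ne h2 ((Polynomial.X - Polynomial.C (mono q t c)) * 1)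
    simpa only [aeval_lin, map_one, Module.End.one_apply] using this
  refine S.dead' hi h1 h3 ?_
  have e1 := psi_one_eig' hi.t_ne h1 h3
  have e2 := Zs_psi h2
  rw [map_sub, map_smul, sub_eq_zero] at e2
  have e3 : MM q t • psi q t 1 (EE q t u - mono q t c • u) = DD q t 0 (psi q t 1 u) -
      (del q t (S.cells i).val + MM q t * mono q t c) • psi q t 1 u := by
    rw [psi_one_eig hi.t_ne, e2, map_sub, map_smul]; module
  have e4 := S.eig_sq (f := psi q t 1 u) (β := del q t (S.cells i).val + MM q t * mono q t c)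
    (by rw [← e3, map_smul, e1, smul_comm])
  rw [← e3] at e4
  exact (smul_eq_zero.mp e4).resolve_left hi.MM_ne

lemma Sys.decomp (hi : Indep q t) (i : ι) (m : ℤ) (N : Submodule F (St F)) (hZ : Zs q t ≤ N)
    (hE : ∀ v ∈ HS F m, ∀ c k, (S.cells k).val = c ::ₘ (S.cells i).val →
      EE q t v - mono q t c • v ∈ Zs q t → Dt q t v - del q t (S.cells i).val • v ∈ Zs q t → v ∈ N)
    (v : St F) (hv : v ∈ HS F m) (hd : Dt q t v - del q t (S.cells i).val • v ∈ Zs q t) :
    v ∈ N := by
  have hE' : ∀ v ∈ HS F m, ∀ c, EE q t v - mono q t c • v ∈ Zs q t →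
      Dt q t v - del q t (S.cells i).val • v ∈ Zs q t → v ∈ N := by
    intro v hv c h1 h2
    by_cases h : ∃ k, (S.cells k).val = c ::ₘ (S.cells i).val
    · obtain ⟨k, hk⟩ := h; exact hE v hv c k hk h1 h2
    · refine hZ (S.dead' hi h1 h2 (S.eig_zero (psi_one_eig' hi.t_ne h1 h2) fun k hk => ?_))
      rw [← del_cons] at hk
      exact h ⟨k, hi.del_inj hk⟩
  have main : ∀ L : List (ℕ × ℕ), ∀ v ∈ HS F m,
      Dt q t v - del q t (S.cells i).val • v ∈ Zs q t →
      Polynomial.aeval (EE q t) (annP q t L) v ∈ Zs q t → v ∈ N := by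
    intro L
    induction L with
    | nil => intro v _ _ h; exact hZ (by simpa [annP] using h)
    | cons c L ih =>
      intro v hv hd h
      rw [annP_cons, aeval_lin] at h
      by_cases h0 : (annP q t L).eval (mono q t c) = 0
      · obtain ⟨r, hr⟩ := Polynomial.dvd_iff_isRoot.mpr h0
        refine ih v hv hd ?_
        rw [hr, aeval_lin] at h ⊢
        exact S.mult hi h (type_aeval hi.t_ne hd r)
      · have h1 := hE' _ (aeval_HS q t (annP q t L) hv) c h (type_aeval hi.t_ne hd _)
        obtain ⟨r, hr⟩ := Polynomial.X_sub_C_dvd_sub_C_eval (a := mono q t c) (p := annP q t L)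
        have h2 : Polynomial.aeval (EE q t) ((Polynomial.X - Polynomial.C (mono q t c)) * r) v
            ∈ N := by
          refine ih _ (aeval_HS q t _ hv) (type_aeval hi.t_ne hd _) ?_
          have := Zs_aeval r h
          rw [← aeval_lin, ← Module.End.mul_apply, ← map_mul] at this
          rw [← Module.End.mul_apply, ← map_mul]
          convert this using 3; ring
        rw [← hr, map_sub, Polynomial.aeval_C, LinearMap.sub_apply,
          Module.algebraMap_end_apply] at h2
        have h3 := sub_mem h1 h2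
        rw [sub_sub_cancel] at h3
        exact (Submodule.smul_mem_iff _ h0).mp h3
  obtain ⟨L, hL⟩ := spectrum q t hi.t_ne hi.t_ne_one (m.toNat + 1)
  exact main L v hv hd (by rw [hL m (by omega) v hv]; exact zero_mem _)

/-- The symbol theorem. -/
theorem Sys.symbol (hi : Indep q t) (Γ : ι → F) (G : Polynomial F) (k0 : ℕ)
    (hΓ : ∀ i k c, k0 ≤ (S.cells i).card → (S.cells k).val = c ::ₘ (S.cells i).val →
      Γ k = Γ i * G.eval (mono q t c))
    (L : List (Polynomial F)) : ∀ (i : ι) (v : St F), k0 ≤ (S.cells i).card →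
      v ∈ HS F (S.cells i).card → Dt q t v - del q t (S.cells i).val • v ∈ Zs q t →
      ∀ p, S.Del Γ (psi q t 0 (run q t (p :: L) v)) =
        Γ i • psi q t 0 (run q t ((p :: L).map (· * G)) v) := by
  have key : ∀ (L : List (Polynomial F)),
      (∀ (k : ι) (w : St F), k0 ≤ (S.cells k).card → UU w ∈ HS F (S.cells k).card →
        Dt q t (UU w) - del q t (S.cells k).val • UU w ∈ Zs q t →
        DD q t 0 (psi q t 1 w) = del q t (S.cells k).val • psi q t 1 w →
        S.Del Γ (psi q t 0 (run q t L (UU w))) =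
          Γ k • psi q t 0 (run q t (L.map (· * G)) (UU w))) →
      ∀ (i : ι) (v : St F), k0 ≤ (S.cells i).card →
      v ∈ HS F (S.cells i).card → Dt q t v - del q t (S.cells i).val • v ∈ Zs q t →
      ∀ p, S.Del Γ (psi q t 0 (run q t (p :: L) v)) =
        Γ i • psi q t 0 (run q t ((p :: L).map (· * G)) v) := by
    intro L H i v hk hv hd p
    let A : St F →ₗ[F] Lam F := S.Del Γ ∘ₗ psi q t 0 ∘ₗ run q t L ∘ₗ UU -
      Γ i • (psi q t 0 ∘ₗ run q t (L.map (· * G)) ∘ₗ UU ∘ₗ Polynomial.aeval (EE q t) G)
    have hA : ∀ w, A w = S.Del Γ (psi q t 0 (run q t L (UU w))) -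
      Γ i • psi q t 0 (run q t (L.map (· * G)) (UU (Polynomial.aeval (EE q t) G w))) := fun _ => rfl
    have : Polynomial.aeval (EE q t) p v ∈ LinearMap.ker A := by
      refine S.decomp hi i _ _ (fun z hz => ?_) (fun w hw c k hc h1 h2 => ?_) _
        (aeval_HS q t p hv) (type_aeval hi.t_ne hd p)
      · rw [LinearMap.mem_ker, hA, Zs_run hz, Zs_run (Zs_aeval G hz)]; simp
      · have hcard : (S.cells k).card = (S.cells i).card + 1 := by
          have := congrArg Multiset.card hc
          simpa using this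
        have e := Zs_run (aeval_eig h1 G) (L.map (· * G))
        rw [map_sub, map_sub, map_sub, map_smul, map_smul, map_smul, sub_eq_zero] at e
        have a1 : UU w ∈ HS F (S.cells k).card := by
          have := UU_HS hw
          rw [hcard]; push_cast; exact this
        have a2 : Dt q t (UU w) - del q t (S.cells k).val • UU w ∈ Zs q t := by
          rw [hc, del_cons]; exact Dt_UU_eig h1 h2
        have a3 : DD q t 0 (psi q t 1 w) = del q t (S.cells k).val • psi q t 1 w := by
          rw [hc, del_cons]; exact psi_one_eig' hi.t_ne h1 h2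
        have a4 := H k w (by omega) a1 a2 a3
        rw [LinearMap.mem_ker, hA, e, a4, hΓ i k c hk hc, smul_smul, sub_self]
    rw [LinearMap.mem_ker, hA, sub_eq_zero] at this
    have e : Polynomial.aeval (EE q t) (p * G) v =
        Polynomial.aeval (EE q t) G (Polynomial.aeval (EE q t) p v) := by
      rw [mul_comm, map_mul (Polynomial.aeval (EE q t)), Module.End.mul_apply]
    rw [run_cons, this, List.map_cons, run_cons, e]
  induction L with
  | nil =>
    refine key [] fun k w _ _ _ h => ?_
    simp only [List.map_nil, run_nil, psi_UU, zero_add]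
    exact S.Del_eig hi Γ h
  | cons p' L ih => exact key _ fun k w h1 h2 h3 _ => ih k _ h1 h2 h3 p'

end sys
end MJ
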