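import Pool.Agent.Lib.MP_9c49f6_co.Final

/-! Top face (`t → 1` at fixed `q`): definitions and statements of the steps. -/

namespace MJT
open MJ Finset MvPolynomial

section defs
variable {n : ℕ}

/-- the coefficient of `x^κ` in `p_μ` -/
noncomputable def rc (μ κ : n.Partition) : ℕ := coeff (expo κ) (psumPart (Fin n) ℕ μ)

/-- the number of parts -/
def ln (μ : n.Partition) : ℕ := Multiset.card μ.parts

/-- `Rd x a`: the element `x` is regular with value `a` -/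
structure Pl {F K : Type} [Field F] [Field K] (Rd : F → K → Prop) : Prop where
  one : Rd 1 1
  neg : ∀ {x a}, Rd x a → Rd (-x) (-a)
  add : ∀ {x a y b}, Rd x a → Rd y b → Rd (x + y) (a + b)
  mul : ∀ {x a y b}, Rd x a → Rd y b → Rd (x * y) (a * b)
  inv : ∀ {x a}, Rd x a → a ≠ 0 → Rd x⁻¹ a⁻¹
  zero : ∀ {a}, Rd 0 a → a = 0

/-- triangular and orthogonal for the diagonal form with weights `z` -/
structure Orth {F : Type} [Field F] (z : n.Partition → F) (P : n.Partition → n.Partition → F) :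
    Prop where
  lead : ∀ l, ∑ μ, P l μ * rc μ l = 1
  tri : ∀ l k, ∑ μ, P l μ * rc μ k ≠ 0 → lst k ≤ lst l
  orth : ∀ l k, l ≠ k → ∑ μ, P l μ * P k μ * z μ = 0

variable {K : Type} [Field K]

/-- `∏ [μ_i]_q / μ_i` -/
def vq (q : K) (μ : n.Partition) : K := (μ.parts.map fun i => qi q i / i).prod

/-- `q^C(m,2) [m]_q!` -/
def gl (q : K) (m : ℕ) : K := q ^ m.choose 2 * ∏ j ∈ range m, qi q (j + 1)

/-- polynomials in the variables `y_k = X (inl k)`, `z_k = X (inr k)` -/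
abbrev AA (K : Type) [Field K] := MvPolynomial (ℕ ⊕ ℕ) K

/-- the coefficient of `u^m` in `exp (∑ y_k u^(k+1) / [k+1]_q)` -/
noncomputable def Hh (q : K) (e : ℕ → ℕ ⊕ ℕ) (m : ℕ) : AA K :=
  ex K (fun k => C (((k + 1 : ℕ) : K) / qi q (k + 1)) * X (e k)) m

/-- the moments -/
noncomputable def Mm (q : K) (m : ℕ) : AA K := C (gl q m) * (Hh q Sum.inl m * Hh q Sum.inr m)

/-- all derivatives at `0` are polynomials in `s` with natural coefficients -/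
def PP (s : K) (f : AA K) : Prop :=
  ∀ d, (d.prod fun _ e => (e.factorial : K)) * coeff d f ∈ Subsemiring.closure ({s} : Set K)

/-- the limit value -/
noncomputable def lim (q : K) (m0 : n.Partition → n.Partition → K) (π μ ν : n.Partition) : K :=
  zz π * vq q π / (vq q μ * vq q ν) *
    ∑ l : n.Partition, (l.parts.map (gl q)).prod * rc μ l * rc ν l * m0 l π

end defs

def St_NAK : Prop := ∀ (F K : Type) [Field F] [Field K] (Rd : F → K → Prop), Pl Rd →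
  ∀ (ι : Type) [Fintype ι] (A : ι → ι → F) (A0 : ι → ι → K), (∀ i j, Rd (A i j) (A0 i j)) →
  (∀ v : ι → K, (∀ j, ∑ i, v i * A0 i j = 0) → v = 0) →
  ∀ (y : ι → F) (c : ι → K), (∀ j, Rd (∑ i, y i * A i j) (c j)) →
  ∃ y0 : ι → K, (∀ i, Rd (y i) (y0 i)) ∧ ∀ j, ∑ i, y0 i * A0 i j = c j

def St_RM : Prop := ∀ (n : ℕ) (μ : n.Partition), rc μ μ ≠ 0 ∧ ∀ κ, rc μ κ ≠ 0 →
  lst μ ≤ lst κ ∧ ln κ ≤ ln μ ∧ (ln κ = ln μ → κ = μ)

def St_REG : Prop := ∀ (F K : Type) [Field F] [Field K] [CharZero F] [CharZero K]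
  (Rd : F → K → Prop), Pl Rd → ∀ (n : ℕ) (θ : F) (z : n.Partition → F) (v : n.Partition → K),
  θ ≠ 0 → Rd θ 0 → (∀ μ, Rd (θ ^ ln μ * z μ) (v μ)) → (∀ μ, v μ ≠ 0) →
  ∀ P, Orth z P → ∀ l k, Rd (∑ μ, P l μ * rc μ k) (if l = k then 1 else 0)

def St_CAU : Prop := ∀ (K A : Type) [Field K] [CharZero K] [CommRing A] [Algebra K A]
  (a : ℕ → A) (n : ℕ) (l : n.Partition),
  ∑ μ : n.Partition, ((rc μ l : K) / zz μ) • (μ.parts.map fun i => a (i - 1)).prod =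
    (l.parts.map (ex K a)).prod

def St_QB : Prop := ∀ (K : Type) [Field K] [CharZero K] (q : K), (∀ k, q ^ (k + 1) ≠ 1) →
  (∀ m, ex K (fun k => (1 - q ^ (k + 1))⁻¹) m * ∏ j ∈ range m, (1 - q ^ (j + 1)) = 1) ∧
  ∀ (n : ℕ) (l : n.Partition), nCol l = (l.parts.map fun i => i.choose 2).sum

def St_LIM : Prop := ∀ (F K : Type) [Field F] [Field K] [CharZero F] [CharZero K]
  (Rd : F → K → Prop), Pl Rd → ∀ (q t θ : F) (q0 : K) (hi : Indep q t), Rd θ 0 → Rd q q0 →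
  Rd t 1 → θ * (q - 1) = t - 1 → (∀ k, q0 ^ (k + 1) ≠ 1) → ∀ n : ℕ,
  ∃ m0 : n.Partition → n.Partition → K,
    (∀ l k, ∑ π, m0 l π * rc π k = if l = k then 1 else 0) ∧ ∀ π μ ν : n.Partition,
    Rd (θ ^ ((n : ℤ) + ln π - ln μ - ln ν) *
      (zz μ * zz ν * t ^ (n * (n - 1)) * cco q t (mac hi) π μ ν)) (lim q0 m0 π μ ν)

def St_PK : Prop := ∀ (K : Type) [Field K] [CharZero K] (s : K),
  (∀ f, PP s f ↔ constantCoeff f ∈ Subsemiring.closure ({s} : Set K) ∧ ∀ i, PP s (pderiv i f)) ∧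
  (∀ f g, PP s f → PP s g → PP s (f + g) ∧ PP s (f * g)) ∧
  (∀ a ∈ Subsemiring.closure ({s} : Set K), PP s (C a)) ∧ (∀ i, PP s (X i)) ∧
  (∀ (a : ℕ → AA K) (i : ℕ ⊕ ℕ) (r : ℕ), pderiv i (ex K a r) =
    ∑ k ∈ range r, C ((k + 1 : ℕ) : K)⁻¹ * pderiv i (a k) * ex K a (r - 1 - k)) ∧
  ∀ (a : ℕ → AA K) (r : ℕ), (∀ k < r, constantCoeff (a k) = 0 ∧
    PP s (C ((k + 1 : ℕ) : K)⁻¹ * a k)) → PP s (ex K a r)

def St_POS : Prop := ∀ (K : Type) [Field K] [CharZero K] (s : K),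
  (∀ k, (1 + s) ^ (k + 1) ≠ 1) → ∃ a : ℕ → AA K, (∀ m, ex K a m = Mm (1 + s) m) ∧
    ∀ k, PP s (C (qi (1 + s) (k + 1) / (k + 1 : ℕ)) * a k)

def St_ASM : Prop := ∀ (K : Type) [Field K] [CharZero K] (s : K),
  (∀ k, (1 + s) ^ (k + 1) ≠ 1) → ∀ (n : ℕ) (m0 : n.Partition → n.Partition → K),
  (∀ l k, ∑ π, m0 l π * rc π k = if l = k then 1 else 0) → ∀ π μ ν : n.Partition,
  lim (1 + s) m0 π μ ν ∈ Subsemiring.closure ({s} : Set K)

end MJT
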