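import Pool.Agent.Lib.MP_9c49f6_co.Two

/-! Positivity and integrality of the operator for `(n-1,1)`. -/

namespace MJ
namespace One22
open Finset MvPolynomial

variable {F : Type} [Field F] {q t : F}

lemma pw_mul (a b : ℕ → F) (d : ℕ →₀ ℕ) : pw (fun k => a k * b k) d = pw a d * pw b d := by
  simp [pw, mul_pow, Finsupp.prod_mul]

lemma mono_succ' (s : ℕ → F) (e : ℕ →₀ ℕ) (j : ℕ) :
    (monomial (e + Finsupp.single j 1) (pw s (e + Finsupp.single j 1)) : Lam F) =
      s j • (X j * monomial e (pw s e)) := by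
  rw [X, monomial_mul, smul_monomial, pw_add, pw_single, add_comm e]
  simp [mul_comm]

section cone
variable {w : F} (D : PosData q t w)

/-- The cone spanned by the monomials in the rescaled power sums `s k • p_(k+1)`. -/
noncomputable def CC (s : ℕ → F) : Subsemiring (Lam F) where
  carrier := {f | ∀ d, ∃ a ∈ D.P, coeff d f = a * pw s d}
  mul_mem' := by
    intro x y hx hy d
    choose a ha h1 using hx
    choose b hb h2 using hy
    refine ⟨∑ p ∈ antidiagonal d, a p.1 * b p.2, sum_mem fun p _ => mul_mem (ha _) (hb _), ?_⟩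
    rw [coeff_mul, sum_mul]
    refine sum_congr rfl fun p hp => ?_
    rw [h1, h2, ← mem_antidiagonal.mp hp, pw_add]; ring
  one_mem' := by
    intro d
    rw [coeff_one]; split_ifs with h
    · subst h; exact ⟨1, one_mem _, by simp [pw]⟩
    · exact ⟨0, zero_mem _, by simp⟩
  add_mem' := by
    intro x y hx hy d
    obtain ⟨a, ha, h1⟩ := hx d; obtain ⟨b, hb, h2⟩ := hy d
    exact ⟨a + b, add_mem ha hb, by rw [coeff_add, h1, h2, add_mul]⟩
  zero_mem' := fun d => ⟨0, zero_mem _, by simp⟩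

variable {s : ℕ → F}

lemma CC_smul {a : F} (ha : a ∈ D.P) {f : Lam F} (hf : f ∈ CC D s) : a • f ∈ CC D s := by
  intro d
  obtain ⟨b, hb, h⟩ := hf d
  exact ⟨a * b, mul_mem ha hb, by rw [coeff_smul, h, smul_eq_mul, mul_assoc]⟩

lemma CC_X (k : ℕ) : s k • (X k : Lam F) ∈ CC D s := by
  intro d
  rw [coeff_smul, coeff_X]
  split_ifs with h
  · subst h; exact ⟨1, one_mem _, by simp [pw_single]⟩
  · exact ⟨0, zero_mem _, by simp⟩

lemma PL_CC (h : ∀ k, ∃ v ∈ D.P, br t k = v * s k) {f : Lam F} (hf : f ∈ D.PL) : f ∈ CC D s := by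
  refine (Subsemiring.closure_le (t := CC D s)).mpr ?_ hf
  rintro x (⟨a, ha, rfl⟩ | ⟨k, rfl⟩)
  · have := CC_smul D ha (one_mem (CC D s))
    rwa [← C_eq_smul_one] at this
  · obtain ⟨v, hv, h1⟩ := h k
    have := CC_smul D hv (CC_X D (s := s) k)
    rwa [smul_smul, ← h1, smul_eq_C_mul] at this

lemma of_coeff {f : Lam F} (h : ∀ e, ∃ a ∈ D.P, coeff e f = a * pw (br t) e) : f ∈ D.PL := by
  rw [f.as_sum]
  refine sum_mem fun e _ => ?_
  obtain ⟨a, ha, h1⟩ := h e
  have := D.smul_mem ha (mono_mem D e)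
  rwa [smul_monomial, smul_eq_mul, ← h1] at this

lemma Sh_B {κ : F} (hκ : κ ∈ D.P) (hκ0 : κ ≠ 0)
    (hu : ∀ k, ∃ u ∈ D.P, (q ^ (k+1) - 1) * s k = κ * u) (e : ℕ →₀ ℕ) : ∀ r : ℤ,
    Sh (fun k => q ^ (k+1) - 1) r (monomial e (pw s e)) ∈ CC D s ∧
    (r ≠ 0 → κ⁻¹ • Sh (fun k => q ^ (k+1) - 1) r (monomial e (pw s e)) ∈ CC D s) := by
  induction e using fs_ind with
  | h0 =>
    intro r
    rw [pw_zero, monomial_zero', Sh_C]
    refine ⟨?_, fun hr => by rw [if_neg hr, smul_zero]; exact zero_mem _⟩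
    split_ifs
    · exact one_mem _
    · exact zero_mem _
  | hs e j ih =>
    intro r
    obtain ⟨u, hu1, hu2⟩ := hu j
    rw [mono_succ', map_smul, Sh_X_mul, smul_add, smul_smul, mul_comm (s j), hu2,
      ← smul_mul_assoc]
    refine ⟨add_mem (mul_mem (CC_X D j) (ih r).1) (CC_smul D (mul_mem hκ hu1) (ih _).1),
      fun hr => ?_⟩
    rw [smul_add, smul_smul, inv_mul_cancel_left₀ hκ0, ← mul_smul_comm]
    exact add_mem (mul_mem (CC_X D j) ((ih r).2 hr)) (CC_smul D hu1 (ih _).1)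

variable [CharZero F]

lemma ee_B {κ : F} (hκ : κ ∈ D.P) (hκ0 : κ ≠ 0)
    (hu : ∀ k, ∃ u ∈ D.P, (q ^ (k+1) - 1) * s k = κ * u)
    (hv : ∀ k, ∃ v ∈ D.P, br t k = v * s k) (d : ℕ →₀ ℕ) (a : ℕ) :
    (t ^ (wt d + a) * κ⁻¹) • ee q t (-1) (monomial d (pw s d)) a ∈ CC D s := by
  have e : cS q t = fun k => t⁻¹ ^ (k+1) * (q ^ (k+1) - 1) := by funext k; rw [cS, mul_comm]
  have ht := D.t0
  have e1 : t ^ (wt d + a) * κ⁻¹ * (q * t⁻¹) ^ a = q ^ a * (t ^ wt d * κ⁻¹) := by
    rw [mul_pow, inv_pow, pow_add]; field_simp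
  rw [ee_apply, smul_smul, e1, mul_smul, DD_eq_sum q t _ _ (wt d + 1)
    (fun s hs => Sh_eq_zero_of_Hm _ (monomial_mem_Hm d _) (by omega)), smul_sum]
  refine CC_smul D (pow_mem D.q_mem a) (sum_mem fun r hr => ?_)
  rcases Nat.eq_zero_or_pos r with rfl | h0
  · rw [gg_neg t (by omega), zero_mul, smul_zero]; exact zero_mem _
  · obtain ⟨c, hc⟩ := Nat.exists_eq_add_of_le (show r ≤ wt d by simpa [Nat.lt_succ_iff] using hr)
    have e2 : t ^ wt d * κ⁻¹ * t⁻¹ ^ r = t ^ c * κ⁻¹ := by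
      rw [hc, inv_pow, pow_add]; field_simp
    rw [e, Sh_scale, mul_smul_comm, smul_smul, e2, mul_smul, ← mul_smul_comm]
    exact CC_smul D (pow_mem D.t_mem c)
      (mul_mem (PL_CC D hv (D.gg_div _).1) ((Sh_B D hκ hκ0 hu d r).2 (by omega)))

end cone

variable [CharZero F]

section pos
variable (hi : Indep q t) (D : PosData q t 0) {s : ℕ → F}

lemma coeff_GG_B (d e : ℕ →₀ ℕ) : coeff e (GG hi D.g (monomial d (pw s d))) =
    mm hi D.g d e * (zn d * pw (fun k => aq D.g q k * s k) d) * pw (br t) e := by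
  have : (monomial d (pw s d) : Lam F) = pw s d • monomial d 1 := by
    rw [smul_monomial, smul_eq_mul, mul_one]
  rw [this, map_smul, coeff_smul, coeff_GG, zd_br hi D.ht, pw_mul, smul_eq_mul]; ring

lemma mm_zero (g : F) {d e : ℕ →₀ ℕ} (h : wt e ≠ wt d) : mm hi g d e = 0 := by
  have h1 : coeff e (GG hi g (monomial d 1)) = 0 := by
    by_contra h2
    have := Hm_coeff ((macSys hi).Del_Hm _ (monomial_mem_Hm d 1)) h2
    exact h (by exact_mod_cast this)
  rw [mm, h1, zero_div]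

lemma tail (j : ℕ) {a k : ℤ} {v : St F} (hv : v ∈ HS F k) (h : D.PS a v) :
    D.PO (a + (2 * k * j + j * j - j + k))
      (D.g⁻¹ • psi q t 1 (run q t (List.replicate j (Polynomial.X * Gt D.g 0)) v)) := by
  have h3 := run_HS (q := q) (t := t) (List.replicate j (Polynomial.X * Gt D.g 0)) hv
  have := D.psi_div (UU_HS h3) (D.PS_UU (D.PS_rep j hv h)) 0
  rw [UU_zero, sub_zero, Nat.cast_zero, neg_zero, psi_UU, zero_add] at this
  have e : a + (2 * k * j + j * j - 2 * j) - 1 +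
      (k + (List.replicate j (Polynomial.X * Gt D.g 0)).length + 1) =
      a + (2 * k * j + j * j - j + k) := by rw [List.length_replicate]; ring
  rwa [e] at this

lemma term_pos {m : ℕ} (hm : 1 ≤ m) {σ : F} (hσ : σ ∈ D.P)
    (hu : ∀ k, aq D.g q k * s k ∈ D.P)
    (hd : ∀ y d, wt d = m → (∀ j, d j ≠ 0 → y * (aq D.g q j * br t j) ∈ D.P) →
      σ * pw (fun k => aq D.g q k * s k) d * y ∈ D.P)
    {a : ℕ} (ha : a ≤ m) {f : Lam F} (hf : f ∈ Hm F (m - a)) (hc : f ∈ CC D s) :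
    D.PO (m * m - a) (σ • D.g⁻¹ • psi q t 1 (GT hi D.g m (Finsupp.single a f))) := by
  rw [f.as_sum, Finsupp.single_finsetSum]
  simp only [map_sum, smul_sum]
  refine D.PO_sum fun d hd' => ?_
  have hw : (wt d : ℤ) = m - a := Hm_coeff hf (mem_support_iff.mp hd')
  obtain ⟨x, hx, h1⟩ := hc d
  have e0 : (monomial d (coeff d f) : Lam F) = x • monomial d (pw s d) := by
    rw [h1, smul_monomial, smul_eq_mul]
  rw [e0, ← Finsupp.smul_single, map_smul, map_smul, smul_comm _ x, smul_comm _ x]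
  refine D.PO_smul hx ?_
  have hG : GG hi D.g (monomial d (pw s d)) ∈ Hm F (wt d) :=
    (macSys hi).Del_Hm _ (monomial_mem_Hm d _)
  by_cases h : a = m
  · subst h
    have hd0 : d = 0 := by
      ext k; by_contra h
      have := le_wt d h; omega
    subst hd0
    obtain ⟨k, rfl⟩ : ∃ k, a = k + 1 := ⟨a - 1, by omega⟩
    rw [GT_top, pw_zero, monomial_zero', C_1, Nat.add_sub_cancel]
    refine D.PO_smul hσ ?_
    have hp : D.PS (0 - 1) (UU (inc 1)) := D.PS_UU (D.PS_inc (by simp [PosData.PO]))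
    have := tail D k (UU_HS (inc_HS (one_mem_Hm (F := F)))) hp
    have e : (0:ℤ) - 1 + (2 * (0 + 1) * k + k * k - k + (0 + 1)) =
        (k+1 : ℕ) * (k+1 : ℕ) - (k+1 : ℕ) := by push_cast; ring
    rwa [e] at this
  · rw [GT_low hi _ h]
    cases a with
    | zero =>
      have hw' : wt d = m := by omega
      have h2 : D.PO ((m * (m - 1) : ℕ) : ℤ) (σ • GG hi D.g (monomial d (pw s d))) := by
        refine of_coeff D fun e => ⟨_, mul_mem (natCast_mem _ (zn d))
          (hd _ d hw' (claim hi D m d e hw')), ?_⟩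
        rw [zpow_natCast, coeff_smul, coeff_smul, coeff_GG_B, smul_eq_mul, smul_eq_mul]; ring
      have := tail D 0 (inc_HS (Submodule.smul_mem _ σ hG)) (D.PS_inc h2)
      have e : ((m * (m - 1) : ℕ) : ℤ) + (2 * (wt d) * (0:ℕ) + (0:ℕ) * (0:ℕ) - (0:ℕ) + wt d) =
          m * m - (0:ℕ) := by
        obtain ⟨k, rfl⟩ : ∃ k, m = k + 1 := ⟨m - 1, by omega⟩
        rw [hw', Nat.add_sub_cancel]; push_cast; ring
      rw [e, map_smul, map_smul, map_smul, smul_comm] at this
      exact this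
    | succ a =>
      refine D.PO_smul hσ ?_
      have h2 := PS_Gt' D hG (Sh_cone D ((wt d * (wt d - 1) : ℕ) : ℤ) _
        (fun e => mm hi D.g d e * (zn d * pw (fun k => aq D.g q k * s k) d))
        (fun e => coeff_GG_B hi D d e) (fun e j hj => by
          by_cases hw : wt e = wt d
          · have := mul_mem (claim hi D _ e d hw j hj)
              (mul_mem (natCast_mem _ (zn d)) (pw_mem D hu d))
            rw [zpow_natCast, mm_symm]
            refine (congrArg (· ∈ D.P) ?_).mp this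
            ring
          · rw [mm_zero hi _ hw]; simp))
      have h3 := aeval_HS q t (Gt D.g 0) (inc_HS hG)
      have := tail D a (UU_HS (EE_HS q t h3)) (D.PS_UU (D.PS_EE h3 h2))
      have e : ((wt d * (wt d - 1) : ℕ) : ℤ) + wt d + wt d - 1 +
          (2 * (wt d + 1) * a + a * a - a + (wt d + 1)) = m * m - (a+1 : ℕ) := by
        obtain ⟨k, hk⟩ : ∃ k, wt d = k + 1 := ⟨wt d - 1, by omega⟩
        have : (m:ℤ) = k + 1 + (a + 1) := by rw [hk] at hw; push_cast at hw; omega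
        rw [hk, Nat.add_sub_cancel, this]; push_cast; ring
      rw [e] at this
      rw [List.replicate_succ, run_cons, map_mul, Polynomial.aeval_X, Module.End.mul_apply]
      exact this

theorem HH_pos {m : ℕ} (hm : 1 ≤ m) {σ κ : F} (hσ : σ ∈ D.P) (hκ : κ ∈ D.P) (hκ0 : κ ≠ 0)
    (hu : ∀ k, aq D.g q k * s k ∈ D.P)
    (hu' : ∀ k, ∃ u ∈ D.P, (q ^ (k+1) - 1) * s k = κ * u)
    (hv : ∀ k, ∃ v ∈ D.P, br t k = v * s k)
    (hd : ∀ y d, wt d = m → (∀ j, d j ≠ 0 → y * (aq D.g q j * br t j) ∈ D.P) →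
      σ * pw (fun k => aq D.g q k * s k) d * y ∈ D.P)
    (d e : ℕ →₀ ℕ) (hw : wt d = m + 1) :
    t ^ (m * m + m + 1) * (σ * D.g⁻¹ * κ⁻¹ * pw s d) *
      coeff e (HH hi D.g m (monomial d 1)) ∈ D.P := by
  have hv' : ee q t (-1) (monomial d (pw s d)) ∈ HS F m := by
    have := ee_HS (q := q) (t := t) (-1) (monomial_mem_Hm d (pw s d))
    have e : ((wt d : ℕ) : ℤ) + -1 = m := by rw [hw]; push_cast; ring
    rwa [e] at this
  have key : D.PO ((m * m + m + 1 : ℕ) : ℤ)
      (σ • D.g⁻¹ • κ⁻¹ • HH hi D.g m (monomial d (pw s d))) := by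
    rw [HH, LinearMap.comp_apply, LinearMap.comp_apply, st_eq_sum hv']
    simp only [map_sum, smul_sum]
    refine D.PO_sum fun a ha => ?_
    have ha' : a ≤ m := by simpa [Nat.lt_succ_iff] using ha
    have := term_pos hi D hm hσ hu hd ha' (Submodule.smul_mem _ _ (hv' a))
      (ee_B D hκ hκ0 hu' hv d a)
    rw [← Finsupp.smul_single, map_smul, map_smul] at this
    unfold PosData.PO at this ⊢
    simp only [smul_smul] at this ⊢
    have e1 : t ^ ((m * m + m + 1 : ℕ) : ℤ) = t ^ ((m:ℤ) * m - a) * t ^ (wt d + a) := by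
      rw [← zpow_natCast, ← zpow_add₀ D.t0, hw]; congr 1; push_cast; ring
    refine (congrArg (fun c => c • _ ∈ D.PL) ?_).mp this
    rw [e1]; ring
  obtain ⟨a, ha, h1⟩ := D.coeff_mem key e
  have e0 : (monomial d (pw s d) : Lam F) = pw s d • monomial d 1 := by
    rw [smul_monomial, smul_eq_mul, mul_one]
  rw [e0, map_smul, zpow_natCast] at h1
  simp only [coeff_smul, smul_eq_mul] at h1
  refine (congrArg (· ∈ D.P) ?_).mp (mul_mem ha (pw_mem D (D.br_mem D.t_mem) e))
  rw [← h1]; ring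

end pos

lemma GG_gg (hi : Indep q t) (g : F) (k : ℕ) (h : Lam F) :
    GG hi g (gg t (k+1 : ℕ) * h) =
      psi q t 0 (run q t (Gt g 0 :: List.replicate k (Polynomial.X * Gt g 0)) (inc (GG hi g h))) +
      constantCoeff h • psi q t 0 (run q t (List.replicate k (Polynomial.X * Gt g 0))
        (UU (inc 1))) := by
  have : GG hi g ∘ₗ LinearMap.mulLeft F (gg t (k+1 : ℕ)) =
      psi q t 0 ∘ₗ run q t (Gt g 0 :: List.replicate k (Polynomial.X * Gt g 0)) ∘ₗ inc ∘ₗ GG hi g +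
      (lcoeff F 0).smulRight (psi q t 0 (run q t (List.replicate k (Polynomial.X * Gt g 0))
        (UU (inc 1)))) := by
    refine (macSys hi).b.ext fun i => ?_
    simp only [LinearMap.comp_apply, LinearMap.mulLeft_apply, LinearMap.add_apply,
      LinearMap.smulRight_apply, lcoeff_apply]
    have hh := (macSys hi).hom i
    rcases Nat.eq_zero_or_pos ((macSys hi).cells i).card with h0 | h0
    · rw [h0, Nat.cast_zero] at hh
      have h1 := (macSys hi).first hi (Gam q t (Gt g 0)) _ (gam_step hi _) (gam_one hi _)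
        (List.replicate k 1)
      have h2 : DD q t (k+1 : ℕ) 1 = gg t (k+1 : ℕ) := by simpa using DD_C q t (k+1 : ℕ) 1
      have h3 : (0:ℤ) + k + 1 = (k+1 : ℕ) := by push_cast; ring
      rw [List.map_replicate, one_mul, run_rep_one, psi_UU_pow, psi_UU, psi_inc, h3, h2] at h1
      have h4 : Polynomial.aeval (EE q t) (Gt g 0) (inc (1 : Lam F)) = 0 := by
        simp [Gt, EE_inc_one]
      rw [GG, Sys.Del_b, Hm_zero hh, C_eq_smul_one]
      simp only [mul_smul_comm, map_smul, mul_one, run_cons, h4, map_zero, smul_zero, zero_add, h1,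
        coeff_smul, coeff_zero_one, smul_eq_mul]
    · have h1 := (macSys hi).symbol' hi (Gam q t (Gt g 0)) _ 1 (gam_step hi _)
        (wd 1 (rr hi (((macSys hi).cells i).card + (0:ℕ))) 0 k) (by simp [wd]) i
        (inc ((macSys hi).b i)) h0 (inc_HS hh) (by rw [Dt_inc, (macSys hi).eig, map_smul])
      rw [wd_map, run_wd_rr hi _ _ _ (inc_HS hh)] at h1
      have h2 := rr_spec hi (ww_HS q t 0 hh)
      rw [EE_ww, pow_zero, one_smul, pow_zero, Module.End.one_apply] at h2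
      have h3 : (0:ℤ) + k + 1 = (k+1 : ℕ) := by push_cast; ring
      have h4 : coeff 0 ((macSys hi).b i) = 0 := by
        by_contra h
        have := Hm_coeff hh h
        simp [wt] at this; omega
      rw [wd, List.replicate_zero, List.nil_append, run_cons, h2, run_rep_one, psi_UU_pow, psi_UU,
        psi_ww, h3, sum_range_one] at h1
      rw [h4, zero_smul, add_zero, GG, Sys.Del_b, map_smul, map_smul, map_smul]
      simpa [gb, wd] using h1
  exact congrArg (fun φ => φ h) this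

section int
variable {R : Subring F} {g : F} (hi : Indep q t) (hq : q ∈ R) (hT : t⁻¹ ∈ R) (hg : g⁻¹ ∈ R)

omit hi in
lemma IL_pk (k : ℕ) : pk t k ∈ IL R t := by
  induction k using Nat.strong_induction_on with
  | _ k ih =>
    have h1 := ex_succ (F := F) (fun k => (C (t ^ (k+1) - 1) * X k : Lam F)) k
    rw [← gen_nat, ← gg, sum_range_succ, Nat.sub_self, ex_zero, mul_one] at h1
    rw [pk, ← sub_eq_iff_eq_add'.mpr h1]
    refine sub_mem (IL_smul (add_mem (natCast_mem _ _) (one_mem _)) (IL_gg _))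
      (sum_mem fun j hj => mul_mem (ih j (mem_range.mp hj)) ?_)
    rw [← gen_nat, ← gg]; exact IL_gg _

include hq hT hg

lemma IL_GG {f : Lam F} (hf : f ∈ IL R t) : GG hi g f ∈ IL R t := by
  have ht := hi.t_ne
  have h0 : (0 : F) ∈ R := zero_mem _
  have key : ∀ f ∈ IL R t, ∀ h ∈ IL R t, GG hi g h ∈ IL R t → GG hi g (f * h) ∈ IL R t := by
    intro f hf
    induction hf using Subring.closure_induction with
    | mem x hx =>
      intro h h1 h2
      rcases hx with ⟨a, ha, rfl⟩ | ⟨m, rfl⟩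
      · rw [← smul_eq_C_mul, map_smul]; exact IL_smul ha h2
      · rcases lt_trichotomy m 0 with hm | rfl | hm
        · rw [gg_neg t hm, zero_mul, map_zero]; exact zero_mem _
        · rwa [gg_zero, one_mul]
        · obtain ⟨k, rfl⟩ : ∃ k : ℕ, m = (k+1 : ℕ) := ⟨(m - 1).toNat, by omega⟩
          obtain ⟨a, ha, h3⟩ := IL_coeff h1 0
          have h4 : constantCoeff h = a := by
            have h5 : coeff 0 h = a := by simpa [zn, pw] using h3
            exact h5
          rw [GG_gg, h4]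
          refine add_mem (IL_psi ht hq hT _ (IL_run ht hq hT hg h0 _ (fun p hp => ?_) (IL_inc h2)))
            (IL_smul ha (IL_psi ht hq hT _ (IL_run ht hq hT hg h0 _
              (fun p hp => Or.inl (List.eq_of_mem_replicate hp)) (IL_UU (IL_inc (one_mem _))))))
          rcases List.mem_cons.mp hp with h5 | h5
          · exact Or.inr h5
          · exact Or.inl (List.eq_of_mem_replicate h5)
    | zero => intro h _ _; simp
    | one => intro h _ h2; rwa [one_mul]
    | add x y _ _ hx hy =>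
      intro h h1 h2; rw [add_mul, map_add]; exact add_mem (hx h h1 h2) (hy h h1 h2)
    | neg x _ hx => intro h h1 h2; rw [neg_mul, map_neg]; exact neg_mem (hx h h1 h2)
    | mul x y _ hy' hx hy =>
      intro h h1 h2; rw [mul_assoc]; exact hx _ (mul_mem hy' h1) (hy h h1 h2)
  have h1 : GG hi g 1 = 1 := by
    have e : DD q t 0 (1 : Lam F) = del q t ((macSys hi).cells ⟨0, default⟩).val • 1 := by
      have h2 : (macSys hi).cells ⟨0, default⟩ = ∅ := card_eq_zero.mp (card_cells _)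
      have := DD_C q t 0 1
      rw [h2]; simpa [del] using this
    have h2 : cells (default : Nat.Partition 0) = ∅ := card_eq_zero.mp (card_cells _)
    rw [GG, (macSys hi).Del_eig hi _ e, Gam, h2]; simp
  simpa using key f hf 1 (one_mem _) (by rw [h1]; exact one_mem _)

lemma IL_HH (m : ℕ) {f : Lam F} (hf : f ∈ IL R t) (hm : f ∈ Hm F (m+1 : ℕ)) :
    HH hi g m f ∈ IL R t := by
  have ht := hi.t_ne
  have h0 : (0 : F) ∈ R := zero_mem _
  have hv : ee q t (-1) f ∈ HS F m := by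
    have := ee_HS (q := q) (t := t) (-1) hm
    have e : ((m + 1 : ℕ) : ℤ) + -1 = m := by push_cast; ring
    rwa [e] at this
  rw [HH, LinearMap.comp_apply, LinearMap.comp_apply, st_eq_sum hv, map_sum, map_sum]
  refine sum_mem fun a _ => IL_psi ht hq hT _ ?_
  have h1 : ee q t (-1) f a ∈ IL R t := by
    rw [ee_apply]; exact IL_smul (pow_mem (mul_mem hq hT) _) (IL_DD ht hq hT _ hf)
  by_cases h : a = m
  · subst h
    rw [GT_top]
    exact IL_run ht hq hT hg h0 _ (fun p hp => Or.inl (List.eq_of_mem_replicate hp))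
      (IL_UU (IL_inc h1))
  · rw [GT_low hi g h]
    exact IL_run ht hq hT hg h0 _ (fun p hp => Or.inl (List.eq_of_mem_replicate hp))
      (IL_inc (IL_GG hi hq hT hg h1))

lemma HH_int (m : ℕ) (d e : ℕ →₀ ℕ) (hw : wt d = m + 1) : ∃ a ∈ R,
    pw (fun k => t ^ (k+1) - 1) d * (zn e * coeff e (HH hi g m (monomial d 1))) =
      a * pw (fun k => t ^ (k+1) - 1) e := by
  have h1 : ∀ d : ℕ →₀ ℕ, (monomial d (pw (fun k => t ^ (k+1) - 1) d) : Lam F) ∈ IL R t := by
    intro d
    induction d using fs_ind with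
    | h0 => rw [pw_zero]; exact one_mem _
    | hs d j ih =>
      rw [mono_succ', ← smul_mul_assoc, smul_eq_C_mul]
      exact mul_mem (IL_pk j) ih
  obtain ⟨a, ha, h2⟩ := IL_coeff (IL_HH hi hq hT hg m (h1 d) (hw ▸ monomial_mem_Hm d _)) e
  have e0 : (monomial d (pw (fun k => t ^ (k+1) - 1) d) : Lam F) =
      pw (fun k => t ^ (k+1) - 1) d • monomial d 1 := by
    rw [smul_monomial, smul_eq_mul, mul_one]
  rw [e0, map_smul, coeff_smul, smul_eq_mul] at h2
  exact ⟨a, ha, by rw [← h2]; ring⟩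

end int

omit [CharZero F] in
lemma pw_tau {g : F} (ht : t = 1 + g) (d : ℕ →₀ ℕ) :
    pw (fun k => t ^ (k+1) - 1) d = pw (fun _ => g) d * pw (br t) d := by
  rw [← pw_mul]
  congr 1
  funext k
  have h : t - 1 = g := by rw [ht]; ring
  rw [br, ← h, mul_geom_sum]

omit [CharZero F] in
lemma pw_sub {R : Subring F} {s : ℕ → F} (hs : ∀ k, s k ∈ R) (d : ℕ →₀ ℕ) : pw s d ∈ R :=
  prod_mem fun k _ => pow_mem (hs k) _

lemma cco_top2 (hi : Indep q t) {g : F} (ht : t = 1 + g) {k : ℕ} (π μ ν : (k+1+1).Partition)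
    (hπ : dOf π = Finsupp.single k 1 + Finsupp.single 0 1) :
    zz μ * cco q t (mac hi) π μ ν = t * (g⁻¹ * (q ^ (k+1) - 1) * g⁻¹ * g⁻¹ *
      pw (fun j => br t j / aq g q j) (dOf μ)) *
      coeff (dOf ν) (HH hi g (k+1) (monomial (dOf μ) 1)) := by
  have hg : g ≠ 0 := fun h => hi.t_ne_one (by rw [ht, h, add_zero])
  have hq : q - 1 ≠ 0 := sub_ne_zero.mpr (by simpa using hi.q_pow_ne 0)
  have haq : ∀ j, aq g q j ≠ 0 := fun j =>
    mul_ne_zero (inv_ne_zero hg) (sub_ne_zero.mpr (hi.q_pow_ne j))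
  have h1 := cco_two hi ht μ ν π hπ
  have h2 := cco_rot (q := q) (t := t) (mac hi) π μ ν
  have h3 := zd_br hi ht (dOf μ)
  have h4 := zd_br hi ht (dOf π)
  have h5 : pw (fun j => br t j / aq g q j) (dOf μ) * pw (aq g q) (dOf μ) = pw (br t) (dOf μ) := by
    rw [← pw_mul]; congr 1; funext j; exact div_mul_cancel₀ _ (haq j)
  rw [zd_dOf, zn_dOf] at h3 h4
  rw [hπ, pw_add, pw_add, pw_single, pw_single, pw_single, pw_single] at h4
  have e1 : br t 0 = 1 := by simp [br]
  have e2 : aq g q 0 = g⁻¹ * (q - 1) := by simp [aq]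
  have e3 : qi t (k+1) = br t k := rfl
  rw [e1, e2, aq] at h4
  rw [e3] at h1
  have h6 := br_ne hi k
  have h7 := pw_ne haq (dOf μ)
  have e4 := mul_inv_cancel₀ hq
  rw [div_eq_mul_inv, mul_inv] at h1
  apply mul_left_cancel₀ (mul_ne_zero h6 h7)
  generalize coeff (dOf ν) (HH hi g (k+1) (monomial (dOf μ) 1)) = c at h1 ⊢
  generalize cco q t (mac hi) π μ ν = A at h2 ⊢
  generalize cco q t (mac hi) μ ν π = B at h1 h2
  generalize pw (fun j => br t j / aq g q j) (dOf μ) = S at h5 ⊢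
  linear_combination (-(br t k * A)) * h3 + (br t k * pw (br t) (dOf μ)) * h2 +
    (pw (br t) (dOf μ) * B) * h4 +
    (pw (br t) (dOf μ) * (g⁻¹ * (q ^ (k+1) - 1)) * (g⁻¹ * (q - 1))) * h1 -
    (br t k * t * (g⁻¹ * (q ^ (k+1) - 1) * g⁻¹ * g⁻¹) * c) * h5 +
    (pw (br t) (dOf μ) * br t k * t * (g⁻¹ * (q ^ (k+1) - 1) * g⁻¹ * g⁻¹) * c) * e4

section final
variable {σ : Type} {x : σ → F}

lemma fin_nat' (hx : AlgebraicIndependent ℚ x) {ib ig : σ} (h : ib ≠ ig) {y : F}
    (hy : y ∈ (posD hx h).P) (U : MvPolynomial σ ℤ) (x0 : σ → ℤ) (hU : eval x0 U = 1)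
    (e : aeval x U * y ∈ RR x ig) : ∃ P : MvPolynomial σ ℕ, y = aeval x P := by
  obtain ⟨p, hp, rfl⟩ := hy
  obtain ⟨n, B, hB, h2⟩ := e
  have hinj := algebraicIndependent_iff_injective_aeval.mp hx
  have hm : aeval x (map (Int.castRingHom ℚ) U) = aeval x U := aeval_map_algebraMap ℚ x U
  have h1 : (X ig * (1 + X ig)) ^ n * (map (Int.castRingHom ℚ) U * p) = B :=
    hinj (by rw [map_mul, map_mul, hm]; simpa using h2)
  exact to_nat x hp (gauss' U x0 hU (gauss_pow ig n (h1 ▸ hB)))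

lemma RR_facts (hx : AlgebraicIndependent ℚ x) {ib ig : σ} (h : ib ≠ ig) :
    x ig ∈ RR x ig ∧ x ib ∈ RR x ig ∧ (1 + x ig)⁻¹ ∈ RR x ig ∧ (x ig)⁻¹ ∈ RR x ig := by
  have ht := (indep hx h).t_ne
  have hg : x ig ≠ 0 := (posD hx h).g0
  exact ⟨by simpa using RR_mem (x := x) ig (X_ZZ ig), by simpa using RR_mem (x := x) ig (X_ZZ ib),
    ⟨1, X ig, X_ZZ ig, by simp only [aeval_X]; field_simp⟩,
    ⟨1, 1 + X ig, add_mem (one_mem _) (X_ZZ ig), by
      simp only [aeval_X, map_add, map_one]; field_simp⟩⟩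

theorem nat_t2 (hx : AlgebraicIndependent ℚ x) {ib ig : σ} (h : ib ≠ ig) {k : ℕ}
    (π μ ν : (k+1+1).Partition) (hν : dOf ν = Finsupp.single k 1 + Finsupp.single 0 1) :
    ∃ P : MvPolynomial σ ℕ, zz μ * zz ν * (1 + x ig) ^ ((k+1+1) * (k+1+1-1)) *
      cco (1 + x ig * (1 + x ib)) (1 + x ig) (mac (indep hx h)) π μ ν = aeval x P := by
  classical
  have hi := indep hx h
  let D := posD hx h
  have hg : x ig ≠ 0 := D.g0
  have hα : 1 + x ib ≠ 0 := fun h0 => hi.q_pow_ne 0 (by rw [h0]; simp)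
  have e0 : zz μ * zz ν * (1 + x ig) ^ ((k+1+1) * (k+1+1-1)) *
      cco (1 + x ig * (1 + x ib)) (1 + x ig) (mac hi) π μ ν =
      zz μ * ((1 + x ig) ^ ((k+1) * (k+1) + (k+1) + 1) *
        (qi (1 + x ig) (k+1) * (x ig)⁻¹ * (x ig * (1 + x ib))⁻¹ * pw (fun _ => 1) (dOf π)) *
        coeff (dOf μ) (HH hi (x ig) (k+1) (monomial (dOf π) 1))) := by
    have h1 := cco_two hi rfl π μ ν hν
    have h2 : pw (fun _ => (1:F)) (dOf π) = 1 := by simp [pw]
    have h3 : (k+1+1) * (k+1+1-1) = (k+1) * (k+1) + (k+1) := by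
      rw [Nat.add_sub_cancel]; ring
    rw [add_sub_cancel_left, div_eq_mul_inv, mul_inv] at h1
    rw [h2, h3, pow_succ]
    linear_combination (zz μ * (1 + x ig) ^ ((k+1) * (k+1) + (k+1))) * h1
  have h2 := HH_pos hi D (s := fun _ => 1) (m := k+1) (σ := qi (1 + x ig) (k+1))
    (κ := x ig * (1 + x ib)) (by omega) (D.br_mem D.t_mem k)
    (mul_mem D.hg (add_mem (one_mem _) D.hb)) (mul_ne_zero hg hα)
    (fun j => by rw [mul_one]; exact D.qdiv j)
    (fun j => ⟨_, D.br_mem D.q_mem j, by rw [mul_one, br, ← mul_geom_sum, add_sub_cancel_left]⟩)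
    (fun j => ⟨_, D.br_mem D.t_mem j, (mul_one _).symm⟩)
    (fun y d hd hy => by
      have := sum_t D y d hy
      rw [hd] at this
      simpa only [mul_one] using this) (dOf π) (dOf μ) (wt_dOf π)
  obtain ⟨r1, r2, r3, r4⟩ := RR_facts hx h
  obtain ⟨a, ha, h3⟩ := HH_int hi (add_mem (one_mem _) (mul_mem r1 (add_mem (one_mem _) r2))) r3 r4
    (k+1) (dOf π) (dOf μ) (wt_dOf π)
  rw [pw_tau rfl, pw_tau rfl, zn_dOf] at h3
  have rt := add_mem (one_mem _) r1
  have hb : ∀ j, br (1 + x ig) j ∈ RR x ig := fun j => sum_mem fun i _ => pow_mem rt i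
  rw [e0]
  refine fin_nat' hx h (mul_mem (natCast_mem _ _) h2)
    ((1 + X ib) * (π.parts.map fun i => ∑ j ∈ range i, (1 + X ig) ^ j).prod)
    (fun i => if i = ig then -1 else 0) ?_ ?_
  · rw [map_mul, map_multiset_prod, Multiset.map_map, Multiset.prod_eq_one]
    · simp [h]
    · intro y hy
      obtain ⟨i, hi', rfl⟩ := Multiset.mem_map.mp hy
      exact eval_geom _ (by simp) (π.parts_pos hi')
  · simp only [map_mul, map_multiset_prod, Multiset.map_map, Function.comp_def, aeval_qi,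
      map_add, map_one, aeval_X]
    have e2 : pw (br (1 + x ig)) (dOf π) = (π.parts.map (qi (1 + x ig))).prod :=
      prod_dOf π (qi (1 + x ig))
    have h4 : pw (fun _ => (1:F)) (dOf π) = 1 := by simp [pw]
    have h5 : pw (fun _ => (x ig)⁻¹) (dOf π) * pw (fun _ => x ig) (dOf π) = 1 := by
      rw [← pw_mul]; simp [pw, inv_mul_cancel₀ hg]
    have h6 := mul_inv_cancel₀ hα
    have := mul_mem (mul_mem (mul_mem (pow_mem rt ((k+1) * (k+1) + (k+1) + 1))
      (mul_mem (mul_mem (hb k) r4) r4)) (pw_sub (fun _ => r4) (dOf π))) (mul_mem ha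
        (mul_mem (pw_sub (fun _ => r1) (dOf μ)) (pw_sub hb (dOf μ))))
    refine (congrArg (· ∈ RR x ig) ?_).mp this
    rw [← h3, ← e2, h4, mul_inv]
    change _ = _ * (_ * (_ * (br (1 + x ig) k * _ * _ * _) * _))
    generalize coeff (dOf μ) (HH hi (x ig) (k+1) (monomial (dOf π) 1)) = c
    linear_combination ((1 + x ig) ^ ((k+1) * (k+1) + (k+1) + 1) * br (1 + x ig) k * (x ig)⁻¹ *
      (x ig)⁻¹ * pw (br (1 + x ig)) (dOf π) * zz μ * c) * (h5 - h6)

theorem nat_q2 (hx : AlgebraicIndependent ℚ x) {ib ig : σ} (h : ib ≠ ig) {k : ℕ}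
    (π μ ν : (k+1+1).Partition) (hπ : dOf π = Finsupp.single k 1 + Finsupp.single 0 1) :
    ∃ P : MvPolynomial σ ℕ, zz μ * zz ν * (1 + x ig) ^ ((k+1+1) * (k+1+1-1)) *
      cco (1 + x ig * (1 + x ib)) (1 + x ig) (mac (indep hx h)) π μ ν = aeval x P := by
  classical
  have hi := indep hx h
  let D := posD hx h
  have hg : x ig ≠ 0 := D.g0
  have haq : ∀ j, aq (x ig) (1 + x ig * (1 + x ib)) j ≠ 0 := fun j =>
    mul_ne_zero (inv_ne_zero hg) (sub_ne_zero.mpr (hi.q_pow_ne j))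
  have hs : (fun j => aq (x ig) (1 + x ig * (1 + x ib)) j *
      (br (1 + x ig) j / aq (x ig) (1 + x ig * (1 + x ib)) j)) = br (1 + x ig) :=
    funext fun j => mul_div_cancel₀ _ (haq j)
  have e0 : zz μ * zz ν * (1 + x ig) ^ ((k+1+1) * (k+1+1-1)) *
      cco (1 + x ig * (1 + x ib)) (1 + x ig) (mac hi) π μ ν =
      zz ν * ((1 + x ig) ^ ((k+1) * (k+1) + (k+1) + 1) *
        ((x ig)⁻¹ * ((1 + x ig * (1 + x ib)) ^ (k+1) - 1) * (x ig)⁻¹ * (x ig)⁻¹ *
          pw (fun j => br (1 + x ig) j / aq (x ig) (1 + x ig * (1 + x ib)) j) (dOf μ)) *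
        coeff (dOf ν) (HH hi (x ig) (k+1) (monomial (dOf μ) 1))) := by
    have h1 := cco_top2 hi rfl π μ ν hπ
    have h3 : (k+1+1) * (k+1+1-1) = (k+1) * (k+1) + (k+1) := by
      rw [Nat.add_sub_cancel]; ring
    rw [h3, pow_succ (1 + x ig) ((k+1) * (k+1) + (k+1))]
    linear_combination (zz ν * (1 + x ig) ^ ((k+1) * (k+1) + (k+1))) * h1
  have h2 := HH_pos hi D (s := fun j => br (1 + x ig) j / aq (x ig) (1 + x ig * (1 + x ib)) j)
    (m := k+1) (σ := (x ig)⁻¹ * ((1 + x ig * (1 + x ib)) ^ (k+1) - 1))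
    (κ := x ig) (by omega) (D.qdiv k) D.hg hg
    (fun j => (congrFun hs j).symm ▸ D.br_mem D.t_mem j)
    (fun j => ⟨_, D.br_mem D.t_mem j, by
      have h1 := congrFun hs j
      have h2 : x ig * aq (x ig) (1 + x ig * (1 + x ib)) j =
          (1 + x ig * (1 + x ib)) ^ (j+1) - 1 := by rw [aq, mul_inv_cancel_left₀ hg]
      rw [← h2, mul_assoc, h1]⟩)
    (fun j => ⟨_, D.qdiv j, (congrFun hs j).symm⟩)
    (fun y d hd hy => by
      have := sum_q D y d hy
      rw [hd, ← hs] at this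
      exact this) (dOf μ) (dOf ν) (wt_dOf μ)
  obtain ⟨r1, r2, r3, r4⟩ := RR_facts hx h
  have rq := add_mem (one_mem _) (mul_mem r1 (add_mem (one_mem _) r2))
  obtain ⟨a, ha, h3⟩ := HH_int hi rq r3 r4 (k+1) (dOf μ) (dOf ν) (wt_dOf μ)
  rw [pw_tau rfl, pw_tau rfl, zn_dOf] at h3
  have rt := add_mem (one_mem _) r1
  have hb : ∀ j, br (1 + x ig) j ∈ RR x ig := fun j => sum_mem fun i _ => pow_mem rt i
  have haq' : ∀ k, (x ig)⁻¹ * ((1 + x ig * (1 + x ib)) ^ k - 1) =
      (1 + x ib) * qi (1 + x ig * (1 + x ib)) k := fun k => by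
    rw [qi, ← mul_geom_sum]; field_simp; ring
  rw [e0]
  refine fin_nat' hx h (mul_mem (natCast_mem _ _) h2)
    (μ.parts.map fun i => (1 + X ib) * ∑ j ∈ range i, (1 + X ig * (1 + X ib)) ^ j).prod
    (fun i => if i = ig then -1 else 0) ?_ ?_
  · rw [map_multiset_prod, Multiset.map_map]
    refine Multiset.prod_eq_one fun y hy => ?_
    obtain ⟨i, hi', rfl⟩ := Multiset.mem_map.mp hy
    rw [Function.comp_apply, map_mul, eval_geom _ (by simp [h]) (μ.parts_pos hi')]
    simp [h]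
  · simp only [map_mul, map_multiset_prod, Multiset.map_map, Function.comp_def, aeval_qi,
      map_add, map_one, aeval_X]
    have e3 : pw (aq (x ig) (1 + x ig * (1 + x ib))) (dOf μ) =
        (μ.parts.map fun i => (1 + x ib) * qi (1 + x ig * (1 + x ib)) i).prod := by
      rw [← funext haq']
      exact prod_dOf μ fun k => (x ig)⁻¹ * ((1 + x ig * (1 + x ib)) ^ k - 1)
    have h4 := pw_mul (aq (x ig) (1 + x ig * (1 + x ib)))
      (fun j => br (1 + x ig) j / aq (x ig) (1 + x ig * (1 + x ib)) j) (dOf μ)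
    rw [hs] at h4
    have h5 : pw (fun _ => (x ig)⁻¹) (dOf μ) * pw (fun _ => x ig) (dOf μ) = 1 := by
      rw [← pw_mul]; simp [pw, inv_mul_cancel₀ hg]
    have := mul_mem (mul_mem (mul_mem (pow_mem rt ((k+1) * (k+1) + (k+1) + 1))
      (mul_mem (mul_mem (mul_mem r4 (sub_mem (pow_mem rq (k+1)) (one_mem _))) r4) r4))
      (pw_sub (fun _ => r4) (dOf μ))) (mul_mem ha
        (mul_mem (pw_sub (fun _ => r1) (dOf ν)) (pw_sub hb (dOf ν))))
    refine (congrArg (· ∈ RR x ig) ?_).mp this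
    rw [← h3, ← e3, h4]
    generalize coeff (dOf ν) (HH hi (x ig) (k+1) (monomial (dOf μ) 1)) = c
    generalize pw (aq (x ig) (1 + x ig * (1 + x ib))) (dOf μ) = A
    generalize pw (fun j => br (1 + x ig) j / aq (x ig) (1 + x ig * (1 + x ib)) j) (dOf μ) = S
    linear_combination ((1 + x ig) ^ ((k+1) * (k+1) + (k+1) + 1) *
      ((x ig)⁻¹ * ((1 + x ig * (1 + x ib)) ^ (k+1) - 1) * (x ig)⁻¹ * (x ig)⁻¹) *
      A * S * zz ν * c) * h5

end final

lemma big_part {n : ℕ} (l : n.Partition) {k : ℕ} (hk : k ∈ l.parts) (h : n ≤ k + 1) :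
    l = Nat.Partition.indiscrete n ∨
      ∃ j, n = j + 1 + 1 ∧ dOf l = Finsupp.single j 1 + Finsupp.single 0 1 := by
  obtain ⟨r, hr⟩ := Multiset.exists_cons_of_mem hk
  have h1 := l.parts_sum
  have h2 : ∀ i ∈ r, 0 < i := fun i hi => l.parts_pos (by rw [hr]; exact Multiset.mem_cons_of_mem hi)
  have h3 := l.parts_pos hk
  rw [hr, Multiset.sum_cons] at h1
  rcases Multiset.empty_or_exists_mem r with rfl | ⟨a, ha⟩
  · left
    refine Nat.Partition.ext ?_
    rw [Multiset.sum_zero, add_zero] at h1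
    rw [hr, Nat.Partition.indiscrete_parts (by omega), h1]; rfl
  · right
    obtain ⟨r', rfl⟩ := Multiset.exists_cons_of_mem ha
    have h4 := h2 a ha
    rw [Multiset.sum_cons] at h1
    have h5 : r' = 0 := by
      by_contra h6
      obtain ⟨b, hb⟩ := Multiset.exists_mem_of_ne_zero h6
      have := h2 b (Multiset.mem_cons_of_mem hb)
      have := Multiset.le_sum_of_mem hb
      omega
    subst h5
    rw [Multiset.sum_zero] at h1
    obtain rfl : a = 1 := by omega
    refine ⟨k - 1, by omega, ?_⟩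
    rw [dOf, hr, ← Multiset.toFinsupp_singleton, ← Multiset.toFinsupp_singleton, ← map_add]
    simp

end One22
end MJ
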