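import Pool.Agent.Lib.MP_9c49f6_co.One

/-! The operator whose matrix gives the coefficients indexed by `(n-1,1)`. -/

namespace MJ
namespace One22
open Finset MvPolynomial

variable {F : Type} [Field F] {q t : F} [CharZero F]

lemma spec1 (hi : Indep q t) (m : ℕ) (hm : 1 ≤ m) : ∃ L : List (ℕ × ℕ), (0, 0) ∉ L ∧
    ∀ w ∈ HS F m, Polynomial.aeval (EE q t) (annP q t L) w = 0 := by
  have ht := hi.t_ne
  have ht1 := hi.t_ne_one
  obtain ⟨L', hL'⟩ := spectrum q t ht ht1 m
  have inner : ∀ k : ℕ, ∃ L : List (ℕ × ℕ), (0, 0) ∉ L ∧ ∀ w ∈ HS F m,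
      w ∈ Fs q t k → Polynomial.aeval (EE q t) (annP q t L) w = 0 := by
    intro k
    induction k with
    | zero =>
      refine ⟨[], by simp, fun w hw0 hw => ?_⟩
      have hc : ∀ s, w s = C (constantCoeff (w s)) := fun s => eq_C_of_Sh _ fun j hj => by
        have := congrArg (fun v => v s) (hw.1 j (by simpa using hj))
        rw [HV_apply] at this
        exact this
      have hw1 : w = 0 := by
        ext s : 1
        cases s with
        | zero =>
          have h0 : constantCoeff (w 0) = 0 := by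
            by_contra h
            have := Hm_coeff (hw0 0) (d := 0) h
            simp [wt] at this; omega
          rw [hc 0, h0]; simp
        | succ s =>
          have := hw.2 (s+1) (by omega)
          rw [sig_coeff, sum_range_succ, sum_eq_zero] at this
          · simpa using this
          · intro i hi
            rw [hc i, Sh_C, if_neg (by simp at hi; omega)]
      simp [hw1]
    | succ k ihk =>
      obtain ⟨L, hL0, hL⟩ := ihk
      refine ⟨L ++ (L'.map fun c => (c.1 + 1, c.2)) ++ [(0, k+1)], by simp [hL0],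
        fun w hw hF => ?_⟩
      rw [annP_append, annP_append, map_mul, map_mul, Module.End.mul_apply, Module.End.mul_apply]
      set w1 := Polynomial.aeval (EE q t) (annP q t [(0, k+1)]) w with hw1
      have e1 : w1 = EE q t w - q ^ (k+1) • w := by
        have := aeval_lin q t (mono q t (0,k+1)) 1 w
        simp only [hw1, annP, List.map_cons, List.map_nil, List.prod_cons, List.prod_nil]
        rw [this]; simp [mono]
      have f1 : w1 ∈ Fs q t (k+1) :=
        e1 ▸ sub_mem (EE_Fs q t ht ht1 hF) (Submodule.smul_mem _ _ hF)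
      have s1 : (sig q t w1).coeff (k+1) = 0 := by
        rw [e1, map_sub, map_smul, Polynomial.coeff_sub, Polynomial.coeff_smul,
          sig_EE q t ht ht1 hF _ le_rfl]; simp
      have g1 : w1 ∈ HS F m := aeval_HS q t _ hw
      obtain ⟨h1, h2, h3⟩ := annP_down q t ht ht1 f1 s1 L'
      have g2 : HV ((k+1 : ℕ) : ℤ) w1 ∈ HS F (m - (k+1 : ℕ)) := by
        intro s
        have := Sh_Hm (c1 F) ((k+1 : ℕ) : ℤ) (g1 s)
        have e : (m:ℤ) - s - (k+1 : ℕ) = m - (k+1 : ℕ) - s := by ring
        rw [HV_apply]; rwa [e] at this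
      rw [hL' _ (by omega) _ g2, smul_zero] at h3
      refine hL _ (aeval_HS q t _ g1) ⟨fun j hj => ?_, fun d hd => ?_⟩
      · rcases eq_or_lt_of_le (show ((k+1 : ℕ) : ℤ) ≤ j by omega) with h | h
        · rw [← h]; exact h3
        · exact h1.1 j h
      · rcases eq_or_lt_of_le (show k+1 ≤ d by omega) with h | h
        · rw [← h]; exact h2
        · exact h1.2 d h
  obtain ⟨L, hL0, hL⟩ := inner m
  refine ⟨L, hL0, fun w hw => hL w hw ⟨fun j hj => ?_, fun d hd => ?_⟩⟩
  · ext s : 1
    rw [HV_apply]; exact Sh_eq_zero_of_Hm _ (hw s) (by omega)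
  · rw [sig_coeff]
    exact sum_eq_zero fun s _ => Sh_eq_zero_of_Hm _ (hw s) (by omega)

lemma exists_inv (hi : Indep q t) {g : F} (hg : g ≠ 0) (m : ℕ) (hm : 1 ≤ m) :
    ∃ r : Polynomial F, ∀ w ∈ HS F m,
      Polynomial.aeval (EE q t) (r * (Polynomial.X * Gt g 0)) w = w := by
  obtain ⟨L, hL0, hL⟩ := spec1 hi m hm
  have hc : ∀ L : List (ℕ × ℕ), (0, 0) ∉ L → IsCoprime (Polynomial.X * Gt g 0) (annP q t L) := by
    intro L
    induction L with
    | nil => intro _; simpa [annP] using isCoprime_one_right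
    | cons c L ih =>
      intro h
      rw [annP_cons]
      refine IsCoprime.mul_right ?_ (ih fun h' => h (List.mem_cons_of_mem _ h'))
      have h1 : (Polynomial.X * Gt g 0).eval (mono q t c) ≠ 0 := by
        have h2 : mono q t c ≠ 1 := fun h2 => h (by
          have := hi.mono_inj (a₁ := c) (a₂ := (0,0)) (by simpa [mono] using h2)
          rw [this]; exact List.mem_cons_self)
        simp [Gt, hi.mono_ne c, hg, sub_ne_zero.mpr h2]
      obtain ⟨u, hu⟩ := Polynomial.X_sub_C_dvd_sub_C_eval (a := mono q t c)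
        (p := Polynomial.X * Gt g 0)
      refine ⟨Polynomial.C ((Polynomial.X * Gt g 0).eval (mono q t c))⁻¹,
        -Polynomial.C ((Polynomial.X * Gt g 0).eval (mono q t c))⁻¹ * u, ?_⟩
      have h3 : Polynomial.C ((Polynomial.X * Gt g 0).eval (mono q t c))⁻¹ *
          Polynomial.C ((Polynomial.X * Gt g 0).eval (mono q t c)) = 1 := by
        rw [← map_mul, inv_mul_cancel₀ h1, map_one]
      linear_combination Polynomial.C ((Polynomial.X * Gt g 0).eval (mono q t c))⁻¹ * hu + h3
  obtain ⟨r, s, h⟩ := hc L hL0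
  refine ⟨r, fun w hw => ?_⟩
  have := congrArg (fun p => Polynomial.aeval (EE q t) p w) h
  simp only [map_add, map_one, LinearMap.add_apply, Module.End.one_apply] at this
  rw [map_mul _ s, Module.End.mul_apply, hL w hw, map_zero, add_zero] at this
  exact this

omit [CharZero F] in
lemma UU_inj {v w : St F} (h : UU v = UU w) : v = w := by
  ext s : 1
  have := congrArg (fun u => u (s+1)) h
  simpa using this

lemma Dt_ee_neg (hi : Indep q t) (f : Lam F) :
    Dt q t (ee q t (-1) f) + MM q t • EE q t (ee q t (-1) f) = ee q t (-1) (DD q t 0 f) := by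
  have hρ : q * t⁻¹ ≠ 0 := mul_ne_zero hi.q_ne (inv_ne_zero hi.t_ne)
  have e0 : ∀ f : Lam F, EE q t (inc f) = inc (DD q t 0 f) + (q * t⁻¹) • UU (ee q t (-1) f) := by
    intro f
    have := ee_rec q t 0 f
    rw [zero_sub] at this
    rw [inc_apply, EE_single, Nat.cast_zero, this]
  have h := Dt_EE q t hi.t_ne (inc f)
  rw [Dt_inc, e0, e0, map_add, map_smul, Dt_inc, Dt_UU, add_right_inj] at h
  exact UU_inj (smul_right_injective _ hρ h)

lemma ee_HS (b : ℤ) {m : ℤ} {f : Lam F} (hf : f ∈ Hm F m) : ee q t b f ∈ HS F (m + b) := by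
  intro s
  rw [ee_apply]
  have := DD_Hm q t (b - s) hf
  have e : m + (b - s) = m + b - s := by ring
  rw [e] at this
  exact Submodule.smul_mem _ _ this

lemma DD_KK (hi : Indep q t) (r : Polynomial F) (f : Lam F) :
    DD q t 0 (psi q t 1 (Polynomial.aeval (EE q t) r (ee q t (-1) f))) =
      psi q t 1 (Polynomial.aeval (EE q t) r (ee q t (-1) (DD q t 0 f))) := by
  have e : EE q t (Polynomial.aeval (EE q t) r (ee q t (-1) f)) =
      Polynomial.aeval (EE q t) r (EE q t (ee q t (-1) f)) := by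
    have := congrArg (fun p => Polynomial.aeval (EE q t) p (ee q t (-1) f))
      (mul_comm Polynomial.X r)
    simpa using this
  rw [psi_one_eig hi.t_ne, Dt_aeval hi.t_ne, e, ← Dt_ee_neg hi, map_add, map_add, map_smul,
    map_smul]

omit [CharZero F] in
lemma eig_mult {ι : Type} (S : Sys q t ι) (hi : Indep q t) {f : Lam F} {k : ι}
    (h : DD q t 0 f = del q t (S.cells k).val • f) : f = S.b.repr f k • S.b k := by
  apply S.b.repr.injective
  ext i
  classical
  simp only [map_smul, Module.Basis.repr_self, Finsupp.smul_apply, Finsupp.single_apply,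
    smul_eq_mul]
  split_ifs with h1
  · subst h1; simp
  · have := S.repr_DD f i
    rw [h, map_smul, Finsupp.smul_apply, smul_eq_mul] at this
    by_contra hc
    have h2 := hi.del_inj (mul_right_cancel₀ (by simpa using hc) this)
    exact h1 (S.cells_inj (Finset.val_injective h2))

lemma gam_step (hi : Indep q t) (G : Polynomial F) (i k : Σ n : ℕ, n.Partition) (c : ℕ × ℕ)
    (h1 : 1 ≤ ((macSys hi).cells i).card)
    (h2 : ((macSys hi).cells k).val = c ::ₘ ((macSys hi).cells i).val) :
    Gam q t G k = Gam q t G i * (Polynomial.X * G).eval (mono q t c) := by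
  change (cells k.2).val = c ::ₘ (cells i.2).val at h2
  have h3 : c ∉ cells i.2 := by
    have := (cells k.2).nodup
    rw [h2] at this; exact (Multiset.nodup_cons.mp this).1
  have h4 : cells k.2 = insert c (cells i.2) := by
    apply Finset.val_injective; rw [h2, insert_val_of_notMem h3]
  have h5 := zero_mem_cells i.2 (by rw [← card_cells i.2]; exact h1)
  rw [Gam, Gam, h4, erase_insert_of_ne (by rintro rfl; exact h3 h5),
    prod_insert (fun h => h3 (mem_of_mem_erase h)), mul_comm]

lemma gam_one (hi : Indep q t) (G : Polynomial F) (i : Σ n : ℕ, n.Partition)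
    (h : ((macSys hi).cells i).val = {(0,0)}) : Gam q t G i = 1 := by
  have : cells i.2 = {(0, 0)} := Finset.val_injective h
  rw [Gam, this]; simp

/-- The extension of `GG` to states of degree `m`. -/
noncomputable def GT (hi : Indep q t) (g : F) (m : ℕ) : St F →ₗ[F] St F :=
  Finsupp.lsum F fun a : ℕ =>
    if a = m then run q t (List.replicate (m-1) (Polynomial.X * Gt g 0)) ∘ₗ UU ∘ₗ inc
    else run q t (List.replicate a (Polynomial.X * Gt g 0)) ∘ₗ inc ∘ₗ GG hi g

lemma GT_top (hi : Indep q t) (g : F) (m : ℕ) (f : Lam F) :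
    GT hi g m (Finsupp.single m f) =
      run q t (List.replicate (m-1) (Polynomial.X * Gt g 0)) (UU (inc f)) := by simp [GT]

lemma GT_low (hi : Indep q t) (g : F) {m a : ℕ} (h : a ≠ m) (f : Lam F) :
    GT hi g m (Finsupp.single a f) =
      run q t (List.replicate a (Polynomial.X * Gt g 0)) (inc (GG hi g f)) := by simp [GT, h]

lemma GT_zero (hi : Indep q t) (g : F) {m : ℕ} (hm : 1 ≤ m) (v : St F) :
    GT hi g m v 0 = GG hi g (v 0) := by
  induction v using st_ind with
  | h0 => simp
  | hadd v w hv hw => simp [hv, hw]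
  | hs a f =>
    by_cases h : a = m
    · subst h
      rw [GT_top, run_UU_zero, Finsupp.single_eq_of_ne (by omega), map_zero]
    · rw [GT_low hi g h]
      cases a with
      | zero => simp
      | succ a =>
        rw [List.replicate_succ, run_cons, run_UU_zero, Finsupp.single_eq_of_ne (by omega),
          map_zero]

lemma st_eq_sum {m : ℕ} {v : St F} (hv : v ∈ HS F m) :
    v = ∑ a ∈ range (m+1), Finsupp.single a (v a) := by
  ext s : 1
  rw [Finsupp.finsetSum_apply]
  simp only [Finsupp.single_apply, sum_ite_eq', mem_range]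
  split_ifs with h
  · rfl
  · exact HS_bound hv (by omega)

lemma Hm_zero {f : Lam F} (hf : f ∈ Hm F 0) : f = C (constantCoeff f) :=
  eq_C_of_Sh f fun _ hj => Sh_eq_zero_of_Hm _ hf hj

lemma psi_GT (hi : Indep q t) (g : F) {m : ℕ} (hm : 1 ≤ m) {r : Polynomial F}
    (hr : ∀ w ∈ HS F m, Polynomial.aeval (EE q t) (r * (Polynomial.X * Gt g 0)) w = w)
    {v : St F} (hv : v ∈ HS F m) :
    psi q t 1 (GT hi g m v) = GG hi g (psi q t 1 (Polynomial.aeval (EE q t) r v)) := by
  have last : ∀ (p : Polynomial F) (L : List (Polynomial F)) (u : St F),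
      psi q t 0 (run q t (L ++ [p]) u) = psi q t 1 (Polynomial.aeval (EE q t) p (run q t L u)) := by
    intro p L u
    rw [run_append, run_cons, run_nil, psi_UU, zero_add]
  rw [st_eq_sum hv]
  simp only [map_sum]
  refine sum_congr rfl fun a ha => ?_
  have ha' : a ≤ m := by simpa [Nat.lt_succ_iff] using ha
  have hf := hv a
  generalize v a = f at hf
  by_cases h : a = m
  · subst h
    rw [sub_self] at hf
    obtain ⟨k, rfl⟩ : ∃ k, a = k + 1 := ⟨a - 1, by omega⟩
    have e1 : (Finsupp.single (k+1) (1 : Lam F) : St F) =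
        run q t (List.replicate k 1) (UU (inc 1)) := by
      rw [run_rep_one, ← Module.End.mul_apply, ← pow_succ, UU_pow_inc]
    have e2 : (Finsupp.single (k+1) f : St F) = constantCoeff f • Finsupp.single (k+1) 1 := by
      rw [Finsupp.smul_single, ← C_eq_smul_one, ← Hm_zero hf]
    have h1 := (macSys hi).first hi (Gam q t (Gt g 0)) _ (gam_step hi _) (gam_one hi _)
      (List.replicate k 1 ++ [r])
    have h2 := run_HS (q := q) (t := t) (List.replicate k (Polynomial.X * Gt g 0))
      (UU_HS (inc_HS (one_mem_Hm (F := F))))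
    have e3 : (0:ℤ) + 1 + (List.replicate k (Polynomial.X * Gt g 0)).length = (k+1 : ℕ) := by
      rw [List.length_replicate]; push_cast; ring
    rw [e3] at h2
    rw [List.map_append, List.map_replicate, one_mul, List.map_singleton, last, last, hr _ h2,
      ← e1] at h1
    rw [e2]
    simp only [map_smul]
    rw [GT_top, Nat.add_sub_cancel, ← h1]
    rfl
  · rw [GT_low hi g h]
    refine (macSys hi).Hm_ind (P := fun f => psi q t 1 (run q t
      (List.replicate a (Polynomial.X * Gt g 0)) (inc (GG hi g f))) =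
      GG hi g (psi q t 1 (Polynomial.aeval (EE q t) r (Finsupp.single a f)))) (by simp)
      (fun f g hf hg => by simp only [map_add, Finsupp.single_add, hf, hg]) (fun c i hc => ?_) hf
    have h1 := (macSys hi).symbol' hi (Gam q t (Gt g 0)) _ 1 (gam_step hi _)
      (List.replicate a 1 ++ [r]) (by simp) i (inc ((macSys hi).b i)) (by omega)
      (inc_HS ((macSys hi).hom i)) (by rw [Dt_inc, (macSys hi).eig, map_smul])
    have h2 := run_HS (q := q) (t := t) (List.replicate a (Polynomial.X * Gt g 0))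
      (inc_HS ((macSys hi).hom i))
    have e3 : ((((macSys hi).cells i).card : ℤ)) +
        (List.replicate a (Polynomial.X * Gt g 0)).length = m := by
      rw [List.length_replicate, hc]; ring
    rw [e3] at h2
    rw [List.map_append, List.map_replicate, one_mul, List.map_singleton, last, last, hr _ h2,
      run_rep_one, UU_pow_inc] at h1
    rw [← Finsupp.smul_single]
    simp only [map_smul]
    congr 1
    rw [GG, h1, Sys.Del_b]
    simp only [map_smul]

/-- The operator for `(m,1)`. -/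
noncomputable def HH (hi : Indep q t) (g : F) (m : ℕ) : Lam F →ₗ[F] Lam F :=
  psi q t 1 ∘ₗ GT hi g m ∘ₗ ee q t (-1)

lemma HH_eig (hi : Indep q t) {g : F} (hg : g ≠ 0) {m : ℕ} (hm : 1 ≤ m)
    (l : (m+1).Partition) : ∃ a : F, HH hi g m (Th (mac hi l)) = a • Th (mac hi l) ∧
      a * phi t 0 (Th (mac hi l)) = - phi t 0 (GG hi g (DD q t (-1) (Th (mac hi l)))) := by
  obtain ⟨r, hr⟩ := exists_inv hi hg m hm
  have hv : ee q t (-1) (Th (mac hi l)) ∈ HS F m := by
    have := ee_HS (q := q) (t := t) (-1) (Th_Hm (mac hi l))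
    have e : ((m + 1 : ℕ) : ℤ) + -1 = m := by push_cast; ring
    rwa [e] at this
  have h1 := psi_GT hi g hm hr hv
  have h2 := DD_KK hi r (Th (mac hi l))
  rw [mac_eig, map_smul, map_smul, map_smul] at h2
  have h3 := eig_mult (macSys hi) hi (k := ⟨m+1, l⟩) h2
  rw [h3, map_smul, GG, Sys.Del_b, smul_smul, macSys_b] at h1
  refine ⟨_, h1, ?_⟩
  have h4 := congrArg (phi t 0) h1
  rw [phi_psi_one hi, GT_zero hi g hm, map_smul, smul_eq_mul, ee_apply] at h4
  simpa using h4.symm

lemma ip_D1 (hi : Indep q t) (f h : Lam F) :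
    ip q t (DD q t 1 f) h = t * ip q t f (DD q t (-1) h) := by
  obtain ⟨n, hn⟩ := Sh_bound (cS q t) f
  obtain ⟨m, hm⟩ := Sh_bound (cS q t) h
  have e : cS q t = fun k => t⁻¹ ^ (k+1) * (q ^ (k+1) - 1) := by funext k; rw [cS, mul_comm]
  rw [ip_symm q t f, DD_eq_sum q t 1 f (n+m) (fun s hs => hn s (by omega)),
    DD_eq_sum q t (-1) h (n+m+1) (fun s hs => hm s (by omega)), sum_range_succ',
    gg_neg t (by simp), zero_mul, add_zero, map_sum, map_sum, LinearMap.sum_apply,
    LinearMap.sum_apply, mul_sum]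
  refine sum_congr rfl fun s _ => ?_
  have e1 : (1:ℤ) + s = (s+1 : ℕ) := by push_cast; ring
  have e2 : (-1:ℤ) + (s+1 : ℕ) = s := by push_cast; ring
  have ht := hi.t_ne
  rw [e1, e2, ip_gg hi, ip_gg hi, e, Sh_scale, Sh_scale, map_smul, map_smul,
    LinearMap.smul_apply, LinearMap.smul_apply, ip_symm, smul_eq_mul, smul_eq_mul, pow_succ',
    ← mul_assoc, ← mul_assoc, mul_inv_cancel₀ ht, one_mul]

/-- eigenvalue of `∇` -/
noncomputable def TT (q t : F) (i : Σ n : ℕ, n.Partition) : F := ∏ c ∈ cells i.2, mono q t c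

lemma nabla_pk (hi : Indep q t) (f : Lam F) :
    (macSys hi).Del (TT q t) (pk t 0 * f) = DD q t 1 ((macSys hi).Del (TT q t) f) := by
  have hΓ : ∀ i k c, 0 ≤ ((macSys hi).cells i).card →
      ((macSys hi).cells k).val = c ::ₘ ((macSys hi).cells i).val →
      TT q t k = TT q t i * Polynomial.X.eval (mono q t c) := by
    intro i k c _ h
    change (cells k.2).val = c ::ₘ (cells i.2).val at h
    simp only [TT, Finset.prod_eq_multiset_prod, h, Multiset.map_cons, Multiset.prod_cons,
      Polynomial.eval_X]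
    ring
  have : (macSys hi).Del (TT q t) ∘ₗ LinearMap.mulLeft F (pk t 0) =
      DD q t 1 ∘ₗ (macSys hi).Del (TT q t) := by
    refine (macSys hi).b.ext fun j => ?_
    simp only [LinearMap.comp_apply, LinearMap.mulLeft_apply]
    have h1 := inc_HS ((macSys hi).Del_Hm (TT q t) ((macSys hi).hom j))
    rw [(macSys hi).Del_pk hi _ _ 0 hΓ 0 (by omega) ((macSys hi).hom j), YY_apply, sum_range_one,
      wd, List.replicate_zero, List.nil_append, run_cons, map_mul, Polynomial.aeval_X,
      Module.End.mul_apply, Nat.cast_zero, add_zero, rr_spec hi h1]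
    simp [psi_UU, psi_inc]
  exact congrArg (fun φ => φ f) this

lemma pd_nabla (hi : Indep q t) (h : Lam F) :
    (q - 1) • pderiv 0 ((macSys hi).Del (TT q t) h) =
      t • (macSys hi).Del (TT q t) (DD q t (-1) h) := by
  ext d
  have h1 := congrArg (fun f => ip q t f h) (nabla_pk hi (monomial d 1))
  rw [ip_Del hi, ip_D1 hi, ip_Del hi, pk, mul_assoc, ← smul_eq_C_mul, map_smul,
    LinearMap.smul_apply, ip_X, ip_monomial, ip_monomial] at h1
  have h2 := zd_ne hi d
  have h3 : (1 - t) ≠ 0 := sub_ne_zero.mpr hi.t_ne_one.symm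
  rw [coeff_smul, coeff_smul, smul_eq_mul, smul_eq_mul]
  simp only [smul_eq_mul, zero_add, pow_one, Nat.cast_zero, one_mul] at h1
  field_simp at h1
  apply mul_left_cancel₀ h3
  linear_combination h1

lemma theta_nabla (hi : Indep q t) {g : F} (ht : t = 1 + g) {k : ℕ} {f : Lam F}
    (hf : f ∈ Hm F (k+1 : ℕ)) :
    ((k+1 : ℕ) : F) * coeff (Finsupp.single k 1) ((macSys hi).Del (TT q t) f) =
      (1 - t) ^ (k+1) * qi t (k+1) * phi t 0 (GG hi g f) := by
  refine (macSys hi).Hm_ind (P := fun f => ((k+1 : ℕ) : F) *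
    coeff (Finsupp.single k 1) ((macSys hi).Del (TT q t) f) =
      (1 - t) ^ (k+1) * qi t (k+1) * phi t 0 (GG hi g f)) (by simp)
    (fun f g hf hg => by simp only [map_add, coeff_add, mul_add, hf, hg]) (fun c i hc => ?_) hf
  obtain ⟨n, l⟩ := i
  change (((cells l).card : ℕ) : ℤ) = _ at hc
  rw [card_cells] at hc
  obtain rfl : n = k + 1 := by omega
  have hp : (Nat.Partition.indiscrete (k+1)).parts = {k+1} :=
    Nat.Partition.indiscrete_parts (by omega)
  have hd : dOf (Nat.Partition.indiscrete (k+1)) = Finsupp.single k 1 := by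
    rw [dOf, hp]; simp
  have hz : zz (Nat.Partition.indiscrete (k+1)) = k + 1 := by rw [zz, hp]; simp
  have h1 := Jc_one hi (by omega) ht l
  simp only [mul_ite, mul_zero, sum_ite_eq', mem_univ, if_true, hz, Jc] at h1
  have h2 := phi_mac hi _ l
  have h3 : (1 - t) ≠ 0 := sub_ne_zero.mpr hi.t_ne_one.symm
  have h4 : Gam q t (Gt g 0) ⟨k+1, l⟩ =
      TT q t ⟨k+1, l⟩ * ∏ c ∈ (cells l).erase (0, 0), (Gt g 0).eval (mono q t c) := by
    rw [TT, ← mul_prod_erase _ _ (zero_mem_cells l (by omega)), Gam]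
    simp [prod_mul_distrib, mono]
  have h5 : cArm q t l ≠ 0 := left_ne_zero_of_mul (h2.symm ▸ pow_ne_zero _ hi.t_ne)
  simp only [map_smul, GG, Sys.Del_b]
  simp only [macSys_b, coeff_smul, smul_eq_mul, ← hd, coeff_Th, h4]
  rw [← h2] at h1
  field_simp at h1
  linear_combination (c * TT q t ⟨k+1, l⟩) * h1

theorem cco_two (hi : Indep q t) {g : F} (ht : t = 1 + g) {k : ℕ} (π μ ν : (k+1+1).Partition)
    (hν : dOf ν = Finsupp.single k 1 + Finsupp.single 0 1) :
    cco q t (mac hi) π μ ν * zz ν = t * qi t (k+1) / ((q - 1) * g) *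
      coeff (dOf μ) (HH hi g (k+1) (monomial (dOf π) 1)) := by
  classical
  have hg : g ≠ 0 := fun h => hi.t_ne_one (by rw [ht, h, add_zero])
  have hq : q - 1 ≠ 0 := sub_ne_zero.mpr (by simpa using hi.q_pow_ne 0)
  choose a ha1 ha2 using HH_eig hi hg (m := k+1) (by omega)
  let Γ : (Σ n : ℕ, n.Partition) → F := fun i =>
    if h : i.1 = k+1+1 then a (h ▸ i.2) else 0
  have hH : ∀ f ∈ Hm F (k+1+1 : ℕ), HH hi g (k+1) f = (macSys hi).Del Γ f := by
    intro f hf
    refine (macSys hi).Hm_ind (P := fun f => HH hi g (k+1) f = (macSys hi).Del Γ f) (by simp)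
      (fun f g hf hg => by simp only [map_add, hf, hg]) (fun c i hc => ?_) hf
    obtain ⟨n, l⟩ := i
    change (((cells l).card : ℕ) : ℤ) = _ at hc
    rw [card_cells] at hc
    obtain rfl : n = k + 1 + 1 := by omega
    rw [map_smul, map_smul, Sys.Del_b, macSys_b, ha1]
    simp [Γ]
  rw [hH _ (by simpa [wt_dOf] using monomial_mem_Hm (dOf π) (1:F)), Del_coeff, cco,
    mul_left_comm, mul_assoc]
  congr 1
  rw [sum_mul, mul_sum]
  refine sum_congr rfl fun l _ => ?_
  have hΓ : Γ ⟨k+1+1, l⟩ = a l := by simp [Γ]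
  have h0 := phi_mac hi _ l
  have h5 : cArm q t l ≠ 0 := left_ne_zero_of_mul (h0.symm ▸ pow_ne_zero _ hi.t_ne)
  have h1t : (1 - t) ≠ 0 := sub_ne_zero.mpr hi.t_ne_one.symm
  have h2 : scal q t (Jc q t (mac hi) l) (Jc q t (mac hi) l) =
      (cArm q t l / (1 - t) ^ (k+1+1)) ^ 2 * scal q t (mac hi l) (mac hi l) := by
    simp only [scal, Jc, mul_sum]; exact sum_congr rfl fun _ _ => by ring
  have h3 := mac_norm hi l
  rw [ip_Th] at h3
  have hD : DD q t (-1) (Th (mac hi l)) ∈ Hm F (k+1 : ℕ) := by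
    have := DD_Hm q t (-1) (Th_Hm (mac hi l))
    have e : ((k + 1 + 1 : ℕ) : ℤ) + -1 = (k+1 : ℕ) := by push_cast; ring
    rwa [e] at this
  have h6 := theta_nabla hi ht hD
  have h7 := congrArg (coeff (Finsupp.single k 1)) (pd_nabla hi (Th (mac hi l)))
  rw [← macSys_b, Sys.Del_b, macSys_b, coeff_smul, coeff_smul, Derivation.map_smul, coeff_smul,
    coeff_pderiv, ← hν, coeff_Th, TT, prod_mono] at h7
  have h8 : (zz ν : F) = (k+1 : ℕ) * ((Finsupp.single k 1 : ℕ →₀ ℕ) 0 + 1) := by
    rw [← zn_dOf, hν, zn_succ]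
    have : zn (Finsupp.single k 1) = k + 1 := by
      rw [zn, Finsupp.prod_single_index (by simp)]; simp
    rw [this]; push_cast; ring
  have h9 := ha2 l
  have ht0 := hi.t_ne
  have hφ : phi t 0 (Th (mac hi l)) ≠ 0 := right_ne_zero_of_mul (h0.symm ▸ pow_ne_zero _ ht0)
  have h10 : g = -(1 - t) := by rw [ht]; ring
  have key : (q - 1) * (q ^ nCol l * t⁻¹ ^ nRow l * mac hi l ν * zz ν) =
      -(t * ((1 - t) ^ (k+1) * qi t (k+1) * (a l * phi t 0 (Th (mac hi l))))) := by
    simp only [smul_eq_mul] at h7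
    rw [h8, h9]
    linear_combination ((k+1 : ℕ) : F) * h7 + t * h6
  have e1 : t⁻¹ ^ (2 * nRow l) = t⁻¹ ^ nRow l * (cArm q t l * phi t 0 (Th (mac hi l)))⁻¹ := by
    rw [h0, two_mul, pow_add, inv_pow]
  rw [hΓ, h2, Jc, Jc, Jc, e1, h10]
  generalize q ^ nCol l = A at key ⊢
  generalize t⁻¹ ^ nRow l = B at key ⊢
  field_simp
  linear_combination ((1 - t) * mac hi l π * mac hi l μ) * key

end One22
end MJ
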