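import Pool.Agent.Lib.MP_9c49f6_co.Shift

/-! The vertex operators `D m`. -/

namespace MJ
open Finset MvPolynomial

variable {F : Type} [Field F]

noncomputable def gen (s : ℕ → F) (m : ℤ) : Lam F := cz (Ex F (fun k => C (s k) * X k)) m

noncomputable def gg (t : F) (m : ℤ) : Lam F := gen (fun k => t ^ (k+1) - 1) m
noncomputable def gb (t : F) (m : ℤ) : Lam F := gen (fun k => 1 - t ^ (k+1)) m

def cS (q t : F) (k : ℕ) : F := (q ^ (k+1) - 1) * t⁻¹ ^ (k+1)
def c1 (F : Type) [Field F] : ℕ → F := fun _ => 1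

noncomputable def LL (t : F) (c : ℤ) : Polynomial (Lam F) →ₗ[F] Lam F :=
  Polynomial.lsum fun s : ℕ => LinearMap.mulLeft F (gg t (c + s))

noncomputable def DD (q t : F) (m : ℤ) : Lam F →ₗ[F] Lam F :=
  LL t m ∘ₗ (Phi (cS q t)).toLinearMap

lemma gen_neg (s : ℕ → F) {m : ℤ} (h : m < 0) : gen s m = 0 := cz_neg _ h
lemma gen_nat (s : ℕ → F) (r : ℕ) : gen s r = ex F (fun k => C (s k) * X k) r := by
  simp [gen]
@[simp] lemma gen_zero (s : ℕ → F) : gen s 0 = 1 := by
  have := gen_nat s 0; simpa using this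
lemma gg_neg (t : F) {m : ℤ} (h : m < 0) : gg t m = 0 := gen_neg _ h
@[simp] lemma gg_zero (t : F) : gg t 0 = 1 := gen_zero _

variable (q t : F)

lemma LL_monomial (c : ℤ) (s : ℕ) (a : Lam F) :
    LL t c (Polynomial.monomial s a) = gg t (c + s) * a := by
  simp [LL, Polynomial.lsum, Polynomial.sum_monomial_index]

lemma poly_ind {P : Polynomial (Lam F) → Prop} (p : Polynomial (Lam F))
    (hadd : ∀ p q, P p → P q → P (p + q)) (hm : ∀ n a, P (Polynomial.monomial n a)) : P p :=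
  Polynomial.induction_on' p hadd hm

lemma LL_C (c : ℤ) (a : Lam F) : LL t c (Polynomial.C a) = gg t c * a := by
  have := LL_monomial t c 0 a
  simpa using this

lemma LL_C_mul (c : ℤ) (a : Lam F) (P : Polynomial (Lam F)) :
    LL t c (Polynomial.C a * P) = a * LL t c P := by
  induction P using poly_ind with
  | hadd p q hp hq => simp only [mul_add, map_add, hp, hq]
  | hm n b => rw [Polynomial.C_mul_monomial, LL_monomial, LL_monomial]; ring

lemma LL_X_pow_mul (c : ℤ) (k : ℕ) (P : Polynomial (Lam F)) :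
    LL t c (Polynomial.X ^ k * P) = LL t (c + k) P := by
  induction P using poly_ind with
  | hadd p q hp hq => simp only [mul_add, map_add, hp, hq]
  | hm n b =>
    rw [Polynomial.X_pow_mul_monomial, LL_monomial, LL_monomial]
    congr 2; push_cast; ring

lemma LL_X_mul (c : ℤ) (P : Polynomial (Lam F)) :
    LL t c (Polynomial.X * P) = LL t (c + 1) P := by
  simpa using LL_X_pow_mul t c 1 P

lemma DD_apply (m : ℤ) (f : Lam F) : DD q t m f = LL t m (Phi (cS q t) f) := rfl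

lemma LL_Phi (c : ℕ → F) (m : ℤ) (f : Lam F) (n : ℕ) (h : ∀ s : ℤ, (n:ℤ) ≤ s → Sh c s f = 0) :
    LL t m (Phi c f) = ∑ s ∈ range n, gg t (m + s) * Sh c s f := by
  rw [Phi_eq_sum c f n h, map_sum]
  refine sum_congr rfl fun s _ => ?_
  rw [LL_X_pow_mul, LL_C]

lemma DD_eq_sum (m : ℤ) (f : Lam F) (n : ℕ) (h : ∀ s : ℤ, (n:ℤ) ≤ s → Sh (cS q t) s f = 0) :
    DD q t m f = ∑ s ∈ range n, gg t (m + s) * Sh (cS q t) s f := LL_Phi t _ m f n h

lemma DD_bound (f : Lam F) : ∃ n : ℕ, ∀ m : ℤ, m ≤ -n → DD q t m f = 0 := by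
  obtain ⟨n, hn⟩ := Sh_bound (cS q t) f
  refine ⟨n, fun m hm => ?_⟩
  rw [DD_eq_sum q t m f n hn]
  refine sum_eq_zero fun s hs => ?_
  rw [gg_neg t (by simp at hs; omega), zero_mul]

lemma LL_Phi_add (a b : ℕ → F) (m : ℤ) (f : Lam F) (n : ℕ)
    (h : ∀ s : ℤ, (n:ℤ) ≤ s → Sh b s f = 0) :
    LL t m (Phi (fun k => a k + b k) f) = ∑ s ∈ range n, LL t (m + s) (Phi a (Sh b s f)) := by
  rw [Phi_add a b f n h, map_sum]
  simp only [LL_X_pow_mul]

variable [CharZero F]

lemma Phi_gen (c s : ℕ → F) (m : ℤ) :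
    Phi c (gen s m) = cz (Ex F (fun k => Polynomial.C (C (s k) * X k)) *
      Ex F (fun k => Polynomial.C (C (s k * c k)) * Polynomial.X ^ (k+1))) m := by
  rw [gen, map_cz_Ex, ← Ex_add]
  congr 2
  funext k
  rw [map_mul, Phi_C, Phi_X]; simp only [map_mul]; ring

omit [CharZero F] in
lemma C_gen (s : ℕ → F) (m : ℤ) :
    Polynomial.C (gen s m) = cz (Ex F (fun k => Polynomial.C (C (s k) * X k))) m := by
  have := map_cz_Ex (Polynomial.CAlgHom (R := F) (A := Lam F)) (fun k => C (s k) * X k) m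
  simpa [gen] using this

lemma Phi_one_gg (m : ℤ) :
    Phi (c1 F) (gg t m) - Polynomial.C (C t) * Polynomial.X * Phi (c1 F) (gg t (m-1)) =
      Polynomial.C (gg t m) - Polynomial.X * Polynomial.C (gg t (m-1)) := by
  unfold gg
  rw [Phi_gen, Phi_gen, C_gen, C_gen]
  have : (fun k : ℕ => Polynomial.C (C ((t ^ (k+1) - 1) * c1 F k)) * Polynomial.X ^ (k+1)) =
      fun k => - (Polynomial.X : Polynomial (Lam F)) ^ (k+1) +
        (Polynomial.C (C t) * Polynomial.X) ^ (k+1) := by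
    funext k; simp [c1, mul_pow]; ring
  rw [this, Ex_add, Ex_neg_geom]
  generalize Ex F (fun k => Polynomial.C (C (t ^ (k+1) - 1) * X k : Lam F)) = A
  have g1 := Ex_geom (F := F) (Polynomial.C (C t : Lam F) * Polynomial.X)
  generalize Ex F (fun k => (Polynomial.C (C t : Lam F) * Polynomial.X) ^ (k+1)) = B at g1 ⊢
  have h1 := cz_mul_one_sub (A * ((1 - PowerSeries.C Polynomial.X * PowerSeries.X) * B))
    (Polynomial.C (C t : Lam F) * Polynomial.X) m
  have h2 := cz_mul_one_sub A Polynomial.X m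
  rw [← h1, ← h2, mul_assoc, mul_assoc, g1, mul_one]

lemma Phi_S_gg (ht : t ≠ 0) (m : ℤ) :
    Phi (cS q t) (gg t m)
      - Polynomial.C (C (q + t⁻¹)) * (Polynomial.X * Phi (cS q t) (gg t (m-1)))
      + Polynomial.C (C (q * t⁻¹)) * (Polynomial.X ^ 2 * Phi (cS q t) (gg t (m-2))) =
    Polynomial.C (gg t m)
      - Polynomial.C (C (1 + q * t⁻¹)) * (Polynomial.X * Polynomial.C (gg t (m-1)))
      + Polynomial.C (C (q * t⁻¹)) * (Polynomial.X ^ 2 * Polynomial.C (gg t (m-2))) := by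
  have two : ∀ (P : PowerSeries (Polynomial (Lam F))) (u v : Polynomial (Lam F)),
      cz (P * (1 - PowerSeries.C u * PowerSeries.X) * (1 - PowerSeries.C v * PowerSeries.X)) m =
      cz P m - (u + v) * cz P (m-1) + u * v * cz P (m-2) := by
    intro P u v
    rw [cz_mul_one_sub, cz_mul_one_sub, cz_mul_one_sub]
    have : m - 1 - 1 = m - 2 := by ring
    rw [this]; ring
  unfold gg
  rw [Phi_gen, Phi_gen, Phi_gen, C_gen, C_gen, C_gen]
  set A := Ex F (fun k => Polynomial.C (C (t ^ (k+1) - 1) * X k : Lam F))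
  set B := Ex F (fun k => Polynomial.C (C ((t ^ (k+1) - 1) * cS q t k) : Lam F) * Polynomial.X ^ (k+1))
  have h1 := two (A * B) (Polynomial.C (C q) * Polynomial.X) (Polynomial.C (C t⁻¹) * Polynomial.X)
  have h2 := two A (Polynomial.X) (Polynomial.C (C (q * t⁻¹)) * Polynomial.X)
  have h3 : A * B * (1 - PowerSeries.C (Polynomial.C (C q) * Polynomial.X) * PowerSeries.X) *
      (1 - PowerSeries.C (Polynomial.C (C t⁻¹) * Polynomial.X) * PowerSeries.X) =
      A * (1 - PowerSeries.C Polynomial.X * PowerSeries.X) *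
      (1 - PowerSeries.C (Polynomial.C (C (q * t⁻¹)) * Polynomial.X) * PowerSeries.X) := by
    have : (fun k : ℕ => Polynomial.C (C ((t ^ (k+1) - 1) * cS q t k) : Lam F) *
        Polynomial.X ^ (k+1)) =
      fun k => ((- (Polynomial.X : Polynomial (Lam F)) ^ (k+1) +
        - (Polynomial.C (C (q * t⁻¹)) * Polynomial.X) ^ (k+1)) +
        (Polynomial.C (C t⁻¹) * Polynomial.X) ^ (k+1)) +
        (Polynomial.C (C q) * Polynomial.X) ^ (k+1) := by
      funext k
      have e : (t ^ (k+1) - 1) * cS q t k =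
          -1 - (q * t⁻¹) ^ (k+1) + t⁻¹ ^ (k+1) + q ^ (k+1) := by
        have : t ^ (k+1) * t⁻¹ ^ (k+1) = 1 := by rw [← mul_pow, mul_inv_cancel₀ ht, one_pow]
        unfold cS; rw [mul_pow]; linear_combination (q ^ (k+1) - 1) * this
      rw [e]; simp only [mul_pow, map_add, map_sub, map_neg, map_one, map_mul, map_pow]; ring
    simp only [B]
    rw [this, Ex_add, Ex_add, Ex_add, Ex_neg_geom, Ex_neg_geom]
    have g1 := Ex_geom (F := F) (Polynomial.C (C q : Lam F) * Polynomial.X)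
    have g2 := Ex_geom (F := F) (Polynomial.C (C t⁻¹ : Lam F) * Polynomial.X)
    calc _ = A * ((1 - PowerSeries.C Polynomial.X * PowerSeries.X) *
      (1 - PowerSeries.C (Polynomial.C (C (q * t⁻¹)) * Polynomial.X) * PowerSeries.X)) *
        (Ex F (fun k => (Polynomial.C (C q : Lam F) * Polynomial.X) ^ (k+1)) *
          (1 - PowerSeries.C (Polynomial.C (C q) * Polynomial.X) * PowerSeries.X)) *
        (Ex F (fun k => (Polynomial.C (C t⁻¹ : Lam F) * Polynomial.X) ^ (k+1)) *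
          (1 - PowerSeries.C (Polynomial.C (C t⁻¹) * Polynomial.X) * PowerSeries.X)) := by ring
      _ = _ := by rw [g1, g2]; ring
  rw [h3, h2] at h1
  simp only [map_add, map_mul, map_one] at h1 ⊢
  linear_combination -h1

omit [CharZero F] in
lemma Phi_DD (c : ℕ → F) (m : ℤ) (f : Lam F) (n : ℕ)
    (h : ∀ s : ℤ, (n:ℤ) ≤ s → Sh (cS q t) s f = 0) :
    Phi c (DD q t m f) = ∑ s ∈ range n, Phi c (gg t (m + s)) * Phi c (Sh (cS q t) s f) := by
  rw [DD_eq_sum q t m f n h, map_sum]; simp only [map_mul]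

/-- row removal relation -/
lemma H_DD (j m : ℤ) (f : Lam F) :
    Sh (c1 F) j (DD q t m f) - t • Sh (c1 F) (j-1) (DD q t (m-1) f) =
      DD q t m (Sh (c1 F) j f) - DD q t (m-1) (Sh (c1 F) (j-1) f) := by
  obtain ⟨n, hn⟩ := Sh_bound (cS q t) f
  have hn' : ∀ i s : ℤ, (n:ℤ) ≤ s → Sh (cS q t) s (Sh (c1 F) i f) = 0 := by
    intro i s hs; rw [Sh_comm, hn s hs, map_zero]
  rw [DD_eq_sum q t m _ n (hn' j), DD_eq_sum q t (m-1) _ n (hn' (j-1)), Sh_apply (c1 F) j,
    Sh_apply (c1 F) (j-1), Phi_DD q t _ m f n hn, Phi_DD q t _ (m-1) f n hn, map_sum, map_sum,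
    smul_sum, ← sum_sub_distrib, ← sum_sub_distrib]
  refine sum_congr rfl fun s _ => ?_
  have h1 := Phi_one_gg t (m + s)
  have e : m - 1 + s = m + s - 1 := by ring
  rw [e, Sh_comm (cS q t) (c1 F) f s j, Sh_comm (cS q t) (c1 F) f s (j-1)]
  generalize Sh (cS q t) s f = h
  rw [Sh_apply, Sh_apply]
  generalize Phi (c1 F) h = P
  generalize Phi (c1 F) (gg t (m + s)) = A at h1 ⊢
  generalize Phi (c1 F) (gg t (m + s - 1)) = B at h1 ⊢
  generalize gg t (m + s) = a at h1 ⊢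
  generalize gg t (m + s - 1) = b at h1 ⊢
  have h2 : A * P - Polynomial.C (C t) * (Polynomial.X * (B * P)) =
      Polynomial.C a * P - Polynomial.C b * (Polynomial.X * P) := by
    linear_combination P * h1
  have h3 := congrArg (pz j) h2
  rw [map_sub, map_sub, pz_C_mul, pz_C_mul, pz_C_mul, pz_X_mul, pz_X_mul] at h3
  rw [smul_eq_C_mul, h3]

/-- normally ordered product -/
noncomputable def nn (c b : ℤ) : Lam F →ₗ[F] Lam F :=
  (Polynomial.lsum fun s : ℕ => LinearMap.mulLeft F (gg t (b + s)) ∘ₗ DD q t c) ∘ₗ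
    (Phi (cS q t)).toLinearMap

omit [CharZero F] in
lemma nn_eq_sum (c b : ℤ) (f : Lam F) (n : ℕ) (h : ∀ s : ℤ, (n:ℤ) ≤ s → Sh (cS q t) s f = 0) :
    nn q t c b f = ∑ s ∈ range n, gg t (b + s) * DD q t c (Sh (cS q t) s f) := by
  unfold nn
  rw [LinearMap.comp_apply, AlgHom.toLinearMap_apply, Phi_eq_sum _ f n h, map_sum]
  refine sum_congr rfl fun s _ => ?_
  rw [mul_comm, Polynomial.C_mul_X_pow_eq_monomial]
  simp [Polynomial.lsum, Polynomial.sum_monomial_index]

omit [CharZero F] in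
lemma nn_symm (c b : ℤ) (f : Lam F) : nn q t c b f = nn q t b c f := by
  obtain ⟨n, hn⟩ := Sh_bound (cS q t) f
  have hn' : ∀ i s : ℤ, (n:ℤ) ≤ s → Sh (cS q t) s (Sh (cS q t) i f) = 0 := by
    intro i s hs; rw [Sh_comm, hn s hs, map_zero]
  rw [nn_eq_sum q t c b f n hn, nn_eq_sum q t b c f n hn]
  simp only [DD_eq_sum q t _ _ n (hn' _), mul_sum]
  rw [sum_comm]
  refine sum_congr rfl fun s _ => sum_congr rfl fun r _ => ?_
  rw [Sh_comm]; ring

omit [CharZero F] in
lemma nn_bound (f : Lam F) : ∃ n : ℕ, ∀ c b : ℤ, b ≤ -n → nn q t c b f = 0 := by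
  obtain ⟨n, hn⟩ := Sh_bound (cS q t) f
  refine ⟨n, fun c b hm => ?_⟩
  rw [nn_eq_sum q t c b f n hn]
  refine sum_eq_zero fun s hs => ?_
  rw [gg_neg t (by simp at hs; omega), zero_mul]

lemma DD_DD (ht : t ≠ 0) (c b : ℤ) (f : Lam F) :
    DD q t c (DD q t b f) - (q + t⁻¹) • DD q t (c+1) (DD q t (b-1) f)
      + (q * t⁻¹) • DD q t (c+2) (DD q t (b-2) f) =
    nn q t c b f - (1 + q * t⁻¹) • nn q t (c+1) (b-1) f + (q * t⁻¹) • nn q t (c+2) (b-2) f := by
  obtain ⟨n, hn⟩ := Sh_bound (cS q t) f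
  rw [nn_eq_sum q t _ _ f n hn, nn_eq_sum q t _ _ f n hn, nn_eq_sum q t _ _ f n hn,
    DD_apply q t c, DD_apply q t (c+1), DD_apply q t (c+2),
    Phi_DD q t _ _ f n hn, Phi_DD q t _ _ f n hn, Phi_DD q t _ _ f n hn]
  simp only [map_sum, smul_sum, ← sum_sub_distrib, ← sum_add_distrib]
  refine sum_congr rfl fun s _ => ?_
  have h1 := Phi_S_gg q t ht (b + s)
  have e1 : b - 1 + s = b + s - 1 := by ring
  have e2 : b - 2 + s = b + s - 2 := by ring
  have e3 : c + 2 = c + (2:ℕ) := by simp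
  rw [e1, e2, DD_apply q t c, DD_apply q t (c+1), DD_apply q t (c+2), e3]
  generalize Phi (cS q t) (Sh (cS q t) s f) = P
  generalize Phi (cS q t) (gg t (b + s)) = A0 at h1 ⊢
  generalize Phi (cS q t) (gg t (b + s - 1)) = A1 at h1 ⊢
  generalize Phi (cS q t) (gg t (b + s - 2)) = A2 at h1 ⊢
  generalize gg t (b + s) = a0 at h1 ⊢
  generalize gg t (b + s - 1) = a1 at h1 ⊢
  generalize gg t (b + s - 2) = a2 at h1 ⊢
  have h2 : A0 * P - Polynomial.C (C (q + t⁻¹)) * (Polynomial.X * (A1 * P))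
      + Polynomial.C (C (q * t⁻¹)) * (Polynomial.X ^ 2 * (A2 * P)) =
      Polynomial.C a0 * P
      - Polynomial.C (C (1 + q * t⁻¹)) * (Polynomial.C a1 * (Polynomial.X * P))
      + Polynomial.C (C (q * t⁻¹)) * (Polynomial.C a2 * (Polynomial.X ^ 2 * P)) := by
    linear_combination P * h1
  have h3 := congrArg (LL t c) h2
  simp only [map_sub, map_add (LL t c), LL_C_mul, LL_X_mul, LL_X_pow_mul] at h3
  simp only [smul_eq_C_mul, h3]

end MJ
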