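import Pool.Agent.Lib.MP_9c49f6_co.Symb

/-! Multiplication by power sums as words in `U`, `E`, and its conjugates. -/

namespace MJ
open Finset MvPolynomial

variable {F : Type} [Field F] (q t : F)

noncomputable def iota : Lam F →ₗ[F] St F :=
  stateOf (fun s => Sh (fun k => - cS q t k) s) (fun f => by
    obtain ⟨n, hn⟩ := Sh_bound (fun k => - cS q t k) f
    exact ⟨n, fun j hj => hn j (by omega)⟩)

lemma psi_iota (c : ℤ) (h : Lam F) : psi q t c (iota q t h) = gg t c * h := by
  obtain ⟨n, hn⟩ := Sh_bound (fun k => - cS q t k) h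
  rw [psi_eq_sum q t c (iota q t h) n (fun s hs => hn s (by omega))]
  have := LL_Phi_add t (cS q t) (fun k => - cS q t k) c h n hn
  simp only [add_neg_cancel] at this
  rw [Phi_zero, LL_C] at this
  rw [this]
  refine sum_congr rfl fun s _ => ?_
  rw [add_comm]; rfl

lemma psi_UU_pow (c : ℤ) (i : ℕ) (v : St F) :
    psi q t c ((UU (F := F) ^ i) v) = psi q t (c + i) v := by
  induction i generalizing c with
  | zero => simp
  | succ i ih => rw [pow_succ', Module.End.mul_apply, psi_UU, ih]; congr 2; push_cast; ring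

lemma UU_pow_inc (i : ℕ) (f : Lam F) : (UU (F := F) ^ i) (inc f) = Finsupp.single i f := by
  induction i with
  | zero => rfl
  | succ i ih => rw [pow_succ', Module.End.mul_apply, ih, UU_single]

lemma UU_pow_HS (i : ℕ) {m : ℤ} {v : St F} (hv : v ∈ HS F m) :
    (UU (F := F) ^ i) v ∈ HS F (m + i) := by
  induction i with
  | zero => simpa using hv
  | succ i ih =>
    rw [pow_succ', Module.End.mul_apply]
    have := UU_HS ih
    convert this using 2; push_cast; ring

lemma run_rep_one (i : ℕ) (v : St F) : run q t (List.replicate i 1) v = (UU (F := F) ^ i) v := by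
  induction i generalizing v with
  | zero => rfl
  | succ i ih =>
    rw [List.replicate_succ, run_cons, ih, map_one, Module.End.one_apply, pow_succ,
      Module.End.mul_apply]

noncomputable def ww (i : ℕ) (f : Lam F) : St F :=
  ∑ r ∈ range (i+1), (UU (F := F) ^ (i - r)) (iota q t (gb t r * f))

lemma psi_ww (c : ℤ) (i : ℕ) (f : Lam F) :
    psi q t c (ww q t i f) = (∑ r ∈ range (i+1), gb t r * gg t (c + i - r)) * f := by
  rw [ww, map_sum, sum_mul]
  refine sum_congr rfl fun r hr => ?_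
  have : c + ((i - r : ℕ) : ℤ) = c + i - r := by simp at hr; omega
  rw [psi_UU_pow, psi_iota, this]; ring

noncomputable def pk (t : F) (K : ℕ) : Lam F := C (t ^ (K+1) - 1) * X K

variable [CharZero F]

lemma Ex_gb_gg : Ex F (fun k => (C (1 - t ^ (k+1)) * X k : Lam F)) *
    Ex F (fun k => (C (t ^ (k+1) - 1) * X k : Lam F)) = 1 := by
  rw [← Ex_add, ← Ex_zero (F := F)]
  congr 1; funext k; simp only [map_sub]; ring

lemma gb_gg (i : ℕ) (m : ℤ) (hm : m ≤ i) :
    ∑ r ∈ range (i+1), gb t r * gg t (m - r) = if m = 0 then 1 else 0 := by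
  rcases lt_or_ge m 0 with h | h
  · rw [if_neg (by omega)]
    exact sum_eq_zero fun r _ => by rw [gg_neg t (by omega), mul_zero]
  · obtain ⟨n, rfl⟩ := Int.eq_ofNat_of_zero_le h
    have h1 := congrArg (PowerSeries.coeff n) (Ex_gb_gg t)
    rw [PowerSeries.coeff_mul, Nat.sum_antidiagonal_eq_sum_range_succ_mk, PowerSeries.coeff_one]
      at h1
    simp only [Nat.cast_eq_zero]
    rw [← h1]
    symm
    refine sum_subset_zero_on_sdiff (by intro x; simp; omega) (fun r hr => ?_) (fun r hr => ?_)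
    · rw [gg_neg t (by simp at hr; omega), mul_zero]
    · have : (n:ℤ) - r = (n - r : ℕ) := by simp at hr; omega
      rw [this, gb, gg, gen_nat, gen_nat]; simp

lemma EE_ww (i : ℕ) (f : Lam F) :
    EE q t (ww q t i f) = (q * t⁻¹) ^ i • (UU (F := F) ^ i) (inc f) := by
  ext j : 1
  rw [EE_apply, psi_ww, gb_gg t i _ (by omega), UU_pow_inc, Finsupp.smul_apply,
    Finsupp.single_apply]
  by_cases h : i = j
  · subst h; simp
  · rw [if_neg h, if_neg (by omega)]; simp

lemma ww_HS (i : ℕ) {m : ℤ} {f : Lam F} (hf : f ∈ Hm F m) : ww q t i f ∈ HS F (m + i) := by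
  refine Submodule.sum_mem _ fun r hr => ?_
  have h1 : iota q t (gb t r * f) ∈ HS F (r + m) := fun s =>
    Sh_Hm _ s (Hm_mul (gb_Hm t r) hf)
  have := UU_pow_HS (i - r) h1
  convert this using 2
  simp at hr; omega

lemma pk_sum (K : ℕ) :
    ∑ i ∈ range (K+1), ∑ r ∈ range (i+1), gb t r * gg t (K + 1 - r) = pk t K := by
  have h1 : Ex F (fun k => (C (1 - t ^ (k+1)) * X k : Lam F)) *
      PowerSeries.derivative _ (Ex F (fun k => (C (t ^ (k+1) - 1) * X k : Lam F))) =
      PowerSeries.mk (fun k => (C (t ^ (k+1) - 1) * X k : Lam F)) := by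
    rw [Ex_deriv, mul_left_comm, Ex_gb_gg, mul_one]
  have h2 := congrArg (PowerSeries.coeff K) h1
  rw [PowerSeries.coeff_mul, Nat.sum_antidiagonal_eq_sum_range_succ_mk, PowerSeries.coeff_mk] at h2
  rw [pk, ← h2, sum_comm' (t' := range (K+1)) (s' := fun r => Ico r (K+1))
    (by intro x y; simp; omega)]
  refine sum_congr rfl fun r hr => ?_
  have hr' : r ≤ K := by simpa [Nat.lt_succ_iff] using hr
  have e : (K:ℤ) + 1 - r = (K - r + 1 : ℕ) := by omega
  rw [sum_const, Nat.card_Ico, PowerSeries.coeff_derivative, e, gb, gg, gen_nat, gen_nat]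
  have e2 : K + 1 - r = K - r + 1 := by omega
  rw [e2]; simp; ring

lemma pk_Hm (K : ℕ) : pk t K ∈ Hm F (K+1) := by
  simpa [pk] using Hm_mul (C_mem_Hm (t ^ (K+1) - 1)) (X_mem_Hm K)

variable {q t}

lemma exists_rinv (hi : Indep q t) (m : ℤ) : ∃ r : Polynomial F, ∀ v ∈ HS F m,
    Polynomial.aeval (EE q t) r (EE q t v) = v := by
  obtain ⟨L, hL⟩ := spectrum q t hi.t_ne hi.t_ne_one (m.toNat + 1)
  have h0 : (annP q t L).coeff 0 ≠ 0 := by
    rw [Polynomial.coeff_zero_eq_eval_zero, annP, Polynomial.eval_list_prod]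
    refine List.prod_ne_zero ?_
    simp only [List.map_map, List.mem_map, not_exists, not_and]
    intro c _ hc
    simp at hc
    exact hi.mono_ne c (by simpa [mono] using hc)
  refine ⟨Polynomial.C (-((annP q t L).coeff 0)⁻¹) * (annP q t L).divX, fun v hv => ?_⟩
  have h1 := hL m (by omega) v hv
  rw [← Polynomial.divX_mul_X_add (annP q t L), map_add, map_mul, Polynomial.aeval_X,
    Polynomial.aeval_C, LinearMap.add_apply, Module.End.mul_apply,
    Module.algebraMap_end_apply] at h1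
  rw [map_mul, Polynomial.aeval_C, Module.End.mul_apply, Module.algebraMap_end_apply,
    eq_neg_of_add_eq_zero_left h1, smul_neg, neg_smul, neg_neg, smul_smul, inv_mul_cancel₀ h0,
    one_smul]

noncomputable def rr (hi : Indep q t) (m : ℤ) : Polynomial F := (exists_rinv hi m).choose

lemma rr_spec (hi : Indep q t) {m : ℤ} {v : St F} (hv : v ∈ HS F m) :
    Polynomial.aeval (EE q t) (rr hi m) (EE q t v) = v := (exists_rinv hi m).choose_spec v hv

lemma rr_spec' (hi : Indep q t) {m : ℤ} {v : St F} (hv : v ∈ HS F m) :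
    EE q t (Polynomial.aeval (EE q t) (rr hi m) v) = v := by
  have h : Polynomial.aeval (EE q t) (rr hi m * Polynomial.X) v = v := by
    rw [map_mul, Polynomial.aeval_X, Module.End.mul_apply, rr_spec hi hv]
  rwa [mul_comm, map_mul, Polynomial.aeval_X, Module.End.mul_apply] at h

def wd (G p : Polynomial F) (i j : ℕ) : List (Polynomial F) :=
  List.replicate i G ++ p :: List.replicate j G

lemma pk_run (hi : Indep q t) (K : ℕ) {m : ℤ} {f : Lam F} (hf : f ∈ Hm F m) :
    pk t K * f = ∑ i ∈ range (K+1),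
      (q * t⁻¹) ^ i • psi q t 0 (run q t (wd 1 (rr hi (m + i)) i (K - i)) (inc f)) := by
  rw [← pk_sum, sum_mul]
  refine sum_congr rfl fun i hi' => ?_
  have hi2 : i ≤ K := by simpa [Nat.lt_succ_iff] using hi'
  rw [wd, run_append, run_rep_one, run_cons, run_rep_one, ← map_smul, ← map_smul, ← map_smul,
    ← map_smul, ← EE_ww, rr_spec hi (ww_HS q t i hf), psi_UU_pow, psi_UU, psi_ww]
  congr 1
  refine sum_congr rfl fun r _ => ?_
  congr 2; omega

noncomputable def YY (hi : Indep q t) (G : Polynomial F) (K : ℕ) (m : ℤ) : Lam F →ₗ[F] Lam F :=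
  ∑ i ∈ range (K+1),
    (q * t⁻¹) ^ i • (psi q t 0 ∘ₗ run q t (wd G (rr hi (m + i) * G) i (K - i)) ∘ₗ inc)

lemma YY_apply (hi : Indep q t) (G : Polynomial F) (K : ℕ) (m : ℤ) (f : Lam F) :
    YY hi G K m f = ∑ i ∈ range (K+1),
    (q * t⁻¹) ^ i • psi q t 0 (run q t (wd G (rr hi (m + i) * G) i (K - i)) (inc f)) := by
  simp [YY, LinearMap.sum_apply]

omit [CharZero F] in
lemma wd_map (G p : Polynomial F) (i j : ℕ) : (wd 1 p i j).map (· * G) = wd G (p * G) i j := by
  simp [wd]

variable {ι : Type} (S : Sys q t ι)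

lemma Sys.symbol' (hi : Indep q t) (Γ : ι → F) (G : Polynomial F) (k0 : ℕ)
    (hΓ : ∀ i k c, k0 ≤ (S.cells i).card → (S.cells k).val = c ::ₘ (S.cells i).val →
      Γ k = Γ i * G.eval (mono q t c))
    (L : List (Polynomial F)) (hL : L ≠ []) (i : ι) (v : St F) (h1 : k0 ≤ (S.cells i).card)
    (h2 : v ∈ HS F (S.cells i).card) (h3 : Dt q t v = del q t (S.cells i).val • v) :
    S.Del Γ (psi q t 0 (run q t L v)) = Γ i • psi q t 0 (run q t (L.map (· * G)) v) := by
  obtain ⟨p, L, rfl⟩ := List.exists_cons_of_ne_nil hL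
  exact S.symbol hi Γ G k0 hΓ L i v h1 h2 (by rw [h3, sub_self]; exact zero_mem _) p

lemma Sys.Del_pk (hi : Indep q t) (Γ : ι → F) (G : Polynomial F) (k0 : ℕ)
    (hΓ : ∀ i k c, k0 ≤ (S.cells i).card → (S.cells k).val = c ::ₘ (S.cells i).val →
      Γ k = Γ i * G.eval (mono q t c)) (K : ℕ) {m : ℤ} (hm : k0 ≤ m) {f : Lam F}
    (hf : f ∈ Hm F m) : S.Del Γ (pk t K * f) = YY hi G K m (S.Del Γ f) := by
  refine S.Hm_ind (P := fun f => S.Del Γ (pk t K * f) = YY hi G K m (S.Del Γ f)) (by simp)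
    (fun f g hf hg => by simp only [mul_add, map_add, hf, hg]) (fun a i hc => ?_) hf
  simp only [mul_smul_comm, map_smul]
  congr 1
  rw [pk_run hi K (S.hom i), S.Del_b, map_smul, YY_apply, map_sum, smul_sum, hc]
  refine sum_congr rfl fun j _ => ?_
  rw [map_smul, S.symbol' hi Γ G k0 hΓ _ (by simp [wd]) i _ (by omega) (inc_HS (S.hom i))
    (by rw [Dt_inc, S.eig, map_smul]), wd_map, smul_comm]

lemma Sys.Del_Hm (Γ : ι → F) {m : ℤ} {f : Lam F} (hf : f ∈ Hm F m) : S.Del Γ f ∈ Hm F m := by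
  refine S.Hm_ind (P := fun f => S.Del Γ f ∈ Hm F m) (by simp)
    (fun f g hf hg => by simpa using add_mem hf hg) (fun a i hc => ?_) hf
  rw [map_smul, S.Del_b, ← hc]
  exact Submodule.smul_mem _ _ (Submodule.smul_mem _ _ (S.hom i))

omit [CharZero F] in
lemma EE_inc_one : EE q t (inc 1) = inc 1 := by simpa using EE_inc_C q t 1

omit [CharZero F] in
lemma gg_one : gg t 1 = pk t 0 := by
  have := gen_nat (fun k => t ^ (k+1) - 1) 1
  rw [gg, pk]
  simp only [Nat.cast_one] at this
  rw [this, ex_succ']; simp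

lemma Sys.first (hi : Indep q t) (Γ : ι → F) (G : Polynomial F)
    (hΓ : ∀ i k c, 1 ≤ (S.cells i).card → (S.cells k).val = c ::ₘ (S.cells i).val →
      Γ k = Γ i * G.eval (mono q t c))
    (h1 : ∀ i, (S.cells i).val = {(0,0)} → Γ i = 1) (L : List (Polynomial F)) :
    S.Del Γ (psi q t 0 (run q t L (UU (inc 1)))) =
      psi q t 0 (run q t (L.map (· * G)) (UU (inc 1))) := by
  have e1 : Dt q t (UU (inc 1)) = del q t {(0,0)} • UU (inc (1 : Lam F)) := by
    have : DD q t 0 1 = 1 := by simpa using DD_C q t 0 1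
    rw [Dt_UU, Dt_inc, this, EE_inc_one, del]; simp [mono, add_smul]
  have e2 : DD q t 0 (psi q t 0 (UU (inc 1))) = del q t {(0,0)} • psi q t 0 (UU (inc 1)) := by
    rw [← psi_Dt q t hi.t_ne, e1, map_smul]
  have e3 : psi q t 0 (UU (inc 1)) ≠ 0 := by
    have : DD q t 1 1 = gg t 1 := by simpa using DD_C q t 1 1
    rw [psi_UU, psi_inc, zero_add, this, gg_one, pk]
    refine mul_ne_zero ?_ (X_ne_zero _)
    rw [Ne, C_eq_zero, sub_eq_zero]; exact hi.t_pow_ne 0
  obtain ⟨i, hc⟩ : ∃ i, (S.cells i).val = {(0,0)} := by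
    by_contra hc
    exact e3 (S.eig_zero e2 fun i h => hc ⟨i, hi.del_inj h⟩)
  have hcard : (S.cells i).card = 1 := by simpa using congrArg Multiset.card hc
  rcases eq_or_ne L [] with rfl | hL
  · rw [← hc] at e2
    simp only [run_nil, List.map_nil]
    rw [S.Del_eig hi Γ e2, h1 i hc, one_smul]
  · rw [S.symbol' hi Γ G 1 hΓ L hL i _ (by omega)
      (by rw [hcard]; simpa using UU_HS (inc_HS (one_mem_Hm (F := F)))) (by rw [hc, e1]), h1 i hc,
      one_smul]

lemma run_HS (L : List (Polynomial F)) {m : ℤ} {v : St F} (hv : v ∈ HS F m) :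
    run q t L v ∈ HS F (m + L.length) := by
  induction L generalizing v m with
  | nil => simpa using hv
  | cons p L ih =>
    have := ih (UU_HS (aeval_HS q t p hv))
    rw [run_cons]; convert this using 2; simp; ring

lemma run_wd_rr (hi : Indep q t) (Gt : Polynomial F) (i j : ℕ) {m : ℤ} {v : St F}
    (hv : v ∈ HS F m) :
    run q t (wd (Polynomial.X * Gt) (rr hi (m + i) * (Polynomial.X * Gt)) i j) v =
      run q t (wd (Polynomial.X * Gt) Gt i j) v := by
  have h := run_HS (q := q) (t := t) (List.replicate i (Polynomial.X * Gt)) hv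
  rw [List.length_replicate] at h
  rw [wd, wd, run_append, run_append, run_cons, run_cons, map_mul (Polynomial.aeval (EE q t)),
    map_mul (Polynomial.aeval (EE q t)), Polynomial.aeval_X, Module.End.mul_apply,
    Module.End.mul_apply, rr_spec hi (aeval_HS q t Gt h)]

variable (q t) in
noncomputable def YP (Gt : Polynomial F) (K : ℕ) (f : Lam F) : Lam F :=
  ∑ i ∈ range (K+1),
    (q * t⁻¹) ^ i • psi q t 0 (run q t (wd (Polynomial.X * Gt) Gt i (K - i)) (inc f))

variable (q t) in
noncomputable def Y0 (Gt : Polynomial F) (K : ℕ) : Lam F :=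
  ∑ i ∈ range K, (q * t⁻¹) ^ (i+1) •
    psi q t 0 (run q t (wd (Polynomial.X * Gt) Gt i (K - (i+1))) (UU (inc 1))) +
  psi q t 0 (run q t (List.replicate K (Polynomial.X * Gt)) (UU (inc 1)))

variable (q t) in
noncomputable def FF (Gt : Polynomial F) (K0 : ℕ) : List ℕ → Lam F
  | [] => Y0 q t Gt K0
  | K :: L => YP q t Gt K (FF Gt K0 L)

def dg (L : List ℕ) : ℕ := (L.map (· + 1)).sum

lemma pk_prod_Hm (L : List ℕ) : (L.map (pk t)).prod ∈ Hm F (dg L) := by
  induction L with
  | nil => simpa [dg] using one_mem_Hm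
  | cons K L ih =>
    have := Hm_mul (pk_Hm t K) ih
    simpa [dg] using this

theorem Sys.Del_FF (hi : Indep q t) (Γ : ι → F) (Gt : Polynomial F)
    (hΓ : ∀ i k c, 1 ≤ (S.cells i).card → (S.cells k).val = c ::ₘ (S.cells i).val →
      Γ k = Γ i * (Polynomial.X * Gt).eval (mono q t c))
    (h1 : ∀ i, (S.cells i).val = {(0,0)} → Γ i = 1) (K0 : ℕ) (L : List ℕ) :
    S.Del Γ ((L.map (pk t)).prod * pk t K0) = FF q t Gt K0 L := by
  induction L with
  | nil =>
    have h := pk_run hi K0 (one_mem_Hm (F := F))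
    rw [mul_one] at h
    rw [List.map_nil, List.prod_nil, one_mul, h, sum_range_succ', map_add, map_sum, FF, Y0]
    congr 1
    · refine sum_congr rfl fun i _ => ?_
      have e : wd 1 (rr hi (0 + ((i+1 : ℕ) : ℤ))) (i+1) (K0 - (i+1)) =
          1 :: wd 1 (rr hi (1 + (i:ℤ))) i (K0 - (i+1)) := by
        simp [wd, List.replicate_succ, add_comm]
      rw [map_smul, e, run_cons, map_one, Module.End.one_apply, S.first hi Γ _ hΓ h1, wd_map,
        run_wd_rr hi Gt _ _ (by simpa using UU_HS (inc_HS (one_mem_Hm (F := F))))]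
    · have e := rr_spec hi (inc_HS (one_mem_Hm (F := F)))
      rw [EE_inc_one] at e
      simp only [wd, pow_zero, one_smul, List.replicate_zero, List.nil_append, Nat.cast_zero,
        add_zero, run_cons, e, Nat.sub_zero]
      rw [S.first hi Γ _ hΓ h1]; simp
  | cons K L ih =>
    have hh := Hm_mul (pk_prod_Hm (t := t) L) (pk_Hm t K0)
    rw [List.map_cons, List.prod_cons, mul_assoc, S.Del_pk hi Γ _ 1 hΓ K (by omega) hh, YY_apply,
      FF, YP, ← ih]
    refine sum_congr rfl fun i _ => ?_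
    rw [run_wd_rr hi Gt _ _ (inc_HS (S.Del_Hm Γ hh))]

end MJ
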