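import Pool.Agent.Lib.MP_9c49f6_co.PBlue
import Pool.Agent.Lib.MP_9c49f6_co.S_Kit
import Pool.Agent.Lib.MP_9c49f6_co.JB1

/-! The case `q = t`: Hecke algebra on words, definitions and statements of the steps. -/

namespace MJZ
open MJ MJT Finset MvPolynomial

section hecke
variable {K A M : Type} [Field K] [Ring A] [Algebra K A] [AddCommGroup M] [Module K M]

/-- the Hecke relations on `n` strands -/
structure Hk (q : K) (n : ℕ) (T : ℕ → A) : Prop where
  quad : ∀ i, i + 1 < n → T i * T i = (q - 1) • T i + q • (1 : A)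
  braid : ∀ i, i + 2 < n → T i * T (i + 1) * T i = T (i + 1) * T i * T (i + 1)
  comm : ∀ i j, i + 2 ≤ j → j + 1 < n → T i * T j = T j * T i

def ev (T : ℕ → A) (L : List ℕ) : A := (L.map T).prod

/-- all letters are generators on `n` strands -/
def Ok (n : ℕ) (L : List ℕ) : Prop := ∀ i ∈ L, i + 1 < n

/-- `∑_w q^(C(m,2) - ℓ(w)) F(reduced word of w)` -/
def sw (q : K) : ℕ → (List ℕ → M) → M
  | 0, F => F []
  | m + 1, F => ∑ j ∈ range (m + 1), q ^ j • sw q m fun L => F (List.range' j (m - j) ++ L)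

omit [Field K] [Algebra K A] in
lemma ev_nil (T : ℕ → A) : ev T [] = 1 := rfl
omit [Field K] [Algebra K A] in
lemma ev_cons (T : ℕ → A) (i : ℕ) (L : List ℕ) : ev T (i :: L) = T i * ev T L := by simp [ev]
omit [Field K] [Algebra K A] in
lemma ev_append (T : ℕ → A) (L L' : List ℕ) : ev T (L ++ L') = ev T L * ev T L' := by simp [ev]

lemma Ok.step {m j : ℕ} {L : List ℕ} (hj : j ≤ m) (h : Ok m L) :
    Ok (m + 1) (List.range' j (m - j) ++ L) := fun i hi => by
  rcases List.mem_append.1 hi with h1 | h1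
  · rw [List.mem_range'_1] at h1; omega
  · exact (h i h1).trans (Nat.lt_succ_self m)

lemma Ok.mono {m n : ℕ} {L : List ℕ} (h : Ok m L) (hm : m ≤ n) : Ok n L :=
  fun i hi => (h i hi).trans_le hm

lemma sw_map {M' : Type} [AddCommGroup M'] [Module K M'] (φ : M →ₗ[K] M') (q : K) (m : ℕ) :
    ∀ F : List ℕ → M, φ (sw q m F) = sw q m fun L => φ (F L) := by
  induction m with
  | zero => intro F; rfl
  | succ m ih => intro F; simp only [sw, map_sum, map_smul, ih]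

lemma sw_mem {q : K} (S : AddSubmonoid M) (hS : ∀ v ∈ S, q • v ∈ S) (m : ℕ) :
    ∀ F : List ℕ → M, (∀ L, Ok m L → F L ∈ S) → sw q m F ∈ S := by
  have hp : ∀ (j : ℕ), ∀ v ∈ S, q ^ j • v ∈ S := fun j v hv => by
    induction j with
    | zero => simpa using hv
    | succ j ih => rw [pow_succ', mul_smul]; exact hS _ ih
  induction m with
  | zero => intro F h; exact h [] (by simp [Ok])
  | succ m ih =>
    intro F h
    exact sum_mem fun j hj => hp j _ (ih _ fun L hL =>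
      h _ (hL.step (Nat.lt_succ_iff.1 (mem_range.1 hj))))

lemma sw_congr (q : K) (m : ℕ) :
    ∀ F G : List ℕ → M, (∀ L, Ok m L → F L = G L) → sw q m F = sw q m G := by
  induction m with
  | zero => intro F G h; exact h [] (by simp [Ok])
  | succ m ih =>
    intro F G h
    exact sum_congr rfl fun j hj => congrArg _ (ih _ _ fun L hL =>
      h _ (hL.step (Nat.lt_succ_iff.1 (mem_range.1 hj))))

lemma sw_markov (q : K) (F : List ℕ → M) (n : ℕ)
    (h : ∀ m j L, m < n → j < m → Ok m L → F (List.range' j (m - j) ++ L) = 0) :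
    sw q n F = q ^ n.choose 2 • F [] := by
  induction n with
  | zero => simp [sw]
  | succ n ih =>
    rw [sw, sum_range_succ, sum_eq_zero fun j hj => ?_, zero_add, Nat.sub_self]
    · simp only [List.range'_zero, List.nil_append]
      rw [ih fun m j L hm => h m j L (by omega), smul_smul, ← pow_add, Nat.choose_succ_succ',
        Nat.choose_one_right]
    · have := sw_mem (q := q) (⊥ : AddSubmonoid M) (by simp) n _ fun L hL =>
        h n j L (by omega) (mem_range.1 hj) hL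
      rw [AddSubmonoid.mem_bot.1 this, smul_zero]

end hecke

section words
variable {n : ℕ} {K : Type} [Field K]

def dd (q e : K) (a b : ℕ) : K := if a = b then e else if a < b then 0 else q - 1
def oo (q : K) (a b : ℕ) : K := if a = b then 0 else if a < b then 1 else q

/-- the letter at place `k` -/
def lt (w : Fin n → Fin n) (k : ℕ) : ℕ := if h : k < n then w ⟨k, h⟩ else 0

noncomputable def cont (w : Fin n → Fin n) : Fin n →₀ ℕ := ∑ a, Finsupp.single (w a) 1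

/-- words with content `d` -/
abbrev Wd (d : Fin n →₀ ℕ) : Type := {w : Fin n → Fin n // cont w = d}

def sp (n i : ℕ) : Equiv.Perm (Fin n) :=
  if h : i + 1 < n then Equiv.swap ⟨i, by omega⟩ ⟨i + 1, h⟩ else 1

lemma cont_comp (w : Fin n → Fin n) (σ : Equiv.Perm (Fin n)) : cont (w ∘ σ) = cont w :=
  Equiv.sum_comp σ fun a => Finsupp.single (w a) 1

def st {d : Fin n →₀ ℕ} (i : ℕ) (x : Wd d) : Wd d :=
  ⟨x.1 ∘ sp n i, (cont_comp _ _).trans x.2⟩

/-- the generator `T_i` on words; `e` is its eigenvalue on two equal letters -/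
noncomputable def Tm (q e : K) (d : Fin n →₀ ℕ) (i : ℕ) : Matrix (Wd d) (Wd d) K := fun x y =>
  (if y = x then dd q e (lt x.1 i) (lt x.1 (i + 1)) else 0) +
    if y = st i x then oo q (lt x.1 i) (lt x.1 (i + 1)) else 0

def ep (q : K) (b : Bool) : K := if b then q else -1

noncomputable def tr (q : K) (b : Bool) (d : Fin n →₀ ℕ) (L : List ℕ) : K :=
  (ev (Tm q (ep q b) d) L).trace

/-- weight of a word -/
def wg (q : K) (b : Bool) (J : List ℕ) (w : Fin n → Fin n) : K :=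
  (J.map fun i => dd q (ep q b) (lt w i) (lt w (i + 1))).prod

/-- restriction to `n` variables, after `ω` if `b` is false -/
noncomputable def rs (n : ℕ) (b : Bool) : Lam K →ₐ[K] MvPolynomial (Fin n) K :=
  aeval fun k => C ((if b then 1 else -1) ^ k) * psum (Fin n) K (k + 1)

lemma Tm_mulVec (q e : K) (d : Fin n →₀ ℕ) (i : ℕ) (f : Wd d → K) (x : Wd d) :
    (Tm q e d i).mulVec f x = dd q e (lt x.1 i) (lt x.1 (i + 1)) * f x +
      oo q (lt x.1 i) (lt x.1 (i + 1)) * f (st i x) := by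
  simp [Tm, Matrix.mulVec, dotProduct, add_mul, sum_add_distrib]

lemma lt_st {d : Fin n →₀ ℕ} {i : ℕ} (hi : i + 1 < n) (x : Wd d) (k : ℕ) :
    lt (st i x).1 k = lt x.1 (Equiv.swap i (i + 1) k) := by
  simp only [lt, st, sp, dif_pos hi, Function.comp, Equiv.swap_apply_def, Fin.ext_iff]
  split_ifs <;> first | rfl | omega

lemma lt_inj {x y : Fin n → Fin n} (h : ∀ k, lt x k = lt y k) : x = y := by
  funext k
  have := h k
  simp only [lt, dif_pos k.2] at this
  exact Fin.ext this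

end words

def St_RED : Prop := ∀ (K A M : Type) [Field K] [Ring A] [Algebra K A] [AddCommGroup M]
  [Module K M] (q : K) (P : Subsemiring K), q - 1 ∈ P → ∀ (n : ℕ) (T : ℕ → A), Hk q n T →
  ∀ τ : A →ₗ[K] M, (∀ a b, τ (a * b) = τ (b * a)) →
  ∀ S : AddSubmonoid M, (∀ p ∈ P, ∀ v ∈ S, p • v ∈ S) → ∀ (m : ℕ) (L J : List ℕ), m ≤ n →
  Ok m L → Ok n J → J.Pairwise (· < ·) → (∀ i ∈ J, m ≤ i + 1) →
  (∀ I, Ok n (I ++ J) → (I ++ J).Pairwise (· < ·) → τ (ev T (I ++ J)) ∈ S) →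
  τ (ev T L * ev T J) ∈ S

def St_CAS : Prop := ∀ (K E : Type) [Field K] [Ring E] [Algebra K E] (q : K) (n : ℕ)
  (l r : ℕ → E), Hk q n l → Hk q n r → (∀ i j, Commute (l i) (r j)) → ∀ i, i + 1 < n →
  l i * sw q n (fun L => ev l L * ev r L) = r i * sw q n (fun L => ev l L * ev r L)

def St_HK : Prop := ∀ (K : Type) [Field K] (q : K) (b : Bool) (n : ℕ) (d : Fin n →₀ ℕ),
  Hk q n (Tm q (ep q b) d)

def St_DIAG : Prop := ∀ (K : Type) [Field K] (q : K) (b : Bool) (n : ℕ) (d : Fin n →₀ ℕ)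
  (J : List ℕ), Ok n J → J.Pairwise (· < ·) → tr q b d J = ∑ x : Wd d, wg q b J x.1

def St_VAN : Prop := ∀ (K : Type) [Field K] (q : K), q ≠ 0 → q + 1 ≠ 0 →
  ∀ (n : ℕ) (d d' : Fin n →₀ ℕ),
  (∀ (x : Wd d) (y : Wd d'), ¬ Function.Injective fun j => (x.1 j, y.1 j)) →
  sw q n (fun L => tr q true d L * tr q false d' L) = 0

def St_GEN : Prop := ∀ (K : Type) [Field K] [CharZero K] (s : K), 1 + s ≠ 0 →
  (∀ k, (1 + s) ^ (k + 1) ≠ 1) → ∀ (n : ℕ) (J : List ℕ), Ok n J → J.Pairwise (· < ·) →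
  ∃ f ∈ Hm K n, (∀ d, coeff d f ∈ MJS.cone s) ∧
    (∀ b d, ∑ x : Wd d, wg (1 + s) b J x.1 = coeff d (rs n b f)) ∧
    (J ≠ [] → phi (1 + s) 0 f = 0) ∧ (J = [] → f = X 0 ^ n)

def St_CH : Prop := ∀ (K : Type) [Field K] [CharZero K] (s : K), 1 + s ≠ 0 →
  (∀ k, (1 + s) ^ (k + 1) ≠ 1) → ∀ n : ℕ, ∃ ch : List ℕ → Lam K,
  (∀ L, Ok n L → ch L ∈ Hm K n ∧ (∀ d, coeff d (ch L) ∈ MJS.cone s) ∧
    ∀ b d, tr (1 + s) b d L = coeff d (rs n b (ch L))) ∧ ch [] = X 0 ^ n ∧
  ∀ m j L, m < n → j < m → Ok m L → phi (1 + s) 0 (ch (List.range' j (m - j) ++ L)) = 0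

def St_EE : Prop := ∀ (K : Type) [Field K] [CharZero K] (n : ℕ) (κ : n.Partition),
  ∃ d : Fin n →₀ ℕ, (∀ ρ, lst κ < lst ρ → ∀ (x : Wd (expo ρ)) (y : Wd d),
    ¬ Function.Injective fun j => (x.1 j, y.1 j)) ∧
  ∀ a : n.Partition → K, (∀ μ, a μ = coeff d (rs n false (monomial (dOf μ) 1)) / zz μ) →
    coeff (expo κ) (sym a) ≠ 0 ∧ ∀ ρ, lst κ < lst ρ → coeff (expo ρ) (sym a) = 0

def St_MM : Prop := ∀ (K : Type) [Field K] [CharZero K] (s : K), 1 + s ≠ 0 →
  (∀ k, (1 + s) ^ (k + 1) ≠ 1) → ∀ n : ℕ, ∃ M : MJB.Mat n K, MJB.Tri M ∧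
  MJB.SA (fun μ => (zz μ : K)) M ∧ (∀ π ν, M π ν ∈ MJS.cone s) ∧
  ∀ π, phi (1 + s) 0 (Th (M π)) * (-s) ^ n =
    if π = ones n then (1 + s) ^ n.choose 2 * n.factorial else 0

def St_SPEC : Prop := ∀ (F K : Type) [Field F] [Field K] [CharZero F] [CharZero K]
  (Rd : F → K → Prop), Pl Rd → ∀ (n : ℕ) (z : n.Partition → F)
  (P : n.Partition → n.Partition → F), Orth z P → (∀ μ, Rd (z μ) (zz μ)) →
  ∃ S : n.Partition → n.Partition → ℚ, Orth (fun μ => (zz μ : ℚ)) S ∧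
    ∀ l μ, Rd (P l μ) (S l μ)

/-- the column `b^0` -/
def St_COL : Prop := ∀ (F : Type) [Field F] [CharZero F] (b g : F),
  AlgebraicIndependent ℚ ![b, g] → ∀ (hi : Indep (1 + g * (1 + b)) (1 + g)) (n : ℕ)
  (π μ ν : n.Partition) (N : MvPolynomial (Fin 2) ℤ),
  MJP.WW (1 + g * (1 + b)) (1 + g) (mac hi) π μ ν = aeval ![b, g] N →
  ∀ m : Fin 2 →₀ ℕ, m 0 = 0 → 0 ≤ N.coeff m

end MJZ
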