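import Pool.Agent.Lib.MP_9c49f6_co.ZBlue

/-! The Casimir property of the sum over reduced words. -/

namespace MJZ
open Finset

namespace CAS44

variable {K E : Type} [Field K] [Ring E] [Algebra K E]

/-- the product `T_j ⋯ T_(m-1)` -/
def u (T : ℕ → E) (m j : ℕ) : E := ev T (List.range' j (m - j))

lemma u_succ (T : ℕ → E) {m j : ℕ} (h : j < m) : u T m j = T j * u T m (j + 1) := by
  rw [u, u, ← ev_cons, show m - j = m - (j + 1) + 1 by omega, List.range'_succ]

lemma comm_ev {a : E} {T : ℕ → E} {L : List ℕ} (h : ∀ k ∈ L, Commute a (T k)) :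
    Commute a (ev T L) :=
  Commute.list_prod_right _ _ fun x hx => by
    obtain ⟨k, hk, rfl⟩ := List.mem_map.1 hx
    exact h k hk

variable {q : K} {n : ℕ} {T : ℕ → E}

lemma low (h : Hk q n T) {m i j : ℕ} (hm : m < n) (hij : i + 2 ≤ j) : Commute (T i) (u T m j) :=
  comm_ev fun k hk => by
    rw [List.mem_range'_1] at hk
    exact h.comm i k (by omega) (by omega)

lemma high (h : Hk q n T) {m : ℕ} (hm : m < n) (d : ℕ) :
    ∀ j, j + d + 1 < m → T (j + d + 1) * u T m j = u T m j * T (j + d) := by
  induction d with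
  | zero =>
    intro j hj
    rw [u_succ T (by omega : j < m), u_succ T (by omega : j + 1 < m), Nat.add_zero, ← mul_assoc,
      ← mul_assoc, ← h.braid j (by omega), mul_assoc, (low h hm le_rfl).eq]
    simp only [mul_assoc, Nat.add_zero]
  | succ d ih =>
    intro j hj
    have := ih (j + 1) (by omega)
    rw [show j + 1 + d = j + (d + 1) by omega] at this
    rw [u_succ T (by omega : j < m), ← mul_assoc, ← h.comm j _ (by omega) (by omega), mul_assoc,
      this, mul_assoc]

lemma pass (h : Hk q n T) {m i j : ℕ} (hm : m < n) (hi : i < m) (h1 : j ≠ i) (h2 : j ≠ i + 1) :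
    T i * u T m j = u T m j * T (if j < i then i - 1 else i) := by
  split_ifs with h3
  · obtain ⟨d, rfl⟩ : ∃ d, i = j + d + 1 := ⟨i - j - 1, by omega⟩
    exact high h hm d j hi
  · exact low h hm (by omega)

lemma same (h : Hk q n T) {m i : ℕ} (hm : m < n) (hi : i < m) :
    T i * u T m i = (q - 1) • u T m i + q • u T m (i + 1) := by
  rw [u_succ T hi, ← mul_assoc, h.quad i (by omega), add_mul, smul_mul_assoc, smul_mul_assoc,
    one_mul]

end CAS44

open CAS44 in
theorem st_CAS : St_CAS := by
  intro K E _ _ _ q n l r hl hr hc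
  have c1 : ∀ i L, Commute (l i) (ev r L) := fun i L => comm_ev fun k _ => hc i k
  have c2 : ∀ i L, Commute (r i) (ev l L) := fun i L => comm_ev fun k _ => (hc k i).symm
  have c3 : ∀ L L', Commute (ev l L) (ev r L') := fun L L' => comm_ev fun k _ => (c2 k L).symm
  suffices h : ∀ m, m ≤ n → ∀ i, i + 1 < m → l i * sw q m (fun L => ev l L * ev r L) =
      r i * sw q m (fun L => ev l L * ev r L) from h n le_rfl
  intro m
  induction m with
  | zero => intro _ i hi; omega
  | succ m ih =>
    intro hm i hi
    have hi' : i < m := by omega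
    have ih' := ih (by omega)
    have d1 : ∀ i j, Commute (l i) (u r m j) := fun i j => c1 i _
    have d2 : ∀ i j, Commute (r i) (u l m j) := fun i j => c2 i _
    have e : sw q (m + 1) (fun L => ev l L * ev r L) = ∑ j ∈ range (m + 1),
        q ^ j • (u l m j * u r m j * sw q m fun L => ev l L * ev r L) := by
      refine sum_congr rfl fun j _ => congrArg _ ?_
      refine Eq.trans ?_ (sw_map (LinearMap.mulLeft K (u l m j * u r m j)) q m _).symm
      refine sw_congr q m _ _ fun L _ => ?_
      beta_reduce
      rw [ev_append, ev_append, (c3 L _).mul_mul_mul_comm]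
      rfl
    rw [e]
    generalize sw q m (fun L => ev l L * ev r L) = O at ih'
    rw [← sub_eq_zero, mul_sum, mul_sum, ← sum_sub_distrib,
      sum_eq_add_of_mem i (i + 1) (mem_range.2 (by omega)) (mem_range.2 hi) (by omega)]
    · have a1 : ∀ j, r i * (u l m j * u r m j * O) = u l m j * (r i * u r m j) * O := fun j => by
        rw [← mul_assoc, ← mul_assoc, (d2 i j).eq, mul_assoc (u l m j)]
      have a2 : ∀ j, l i * (u l m j * u r m j * O) = l i * u l m j * u r m j * O := fun j => by
        simp only [mul_assoc]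
      simp only [mul_smul_comm, a1, a2]
      rw [same hl hm hi', same hr hm hi', ← u_succ l hi', ← u_succ r hi']
      simp only [add_mul, mul_add, smul_mul_assoc, mul_smul_comm, pow_succ]
      module
    · rintro j hj ⟨h1, h2⟩
      have hj' := mem_range.1 hj
      have a1 := ih' (if j < i then i - 1 else i) (by split_ifs <;> omega)
      rw [mul_smul_comm, mul_smul_comm, ← smul_sub, ← mul_assoc, ← mul_assoc,
        pass hl hm hi' h1 h2, ← mul_assoc (r i), ← mul_assoc (r i), (d2 i j).eq,
        mul_assoc _ (r i), pass hr hm hi' h1 h2, mul_assoc _ (l _), (d1 _ j).eq]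
      simp only [mul_assoc, a1, sub_self, smul_zero]

end MJZ
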