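import Pool.Agent.Lib.MP_9c49f6_co.ZBlue

/-! The case `q = t`: traces of increasing words. -/

namespace MJZ

namespace DIAG76

theorem key {K : Type} [Field K] (q : K) (b : Bool) {n : ℕ} (d : Fin n →₀ ℕ) (J : List ℕ) :
    ∀ m, Ok n J → J.Pairwise (· < ·) → (∀ i ∈ J, m ≤ i) → ∀ x : Wd d,
      (∀ y, ev (Tm q (ep q b) d) J x y ≠ 0 → ∀ k < m, lt x.1 k = lt y.1 k) ∧
        ev (Tm q (ep q b) d) J x x = wg q b J x.1 := by
  induction J with
  | nil =>
    refine fun m _ _ _ x => ⟨fun y h k _ => ?_, by simp [ev_nil, wg]⟩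
    rw [show x = y from by_contra fun h' => h (Matrix.one_apply_ne h')]
  | cons i J ih =>
    intro m h1 h2 h3 x
    have hi : i + 1 < n := h1 i List.mem_cons_self
    have hm : m ≤ i := h3 i List.mem_cons_self
    have ih' := ih (i + 1) (fun j hj => h1 j (List.mem_cons_of_mem _ hj)) h2.of_cons
      fun j hj => List.rel_of_pairwise_cons h2 hj
    have e : ∀ y, ev (Tm q (ep q b) d) (i :: J) x y =
        dd q (ep q b) (lt x.1 i) (lt x.1 (i + 1)) * ev (Tm q (ep q b) d) J x y +
          oo q (lt x.1 i) (lt x.1 (i + 1)) * ev (Tm q (ep q b) d) J (st i x) y := fun y => by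
      rw [ev_cons]
      exact Tm_mulVec q _ d i (fun z => ev (Tm q (ep q b) d) J z y) x
    refine ⟨fun y h k hk => ?_, ?_⟩
    · by_cases h4 : ev (Tm q (ep q b) d) J x y = 0
      · have h5 : ev (Tm q (ep q b) d) J (st i x) y ≠ 0 := fun h5 => h (by simp [e, h4, h5])
        rw [← (ih' _).1 y h5 k (by omega), lt_st hi,
          Equiv.swap_apply_of_ne_of_ne (by omega) (by omega)]
      · exact (ih' x).1 y h4 k (by omega)
    · have h4 : oo q (lt x.1 i) (lt x.1 (i + 1)) * ev (Tm q (ep q b) d) J (st i x) x = 0 := by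
        refine mul_eq_zero.2 (or_iff_not_imp_right.2 fun h5 => ?_)
        have := (ih' _).1 x h5 i (by omega)
        rw [lt_st hi, Equiv.swap_apply_left] at this
        simp [oo, this]
      rw [e, h4, add_zero, (ih' x).2]
      simp [wg]

end DIAG76

theorem st_DIAG : St_DIAG := fun _ _ q b _ d J h1 h2 =>
  Finset.sum_congr rfl fun x _ => (DIAG76.key q b d J 0 h1 h2 (fun _ _ => Nat.zero_le _) x).2

end MJZ
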