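import Pool.Agent.Lib.MP_9c49f6_co.ZBlue
import Pool.Agent.Lib.MP_9c49f6_co.T_CAU
import Pool.Agent.Lib.MP_9c49f6_co.T_LIM
import Pool.Agent.Lib.MP_9c49f6_co.JB_YNG
import Pool.Agent.Lib.MP_9c49f6_co.JB_FIX

/-! The elementary symmetric functions against the conjugate content. -/

namespace MJZ
open MJ MJT Finset MvPolynomial

namespace EE60

lemma exists_equiv {α β γ : Type} [Fintype α] [Fintype β] [DecidableEq γ] (x : α → γ)
    (y : β → γ) (h : ∑ a, Finsupp.single (x a) 1 = ∑ b, Finsupp.single (y b) (1 : ℕ)) :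
    ∃ e : α ≃ β, ∀ a, y (e a) = x a := by
  have hc : ∀ c, Fintype.card {a // x a = c} = Fintype.card {b // y b = c} := fun c => by
    have := congrArg (fun d : γ →₀ ℕ => d c) h
    simp only [Finsupp.finsetSum_apply, Finsupp.single_apply] at this
    rw [Fintype.card_subtype, Fintype.card_subtype, card_filter, card_filter]
    exact this
  exact ⟨Equiv.ofFiberEquiv fun c => Fintype.equivOfCardEq (hc c),
    Equiv.ofFiberEquiv_map _⟩

variable {n : ℕ} {K : Type} [Field K]

noncomputable def ind (S : Finset (Fin n)) : Fin n →₀ ℕ := ∑ c ∈ S, Finsupp.single c 1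

noncomputable def aa (K : Type) [Field K] (n k : ℕ) : MvPolynomial (Fin n) K :=
  C ((-1) ^ k) * psum (Fin n) K (k + 1)

lemma ex_aa [CharZero K] (m : ℕ) :
    ex K (aa K n) m = ∑ S ∈ powersetCard m univ, monomial (ind S) 1 := by
  have : aa K n = fun k => ∑ i : Fin n, - (- X i) ^ (k + 1) := by
    funext k
    simp only [aa, psum, mul_sum, map_pow, map_neg, map_one]
    exact sum_congr rfl fun i _ => by rw [neg_pow (X i : MvPolynomial (Fin n) K)]; ring
  rw [this, ← Ex_coeff, Ex_sum]
  simp only [Ex_neg_geom, map_neg, neg_mul, sub_neg_eq_add]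
  rw [prod_one_add, map_sum, powersetCard_eq_filter, sum_filter]
  refine sum_congr rfl fun S _ => ?_
  rw [prod_mul_distrib, prod_const, ← map_prod, PowerSeries.coeff_C_mul, PowerSeries.coeff_X_pow,
    ind, monomial_sum_one]
  by_cases h : S.card = m
  · simp [h]; rfl
  · simp [h, Ne.symm h]

lemma prod_parts {M : Type} [CommMonoid M] (ρ : n.Partition) (e : ℕ → M) (h : e 0 = 1) :
    (ρ.parts.map e).prod = ∏ i : Fin n, e (row ρ i) := by
  have h1 := congrArg (fun L => (L.map e).prod) (ofFn_row ρ n (col_le ρ 0))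
  simp only [List.map_ofFn, List.prod_ofFn, List.map_append, List.prod_append,
    List.map_replicate, List.prod_replicate, h, one_pow, mul_one, Function.comp] at h1
  rw [h1, ← lst_coe, Multiset.map_coe, Multiset.prod_coe]

lemma coeff_eq [CharZero K] (d : Fin n →₀ ℕ) (a : n.Partition → K)
    (ha : ∀ μ, a μ = coeff d (rs n false (monomial (dOf μ) 1)) / zz μ) (ρ : n.Partition) :
    coeff (expo ρ) (sym a) = (((Fintype.piFinset fun i : Fin n =>
      powersetCard (row ρ i) (univ : Finset (Fin n))).filter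
        fun S => ∑ i, ind (S i) = d).card : K) := by
  have h := congrArg (coeff d) (st_CAU K _ (aa K n) n ρ)
  rw [prod_parts ρ _ (ex_zero _)] at h
  simp only [ex_aa] at h
  rw [prod_univ_sum, coeff_sum, coeff_sum] at h
  simp only [← monomial_sum_one, coeff_monomial, sum_boole] at h
  rw [← h, LIM15.coeff_sym']
  refine sum_congr rfl fun μ _ => ?_
  have h3 := prod_dOf μ fun i => aa K n (i - 1)
  simp only [Nat.add_sub_cancel] at h3
  rw [ha, coeff_smul, ← h3, rs, aeval_monomial, map_one, one_mul, smul_eq_mul]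
  simp only [aa, Bool.false_eq_true, if_false]
  ring

lemma exists_c (κ : n.Partition) : ∃ c0 : Fin n → Fin n,
    (∃ f, MJB.Tab κ f ∧ Function.Injective fun j => (f j, c0 j)) ∧ ∀ ρ : n.Partition,
    lst κ < lst ρ → ∀ f, MJB.Tab ρ f → ¬ Function.Injective fun j => (f j, c0 j) := by
  obtain ⟨cl, ⟨f, hf, hi⟩, h2⟩ := MJB.st_YNG_of n κ
  let c0 : Fin n → Fin n := fun j => @Function.invFun _ _ ⟨j⟩ cl (cl j)
  have h1 : ∀ j, cl (c0 j) = cl j := fun j => @Function.invFun_eq _ _ ⟨j⟩ cl _ ⟨j, rfl⟩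
  refine ⟨c0, ⟨f, hf, fun j j' h => hi ?_⟩, fun ρ hρ g hg hc => h2 ρ hρ g hg fun j j' h => hc ?_⟩
  · simp only [Prod.mk.injEq] at h ⊢
    exact ⟨h.1, by rw [← h1 j, h.2, h1]⟩
  · simp only [Prod.mk.injEq] at h ⊢
    exact ⟨h.1, by simp only [c0, h.2]⟩

end EE60

open EE60 in
theorem st_EE : St_EE := by
  intro K _ _ n κ
  obtain ⟨c0, ⟨f0, hf0, hi0⟩, h2⟩ := exists_c κ
  refine ⟨cont c0, fun ρ hρ x y hi => ?_, fun a ha => ⟨?_, fun ρ hρ => ?_⟩⟩
  · obtain ⟨e, he⟩ := exists_equiv c0 y.1 y.2.symm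
    refine h2 ρ hρ (x.1 ∘ e) ((MJB.FIX.expo_iff _ _).1 ((cont_comp x.1 e).trans x.2)) ?_
    intro j j' h
    refine e.injective (hi ?_)
    simpa only [he, Function.comp] using h
  · rw [coeff_eq _ a ha, Nat.cast_ne_zero, card_ne_zero]
    have hin : ∀ i, Set.InjOn c0 (univ.filter fun j => f0 j = i : Finset (Fin n)) :=
      fun i j hj j' hj' h => hi0 (by
        simp only [coe_filter, mem_univ, true_and, Set.mem_ofPred_eq] at hj hj'
        simp only [hj, hj', h])
    refine ⟨fun i => (univ.filter fun j => f0 j = i).image c0, ?_⟩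
    simp only [mem_filter, Fintype.mem_piFinset, mem_powersetCard_univ]
    refine ⟨fun i => by rw [card_image_of_injOn (hin i), hf0 i], ?_⟩
    rw [cont, ← sum_fiberwise univ f0 fun a => Finsupp.single (c0 a) 1]
    exact sum_congr rfl fun i _ => sum_image (hin i)
  · rw [coeff_eq _ a ha, Nat.cast_eq_zero, card_eq_zero, filter_eq_empty_iff]
    intro S hS hd
    simp only [Fintype.mem_piFinset, mem_powersetCard_univ] at hS
    obtain ⟨e, he⟩ := exists_equiv c0 (fun p : Σ i, S i => (p.2 : Fin n)) (by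
      rw [Fintype.sum_sigma]
      refine hd.symm.trans (sum_congr rfl fun i _ => ?_)
      exact (sum_coe_sort (S i) fun c => Finsupp.single c 1).symm)
    refine h2 ρ hρ (fun j => (e j).1) ((MJB.FIX.expo_iff _ _).1 ?_) fun j j' h => ?_
    · rw [Equiv.sum_comp e fun p => Finsupp.single p.1 1, Fintype.sum_sigma]
      ext i
      simp [Finsupp.finsetSum_apply, Finsupp.single_apply, hS, expo]
    · simp only [Prod.mk.injEq, ← he] at h
      refine e.injective ?_
      generalize e j = p, e j' = p' at h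
      obtain ⟨i, c, hc⟩ := p
      obtain ⟨i', c', hc'⟩ := p'
      obtain ⟨rfl, rfl⟩ := h
      rfl

end MJZ
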