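import Pool.Agent.Lib.MP_9c49f6_co.ZBlue

/-! Generating functions of weighted words: products of the functions `g k`. -/

namespace MJZ
open MJ MJT Finset MvPolynomial

namespace GEN99
variable {K : Type} [Field K] {N : ℕ}

noncomputable def xx (K : Type) [Field K] (N a : ℕ) : MvPolynomial (Fin N) K :=
  if h : a < N then X ⟨a, h⟩ else 0

noncomputable def HH (q : K) (b : Bool) (N a : ℕ) : PowerSeries (MvPolynomial (Fin N) K) :=
  Ex K fun k => ∑ c ∈ range a,
    ((C (ep q b) * xx K N c) ^ (k + 1) + - (C (ep q b + 1 - q) * xx K N c) ^ (k + 1))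

lemma HH_zero [CharZero K] (q : K) (b : Bool) : HH q b N 0 = 1 := by
  simpa [HH] using Ex_zero (F := K) (A := MvPolynomial (Fin N) K)

lemma HH_succ [CharZero K] (q : K) (b : Bool) (a : ℕ) :
    HH q b N (a + 1) * (1 - PowerSeries.C (C (ep q b) * xx K N a) * PowerSeries.X) =
      HH q b N a * (1 - PowerSeries.C (C (ep q b + 1 - q) * xx K N a) * PowerSeries.X) := by
  have h := Ex_geom (F := K) (C (ep q b) * xx K N a)
  simp only [HH, sum_range_succ]
  rw [Ex_add, Ex_add, Ex_neg_geom]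
  linear_combination (Ex K fun k => ∑ c ∈ range a,
    ((C (ep q b) * xx K N c) ^ (k + 1) + - (C (ep q b + 1 - q) * xx K N c) ^ (k + 1))) *
    (1 - PowerSeries.C (C (ep q b + 1 - q) * xx K N a) * PowerSeries.X) * h

noncomputable def hc (q : K) (b : Bool) (N a k : ℕ) : MvPolynomial (Fin N) K :=
  PowerSeries.coeff k (HH q b N a)

lemma hc_zero (q : K) (b : Bool) (a : ℕ) : hc q b N a 0 = 1 := by simp [hc, HH, Ex]

lemma hc_bot [CharZero K] (q : K) (b : Bool) (k : ℕ) : hc q b N 0 (k + 1) = 0 := by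
  simp [hc, HH_zero, PowerSeries.coeff_one]

lemma hc_rec [CharZero K] (q : K) (b : Bool) (a k : ℕ) :
    hc q b N (a + 1) (k + 1) - C (ep q b) * xx K N a * hc q b N (a + 1) k =
      hc q b N a (k + 1) - C (ep q b + 1 - q) * xx K N a * hc q b N a k := by
  have h := congrArg (fun P => cz P ((k + 1 : ℕ) : ℤ)) (HH_succ (N := N) q b a)
  have e : ((k + 1 : ℕ) : ℤ) - 1 = k := by omega
  simp only [cz_mul_one_sub] at h
  simp only [e, cz_nat] at h
  exact h

noncomputable def SS (s : K) (b : Bool) (N k a : ℕ) : MvPolynomial (Fin N) K :=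
  C s⁻¹ * (hc (1 + s) b N (a + 1) (k + 1) - hc (1 + s) b N a (k + 1))

lemma Cinv {s : K} (hs : s ≠ 0) : (C s⁻¹ * C s : MvPolynomial (Fin N) K) = 1 := by
  rw [← map_mul, inv_mul_cancel₀ hs, map_one]

lemma SS_zero [CharZero K] {s : K} (hs : s ≠ 0) (b : Bool) (a : ℕ) : SS s b N 0 a = xx K N a := by
  have h := hc_rec (N := N) (1 + s) b a 0
  simp only [hc_zero, map_sub, map_add, map_one] at h
  rw [SS]
  linear_combination C s⁻¹ * h + xx K N a * Cinv (N := N) hs

lemma SS_sum [CharZero K] (s : K) (b : Bool) (k a : ℕ) :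
    ∑ c ∈ range a, SS s b N k c = C s⁻¹ * hc (1 + s) b N a (k + 1) := by
  simp only [SS]
  rw [← mul_sum, sum_range_sub fun c => hc (1 + s) b N c (k + 1), hc_bot, sub_zero]

lemma SS_succ [CharZero K] {s : K} (hs : s ≠ 0) (b : Bool) (k : ℕ) {a : ℕ} (ha : a < N) :
    xx K N a * ∑ c ∈ range N, C (dd (1 + s) (ep (1 + s) b) a c) * SS s b N k c =
      SS s b N (k + 1) a := by
  have h1 : ∑ c ∈ range N, C (dd (1 + s) (ep (1 + s) b) a c) * SS s b N k c =
      ∑ c ∈ range (a + 1), C (dd (1 + s) (ep (1 + s) b) a c) * SS s b N k c := by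
    refine (sum_subset (range_subset_range.2 ha) fun c _ hc => ?_).symm
    have : a < c := by simpa using hc
    simp [dd, this, this.ne]
  have h2 : ∑ c ∈ range a, C (dd (1 + s) (ep (1 + s) b) a c) * SS s b N k c =
      C s * ∑ c ∈ range a, SS s b N k c := by
    rw [mul_sum]
    refine sum_congr rfl fun c hc => ?_
    have : c < a := mem_range.1 hc
    simp [dd, this.ne', this.le.not_gt]
  have h := hc_rec (N := N) (1 + s) b a (k + 1)
  simp only [map_sub, map_add, map_one] at h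
  rw [h1, sum_range_succ, h2, SS_sum]
  simp only [SS, dd, if_true]
  linear_combination - C s⁻¹ * h

noncomputable def gs (s : K) (k : ℕ) : Lam K := s⁻¹ • gg (1 + s) (k : ℕ)

lemma rs_gs [CharZero K] (s : K) (b : Bool) (k : ℕ) :
    ∑ c ∈ range N, SS s b N k c = rs N b (gs s (k + 1)) := by
  rw [SS_sum, gs, map_smul, gg, gen_nat, map_ex, smul_eq_C_mul, hc, HH, Ex, PowerSeries.coeff_mk]
  congr 2
  funext j
  rw [← Fin.sum_univ_eq_sum_range fun c => (C (ep (1 + s) b) * xx K N c) ^ (j + 1) +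
    - (C (ep (1 + s) b + 1 - (1 + s)) * xx K N c) ^ (j + 1)]
  simp only [rs, map_mul, algHom_C, aeval_X, psum, mul_sum, xx, Fin.is_lt, dif_pos, Fin.eta,
    algebraMap_eq]
  refine sum_congr rfl fun c _ => ?_
  cases b
  · have : ep (1 + s) false + 1 - (1 + s) = - (1 + s) := by simp [ep]
    rw [this]
    simp only [ep, mul_pow, map_neg, map_one, map_sub, map_pow, Bool.false_eq_true, if_false]
    rw [neg_pow (C (1 + s) : MvPolynomial (Fin N) K)]
    ring
  · have : ep (1 + s) true + 1 - (1 + s) = 1 := by simp [ep]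
    rw [this]
    simp only [ep, mul_pow, map_one, map_sub, map_pow, if_true]
    ring

def ll {m : ℕ} (w : Fin m → Fin N) (k : ℕ) : ℕ := if h : k < m then w ⟨k, h⟩ else 0

lemma ll_zero {m : ℕ} (a : Fin N) (w : Fin m → Fin N) :
    ll (Fin.cons a w : Fin (m + 1) → Fin N) 0 = a := by simp [ll]

lemma ll_succ {m : ℕ} (a : Fin N) (w : Fin m → Fin N) (k : ℕ) :
    ll (Fin.cons a w : Fin (m + 1) → Fin N) (k + 1) = ll w k := by
  by_cases h : k < m
  · simp only [ll, dif_pos h, dif_pos (Nat.succ_lt_succ h)]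
    exact congrArg Fin.val (Fin.cons_succ (α := fun _ => Fin N) a w ⟨k, h⟩)
  · simp [ll, h]

def Dw (q e : K) (β : Bool) (a c : ℕ) : K := if β then dd q e a c else 1

noncomputable def tm (q e : K) {m : ℕ} (β : ℕ → Bool) (w : Fin (m + 1) → Fin N) :
    MvPolynomial (Fin N) K :=
  C (∏ k ∈ range m, Dw q e (β k) (ll w k) (ll w (k + 1))) * ∏ k, X (w k)

lemma sum_cons {M : Type} [AddCommMonoid M] {m : ℕ} (F : (Fin (m + 1) → Fin N) → M) :
    ∑ w, F w = ∑ a : Fin N, ∑ v : Fin m → Fin N, F (Fin.cons a v) := by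
  rw [← Fintype.sum_prod_type' fun a v => F (Fin.cons a v)]
  exact ((Fin.consEquiv fun _ => Fin N).sum_comp F).symm

noncomputable def KR (s : K) : ℕ → (ℕ → Bool) → ℕ × Lam K
  | 0, _ => (0, 1)
  | m + 1, β => if β 0 then ((KR s m fun k => β (k + 1)).1 + 1, (KR s m fun k => β (k + 1)).2)
      else (0, gs s ((KR s m fun k => β (k + 1)).1 + 1) * (KR s m fun k => β (k + 1)).2)

lemma Z_eq [CharZero K] {s : K} (hs : s ≠ 0) (b : Bool) (m : ℕ) : ∀ (β : ℕ → Bool) (a : Fin N),
    ∑ v : Fin m → Fin N, tm (1 + s) (ep (1 + s) b) β (Fin.cons a v) =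
      SS s b N (KR s m β).1 a * rs N b (KR s m β).2 := by
  induction m with
  | zero => intro β a; simp [tm, KR, SS_zero hs, xx]
  | succ m ih =>
    intro β a
    have h1 : ∀ (c : Fin N) (v : Fin m → Fin N),
        tm (1 + s) (ep (1 + s) b) β (Fin.cons a (Fin.cons c v : Fin (m + 1) → Fin N)) =
        xx K N a * (C (Dw (1 + s) (ep (1 + s) b) (β 0) a c) *
          tm (1 + s) (ep (1 + s) b) (fun k => β (k + 1)) (Fin.cons c v)) := by
      intro c v
      rw [tm, tm, prod_range_succ', Fin.prod_univ_succ]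
      simp only [ll_succ a, ll_zero, Fin.cons_zero, Fin.cons_succ, map_mul, xx, a.2, dif_pos]
      ring
    rw [sum_cons]
    simp only [h1, ← mul_sum, ih]
    rw [Fin.sum_univ_eq_sum_range fun c => C (Dw (1 + s) (ep (1 + s) b) (β 0) a c) *
      (SS s b N (KR s m fun k => β (k + 1)).1 c * rs N b (KR s m fun k => β (k + 1)).2)]
    simp only [← mul_assoc, ← sum_mul, KR]
    cases β 0
    · simp only [Dw, Bool.false_eq_true, if_false, map_one, one_mul, rs_gs, SS_zero hs, map_mul,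
        mul_assoc]
    · simp only [Dw, if_true, SS_succ hs b _ a.2]

noncomputable def ff (s : K) (m : ℕ) (β : ℕ → Bool) : Lam K :=
  gs s ((KR s m β).1 + 1) * (KR s m β).2

lemma T_eq [CharZero K] {s : K} (hs : s ≠ 0) (b : Bool) (m : ℕ) (β : ℕ → Bool) :
    ∑ w : Fin (m + 1) → Fin N, tm (1 + s) (ep (1 + s) b) β w = rs N b (ff s m β) := by
  rw [sum_cons]
  simp only [Z_eq hs]
  rw [← sum_mul, Fin.sum_univ_eq_sum_range fun c => SS s b N (KR s m β).1 c, rs_gs, ff, map_mul]

lemma gs_Hm [CharZero K] (s : K) (k : ℕ) : gs s k ∈ Hm K k := Submodule.smul_mem _ _ (gg_Hm _ _)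

lemma KR_Hm [CharZero K] (s : K) (m : ℕ) :
    ∀ β, (KR s m β).2 ∈ Hm K ((m : ℤ) - (KR s m β).1) := by
  induction m with
  | zero => intro β; simpa [KR] using one_mem_Hm
  | succ m ih =>
    intro β
    have h := ih fun k => β (k + 1)
    rw [KR]
    split_ifs
    · convert h using 2; push_cast; ring
    · convert Hm_mul (gs_Hm s ((KR s m fun k => β (k + 1)).1 + 1)) h using 2; push_cast; ring

lemma gs_PC [CharZero K] {s : K} (hs : s ≠ 0) (hq : 1 + s ≠ 0) (k : ℕ) :
    gs s (k + 1) ∈ MJS.PC (MJS.cone s) := by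
  let D : PosData (1 + s) (1 + s) (0 : K) :=
    ⟨MJS.cone s, 0, s, zero_mem _, MJS.s_cone s, zero_mem _, MJS.inv_nat_cone s, hs, rfl,
      by ring, hq⟩
  intro d
  obtain ⟨a, ha, h⟩ := D.coeff_mem ((D.gg_div (k + 1 : ℕ)).2 (by omega)) d
  have h' : coeff d (gs s (k + 1)) = a * pw (br (1 + s)) d := h
  rw [h']
  exact mul_mem ha (prod_mem fun j _ => pow_mem (D.br_mem D.t_mem j) _)

lemma KR_PC [CharZero K] {s : K} (hs : s ≠ 0) (hq : 1 + s ≠ 0) (m : ℕ) :
    ∀ β, (KR s m β).2 ∈ MJS.PC (MJS.cone s) := by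
  induction m with
  | zero => intro β; exact one_mem _
  | succ m ih =>
    intro β
    rw [KR]
    split_ifs
    · exact ih _
    · exact mul_mem (gs_PC hs hq _) (ih _)

lemma phi_gs [CharZero K] {s : K} (h : ∀ k, (1 + s) ^ (k + 1) ≠ 1) (k : ℕ) :
    phi (1 + s) 0 (gs s (k + 2)) = 0 := by
  rw [gs, map_smul, gg, gen, map_cz_Ex]
  have : (fun k => phi (1 + s) 0 (C ((1 + s) ^ (k + 1) - 1) * X k)) =
      fun k => - (1 : K) ^ (k + 1) := by
    funext k
    have := sub_ne_zero.mpr (h k).symm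
    simp [phi]; field_simp; ring
  rw [this, Ex_neg_geom, cz_nat]
  simp [PowerSeries.coeff_one, PowerSeries.coeff_X]

lemma phi_ff [CharZero K] {s : K} (h : ∀ k, (1 + s) ^ (k + 1) ≠ 1) (m : ℕ) :
    ∀ β : ℕ → Bool, (∃ i < m, β i = true) → phi (1 + s) 0 (ff s m β) = 0 := by
  induction m with
  | zero => rintro β ⟨i, hi, _⟩; omega
  | succ m ih =>
    rintro β ⟨i, hi, hb⟩
    rw [ff, KR]
    split_ifs with h0
    · rw [map_mul, phi_gs h, zero_mul]
    · obtain ⟨j, rfl⟩ : ∃ j, i = j + 1 := Nat.exists_eq_succ_of_ne_zero fun e => h0 (e ▸ hb)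
      rw [map_mul, ← ff, ih _ ⟨j, by omega, hb⟩, mul_zero]

lemma gs_one [CharZero K] {s : K} (hs : s ≠ 0) : gs s 1 = X 0 := by
  rw [gs, Nat.cast_one, gg_one, pk, smul_eq_C_mul, ← mul_assoc, ← map_mul]
  simp [inv_mul_cancel₀ hs]

lemma KR_false [CharZero K] {s : K} (hs : s ≠ 0) (m : ℕ) :
    KR s m (fun _ => false) = (0, X 0 ^ m) := by
  induction m with
  | zero => simp [KR]
  | succ m ih => simp [KR, ih, gs_one hs, pow_succ']

lemma sum_Wd {n : ℕ} (F : (Fin n → Fin n) → K) (d : Fin n →₀ ℕ) :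
    ∑ x : Wd d, F x.1 = coeff d (∑ w, C (F w) * ∏ k, X (w k)) := by
  have h : ∀ w : Fin n → Fin n,
      (∏ k, X (w k) : MvPolynomial (Fin n) K) = monomial (cont w) 1 := fun w => by
    rw [cont, monomial_sum_one]; rfl
  simp only [coeff_sum, coeff_C_mul, h, coeff_monomial, mul_ite, mul_one, mul_zero]
  rw [← sum_filter]
  exact (sum_subtype _ (by simp) F).symm

end GEN99
open GEN99

theorem st_GEN : St_GEN := by
  intro K _ _ s hq h n J hJ hp
  have hs : s ≠ 0 := fun e => h 0 (by simp [e])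
  cases n with
  | zero =>
    have hJ0 : J = [] := List.eq_nil_iff_forall_not_mem.2 fun i hi => by have := hJ i hi; omega
    subst hJ0
    refine ⟨1, by simpa using one_mem_Hm, (MJS.PC (MJS.cone s)).one_mem, fun b d => ?_,
      fun h => (h rfl).elim, fun _ => by simp⟩
    rw [sum_Wd]
    simp [wg]
  | succ m =>
    refine ⟨ff s m fun k => decide (k ∈ J), ?_, mul_mem (gs_PC hs hq _) (KR_PC hs hq _ _),
      fun b d => ?_, fun h0 => ?_, fun h0 => ?_⟩
    · have := Hm_mul (gs_Hm s ((KR s m fun k => decide (k ∈ J)).1 + 1))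
        (KR_Hm s m fun k => decide (k ∈ J))
      rw [ff]
      convert this using 2
      push_cast; ring
    · rw [sum_Wd, ← T_eq hs]
      refine congrArg _ (sum_congr rfl fun w _ => congrArg (fun c => C c * _) ?_)
      simp only [Dw, decide_eq_true_eq]
      rw [← prod_filter, wg, ← List.prod_toFinset _ (hp.imp ne_of_lt)]
      refine prod_congr ?_ fun _ _ => rfl
      ext i
      simp only [List.mem_toFinset, mem_filter, mem_range]
      exact ⟨fun hi => ⟨by have := hJ i hi; omega, hi⟩, fun hi => hi.2⟩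
    · obtain ⟨i, hi⟩ := List.exists_mem_of_ne_nil J h0
      exact phi_ff h m _ ⟨i, by have := hJ i hi; omega, by simpa using hi⟩
    · subst h0
      simp [ff, KR_false hs, gs_one hs, pow_succ']

end MJZ
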