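import Pool.Agent.Lib.MP_9c49f6_co.ZBlue

/-! The matrices `Tm` satisfy the Hecke relations. -/

namespace MJZ
open MJ MJT Finset MvPolynomial

namespace HK13
variable {K : Type} [Field K]

lemma mat_ext {ι : Type} [Fintype ι] [DecidableEq ι] {A B : Matrix ι ι K}
    (h : ∀ f x, A.mulVec f x = B.mulVec f x) : A = B := by
  ext i j
  simpa using h (Pi.single j 1) i

lemma key2 {q e : K} (he : e * e = (q - 1) * e + q) (a b : ℕ) (f0 f1 : K) :
    dd q e a b * (dd q e a b * f0 + oo q a b * f1) + oo q a b * (dd q e b a * f1 + oo q b a * f0)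
      = (q - 1) * (dd q e a b * f0 + oo q a b * f1) + q * f0 := by
  rcases lt_trichotomy a b with h | h | h
  · simp only [dd, oo, h, h.ne, h.ne', h.not_gt, if_true, if_false]; ring
  · subst h; simp only [dd, oo, if_true]; linear_combination f0 * he
  · simp only [dd, oo, h, h.ne, h.ne', h.not_gt, if_true, if_false]; ring

lemma key3 {q e : K} (he : e * e = (q - 1) * e + q) (a b c : ℕ) (f0 f1 f2 f12 f21 f3 : K) :
    dd q e a b * (dd q e b c * (dd q e a b * f0 + oo q a b * f1) +
        oo q b c * (dd q e a c * f2 + oo q a c * f12)) +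
      oo q a b * (dd q e a c * (dd q e b a * f1 + oo q b a * f0) +
        oo q a c * (dd q e b c * f21 + oo q b c * f3)) =
    dd q e b c * (dd q e a b * (dd q e b c * f0 + oo q b c * f2) +
        oo q a b * (dd q e a c * f1 + oo q a c * f21)) +
      oo q b c * (dd q e a c * (dd q e c b * f2 + oo q c b * f0) +
        oo q a c * (dd q e a b * f12 + oo q a b * f3)) := by
  have L : ∀ {x y : ℕ}, x < y → dd q e x y = 0 ∧ oo q x y = 1 ∧ dd q e y x = q - 1 ∧
      oo q y x = q := fun h => by simp [dd, oo, h, h.ne, h.ne', h.not_gt]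
  have E : ∀ x : ℕ, dd q e x x = e ∧ oo q x x = 0 := fun x => by simp [dd, oo]
  rcases lt_trichotomy a b with h | h | h
  · rcases lt_trichotomy b c with h' | h' | h'
    · simp only [L h, L h', L (h.trans h')]; ring
    · subst h'; simp only [L h, E]; ring
    · rcases lt_trichotomy a c with h'' | h'' | h''
      · simp only [L h, L h', L h'']; ring
      · subst h''; simp only [L h, E]; ring
      · simp only [L h, L h', L h'']; ring
  · subst h
    rcases lt_trichotomy a c with h' | h' | h'
    · simp only [L h', E]; ring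
    · subst h'; simp only [E]; ring
    · simp only [L h', E]; linear_combination (q - 1) * f0 * he
  · rcases lt_trichotomy b c with h' | h' | h'
    · rcases lt_trichotomy a c with h'' | h'' | h''
      · simp only [L h, L h', L h'']; ring
      · subst h''; simp only [L h, E]; ring
      · simp only [L h, L h', L h'']; ring
    · subst h'; simp only [L h, E]; linear_combination (-(q - 1) * f0) * he
    · simp only [L h, L h', L (h'.trans h)]; ring

variable {n : ℕ} {d : Fin n →₀ ℕ}

lemma st_st {i : ℕ} (hi : i + 1 < n) (x : Wd d) : st i (st i x) = x :=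
  Subtype.ext (lt_inj fun k => by rw [lt_st hi, lt_st hi, Equiv.swap_apply_self])

lemma st_braid {i : ℕ} (hi : i + 1 < n) (hj : i + 1 + 1 < n) (x : Wd d) :
    st (i + 1) (st i (st (i + 1) x)) = st i (st (i + 1) (st i x)) :=
  Subtype.ext (lt_inj fun k => by
    rw [lt_st hj, lt_st hi, lt_st hj, lt_st hi, lt_st hj, lt_st hi]
    congr 1
    simp only [Equiv.swap_apply_def]
    split_ifs <;> omega)

lemma st_comm {i j : ℕ} (hij : i + 2 ≤ j) (hi : i + 1 < n) (hj : j + 1 < n) (x : Wd d) :
    st j (st i x) = st i (st j x) :=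
  Subtype.ext (lt_inj fun k => by
    rw [lt_st hj, lt_st hi, lt_st hi, lt_st hj]
    congr 1
    simp only [Equiv.swap_apply_def]
    split_ifs <;> omega)

lemma sw_ne {i k : ℕ} (h1 : k ≠ i) (h2 : k ≠ i + 1) : Equiv.swap i (i + 1) k = k :=
  Equiv.swap_apply_of_ne_of_ne h1 h2

end HK13
open HK13

theorem st_HK : St_HK := by
  intro K _ q b n d
  have he : ep q b * ep q b = (q - 1) * ep q b + q := by
    cases b <;> simp only [ep, if_true, Bool.false_eq_true, if_false] <;> ring
  refine ⟨fun i hi => mat_ext fun f x => ?_, fun i hi => mat_ext fun f x => ?_,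
    fun i j hij hj => mat_ext fun f x => ?_⟩
  · simp only [← Matrix.mulVec_mulVec, Matrix.add_mulVec, Matrix.smul_mulVec, Matrix.one_mulVec,
      Pi.add_apply, Pi.smul_apply, smul_eq_mul, Tm_mulVec, lt_st hi, st_st hi,
      Equiv.swap_apply_left, Equiv.swap_apply_right]
    exact key2 he _ _ _ _
  · have h1 : i + 1 < n := by omega
    have h2 : i + 1 + 1 < n := hi
    have e1 : Equiv.swap i (i + 1) (i + 1 + 1) = i + 1 + 1 := sw_ne (by omega) (by omega)
    have e2 : Equiv.swap (i + 1) (i + 1 + 1) i = i := sw_ne (by omega) (by omega)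
    simp only [← Matrix.mulVec_mulVec, Tm_mulVec, lt_st h1, lt_st h2, st_st h1, st_st h2,
      st_braid h1 h2, Equiv.swap_apply_left, Equiv.swap_apply_right, e1, e2]
    exact key3 he _ _ _ _ _ _ _ _ _
  · have h1 : i + 1 < n := by omega
    have e1 : Equiv.swap i (i + 1) j = j := sw_ne (by omega) (by omega)
    have e2 : Equiv.swap i (i + 1) (j + 1) = j + 1 := sw_ne (by omega) (by omega)
    have e3 : Equiv.swap j (j + 1) i = i := sw_ne (by omega) (by omega)
    have e4 : Equiv.swap j (j + 1) (i + 1) = i + 1 := sw_ne (by omega) (by omega)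
    simp only [← Matrix.mulVec_mulVec, Tm_mulVec, lt_st h1, lt_st hj, st_comm hij h1 hj,
      e1, e2, e3, e4]
    ring

end MJZ
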