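import Pool.Agent.Lib.MP_9c49f6_co.ZBlue

/-! Reduction of traces of Hecke words to increasing words. -/

namespace MJZ
namespace RED35

variable {K A : Type} [Field K] [Ring A] [Algebra K A]

/-- the subsemiring generated by the scalars in `P` and the generators on `m` strands -/
def cn (P : Subsemiring K) (T : ℕ → A) (m : ℕ) : Subsemiring A :=
  Subsemiring.closure {x | (∃ p ∈ P, x = algebraMap K A p) ∨ ∃ i, i + 1 < m ∧ x = T i}

/-- sums of elements `y` and `y * T (m - 1) * y'` with `y, y'` on `m` strands -/
def DD (P : Subsemiring K) (T : ℕ → A) (m : ℕ) : AddSubmonoid A :=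
  AddSubmonoid.closure {x | x ∈ cn P T m ∨
    ∃ k, m = k + 1 ∧ ∃ y ∈ cn P T m, ∃ y' ∈ cn P T m, x = y * T k * y'}

variable {P : Subsemiring K} {T : ℕ → A} {q : K} {n : ℕ}

lemma sc_mem (m : ℕ) {p : K} (hp : p ∈ P) : algebraMap K A p ∈ cn P T m :=
  Subsemiring.subset_closure (Or.inl ⟨p, hp, rfl⟩)

lemma T_mem {m i : ℕ} (h : i + 1 < m) : T i ∈ cn P T m :=
  Subsemiring.subset_closure (Or.inr ⟨i, h, rfl⟩)

lemma cn_mono {m m' : ℕ} (h : m ≤ m') {x : A} (hx : x ∈ cn P T m) : x ∈ cn P T m' := by
  refine Subsemiring.closure_mono ?_ hx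
  rintro y (hy | ⟨i, hi, rfl⟩)
  · exact Or.inl hy
  · exact Or.inr ⟨i, hi.trans_le h, rfl⟩

lemma ev_mem {m : ℕ} {L : List ℕ} (h : Ok m L) : ev T L ∈ cn P T m := by
  induction L with
  | nil => exact one_mem _
  | cons i L ih =>
    rw [ev_cons]
    exact mul_mem (T_mem (h i (by simp))) (ih fun j hj => h j (by simp [hj]))

lemma comm_T (h : Hk q n T) {m j : ℕ} (hm : m ≤ j) (hj : j + 1 < n) {x : A}
    (hx : x ∈ cn P T m) : Commute x (T j) := by
  induction hx using Subsemiring.closure_induction with
  | mem x hx =>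
    rcases hx with ⟨p, -, rfl⟩ | ⟨i, hi, rfl⟩
    · exact Algebra.commutes p _
    · exact h.comm i j (by omega) hj
  | zero => exact Commute.zero_left _
  | one => exact Commute.one_left _
  | add x y _ _ hx hy => exact hx.add_left hy
  | mul x y _ _ hx hy => exact hx.mul_left hy

lemma comm_ev (h : Hk q n T) {m : ℕ} {J : List ℕ} (hJ : Ok n J) (hm : ∀ j ∈ J, m ≤ j) {x : A}
    (hx : x ∈ cn P T m) : Commute x (ev T J) := by
  induction J with
  | nil => exact Commute.one_right _
  | cons j J ih =>
    rw [ev_cons]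
    exact (comm_T h (hm j (by simp)) (hJ j (by simp)) hx).mul_right
      (ih (fun i hi => hJ i (by simp [hi])) fun i hi => hm i (by simp [hi]))

lemma D_cn {m : ℕ} {y : A} (hy : y ∈ cn P T m) : y ∈ DD P T m :=
  AddSubmonoid.subset_closure (Or.inl hy)

lemma D_T {k : ℕ} {y y' : A} (hy : y ∈ cn P T (k + 1)) (hy' : y' ∈ cn P T (k + 1)) :
    y * T k * y' ∈ DD P T (k + 1) :=
  AddSubmonoid.subset_closure (Or.inr ⟨k, rfl, y, hy, y', hy', rfl⟩)

lemma D_left {m : ℕ} {g x : A} (hg : g ∈ cn P T m) (hx : x ∈ DD P T m) : g * x ∈ DD P T m := by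
  induction hx using AddSubmonoid.closure_induction with
  | mem x hx =>
    rcases hx with hx | ⟨k, rfl, y, hy, y', hy', rfl⟩
    · exact D_cn (mul_mem hg hx)
    · rw [← mul_assoc, ← mul_assoc]
      exact D_T (mul_mem hg hy) hy'
  | zero => rw [mul_zero]; exact zero_mem _
  | add x y _ _ hx hy => rw [mul_add]; exact add_mem hx hy

lemma D_mid (hq : q - 1 ∈ P) (h : Hk q n T) {m : ℕ} (hm : m + 2 ≤ n) {y y' : A}
    (hy : y ∈ DD P T m) (hy' : y' ∈ cn P T (m + 1)) :
    T m * (y * T m * y') ∈ DD P T (m + 1) := by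
  have hq' : q ∈ P := by simpa using add_mem hq (one_mem P)
  induction hy using AddSubmonoid.closure_induction with
  | mem y hy =>
    rcases hy with hy | ⟨k, rfl, u, hu, u', hu', rfl⟩
    · have hc := (comm_T h le_rfl (by omega) hy).eq
      have hy1 := cn_mono (Nat.le_succ m) hy
      have e : T m * (y * T m * y') = (algebraMap K A (q - 1) * y) * T m * y' +
          algebraMap K A q * y * y' := by
        calc T m * (y * T m * y') = (T m * y) * T m * y' := by simp only [mul_assoc]
          _ = y * (T m * T m) * y' := by rw [← hc]; simp only [mul_assoc]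
          _ = _ := by
            rw [h.quad m (by omega)]
            simp only [mul_add, add_mul, mul_smul_comm, smul_mul_assoc, mul_one,
              ← Algebra.smul_def]
      rw [e]
      exact add_mem (D_T (mul_mem (sc_mem _ hq) hy1) hy')
        (D_cn (mul_mem (mul_mem (sc_mem _ hq') hy1) hy'))
    · have hc := (comm_T h le_rfl (by omega) hu).eq
      have hc' := (comm_T h le_rfl (by omega) hu').eq
      have e : T (k + 1) * (u * T k * u' * T (k + 1) * y') =
          (u * T k) * T (k + 1) * (T k * u' * y') := by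
        calc T (k + 1) * (u * T k * u' * T (k + 1) * y')
            = (T (k + 1) * u) * T k * (u' * T (k + 1)) * y' := by simp only [mul_assoc]
          _ = u * (T (k + 1) * T k * T (k + 1)) * u' * y' := by
            rw [← hc, hc']; simp only [mul_assoc]
          _ = _ := by rw [← h.braid k (by omega)]; simp only [mul_assoc]
      rw [e]
      exact D_T (mul_mem (cn_mono (Nat.le_succ _) hu) (T_mem (by omega)))
        (mul_mem (mul_mem (T_mem (by omega)) (cn_mono (Nat.le_succ _) hu')) hy')
  | zero => rw [zero_mul, zero_mul, mul_zero]; exact zero_mem _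
  | add x y _ _ hx hy => rw [add_mul, add_mul, mul_add]; exact add_mem hx hy

lemma dec (hq : q - 1 ∈ P) (h : Hk q n T) (m : ℕ) :
    m + 1 ≤ n → ∀ x ∈ cn P T (m + 1), x ∈ DD P T m := by
  induction m with
  | zero =>
    intro _ x hx
    refine D_cn (Subsemiring.closure_mono ?_ hx)
    rintro y (hy | ⟨i, hi, rfl⟩)
    · exact Or.inl hy
    · omega
  | succ m ih =>
    intro hm x hx
    have key : ∀ z ∈ DD P T (m + 1), x * z ∈ DD P T (m + 1) := by
      induction hx using Subsemiring.closure_induction with
      | mem x hx =>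
        intro z hz
        rcases hx with ⟨p, hp, rfl⟩ | ⟨i, hi, rfl⟩
        · exact D_left (sc_mem _ hp) hz
        · rcases Nat.lt_or_ge i m with hi' | hi'
          · exact D_left (T_mem (by omega)) hz
          · obtain rfl : i = m := by omega
            induction hz using AddSubmonoid.closure_induction with
            | mem z hz =>
              rcases hz with hz | ⟨k, hk, y, hy, y', hy', rfl⟩
              · simpa using D_T (one_mem _) hz
              · obtain rfl : i = k := by omega
                exact D_mid hq h hm (ih (by omega) y hy) hy'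
            | zero => rw [mul_zero]; exact zero_mem _
            | add x y _ _ hx hy => rw [mul_add]; exact add_mem hx hy
      | zero => intro z _; rw [zero_mul]; exact zero_mem _
      | one => intro z hz; rwa [one_mul]
      | add x y _ _ hx hy => intro z hz; rw [add_mul]; exact add_mem (hx z hz) (hy z hz)
      | mul x y _ _ hx hy => intro z hz; rw [mul_assoc]; exact hx _ (hy z hz)
    simpa using key 1 (D_cn (one_mem _))

lemma cn_zero {x : A} (hx : x ∈ cn P T 0) : ∃ p ∈ P, x = algebraMap K A p := by
  induction hx using Subsemiring.closure_induction with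
  | mem x hx =>
    rcases hx with hx | ⟨i, hi, -⟩
    · exact hx
    · omega
  | zero => exact ⟨0, zero_mem _, by simp⟩
  | one => exact ⟨1, one_mem _, by simp⟩
  | add x y _ _ hx hy =>
    obtain ⟨p, hp, rfl⟩ := hx
    obtain ⟨p', hp', rfl⟩ := hy
    exact ⟨p + p', add_mem hp hp', by simp⟩
  | mul x y _ _ hx hy =>
    obtain ⟨p, hp, rfl⟩ := hx
    obtain ⟨p', hp', rfl⟩ := hy
    exact ⟨p * p', mul_mem hp hp', by simp⟩

lemma main {M : Type} [AddCommGroup M] [Module K M] (hq : q - 1 ∈ P) (h : Hk q n T)
    (τ : A →ₗ[K] M) (hτ : ∀ a b, τ (a * b) = τ (b * a)) (S : AddSubmonoid M)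
    (hS : ∀ p ∈ P, ∀ v ∈ S, p • v ∈ S) (m : ℕ) : m ≤ n → ∀ x ∈ cn P T m, ∀ J : List ℕ,
    Ok n J → J.Pairwise (· < ·) → (∀ i ∈ J, m ≤ i + 1) →
    (∀ I, Ok n (I ++ J) → (I ++ J).Pairwise (· < ·) → τ (ev T (I ++ J)) ∈ S) →
    τ (x * ev T J) ∈ S := by
  induction m with
  | zero =>
    intro _ x hx J hJ hp _ hI
    obtain ⟨p, hp', rfl⟩ := cn_zero hx
    rw [← Algebra.smul_def, map_smul]
    exact hS p hp' _ (hI [] hJ hp)
  | succ m ih =>
    intro hm x hx J hJ hp hl hI
    have hx' := dec hq h m hm x hx
    clear hx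
    induction hx' using AddSubmonoid.closure_induction with
    | mem x hx =>
      rcases hx with hx | ⟨k, rfl, y, hy, y', hy', rfl⟩
      · exact ih (by omega) x hx J hJ hp (fun i hi => by have := hl i hi; omega) hI
      · have hc := (comm_ev h hJ (fun j hj => by have := hl j hj; omega) hy').eq
        have e : τ (y * T k * y' * ev T J) = τ (y' * y * ev T (k :: J)) := by
          rw [mul_assoc, hc, ← mul_assoc, hτ, ev_cons]
          simp only [mul_assoc]
        rw [e]
        refine ih (by omega) _ (mul_mem hy' hy) (k :: J) ?_ ?_ ?_ fun I h1 h2 => ?_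
        · intro i hi
          rcases List.mem_cons.1 hi with rfl | hi
          · omega
          · exact hJ i hi
        · exact List.pairwise_cons.2 ⟨fun j hj => by have := hl j hj; omega, hp⟩
        · intro i hi
          rcases List.mem_cons.1 hi with rfl | hi
          · exact le_rfl
          · have := hl i hi; omega
        · rw [List.append_cons] at h1 h2 ⊢
          exact hI _ h1 h2
    | zero => rw [zero_mul, map_zero]; exact zero_mem _
    | add x y _ _ hx hy => rw [add_mul, map_add]; exact add_mem hx hy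

end RED35

theorem st_RED : St_RED := by
  intro K A M _ _ _ _ _ q P hq n T h τ hτ S hS m L J hm hL hJ hp hl hI
  exact RED35.main hq h τ hτ S hS m hm _ (RED35.ev_mem hL) J hJ hp hl hI

end MJZ
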