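import Pool.Agent.Lib.MP_9c49f6_co.ZBlue
import Pool.Agent.Lib.MP_9c49f6_co.P_GS

/-! Row `SPEC`: Gram-Schmidt at a place where the form becomes the Hall form. -/

namespace MJZ
open MJ MJT Finset MJP MJP.GS12

theorem st_SP : St_SPEC := by
  classical
  intro F K _ _ _ _ R0 h0 n z P hP hz0
  let Rd : F → ℚ → Prop := fun x a => R0 x a
  have h : Pl Rd :=
    ⟨by simpa [Rd] using h0.one, fun h1 => by simpa [Rd] using h0.neg h1,
      fun h1 h2 => by simpa [Rd] using h0.add h1 h2, fun h1 h2 => by simpa [Rd] using h0.mul h1 h2,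
      fun h1 h2 => by simpa [Rd] using h0.inv h1 (by simpa using h2),
      fun h1 => by simpa using h0.zero h1⟩
  have hz : ∀ μ, Rd (z μ) (zz μ) := fun μ => by simpa [Rd] using hz0 μ
  obtain ⟨m, hm⟩ := exists_inv n
  have hmF : ∀ π' π, ∑ k, (rc π' k : F) * (m k π : F) = if π' = π then 1 else 0 := fun π' π => by
    have := congrArg (Rat.cast (K := F)) (hm π' π)
    push_cast at this
    rw [this]
    split_ifs <;> simp
  have pos : ∀ v : n.Partition → ℚ, ∑ μ, v μ * v μ * zz μ = 0 → v = 0 := fun v hv => by
    funext μ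
    have := (sum_eq_zero_iff_of_nonneg fun μ _ =>
      mul_nonneg (mul_self_nonneg (v μ)) (Nat.cast_nonneg _)).1 hv μ (mem_univ μ)
    exact mul_self_eq_zero.1 ((mul_eq_zero.1 this).resolve_right (LIM15.zz_ne μ))
  have key : ∀ l, ∃ y : n.Partition → ℚ, ∀ μ, Rd (P l μ) (y μ) := fun l => by
    have hw : ∀ k, lst k < lst l → ∑ μ, P l μ * z μ * (m k μ : F) = 0 := by
      refine REG4.tri_inj (fun i j => ∑ μ, P j μ * rc μ i) (fun i j hij => hP.tri j i hij)
        (fun i => by rw [hP.lead]; exact one_ne_zero) (fun k => lst k < lst l)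
        (fun i j hij hj => lt_trans hij hj) _ fun k hk => ?_
      rw [← expand hmF, ← hP.orth l k fun e => lt_irrefl _ (e ▸ hk)]
      exact sum_congr rfl fun μ _ => by ring
    obtain ⟨y, hy, -⟩ := st_NAK F ℚ Rd h n.Partition
      (fun μ k => if lst k < lst l then z μ * (m k μ : F) else rc μ k)
      (fun μ k => if lst k < lst l then zz μ * m k μ else rc μ k)
      (fun μ k => by
        split_ifs
        · exact h.mul (hz μ) (rd_rat h _)
        · exact h.nat _)
      (fun v hv => pos v (by
        simp only [mul_assoc]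
        rw [expand hm]
        refine sum_eq_zero fun k _ => ?_
        have := hv k
        split_ifs at this
        · simp only [mul_assoc, this, zero_mul]
        · rw [this, mul_zero]))
      (P l) (fun k => if l = k then 1 else 0) (fun k => by
        have e : ∑ μ, P l μ * (if lst k < lst l then z μ * (m k μ : F) else rc μ k) =
            if l = k then 1 else 0 := by
          split_ifs with h1 h2 h2
          · exact absurd (h2 ▸ h1) (lt_irrefl _)
          · simpa only [mul_assoc] using hw k h1
          · rw [← h2, hP.lead]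
          · by_contra hne
            exact h2 (lst_inj (le_antisymm (not_lt.1 h1) (hP.tri l k hne)))
        rw [e]
        exact h.ite _)
    exact ⟨y, hy⟩
  choose S hS using key
  have r : ∀ l k, Rd (∑ μ, P l μ * rc μ k) (∑ μ, S l μ * rc μ k) := fun l k =>
    h.sum _ fun μ _ => h.mul (hS l μ) (h.nat _)
  exact ⟨S, ⟨fun l => h.uniq (r l l) (hP.lead l ▸ h.one), fun l k e => hP.tri l k (h.ne (r l k) e),
    fun l k e => h.zero (hP.orth l k e ▸ h.sum _ fun μ _ =>
      h.mul (h.mul (hS l μ) (hS k μ)) (hz μ))⟩, hS⟩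

end MJZ
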