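import Pool.Agent.Lib.MP_9c49f6_co.ZBlue

namespace MJZ
open Finset Matrix Kronecker

namespace VAN30

variable {K : Type} [Field K] {n : ℕ}

section abs
variable {q : K} {d d' : Fin n →₀ ℕ} {f : Wd d → Wd d' → K}

/-- the intertwining relation on a column -/
def Rel (q : K) (f : Wd d → Wd d' → K) : Prop :=
  ∀ i, i + 1 < n → ∀ x y,
    dd q q (lt x.1 i) (lt x.1 (i + 1)) * f x y + oo q (lt x.1 i) (lt x.1 (i + 1)) * f (st i x) y =
    dd q (-1) (lt y.1 i) (lt y.1 (i + 1)) * f x y + oo q (lt y.1 i) (lt y.1 (i + 1)) * f x (st i y)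

lemma eq_both (hq1 : q + 1 ≠ 0) (H : Rel q f) {i : ℕ} (hi : i + 1 < n) (x : Wd d) (y : Wd d')
    (hx : lt x.1 i = lt x.1 (i + 1)) (hy : lt y.1 i = lt y.1 (i + 1)) : f x y = 0 := by
  have h := H i hi x y
  simp only [dd, oo, hx, hy, if_true, zero_mul, add_zero] at h
  have h2 : (q + 1) * f x y = 0 := by linear_combination h
  exact (mul_eq_zero.1 h2).resolve_left hq1

lemma eq_step (hq : q ≠ 0) (H : Rel q f) {i : ℕ} (hi : i + 1 < n) (x : Wd d) (y : Wd d')
    (hx : lt x.1 i = lt x.1 (i + 1)) (hy : lt y.1 i ≠ lt y.1 (i + 1))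
    (h0 : f x (st i y) = 0) : f x y = 0 := by
  have h := H i hi x y
  simp only [dd, oo, hx, if_true, if_neg hy, h0, zero_mul, mul_zero, add_zero] at h
  split_ifs at h with h1
  · rw [zero_mul] at h
    exact (mul_eq_zero.1 h).resolve_left hq
  · linear_combination h

lemma lt_mono {w : Fin n → Fin n} (hw : Monotone w) {a b : ℕ} (hab : a ≤ b) (hb : b < n) :
    lt w a ≤ lt w b := by
  simp only [lt, dif_pos hb, dif_pos (lt_of_le_of_lt hab hb)]
  exact hw (show (⟨a, lt_of_le_of_lt hab hb⟩ : Fin n) ≤ ⟨b, hb⟩ from hab)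

lemma gap (hq : q ≠ 0) (hq1 : q + 1 ≠ 0) (H : Rel q f) (x : Wd d) (hx : Monotone x.1) (j : ℕ) :
    ∀ (g : ℕ) (y : Wd d'), j + g + 1 < n → lt x.1 j = lt x.1 (j + g + 1) →
      lt y.1 j = lt y.1 (j + g + 1) → f x y = 0 := by
  intro g
  induction g with
  | zero => intro y h1 h2 h3; exact eq_both hq1 H h1 x y h2 h3
  | succ g ih =>
    intro y h1 h2 h3
    have e : j + (g + 1) + 1 = (j + g + 1) + 1 := by omega
    rw [e] at h1 h2 h3
    have m1 := lt_mono hx (show j ≤ j + g + 1 by omega) (by omega)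
    have m2 := lt_mono hx (show j + g + 1 ≤ j + g + 1 + 1 by omega) h1
    have hx1 : lt x.1 (j + g + 1) = lt x.1 (j + g + 1 + 1) := by omega
    by_cases hy : lt y.1 (j + g + 1) = lt y.1 (j + g + 1 + 1)
    · exact eq_both hq1 H h1 x y hx1 hy
    · refine eq_step hq H h1 x y hx1 hy (ih _ (by omega) (by omega) ?_)
      rw [lt_st h1, lt_st h1, Equiv.swap_apply_left,
        Equiv.swap_apply_of_ne_of_ne (by omega) (by omega), h3]

lemma mono_zero (hq : q ≠ 0) (hq1 : q + 1 ≠ 0) (H : Rel q f) (x : Wd d) (hx : Monotone x.1)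
    (y : Wd d') (hxy : ¬ Function.Injective fun j => (x.1 j, y.1 j)) : f x y = 0 := by
  have key : ∀ a b : Fin n, a < b → (x.1 a, y.1 a) = (x.1 b, y.1 b) → f x y = 0 := by
    intro a b hab h
    obtain ⟨h1, h2⟩ := Prod.mk.inj h
    have hab' : (a : ℕ) < b := hab
    obtain ⟨g, hg⟩ : ∃ g, (b : ℕ) = a + g + 1 := ⟨b - a - 1, by omega⟩
    refine gap hq hq1 H x hx a g y (hg ▸ b.2) ?_ ?_
    · rw [← hg]; simp only [lt, dif_pos a.2, dif_pos b.2, Fin.eta, h1]
    · rw [← hg]; simp only [lt, dif_pos a.2, dif_pos b.2, Fin.eta, h2]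
  by_contra hne
  refine hxy fun a b h => ?_
  rcases lt_trichotomy a b with h1 | h1 | h1
  · exact absurd (key a b h1 h) hne
  · exact h1
  · exact absurd (key b a h1 h.symm) hne

lemma st_zero (hq : q ≠ 0) (H : Rel q f) {i : ℕ} (hi : i + 1 < n) (x : Wd d)
    (h0 : ∀ y, f x y = 0) (y : Wd d') : f (st i x) y = 0 := by
  by_cases hx : lt x.1 i = lt x.1 (i + 1)
  · have : st i x = x := Subtype.ext (lt_inj fun k => by
      rw [lt_st hi, Equiv.swap_apply_def]
      split_ifs with h1 h2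
      · rw [h1, hx]
      · rw [h2, hx]
      · rfl)
    rw [this]; exact h0 y
  · have h := H i hi x y
    simp only [h0, mul_zero, zero_add, oo, if_neg hx] at h
    split_ifs at h with h1
    · simpa using h
    · exact (mul_eq_zero.1 h).resolve_left hq

lemma all_zero (hq : q ≠ 0) (hq1 : q + 1 ≠ 0) (H : Rel q f)
    (hn : ∀ (x : Wd d) (y : Wd d'), ¬ Function.Injective fun j => (x.1 j, y.1 j))
    (x : Wd d) (y : Wd d') : f x y = 0 := by
  cases n with
  | zero => exact absurd (fun a => a.elim0) (hn x y)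
  | succ m =>
    have P : ∀ σ : Equiv.Perm (Fin (m + 1)), ∀ x : Wd d, (∀ y, f x y = 0) →
        ∀ y, f ⟨x.1 ∘ σ, (cont_comp _ _).trans x.2⟩ y = 0 := by
      intro σ
      have hσ : σ ∈ Submonoid.closure
          (Set.range fun i : Fin m => Equiv.swap i.castSucc i.succ) := by
        rw [Equiv.Perm.mclosure_swap_castSucc_succ]; trivial
      induction hσ using Submonoid.closure_induction with
      | mem s hs =>
        obtain ⟨i, rfl⟩ := hs
        intro x h0 y
        have hi : (i : ℕ) + 1 < m + 1 := by omega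
        have h := st_zero hq H hi x h0 y
        have e : sp (m + 1) i = Equiv.swap i.castSucc i.succ := by
          simp only [sp, dif_pos hi]; rfl
        simp only [st, e] at h
        exact h
      | one => intro x h0 y; exact h0 y
      | mul s t _ _ hs ht => intro x h0 y; exact ht _ (hs x h0) y
    have h := P (Tuple.sort x.1)⁻¹ ⟨x.1 ∘ Tuple.sort x.1, (cont_comp _ _).trans x.2⟩
      (fun y => mono_zero hq hq1 H _ (Tuple.monotone_sort x.1) y (hn _ y)) y
    convert h using 2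
    exact Subtype.ext (funext fun a => by simp)

end abs

section kron
variable {ι κ : Type} [Fintype ι] [Fintype κ] [DecidableEq ι] [DecidableEq κ]

lemma hk_left {q : K} {T : ℕ → Matrix ι ι K} (h : Hk q n T) :
    Hk q n fun i => T i ⊗ₖ (1 : Matrix κ κ K) := by
  refine ⟨fun i hi => ?_, fun i hi => ?_, fun i j h1 h2 => ?_⟩
  · rw [← mul_kronecker_mul, h.quad i hi, mul_one, add_kronecker, smul_kronecker, smul_kronecker,
      one_kronecker_one]
  · simp only [← mul_kronecker_mul, h.braid i hi]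
  · simp only [← mul_kronecker_mul, h.comm i j h1 h2]

lemma hk_right {q : K} {T : ℕ → Matrix κ κ K} (h : Hk q n T) :
    Hk q n fun i => (1 : Matrix ι ι K) ⊗ₖ T i := by
  refine ⟨fun i hi => ?_, fun i hi => ?_, fun i j h1 h2 => ?_⟩
  · rw [← mul_kronecker_mul, h.quad i hi, mul_one, kronecker_add, kronecker_smul, kronecker_smul,
      one_kronecker_one]
  · simp only [← mul_kronecker_mul, h.braid i hi]
  · simp only [← mul_kronecker_mul, h.comm i j h1 h2]

lemma ev_left (T : ℕ → Matrix ι ι K) (L : List ℕ) :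
    ev (fun i => T i ⊗ₖ (1 : Matrix κ κ K)) L = ev T L ⊗ₖ (1 : Matrix κ κ K) := by
  induction L with
  | nil => simp only [ev_nil, one_kronecker_one]
  | cons i L ih => rw [ev_cons, ev_cons, ih, ← mul_kronecker_mul, mul_one]

lemma ev_right (T : ℕ → Matrix κ κ K) (L : List ℕ) :
    ev (fun i => (1 : Matrix ι ι K) ⊗ₖ T i) L = (1 : Matrix ι ι K) ⊗ₖ ev T L := by
  induction L with
  | nil => simp only [ev_nil, one_kronecker_one]
  | cons i L ih => rw [ev_cons, ev_cons, ih, ← mul_kronecker_mul, mul_one]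

omit [DecidableEq ι] in
lemma left_mul (A : Matrix ι ι K) (O : Matrix (ι × κ) (ι × κ) K) (x : ι) (y : κ) (c : ι × κ) :
    (A ⊗ₖ (1 : Matrix κ κ K) * O) (x, y) c = A.mulVec (fun x' => O (x', y) c) x := by
  simp [Matrix.mul_apply, Fintype.sum_prod_type, Matrix.one_apply, Matrix.mulVec, dotProduct]

omit [DecidableEq κ] in
lemma right_mul (A : Matrix κ κ K) (O : Matrix (ι × κ) (ι × κ) K) (x : ι) (y : κ) (c : ι × κ) :
    ((1 : Matrix ι ι K) ⊗ₖ A * O) (x, y) c = A.mulVec (fun y' => O (x, y') c) y := by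
  simp [Matrix.mul_apply, Fintype.sum_prod_type, Matrix.one_apply, Matrix.mulVec, dotProduct,
    ite_mul, Finset.sum_ite_irrel]

end kron

end VAN30

open VAN30 in
theorem st_VAN (hH : St_HK) (hC : St_CAS) : St_VAN := by
  intro K _ q hq hq1 n d d' hn
  have h1 := hk_left (κ := Wd d') (hH K q true n d)
  have h2 := hk_right (ι := Wd d) (hH K q false n d')
  have hc := hC K _ q n _ _ h1 h2 (fun i j => by
    simp only [Commute, SemiconjBy, ← mul_kronecker_mul, mul_one, one_mul])
  set O := sw q n (fun L => ev (fun i => Tm q (ep q true) d i ⊗ₖ (1 : Matrix (Wd d') (Wd d') K)) L *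
    ev (fun i => (1 : Matrix (Wd d) (Wd d) K) ⊗ₖ Tm q (ep q false) d' i) L) with hO
  have h0 : O = 0 := by
    ext ⟨x, y⟩ c
    refine all_zero (f := fun x y => O (x, y) c) hq hq1 (fun i hi x y => ?_) hn x y
    have h := congrFun (congrFun (hc i hi) (x, y)) c
    rw [left_mul, right_mul, Tm_mulVec, Tm_mulVec] at h
    exact h
  have h3 := sw_map (Matrix.traceLinearMap (Wd d × Wd d') K K) q n
    (fun L => ev (fun i => Tm q (ep q true) d i ⊗ₖ (1 : Matrix (Wd d') (Wd d') K)) L *
    ev (fun i => (1 : Matrix (Wd d) (Wd d) K) ⊗ₖ Tm q (ep q false) d' i) L)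
  rw [← hO, h0, map_zero] at h3
  rw [h3]
  congr 1
  funext L
  rw [ev_left, ev_right, ← mul_kronecker_mul, mul_one, one_mul, Matrix.traceLinearMap_apply,
    trace_kronecker]
  rfl

end MJZ
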