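import Pool.Agent.Lib.MP_9c49f6_co.Z_COL
import Pool.Agent.Lib.MP_9c49f6_co.Z_CAS
import Pool.Agent.Lib.MP_9c49f6_co.Z_DIAG
import Pool.Agent.Lib.MP_9c49f6_co.Z_EE
import Pool.Agent.Lib.MP_9c49f6_co.Z_GEN
import Pool.Agent.Lib.MP_9c49f6_co.Z_HK
import Pool.Agent.Lib.MP_9c49f6_co.Z_RED
import Pool.Agent.Lib.MP_9c49f6_co.Z_SP
import Pool.Agent.Lib.MP_9c49f6_co.Z_VAN

/-! All rows together. -/

namespace MJZ

theorem col_all : St_COL :=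
  st_COL (st_MM (st_CH st_RED st_HK st_DIAG st_GEN) (st_VAN st_HK st_CAS) st_EE) st_SP

end MJZ
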