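import Pool.Agent.Lib.MP_9c49f6_co.ZBlue

/-! Row `CH`: the symmetric function attached to a positive word. -/

namespace MJZ
open MJ MJT Finset MvPolynomial

namespace CH15
variable {K : Type} [Field K] {n : ℕ}

lemma rs_true : rs n true = res K n := by
  ext k : 1
  simp [rs, res]

lemma uniq [CharZero K] {f g : Lam K} (hf : f ∈ Hm K n) (hg : g ∈ Hm K n)
    (h : ∀ d, coeff d (rs n true f) = coeff d (rs n true g)) : f = g :=
  sub_eq_zero.1 (cf_part_inj (sub_mem hf hg) fun k => by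
    rw [← coeff_res_row k n (col_le k 0), ← rs_true, map_sub, coeff_sub, h, sub_self])

def SS (s : K) (n : ℕ) (c : Prop) : AddSubmonoid ((Fin n →₀ ℕ) × Bool → K) where
  carrier := {v | ∃ f ∈ Hm K n, (∀ d, coeff d f ∈ MJS.cone s) ∧
    (∀ i, v i = coeff i.1 (rs n i.2 f)) ∧ (c → phi (1 + s) 0 f = 0)}
  zero_mem' := ⟨0, zero_mem _, fun d => by simp, fun i => by simp, fun _ => map_zero _⟩
  add_mem' := by
    rintro v w ⟨f, h1, h2, h3, h4⟩ ⟨g, k1, k2, k3, k4⟩
    exact ⟨f + g, add_mem h1 k1, fun d => by rw [coeff_add]; exact add_mem (h2 d) (k2 d),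
      fun i => by simp [h3, k3], fun h => by simp [h4 h, k4 h]⟩

lemma SS_smul {s : K} {c : Prop} : ∀ p ∈ MJS.cone s, ∀ v ∈ SS s n c, p • v ∈ SS s n c := by
  rintro p hp v ⟨f, h1, h2, h3, h4⟩
  exact ⟨p • f, Submodule.smul_mem _ _ h1, fun d => by rw [coeff_smul]; exact mul_mem hp (h2 d),
    fun i => by simp [h3], fun h => by simp [h4 h]⟩

end CH15
open CH15

theorem st_CH (hR : St_RED) (hH : St_HK) (hD : St_DIAG) (hG : St_GEN) : St_CH := by
  classical
  intro K _ _ s h0 hq n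
  let A := ∀ i : (Fin n →₀ ℕ) × Bool, Matrix (Wd i.1) (Wd i.1) K
  let T : ℕ → A := fun j i => Tm (1 + s) (ep (1 + s) i.2) i.1 j
  have hT : Hk (1 + s) n T :=
    ⟨fun i hi => funext fun k => (hH K _ k.2 n k.1).quad i hi,
      fun i hi => funext fun k => (hH K _ k.2 n k.1).braid i hi,
      fun i j hi hj => funext fun k => (hH K _ k.2 n k.1).comm i j hi hj⟩
  let τ : A →ₗ[K] ((Fin n →₀ ℕ) × Bool → K) :=
    LinearMap.pi fun i => Matrix.traceLinearMap _ K K ∘ₗ LinearMap.proj i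
  have hc : ∀ a b, τ (a * b) = τ (b * a) := fun a b => funext fun i => Matrix.trace_mul_comm _ _
  have hτ : ∀ L i, τ (ev T L) i = tr (1 + s) i.2 i.1 L := fun L i => by
    have : ev T L i = ev (Tm (1 + s) (ep (1 + s) i.2) i.1) L := by
      induction L with
      | nil => rfl
      | cons j L ih => rw [ev_cons, ev_cons, ← ih]; rfl
    exact congrArg Matrix.trace this
  have key : ∀ (m : ℕ) (L J : List ℕ), m ≤ n → Ok m L → Ok n J → J.Pairwise (· < ·) →
      (∀ i ∈ J, m ≤ i + 1) → τ (ev T L * ev T J) ∈ SS s n (J ≠ []) := by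
    intro m L J h1 h2 h3 h4 h5
    refine hR K A _ (1 + s) (MJS.cone s) (by simpa using MJS.s_cone s) n T hT τ hc _ SS_smul
      m L J h1 h2 h3 h4 h5 fun I k1 k2 => ?_
    obtain ⟨f, f1, f2, f3, f4, -⟩ := hG K s h0 hq n _ k1 k2
    exact ⟨f, f1, f2, fun i => by rw [hτ, hD K _ _ _ _ _ k1 k2, f3], fun h => f4 (by simp [h])⟩
  have ex : ∀ L, ∃ f : Lam K, Ok n L → f ∈ Hm K n ∧ (∀ d, coeff d f ∈ MJS.cone s) ∧
      ∀ b d, tr (1 + s) b d L = coeff d (rs n b f) := fun L => by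
    by_cases h : Ok n L
    · obtain ⟨f, f1, f2, f3, -⟩ := key n L [] le_rfl h (by simp [Ok]) (by simp) (by simp)
      rw [ev_nil, mul_one] at f3
      exact ⟨f, fun _ => ⟨f1, f2, fun b d => by rw [← hτ L (d, b), f3]⟩⟩
    · exact ⟨0, fun h' => absurd h' h⟩
  choose ch hch using ex
  refine ⟨ch, hch, ?_, fun m j L hm hj hL => ?_⟩
  · have k1 : Ok n [] := by simp [Ok]
    obtain ⟨f, f1, -, f3, -, f5⟩ := hG K s h0 hq n [] k1 (by simp)
    rw [← f5 rfl]
    exact uniq (hch _ k1).1 f1 fun d => by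
      rw [← (hch _ k1).2.2, hD K _ _ _ _ _ k1 (by simp), f3]
  · obtain ⟨m, rfl⟩ : ∃ k, m = k + 1 := ⟨m - 1, by omega⟩
    have k1 := (hL.step hj.le).mono (show m + 1 + 1 ≤ n by omega)
    have k2 : Ok (m + 1) (L ++ List.range' j (m - j)) := fun i hi => by
      rcases List.mem_append.1 hi with h | h
      · exact hL i h
      · rw [List.mem_range'_1] at h; omega
    obtain ⟨f, f1, -, f3, f4⟩ := key (m + 1) _ [m] hm.le k2 (by simpa [Ok] using hm) (by simp)
      (by simp)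
    have e : List.range' j (m + 1 - j) = List.range' j (m - j) ++ [m] := by
      rw [show m + 1 - j = m - j + 1 by omega, List.range'_concat]
      congr 2; omega
    rw [ev_append, mul_assoc, hc, ← ev_append, ← ev_append, ← e] at f3
    rw [uniq (hch _ k1).1 f1 fun d => by rw [← (hch _ k1).2.2, ← hτ _ (d, true), f3]]
    exact f4 (by simp)

end MJZ
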