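import Pool.Agent.Lib.MP_9c49f6_co.Z_MM
import Pool.Agent.Lib.MP_9c49f6_co.JB_CLS
import Pool.Agent.Lib.MP_9c49f6_co.JB_CLT
import Pool.Agent.Lib.MP_9c49f6_co.JB_FIX
import Pool.Agent.Lib.MP_9c49f6_co.JB_YNG
import Pool.Agent.Lib.MP_9c49f6_co.P_UFD
import Pool.Agent.Lib.MP_9c49f6_co.S_FIN
import Pool.Agent.Lib.MP_9c49f6_co.T_LIM
import Pool.Agent.Lib.MP_9c49f6_co.Two

/-! Row `COL`: the value at `b = 0`. -/

namespace MJZ
open MJ MJT Finset MvPolynomial MJB MJB.SKEW Matrix

namespace COL15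
variable {K : Type} [Field K] {n : ℕ}

def nr (S : Mat n K) (l : n.Partition) : K := ∑ μ, S l μ * S l μ * zz μ

def Pv (S : Mat n K) : Mat n K :=
  diagonal (fun μ => (zz μ : K)) * Sᵀ * diagonal fun l => (nr S l)⁻¹

lemma Pv_apply (S A : Mat n K) (π ν : n.Partition) :
    (Pv S * A) π ν = zz π * ∑ l, (nr S l)⁻¹ * S l π * A l ν := by
  simp only [Pv, Matrix.mul_apply (M := _ * _ * _), mul_diagonal, diagonal_mul, transpose_apply,
    mul_sum]
  exact sum_congr rfl fun l _ => by ring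

variable {S : Mat n K} (hS : Orth (fun μ => (zz μ : K)) S) (hj : ∀ l, nr S l ≠ 0)
include hS hj

lemma mul_Pv : S * Pv S = 1 := by
  ext l k
  rw [Pv, ← Matrix.mul_assoc, mul_diagonal, ← Matrix.mul_assoc, Matrix.mul_apply]
  simp only [mul_diagonal, transpose_apply, mul_right_comm _ (zz _ : K)]
  by_cases h : l = k
  · subst h; rw [one_apply_eq]; exact mul_inv_cancel₀ (hj l)
  · rw [one_apply_ne h, hS.orth l k h, zero_mul]

lemma eig [CharZero K] {A : Mat n K} (h1 : Tri A) (h2 : SA (fun μ => (zz μ : K)) A) :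
    ∃ a, S * A = diagonal a * S := by
  have hP := mul_eq_one_comm.1 (mul_Pv hS hj)
  refine (fun h3 => ⟨_, by rw [← h3, Matrix.mul_assoc, hP, Matrix.mul_one]⟩)
    (JK.diag_of (j := nr S) (fun l k h => ?_) hP ?_ hj h1 h2)
  · by_contra h0
    refine absurd (hS.tri l k ?_) (not_le.2 h)
    rw [← LIM15.coeff_sym', coeff_sym_eq]
    exact h0
  · rw [Pv, Matrix.mul_assoc, diagonal_mul_diagonal]
    simp [hj]

/-- functions whose matrix has entries in `R` -/
def PP (R : Subsemiring K) : Subsemiring (n.Partition → K) where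
  carrier := {a | ∀ π ν, (Pv S * (diagonal a * S)) π ν ∈ R}
  zero_mem' := fun π ν => by simp [show diagonal (0 : n.Partition → K) = 0 from diagonal_zero]
  one_mem' := fun π ν => by
    rw [show diagonal (1 : n.Partition → K) = 1 from diagonal_one, Matrix.one_mul,
      mul_eq_one_comm.1 (mul_Pv hS hj), one_apply]
    split_ifs <;> simp
  add_mem' := fun {a b} ha hb π ν => by
    rw [show diagonal (a + b) = _ from (diagonal_add a b).symm, Matrix.add_mul, Matrix.mul_add]
    exact add_mem (ha π ν) (hb π ν)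
  mul_mem' := fun {a b} ha hb π ν => by
    have : Pv S * (diagonal (a * b) * S) = Pv S * (diagonal a * S) * (Pv S * (diagonal b * S)) := by
      rw [Matrix.mul_assoc, Matrix.mul_assoc, ← Matrix.mul_assoc S, mul_Pv hS hj, Matrix.one_mul,
        ← Matrix.mul_assoc (diagonal a), diagonal_mul_diagonal]
      rfl
    rw [this, Matrix.mul_apply]
    exact sum_mem fun ρ _ => mul_mem (ha _ _) (hb _ _)

lemma mem_PP {R : Subsemiring K} {A : Mat n K} {a : n.Partition → K}
    (h : S * A = diagonal a * S) (hA : ∀ π ν, A π ν ∈ R) : a ∈ PP hS hj R := fun π ν => by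
  rw [← h, ← Matrix.mul_assoc, mul_eq_one_comm.1 (mul_Pv hS hj), Matrix.one_mul]
  exact hA π ν

lemma const_PP {R : Subsemiring K} {c : K} (h : c ∈ R) : (fun _ => c) ∈ PP hS hj R :=
  mem_PP hS hj (A := diagonal fun _ => c) (by ext; simp [mul_comm]) fun π ν => by
    rw [diagonal_apply]
    split_ifs <;> simp [h]

omit hS hj

lemma nab_pos [CharZero K] {q t : K} (hi : Indep q t) (D : PosData q t 0) (n : ℕ) :
    D.PO (n.choose 2 : ℕ) ((macSys hi).Del (One22.TT q t) (X 0 ^ n)) := by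
  induction n with
  | zero =>
    have := (macSys hi).Hm_ind (P := fun f => (macSys hi).Del (One22.TT q t) f = f) (map_zero _)
      (fun f g h1 h2 => by rw [map_add, h1, h2]) (fun a i h => by
        have h1 : cells i.2 = ∅ := card_eq_zero.1 (by exact_mod_cast h)
        rw [map_smul, Sys.Del_b, One22.TT, h1, prod_empty, one_smul]) one_mem_Hm
    rw [pow_zero, this]
    simp [PosData.PO]
  | succ n ih =>
    have h1 : (X 0 ^ n : Lam K) ∈ Hm K n := by
      simpa [X_pow_eq_monomial, wt] using monomial_mem_Hm (Finsupp.single 0 n) (1 : K)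
    have h2 := D.DD_div 1 ((macSys hi).Del_Hm _ h1) ih
    have h3 : t ^ (0 + 1) - 1 = D.g := by have := D.ht; linear_combination this
    rw [if_neg one_ne_zero, sub_zero, ← One22.nabla_pk, pk, h3, mul_assoc, ← smul_eq_C_mul,
      map_smul, smul_smul, inv_mul_cancel₀ D.g0, one_smul, ← pow_succ'] at h2
    convert h2 using 1
    rw [Nat.choose_succ_succ', Nat.choose_one_right]; push_cast; ring

lemma val (hM : St_MM) (hP : St_SPEC) {F : Type} [Field F] [CharZero F] [CharZero K]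
    {Rd : F → K → Prop} (h : Pl Rd) {b g : F} {s : K} (hb : Rd b 0) (hg : Rd g s)
    (h0 : 1 + s ≠ 0) (hq : ∀ k, (1 + s) ^ (k + 1) ≠ 1) {q t : F} (eq : q = 1 + g * (1 + b))
    (et : t = 1 + g) (hi : Indep q t) (π μ ν : n.Partition) :
    ∃ a ∈ MJS.cone s, Rd (MJP.WW q t (mac hi) π μ ν) a := by
  have rt : Rd t (1 + s) := et ▸ h.add h.one hg
  have rq : Rd q (1 + s) := by simpa [eq] using h.add h.one (h.mul hg (h.add h.one hb))
  have hs : s ≠ 0 := fun e => hq 0 (by simp [e])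
  have hn : (n.factorial : K) ≠ 0 := Nat.cast_ne_zero.2 n.factorial_ne_zero
  let D : PosData q t 0 :=
    { P := { carrier := {y | ∃ a ∈ MJS.cone s, Rd y a}
             zero_mem' := ⟨0, zero_mem _, h.zero'⟩
             one_mem' := ⟨1, one_mem _, h.one⟩
             add_mem' := fun ⟨a, h1, h2⟩ ⟨c, h3, h4⟩ => ⟨_, add_mem h1 h3, h.add h2 h4⟩
             mul_mem' := fun ⟨a, h1, h2⟩ ⟨c, h3, h4⟩ => ⟨_, mul_mem h1 h3, h.mul h2 h4⟩ }
      b := b, g := g, hb := ⟨0, zero_mem _, hb⟩, hg := ⟨s, MJS.s_cone s, hg⟩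
      hw := zero_mem _, g0 := h.ne hg hs, ht := et, hq := eq, t0 := hi.t_ne
      inv := fun m => ⟨_, MJS.inv_nat_cone s m, by
        rcases eq_or_ne m 0 with rfl | e
        · simpa using h.zero'
        · exact h.inv (h.nat m) (Nat.cast_ne_zero.2 e)⟩ }
  have ru : ∀ {x : F} {a : K}, Rd x a → ∀ κ : n.Partition,
      Rd (κ.parts.map fun i => (1 - x ^ i) / (1 - t ^ i)).prod
        (κ.parts.map fun i => (1 - a ^ i) / (1 - (1 + s) ^ i)).prod := fun r κ =>
    h.mprod _ fun i hk => h.div (h.sub h.one (h.pow r i)) (h.sub h.one (h.pow rt i))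
      (LIM15.pow_ne hq (κ.parts_pos hk))
  have rz : ∀ κ : n.Partition, Rd (zqt q t κ) (zz κ) := fun κ => by
    have := h.mul (h.nat (zz κ)) (ru rq κ)
    rwa [Multiset.prod_eq_one (s := κ.parts.map fun i => (1 - (1 + s) ^ i) / _) fun y hy => ?_,
      mul_one] at this
    obtain ⟨i, hk, rfl⟩ := Multiset.mem_map.1 hy
    exact div_self (LIM15.pow_ne hq (κ.parts_pos hk))
  obtain ⟨S0, o0, rS⟩ := hP F K Rd h n _ _ (LIM15.orth_of (isMac_mac hi)) rz
  have j0 : ∀ l, nr (of S0) l ≠ 0 := fun l e => by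
    have h1 := (sum_eq_zero_iff_of_nonneg fun κ _ =>
      mul_nonneg (mul_self_nonneg _) (Nat.cast_nonneg _)).1 e
    have h2 := o0.lead l
    rw [sum_eq_zero fun κ hk => by rw [show S0 l κ = 0 from mul_self_eq_zero.1
      ((mul_eq_zero.1 (h1 κ hk)).resolve_right (MM15.zz_ne κ)), zero_mul]] at h2
    exact zero_ne_one h2
  let S : Mat n K := of fun l κ => S0 l κ
  have oS : Orth (fun κ => (zz κ : K)) S :=
    ⟨fun l => by simp only [S, of_apply]; exact_mod_cast o0.lead l,
      fun l k e => o0.tri l k (by simp only [S, of_apply] at e; exact_mod_cast e),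
      fun l k e => by simp only [S, of_apply]; exact_mod_cast o0.orth l k e⟩
  have hj : ∀ l, nr S l ≠ 0 := fun l => by
    have := j0 l
    simp only [S, nr, of_apply] at this ⊢
    exact_mod_cast this
  have hω : ∀ κ, ∃ ω ∈ PP oS hj (MJS.cone s), ∀ l, S l κ = ω l * S l (ones n) := fun κ => by
    obtain ⟨c1, c2, -⟩ := st_CLS_of n κ
    obtain ⟨a, ha⟩ := eig (S := of S0) o0 j0 (st_CLT_of st_CLS_of st_FIX_of st_YNG_of n κ)
      (by simpa [SA, zal] using c1)
    have h1 : S * (of fun ρ σ => (Cl κ ρ σ : K)) = diagonal (fun l => (a l : K)) * S := by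
      ext l σ
      have := congrFun (congrFun ha l) σ
      rw [diagonal_mul, Matrix.mul_apply] at this ⊢
      simp only [S, of_apply] at this ⊢
      exact_mod_cast this
    refine ⟨_, mem_PP oS hj h1 fun ρ σ => ?_, fun l => ?_⟩
    · rw [of_apply, Cl, div_eq_mul_inv]
      push_cast
      exact mul_mem (mul_mem (natCast_mem _ _) (natCast_mem _ _)) (MJS.inv_nat_cone s _)
    · simpa [Matrix.mul_apply (M := S), c2, apply_ite] using congrFun (congrFun h1 l) (ones n)
  choose ω w1 w2 using hω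
  replace rS : ∀ l κ, Rd (mac hi l κ) (S l κ) := rS
  clear_value S
  have s1 : ∀ l, S l (ones n) ≠ 0 := fun l e =>
    hj l (sum_eq_zero fun κ _ => by rw [w2, e]; simp)
  obtain ⟨M, M1, M2, M3, M4⟩ := hM K s h0 hq n
  obtain ⟨m, hm⟩ := eig oS hj M1 M2
  have m1 : ∀ l, m l * phi (1 + s) 0 (Th (S l)) * (-s) ^ n =
      S l (ones n) * ((1 + s) ^ n.choose 2 * n.factorial) := fun l => by
    have h1 : m l • S l = ∑ ρ, S l ρ • M ρ := funext fun σ => by
      simpa [Matrix.mul_apply (M := S)] using (congrFun (congrFun hm l) σ).symm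
    have h2 := congrArg (fun v => phi (1 + s) 0 (Th v) * (-s) ^ n) h1
    simpa [sum_mul, mul_assoc, M4] using h2
  have rc : ∀ l : n.Partition, Rd (cArm q t l) (cArm (1 + s) (1 + s) l) := fun l =>
    h.prod _ fun _ _ => h.prod _ fun _ _ => h.sub h.one (h.mul (h.pow rq _) (h.pow rt _))
  have c1 : ∀ l, cArm (1 + s) (1 + s) l * phi (1 + s) 0 (Th (S l)) = (1 + s) ^ nRow l := fun l => by
    refine h.uniq (h.mul (rc l) ?_) (phi_mac hi n l ▸ h.pow rt _)
    rw [phi_Th, phi_Th]
    exact h.sum _ fun κ _ => h.mul (rS l κ) (ru h.zero' κ)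
  have rn : ∀ l, Rd (scal q t (mac hi l) (mac hi l)) (nr S l) := fun l =>
    h.sum _ fun κ _ => h.mul (h.mul (rS l κ) (rS l κ)) (rz κ)
  let T : n.Partition → K := fun l => (1 + s) ^ nCol l * (1 + s)⁻¹ ^ nRow l
  let θ : n.Partition → K := fun κ => (1 + s) ^ n.choose 2 *
    (zz (ones n) * ∑ l, T l / nr S l * (S l (ones n) * S l κ))
  have hθ : ∀ κ, θ κ ∈ MJS.cone s := fun κ => by
    obtain ⟨a, h1, h2⟩ := D.coeff_mem (nab_pos hi D n) (dOf κ)
    obtain ⟨c, h3, h4⟩ := mul_mem h1 (One22.pw_mem D (D.br_mem D.t_mem) (dOf κ))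
    rw [← h2, coeff_smul, X_pow_eq_monomial, ← MM15.dOf_ones, Del_coeff, zpow_natCast] at h4
    refine (show c = θ κ from h.uniq h4 (h.mul (h.pow rt _) (h.mul (rz _) (h.sum _ fun l _ =>
      h.mul (h.div ?_ (rn l) (hj l)) (h.mul (rS _ _) (rS _ _)))))) ▸ h3
    rw [One22.TT, prod_mono]
    exact h.mul (h.pow rq _) (h.pow (h.inv rt h0) _)
  have e3 : ∀ l, ∑ κ, θ κ * zz κ * (n.factorial : K)⁻¹ * ω κ l = (1 + s) ^ n.choose 2 * T l := by
    intro l
    have h1 : ∀ k, ∑ κ, (1 + s) ^ n.choose 2 * (T k / nr S k * (S k (ones n) * S k κ)) * zz κ *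
        ω κ l = (1 + s) ^ n.choose 2 * (T k / nr S k) * S k (ones n) / S l (ones n) *
          ∑ κ, S k κ * S l κ * zz κ := fun k => by
      rw [mul_sum]
      exact sum_congr rfl fun κ _ => by rw [w2 κ l]; field_simp [s1 l]
    have h2 : ∀ κ, θ κ * zz κ * (n.factorial : K)⁻¹ * ω κ l = ∑ k, (1 + s) ^ n.choose 2 *
        (T k / nr S k * (S k (ones n) * S k κ)) * zz κ * ω κ l := fun κ => by
      simp only [θ, MM15.zz_ones, ← sum_mul, ← mul_sum]
      field_simp
    rw [sum_congr rfl fun κ _ => h2 κ, sum_comm, sum_congr rfl fun k _ => h1 k,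
      sum_eq_single l (fun k _ e => by rw [oS.orth k l e, mul_zero]) (by simp)]
    change _ * nr S l = _
    field_simp [s1 l, hj l]
  have ha := mul_mem (mul_mem (mul_mem (sum_mem fun κ (_ : κ ∈ univ) => mul_mem
    (const_PP oS hj (mul_mem (mul_mem (hθ κ) (natCast_mem _ (zz κ)))
      (MJS.inv_nat_cone s n.factorial))) (w1 κ)) (mem_PP oS hj hm M3)) (w1 μ))
    (const_PP oS hj (mul_mem (natCast_mem _ (zz μ * zz ν)) (MJS.inv_nat_cone s n.factorial))) π ν
  refine ⟨_, ha, ?_⟩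
  have hu : (1 - (1 + s)) ^ n ≠ 0 := pow_ne_zero _ (by simpa using hs)
  let k : n.Partition → K := fun l => cArm (1 + s) (1 + s) l / (1 - (1 + s)) ^ n
  have k0 : ∀ l, k l ≠ 0 := fun l =>
    div_ne_zero (left_ne_zero_of_mul ((c1 l).symm ▸ pow_ne_zero _ h0)) hu
  have rJ : ∀ l κ, Rd (Jc q t (mac hi) l κ) (k l * S l κ) := fun l κ =>
    h.mul (h.div (rc l) (h.pow (h.sub h.one rt) n) hu) (rS l κ)
  have rN : ∀ l, Rd (scal q t (Jc q t (mac hi) l) (Jc q t (mac hi) l)) (k l ^ 2 * nr S l) :=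
    fun l => by
      refine Eq.mp (congrArg _ ?_) (h.sum univ fun κ _ => h.mul (h.mul (rJ l κ) (rJ l κ)) (rz κ))
      rw [nr, mul_sum]
      exact sum_congr rfl fun _ _ => by ring
  refine Eq.mp (congrArg _ ?_) (h.mul (h.mul (h.mul (h.nat (zz μ)) (h.nat (zz ν))) (h.pow rt (n * (n - 1))))
    (h.mul (rz π) (h.sum univ fun l _ => h.mul (h.div (h.mul (h.pow rq (nCol l))
      (h.pow (h.inv rt h0) (2 * nRow l))) (rN l) (mul_ne_zero (pow_ne_zero _ (k0 l)) (hj l)))
      (h.mul (h.mul (rJ l π) (rJ l μ)) (rJ l ν)))))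
  rw [Pv_apply, mul_left_comm, mul_sum univ _ (_ * _ * _ ^ _)]
  refine congrArg _ (sum_congr rfl fun l _ => ?_)
  have e4 : m l * ω μ l =
      (1 + s) ^ n.choose 2 * n.factorial * (k l * (1 + s)⁻¹ ^ nRow l) * S l μ := by
    have h1 := m1 l
    have h2 := right_ne_zero_of_mul ((c1 l).symm ▸ pow_ne_zero _ h0)
    have h3 := left_ne_zero_of_mul ((c1 l).symm ▸ pow_ne_zero _ h0)
    rw [show -s = 1 - (1 + s) by ring] at h1
    rw [w2 μ l, inv_pow, ← c1 l]
    simp only [k]
    field_simp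
    linear_combination ω μ l * h1
  have e5 : n * (n - 1) = n.choose 2 + n.choose 2 := by
    rw [Nat.choose_two_right]; have := Nat.even_mul_pred_self n; grind
  simp only [diagonal_mul, Pi.mul_apply, Finset.sum_apply, e3, mul_assoc _ (m l), e4, e5, T,
    pow_add, two_mul]
  have := k0 l
  have := hj l
  push_cast
  field_simp

lemma coeff_col (N : MvPolynomial (Fin 2) ℤ) {m : Fin 2 →₀ ℕ} (hm : m 0 = 0) :
    (aeval ![0, (Polynomial.X : Polynomial ℚ)] N).coeff (m 1) = N.coeff m := by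
  induction N using MvPolynomial.induction_on' with
  | add p r hp hr => rw [map_add, Polynomial.coeff_add, hp, hr, coeff_add, Int.cast_add]
  | monomial d a =>
    rw [aeval_monomial, Finsupp.prod_fintype _ _ (by simp), Fin.prod_univ_two, coeff_monomial,
      eq_intCast, ← map_intCast (Polynomial.C : ℚ →+* _), Polynomial.coeff_C_mul]
    by_cases h : d 0 = 0
    · simp [h, hm, Polynomial.coeff_X_pow, Finsupp.ext_iff, Fin.forall_fin_two, eq_comm]
    · simp [h, hm, Finsupp.ext_iff, Fin.forall_fin_two]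

end COL15
open COL15

theorem st_COL (hM : St_MM) (hP : St_SPEC) : St_COL := by
  intro F _ _ b g hx hi n π μ ν N hN m hm
  let K := RatFunc ℚ
  have hs : Transcendental ℚ (RatFunc.X : K) := by
    have := RatFunc.transcendental_X (K := ℚ)
    rwa [Subsingleton.elim (RatFunc.instAlgebraOfPolynomial ℚ ℚ) DivisionRing.toRatAlgebra] at this
  generalize (RatFunc.X : K) = s at hs
  have hq := Lau62.pow_ne_one hs
  let ev : MvPolynomial (Fin 2) ℤ →+* K := eval₂Hom (Int.castRingHom K) ![0, s]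
  have h := (MJP.st_UFD F _ hx).1 K ev
  have r : ∀ A, MJP.Rv ![b, g] ev (aeval ![b, g] A) (ev A) := fun A =>
    ⟨A, 1, by simp, by simp, by simp⟩
  have inj := transcendental_iff_injective.1 hs
  obtain ⟨a, h1, h2⟩ := val hM hP h (by simpa [ev] using r (X 0)) (by simpa [ev] using r (X 1))
    (fun e => by
      have := congrArg (Polynomial.eval 0) (inj (a₁ := 1 + Polynomial.X) (a₂ := 0)
        (by simpa using e))
      simp at this) hq rfl rfl hi π μ ν
  obtain ⟨G, h3, rfl⟩ := MJS.FIN52.cone_poly h1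
  have h4 : ev = (Polynomial.aeval s).toRingHom.comp
      (aeval ![0, (Polynomial.X : Polynomial ℚ)]).toRingHom := by
    refine ringHom_ext (fun i => by simp) fun i => ?_
    fin_cases i <;> simp [ev]
  have h5 : G = aeval ![0, Polynomial.X] N :=
    inj ((h.uniq (hN ▸ h2) (r N)).trans (by rw [h4]; rfl))
  rw [← Int.cast_nonneg_iff (R := ℚ), ← coeff_col N hm, ← h5]
  exact h3 _

end MJZ
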