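import Pool.Agent.Lib.MP_9c49f6_co.Z_CH
import Pool.Agent.Lib.MP_9c49f6_co.JB_JK

/-! Row `MM`: the Casimir matrix. -/

namespace MJZ
open MJ MJT Finset MvPolynomial MJB MJB.SKEW Matrix

namespace MM15
variable {K : Type} [Field K] {n : ℕ}

lemma dOf_ones : dOf (ones n) = Finsupp.single 0 n := by
  ext k
  simp [dOf, ones, Multiset.count_replicate, Finsupp.single_apply]

lemma zz_ones : zz (ones n) = n.factorial := by
  rw [← zn_dOf, dOf_ones, zn, Finsupp.prod_single_index] <;> simp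

lemma zz_ne [CharZero K] (π : n.Partition) : (zz π : K) ≠ 0 :=
  Nat.cast_ne_zero.2 (zn_dOf π ▸ zn_ne _)

lemma lin_eq [CharZero K] {f : Lam K} (hf : f ∈ Hm K n) (α : Lam K →ₗ[K] K) :
    ∑ π : n.Partition, α (monomial (dOf π) 1) * coeff (dOf π) f = α f := by
  conv_rhs => rw [MJS.eq_sum_pm hf, map_sum]
  refine sum_congr rfl fun π _ => ?_
  rw [mul_comm, ← smul_eq_mul, ← map_smul, smul_monomial, smul_eq_mul, mul_one]

lemma tri_of {A E : Mat n K} (h1 : Low (E * Cm n K)) (h2 : ∀ l, (E * Cm n K) l l ≠ 0)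
    (h3 : Low (E * A * Cm n K)) : Tri A := by
  intro a l ha k hk
  have hd := MJS.det_tri (E * Cm n K) (fun κ ρ h => not_lt.1 fun h' => h (h1 _ _ h')) h2
  have hS := Matrix.nonsing_inv_mul _ (Ne.isUnit hd)
  generalize (E * Cm n K)⁻¹ = S at hS
  have h4 : Cm n K * (S * E) = 1 := mul_eq_one_comm.1 (by rw [Matrix.mul_assoc, hS])
  have h5 := (JK.low_inv h1 hS).mul h3
  have h6 : A * Cm n K = Cm n K * (S * (E * A * Cm n K)) := by
    calc A * Cm n K = Cm n K * (S * E) * (A * Cm n K) := by rw [h4, Matrix.one_mul]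
      _ = _ := by simp only [Matrix.mul_assoc]
  rw [coeff_sym_eq, vecMul_vecMul, h6, ← vecMul_vecMul]
  generalize S * (E * A * Cm n K) = B at h5
  show ∑ j, vecMul a (Cm n K) j * B j k = 0
  refine sum_eq_zero fun j _ => ?_
  rcases lt_or_ge (lst l) (lst j) with h | h
  · rw [← coeff_sym_eq, ha j h, zero_mul]
  · exact mul_eq_zero_of_right _ (h5 _ _ (h.trans_lt hk))

end MM15
open MM15

theorem st_MM (hC : St_CH) (hV : St_VAN) (hE : St_EE) : St_MM := by
  intro K _ _ s h0 hq n
  obtain ⟨ch, h1, h2, h3⟩ := hC K s h0 hq n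
  let p : n.Partition → Lam K := fun π => monomial (dOf π) 1
  let c : List ℕ → n.Partition → K := fun L π => coeff (dOf π) (ch L)
  let Kk : Mat n K := sw (1 + s) n fun L => vecMulVec (c L) (c L)
  have bil : ∀ a b : n.Partition → K, ∑ π, ∑ ν, a π * Kk π ν * b ν =
      sw (1 + s) n fun L => (∑ π, a π * c L π) * ∑ ν, b ν * c L ν := fun a b => by
    let φ : Mat n K →ₗ[K] K :=
      { toFun := fun A => ∑ π, ∑ ν, a π * A π ν * b ν
        map_add' := fun A B => by simp [mul_add, add_mul, sum_add_distrib]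
        map_smul' := fun r A => by simp [mul_sum, mul_assoc, mul_left_comm r] }
    refine (sw_map φ _ n _).trans (sw_congr _ _ _ _ fun L _ => ?_)
    rw [sum_mul_sum]
    show ∑ π, ∑ ν, a π * (c L π * c L ν) * b ν = _
    exact sum_congr rfl fun π _ => sum_congr rfl fun ν _ => by ring
  have ent : ∀ π ν, Kk π ν = sw (1 + s) n fun L => c L π * c L ν := fun π ν => by
    simpa [Pi.single_apply] using bil (Pi.single π 1) (Pi.single ν 1)
  clear_value Kk
  refine ⟨Matrix.of fun π ν => zz π * Kk π ν, ?_, fun π ν => ?_, fun π ν => ?_, fun π => ?_⟩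
  · choose d d1 d2 using hE K n
    let β : (Fin n →₀ ℕ) → Bool → Lam K →ₗ[K] K := fun e b => lcoeff K e ∘ₗ (rs n b).toLinearMap
    refine tri_of (E := Matrix.of fun κ μ => β (d κ) false (p μ) / zz μ) (fun κ ρ h => ?_) (fun κ => ?_)
      fun κ ρ h => ?_
    · exact (coeff_sym_eq _ _).symm.trans ((d2 κ _ fun _ => rfl).2 ρ h)
    · exact fun h => (d2 κ _ fun _ => rfl).1 ((coeff_sym_eq _ _).trans h)
    have h4 := hV K (1 + s) h0 (fun h => hq 1 (by linear_combination s * h)) n _ _ (d1 κ ρ h)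
    rw [← h4, sw_congr _ _ _ (fun L => (∑ π, β (d κ) false (p π) * c L π) *
      ∑ ν, β (expo ρ) true (p ν) * c L ν) fun L hL => ?_, ← bil, sum_comm]
    · simp only [Matrix.mul_apply, sum_mul, of_apply]
      refine sum_congr rfl fun ν _ => sum_congr rfl fun π _ => ?_
      have e : β (expo ρ) true (p ν) = Cm n K ν ρ := by
        simp only [β, p, CH15.rs_true, LinearMap.comp_apply, AlgHom.toLinearMap_apply,
          lcoeff_apply, res, aeval_monomial, prod_dOf ν (psum (Fin n) K), map_one, one_mul]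
        rfl
      rw [e, ← mul_assoc, div_mul_cancel₀ _ (zz_ne π)]
    · rw [lin_eq (h1 L hL).1, lin_eq (h1 L hL).1, (h1 L hL).2.2, (h1 L hL).2.2, mul_comm]; rfl
  · simp only [of_apply]
    rw [ent, ent, sw_congr _ _ _ _ fun L _ => mul_comm (c L π) _]; ring
  · refine mul_mem (natCast_mem _ _) ?_
    rw [ent]
    exact sw_mem (MJS.cone s).toAddSubmonoid (fun v hv => (MJS.cone s).mul_mem (MJS.q_cone s) hv) n _
      fun L hL => (MJS.cone s).mul_mem ((h1 L hL).2.1 _) ((h1 L hL).2.1 _)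
  · have h4 := bil (Pi.single π (zz π)) fun ν => phi (1 + s) 0 (p ν)
    have h5 : ∀ L, Ok n L → ∑ ν, phi (1 + s) 0 (p ν) * c L ν = phi (1 + s) 0 (ch L) :=
      fun L hL => lin_eq (h1 L hL).1 (phi (1 + s) 0).toLinearMap
    rw [sw_markov _ _ _ fun m j L hm hj hL => by
      rw [h5 _ ((hL.step hj.le).mono hm), h3 m j L hm hj hL, mul_zero], h5 _ (by simp [Ok])] at h4
    have h6 := lin_eq (Th_Hm fun ν : n.Partition => zz π * Kk π ν) (phi (1 + s) 0).toLinearMap
    have hs : s ≠ 0 := fun h => hq 0 (by simp [h])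
    simp only [coeff_Th, AlgHom.toLinearMap_apply] at h6
    have h7 : phi (1 + s) 0 (X 0 ^ n) * (-s) ^ n = 1 := by
      rw [map_pow, ← mul_pow, phi, aeval_X, show _ * -s = 1 by simp [hs], one_pow]
    have h8 : c [] π = if π = ones n then 1 else 0 := by
      simp only [c, h2, X_pow_eq_monomial, ← dOf_ones, coeff_monomial, dOf_inj.eq_iff, eq_comm]
    rw [sum_comm] at h4
    simp only [Pi.single_apply, ite_mul, zero_mul, sum_ite_eq', mem_univ, if_true, h2, h8] at h4
    refine (congrArg (· * (-s) ^ n) (h6.symm.trans ((sum_congr rfl fun _ _ =>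
      mul_comm _ _).trans h4))).trans ?_
    split_ifs with h
    · rw [h, zz_ones, smul_eq_mul]; linear_combination ((1 + s) ^ n.choose 2 * n.factorial) * h7
    · simp

end MJZ
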